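import Pool.Agent.Zilber.ND
import Pool.Agent.Srf5.ARoot

set_option autoImplicit false

/-! IND: the fields `Lf`, `Lo` are algebraically closed in the ultraproduct. -/

namespace Pool.Agent.Zilber

open Filter NumberField Module Pool.Agent.LAll Pool.Agent.LSharp Pool.Agent.CITLines

variable {J : Type} {𝒰 : Ultrafilter J} {K : J → Type} [∀ j, Field (K j)] [∀ j, NumberField (K j)]

private theorem ialg_rep {σ : J → ℝ} {x : Ult 𝒰 K} (h : x ∈ Lf 𝒰 K σ) : Hb 𝒰 σ x.rep := by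
  obtain ⟨z, rfl, hz⟩ := h
  exact hz.of_eq ((Ult.rep_mk (𝒰 := 𝒰) z).mono fun j hj => hj.symm)

private theorem ialg_poly {σ : J → ℝ} (x : Ult 𝒰 K) (P : Polynomial (Ult 𝒰 K)) (hP : P ≠ 0)
    (hx : P.eval x = 0) (hc : ∀ i, P.coeff i ∈ Lf 𝒰 K σ) : x ∈ Lf 𝒰 K σ := by
  classical
  set n := P.natDegree with hn
  obtain ⟨C, hC0, hC⟩ := Pool.Agent.Srf5.height_root (m := n + 1) (J := n)
    (fun i => MvPolynomial.X i) (fun _ => 1) (fun j i => by
      rw [MvPolynomial.degreeOf_X]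
      split_ifs <;> simp)
  have hlead : P.coeff n ≠ 0 := Polynomial.leadingCoeff_ne_zero.2 hP
  have hsum : ∀ᶠ j in (𝒰 : Filter J),
      ∑ i : Fin (n + 1), (P.coeff i).rep j * (x.rep j) ^ (i : ℕ) = 0 := by
    have h1 : Ult.mk 𝒰 K (fun j => ∑ i : Fin (n + 1), (P.coeff i).rep j * (x.rep j) ^ (i : ℕ)) =
        0 := by
      have h2 : (fun j => ∑ i : Fin (n + 1), (P.coeff i).rep j * (x.rep j) ^ (i : ℕ)) =
          ∑ i : Fin (n + 1), (P.coeff i).rep * x.rep ^ (i : ℕ) := by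
        funext j
        rw [Finset.sum_apply]
        rfl
      rw [h2, map_sum]
      simp only [map_mul, map_pow, Ult.mk_rep]
      rw [Fin.sum_univ_eq_sum_range (fun i => P.coeff i * x ^ i) (n + 1), hn,
        ← Polynomial.eval_eq_sum_range]
      exact hx
    exact Ult.mk_eq_zero.1 h1
  have hB : ∀ i : Fin (n + 1), Hb 𝒰 σ (P.coeff i).rep := fun i => ialg_rep (hc i)
  choose B hB' using hB
  have hall : ∀ᶠ j in (𝒰 : Filter J), ∀ i : Fin (n + 1),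
      ht ((P.coeff i).rep j) ≤ B i * max 1 (σ j) := Filter.eventually_all.2 hB'
  refine ⟨x.rep, Ult.mk_rep x, ∑ i, B i + C, ?_⟩
  filter_upwards [hsum, hall, Ult.rep_ne_zero hlead] with j h1 h2 h3
  have h4 := hC (K j) (fun i => (P.coeff i).rep j) (x.rep j)
    (by simpa only [MvPolynomial.aeval_X] using h1)
    (by simpa only [MvPolynomial.aeval_X, Fin.val_last] using h3)
  have hfr : (0 : ℝ) < Module.finrank ℚ (K j) := by exact_mod_cast Module.finrank_pos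
  have h5 : ht (x.rep j) ≤ ∑ i : Fin (n + 1), ht ((P.coeff i).rep j) + C := by
    unfold ht
    rw [← Finset.sum_div, div_add' _ _ _ hfr.ne']
    refine div_le_div_of_nonneg_right (h4.trans (le_of_eq ?_)) hfr.le
    simp only [Nat.cast_one, one_mul]
  have h6 : (1 : ℝ) ≤ max 1 (σ j) := le_max_left _ _
  calc ht (x.rep j) ≤ ∑ i : Fin (n + 1), ht ((P.coeff i).rep j) + C := h5
    _ ≤ ∑ i : Fin (n + 1), B i * max 1 (σ j) + C * max 1 (σ j) := by
      refine add_le_add (Finset.sum_le_sum fun i _ => h2 i) ?_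
      nlinarith
    _ = (∑ i, B i + C) * max 1 (σ j) := by rw [← Finset.sum_mul]; ring

/-- **`Lf σ` is algebraically closed in the ultraproduct.**

Proof. Let `x` be a root of a polynomial `∑ i, a i T^i ≠ 0` with `a i ∈ Lf σ` and degree `n`;
WLOG `a n ≠ 0`. For almost all `j`
`∑ i, (a i).rep j * (x.rep j) ^ i = 0` and `(a n).rep j ≠ 0`, so by
`Pool.Agent.Srf5.height_root` (for `m = n + 1`, the
coefficients `c i = X i`, `D = 1`) `logHeight₁ (x.rep j) ≤ ∑ i, logHeight₁ ((a i).rep j) + C [K j : ℚ]`;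
divide by `[K j : ℚ]` (`ht`). The `(a i).rep j` have height `≤ C' max 1 (σ j)` for almost all `j`
(`Ult.rep_mk`, `Hb.of_eq`). -/
theorem lf_alg {σ : J → ℝ} (x : Ult 𝒰 K) (hx : IsAlgebraic (Lf 𝒰 K σ) x) :
    x ∈ Lf 𝒰 K σ := by
  obtain ⟨p, hp, h0⟩ := hx
  refine ialg_poly x (p.map (Lf 𝒰 K σ).subtype) ?_ ?_ fun i => ?_
  · exact (Polynomial.map_ne_zero_iff (Lf 𝒰 K σ).subtype_injective).2 hp
  · rw [Polynomial.eval_map]
    exact h0
  · rw [Polynomial.coeff_map]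
    exact (p.coeff i).2

private theorem ialg_common {σ : J → ℝ} (f : ℕ → Ult 𝒰 K) (hf : ∀ i, f i ∈ Lo 𝒰 K σ) (n : ℕ) :
    ∃ σ' : J → ℝ, Oo 𝒰 σ' σ ∧ ∀ i < n, f i ∈ Lf 𝒰 K σ' := by
  induction n with
  | zero => exact ⟨_, Oo.zero 𝒰 σ, fun i hi => absurd hi (Nat.not_lt_zero i)⟩
  | succ n ih =>
    obtain ⟨σ₁, h1, h2⟩ := ih
    obtain ⟨σ₂, h3, h4⟩ := (mem_Lo 𝒰 K).1 (hf n)
    refine ⟨fun j => max (σ₁ j) (σ₂ j), h1.max 𝒰 h3, fun i hi => ?_⟩
    rcases Nat.lt_succ_iff_lt_or_eq.1 hi with h | rfl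
    · exact Lf_mono 𝒰 K (fun j => le_max_left _ _) (h2 i h)
    · exact Lf_mono 𝒰 K (fun j => le_max_right _ _) h4

/-- Proof. The finitely many coefficients of an equation of `x` are in `Lf σ i` with `σ i = o(s)`;
let `σ = max σ i`
(`Oo.max`, `Lf_mono`), so `x` is algebraic over `Lf σ`, `lf_alg`. -/
theorem lo_alg {σ : J → ℝ} (x : Ult 𝒰 K) (hx : IsAlgebraic (Lo 𝒰 K σ) x) : x ∈ Lo 𝒰 K σ := by
  obtain ⟨p, hp, h0⟩ := hx
  obtain ⟨σ', h1, h2⟩ := ialg_common (fun i => ((p.coeff i : Lo 𝒰 K σ) : Ult 𝒰 K))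
    (fun i => (p.coeff i).2) (p.natDegree + 1)
  refine (mem_Lo 𝒰 K).2 ⟨σ', h1, ialg_poly x (p.map (Lo 𝒰 K σ).subtype) ?_ ?_ fun i => ?_⟩
  · exact (Polynomial.map_ne_zero_iff (Lo 𝒰 K σ).subtype_injective).2 hp
  · rw [Polynomial.eval_map]
    exact h0
  · rw [Polynomial.coeff_map]
    by_cases hi : i < p.natDegree + 1
    · exact h2 i hi
    · rw [Polynomial.coeff_eq_zero_of_natDegree_lt (by omega), map_zero]
      exact zero_mem _

/-- Proof. `σ' = o(σ)` is `≤ |σ| = σ` for almost all `j` (`Hb.mono`). -/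
theorem lo_le_lf {σ : J → ℝ} (h : ∀ j, 1 ≤ σ j) : Lo 𝒰 K σ ≤ Lf 𝒰 K σ := by
  rintro x ⟨σ', h1, z, hz, hb⟩
  refine ⟨z, hz, hb.mono ⟨1, ?_⟩⟩
  filter_upwards [h1 1 one_pos] with j hj
  rw [abs_of_nonneg (zero_le_one.trans (h j))] at hj
  exact hj.trans (mul_le_mul_of_nonneg_left (le_max_right _ _) zero_le_one)

theorem kf_le_lf {σ : J → ℝ} : kf 𝒰 K σ ≤ Lf 𝒰 K σ := by
  rintro _ ⟨a, rfl, ha⟩
  exact ⟨_, rfl, ha⟩

theorem ko_le_lo {σ : J → ℝ} : ko 𝒰 K σ ≤ Lo 𝒰 K σ := by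
  rintro x ⟨σ', h1, h2⟩
  exact ⟨σ', h1, kf_le_lf h2⟩

/-- **The top block has positive transcendence degree.** An element of height at least `c σ` is
transcendental over `Lo σ`.

Proof. Otherwise `x ∈ Lo σ` by `lo_alg`: there are `σ' = o(σ)` and a representative `z` with
`ht (z j) ≤ C max 1 (σ' j)`, so `c * σ j ≤ C max 1 (σ' j)` for almost all `j`. Since `σ → ∞`
along the ultrafilter (`hinf`) and `σ' = o(σ)` this is impossible. -/
theorem tr_of_low {σ : J → ℝ} (h1 : ∀ j, 1 ≤ σ j) (hinf : Tendsto σ (𝒰 : Filter J) atTop)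
    (x : Ult 𝒰 K) (c : ℝ) (hc : 0 < c) (hl : ∀ᶠ j in (𝒰 : Filter J), c * σ j ≤ ht (x.rep j)) :
    Transcendental (Lo 𝒰 K σ) x := by
  intro halg
  obtain ⟨σ', h2, h3⟩ := (mem_Lo 𝒰 K).1 (lo_alg x halg)
  obtain ⟨C, hC⟩ := ialg_rep h3
  set ε : ℝ := c / (2 * (|C| + 1)) with hε
  have hC1 : (0 : ℝ) < |C| + 1 := by positivity
  have hε0 : 0 < ε := by positivity
  have h4 := hinf.eventually_ge_atTop (1 / ε)
  obtain ⟨j, hj⟩ := (hl.and (hC.and ((h2 ε hε0).and h4))).exists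
  obtain ⟨g1, g2, g3, g4⟩ := hj
  have hσ := h1 j
  have hσ0 : 0 < σ j := by linarith
  rw [abs_of_pos hσ0] at g3
  rw [div_le_iff₀ hε0] at g4
  have g5 : max 1 (σ' j) ≤ ε * σ j := max_le (by linarith) g3
  have g6 : (0 : ℝ) ≤ max 1 (σ' j) := zero_le_one.trans (le_max_left _ _)
  have g7 : c * σ j ≤ |C| * (ε * σ j) :=
    calc c * σ j ≤ C * max 1 (σ' j) := g1.trans g2
      _ ≤ |C| * max 1 (σ' j) := mul_le_mul_of_nonneg_right (le_abs_self C) g6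
      _ ≤ |C| * (ε * σ j) := mul_le_mul_of_nonneg_left g5 (abs_nonneg C)
  have g8 : ε * (|C| + 1) = c / 2 := by
    rw [hε]
    field_simp
  have g9 : |C| * (ε * σ j) ≤ c / 2 * σ j := by
    rw [← g8]
    nlinarith [mul_pos hε0 hσ0]
  nlinarith [mul_pos hc hσ0]

end Pool.Agent.Zilber
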