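import Pool.Agent.Zilber.ND
import Pool.Agent.LSharp.BRTau

set_option autoImplicit false

/-! IND: existence of the branch. -/

namespace Pool.Agent.Zilber

open Filter NumberField Module Pool.Agent.LAll Pool.Agent.LSharp Pool.Agent.CITLines

variable {J : Type} {𝒰 : Ultrafilter J} {K : J → Type} [∀ j, Field (K j)] [∀ j, NumberField (K j)]
  {k : ℕ} {s : Fin (k + 1) → J → ℝ} {F : Fin (k + 1) → Subfield (Ult 𝒰 K)} {ι β : Type}
  {cl : ι → Fin (k + 1)} {x : ι → Ult 𝒰 K} {bs : β → ι}

/-- **Existence of the branch.**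

Proof. For every `l` apply `exists_tau` (LSharp/BRTau) with the field `F l`, the set
`A = {b | cl (bs b) = l}` (`Finset.univ.filter`), `t b = x (bs b)` and `S = {x i | cl i = l}` (a
finite image); compare the proof of `exists_taus` in BTaus.lean. `choose L τ ..`, and
`X i = τ (cl i) ⟨x i, _⟩`. -/
theorem exists_br [Fintype ι] [Fintype β] (hc : Conf 𝒰 K s F cl x bs) :
    ∃ X : ι → Ult 𝒰 (PS β K), Br 𝒰 K F cl x bs X := by
  classical
  have key : ∀ a : Fin (k + 1), ∃ (L : Subfield (Ult 𝒰 K)) (τ : L →+* Ult 𝒰 (PS β K)),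
      F a ≤ L ∧ (∀ i, cl i = a → x i ∈ L) ∧
      (∀ z : L, IsAlgebraic (Algebra.adjoin (F a) {y | ∃ b, cl (bs b) = a ∧ y = x (bs b)})
        (z : Ult 𝒰 K)) ∧
      (∀ z, eps0 β K (τ z) = z) ∧
      (∀ z : L, (z : Ult 𝒰 K) ∈ F a → τ z = cst β K z) ∧
      (∀ b, cl (bs b) = a → ∀ z : L, (z : Ult 𝒰 K) = x (bs b) →
        τ z = cst β K (x (bs b)) + XU K b) ∧
      ∀ z, ∀ᶠ j in (𝒰 : Filter J), (τ z).rep j ∈ onlyB {b | cl (bs b) = a} := by
    intro a
    have hA : ((Finset.univ.filter fun b => cl (bs b) = a : Finset β) : Set β) =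
        {b | cl (bs b) = a} := by
      ext b
      simp
    have hmem : ∀ b, b ∈ (Finset.univ.filter fun b => cl (bs b) = a : Finset β) ↔
        cl (bs b) = a := by
      intro b
      simp
    have hset : ((fun b => x (bs b)) ''
        ((Finset.univ.filter fun b => cl (bs b) = a : Finset β) : Set β) : Set (Ult 𝒰 K)) =
        {y | ∃ b, cl (bs b) = a ∧ y = x (bs b)} := by
      rw [hA]
      ext y
      constructor
      · rintro ⟨b, hb, rfl⟩
        exact ⟨b, hb, rfl⟩
      · rintro ⟨b, hb, rfl⟩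
        exact ⟨b, hb, rfl⟩
    have hi : AlgebraicIndependent (F a)
        (fun b : {b // b ∈ (Finset.univ.filter fun b => cl (bs b) = a : Finset β)} =>
          x (bs b)) := by
      have h1 := (hc.ind a).comp
        (fun b : {b // b ∈ (Finset.univ.filter fun b => cl (bs b) = a : Finset β)} =>
          (⟨b.1, (hmem b.1).1 b.2⟩ : {b // cl (bs b) = a})) (by
        intro b b' hbb
        exact Subtype.ext (congrArg (fun c : {b // cl (bs b) = a} => c.1) hbb))
      exact h1
    have hal : ∀ y ∈ (Finset.univ.filter fun i => cl i = a).image x,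
        IsAlgebraic (Algebra.adjoin (F a) ((fun b => x (bs b)) ''
          ((Finset.univ.filter fun b => cl (bs b) = a : Finset β) : Set β))) y := by
      intro y hy
      obtain ⟨i, hi', rfl⟩ := Finset.mem_image.1 hy
      have hs2 := (Finset.mem_filter.1 hi').2
      rw [hset, ← hs2]
      exact hc.alg i
    obtain ⟨L, τ, h1, _, h3, h4, h5, h6, h7, h8⟩ :=
      exists_tau (F a) (Finset.univ.filter fun b => cl (bs b) = a)
        (fun b => x (bs b)) hi ((Finset.univ.filter fun i => cl i = a).image x) hal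
    rw [hset] at h4
    rw [hA] at h8
    refine ⟨L, τ, h1, fun i hi' => h3 _ (Finset.mem_image.2 ⟨i, ?_, rfl⟩), h4, h5, h6,
      fun b hb z hz => h7 b ((hmem b).2 hb) z hz, h8⟩
    exact Finset.mem_filter.2 ⟨Finset.mem_univ i, hi'⟩
  choose L τ h1 h2 h3 h4 h5 h6 h7 using key
  refine ⟨fun i => τ (cl i) ⟨x i, h2 (cl i) i rfl⟩, ⟨fun l => ⟨L l, τ l, h1 l, h2 l, h3 l, h4 l,
    h5 l, h6 l, h7 l, ?_⟩⟩⟩
  rintro i rfl y hy
  congr 1
  exact Subtype.ext hy.symm

end Pool.Agent.Zilber
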