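import Pool.Agent.Zilber.Defs

set_option autoImplicit false

/-! The statements NDS and NDc: points over number fields with many multiplicative relations. -/

namespace Pool.Agent.Zilber

open Filter NumberField Pool.Agent.LSharp Pool.Agent.CITLines

/-- For most `j` the point `x_j` satisfies `r` independent multiplicative relations. -/
def Rels {J : Type} (𝒰 : Ultrafilter J) (K : J → Type) [∀ j, Field (K j)] {ι : Type} [Fintype ι]
    (x : ι → Ult 𝒰 K) (r : ℕ) : Prop :=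
  ∀ᶠ j in (𝒰 : Filter J), ∃ e : Fin r → ι → ℤ, LinearIndependent ℤ e ∧
    ∀ p, mon (fun i => (x i).rep j) (e p) = 1

/-- The transcendence degree over `ℚ` is at least the number of multiplicative relations at the levels `j`,
for points of the ultraproduct which satisfy no multiplicative relation. -/
def NDS : Prop :=
  ∀ (J : Type) (𝒰 : Ultrafilter J) (K : J → Type) [∀ j, Field (K j)] [∀ j, NumberField (K j)]
    (n r : ℕ) (x : Fin n → Ult 𝒰 K), (∀ i, x i ≠ 0) →
    (∀ a : Fin n → ℤ, a ≠ 0 → mon x a ≠ 1) → Rels 𝒰 K x r → (r : ℕ∞) ≤ rk ℚ (Set.range x)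

/-- The same for points no monomial of which is algebraic over `ℚ`. -/
def NDc : Prop :=
  ∀ (J : Type) (𝒰 : Ultrafilter J) (K : J → Type) [∀ j, Field (K j)] [∀ j, NumberField (K j)]
    (n r : ℕ) (x : Fin n → Ult 𝒰 K), (∀ i, x i ≠ 0) →
    (∀ a : Fin n → ℤ, a ≠ 0 → Transcendental ℚ (mon x a)) → Rels 𝒰 K x r →
    (r : ℕ∞) ≤ rk ℚ (Set.range x)

/-- **Theorem M.** (D) the kernel has dimension at most `t`; (A) at most `t - 1` if block `0` is empty. -/
def ThmM : Prop :=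
  ∀ (J : Type) (𝒰 : Ultrafilter J) (K : J → Type) [∀ j, Field (K j)] [∀ j, NumberField (K j)]
    (k : ℕ) (s : Fin (k + 1) → J → ℝ) (ι : Type) [Fintype ι] (cl : ι → Fin (k + 1))
    (x : ι → Ult 𝒰 K), BD 𝒰 K s cl x →
    (Module.finrank ℝ (Ker 𝒰 K s cl x) : ℕ∞) ≤ tr 𝒰 K (kk 𝒰 K s) cl x ∧
    ((∀ i, cl i ≠ 0) → Nonempty ι →
      (Module.finrank ℝ (Ker 𝒰 K s cl x) : ℕ∞) + 1 ≤ tr 𝒰 K (kk 𝒰 K s) cl x)

end Pool.Agent.Zilber
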