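import Pool.Agent.Zilber.Ext
import Pool.Agent.Zilber.ND

set_option autoImplicit false

/-! IND: the extended configuration (constants as new coordinates). -/

namespace Pool.Agent.Zilber

open Filter NumberField Module Pool.Agent.LAll Pool.Agent.LSharp Pool.Agent.CITLines

variable {J : Type} {𝒰 : Ultrafilter J} {K : J → Type} [∀ j, Field (K j)] [∀ j, NumberField (K j)]
  {k : ℕ} {s : Fin (k + 1) → J → ℝ} {ι : Type} [Fintype ι]
  {cl : ι → Fin (k + 1)} {x : ι → Ult 𝒰 K}

/-- **The extended configuration.**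

Proof. For every `l` apply `ext` to `F l`, `G l` and the family `x i`, `i : {i // cl i = l}`:
`g l, m l, c l, y l`. Put `γ = Σ l, Fin (g l)`, `cc a = a.1`, `c a = c a.1 a.2`,
`β = Σ l, (Fin (g l) ⊕ Fin (m l))`, `bs ⟨l, inl a⟩ = inr ⟨l, a⟩`, `bs ⟨l, inr b⟩ = inl (y l b)`, so
the block of `bs ⟨l, _⟩` is `l`. `Conf`: `ne`: `x i ≠ 0` by `h.ne`, `c a ≠ 0` because it belongs to
an algebraically independent family; `hgt`: `h.hgt`, `hG`; `ind`: the family over
`{b // block of bs b = l}` is the family `Sum.elim (c l) (x ∘ y l)` reindexed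
(`AlgebraicIndependent.comp` with an equivalence); `alg`: `ext` (for a coordinate `inr a` it is a
member of the basis). The cardinalities: `card β = ∑ l, (g l + m l)` and `m l` is the rank of
`{x i | cl i = l}` over `F l ⊔ G l` (`Set.range` of the subtype family is this set). If `G l ≤ F l`
then `c l a ∈ F l` cannot be a member of a family which is algebraically independent over `F l`. If
the rank for `l` is not `0` then `m l ≠ 0` and `b = ⟨l, inr 0⟩` works. -/
theorem exists_ext (h : BD 𝒰 K s cl x) (F G : Fin (k + 1) → Subfield (Ult 𝒰 K))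
    (hG : ∀ l, G l ≤ Lf 𝒰 K (s l)) :
    ∃ (γ β : Type) (_ : Fintype γ) (_ : Fintype β) (_ : DecidableEq β) (c : γ → Ult 𝒰 K)
      (cc : γ → Fin (k + 1)) (bs : β → ι ⊕ γ),
      (∀ a, c a ∈ G (cc a)) ∧
      (∀ l, AlgebraicIndependent (F l) (fun a : {a // cc a = l} => c a)) ∧
      Conf 𝒰 K s F (Sum.elim cl cc) (Sum.elim x c) bs ∧
      (Fintype.card β : ℕ∞) = Fintype.card γ + tr 𝒰 K (fun l => F l ⊔ G l) cl x ∧
      (∀ l, G l ≤ F l → ∀ a, cc a ≠ l) ∧
      ∀ l, rk (↥(F l ⊔ G l)) {y | ∃ i, cl i = l ∧ y = x i} ≠ 0 →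
        ∃ b i, bs b = Sum.inl i ∧ cl i = l := by
  classical
  have hex := fun l => ext (F l) (G l) (fun i : {i // cl i = l} => x i)
  choose g m c y hc hm hind halg using hex
  let blk : (Σ l, (Fin (g l) ⊕ Fin (m l))) → ι ⊕ (Σ l, Fin (g l)) := fun b =>
    Sum.elim (fun a => Sum.inr ⟨b.1, a⟩) (fun a => Sum.inl (y b.1 a).1) b.2
  let c' : (Σ l, Fin (g l)) → Ult 𝒰 K := fun a => c a.1 a.2
  let cc : (Σ l, Fin (g l)) → Fin (k + 1) := fun a => a.1
  have hblk : ∀ b, Sum.elim cl cc (blk b) = b.1 := by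
    rintro ⟨l, a | a⟩
    · rfl
    · exact (y l a).2
  have hval : ∀ b : (Σ l, (Fin (g l) ⊕ Fin (m l))), Sum.elim x c' (blk b) =
      Sum.elim (c b.1) ((fun i : {i // cl i = b.1} => x i) ∘ y b.1) b.2 := by
    rintro ⟨l, a | a⟩ <;> rfl
  have hset : ∀ l, {z | ∃ b, Sum.elim cl cc (blk b) = l ∧ z = Sum.elim x c' (blk b)} =
      Set.range (Sum.elim (c l) ((fun i : {i // cl i = l} => x i) ∘ y l)) := by
    intro l
    ext z
    constructor
    · rintro ⟨b, hb, rfl⟩
      rw [hblk] at hb
      subst hb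
      exact ⟨b.2, (hval b).symm⟩
    · rintro ⟨a, rfl⟩
      exact ⟨⟨l, a⟩, hblk _, (hval ⟨l, a⟩).symm⟩
  have hrange : ∀ l, Set.range (fun i : {i // cl i = l} => x i) =
      {z | ∃ i, cl i = l ∧ z = x i} := by
    intro l
    ext z
    constructor
    · rintro ⟨i, rfl⟩
      exact ⟨i.1, i.2, rfl⟩
    · rintro ⟨i, hi, rfl⟩
      exact ⟨⟨i, hi⟩, rfl⟩
  have hci : ∀ l, AlgebraicIndependent (F l) (fun a : {a // cc a = l} => c' a) := by
    intro l
    have h1 : AlgebraicIndependent (F l) (c l) := by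
      have h2 := (hind l).comp Sum.inl Sum.inl_injective
      exact h2
    have h2 : Function.Injective
        (fun a : {a // cc a = l} => cast (congrArg (fun l => Fin (g l)) a.2) a.1.2) := by
      rintro ⟨⟨l1, a⟩, rfl⟩ ⟨⟨l2, b⟩, h3⟩ h4
      change l2 = l1 at h3
      subst h3
      have h5 : a = b := h4
      subst h5
      rfl
    have h3 := h1.comp _ h2
    have h4 : (fun a : {a // cc a = l} => c' a) =
        c l ∘ (fun a : {a // cc a = l} => cast (congrArg (fun l => Fin (g l)) a.2) a.1.2) := by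
      funext ⟨⟨l1, a⟩, h5⟩
      change l1 = l at h5
      subst h5
      rfl
    rw [h4]
    exact h3
  refine ⟨_, _, inferInstance, inferInstance, inferInstance, c', cc, blk, ?_, hci, ?_, ?_, ?_, ?_⟩
  · intro a
    exact hc a.1 a.2
  · refine ⟨h.scl, ?_, ?_, ?_, ?_⟩
    · rintro (i | a)
      · exact h.ne i
      · exact (hci (cc a)).ne_zero ⟨a, rfl⟩
    · rintro (i | a)
      · exact h.hgt i
      · exact hG _ (hc a.1 a.2)
    · intro l
      have h2 : Function.Injective
          (fun b : {b // Sum.elim cl cc (blk b) = l} =>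
            cast (congrArg (fun l => Fin (g l) ⊕ Fin (m l)) ((hblk _).symm.trans b.2)) b.1.2) := by
        rintro ⟨⟨l1, a⟩, h3⟩ ⟨⟨l2, b⟩, h4⟩ h5
        have h6 : l1 = l := (hblk _).symm.trans h3
        have h7 : l2 = l := (hblk _).symm.trans h4
        subst h6
        subst h7
        have h8 : a = b := h5
        subst h8
        rfl
      have h3 := (hind l).comp _ h2
      have h4 : (fun b : {b // Sum.elim cl cc (blk b) = l} => Sum.elim x c' (blk b)) =
          Sum.elim (c l) ((fun i : {i // cl i = l} => x i) ∘ y l) ∘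
            (fun b : {b // Sum.elim cl cc (blk b) = l} => cast
              (congrArg (fun l => Fin (g l) ⊕ Fin (m l)) ((hblk _).symm.trans b.2)) b.1.2) := by
        funext ⟨⟨l1, a⟩, h5⟩
        have h6 : l1 = l := (hblk _).symm.trans h5
        subst h6
        exact hval _
      rw [h4]
      exact h3
    · rintro (i | a)
      · change IsAlgebraic (Algebra.adjoin (F (cl i))
          {z | ∃ b, Sum.elim cl cc (blk b) = cl i ∧ z = Sum.elim x c' (blk b)}) (x i)
        rw [hset]
        exact halg (cl i) ⟨i, rfl⟩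
      · have h1 : c' a ∈ Algebra.adjoin (F (cc a))
            {z | ∃ b, Sum.elim cl cc (blk b) = cc a ∧ z = Sum.elim x c' (blk b)} := by
          refine Algebra.subset_adjoin ⟨⟨a.1, Sum.inl a.2⟩, hblk _, ?_⟩
          rfl
        exact isAlgebraic_algebraMap (⟨c' a, h1⟩ : Algebra.adjoin (F (cc a))
            {z | ∃ b, Sum.elim cl cc (blk b) = cc a ∧ z = Sum.elim x c' (blk b)})
  · rw [Fintype.card_sigma, Fintype.card_sigma]
    unfold tr
    simp only [Fintype.card_sum, Fintype.card_fin]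
    rw [Finset.sum_add_distrib]
    push_cast
    congr 1
    refine Finset.sum_congr rfl fun l _ => ?_
    rw [hm l, hrange]
  · rintro l hl ⟨l1, a⟩ h1
    change l1 = l at h1
    subst h1
    have h2 : Transcendental (F l1) (c l1 a) := by
      have h3 := (hind l1).transcendental (Sum.inl a)
      exact h3
    refine h2 ?_
    exact isAlgebraic_algebraMap (⟨c l1 a, hl (hc l1 a)⟩ : F l1)
  · intro l hl
    rw [← hrange, ← hm l] at hl
    have h1 : m l ≠ 0 := fun h0 => hl (by rw [h0]; rfl)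
    exact ⟨⟨l, Sum.inr ⟨0, Nat.pos_of_ne_zero h1⟩⟩, (y l ⟨0, Nat.pos_of_ne_zero h1⟩).1, rfl,
      (y l ⟨0, Nat.pos_of_ne_zero h1⟩).2⟩

end Pool.Agent.Zilber
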