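import Pool.Agent.Zilber.IMon

set_option autoImplicit false

/-! IND: transcendence degrees of sets of monomials (pure field theory). -/

namespace Pool.Agent.Zilber

open Pool.Agent.CITLines

/-- Independence of the union. -/
private theorem ift_union {E : Type} [Field E] (F G : Subfield E) {α β : Type} (c : α → E)
    (z : β → E) (hc : ∀ a, c a ∈ G) (h1 : AlgebraicIndependent F c)
    (h2 : AlgebraicIndependent ↥(F ⊔ G) z) : AlgebraicIndependent F (Sum.elim z c) := by
  let _ : Algebra F ↥(F ⊔ G) := (Subfield.inclusion le_sup_left).toAlgebra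
  have : IsScalarTower F ↥(F ⊔ G) E := .of_algebraMap_eq fun x => rfl
  refine h1.sumElim_of_tower (S := ↥(F ⊔ G)) ?_ h2
  rintro _ ⟨a, rfl⟩
  exact ⟨⟨c a, (le_sup_right : G ≤ F ⊔ G) (hc a)⟩, rfl⟩

/-- Independence of multiples. -/
private theorem ift_scale {B E β : Type} [Field B] [Field E] [Algebra B E] {x : β → E}
    {b : β → B} (hb : ∀ j, b j ≠ 0) (h : AlgebraicIndependent B x) :
    AlgebraicIndependent B (fun j => algebraMap B E (b j) * x j) := by
  have h1 : (MvPolynomial.aeval (fun j => algebraMap B E (b j) * x j) :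
      MvPolynomial β B →ₐ[B] E) = (MvPolynomial.aeval x).comp
        (MvPolynomial.aeval fun j => MvPolynomial.C (b j) * MvPolynomial.X j) := by
    ext j
    simp
  have h2 : Function.LeftInverse
      (MvPolynomial.aeval fun j => MvPolynomial.C (b j)⁻¹ * MvPolynomial.X j :
        MvPolynomial β B →ₐ[B] MvPolynomial β B)
      (MvPolynomial.aeval fun j => MvPolynomial.C (b j) * MvPolynomial.X j :
        MvPolynomial β B →ₐ[B] MvPolynomial β B) := by
    intro f
    have h3 : ((MvPolynomial.aeval fun j => MvPolynomial.C (b j)⁻¹ * MvPolynomial.X j :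
        MvPolynomial β B →ₐ[B] MvPolynomial β B).comp
        (MvPolynomial.aeval fun j => MvPolynomial.C (b j) * MvPolynomial.X j :
          MvPolynomial β B →ₐ[B] MvPolynomial β B)) = AlgHom.id B _ := by
      refine MvPolynomial.algHom_ext fun j => ?_
      rw [AlgHom.comp_apply, MvPolynomial.aeval_X, map_mul, MvPolynomial.aeval_X,
        MvPolynomial.aeval_C, AlgHom.id_apply, MvPolynomial.algebraMap_eq, ← mul_assoc,
        ← MvPolynomial.C_mul, mul_inv_cancel₀ (hb j), MvPolynomial.C_1, one_mul]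
    exact congrArg (fun g : MvPolynomial β B →ₐ[B] MvPolynomial β B => g f) h3
  unfold AlgebraicIndependent at h ⊢
  rw [h1, AlgHom.coe_comp]
  exact h.comp h2.injective

private theorem ift_mem {E γ : Type} [Field E] [Fintype γ] (G : Subfield E) (c : γ → E)
    (Γ : Set γ) (hcG : ∀ a ∈ Γ, c a ∈ G) (u : γ → ℤ) (hu : ∀ a, u a ≠ 0 → a ∈ Γ) :
    mon c u ∈ G := by
  unfold mon
  refine G.prod_mem fun a _ => ?_
  by_cases h : u a = 0
  · rw [h, zpow_zero]
    exact G.one_mem
  · exact G.zpow_mem (hcG a (hu a h)) _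

private theorem ift_ne {E γ : Type} [Field E] [Fintype γ] (c : γ → E) (hc0 : ∀ a, c a ≠ 0)
    (u : γ → ℤ) : mon c u ≠ 0 := by
  unfold mon
  exact Finset.prod_ne_zero_iff.2 fun a _ => zpow_ne_zero _ (hc0 a)

private theorem ift_elim {E ι γ : Type} [Field E] [Fintype ι] [Fintype γ] (x : ι → E)
    (c : γ → E) (a : ι → ℤ) (b : γ → ℤ) :
    mon (Sum.elim x c) (Sum.elim a b) = mon x a * mon c b := by
  unfold mon
  rw [Fintype.prod_sum_type]
  simp only [Sum.elim_inl, Sum.elim_inr]

private theorem ift_span {E κ : Type} [Field E] [Fintype κ] (F : Subfield E) (x : κ → E)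
    (hx : ∀ i, x i ≠ 0) (S : Set (κ → ℤ)) (v : κ → ℤ) (hv : v ∈ Submodule.span ℤ S) :
    IsAlgebraic (Algebra.adjoin F ((fun v => mon x v) '' S)) (mon x v) := by
  rw [← IntermediateField.isAlgebraic_adjoin_iff]
  have key : mon x v ∈ IntermediateField.adjoin F ((fun v => mon x v) '' S) := by
    induction hv using Submodule.span_induction with
    | mem v hv => exact IntermediateField.subset_adjoin _ _ ⟨v, hv, rfl⟩
    | zero =>
      rw [mon_zero]
      exact one_mem _
    | add a b _ _ ha hb =>
      rw [mon_add' hx]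
      exact mul_mem ha hb
    | smul n a _ ha =>
      rw [mon_smul]
      exact zpow_mem ha n
  exact isAlgebraic_algebraMap
    (⟨_, key⟩ : IntermediateField.adjoin F ((fun v => mon x v) '' S))

/-- **Transcendence degrees of monomials in constants and coordinates.**

Proof. Choose `T : Set P` such that the `mon x (e p)`, `p ∈ T`, are algebraically independent over
`F ⊔ G` and `T` has `rk (F ⊔ G) (range ..)` elements (matroid basis of the range; see the proof of
`dm_kr` in CITLines/Basic, or the proof of `ext` in Zilber/Ext.lean). For `p ∈ T` `z p = mon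
(Sum.elim x c) (Sum.elim (e p) (w p)) = mon x (e p) * mon c (w p)` with `mon c (w p) ∈ G` not zero
(`hw`, `hcG`): the `z p`, `p ∈ T`, are also algebraically independent over `F ⊔ G` (they generate
the same field over `F ⊔ G`; or rank argument). The `v q = mon c (u q)` are in `G` and
algebraically independent over `F` (`mon_indep`), so the family `(v, z)` is algebraically
independent over `F` (`AlgebraicIndependent.sumElim_of_tower`, as in `ext_indep` of
Zilber/Ext.lean). All these elements are monomials with exponents in `Submodule.span ℤ S`, so they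
are algebraic over (even contained in) the field generated over `F` by the `mon (Sum.elim x c) v`,
`v ∈ S`; so their number is at most the rank on the right side (`rk_range_of_indep`,
`rk_le_of_algebraic`). -/
theorem i_ft {E ι γ : Type} [Field E] [Fintype ι] [Fintype γ] (F G : Subfield E) (x : ι → E)
    (c : γ → E) (hx : ∀ i, x i ≠ 0) (hc0 : ∀ a, c a ≠ 0) (Γ : Set γ) (hcG : ∀ a ∈ Γ, c a ∈ G)
    (hci : AlgebraicIndependent F (fun a : Γ => c a)) {P A : Type} [Fintype P] [Fintype A]
    (S : Set (ι ⊕ γ → ℤ)) (e : P → ι → ℤ) (w : P → γ → ℤ) (u : A → γ → ℤ)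
    (hw : ∀ p a, w p a ≠ 0 → a ∈ Γ) (hu : LinearIndependent ℤ u)
    (huΓ : ∀ q a, u q a ≠ 0 → a ∈ Γ)
    (h1 : ∀ p, (Sum.elim (e p) (w p) : ι ⊕ γ → ℤ) ∈ Submodule.span ℤ S)
    (h2 : ∀ q, (Sum.elim 0 (u q) : ι ⊕ γ → ℤ) ∈ Submodule.span ℤ S) :
    (Fintype.card A : ℕ∞) + rk (↥(F ⊔ G)) (Set.range fun p => mon x (e p)) ≤
      rk F ((fun v => mon (Sum.elim x c) v) '' S) := by
  classical
  obtain ⟨t, ht⟩ := (AlgebraicIndependent.matroid ↥(F ⊔ G) E).exists_isBasis
    (Set.range fun p => mon x (e p)) (Set.subset_univ _)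
  obtain ⟨ht1, ht2, -⟩ := AlgebraicIndependent.matroid_isBasis_iff.1 ht
  have htf : t.Finite := (Set.finite_range _).subset ht2
  have htt : Fintype t := htf.fintype
  have hy : ∀ j : t, ∃ p, mon x (e p) = (j : E) := fun j => ht2 j.2
  choose y hy using hy
  have hm : rk (↥(F ⊔ G)) (Set.range fun p => mon x (e p)) = Fintype.card t := by
    have h3 : rk (↥(F ⊔ G)) (Set.range fun p => mon x (e p)) = t.encard :=
      ht.encard_eq_eRk.symm
    rw [h3, Set.encard_eq_coe_toFinset_card, Set.toFinset_card]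
  have hX : ∀ i, Sum.elim x c i ≠ 0 := by
    rintro (i | a)
    · exact hx i
    · exact hc0 a
  -- the monomials in the coordinates
  let z : t → E := fun j => mon (Sum.elim x c) (Sum.elim (e (y j)) (w (y j)))
  have hwG : ∀ j : t, mon c (w (y j)) ∈ F ⊔ G := fun j =>
    (le_sup_right : G ≤ F ⊔ G) (ift_mem G c Γ hcG _ (hw (y j)))
  have hz : AlgebraicIndependent ↥(F ⊔ G) z := by
    have h3 : AlgebraicIndependent ↥(F ⊔ G) ((↑) : t → E) := ht1
    have h4 := ift_scale (b := fun j : t => (⟨mon c (w (y j)), hwG j⟩ : ↥(F ⊔ G)))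
      (fun j h0 => ift_ne c hc0 (w (y j)) (congrArg (fun a : ↥(F ⊔ G) => (a : E)) h0)) h3
    have h5 : z = fun j : t => algebraMap ↥(F ⊔ G) E ⟨mon c (w (y j)), hwG j⟩ * (j : E) := by
      funext j
      change mon (Sum.elim x c) (Sum.elim (e (y j)) (w (y j))) = mon c (w (y j)) * (j : E)
      rw [ift_elim, hy, mul_comm]
    rw [h5]
    exact h4
  -- the monomials in the constants
  have hv := mon_indep F c hc0 Γ hci u hu huΓ
  have hvG : ∀ q, mon c (u q) ∈ G := fun q => ift_mem G c Γ hcG _ (huΓ q)
  have hind := ift_union F G (fun q => mon c (u q)) z hvG hv hz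
  have h6 := rk_range_of_indep _ hind
  rw [Fintype.card_sum] at h6
  rw [hm, add_comm]
  push_cast at h6
  rw [← h6]
  refine rk_le_of_algebraic ?_
  rintro _ ⟨j | q, rfl⟩
  · exact ift_span F _ hX S _ (h1 (y j))
  · have h7 := ift_span F _ hX S _ (h2 q)
    rw [ift_elim, mon_zero, one_mul] at h7
    exact h7

end Pool.Agent.Zilber
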