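import Mathlib

set_option autoImplicit false

/-! IND: projection of a group of integer vectors (pure linear algebra, one block). -/

namespace Pool.Agent.Zilber

open Module

/-- **Projection of integer vectors, one block.** `S` a group of integer vectors in `ℤ^(ι ⊕ γ)`.
There are `(e p, w p) ∈ S` and `(0, u q) ∈ S`, `e` and `u` linearly independent, such that for
every real combination `R` of vectors of `S` the part of `R` in `ι` is a real combination of the
`e p`, and if it is `0`, the part of `R` in `γ` is a real combination of the `u q`.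

Proof. Over `ℚ`: let `V` be the `ℚ`-span of `S` in `ℚ^(ι ⊕ γ)`, `π : V → ℚ^ι` the restriction.
Every element of `V` has a nonzero integer multiple in `S` (`exists_mult_mem` of
CITLines/Rel.lean: `QS`). Choose a `ℚ`-basis of `π V`, lifts to `V`, and multiples in `S`: `(e p,
w p)`; choose a `ℚ`-basis of `ker π`, and multiples in `S`: `(0, u q)`. (Linear independence over
`ℚ` of the integer vectors gives linear independence over `ℤ`.) Together they are a `ℚ`-basis of
`V`, so every `v ∈ S` is a rational, hence real, combination of them, so `R` is a real combination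
`R = ∑ p, α p (e p, w p) + ∑ q, β q (0, u q)`. The part in `ι` is `∑ p, α p e p`. If it is `0`
then `α = 0`, because the `e p` are linearly independent over `ℝ` (integer vectors linearly
independent over `ℤ` are linearly independent over `ℝ`: search for `linearIndependent_real` or
similar in the pool, e.g. in Zilber/Ax/Lim0.lean, Zilber/BRel.lean, or use
`LinearIndependent.map_of_isPurelyTranscendental`, determinants, or `Matrix` ranks; Mathlib:
`LinearIndependent.extendScalars..`, `linearIndependent_algHom_comp_matrix_iff`...), and the part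
in `γ` is `∑ q, β q u q`. -/
theorem i_la1 {ι γ : Type} [Fintype ι] [Fintype γ] (S : Submodule ℤ (ι ⊕ γ → ℤ)) :
    ∃ (m a : ℕ) (e : Fin m → ι → ℤ) (w : Fin m → γ → ℤ) (u : Fin a → γ → ℤ),
      LinearIndependent ℤ e ∧ LinearIndependent ℤ u ∧
      (∀ p, (Sum.elim (e p) (w p) : ι ⊕ γ → ℤ) ∈ S) ∧
      (∀ q, (Sum.elim 0 (u q) : ι ⊕ γ → ℤ) ∈ S) ∧
      ∀ R ∈ Submodule.span ℝ ((fun v : ι ⊕ γ → ℤ => fun t => (v t : ℝ)) '' (S : Set (ι ⊕ γ → ℤ))),
        (fun i => R (Sum.inl i)) ∈ Submodule.span ℝ (Set.range fun p i => (e p i : ℝ)) ∧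
        ((∀ i, R (Sum.inl i) = 0) →
          (fun t => R (Sum.inr t)) ∈ Submodule.span ℝ (Set.range fun q t => (u q t : ℝ))) := by
  classical
  let πl : (ι ⊕ γ → ℤ) →ₗ[ℤ] (ι → ℤ) := LinearMap.funLeft ℤ ℤ Sum.inl
  let πr : (ι ⊕ γ → ℤ) →ₗ[ℤ] (γ → ℤ) := LinearMap.funLeft ℤ ℤ Sum.inr
  let A : Submodule ℤ (ι → ℤ) := S.map πl
  let K : Submodule ℤ (γ → ℤ) := (S ⊓ LinearMap.ker πl).map πr
  obtain ⟨m, ⟨bA⟩⟩ := Submodule.nonempty_basis_of_pid (Pi.basisFun ℤ ι) A
  obtain ⟨a, ⟨bK⟩⟩ := Submodule.nonempty_basis_of_pid (Pi.basisFun ℤ γ) K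
  have hlift : ∀ p, ∃ s ∈ S, πl s = (bA p : ι → ℤ) := fun p => (bA p).2
  choose s hsS hsπ using hlift
  have hK : ∀ q, ∃ t ∈ S ⊓ LinearMap.ker πl, πr t = (bK q : γ → ℤ) := fun q => (bK q).2
  choose t htS htπ using hK
  have hliA : LinearIndependent ℤ (fun p => (bA p : ι → ℤ)) :=
    bA.linearIndependent.map' A.subtype (Submodule.ker_subtype A)
  have hliK : LinearIndependent ℤ (fun q => (bK q : γ → ℤ)) :=
    bK.linearIndependent.map' K.subtype (Submodule.ker_subtype K)
  have hpair : ∀ p, (Sum.elim (bA p : ι → ℤ) (πr (s p)) : ι ⊕ γ → ℤ) = s p := by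
    intro p
    funext x
    rcases x with i | j
    · exact (congrFun (hsπ p) i).symm
    · rfl
  have hpair2 : ∀ q, (Sum.elim 0 (bK q : γ → ℤ) : ι ⊕ γ → ℤ) = t q := by
    intro q
    funext x
    rcases x with i | j
    · have h : πl (t q) = 0 := LinearMap.mem_ker.1 (htS q).2
      exact (congrFun h i).symm
    · exact (congrFun (htπ q) j).symm
  -- every element of `S` is an integer combination
  have hcomb : ∀ v ∈ S, ∃ (α : Fin m → ℤ) (β : Fin a → ℤ),
      v = ∑ p, α p • s p + ∑ q, β q • t q := by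
    intro v hv
    have hvA : πl v ∈ A := ⟨v, hv, rfl⟩
    let α : Fin m → ℤ := fun p => bA.repr ⟨πl v, hvA⟩ p
    have h1 : πl v = ∑ p, α p • (bA p : ι → ℤ) := by
      have h := bA.sum_repr ⟨πl v, hvA⟩
      have h' := congrArg (fun z : A => (z : ι → ℤ)) h
      simp only [Submodule.coe_sum, Submodule.coe_smul] at h'
      exact h'.symm
    let v' : ι ⊕ γ → ℤ := v - ∑ p, α p • s p
    have hv' : v' ∈ S := S.sub_mem hv (S.sum_mem fun p _ => S.smul_mem _ (hsS p))
    have hv'k : πl v' = 0 := by
      change πl (v - ∑ p, α p • s p) = 0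
      rw [map_sub, map_sum, h1, sub_eq_zero]
      refine Finset.sum_congr rfl fun p _ => ?_
      rw [map_smul, hsπ]
    have hvK : πr v' ∈ K := ⟨v', ⟨hv', hv'k⟩, rfl⟩
    let β : Fin a → ℤ := fun q => bK.repr ⟨πr v', hvK⟩ q
    have h2 : πr v' = ∑ q, β q • (bK q : γ → ℤ) := by
      have h := bK.sum_repr ⟨πr v', hvK⟩
      have h' := congrArg (fun z : K => (z : γ → ℤ)) h
      simp only [Submodule.coe_sum, Submodule.coe_smul] at h'
      exact h'.symm
    refine ⟨α, β, ?_⟩
    have h3 : v' = ∑ q, β q • t q := by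
      have hl : πl (∑ q, β q • t q) = 0 := by
        rw [map_sum]
        refine Finset.sum_eq_zero fun q _ => ?_
        rw [map_smul, LinearMap.mem_ker.1 (htS q).2, smul_zero]
      have hr : πr (∑ q, β q • t q) = πr v' := by
        rw [map_sum, h2]
        refine Finset.sum_congr rfl fun q _ => ?_
        rw [map_smul, htπ]
      funext x
      rcases x with i | j
      · have e1 := congrFun hv'k i
        have e2 := congrFun hl i
        exact e1.trans e2.symm
      · exact (congrFun hr j).symm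
    rw [← h3]
    simp [v']
  refine ⟨m, a, fun p => (bA p : ι → ℤ), fun p => πr (s p), fun q => (bK q : γ → ℤ), hliA, hliK,
    fun p => by rw [hpair p]; exact hsS p, fun q => by rw [hpair2 q]; exact (htS q).1, ?_⟩
  -- real combinations
  have hliR : LinearIndependent ℝ (fun p i => ((bA p : ι → ℤ) i : ℝ)) := by
    have h := (linearIndependent_algebraMap_comp_iff (R := ℤ) (S := ℝ)
      (v := fun p => (bA p : ι → ℤ))).2 hliA
    exact h
  have hR : ∀ R ∈ Submodule.span ℝ
      ((fun v : ι ⊕ γ → ℤ => fun t => (v t : ℝ)) '' (S : Set (ι ⊕ γ → ℤ))),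
      ∃ (α : Fin m → ℝ) (β : Fin a → ℝ),
        R = ∑ p, α p • (fun x => (s p x : ℝ)) + ∑ q, β q • (fun x => (t q x : ℝ)) := by
    intro R hR
    induction hR using Submodule.span_induction with
    | mem R hR =>
      obtain ⟨v, hv, rfl⟩ := hR
      obtain ⟨α, β, h⟩ := hcomb v hv
      refine ⟨fun p => (α p : ℝ), fun q => (β q : ℝ), ?_⟩
      funext x
      have hx := congrFun h x
      simp only [Pi.add_apply, Finset.sum_apply, Pi.smul_apply, smul_eq_mul] at hx
      simp only [Pi.add_apply, Finset.sum_apply, Pi.smul_apply, smul_eq_mul]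
      rw [hx]
      push_cast
      rfl
    | zero => exact ⟨0, 0, by simp⟩
    | add R R' _ _ h h' =>
      obtain ⟨α, β, h⟩ := h
      obtain ⟨α', β', h'⟩ := h'
      refine ⟨α + α', β + β', ?_⟩
      rw [h, h']
      simp only [Pi.add_apply, add_smul, Finset.sum_add_distrib]
      abel
    | smul c R _ h =>
      obtain ⟨α, β, h⟩ := h
      refine ⟨c • α, c • β, ?_⟩
      rw [h]
      simp only [Pi.smul_apply, smul_eq_mul, smul_add, Finset.smul_sum, mul_smul]
  intro R hRm
  obtain ⟨α, β, h⟩ := hR R hRm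
  have hl : (fun i => R (Sum.inl i)) = ∑ p, α p • (fun i => ((bA p : ι → ℤ) i : ℝ)) := by
    funext i
    have hx := congrFun h (Sum.inl i)
    simp only [Pi.add_apply, Finset.sum_apply, Pi.smul_apply, smul_eq_mul] at hx
    simp only [Finset.sum_apply, Pi.smul_apply, smul_eq_mul]
    have e1 : ∀ p, s p (Sum.inl i) = (bA p : ι → ℤ) i := fun p => congrFun (hsπ p) i
    have e2 : ∀ q, t q (Sum.inl i) = 0 := fun q => congrFun (LinearMap.mem_ker.1 (htS q).2) i
    rw [hx]
    simp [e1, e2]
  refine ⟨?_, fun h0 => ?_⟩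
  · rw [hl]
    exact Submodule.sum_mem _ fun p _ =>
      Submodule.smul_mem _ _ (Submodule.subset_span ⟨p, rfl⟩)
  · have hz : ∑ p, α p • (fun i => ((bA p : ι → ℤ) i : ℝ)) = 0 := by
      rw [← hl]
      funext i
      exact h0 i
    have hα : ∀ p, α p = 0 := Fintype.linearIndependent_iff.1 hliR α hz
    have hr : (fun j => R (Sum.inr j)) = ∑ q, β q • (fun j => ((bK q : γ → ℤ) j : ℝ)) := by
      funext j
      have hx := congrFun h (Sum.inr j)
      simp only [Pi.add_apply, Finset.sum_apply, Pi.smul_apply, smul_eq_mul] at hx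
      simp only [Finset.sum_apply, Pi.smul_apply, smul_eq_mul]
      have e2 : ∀ q, t q (Sum.inr j) = (bK q : γ → ℤ) j := fun q => congrFun (htπ q) j
      rw [hx]
      simp [e2, hα]
    rw [hr]
    exact Submodule.sum_mem _ fun q _ =>
      Submodule.smul_mem _ _ (Submodule.subset_span ⟨q, rfl⟩)

end Pool.Agent.Zilber
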