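import Pool.Agent.Zilber.IKer
import Pool.Agent.Zilber.ILA1

set_option autoImplicit false

/-! IND: projections of homogeneous spaces of integer vectors (pure linear algebra). -/

namespace Pool.Agent.Zilber

open Module

private theorem ila_supp {ι γ Q : Type} {k : ℕ} (cl : ι → Fin (k + 1))
    (cc : γ → Fin (k + 1)) (e0 : Q → ι ⊕ γ → ℤ) (c0 : Q → Fin (k + 1))
    (h0 : ∀ q t, e0 q t ≠ 0 → Sum.elim cl cc t = c0 q) (l : Fin (k + 1)) (v : ι ⊕ γ → ℤ)
    (hv : v ∈ Submodule.span ℤ (e0 '' {q | c0 q = l})) (t : ι ⊕ γ) (ht : v t ≠ 0) :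
    Sum.elim cl cc t = l := by
  by_contra h
  refine ht ?_
  induction hv using Submodule.span_induction with
  | mem x hx =>
    obtain ⟨q, hq, rfl⟩ := hx
    by_contra h1
    exact h ((h0 q t h1).trans hq)
  | zero => rfl
  | add x y _ _ hx hy =>
    rw [Pi.add_apply]
    by_cases h1 : x t = 0
    · by_cases h2 : y t = 0
      · rw [h1, h2, add_zero]
      · exact absurd (hy h2) h2
    · exact absurd (hx h1) h1
  | smul c x _ hx =>
    rw [Pi.smul_apply]
    by_cases h1 : x t = 0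
    · rw [h1, smul_zero]
    · exact absurd (hx h1) h1

private theorem ila_disj {ι L M : Type} [Fintype L] {P : L → Type} [∀ l, Fintype (P l)]
    (f : ∀ l, P l → ι → ℤ) (c : ι → M) (g : L → M) (hg : Function.Injective g)
    (hf : ∀ l p i, f l p i ≠ 0 → c i = g l) (hli : ∀ l, LinearIndependent ℤ (f l)) :
    LinearIndependent ℤ fun x : Σ l, P l => f x.1 x.2 := by
  rw [Fintype.linearIndependent_iff]
  intro z hz
  rintro ⟨l, p⟩
  have h1 : ∑ p, z ⟨l, p⟩ • f l p = 0 := by
    funext i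
    rw [Finset.sum_apply, Pi.zero_apply]
    by_cases hi : c i = g l
    · have h2 := congrFun hz i
      rw [Finset.sum_apply, Pi.zero_apply, Fintype.sum_sigma] at h2
      rw [Finset.sum_eq_single l] at h2
      · exact h2
      · intro l' _ hl'
        refine Finset.sum_eq_zero fun p' _ => ?_
        have h3 : f l' p' i = 0 := by
          by_contra h4
          exact hl' (hg ((hf l' p' i h4).symm.trans hi))
        rw [Pi.smul_apply]
        change z ⟨l', p'⟩ • f l' p' i = 0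
        rw [h3, smul_zero]
      · intro h
        exact absurd (Finset.mem_univ l) h
    · refine Finset.sum_eq_zero fun p' _ => ?_
      have h3 : f l p' i = 0 := by
        by_contra h4
        exact hi (hf l p' i h4)
      rw [Pi.smul_apply, h3, smul_zero]
  exact (Fintype.linearIndependent_iff.1 (hli l)) (fun p => z ⟨l, p⟩) h1 p

/-- **Projection of integer vectors.**

Proof. For every block `l` apply `i_la1` to `S_l`, the `ℤ`-span of the `e0 q` with `c0 q = l` (all its vectors are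
supported in the coordinates `t` of block `l`: `h0`); let `e_l, w_l, u_l` be the vectors. `e` is the
family of all `e_l p` with `l ∈ B` (index type `Σ l : {l // l ∈ B}, Fin (m l)`, enumerated by `Fin m`), `ce` their block, `w` the
same; `u` the family of all `u_l q` (all `l`), `cu` their block. They are linearly independent because those of
different blocks have disjoint supports. Let `W` be supported in `B` and `R ∈ extV γ W ⊓ spR e0`. `R = ∑ q, r q e0 q`; for
every `l` the part `R_l` of `R` in the coordinates of block `l` is `∑ q with c0 q = l, r q e0 q`, so in the real span of `S_l`.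
So the part of `R_l` in `ι` is in the span of the `e_l p`. For `l ∉ B` it vanishes, since the part of `R` in `ι` belongs to
`W`. So the part of `R` in `ι` is in `W ⊓ spR e`. If it vanishes then all `R_l` vanish in `ι`, and the part of `R` in `γ` is in
the span of the `u q`, a space of dimension at most `a`. So the restriction to `ι` is a linear map from
`extV γ W ⊓ spR e0` to `W ⊓ spR e` whose kernel has dimension at most `a` (rank-nullity,
`LinearMap.finrank_range_add_finrank_ker`). -/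
theorem i_la {ι γ Q : Type} [Fintype ι] [Fintype γ] [Fintype Q] {k : ℕ} (cl : ι → Fin (k + 1))
    (cc : γ → Fin (k + 1)) (e0 : Q → ι ⊕ γ → ℤ) (c0 : Q → Fin (k + 1))
    (h0 : ∀ q t, e0 q t ≠ 0 → Sum.elim cl cc t = c0 q)
    (B : Set (Fin (k + 1))) :
    ∃ (m a : ℕ) (e : Fin m → ι → ℤ) (ce : Fin m → Fin (k + 1)) (w : Fin m → γ → ℤ)
      (u : Fin a → γ → ℤ) (cu : Fin a → Fin (k + 1)),
      LinearIndependent ℤ e ∧ (∀ p i, e p i ≠ 0 → cl i = ce p) ∧ (∀ p, ce p ∈ B) ∧
      (∀ p t, w p t ≠ 0 → cc t = ce p) ∧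
      LinearIndependent ℤ u ∧ (∀ q t, u q t ≠ 0 → cc t = cu q) ∧
      (∀ p, (Sum.elim (e p) (w p) : ι ⊕ γ → ℤ) ∈
        Submodule.span ℤ (e0 '' {q | c0 q = ce p})) ∧
      (∀ q, (Sum.elim 0 (u q) : ι ⊕ γ → ℤ) ∈ Submodule.span ℤ (e0 '' {q' | c0 q' = cu q})) ∧
      ∀ W : Submodule ℝ (ι → ℝ), (∀ R ∈ W, ∀ i, cl i ∉ B → R i = 0) →
        finrank ℝ (extV γ W ⊓ spR e0 : Submodule ℝ (ι ⊕ γ → ℝ)) ≤
          a + finrank ℝ (W ⊓ spR e : Submodule ℝ (ι → ℝ)) := by
  classical
  choose m a e w u he hu hew hu0 hR using fun l : Fin (k + 1) =>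
    i_la1 (Submodule.span ℤ (e0 '' {q | c0 q = l}))
  have hsup : ∀ l, ∀ v ∈ Submodule.span ℤ (e0 '' {q | c0 q = l}), ∀ t, v t ≠ 0 →
      Sum.elim cl cc t = l := fun l v hv t ht => ila_supp cl cc e0 c0 h0 l v hv t ht
  have hes : ∀ l p i, e l p i ≠ 0 → cl i = l := fun l p i h =>
    hsup l _ (hew l p) (Sum.inl i) h
  have hws : ∀ l p t, w l p t ≠ 0 → cc t = l := fun l p t h =>
    hsup l _ (hew l p) (Sum.inr t) h
  have hus : ∀ l q t, u l q t ≠ 0 → cc t = l := fun l q t h =>
    hsup l _ (hu0 l q) (Sum.inr t) h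
  obtain ⟨eP⟩ : Nonempty (Fin (Fintype.card (Σ l : {l // l ∈ B}, Fin (m l.1))) ≃
    Σ l : {l // l ∈ B}, Fin (m l.1)) := ⟨(Fintype.equivFin _).symm⟩
  obtain ⟨eQ⟩ : Nonempty (Fin (Fintype.card (Σ l : Fin (k + 1), Fin (a l))) ≃
    Σ l : Fin (k + 1), Fin (a l)) := ⟨(Fintype.equivFin _).symm⟩
  have hliE : LinearIndependent ℤ fun x : Σ l : {l // l ∈ B}, Fin (m l.1) => e x.1.1 x.2 :=
    ila_disj (fun (l : {l // l ∈ B}) (p : Fin (m l.1)) => e l.1 p) cl (fun l => l.1)
      Subtype.val_injective (fun l p i h => hes l.1 p i h) fun l => he l.1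
  have hliU : LinearIndependent ℤ fun x : Σ l : Fin (k + 1), Fin (a l) => u x.1 x.2 :=
    ila_disj (fun (l : Fin (k + 1)) (p : Fin (a l)) => u l p) cc (fun l => l)
      Function.injective_id (fun l p i h => hus l p i h) fun l => hu l
  refine ⟨_, _, fun p => e (eP p).1.1 (eP p).2, fun p => (eP p).1.1,
    fun p => w (eP p).1.1 (eP p).2, fun q => u (eQ q).1 (eQ q).2, fun q => (eQ q).1,
    hliE.comp eP eP.injective, fun p i h => hes _ _ i h, fun p => (eP p).1.2,
    fun p t h => hws _ _ t h, hliU.comp eQ eQ.injective, fun q t h => hus _ _ t h,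
    fun p => hew _ _, fun q => hu0 _ _, ?_⟩
  intro W hW
  -- the parts of the blocks
  obtain ⟨P, hP⟩ : ∃ P : Fin (k + 1) → (ι ⊕ γ → ℝ) →ₗ[ℝ] (ι ⊕ γ → ℝ), ∀ l R t,
      P l R t = if Sum.elim cl cc t = l then R t else 0 := by
    refine ⟨fun l => LinearMap.pi fun t =>
      if Sum.elim cl cc t = l then LinearMap.proj t else 0, fun l R t => ?_⟩
    rw [LinearMap.pi_apply]
    split_ifs
    · rfl
    · rfl
  have hsum : ∀ R : ι ⊕ γ → ℝ, ∀ t, R t = ∑ l, P l R t := by
    intro R t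
    simp only [hP]
    rw [Finset.sum_ite_eq, if_pos (Finset.mem_univ _)]
  have hPl : ∀ l, ∀ R ∈ spR e0, P l R ∈ Submodule.span ℝ
      ((fun v : ι ⊕ γ → ℤ => fun t => (v t : ℝ)) ''
        (Submodule.span ℤ (e0 '' {q | c0 q = l}) : Set (ι ⊕ γ → ℤ))) := by
    intro l
    have h1 : spR e0 ≤ (Submodule.span ℝ ((fun v : ι ⊕ γ → ℤ => fun t => (v t : ℝ)) ''
        (Submodule.span ℤ (e0 '' {q | c0 q = l}) : Set (ι ⊕ γ → ℤ)))).comap (P l) := by
      unfold spR
      rw [Submodule.span_le]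
      rintro _ ⟨q, rfl⟩
      rw [SetLike.mem_coe, Submodule.mem_comap]
      by_cases hq : c0 q = l
      · have h2 : P l (fun t => (e0 q t : ℝ)) = fun t => (e0 q t : ℝ) := by
          funext t
          rw [hP]
          split_ifs with h3
          · rfl
          · by_contra h4
            refine h3 ((h0 q t fun h5 => h4 ?_).trans hq)
            rw [h5, Int.cast_zero]
        rw [h2]
        exact Submodule.subset_span ⟨e0 q, Submodule.subset_span ⟨q, hq, rfl⟩, rfl⟩
      · have h2 : P l (fun t => (e0 q t : ℝ)) = 0 := by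
          funext t
          rw [hP]
          split_ifs with h3
          · by_contra h4
            refine hq ((h0 q t fun h5 => h4 ?_).symm.trans h3)
            rw [h5, Int.cast_zero]
            rfl
          · rfl
        rw [h2]
        exact Submodule.zero_mem _
    exact fun R hR' => h1 hR'
  have hspe : ∀ l (hl : l ∈ B), Submodule.span ℝ (Set.range fun p i => (e l p i : ℝ)) ≤
      spR fun p => e (eP p).1.1 (eP p).2 := by
    intro l hl
    refine Submodule.span_mono ?_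
    rintro _ ⟨p, rfl⟩
    refine ⟨eP.symm ⟨⟨l, hl⟩, p⟩, ?_⟩
    beta_reduce
    rw [Equiv.apply_symm_apply]
  have hspu : ∀ l, Submodule.span ℝ (Set.range fun p i => (u l p i : ℝ)) ≤
      spR fun p => u (eQ p).1 (eQ p).2 := by
    intro l
    refine Submodule.span_mono ?_
    rintro _ ⟨p, rfl⟩
    refine ⟨eQ.symm ⟨l, p⟩, ?_⟩
    beta_reduce
    rw [Equiv.apply_symm_apply]
  have key1 : ∀ R ∈ extV γ W ⊓ spR e0,
      (fun i => R (Sum.inl i)) ∈ W ⊓ spR fun p => e (eP p).1.1 (eP p).2 := by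
    intro R hRm
    have hRW : (fun i => R (Sum.inl i)) ∈ W := hRm.1
    refine ⟨hRW, ?_⟩
    have h1 : (fun i => R (Sum.inl i)) = ∑ l, fun i => P l R (Sum.inl i) := by
      funext i
      rw [Finset.sum_apply]
      exact hsum R (Sum.inl i)
    rw [h1]
    refine Submodule.sum_mem _ fun l _ => ?_
    by_cases hl : l ∈ B
    · exact hspe l hl (hR l _ (hPl l R hRm.2)).1
    · have h2 : (fun i => P l R (Sum.inl i)) = 0 := by
        funext i
        rw [hP]
        split_ifs with h3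
        · exact hW _ hRW i (by
            have h4 : cl i = l := h3
            rw [h4]
            exact hl)
        · rfl
      rw [h2]
      exact Submodule.zero_mem _
  have key2 : ∀ R ∈ spR e0, (∀ i, R (Sum.inl i) = 0) →
      (fun t => R (Sum.inr t)) ∈ spR fun p => u (eQ p).1 (eQ p).2 := by
    intro R hRm hR0
    have h1 : (fun t => R (Sum.inr t)) = ∑ l, fun t => P l R (Sum.inr t) := by
      funext t
      rw [Finset.sum_apply]
      exact hsum R (Sum.inr t)
    rw [h1]
    refine Submodule.sum_mem _ fun l _ => ?_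
    refine hspu l ((hR l _ (hPl l R hRm)).2 fun i => ?_)
    rw [hP]
    split_ifs
    · exact hR0 i
    · rfl
  -- ranks
  obtain ⟨E, hE⟩ : ∃ E, E = extV γ W ⊓ spR e0 := ⟨_, rfl⟩
  obtain ⟨φ, hφ⟩ : ∃ φ : E →ₗ[ℝ] (W ⊓ spR fun p => e (eP p).1.1 (eP p).2 :
      Submodule ℝ (ι → ℝ)), ∀ R : E, (φ R : ι → ℝ) = fun i => (R : ι ⊕ γ → ℝ) (Sum.inl i) := by
    refine ⟨((LinearMap.funLeft ℝ ℝ (Sum.inl : ι → ι ⊕ γ)).domRestrict E).codRestrict _ ?_,
      fun R => rfl⟩
    rintro ⟨R, hRE⟩
    rw [hE] at hRE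
    exact key1 R hRE
  obtain ⟨ψ, hψ⟩ : ∃ ψ : LinearMap.ker φ →ₗ[ℝ] (spR fun p => u (eQ p).1 (eQ p).2 :
      Submodule ℝ (γ → ℝ)), ∀ R : LinearMap.ker φ, (ψ R : γ → ℝ) =
        fun t => ((R : E) : ι ⊕ γ → ℝ) (Sum.inr t) := by
    refine ⟨(((LinearMap.funLeft ℝ ℝ (Sum.inr : γ → ι ⊕ γ)).domRestrict E).domRestrict
      (LinearMap.ker φ)).codRestrict _ ?_, fun R => rfl⟩
    rintro ⟨⟨R, hRE⟩, hRk⟩
    have h1 := hRE
    rw [hE] at h1
    refine key2 R h1.2 fun i => ?_
    have h2 : φ ⟨R, hRE⟩ = 0 := hRk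
    have h3 := hφ ⟨R, hRE⟩
    rw [h2] at h3
    exact (congrFun h3 i).symm
  have hψi : Function.Injective ψ := by
    rintro ⟨⟨R, hRE⟩, hRk⟩ ⟨⟨R', hRE'⟩, hRk'⟩ h
    have h1 := hψ ⟨⟨R, hRE⟩, hRk⟩
    rw [h, hψ] at h1
    have h2 : φ ⟨R, hRE⟩ = 0 := hRk
    have h3 := hφ ⟨R, hRE⟩
    rw [h2] at h3
    have h2' : φ ⟨R', hRE'⟩ = 0 := hRk'
    have h3' := hφ ⟨R', hRE'⟩
    rw [h2'] at h3'
    refine Subtype.ext (Subtype.ext ?_)
    funext t
    rcases t with i | t
    · exact (congrFun h3 i).symm.trans (congrFun h3' i)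
    · exact (congrFun h1 t).symm
  have hk : finrank ℝ (LinearMap.ker φ) ≤
      Fintype.card (Σ l : Fin (k + 1), Fin (a l)) := by
    refine (LinearMap.finrank_le_finrank_of_injective hψi).trans ?_
    have h1 := finrank_range_le_card (R := ℝ) (fun (p : Fin (Fintype.card
      (Σ l : Fin (k + 1), Fin (a l)))) (t : γ) => (u (eQ p).1 (eQ p).2 t : ℝ))
    rw [Fintype.card_fin] at h1
    exact h1
  have hr : finrank ℝ (LinearMap.range φ) ≤
      finrank ℝ (W ⊓ spR fun p => e (eP p).1.1 (eP p).2 : Submodule ℝ (ι → ℝ)) :=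
    Submodule.finrank_le _
  have htot := LinearMap.finrank_range_add_finrank_ker φ
  rw [← hE]
  omega

end Pool.Agent.Zilber
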