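import Pool.Agent.Zilber.N2C
import Pool.Agent.Zilber.ILA
import Pool.Agent.Zilber.IFT

set_option autoImplicit false

/-! IND: the lemma `n2c` for the extended configuration. -/

namespace Pool.Agent.Zilber

open Filter NumberField Module Pool.Agent.LAll Pool.Agent.LSharp Pool.Agent.CITLines

variable {J : Type} {𝒰 : Ultrafilter J} {K : J → Type} [∀ j, Field (K j)] [∀ j, NumberField (K j)]
  {k : ℕ} {s : Fin (k + 1) → J → ℝ} {ι γ β : Type} [Fintype ι] [Fintype γ] [Fintype β]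
  [DecidableEq β] {cl : ι → Fin (k + 1)} {cc : γ → Fin (k + 1)} {x : ι → Ult 𝒰 K}
  {c : γ → Ult 𝒰 K} {bs : β → ι ⊕ γ} {X : ι ⊕ γ → Ult 𝒰 (PS β K)}

/-- **N2 for the extended configuration.**

Proof. `n2c` for `extV γ W` gives `m0, e0, c0` with
`finrank (extV γ W) + tr F c0 (monomials e0) ≤ rkO σ X (extV γ W) + finrank (extV γ W ⊓ spR e0)`; `i_la` for `e0, c0, B` gives
`m, a, e, ce, w, u, cu` with `finrank (extV γ W ⊓ spR e0) ≤ a + finrank (W ⊓ spR e)`. For every block `l`, `i_ft` with `F l`, `G l`,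
`Γ = {a | cc a = l}`, `P = {p // ce p = l}`, `A = {q // cu q = l}`, `S = e0 '' {q | c0 q = l}` gives
`card A_l + rk (F l ⊔ G l) {mon x (e p), ce p = l} ≤ rk (F l) {monomials of e0 q, c0 q = l}` (independence of the subfamily of
`u`: `LinearIndependent.comp` with `Subtype.val`); the sum over `l` is
`a + tr (F ⊔ G) ce (mon x e) ≤ tr F c0 (monomials e0)`, because `∑ l, card A_l = a`. With `finrank_extV`:
`finrank W + card γ + tr (F ⊔ G) ce (mon x e) + a ≤ rkO σ X (extV γ W) + finrank (W ⊓ spR e) + a`; cancel the finite number `a`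
(`ENat.add_le_add_iff_right` or `WithTop.add_le_add_iff_right`). `x i ≠ 0`, `c a ≠ 0`: `hc.ne`. -/
theorem ind_n2 (F G : Fin (k + 1) → Subfield (Ult 𝒰 K))
    (hc : Conf 𝒰 K s F (Sum.elim cl cc) (Sum.elim x c) bs)
    (hX : Br 𝒰 K F (Sum.elim cl cc) (Sum.elim x c) bs X) (σ : ∀ j, K j →+* ℂ)
    (hcG : ∀ a, c a ∈ G (cc a))
    (hci : ∀ l, AlgebraicIndependent (F l) (fun a : {a // cc a = l} => c a))
    (B : Set (Fin (k + 1))) (W : Submodule ℝ (ι → ℝ))
    (hW : ∀ R ∈ W, ∀ i, cl i ∉ B → R i = 0) :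
    ∃ (m : ℕ) (e : Fin m → ι → ℤ) (ce : Fin m → Fin (k + 1)), LinearIndependent ℤ e ∧
      (∀ p i, e p i ≠ 0 → cl i = ce p) ∧ (∀ p, ce p ∈ B) ∧
      (finrank ℝ W : ℕ∞) + Fintype.card γ +
          tr 𝒰 K (fun l => F l ⊔ G l) ce (fun p => mon x (e p)) ≤
        rkO σ X (extV γ W) + finrank ℝ (W ⊓ spR e : Submodule ℝ (ι → ℝ)) := by
  classical
  obtain ⟨m0, e0, c0, -, h2, h3⟩ := n2c hc hX σ (extV γ W)
  obtain ⟨m, a, e, ce, w, u, cu, le, hce, hB, hw, lu, hcu, s1, s2, hfin⟩ :=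
    i_la cl cc e0 c0 h2 B
  refine ⟨m, e, ce, le, hce, hB, ?_⟩
  have hl : ∀ l, (Fintype.card {q // cu q = l} : ℕ∞) +
      rk (↥(F l ⊔ G l)) {y | ∃ p, ce p = l ∧ y = mon x (e p)} ≤
      rk (F l) {y | ∃ q, c0 q = l ∧ y = mon (Sum.elim x c) (e0 q)} := by
    intro l
    have h4 := i_ft (F l) (G l) x c (fun i => hc.ne (Sum.inl i)) (fun i => hc.ne (Sum.inr i))
      {a | cc a = l} (fun t ht => by
        have h5 := hcG t
        rwa [show cc t = l from ht] at h5) (hci l)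
      (P := {p // ce p = l}) (A := {q // cu q = l}) (e0 '' {q | c0 q = l})
      (fun p => e p) (fun p => w p) (fun q => u q)
      (fun p t ht => (hw p t ht).trans p.2)
      (lu.comp Subtype.val Subtype.val_injective)
      (fun q t ht => (hcu q t ht).trans q.2)
      (fun p => by
        have h5 := s1 p
        rwa [p.2] at h5)
      (fun q => by
        have h5 := s2 q
        rwa [q.2] at h5)
    have h6 : {y | ∃ p, ce p = l ∧ y = mon x (e p)} =
        Set.range fun p : {p // ce p = l} => mon x (e p) := by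
      ext y
      constructor
      · rintro ⟨p, hp, rfl⟩
        exact ⟨⟨p, hp⟩, rfl⟩
      · rintro ⟨p, rfl⟩
        exact ⟨p, p.2, rfl⟩
    have h7 : {y | ∃ q, c0 q = l ∧ y = mon (Sum.elim x c) (e0 q)} =
        (fun v => mon (Sum.elim x c) v) '' (e0 '' {q | c0 q = l}) := by
      ext y
      constructor
      · rintro ⟨q, hq, rfl⟩
        exact ⟨_, ⟨q, hq, rfl⟩, rfl⟩
      · rintro ⟨_, ⟨q, hq, rfl⟩, rfl⟩
        exact ⟨q, hq, rfl⟩
    rw [h6, h7]
    exact h4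
  have h8 : (∑ l, (Fintype.card {q // cu q = l} : ℕ∞)) = (a : ℕ∞) := by
    have h9 : ∑ l, Fintype.card {q // cu q = l} = a := by
      rw [← Fintype.card_sigma, Fintype.card_congr (Equiv.sigmaFiberEquiv cu), Fintype.card_fin]
    rw [← Nat.cast_sum, h9]
  have h10 : (a : ℕ∞) + tr 𝒰 K (fun l => F l ⊔ G l) ce (fun p => mon x (e p)) ≤
      tr 𝒰 K F c0 (fun p => mon (Sum.elim x c) (e0 p)) := by
    rw [← h8]
    unfold tr
    rw [← Finset.sum_add_distrib]
    exact Finset.sum_le_sum fun l _ => hl l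
  have h11 := hfin W hW
  rw [finrank_extV] at h3
  have h12 : ((finrank ℝ W : ℕ∞) + Fintype.card γ +
      tr 𝒰 K (fun l => F l ⊔ G l) ce (fun p => mon x (e p))) + (a : ℕ∞) ≤
      ((rkO σ X (extV γ W) : ℕ∞) + finrank ℝ (W ⊓ spR e : Submodule ℝ (ι → ℝ))) + (a : ℕ∞) := by
    calc ((finrank ℝ W : ℕ∞) + Fintype.card γ +
          tr 𝒰 K (fun l => F l ⊔ G l) ce (fun p => mon x (e p))) + (a : ℕ∞)
        = ((finrank ℝ W + Fintype.card γ : ℕ) : ℕ∞) + ((a : ℕ∞) +
          tr 𝒰 K (fun l => F l ⊔ G l) ce (fun p => mon x (e p))) := by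
          push_cast
          rw [add_assoc, add_comm (tr 𝒰 K _ _ _)]
      _ ≤ ((finrank ℝ W + Fintype.card γ : ℕ) : ℕ∞) +
          tr 𝒰 K F c0 (fun p => mon (Sum.elim x c) (e0 p)) := add_le_add le_rfl h10
      _ ≤ rkO σ X (extV γ W) +
          finrank ℝ (extV γ W ⊓ spR e0 : Submodule ℝ (ι ⊕ γ → ℝ)) := h3
      _ ≤ (rkO σ X (extV γ W) : ℕ∞) +
          ((a + finrank ℝ (W ⊓ spR e : Submodule ℝ (ι → ℝ)) : ℕ) : ℕ∞) :=
          add_le_add le_rfl (by exact_mod_cast h11)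
      _ = _ := by
          push_cast
          rw [add_assoc, add_comm (a : ℕ∞)]
  exact (ENat.add_le_add_iff_right (ENat.natCast_ne_top a)).1 h12

end Pool.Agent.Zilber
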