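import Pool.Agent.Zilber.ND
import Pool.Agent.Zil.SKer
import Pool.Agent.CITLines.Push

set_option autoImplicit false

/-! IND: subcollections (monomials with independent exponents). -/

namespace Pool.Agent.Zilber

open Filter NumberField Module Pool.Agent.LAll Pool.Agent.LSharp Pool.Agent.CITLines

variable {J : Type} {𝒰 : Ultrafilter J} {K : J → Type} [∀ j, Field (K j)] [∀ j, NumberField (K j)]
  {k : ℕ} {s : Fin (k + 1) → J → ℝ} {ι : Type} [Fintype ι]
  {cl : ι → Fin (k + 1)} {x : ι → Ult 𝒰 K}

/-- **Subcollections satisfy the hypotheses of Theorem M.**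

Proof. `ne`: products of nonzero elements. `hgt`: `mon x (e p)` is a product of powers of the `x i` with
`cl i = ce p` (subfield `Lf`). `low`, `nc`: for `a ≠ 0` supported in block `l`,
`mon (fun p => mon x (e p)) a = mon x (∑ p, a p • e p)`, the exponent is not `0` (`hi`) and it is supported in block
`l` (`he`). (Compare `mon_pm` of CITLines/Push and the proof of `ndc_of_M` in Top.lean.) -/
theorem bd_sub (h : BD 𝒰 K s cl x) {P : Type} [Fintype P] (e : P → ι → ℤ)
    (ce : P → Fin (k + 1)) (hi : LinearIndependent ℤ e) (he : ∀ p i, e p i ≠ 0 → cl i = ce p) :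
    BD 𝒰 K s ce (fun p => mon x (e p)) := by
  have hpm : ∀ a : P → ℤ, mon (fun p => mon x (e p)) a = mon x (∑ p, a p • e p) := fun a => by
    have h1 := mon_pm e h.ne a
    rw [psiZ_apply] at h1
    exact h1
  have hz : ∀ a : P → ℤ, a ≠ 0 → ∑ p, a p • e p ≠ 0 := fun a ha h0 =>
    ha (funext fun p => Fintype.linearIndependent_iff.1 hi a h0 p)
  have hsup : ∀ (l : Fin (k + 1)) (a : P → ℤ), (∀ p, a p ≠ 0 → ce p = l) →
      ∀ i, (∑ p, a p • e p) i ≠ 0 → cl i = l := by
    intro l a ha i hsum
    rw [Finset.sum_apply] at hsum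
    obtain ⟨p, -, hp⟩ := Finset.exists_ne_zero_of_sum_ne_zero hsum
    rw [Pi.smul_apply, smul_eq_mul] at hp
    rw [he p i (right_ne_zero_of_mul hp)]
    exact ha p (left_ne_zero_of_mul hp)
  refine ⟨h.scl, fun p => pm_ne_zero e h.ne p, fun p => ?_, fun l a hl ha hcl => ?_,
    fun a ha hcl => ?_⟩
  · unfold mon
    refine prod_mem fun i _ => ?_
    by_cases h0 : e p i = 0
    · rw [h0, zpow_zero]
      exact one_mem _
    · refine zpow_mem ?_ _
      rw [← he p i h0]
      exact h.hgt i
  · rw [hpm a]
    exact h.low l _ hl (hz a ha) (hsup l a hcl)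
  · rw [hpm a]
    exact h.nc _ (hz a ha) (hsup 0 a hcl)

private theorem li_real' {ι P : Type} [Fintype ι] [Fintype P] (e : P → ι → ℤ)
    (h : LinearIndependent ℤ e) : LinearIndependent ℝ (fun p i => (e p i : ℝ)) := by
  classical
  have h1 : LinearIndependent ℚ (fun p i => (e p i : ℚ)) := by
    refine (LinearIndependent.iff_fractionRing ℤ ℚ).1 ?_
    have h1 := h.map' ((Algebra.linearMap ℤ ℚ).compLeft ι) (by
      rw [LinearMap.ker_eq_bot]
      intro a b hab
      funext i
      have h2 : ((a i : ℤ) : ℚ) = ((b i : ℤ) : ℚ) := congrFun hab i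
      exact_mod_cast h2)
    exact h1
  obtain ⟨g, hg⟩ := LinearMap.exists_leftInverse_of_injective
    (Fintype.linearCombination ℚ (fun p i => (e p i : ℚ)))
    (LinearMap.ker_eq_bot.2 (linearIndependent_iff_injective_fintypeLinearCombination.1 h1))
  have h2 : ∀ p q, ∑ i, (e p i : ℚ) * g (Pi.single i 1) q = if p = q then 1 else 0 := by
    intro p q
    have h3 := LinearMap.congr_fun hg (Pi.single p 1)
    rw [LinearMap.comp_apply, Fintype.linearCombination_apply_single, one_smul,
      LinearMap.id_apply] at h3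
    have h4 : (fun i => (e p i : ℚ)) = ∑ i, (e p i : ℚ) • (Pi.single i 1 : ι → ℚ) := by
      funext i
      rw [Finset.sum_apply, Finset.sum_eq_single i]
      · simp
      · intro b _ hb
        rw [Pi.smul_apply, Pi.single_eq_of_ne hb.symm, smul_zero]
      · intro hi
        exact absurd (Finset.mem_univ i) hi
    rw [h4, map_sum] at h3
    have h5 := congrFun h3 q
    rw [Finset.sum_apply, Pi.single_apply] at h5
    rw [← (show (if q = p then (1 : ℚ) else 0) = if p = q then 1 else 0 by
      by_cases hpq : p = q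
      · rw [if_pos hpq, if_pos hpq.symm]
      · rw [if_neg hpq, if_neg (Ne.symm hpq)]), ← h5]
    refine Finset.sum_congr rfl fun i _ => ?_
    rw [map_smul, Pi.smul_apply, smul_eq_mul]
  rw [Fintype.linearIndependent_iff]
  intro c hc q
  have h6 : ∑ i, (∑ p, c p * (e p i : ℝ)) * ((g (Pi.single i 1) q : ℚ) : ℝ) = c q := by
    simp only [Finset.sum_mul]
    rw [Finset.sum_comm]
    have h8 : ∀ p, ∑ i, c p * (e p i : ℝ) * ((g (Pi.single i 1) q : ℚ) : ℝ) =
        c p * ∑ i, (e p i : ℝ) * ((g (Pi.single i 1) q : ℚ) : ℝ) := by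
      intro p
      rw [Finset.mul_sum]
      exact Finset.sum_congr rfl fun i _ => by ring
    rw [Finset.sum_eq_single q]
    · have h7 := congrArg (fun t : ℚ => (t : ℝ)) (h2 q q)
      simp only [if_true] at h7
      push_cast at h7
      rw [h8, h7, mul_one]
    · intro p _ hp
      have h7 := congrArg (fun t : ℚ => (t : ℝ)) (h2 p q)
      simp only [if_neg hp] at h7
      push_cast at h7
      rw [h8, h7, mul_zero]
    · intro hq
      exact absurd (Finset.mem_univ q) hq
  rw [← h6]
  refine Finset.sum_eq_zero fun i _ => ?_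
  have h9 := congrFun hc i
  rw [Finset.sum_apply] at h9
  have h10 : ∑ p, c p * (e p i : ℝ) = 0 := by
    rw [← show ∑ p, (c p • fun i => (e p i : ℝ)) i = ∑ p, c p * (e p i : ℝ) from
      Finset.sum_congr rfl fun p _ => rfl]
    exact h9
  rw [h10, zero_mul]

/-- **The kernel of a subcollection.**

Proof. The linear map `(P → ℝ) → (ι → ℝ)`, `α ↦ ∑ p, α p • e p`, is injective (`hi`) with range `spR e`, and `α` is in
the kernel of the subcollection iff its image is in `Ker 𝒰 K s cl x`: for almost all `j`
`lam v ((mon x (e p)).rep j) = ∑ i, e p i * lam v ((x i).rep j)` (the representatives agree with the monomial in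
the representatives for almost all `j`: `mon_rep_ev` in Kap/Top/NTr or similar; `lam` is additive on nonzero
elements) and `s (ce p) = s (cl i)` when `e p i ≠ 0`. -/
theorem ker_sub (h : BD 𝒰 K s cl x) {P : Type} [Fintype P] (e : P → ι → ℤ)
    (ce : P → Fin (k + 1)) (hi : LinearIndependent ℤ e) (he : ∀ p i, e p i ≠ 0 → cl i = ce p) :
    finrank ℝ (Ker 𝒰 K s ce (fun p => mon x (e p))) =
      finrank ℝ (Ker 𝒰 K s cl x ⊓ spR e : Submodule ℝ (ι → ℝ)) := by
  classical
  let Φ : (P → ℝ) →ₗ[ℝ] (ι → ℝ) := Fintype.linearCombination ℝ (fun p i => (e p i : ℝ))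
  have hΦ : ∀ (α : P → ℝ) (i : ι), Φ α i = ∑ p, α p * (e p i : ℝ) := by
    intro α i
    change (Fintype.linearCombination ℝ (fun p i => (e p i : ℝ)) α) i = _
    rw [Fintype.linearCombination_apply, Finset.sum_apply]
    rfl
  have hinj : Function.Injective Φ :=
    linearIndependent_iff_injective_fintypeLinearCombination.1 (li_real' e hi)
  have hrange : LinearMap.range Φ = spR e := Fintype.range_linearCombination ℝ _
  -- the sums agree
  have hev : ∀ᶠ j in (𝒰 : Filter J), ∀ (α : P → ℝ) (S : Finset (FinitePlace (K j)))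
      (v : Plc (K j) S), ∑ p, α p * lam v ((mon x (e p)).rep j) / s (ce p) j =
        ∑ i, Φ α i * lam v ((x i).rep j) / s (cl i) j := by
    filter_upwards [Filter.eventually_all.2 fun i => Ult.rep_ne_zero (h.ne i),
      Filter.eventually_all.2 fun p => mon_rep_ev 𝒰 K x (e p)] with j h1 h2 α S v
    have h3 : ∀ p, lam v ((mon x (e p)).rep j) = ∑ i, (e p i : ℝ) * lam v ((x i).rep j) := by
      intro p
      rw [h2 p]
      unfold mon
      rw [lam_prod v Finset.univ _ (fun i _ => zpow_ne_zero _ (h1 i))]
      exact Finset.sum_congr rfl fun i _ => lam_zpow v _ _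
    have h4 : ∀ p, α p * lam v ((mon x (e p)).rep j) / s (ce p) j =
        ∑ i, α p * (e p i : ℝ) * lam v ((x i).rep j) / s (cl i) j := by
      intro p
      rw [h3 p, Finset.mul_sum, Finset.sum_div]
      refine Finset.sum_congr rfl fun i _ => ?_
      by_cases h0 : e p i = 0
      · rw [h0]
        simp
      · rw [he p i h0]
        ring
    rw [Finset.sum_congr rfl fun p _ => h4 p, Finset.sum_comm]
    refine Finset.sum_congr rfl fun i _ => ?_
    rw [hΦ, Finset.sum_mul, Finset.sum_div]
  have hker : Ker 𝒰 K s ce (fun p => mon x (e p)) = (Ker 𝒰 K s cl x).comap Φ := by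
    ext α
    rw [Submodule.mem_comap]
    constructor
    · intro hα ε hε
      filter_upwards [hα ε hε, hev] with j h1 h2 S
      rw [← Finset.sum_congr rfl fun v _ => congrArg abs (h2 α S v)]
      exact h1 S
    · intro hα ε hε
      filter_upwards [hα ε hε, hev] with j h1 h2 S
      rw [Finset.sum_congr rfl fun v _ => congrArg abs (h2 α S v)]
      exact h1 S
  rw [hker, inf_comm, ← hrange, ← Submodule.map_comap_eq]
  exact (Submodule.equivMapOfInjective Φ hinj _).finrank_eq

end Pool.Agent.Zilber
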