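import Pool.Agent.Zilber.NFrac

set_option autoImplicit false

/-! Core D, linear algebra (d_lin): the forms of real vectors on the branch as vectors over the
field `EU`. -/

namespace Pool.Agent.Zilber

open Filter Module Pool.Agent.LSharp

variable {J : Type} {𝒰 : Ultrafilter J} {K : J → Type} [∀ j, Field (K j)]
  {k : ℕ} {F : Fin (k + 1) → Subfield (Ult 𝒰 K)} {ι β : Type} [Fintype ι]
  {cl : ι → Fin (k + 1)} {x : ι → Ult 𝒰 K} {bs : β → ι}
  {X : ι → Ult 𝒰 (PS β K)}

/-- The form of a real vector on the branch. -/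
noncomputable def oE (σ : ∀ j, K j →+* ℂ) (X : ι → Ult 𝒰 (PS β K)) (R : ι → ℝ) (b : β) :
    EU 𝒰 β :=
  mkE 𝒰 β fun j => om (σ j) (fun i => (X i).rep j) R b

/-- Proof. `om` is additive in `R`, `mkR` is a ring homomorphism. -/
theorem oE_add (σ : ∀ j, K j →+* ℂ) (X : ι → Ult 𝒰 (PS β K)) (R R' : ι → ℝ) (b : β) :
    oE σ X (R + R') b = oE σ X R b + oE σ X R' b := by
  unfold oE
  rw [← mkR_apply, ← mkR_apply, ← mkR_apply, ← map_add]
  congr 1
  funext j
  rw [Pi.add_apply]
  unfold om
  rw [← Finset.sum_add_distrib]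
  refine Finset.sum_congr rfl fun i _ => ?_
  rw [Pi.add_apply, Complex.ofReal_add, map_add, add_mul]

theorem oE_smul (σ : ∀ j, K j →+* ℂ) (X : ι → Ult 𝒰 (PS β K)) (c : ℝ) (R : ι → ℝ) (b : β) :
    oE σ X (c • R) b = rE 𝒰 β c * oE σ X R b := by
  rw [rE_eq]
  unfold oE
  rw [← mkR_apply, ← mkR_apply, ← mkR_apply, ← map_mul]
  congr 1
  funext j
  rw [Pi.mul_apply]
  unfold om
  rw [Finset.mul_sum]
  refine Finset.sum_congr rfl fun i _ => ?_
  rw [Pi.smul_apply, smul_eq_mul, Complex.ofReal_mul, map_mul, mul_assoc]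

/-- Proof. `mkR` (a ring homomorphism) maps the determinant of the matrices of power series to the
determinant (`RingHom.map_det`), `mkE_eq_zero`, and `Ultrafilter.eventually_not`. -/
theorem wdg_iff (σ : ∀ j, K j →+* ℂ) (X : ι → Ult 𝒰 (PS β K)) {γ : Type} [Fintype γ]
    [DecidableEq γ] (R : γ → ι → ℝ) (e : γ → β) :
    (Matrix.of fun r c => oE σ X (R r) (e c)).det ≠ 0 ↔
      ∀ᶠ j in (𝒰 : Filter J), Wdg (σ j) (fun i => (X i).rep j) R e := by
  let M : Matrix γ γ (J → MvPowerSeries β ℂ) :=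
    Matrix.of fun r c => fun j => om (σ j) (fun i => (X i).rep j) (R r) (e c)
  have h1 : (Matrix.of fun r c => oE σ X (R r) (e c)).det = mkE 𝒰 β M.det := by
    rw [← mkR_apply, RingHom.map_det]
    rfl
  have h2 : ∀ j, M.det j =
      (Matrix.of fun r c => om (σ j) (fun i => (X i).rep j) (R r) (e c)).det := by
    intro j
    have h3 := RingHom.map_det (Pi.evalRingHom (fun _ : J => MvPowerSeries β ℂ) j) M
    exact h3
  rw [h1, Ne, mkE_eq_zero, ← Ultrafilter.eventually_not]
  refine Filter.eventually_congr (Filter.Eventually.of_forall fun j => ?_)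
  rw [h2 j]
  rfl

/-- A form of block `l` has no coefficients at the variables of the other blocks.

Proof. `τ` from `hX.ex (cl i)`: for almost all `j` the series `(X i).rep j` is in
`onlyB {b | cl (bs b) = cl i}`, so its partial derivative by `b` is `0` when `cl (bs b) ≠ cl i`
(`MvPowerSeries.coeff_pderiv`; the coefficient of `n + single b 1` is `0`), and
`ld b (map (σ j) _) = 0`. For `i` with `cl i ≠ l` `R i = 0`. `mkE_eq_zero`. -/
theorem oE_zero (hX : Br 𝒰 K F cl x bs X) (σ : ∀ j, K j →+* ℂ) (R : ι → ℝ) (l : Fin (k + 1))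
    (hR : ∀ i, R i ≠ 0 → cl i = l) (b : β) (hb : cl (bs b) ≠ l) : oE σ X R b = 0 := by
  have h0 : ∀ i, cl i = l → ∀ᶠ j in (𝒰 : Filter J),
      (X i).rep j ∈ onlyB {b | cl (bs b) = l} := by
    intro i hi
    obtain ⟨L, τ, -, h2, -, -, -, -, h7, h8⟩ := hX.ex l
    have h9 := h7 ⟨x i, h2 i hi⟩
    rwa [← h8 i hi ⟨x i, h2 i hi⟩ rfl] at h9
  have h1 : ∀ᶠ j in (𝒰 : Filter J), ∀ i, cl i = l →
      (X i).rep j ∈ onlyB {b | cl (bs b) = l} := by
    rw [Filter.eventually_all]
    intro i
    by_cases hi : cl i = l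
    · filter_upwards [h0 i hi] with j hj _
      exact hj
    · exact Filter.Eventually.of_forall fun j h => absurd h hi
  unfold oE
  rw [mkE_eq_zero]
  filter_upwards [h1] with j hj
  unfold om
  refine Finset.sum_eq_zero fun i _ => ?_
  by_cases hi : R i = 0
  · rw [hi, Complex.ofReal_zero, map_zero, zero_mul]
  · have h2 := hj i (hR i hi)
    have h3 : MvPowerSeries.pderiv ℂ b (MvPowerSeries.map (σ j) ((X i).rep j)) = 0 := by
      ext n
      rw [MvPowerSeries.coeff_pderiv, MvPowerSeries.coeff_map]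
      have h4 : MvPowerSeries.coeff (n + Finsupp.single b 1) ((X i).rep j) = 0 := by
        by_contra h5
        refine hb (h2 _ h5 b ?_)
        rw [Finsupp.add_apply, Finsupp.single_eq_same]
        exact Nat.succ_ne_zero _
      rw [h4, map_zero]
      simp
    unfold ld
    rw [h3, zero_mul, mul_zero]

/-- `rkO` in terms of `oE` (definitional). -/
theorem rkO_oE [Fintype β] (σ : ∀ j, K j →+* ℂ) (X : ι → Ult 𝒰 (PS β K))
    (V : Submodule ℝ (ι → ℝ)) :
    rkO σ X V = finrank (EU 𝒰 β) (Submodule.span (EU 𝒰 β) (oE σ X '' (V : Set (ι → ℝ)))) := rfl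

/-- Proof. By `oE_add`, `oE_smul` the image of a real span is contained in the span of the images
(`Submodule.span_induction`). -/
theorem span_oE (σ : ∀ j, K j →+* ℂ) (X : ι → Ult 𝒰 (PS β K)) (A : Set (ι → ℝ)) :
    Submodule.span (EU 𝒰 β) (oE σ X '' (Submodule.span ℝ A : Set (ι → ℝ))) =
      Submodule.span (EU 𝒰 β) (oE σ X '' A) := by
  refine le_antisymm (Submodule.span_le.2 ?_)
    (Submodule.span_mono (Set.image_mono Submodule.subset_span))
  rintro _ ⟨R, hR, rfl⟩
  refine Submodule.span_induction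
    (p := fun R _ => oE σ X R ∈ Submodule.span (EU 𝒰 β) (oE σ X '' A)) ?_ ?_ ?_ ?_ hR
  · exact fun R hR => Submodule.subset_span ⟨R, hR, rfl⟩
  · have h1 : oE σ X (0 : ι → ℝ) = 0 := by
      funext b
      have h2 := oE_smul σ X 0 0 b
      rw [map_zero, zero_mul, zero_smul] at h2
      exact h2
    rw [h1]
    exact zero_mem _
  · intro R R' _ _ h h'
    have h1 : oE σ X (R + R') = oE σ X R + oE σ X R' := by
      funext b
      exact oE_add σ X R R' b
    rw [h1]
    exact add_mem h h'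
  · intro c R _ h
    have h1 : oE σ X (c • R) = rE 𝒰 β c • oE σ X R := by
      funext b
      exact oE_smul σ X c R b
    rw [h1]
    exact Submodule.smul_mem _ _ h

end Pool.Agent.Zilber
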