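import Pool.Agent.Zilber.DDefs

set_option autoImplicit false

/-! Core D, linear algebra (d_lin): choices of vectors (pure linear algebra). -/

namespace Pool.Agent.Zilber

open Module

/-- **Vectors with independent forms.**

Proof. Choose a linearly independent subset `T1` of `o '' V1` which spans `span (o '' V1)`
(`exists_linearIndependent`), extend it to a linearly independent subset `T` of `o '' V` which spans
`span (o '' V)` (`exists_linearIndependent_extension`). `T` has `card β` elements; number them by `β`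
(`e : β ≃ T`), `R b ∈ V` with `o (R b) = e b`, in `V1` if `e b ∈ T1`, and `S = {b | e b ∈ T1}`. -/
theorem dl_choose {W E β : Type} [Field E] [Fintype β] [DecidableEq β] (o : W → β → E)
    (V V1 : Set W) (h : V1 ⊆ V)
    (hr : finrank E (Submodule.span E (o '' V)) = Fintype.card β) :
    ∃ (R : β → W) (S : Finset β), (∀ b, R b ∈ V) ∧ (∀ b ∈ S, R b ∈ V1) ∧
      S.card = finrank E (Submodule.span E (o '' V1)) ∧
      (Matrix.of fun r c => o (R r) c).det ≠ 0 := by
  classical
  obtain ⟨T1, hT1, hs1, hl1⟩ := exists_linearIndependent E (o '' V1)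
  obtain ⟨T, hT, hT1T, hsT, hlT⟩ := exists_linearIndepOn_id_extension (K := E) (s := T1)
    (t := o '' V) hl1 (hT1.trans (Set.image_mono h))
  have hlT' : LinearIndependent E ((↑) : T → β → E) := hlT
  have hspT : Submodule.span E T = Submodule.span E (o '' V) :=
    le_antisymm (Submodule.span_mono hT) (Submodule.span_le.2 hsT)
  have hfT : T.Finite := hlT'.setFinite
  have hfT1 : T1.Finite := hfT.subset hT1T
  have := hfT.fintype
  have := hfT1.fintype
  have hcT : Fintype.card T = Fintype.card β := by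
    have h1 := finrank_span_set_eq_card hlT'
    rw [hspT, hr, Set.toFinset_card] at h1
    exact h1.symm
  obtain ⟨e⟩ : Nonempty (β ≃ T) := Fintype.card_eq.1 hcT.symm
  have hch : ∀ b : β, ∃ w : W, o w = e b ∧ w ∈ V ∧ ((e b : β → E) ∈ T1 → w ∈ V1) := by
    intro b
    by_cases hb : (e b : β → E) ∈ T1
    · obtain ⟨w, hw, hw'⟩ := hT1 hb
      exact ⟨w, hw', h hw, fun _ => hw⟩
    · obtain ⟨w, hw, hw'⟩ := hT (e b).2
      exact ⟨w, hw', hw, fun h' => absurd h' hb⟩
  choose R hR1 hR2 hR3 using hch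
  refine ⟨R, Finset.univ.filter fun b => (e b : β → E) ∈ T1, hR2,
    fun b hb => hR3 b (Finset.mem_filter.1 hb).2, ?_, ?_⟩
  · have h1 := finrank_span_set_eq_card hl1
    rw [hs1, Set.toFinset_card] at h1
    rw [h1]
    refine Finset.card_bij' (s := Finset.univ.filter fun b => (e b : β → E) ∈ T1)
      (t := (Finset.univ : Finset T1))
      (fun b hb => ⟨(e b : β → E), (Finset.mem_filter.1 hb).2⟩)
      (fun t _ => e.symm ⟨t.1, hT1T t.2⟩) (fun _ _ => Finset.mem_univ _) ?_ ?_ ?_
    · intro t _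
      refine Finset.mem_filter.2 ⟨Finset.mem_univ _, ?_⟩
      rw [Equiv.apply_symm_apply]
      exact t.2
    · intro b hb
      simp
    · intro t _
      simp
  · have h1 : LinearIndependent E (fun b : β => (e b : β → E)) := hlT'.comp e e.injective
    have h2 : (Matrix.of fun r c => o (R r) c).row = fun b : β => (e b : β → E) := by
      funext r
      rw [← hR1 r]
      rfl
    rw [← h2, Matrix.linearIndependent_rows_iff_isUnit, Matrix.isUnit_iff_isUnit_det] at h1
    exact h1.ne_zero

private theorem dl_rn {A B : Type} [AddCommGroup A] [Module ℝ A] [FiniteDimensional ℝ A]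
    [AddCommGroup B] [Module ℝ B] (f : A →ₗ[ℝ] B) (V : Submodule ℝ A) :
    finrank ℝ (V.map f) + finrank ℝ (V ⊓ LinearMap.ker f : Submodule ℝ A) = finrank ℝ V := by
  have h := LinearMap.finrank_range_add_finrank_ker (f.domRestrict V)
  rw [LinearMap.range_domRestrict, LinearMap.ker_domRestrict] at h
  rw [← Submodule.map_comap_subtype, Submodule.finrank_map_subtype_eq]
  exact h

/-- **The vectors of `DLin`.**

Proof. Let `ψ R b = ∑ i, R i * q i b` (`b : β`), so `ψ` maps `V` onto `β → ℝ` (`hdet`). Let `Vs` be the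
space of the `R ∈ V` with `ψ R b = 0` for `b` in `Bp`: `dim Vs = dim V - card Bp`, and `ψ` maps `Vs`
onto the vectors supported in `B0`. The kernel of `zpart` on `Vs` is `Vs ⊓ (V ⊓ pos cl)`, the kernel
of `ψ` on `V ⊓ pos cl` (for `b` in `B0` and `R ∈ pos cl` `ψ R b = 0` by `hq`), and `ψ (V ⊓ pos cl)`
contains the independent vectors `ψ (R' b)`, `b ∈ S`, so this kernel has dimension at most
`dim (V ⊓ pos cl) - S.card`. So `dim (zpart Vs) ≥ dim V - card Bp - dim (V ⊓ pos cl) + S.card ≥
card B0 + 1` (`h1`, `card β = card B0 + card Bp`). For `b` in `B0` choose `R (inl (some b)) ∈ Vs` with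
`ψ (R ..) b' = 1` if `b' = b` and `0` otherwise. The `zpart (R (inl (some b)))` span a space of
dimension `card B0` (`ψ (zpart R) b' = ψ R b'` for `b'` in `B0`), so there is `R (inl none) ∈ Vs` whose
`zpart` is not in this space. For `b` in `Bp` choose `R (inr b) ∈ V` with `ψ (R (inr b)) b' = 1` if
`b' = b` and `0` otherwise. The two determinants are `1`. -/
theorem dl_vec {k : ℕ} {ι β : Type} [Fintype ι] [Fintype β] [DecidableEq β]
    (cl : ι → Fin (k + 1)) (bs : β → ι) (q : ι → β → ℚ)
    (hq : ∀ i b, q i b ≠ 0 → cl i = cl (bs b)) (V : Submodule ℝ (ι → ℝ)) (R' : β → ι → ℝ)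
    (S : Finset β) (hR' : ∀ b, R' b ∈ V) (hS : ∀ b ∈ S, R' b ∈ V ⊓ pos cl)
    (hdet : (Matrix.of fun r b => ∑ i, R' r i * (q i b : ℝ)).det ≠ 0)
    (h1 : finrank ℝ (V ⊓ pos cl : Submodule ℝ (ι → ℝ)) + Fintype.card β + 1 ≤
      finrank ℝ V + S.card) :
    ∃ R : Ob cl bs → ι → ℝ, (∀ o, R o ∈ V) ∧
      (∀ (o : Option (B0 cl bs)) (b : Bp cl bs), ∑ i, R (Sum.inl o) i * (q i b : ℝ) = 0) ∧
      LinearIndependent ℝ (fun o : Option (B0 cl bs) => zpart cl (R (Sum.inl o))) ∧
      (Matrix.of fun b b' : B0 cl bs =>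
        ∑ i, R (Sum.inl (some b)) i * (q i b' : ℝ)).det ≠ 0 ∧
      (Matrix.of fun b b' : Bp cl bs => ∑ i, R (Sum.inr b) i * (q i b' : ℝ)).det ≠ 0 := by
  classical
  let ψ : (ι → ℝ) →ₗ[ℝ] (β → ℝ) :=
    { toFun := fun R b => ∑ i, R i * (q i b : ℝ)
      map_add' := fun R R'' => by
        funext b
        rw [Pi.add_apply, ← Finset.sum_add_distrib]
        exact Finset.sum_congr rfl fun i _ => by rw [Pi.add_apply, add_mul]
      map_smul' := fun c R => by
        funext b
        rw [Pi.smul_apply, smul_eq_mul, RingHom.id_apply, Finset.mul_sum]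
        exact Finset.sum_congr rfl fun i _ => by rw [Pi.smul_apply, smul_eq_mul, mul_assoc] }
  have hψ : ∀ R b, ψ R b = ∑ i, R i * (q i b : ℝ) := fun _ _ => rfl
  let Z : (ι → ℝ) →ₗ[ℝ] (ι → ℝ) :=
    { toFun := fun R => zpart cl R
      map_add' := fun R R'' => by
        funext i
        simp only [zpart, Pi.add_apply]
        split_ifs <;> simp
      map_smul' := fun c R => by
        funext i
        simp only [zpart, Pi.smul_apply, smul_eq_mul, RingHom.id_apply]
        split_ifs <;> simp }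
  have hZ : ∀ R, Z R = zpart cl R := fun _ => rfl
  have hkZ : LinearMap.ker Z = pos cl := by
    ext R
    rw [LinearMap.mem_ker, hZ]
    constructor
    · intro h i hi
      have h2 := congrFun h i
      unfold zpart at h2
      rw [if_pos hi] at h2
      exact h2
    · intro h
      funext i
      unfold zpart
      by_cases hi : cl i = 0
      · rw [if_pos hi]
        exact h i hi
      · rw [if_neg hi]
        rfl
  -- values on the basis of block zero
  have hψ0 : ∀ R, ∀ b : β, cl (bs b) = 0 → ψ (Z R) b = ψ R b := by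
    intro R b hb
    rw [hψ, hψ]
    refine Finset.sum_congr rfl fun i _ => ?_
    by_cases hi : q i b = 0
    · rw [hi]
      simp
    · have h2 := hq i b hi
      rw [hZ]
      unfold zpart
      rw [if_pos (h2.trans hb)]
  have hψpos : ∀ R ∈ pos cl, ∀ b : β, cl (bs b) = 0 → ψ R b = 0 := by
    intro R hR b hb
    rw [← hkZ, LinearMap.mem_ker] at hR
    rw [← hψ0 R b hb, hR, map_zero]
    rfl
  -- surjectivity
  have hli : LinearIndependent ℝ (fun r => ψ (R' r)) := by
    have h2 : (Matrix.of fun r b => ∑ i, R' r i * (q i b : ℝ)).row = fun r => ψ (R' r) := rfl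
    rw [← h2, Matrix.linearIndependent_rows_iff_isUnit, Matrix.isUnit_iff_isUnit_det]
    exact isUnit_iff_ne_zero.2 hdet
  have hspan : Submodule.span ℝ (Set.range fun r => ψ (R' r)) = ⊤ :=
    hli.span_eq_top_of_card_eq_finrank' (by simp)
  have hsurj : ∀ w : β → ℝ, ∃ R ∈ V, ψ R = w := by
    intro w
    have h2 : Submodule.span ℝ (Set.range fun r => ψ (R' r)) ≤ V.map ψ := by
      refine Submodule.span_le.2 ?_
      rintro _ ⟨r, rfl⟩
      exact ⟨R' r, hR' r, rfl⟩
    rw [hspan] at h2
    obtain ⟨R, hR, h3⟩ := h2 (Submodule.mem_top (x := w))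
    exact ⟨R, hR, h3⟩
  let ψp : (ι → ℝ) →ₗ[ℝ] (Bp cl bs → ℝ) :=
    (LinearMap.funLeft ℝ ℝ (fun b : Bp cl bs => (b : β))).comp ψ
  have hψp : ∀ R (b : Bp cl bs), ψp R b = ψ R b := fun _ _ => rfl
  set Vs : Submodule ℝ (ι → ℝ) := V ⊓ LinearMap.ker ψp with hVs
  have hmapp : V.map ψp = ⊤ := by
    rw [eq_top_iff]
    intro w _
    obtain ⟨R, hR, h2⟩ := hsurj (fun b => if hb : cl (bs b) ≠ 0 then w ⟨b, hb⟩ else 0)
    refine ⟨R, hR, ?_⟩
    funext b
    rw [hψp, h2]
    exact dif_pos b.2
  have d1 : Fintype.card (Bp cl bs) + finrank ℝ Vs = finrank ℝ V := by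
    have h2 := dl_rn ψp V
    rw [hmapp, finrank_top, Module.finrank_fintype_fun_eq_card] at h2
    exact h2
  have d2 := dl_rn Z Vs
  have hker : (Vs ⊓ LinearMap.ker Z : Submodule ℝ (ι → ℝ)) =
      V ⊓ pos cl ⊓ LinearMap.ker ψ := by
    ext R
    rw [hkZ, hVs]
    constructor
    · rintro ⟨⟨h2, h3⟩, h4⟩
      refine ⟨⟨h2, h4⟩, ?_⟩
      change ψ R = 0
      funext b
      by_cases hb : cl (bs b) = 0
      · exact hψpos R h4 b hb
      · exact congrFun (show ψp R = 0 from h3) ⟨b, hb⟩
    · rintro ⟨⟨h2, h4⟩, h3⟩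
      refine ⟨⟨h2, ?_⟩, h4⟩
      change ψp R = 0
      funext b
      exact congrFun (show ψ R = 0 from h3) b.1
  have d3 := dl_rn ψ (V ⊓ pos cl)
  have d4 : S.card ≤ finrank ℝ ((V ⊓ pos cl : Submodule ℝ (ι → ℝ)).map ψ) := by
    have h2 : LinearIndependent ℝ (fun r : S => ψ (R' r)) := hli.comp _ Subtype.val_injective
    have h3 := finrank_span_eq_card h2
    have h4 : Submodule.span ℝ (Set.range fun r : S => ψ (R' r)) ≤
        (V ⊓ pos cl : Submodule ℝ (ι → ℝ)).map ψ := by
      refine Submodule.span_le.2 ?_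
      rintro _ ⟨r, rfl⟩
      exact ⟨R' r, hS r r.2, rfl⟩
    have h5 := Submodule.finrank_mono h4
    rw [h3, Fintype.card_coe] at h5
    exact h5
  have d5 : Fintype.card β = Fintype.card (B0 cl bs) + Fintype.card (Bp cl bs) := by
    have h2 := Fintype.card_subtype_compl (fun b : β => cl (bs b) = 0)
    have h3 := Fintype.card_subtype_le (fun b : β => cl (bs b) = 0)
    have h4 : Fintype.card (Bp cl bs) = Fintype.card {b : β // ¬ cl (bs b) = 0} :=
      Fintype.card_congr (Equiv.refl _)
    have h5 : Fintype.card (B0 cl bs) = Fintype.card {b : β // cl (bs b) = 0} :=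
      Fintype.card_congr (Equiv.refl _)
    omega
  rw [hker] at d2
  have d6 : Fintype.card (B0 cl bs) + 1 ≤ finrank ℝ (Vs.map Z) := by omega
  -- the vectors
  have hex : ∀ b : β, ∃ R ∈ V, ψ R = Pi.single b 1 := fun b => hsurj _
  choose r hrV hr using hex
  have hrs : ∀ b : B0 cl bs, r b ∈ Vs := by
    intro b
    refine ⟨hrV b, ?_⟩
    change ψp (r b) = 0
    funext b'
    rw [hψp, hr]
    refine Pi.single_eq_of_ne ?_ _
    intro h2
    exact b'.2 (h2 ▸ b.2)
  obtain ⟨R0, hR0, hR0'⟩ : ∃ R0 ∈ Vs,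
      Z R0 ∉ Submodule.span ℝ (Set.range fun b : B0 cl bs => Z (r b)) := by
    by_contra hc
    push Not at hc
    have h2 : Vs.map Z ≤ Submodule.span ℝ (Set.range fun b : B0 cl bs => Z (r b)) := by
      rintro _ ⟨R, hR, rfl⟩
      exact hc R hR
    have h3 := Submodule.finrank_mono h2
    have h4 := finrank_range_le_card (R := ℝ) (fun b : B0 cl bs => Z (r b))
    unfold Set.finrank at h4
    omega
  refine ⟨Sum.elim (fun o => o.elim R0 fun b => r b) (fun b => r b), ?_, ?_, ?_, ?_, ?_⟩
  · rintro ((_ | b) | b)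
    · exact hR0.1
    · exact hrV b
    · exact hrV b
  · rintro (_ | b) b'
    · exact congrFun (show ψp R0 = 0 from hR0.2) b'
    · exact congrFun (show ψp (r b) = 0 from (hrs b).2) b'
  · rw [linearIndependent_option]
    refine ⟨?_, hR0'⟩
    have h2 : LinearIndependent ℝ
        (((LinearMap.funLeft ℝ ℝ (fun b : B0 cl bs => (b : β))).comp ψ) ∘
          fun b : B0 cl bs => Z (r b)) := by
      have h3 : (((LinearMap.funLeft ℝ ℝ (fun b : B0 cl bs => (b : β))).comp ψ) ∘
          fun b : B0 cl bs => Z (r b)) = fun b => (Pi.basisFun ℝ (B0 cl bs)) b := by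
        funext b b'
        have h4 : ((((LinearMap.funLeft ℝ ℝ (fun b : B0 cl bs => (b : β))).comp ψ) ∘
          fun b : B0 cl bs => Z (r b)) b) b' = ψ (Z (r b)) b' := rfl
        rw [h4, hψ0 _ _ b'.2, hr, Pi.basisFun_apply]
        by_cases hb : b' = b
        · rw [hb, Pi.single_eq_same, Pi.single_eq_same]
        · rw [Pi.single_eq_of_ne hb, Pi.single_eq_of_ne fun h => hb (Subtype.ext h)]
      rw [h3]
      exact (Pi.basisFun ℝ (B0 cl bs)).linearIndependent
    exact LinearIndependent.of_comp _ h2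
  · have h2 : (Matrix.of fun b b' : B0 cl bs =>
        ∑ i, (Sum.elim (fun o : Option (B0 cl bs) => o.elim R0 fun b => r b)
          (fun b : Bp cl bs => r b) (Sum.inl (some b)) : ι → ℝ) i * (q i b' : ℝ)) = 1 := by
      ext b b'
      change ψ (r b) b' = _
      rw [hr]
      by_cases hb : b' = b
      · rw [hb, Pi.single_eq_same, Matrix.one_apply_eq]
      · rw [Pi.single_eq_of_ne fun h => hb (Subtype.ext h), Matrix.one_apply_ne (Ne.symm hb)]
    rw [h2, Matrix.det_one]
    exact one_ne_zero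
  · have h2 : (Matrix.of fun b b' : Bp cl bs =>
        ∑ i, (Sum.elim (fun o : Option (B0 cl bs) => o.elim R0 fun b => r b)
          (fun b : Bp cl bs => r b) (Sum.inr b) : ι → ℝ) i * (q i b' : ℝ)) = 1 := by
      ext b b'
      change ψ (r b) b' = _
      rw [hr]
      by_cases hb : b' = b
      · rw [hb, Pi.single_eq_same, Matrix.one_apply_eq]
      · rw [Pi.single_eq_of_ne fun h => hb (Subtype.ext h), Matrix.one_apply_ne (Ne.symm hb)]
    rw [h2, Matrix.det_one]
    exact one_ne_zero

end Pool.Agent.Zilber
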