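import Pool.Agent.CITLines.Rel

set_option autoImplicit false

/-! Defects of transcendence degrees are monotone. -/

namespace Pool.Agent.Zilber

open Pool.Agent.CITLines

/-- **Monotony of the defect.** `k ≤ B` subfields of `E`, `S` a finite set of elements which are algebraic
over `k[T]`, `T` finite: `rk k S + rk B T ≤ rk k T + rk B S`.

Proof. Choose `s ⊆ S` independent over `k` with `card = rk k S`, and extend it by `t ⊆ T` such that `s ∪ t`
(disjoint) is a basis of `S ∪ T` in the matroid over `k`; `rk k (S ∪ T) = rk k T` since `S` is algebraic over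
`k[T]`. So `rk k T = rk k S + card t`. Over `B`: all of `T` is algebraic over `k[s ∪ t]`, so over `B[S ∪ t]`, and
`rk B T ≤ rk B (S ∪ t) ≤ rk B S + card t` (`rk_le_of_algebraic`, `rk_union`, `rk_le_encard`). Add (all numbers
are finite). -/
theorem defect_mono {E : Type} [Field E] (k B : Subfield E) (hkB : k ≤ B) (S T : Set E)
    (hS : S.Finite) (hT : T.Finite) (h : ∀ a ∈ S, IsAlgebraic (Algebra.adjoin k T) a) :
    rk k S + rk B T ≤ rk k T + rk B S := by
  obtain ⟨s, hs⟩ := (AlgebraicIndependent.matroid k E).exists_isBasis S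
  obtain ⟨I, hI, hsI⟩ := hs.indep.subset_isBasis_of_subset
    (hs.subset.trans (Set.subset_union_left (t := T))) (Set.subset_univ _)
  have h1 : rk k S = s.encard := hs.encard_eq_eRk.symm
  have h2 : rk k (S ∪ T) = I.encard := hI.encard_eq_eRk.symm
  have h3 : rk k (S ∪ T) = rk k T := by
    refine le_antisymm (rk_le_of_algebraic ?_) (rk_mono Set.subset_union_right)
    rintro a (ha | ha)
    · exact h a ha
    · exact isAlgebraic_algebraMap (⟨a, Algebra.subset_adjoin ha⟩ : Algebra.adjoin k T)
  have h4 : (I \ s).encard + s.encard = I.encard := Set.encard_sdiff_add_encard_of_subset hsI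
  have h5 : rk B T ≤ rk B I := by
    refine rk_le_of_algebraic ?_
    intro a ha
    have h6 : IsAlgebraic (Algebra.adjoin k I) a :=
      (AlgebraicIndependent.matroid_isBasis_iff.mp hI).2.2 a (Or.inr ha)
    have hle : ∀ x ∈ Algebra.adjoin k I, x ∈ Algebra.adjoin B I := by
      intro x hx
      refine Algebra.adjoin_induction (p := fun x _ => x ∈ Algebra.adjoin B I)
        (fun x hx => Algebra.subset_adjoin hx)
        (fun r => (Algebra.adjoin B I).algebraMap_mem ⟨r.1, hkB r.2⟩)
        (fun _ _ _ _ h h' => add_mem h h') (fun _ _ _ _ h h' => mul_mem h h') hx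
    let f : Algebra.adjoin k I →+* Algebra.adjoin B I :=
      { toFun := fun x => ⟨x.1, hle _ x.2⟩
        map_one' := rfl
        map_mul' := fun _ _ => rfl
        map_zero' := rfl
        map_add' := fun _ _ => rfl }
    refine h6.ringHom_of_comp_eq f (RingHom.id E) ?_ ?_
    · intro x y hxy
      have h6 : (f x : E) = (f y : E) := congrArg Subtype.val hxy
      exact Subtype.ext h6
    · rfl
  have h7 : rk B I ≤ rk B S + (I \ s).encard := by
    have h8 : I ⊆ S ∪ (I \ s) := by
      intro x hx
      by_cases hxs : x ∈ s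
      · exact Or.inl (hs.subset hxs)
      · exact Or.inr ⟨hx, hxs⟩
    exact (rk_mono h8).trans ((rk_union _ _).trans (add_le_add le_rfl (rk_le_encard _)))
  calc rk k S + rk B T ≤ s.encard + (rk B S + (I \ s).encard) := by
        rw [h1]
        exact add_le_add le_rfl (h5.trans h7)
    _ = rk k T + rk B S := by
        rw [← h3, h2, ← h4]
        ring

end Pool.Agent.Zilber
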