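import Pool.Agent.Zilber.IDep
import Pool.Agent.Zilber.ExtDef
import Pool.Agent.Zilber.DLOm
import Pool.Agent.Zilber.DLSel

set_option autoImplicit false

/-! IND: the transcendence degree of the blocks; wedge products. -/

namespace Pool.Agent.Zilber

open Filter NumberField Module Pool.Agent.LAll Pool.Agent.LSharp Pool.Agent.CITLines

variable {J : Type} {𝒰 : Ultrafilter J} {K : J → Type} [∀ j, Field (K j)] [∀ j, NumberField (K j)]
  {k : ℕ} {ι : Type} {cl : ι → Fin (k + 1)} {x : ι → Ult 𝒰 K}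

theorem blk_finite [Finite ι] (cl : ι → Fin (k + 1)) (x : ι → Ult 𝒰 K) (l : Fin (k + 1)) :
    {y | ∃ i, cl i = l ∧ y = x i}.Finite := by
  refine (Set.finite_range x).subset ?_
  rintro y ⟨i, -, rfl⟩
  exact ⟨i, rfl⟩

theorem tr_congr {F F' : Fin (k + 1) → Subfield (Ult 𝒰 K)} (h : ∀ i, F (cl i) = F' (cl i)) :
    tr 𝒰 K F cl x = tr 𝒰 K F' cl x := by
  unfold tr
  refine Finset.sum_congr rfl fun l _ => ?_
  by_cases hl : ∃ i, cl i = l
  · obtain ⟨i, rfl⟩ := hl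
    rw [h i]
  · have h1 : {y | ∃ i, cl i = l ∧ y = x i} = ∅ := by
      ext y
      simp only [Set.mem_setOf_eq, Set.mem_empty_iff_false, iff_false]
      rintro ⟨i, hi, -⟩
      exact hl ⟨i, hi⟩
    rw [h1]
    have h2 : ∀ G : Subfield (Ult 𝒰 K), rk G (∅ : Set (Ult 𝒰 K)) = 0 := fun G =>
      le_antisymm ((rk_le_encard _).trans (by rw [Set.encard_empty])) zero_le
    rw [h2, h2]

theorem tr_ne_top [Finite ι] (F : Fin (k + 1) → Subfield (Ult 𝒰 K)) (cl : ι → Fin (k + 1))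
    (x : ι → Ult 𝒰 K) : tr 𝒰 K F cl x ≠ ⊤ := by
  unfold tr
  refine Finset.sum_induction _ (fun a : ℕ∞ => a ≠ ⊤) (fun a b ha hb => ?_) ENat.zero_ne_top
    fun l _ => ?_
  · exact (ENat.add_lt_top.2 ⟨lt_top_iff_ne_top.2 ha, lt_top_iff_ne_top.2 hb⟩).ne
  · exact ((rk_le_encard _).trans_lt (blk_finite cl x l).encard_lt_top).ne

theorem tr_defect [Finite ι] {P : Type} [Finite P] {ce : P → Fin (k + 1)} {z : P → Ult 𝒰 K}
    {F F' : Fin (k + 1) → Subfield (Ult 𝒰 K)} (h : ∀ l, F l ≤ F' l)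
    (ha : ∀ l, ∀ y ∈ {y | ∃ p, ce p = l ∧ y = z p},
      IsAlgebraic (Algebra.adjoin (F l) {y | ∃ i, cl i = l ∧ y = x i}) y) :
    tr 𝒰 K F ce z + tr 𝒰 K F' cl x ≤ tr 𝒰 K F cl x + tr 𝒰 K F' ce z := by
  unfold tr
  rw [← Finset.sum_add_distrib, ← Finset.sum_add_distrib]
  exact Finset.sum_le_sum fun l _ => defect_mono _ _ (h l) _ _ (blk_finite ce z l)
    (blk_finite cl x l) (ha l)

theorem tr_anti [Finite ι] {F F' : Fin (k + 1) → Subfield (Ult 𝒰 K)} (h : ∀ l, F l ≤ F' l) :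
    tr 𝒰 K F' cl x ≤ tr 𝒰 K F cl x := by
  unfold tr
  refine Finset.sum_le_sum fun l _ => ?_
  have h1 := defect_mono (F l) (F' l) (h l) (∅ : Set (Ult 𝒰 K)) {y | ∃ i, cl i = l ∧ y = x i}
    Set.finite_empty (blk_finite cl x l) (by simp)
  have h2 : ∀ G : Subfield (Ult 𝒰 K), rk G (∅ : Set (Ult 𝒰 K)) = 0 := fun G =>
    le_antisymm ((rk_le_encard _).trans (by rw [Set.encard_empty])) zero_le
  rw [h2, h2, zero_add, add_zero] at h1
  exact h1

theorem tr_full [Fintype ι] (hx : ∀ i, x i ≠ 0) (F : Fin (k + 1) → Subfield (Ult 𝒰 K)) {m : ℕ}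
    (e : Fin m → ι → ℤ) (ce : Fin m → Fin (k + 1)) (hi : LinearIndependent ℤ e)
    (he : ∀ p i, e p i ≠ 0 → cl i = ce p) (hm : m = Fintype.card ι) :
    tr 𝒰 K F cl x ≤ tr 𝒰 K F ce (fun p => mon x (e p)) := by
  unfold tr
  exact Finset.sum_le_sum fun l _ => i_full F cl x hx e ce hi he hm l

section

variable {β : Type} [Fintype ι] [Fintype β] {X : ι → Ult 𝒰 (PS β K)}

theorem rkO_le (σ : ∀ j, K j →+* ℂ) (V : Submodule ℝ (ι → ℝ)) :
    rkO σ X V ≤ Fintype.card β := by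
  unfold rkO
  refine (Submodule.finrank_le _).trans ?_
  rw [finrank_fintype_fun_eq_card]

/-- Full rank gives vectors with a nonzero wedge product. -/
theorem exists_wdg [DecidableEq β] (σ : ∀ j, K j →+* ℂ) (V : Submodule ℝ (ι → ℝ))
    (h : rkO σ X V = Fintype.card β) :
    ∃ R : β → ι → ℝ, (∀ b, R b ∈ V) ∧
      ∀ᶠ j in (𝒰 : Filter J), Wdg (σ j) (fun i => (X i).rep j) R id := by
  rw [rkO_oE] at h
  obtain ⟨R, -, h1, -, -, h4⟩ := dl_choose (oE σ X) (V : Set (ι → ℝ)) ∅ (Set.empty_subset _) h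
  exact ⟨R, h1, (wdg_iff σ X R id).1 h4⟩

end

theorem one_le_rk {E : Type} [Field E] {B : Subfield E} {S : Set E} {y : E} (hy : y ∈ S)
    (h : Transcendental B y) : 1 ≤ rk B S := by
  have h1 : AlgebraicIndependent B (fun _ : Unit => y) :=
    algebraicIndependent_unique_type_iff.2 h
  have h2 := rk_range_of_indep _ h1
  rw [Fintype.card_unit, Nat.cast_one] at h2
  rw [← h2]
  refine rk_mono ?_
  rintro _ ⟨_, rfl⟩
  exact hy

theorem i_mon_single {E : Type} [Field E] [Fintype ι] [DecidableEq ι] (w : ι → E) (i : ι) :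
    mon w (Pi.single i 1) = w i := by
  unfold mon
  rw [Finset.prod_eq_single i]
  · rw [Pi.single_eq_same, zpow_one]
  · intro j _ hj
    rw [Pi.single_eq_of_ne hj, zpow_zero]
  · intro h
    exact absurd (Finset.mem_univ i) h

/-- The independent families have at most `card ι` members. -/
theorem card_le_of_indep [Fintype ι] {m : ℕ} {e : Fin m → ι → ℤ} (hi : LinearIndependent ℤ e) :
    m ≤ Fintype.card ι := by
  have h := hi.fintype_card_le_finrank
  rwa [Fintype.card_fin, finrank_fintype_fun_eq_card] at h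

end Pool.Agent.Zilber
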