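import Pool.Agent.Zilber.CoreA
import Pool.Agent.Zilber.IAlg
import Pool.Agent.Zilber.IBr
import Pool.Agent.Zilber.IExt
import Pool.Agent.Zilber.ISub
import Pool.Agent.Zilber.IN2
import Pool.Agent.Zilber.ITr

set_option autoImplicit false

/-! IND: the step of case A. -/

namespace Pool.Agent.Zilber

open Filter Topology NumberField Module Pool.Agent.LAll Pool.Agent.LSharp Pool.Agent.CITLines

variable {J : Type} {𝒰 : Ultrafilter J} {K : J → Type} [∀ j, Field (K j)] [∀ j, NumberField (K j)]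
  {k : ℕ} {s : Fin (k + 1) → J → ℝ} {ι : Type} {cl : ι → Fin (k + 1)} {x : ι → Ult 𝒰 K}

theorem scl_top (h : Scl 𝒰 s) {l : Fin (k + 1)} (hl : l ≠ 0) :
    Tendsto (s l) (𝒰 : Filter J) atTop := by
  have h1 : Tendsto (fun j => (s l j)⁻¹) (𝒰 : Filter J) (𝓝[>] 0) := by
    refine tendsto_nhdsWithin_iff.2 ⟨?_, ?_⟩
    · have h2 := h.sep 0 l (Fin.pos_of_ne_zero hl)
      refine h2.congr fun j => ?_
      rw [h.zero j, one_div]
    · exact Filter.Eventually.of_forall fun j => inv_pos.2 (zero_lt_one.trans_le (h.one l j))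
  refine h1.inv_tendsto_nhdsGT_zero.congr fun j => ?_
  rw [Pi.inv_apply, inv_inv]

theorem finrank_inf_le {V : Submodule ℝ (ι → ℝ)} [Fintype ι] (W : Submodule ℝ (ι → ℝ)) :
    finrank ℝ (V ⊓ W : Submodule ℝ (ι → ℝ)) ≤ finrank ℝ V :=
  Submodule.finrank_mono inf_le_left

/-- A coordinate of block `l ≠ 0` has large height. -/
theorem low_single [Fintype ι] (h : BD 𝒰 K s cl x) (i : ι) (hi : cl i ≠ 0) :
    ∃ c : ℝ, 0 < c ∧ ∀ᶠ j in (𝒰 : Filter J), c * s (cl i) j ≤ ht ((x i).rep j) := by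
  classical
  obtain ⟨c, hc, hlow⟩ := h.low (cl i) (Pi.single i 1) hi (by
    intro h1
    have h2 := congrFun h1 i
    rw [Pi.single_eq_same] at h2
    exact one_ne_zero h2) (by
    intro i1 hi1
    by_cases h1 : i1 = i
    · rw [h1]
    · rw [Pi.single_eq_of_ne h1] at hi1
      exact absurd rfl hi1)
  rw [i_mon_single] at hlow
  exact ⟨c, hc, hlow⟩

/-- **The step of case A.** -/
theorem i_stepA [Fintype ι] (h : BD 𝒰 K s cl x) (h0 : ∀ i, cl i ≠ 0)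
    (htop : ∃ i, cl i = Fin.last k)
    (IH : ∀ (m : ℕ) (e : Fin m → ι → ℤ) (ce : Fin m → Fin (k + 1)), LinearIndependent ℤ e →
      (∀ p i, e p i ≠ 0 → cl i = ce p) → 0 < m → m < Fintype.card ι →
      (finrank ℝ (Ker 𝒰 K s ce (fun p => mon x (e p))) : ℕ∞) + 1 ≤
        tr 𝒰 K (kk 𝒰 K s) ce (fun p => mon x (e p))) :
    (finrank ℝ (Ker 𝒰 K s cl x) : ℕ∞) + 1 ≤ tr 𝒰 K (kk 𝒰 K s) cl x := by
  classical
  obtain ⟨i0, hi0⟩ := htop
  have hlast : Fin.last k ≠ 0 := hi0 ▸ h0 i0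
  let F := FA 𝒰 K s
  let G : Fin (k + 1) → Subfield (Ult 𝒰 K) := fun l => if l = 0 then F 0 else Lo 𝒰 K (s l)
  have hG0 : G 0 = F 0 := if_pos rfl
  have hG1 : ∀ l, l ≠ 0 → G l = Lo 𝒰 K (s l) := fun l hl => if_neg hl
  have hLf : ∀ l, Lo 𝒰 K (s l) ≤ Lf 𝒰 K (s l) := fun l => lo_le_lf (h.scl.one l)
  have hFLo : ∀ l, F l ≤ Lo 𝒰 K (s l) := fun l => ko_le_lo
  have hG : ∀ l, G l ≤ Lf 𝒰 K (s l) := by
    intro l
    by_cases hl : l = 0
    · subst hl
      rw [hG0]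
      exact (hFLo 0).trans (hLf 0)
    · rw [hG1 l hl]
      exact hLf l
  have hFG : ∀ l, l ≠ 0 → F l ⊔ G l = kk 𝒰 K s l := by
    intro l hl
    rw [hG1 l hl, sup_eq_right.2 (hFLo l)]
    exact (if_neg hl).symm
  obtain ⟨γ, β, _, _, _, c, cc, bs, hcG, hci, hconf, hcard, hcc, htr⟩ := exists_ext h F G hG
  have hcc0 : ∀ a, cc a ≠ 0 := hcc 0 (le_of_eq hG0)
  obtain ⟨X, hX⟩ := exists_br hconf
  have hσ : ∀ j, Nonempty (K j →+* ℂ) := fun j => inferInstance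
  let σ : ∀ j, K j →+* ℂ := fun j => (hσ j).some
  have hker : extV γ (Ker 𝒰 K s cl x) ≤ Ker 𝒰 K s (Sum.elim cl cc) (Sum.elim x c) := by
    refine ker_ext h.scl (fun a => hconf.ne (Sum.inr a)) hcc0 (fun a => ?_) _ le_rfl
    rw [← hG1 _ (hcc0 a)]
    exact hcG a
  have hne : rkO σ X (extV γ (Ker 𝒰 K s cl x)) ≠ Fintype.card β := by
    intro hr
    obtain ⟨R, hR, hW⟩ := exists_wdg σ _ hr
    obtain ⟨c0, hc0, hl0⟩ := low_single h i0 (h0 i0)
    rw [hi0] at hl0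
    have h1 : rk (↥(F (Fin.last k) ⊔ G (Fin.last k)))
        {y | ∃ i, cl i = Fin.last k ∧ y = x i} ≠ 0 := by
      rw [hFG _ hlast]
      have h2 := tr_of_low (h.scl.one _) (scl_top h.scl hlast) (x i0) c0 hc0 hl0
      have h3 : Lo 𝒰 K (s (Fin.last k)) = kk 𝒰 K s (Fin.last k) := (if_neg hlast).symm
      rw [h3] at h2
      have h4 := one_le_rk (S := {y | ∃ i, cl i = Fin.last k ∧ y = x i}) ⟨i0, hi0, rfl⟩ h2
      intro h5
      rw [h5] at h4
      exact absurd h4 (by simp)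
    obtain ⟨b0, i1, hb0, hi1⟩ := htr (Fin.last k) h1
    obtain ⟨c1, hc1, hl1⟩ := low_single h i1 (h0 i1)
    rw [hi1] at hl1
    refine coreA hconf hX σ ?_ b0 ?_ c1 hc1 ?_ R (fun b => hker (hR b)) hW
    · rintro (i | a)
      · exact h0 i
      · exact hcc0 a
    · rw [hb0]
      exact hi1
    · rw [hb0]
      exact hl1
  have hlt : rkO σ X (extV γ (Ker 𝒰 K s cl x)) + 1 ≤ Fintype.card β :=
    Nat.lt_of_le_of_ne (rkO_le σ _) hne
  obtain ⟨m, e, ce, he1, he2, -, he4⟩ := ind_n2 F G hconf hX σ hcG hci Set.univ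
    (Ker 𝒰 K s cl x) (fun R _ i hi => absurd (Set.mem_univ _) hi)
  have hce : ∀ p, ce p ≠ 0 := by
    intro p h1
    have h2 : e p ≠ 0 := he1.ne_zero p
    obtain ⟨i, hi⟩ := Function.ne_iff.1 h2
    exact h0 i ((he2 p i hi).trans h1)
  have ht1 : tr 𝒰 K (fun l => F l ⊔ G l) cl x = tr 𝒰 K (kk 𝒰 K s) cl x :=
    tr_congr fun i => hFG _ (h0 i)
  have ht2 : tr 𝒰 K (fun l => F l ⊔ G l) ce (fun p => mon x (e p)) =
      tr 𝒰 K (kk 𝒰 K s) ce (fun p => mon x (e p)) := tr_congr fun p => hFG _ (hce p)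
  rw [ht1] at hcard
  rw [ht2] at he4
  obtain ⟨t, ht⟩ := ENat.ne_top_iff_exists.1 (tr_ne_top (𝒰 := 𝒰) (kk 𝒰 K s) cl x)
  obtain ⟨r, hr⟩ := ENat.ne_top_iff_exists.1
    (tr_ne_top (𝒰 := 𝒰) (kk 𝒰 K s) ce (fun p => mon x (e p)))
  rw [← ht] at hcard ⊢
  rw [← hr] at he4
  have hcard' : Fintype.card β = Fintype.card γ + t := by exact_mod_cast hcard
  have he4' : finrank ℝ (Ker 𝒰 K s cl x) + Fintype.card γ + r ≤
      rkO σ X (extV γ (Ker 𝒰 K s cl x)) +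
        finrank ℝ (Ker 𝒰 K s cl x ⊓ spR e : Submodule ℝ (ι → ℝ)) := by exact_mod_cast he4
  have hgoal : finrank ℝ (Ker 𝒰 K s cl x) + 1 ≤ t := by
    rcases Nat.eq_zero_or_pos m with hm0 | hm0
    · subst hm0
      have h1 : spR e = ⊥ := by
        unfold spR
        rw [Set.range_eq_empty, Submodule.span_empty]
      rw [h1, inf_bot_eq, finrank_bot] at he4'
      omega
    · rcases Nat.lt_or_ge m (Fintype.card ι) with hm1 | hm1
      · have h1 := IH m e ce he1 he2 hm0 hm1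
        rw [ker_sub h e ce he1 he2, ← hr] at h1
        have h2 : finrank ℝ (Ker 𝒰 K s cl x ⊓ spR e : Submodule ℝ (ι → ℝ)) + 1 ≤ r := by
          exact_mod_cast h1
        omega
      · have hm2 : m = Fintype.card ι := le_antisymm (card_le_of_indep he1) hm1
        have h1 := tr_full (𝒰 := 𝒰) h.ne (kk 𝒰 K s) e ce he1 he2 hm2
        rw [← ht, ← hr] at h1
        have h2 : t ≤ r := by exact_mod_cast h1
        have h3 := finrank_inf_le (V := Ker 𝒰 K s cl x) (spR e)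
        omega
  exact_mod_cast hgoal

end Pool.Agent.Zilber
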