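import Pool.Agent.Zilber.DMain
import Pool.Agent.Zilber.IAlg
import Pool.Agent.Zilber.IBr
import Pool.Agent.Zilber.IExt
import Pool.Agent.Zilber.ISub
import Pool.Agent.Zilber.IN2
import Pool.Agent.Zilber.ITr

set_option autoImplicit false

/-! IND: the step of case D. -/

namespace Pool.Agent.Zilber

open Filter Topology NumberField Module Pool.Agent.LAll Pool.Agent.LSharp Pool.Agent.CITLines

variable {J : Type} {𝒰 : Ultrafilter J} {K : J → Type} [∀ j, Field (K j)] [∀ j, NumberField (K j)]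
  {k : ℕ} {s : Fin (k + 1) → J → ℝ} {ι : Type} {cl : ι → Fin (k + 1)} {x : ι → Ult 𝒰 K}

/-- Independent vectors which vanish at a coordinate. -/
theorem card_lt_of_indep [Fintype ι] {m : ℕ} {e : Fin m → ι → ℤ} (hi : LinearIndependent ℤ e)
    (i0 : ι) (h : ∀ p, e p i0 = 0) : m < Fintype.card ι := by
  classical
  let f : Option (Fin m) → ι → ℤ := fun o => o.elim (Pi.single i0 1) e
  have hf : LinearIndependent ℤ f := by
    rw [Fintype.linearIndependent_iff]
    intro g hg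
    rw [Fintype.sum_option] at hg
    have h1 : g none = 0 := by
      have h2 := congrFun hg i0
      rw [Pi.add_apply, Finset.sum_apply, Finset.sum_eq_zero, add_zero] at h2
      · have h3 : f none i0 = 1 := Pi.single_eq_same i0 1
        rw [Pi.smul_apply, h3, smul_eq_mul, mul_one] at h2
        exact h2
      · intro p _
        have h3 : f (some p) i0 = 0 := h p
        rw [Pi.smul_apply, h3, smul_zero]
    rw [h1, zero_smul, zero_add] at hg
    have h2 := Fintype.linearIndependent_iff.1 hi (fun p => g (some p)) hg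
    intro o
    rcases o with _ | p
    · exact h1
    · exact h2 p
  have h5 := hf.fintype_card_le_finrank
  rw [Fintype.card_option, Fintype.card_fin, finrank_fintype_fun_eq_card] at h5
  exact h5

/-- **The step of case D.** -/
theorem i_stepD [Fintype ι] (h : BD 𝒰 K s cl x) (h0 : ∃ i, cl i = 0)
    (IH : ∀ (m : ℕ) (e : Fin m → ι → ℤ) (ce : Fin m → Fin (k + 1)), LinearIndependent ℤ e →
      (∀ p i, e p i ≠ 0 → cl i = ce p) → m < Fintype.card ι →
      (finrank ℝ (Ker 𝒰 K s ce (fun p => mon x (e p))) : ℕ∞) ≤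
        tr 𝒰 K (kk 𝒰 K s) ce (fun p => mon x (e p))) :
    (finrank ℝ (Ker 𝒰 K s cl x) : ℕ∞) ≤ tr 𝒰 K (kk 𝒰 K s) cl x := by
  classical
  obtain ⟨i0, hi0⟩ := h0
  let F := FD 𝒰 K s
  let G := kk 𝒰 K s
  have hG0 : G 0 = F 0 := if_pos rfl
  have hG1 : ∀ l, l ≠ 0 → G l = Lo 𝒰 K (s l) := fun l hl => if_neg hl
  have hG : ∀ l, G l ≤ Lf 𝒰 K (s l) := by
    intro l
    by_cases hl : l = 0
    · subst hl
      rw [hG0]
      exact kf_le_lf
    · rw [hG1 l hl]
      exact lo_le_lf (h.scl.one l)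
  obtain ⟨γ, β, _, _, _, c, cc, bs, hcG, hci, hconf, hcard, hcc, -⟩ := exists_ext h F G hG
  have hcc0 : ∀ a, cc a ≠ 0 := hcc 0 (le_of_eq hG0)
  obtain ⟨X, hX⟩ := exists_br hconf
  have hσ : ∀ j, Nonempty (K j →+* ℂ) := fun j => inferInstance
  let σ : ∀ j, K j →+* ℂ := fun j => (hσ j).some
  have hker : extV γ (Ker 𝒰 K s cl x) ≤ Ker 𝒰 K s (Sum.elim cl cc) (Sum.elim x c) := by
    refine ker_ext h.scl (fun a => hconf.ne (Sum.inr a)) hcc0 (fun a => ?_) _ le_rfl
    rw [← hG1 _ (hcc0 a)]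
    exact hcG a
  have hGB : ∀ l, G l ≤ F l ⊔ G l := fun l => le_sup_right
  obtain ⟨t, ht⟩ := ENat.ne_top_iff_exists.1 (tr_ne_top (𝒰 := 𝒰) G cl x)
  obtain ⟨r, hr⟩ := ENat.ne_top_iff_exists.1 (tr_ne_top (𝒰 := 𝒰) (fun l => F l ⊔ G l) cl x)
  have hcard' : Fintype.card β = Fintype.card γ + r := by
    rw [← hr] at hcard
    exact_mod_cast hcard
  by_contra hcon
  rw [not_le] at hcon
  have hcon' : t + 1 ≤ finrank ℝ (Ker 𝒰 K s cl x) := by
    have h1 : (t : ℕ∞) < finrank ℝ (Ker 𝒰 K s cl x) := by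
      rw [ht]
      exact hcon
    exact_mod_cast h1
  -- the general estimate for a subcollection
  have hgen : ∀ (W : Submodule ℝ (ι → ℝ)), W ≤ Ker 𝒰 K s cl x → ∀ (m : ℕ) (e : Fin m → ι → ℤ)
      (ce : Fin m → Fin (k + 1)), LinearIndependent ℤ e → (∀ p i, e p i ≠ 0 → cl i = ce p) →
      (finrank ℝ W : ℕ∞) + Fintype.card γ +
          tr 𝒰 K (fun l => F l ⊔ G l) ce (fun p => mon x (e p)) ≤
        rkO σ X (extV γ W) + finrank ℝ (W ⊓ spR e : Submodule ℝ (ι → ℝ)) →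
      m < Fintype.card ι →
      finrank ℝ W + Fintype.card β ≤ rkO σ X (extV γ W) + t := by
    intro W hW m e ce he1 he2 he4 hm
    obtain ⟨t', ht'⟩ := ENat.ne_top_iff_exists.1
      (tr_ne_top (𝒰 := 𝒰) G ce (fun p => mon x (e p)))
    obtain ⟨r', hr'⟩ := ENat.ne_top_iff_exists.1
      (tr_ne_top (𝒰 := 𝒰) (fun l => F l ⊔ G l) ce (fun p => mon x (e p)))
    have h1 : finrank ℝ (Ker 𝒰 K s cl x ⊓ spR e : Submodule ℝ (ι → ℝ)) ≤ t' := by
      have h2 := IH m e ce he1 he2 hm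
      rw [ker_sub h e ce he1 he2, ← ht'] at h2
      exact_mod_cast h2
    have h2 : finrank ℝ (W ⊓ spR e : Submodule ℝ (ι → ℝ)) ≤
        finrank ℝ (Ker 𝒰 K s cl x ⊓ spR e : Submodule ℝ (ι → ℝ)) :=
      Submodule.finrank_mono (inf_le_inf_right _ hW)
    have h3 : t' + r ≤ t + r' := by
      have h4 := tr_defect (𝒰 := 𝒰) (cl := cl) (x := x) (ce := ce) (z := fun p => mon x (e p)) hGB
        (fun l => i_mon_alg (G l) cl x e ce he2 l)
      rw [← ht, ← hr, ← ht', ← hr'] at h4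
      exact_mod_cast h4
    rw [← hr'] at he4
    have h4 : finrank ℝ W + Fintype.card γ + r' ≤
        rkO σ X (extV γ W) + finrank ℝ (W ⊓ spR e : Submodule ℝ (ι → ℝ)) := by
      exact_mod_cast he4
    omega
  -- the rank of the kernel is full
  have hfull : rkO σ X (extV γ (Ker 𝒰 K s cl x)) = Fintype.card β := by
    obtain ⟨m, e, ce, he1, he2, -, he4⟩ := ind_n2 F G hconf hX σ hcG hci Set.univ
      (Ker 𝒰 K s cl x) (fun R _ i hi => absurd (Set.mem_univ _) hi)
    rcases Nat.lt_or_ge m (Fintype.card ι) with hm | hm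
    · have h1 := hgen _ le_rfl m e ce he1 he2 he4 hm
      have h2 := rkO_le (X := X) σ (extV γ (Ker 𝒰 K s cl x))
      omega
    · have hm2 : m = Fintype.card ι := le_antisymm (card_le_of_indep he1) hm
      obtain ⟨r', hr'⟩ := ENat.ne_top_iff_exists.1
        (tr_ne_top (𝒰 := 𝒰) (fun l => F l ⊔ G l) ce (fun p => mon x (e p)))
      have h1 := tr_full (𝒰 := 𝒰) h.ne (fun l => F l ⊔ G l) e ce he1 he2 hm2
      rw [← hr, ← hr'] at h1
      have h2 : r ≤ r' := by exact_mod_cast h1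
      rw [← hr'] at he4
      have h3 : finrank ℝ (Ker 𝒰 K s cl x) + Fintype.card γ + r' ≤
          rkO σ X (extV γ (Ker 𝒰 K s cl x)) +
            finrank ℝ (Ker 𝒰 K s cl x ⊓ spR e : Submodule ℝ (ι → ℝ)) := by exact_mod_cast he4
      have h4 : finrank ℝ (Ker 𝒰 K s cl x ⊓ spR e : Submodule ℝ (ι → ℝ)) ≤
          finrank ℝ (Ker 𝒰 K s cl x) := Submodule.finrank_mono inf_le_left
      have h5 := rkO_le (X := X) σ (extV γ (Ker 𝒰 K s cl x))
      omega
  -- the vectors which vanish in block 0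
  have hinf : (extV γ (Ker 𝒰 K s cl x) ⊓ pos (Sum.elim cl cc) : Submodule ℝ (ι ⊕ γ → ℝ)) =
      extV γ (Ker 𝒰 K s cl x ⊓ pos cl) := by
    ext R
    constructor
    · rintro ⟨h1, h2⟩
      exact ⟨h1, fun i hi => h2 (Sum.inl i) hi⟩
    · rintro ⟨h1, h2⟩
      refine ⟨h1, ?_⟩
      rintro (i | a) hi
      · exact h2 i hi
      · exact absurd hi (hcc0 a)
  have hpos : finrank ℝ (Ker 𝒰 K s cl x ⊓ pos cl : Submodule ℝ (ι → ℝ)) + Fintype.card β ≤
      rkO σ X (extV γ (Ker 𝒰 K s cl x ⊓ pos cl)) + t := by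
    obtain ⟨m, e, ce, he1, he2, he3, he4⟩ := ind_n2 F G hconf hX σ hcG hci {l | l ≠ 0}
      (Ker 𝒰 K s cl x ⊓ pos cl) (fun R hR i hi => hR.2 i (not_not.1 hi))
    refine hgen _ inf_le_left m e ce he1 he2 he4 (card_lt_of_indep he1 i0 fun p => ?_)
    by_contra h1
    exact he3 p ((he2 p i0 h1).symm.trans hi0)
  refine coreD' hconf hX σ ?_ (extV γ (Ker 𝒰 K s cl x)) hker hfull ?_
  · intro a ha hcl
    have h1 : ∀ b, a (Sum.inr b) = 0 := fun b => by
      by_contra h2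
      exact hcc0 b (hcl (Sum.inr b) h2)
    have h2 : mon (Sum.elim x c) a = mon x (fun i => a (Sum.inl i)) := by
      unfold mon
      rw [Fintype.prod_sum_type]
      have h3 : ∏ b, (Sum.elim x c (Sum.inr b) : Ult 𝒰 K) ^ a (Sum.inr b) = 1 :=
        Finset.prod_eq_one fun b _ => by rw [h1 b, zpow_zero]
      rw [h3, mul_one]
      rfl
    rw [h2]
    refine h.nc _ (fun h3 => ha ?_) fun i hi => hcl (Sum.inl i) hi
    funext o
    rcases o with i | b
    · exact congrFun h3 i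
    · exact h1 b
  · rw [hinf, finrank_extV, finrank_extV]
    omega

end Pool.Agent.Zilber
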