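import Pool.Agent.Zilber.ITop
import Pool.Agent.Zilber.IA
import Pool.Agent.Zilber.ID

set_option autoImplicit false

/-! IND: the induction for Theorem M. -/

namespace Pool.Agent.Zilber

open Filter NumberField Module Pool.Agent.LAll Pool.Agent.LSharp Pool.Agent.CITLines

theorem thmM : ThmM := by
  intro J 𝒰 K _ _ k s ι hι cl x h
  obtain ⟨n, hn⟩ : ∃ n, Fintype.card ι = n := ⟨_, rfl⟩
  induction n using Nat.strong_induction_on generalizing k s ι hι cl x with
  | _ n IH =>
  -- case A
  have hA : (∀ i, cl i ≠ 0) → Nonempty ι →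
      (finrank ℝ (Ker 𝒰 K s cl x) : ℕ∞) + 1 ≤ tr 𝒰 K (kk 𝒰 K s) cl x := by
    induction k with
    | zero =>
      intro h0 hne
      obtain ⟨i⟩ := hne
      exact absurd (Fin.ext (Nat.lt_one_iff.1 (cl i).isLt)) (h0 i)
    | succ k ihk =>
      intro h0 hne
      by_cases htop : ∃ i, cl i = Fin.last (k + 1)
      · refine i_stepA h h0 htop fun m e ce he1 he2 hm0 hm1 => ?_
        have h1 := (IH m (hn ▸ hm1) (k + 1) s (Fin m) ce (fun p => mon x (e p))
          (bd_sub h e ce he1 he2) (Fintype.card_fin m)).2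
        refine h1 (fun p hp => ?_) ⟨⟨0, hm0⟩⟩
        obtain ⟨i, hi⟩ := Function.ne_iff.1 (he1.ne_zero p)
        exact h0 i ((he2 p i hi).trans hp)
      · rw [not_exists] at htop
        obtain ⟨s', cl', h1, h2, h3, h4⟩ := i_top h htop
        rw [← h3, ← h4]
        exact ihk s' cl' h1 (fun i hi => h0 i ((h2 i).1 hi)) hne
  refine ⟨?_, hA⟩
  by_cases h0 : ∃ i, cl i = 0
  · refine i_stepD h h0 fun m e ce he1 he2 hm1 => ?_
    exact (IH m (hn ▸ hm1) k s (Fin m) ce (fun p => mon x (e p))
      (bd_sub h e ce he1 he2) (Fintype.card_fin m)).1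
  · rw [not_exists] at h0
    rcases isEmpty_or_nonempty ι with hι | hι
    · have h1 : finrank ℝ (Ker 𝒰 K s cl x) = 0 := by
        refine Nat.eq_zero_of_le_zero ((Submodule.finrank_le _).trans ?_)
        rw [finrank_fintype_fun_eq_card, Fintype.card_eq_zero]
      rw [h1]
      exact bot_le
    · exact (le_self_add).trans (hA h0 hι)

end Pool.Agent.Zilber
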