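import Pool.Agent.Zil.SFlag
import Pool.Agent.Zil.STr
import Pool.Agent.Zil.SKer

set_option autoImplicit false

/-! SCL: Theorem M implies NDc (owner helper95; package S5).

PROOF (assembly; `exists_flag`, `sum_rk_le`, `rel_coord`, `le_finrank_Ker`, `mon_rep` are black boxes). Let `x` be as in `NDc`,
`y j i = (x i).rep j`, `h a j = ht (mon (y j) a)` if all the `y j i` are nonzero, else `0`. `exists_flag` (`ι = Fin n`; `ht_nonneg`, `ht_mul` with
`mon_add'`, `ht_zpow'` with `mon_smul`) gives `k, s, e, cl`. Let `x' i = mon x (e i)`. `BD 𝒰 K s cl x'`: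
* `scl`: `LO 𝒰 (s l) (s l')` and `1 ≤ s` imply that the quotient (which is nonnegative) tends to `0`.
* `ne`: products of powers of nonzero elements.
* `hgt`: `mon_rep`; for most `j` all the `y j i` are nonzero (`Ult.rep_ne_zero`) and `h (e i) j ≤ C s (cl i) j` (`BO`).
* `low`, `nc`: `mon x' a = mon x (∑ i, a i • e i)` (`mon_pm`, `psiZ_apply` of CITLines/Push.lean), `∑ i, a i • e i ≠ 0` by independence;
  `mon_rep_ev`.
`ThmM` (first part) gives `finrank Ker ≤ tr 𝒰 K (kk 𝒰 K s) cl x'`, and `tr ≤ rk ℚ (range x')` by `sum_rk_le`, `F l = kk 𝒰 K s l`: if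
`cl i < l` then `l ≠ 0`, `kk 𝒰 K s l = Lo 𝒰 K (s l)`, `x' i ∈ Lf 𝒰 K (s (cl i))`, and `Oo 𝒰 (s (cl i)) (s l)` (`LO`, `s l > 0`). The algebra
structure of `Ult 𝒰 K` over `ℚ` is `DivisionRing.toRatAlgebra` in all the statements. `rk ℚ (range x') ≤ rk ℚ (range x)`:
`rk_pm_le`. `r ≤ finrank Ker`: `le_finrank_Ker` for `x'`; `Rels 𝒰 K x' r`: for most `j` the `y j i` are nonzero, `rel_coord` for
`y j` and `e` gives independent `b'` with `mon (fun i => mon (y j) (e i)) (b' p) = 1`, and `(x' i).rep j = mon (y j) (e i)` for most `j`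
(`mon_rep_ev`). -/

namespace Pool.Agent.Zilber

open Filter Topology NumberField Module Pool.Agent.LAll Pool.Agent.LSharp Pool.Agent.CITLines

theorem ndc_of_M (h : ThmM) : NDc := by
  intro J 𝒰 K _ _ n r x hx hnc hrel
  classical
  have hgood : ∀ᶠ j in (𝒰 : Filter J), ∀ i, (x i).rep j ≠ 0 :=
    Filter.eventually_all.2 fun i => Ult.rep_ne_zero (hx i)
  let hh : (Fin n → ℤ) → J → ℝ := fun a j =>
    if ∀ i, (x i).rep j ≠ 0 then ht (mon (fun i => (x i).rep j) a) else 0
  have hhpos : ∀ (a : Fin n → ℤ) (j : J), (∀ i, (x i).rep j ≠ 0) →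
      hh a j = ht (mon (fun i => (x i).rep j) a) := fun a j hj => if_pos hj
  have hhneg : ∀ (a : Fin n → ℤ) (j : J), ¬ (∀ i, (x i).rep j ≠ 0) → hh a j = 0 :=
    fun a j hj => if_neg hj
  obtain ⟨k, s, e, cl, s0, s1, slt, eind, eup, elow⟩ := Zil.exists_flag 𝒰 hh
    (by
      intro a j
      by_cases hj : ∀ i, (x i).rep j ≠ 0
      · rw [hhpos a j hj]
        exact ht_nonneg _
      · rw [hhneg a j hj])
    (by
      intro a b j
      by_cases hj : ∀ i, (x i).rep j ≠ 0
      · rw [hhpos _ j hj, hhpos a j hj, hhpos b j hj, mon_add' hj]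
        exact ht_mul _ _
      · rw [hhneg _ j hj, hhneg a j hj, hhneg b j hj, add_zero])
    (by
      intro m a j
      by_cases hj : ∀ i, (x i).rep j ≠ 0
      · rw [hhpos _ j hj, hhpos a j hj, mon_smul]
        exact ht_zpow' _ _
      · rw [hhneg _ j hj, hhneg a j hj, mul_zero])
  have hpos : ∀ l j, 0 < s l j := fun l j => zero_lt_one.trans_le (s1 l j)
  have hS : Scl 𝒰 s := by
    refine ⟨s0, s1, fun l l' hl => ?_⟩
    rw [Metric.tendsto_nhds]
    intro ε hε
    filter_upwards [slt l l' hl (ε / 2) (by linarith)] with j hj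
    rw [Real.dist_eq, sub_zero, abs_of_nonneg (div_nonneg (hpos l j).le (hpos l' j).le),
      div_lt_iff₀ (hpos l' j)]
    nlinarith [hpos l' j]
  have hne : ∀ i, pm e x i ≠ 0 := fun i => pm_ne_zero e hx i
  have hev : ∀ a : Fin n → ℤ, ∀ᶠ j in (𝒰 : Filter J),
      (mon x a).rep j = mon (fun i => (x i).rep j) a := fun a => mon_rep_ev 𝒰 K x a
  have hhgt : ∀ i, pm e x i ∈ Lf 𝒰 K (s (cl i)) := by
    intro i
    obtain ⟨C, hC⟩ := eup i
    refine ⟨(pm e x i).rep, Ult.mk_rep _, C, ?_⟩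
    filter_upwards [hC, hgood, hev (e i)] with j h1 h2 h3
    rw [hhpos _ j h2] at h1
    have h4 : (pm e x i).rep j = mon (fun i => (x i).rep j) (e i) := h3
    rw [h4, max_eq_right (s1 (cl i) j)]
    exact h1
  have hpm : ∀ a : Fin n → ℤ, mon (pm e x) a = mon x (∑ i, a i • e i) := fun a => by
    rw [mon_pm e hx, psiZ_apply]
  have hBD : BD 𝒰 K s cl (pm e x) := by
    refine ⟨hS, hne, hhgt, fun l a hl ha hcl => ?_, fun a ha hcl => ?_⟩
    · obtain ⟨c, hc, hcev⟩ := elow a ha l hl hcl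
      refine ⟨c, hc, ?_⟩
      filter_upwards [hcev, hgood, hev (∑ i, a i • e i)] with j h1 h2 h3
      rw [hhpos _ j h2] at h1
      rw [hpm a, h3]
      exact h1
    · rw [hpm a]
      refine hnc _ fun h0 => ha ?_
      exact funext fun i => (Fintype.linearIndependent_iff.1 eind a h0 i)
  have h1 := (h J 𝒰 K k s (Fin n) cl (pm e x) hBD).1
  have h2 : tr 𝒰 K (kk 𝒰 K s) cl (pm e x) ≤ rk ℚ (Set.range (pm e x)) := by
    unfold tr
    have h3 : ∀ l, {y | ∃ i, cl i = l ∧ y = pm e x i} = pm e x '' {i | cl i = l} := by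
      intro l
      ext y
      constructor
      · rintro ⟨i, hi, rfl⟩
        exact ⟨i, hi, rfl⟩
      · rintro ⟨i, hi, rfl⟩
        exact ⟨i, hi, rfl⟩
    simp only [h3]
    refine Zil.sum_rk_le k cl (kk 𝒰 K s) (pm e x) fun l i hli => ?_
    have hl : l ≠ 0 := by
      rintro rfl
      exact absurd hli (Fin.not_lt_zero _)
    unfold kk
    rw [if_neg hl, mem_Lo]
    refine ⟨s (cl i), fun ε hε => ?_, hhgt i⟩
    filter_upwards [slt (cl i) l hli ε hε] with j hj
    rw [abs_of_pos (hpos l j)]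
    exact hj
  have h4 : Rels 𝒰 K (pm e x) r := by
    unfold Rels at hrel ⊢
    filter_upwards [hrel, hgood, Filter.eventually_all.2 fun i => hev (e i)] with j h5 h6 h7
    obtain ⟨b, hb, hb1⟩ := h5
    obtain ⟨b', hb', hb1'⟩ := Zil.rel_coord (fun i => (x i).rep j) h6 e eind r b hb hb1
    refine ⟨b', hb', fun p => ?_⟩
    have h8 : (fun i => (pm e x i).rep j) = fun i => mon (fun i => (x i).rep j) (e i) :=
      funext h7
    rw [h8]
    exact hb1' p
  have h5 := le_finrank_Ker 𝒰 K s hS cl (pm e x) hne hhgt r h4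
  have h6 : (r : ℕ∞) ≤ (finrank ℝ (Ker 𝒰 K s cl (pm e x)) : ℕ∞) := by exact_mod_cast h5
  exact h6.trans (h1.trans (h2.trans (rk_pm_le x e)))

end Pool.Agent.Zilber
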