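import Pool.Agent.Zilber.TDefs

set_option autoImplicit false

/-! T: scaling and rounding. ADAPTATION of the finished file `LSharp/TSScale.lean`. -/

namespace Pool.Agent.Zilber

open Pool.Agent.LSharp

/-- Integral combinations of linearly independent vectors are bounded below. -/
private theorem ts_low {β : Type} [Fintype β] {a : ℕ} (V : Fin a → β → ℝ)
    (hV : LinearIndependent ℝ V) :
    ∃ K : ℝ, 0 < K ∧ ∀ x : Fin a → ℤ, x ≠ 0 → ∃ b, 1 ≤ K * |∑ p, (x p : ℝ) * V p b| := by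
  classical
  let L : (Fin a → ℝ) →ₗ[ℝ] (β → ℝ) := Fintype.linearCombination ℝ V
  have hL : LinearMap.ker L = ⊥ := by
    rw [LinearMap.ker_eq_bot]
    exact hV.fintypeLinearCombination_injective
  obtain ⟨K, hK0, hK⟩ := L.exists_antilipschitzWith hL
  have hK1 : (0 : ℝ) < K := hK0
  refine ⟨K, hK1, fun x hx => ?_⟩
  by_contra hcon
  push Not at hcon
  have h1 : ‖(fun p => (x p : ℝ) : Fin a → ℝ)‖ ≤ K * ‖L fun p => (x p : ℝ)‖ := by
    have := hK.le_mul_dist (fun p => (x p : ℝ)) 0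
    simpa using this
  have h2 : ‖L fun p => (x p : ℝ)‖ < 1 / K := by
    rw [pi_norm_lt_iff (by positivity)]
    intro b
    rw [lt_div_iff₀ hK1, mul_comm, Real.norm_eq_abs]
    have h3 : (L fun p => (x p : ℝ)) b = ∑ p, (x p : ℝ) * V p b := by
      simp only [L, Fintype.linearCombination_apply, Finset.sum_apply, Pi.smul_apply,
        smul_eq_mul]
    rw [h3]
    exact hcon b
  obtain ⟨p, hp⟩ := Function.ne_iff.1 hx
  have h3 : 1 ≤ ‖(fun p => (x p : ℝ) : Fin a → ℝ)‖ := by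
    refine le_trans ?_ (norm_le_pi_norm (fun p => (x p : ℝ) : Fin a → ℝ) p)
    rw [Real.norm_eq_abs]
    exact_mod_cast Int.one_le_abs hp
  have h4 : (K : ℝ) * ‖L fun p => (x p : ℝ)‖ < K * (1 / K) := mul_lt_mul_of_pos_left h2 hK1
  rw [mul_one_div_cancel hK1.ne'] at h4
  linarith

/-- `TSScale.scale` for general coordinates (`V p b = ∑ l, rr (e p) l * q l b`, no `E W`). -/
theorem scalex {ι β M : Type} [Fintype ι] [Fintype β] [DecidableEq β] (a : ℕ) (e : Fin a → β)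
    (he : Function.Injective e) (rr : β → ι → ℝ) (q : ι → β → ℚ) (cl : ι → M) (cb : β → M)
    (hq : ∀ l b, q l b ≠ 0 → cl l = cb b)
    (hdet : (Matrix.of fun i b => ∑ l, rr i l * (q l b : ℝ)).det ≠ 0) :
    ∃ lam : ℝ, 0 < lam ∧ ∀ (C : ℝ) (B : ℕ), ∃ n0 : ℕ, ∀ n : M → ℕ, (∀ m, n0 ≤ n m) →
      ∀ y : Fin a → ι → ℤ, (∀ p l, |(y p l : ℝ) - n (cl l) * (lam * rr (e p) l)| ≤ C) →
        Function.Injective (fun (z : (Fin a → Fin B) × ((b : β) → Fin (n (cb b)))) (b : β) =>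
          ∑ p, ((z.1 p : ℕ) : ℚ) * (∑ l, (y p l : ℚ) * q l b) + ((z.2 b : ℕ) : ℚ)) := by
  classical
  set V : Fin a → β → ℝ := fun p b => ∑ l, rr (e p) l * (q l b : ℝ) with hVdef
  have hV : LinearIndependent ℝ V := by
    have h1 := Matrix.linearIndependent_rows_of_det_ne_zero hdet
    exact h1.comp e he
  obtain ⟨K, hK, hlow⟩ := ts_low V hV
  refine ⟨2 * K, by positivity, fun C B => ?_⟩
  set Q : ℝ := ∑ l, ∑ b, |(q l b : ℝ)| with hQ
  have hQ0 : 0 ≤ Q := Finset.sum_nonneg fun k _ => Finset.sum_nonneg fun b _ => abs_nonneg _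
  refine ⟨⌈(a : ℝ) * B * (|C| * Q)⌉₊ + 1, fun n hn y hy => ?_⟩
  set Z : Fin a → β → ℝ := fun p b => ∑ l, (y p l : ℝ) * (q l b : ℝ) with hZ
  have hZV : ∀ p b, |Z p b - n (cb b) * (2 * K * V p b)| ≤ |C| * Q := by
    intro p b
    have h1 : Z p b - n (cb b) * (2 * K * V p b) =
        ∑ l, ((y p l : ℝ) - n (cb b) * (2 * K * rr (e p) l)) * (q l b : ℝ) := by
      rw [hVdef, hZ]
      simp only
      rw [Finset.mul_sum, Finset.mul_sum, ← Finset.sum_sub_distrib]
      refine Finset.sum_congr rfl fun k _ => ?_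
      ring
    have h2 : ∀ l, |((y p l : ℝ) - n (cb b) * (2 * K * rr (e p) l)) * (q l b : ℝ)| ≤
        |C| * |(q l b : ℝ)| := by
      intro l
      rw [abs_mul]
      by_cases h3 : q l b = 0
      · rw [h3]
        simp
      · have h4 := hq _ _ h3
        have h5 := hy p l
        rw [h4] at h5
        exact mul_le_mul_of_nonneg_right (h5.trans (le_abs_self C)) (abs_nonneg _)
    rw [h1]
    calc |∑ l, ((y p l : ℝ) - n (cb b) * (2 * K * rr (e p) l)) * (q l b : ℝ)|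
        ≤ ∑ l, |C| * |(q l b : ℝ)| :=
          (Finset.abs_sum_le_sum_abs _ _).trans (Finset.sum_le_sum fun l _ => h2 l)
      _ = |C| * ∑ l, |(q l b : ℝ)| := by rw [Finset.mul_sum]
      _ ≤ |C| * Q := by
          refine mul_le_mul_of_nonneg_left (Finset.sum_le_sum fun l _ => ?_) (abs_nonneg _)
          exact Finset.single_le_sum (f := fun b => |(q l b : ℝ)|)
            (fun b _ => abs_nonneg _) (Finset.mem_univ b)
  rintro ⟨x1, x2⟩ ⟨x1', x2'⟩ hxx
  have hR : ∀ b, ∑ p, ((x1 p : ℕ) : ℝ) * Z p b + ((x2 b : ℕ) : ℝ) =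
      ∑ p, ((x1' p : ℕ) : ℝ) * Z p b + ((x2' b : ℕ) : ℝ) := by
    intro b
    have h1 := congrFun hxx b
    simp only at h1
    have h2 := congrArg (fun z : ℚ => (z : ℝ)) h1
    push_cast at h2
    exact h2
  by_cases hx : x1 = x1'
  · subst hx
    have h2 : x2 = x2' := by
      funext b
      have h3 := hR b
      have h4 : ((x2 b : ℕ) : ℝ) = ((x2' b : ℕ) : ℝ) := by linarith
      exact Fin.ext (by exact_mod_cast h4)
    rw [h2]
  · exfalso
    have hne : (fun p => ((x1 p : ℕ) : ℤ) - ((x1' p : ℕ) : ℤ)) ≠ 0 := by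
      intro h0
      apply hx
      funext p
      have h1 := congrFun h0 p
      simp only [Pi.zero_apply] at h1
      exact Fin.ext (by omega)
    obtain ⟨b, hb⟩ := hlow _ hne
    set Δ : Fin a → ℝ := fun p => ((x1 p : ℕ) : ℝ) - ((x1' p : ℕ) : ℝ) with hΔ
    have hb' : 1 ≤ K * |∑ p, Δ p * V p b| := by
      have h1 : ∑ p, Δ p * V p b =
          ∑ p, (((((x1 p : ℕ) : ℤ) - ((x1' p : ℕ) : ℤ) : ℤ)) : ℝ) * V p b := by
        refine Finset.sum_congr rfl fun p _ => ?_
        rw [hΔ]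
        push_cast
        ring
      rw [h1]
      exact hb
    have hΔB : ∀ p, |Δ p| ≤ B := by
      intro p
      have h1 : ((x1 p : ℕ) : ℝ) < B := by exact_mod_cast (x1 p).2
      have h2 : ((x1' p : ℕ) : ℝ) < B := by exact_mod_cast (x1' p).2
      have h3 : (0 : ℝ) ≤ ((x1 p : ℕ) : ℝ) := Nat.cast_nonneg _
      have h4 : (0 : ℝ) ≤ ((x1' p : ℕ) : ℝ) := Nat.cast_nonneg _
      rw [hΔ, abs_le]
      constructor <;> simp only <;> linarith
    -- the sum with the integral exponents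
    have h5 : ∑ p, Δ p * Z p b = ((x2' b : ℕ) : ℝ) - ((x2 b : ℕ) : ℝ) := by
      have h6 := hR b
      have h7 : ∑ p, Δ p * Z p b =
          ∑ p, ((x1 p : ℕ) : ℝ) * Z p b - ∑ p, ((x1' p : ℕ) : ℝ) * Z p b := by
        rw [← Finset.sum_sub_distrib]
        refine Finset.sum_congr rfl fun p _ => ?_
        rw [hΔ]
        ring
      rw [h7]
      linarith
    have h8 : |∑ p, Δ p * Z p b| < n (cb b) := by
      have h1 : ((x2 b : ℕ) : ℝ) < n (cb b) := by exact_mod_cast (x2 b).2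
      have h2 : ((x2' b : ℕ) : ℝ) < n (cb b) := by exact_mod_cast (x2' b).2
      have h3 : (0 : ℝ) ≤ ((x2 b : ℕ) : ℝ) := Nat.cast_nonneg _
      have h4 : (0 : ℝ) ≤ ((x2' b : ℕ) : ℝ) := Nat.cast_nonneg _
      rw [h5, abs_lt]
      constructor <;> linarith
    have h9 : |∑ p, Δ p * (Z p b - n (cb b) * (2 * K * V p b))| ≤ a * B * (|C| * Q) := by
      calc |∑ p, Δ p * (Z p b - n (cb b) * (2 * K * V p b))|
          ≤ ∑ _p : Fin a, (B : ℝ) * (|C| * Q) := by
            refine (Finset.abs_sum_le_sum_abs _ _).trans (Finset.sum_le_sum fun p _ => ?_)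
            rw [abs_mul]
            exact mul_le_mul (hΔB p) (hZV p b) (abs_nonneg _) (Nat.cast_nonneg _)
        _ = a * B * (|C| * Q) := by
            rw [Finset.sum_const, Finset.card_univ, Fintype.card_fin, nsmul_eq_mul]
            ring
    have h10 : ∑ p, Δ p * Z p b = ∑ p, Δ p * (Z p b - n (cb b) * (2 * K * V p b)) +
        n (cb b) * (2 * K) * ∑ p, Δ p * V p b := by
      rw [Finset.mul_sum, ← Finset.sum_add_distrib]
      refine Finset.sum_congr rfl fun p _ => ?_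
      ring
    have h11 : (a : ℝ) * B * (|C| * Q) < n (cb b) := by
      have h1 := hn (cb b)
      have h2 : (a : ℝ) * B * (|C| * Q) ≤ (⌈(a : ℝ) * B * (|C| * Q)⌉₊ : ℝ) := Nat.le_ceil _
      have h3 : ((⌈(a : ℝ) * B * (|C| * Q)⌉₊ + 1 : ℕ) : ℝ) ≤ n (cb b) := by exact_mod_cast h1
      push_cast at h3
      linarith
    have h12 : (2 : ℝ) * n (cb b) ≤ |n (cb b) * (2 * K) * ∑ p, Δ p * V p b| := by
      rw [abs_mul, abs_of_nonneg (by positivity : (0 : ℝ) ≤ n (cb b) * (2 * K))]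
      have h1 : (n (cb b) : ℝ) * 1 ≤ n (cb b) * (K * |∑ p, Δ p * V p b|) :=
        mul_le_mul_of_nonneg_left hb' (Nat.cast_nonneg _)
      nlinarith
    have h13 : |n (cb b) * (2 * K) * ∑ p, Δ p * V p b| ≤
        |∑ p, Δ p * Z p b| + |∑ p, Δ p * (Z p b - n (cb b) * (2 * K * V p b))| := by
      have h1 : n (cb b) * (2 * K) * ∑ p, Δ p * V p b =
          ∑ p, Δ p * Z p b - ∑ p, Δ p * (Z p b - n (cb b) * (2 * K * V p b)) := by
        rw [h10]
        ring
      rw [h1]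
      exact abs_sub _ _
    linarith

end Pool.Agent.Zilber
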