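import Pool.Agent.Zilber.TLevel
import Pool.Agent.Zilber.TScale
import Pool.Agent.CITLines.PushMain
import Pool.Agent.CITLines.Lift1

set_option autoImplicit false

/-! T: the final theorems of the block. -/

namespace Pool.Agent.Zilber

open MvPolynomial Module Filter Pool.Agent.CITLines Pool.Agent.Srf5 Pool.Agent.LSharp

private theorem tf_pr_add {ι : Type} [Fintype ι] (y z : ι → ℤ) (t : ι → ℝ) :
    pr (y + z) t = pr y t + pr z t := by
  unfold pr
  rw [← Finset.sum_add_distrib]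
  refine Finset.sum_congr rfl fun l _ => ?_
  rw [Pi.add_apply, Int.cast_add, add_mul]

private theorem tf_pr_smul {ι : Type} [Fintype ι] (c : ℤ) (y : ι → ℤ) (t : ι → ℝ) :
    pr (c • y) t = c * pr y t := by
  unfold pr
  rw [Finset.mul_sum]
  refine Finset.sum_congr rfl fun l _ => ?_
  rw [Pi.smul_apply, smul_eq_mul, Int.cast_mul, mul_assoc]

private theorem tf_pr_sum {ι α : Type} [Fintype ι] (s : Finset α) (f : α → ι → ℤ)
    (t : ι → ℝ) : pr (∑ a ∈ s, f a) t = ∑ a ∈ s, pr (f a) t := by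
  classical
  induction s using Finset.induction_on with
  | empty => simp [pr]
  | insert a s ha ih => rw [Finset.sum_insert ha, Finset.sum_insert ha, tf_pr_add, ih]

private theorem tf_pr_single {ι : Type} [Fintype ι] [DecidableEq ι] (i : ι) (t : ι → ℝ) :
    pr (Pi.single i 1) t = t i := by
  unfold pr
  rw [Finset.sum_eq_single i]
  · rw [Pi.single_eq_same, Int.cast_one, one_mul]
  · intro j _ hj
    rw [Pi.single_eq_of_ne hj, Int.cast_zero, zero_mul]
  · intro h
    exact absurd (Finset.mem_univ i) h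

/-- all exponents -/
private def tfY {ι β : Type} [DecidableEq ι] [Fintype β] {a : ℕ} (y : Fin a → ι → ℤ)
    (g : β → ι) (u : Fin a → ℕ) (v : β → ℕ) : ι → ℤ :=
  (∑ p, (u p : ℤ) • y p) + ∑ b, (v b : ℤ) • Pi.single (g b) 1

private theorem tf_mon {ι β F : Type} [Fintype ι] [DecidableEq ι] [Fintype β] [Field F]
    {w : ι → F} (hw : ∀ l, w l ≠ 0) {a : ℕ} (y : Fin a → ι → ℤ)
    (g : β → ι) (u : Fin a → ℕ) (v : β → ℕ) : mon w (tfY y g u v) =
      (∏ p, mon w (y p) ^ u p) * ∏ b, w (g b) ^ v b := by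
  unfold tfY
  rw [mon_add' hw, Pool.Agent.CITLines.mon_sum hw, Pool.Agent.CITLines.mon_sum hw]
  congr 1
  · refine Finset.prod_congr rfl fun p _ => ?_
    rw [mon_smul, zpow_natCast]
  · refine Finset.prod_congr rfl fun b _ => ?_
    rw [mon_smul, mon_single, zpow_natCast]

private theorem tf_pr {ι β : Type} [Fintype ι] [DecidableEq ι] [Fintype β]
    (x : ι → ℝ) (g : β → ι) (q : ι → β → ℚ)
    (hq : ∀ l, x l = ∑ b, (q l b : ℝ) * x (g b)) {a : ℕ} (y : Fin a → ι → ℤ)
    (u : Fin a → ℕ) (v : β → ℕ) : pr (tfY y g u v) x =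
      ∑ b, ((∑ p, ((u p : ℕ) : ℚ) * (∑ l, (y p l : ℚ) * q l b) + ((v b : ℕ) : ℚ) : ℚ) : ℝ) *
        x (g b) := by
  unfold tfY
  rw [tf_pr_add, tf_pr_sum, tf_pr_sum]
  simp only [tf_pr_smul, tf_pr_single]
  push_cast
  simp only [add_mul]
  rw [Finset.sum_add_distrib]
  congr 1
  simp only [Finset.sum_mul]
  rw [Finset.sum_comm]
  refine Finset.sum_congr rfl fun p _ => ?_
  simp only [mul_assoc]
  rw [← Finset.mul_sum]
  congr 1
  unfold pr
  simp only [Finset.sum_mul]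
  rw [Finset.sum_comm]
  refine Finset.sum_congr rfl fun l _ => ?_
  rw [hq l, Finset.mul_sum]
  refine Finset.sum_congr rfl fun b _ => ?_
  ring

/-- **Theorem T* for general coordinates.**

Proof. As the corresponding part of `ts_final` in `LSharp/TSFinal.lean`: `D'` from `rel_unifx`; `S` = the range of `rr`
together with all integers (countable), `θ` from `exists_theta`; `levelx` for most `j`; finitely many `(g, q)`
(`finite_q`), so one pair occurs for most `j` (`Ultrafilter.eventually_exists_mem_iff`). -/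
theorem tsw_level {J : Type} (U : Ultrafilter J) {ι β M : Type} [Fintype ι] [DecidableEq ι]
    [Fintype β] [DecidableEq β] [DecidableEq M] (K : J → Type) [∀ j, Field (K j)]
    [∀ j, NumberField (K j)] (sg : (j : J) → K j →+* ℂ)
    (x : (j : J) → ι → MvPowerSeries β (K j)) (bs : β → ι)
    (cl : ι → M) (D : ℕ) (hL : ∀ᶠ j in (U : Filter J), LX (K j) (x j) bs cl D)
    (rr : β → ι → ℝ) (hdet : ∀ᶠ j in (U : Filter J), Wdg (sg j) (x j) rr id) :
    ∃ (g : β → ι) (q : ι → β → ℚ), AD bs cl rr g q ∧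
      ∀ᶠ j in (U : Filter J), ∃ (Ω : Type) (_ : Field Ω) (_ : IsAlgClosed Ω) (_ : Algebra ℂ Ω)
        (v : Ω → ℝ) (φ : GF (x j) →+* Ω), TW (sg j) (x j) g q v φ := by
  classical
  let S : Set ℝ := (Set.range fun z : β × ι => rr z.1 z.2) ∪ Set.range (fun n : ℤ => (n : ℝ))
  have hSc : S.Countable := ((Set.finite_range _).countable).union (Set.countable_range _)
  obtain ⟨θ, hθ⟩ := exists_theta (β := β) S hSc
  obtain ⟨D', hD1, hD'⟩ := rel_unifx bs cl D
  have hfin : ({z : (β → ι) × (ι → β → ℚ) |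
      ∀ l b, |(z.2 l b).num| ≤ D' ∧ (z.2 l b).den ≤ D'}).Finite := by
    refine ((Set.finite_univ (α := β → ι)).prod (finite_q (β := β) (ι := ι) D')).subset ?_
    rintro ⟨z1, z2⟩ hz
    exact ⟨Set.mem_univ _, hz⟩
  have hex : ∀ᶠ j in (U : Filter J), ∃ z ∈ {z : (β → ι) × (ι → β → ℚ) |
      ∀ l b, |(z.2 l b).num| ≤ D' ∧ (z.2 l b).den ≤ D'}, AD bs cl rr z.1 z.2 ∧
      ∃ (Ω : Type) (_ : Field Ω) (_ : IsAlgClosed Ω) (_ : Algebra ℂ Ω)
        (v : Ω → ℝ) (φ : GF (x j) →+* Ω), TW (sg j) (x j) z.1 z.2 v φ := by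
    filter_upwards [hL, hdet] with j b1 b2
    obtain ⟨g, q, c1, c2, c3⟩ := levelx (K j) b1 D' hD1
      (fun m A hA hc => hD' (K j) (x j) b1 m A hA hc) (sg j) rr b2 S
      (fun i l => Or.inl ⟨(i, l), rfl⟩) (fun n => Or.inr ⟨n, rfl⟩) θ hθ
    exact ⟨(g, q), c1, c2, c3⟩
  obtain ⟨⟨g, q⟩, -, hgq⟩ := (Ultrafilter.eventually_exists_mem_iff hfin).1 hex
  obtain ⟨j0, hA, -⟩ := hgq.exists
  exact ⟨g, q, hA, hgq.mono fun j h => h.2⟩

/-- **Independence of the auxiliary functions**, at one level, with constants `lam`, `n0` which depend only on the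
adapted data.

Proof. As `ts_indep` and the end of `ts_final` in `LSharp/TSFinal.lean`: `scalex` (with `cb b = cl (bs b)`) gives `lam` and
`n0`. The function with index `z` is the image in the fraction field of `mon (gen x) Y_z`,
`Y_z = ∑ p, z.1 p • y p + ∑ b, z.2 b • single (g b)`, and with `u l = v (φ (gen x l))`
`pr Y_z u = ∑ b, c_b * u (g b)` with the rational
numbers `c_b` of `scalex` (`hT.lin`, `hA.hb`), so the values are different for different `z` (`hT.ind`); `rv_comap` and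
`sep_of_rv` (`TStep`). -/
theorem tsw_indep {ι β M : Type} [Fintype ι] [DecidableEq ι] [Fintype β] [DecidableEq β]
    (bs : β → ι) (cl : ι → M) (rr : β → ι → ℝ) (g : β → ι) (q : ι → β → ℚ)
    (hA : AD bs cl rr g q) (a : ℕ) (e : Fin a → β) (he : Function.Injective e) :
    ∃ lam : ℝ, 0 < lam ∧ ∀ (C : ℝ) (B : ℕ), ∃ n0 : ℕ, ∀ (K : Type) [Field K] (s : K →+* ℂ)
      (x : ι → MvPowerSeries β K), (∀ l, wx x l ≠ 0) → ∀ (Ω : Type) [Field Ω] [Algebra ℂ Ω]
      (v : Ω → ℝ) (φ : GF x →+* Ω), TW s x g q v φ →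
      ∀ n : M → ℕ, (∀ m, n0 ≤ n m) → ∀ y : Fin a → ι → ℤ,
        (∀ p l, |(y p l : ℝ) - n (cl l) * (lam * rr (e p) l)| ≤ C) →
        LinearIndependent K
          (fun z : (Fin a → Fin B) × ((b : β) → Fin (n (cl (bs b)))) =>
            (∏ p, mon (wx x) (y p) ^ (z.1 p : ℕ)) * ∏ b, wx x (g b) ^ (z.2 b : ℕ)) := by
  classical
  obtain ⟨lam, hlam, hsc⟩ := scalex a e he rr q cl (fun b => cl (bs b)) hA.hq hA.hdet
  refine ⟨lam, hlam, fun C B => ?_⟩
  obtain ⟨n0, hn0⟩ := hsc C B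
  refine ⟨n0, ?_⟩
  intro K _ s x hx Ω _ _ v φ hT n hn y hy
  have hinj := hn0 n hn y hy
  have hgen : ∀ l, gen x l ≠ 0 := fun l h => hx l (congrArg Subtype.val h)
  have hrv : RV K (fun z : GF x => v (φ z)) := rv_comap hT.rv s φ hT.const
  obtain ⟨t, hs, hli, hq⟩ : ∃ t : ι → ℝ, Sep K (gen x) t ∧
      LinearIndependent ℚ (fun b => t (g b)) ∧ ∀ l, t l = ∑ b, (q l b : ℝ) * t (g b) :=
    ⟨fun l => v (φ (gen x l)), sep_of_rv (gen x) hgen hrv, hT.ind, hT.lin⟩
  let Y : ((Fin a → Fin B) × ((b : β) → Fin (n (cl (bs b))))) → ι → ℤ := fun z =>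
    tfY y g (fun p => z.1 p) (fun b => z.2 b)
  have hpr : ∀ z z' : (Fin a → Fin B) × ((b : β) → Fin (n (cl (bs b)))),
      pr (Y z) t = pr (Y z') t → z = z' := by
    intro z z' h
    apply hinj
    simp only [Y] at h
    rw [tf_pr t g q hq, tf_pr t g q hq, ← sub_eq_zero, ← Finset.sum_sub_distrib] at h
    funext b
    have h1 := Fintype.linearIndependent_iff.1 hli (fun b =>
      (∑ p, ((z.1 p : ℕ) : ℚ) * (∑ l, (y p l : ℚ) * q l b) + ((z.2 b : ℕ) : ℚ)) -
        (∑ p, ((z'.1 p : ℕ) : ℚ) * (∑ l, (y p l : ℚ) * q l b) + ((z'.2 b : ℕ) : ℚ))) (by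
        rw [← h]
        refine Finset.sum_congr rfl fun b _ => ?_
        rw [Rat.smul_def, Rat.cast_sub, sub_mul]) b
    exact sub_eq_zero.1 h1
  let S : Finset (ι → ℤ) := Finset.univ.image Y
  have hS : ∀ z, Y z ∈ S := fun z => Finset.mem_image_of_mem _ (Finset.mem_univ z)
  have h1 := hs S (by
    intro y1 h1 y2 h2 h12
    obtain ⟨z1, -, rfl⟩ := Finset.mem_image.1 (Finset.mem_coe.1 h1)
    obtain ⟨z2, -, rfl⟩ := Finset.mem_image.1 (Finset.mem_coe.1 h2)
    rw [hpr z1 z2 h12])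
  have h2 : LinearIndependent K (fun z => mon (gen x) (Y z)) := by
    refine h1.comp (fun z => (⟨Y z, hS z⟩ : S)) ?_
    intro z z' hz
    have h3 : Y z = Y z' := congrArg Subtype.val hz
    exact hpr z z' (by rw [h3])
  have h3 := h2.map' ((IntermediateField.adjoin K (Set.range fun i =>
    algebraMap (MvPowerSeries β K) (FractionRing (MvPowerSeries β K)) (x i))).val.toLinearMap)
    (LinearMap.ker_eq_bot.2 Subtype.val_injective)
  have h4 : (fun z : (Fin a → Fin B) × ((b : β) → Fin (n (cl (bs b)))) =>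
      (∏ p, mon (wx x) (y p) ^ (z.1 p : ℕ)) * ∏ b, wx x (g b) ^ (z.2 b : ℕ)) =
      (IntermediateField.adjoin K (Set.range fun i =>
        algebraMap (MvPowerSeries β K) (FractionRing (MvPowerSeries β K))
          (x i))).val.toLinearMap ∘ fun z => mon (gen x) (Y z) := by
    funext z
    rw [← tf_mon hx y g (fun p => (z.1 p : ℕ)) (fun b => (z.2 b : ℕ))]
    exact mon_map (IntermediateField.adjoin K (Set.range fun i =>
      algebraMap (MvPowerSeries β K) (FractionRing (MvPowerSeries β K)) (x i))).val.toRingHom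
      (gen x) (Y z)
  rw [h4]
  exact h3

end Pool.Agent.Zilber
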