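import Pool.Agent.Zilber.TConf
import Pool.Agent.Zilber.TFinal

set_option autoImplicit false

/-! TSW: the theorem on cones (T*) for configurations (owner helper44). -/

namespace Pool.Agent.Zilber

open Filter NumberField Module Pool.Agent.LAll Pool.Agent.LSharp Pool.Agent.CITLines

variable {J : Type} {𝒰 : Ultrafilter J} {K : J → Type} [∀ j, Field (K j)] [∀ j, NumberField (K j)]
  {k : ℕ} {s : Fin (k + 1) → J → ℝ} {F : Fin (k + 1) → Subfield (Ult 𝒰 K)} {ι β : Type} [Fintype ι]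
  [Fintype β] [DecidableEq β] {cl : ι → Fin (k + 1)} {x : ι → Ult 𝒰 K} {bs : β → ι}
  {X : ι → Ult 𝒰 (PS β K)}

/-- An embedding of the field of the branch into an algebraically closed field with a real valuation
which is trivial on `ℂ`, with values given by the matrix `q`. -/
def Emb {F : Type} [Field F] (σ : F →+* ℂ) (f : ι → MvPowerSeries β F) (g : β → ι) (q : ι → β → ℚ) :
    Prop :=
  ∃ (Ω : Type) (_ : Field Ω) (_ : IsAlgClosed Ω) (_ : Algebra ℂ Ω) (v : Ω → ℝ) (φ : GF f →+* Ω),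
    RV ℂ v ∧ (∀ a : F, φ (algebraMap F (GF f) a) = algebraMap ℂ Ω (σ a)) ∧
    (∀ i, v (φ (gen f i)) = ∑ b, (q i b : ℝ) * v (φ (gen f (g b)))) ∧
    LinearIndependent ℚ (fun b => v (φ (gen f (g b))))

/-- **T-star for configurations.** -/
theorem tsw (hc : Conf 𝒰 K s F cl x bs) (hX : Br 𝒰 K F cl x bs X)
    (hF : ∀ l, F l ≤ Lf 𝒰 K (s l)) (σ : ∀ j, K j →+* ℂ)
    (R : β → ι → ℝ) (hR : ∀ᶠ j in (𝒰 : Filter J), Wdg (σ j) (fun i => (X i).rep j) R id) :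
    ∃ (g : β → ι) (q : ι → β → ℚ), (∀ b, cl (g b) = cl (bs b)) ∧
      (∀ i b, q i b ≠ 0 → cl i = cl (bs b)) ∧
      (∀ b b', q (g b) b' = if b = b' then 1 else 0) ∧
      (Matrix.of fun r b => ∑ i, R r i * (q i b : ℝ)).det ≠ 0 ∧
      ∀ᶠ j in (𝒰 : Filter J), Emb (σ j) (fun i => (X i).rep j) g q := by
  classical
  obtain ⟨D, hD⟩ := conf_LX hc hX hF
  obtain ⟨g, q, hA, hE⟩ := tsw_level 𝒰 K σ (fun j i => (X i).rep j) bs cl D hD R hR
  refine ⟨g, q, hA.hg, hA.hq, hA.hb, hA.hdet, ?_⟩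
  filter_upwards [hE] with j hj
  obtain ⟨Ω, i1, i2, i3, v, φ, h⟩ := hj
  exact ⟨Ω, i1, i2, i3, v, φ, h.rv, h.const, h.lin, h.ind⟩

end Pool.Agent.Zilber
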