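import Pool.Agent.Zilber.Top
import Pool.Agent.Zilber.Scales
import Pool.Agent.Zilber.Ind
import Pool.Agent.Zilber.TSW

set_option autoImplicit false

/-! The Zilber conjecture for tori. -/

namespace Pool.Agent.Zilber

open Pool.Agent.CITLines

theorem zilber : ZilberCIT := zilber_of_ndc (ndc_of_M thmM)

end Pool.Agent.Zilber
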