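import Pool.Agent.Zilber.ADefs
import Pool.Agent.LAll.AuxPoly

set_option autoImplicit false

/-! Package ZA3: the linear equations of the auxiliary function (Siegel's lemma).

This is a variant of `LSharp.aux` (`Pool/Agent/LSharp/COAux.lean`, proved; copy and adapt it).
The conditions are indexed by `k : A → Fin D`, the exponents `ν b ≤ C * B * n (cb b)`, `b ≠ y`, and
`ν y < θ * B * n (cb y)`. COUNT: the number of `ν y` is at most `⌈θ B n_y⌉ ≤ 2 θ B n_y` (because
`1 ≤ θ * B ≤ θ B n_y`), the number of `ν b` is at most `C B n_b + 1 ≤ (C + 1) B n_b`. So there are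
at most
`D ^ card A * 2 θ * (C + 1) ^ card β * B ^ card β * ∏ b, n (cb b)` conditions
(`(C + 1) ^ (card β - 1) ≤ (C + 1) ^ card β`), and `4 * D ^ card A * θ * (C + 1) ^ card β ≤ 1`
makes this at most half of the number `card (XA β B n cb) = B ^ card β * ∏ b, n (cb b)` of unknowns.
A convenient index type: `(A → Fin D) × (∀ b, Fin (if b = y then ⌈θ * B * n (cb y)⌉₊ else
C * B * n (cb b) + 1))`; `Finset.prod_le_prod'`/`Finset.prod_le_prod` with the factor
`(if b = y then 2 * θ else C + 1) * (B * n (cb b))`.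
SIEGEL: `LAll.siegel` with `Y = exp (C1 * M0)`; `Nonempty (XA ..)` (`0 < B`, `0 < n`); the bound is
`card (XA ..) * exp (C1 M0)`, and `card XA = B ^ card β ∏ n ≤ exp (card β * B * M0 + card β * M0)`
(`B ≤ exp B`, `1 ≤ M0`, `n ≤ M0 ≤ exp M0`).
CONDITIONS: let `ν y < θ B n_y`. If some class degree of `ν` is `> C B n a`, all `N x k ν` vanish
(`hN`); otherwise `ν b ≤ cdeg cb ν (cb b) ≤ C B n (cb b)` and `(k, ν)` is one of the conditions. -/

namespace Pool.Agent.Zilber.CA

open Pool.Agent.LAll Pool.Agent.LSharp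

private theorem countA {M β A : Type} [Fintype β] [Fintype A] [DecidableEq β] (cb : β → M) (y : β)
    (D C B : ℕ) (θ : ℝ) (hθ : 0 < θ)
    (hθ1 : 4 * (D : ℝ) ^ Fintype.card A * θ * ((C : ℝ) + 1) ^ Fintype.card β ≤ 1)
    (hB : 1 ≤ θ * B) (hB1 : 1 ≤ B) (n : M → ℕ) (hn : ∀ a, 1 ≤ n a) :
    2 * (D ^ Fintype.card A * ∏ b, (if b = y then ⌈θ * B * n (cb y)⌉₊ else C * B * n (cb b) + 1)) ≤
      B ^ Fintype.card β * ∏ b, n (cb b) := by
  have h1 : ∏ b, (((if b = y then ⌈θ * B * n (cb y)⌉₊ else C * B * n (cb b) + 1 : ℕ)) : ℝ) ≤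
      ∏ b, (((if b = y then 2 * θ else 1) * ((C : ℝ) + 1)) * ((B : ℝ) * n (cb b))) := by
    refine Finset.prod_le_prod (fun b _ => Nat.cast_nonneg _) fun b _ => ?_
    have hnb : (1 : ℝ) ≤ n (cb b) := by exact_mod_cast hn (cb b)
    have hBr : (1 : ℝ) ≤ B := by exact_mod_cast hB1
    have hC0 : (0 : ℝ) ≤ C := Nat.cast_nonneg C
    have hBn : (1 : ℝ) ≤ (B : ℝ) * n (cb b) := by nlinarith
    by_cases hby : b = y
    · subst hby
      rw [if_pos rfl, if_pos rfl]
      have h2 : (1 : ℝ) ≤ θ * B * n (cb b) := by nlinarith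
      have h3 : ((⌈θ * B * n (cb b)⌉₊ : ℕ) : ℝ) < θ * B * n (cb b) + 1 :=
        Nat.ceil_lt_add_one (by linarith)
      have h4 : (0 : ℝ) ≤ C * (2 * (θ * B * n (cb b))) := by positivity
      nlinarith
    · rw [if_neg hby, if_neg hby]
      push_cast
      nlinarith
  have h2 : ∏ b, (((if b = y then 2 * θ else 1) * ((C : ℝ) + 1)) * ((B : ℝ) * n (cb b))) =
      2 * θ * ((C : ℝ) + 1) ^ Fintype.card β *
        ((B : ℝ) ^ Fintype.card β * ∏ b, (n (cb b) : ℝ)) := by
    rw [Finset.prod_mul_distrib, Finset.prod_mul_distrib, Finset.prod_mul_distrib,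
      Finset.prod_ite_eq', if_pos (Finset.mem_univ y), Finset.prod_const, Finset.prod_const,
      Finset.card_univ]
  have h3 : (0 : ℝ) ≤ (B : ℝ) ^ Fintype.card β * ∏ b, (n (cb b) : ℝ) := by positivity
  have h4 : (2 * ((D : ℝ) ^ Fintype.card A *
      ∏ b, (((if b = y then ⌈θ * B * n (cb y)⌉₊ else C * B * n (cb b) + 1 : ℕ)) : ℝ))) ≤
      (B : ℝ) ^ Fintype.card β * ∏ b, (n (cb b) : ℝ) := by
    rw [h2] at h1
    calc 2 * ((D : ℝ) ^ Fintype.card A *
          ∏ b, (((if b = y then ⌈θ * B * n (cb y)⌉₊ else C * B * n (cb b) + 1 : ℕ)) : ℝ))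
        ≤ 2 * ((D : ℝ) ^ Fintype.card A * (2 * θ * ((C : ℝ) + 1) ^ Fintype.card β *
          ((B : ℝ) ^ Fintype.card β * ∏ b, (n (cb b) : ℝ)))) := by
          have hD : (0 : ℝ) ≤ (D : ℝ) ^ Fintype.card A := by positivity
          have := mul_le_mul_of_nonneg_left h1 hD
          linarith
      _ = (4 * (D : ℝ) ^ Fintype.card A * θ * ((C : ℝ) + 1) ^ Fintype.card β) *
          ((B : ℝ) ^ Fintype.card β * ∏ b, (n (cb b) : ℝ)) := by ring
      _ ≤ 1 * ((B : ℝ) ^ Fintype.card β * ∏ b, (n (cb b) : ℝ)) :=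
          mul_le_mul_of_nonneg_right hθ1 h3
      _ = _ := one_mul _
  exact_mod_cast h4

private theorem card_bdA {M β : Type} [Fintype β] (cb : β → M) (B : ℕ) (n : M → ℕ) (M0 : ℝ)
    (hM : 1 ≤ M0) (hnM : ∀ a, (n a : ℝ) ≤ M0) :
    ((B ^ Fintype.card β * ∏ b, n (cb b) : ℕ) : ℝ) ≤
      Real.exp ((Fintype.card β * B + Fintype.card β) * M0) := by
  have h0 : ∀ x : ℝ, x ≤ Real.exp x := fun x => by linarith [Real.add_one_le_exp x]
  have h1 : ((B : ℝ)) ^ Fintype.card β ≤ Real.exp (Fintype.card β * B * M0) := by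
    calc ((B : ℝ)) ^ Fintype.card β ≤ (Real.exp B) ^ Fintype.card β :=
          pow_le_pow_left₀ (Nat.cast_nonneg _) (h0 _) _
      _ = Real.exp (Fintype.card β * B) := by
          rw [← Real.exp_nat_mul]
      _ ≤ Real.exp (Fintype.card β * B * M0) := by
          apply Real.exp_le_exp.2
          have : (0 : ℝ) ≤ (Fintype.card β : ℝ) * B := by positivity
          nlinarith
  have h2 : ((∏ b, n (cb b) : ℕ) : ℝ) ≤ Real.exp (Fintype.card β * M0) := by
    push_cast
    calc ∏ b, (n (cb b) : ℝ) ≤ ∏ _b : β, Real.exp M0 :=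
          Finset.prod_le_prod (fun b _ => Nat.cast_nonneg _)
            (fun b _ => (hnM _).trans (h0 _))
      _ = Real.exp (Fintype.card β * M0) := by
          rw [Finset.prod_const, Finset.card_univ, ← Real.exp_nat_mul]
  calc ((B ^ Fintype.card β * ∏ b, n (cb b) : ℕ) : ℝ)
      = (B : ℝ) ^ Fintype.card β * ((∏ b, n (cb b) : ℕ) : ℝ) := by push_cast; ring
    _ ≤ Real.exp (Fintype.card β * B * M0) * Real.exp (Fintype.card β * M0) :=
        mul_le_mul h1 h2 (Nat.cast_nonneg _) (Real.exp_pos _).le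
    _ = _ := by rw [← Real.exp_add]; ring_nf

/-- **The auxiliary coefficients.** -/
theorem auxA {M β A : Type} [Fintype M] [Fintype β] [Fintype A] [DecidableEq M] [DecidableEq β]
    (cb : β → M) (y : β) (D C B : ℕ) (θ : ℝ) (hθ : 0 < θ)
    (hθ1 : 4 * (D : ℝ) ^ Fintype.card A * θ * ((C : ℝ) + 1) ^ Fintype.card β ≤ 1)
    (hB : 1 ≤ θ * B) (hB1 : 1 ≤ B) (n : M → ℕ) (M0 C1 : ℝ) (hn : ∀ a, 1 ≤ n a) (hM : 1 ≤ M0)
    (hnM : ∀ a, (n a : ℝ) ≤ M0) (hC : 0 ≤ C1)
    (N : XA β B n cb → (A → Fin D) → (β →₀ ℕ) → ℤ)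
    (hN : ∀ x k ν, N x k ν ≠ 0 → ∀ a, cdeg cb ν a ≤ C * B * n a)
    (hN1 : ∀ x k ν, |(N x k ν : ℝ)| ≤ Real.exp (C1 * M0)) :
    ∃ c : XA β B n cb → ℤ, c ≠ 0 ∧
      (∀ x, |(c x : ℝ)| ≤ Real.exp ((Fintype.card β * B + Fintype.card β + C1) * M0)) ∧
      ∀ k ν, (ν y : ℝ) < θ * B * n (cb y) → ∑ x, c x * N x k ν = 0 := by
  classical
  let g : β → ℕ := fun b => if b = y then ⌈θ * B * n (cb y)⌉₊ else C * B * n (cb b) + 1
  let IQ : Type := (A → Fin D) × (∀ b, Fin (g b))
  let nu : IQ → (β →₀ ℕ) := fun q => Finsupp.equivFunOnFinite.symm fun b => (q.2 b : ℕ)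
  have hXA : Fintype.card (XA β B n cb) = B ^ Fintype.card β * ∏ b, n (cb b) := by
    simp [XA]
  have hIQ : Fintype.card IQ = D ^ Fintype.card A * ∏ b, g b := by
    simp [IQ]
  have hne : Nonempty (XA β B n cb) := by
    rw [← Fintype.card_pos_iff, hXA]
    have h1 : 0 < ∏ b, n (cb b) := Finset.prod_pos fun b _ => hn _
    positivity
  have hY : 1 ≤ Real.exp (C1 * M0) := by
    rw [← Real.exp_zero]
    exact Real.exp_le_exp.2 (mul_nonneg hC (by linarith))
  obtain ⟨c, hc, hcb, hc0⟩ := LAll.siegel (fun (q : IQ) x => N x q.1 (nu q))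
    (Real.exp (C1 * M0)) hY (fun q x => hN1 _ _ _) (by
      rw [hXA, hIQ]
      exact countA cb y D C B θ hθ hθ1 hB hB1 n hn)
  refine ⟨c, hc, fun x => ?_, fun k ν hν => ?_⟩
  · refine (hcb x).trans ?_
    rw [hXA]
    refine (mul_le_mul_of_nonneg_right (card_bdA cb B n M0 hM hnM)
      (Real.exp_pos _).le).trans (le_of_eq ?_)
    rw [← Real.exp_add]
    congr 1
    ring
  · by_cases hall : ∃ a, C * B * n a < cdeg cb ν a
    · obtain ⟨a, ha⟩ := hall
      refine Finset.sum_eq_zero fun x _ => ?_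
      have h0 : N x k ν = 0 := by
        by_contra h
        exact absurd (hN x k ν h a) (not_le.2 ha)
      rw [h0, mul_zero]
    · push Not at hall
      have hz : ∀ b, ν b < g b := by
        intro b
        by_cases hby : b = y
        · subst hby
          show ν b < if b = b then ⌈θ * B * n (cb b)⌉₊ else C * B * n (cb b) + 1
          rw [if_pos rfl]
          exact Nat.lt_ceil.2 hν
        · show ν b < if b = y then ⌈θ * B * n (cb y)⌉₊ else C * B * n (cb b) + 1
          rw [if_neg hby]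
          have h1 : ν b ≤ cdeg cb ν (cb b) := by
            unfold cdeg
            exact Finset.single_le_sum (f := fun u => ν u) (fun _ _ => Nat.zero_le _)
              (Finset.mem_filter.2 ⟨Finset.mem_univ _, rfl⟩)
          have h2 := hall (cb b)
          omega
      have h1 := hc0 (k, fun b => ⟨ν b, hz b⟩)
      have h2 : nu (k, fun b => ⟨ν b, hz b⟩) = ν := by
        ext u
        simp [nu]
      simp only [h2] at h1
      rw [← h1]
      exact Finset.sum_congr rfl fun x _ => mul_comm _ _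

end Pool.Agent.Zilber.CA
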