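import Pool.Agent.LSharp.CODefs
import Pool.Agent.LSharp.NVXDefs

set_option autoImplicit false

/-! Zilber's conjecture, case A (no bounded character): definitions. The auxiliary functions of
section 4 at one level: a number field `K`, finitely many places, power series in the variables `β`
over `K`. No ultraproducts.

`M` are the blocks (classes), `β` the variables (transcendence bases and constants), `A` the
generators (coordinates, their inverses, constants), `cb`, `ca` the classes. `y : β` is the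
variable of the divisor (already shifted: `t y` is `y(P) - c₀`). -/

namespace Pool.Agent.Zilber.CA

open NumberField Pool.Agent.LAll Pool.Agent.LSharp

/-- The indices of the auxiliary functions of case A: `B ^ card β * ∏ n (cb b)` of them. -/
abbrev XA {M : Type} (β : Type) (B : ℕ) (n : M → ℕ) (cb : β → M) : Type :=
  (β → Fin B) × (∀ b, Fin (n (cb b)))

/-- **The data at one level, case A.** `F s` are the generators, `q s` (in the variables of the
class of `s`) is the leading coefficient and `p s` are the other coefficients of an equation of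
`F s`; `G s` is the inverse of `q s (t + ζ)`. -/
structure LvA {M β A : Type} [Fintype β] [DecidableEq M] (cb : β → M) (ca : A → M) (y : β)
    (D : ℕ) (D1 μ δ : ℝ) (K : Type) [Field K] [NumberField K] (S : Finset (FinitePlace K)) where
  /-- the degrees -/
  n : M → ℕ
  /-- the heights -/
  h : M → ℝ
  /-- the heights of the coefficients of the equations -/
  κ : M → ℝ
  T : ℝ
  M0 : ℝ
  t : β → K
  F : A → MvPowerSeries β K
  G : A → MvPowerSeries β K
  q : A → MvPolynomial β ℤ
  p : A → Fin D → MvPolynomial β ℤ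
  /-- the logarithms of the radii of convergence -/
  Q : Plc K S → β → ℝ
  /-- the places where `t y` is small -/
  TT : Finset (Plc K S)
  m : Plc K S → ℝ
  /-- the pole masses -/
  pl : Plc K S → M → ℝ
  one_le_n : ∀ a, 1 ≤ n a
  one_le_h : ∀ a, 1 ≤ h a
  T_le : ∀ a, T ≤ n a * h a
  le_T : ∀ a, n a * h a ≤ 2 * T
  one_le_M0 : 1 ≤ M0
  n_le : ∀ a, (n a : ℝ) ≤ M0
  one_le_κ : ∀ a, 1 ≤ κ a
  nκ_le : ∀ a, n a * κ a ≤ M0
  q_CD : ∀ s, CD cb (q s) (fun a => if a = ca s then D else 0)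
  q_L1 : ∀ s, L1 (q s) ≤ Real.exp (D1 * κ (ca s))
  p_CD : ∀ s i, CD cb (p s i) (fun a => if a = ca s then D else 0)
  p_L1 : ∀ s i, L1 (p s i) ≤ Real.exp (D1 * κ (ca s))
  eqn : ∀ s, evT t (q s) * F s ^ D = ∑ i : Fin D, evT t (p s i) * F s ^ (i : ℕ)
  inv : ∀ s, evT t (q s) * G s = 1
  t0 : ∀ b, t b ≠ 0
  F0 : ∀ s, MvPowerSeries.constantCoeff (F s) ≠ 0
  intOff : ∀ s i, IntOff S (MvPowerSeries.coeff i (F s))
  Q_nonneg : ∀ v b, 0 ≤ Q v b
  sum_Q : ∀ b, ∑ v, Q v b ≤ D * h (cb b)
  growF : ∀ s v i, MvPowerSeries.coeff i (F s) ≠ 0 → lam v (MvPowerSeries.coeff i (F s)) ≤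
    lam v (MvPowerSeries.constantCoeff (F s)) + ∑ b, (i b : ℝ) * Q v b + D1 * LAll.wt v
  growG : ∀ s v i, MvPowerSeries.coeff i (G s) ≠ 0 → lam v (MvPowerSeries.coeff i (G s)) ≤
    lam v (MvPowerSeries.constantCoeff (G s)) + ∑ b, (i b : ℝ) * Q v b + D1 * LAll.wt v
  growt : ∀ b v, 0 ≤ lam v (t b) + Q v b
  m_nonneg : ∀ v, 0 ≤ m v
  mass : μ ≤ ∑ v ∈ TT, m v
  lamy : ∀ v ∈ TT, lam v (t y) ≤ -(h (cb y) * m v)
  pl_nonneg : ∀ v a, 0 ≤ pl v a
  lamt : ∀ b, b ≠ y → ∀ v ∈ TT, lam v (t b) ≤ pl v (cb b)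
  lamF : ∀ s, ∀ v ∈ TT, lam v (MvPowerSeries.constantCoeff (F s)) ≤ pl v (ca s)
  lamG : ∀ s, ∀ v ∈ TT, lam v (MvPowerSeries.constantCoeff (G s)) ≤ pl v (ca s)
  sum_pl : ∀ a, ∑ v ∈ TT, pl v a ≤ δ * h a

/-- The auxiliary function with the coefficients `c` and the exponents `al`. -/
noncomputable def LvA.aux {M β A : Type} [Fintype β] [Fintype A] [DecidableEq M] [DecidableEq β]
    {cb : β → M} {ca : A → M} {y : β} {D : ℕ} {D1 μ δ : ℝ} {K : Type} [Field K] [NumberField K]
    {S : Finset (FinitePlace K)} (L : LvA cb ca y D D1 μ δ K S) {B : ℕ}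
    (al : XA β B L.n cb → A → ℕ) (c : XA β B L.n cb → ℤ) : MvPowerSeries β K :=
  ∑ x, (c x : MvPowerSeries β K) * ∏ s, L.F s ^ al x s

/-- Polynomials in the variables of one class. -/
theorem CD_of_vars {M U : Type} [Fintype U] [DecidableEq M] (c : U → M) (a0 : M) (D : ℕ)
    (P : MvPolynomial U ℤ) (h : ∀ b ∈ P.vars, c b = a0) (hd : P.totalDegree ≤ D) :
    CD c P (fun a => if a = a0 then D else 0) := by
  classical
  intro ν hν a
  have h1 : ∀ b, ν b ≠ 0 → c b = a0 := fun b hb =>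
    h b (MvPolynomial.mem_vars b |>.2 ⟨ν, hν, Finsupp.mem_support_iff.2 hb⟩)
  show cdeg c ν a ≤ if a = a0 then D else 0
  by_cases ha : a = a0
  · rw [if_pos ha]
    refine le_trans ?_ hd
    refine le_trans ?_ (MvPolynomial.le_totalDegree hν)
    rw [Finsupp.sum_fintype _ _ fun _ => rfl]
    exact Finset.sum_le_sum_of_subset (Finset.filter_subset _ _)
  · rw [if_neg ha, Nat.le_zero]
    refine Finset.sum_eq_zero fun b hb => ?_
    by_contra h2
    exact ha ((Finset.mem_filter.1 hb).2.symm.trans (h1 b h2))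

end Pool.Agent.Zilber.CA
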