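import Pool.Agent.Zilber.ADefs
import Pool.Agent.LSharp.CONorm

set_option autoImplicit false

/-! Package ZA4: the estimate at an arbitrary place.

This is `LSharp.est_all` (`Pool/Agent/LSharp/COEstA.lean`, proved; copy and adapt it) for the
structure
`LvA`. `coeff i (L.aux al c) = ∑ x, (c x : K) * coeff i (∏ s, F s ^ al x s)`; `lam_sum_le` with
`M = exp ((card β * B + card β) * M0) ≥ card (XA ..) = B ^ card β * ∏ b, n (cb b)`. For a nonzero
term:
`lam v (c x) ≤ wt v * (CB * M0)` (`lam_int_le`), and `lam_coeff_prod` (with `D := D1`) for the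
product;
`∑ s, al x s * lam v (constantCoeff (F s)) = lam v (∏ ..) ≤ t`; `∑ b, (i b : ℝ) ≤ card β * (W * M0)`
(`i b / n (cb b) ≤ wtn L.n cb i ≤ W`, `n ≤ M0`); `∑ s, (al x s : ℝ) ≤ card A * D * B * M0`. -/

namespace Pool.Agent.Zilber.CA

open NumberField Pool.Agent.LAll Pool.Agent.LSharp MvPowerSeries

private theorem coeff_int_mul {β K : Type} [Field K] (z : ℤ) (f : MvPowerSeries β K)
    (i : β →₀ ℕ) : coeff i ((z : MvPowerSeries β K) * f) = (z : K) * coeff i f := by
  rw [← zsmul_eq_mul, map_zsmul, zsmul_eq_mul]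

private theorem expo_le {M β : Type} [Fintype β] {n : M → ℕ} {cb : β → M} {i : β →₀ ℕ} {W : ℝ}
    (hn : ∀ a, 1 ≤ n a) (hi : wtn n cb i ≤ W) (b : β) : (i b : ℝ) ≤ W * n (cb b) := by
  have h0 : (0 : ℝ) < n (cb b) := by
    exact_mod_cast hn (cb b)
  have h1 : (i b : ℝ) / n (cb b) ≤ wtn n cb i :=
    Finset.single_le_sum (f := fun b => (i b : ℝ) / n (cb b))
      (fun b _ => div_nonneg (Nat.cast_nonneg _) (Nat.cast_nonneg _)) (Finset.mem_univ b)
  have h2 := h1.trans hi
  rwa [div_le_iff₀ h0] at h2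

private theorem log_le_of_abs {z : ℤ} (hz : z ≠ 0) {X : ℝ} (h : |(z : ℝ)| ≤ Real.exp X) :
    Real.log |(z : ℝ)| ≤ X := by
  have h1 : 0 < |(z : ℝ)| := abs_pos.2 (Int.cast_ne_zero.2 hz)
  rw [← Real.log_exp X]
  exact Real.log_le_log h1 h

private theorem card_XA_le {M β : Type} [Fintype β] [DecidableEq β] {n : M → ℕ} {cb : β → M}
    {M0 : ℝ} (h1 : 1 ≤ M0) (hn : ∀ a, (n a : ℝ) ≤ M0) (B : ℕ) :
    ((Finset.univ : Finset (XA β B n cb)).card : ℝ) ≤
      Real.exp (((Fintype.card β : ℝ) * B + Fintype.card β) * M0) := by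
  have h2 : ((Finset.univ : Finset (XA β B n cb)).card : ℝ) =
      (B : ℝ) ^ (Fintype.card β) * ∏ b, (n (cb b) : ℝ) := by
    rw [Finset.card_univ, Fintype.card_prod, Fintype.card_fun, Fintype.card_fin,
      Fintype.card_pi]
    simp only [Fintype.card_fin]
    push_cast
    rfl
  have h3 : (B : ℝ) ^ (Fintype.card β) ≤ Real.exp ((Fintype.card β : ℝ) * B) := by
    have h4 : (B : ℝ) ≤ Real.exp B := by
      have := Real.add_one_le_exp (B : ℝ)
      linarith
    calc (B : ℝ) ^ (Fintype.card β) ≤ Real.exp B ^ (Fintype.card β) :=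
          pow_le_pow_left₀ (Nat.cast_nonneg _) h4 _
      _ = Real.exp ((Fintype.card β : ℝ) * B) := by
          rw [← Real.exp_nat_mul]
  have h5 : ∏ b, (n (cb b) : ℝ) ≤ Real.exp (Fintype.card β * M0) := by
    calc ∏ b, (n (cb b) : ℝ) ≤ ∏ _b : β, Real.exp M0 := by
          refine Finset.prod_le_prod (fun b _ => Nat.cast_nonneg _) fun b _ => ?_
          have := Real.add_one_le_exp M0
          linarith [hn (cb b)]
      _ = Real.exp (Fintype.card β * M0) := by
          rw [Finset.prod_const, Finset.card_univ, ← Real.exp_nat_mul]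
  rw [h2]
  calc (B : ℝ) ^ (Fintype.card β) * ∏ b, (n (cb b) : ℝ)
      ≤ Real.exp ((Fintype.card β : ℝ) * B) * Real.exp (Fintype.card β * M0) :=
        mul_le_mul h3 h5 (Finset.prod_nonneg fun b _ => Nat.cast_nonneg _) (Real.exp_pos _).le
    _ = Real.exp ((Fintype.card β : ℝ) * B + Fintype.card β * M0) := (Real.exp_add _ _).symm
    _ ≤ Real.exp (((Fintype.card β : ℝ) * B + Fintype.card β) * M0) := by
        refine Real.exp_le_exp.2 ?_
        have h6 : (0 : ℝ) ≤ (Fintype.card β : ℝ) * B := by positivity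
        nlinarith

/-- **Estimate at an arbitrary place.** -/
theorem estA_all {M β A : Type} [Fintype β] [Fintype A] [DecidableEq M] [DecidableEq β]
    (cb : β → M) (ca : A → M) (y : β) (D B : ℕ) (D1 μ CB W : ℝ) (hD1 : 0 ≤ D1) (hCB : 0 ≤ CB)
    (hW : 0 ≤ W) :
    ∃ C : ℝ, 0 ≤ C ∧ ∀ (δ : ℝ) (K : Type) [Field K] [NumberField K] (S : Finset (FinitePlace K))
      (L : LvA cb ca y D D1 μ δ K S) (al : XA β B L.n cb → A → ℕ) (c : XA β B L.n cb → ℤ)
      (v : Plc K S) (t : ℝ) (i : β →₀ ℕ),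
      (∀ x s, al x s ≤ D * B * L.n (ca s)) → (∀ x, |(c x : ℝ)| ≤ Real.exp (CB * L.M0)) →
      (∀ x, lam v (∏ s, constantCoeff (L.F s) ^ al x s) ≤ t) → wtn L.n cb i ≤ W →
      coeff i (L.aux al c) ≠ 0 →
      lam v (coeff i (L.aux al c)) ≤
        t + ∑ b, (i b : ℝ) * L.Q v b + LAll.wt v * (C * L.M0) := by
  classical
  have hp0 : (0 : ℝ) ≤ (Fintype.card A : ℝ) := Nat.cast_nonneg _
  have hq0 : (0 : ℝ) ≤ (Fintype.card β : ℝ) := Nat.cast_nonneg _
  refine ⟨CB + Fintype.card β * W + (D1 + Fintype.card β) * (Fintype.card A * D * B) +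
    ((Fintype.card β : ℝ) * B + Fintype.card β), by positivity, ?_⟩
  intro δ K _ _ S L al c v t i hal hc ht hi hne
  have hM0 : 0 ≤ L.M0 := zero_le_one.trans L.one_le_M0
  have hcoe : coeff i (L.aux al c) =
      ∑ x, (c x : K) * coeff i (∏ s, L.F s ^ al x s) := by
    unfold LvA.aux
    rw [map_sum]
    exact Finset.sum_congr rfl fun x _ => coeff_int_mul _ _ _
  rw [hcoe] at hne ⊢
  have hib : ∑ b, (i b : ℝ) ≤ Fintype.card β * (W * L.M0) := by
    calc ∑ b, (i b : ℝ) ≤ ∑ _b : β, W * L.M0 :=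
          Finset.sum_le_sum fun b _ => (expo_le L.one_le_n hi b).trans
            (mul_le_mul_of_nonneg_left (L.n_le _) hW)
      _ = Fintype.card β * (W * L.M0) := by
          rw [Finset.sum_const, Finset.card_univ, nsmul_eq_mul]
  have hterm : ∀ x ∈ (Finset.univ : Finset (XA β B L.n cb)),
      (c x : K) * coeff i (∏ s, L.F s ^ al x s) ≠ 0 →
      lam v ((c x : K) * coeff i (∏ s, L.F s ^ al x s)) ≤
        t + ∑ b, (i b : ℝ) * L.Q v b + LAll.wt v * ((CB + Fintype.card β * W +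
          (D1 + Fintype.card β) * (Fintype.card A * D * B)) * L.M0) := by
    intro x _ hx
    obtain ⟨hx1, hx2⟩ := mul_ne_zero_iff.1 hx
    have hcx : c x ≠ 0 := by
      intro h0
      rw [h0, Int.cast_zero] at hx1
      exact hx1 rfl
    rw [lam_mul v hx1 hx2]
    have h1 : lam v ((c x : ℤ) : K) ≤ LAll.wt v * (CB * L.M0) :=
      (lam_int_le v (c x) hcx).trans
        (mul_le_mul_of_nonneg_left (log_le_of_abs hcx (hc x)) (LAll.wt_nonneg v))
    have h2 := lam_coeff_prod v (fun j => L.F j)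
      (fun j => lam v (constantCoeff (L.F j))) D1 hD1 (L.Q v)
      (L.Q_nonneg v) (fun j i h => L.growF j v i h) (al x) i hx2
    have h3 : ∑ j, (al x j : ℝ) * lam v (constantCoeff (L.F j)) ≤ t := by
      refine le_trans (le_of_eq ?_) (ht x)
      rw [lam_prod v Finset.univ _ fun s _ => pow_ne_zero _ (L.F0 s)]
      exact Finset.sum_congr rfl fun s _ => (lam_pow v _ _).symm
    have h4 : ∑ s, (al x s : ℝ) ≤ Fintype.card A * D * B * L.M0 := by
      calc ∑ s, (al x s : ℝ) ≤ ∑ _s : A, (D : ℝ) * B * L.M0 := by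
            refine Finset.sum_le_sum fun s _ => ?_
            have h5 : (al x s : ℝ) ≤ (D : ℝ) * B * L.n (ca s) := by exact_mod_cast hal x s
            exact h5.trans (mul_le_mul_of_nonneg_left (L.n_le _) (by positivity))
        _ = Fintype.card A * D * B * L.M0 := by
            rw [Finset.sum_const, Finset.card_univ, nsmul_eq_mul]
            ring
    have h6 : LAll.wt v * (∑ b, (i b : ℝ) + (D1 + Fintype.card β) * ∑ j, (al x j : ℝ)) ≤
        LAll.wt v * (Fintype.card β * (W * L.M0) +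
          (D1 + Fintype.card β) * (Fintype.card A * D * B * L.M0)) := by
      refine mul_le_mul_of_nonneg_left (add_le_add hib ?_) (LAll.wt_nonneg v)
      exact mul_le_mul_of_nonneg_left h4 (by positivity)
    calc lam v ((c x : ℤ) : K) + lam v (coeff i (∏ s, L.F s ^ al x s))
        ≤ LAll.wt v * (CB * L.M0) + (t + ∑ b, (i b : ℝ) * L.Q v b +
          LAll.wt v * (Fintype.card β * (W * L.M0) +
            (D1 + Fintype.card β) * (Fintype.card A * D * B * L.M0))) := by
          linarith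
      _ = _ := by ring
  have hfin := lam_sum_le v Finset.univ _ _ _ (card_XA_le L.one_le_M0 L.n_le B)
    hterm hne
  rw [Real.log_exp] at hfin
  refine hfin.trans (le_of_eq ?_)
  ring

end Pool.Agent.Zilber.CA
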