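import Pool.Agent.Zilber.ADefs
import Pool.Agent.LSharp.CONorm

set_option autoImplicit false

/-! Package ZA5: the estimate at a place of the set `TT` (where `t y` is small).

This is a variant of `LSharp.est_TT` (`Pool/Agent/LSharp/COEstT.lean`, proved; copy and adapt it).
Write
`p = card A`, `q = card β`, `E a = D * B * n a`. Because `evT t (q s) * G s = 1`,
`H = (∏ s, G s ^ E (ca s)) * ((∏ s, evT t (q s) ^ E (ca s)) * H) = ∑ k, evT t (P k) * (∏ s, F s ^ k
s) * ∏ s, G s ^ E (ca s)`. Expanding `evT t` (it is `MvPolynomial.aeval` of `fun b => C (t b) + X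
b`, see
`LSharp/NVXDefs.lean`) the coefficient `coeff i H` is the sum over the pairs `(k, ν)`, `ν ∈ (P
k).support`, of
`(coeff ν (P k) : K) * coeff i (∏ b, (C (t b) + X b) ^ ν b * ∏ s, F s ^ k s * ∏ s, G s ^ E (ca s))`.
The number of pairs is at most `D ^ p * ∏ b, (C * B * n (cb b) + 1) ≤ exp (C' * M0)` (`ν b ≤ cdeg
cb ν (cb b)`). A nonzero term has, by `lam_coeff_prod` with `I = β ⊕ (A ⊕ A)`,
`lam v ≤ wt v log |coeff| + ∑ b, ν b lam v (t b) + ∑ s, k s lam v (F s (0)) + ∑ s, E (ca s) lam v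
(G s (0)) + ∑ b, i b Q v b + wt v * (∑ b, i b + (D1 + q) (∑ ν + ∑ k + ∑ E))`. (Growth of `C (t b) +
X b`: its nonzero coefficients are `t b` at `0` and `1` at `single b 1`; `0 = lam v 1 ≤ lam v (t b)
+ Q v b` is `L.growt`.) Here
* `ν y lam v (t y) ≤ - ν y h m v ≤ - θ B n_y h_y m v ≤ - θ B T m v` (`L.lamy`, `L.T_le`, `hPy`);
* `∑ b ≠ y, ν b lam v (t b) ≤ ∑ b, C B n (cb b) pl v (cb b)`; `∑ s, k s lam v (F s (0)) ≤ ∑ s, D pl
v (ca s)`;   `∑ s, E (ca s) lam v (G s (0)) ≤ ∑ s, D B n (ca s) pl v (ca s)`;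
  all three are `≤ C5 * B * ∑ a, n a pl v a` with `C5 = q C + 2 p D` (`1 ≤ n`, `1 ≤ B`, `0 ≤ pl`);
* `∑ b, i b ≤ q W M0`, `∑ ν ≤ q C B M0`, `∑ k ≤ p D`, `∑ E ≤ p D B M0`, `log |coeff| ≤ C1 M0`. -/

namespace Pool.Agent.Zilber.CA

open NumberField Pool.Agent.LAll Pool.Agent.LSharp MvPowerSeries

private theorem coeff_int_mul {β K : Type} [Field K] (z : ℤ) (f : MvPowerSeries β K)
    (i : β →₀ ℕ) : coeff i ((z : MvPowerSeries β K) * f) = (z : K) * coeff i f := by
  rw [← zsmul_eq_mul, map_zsmul, zsmul_eq_mul]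

private theorem expo_le {M β : Type} [Fintype β] {n : M → ℕ} {cb : β → M} {i : β →₀ ℕ} {W : ℝ}
    (hn : ∀ a, 1 ≤ n a) (hi : wtn n cb i ≤ W) (b : β) : (i b : ℝ) ≤ W * n (cb b) := by
  have h0 : (0 : ℝ) < n (cb b) := by
    exact_mod_cast hn (cb b)
  have h1 : (i b : ℝ) / n (cb b) ≤ wtn n cb i :=
    Finset.single_le_sum (f := fun b => (i b : ℝ) / n (cb b))
      (fun b _ => div_nonneg (Nat.cast_nonneg _) (Nat.cast_nonneg _)) (Finset.mem_univ b)
  have h2 := h1.trans hi
  rwa [div_le_iff₀ h0] at h2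

private theorem log_le_of_abs {z : ℤ} (hz : z ≠ 0) {X : ℝ} (h : |(z : ℝ)| ≤ Real.exp X) :
    Real.log |(z : ℝ)| ≤ X := by
  have h1 : 0 < |(z : ℝ)| := abs_pos.2 (Int.cast_ne_zero.2 hz)
  rw [← Real.log_exp X]
  exact Real.log_le_log h1 h

/-- Number of monomials of bounded degrees. -/
private theorem card_supp_le {U : Type} [Fintype U] {P : MvPolynomial U ℤ} {f : U → ℕ}
    (h : ∀ ν ∈ P.support, ∀ u, ν u ≤ f u) : P.support.card ≤ ∏ u, (f u + 1) := by
  classical
  have h1 : P.support ⊆ (Finset.univ : Finset (∀ u, Fin (f u + 1))).image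
      (fun g => Finsupp.equivFunOnFinite.symm fun u => (g u : ℕ)) := by
    intro ν hν
    refine Finset.mem_image.2 ⟨fun u => ⟨ν u, Nat.lt_succ_of_le (h ν hν u)⟩,
      Finset.mem_univ _, ?_⟩
    ext u
    rfl
  refine (Finset.card_le_card h1).trans (Finset.card_image_le.trans (le_of_eq ?_))
  rw [Finset.card_univ, Fintype.card_pi]
  exact Finset.prod_congr rfl fun u _ => Fintype.card_fin _

/-- Number of pairs. -/
private theorem card_pairs_le {A U : Type} [Fintype A] [DecidableEq A] [Fintype U] {D : ℕ}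
    {P : (A → Fin D) → MvPolynomial U ℤ} {E : ℕ} {nn : U → ℕ} {M0 : ℝ} (h1 : 1 ≤ M0)
    (hn : ∀ u, (nn u : ℝ) ≤ M0) (h : ∀ k, ∀ ν ∈ (P k).support, ∀ u, ν u ≤ E * nn u) :
    (((Finset.univ : Finset (A → Fin D)).sigma fun k => (P k).support).card : ℝ) ≤
      Real.exp ((Fintype.card A * D + E * Fintype.card U) * M0) := by
  rw [Finset.card_sigma]
  push_cast
  have h2 : ∀ k ∈ (Finset.univ : Finset (A → Fin D)), (((P k).support.card : ℕ) : ℝ) ≤
      Real.exp (E * Fintype.card U * M0) := by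
    intro k _
    calc (((P k).support.card : ℕ) : ℝ) ≤ ((∏ u, (E * nn u + 1) : ℕ) : ℝ) := by
          exact_mod_cast card_supp_le (h k)
      _ = ∏ u, ((E : ℝ) * nn u + 1) := by push_cast; rfl
      _ ≤ ∏ _u : U, Real.exp (E * M0) := by
          refine Finset.prod_le_prod (fun u _ => by positivity) fun u _ => ?_
          refine (Real.add_one_le_exp _).trans (Real.exp_le_exp.2 ?_)
          exact mul_le_mul_of_nonneg_left (hn u) (Nat.cast_nonneg _)
      _ = Real.exp (E * Fintype.card U * M0) := by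
          rw [Finset.prod_const, Finset.card_univ, ← Real.exp_nat_mul]
          congr 1
          ring
  refine (Finset.sum_le_sum h2).trans ?_
  rw [Finset.sum_const, Finset.card_univ, Fintype.card_fun, Fintype.card_fin, nsmul_eq_mul]
  push_cast
  have h3 : (D : ℝ) ^ Fintype.card A ≤ Real.exp (Fintype.card A * D * M0) := by
    have h4 : (D : ℝ) ≤ Real.exp D := by
      have := Real.add_one_le_exp (D : ℝ)
      linarith
    calc (D : ℝ) ^ Fintype.card A ≤ Real.exp D ^ Fintype.card A :=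
          pow_le_pow_left₀ (Nat.cast_nonneg _) h4 _
      _ = Real.exp (Fintype.card A * D) := by rw [← Real.exp_nat_mul]
      _ ≤ Real.exp (Fintype.card A * D * M0) := by
          refine Real.exp_le_exp.2 ?_
          have h6 : (0 : ℝ) ≤ (Fintype.card A : ℝ) * D := by positivity
          nlinarith
  calc (D : ℝ) ^ Fintype.card A * Real.exp (E * Fintype.card U * M0)
      ≤ Real.exp (Fintype.card A * D * M0) * Real.exp (E * Fintype.card U * M0) :=
        mul_le_mul_of_nonneg_right h3 (Real.exp_pos _).le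
    _ = _ := by
        rw [← Real.exp_add]
        congr 1
        ring

/-- The growth of `t + ζ`. -/
private theorem grow_lin {β K : Type} [Fintype β] [DecidableEq β] [Field K] [NumberField K]
    {S : Finset (FinitePlace K)} (v : Plc K S) (t : K) (b : β) (q : β → ℝ) (D1 : ℝ)
    (hD1 : 0 ≤ D1) (h : 0 ≤ lam v t + q b) (i : β →₀ ℕ)
    (hi : coeff i (MvPowerSeries.C t + MvPowerSeries.X b : MvPowerSeries β K) ≠ 0) :
    lam v (coeff i (MvPowerSeries.C t + MvPowerSeries.X b : MvPowerSeries β K)) ≤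
      lam v t + ∑ b, (i b : ℝ) * q b + D1 * LAll.wt v := by
  have hw := mul_nonneg hD1 (LAll.wt_nonneg v)
  rw [map_add, coeff_C, coeff_X] at hi ⊢
  by_cases h0 : i = 0
  · subst h0
    have h1 : (0 : β →₀ ℕ) ≠ Finsupp.single b 1 := by
      intro h
      have := DFunLike.congr_fun h b
      simp at this
    rw [if_pos rfl, if_neg h1, add_zero]
    have h2 : ∑ b, (((0 : β →₀ ℕ) b : ℕ) : ℝ) * q b = 0 :=
      Finset.sum_eq_zero fun b _ => by simp
    rw [h2]
    linarith
  · rw [if_neg h0] at hi ⊢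
    by_cases h2 : i = Finsupp.single b 1
    · subst h2
      rw [if_pos rfl, zero_add, lam_one]
      have h3 : ∑ b', ((Finsupp.single b 1 b' : ℕ) : ℝ) * q b' = q b := by
        rw [Finset.sum_eq_single b]
        · simp
        · intro b' _ hb'
          rw [Finsupp.single_eq_of_ne hb']
          simp
        · intro hb
          exact absurd (Finset.mem_univ b) hb
      rw [h3]
      linarith
    · rw [if_neg h2, add_zero] at hi
      exact absurd rfl hi

/-- The factors. -/
private noncomputable def ff {β A K : Type} [Field K] (t : β → K) (F G : A → MvPowerSeries β K) :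
    β ⊕ (A ⊕ A) → MvPowerSeries β K :=
  Sum.elim (fun b => MvPowerSeries.C (t b) + MvPowerSeries.X b) (Sum.elim F G)

private theorem cc_lin {β K : Type} [Field K] (t : K) (b : β) :
    constantCoeff (MvPowerSeries.C t + MvPowerSeries.X b : MvPowerSeries β K) = t := by
  rw [map_add, constantCoeff_C, constantCoeff_X, add_zero]

/-- **Estimate at a place where `t y` is small.** -/
theorem estA_TT {M β A : Type} [Fintype M] [Fintype β] [Fintype A] [DecidableEq M]
    [DecidableEq β] [DecidableEq A] (cb : β → M) (ca : A → M) (y : β) (D C B : ℕ) (hB : 1 ≤ B)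
    (D1 μ C1 W θ : ℝ) (hD1 : 0 ≤ D1) (hC1 : 0 ≤ C1) (hW : 0 ≤ W) (hθ : 0 < θ) :
    ∃ CT : ℝ, 0 ≤ CT ∧ ∀ (δ : ℝ) (K : Type) [Field K] [NumberField K]
      (S : Finset (FinitePlace K)) (L : LvA cb ca y D D1 μ δ K S) (H : MvPowerSeries β K)
      (P : (A → Fin D) → MvPolynomial β ℤ) (v : Plc K S) (i : β →₀ ℕ), 0 < L.T →
      (∀ k, CD cb (P k) (fun a => C * B * L.n a)) →
      (∀ k ν, |(((P k).coeff ν : ℤ) : ℝ)| ≤ Real.exp (C1 * L.M0)) →
      (∀ k, ∀ ν ∈ (P k).support, θ * B * L.n (cb y) ≤ (ν y : ℝ)) →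
      ((∏ s, evT L.t (L.q s) ^ (D * B * L.n (ca s))) * H = ∑ k : A → Fin D,
        evT L.t (P k) * ∏ s, L.F s ^ (k s : ℕ)) →
      v ∈ L.TT → wtn L.n cb i ≤ W → coeff i H ≠ 0 →
      lam v (coeff i H) ≤ -(θ * B * (L.m v * L.T)) +
        ((Fintype.card β : ℝ) * C + 2 * Fintype.card A * D) * B * ∑ a, (L.n a : ℝ) * L.pl v a +
        ∑ b, (i b : ℝ) * L.Q v b + LAll.wt v * (CT * L.M0) := by
  classical
  have hA0 : (0 : ℝ) ≤ (Fintype.card A : ℝ) := Nat.cast_nonneg _
  have hb0 : (0 : ℝ) ≤ (Fintype.card β : ℝ) := Nat.cast_nonneg _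
  have hB' : (1 : ℝ) ≤ B := by exact_mod_cast hB
  refine ⟨C1 + Fintype.card β * W + (D1 + Fintype.card β) * (Fintype.card β * (C * B) +
    Fintype.card A * D + Fintype.card A * (D * B)) +
    (Fintype.card A * D + ((C * B : ℕ) : ℝ) * Fintype.card β), by positivity, ?_⟩
  intro δ K _ _ S L H P v i hT hCD hco hPy heq hv hi hne
  have hM0 : 0 ≤ L.M0 := zero_le_one.trans L.one_le_M0
  have hh0 : ∀ a, 0 ≤ L.h a := fun a => zero_le_one.trans (L.one_le_h a)
  have hdeg : ∀ k, ∀ ν ∈ (P k).support, ∀ u, ν u ≤ (C * B) * L.n (cb u) := by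
    intro k ν hν u
    have h1 := hCD k ν hν (cb u)
    have h2 : ν u ≤ cdeg cb ν (cb u) :=
      Finset.single_le_sum (f := fun u => ν u) (fun _ _ => Nat.zero_le _)
        (Finset.mem_filter.2 ⟨Finset.mem_univ u, rfl⟩)
    exact h2.trans h1
  have hib : ∑ b, (i b : ℝ) ≤ Fintype.card β * (W * L.M0) := by
    calc ∑ b, (i b : ℝ) ≤ ∑ _b : β, W * L.M0 :=
          Finset.sum_le_sum fun b _ => (expo_le L.one_le_n hi b).trans
            (mul_le_mul_of_nonneg_left (L.n_le _) hW)
      _ = Fintype.card β * (W * L.M0) := by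
          rw [Finset.sum_const, Finset.card_univ, nsmul_eq_mul]
  -- the equation for `H`
  have hH : H = ∑ k : A → Fin D, evT L.t (P k) * ((∏ s, L.F s ^ (k s : ℕ)) *
      ∏ s, L.G s ^ (D * B * L.n (ca s))) := by
    have h1 : (∏ s, L.G s ^ (D * B * L.n (ca s))) *
        ∏ s, evT L.t (L.q s) ^ (D * B * L.n (ca s)) = 1 := by
      rw [← Finset.prod_mul_distrib]
      refine Finset.prod_eq_one fun s _ => ?_
      rw [← mul_pow, mul_comm, L.inv, one_pow]
    calc H = (∏ s, L.G s ^ (D * B * L.n (ca s))) *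
          ((∏ s, evT L.t (L.q s) ^ (D * B * L.n (ca s))) * H) := by
          rw [← mul_assoc, h1, one_mul]
      _ = _ := by
          rw [heq, Finset.mul_sum]
          refine Finset.sum_congr rfl fun k _ => ?_
          ring
  -- the coefficient
  have hcoe : coeff i H = ∑ x ∈ (Finset.univ : Finset (A → Fin D)).sigma
      (fun k => (P k).support), (((P x.1).coeff x.2 : ℤ) : K) * coeff i
        (∏ j, ff L.t L.F L.G j ^ (Sum.elim x.2
          (Sum.elim (fun s => (x.1 s : ℕ)) fun s => D * B * L.n (ca s)) j)) := by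
    rw [Finset.sum_sigma]
    conv_lhs => rw [hH]
    rw [map_sum]
    refine Finset.sum_congr rfl fun k _ => ?_
    change coeff i (MvPolynomial.aeval (R := ℤ) (fun b =>
      (MvPowerSeries.C (L.t b) + MvPowerSeries.X b : MvPowerSeries β K)) (P k) * _) = _
    rw [MvPolynomial.aeval_def, MvPolynomial.eval₂_eq', Finset.sum_mul, map_sum]
    refine Finset.sum_congr rfl fun ν _ => ?_
    rw [mul_assoc]
    have h1 : (∏ b, (MvPowerSeries.C (L.t b) + MvPowerSeries.X b : MvPowerSeries β K) ^ ν b) *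
        ((∏ s, L.F s ^ (k s : ℕ)) * ∏ s, L.G s ^ (D * B * L.n (ca s))) =
        ∏ j, ff L.t L.F L.G j ^ (Sum.elim ν
          (Sum.elim (fun s => (k s : ℕ)) fun s => D * B * L.n (ca s)) j) := by
      rw [Fintype.prod_sum_type, Fintype.prod_sum_type]
      rfl
    rw [h1]
    have h2 : (algebraMap ℤ (MvPowerSeries β K)) ((P k).coeff ν) =
        (((P k).coeff ν : ℤ) : MvPowerSeries β K) := eq_intCast _ _
    rw [h2]
    exact coeff_int_mul _ _ _
  have hne' := hne
  rw [hcoe] at hne' ⊢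
  have hgrow : ∀ j i, coeff i (ff L.t L.F L.G j) ≠ 0 → lam v (coeff i (ff L.t L.F L.G j)) ≤
      lam v (constantCoeff (ff L.t L.F L.G j)) + ∑ b, (i b : ℝ) * L.Q v b +
        D1 * LAll.wt v := by
    rintro (b | s | s) i h
    · have h1 := grow_lin v (L.t b) b (L.Q v) D1 hD1 (L.growt b v) i h
      have h2 : constantCoeff (ff L.t L.F L.G (Sum.inl b)) = L.t b := cc_lin _ _
      rw [h2]
      exact h1
    · exact L.growF s v i h
    · exact L.growG s v i h
  have hpl0 : ∀ a, 0 ≤ L.pl v a := L.pl_nonneg v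
  obtain ⟨Ss, hSs⟩ : ∃ Ss : ℝ, Ss = ∑ a, (L.n a : ℝ) * L.pl v a := ⟨_, rfl⟩
  have hle : ∀ a, (L.n a : ℝ) * L.pl v a ≤ Ss := by
    intro a
    rw [hSs]
    exact Finset.single_le_sum (f := fun a => (L.n a : ℝ) * L.pl v a)
      (fun a _ => mul_nonneg (Nat.cast_nonneg _) (hpl0 a)) (Finset.mem_univ a)
  have hSs0 : 0 ≤ Ss := by
    rw [hSs]
    exact Finset.sum_nonneg fun a _ => mul_nonneg (Nat.cast_nonneg _) (hpl0 a)
  have hterm : ∀ x ∈ (Finset.univ : Finset (A → Fin D)).sigma (fun k => (P k).support),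
      (((P x.1).coeff x.2 : ℤ) : K) * coeff i
        (∏ j, ff L.t L.F L.G j ^ (Sum.elim x.2
          (Sum.elim (fun s => (x.1 s : ℕ)) fun s => D * B * L.n (ca s)) j)) ≠ 0 →
      lam v ((((P x.1).coeff x.2 : ℤ) : K) * coeff i
        (∏ j, ff L.t L.F L.G j ^ (Sum.elim x.2
          (Sum.elim (fun s => (x.1 s : ℕ)) fun s => D * B * L.n (ca s)) j))) ≤
        -(θ * B * (L.m v * L.T)) +
          ((Fintype.card β : ℝ) * C + 2 * Fintype.card A * D) * B * Ss +
          ∑ b, (i b : ℝ) * L.Q v b + LAll.wt v * ((C1 + Fintype.card β * W +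
            (D1 + Fintype.card β) * (Fintype.card β * (C * B) +
            Fintype.card A * D + Fintype.card A * (D * B))) * L.M0) := by
    rintro ⟨k, ν⟩ hx hx0
    have hν : ν ∈ (P k).support := (Finset.mem_sigma.1 hx).2
    obtain ⟨hx1, hx2⟩ := mul_ne_zero_iff.1 hx0
    have hc0 : (P k).coeff ν ≠ 0 := MvPolynomial.mem_support_iff.1 hν
    rw [lam_mul v hx1 hx2]
    have h1 : lam v ((((P k).coeff ν : ℤ)) : K) ≤ LAll.wt v * (C1 * L.M0) :=
      (lam_int_le v _ hc0).trans
        (mul_le_mul_of_nonneg_left (log_le_of_abs hc0 (hco k ν)) (LAll.wt_nonneg v))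
    have h2 := lam_coeff_prod v (ff L.t L.F L.G)
      (fun j => lam v (constantCoeff (ff L.t L.F L.G j))) D1 hD1 (L.Q v) (L.Q_nonneg v) hgrow
      (Sum.elim ν (Sum.elim (fun s => (k s : ℕ)) fun s => D * B * L.n (ca s))) i hx2
    rw [Fintype.sum_sum_type, Fintype.sum_sum_type, Fintype.sum_sum_type,
      Fintype.sum_sum_type] at h2
    simp only [Sum.elim_inl, Sum.elim_inr] at h2
    have hνr : ∀ b, (ν b : ℝ) ≤ C * B * L.n (cb b) := by
      intro b
      exact_mod_cast hdeg k ν hν b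
    -- the variables
    have h3 : ∑ b, (ν b : ℝ) * lam v (constantCoeff (ff L.t L.F L.G (Sum.inl b))) ≤
        -(θ * B * (L.m v * L.T)) + Fintype.card β * (C * B * Ss) := by
      have h31 : ∀ b, (ν b : ℝ) * lam v (constantCoeff (ff L.t L.F L.G (Sum.inl b))) ≤
          (if b = y then -(θ * B * (L.m v * L.T)) else 0) + C * B * Ss := by
        intro b
        have h2 : constantCoeff (ff L.t L.F L.G (Sum.inl b)) = L.t b := cc_lin _ _
        rw [h2]
        have h4 : (0 : ℝ) ≤ C * B * Ss := by positivity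
        by_cases hb : b = y
        · subst hb
          rw [if_pos rfl]
          have h5 : (ν b : ℝ) * lam v (L.t b) ≤ -((ν b : ℝ) * (L.h (cb b) * L.m v)) := by
            have := mul_le_mul_of_nonneg_left (L.lamy v hv) (Nat.cast_nonneg (α := ℝ) (ν b))
            linarith
          have h6 : θ * B * (L.m v * L.T) ≤ (ν b : ℝ) * (L.h (cb b) * L.m v) := by
            have h7 := hPy k ν hν
            have h8 : 0 ≤ L.h (cb b) * L.m v := mul_nonneg (hh0 _) (L.m_nonneg v)
            have h9 := mul_le_mul_of_nonneg_right h7 h8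
            refine le_trans ?_ h9
            have h10 : θ * B * (L.m v * L.T) = (θ * B * L.m v) * L.T := by ring
            have h11 : θ * B * L.n (cb b) * (L.h (cb b) * L.m v) =
                (θ * B * L.m v) * (L.n (cb b) * L.h (cb b)) := by ring
            rw [h10, h11]
            refine mul_le_mul_of_nonneg_left (L.T_le _) ?_
            exact mul_nonneg (mul_nonneg hθ.le (Nat.cast_nonneg _)) (L.m_nonneg v)
          linarith
        · rw [if_neg hb, zero_add]
          calc (ν b : ℝ) * lam v (L.t b) ≤ (ν b : ℝ) * L.pl v (cb b) :=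
                mul_le_mul_of_nonneg_left (L.lamt b hb v hv) (Nat.cast_nonneg _)
            _ ≤ C * B * L.n (cb b) * L.pl v (cb b) :=
                mul_le_mul_of_nonneg_right (hνr b) (hpl0 _)
            _ = C * B * (L.n (cb b) * L.pl v (cb b)) := by ring
            _ ≤ C * B * Ss := mul_le_mul_of_nonneg_left (hle _) (by positivity)
      refine (Finset.sum_le_sum fun b _ => h31 b).trans (le_of_eq ?_)
      rw [Finset.sum_add_distrib, Finset.sum_ite_eq' Finset.univ y, if_pos (Finset.mem_univ y),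
        Finset.sum_const, Finset.card_univ, nsmul_eq_mul]
    -- the generators
    have hpS : ∀ a, L.pl v a ≤ B * Ss := by
      intro a
      have hn1 : (1 : ℝ) ≤ L.n a := by exact_mod_cast L.one_le_n a
      have h4 : L.pl v a ≤ L.n a * L.pl v a := le_mul_of_one_le_left (hpl0 a) hn1
      exact (h4.trans (hle a)).trans (le_mul_of_one_le_left hSs0 hB')
    have h5 : ∑ s, ((k s : ℕ) : ℝ) * lam v (constantCoeff (ff L.t L.F L.G
        (Sum.inr (Sum.inl s)))) ≤ Fintype.card A * (D * (B * Ss)) := by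
      calc ∑ s, ((k s : ℕ) : ℝ) * lam v (constantCoeff (ff L.t L.F L.G (Sum.inr (Sum.inl s))))
          ≤ ∑ _s : A, (D * (B * Ss) : ℝ) := by
            refine Finset.sum_le_sum fun s _ => ?_
            have h6 : ((k s : ℕ) : ℝ) ≤ D := by exact_mod_cast (k s).2.le
            calc ((k s : ℕ) : ℝ) * lam v (constantCoeff (L.F s))
                ≤ ((k s : ℕ) : ℝ) * L.pl v (ca s) :=
                  mul_le_mul_of_nonneg_left (L.lamF s v hv) (Nat.cast_nonneg _)
              _ ≤ D * L.pl v (ca s) := mul_le_mul_of_nonneg_right h6 (hpl0 _)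
              _ ≤ D * (B * Ss) := mul_le_mul_of_nonneg_left (hpS _) (Nat.cast_nonneg _)
        _ = _ := by rw [Finset.sum_const, Finset.card_univ, nsmul_eq_mul]
    have h7 : ∑ s, ((D * B * L.n (ca s) : ℕ) : ℝ) * lam v (constantCoeff (ff L.t L.F L.G
        (Sum.inr (Sum.inr s)))) ≤ Fintype.card A * (D * (B * Ss)) := by
      calc ∑ s, ((D * B * L.n (ca s) : ℕ) : ℝ) * lam v (constantCoeff (ff L.t L.F L.G
            (Sum.inr (Sum.inr s))))
          ≤ ∑ _s : A, (D * (B * Ss) : ℝ) := by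
            refine Finset.sum_le_sum fun s _ => ?_
            calc ((D * B * L.n (ca s) : ℕ) : ℝ) * lam v (constantCoeff (L.G s))
                ≤ ((D * B * L.n (ca s) : ℕ) : ℝ) * L.pl v (ca s) :=
                  mul_le_mul_of_nonneg_left (L.lamG s v hv) (Nat.cast_nonneg _)
              _ = D * (B * (L.n (ca s) * L.pl v (ca s))) := by
                  push_cast
                  ring
              _ ≤ D * (B * Ss) := mul_le_mul_of_nonneg_left
                  (mul_le_mul_of_nonneg_left (hle _) (Nat.cast_nonneg _)) (Nat.cast_nonneg _)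
        _ = _ := by rw [Finset.sum_const, Finset.card_univ, nsmul_eq_mul]
    have h15 : ∑ b, (ν b : ℝ) + (∑ s, ((k s : ℕ) : ℝ) + ∑ s, ((D * B * L.n (ca s) : ℕ) : ℝ)) ≤
        (Fintype.card β * (C * B) + Fintype.card A * D + Fintype.card A * (D * B)) * L.M0 := by
      have h16 : ∑ s, ((k s : ℕ) : ℝ) ≤ Fintype.card A * D := by
        calc ∑ s, ((k s : ℕ) : ℝ) ≤ ∑ _s : A, (D : ℝ) :=
              Finset.sum_le_sum fun s _ => by exact_mod_cast (k s).2.le
          _ = Fintype.card A * D := by rw [Finset.sum_const, Finset.card_univ, nsmul_eq_mul]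
      have h18 : ∑ b, (ν b : ℝ) ≤ Fintype.card β * (C * B * L.M0) := by
        calc ∑ b, (ν b : ℝ) ≤ ∑ _b : β, (C * B * L.M0 : ℝ) :=
              Finset.sum_le_sum fun b _ => (hνr b).trans
                (mul_le_mul_of_nonneg_left (L.n_le _) (by positivity))
          _ = _ := by rw [Finset.sum_const, Finset.card_univ, nsmul_eq_mul]
      have h19 : ∑ s, ((D * B * L.n (ca s) : ℕ) : ℝ) ≤ Fintype.card A * (D * B * L.M0) := by
        calc ∑ s, ((D * B * L.n (ca s) : ℕ) : ℝ) ≤ ∑ _s : A, (D * B * L.M0 : ℝ) := by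
              refine Finset.sum_le_sum fun s _ => ?_
              push_cast
              exact mul_le_mul_of_nonneg_left (L.n_le _) (by positivity)
          _ = _ := by rw [Finset.sum_const, Finset.card_univ, nsmul_eq_mul]
      have h20 : (Fintype.card A * D : ℝ) ≤ Fintype.card A * D * L.M0 := by
        have h6 : (0 : ℝ) ≤ (Fintype.card A : ℝ) * D := by positivity
        nlinarith [L.one_le_M0]
      linarith
    have h21 : LAll.wt v * (∑ b, (i b : ℝ) + (D1 + Fintype.card β) *
        (∑ b, (ν b : ℝ) + (∑ s, ((k s : ℕ) : ℝ) + ∑ s, ((D * B * L.n (ca s) : ℕ) : ℝ)))) ≤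
        LAll.wt v * (Fintype.card β * (W * L.M0) + (D1 + Fintype.card β) *
          ((Fintype.card β * (C * B) + Fintype.card A * D + Fintype.card A * (D * B)) *
            L.M0)) := by
      refine mul_le_mul_of_nonneg_left (add_le_add hib ?_) (LAll.wt_nonneg v)
      exact mul_le_mul_of_nonneg_left h15 (by positivity)
    have h22 := h2.trans (add_le_add (add_le_add (add_le_add h3 (add_le_add h5 h7)) le_rfl) h21)
    refine (add_le_add h1 h22).trans (le_of_eq ?_)
    ring
  have hfin := lam_sum_le v _ _ _ _ (card_pairs_le (P := P) (E := C * B)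
    (nn := fun u => L.n (cb u)) L.one_le_M0 (fun u => L.n_le _) hdeg) hterm hne'
  rw [Real.log_exp] at hfin
  refine hfin.trans (le_of_eq ?_)
  rw [hSs]
  ring

end Pool.Agent.Zilber.CA
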