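import Pool.Agent.Zilber.ANfA
import Pool.Agent.Zilber.AAux
import Pool.Agent.Zilber.AEstA
import Pool.Agent.Zilber.AEstT
import Pool.Agent.LSharp.COInt

set_option autoImplicit false

/-! Case A, the auxiliary functions at one level: assembly. -/

namespace Pool.Agent.Zilber.CA

open NumberField Pool.Agent.LAll Pool.Agent.LSharp MvPowerSeries

/-- The number of unknowns. -/
theorem card_XA_le {M β : Type} [Fintype β] [DecidableEq β] (cb : β → M) (B : ℕ) (n : M → ℕ)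
    (M0 : ℝ) (hM : 1 ≤ M0) (hn : ∀ a, (n a : ℝ) ≤ M0) :
    (Fintype.card (XA β B n cb) : ℝ) ≤
      Real.exp ((Fintype.card β * B + Fintype.card β) * M0) := by
  have h1 : (Fintype.card (XA β B n cb) : ℝ) =
      (B : ℝ) ^ Fintype.card β * ∏ b, (n (cb b) : ℝ) := by
    simp [XA, Fintype.card_prod, Fintype.card_pi]
  rw [h1, add_mul, Real.exp_add]
  refine mul_le_mul ?_ ?_ (Finset.prod_nonneg fun b _ => Nat.cast_nonneg _) (Real.exp_pos _).le
  · have hB : (B : ℝ) ≤ Real.exp B := by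
      have := Real.add_one_le_exp (B : ℝ)
      linarith
    calc (B : ℝ) ^ Fintype.card β ≤ Real.exp B ^ Fintype.card β :=
          pow_le_pow_left₀ (Nat.cast_nonneg _) hB _
      _ = Real.exp (Fintype.card β * B) := by
        rw [← Real.exp_nat_mul]
      _ ≤ Real.exp (Fintype.card β * B * M0) := by
        apply Real.exp_le_exp.2
        have h0 : (0 : ℝ) ≤ (Fintype.card β : ℝ) * B := by positivity
        nlinarith
  · calc ∏ b, (n (cb b) : ℝ) ≤ ∏ _b : β, Real.exp M0 := by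
          refine Finset.prod_le_prod (fun b _ => Nat.cast_nonneg _) fun b _ => ?_
          refine (hn (cb b)).trans ?_
          have := Real.add_one_le_exp M0
          linarith
      _ = Real.exp (Fintype.card β * M0) := by
        rw [Finset.prod_const, Finset.card_univ, ← Real.exp_nat_mul]

/-- **The auxiliary functions, case A.** `δ` and `η` depend on the degrees only, not on `B` and not
on the constant `D1` of the sizes. -/
theorem coreA {M β A : Type} [Fintype M] [Fintype β] [Fintype A] [DecidableEq M] [DecidableEq β]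
    [DecidableEq A] (cb : β → M) (ca : A → M) (y : β) (D : ℕ) (hD : 0 < D) (μ : ℝ) (hμ : 0 < μ) :
    ∃ δ η : ℝ, 0 < δ ∧ 0 < η ∧ ∃ B0 : ℕ, ∀ B : ℕ, B0 ≤ B → ∀ D1 : ℝ, 0 ≤ D1 →
      ∃ δ2 CB : ℝ, 0 < δ2 ∧ 0 ≤ CB ∧
      ∀ (K : Type) [Field K] [NumberField K] (S : Finset (FinitePlace K))
      (L : LvA cb ca y D D1 μ δ K S) (al : XA β B L.n cb → A → ℕ) (bet : Plc K S → ℝ),
      L.M0 ≤ δ2 * L.T →
      (∀ x a, ∑ s with ca s = a, al x s ≤ D * B * L.n a) → (∀ v, 0 ≤ bet v) →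
      ∑ v, bet v ≤ δ * B * L.T →
      (∀ x v, lam v (∏ s, constantCoeff (L.F s) ^ al x s) ≤ bet v) →
      ∃ c : XA β B L.n cb → ℤ, c ≠ 0 ∧ (∀ x, |(c x : ℝ)| ≤ Real.exp (CB * L.M0)) ∧
        ∀ i, coeff i (L.aux al c) ≠ 0 → η * B < wtn L.n cb i := by
  -- the constants which depend on the degrees only
  obtain ⟨C, hC⟩ : ∃ C : ℕ, C = Fintype.card A * D * D := ⟨_, rfl⟩
  obtain ⟨θ, hθ⟩ : ∃ θ : ℝ, θ = 1 / (4 * (D : ℝ) ^ Fintype.card A *
      ((C : ℝ) + 1) ^ Fintype.card β) := ⟨_, rfl⟩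
  have hDA : (0 : ℝ) < 4 * (D : ℝ) ^ Fintype.card A * ((C : ℝ) + 1) ^ Fintype.card β := by
    have hD' : (0 : ℝ) < D := by exact_mod_cast hD
    positivity
  have hθ0 : 0 < θ := by
    rw [hθ]
    exact one_div_pos.2 hDA
  have hθ1 : 4 * (D : ℝ) ^ Fintype.card A * θ * ((C : ℝ) + 1) ^ Fintype.card β ≤ 1 := by
    rw [hθ]
    refine le_of_eq ?_
    field_simp
  obtain ⟨C5, hC5⟩ : ∃ C5 : ℝ, C5 = ((Fintype.card β : ℝ) * C + 2 * Fintype.card A * D) *
      (Fintype.card M * 2) := ⟨_, rfl⟩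
  have hC50 : 0 ≤ C5 := by
    rw [hC5]
    positivity
  obtain ⟨δ, hδ⟩ : ∃ δ : ℝ, δ = θ * μ / (8 * (1 + C5)) := ⟨_, rfl⟩
  have hδ0 : 0 < δ := by
    rw [hδ]
    positivity
  obtain ⟨η, hη⟩ : ∃ η : ℝ, η = θ * μ / (16 * (D + 1)) := ⟨_, rfl⟩
  have hη0 : 0 < η := by
    rw [hη]
    positivity
  obtain ⟨B0, hB0⟩ : ∃ B0 : ℕ, 1 ≤ θ * B0 := by
    obtain ⟨k, hk⟩ := exists_nat_ge (1 / θ)
    refine ⟨k, ?_⟩
    rw [div_le_iff₀ hθ0] at hk
    linarith
  refine ⟨δ, η, hδ0, hη0, B0, fun B hB D1 hD1 => ?_⟩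
  have hθB : 1 ≤ θ * B := by
    have h1 : (B0 : ℝ) ≤ B := by exact_mod_cast hB
    have h2 := mul_le_mul_of_nonneg_left h1 hθ0.le
    linarith
  have hB1 : 1 ≤ B := by
    by_contra h
    have h0 : B = 0 := by omega
    rw [h0] at hθB
    norm_num at hθB
  have hBpos : (0 : ℝ) < B := by exact_mod_cast hB1
  obtain ⟨C1, hC1⟩ : ∃ C1 : ℝ, C1 = (D1 + 1) * Fintype.card A * (D * B) := ⟨_, rfl⟩
  have hC10 : 0 ≤ C1 := by
    rw [hC1]
    positivity
  obtain ⟨CB, hCB⟩ : ∃ CB : ℝ, CB = Fintype.card β * B + Fintype.card β + C1 := ⟨_, rfl⟩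
  have hCB0 : 0 ≤ CB := by
    rw [hCB]
    positivity
  have hW0 : 0 ≤ η * B := by positivity
  obtain ⟨CA, hCA0, hA⟩ := estA_all (M := M) (A := A) cb ca y D B D1 μ CB (η * B) hD1 hCB0 hW0
  obtain ⟨C2, hC2⟩ : ∃ C2 : ℝ, C2 = Fintype.card β * B + Fintype.card β + CB + C1 := ⟨_, rfl⟩
  have hC20 : 0 ≤ C2 := by
    rw [hC2]
    positivity
  obtain ⟨CT, hCT0, hTT⟩ := estA_TT cb ca y D C B hB1 D1 μ C2 (η * B) θ hD1 hC20 hW0 hθ0
  obtain ⟨δ2, hδ2⟩ : ∃ δ2 : ℝ, δ2 = θ * μ * B / (8 * (CA + CT + 1)) := ⟨_, rfl⟩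
  have hδ20 : 0 < δ2 := by
    rw [hδ2]
    positivity
  refine ⟨δ2, CB, hδ20, hCB0, ?_⟩
  intro K _ _ S L al bet hM hal hbet0 hbet hlam
  have hT0 : 0 < L.T := by
    have h1 := L.one_le_M0
    by_contra h2
    have h3 : δ2 * L.T ≤ 0 := mul_nonpos_of_nonneg_of_nonpos hδ20.le (not_lt.1 h2)
    linarith
  have hal' : ∀ x s, al x s ≤ D * B * L.n (ca s) := fun x s => by
    refine le_trans ?_ (hal x (ca s))
    exact Finset.single_le_sum (f := fun s => al x s) (fun _ _ => Nat.zero_le _)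
      (Finset.mem_filter.2 ⟨Finset.mem_univ s, rfl⟩)
  obtain ⟨P, hP⟩ := nfA_all cb ca (evT L.t) L.F D hD (fun a => D1 * L.κ a)
    (fun a => mul_nonneg hD1 (zero_le_one.trans (L.one_le_κ a))) L.q L.q_CD L.q_L1 L.p L.p_CD
    L.p_L1 L.eqn (fun a => D * B * L.n a)
  have hE : ∑ s, (D1 * L.κ (ca s) + 1) * ((D * B * L.n (ca s) : ℕ) : ℝ) ≤ C1 * L.M0 := by
    calc ∑ s, (D1 * L.κ (ca s) + 1) * ((D * B * L.n (ca s) : ℕ) : ℝ)
        ≤ ∑ _s : A, (D1 + 1) * (D * B) * L.M0 := by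
          refine Finset.sum_le_sum fun s _ => ?_
          have h1 := L.nκ_le (ca s)
          have h2 := L.n_le (ca s)
          have h3 : (0 : ℝ) ≤ D * B := by positivity
          push_cast
          have h4 := mul_le_mul_of_nonneg_left h1 (mul_nonneg hD1 h3)
          have h5 := mul_le_mul_of_nonneg_left h2 h3
          nlinarith
      _ = C1 * L.M0 := by
          rw [Finset.sum_const, Finset.card_univ, nsmul_eq_mul, hC1]
          ring
  have hPCD : ∀ x k, CD cb (P (al x) k) (fun a => C * B * L.n a) := fun x k =>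
    ((hP (al x) (hal' x)).1 k).mono fun a => by
      rw [hC]
      exact le_of_eq (by ring)
  have hPL : ∀ x k ν, |(((P (al x) k).coeff ν : ℤ) : ℝ)| ≤ Real.exp (C1 * L.M0) := fun x k ν =>
    (abs_coeff_le_L1 _ _).trans (((hP (al x) (hal' x)).2.1 k).trans (Real.exp_le_exp.2 hE))
  obtain ⟨c, hc0, hc1, hc2⟩ := auxA cb y D C B θ hθ0 hθ1 hθB hB1 L.n L.M0 C1
    L.one_le_n L.one_le_M0 L.n_le hC10 (fun x k ν => (P (al x) k).coeff ν)
    (fun x k ν h => hPCD x k ν (MvPolynomial.mem_support_iff.2 h)) hPL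
  have hc1' : ∀ x, |(c x : ℝ)| ≤ Real.exp (CB * L.M0) := fun x => by
    rw [hCB]
    exact hc1 x
  refine ⟨c, hc0, hc1', fun i hne => ?_⟩
  by_contra hw
  rw [not_lt] at hw
  -- the polynomials of the combination
  obtain ⟨Pk, hPk⟩ : ∃ Pk : (A → Fin D) → MvPolynomial β ℤ,
      ∀ k, Pk k = ∑ x, MvPolynomial.C (c x) * P (al x) k := ⟨_, fun k => rfl⟩
  have hcoef : ∀ k ν, (Pk k).coeff ν = ∑ x, c x * (P (al x) k).coeff ν := by
    intro k ν
    rw [hPk, MvPolynomial.coeff_sum]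
    exact Finset.sum_congr rfl fun x _ => MvPolynomial.coeff_C_mul _ _ _
  have hPkCD : ∀ k, CD cb (Pk k) (fun a => C * B * L.n a) := by
    intro k ν hν a
    rw [MvPolynomial.mem_support_iff, hcoef] at hν
    obtain ⟨x, -, hx⟩ := Finset.exists_ne_zero_of_sum_ne_zero hν
    exact hPCD x k ν (MvPolynomial.mem_support_iff.2 (right_ne_zero_of_mul hx)) a
  have hPk1 : ∀ k ν, |(((Pk k).coeff ν : ℤ) : ℝ)| ≤ Real.exp (C2 * L.M0) := by
    intro k ν
    rw [hcoef]
    push_cast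
    calc |∑ x, (c x : ℝ) * (((P (al x) k).coeff ν : ℤ) : ℝ)|
        ≤ ∑ x, |(c x : ℝ) * (((P (al x) k).coeff ν : ℤ) : ℝ)| := Finset.abs_sum_le_sum_abs _ _
      _ ≤ ∑ _x : XA β B L.n cb, Real.exp (CB * L.M0) * Real.exp (C1 * L.M0) := by
          refine Finset.sum_le_sum fun x _ => ?_
          rw [abs_mul]
          exact mul_le_mul (hc1' x) (hPL x k ν) (abs_nonneg _) (Real.exp_pos _).le
      _ = Fintype.card (XA β B L.n cb) *
          (Real.exp (CB * L.M0) * Real.exp (C1 * L.M0)) := by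
          rw [Finset.sum_const, Finset.card_univ, nsmul_eq_mul]
      _ ≤ Real.exp ((Fintype.card β * B + Fintype.card β) * L.M0) *
          (Real.exp (CB * L.M0) * Real.exp (C1 * L.M0)) :=
          mul_le_mul_of_nonneg_right (card_XA_le cb B L.n L.M0 L.one_le_M0 L.n_le) (by positivity)
      _ = Real.exp (C2 * L.M0) := by
          rw [← Real.exp_add, ← Real.exp_add, hC2]
          ring_nf
  have hPkθ : ∀ k, ∀ ν ∈ (Pk k).support, θ * B * L.n (cb y) ≤ (ν y : ℝ) := by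
    intro k ν hν
    by_contra hlt
    rw [MvPolynomial.mem_support_iff, hcoef] at hν
    exact hν (hc2 k ν (not_le.1 hlt))
  have hG : (∏ s, evT L.t (L.q s) ^ (D * B * L.n (ca s))) * L.aux al c = ∑ k : A → Fin D,
      evT L.t (Pk k) * ∏ s, L.F s ^ (k s : ℕ) := by
    have h1 : (∏ s, evT L.t (L.q s) ^ (D * B * L.n (ca s))) * L.aux al c =
        ∑ x, (c x : MvPowerSeries β K) * ∑ k : A → Fin D,
          evT L.t (P (al x) k) * ∏ s, L.F s ^ (k s : ℕ) := by
      rw [LvA.aux, Finset.mul_sum]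
      refine Finset.sum_congr rfl fun x _ => ?_
      rw [← (hP (al x) (hal' x)).2.2]
      ring
    rw [h1]
    simp only [Finset.mul_sum]
    rw [Finset.sum_comm]
    refine Finset.sum_congr rfl fun k _ => ?_
    rw [hPk, map_sum, Finset.sum_mul]
    refine Finset.sum_congr rfl fun x _ => ?_
    rw [map_mul]
    have h2 : evT L.t (MvPolynomial.C (c x)) = (c x : MvPowerSeries β K) := by
      have h3 : (MvPolynomial.C (c x) : MvPolynomial β ℤ) = ((c x : ℤ) : MvPolynomial β ℤ) := by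
        simp
      rw [h3, map_intCast]
    rw [h2]
    ring
  -- the coefficient is integral outside `S`
  have hint : IntOff S (coeff i (L.aux al c)) := by
    rw [LvA.aux, map_sum]
    refine IntOff.sum _ _ fun x _ => ?_
    have h1 : coeff i ((c x : MvPowerSeries β K) * ∏ s, L.F s ^ al x s) =
        (c x : K) * coeff i (∏ s, L.F s ^ al x s) := by
      rw [← MvPowerSeries.coeff_C_mul, map_intCast]
    rw [h1]
    exact (intOff_int _).mul (intOff_coeff_prod _ L.intOff _ _)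
  have hsum := sum_lam_nonneg hne hint
  -- the sum of the estimates
  obtain ⟨q, hq⟩ : ∃ q : Plc K S → ℝ, ∀ v, q v = ∑ b, (i b : ℝ) * L.Q v b := ⟨_, fun v => rfl⟩
  have hqs : ∑ v, q v ≤ η * B * (2 * D * L.T) := by
    calc ∑ v, q v = ∑ b, (i b : ℝ) * ∑ v, L.Q v b := by
          simp only [hq, Finset.mul_sum]
          rw [Finset.sum_comm]
      _ ≤ ∑ b, (i b : ℝ) / L.n (cb b) * (2 * D * L.T) := by
          refine Finset.sum_le_sum fun b _ => ?_
          have hn : (0 : ℝ) < L.n (cb b) := by exact_mod_cast L.one_le_n (cb b)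
          have h1 := mul_le_mul_of_nonneg_left (L.sum_Q b) (Nat.cast_nonneg (α := ℝ) (i b))
          refine h1.trans ?_
          have h2 := mul_le_mul_of_nonneg_left (L.le_T (cb b))
            (show (0 : ℝ) ≤ (i b : ℝ) / L.n (cb b) * D by positivity)
          have h3 : (i b : ℝ) / L.n (cb b) * D * (L.n (cb b) * L.h (cb b)) =
              (i b : ℝ) * (D * L.h (cb b)) := by
            field_simp
          rw [h3] at h2
          refine h2.trans (le_of_eq ?_)
          ring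
      _ = wtn L.n cb i * (2 * D * L.T) := by rw [← Finset.sum_mul]; rfl
      _ ≤ η * B * (2 * D * L.T) := mul_le_mul_of_nonneg_right hw (by positivity)
  obtain ⟨g, hg⟩ : ∃ g : Plc K S → ℝ, ∀ v, g v = lam v (coeff i (L.aux al c)) := ⟨_, fun v => rfl⟩
  simp only [← hg] at hsum
  have hgA : ∀ v, g v ≤ bet v + q v + LAll.wt v * (CA * L.M0) := fun v => by
    rw [hg, hq]
    exact hA _ K S L al c v (bet v) i hal' hc1' (fun x => hlam x v) hw hne
  obtain ⟨pp, hpp⟩ : ∃ pp : ℝ, pp = (Fintype.card β : ℝ) * C + 2 * Fintype.card A * D :=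
    ⟨_, rfl⟩
  have hpp0 : 0 ≤ pp := by
    rw [hpp]
    positivity
  have hgT : ∀ v ∈ L.TT, g v ≤ -(θ * B * (L.m v * L.T)) +
      pp * B * ∑ a, (L.n a : ℝ) * L.pl v a + q v + LAll.wt v * (CT * L.M0) := fun v hv => by
    rw [hg, hq, hpp]
    exact hTT _ K S L (L.aux al c) Pk v i hT0 hPkCD hPk1 hPkθ hG hv hw hne
  have hM0 : 0 ≤ L.M0 := zero_le_one.trans L.one_le_M0
  have hsplit : ∑ v, g v ≤ ∑ v, (bet v + q v + LAll.wt v * ((CA + CT) * L.M0)) +
      ∑ v ∈ L.TT, (-(θ * B * (L.m v * L.T)) + pp * B * ∑ a, (L.n a : ℝ) * L.pl v a) := by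
    classical
    rw [← Finset.sum_add_sum_compl L.TT g, ← Finset.sum_add_sum_compl L.TT
      (fun v => bet v + q v + LAll.wt v * ((CA + CT) * L.M0))]
    have h1 : ∑ v ∈ L.TT, g v ≤ ∑ v ∈ L.TT, (bet v + q v + LAll.wt v * ((CA + CT) * L.M0)) +
        ∑ v ∈ L.TT, (-(θ * B * (L.m v * L.T)) + pp * B * ∑ a, (L.n a : ℝ) * L.pl v a) := by
      rw [← Finset.sum_add_distrib]
      refine Finset.sum_le_sum fun v hv => (hgT v hv).trans ?_
      have h2 := hbet0 v
      have h3 : 0 ≤ LAll.wt v * (CA * L.M0) := mul_nonneg (wt_nonneg v) (by positivity)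
      nlinarith
    have h2 : ∑ v ∈ L.TTᶜ, g v ≤ ∑ v ∈ L.TTᶜ, (bet v + q v + LAll.wt v * ((CA + CT) * L.M0)) := by
      refine Finset.sum_le_sum fun v _ => (hgA v).trans ?_
      have h3 : 0 ≤ LAll.wt v * (CT * L.M0) := mul_nonneg (wt_nonneg v) (by positivity)
      nlinarith
    linarith
  have hs1 : ∑ v, (bet v + q v + LAll.wt v * ((CA + CT) * L.M0)) ≤
      δ * B * L.T + η * B * (2 * D * L.T) + (CA + CT) * L.M0 := by
    rw [Finset.sum_add_distrib, Finset.sum_add_distrib, ← Finset.sum_mul, sum_wt, one_mul]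
    linarith
  have hs2 : ∑ v ∈ L.TT, (-(θ * B * (L.m v * L.T)) + pp * B * ∑ a, (L.n a : ℝ) * L.pl v a) ≤
      -(θ * B * μ * L.T) + C5 * δ * B * L.T := by
    have h3 : ∑ v ∈ L.TT, (-(θ * B * (L.m v * L.T)) + pp * B * ∑ a, (L.n a : ℝ) * L.pl v a) =
        -(θ * B * L.T * ∑ v ∈ L.TT, L.m v) +
          pp * B * ∑ a, (L.n a : ℝ) * ∑ v ∈ L.TT, L.pl v a := by
      rw [Finset.sum_add_distrib, Finset.mul_sum, ← Finset.sum_neg_distrib, ← Finset.mul_sum,
        Finset.sum_comm]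
      congr 1
      · refine Finset.sum_congr rfl fun v _ => ?_
        ring
      · congr 1
        refine Finset.sum_congr rfl fun a _ => ?_
        rw [Finset.mul_sum]
    have h4 : ∑ a, (L.n a : ℝ) * ∑ v ∈ L.TT, L.pl v a ≤ Fintype.card M * 2 * (δ * L.T) := by
      calc ∑ a, (L.n a : ℝ) * ∑ v ∈ L.TT, L.pl v a ≤ ∑ _a : M, 2 * (δ * L.T) := by
            refine Finset.sum_le_sum fun a _ => ?_
            have h5 := mul_le_mul_of_nonneg_left (L.sum_pl a) (Nat.cast_nonneg (α := ℝ) (L.n a))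
            have h6 := mul_le_mul_of_nonneg_left (L.le_T a) hδ0.le
            nlinarith
        _ = Fintype.card M * 2 * (δ * L.T) := by
            rw [Finset.sum_const, Finset.card_univ, nsmul_eq_mul]
            ring
    have h5 := mul_le_mul_of_nonneg_left L.mass (show 0 ≤ θ * B * L.T by positivity)
    have h6 := mul_le_mul_of_nonneg_left h4 (show 0 ≤ pp * B by positivity)
    have h7 : pp * B * (Fintype.card M * 2 * (δ * L.T)) = C5 * δ * B * L.T := by
      rw [hC5, ← hpp]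
      ring
    rw [h3]
    nlinarith
  have hBT : 0 < B * L.T := mul_pos hBpos hT0
  have e1 : δ * (1 + C5) = θ * μ / 8 := by
    rw [hδ]
    field_simp
  have e2 : η * (2 * D) ≤ θ * μ / 8 := by
    rw [hη]
    have h1 : θ * μ / (16 * (D + 1)) * (2 * D) = θ * μ / 8 * (D / (D + 1)) := by
      field_simp
      ring
    rw [h1]
    have h2 : (D : ℝ) / (D + 1) ≤ 1 := by
      rw [div_le_one (by positivity)]
      linarith
    have h3 : 0 ≤ θ * μ / 8 := by positivity
    nlinarith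
  have e3 : (CA + CT) * L.M0 ≤ θ * μ / 8 * (B * L.T) := by
    have h1 := mul_le_mul_of_nonneg_left hM (show 0 ≤ CA + CT by positivity)
    refine h1.trans ?_
    rw [hδ2]
    have h2 : (CA + CT) * (θ * μ * B / (8 * (CA + CT + 1)) * L.T) =
        θ * μ / 8 * (B * L.T) * ((CA + CT) / (CA + CT + 1)) := by
      field_simp
    rw [h2]
    have h3 : (CA + CT) / (CA + CT + 1) ≤ 1 := by
      rw [div_le_one (by positivity)]
      linarith
    have h4 : 0 ≤ θ * μ / 8 * (B * L.T) := by positivity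
    nlinarith
  have e4 := mul_le_mul_of_nonneg_right e2 hBT.le
  have e5 : δ * B * L.T + C5 * δ * B * L.T = θ * μ / 8 * (B * L.T) := by
    rw [← e1]
    ring
  have e6 : 0 < θ * μ * (B * L.T) := by positivity
  nlinarith

end Pool.Agent.Zilber.CA
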