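import Pool.Agent.Zilber.ADefs

set_option autoImplicit false

/-! Package ZA1: the normal form of the powers of one generator, leading coefficient a polynomial.

This is `LSharp.nf_one` (`Pool/Agent/LSharp/CONf1.lean`, proved; copy and adapt it) with the
integer `b` replaced by the polynomial `q` and `aeval φ` by a ring homomorphism `φ`:
`e = 0`: `P = (1, 0, …)`. Step: `φ q ^ (e+1) g ^ (e+1) = ∑ i, φ (q * P i) g ^ (i+1)`, and the term
with
`i = D - 1` is `φ (P (D-1)) * (φ q * g ^ D) = ∑ i, φ (P (D-1) * p i) g ^ i`. So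
`P' i = (if i = 0 then 0 else q * P (i-1)) + P (D-1) * p i`. Class degrees: `CD.add`, `CD.mul`,
`CD.mono` (everything is of class `a0`: `D * e + D`). `L1 (P' i) ≤ exp L L1 (P (i-1)) + L1 (P
(D-1)) exp L ≤ 2 exp L exp ((L+1) e) ≤ exp ((L+1)(e+1))`. -/

namespace Pool.Agent.Zilber.CA

open Pool.Agent.LAll Pool.Agent.LSharp

private theorem anf_L1_one {U : Type} : L1 (1 : MvPolynomial U ℤ) ≤ 1 := by
  classical
  rw [L1_eq_sum (1 : MvPolynomial U ℤ) {0} (by
    intro i hi
    rw [MvPolynomial.mem_support_iff, MvPolynomial.coeff_one] at hi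
    rw [Finset.mem_singleton]
    by_contra h
    exact hi (if_neg (Ne.symm h)))]
  rw [Finset.sum_singleton, MvPolynomial.coeff_one, if_pos rfl]
  simp

/-- **Normal form of `q ^ e g ^ e`.** -/
theorem nfA_one {M U R : Type} [Fintype U] [DecidableEq M] [CommRing R] (c : U → M)
    (φ : MvPolynomial U ℤ →+* R) (g : R) (a0 : M) (D : ℕ) (hD : 0 < D) (L : ℝ)
    (q : MvPolynomial U ℤ) (hq : CD c q (fun a => if a = a0 then D else 0))
    (hqL : L1 q ≤ Real.exp L) (p : Fin D → MvPolynomial U ℤ)
    (hp : ∀ i, CD c (p i) (fun a => if a = a0 then D else 0))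
    (hL : ∀ i, L1 (p i) ≤ Real.exp L)
    (hg : φ q * g ^ D = ∑ i : Fin D, φ (p i) * g ^ (i : ℕ)) (e : ℕ) :
    ∃ P : Fin D → MvPolynomial U ℤ,
      (∀ i, CD c (P i) (fun a => if a = a0 then D * e else 0)) ∧
      (∀ i, L1 (P i) ≤ Real.exp ((L + 1) * e)) ∧
      φ q ^ e * g ^ e = ∑ i : Fin D, φ (P i) * g ^ (i : ℕ) := by
  obtain ⟨D', rfl⟩ := Nat.exists_eq_succ_of_ne_zero hD.ne'
  induction e with
  | zero =>
    refine ⟨Fin.cons 1 (fun _ => 0), ?_, ?_, ?_⟩
    · intro i
      refine Fin.cases ?_ (fun i => ?_) i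
      · rw [Fin.cons_zero, ← map_one (MvPolynomial.C : ℤ →+* MvPolynomial U ℤ)]
        exact CD.C 1
      · rw [Fin.cons_succ]
        exact CD.zero
    · intro i
      have hexp : Real.exp ((L + 1) * ((0 : ℕ) : ℝ)) = 1 := by simp
      rw [hexp]
      refine Fin.cases ?_ (fun i => ?_) i
      · rw [Fin.cons_zero]
        exact anf_L1_one
      · rw [Fin.cons_succ, L1_zero]
        exact zero_le_one
    · rw [Fin.sum_univ_succ]
      simp
  | succ e ih =>
    obtain ⟨P, hP1, hP2, hP3⟩ := ih
    have hle1 : ((fun a => if a = a0 then D'.succ * e else 0) +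
        (fun a => if a = a0 then D'.succ else 0) : M → ℕ) ≤
        (fun a => if a = a0 then D'.succ * (e + 1) else 0) := by
      intro a
      simp only [Pi.add_apply]
      split_ifs
      · exact (Nat.mul_succ _ _).ge
      · exact le_rfl
    have hle2 : ((fun a => if a = a0 then D'.succ else 0) +
        (fun a => if a = a0 then D'.succ * e else 0) : M → ℕ) ≤
        (fun a => if a = a0 then D'.succ * (e + 1) else 0) := by
      rw [add_comm]
      exact hle1
    have hX : 0 < Real.exp ((L + 1) * (e : ℝ)) := Real.exp_pos _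
    have hE : 0 < Real.exp L := Real.exp_pos _
    have h2 : (2 : ℝ) ≤ Real.exp 1 := by
      have := Real.add_one_le_exp (1 : ℝ)
      linarith
    have hsplit : Real.exp ((L + 1) * ((e + 1 : ℕ) : ℝ)) =
        Real.exp 1 * (Real.exp L * Real.exp ((L + 1) * (e : ℝ))) := by
      rw [← Real.exp_add, ← Real.exp_add]
      congr 1
      push_cast
      ring
    have hmul : ∀ i, L1 (P (Fin.last D') * p i) ≤ Real.exp L *
        Real.exp ((L + 1) * (e : ℝ)) := by
      intro i
      refine (L1_mul _ _).trans ?_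
      rw [mul_comm]
      exact mul_le_mul (hL i) (hP2 _) (L1_nonneg _) hE.le
    refine ⟨Fin.cons (P (Fin.last D') * p 0) (fun i : Fin D' =>
      q * P i.castSucc + P (Fin.last D') * p i.succ), ?_, ?_, ?_⟩
    · intro i
      refine Fin.cases ?_ (fun i => ?_) i
      · rw [Fin.cons_zero]
        exact ((hP1 _).mul (hp 0)).mono hle1
      · rw [Fin.cons_succ]
        exact ((hq.mul (hP1 _)).mono hle2).add (((hP1 _).mul (hp _)).mono hle1)
    · intro i
      rw [hsplit]
      refine Fin.cases ?_ (fun i => ?_) i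
      · rw [Fin.cons_zero]
        refine (hmul 0).trans ?_
        have h3 := mul_pos hE hX
        nlinarith
      · rw [Fin.cons_succ]
        refine (L1_add _ _).trans ?_
        have h3 : L1 (q * P i.castSucc) ≤ Real.exp L * Real.exp ((L + 1) * (e : ℝ)) := by
          refine (L1_mul _ _).trans ?_
          exact mul_le_mul hqL (hP2 _) (L1_nonneg _) hE.le
        have h4 := hmul i.succ
        have h5 := mul_pos hE hX
        nlinarith
    · rw [Fin.sum_univ_succ]
      simp only [Fin.cons_zero, Fin.cons_succ, map_add, map_mul, Fin.val_zero, pow_zero, mul_one,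
        Fin.val_succ]
      have h3 : φ q ^ (e + 1) * g ^ (e + 1) =
          (∑ i : Fin (D' + 1), φ (P i) * g ^ (i : ℕ)) * (φ q * g) := by
        rw [← hP3]
        ring
      rw [h3, Fin.sum_univ_castSucc, add_mul, Finset.sum_mul]
      have h4 : φ (P (Fin.last D')) * g ^ ((Fin.last D' : Fin (D' + 1)) : ℕ) *
          (φ q * g) = φ (P (Fin.last D')) * (φ q * g ^ (D' + 1)) := by
        rw [Fin.val_last]
        ring
      rw [h4, hg, Fin.sum_univ_succ, mul_add, Finset.mul_sum]
      simp only [Fin.val_zero, pow_zero, mul_one, Fin.val_succ, Fin.val_castSucc]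
      rw [add_left_comm, ← Finset.sum_add_distrib]
      congr 1
      refine Finset.sum_congr rfl fun i _ => ?_
      ring

end Pool.Agent.Zilber.CA
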