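import Pool.Agent.Zilber.ANf1

set_option autoImplicit false

/-! Package ZA2: the normal form of the monomials in all generators, with a common denominator.

This is `LSharp.nf_all` (`Pool/Agent/LSharp/CONfA.lean`, proved; copy and adapt it) with polynomials
`q s` instead of the integers `bb s`. For `s : A` and `e` let `P s e` be the polynomials of
`nfA_one`
(`a0 = ca s`, `L = L (ca s)`). The denominator is `∏ s, q s ^ E (ca s)` and
`Pt al k = ∏ s, (q s ^ (E (ca s) - al s) * P s (al s) (k s))`.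
IDENTITY: `∏ s, φ (q s) ^ E (ca s) * ∏ s, g s ^ al s = ∏ s, (φ (q s) ^ (E - al s) * ∑ i, φ (P s (al
s) i) * g s ^ i)` and `Finset.prod_univ_sum`. CLASS DEGREES: the factor `s` has only variables of
the class `ca s` and degree `≤ D (E - al s) + D al s = D E (ca s)`; `CD.prod`, then
`∑ s, (if a = ca s then D * E (ca s) else 0) ≤ Fintype.card A * D * E a`.
`ℓ¹`: `L1_prod`, `L1_pow`, `L1_mul`: the factor `s` is `≤ exp (L (E - al s)) exp ((L + 1) al s) ≤
exp ((L+1) E)`. -/

namespace Pool.Agent.Zilber.CA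

open Pool.Agent.LAll Pool.Agent.LSharp

private theorem cd_pow {M U : Type} [Fintype U] [DecidableEq M] {c : U → M}
    {q : MvPolynomial U ℤ} {a0 : M} {D : ℕ} (h : CD c q (fun a => if a = a0 then D else 0))
    (n : ℕ) : CD c (q ^ n) (fun a => if a = a0 then D * n else 0) := by
  induction n with
  | zero =>
    rw [pow_zero, ← MvPolynomial.C_1]
    exact CD.C 1
  | succ n ih =>
    rw [pow_succ]
    refine (ih.mul h).mono fun a => ?_
    rw [Pi.add_apply]
    split_ifs
    · exact le_of_eq (by ring)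
    · exact le_rfl

private theorem l1_pow_le {U : Type} {q : MvPolynomial U ℤ} {x : ℝ} (h : L1 q ≤ Real.exp x)
    (n : ℕ) : L1 (q ^ n) ≤ Real.exp (n * x) := by
  rw [Real.exp_nat_mul]
  exact (L1_pow q n).trans (pow_le_pow_left₀ (L1_nonneg _) h n)

/-- **Normal form of the monomials.** -/
theorem nfA_all {M U R A : Type} [Fintype U] [Fintype A] [DecidableEq A] [DecidableEq M]
    [CommRing R] (c : U → M) (ca : A → M) (φ : MvPolynomial U ℤ →+* R) (g : A → R) (D : ℕ)
    (hD : 0 < D) (L : M → ℝ) (hL0 : ∀ a, 0 ≤ L a) (q : A → MvPolynomial U ℤ)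
    (hq : ∀ s, CD c (q s) (fun a => if a = ca s then D else 0))
    (hqL : ∀ s, L1 (q s) ≤ Real.exp (L (ca s))) (p : A → Fin D → MvPolynomial U ℤ)
    (hp : ∀ s i, CD c (p s i) (fun a => if a = ca s then D else 0))
    (hL : ∀ s i, L1 (p s i) ≤ Real.exp (L (ca s)))
    (hg : ∀ s, φ (q s) * g s ^ D = ∑ i : Fin D, φ (p s i) * g s ^ (i : ℕ)) (E : M → ℕ) :
    ∃ P : (A → ℕ) → (A → Fin D) → MvPolynomial U ℤ,
      ∀ al : A → ℕ, (∀ s, al s ≤ E (ca s)) →
        (∀ k, CD c (P al k) (fun a => Fintype.card A * D * E a)) ∧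
        (∀ k, L1 (P al k) ≤ Real.exp (∑ s, (L (ca s) + 1) * E (ca s))) ∧
        (∏ s, φ (q s) ^ E (ca s)) * ∏ s, g s ^ al s =
          ∑ k : A → Fin D, φ (P al k) * ∏ s, g s ^ (k s : ℕ) := by
  classical
  choose P hPcd hPL hPid using fun (s : A) (e : ℕ) =>
    nfA_one c φ (g s) (ca s) D hD (L (ca s)) (q s) (hq s) (hqL s) (p s) (hp s) (hL s) (hg s) e
  refine ⟨fun al k => ∏ s, (q s ^ (E (ca s) - al s) * P s (al s) (k s)), ?_⟩
  intro al hal
  refine ⟨fun k => ?_, fun k => ?_, ?_⟩
  · have h1 : CD c (∏ s, (q s ^ (E (ca s) - al s) * P s (al s) (k s)))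
        (∑ s, fun a => if a = ca s then D * E (ca s) else 0) := by
      refine CD.prod _ fun s _ => ?_
      refine ((cd_pow (hq s) (E (ca s) - al s)).mul (hPcd s (al s) (k s))).mono fun a => ?_
      rw [Pi.add_apply]
      split_ifs
      · rw [← mul_add, Nat.sub_add_cancel (hal s)]
      · exact le_rfl
    refine h1.mono fun a => ?_
    rw [Finset.sum_apply]
    refine (Finset.sum_le_card_nsmul _ _ (D * E a) fun s _ => ?_).trans (le_of_eq ?_)
    · split_ifs with h
      · rw [h]
      · exact Nat.zero_le _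
    · rw [Finset.card_univ, smul_eq_mul, mul_assoc]
  · refine (L1_prod _ _).trans ?_
    rw [Real.exp_sum]
    refine Finset.prod_le_prod (fun _ _ => L1_nonneg _) fun s _ => ?_
    refine (L1_mul _ _).trans ?_
    refine (mul_le_mul (l1_pow_le (hqL s) (E (ca s) - al s)) (hPL s (al s) (k s)) (L1_nonneg _)
      (Real.exp_nonneg _)).trans ?_
    rw [← Real.exp_add]
    refine Real.exp_le_exp.2 ?_
    rw [Nat.cast_sub (hal s)]
    have h2 : (al s : ℝ) ≤ E (ca s) := by exact_mod_cast hal s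
    nlinarith
  · have h1 : (∏ s, φ (q s) ^ E (ca s)) * ∏ s, g s ^ al s =
        ∏ s, ∑ i : Fin D, (φ (q s) ^ (E (ca s) - al s) * φ (P s (al s) i)) * g s ^ (i : ℕ) := by
      rw [← Finset.prod_mul_distrib]
      refine Finset.prod_congr rfl fun s _ => ?_
      have h2 := hPid s (al s)
      have h3 : φ (q s) ^ E (ca s) = φ (q s) ^ (E (ca s) - al s) * φ (q s) ^ al s := by
        rw [← pow_add, Nat.sub_add_cancel (hal s)]
      rw [h3, mul_assoc, h2, Finset.mul_sum]
      refine Finset.sum_congr rfl fun i _ => ?_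
      rw [mul_assoc]
    rw [h1, Finset.prod_univ_sum, Fintype.piFinset_univ]
    refine Finset.sum_congr rfl fun k _ => ?_
    rw [Finset.prod_mul_distrib, map_prod]
    congr 1
    refine Finset.prod_congr rfl fun s _ => ?_
    rw [map_mul, map_pow]

end Pool.Agent.Zilber.CA
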