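import Pool.Agent.Zilber.ADefs

set_option autoImplicit false

/-! Case A: shift of the variable of the divisor. -/

namespace Pool.Agent.Zilber.CA

open Pool.Agent.LAll Pool.Agent.LSharp

/-- The substitution `X y → X y + c`. -/
noncomputable def shiftP {β : Type} [DecidableEq β] (y : β) (c : ℤ) :
    MvPolynomial β ℤ →+* MvPolynomial β ℤ :=
  MvPolynomial.eval₂Hom MvPolynomial.C
    (fun b => MvPolynomial.X b + if b = y then MvPolynomial.C c else 0)

/-- The shifted point. -/
def shiftT {β K : Type} [DecidableEq β] [Field K] (y : β) (c : ℤ) (t : β → K) (b : β) : K :=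
  t b - if b = y then (c : K) else 0

theorem evT_shift {β K : Type} [DecidableEq β] [Field K] (y : β) (c : ℤ) (t : β → K)
    (P : MvPolynomial β ℤ) : evT (shiftT y c t) (shiftP y c P) = evT t P := by
  have h : (evT (shiftT y c t)).comp (shiftP y c) = evT t := by
    refine MvPolynomial.ringHom_ext (fun r => ?_) fun b => ?_
    · have h1 : (MvPolynomial.C r : MvPolynomial β ℤ) = (r : MvPolynomial β ℤ) :=
        map_intCast MvPolynomial.C r
      rw [h1, map_intCast, map_intCast]
    · have hX : ∀ (u : β → K) (b : β), evT u (MvPolynomial.X b) =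
          MvPowerSeries.C (u b) + MvPowerSeries.X b := by
        intro u b
        unfold evT
        exact MvPolynomial.aeval_X _ _
      have hC : ∀ (u : β → K) (r : ℤ), evT u (MvPolynomial.C r) = MvPowerSeries.C (r : K) := by
        intro u r
        have h1 : (MvPolynomial.C r : MvPolynomial β ℤ) = (r : MvPolynomial β ℤ) :=
          map_intCast MvPolynomial.C r
        rw [h1, map_intCast, map_intCast]
      have h2 : shiftP y c (MvPolynomial.X b) =
          MvPolynomial.X b + if b = y then MvPolynomial.C c else 0 := by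
        unfold shiftP
        exact MvPolynomial.eval₂Hom_X' _ _ _
      rw [RingHom.comp_apply, h2, map_add, hX, hX, shiftT]
      split_ifs with hb
      · rw [hC, map_sub]
        ring
      · rw [map_zero, sub_zero, add_zero]
  exact RingHom.congr_fun h P

private theorem cd_pow {M U : Type} [Fintype U] [DecidableEq M] (c : U → M)
    (P : MvPolynomial U ℤ) (d : M → ℕ) (h : CD c P d) (m : ℕ) : CD c (P ^ m) (m • d) := by
  induction m with
  | zero =>
    rw [pow_zero, zero_smul, ← map_one MvPolynomial.C]
    exact CD.C 1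
  | succ m ih =>
    rw [pow_succ, succ_nsmul]
    exact ih.mul h

private theorem cd_sum {M U I : Type} [Fintype U] [DecidableEq M] (c : U → M) (s : Finset I)
    (P : I → MvPolynomial U ℤ) (d : M → ℕ) (h : ∀ i ∈ s, CD c (P i) d) :
    CD c (∑ i ∈ s, P i) d := by
  classical
  induction s using Finset.induction_on with
  | empty =>
    rw [Finset.sum_empty]
    exact CD.zero
  | insert a s ha ih =>
    rw [Finset.sum_insert ha]
    exact (h a (Finset.mem_insert_self a s)).add
      (ih fun i hi => h i (Finset.mem_insert_of_mem hi))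

/-- The image of a polynomial is the sum over its monomials. -/
private theorem shiftP_eq {β : Type} [Fintype β] [DecidableEq β] (y : β) (c : ℤ)
    (P : MvPolynomial β ℤ) : shiftP y c P = ∑ ν ∈ P.support, MvPolynomial.C (P.coeff ν) *
      ∏ b, (MvPolynomial.X b + if b = y then MvPolynomial.C c else 0) ^ ν b := by
  unfold shiftP
  rw [MvPolynomial.coe_eval₂Hom, MvPolynomial.eval₂_eq']

theorem CD_shift {M β : Type} [Fintype β] [DecidableEq β] [DecidableEq M] (cb : β → M) (y : β)
    (c : ℤ) (P : MvPolynomial β ℤ) (d : M → ℕ) (h : CD cb P d) : CD cb (shiftP y c P) d := by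
  rw [shiftP_eq]
  refine cd_sum _ _ _ _ fun ν hν => ?_
  have h1 : CD cb (∏ b, (MvPolynomial.X b + if b = y then MvPolynomial.C c else 0) ^ ν b)
      (∑ b, ν b • (Pi.single (cb b) 1 : M → ℕ)) := by
    refine CD.prod _ fun b _ => cd_pow _ _ _ ?_ _
    refine CD.add ?_ ?_
    · classical
      intro μ hμ a
      rw [MvPolynomial.support_X, Finset.mem_singleton] at hμ
      rw [hμ]
      unfold cdeg
      by_cases ha : a = cb b
      · rw [ha, Pi.single_eq_same]
        calc ∑ u with cb u = cb b, (Finsupp.single b 1 : β →₀ ℕ) u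
            ≤ ∑ u, (Finsupp.single b 1 : β →₀ ℕ) u :=
              Finset.sum_le_sum_of_subset (Finset.filter_subset _ _)
          _ = 1 := by
              simp [Finsupp.single_apply]
      · rw [Pi.single_eq_of_ne ha, Nat.le_zero]
        refine Finset.sum_eq_zero fun u hu => ?_
        rw [Finsupp.single_apply, if_neg]
        rintro rfl
        exact ha (Finset.mem_filter.1 hu).2.symm
    · split_ifs
      · exact CD.C c
      · exact CD.zero
  have h2 := (CD.C (c := cb) (P.coeff ν) (d := 0)).mul h1
  refine h2.mono fun a => ?_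
  rw [zero_add, Finset.sum_apply]
  refine le_trans (le_of_eq ?_) (h ν hν a)
  unfold cdeg
  rw [Finset.sum_filter]
  refine Finset.sum_congr rfl fun b _ => ?_
  rw [Pi.smul_apply, smul_eq_mul]
  by_cases ha : cb b = a
  · rw [if_pos ha, ha, Pi.single_eq_same, mul_one]
  · rw [if_neg ha, Pi.single_eq_of_ne (Ne.symm ha), mul_zero]

private theorem L1_C_le' {U : Type} (z : ℤ) :
    L1 (MvPolynomial.C z : MvPolynomial U ℤ) ≤ |(z : ℝ)| := by
  classical
  have h : (MvPolynomial.C z : MvPolynomial U ℤ).support ⊆ {0} := by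
    intro ν hν
    rw [MvPolynomial.mem_support_iff, MvPolynomial.coeff_C] at hν
    rw [Finset.mem_singleton]
    by_contra h0
    rw [if_neg (Ne.symm h0)] at hν
    exact hν rfl
  rw [L1_eq_sum _ _ h, Finset.sum_singleton, MvPolynomial.coeff_C, if_pos rfl]

/-- The norm grows at most by the factor `(1 + |c|) ^ deg`. -/
theorem L1_shift {β : Type} [Fintype β] [DecidableEq β] (y : β) (c : ℤ) (P : MvPolynomial β ℤ)
    (D : ℕ) (hP : P.totalDegree ≤ D) :
    L1 (shiftP y c P) ≤ L1 P * (1 + |(c : ℝ)|) ^ D := by
  rw [shiftP_eq]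
  refine (L1_sum _ _).trans ?_
  unfold L1
  rw [Finset.sum_mul]
  refine Finset.sum_le_sum fun ν hν => ?_
  change L1 _ ≤ _
  refine (L1_mul _ _).trans ?_
  refine mul_le_mul (L1_C_le' _) ?_ (L1_nonneg _) (abs_nonneg _)
  refine (L1_prod _ _).trans ?_
  have h1 : ∀ b, L1 ((MvPolynomial.X b + if b = y then MvPolynomial.C c else 0 :
      MvPolynomial β ℤ) ^ ν b) ≤ (1 + |(c : ℝ)|) ^ ν b := by
    intro b
    refine (L1_pow _ _).trans (pow_le_pow_left₀ (L1_nonneg _) ?_ _)
    refine (L1_add _ _).trans (add_le_add ?_ ?_)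
    · classical
      have h2 : (MvPolynomial.X b : MvPolynomial β ℤ) = MvPolynomial.monomial
          (Finsupp.single b 1) 1 := rfl
      rw [L1_eq_sum (MvPolynomial.X b : MvPolynomial β ℤ) {Finsupp.single b 1}
        (by rw [MvPolynomial.support_X]), Finset.sum_singleton, h2, MvPolynomial.coeff_monomial,
        if_pos rfl]
      simp
    · split_ifs
      · exact L1_C_le' _
      · rw [L1_zero]
        exact abs_nonneg _
  calc ∏ b, L1 ((MvPolynomial.X b + if b = y then MvPolynomial.C c else 0 :
        MvPolynomial β ℤ) ^ ν b) ≤ ∏ b, (1 + |(c : ℝ)|) ^ ν b :=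
        Finset.prod_le_prod (fun b _ => L1_nonneg _) fun b _ => h1 b
    _ = (1 + |(c : ℝ)|) ^ (∑ b, ν b) := Finset.prod_pow_eq_pow_sum _ _ _
    _ ≤ (1 + |(c : ℝ)|) ^ D := by
        refine pow_le_pow_right₀ ?_ ?_
        · have := abs_nonneg (c : ℝ)
          linarith
        · have h3 := MvPolynomial.le_totalDegree hν
          rw [Finsupp.sum_fintype _ _ fun _ => rfl] at h3
          exact h3.trans hP

end Pool.Agent.Zilber.CA
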