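import Mathlib

set_option autoImplicit false

/-! B12. Finitely many constants suffice. -/

namespace Pool.Agent.Zilber

private theorem mem_fin_const {Ω : Type} [Field Ω] (F : Subfield Ω) (T : Set Ω) (y : Ω)
    (hy : y ∈ Algebra.adjoin F T) :
    ∃ c : Finset Ω, (∀ z ∈ c, z ∈ F) ∧ ∀ F' : Subfield Ω, (∀ z ∈ c, z ∈ F') →
      y ∈ Algebra.adjoin F' T := by
  classical
  induction hy using Algebra.adjoin_induction with
  | mem x hx => exact ⟨∅, by simp, fun F' _ => Algebra.subset_adjoin hx⟩
  | algebraMap r =>
    refine ⟨{(r : Ω)}, fun z hz => ?_, fun F' hF' => ?_⟩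
    · rw [Finset.mem_singleton.1 hz]
      exact r.2
    · exact Subalgebra.algebraMap_mem (Algebra.adjoin F' T)
        (⟨(r : Ω), hF' _ (Finset.mem_singleton_self _)⟩ : F')
  | add x y _ _ hx hy =>
    obtain ⟨c, hc, h⟩ := hx
    obtain ⟨c', hc', h'⟩ := hy
    refine ⟨c ∪ c', fun z hz => ?_, fun F' hF' => add_mem
      (h F' fun z hz => hF' z (Finset.mem_union_left _ hz))
      (h' F' fun z hz => hF' z (Finset.mem_union_right _ hz))⟩
    rcases Finset.mem_union.1 hz with hz | hz
    · exact hc z hz
    · exact hc' z hz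
  | mul x y _ _ hx hy =>
    obtain ⟨c, hc, h⟩ := hx
    obtain ⟨c', hc', h'⟩ := hy
    refine ⟨c ∪ c', fun z hz => ?_, fun F' hF' => mul_mem
      (h F' fun z hz => hF' z (Finset.mem_union_left _ hz))
      (h' F' fun z hz => hF' z (Finset.mem_union_right _ hz))⟩
    rcases Finset.mem_union.1 hz with hz | hz
    · exact hc z hz
    · exact hc' z hz

/-- **Finitely many constants suffice.** If `x` is algebraic over `F[T]` (`T` a set), then there are
finitely many elements `c` of `F` such that `x` is algebraic over `F'[T]` for every subfield `F'`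
which contains them.

Proof. A polynomial `p ≠ 0` over `Algebra.adjoin F T` with `p(x) = 0`; its finitely many
coefficients are values `aeval t P` of polynomials `P` over `F` at the elements of `T`
(`Algebra.adjoin_eq_range`: `MvPolynomial T F`), with finitely many coefficients in `F`: these are
the constants. For `F'` containing them the polynomials `P` are defined over `F'`
(`MvPolynomial.map` of a polynomial over `F'` : `∑_{m ∈ P.support} monomial m ⟨coeff, _⟩`), so the
coefficients of `p` are in `Algebra.adjoin F' T` and `p` comes from a nonzero polynomial over it. -/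
theorem alg_fin_const {Ω : Type} [Field Ω] (F : Subfield Ω) (T : Set Ω) (x : Ω)
    (hx : IsAlgebraic (Algebra.adjoin F T) x) :
    ∃ c : Finset Ω, (∀ z ∈ c, z ∈ F) ∧ ∀ F' : Subfield Ω, (∀ z ∈ c, z ∈ F') →
      IsAlgebraic (Algebra.adjoin F' T) x := by
  classical
  obtain ⟨p, hp, hpx⟩ := hx
  choose c hc hc' using fun i : ℕ => mem_fin_const F T (p.coeff i : Ω) (p.coeff i).2
  refine ⟨p.support.biUnion c, fun z hz => ?_, fun F' hF' => ?_⟩
  · obtain ⟨i, -, hi⟩ := Finset.mem_biUnion.1 hz
    exact hc i z hi
  · set q : Polynomial Ω := p.map (algebraMap (Algebra.adjoin F T) Ω) with hq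
    have hinj : Function.Injective (algebraMap (Algebra.adjoin F T) Ω) := Subtype.val_injective
    have hq0 : q ≠ 0 := (Polynomial.map_ne_zero_iff hinj).2 hp
    have hqx : Polynomial.eval x q = 0 := by
      rw [hq, Polynomial.eval_map_algebraMap]
      exact hpx
    have hl : q ∈ Polynomial.lifts (algebraMap (Algebra.adjoin F' T) Ω) := by
      rw [Polynomial.lifts_iff_coeff_lifts]
      intro i
      have h1 : q.coeff i = (p.coeff i : Ω) := by
        rw [hq, Polynomial.coeff_map]
        rfl
      have h2 : q.coeff i ∈ Algebra.adjoin F' T := by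
        by_cases hi : i ∈ p.support
        · rw [h1]
          exact hc' i F' fun z hz => hF' z (Finset.mem_biUnion.2 ⟨i, hi, hz⟩)
        · rw [h1, Polynomial.notMem_support_iff.1 hi]
          exact zero_mem _
      exact ⟨⟨q.coeff i, h2⟩, rfl⟩
    obtain ⟨p', hp'⟩ := (Polynomial.mem_lifts _).1 hl
    refine ⟨p', ?_, ?_⟩
    · rintro rfl
      rw [Polynomial.map_zero] at hp'
      exact hq0 hp'.symm
    · rw [← Polynomial.eval_map_algebraMap, hp']
      exact hqx

end Pool.Agent.Zilber
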