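import Pool.Agent.Zilber.BTauD
import Pool.Agent.Zilber.BCon1

set_option autoImplicit false

/-! AU1. The equation of an element of the branch, with integral coefficients; the inverse of the leading
coefficient as an element of the branch. -/

namespace Pool.Agent.Zilber

open Filter NumberField Module Pool.Agent.LAll Pool.Agent.LSharp

/-- The height of an integer. -/
private theorem aue_ht {F : Type} [Field F] [NumberField F] (z : ℤ) :
    ht (z : F) ≤ Real.log (max 1 |(z : ℝ)|) := by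
  rcases eq_or_ne z 0 with rfl | hz
  · have h0 : ht ((0 : ℤ) : F) = 0 := by
      rw [Int.cast_zero]
      unfold ht
      rw [Height.logHeight₁_zero, zero_div]
    rw [h0]
    exact Real.log_nonneg (le_max_left _ _)
  · have hz' : (z : F) ≠ 0 := Int.cast_ne_zero.2 hz
    have h1 : (1 : ℝ) ≤ |(z : ℝ)| := by
      have : (1 : ℤ) ≤ |z| := Int.one_le_abs hz
      exact_mod_cast this
    rw [max_eq_right h1, ← sum_max_lam (S := ∅) hz' (intOff_int z)]
    have h2 : ∀ v : Plc F ∅, max (lam v (z : F)) 0 ≤ LAll.wt v * Real.log |(z : ℝ)| := by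
      intro v
      exact max_le (lam_int_le v z hz) (mul_nonneg (wt_nonneg v) (Real.log_nonneg h1))
    refine (Finset.sum_le_sum fun v _ => h2 v).trans (le_of_eq ?_)
    rw [← Finset.sum_mul, sum_wt, one_mul]

variable {J : Type} {𝒰 : Ultrafilter J} {K : J → Type} [∀ j, Field (K j)] [∀ j, NumberField (K j)]
  {k : ℕ} {ι β : Type} [Fintype ι] [Fintype β] [DecidableEq β]

/-- Finitely many elements of `ko s` are in one `kf κ`. -/
private theorem aue_kf (s : J → ℝ) (c : Finset (Ult 𝒰 K)) (hc : ∀ z ∈ c, z ∈ ko 𝒰 K s) :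
    ∃ κ : J → ℝ, Oo 𝒰 κ s ∧ ∀ z ∈ c, z ∈ kf 𝒰 K κ := by
  classical
  induction c using Finset.induction_on with
  | empty => exact ⟨fun _ => 0, Oo.zero 𝒰 s, fun z hz => absurd hz (Finset.notMem_empty z)⟩
  | insert a c ha ih =>
    obtain ⟨κ, hκ, h⟩ := ih fun z hz => hc z (Finset.mem_insert_of_mem hz)
    obtain ⟨σ, hσ, h'⟩ := (mem_ko 𝒰 K).1 (hc a (Finset.mem_insert_self _ _))
    refine ⟨fun j => max (κ j) (σ j), hκ.max 𝒰 hσ, fun z hz => ?_⟩
    rcases Finset.mem_insert.1 hz with rfl | hz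
    · exact kf_mono 𝒰 K (fun j => le_max_right _ _) h'
    · exact kf_mono 𝒰 K (fun j => le_max_left _ _) (h z hz)

/-- The shift of an equation of degree `m` to an equation of degree `D`. -/
private theorem aue_shift {R : Type} [CommRing R] {m D : ℕ} (hD : m ≤ D) (c : Fin (m + 1) → R)
    (y : R) (h : ∑ i : Fin (m + 1), c i * y ^ (i : ℕ) = 0) :
    c (Fin.last m) * y ^ D = ∑ i : Fin D, (if h : D - m ≤ (i : ℕ) then
      -c ⟨(i : ℕ) - (D - m), by omega⟩ else 0) * y ^ (i : ℕ) := by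
  classical
  rw [Fin.sum_univ_castSucc] at h
  have h1 : c (Fin.last m) * y ^ m = ∑ i : Fin m, -c i.castSucc * y ^ (i : ℕ) := by
    have h2 := eq_neg_of_add_eq_zero_right h
    rw [Fin.val_last] at h2
    rw [h2, ← Finset.sum_neg_distrib]
    refine Finset.sum_congr rfl fun i _ => ?_
    rw [Fin.val_castSucc, neg_mul]
  have e3 : y ^ D = y ^ (D - m) * y ^ m := by
    rw [← pow_add]
    congr 1
    omega
  rw [e3, mul_left_comm, h1, Finset.mul_sum]
  let g : Fin m ↪ Fin D := ⟨fun i => ⟨(D - m) + i, by omega⟩, fun a a' h => by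
    have := congrArg Fin.val h
    simp only at this
    exact Fin.ext (by omega)⟩
  rw [← Finset.sum_subset (Finset.subset_univ (Finset.univ.map g))]
  · rw [Finset.sum_map]
    refine Finset.sum_congr rfl fun i _ => ?_
    have h5 : D - m ≤ ((g i : Fin D) : ℕ) := Nat.le_add_right _ _
    simp only [dif_pos h5]
    have h6 : (⟨((g i : Fin D) : ℕ) - (D - m), by omega⟩ : Fin (m + 1)) = i.castSucc := by
      apply Fin.ext
      change (D - m) + (i : ℕ) - (D - m) = i
      omega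
    rw [h6]
    change _ = _ * y ^ ((D - m) + (i : ℕ))
    rw [pow_add]
    ring
  · intro i _ hi
    have h5 : ¬ (D - m ≤ (i : ℕ)) := by
      intro h6
      apply hi
      rw [Finset.mem_map]
      refine ⟨⟨(i : ℕ) - (D - m), by omega⟩, Finset.mem_univ _, ?_⟩
      apply Fin.ext
      change (D - m) + ((i : ℕ) - (D - m)) = i
      omega
    simp only [dif_neg h5, zero_mul]

/-- **The equation of an element of the branch.** `u : L l`. There are `κ = o(s l)`, `D0`, an element `w ≠ 0` of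
`L l` of height `O(s l)`, such that for every `D ≥ D0` and most `j` there are integral polynomials `bb`, `pp i` in the `T_b` of the
block `l`, of degree `≤ D` and norm `≤ exp (D max 1 κ)`, with `bb(t + ζ) u(ζ)^D = ∑_(i < D) pp_i(t + ζ) u(ζ)^i` and
`bb(t + ζ) w(ζ) = 1`.

Proof. Let `T = {y | ∃ b, cl (bs b) = l ∧ y = x (bs b)}`. `u` is algebraic over `ko (s l) [T]` (`hT.alg`), hence
(`alg_fin_const`, as in `alg_kf_of_ko` in BLevA: finitely many constants) over `kf κ [T]` for some `κ = o(s l)`: a nonzero polynomial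
`P = ∑_(i ≤ m) P_i Z^i` over `kf κ [T]` with `P(u) = 0`, `P_m ≠ 0`, `m ≥ 1` (the elements of `kf κ [T]` are values at the `x (bs b)` of polynomials
`p_i : MvPolynomial β (kf κ)` with variables of the block `l`: `Algebra.adjoin_range_eq_range_aeval`; see `rel_integral`,
`rel_algebraic` in LSharp/BRRel and `prim_alg` in LSharp/BRPrim). `int_lift` (LSharp/BRInt) for the `p_i`: integers `b j ≠ 0` and
`q_i j` with `q_i = b p_i`; `b` has a class in `kf κ ≤ L l`. Put `w = (b p_m(x))⁻¹ ∈ L l`; it is in `Lf (s l)`, a subfield which contains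
`kf κ` (`Hb.mono`: `κ ≤ s l` for most `j`) and the `x (bs b)` (`hc.hgt`). `τ` is a ring homomorphism with `τ = cst` on `ko (s l) ⊇ kf κ`
and `τ (x (bs b)) = cst + XU b` (`hT.con`, `hT.var`); so, with `eval_lift` (LSharp/BRInt), `(τ (b p_i(x))).rep j =
evT t_j (q_i j)` for most `j`, `t_j b = (x (bs b)).rep j`. From `P(u) = 0`: `q_m(t+ζ) u^m = - ∑_(i<m) q_i(t+ζ) u^i`; for `D ≥ m` multiply by
`u^(D-m)` (shift the indices). `D0 ≥ m`, the degrees of the `p_i` and the constant of `int_lift`. -/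
theorem exists_eqn (s : Fin (k + 1) → J → ℝ)
    {cl : ι → Fin (k + 1)} {x : ι → Ult 𝒰 K} {bs : β → ι}
    (hc : Conf 𝒰 K s (FA 𝒰 K s) cl x bs) (L : Fin (k + 1) → Subfield (Ult 𝒰 K))
    (τ : ∀ l, L l →+* Ult 𝒰 (PS β K)) (hT : Taus (FA 𝒰 K s) cl x bs L τ)
    (l : Fin (k + 1)) (u : L l) :
    ∃ (κ : J → ℝ) (D0 : ℕ) (w : L l), Oo 𝒰 κ (s l) ∧ (w : Ult 𝒰 K) ≠ 0 ∧
      (w : Ult 𝒰 K) ∈ Lf 𝒰 K (s l) ∧ ∀ D, D0 ≤ D → ∀ᶠ j in (𝒰 : Filter J),
        ∃ (bb : MvPolynomial β ℤ) (pp : Fin D → MvPolynomial β ℤ),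
          ((∀ b ∈ bb.vars, cl (bs b) = l) ∧ bb.totalDegree ≤ D ∧
            L1 bb ≤ Real.exp (D * max 1 (κ j))) ∧
          (∀ i, (∀ b ∈ (pp i).vars, cl (bs b) = l) ∧ (pp i).totalDegree ≤ D ∧
            L1 (pp i) ≤ Real.exp (D * max 1 (κ j))) ∧
          evT (fun b => (x (bs b)).rep j) bb * (τ l u).rep j ^ D =
            ∑ i : Fin D, evT (fun b => (x (bs b)).rep j) (pp i) * (τ l u).rep j ^ (i : ℕ) ∧
          evT (fun b => (x (bs b)).rep j) bb * (τ l w).rep j = 1 := by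
  classical
  obtain ⟨c, hc1, hc2⟩ := alg_fin_const _ _ _ (hT.alg l u)
  obtain ⟨κ, hκ, hκc⟩ := aue_kf (s l) c hc1
  have hkF : kf 𝒰 K κ ≤ FA 𝒰 K s l := fun z hz => (mem_ko 𝒰 K).2 ⟨κ, hκ, hz⟩
  have hkL : kf 𝒰 K κ ≤ L l := hkF.trans (hT.le l)
  obtain ⟨P, hP0, hP⟩ := hc2 (kf 𝒰 K κ) hκc
  let S : Type := {b // cl (bs b) = l}
  let tS : S → Ult 𝒰 K := fun b => x (bs b.1)
  have hTS : {y | ∃ b, cl (bs b) = l ∧ y = x (bs b)} = Set.range tS := by
    ext y
    constructor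
    · rintro ⟨b, hb, rfl⟩
      exact ⟨⟨b, hb⟩, rfl⟩
    · rintro ⟨b, rfl⟩
      exact ⟨b.1, b.2, rfl⟩
  have hsub : ∀ a : Algebra.adjoin (kf 𝒰 K κ) {y | ∃ b, cl (bs b) = l ∧ y = x (bs b)},
      ∃ Q : MvPolynomial S (kf 𝒰 K κ), MvPolynomial.aeval tS Q = (a : Ult 𝒰 K) := by
    rintro ⟨z, hz⟩
    rw [hTS, Algebra.adjoin_range_eq_range_aeval] at hz
    exact hz
  choose Q hQ using hsub
  set m := P.natDegree with hm
  let Q0 : Fin (m + 1) → MvPolynomial S (kf 𝒰 K κ) := fun i => Q (P.coeff i)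
  have htL : ∀ b : S, tS b ∈ L l := fun b => by
    have h := hT.mem (bs b.1)
    rw [b.2] at h
    exact h
  let φL : MvPolynomial S (kf 𝒰 K κ) →+* L l :=
    MvPolynomial.eval₂Hom (Subfield.inclusion hkL) (fun b => ⟨tS b, htL b⟩)
  have hφL : (L l).subtype.comp φL =
      (MvPolynomial.aeval (R := kf 𝒰 K κ) tS).toRingHom := by
    refine MvPolynomial.ringHom_ext (fun a => ?_) (fun b => ?_)
    · have h1 : φL (MvPolynomial.C a) = Subfield.inclusion hkL a := MvPolynomial.eval₂Hom_C _ _ _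
      have h4 : (MvPolynomial.aeval (R := kf 𝒰 K κ) tS).toRingHom
          (MvPolynomial.C a) = algebraMap _ _ a := MvPolynomial.aeval_C _ _
      rw [RingHom.comp_apply, h1, h4]
      rfl
    · have h1 : φL (MvPolynomial.X b) = ⟨tS b, htL b⟩ := MvPolynomial.eval₂Hom_X' _ _ _
      have h4 : (MvPolynomial.aeval (R := kf 𝒰 K κ) tS).toRingHom
          (MvPolynomial.X b) = tS b := MvPolynomial.aeval_X _ _
      rw [RingHom.comp_apply, h1, h4]
      rfl
  let ρ : MvPolynomial S (kf 𝒰 K κ) →+* MvPolynomial β (kf 𝒰 K κ) :=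
    (MvPolynomial.rename (R := kf 𝒰 K κ) (Subtype.val : S → β)).toRingHom
  let XX : β → Ult 𝒰 (PS β K) := fun b => cst β K (x (bs b)) + XU K b
  let ψ : MvPolynomial β (kf 𝒰 K κ) →+* Ult 𝒰 (PS β K) :=
    MvPolynomial.eval₂Hom ((cst β K).comp (kf 𝒰 K κ).subtype) XX
  have hτ : (τ l).comp φL = ψ.comp ρ := by
    refine MvPolynomial.ringHom_ext (fun a => ?_) (fun b => ?_)
    · have e1 : φL (MvPolynomial.C a) = Subfield.inclusion hkL a := MvPolynomial.eval₂Hom_C _ _ _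
      have e2 : ρ (MvPolynomial.C a) = MvPolynomial.C a := MvPolynomial.rename_C _ _
      have e3 : ψ (MvPolynomial.C a) = cst β K a := MvPolynomial.eval₂Hom_C _ _ _
      rw [RingHom.comp_apply, RingHom.comp_apply, e1, e2, e3]
      exact hT.con l _ (hkF a.2)
    · have e1 : φL (MvPolynomial.X b) = ⟨tS b, htL b⟩ := MvPolynomial.eval₂Hom_X' _ _ _
      have e2 : ρ (MvPolynomial.X b) = MvPolynomial.X b.1 := MvPolynomial.rename_X _ _
      have e3 : ψ (MvPolynomial.X b.1) = cst β K (x (bs b.1)) + XU K b.1 :=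
        MvPolynomial.eval₂Hom_X' _ _ _
      rw [RingHom.comp_apply, RingHom.comp_apply, e1, e2, e3]
      exact hT.var l b.1 b.2 _ rfl
  have hL : ∑ i : Fin (m + 1), φL (Q0 i) * u ^ (i : ℕ) = 0 := by
    apply (L l).subtype.injective
    rw [map_zero, map_sum]
    rw [Polynomial.aeval_def, Polynomial.eval₂_eq_sum_range, Finset.sum_range] at hP
    rw [← hP]
    refine Finset.sum_congr rfl fun i _ => ?_
    rw [map_mul, map_pow]
    have h1 : (L l).subtype (φL (Q0 i)) = MvPolynomial.aeval tS (Q (P.coeff i)) :=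
      RingHom.congr_fun hφL (Q0 i)
    rw [h1, hQ]
    rfl
  have hτL : ∑ i : Fin (m + 1), ψ (ρ (Q0 i)) * τ l u ^ (i : ℕ) = 0 := by
    have h1 := congrArg (τ l) hL
    rw [map_zero, map_sum] at h1
    rw [← h1]
    refine Finset.sum_congr rfl fun i _ => ?_
    have h2 : τ l (φL (Q0 i)) = ψ (ρ (Q0 i)) := RingHom.congr_fun hτ (Q0 i)
    rw [map_mul, map_pow, h2]
  -- the integral lifts
  obtain ⟨C, b, q, hb, hsupp, hbd, hrel⟩ := int_lift (𝒰 := 𝒰) (K := K) κ (fun i => ρ (Q0 i))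
  have hpvars : ∀ i, ∀ b ∈ (ρ (Q0 i)).vars, cl (bs b) = l := by
    intro i b hb
    have h4 := MvPolynomial.vars_rename (Subtype.val : S → β) (Q0 i) hb
    obtain ⟨c, -, rfl⟩ := Finset.mem_image.1 h4
    exact c.2
  have hqvars : ∀ i j, ∀ c ∈ (q i j).vars, cl (bs c) = l := by
    intro i j c hc
    obtain ⟨m', hm', hcm⟩ := (MvPolynomial.mem_vars_iff_mem_support c).1 hc
    exact hpvars i c ((MvPolynomial.mem_vars_iff_mem_support c).2 ⟨m', hsupp i j hm', hcm⟩)
  have hqdeg : ∀ i j, (q i j).totalDegree ≤ (ρ (Q0 i)).totalDegree := fun i j =>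
    Finset.sup_mono (hsupp i j)
  let t : ∀ j, β → K j := fun j b => (x (bs b)).rep j
  have hXX : ∀ b, ∀ᶠ j in (𝒰 : Filter J), (XX b).rep j =
      MvPowerSeries.C (t j b) + MvPowerSeries.X b := by
    intro b
    have e1 : XX b = Ult.mk 𝒰 (PS β K) (fun j => MvPowerSeries.C (t j b) + MvPowerSeries.X b) := by
      have e2 : cst β K (x (bs b)) =
          Ult.mk 𝒰 (PS β K) (fun j => MvPowerSeries.C (t j b)) := by
        conv_lhs => rw [← Ult.mk_rep (x (bs b))]
        rfl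
      change cst β K (x (bs b)) + XU K b = _
      rw [e2]
      exact (map_add (Ult.mk 𝒰 (PS β K)) _ _).symm
    rw [e1]
    exact Ult.rep_mk _
  have hval : ∀ i, Ult.mk 𝒰 (PS β K) (fun j => ((b j : ℤ) : PS β K j)) * ψ (ρ (Q0 i)) =
      Ult.mk 𝒰 (PS β K) (fun j => evT (t j) (q i j)) := by
    intro i
    have h4 := eval_lift (𝒰 := 𝒰) (K := K) (R := PS β K) (fun j => MvPowerSeries.C) κ (ρ (Q0 i)) b
      (q i) (hsupp i) (hrel i) XX
    refine h4.trans ?_
    rw [Ult.mk_eq_mk]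
    filter_upwards [Filter.eventually_all.2 hXX] with j hj
    exact MvPolynomial.eval₂Hom_congr' (RingHom.ext_int _ _)
      (fun c hc _ => hj c) rfl
  have heq : ∀ᶠ j in (𝒰 : Filter J),
      ∑ i : Fin (m + 1), evT (t j) (q i j) * (τ l u).rep j ^ (i : ℕ) = 0 := by
    rw [← Ult.mk_eq_zero (R := PS β K)]
    have e2 : (fun j => ∑ i : Fin (m + 1), evT (t j) (q i j) * (τ l u).rep j ^ (i : ℕ)) =
        ∑ i : Fin (m + 1), (fun j => evT (t j) (q i j)) * (τ l u).rep ^ (i : ℕ) := by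
      funext j
      rw [Finset.sum_apply]
      rfl
    rw [e2, map_sum]
    have e3 := congrArg (fun z => Ult.mk 𝒰 (PS β K) (fun j => ((b j : ℤ) : PS β K j)) * z) hτL
    simp only [mul_zero, Finset.mul_sum] at e3
    rw [← e3]
    refine Finset.sum_congr rfl fun i _ => ?_
    rw [map_mul, map_pow, Ult.mk_rep, ← hval i, mul_assoc]
  -- the inverse of the leading coefficient
  let B0 : Ult 𝒰 K := Ult.mk 𝒰 K (fun j => ((b j : ℤ) : K j))
  have hB00 : B0 ≠ 0 := by
    intro h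
    obtain ⟨j, hj⟩ := (Ult.mk_eq_zero.1 h).exists
    exact hb j (by exact_mod_cast hj)
  have hB0k : B0 ∈ kf 𝒰 K κ := by
    refine ⟨fun j => (b j : ℚ), ?_, ?_⟩
    · congr 1
      funext j
      exact Rat.cast_intCast (b j)
    · refine ⟨|C|, ?_⟩
      filter_upwards [hbd] with j hj
      rw [Rat.cast_intCast]
      refine (aue_ht (b j)).trans ?_
      have h1 : (0 : ℝ) < max 1 (κ j) := lt_max_of_lt_left one_pos
      rw [Real.log_le_iff_le_exp (lt_max_of_lt_left one_pos)]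
      refine max_le (Real.one_le_exp (by positivity)) (hj.1.trans ?_)
      exact Real.exp_le_exp.2 (mul_le_mul_of_nonneg_right (le_abs_self C) h1.le)
  have hkLf : kf 𝒰 K κ ≤ Lf 𝒰 K (s l) := by
    rintro _ ⟨a, rfl, ha⟩
    refine ⟨_, rfl, ha.mono ⟨1, ?_⟩⟩
    filter_upwards [hκ 1 one_pos] with j hj
    have h1 := hc.scl.one l j
    rw [one_mul] at hj ⊢
    rw [abs_of_nonneg (zero_le_one.trans h1)] at hj
    exact hj.trans (le_max_right _ _)
  set a0 : Ult 𝒰 K := (P.coeff m : Ult 𝒰 K) with ha0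
  have ha00 : a0 ≠ 0 := by
    intro h
    exact hP0 (Polynomial.leadingCoeff_eq_zero.1 (Subtype.ext h))
  have hadj : ∀ (F : Subfield (Ult 𝒰 K)), kf 𝒰 K κ ≤ F → (∀ b : S, tS b ∈ F) →
      ∀ z ∈ Algebra.adjoin (kf 𝒰 K κ) {y | ∃ b, cl (bs b) = l ∧ y = x (bs b)}, z ∈ F := by
    intro F hF hbF z hz
    induction hz using Algebra.adjoin_induction with
    | mem z hz =>
      obtain ⟨b, hb, rfl⟩ := hz
      exact hbF ⟨b, hb⟩
    | algebraMap r => exact hF r.2
    | add x y _ _ hx hy => exact add_mem hx hy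
    | mul x y _ _ hx hy => exact mul_mem hx hy
  have ha0L : a0 ∈ L l := hadj (L l) hkL htL _ (P.coeff m).2
  have ha0f : a0 ∈ Lf 𝒰 K (s l) := by
    refine hadj (Lf 𝒰 K (s l)) hkLf (fun b => ?_) _ (P.coeff m).2
    have h := hc.hgt (bs b.1)
    rw [b.2] at h
    exact h
  let w : L l := ⟨(B0 * a0)⁻¹, inv_mem (mul_mem (hkL hB0k) ha0L)⟩
  have hw : ∀ᶠ j in (𝒰 : Filter J), evT (t j) (q (Fin.last m) j) * (τ l w).rep j = 1 := by
    have e1 : (⟨B0, hkL hB0k⟩ : L l) * φL (Q0 (Fin.last m)) * w = 1 := by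
      apply Subtype.ext
      have e2 : ((φL (Q0 (Fin.last m)) : L l) : Ult 𝒰 K) = a0 := by
        have h1 : (L l).subtype (φL (Q0 (Fin.last m))) =
            MvPolynomial.aeval tS (Q (P.coeff (Fin.last m : Fin (m + 1)))) :=
          RingHom.congr_fun hφL (Q0 (Fin.last m))
        rw [hQ] at h1
        exact h1
      change B0 * ((φL (Q0 (Fin.last m)) : L l) : Ult 𝒰 K) * (B0 * a0)⁻¹ = 1
      rw [e2]
      exact mul_inv_cancel₀ (mul_ne_zero hB00 ha00)
    have e3 := congrArg (τ l) e1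
    rw [map_mul, map_mul, map_one] at e3
    have e4 : τ l ⟨B0, hkL hB0k⟩ =
        Ult.mk 𝒰 (PS β K) (fun j => ((b j : ℤ) : PS β K j)) := by
      rw [hT.con l ⟨B0, hkL hB0k⟩ (hkF hB0k)]
      change Ult.map _ (Ult.mk 𝒰 K (fun j => ((b j : ℤ) : K j))) = _
      rw [Ult.map_mk]
      congr 1
      funext j
      rw [map_intCast]
    have e5 : τ l (φL (Q0 (Fin.last m))) = ψ (ρ (Q0 (Fin.last m))) :=
      RingHom.congr_fun hτ (Q0 (Fin.last m))
    rw [e4, e5, hval, ← Ult.mk_rep (τ l w), ← map_mul, ← map_one (Ult.mk 𝒰 (PS β K)),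
      Ult.mk_eq_mk] at e3
    filter_upwards [e3] with j hj
    exact hj
  obtain ⟨T, hTd⟩ : ∃ T, ∀ i, (ρ (Q0 i)).totalDegree ≤ T :=
    ⟨Finset.univ.sup fun i => (ρ (Q0 i)).totalDegree, fun i =>
      Finset.le_sup (f := fun i => (ρ (Q0 i)).totalDegree) (Finset.mem_univ i)⟩
  refine ⟨κ, m + T + ⌈C⌉₊, w, hκ, inv_ne_zero (mul_ne_zero hB00 ha00),
    inv_mem (mul_mem (hkLf hB0k) ha0f), fun D hD => ?_⟩
  have hmD : m ≤ D := by omega
  have hTD : T ≤ D := by omega
  have hCD : C ≤ D := (Nat.le_ceil C).trans (by exact_mod_cast (by omega : ⌈C⌉₊ ≤ D))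
  filter_upwards [hbd, heq, hw] with j h1 h2 h3
  have hone : ∀ i, (∀ b ∈ (q i j).vars, cl (bs b) = l) ∧ (q i j).totalDegree ≤ D ∧
      L1 (q i j) ≤ Real.exp (D * max 1 (κ j)) := by
    intro i
    refine ⟨hqvars i j, (hqdeg i j).trans ((hTd i).trans hTD), (h1.2 i).trans ?_⟩
    exact Real.exp_le_exp.2 (mul_le_mul_of_nonneg_right hCD (le_max_of_le_left zero_le_one))
  refine ⟨q (Fin.last m) j, fun i => if h : D - m ≤ (i : ℕ) then
    -q ⟨(i : ℕ) - (D - m), by omega⟩ j else 0, hone _, fun i => ?_, ?_, h3⟩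
  · by_cases h : D - m ≤ (i : ℕ)
    · simp only [dif_pos h]
      obtain ⟨g1, g2, g3⟩ := hone ⟨(i : ℕ) - (D - m), by omega⟩
      refine ⟨?_, ?_, ?_⟩
      · rw [MvPolynomial.vars_neg]
        exact g1
      · rw [MvPolynomial.totalDegree_neg]
        exact g2
      · rw [L1_neg]
        exact g3
    · simp only [dif_neg h]
      refine ⟨fun c hc => ?_, ?_, ?_⟩
      · rw [MvPolynomial.vars_0] at hc
        exact absurd hc (Finset.notMem_empty c)
      · rw [MvPolynomial.totalDegree_zero]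
        exact Nat.zero_le _
      · rw [L1_zero]
        exact (Real.exp_pos _).le
  · have h4 := aue_shift hmD (fun i => evT (t j) (q i j)) ((τ l u).rep j) h2
    refine h4.trans (Finset.sum_congr rfl fun i _ => ?_)
    by_cases h : D - m ≤ (i : ℕ)
    · simp only [dif_pos h, map_neg]
      rfl
    · simp only [dif_neg h, map_zero]

end Pool.Agent.Zilber
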