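import Pool.Agent.Zilber.TSW
import Pool.Agent.LSharp.TSVal

set_option autoImplicit false

/-! AU3. Functions with different values are linearly independent. -/

namespace Pool.Agent.Zilber

open Filter NumberField Module Pool.Agent.LAll Pool.Agent.LSharp Pool.Agent.CITLines

variable {ι β : Type} [Fintype ι] [Fintype β] [DecidableEq β]

/-- A real valuation and a sum of elements with pairwise different values (`RV`): the sum is not zero.

Proof. Induction on the number of nonzero terms / the element with the smallest value: if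
`∑_(x ∈ s) z x = 0`, `s` nonempty, all `z x ≠ 0`, values different; by induction on `s` the value of a sum of elements with different values is
the minimum of the values (for two elements `v a < v b` : `v (a + b) = v a`, from `add` for `a + b` and for
`a = (a + b) - b`; `v (-b) = v b` from `mul` and `triv` with `-1`), and the sum is nonzero. -/
theorem sum_ne_zero_of_RV {K Ω : Type} [Field K] [Field Ω] [Algebra K Ω] {v : Ω → ℝ}
    (hv : RV K v) {X : Type} (s : Finset X) (hs : s.Nonempty) (z : X → Ω)
    (hz : ∀ x ∈ s, z x ≠ 0) (hd : ∀ x ∈ s, ∀ x' ∈ s, x ≠ x' → v (z x) ≠ v (z x')) :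
    ∑ x ∈ s, z x ≠ 0 := by
  obtain ⟨x0, hx0, hmin⟩ := s.exists_min_image (fun x => v (z x)) hs
  refine (rv_dom hv s z x0 hx0 (hz x0 hx0) fun x hx hne _ => ?_).1
  exact lt_of_le_of_ne (hmin x hx) (hd x0 hx0 x hx (Ne.symm hne))

private theorem v_prod {K Ω : Type} [Field K] [Field Ω] [Algebra K Ω] {v : Ω → ℝ}
    (hv : RV K v) {ι : Type} (S : Finset ι) (x : ι → Ω) (hx : ∀ s ∈ S, x s ≠ 0) :
    v (∏ s ∈ S, x s) = ∑ s ∈ S, v (x s) := by
  classical
  induction S using Finset.induction_on with
  | empty => simp [rv_one hv]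
  | insert a S ha ih =>
    have h1 : ∀ s ∈ S, x s ≠ 0 := fun s hs => hx s (Finset.mem_insert_of_mem hs)
    rw [Finset.prod_insert ha, Finset.sum_insert ha,
      hv.mul _ _ (hx a (Finset.mem_insert_self a S)) (Finset.prod_ne_zero_iff.mpr h1), ih h1]

/-- A product over both signs is a product with the net exponents. -/
private theorem prod_net {L : Type} [Field L] (u u' : ι → L) (h : ∀ i, u i * u' i = 1)
    (al : ι × Bool → ℕ) :
    ∏ s : ι × Bool, (if s.2 then u s.1 else u' s.1) ^ al s =
      ∏ i, u i ^ ((al (i, true) : ℤ) - al (i, false)) := by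
  rw [Fintype.prod_prod_type]
  refine Finset.prod_congr rfl fun i _ => ?_
  have h0 : u i ≠ 0 := left_ne_zero_of_mul_eq_one (h i)
  have h1 : u' i = (u i)⁻¹ := eq_inv_of_mul_eq_one_right (h i)
  rw [Fintype.prod_bool, zpow_sub₀ h0, zpow_natCast, zpow_natCast, h1]
  simp [div_eq_mul_inv]

/-- **Nonvanishing of the auxiliary function.** `f i` power series with nonzero constant coefficient, `f' i` their
inverses, `Emb` (TSW): if the net exponents of the monomials have different values (in terms of the
matrix `q`) then no nontrivial integral combination vanishes.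

Proof. In `Ω` (from `Emb`: `v`, `φ`): the image under `φ` of the sum (in `GF f`: the inverse of `gen f i` is the
element of `f' i`, since `f i * f' i = 1`) is `∑_x p_x ∏_i φ(gen f i) ^ (net exponent)`; `φ (gen f i) ≠ 0`. The value of the term
`x` is `v (p_x) + ∑_i net x i * v (φ (gen f i)) = ∑_b (∑_i net x i q i b) w_b`, `w_b = v (φ (gen f (g b)))` linearly
independent over `ℚ`, so different terms have different values (the integer `p_x ≠ 0` has value `0` by `triv`).
`sum_ne_zero_of_RV` for the set of `x` with `p x ≠ 0`. Conclude: if the sum were `0` in the power series ring, its image in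
`FractionRing`, which is in `GF f`, would be `0`. -/
theorem ne_zero_of_emb {F : Type} [Field F] [CharZero F] (σ : F →+* ℂ) (f f' : ι → MvPowerSeries β F)
    (hff : ∀ i, f i * f' i = 1) (g : β → ι) (q : ι → β → ℚ) (hE : Emb σ f g q)
    {X : Type} [Fintype X] (p : X → ℤ) (hp : p ≠ 0) (al : X → ι × Bool → ℕ)
    (hd : ∀ x x', x ≠ x' → ∃ b, ∑ i, (((al x (i, true) : ℤ) - al x (i, false) : ℤ) : ℚ) * q i b ≠
      ∑ i, (((al x' (i, true) : ℤ) - al x' (i, false) : ℤ) : ℚ) * q i b) :
    ∑ x, (p x : MvPowerSeries β F) *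
      ∏ s : ι × Bool, (if s.2 then f s.1 else f' s.1) ^ al x s ≠ 0 := by
  classical
  obtain ⟨Ω, _, _, _, v, φ, hv, -, hval, hlin⟩ := hE
  intro h0
  have hcz : CharZero Ω := charZero_of_injective_algebraMap (algebraMap ℂ Ω).injective
  set net : X → ι → ℤ := fun x i => (al x (i, true) : ℤ) - al x (i, false) with hnet
  set u : ι → FractionRing (MvPowerSeries β F) :=
    fun i => algebraMap (MvPowerSeries β F) (FractionRing (MvPowerSeries β F)) (f i) with hu
  set u' : ι → FractionRing (MvPowerSeries β F) :=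
    fun i => algebraMap (MvPowerSeries β F) (FractionRing (MvPowerSeries β F)) (f' i) with hu'
  have huu : ∀ i, u i * u' i = 1 := by
    intro i
    rw [hu, hu']
    simp only
    rw [← map_mul, hff, map_one]
  -- the image in the fraction field
  have h1 : ∑ x, (p x : FractionRing (MvPowerSeries β F)) * ∏ i, u i ^ net x i = 0 := by
    have h2 := congrArg (algebraMap (MvPowerSeries β F) (FractionRing (MvPowerSeries β F))) h0
    rw [map_sum, map_zero] at h2
    rw [← h2]
    refine Finset.sum_congr rfl fun x _ => ?_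
    rw [map_mul, map_intCast, map_prod, ← prod_net u u' huu (al x)]
    congr 1
    refine Finset.prod_congr rfl fun s _ => ?_
    rw [map_pow]
    split_ifs <;> rfl
  -- the element of the generated field
  have h3 : ∑ x, (p x : GF f) * ∏ i, gen f i ^ net x i = 0 := by
    apply Subtype.ext
    have h4 : ((∑ x, (p x : GF f) * ∏ i, gen f i ^ net x i : GF f) :
        FractionRing (MvPowerSeries β F)) =
        ∑ x, (p x : FractionRing (MvPowerSeries β F)) * ∏ i, u i ^ net x i := by
      push_cast
      rfl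
    rw [h4, h1]
    rfl
  have h5 : ∑ x, (p x : Ω) * ∏ i, φ (gen f i) ^ net x i = 0 := by
    have h6 := congrArg φ h3
    rw [map_sum, map_zero] at h6
    rw [← h6]
    refine Finset.sum_congr rfl fun x _ => ?_
    rw [map_mul, map_intCast, map_prod]
    congr 1
    refine Finset.prod_congr rfl fun i _ => ?_
    rw [map_zpow₀]
  have hgen : ∀ i, φ (gen f i) ≠ 0 := by
    intro i hi
    have h6 : gen f i = 0 := φ.injective (by rw [hi, map_zero])
    have h7 : u i = 0 := congrArg (Subtype.val) h6
    exact (left_ne_zero_of_mul_eq_one (huu i)) h7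
  set S : Finset X := Finset.univ.filter fun x => p x ≠ 0 with hS
  have hSne : S.Nonempty := by
    obtain ⟨x, hx⟩ := Function.ne_iff.1 hp
    exact ⟨x, Finset.mem_filter.2 ⟨Finset.mem_univ _, hx⟩⟩
  have hterm : ∀ x, ∏ i, φ (gen f i) ^ net x i ≠ 0 := fun x =>
    Finset.prod_ne_zero_iff.2 fun i _ => zpow_ne_zero _ (hgen i)
  have hpx : ∀ x, p x ≠ 0 → ((p x : ℤ) : Ω) ≠ 0 := fun x hx => Int.cast_ne_zero.2 hx
  have hvint : ∀ x, p x ≠ 0 → v ((p x : ℤ) : Ω) = 0 := by
    intro x hx
    have h8 := hv.triv ((p x : ℤ) : ℂ) (Int.cast_ne_zero.2 hx)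
    rwa [map_intCast] at h8
  have hvx : ∀ x, p x ≠ 0 → v ((p x : Ω) * ∏ i, φ (gen f i) ^ net x i) =
      ∑ b, ((∑ i, (net x i : ℚ) * q i b : ℚ) : ℝ) * v (φ (gen f (g b))) := by
    intro x hx
    rw [hv.mul _ _ (hpx x hx) (hterm x), hvint x hx, zero_add,
      v_prod hv _ _ (fun i _ => zpow_ne_zero _ (hgen i))]
    have h9 : ∀ i, v (φ (gen f i) ^ net x i) =
        ∑ b, (net x i : ℝ) * ((q i b : ℝ) * v (φ (gen f (g b)))) := by
      intro i
      rw [rv_zpow hv (hgen i), hval i, Finset.mul_sum]
    rw [Finset.sum_congr rfl fun i _ => h9 i, Finset.sum_comm]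
    refine Finset.sum_congr rfl fun b _ => ?_
    push_cast
    rw [Finset.sum_mul]
    refine Finset.sum_congr rfl fun i _ => ?_
    ring
  have hsum : ∑ x ∈ S, (p x : Ω) * ∏ i, φ (gen f i) ^ net x i = 0 := by
    rw [← h5, hS]
    refine Finset.sum_filter_of_ne fun x _ hx hpx0 => hx ?_
    rw [hpx0, Int.cast_zero, zero_mul]
  refine sum_ne_zero_of_RV hv S hSne (fun x => (p x : Ω) * ∏ i, φ (gen f i) ^ net x i)
    (fun x hx => mul_ne_zero (hpx x (Finset.mem_filter.1 hx).2) (hterm x)) ?_ hsum
  intro x hx x' hx' hne heq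
  rw [hvx x (Finset.mem_filter.1 hx).2, hvx x' (Finset.mem_filter.1 hx').2, ← sub_eq_zero,
    ← Finset.sum_sub_distrib] at heq
  obtain ⟨b, hb⟩ := hd x x' hne
  have h10 := (Fintype.linearIndependent_iff.1 hlin)
    (fun b => (∑ i, (net x i : ℚ) * q i b) - ∑ i, (net x' i : ℚ) * q i b) (by
      rw [← heq]
      refine Finset.sum_congr rfl fun b _ => ?_
      rw [Rat.smul_def]
      push_cast
      ring) b
  exact hb (sub_eq_zero.1 h10)

end Pool.Agent.Zilber
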