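import Pool.Agent.Zilber.Defs

set_option autoImplicit false

/-! AU5. Heights of monomials with exponents near a multiple of a vector of the kernel. -/

namespace Pool.Agent.Zilber

open Filter NumberField Module Pool.Agent.LAll Pool.Agent.LSharp Pool.Agent.CITLines

variable {J : Type} {𝒰 : Ultrafilter J} {K : J → Type} [∀ j, Field (K j)] [∀ j, NumberField (K j)]
  {k : ℕ} {ι : Type} [Fintype ι]

/-- The scales of the blocks `l ≠ 0` tend to infinity. (`s 0 = 1`, `s 0 / s l → 0`.) -/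
theorem scl_tendsto (s : Fin (k + 1) → J → ℝ) (hs : Scl 𝒰 s) (l : Fin (k + 1)) (hl : l ≠ 0) :
    Tendsto (s l) 𝒰 atTop := by
  have h1 := hs.sep 0 l (Fin.pos_iff_ne_zero.2 hl)
  rw [tendsto_atTop]
  intro b
  have h2 : (0 : ℝ) < 1 / (|b| + 1) := by positivity
  filter_upwards [h1.eventually (gt_mem_nhds h2)] with j hj
  have h3 : (0 : ℝ) < s l j := lt_of_lt_of_le one_pos (hs.one l j)
  have h4 : (0 : ℝ) < |b| + 1 := by positivity
  rw [hs.zero j, div_lt_div_iff₀ h3 h4] at hj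
  have h5 := le_abs_self b
  linarith

/-- `s l ≤ s l'` for most `j` if `l ≤ l'`. -/
theorem scl_le (s : Fin (k + 1) → J → ℝ) (hs : Scl 𝒰 s) (l l' : Fin (k + 1)) (hl : l ≤ l') :
    ∀ᶠ j in (𝒰 : Filter J), s l j ≤ s l' j := by
  rcases eq_or_lt_of_le hl with rfl | hlt
  · exact Filter.Eventually.of_forall fun _ => le_rfl
  · filter_upwards [(hs.sep l l' hlt).eventually (gt_mem_nhds one_pos)] with j hj
    have h3 : (0 : ℝ) < s l' j := lt_of_lt_of_le one_pos (hs.one l' j)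
    rw [div_lt_one h3] at hj
    exact hj.le

/-- The height of a coordinate. -/
private theorem ker_hgt (s : Fin (k + 1) → J → ℝ) (hs : Scl 𝒰 s) (l : Fin (k + 1))
    (x : Ult 𝒰 K) (hgt : x ∈ Lf 𝒰 K (s l)) :
    ∃ c : ℝ, 0 ≤ c ∧ ∀ᶠ j in (𝒰 : Filter J), ht (x.rep j) ≤ c * s (Fin.last k) j := by
  obtain ⟨z, hz, C, hC⟩ := hgt
  have h1 : ∀ᶠ j in (𝒰 : Filter J), x.rep j = z j := by
    rw [← Ult.mk_eq_mk, Ult.mk_rep, hz]
  refine ⟨|C|, abs_nonneg C, ?_⟩
  filter_upwards [hC, h1, scl_le s hs l (Fin.last k) (Fin.le_last l)] with j h2 h3 h4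
  have h5 : max 1 (s l j) = s l j := max_eq_right (hs.one l j)
  rw [h5] at h2
  have h6 : (0 : ℝ) ≤ s l j := zero_le_one.trans (hs.one l j)
  rw [h3]
  calc ht (z j) ≤ C * s l j := h2
    _ ≤ |C| * s l j := mul_le_mul_of_nonneg_right (le_abs_self C) h6
    _ ≤ |C| * s (Fin.last k) j := mul_le_mul_of_nonneg_left h4 (abs_nonneg C)

/-- **Heights from the kernel.** `al` in the kernel. For every `C1` there is `C0` such that for all real `Δ ≥ 1` and
most `j`: every integer vector `a` with `|a i - Δ s_k / s_i al i| ≤ C1` satisfies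
`ht (∏ x_i ^ (a i)) ≤ C0 s_k` (`C0` does not depend on `Δ`).

Proof. Let `z = ∏ (x i).rep j ^ (a i)`; `(x i).rep j ≠ 0` for most `j`. Choose `S` such that all the `(x i).rep j` are units
outside `S` (`exists_S`). `2 ht z = ∑_v |lam v z|` (`sum_abs_lam`; `z` is `Off S`), `lam v z = ∑_i a i lam v (x i)`
`= Δ s_k ∑_i al i lam v (x i) / s_i + ∑_i err_i lam v (x i)`, `|err_i| ≤ C1`. The first sum: by the definition of `Ker` with
`ε = 1 / Δ`: `∑_v |..| ≤ Δ s_k * (1 / Δ) = s_k`. The second: `≤ ∑_i C1 ∑_v |lam v (x i)| = ∑_i C1 2 ht (x i)`, and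
`ht (x i) ≤ c_i max 1 (s_i) ≤ c_i s_i ≤ c_i s_k` for most `j` (`hgt`: `Lf`, `Hb`, `Ult.rep_mk`; `1 ≤ s_i`; `s_i ≤ s_k` for most `j` :
`s_i / s_k → 0` if `cl i < last k`, by `Scl.sep`). -/
theorem ht_of_ker (s : Fin (k + 1) → J → ℝ) (hs : Scl 𝒰 s) (cl : ι → Fin (k + 1))
    (x : ι → Ult 𝒰 K) (hx : ∀ i, x i ≠ 0) (hgt : ∀ i, x i ∈ Lf 𝒰 K (s (cl i)))
    (al : ι → ℝ) (hal : al ∈ Ker 𝒰 K s cl x) (C1 : ℝ) (hC1 : 0 ≤ C1) :
    ∃ C0 : ℝ, 0 < C0 ∧ ∀ Δ : ℝ, 1 ≤ Δ → ∀ᶠ j in (𝒰 : Filter J), ∀ a : ι → ℤ,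
      (∀ i, |(a i : ℝ) - Δ * s (Fin.last k) j / s (cl i) j * al i| ≤ C1) →
      ht (∏ i, (x i).rep j ^ a i) ≤ C0 * s (Fin.last k) j := by
  choose c hc0 hc using fun i => ker_hgt s hs (cl i) (x i) (hgt i)
  have hsum : 0 ≤ ∑ i, c i := Finset.sum_nonneg fun i _ => hc0 i
  refine ⟨1 / 2 + C1 * ∑ i, c i, by positivity, fun Δ hΔ => ?_⟩
  have hΔ0 : (0 : ℝ) < Δ := by linarith
  have hev : ∀ᶠ j in (𝒰 : Filter J), ∀ S : Finset (FinitePlace (K j)),
      ∑ v : Plc (K j) S, |∑ i, al i * lam v ((x i).rep j) / s (cl i) j| ≤ 1 / Δ :=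
    hal (1 / Δ) (by positivity)
  have hne : ∀ᶠ j in (𝒰 : Filter J), ∀ i, (x i).rep j ≠ 0 := by
    rw [Filter.eventually_all]
    exact fun i => Ult.rep_ne_zero (hx i)
  have hht : ∀ᶠ j in (𝒰 : Filter J), ∀ i, ht ((x i).rep j) ≤ c i * s (Fin.last k) j := by
    rw [Filter.eventually_all]
    exact hc
  filter_upwards [hev, hne, hht] with j h1 h2 h3 a ha
  obtain ⟨S, hS⟩ := exists_S (K j) (fun i => (x i).rep j) h2
  have h4 := h1 S
  have hz : ∏ i, (x i).rep j ^ a i ≠ 0 :=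
    Finset.prod_ne_zero_iff.2 fun i _ => zpow_ne_zero _ (h2 i)
  have hoff : Off S (∏ i, (x i).rep j ^ a i) := by
    intro v hv
    rw [map_prod]
    refine Finset.prod_eq_one fun i _ => ?_
    rw [map_zpow₀, hS i v hv, one_zpow]
  have h5 := sum_abs_lam hz hoff
  obtain ⟨L, hL⟩ : ∃ L : ℝ, L = s (Fin.last k) j := ⟨_, rfl⟩
  rw [← hL] at ha h3 ⊢
  have hL1 : 1 ≤ L := by
    rw [hL]
    exact hs.one _ j
  have h6 : ∀ v : Plc (K j) S, |lam v (∏ i, (x i).rep j ^ a i)| ≤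
      ∑ i, C1 * |lam v ((x i).rep j)| +
        Δ * L * |∑ i, al i * lam v ((x i).rep j) / s (cl i) j| := by
    intro v
    have e1 : lam v (∏ i, (x i).rep j ^ a i) =
        ∑ i, ((a i : ℝ) - Δ * L / s (cl i) j * al i) * lam v ((x i).rep j) +
          Δ * L * ∑ i, al i * lam v ((x i).rep j) / s (cl i) j := by
      rw [lam_prod v Finset.univ (fun i => (x i).rep j ^ a i) fun i _ => zpow_ne_zero _ (h2 i),
        Finset.mul_sum, ← Finset.sum_add_distrib]
      refine Finset.sum_congr rfl fun i _ => ?_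
      rw [lam_zpow]
      ring
    rw [e1]
    refine (abs_add_le _ _).trans (add_le_add ?_ (le_of_eq ?_))
    · refine (Finset.abs_sum_le_sum_abs _ _).trans (Finset.sum_le_sum fun i _ => ?_)
      rw [abs_mul]
      exact mul_le_mul_of_nonneg_right (ha i) (abs_nonneg _)
    · rw [abs_mul, abs_of_nonneg (by positivity)]
  have h7 : 2 * ht (∏ i, (x i).rep j ^ a i) ≤ C1 * ∑ i, 2 * (c i * L) + L := by
    rw [← h5]
    calc ∑ v : Plc (K j) S, |lam v (∏ i, (x i).rep j ^ a i)|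
        ≤ ∑ v : Plc (K j) S, (∑ i, C1 * |lam v ((x i).rep j)| +
            Δ * L * |∑ i, al i * lam v ((x i).rep j) / s (cl i) j|) :=
          Finset.sum_le_sum fun v _ => h6 v
      _ = C1 * ∑ i, ∑ v : Plc (K j) S, |lam v ((x i).rep j)| +
            Δ * L * ∑ v : Plc (K j) S, |∑ i, al i * lam v ((x i).rep j) / s (cl i) j| := by
          rw [Finset.sum_add_distrib, Finset.sum_comm, Finset.mul_sum, Finset.mul_sum]
          congr 1
          exact Finset.sum_congr rfl fun i _ => (Finset.mul_sum _ _ _).symm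
      _ ≤ C1 * ∑ i, 2 * (c i * L) + L := by
          refine add_le_add (mul_le_mul_of_nonneg_left (Finset.sum_le_sum fun i _ => ?_) hC1) ?_
          · rw [sum_abs_lam (h2 i) (hS i)]
            exact mul_le_mul_of_nonneg_left (h3 i) (by norm_num)
          · calc Δ * L * ∑ v : Plc (K j) S, |∑ i, al i * lam v ((x i).rep j) / s (cl i) j|
                ≤ Δ * L * (1 / Δ) := mul_le_mul_of_nonneg_left h4 (by positivity)
              _ = L := by field_simp
  have h8 : ∑ i, 2 * (c i * L) = 2 * L * ∑ i, c i := by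
    rw [Finset.mul_sum]
    exact Finset.sum_congr rfl fun i _ => by ring
  rw [h8] at h7
  nlinarith

end Pool.Agent.Zilber
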