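import Mathlib

set_option autoImplicit false

/-! AU4. The lattice argument: rounded multiples of independent vectors, and a box. -/

namespace Pool.Agent.Zilber

/-- **Lattice argument.** `cl` the classes, `q` block diagonal with respect to the classes, `det (∑_i R r i q i b) ≠ 0`. There is
`lam > 0` such that for every `C1` there is `n0` with: if `ν ≥ n0` (a positive real for each class), `a r i` integers with
`|a r i - ν_(cl i) lam R r i| ≤ C1`, `u`, `e` integer vectors with `|e b| ≤ 2 ν_(cb b)` and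
`∑_r u r ∑_i a r i q i b + e b = 0` for all `b`, then `u = 0` and `e = 0`.

Proof. Let `Dm = (∑_i R r i q i b)_(r,b)`. `δ > 0` with `max_b |∑_r u_r Dm r b| ≥ δ max_r |u_r|` for real `u` (invertible
matrix: `u = (u Dm) Dm⁻¹`). Take `lam = 4 / δ`. If `u = 0` then `e b = 0` by the equation. Let `u ≠ 0`, `m = max |u_r| ≥ 1`.
`(∑_i a r i q i b) / ν_b = lam Dm r b + err`, `|err| ≤ C1 ∑_i |q i b| / ν_b` because `q i b ≠ 0` only for `cl i = cb b`
(`ν (cl i) = ν (cb b) =: ν_b`), so `|err| ≤ C1 Q / n0` with `Q = max_b ∑_i |q i b|`. Choose `b` with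
`|∑_r u_r Dm r b| ≥ δ m`: `|e b| / ν_b = |∑_r u_r (lam Dm r b + err)| ≥ lam δ m - card β m C1 Q / n0 ≥ 4 m - m = 3 m > 2` if
`n0 ≥ card β C1 Q + 1`: contradiction. -/
theorem lattice {ι β M : Type} [Fintype ι] [Fintype β] [DecidableEq β]
    (cl : ι → M) (cb : β → M) (q : ι → β → ℚ) (hq : ∀ i b, q i b ≠ 0 → cl i = cb b)
    (R : β → ι → ℝ) (hdet : (Matrix.of fun r b => ∑ i, R r i * (q i b : ℝ)).det ≠ 0) :
    ∃ lam : ℝ, 0 < lam ∧ ∀ C1 : ℝ, 0 ≤ C1 → ∃ n0 : ℝ, 0 < n0 ∧
      ∀ (ν : M → ℝ) (a : β → ι → ℤ) (u e : β → ℤ), (∀ m, n0 ≤ ν m) →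
        (∀ r i, |(a r i : ℝ) - ν (cl i) * (lam * R r i)| ≤ C1) →
        (∀ b, |(e b : ℝ)| ≤ 2 * ν (cb b)) →
        (∀ b, ∑ r, (u r : ℝ) * ∑ i, (a r i : ℝ) * (q i b : ℝ) + e b = 0) → u = 0 ∧ e = 0 := by
  classical
  set D : Matrix β β ℝ := Matrix.of fun r b => ∑ i, R r i * (q i b : ℝ) with hD
  have hu : IsUnit D.det := isUnit_iff_ne_zero.2 hdet
  set S : ℝ := (∑ b, ∑ r, |D⁻¹ b r|) + 1 with hS
  have hS0 : 0 < S := by positivity
  have key : ∀ (u : β → ℝ) (K : ℝ), 0 ≤ K → (∀ b, |∑ r, u r * D r b| ≤ K) →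
      ∀ r, |u r| ≤ K * S := by
    intro u K hK h r
    have h1 : u = Matrix.vecMul (Matrix.vecMul u D) D⁻¹ := by
      rw [Matrix.vecMul_vecMul, Matrix.mul_nonsing_inv _ hu, Matrix.vecMul_one]
    have h2 : u r = ∑ b, (∑ s, u s * D s b) * D⁻¹ b r := by
      conv_lhs => rw [h1]
      rfl
    rw [h2]
    calc |∑ b, (∑ s, u s * D s b) * D⁻¹ b r|
        ≤ ∑ b, |(∑ s, u s * D s b) * D⁻¹ b r| := Finset.abs_sum_le_sum_abs _ _
      _ ≤ ∑ b, K * |D⁻¹ b r| := by
        refine Finset.sum_le_sum fun b _ => ?_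
        rw [abs_mul]
        exact mul_le_mul_of_nonneg_right (h b) (abs_nonneg _)
      _ = K * ∑ b, |D⁻¹ b r| := by rw [Finset.mul_sum]
      _ ≤ K * S := by
        refine mul_le_mul_of_nonneg_left ?_ hK
        have h3 : ∑ b, |D⁻¹ b r| ≤ ∑ b, ∑ r, |D⁻¹ b r| :=
          Finset.sum_le_sum fun b _ =>
            Finset.single_le_sum (f := fun r => |D⁻¹ b r|) (fun _ _ => abs_nonneg _)
              (Finset.mem_univ r)
        rw [hS]
        linarith
  refine ⟨4 * S, by positivity, fun C1 hC1 => ?_⟩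
  set Q : ℝ := ∑ i, ∑ b, |(q i b : ℝ)| with hQ
  have hQ0 : 0 ≤ Q := Finset.sum_nonneg fun _ _ => Finset.sum_nonneg fun _ _ => abs_nonneg _
  refine ⟨Fintype.card β * (C1 * Q) + 1, by positivity, ?_⟩
  intro ν a u e hν ha he heq
  suffices hu0 : u = 0 by
    refine ⟨hu0, funext fun b => ?_⟩
    have h1 := heq b
    rw [hu0] at h1
    simp only [Pi.zero_apply, Int.cast_zero, zero_mul, Finset.sum_const_zero, zero_add] at h1
    exact_mod_cast h1
  by_contra hne
  obtain ⟨s, hs⟩ : ∃ s, u s ≠ 0 := by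
    by_contra h
    push Not at h
    exact hne (funext h)
  obtain ⟨r₀, -, hr₀⟩ := Finset.exists_max_image (Finset.univ : Finset β) (fun r => |(u r : ℝ)|)
    ⟨s, Finset.mem_univ s⟩
  set m : ℝ := |(u r₀ : ℝ)| with hm
  have hm1 : 1 ≤ m := by
    have h1 : (1 : ℝ) ≤ |(u s : ℝ)| := by exact_mod_cast Int.one_le_abs hs
    exact h1.trans (hr₀ s (Finset.mem_univ s))
  have hw : ∀ b, |∑ r, (u r : ℝ) * D r b| ≤ 3 * m / (4 * S) := by
    intro b
    have hνb := hν (cb b)
    have hν1 : 1 ≤ ν (cb b) := by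
      have h0 : (0 : ℝ) ≤ Fintype.card β * (C1 * Q) := by positivity
      linarith
    set ε : β → ι → ℝ := fun r i => (a r i : ℝ) - ν (cl i) * (4 * S * R r i) with hε
    have h1 : ∀ r, ∑ i, (a r i : ℝ) * (q i b : ℝ) =
        ν (cb b) * (4 * S) * D r b + ∑ i, ε r i * (q i b : ℝ) := by
      intro r
      have h2 : D r b = ∑ i, R r i * (q i b : ℝ) := rfl
      rw [h2, Finset.mul_sum, ← Finset.sum_add_distrib]
      refine Finset.sum_congr rfl fun i _ => ?_
      by_cases hq0 : q i b = 0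
      · rw [hq0]
        simp
      · rw [hε]
        simp only
        rw [hq i b hq0]
        ring
    have h3 : ν (cb b) * (4 * S) * ∑ r, (u r : ℝ) * D r b =
        -(e b : ℝ) - ∑ r, (u r : ℝ) * ∑ i, ε r i * (q i b : ℝ) := by
      have h4 := heq b
      simp only [h1, mul_add, Finset.sum_add_distrib] at h4
      rw [Finset.mul_sum]
      have h5 : ∑ r, ν (cb b) * (4 * S) * ((u r : ℝ) * D r b) =
          ∑ r, (u r : ℝ) * (ν (cb b) * (4 * S) * D r b) :=
        Finset.sum_congr rfl fun r _ => by ring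
      rw [h5]
      linarith
    have h6 : |∑ r, (u r : ℝ) * ∑ i, ε r i * (q i b : ℝ)| ≤ m * (Fintype.card β * (C1 * Q)) := by
      calc |∑ r, (u r : ℝ) * ∑ i, ε r i * (q i b : ℝ)|
          ≤ ∑ r, |(u r : ℝ) * ∑ i, ε r i * (q i b : ℝ)| := Finset.abs_sum_le_sum_abs _ _
        _ ≤ ∑ _r : β, m * (C1 * Q) := by
          refine Finset.sum_le_sum fun r _ => ?_
          rw [abs_mul]
          refine mul_le_mul (hr₀ r (Finset.mem_univ r)) ?_ (abs_nonneg _) (by positivity)
          calc |∑ i, ε r i * (q i b : ℝ)| ≤ ∑ i, |ε r i * (q i b : ℝ)| :=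
                Finset.abs_sum_le_sum_abs _ _
            _ ≤ ∑ i, C1 * |(q i b : ℝ)| := by
              refine Finset.sum_le_sum fun i _ => ?_
              rw [abs_mul]
              exact mul_le_mul_of_nonneg_right (ha r i) (abs_nonneg _)
            _ = C1 * ∑ i, |(q i b : ℝ)| := by rw [Finset.mul_sum]
            _ ≤ C1 * Q := by
              refine mul_le_mul_of_nonneg_left ?_ hC1
              exact Finset.sum_le_sum fun i _ =>
                Finset.single_le_sum (f := fun b => |(q i b : ℝ)|) (fun _ _ => abs_nonneg _)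
                  (Finset.mem_univ b)
        _ = m * (Fintype.card β * (C1 * Q)) := by
          rw [Finset.sum_const, Finset.card_univ, nsmul_eq_mul]
          ring
    have h7 : |ν (cb b) * (4 * S) * ∑ r, (u r : ℝ) * D r b| ≤ 3 * m * ν (cb b) := by
      rw [h3]
      have h8 := abs_sub (-(e b : ℝ)) (∑ r, (u r : ℝ) * ∑ i, ε r i * (q i b : ℝ))
      rw [abs_neg] at h8
      have h9 := he b
      have h10 : m * (Fintype.card β * (C1 * Q)) ≤ m * ν (cb b) :=
        mul_le_mul_of_nonneg_left (by linarith) (by linarith)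
      have h11 : 1 * ν (cb b) ≤ m * ν (cb b) := mul_le_mul_of_nonneg_right hm1 (by linarith)
      linarith
    rw [abs_mul, abs_of_pos (show 0 < ν (cb b) * (4 * S) by positivity)] at h7
    rw [le_div_iff₀ (by positivity)]
    have h12 : 0 < ν (cb b) := by linarith
    refine le_of_mul_le_mul_left ?_ h12
    calc ν (cb b) * (|∑ r, (u r : ℝ) * D r b| * (4 * S))
        = ν (cb b) * (4 * S) * |∑ r, (u r : ℝ) * D r b| := by ring
      _ ≤ 3 * m * ν (cb b) := h7
      _ = ν (cb b) * (3 * m) := by ring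
  have h13 := key (fun r => (u r : ℝ)) (3 * m / (4 * S)) (by positivity) hw r₀
  have h14 : 3 * m / (4 * S) * S = 3 / 4 * m := by
    field_simp
  rw [h14] at h13
  linarith

end Pool.Agent.Zilber
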