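import Pool.Agent.Zilber.AUSc

set_option autoImplicit false

/-! AU2b. The mass of the sets `S(c)`. -/

namespace Pool.Agent.Zilber

open NumberField Pool.Agent.LAll

section aux

variable {K : Type} [Field K] [NumberField K] {S : Finset (FinitePlace K)}

/-- the height of a sum with a natural number -/
private theorem ms_ht (y : K) (c N0 : ℕ) (hc : 1 ≤ c) (hcN : c ≤ N0) (hx : y - (c : K) ≠ 0)
    (hoff : Off S (y - (c : K))) (hy : IntOff S y) :
    ht y ≤ ht (y - (c : K)) + (Real.log N0 + Real.log 2) := by
  have hN1 : (1 : ℝ) ≤ N0 := by exact_mod_cast hc.trans hcN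
  have hlN : 0 ≤ Real.log N0 := Real.log_nonneg hN1
  have hl2 : 0 ≤ Real.log 2 := Real.log_nonneg (by norm_num)
  rcases eq_or_ne y 0 with h0 | h0
  · have h1 : ht y = 0 := by
      rw [h0]
      unfold ht
      rw [Height.logHeight₁_zero, zero_div]
    rw [h1]
    have := ht_nonneg (y - (c : K))
    linarith
  · rw [← sum_max_lam h0 hy, ← sum_max_lam hx (off_iff_intOff hoff)]
    have h1 : Real.log N0 + Real.log 2 =
        ∑ v : Plc K S, wt v * (Real.log N0 + Real.log 2) := by
      rw [← Finset.sum_mul, sum_wt, one_mul]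
    rw [h1, ← Finset.sum_add_distrib]
    refine Finset.sum_le_sum fun v _ => ?_
    have hw := wt_nonneg v
    have hc0 : ((c : ℕ) : ℤ) ≠ 0 := by exact_mod_cast (Nat.one_le_iff_ne_zero.1 hc)
    have h2 : lam v (c : K) ≤ wt v * Real.log N0 := by
      have h3 := lam_int_le v (c : ℤ) hc0
      rw [Int.cast_natCast, Int.cast_natCast, abs_of_nonneg (Nat.cast_nonneg c)] at h3
      refine h3.trans (mul_le_mul_of_nonneg_left ?_ hw)
      refine Real.log_le_log (by exact_mod_cast hc) (by exact_mod_cast hcN)
    have h4 : lam v y ≤ (max (lam v (y - (c : K))) 0 + wt v * Real.log N0) +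
        wt v * Real.log 2 := by
      have h5 : y = ∑ a : Bool, (if a then y - (c : K) else (c : K)) := by
        rw [Fintype.sum_bool]
        simp
      have h6 := lam_sum_le v (Finset.univ : Finset Bool)
        (fun a => if a then y - (c : K) else (c : K))
        (max (lam v (y - (c : K))) 0 + wt v * Real.log N0) 2 (by simp) (by
          intro a _ _
          have h7 : 0 ≤ wt v * Real.log N0 := mul_nonneg hw hlN
          have h8 := le_max_left (lam v (y - (c : K))) 0
          have h9 := le_max_right (lam v (y - (c : K))) 0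
          cases a
          · simp only [Bool.false_eq_true, if_false]
            linarith
          · simp only [if_true]
            linarith) (by rw [← h5]; exact h0)
      rwa [← h5] at h6
    refine max_le ?_ ?_
    · rw [mul_add]
      linarith
    · have h8 := le_max_right (lam v (y - (c : K))) 0
      have h9 : 0 ≤ wt v * (Real.log N0 + Real.log 2) := mul_nonneg hw (by linarith)
      linarith

/-- outside `S(c)` the element `y - c` is not small -/
private theorem ms_out (y : K) (c N0 : ℕ) (v : Plc K S) (hx : y - (c : K) ≠ 0)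
    (h : ¬ InSc y N0 c v) :
    max (-lam v (y - (c : K))) 0 ≤ wt v * Real.log 2 +
      (wt v * Real.log (N0.factorial : ℝ) - lam v ((N0.factorial : ℕ) : K)) := by
  have hf0 : ((N0.factorial : ℕ) : ℤ) ≠ 0 := by exact_mod_cast N0.factorial_ne_zero
  have h1 : lam v ((N0.factorial : ℕ) : K) ≤ wt v * Real.log (N0.factorial : ℝ) := by
    have h3 := lam_int_le v ((N0.factorial : ℕ) : ℤ) hf0
    rwa [Int.cast_natCast, Int.cast_natCast, abs_of_nonneg (Nat.cast_nonneg _)] at h3
  have hl2 : 0 ≤ Real.log 2 := Real.log_nonneg (by norm_num)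
  have hw := wt_nonneg v
  have hwl := mul_nonneg hw hl2
  refine max_le ?_ (by linarith)
  have hn : (0 : ℝ) < Module.finrank ℚ K := by exact_mod_cast Module.finrank_pos
  rcases v with v | v
  · have h2 : (1 / 2 : ℝ) ≤ v (y - (c : K)) := not_lt.1 h
    have h3 := Real.log_le_log (by norm_num) h2
    have h4 : Real.log (1 / 2 : ℝ) = -Real.log 2 := by rw [one_div, Real.log_inv]
    rw [h4] at h3
    have h5 : -lam (Sum.inl v : Plc K S) (y - (c : K)) ≤
        wt (Sum.inl v : Plc K S) * Real.log 2 := by
      change -((v.mult : ℝ) * Real.log (v (y - (c : K))) / Module.finrank ℚ K) ≤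
        (v.mult : ℝ) / Module.finrank ℚ K * Real.log 2
      have h6 : (0 : ℝ) ≤ (v.mult : ℝ) / Module.finrank ℚ K :=
        div_nonneg (Nat.cast_nonneg _) hn.le
      have h7 := mul_le_mul_of_nonneg_left h3 h6
      have h8 : (v.mult : ℝ) * Real.log (v (y - (c : K))) / Module.finrank ℚ K =
          (v.mult : ℝ) / Module.finrank ℚ K * Real.log (v (y - (c : K))) := by ring
      rw [h8]
      linarith
    linarith
  · have h2 : v.1 ((N0.factorial : ℕ) : K) ≤ v.1 (y - (c : K)) := not_lt.1 h
    have hfK : ((N0.factorial : ℕ) : K) ≠ 0 := by exact_mod_cast N0.factorial_ne_zero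
    have h3 := Real.log_le_log (ab_pos (Sum.inr v : Plc K S) hfK) h2
    have h5 : lam (Sum.inr v : Plc K S) ((N0.factorial : ℕ) : K) ≤
        lam (Sum.inr v : Plc K S) (y - (c : K)) := by
      change (1 : ℝ) * Real.log (v.1 ((N0.factorial : ℕ) : K)) / Module.finrank ℚ K ≤
        (1 : ℝ) * Real.log (v.1 (y - (c : K))) / Module.finrank ℚ K
      rw [one_mul, one_mul]
      exact div_le_div_of_nonneg_right h3 hn.le
    have h6 : wt (Sum.inr v : Plc K S) = 0 := rfl
    rw [h6]
    linarith

end aux

open Classical in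
/-- **The mass of `S(c)`** is at least `ht y - C`, where `C` depends on `N₀` only.

Proof. `ht (y - c) = ht ((y - c)⁻¹) = ∑_v max 0 (- lam v (y - c))` (`sum_max_lam` for the inverse, which is a unit outside
`S`). For `v` outside `S(c)` : finite: `|y - c|_v ≥ |N₀!|_v`, so `max 0 (-lam v (y-c)) ≤ - lam v (N₀!)`, and the sum of these
over finite places is `≤ ∑` over the infinite places of `lam v (N₀!)` `= log N₀!` (`sum_lam` / product formula;
`N₀!` must be a unit outside `S`: hypothesis `hN`); infinite: `≤ wt v log 2`, sum `≤ log 2`. And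
`ht y ≤ ht (y - c) + ht c + log 2` (`ht` of a sum; `ht (c : K) ≤ log N₀`; see `ht_add` in LSharp/UDefs, not imported here:
use the triangle inequality place by place: `max 0 (lam v y) ≤ max 0 (lam v (y-c)) + wt v (log 2 + log N₀)`).
On `S(c)` : `max 0 (-lam v (y - c)) = - lam v (y - c)` (`InSc.lam_nonpos`). -/
theorem mass_Sc (N0 : ℕ) : ∃ C : ℝ, ∀ (K : Type) [Field K] [NumberField K]
    (S : Finset (FinitePlace K)) (y : K) (c : ℕ), 1 ≤ c → c ≤ N0 → y - (c : K) ≠ 0 →
    Off S (y - (c : K)) → Off S ((N0.factorial : ℕ) : K) → IntOff S y →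
    ht y - C ≤ ∑ v ∈ (Finset.univ : Finset (Plc K S)).filter (fun v => InSc y N0 c v),
      -lam v (y - (c : K)) := by
  refine ⟨(Real.log 2 + Real.log (N0.factorial : ℝ)) + (Real.log N0 + Real.log 2), ?_⟩
  intro K _ _ S y c hc hcN hx hoff hN hy
  have h1 := ms_ht y c N0 hc hcN hx hoff hy
  -- the height of `y - c` as a sum of negative parts
  have hinv : Off S (y - (c : K))⁻¹ := by
    intro v hv
    rw [map_inv₀, hoff v hv, inv_one]
  have h2 : ht (y - (c : K)) = ∑ v : Plc K S, max (-lam v (y - (c : K))) 0 := by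
    rw [← ht_inv, ← sum_max_lam (inv_ne_zero hx) (off_iff_intOff hinv)]
    exact Finset.sum_congr rfl fun v _ => by rw [lam_inv]
  rw [← Finset.sum_filter_add_sum_filter_not Finset.univ (fun v : Plc K S => InSc y N0 c v)]
    at h2
  have h3 : ∑ v ∈ (Finset.univ : Finset (Plc K S)).filter (fun v => InSc y N0 c v),
      max (-lam v (y - (c : K))) 0 =
      ∑ v ∈ (Finset.univ : Finset (Plc K S)).filter (fun v => InSc y N0 c v),
        -lam v (y - (c : K)) := by
    refine Finset.sum_congr rfl fun v hv => ?_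
    have h4 := InSc.lam_nonpos y N0 c v hx (Finset.mem_filter.1 hv).2
    exact max_eq_left (by linarith)
  have hfK : ((N0.factorial : ℕ) : K) ≠ 0 := by exact_mod_cast N0.factorial_ne_zero
  have h5 : ∑ v ∈ (Finset.univ : Finset (Plc K S)).filter (fun v => ¬ InSc y N0 c v),
      max (-lam v (y - (c : K))) 0 ≤ Real.log 2 + Real.log (N0.factorial : ℝ) := by
    have h6 : Real.log 2 + Real.log (N0.factorial : ℝ) = ∑ v : Plc K S, (wt v * Real.log 2 +
        (wt v * Real.log (N0.factorial : ℝ) - lam v ((N0.factorial : ℕ) : K))) := by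
      rw [Finset.sum_add_distrib, Finset.sum_sub_distrib, ← Finset.sum_mul, ← Finset.sum_mul,
        sum_wt, sum_lam hfK hN]
      ring
    rw [h6]
    refine (Finset.sum_le_sum fun v hv =>
      ms_out y c N0 v hx (Finset.mem_filter.1 hv).2).trans ?_
    refine Finset.sum_le_sum_of_subset_of_nonneg (Finset.filter_subset _ _) fun v _ _ => ?_
    have hw := wt_nonneg v
    have hl2 : 0 ≤ Real.log 2 := Real.log_nonneg (by norm_num)
    have hf0 : ((N0.factorial : ℕ) : ℤ) ≠ 0 := by exact_mod_cast N0.factorial_ne_zero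
    have h7 := lam_int_le v ((N0.factorial : ℕ) : ℤ) hf0
    rw [Int.cast_natCast, Int.cast_natCast, abs_of_nonneg (Nat.cast_nonneg _)] at h7
    have := mul_nonneg hw hl2
    linarith
  rw [h3] at h2
  linarith

end Pool.Agent.Zilber
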