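import Pool.Agent.LAll.Places

set_option autoImplicit false

/-! AU2. The sets `S(c)` of places where `y - c` is small: disjoint, large mass; choice of `c`. -/

namespace Pool.Agent.Zilber

open NumberField Pool.Agent.LAll

variable {K : Type} [Field K] [NumberField K] {S : Finset (FinitePlace K)}

/-- The place `v` is in `S(c)`: `|y - c|_v < 1/2` (infinite), `< |N₀!|_v` (finite). -/
def InSc (y : K) (N0 : ℕ) (c : ℕ) (v : Plc K S) : Prop :=
  ab v (y - (c : K)) < Sum.elim (fun _ : InfinitePlace K => (1 / 2 : ℝ))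
    (fun w : {v : FinitePlace K // v ∈ S} => w.1 ((N0.factorial : ℕ) : K)) v

omit [NumberField K] in
private theorem ausc_inf_int (v : InfinitePlace K) (n : ℤ) : v (n : K) = |(n : ℝ)| := by
  rcases Int.natAbs_eq n with h | h
  · rw [h]
    simp only [Int.cast_natCast, InfinitePlace.map_natCast, Nat.abs_cast]
  · rw [h]
    have e : v (-((n.natAbs : ℕ) : K)) = v ((n.natAbs : ℕ) : K) := v.1.map_neg _
    simp only [Int.cast_neg, Int.cast_natCast, abs_neg, Nat.abs_cast]
    rw [e, InfinitePlace.map_natCast]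

private theorem ausc_fin_nat (v : FinitePlace K) (p : ℕ) : v (p : K) ≤ 1 := by
  have h := NumberField.FinitePlace.norm_le_one K v.maximalIdeal (p : 𝓞 K)
  rw [FinitePlace.norm_embedding_eq] at h
  simpa using h

/-- The sets `S(c)`, `1 ≤ c ≤ N₀`, are disjoint.

Proof. Infinite `v`: `|c - c'| ≤ |y - c| + |y - c'| < 1` for integers `c ≠ c'` is impossible. Finite `v`:
`|c - c'|_v ≤ max < |N₀!|_v`, but `c - c'` divides `N₀!` (`0 < |c - c'| < N₀`: `Nat.dvd_factorial`), so
`|N₀!|_v ≤ |c - c'|_v` (integers have absolute value `≤ 1`). -/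
theorem InSc.disj (y : K) (N0 c c' : ℕ) (hc : 1 ≤ c) (hc' : 1 ≤ c') (hcN : c ≤ N0)
    (hcN' : c' ≤ N0) (hne : c ≠ c') (v : Plc K S) (h : InSc y N0 c v) (h' : InSc y N0 c' v) :
    False := by
  obtain ⟨n, hn⟩ : ∃ n : ℤ, n = (c' : ℤ) - c := ⟨_, rfl⟩
  have hn0 : n ≠ 0 := by omega
  have hnK : (n : K) = (y - (c : K)) + -(y - (c' : K)) := by
    rw [hn]
    push_cast
    ring
  rcases v with v | v
  · have h1 : v (y - (c : K)) < 1 / 2 := h
    have h2 : v (y - (c' : K)) < 1 / 2 := h'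
    have h3 : v ((y - (c : K)) + -(y - (c' : K))) ≤ v (y - (c : K)) + v (-(y - (c' : K))) :=
      v.1.add_le _ _
    have h4 : v (-(y - (c' : K))) = v (y - (c' : K)) := v.1.map_neg _
    rw [← hnK, ausc_inf_int, h4] at h3
    have h5 : (1 : ℝ) ≤ |(n : ℝ)| := by
      have h6 : (1 : ℤ) ≤ |n| := Int.one_le_abs hn0
      rw [← Int.cast_abs]
      exact_mod_cast h6
    linarith
  · have h1 : v.1 (y - (c : K)) < v.1 ((N0.factorial : ℕ) : K) := h
    have h2 : v.1 (y - (c' : K)) < v.1 ((N0.factorial : ℕ) : K) := h'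
    have h3 : v.1 (n : K) ≤ max (v.1 (y - (c : K))) (v.1 (-(y - (c' : K)))) := by
      rw [hnK]
      exact FinitePlace.add_le v.1 _ _
    rw [map_neg_eq_map] at h3
    have h4 : v.1 (n : K) < v.1 ((N0.factorial : ℕ) : K) := h3.trans_lt (max_lt h1 h2)
    obtain ⟨k, hk⟩ : n.natAbs ∣ N0.factorial := Nat.dvd_factorial (by omega) (by omega)
    have h5 : v.1 (n : K) = v.1 ((n.natAbs : ℕ) : K) := by
      rcases Int.natAbs_eq n with h6 | h6
      · conv_lhs => rw [h6]
        rw [Int.cast_natCast]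
      · conv_lhs => rw [h6]
        rw [Int.cast_neg, Int.cast_natCast, map_neg_eq_map]
    rw [h5, hk, Nat.cast_mul, map_mul] at h4
    have h6 := ausc_fin_nat v.1 k
    have h7 : v.1 ((n.natAbs : ℕ) : K) * v.1 ((k : ℕ) : K) ≤ v.1 ((n.natAbs : ℕ) : K) :=
      mul_le_of_le_one_right (apply_nonneg _ _) h6
    linarith

/-- On `S(c)` the element `y - c` is small: `lam v (y - c) ≤ 0`. -/
theorem InSc.lam_nonpos (y : K) (N0 c : ℕ) (v : Plc K S) (hyc : y - (c : K) ≠ 0)
    (h : InSc y N0 c v) : lam v (y - (c : K)) ≤ 0 := by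
  have hfr : (0 : ℝ) < Module.finrank ℚ K := by exact_mod_cast Module.finrank_pos
  have hd : 0 ≤ dg v := by
    rcases v with v | v
    · exact Nat.cast_nonneg (α := ℝ) v.mult
    · exact zero_le_one
  have h1 : ab v (y - (c : K)) ≤ 1 := by
    rcases v with v | v
    · have h2 : v (y - (c : K)) < 1 / 2 := h
      change v (y - (c : K)) ≤ 1
      linarith
    · have h2 : v.1 (y - (c : K)) < v.1 ((N0.factorial : ℕ) : K) := h
      exact (h2.trans_le (ausc_fin_nat v.1 _)).le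
  unfold lam
  refine div_nonpos_of_nonpos_of_nonneg ?_ hfr.le
  exact mul_nonpos_of_nonneg_of_nonpos hd (Real.log_nonpos (ab_nonneg v _) h1)

open Classical in
/-- **Choice of `c`** (pigeonhole): for a nonnegative function `m` on the places there is `c` in `1..N₀` with
`∑_(v in S(c)) m v ≤ (∑ m) / N₀`. (Disjointness: the sum over `c` of the left sides is `≤ ∑ m`.) -/
theorem exists_c (y : K) (N0 : ℕ) (hN : 1 ≤ N0) (m : Plc K S → ℝ) (hm : ∀ v, 0 ≤ m v) :
    ∃ c : ℕ, 1 ≤ c ∧ c ≤ N0 ∧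
      ∑ v ∈ (Finset.univ : Finset (Plc K S)).filter (fun v => InSc y N0 c v), m v ≤
        (∑ v, m v) / N0 := by
  have hN0 : (N0 : ℝ) ≠ 0 := by
    have : N0 ≠ 0 := by omega
    exact_mod_cast this
  have hne : (Finset.Icc 1 N0).Nonempty := ⟨1, Finset.mem_Icc.2 ⟨le_rfl, hN⟩⟩
  have key : ∑ c ∈ Finset.Icc 1 N0,
      ∑ v ∈ (Finset.univ : Finset (Plc K S)).filter (fun v => InSc y N0 c v), m v ≤
      ∑ _c ∈ Finset.Icc 1 N0, (∑ v, m v) / N0 := by
    rw [Finset.sum_const, Nat.card_Icc, Nat.add_sub_cancel, nsmul_eq_mul, mul_div_cancel₀ _ hN0]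
    rw [Finset.sum_congr rfl fun c _ => Finset.sum_filter (fun v => InSc y N0 c v) m,
      Finset.sum_comm]
    refine Finset.sum_le_sum fun v _ => ?_
    by_cases hex : ∃ c ∈ Finset.Icc 1 N0, InSc y N0 c v
    · obtain ⟨c, hc, h⟩ := hex
      rw [Finset.sum_eq_single c]
      · rw [if_pos h]
      · intro c' hc' hcc
        rw [Finset.mem_Icc] at hc hc'
        exact if_neg fun h' => InSc.disj y N0 c' c hc'.1 hc.1 hc'.2 hc.2 hcc v h' h
      · intro h'
        exact absurd hc h'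
    · rw [Finset.sum_eq_zero]
      · exact hm v
      · intro c hc
        exact if_neg fun h => hex ⟨c, hc, h⟩
  obtain ⟨c, hc, h⟩ := Finset.exists_le_of_sum_le hne key
  rw [Finset.mem_Icc] at hc
  exact ⟨c, hc.1, hc.2, h⟩

end Pool.Agent.Zilber
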