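import Pool.Agent.Zilber.Defs
import Pool.Agent.Zilber.AUKer

set_option autoImplicit false

/-! AV5. The degrees `n_l = ⌈Δ s_k / s_l⌉` and the size `M0 = ∑ n_l κ_l = o(Δ s_k)`. -/

namespace Pool.Agent.Zilber.CA

open Filter Topology NumberField Pool.Agent.LAll Pool.Agent.LSharp

variable {J : Type} {𝒰 : Ultrafilter J} {K : J → Type} [∀ j, Field (K j)] [∀ j, NumberField (K j)]
  {k : ℕ}

/-- The degrees. -/
noncomputable def nD (s : Fin (k + 1) → J → ℝ) (Δ : ℝ) (j : J)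
    (a : {l : Fin (k + 1) // l ≠ 0}) : ℕ :=
  ⌈Δ * s (Fin.last k) j / s a.1 j⌉₊

/-- The size of the coefficients. -/
noncomputable def mD (s : Fin (k + 1) → J → ℝ) (Δ : ℝ) (κ : {l : Fin (k + 1) // l ≠ 0} → J → ℝ)
    (j : J) : ℝ :=
  ∑ a, (nD s Δ j a : ℝ) * max 1 (κ a j)

/-- Elementary bounds. (`s l ≤ s_k` for most `j`: `scl_le`; `ν = Δ s_k / s_l ≥ Δ ≥ 1`, `ν ≤ ⌈ν⌉ ≤ ν
+ 1 ≤ 2 ν`.) -/
theorem nD_bounds (s : Fin (k + 1) → J → ℝ) (hs : Scl 𝒰 s) (Δ : ℝ) (hΔ : 1 ≤ Δ) :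
    ∀ᶠ j in (𝒰 : Filter J), ∀ a : {l : Fin (k + 1) // l ≠ 0},
      Δ ≤ Δ * s (Fin.last k) j / s a.1 j ∧ 1 ≤ nD s Δ j a ∧
      Δ * s (Fin.last k) j / s a.1 j ≤ nD s Δ j a ∧
      (nD s Δ j a : ℝ) ≤ 2 * (Δ * s (Fin.last k) j / s a.1 j) ∧
      Δ * s (Fin.last k) j ≤ nD s Δ j a * s a.1 j ∧
      nD s Δ j a * s a.1 j ≤ 2 * (Δ * s (Fin.last k) j) := by
  have h0 : ∀ᶠ j in (𝒰 : Filter J), ∀ a : {l : Fin (k + 1) // l ≠ 0},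
      s a.1 j ≤ s (Fin.last k) j := by
    rw [Filter.eventually_all]
    exact fun a => scl_le s hs a.1 (Fin.last k) (Fin.le_last _)
  filter_upwards [h0] with j hj a
  have h1 : (0 : ℝ) < s a.1 j := lt_of_lt_of_le one_pos (hs.one a.1 j)
  have hΔ0 : (0 : ℝ) < Δ := lt_of_lt_of_le one_pos hΔ
  have h2 : Δ ≤ Δ * s (Fin.last k) j / s a.1 j := by
    rw [le_div_iff₀ h1]
    exact mul_le_mul_of_nonneg_left (hj a) hΔ0.le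
  obtain ⟨ν, hν⟩ : ∃ ν : ℝ, ν = Δ * s (Fin.last k) j / s a.1 j := ⟨_, rfl⟩
  have h3 : ν * s a.1 j = Δ * s (Fin.last k) j := by
    rw [hν, div_mul_cancel₀ _ h1.ne']
  have h4 : nD s Δ j a = ⌈ν⌉₊ := by
    rw [hν]
    rfl
  rw [h4, ← hν]
  rw [← hν] at h2
  have h5 : ν ≤ (⌈ν⌉₊ : ℝ) := Nat.le_ceil ν
  have h6 : (⌈ν⌉₊ : ℝ) < ν + 1 := Nat.ceil_lt_add_one (by linarith)
  have h7 : (⌈ν⌉₊ : ℝ) ≤ 2 * ν := by linarith
  refine ⟨h2, Nat.one_le_iff_ne_zero.2 (Nat.ceil_pos.2 (by linarith)).ne', h5, h7, ?_, ?_⟩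
  · rw [← h3]
    exact mul_le_mul_of_nonneg_right h5 h1.le
  · rw [← h3, ← mul_assoc]
    exact mul_le_mul_of_nonneg_right h7 h1.le

private theorem nD_ratio_lt (s : Fin (k + 1) → J → ℝ) (hs : Scl 𝒰 s) (Δ : ℝ) (hΔ : 1 ≤ Δ)
    (a a' : {l : Fin (k + 1) // l ≠ 0}) (h : a.1 < a'.1) :
    Tendsto (fun j => (nD s Δ j a' : ℝ) / nD s Δ j a) (𝒰 : Filter J) (𝓝 0) := by
  have h1 : Tendsto (fun j => 2 * (s a.1 j / s a'.1 j)) (𝒰 : Filter J) (𝓝 0) := by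
    have := (hs.sep a.1 a'.1 h).const_mul 2
    rwa [mul_zero] at this
  refine squeeze_zero' (Filter.Eventually.of_forall fun j => by positivity) ?_ h1
  filter_upwards [nD_bounds s hs Δ hΔ] with j hj
  obtain ⟨-, b1, -, -, b2, -⟩ := hj a
  obtain ⟨-, -, -, -, -, b3⟩ := hj a'
  have h2 : (0 : ℝ) < s a'.1 j := lt_of_lt_of_le one_pos (hs.one a'.1 j)
  have h3 : (0 : ℝ) < nD s Δ j a := by exact_mod_cast b1
  rw [div_le_iff₀ h3, mul_assoc, div_mul_eq_mul_div, ← mul_div_assoc, le_div_iff₀ h2]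
  linarith

/-- The ratios of the degrees. (For `a < a'`: `n_(a') / n_a ≤ 2 ν_(a') / ν_a = 2 s_a / s_(a') →
0`.) -/
theorem nD_ratio (s : Fin (k + 1) → J → ℝ) (hs : Scl 𝒰 s) (Δ : ℝ) (hΔ : 1 ≤ Δ)
    (a a' : {l : Fin (k + 1) // l ≠ 0}) (h : a ≠ a') :
    Tendsto (fun j => (nD s Δ j a : ℝ) / nD s Δ j a') (𝒰 : Filter J) (𝓝 0) ∨
      Tendsto (fun j => (nD s Δ j a' : ℝ) / nD s Δ j a) (𝒰 : Filter J) (𝓝 0) := by
  rcases lt_or_gt_of_ne (fun h' => h (Subtype.ext h') : a.1 ≠ a'.1) with h1 | h1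
  · exact Or.inr (nD_ratio_lt s hs Δ hΔ a a' h1)
  · exact Or.inl (nD_ratio_lt s hs Δ hΔ a' a h1)

/-- `M0 = o(T)`. (`n_a max 1 κ_a ≤ 2 T max 1 κ_a / s_a`, and `max 1 κ_a ≤ ε s_a` for most `j`: `κ_a
= o(s_a)`, `s_a → ∞` by
`scl_tendsto`.) -/
theorem mD_small (s : Fin (k + 1) → J → ℝ) (hs : Scl 𝒰 s) (Δ : ℝ) (hΔ : 1 ≤ Δ)
    (κ : {l : Fin (k + 1) // l ≠ 0} → J → ℝ) (hκ : ∀ a, Oo 𝒰 (κ a) (s a.1)) (ε : ℝ) (hε : 0 < ε) :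
    ∀ᶠ j in (𝒰 : Filter J), mD s Δ κ j ≤ ε * (Δ * s (Fin.last k) j) := by
  obtain ⟨N, hN⟩ : ∃ N : ℝ, N = (Fintype.card {l : Fin (k + 1) // l ≠ 0} : ℝ) := ⟨_, rfl⟩
  have hN0 : 0 ≤ N := by
    rw [hN]
    positivity
  obtain ⟨δ, hδ⟩ : ∃ δ : ℝ, δ = ε / (2 * (N + 1)) := ⟨_, rfl⟩
  have hδ0 : 0 < δ := by
    rw [hδ]
    positivity
  have h0 : ∀ᶠ j in (𝒰 : Filter J), ∀ a : {l : Fin (k + 1) // l ≠ 0},
      max 1 (κ a j) ≤ δ * s a.1 j := by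
    rw [Filter.eventually_all]
    intro a
    filter_upwards [hκ a δ hδ0, tendsto_atTop.1 (scl_tendsto s hs a.1 a.2) (1 / δ)] with j h1 h2
    have h3 : (0 : ℝ) < s a.1 j := lt_of_lt_of_le one_pos (hs.one a.1 j)
    rw [abs_of_pos h3] at h1
    rw [div_le_iff₀ hδ0] at h2
    exact max_le (by linarith) h1
  filter_upwards [h0, nD_bounds s hs Δ hΔ] with j h1 h2
  have hT : 0 ≤ Δ * s (Fin.last k) j :=
    mul_nonneg (by linarith) (zero_le_one.trans (hs.one _ j))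
  unfold mD
  have h3 : ∀ a ∈ (Finset.univ : Finset {l : Fin (k + 1) // l ≠ 0}),
      (nD s Δ j a : ℝ) * max 1 (κ a j) ≤ δ * (2 * (Δ * s (Fin.last k) j)) := by
    intro a _
    obtain ⟨-, -, -, -, -, b⟩ := h2 a
    calc (nD s Δ j a : ℝ) * max 1 (κ a j) ≤ nD s Δ j a * (δ * s a.1 j) :=
          mul_le_mul_of_nonneg_left (h1 a) (Nat.cast_nonneg _)
      _ = δ * (nD s Δ j a * s a.1 j) := by ring
      _ ≤ _ := mul_le_mul_of_nonneg_left b hδ0.le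
  refine (Finset.sum_le_card_nsmul _ _ _ h3).trans ?_
  rw [nsmul_eq_mul, Finset.card_univ, ← hN]
  have h4 : N * δ * 2 ≤ ε := by
    have h5 : δ * (2 * (N + 1)) = ε := by
      rw [hδ, div_mul_cancel₀ _ (by positivity)]
    nlinarith
  calc N * (δ * (2 * (Δ * s (Fin.last k) j))) = (N * δ * 2) * (Δ * s (Fin.last k) j) := by ring
    _ ≤ _ := mul_le_mul_of_nonneg_right h4 hT

/-- The radii `rr_a = M0 / n_a` are `o(s_a)`. (From `mD_small` and `T ≤ n_a s_a`.) -/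
theorem rr_small (s : Fin (k + 1) → J → ℝ) (hs : Scl 𝒰 s) (Δ : ℝ) (hΔ : 1 ≤ Δ)
    (κ : {l : Fin (k + 1) // l ≠ 0} → J → ℝ) (hκ : ∀ a, Oo 𝒰 (κ a) (s a.1))
    (a : {l : Fin (k + 1) // l ≠ 0}) :
    Oo 𝒰 (fun j => mD s Δ κ j / nD s Δ j a) (s a.1) := by
  intro ε hε
  filter_upwards [mD_small s hs Δ hΔ κ hκ ε hε, nD_bounds s hs Δ hΔ] with j h1 h2
  obtain ⟨-, b1, -, -, b2, -⟩ := h2 a
  have h3 : (0 : ℝ) < nD s Δ j a := by exact_mod_cast b1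
  have h4 : (0 : ℝ) < s a.1 j := lt_of_lt_of_le one_pos (hs.one a.1 j)
  rw [abs_of_pos h4, div_le_iff₀ h3]
  calc mD s Δ κ j ≤ ε * (Δ * s (Fin.last k) j) := h1
    _ ≤ ε * (nD s Δ j a * s a.1 j) := mul_le_mul_of_nonneg_left b2 hε.le
    _ = _ := by ring

end Pool.Agent.Zilber.CA
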