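import Pool.Agent.Zilber.AVDefs

set_option autoImplicit false

/-! AV4. The exponents of the auxiliary functions: degrees and absolute values. -/

namespace Pool.Agent.Zilber.CA

open NumberField Pool.Agent.LAll Pool.Agent.LSharp

private theorem av_abs (z : ℤ) : ((z.toNat : ℝ) + ((-z).toNat : ℝ)) = |(z : ℝ)| := by
  have h := Int.toNat_add_toNat_neg_eq_natAbs z
  rw [← Int.cast_abs, Int.abs_eq_natAbs, ← h]
  push_cast
  rfl

private theorem av_sub (z : ℤ) : ((z.toNat : ℝ) - ((-z).toNat : ℝ)) = (z : ℝ) := by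
  have h := Int.toNat_sub_toNat_neg z
  exact_mod_cast congrArg (Int.cast : ℤ → ℝ) h

private theorem av_true {M β ι : Type} [Fintype β] [DecidableEq ι] (g : β → ι)
    (a : β → ι → ℤ) {B : ℕ} {n : M → ℕ} {cb : β → M} (x : XA β B n cb) (i : ι) :
    alX g a x (i, true) = ∑ r, (x.1 r : ℕ) * (a r i).toNat +
      ∑ b, (if g b = i then (x.2 b : ℕ) else 0) := rfl

private theorem av_false {M β ι : Type} [Fintype β] [DecidableEq ι] (g : β → ι)
    (a : β → ι → ℤ) {B : ℕ} {n : M → ℕ} {cb : β → M} (x : XA β B n cb) (i : ι) :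
    alX g a x (i, false) = ∑ r, (x.1 r : ℕ) * (-a r i).toNat := rfl

/-- **The degrees.** `|a r i| ≤ Ca n_(cl i)`, `cl (g b) = cb b`.

Proof. `u_r < B`, so `u_r * toNat ≤ B * |a r i|`, and for `s = (i, true)`, `(i, false)`: `alX ≤ B
∑_r |a r i| + ∑_(b, g b = i) e_b`. Sum over the
`s` with `cl s.1 = m` (as real numbers): `2 B card β card ι Ca n m + ∑_(b, cl (g b) = m) e_b ≤ (2
card β card ι Ca + card β) B n m`
(`e_b < n (cb b) = n (cl (g b))`, `B ≥ 1` because `x.1` exists if `β` is nonempty; if `β` is empty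
both sums are `0`). -/
theorem alX_deg {M β ι : Type} [Fintype β] [DecidableEq β] [Fintype ι] [DecidableEq ι]
    [DecidableEq M] (g : β → ι) (a : β → ι → ℤ) {B : ℕ} {n : M → ℕ} {cb : β → M} (cl : ι → M)
    (hg : ∀ b, cl (g b) = cb b) (Ca : ℝ) (hCa : 0 ≤ Ca)
    (ha : ∀ r i, |(a r i : ℝ)| ≤ Ca * n (cl i)) (D : ℕ)
    (hD : 2 * (Fintype.card β : ℝ) * Fintype.card ι * Ca + Fintype.card β ≤ D)
    (x : XA β B n cb) (m : M) :
    ∑ s : ι × Bool with cl s.1 = m, alX g a x s ≤ D * B * n m := by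
  rw [← Nat.cast_le (α := ℝ)]
  have h1 : ((∑ s : ι × Bool with cl s.1 = m, alX g a x s : ℕ) : ℝ) =
      ∑ i, (if cl i = m then ∑ r, ((x.1 r : ℕ) : ℝ) * |(a r i : ℝ)| else 0) +
      ∑ b, (if cl (g b) = m then ((x.2 b : ℕ) : ℝ) else 0) := by
    have h2 : ∑ s : ι × Bool with cl s.1 = m, alX g a x s =
        ∑ i, if cl i = m then alX g a x (i, true) + alX g a x (i, false) else 0 := by
      rw [Finset.sum_filter, Fintype.sum_prod_type]
      refine Finset.sum_congr rfl fun i _ => ?_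
      rw [Fintype.sum_bool]
      by_cases h : cl i = m
      · rw [if_pos h, if_pos h, if_pos h]
      · rw [if_neg h, if_neg h, if_neg h, add_zero]
    have h3 : ∑ b, (if cl (g b) = m then ((x.2 b : ℕ) : ℝ) else 0) =
        ∑ i, if cl i = m then ∑ b, (if g b = i then ((x.2 b : ℕ) : ℝ) else 0) else 0 := by
      have h4 : ∀ i, (if cl i = m then ∑ b, (if g b = i then ((x.2 b : ℕ) : ℝ) else 0) else 0) =
          ∑ b, if g b = i then (if cl i = m then ((x.2 b : ℕ) : ℝ) else 0) else 0 := by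
        intro i
        by_cases h : cl i = m
        · rw [if_pos h]
          exact Finset.sum_congr rfl fun b _ => by rw [if_pos h]
        · rw [if_neg h, Finset.sum_eq_zero]
          intro b _
          rw [if_neg h, ite_self]
      rw [Finset.sum_congr rfl fun i _ => h4 i, Finset.sum_comm]
      refine Finset.sum_congr rfl fun b _ => ?_
      rw [Finset.sum_ite_eq, if_pos (Finset.mem_univ _)]
    rw [h2, h3, ← Finset.sum_add_distrib, Nat.cast_sum]
    refine Finset.sum_congr rfl fun i _ => ?_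
    by_cases h : cl i = m
    · rw [if_pos h, if_pos h, if_pos h, av_true, av_false]
      push_cast
      have h5 : ∑ r, ((x.1 r : ℕ) : ℝ) * |(a r i : ℝ)| =
          ∑ r, ((x.1 r : ℕ) : ℝ) * ((a r i).toNat : ℝ) +
            ∑ r, ((x.1 r : ℕ) : ℝ) * ((-a r i).toNat : ℝ) := by
        rw [← Finset.sum_add_distrib]
        refine Finset.sum_congr rfl fun r _ => ?_
        rw [← av_abs, mul_add]
      rw [h5]
      ring
    · rw [if_neg h, if_neg h, if_neg h]
      simp
  rw [h1]
  have hB0 : (0 : ℝ) ≤ B := Nat.cast_nonneg _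
  have hn0 : (0 : ℝ) ≤ n m := Nat.cast_nonneg _
  have hi0 : (0 : ℝ) ≤ Fintype.card ι := Nat.cast_nonneg _
  have hb0 : (0 : ℝ) ≤ Fintype.card β := Nat.cast_nonneg _
  have h6 : ∑ i, (if cl i = m then ∑ r, ((x.1 r : ℕ) : ℝ) * |(a r i : ℝ)| else 0) ≤
      Fintype.card ι * (Fintype.card β * (B * (Ca * n m))) := by
    have h7 : ∀ i ∈ (Finset.univ : Finset ι),
        (if cl i = m then ∑ r, ((x.1 r : ℕ) : ℝ) * |(a r i : ℝ)| else 0) ≤
        Fintype.card β * (B * (Ca * n m)) := by
      intro i _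
      by_cases h : cl i = m
      · rw [if_pos h]
        have h8 : ∀ r ∈ (Finset.univ : Finset β), ((x.1 r : ℕ) : ℝ) * |(a r i : ℝ)| ≤
            B * (Ca * n m) := by
          intro r _
          have h9 : ((x.1 r : ℕ) : ℝ) ≤ B := by exact_mod_cast (x.1 r).2.le
          have h10 := ha r i
          rw [h] at h10
          exact mul_le_mul h9 h10 (abs_nonneg _) hB0
        have h11 := Finset.sum_le_card_nsmul _ _ _ h8
        rw [nsmul_eq_mul, Finset.card_univ] at h11
        exact h11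
      · rw [if_neg h]
        positivity
    have h12 := Finset.sum_le_card_nsmul _ _ _ h7
    rw [nsmul_eq_mul, Finset.card_univ] at h12
    exact h12
  have h13 : ∑ b, (if cl (g b) = m then ((x.2 b : ℕ) : ℝ) else 0) ≤
      Fintype.card β * (B * n m) := by
    have h14 : ∀ b ∈ (Finset.univ : Finset β),
        (if cl (g b) = m then ((x.2 b : ℕ) : ℝ) else 0) ≤ B * n m := by
      intro b _
      by_cases h : cl (g b) = m
      · rw [if_pos h]
        have h15 : ((x.2 b : ℕ) : ℝ) ≤ n m := by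
          have h16 : (x.2 b : ℕ) ≤ n m :=
            (x.2 b).2.le.trans_eq (congrArg n ((hg b).symm.trans h))
          exact_mod_cast h16
        have h17 : (1 : ℝ) ≤ B := by
          have h18 : 0 < B := lt_of_le_of_lt (Nat.zero_le _) (x.1 b).2
          exact_mod_cast h18
        nlinarith
      · rw [if_neg h]
        positivity
    have h19 := Finset.sum_le_card_nsmul _ _ _ h14
    rw [nsmul_eq_mul, Finset.card_univ] at h19
    exact h19
  push_cast
  have h20 : (Fintype.card ι : ℝ) * Fintype.card β * Ca + Fintype.card β ≤ D := by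
    have h21 : 0 ≤ (Fintype.card β : ℝ) * Fintype.card ι * Ca := by positivity
    linarith
  calc _ ≤ (Fintype.card ι : ℝ) * (Fintype.card β * (B * (Ca * n m))) +
        Fintype.card β * (B * n m) := add_le_add h6 h13
    _ = ((Fintype.card ι : ℝ) * Fintype.card β * Ca + Fintype.card β) * (B * n m) := by ring
    _ ≤ D * (B * n m) := mul_le_mul_of_nonneg_right h20 (mul_nonneg hB0 hn0)
    _ = D * B * n m := by ring

/-- **The absolute values.**

Proof. `∏_s z_s ^ (alX s) = ∏_r (∏_i xx_i ^ (a r i)) ^ (u r) * ∏_b xx_(g b) ^ (e b)` (`z (i, false)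
= (xx i)⁻¹`; group the factors: for each
`i` and `r` : `xx_i ^ (toNat (a r i) u_r) * (xx_i)⁻¹ ^ (toNat (-a r i) u_r) = xx_i ^ (a r i u_r)`,
and
`∏_i xx_i ^ (∑_(b, g b = i) e_b) = ∏_b xx_(g b) ^ (e b)`). `lam v` of a product is the sum
(`lam_prod`, `lam_zpow`, `lam_pow` in
LAll/Places); `u_r lam ≤ B max lam 0`, `e_b lam ≤ n (cb b) max lam 0`. It may be easier to compute
with `lam` directly:
`lam v (∏ z_s ^ al s) = ∑_s al s * lam v z_s = ∑_i (al (i, true) - al (i, false)) lam v (xx i)`. -/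
theorem alX_lam {M β ι : Type} [Fintype β] [DecidableEq β] [Fintype ι] [DecidableEq ι]
    (g : β → ι) (a : β → ι → ℤ) {B : ℕ} {n : M → ℕ} {cb : β → M} {K : Type} [Field K]
    [NumberField K] {S : Finset (FinitePlace K)} (v : Plc K S) (z : ι × Bool → K) (xx : ι → K)
    (h0 : ∀ i, xx i ≠ 0) (hz : ∀ i, z (i, true) = xx i) (hz' : ∀ i, z (i, false) = (xx i)⁻¹)
    (x : XA β B n cb) :
    lam v (∏ s, z s ^ alX g a x s) ≤ B * ∑ r, max (lam v (∏ i, xx i ^ a r i)) 0 +
      ∑ b, (n (cb b) : ℝ) * max (lam v (xx (g b))) 0 := by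
  have hz0 : ∀ s, z s ≠ 0 := by
    rintro ⟨i, b⟩
    cases b with
    | true =>
      rw [hz]
      exact h0 i
    | false =>
      rw [hz']
      exact inv_ne_zero (h0 i)
  have h1 : lam v (∏ s, z s ^ alX g a x s) =
      ∑ r, ((x.1 r : ℕ) : ℝ) * lam v (∏ i, xx i ^ a r i) +
      ∑ b, ((x.2 b : ℕ) : ℝ) * lam v (xx (g b)) := by
    rw [lam_prod v _ _ fun s _ => pow_ne_zero _ (hz0 s), Fintype.sum_prod_type]
    have h2 : ∀ i, ∑ b : Bool, lam v (z (i, b) ^ alX g a x (i, b)) =
        ∑ r, ((x.1 r : ℕ) : ℝ) * ((a r i : ℝ) * lam v (xx i)) +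
        ∑ b, (if g b = i then ((x.2 b : ℕ) : ℝ) * lam v (xx (g b)) else 0) := by
      intro i
      have h3 : ∑ b, (if g b = i then ((x.2 b : ℕ) : ℝ) * lam v (xx (g b)) else 0) =
          (∑ b, (if g b = i then ((x.2 b : ℕ) : ℝ) else 0)) * lam v (xx i) := by
        rw [Finset.sum_mul]
        refine Finset.sum_congr rfl fun b _ => ?_
        by_cases h : g b = i
        · rw [if_pos h, if_pos h, h]
        · rw [if_neg h, if_neg h, zero_mul]
      have h4 : ∑ r, ((x.1 r : ℕ) : ℝ) * ((a r i : ℝ) * lam v (xx i)) =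
          (∑ r, ((x.1 r : ℕ) : ℝ) * ((a r i).toNat : ℝ) -
            ∑ r, ((x.1 r : ℕ) : ℝ) * ((-a r i).toNat : ℝ)) * lam v (xx i) := by
        rw [← Finset.sum_sub_distrib, Finset.sum_mul]
        refine Finset.sum_congr rfl fun r _ => ?_
        rw [← av_sub (a r i)]
        ring
      rw [h3, h4, Fintype.sum_bool, lam_pow, lam_pow, hz, hz', lam_inv, av_true, av_false]
      push_cast
      ring
    rw [Finset.sum_congr rfl fun i _ => h2 i, Finset.sum_add_distrib]
    congr 1
    · rw [Finset.sum_comm]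
      refine Finset.sum_congr rfl fun r _ => ?_
      rw [lam_prod v _ _ fun i _ => zpow_ne_zero _ (h0 i), Finset.mul_sum]
      refine Finset.sum_congr rfl fun i _ => ?_
      rw [lam_zpow]
    · rw [Finset.sum_comm]
      refine Finset.sum_congr rfl fun b _ => ?_
      rw [Finset.sum_ite_eq, if_pos (Finset.mem_univ _)]
  rw [h1, Finset.mul_sum]
  refine add_le_add (Finset.sum_le_sum fun r _ => ?_) (Finset.sum_le_sum fun b _ => ?_)
  · have h9 : ((x.1 r : ℕ) : ℝ) ≤ B := by exact_mod_cast (x.1 r).2.le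
    exact (mul_le_mul_of_nonneg_left (le_max_left _ _) (Nat.cast_nonneg _)).trans
      (mul_le_mul_of_nonneg_right h9 (le_max_right _ _))
  · have h9 : ((x.2 b : ℕ) : ℝ) ≤ n (cb b) := by exact_mod_cast (x.2 b).2.le
    exact (mul_le_mul_of_nonneg_left (le_max_left _ _) (Nat.cast_nonneg _)).trans
      (mul_le_mul_of_nonneg_right h9 (le_max_right _ _))

/-- **The sum of the bounds over the places.** (`sum_max_lam`: the products and the coordinates are
`Off S`,
`off_iff_intOff`.) -/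
theorem sum_bet {M β ι : Type} [Fintype β] [DecidableEq β] [Fintype ι] (g : β → ι)
    (a : β → ι → ℤ) (B : ℕ) (n : M → ℕ) (cb : β → M) {K : Type} [Field K] [NumberField K]
    {S : Finset (FinitePlace K)} (xx : ι → K) (h0 : ∀ i, xx i ≠ 0) (hS : ∀ i, Off S (xx i)) :
    ∑ v : Plc K S, (B * ∑ r, max (lam v (∏ i, xx i ^ a r i)) 0 +
      ∑ b, (n (cb b) : ℝ) * max (lam v (xx (g b))) 0) =
    B * ∑ r, ht (∏ i, xx i ^ a r i) + ∑ b, (n (cb b) : ℝ) * ht (xx (g b)) := by
  have hP : ∀ r, Off S (∏ i, xx i ^ a r i) := by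
    intro r v hv
    rw [map_prod]
    refine Finset.prod_eq_one fun i _ => ?_
    rw [map_zpow₀, hS i v hv, one_zpow]
  have hP0 : ∀ r, ∏ i, xx i ^ a r i ≠ 0 := fun r =>
    Finset.prod_ne_zero_iff.2 fun i _ => zpow_ne_zero _ (h0 i)
  rw [Finset.sum_add_distrib, ← Finset.mul_sum, Finset.sum_comm]
  congr 1
  · congr 1
    exact Finset.sum_congr rfl fun r _ => sum_max_lam (hP0 r) (off_iff_intOff (hP r))
  · rw [Finset.sum_comm]
    refine Finset.sum_congr rfl fun b _ => ?_
    rw [← Finset.mul_sum, sum_max_lam (h0 _) (off_iff_intOff (hS _))]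

end Pool.Agent.Zilber.CA
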