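import Pool.Agent.Zilber.AVDefs
import Pool.Agent.Zilber.AUMass

set_option autoImplicit false

/-! AV1. Choice of the divisor `x_(b0) = c` at one level. -/

namespace Pool.Agent.Zilber.CA

open NumberField Pool.Agent.LAll Pool.Agent.LSharp MvPowerSeries

/-- the height of a natural number -/
private theorem ht_nat_aux {K : Type} [Field K] [NumberField K] (c N0 : ℕ) (hc : 1 ≤ c)
    (hcN : c ≤ N0) : ht (c : K) ≤ Real.log N0 := by
  have hc0 : ((c : ℕ) : ℤ) ≠ 0 := by exact_mod_cast (Nat.one_le_iff_ne_zero.1 hc)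
  have hcK : (c : K) ≠ 0 := by exact_mod_cast (Nat.one_le_iff_ne_zero.1 hc)
  have hN1 : (1 : ℝ) ≤ N0 := by exact_mod_cast hc.trans hcN
  have hlN : 0 ≤ Real.log N0 := Real.log_nonneg hN1
  have hi : IntOff (∅ : Finset (FinitePlace K)) (c : K) := by
    have := intOff_int (S := (∅ : Finset (FinitePlace K))) (c : ℤ)
    rwa [Int.cast_natCast] at this
  rw [← sum_max_lam hcK hi]
  have h1 : Real.log N0 = ∑ v : Plc K (∅ : Finset (FinitePlace K)), wt v * Real.log N0 := by
    rw [← Finset.sum_mul, sum_wt, one_mul]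
  rw [h1]
  refine Finset.sum_le_sum fun v _ => ?_
  have hw := wt_nonneg v
  refine max_le ?_ (mul_nonneg hw hlN)
  have h3 := lam_int_le v (c : ℤ) hc0
  rw [Int.cast_natCast, Int.cast_natCast, abs_of_nonneg (Nat.cast_nonneg c)] at h3
  refine h3.trans (mul_le_mul_of_nonneg_left ?_ hw)
  exact Real.log_le_log (by exact_mod_cast hc) (by exact_mod_cast hcN)

/-- the height of `y - c` -/
private theorem ht_sub_aux {K : Type} [Field K] [NumberField K] {S : Finset (FinitePlace K)}
    (y : K) (c N0 : ℕ) (hc : 1 ≤ c) (hcN : c ≤ N0) (hx : y - (c : K) ≠ 0)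
    (hoff : Off S (y - (c : K))) (hy0 : y ≠ 0) (hy : IntOff S y) :
    ∑ v : Plc K S, max (-lam v (y - (c : K))) 0 = ht (y - (c : K)) ∧
      ht (y - (c : K)) ≤ ht y + (Real.log N0 + Real.log 2) := by
  have hN1 : (1 : ℝ) ≤ N0 := by exact_mod_cast hc.trans hcN
  have hlN : 0 ≤ Real.log N0 := Real.log_nonneg hN1
  have hl2 : 0 ≤ Real.log 2 := Real.log_nonneg (by norm_num)
  have hinv : Off S (y - (c : K))⁻¹ := by
    intro v hv
    rw [map_inv₀, hoff v hv, inv_one]
  constructor
  · rw [← ht_inv, ← sum_max_lam (inv_ne_zero hx) (off_iff_intOff hinv)]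
    exact Finset.sum_congr rfl fun v _ => by rw [lam_inv]
  · rw [← sum_max_lam hy0 hy, ← sum_max_lam hx (off_iff_intOff hoff)]
    have h1 : Real.log N0 + Real.log 2 =
        ∑ v : Plc K S, wt v * (Real.log N0 + Real.log 2) := by
      rw [← Finset.sum_mul, sum_wt, one_mul]
    rw [h1, ← Finset.sum_add_distrib]
    refine Finset.sum_le_sum fun v _ => ?_
    have hw := wt_nonneg v
    have hc0 : ((c : ℕ) : ℤ) ≠ 0 := by exact_mod_cast (Nat.one_le_iff_ne_zero.1 hc)
    have h2 : lam v (-(c : K)) ≤ wt v * Real.log N0 := by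
      rw [lam_neg]
      have h3 := lam_int_le v (c : ℤ) hc0
      rw [Int.cast_natCast, Int.cast_natCast, abs_of_nonneg (Nat.cast_nonneg c)] at h3
      refine h3.trans (mul_le_mul_of_nonneg_left ?_ hw)
      refine Real.log_le_log (by exact_mod_cast hc) (by exact_mod_cast hcN)
    have h5 : y - (c : K) = ∑ a : Bool, (if a then y else -(c : K)) := by
      rw [Fintype.sum_bool]
      simp [sub_eq_add_neg]
    have h6 := lam_sum_le v (Finset.univ : Finset Bool)
      (fun a => if a then y else -(c : K))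
      (max (lam v y) 0 + wt v * Real.log N0) 2 (by simp) (by
        intro a _ _
        have h7 : 0 ≤ wt v * Real.log N0 := mul_nonneg hw hlN
        have h8 := le_max_left (lam v y) 0
        have h9 := le_max_right (lam v y) 0
        cases a
        · simp only [Bool.false_eq_true, if_false]
          linarith
        · simp only [if_true]
          linarith) (by rw [← h5]; exact hx)
    rw [← h5] at h6
    refine max_le ?_ ?_
    · rw [mul_add]
      linarith
    · have h8 := le_max_right (lam v y) 0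
      have h9 : 0 ≤ wt v * (Real.log N0 + Real.log 2) := mul_nonneg hw (by linarith)
      linarith

/-- **Choice of the divisor.** At a level where the height of `y = x_(b0)` is `≥ 2 μ h` and `h` is
large there are `c` in
`1..N₀`, a set `TT` of places where `y - c` is small, of large mass, and where the poles of the
coordinates have small mass.

Proof. Let `A' = (ι × Bool) ⊕ (ι × Bool)` and `y = ptL br b0`. `C` is the maximum of `C_m / μ`
(`C_m` from `mass_Sc N0`),
`log N0 + log 2` and `(log N0 + 1) / (2 μ)`. `y ≠ c` for `1 ≤ c ≤ N0`: otherwise `ht y = ht (c : K)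
≤ log N0`
(`ht (c : K) = ∑_v max (lam v c) 0 ≤ ∑_v wt v log N0 = log N0` by `sum_max_lam`, `lam_int_le`,
`sum_wt`), but
`ht y ≥ 2 μ h ≥ log N0 + 1`.
`S`: contains the set `S₀` of `br.intOff`, and (`exists_S` for a finite family of nonzero elements:
the constant
coefficients of all the `br.F s`, `y - c` for `c ∈ 1..N0`, and `N0! `) all of them are `Off S`; the
property `Off` is
monotone in `S`, so take the union of the two sets.
`pl v a = ∑_(s : A', ca2 cl s = a) max (lam v (constantCoeff (br.F s))) 0 ≥ 0`. `m' v = ∑_a pl v a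
/ br.h a ≥ 0`;
`∑_v m' v = ∑_s ht (constantCoeff (br.F s)) / br.h (ca2 cl s) ≤ card A' * D` (`sum_max_lam`,
`br.ht_F`), `card A' = 4 card ι`.
`exists_c y N0 hN0 m'` gives `c` with `∑_(v ∈ S(c)) m' v ≤ 4 card ι * D / N0 ≤ δ`; `TT` is the set
of the `v` with
`InSc y N0 c v`; for each `a`: `∑_(v ∈ TT) pl v a = br.h a * ∑ pl v a / br.h a ≤ br.h a * ∑_(v ∈
TT) m' v ≤ δ br.h a`.
`m v = max (-lam v (y - c)) 0 / h`, `h = br.h (cl (bs b0)) ≥ 1`; on `TT`: `lam v (y - c) ≤ 0`
(`InSc.lam_nonpos`), so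
`lam v (y - c) = -(h * m v)`. The mass: `mass_Sc`: `∑_(v ∈ TT) -lam v (y - c) ≥ ht y - C_m ≥ 2 μ h
- μ h = μ h`.
`∑_v max (-lam v (y - c)) 0 = ht (y - c)⁻¹ = ht (y - c) ≤ ht y + log N0 + log 2 ≤ D h + h`
(`br.ht_F`; the triangle inequality
place by place: `lam_sum_le` or as in the proof of `mass_Sc`). -/
theorem choice {M β ι : Type} [Fintype M] [Fintype β] [Fintype ι] [DecidableEq M] [DecidableEq β]
    [DecidableEq ι] (cl : ι → M) (bs : β → ι) (b0 : β) (D : ℕ) (μ δ : ℝ) (hμ : 0 < μ) (N0 : ℕ)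
    (hN0 : 1 ≤ N0) (hδ : 4 * (Fintype.card ι : ℝ) * D ≤ δ * N0) :
    ∃ C : ℝ, ∀ (K : Type) [Field K] [NumberField K] (br : BrL (ca2 cl) (bs2 bs) D K),
      2 * μ * br.h (cl (bs b0)) ≤ ht (ptL br b0) → C ≤ br.h (cl (bs b0)) →
      ∃ (S : Finset (FinitePlace K)) (c : ℕ) (TT : Finset (Plc K S)) (m : Plc K S → ℝ)
        (pl : Plc K S → M → ℝ), 1 ≤ c ∧ c ≤ N0 ∧ ptL br b0 - (c : K) ≠ 0 ∧
        (∀ s n, IntOff S (coeff n (br.F s))) ∧ (∀ s, Off S (constantCoeff (br.F s))) ∧
        (∑ v : Plc K S, max (-lam v (ptL br b0 - (c : K))) 0 ≤ (D + 1) * br.h (cl (bs b0))) ∧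
        (∀ v, 0 ≤ m v) ∧ μ ≤ ∑ v ∈ TT, m v ∧
        (∀ v ∈ TT, lam v (ptL br b0 - (c : K)) ≤ -(br.h (cl (bs b0)) * m v)) ∧
        (∀ v a, 0 ≤ pl v a) ∧
        (∀ s v, lam v (constantCoeff (br.F s)) ≤ pl v (ca2 cl s)) ∧
        ∀ a, ∑ v ∈ TT, pl v a ≤ δ * br.h a := by
  classical
  obtain ⟨Cm, hCm⟩ := mass_Sc N0
  refine ⟨max (Cm / μ) (max (Real.log N0 + Real.log 2) ((Real.log N0 + 1) / (2 * μ))), ?_⟩
  intro K _ _ br hht hC
  obtain ⟨hh, hhdef⟩ : ∃ hh, hh = br.h (cl (bs b0)) := ⟨_, rfl⟩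
  obtain ⟨y, hydef⟩ : ∃ y, y = ptL br b0 := ⟨_, rfl⟩
  rw [← hhdef, ← hydef] at hht
  rw [← hhdef] at hC
  rw [← hhdef, ← hydef]
  have hh1 : 1 ≤ hh := by rw [hhdef]; exact br.one_le_h _
  have hh0 : 0 < hh := by linarith
  have hC1 : Cm ≤ μ * hh := by
    have h1 := (le_max_left _ _).trans hC
    rw [div_le_iff₀ hμ] at h1
    linarith
  have hC2 : Real.log N0 + Real.log 2 ≤ hh :=
    ((le_max_left _ _).trans (le_max_right _ _)).trans hC
  have hC3 : Real.log N0 + 1 ≤ 2 * μ * hh := by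
    have h1 := ((le_max_right _ _).trans (le_max_right _ _)).trans hC
    rw [div_le_iff₀ (by positivity)] at h1
    linarith
  have hy0 : y ≠ 0 := by rw [hydef]; exact br.F0 _
  have hyh : ht y ≤ D * hh := by
    rw [hydef, hhdef]
    exact br.ht_F (bs2 bs b0)
  have hyc : ∀ c : ℕ, 1 ≤ c → c ≤ N0 → y - (c : K) ≠ 0 := by
    intro c hc hcN h0
    have h1 : y = (c : K) := sub_eq_zero.1 h0
    have h2 := ht_nat_aux (K := K) c N0 hc hcN
    rw [← h1] at h2
    linarith
  -- the set of places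
  obtain ⟨S₀, hS₀⟩ := br.intOff
  obtain ⟨S₁, hS₁⟩ := exists_S K (α := ((ι × Bool) ⊕ (ι × Bool)) ⊕ Fin N0 ⊕ Unit)
    (Sum.elim (fun s => constantCoeff (br.F s)) (Sum.elim
      (fun c => y - ((c.1 + 1 : ℕ) : K)) fun _ => ((N0.factorial : ℕ) : K))) (by
      rintro (s | c | u)
      · exact br.F0 s
      · exact hyc _ (by omega) (by have := c.2; omega)
      · exact Nat.cast_ne_zero.2 N0.factorial_ne_zero)
  obtain ⟨S, hSdef⟩ : ∃ S, S = S₀ ∪ S₁ := ⟨_, rfl⟩
  have hoff : ∀ z : K, Off S₁ z → Off S z := fun z hz v hv =>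
    hz v fun h => hv (by rw [hSdef]; exact Finset.mem_union_right _ h)
  have hF : ∀ s, Off S (constantCoeff (br.F s)) := fun s => hoff _ (hS₁ (Sum.inl s))
  have hfac : Off S ((N0.factorial : ℕ) : K) := hoff _ (hS₁ (Sum.inr (Sum.inr ())))
  have hyoff : ∀ c : ℕ, 1 ≤ c → c ≤ N0 → Off S (y - (c : K)) := by
    intro c hc hcN
    have h1 := hoff _ (hS₁ (Sum.inr (Sum.inl ⟨c - 1, by omega⟩)))
    have h2 : ((c - 1 + 1 : ℕ) : K) = (c : K) := by rw [Nat.sub_add_cancel hc]
    simp only [Sum.elim_inr, Sum.elim_inl] at h1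
    rwa [h2] at h1
  have hyint : IntOff S y := by
    rw [hydef]
    exact off_iff_intOff (hF (bs2 bs b0))
  have hint : ∀ s n, IntOff S (coeff n (br.F s)) :=
    hS₀ S (by rw [hSdef]; exact Finset.subset_union_left)
  -- the pole masses
  obtain ⟨m', hm'def⟩ : ∃ m' : Plc K S → ℝ, ∀ v, m' v =
    ∑ s, max (lam v (constantCoeff (br.F s))) 0 / br.h (ca2 cl s) := ⟨_, fun _ => rfl⟩
  have hpos : ∀ a, 0 < br.h a := fun a => lt_of_lt_of_le zero_lt_one (br.one_le_h a)
  have hm'0 : ∀ v, 0 ≤ m' v := fun v => by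
    rw [hm'def]
    exact Finset.sum_nonneg fun s _ => div_nonneg (le_max_right _ _) (hpos _).le
  have hm's : ∑ v, m' v ≤ 4 * (Fintype.card ι : ℝ) * D := by
    have h1 : ∑ v, m' v = ∑ s, (∑ v : Plc K S, max (lam v (constantCoeff (br.F s))) 0) /
        br.h (ca2 cl s) := by
      rw [Finset.sum_congr rfl fun v _ => hm'def v, Finset.sum_comm]
      exact Finset.sum_congr rfl fun s _ => (Finset.sum_div _ _ _).symm
    rw [h1]
    have h2 : ∀ s ∈ (Finset.univ : Finset ((ι × Bool) ⊕ (ι × Bool))),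
        (∑ v : Plc K S, max (lam v (constantCoeff (br.F s))) 0) / br.h (ca2 cl s) ≤ D := by
      intro s _
      rw [sum_max_lam (br.F0 s) (off_iff_intOff (hF s)), div_le_iff₀ (hpos _)]
      exact br.ht_F s
    refine (Finset.sum_le_sum h2).trans (le_of_eq ?_)
    rw [Finset.sum_const, Finset.card_univ, Fintype.card_sum, Fintype.card_prod,
      Fintype.card_bool, nsmul_eq_mul]
    push_cast
    ring
  obtain ⟨c, hc, hcN, hcm⟩ := exists_c y N0 hN0 m' hm'0
  have hN0' : (0 : ℝ) < N0 := by exact_mod_cast hN0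
  have hcδ : ∑ v ∈ (Finset.univ : Finset (Plc K S)).filter (fun v => InSc y N0 c v), m' v ≤
      δ := by
    refine hcm.trans ?_
    rw [div_le_iff₀ hN0']
    exact hm's.trans hδ
  have hx := hyc c hc hcN
  have hxoff := hyoff c hc hcN
  have hmass := hCm K S y c hc hcN hx hxoff hfac hyint
  have hneg : ∀ v ∈ (Finset.univ : Finset (Plc K S)).filter (fun v => InSc y N0 c v),
      max (-lam v (y - (c : K))) 0 = -lam v (y - (c : K)) := by
    intro v hv
    have h1 := InSc.lam_nonpos y N0 c v hx (Finset.mem_filter.1 hv).2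
    exact max_eq_left (by linarith)
  refine ⟨S, c, (Finset.univ : Finset (Plc K S)).filter (fun v => InSc y N0 c v),
    fun v => max (-lam v (y - (c : K))) 0 / hh,
    fun v a => ∑ s, if ca2 cl s = a then max (lam v (constantCoeff (br.F s))) 0 else 0,
    hc, hcN, hx, hint, hF, ?_, fun v => div_nonneg (le_max_right _ _) hh0.le, ?_, ?_, ?_, ?_, ?_⟩
  · have h1 := ht_sub_aux y c N0 hc hcN hx hxoff hy0 hyint
    have h2 : (D + 1 : ℝ) * hh = D * hh + hh := by ring
    rw [h1.1, h2]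
    linarith [h1.2]
  · rw [← Finset.sum_div, le_div_iff₀ hh0, Finset.sum_congr rfl hneg]
    linarith
  · intro v hv
    rw [mul_div_cancel₀ _ hh0.ne', hneg v hv, neg_neg]
  · intro v a
    refine Finset.sum_nonneg fun s _ => ?_
    split_ifs
    · exact le_max_right _ _
    · exact le_rfl
  · intro s v
    refine (le_max_left _ 0).trans ?_
    have h1 := Finset.single_le_sum (f := fun s' => if ca2 cl s' = ca2 cl s then
      max (lam v (constantCoeff (br.F s'))) 0 else 0) (fun s' _ => by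
        beta_reduce
        split_ifs
        · exact le_max_right _ _
        · exact le_rfl) (Finset.mem_univ s)
    beta_reduce at h1
    rwa [if_pos rfl] at h1
  · intro a
    have h1 : ∀ v ∈ (Finset.univ : Finset (Plc K S)).filter (fun v => InSc y N0 c v),
        (∑ s, if ca2 cl s = a then max (lam v (constantCoeff (br.F s))) 0 else 0) ≤
          br.h a * m' v := by
      intro v _
      rw [hm'def, Finset.mul_sum]
      refine Finset.sum_le_sum fun s _ => ?_
      split_ifs with h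
      · rw [h, mul_div_cancel₀ _ (hpos a).ne']
      · exact mul_nonneg (hpos a).le (div_nonneg (le_max_right _ _) (hpos _).le)
    refine (Finset.sum_le_sum h1).trans ?_
    rw [← Finset.mul_sum, mul_comm]
    exact mul_le_mul_of_nonneg_right hcδ (hpos a).le

end Pool.Agent.Zilber.CA
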