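import Pool.Agent.LSharp.NVX
import Pool.Agent.LSharp.BRBound
import Pool.Agent.LSharp.BRRel
import Pool.Agent.LSharp.BRPrim
import Pool.Agent.LSharp.FreeOf

set_option autoImplicit false

/-! Zilber's conjecture for tori, section 1 (branches): definitions. The branch at one level: a number
field `K`, power series `F s` in the variables `β` over `K`, one for each coordinate `s : A`; the
coordinates have classes `ca s : M`, the variables are the coordinates `bs b`. Nothing here mentions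
ultraproducts. -/

namespace Pool.Agent.Zilber

open NumberField Pool.Agent.LAll Pool.Agent.LSharp MvPowerSeries Filter

/-- **The branch at one level.** `F s` are the coordinates as power series, `Θ a` a primitive element
of the class `a`. The constant coefficients are the coordinates of the point. `h a` is the scale of the
heights of the class, `κ a` the scale of the coefficients of the equations. -/
structure BrL {M β A : Type} [Fintype β] (ca : A → M) (bs : β → A) (D : ℕ)
    (K : Type) [Field K] [NumberField K] where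
  h : M → ℝ
  κ : M → ℝ
  F : A → MvPowerSeries β K
  Θ : M → MvPowerSeries β K
  Pi : M → Polynomial (MvPolynomial β ℤ)
  Δ : M → MvPolynomial β ℤ
  N : A → Polynomial (MvPolynomial β ℤ)
  one_le_h : ∀ a, 1 ≤ h a
  one_le_κ : ∀ a, 1 ≤ κ a
  F0 : ∀ s, constantCoeff (F s) ≠ 0
  ht_F : ∀ s, ht (constantCoeff (F s)) ≤ D * h (ca s)
  F_bs : ∀ b, F (bs b) = C (constantCoeff (F (bs b))) + X b
  F_only : ∀ s, F s ∈ onlyB {b | ca (bs b) = ca s}
  bnd : ∀ S : Finset (FinitePlace K), ∃ Q : M → Plc K S → ℝ, (∀ a v, 0 ≤ Q a v) ∧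
    (∀ a, ∑ v, Q a v ≤ D * h a) ∧ ∀ s v (n : β →₀ ℕ), coeff n (F s) ≠ 0 →
      lam v (coeff n (F s)) ≤ lam v (constantCoeff (F s)) + n.degree * Q (ca s) v
  intOff : ∃ S₀ : Finset (FinitePlace K), ∀ S, S₀ ⊆ S → ∀ s (n : β →₀ ℕ), IntOff S (coeff n (F s))
  Pi_deg : ∀ a, 0 < (Pi a).natDegree ∧ (Pi a).natDegree ≤ D
  Pi_coeff : ∀ a k, (∀ b ∈ ((Pi a).coeff k).vars, ca (bs b) = a) ∧
    ((Pi a).coeff k).totalDegree ≤ D ∧ L1 ((Pi a).coeff k) ≤ Real.exp (D * κ a)
  Pi_eq : ∀ a, (Pi a).eval₂ (evT fun b => constantCoeff (F (bs b))) (Θ a) = 0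
  Δ_prop : ∀ a, Δ a ≠ 0 ∧ (∀ b ∈ (Δ a).vars, ca (bs b) = a) ∧ (Δ a).totalDegree ≤ D ∧
    L1 (Δ a) ≤ Real.exp (D * κ a)
  N_deg : ∀ s, (N s).natDegree ≤ D
  N_coeff : ∀ s k, (∀ b ∈ ((N s).coeff k).vars, ca (bs b) = ca s) ∧
    ((N s).coeff k).totalDegree ≤ D ∧ L1 ((N s).coeff k) ≤ Real.exp (D * κ (ca s))
  N_eq : ∀ s, evT (fun b => constantCoeff (F (bs b))) (Δ (ca s)) * F s =
    (N s).eval₂ (evT fun b => constantCoeff (F (bs b))) (Θ (ca s))

/-- The total exponent of the class `a`. -/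
def cle {M A : Type} [Fintype A] [DecidableEq M] (ca : A → M) (al : A → ℕ) (a : M) : ℕ :=
  ∑ s, if ca s = a then al s else 0

end Pool.Agent.Zilber
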