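import Pool.Agent.Zilber.ADefs
import Pool.Agent.Zilber.BDefs

set_option autoImplicit false

/-! Case A, assembly: definitions. The extended coordinates: `inl (i, true)` is `x_i`, `inl (i,
false)` is
`x_i⁻¹`, `inr s` is the inverse of the leading coefficient of the equation of `inl s`. -/

namespace Pool.Agent.Zilber.CA

open NumberField Pool.Agent.LAll Pool.Agent.LSharp MvPowerSeries

variable {M β ι : Type}

/-- The classes of the extended coordinates. -/
def ca2 (cl : ι → M) : (ι × Bool) ⊕ (ι × Bool) → M :=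
  Sum.elim (fun s => cl s.1) fun s => cl s.1

/-- The variables as extended coordinates. -/
def bs2 (bs : β → ι) (b : β) : (ι × Bool) ⊕ (ι × Bool) := Sum.inl (bs b, true)

/-- The point of the branch. -/
noncomputable def ptL [Fintype β] {cl : ι → M} {bs : β → ι} {D : ℕ} {K : Type} [Field K]
    [NumberField K] (br : BrL (ca2 cl) (bs2 bs) D K) (b : β) : K :=
  constantCoeff (br.F (bs2 bs b))

/-- **The equations of the coordinates at one level.** -/
structure EqL [Fintype β] {cl : ι → M} {bs : β → ι} {D : ℕ} (DL : ℕ) {K : Type} [Field K]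
    [NumberField K] (br : BrL (ca2 cl) (bs2 bs) D K) where
  q : ι × Bool → MvPolynomial β ℤ
  p : ι × Bool → Fin DL → MvPolynomial β ℤ
  q_vars : ∀ s, ∀ b ∈ (q s).vars, cl (bs b) = cl s.1
  q_deg : ∀ s, (q s).totalDegree ≤ DL
  q_L1 : ∀ s, L1 (q s) ≤ Real.exp (DL * br.κ (cl s.1))
  p_vars : ∀ s i, ∀ b ∈ (p s i).vars, cl (bs b) = cl s.1
  p_deg : ∀ s i, (p s i).totalDegree ≤ DL
  p_L1 : ∀ s i, L1 (p s i) ≤ Real.exp (DL * br.κ (cl s.1))
  eqn : ∀ s, evT (ptL br) (q s) * br.F (Sum.inl s) ^ DL =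
    ∑ i : Fin DL, evT (ptL br) (p s i) * br.F (Sum.inl s) ^ (i : ℕ)
  inv : ∀ s, evT (ptL br) (q s) * br.F (Sum.inr s) = 1

/-- **The exponents of the auxiliary functions**: `∏_r z_r ^ (u r) * ∏_b x_(g b) ^ (e b)` with
`z_r = ∏_i x_i ^ (a r i)`; `s = (i, true)` is the exponent of `x_i`, `s = (i, false)` of `x_i⁻¹`. -/
def alX [Fintype β] [DecidableEq ι] (g : β → ι) (a : β → ι → ℤ) {B : ℕ} {n : M → ℕ} {cb : β → M}
    (x : XA β B n cb) (s : ι × Bool) : ℕ :=
  ∑ r, (x.1 r : ℕ) * (if s.2 then (a r s.1).toNat else (-a r s.1).toNat) +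
    if s.2 then ∑ b, (if g b = s.1 then (x.2 b : ℕ) else 0) else 0

end Pool.Agent.Zilber.CA
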