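import Pool.Agent.Zilber.BTaus

set_option autoImplicit false

/-! B02. The branch, at most levels. -/

namespace Pool.Agent.Zilber

open NumberField Pool.Agent.LAll Pool.Agent.LSharp MvPowerSeries Filter

variable {J M β A : Type} {𝒰 : Ultrafilter J} {K : J → Type} [∀ j, Field (K j)]
  [∀ j, NumberField (K j)] [Fintype M] [Fintype β] [Fintype A] [DecidableEq M] [DecidableEq β]
  [DecidableEq A]

private theorem kf_le_Lf (κ h : J → ℝ)
    (hκh : ∃ C : ℝ, ∀ᶠ j in (𝒰 : Filter J), κ j ≤ C * max 1 (h j)) :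
    kf 𝒰 K κ ≤ Lf 𝒰 K h := by
  intro y hy
  obtain ⟨r, hr1, hr2⟩ := hy
  exact ⟨_, hr1, hr2.mono hκh⟩

omit [∀ j, NumberField (K j)] [Fintype β] [DecidableEq β] in
private theorem rep_const {z : Ult 𝒰 K} {y : Ult 𝒰 (PS β K)} (h : eps0 β K y = z) :
    ∀ᶠ j in (𝒰 : Filter J), constantCoeff (y.rep j) = z.rep j := by
  have h1 := Ult.map_rep (𝒰 := 𝒰)
    (fun j => (MvPowerSeries.constantCoeff : PS β K j →+* K j)) y
  filter_upwards [h1] with j hj
  rw [← h]
  exact hj.symm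

omit [∀ j, NumberField (K j)] [Fintype β] [DecidableEq β] in
private theorem rep_cst_add (z : Ult 𝒰 K) (b : β) :
    ∀ᶠ j in (𝒰 : Filter J), (cst β K z + XU K b).rep j = C (z.rep j) + X b := by
  have h1 : cst β K z + XU K b =
      Ult.mk 𝒰 (PS β K) (fun j => C (z.rep j) + X b) := by
    have h2 : cst β K z = Ult.mk 𝒰 (PS β K) (fun j => C (z.rep j)) := by
      conv_lhs => rw [← Ult.mk_rep z]
      rfl
    rw [h2]
    exact (map_add (Ult.mk 𝒰 (PS β K)) (fun j => C (z.rep j)) fun j => X b).symm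
  rw [h1]
  exact Ult.rep_mk _

/-- **The branch at most levels.** `L`, `τ` as in `exists_taus`.

Proof. Put `t b = x (bs b)`. Everything is a finite conjunction of statements which hold for most `j`
(`Filter.eventually_all` for finite types). For each `s` : `branch_bounds` with `k = kf 𝒰 K (κ a)`,
`a = ca s`, `s = h a` (`kf 𝒰 K (κ a) ≤ Lf 𝒰 K (h a)`: `Hb.mono` with `hκh`), `A = {b | ca (bs b) = a}`, gives
`C_s` and for most `j` and all `S` some `Q_s : Plc (K j) S → ℝ`; take `Q a v = ∑_s Q_s v` (over `s` with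
`ca s = a`), `D ≥ ∑ C_s`; the set `S₀` is the union of the sets for the `s`. `lam v (constantCoeff (F s))`:
`constantCoeff ((τ (x s)).rep j) = (x s).rep j` for most `j`, from `eps0 (τ z) = z` (`Ult.map_rep` and
`Ult.rep_mk`, or `Ult.mk_eq_mk`). `F0` from `hx0` (`Ult.rep_ne_zero`), `ht_F` from `ht_rep_le`, `F_bs` from the
value of `τ` on `x (bs b)`: `cst z + XU b` is the class of `j ↦ C (z.rep j) + X b`. `F_only` from `exists_taus`.
For each class `a` : `rel_primitive` with `s = κ a`, `I = {s // ca s = a}` and `u` the elements `x s`, gives `Θ a`,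
`Pi a`, `Δ a`, `N`; its evaluation map `MvPolynomial.aeval (fun b => C (t_b.rep j) + X b)` is `evT` of
`fun b => constantCoeff (F (bs b))` for most `j` (as above). `D` is the maximum of all the constants
(the bounds are monotone in `D`: the degrees, `exp (D κ)` with `κ ≥ 1`). `h a = max 1 (h a j)`,
`κ a = max 1 (κ a j)`. -/
theorem exists_branch (ca : A → M) (bs : β → A) (h κ : M → J → ℝ)
    (hκh : ∀ a, ∃ C : ℝ, ∀ᶠ j in (𝒰 : Filter J), κ a j ≤ C * max 1 (h a j)) (x : A → Ult 𝒰 K)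
    (hx0 : ∀ s, x s ≠ 0) (hx : ∀ s, x s ∈ Lf 𝒰 K (h (ca s)))
    (hind : ∀ a, AlgebraicIndependent (kf 𝒰 K (κ a))
      (fun b : {b // ca (bs b) = a} => x (bs b)))
    (L : M → Subfield (Ult 𝒰 K)) (τ : ∀ a, L a →+* Ult 𝒰 (PS β K))
    (hkL : ∀ a, kf 𝒰 K (κ a) ≤ L a) (hxL : ∀ s, x s ∈ L (ca s))
    (halg : ∀ a (z : L a), IsAlgebraic (Algebra.adjoin (kf 𝒰 K (κ a))
        ((fun b => x (bs b)) '' {b | ca (bs b) = a})) (z : Ult 𝒰 K))
    (h1 : ∀ a z, eps0 β K (τ a z) = z)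
    (h2 : ∀ a (z : L a), (z : Ult 𝒰 K) ∈ kf 𝒰 K (κ a) → τ a z = cst β K z)
    (h3 : ∀ a b, ca (bs b) = a → ∀ z : L a, (z : Ult 𝒰 K) = x (bs b) →
        τ a z = cst β K (x (bs b)) + XU K b)
    (h4 : ∀ a z, ∀ᶠ j in (𝒰 : Filter J), (τ a z).rep j ∈ onlyB {b | ca (bs b) = a}) :
    ∃ D : ℕ, ∀ᶠ j in (𝒰 : Filter J), ∃ br : BrL ca bs D (K j),
      (∀ s, br.F s = (τ (ca s) ⟨x s, hxL s⟩).rep j) ∧
      (∀ a, br.h a = max 1 (h a j)) ∧ ∀ a, br.κ a = max 1 (κ a j) := by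
  classical
  have hfil : ∀ a, ((Finset.univ.filter fun b => ca (bs b) = a : Finset β) : Set β) =
      {b | ca (bs b) = a} := by
    intro a
    ext b
    simp
  have hind' : ∀ a, AlgebraicIndependent (kf 𝒰 K (κ a))
      (fun b : {b // b ∈ Finset.univ.filter fun b => ca (bs b) = a} => x (bs b)) := by
    intro a
    exact (hind a).comp
      (fun b : {b // b ∈ Finset.univ.filter fun b => ca (bs b) = a} =>
        (⟨b.1, (Finset.mem_filter.1 b.2).2⟩ : {b // ca (bs b) = a}))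
      (fun b b' hb => Subtype.ext (show b.1 = b'.1 from Subtype.mk.inj hb))
  have halg' : ∀ a (z : L a), IsAlgebraic (Algebra.adjoin (kf 𝒰 K (κ a))
      ((fun b => x (bs b)) '' (Finset.univ.filter fun b => ca (bs b) = a : Finset β)))
        (z : Ult 𝒰 K) := by
    intro a z
    rw [hfil a]
    exact halg a z
  have hkf : ∀ a, kf 𝒰 K (κ a) ≤ Lf 𝒰 K (h a) := fun a => kf_le_Lf _ _ (hκh a)
  have hxL' : ∀ s a, ca s = a → x s ∈ L a := by
    rintro s a rfl
    exact hxL s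
  have htL : ∀ a, ∀ b ∈ Finset.univ.filter (fun b => ca (bs b) = a), x (bs b) ∈ L a := by
    intro a b hb
    have hb' := (Finset.mem_filter.1 hb).2
    rw [← hb']
    exact hxL (bs b)
  have htLf : ∀ a, ∀ b ∈ Finset.univ.filter (fun b => ca (bs b) = a),
      x (bs b) ∈ Lf 𝒰 K (h a) := by
    intro a b hb
    have hb' := (Finset.mem_filter.1 hb).2
    rw [← hb']
    exact hx (bs b)
  have h3' : ∀ a, ∀ b ∈ Finset.univ.filter (fun b => ca (bs b) = a), ∀ z : L a,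
      (z : Ult 𝒰 K) = x (bs b) → τ a z = cst β K (x (bs b)) + XU K b :=
    fun a b hb z hz => h3 a b (Finset.mem_filter.1 hb).2 z hz
  have hB := fun s => branch_bounds (kf 𝒰 K (κ (ca s))) (h (ca s)) (hkf (ca s))
    (Finset.univ.filter fun b => ca (bs b) = ca s) (fun b => x (bs b)) (htLf (ca s))
    (hind' (ca s)) (L (ca s)) (τ (ca s)) (hkL (ca s)) (htL (ca s)) (h1 (ca s)) (h2 (ca s))
    (h3' (ca s)) ⟨x s, hxL s⟩ (hx s) (fun h0 => hx0 s (congrArg Subtype.val h0))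
    (halg' (ca s) ⟨x s, hxL s⟩)
  choose C0 hC0 using hB
  have hP := fun a => rel_primitive (κ a) (Finset.univ.filter fun b => ca (bs b) = a)
    (fun b => x (bs b)) (hind' a) (L a) (τ a) (hkL a) (htL a) (h2 a) (h3' a)
    (I := {s // ca s = a}) (fun s => ⟨x s.1, hxL' s.1 a s.2⟩) (fun s => halg' a _)
  choose D1 hD1 using hP
  obtain ⟨D0, hD0⟩ := ht_rep_le ca h x hx
  have e1 : ∀ s, ∀ᶠ j in (𝒰 : Filter J),
      constantCoeff ((τ (ca s) ⟨x s, hxL s⟩).rep j) = (x s).rep j := fun s =>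
    rep_const (h1 (ca s) ⟨x s, hxL s⟩)
  have e2 : ∀ s, ∀ᶠ j in (𝒰 : Filter J), (x s).rep j ≠ 0 := fun s => Ult.rep_ne_zero (hx0 s)
  have e4 : ∀ b, ∀ᶠ j in (𝒰 : Filter J),
      (τ (ca (bs b)) ⟨x (bs b), hxL (bs b)⟩).rep j = C ((x (bs b)).rep j) + X b := by
    intro b
    rw [h3 (ca (bs b)) b rfl ⟨x (bs b), hxL (bs b)⟩ rfl]
    exact rep_cst_add _ _
  have e5 : ∀ s, ∀ᶠ j in (𝒰 : Filter J),
      (τ (ca s) ⟨x s, hxL s⟩).rep j ∈ onlyB {b | ca (bs b) = ca s} := fun s => h4 (ca s) _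
  refine ⟨D0 + ∑ a, D1 a + ⌈∑ s, |C0 s|⌉₊, ?_⟩
  filter_upwards [hD0, Filter.eventually_all.2 hC0, Filter.eventually_all.2 hD1,
    Filter.eventually_all.2 e1, Filter.eventually_all.2 e2, Filter.eventually_all.2 e4,
    Filter.eventually_all.2 e5] with j g0 gC gD g1 g2 g4 g5
  have hS : ∀ a, D1 a ≤ D0 + ∑ a, D1 a + ⌈∑ s, |C0 s|⌉₊ := by
    intro a
    have := Finset.single_le_sum (f := D1) (fun i _ => Nat.zero_le _) (Finset.mem_univ a)
    omega
  have hSR : ∀ a, (D1 a : ℝ) ≤ ((D0 + ∑ a, D1 a + ⌈∑ s, |C0 s|⌉₊ : ℕ) : ℝ) := fun a => by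
    exact_mod_cast hS a
  have hD0R : (D0 : ℝ) ≤ ((D0 + ∑ a, D1 a + ⌈∑ s, |C0 s|⌉₊ : ℕ) : ℝ) := by
    have : D0 ≤ D0 + ∑ a, D1 a + ⌈∑ s, |C0 s|⌉₊ := by omega
    exact_mod_cast this
  have hCR : ∑ s, |C0 s| ≤ ((D0 + ∑ a, D1 a + ⌈∑ s, |C0 s|⌉₊ : ℕ) : ℝ) := by
    have h5 : ⌈∑ s, |C0 s|⌉₊ ≤ D0 + ∑ a, D1 a + ⌈∑ s, |C0 s|⌉₊ := by omega
    exact (Nat.le_ceil _).trans (by exact_mod_cast h5)
  have hm : ∀ y : ℝ, (0 : ℝ) ≤ max 1 y := fun y => zero_le_one.trans (le_max_left _ _)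
  have hexp : ∀ a, Real.exp (D1 a * max 1 (κ a j)) ≤
      Real.exp ((D0 + ∑ a, D1 a + ⌈∑ s, |C0 s|⌉₊ : ℕ) * max 1 (κ a j)) := fun a =>
    Real.exp_le_exp.2 (mul_le_mul_of_nonneg_right (hSR a) (hm _))
  generalize hDd : D0 + ∑ a, D1 a + ⌈∑ s, |C0 s|⌉₊ = D at hS hSR hD0R hCR hexp ⊢
  choose Θ Pi Δ N p1 p2 p3 p4 p5 p6 p7 using gD
  choose gQ gI using gC
  choose S0 hS0 using gI
  have ht : (fun b => constantCoeff ((τ (ca (bs b)) ⟨x (bs b), hxL (bs b)⟩).rep j)) =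
      fun b => (x (bs b)).rep j := funext fun b => g1 (bs b)
  refine ⟨{
    h := fun a => max 1 (h a j)
    κ := fun a => max 1 (κ a j)
    F := fun s => (τ (ca s) ⟨x s, hxL s⟩).rep j
    Θ := Θ
    Pi := Pi
    Δ := Δ
    N := fun s => N (ca s) ⟨s, rfl⟩
    one_le_h := fun a => le_max_left _ _
    one_le_κ := fun a => le_max_left _ _
    F0 := fun s => by rw [g1 s]; exact g2 s
    ht_F := fun s => by
      rw [g1 s]
      exact (g0 s).trans (mul_le_mul_of_nonneg_right hD0R (hm _))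
    F_bs := fun b => by
      rw [g1 (bs b)]
      exact g4 b
    F_only := g5
    bnd := ?_
    intOff := ?_
    Pi_deg := fun a => ⟨p1 a, (p2 a).trans (hS a)⟩
    Pi_coeff := fun a k => ?_
    Pi_eq := fun a => ?_
    Δ_prop := fun a => ?_
    N_deg := fun s => (p4 (ca s) ⟨s, rfl⟩).trans (hS (ca s))
    N_coeff := fun s k => ?_
    N_eq := fun s => ?_ }, fun s => rfl, fun a => rfl, fun a => rfl⟩
  · intro S
    choose Q q1 q2 q3 using fun s => gQ s S
    refine ⟨fun a v => ∑ s, if ca s = a then Q s v else 0, ?_, ?_, ?_⟩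
    · intro a v
      refine Finset.sum_nonneg fun s _ => ?_
      split_ifs
      · exact q1 s v
      · exact le_refl _
    · intro a
      rw [Finset.sum_comm]
      have h5 : ∀ s, (∑ v, if ca s = a then Q s v else 0) ≤ |C0 s| * max 1 (h a j) := by
        intro s
        by_cases hs : ca s = a
        · simp only [hs, if_true]
          have h6 := q2 s
          rw [hs] at h6
          exact h6.trans (mul_le_mul_of_nonneg_right (le_abs_self _) (hm _))
        · simp only [hs, if_false, Finset.sum_const_zero]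
          exact mul_nonneg (abs_nonneg _) (hm _)
      refine (Finset.sum_le_sum fun s _ => h5 s).trans ?_
      rw [← Finset.sum_mul]
      exact mul_le_mul_of_nonneg_right hCR (hm _)
    · intro s v n hn
      refine (q3 s v n hn).trans ?_
      have h5 : Q s v ≤ ∑ s', if ca s' = ca s then Q s' v else 0 := by
        have h6 := Finset.single_le_sum
          (f := fun s' => if ca s' = ca s then Q s' v else 0)
          (fun i _ => by
            split_ifs
            · exact q1 i v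
            · exact le_refl _) (Finset.mem_univ s)
        simpa using h6
      have h8 : (0 : ℝ) ≤ n.degree := by exact_mod_cast Nat.zero_le _
      exact add_le_add (le_of_eq (congrArg (lam v) (g1 s).symm))
        (mul_le_mul_of_nonneg_left h5 h8)
  · refine ⟨Finset.univ.biUnion S0, fun S hSS s n => ?_⟩
    exact hS0 s S ((Finset.subset_biUnion_of_mem S0 (Finset.mem_univ s)).trans hSS) n
  · have h5 := p5 a ((Pi a).coeff k) (Or.inr (Or.inl ⟨k, rfl⟩))
    exact ⟨fun b hb => (Finset.mem_filter.1 (h5.1 b hb)).2, h5.2.1.trans (hS a),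
      h5.2.2.trans (hexp a)⟩
  · have h5 := p6 a
    show (Pi a).eval₂ (evT fun b =>
      constantCoeff ((τ (ca (bs b)) ⟨x (bs b), hxL (bs b)⟩).rep j)) (Θ a) = 0
    rw [ht]
    exact h5
  · have h5 := p5 a (Δ a) (Or.inl rfl)
    exact ⟨p3 a, fun b hb => (Finset.mem_filter.1 (h5.1 b hb)).2, h5.2.1.trans (hS a),
      h5.2.2.trans (hexp a)⟩
  · have h5 := p5 (ca s) ((N (ca s) ⟨s, rfl⟩).coeff k) (Or.inr (Or.inr ⟨⟨s, rfl⟩, k, rfl⟩))
    exact ⟨fun b hb => (Finset.mem_filter.1 (h5.1 b hb)).2, h5.2.1.trans (hS (ca s)),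
      h5.2.2.trans (hexp (ca s))⟩
  · have h5 := p7 (ca s) ⟨s, rfl⟩
    show evT (fun b => constantCoeff ((τ (ca (bs b)) ⟨x (bs b), hxL (bs b)⟩).rep j)) (Δ (ca s)) *
        (τ (ca s) ⟨x s, hxL s⟩).rep j = (N (ca s) ⟨s, rfl⟩).eval₂
          (evT fun b => constantCoeff ((τ (ca (bs b)) ⟨x (bs b), hxL (bs b)⟩).rep j)) (Θ (ca s))
    rw [ht]
    exact h5

end Pool.Agent.Zilber
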