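import Pool.Agent.Zilber.BTauD
import Pool.Agent.Zilber.BAll
import Pool.Agent.Zilber.BCon1

set_option autoImplicit false

/-! B16. Level data for the branch in case A: base fields `ko (s l)`. -/

namespace Pool.Agent.Zilber

open Filter NumberField Module Pool.Agent.LAll Pool.Agent.LSharp

variable {J : Type} {𝒰 : Ultrafilter J} {K : J → Type} [∀ j, Field (K j)] [∀ j, NumberField (K j)]
  {k : ℕ} {ι β : Type} [Fintype ι] [Fintype β] [DecidableEq β]

/-- The elements of `L` which are algebraic over a subalgebra. -/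
private def algSub {F Ω : Type} [Field F] [Field Ω] [Algebra F Ω] (R : Subalgebra F Ω)
    (L : Subfield Ω) : Subfield Ω where
  carrier := {y | y ∈ L ∧ IsAlgebraic R y}
  zero_mem' := ⟨zero_mem _, isAlgebraic_zero⟩
  one_mem' := ⟨one_mem _, isAlgebraic_one⟩
  add_mem' := fun h1 h2 => ⟨add_mem h1.1 h2.1, h1.2.add h2.2⟩
  mul_mem' := fun h1 h2 => ⟨mul_mem h1.1 h2.1, h1.2.mul h2.2⟩
  neg_mem' := fun h => ⟨neg_mem h.1, h.2.neg⟩
  inv_mem' := fun _ h => ⟨inv_mem h.1, h.2.inv⟩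

/-- Algebraic independence over a smaller subfield. -/
private theorem ind_mono {Ω : Type} [Field Ω] {F F' : Subfield Ω} (hF : F' ≤ F) {γ : Type}
    {x : γ → Ω} (h : AlgebraicIndependent F x) : AlgebraicIndependent F' x := by
  let _ : Algebra F' F := (Subfield.inclusion hF).toAlgebra
  have : IsScalarTower F' F Ω := IsScalarTower.of_algebraMap_eq fun _ => rfl
  exact h.restrictScalars (R := F') (Subfield.inclusion hF).injective

/-- Finitely many elements which are algebraic over `ko s (T)` are algebraic over `kf κ (T)` for one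
`κ = o(s)`, and `κ` may be taken `≥` any given `κ' = o(s)`.

Proof. `alg_fin_const` (BCon1) for each of them: finitely many constants in `ko s`, each in some
`kf σ`, `σ = o(s)` (`mem_ko`); `κ` is the maximum of the finitely many `σ`, of `κ'` and of `1` if `1 = o(s)`; here we do
not ask for `1 ≤ κ`. (`kf_mono`, `Oo.max`.) -/
theorem alg_kf_of_ko {A : Type} [Fintype A] (s κ' : J → ℝ) (hκ' : Oo 𝒰 κ' s)
    (T : Set (Ult 𝒰 K)) (y : A → Ult 𝒰 K)
    (hy : ∀ a, IsAlgebraic (Algebra.adjoin (ko 𝒰 K s) T) (y a)) :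
    ∃ κ : J → ℝ, Oo 𝒰 κ s ∧ (∀ j, κ' j ≤ κ j) ∧
      ∀ a, IsAlgebraic (Algebra.adjoin (kf 𝒰 K κ) T) (y a) := by
  classical
  choose c hc hc' using fun a => alg_fin_const (ko 𝒰 K s) T (y a) (hy a)
  have key : ∀ W : Finset (Ult 𝒰 K), (∀ z ∈ W, z ∈ ko 𝒰 K s) → ∃ κ : J → ℝ, Oo 𝒰 κ s ∧
      (∀ j, κ' j ≤ κ j) ∧ ∀ z ∈ W, z ∈ kf 𝒰 K κ := by
    intro W
    induction W using Finset.induction_on with
    | empty =>
      intro _
      exact ⟨κ', hκ', fun j => le_refl _, fun z hz => absurd hz (Finset.notMem_empty z)⟩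
    | insert z W _ ih =>
      intro h
      obtain ⟨κ, h1, h2, h3⟩ := ih fun w hw => h w (Finset.mem_insert_of_mem hw)
      obtain ⟨σ, h4, h5⟩ := (mem_ko 𝒰 K).1 (h z (Finset.mem_insert_self _ _))
      refine ⟨fun j => max (κ j) (σ j), h1.max 𝒰 h4, fun j => (h2 j).trans (le_max_left _ _), ?_⟩
      intro w hw
      rcases Finset.mem_insert.1 hw with rfl | hw
      · exact kf_mono 𝒰 K (fun j => le_max_right _ _) h5
      · exact kf_mono 𝒰 K (fun j => le_max_left _ _) (h3 w hw)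
  obtain ⟨κ, h1, h2, h3⟩ := key (Finset.univ.biUnion c) fun z hz => by
    obtain ⟨a, -, ha⟩ := Finset.mem_biUnion.1 hz
    exact hc a z ha
  exact ⟨κ, h1, h2, fun a => hc' a _ fun z hz =>
    h3 z (Finset.mem_biUnion.2 ⟨a, Finset.mem_univ _, hz⟩)⟩

/-- **Level data, case A**: for any finite family of nonzero elements `y a` of the fields `L (ρ (ca a))`, of height
`O(s (ρ (ca a)))`, containing the basis, and given `κ' m = o(s (ρ m))`: the structure `BrL` at most levels, with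
coefficients of size `κ m = o(s (ρ m))`, `κ m ≥ κ' m`. The classes are the elements of a type `M` with an
injective map `ρ` to the blocks (for instance the blocks `≠ 0`).

Proof. By `alg_kf_of_ko` (for each `m`, the `y a` with `ca a = m`, and `s = s (ρ m)`) there are `κ m`. Let
`T m = {y | ∃ b, cl (bs b) = ρ m ∧ y = x (bs b)}` and let `L' m` be the subfield of the elements of `L (ρ m)` which are algebraic over
`kf (κ m) [T m]` (a subfield: sums, products and inverses of algebraic elements are algebraic), `τ' m` the restriction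
of `τ (ρ m)` (`Subfield.inclusion`). `exists_branch` (BAll) with `h m = s (ρ m)`, `κ`, `L'`, `τ'`: `hκh` from `Oo` (`κ m ≤ |s| = s`, as
`1 ≤ s`: `hc.scl.one`); independence over `kf (κ m)` from the independence over `ko (s (ρ m))` (`hc.ind`; `kf κ ≤ ko s`; index
types: `ca (bs' b) = m ↔ cl (bs b) = ρ m` by `hbs` and injectivity). `br.κ m = max 1 (κ m j)`. -/
theorem level_A {M A : Type} [Fintype M] [DecidableEq M] [Fintype A] [DecidableEq A]
    (s : Fin (k + 1) → J → ℝ) {cl : ι → Fin (k + 1)} {x : ι → Ult 𝒰 K} {bs : β → ι}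
    (hc : Conf 𝒰 K s (FA 𝒰 K s) cl x bs) (L : Fin (k + 1) → Subfield (Ult 𝒰 K))
    (τ : ∀ l, L l →+* Ult 𝒰 (PS β K)) (hT : Taus (FA 𝒰 K s) cl x bs L τ)
    (ρ : M → Fin (k + 1)) (hρ : Function.Injective ρ) (ca : A → M) (bs' : β → A)
    (y : A → Ult 𝒰 K) (hy : ∀ a, y a ∈ L (ρ (ca a)))
    (hy0 : ∀ a, y a ≠ 0) (hyh : ∀ a, y a ∈ Lf 𝒰 K (s (ρ (ca a))))
    (hbs : ∀ b, ρ (ca (bs' b)) = cl (bs b) ∧ y (bs' b) = x (bs b))
    (κ' : M → J → ℝ) (hκ' : ∀ m, Oo 𝒰 (κ' m) (s (ρ m))) :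
    ∃ (κ : M → J → ℝ) (D : ℕ), (∀ m, Oo 𝒰 (κ m) (s (ρ m))) ∧ (∀ m j, κ' m j ≤ κ m j) ∧
      ∀ᶠ j in (𝒰 : Filter J), ∃ br : BrL ca bs' D (K j),
      (∀ a, br.F a = (τ (ρ (ca a)) ⟨y a, hy a⟩).rep j) ∧
      (∀ m, br.h m = max 1 (s (ρ m) j)) ∧ ∀ m, br.κ m = max 1 (κ m j) := by
  classical
  have hsF : ∀ l, FA 𝒰 K s l = ko 𝒰 K (s l) := fun l => rfl
  choose κ h1 h2 h3 using fun m => alg_kf_of_ko (𝒰 := 𝒰) (K := K) (A := {a // ca a = m})
    (s (ρ m)) (κ' m) (hκ' m) {z | ∃ b, cl (bs b) = ρ m ∧ z = x (bs b)} (fun a => y a.1)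
    (fun a => by
      obtain ⟨a, rfl⟩ := a
      exact hT.alg (ρ (ca a)) ⟨y a, hy a⟩)
  have hkk : ∀ m, kf 𝒰 K (κ m) ≤ FA 𝒰 K s (ρ m) := fun m z hz =>
    (mem_ko 𝒰 K).2 ⟨κ m, h1 m, hz⟩
  have hset : ∀ m, (fun b => y (bs' b)) '' {b | ca (bs' b) = m} =
      {z | ∃ b, cl (bs b) = ρ m ∧ z = x (bs b)} := by
    intro m
    ext z
    constructor
    · rintro ⟨b, hb, rfl⟩
      refine ⟨b, ?_, (hbs b).2⟩
      rw [← (hbs b).1]
      exact congrArg ρ hb
    · rintro ⟨b, hb, rfl⟩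
      exact ⟨b, hρ ((hbs b).1.trans hb), (hbs b).2⟩
  have hle : ∀ m, algSub (Algebra.adjoin (kf 𝒰 K (κ m))
      {z | ∃ b, cl (bs b) = ρ m ∧ z = x (bs b)}) (L (ρ m)) ≤ L (ρ m) := fun m z hz => hz.1
  suffices H : ∃ D : ℕ, ∀ᶠ j in (𝒰 : Filter J), ∃ br : BrL ca bs' D (K j),
      (∀ a, br.F a = (τ (ρ (ca a)) ⟨y a, hy a⟩).rep j) ∧
      (∀ m, br.h m = max 1 (s (ρ m) j)) ∧ ∀ m, br.κ m = max 1 (κ m j) by
    obtain ⟨D, hD⟩ := H
    exact ⟨κ, D, h1, h2, hD⟩
  refine exists_branch (𝒰 := 𝒰) (K := K) ca bs' (fun m => s (ρ m)) κ ?_ y hy0 hyh ?_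
    (fun m => algSub (Algebra.adjoin (kf 𝒰 K (κ m))
      {z | ∃ b, cl (bs b) = ρ m ∧ z = x (bs b)}) (L (ρ m)))
    (fun m => (τ (ρ m)).comp (Subfield.inclusion (hle m))) ?_
    (fun a => ⟨hy a, h3 (ca a) ⟨a, rfl⟩⟩) ?_ ?_ ?_ ?_ ?_
  · intro m
    refine ⟨1, ?_⟩
    filter_upwards [h1 m 1 one_pos] with j hj
    rw [abs_of_nonneg (zero_le_one.trans (hc.scl.one (ρ m) j))] at hj
    exact hj.trans (mul_le_mul_of_nonneg_left (le_max_right _ _) zero_le_one)
  · intro m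
    have g := ind_mono (hkk m) (hc.ind (ρ m))
    have g1 := g.comp (fun b : {b // ca (bs' b) = m} =>
      (⟨b.1, (hbs b.1).1.symm.trans (congrArg ρ b.2)⟩ : {b // cl (bs b) = ρ m}))
      (fun b b' hb => Subtype.ext (show b.1 = b'.1 from Subtype.mk.inj hb))
    have g2 : (fun b : {b // ca (bs' b) = m} => y (bs' b)) =
        (fun b : {b // cl (bs b) = ρ m} => x (bs b)) ∘ (fun b : {b // ca (bs' b) = m} =>
      (⟨b.1, (hbs b.1).1.symm.trans (congrArg ρ b.2)⟩ : {b // cl (bs b) = ρ m})) :=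
      funext fun b => (hbs b.1).2
    rw [g2]
    exact g1
  · intro m z hz
    refine ⟨hT.le (ρ m) (hkk m hz), ?_⟩
    have g := isAlgebraic_algebraMap (R := Algebra.adjoin (kf 𝒰 K (κ m))
      {z | ∃ b, cl (bs b) = ρ m ∧ z = x (bs b)}) (A := Ult 𝒰 K)
      ⟨z, Subalgebra.algebraMap_mem _ (⟨z, hz⟩ : kf 𝒰 K (κ m))⟩
    exact g
  · intro m z
    rw [hset m]
    exact z.2.2
  · intro m z
    exact hT.eps (ρ m) _
  · intro m z hz
    exact hT.con (ρ m) _ (hkk m hz)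
  · intro m b hb z hz
    have g : cl (bs b) = ρ m := by
      rw [← (hbs b).1]
      exact congrArg ρ hb
    have g1 := hT.var (ρ m) b g (Subfield.inclusion (hle m) z) (hz.trans (hbs b).2)
    rw [(hbs b).2]
    exact g1
  · intro m z
    have g := hT.only (ρ m) (Subfield.inclusion (hle m) z)
    have g1 : {b | ca (bs' b) = m} = {b | cl (bs b) = ρ m} := by
      ext b
      constructor
      · intro hb
        show cl (bs b) = ρ m
        rw [← (hbs b).1]
        exact congrArg ρ hb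
      · intro hb
        exact hρ ((hbs b).1.trans hb)
    rw [g1]
    exact g

end Pool.Agent.Zilber
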