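import Pool.Agent.Zilber.AVDefs
import Pool.Agent.Zilber.AUEqn
import Pool.Agent.Zilber.BLevA

set_option autoImplicit false

/-! AV6. The branch with the extended coordinates and the equations, at most levels. -/

namespace Pool.Agent.Zilber.CA

open Filter NumberField Module Pool.Agent.LAll Pool.Agent.LSharp MvPowerSeries

/-- The structure `BrL` is monotone in `D`. -/
private noncomputable def monoBr {M β A : Type} [Fintype β] {ca : A → M} {bs : β → A} {D D' : ℕ}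
    (hD : D ≤ D') {K : Type} [Field K] [NumberField K] (br : BrL ca bs D K) :
    BrL ca bs D' K where
  h := br.h
  κ := br.κ
  F := br.F
  Θ := br.Θ
  Pi := br.Pi
  Δ := br.Δ
  N := br.N
  one_le_h := br.one_le_h
  one_le_κ := br.one_le_κ
  F0 := br.F0
  ht_F := fun s => (br.ht_F s).trans (mul_le_mul_of_nonneg_right (by exact_mod_cast hD)
    (zero_le_one.trans (br.one_le_h _)))
  F_bs := br.F_bs
  F_only := br.F_only
  bnd := fun S => by
    obtain ⟨Q, h1, h2, h3⟩ := br.bnd S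
    exact ⟨Q, h1, fun a => (h2 a).trans (mul_le_mul_of_nonneg_right (by exact_mod_cast hD)
      (zero_le_one.trans (br.one_le_h _))), h3⟩
  intOff := br.intOff
  Pi_deg := fun a => ⟨(br.Pi_deg a).1, (br.Pi_deg a).2.trans hD⟩
  Pi_coeff := fun a k => ⟨(br.Pi_coeff a k).1, (br.Pi_coeff a k).2.1.trans hD,
    (br.Pi_coeff a k).2.2.trans (Real.exp_le_exp.2 (mul_le_mul_of_nonneg_right
      (by exact_mod_cast hD) (zero_le_one.trans (br.one_le_κ _))))⟩
  Pi_eq := br.Pi_eq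
  Δ_prop := fun a => ⟨(br.Δ_prop a).1, (br.Δ_prop a).2.1, (br.Δ_prop a).2.2.1.trans hD,
    (br.Δ_prop a).2.2.2.trans (Real.exp_le_exp.2 (mul_le_mul_of_nonneg_right
      (by exact_mod_cast hD) (zero_le_one.trans (br.one_le_κ _))))⟩
  N_deg := fun s => (br.N_deg s).trans hD
  N_coeff := fun s k => ⟨(br.N_coeff s k).1, (br.N_coeff s k).2.1.trans hD,
    (br.N_coeff s k).2.2.trans (Real.exp_le_exp.2 (mul_le_mul_of_nonneg_right
      (by exact_mod_cast hD) (zero_le_one.trans (br.one_le_κ _))))⟩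
  N_eq := br.N_eq

variable {J : Type} {𝒰 : Ultrafilter J} {K : J → Type} [∀ j, Field (K j)] [∀ j, NumberField (K j)]
  {k : ℕ} {s : Fin (k + 1) → J → ℝ} {ι β : Type} [Fintype ι]
  [Fintype β] [DecidableEq ι] [DecidableEq β] {cl : ι → Fin (k + 1)} {x : ι → Ult 𝒰 K}
  {bs : β → ι} {X : ι → Ult 𝒰 (PS β K)}

omit [∀ j, NumberField (K j)] [Fintype β] [DecidableEq β] in
private theorem avx_const {z : Ult 𝒰 K} {y : Ult 𝒰 (PS β K)} (h : eps0 β K y = z) :
    ∀ᶠ j in (𝒰 : Filter J), constantCoeff (y.rep j) = z.rep j := by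
  have h1 := Ult.map_rep (𝒰 := 𝒰)
    (fun j => (MvPowerSeries.constantCoeff : PS β K j →+* K j)) y
  filter_upwards [h1] with j hj
  rw [← h]
  exact hj.symm

omit [∀ j, NumberField (K j)] [Fintype β] [DecidableEq β] in
private theorem avx_mul {y z : Ult 𝒰 (PS β K)} (h : y * z = 1) :
    ∀ᶠ j in (𝒰 : Filter J), y.rep j * z.rep j = 1 := by
  have h1 : Ult.mk 𝒰 (PS β K) (y.rep * z.rep) = Ult.mk 𝒰 (PS β K) 1 := by
    rw [map_mul, Ult.mk_rep, Ult.mk_rep, map_one]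
    exact h
  filter_upwards [Ult.mk_eq_mk.1 h1] with j hj
  exact hj

omit [∀ j, Field (K j)] [∀ j, NumberField (K j)] in
/-- A finite sum of `o(s)`. -/
private theorem avx_oo {P : Type} [Fintype P] {f : P → J → ℝ} {σ : J → ℝ}
    (h : ∀ p, Oo 𝒰 (f p) σ) : Oo 𝒰 (fun j => ∑ p, f p j) σ := by
  intro ε hε
  have h1 : ∀ᶠ j in (𝒰 : Filter J), ∀ p, f p j ≤ ε / (Fintype.card P + 1) * |σ j| := by
    rw [Filter.eventually_all]
    exact fun p => h p _ (by positivity)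
  filter_upwards [h1] with j hj
  refine (Finset.sum_le_sum fun p _ => hj p).trans ?_
  rw [Finset.sum_const, Finset.card_univ, nsmul_eq_mul]
  have h2 : (Fintype.card P : ℝ) * (ε / (Fintype.card P + 1) * |σ j|) =
      (Fintype.card P / (Fintype.card P + 1)) * (ε * |σ j|) := by ring
  rw [h2]
  have h3 : (Fintype.card P : ℝ) / (Fintype.card P + 1) ≤ 1 := by
    rw [div_le_one (by positivity)]
    linarith
  have h4 : 0 ≤ ε * |σ j| := by positivity
  nlinarith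

/-- **The extended branch.**

Proof. `hX.taus` gives `L`, `τ`, `hT : Taus`, and `X i = τ (cl i) (x i)`. For `s = (i, true)` let
`u_s = x i`, for `(i, false)` let
`u_s = (x i)⁻¹`, elements of `L (cl i)`, nonzero, in `Lf (s (cl i))` (a subfield, `hc.hgt`).
`exists_eqn` for each `s` gives `κ_s`, `D0_s`, `w_s`.
`κ' m j = ∑_s (if cl s.1 = m then max 0 (κ_s j) else 0)`, which is `o(s m)` (finite sum) and `≥
κ_s` for `cl s.1 = m`
(or a finite supremum with `Oo.max`). `level_A` with `M = {l // l ≠ 0}`, `ρ = Subtype.val`, `A = (ι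
× Bool) ⊕ (ι × Bool)`,
`ca = ca2 (fun i => ⟨cl i, h0 i⟩)`, `bs' = bs2 bs`, `y = Sum.elim u w`. It gives `κ ≥ κ'`, `D₁`.
`BrL` is monotone in `D` (the
bounds: `D₁ * h`, `exp (D₁ κ)`, degrees `≤ D₁`; `h, κ ≥ 1`), so `D = max D₁ 1` (a new structure
with the same fields).
`D0 = max over s of D0_s` (or the sum). Let `DL ≥ D0`; `exists_eqn` with `D = DL`: `bb`, `pp` for
each `s`, for most `j`;
`L1 ≤ exp (DL max 1 (κ_s j)) ≤ exp (DL max 1 (κ m j))`.
`ptL br b = constantCoeff ((τ (x (bs b))).rep j) = (x (bs b)).rep j` for most `j` (`hT.eps`; as in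
`rep_const` in BAll, `Ult.map_rep`).
`F (i, true) * F (i, false) = 1`: `τ` is a ring homomorphism, `τ u * τ u⁻¹ = 1`, so `(τ u).rep j *
(τ u⁻¹).rep j = 1` for most `j`
(`Ult.mk_eq_mk`, `Ult.mk_rep`). `br.h m = max 1 (s m j) = s m j` (`hc.scl.one`). -/
theorem ext_branch (hc : Conf 𝒰 K s (FA 𝒰 K s) cl x bs) (hX : Br 𝒰 K (FA 𝒰 K s) cl x bs X)
    (h0 : ∀ i, cl i ≠ 0) :
    ∃ (κ : {l : Fin (k + 1) // l ≠ 0} → J → ℝ) (D D0 : ℕ), (∀ m, Oo 𝒰 (κ m) (s m.1)) ∧
      1 ≤ D ∧ ∀ DL : ℕ, D0 ≤ DL → ∀ᶠ j in (𝒰 : Filter J),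
      ∃ br : BrL (M := {l : Fin (k + 1) // l ≠ 0}) (ca2 fun i => ⟨cl i, h0 i⟩) (bs2 bs) D (K j),
        Nonempty (EqL DL br) ∧ (∀ i, br.F (Sum.inl (i, true)) = (X i).rep j) ∧
        (∀ i, br.F (Sum.inl (i, true)) * br.F (Sum.inl (i, false)) = 1) ∧
        (∀ i, constantCoeff (br.F (Sum.inl (i, true))) = (x i).rep j) ∧
        (∀ m, br.h m = s m.1 j) ∧ ∀ m, br.κ m = max 1 (κ m j) := by
  classical
  obtain ⟨L, τ, hT, hXτ⟩ := hX.taus
  let xx : ∀ i, L (cl i) := fun i => ⟨x i, hT.mem i⟩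
  let u : ∀ p : ι × Bool, L (cl p.1) := fun p => cond p.2 (xx p.1) (xx p.1)⁻¹
  have hxx0 : ∀ i, xx i ≠ 0 := fun i h => hc.ne i (congrArg Subtype.val h)
  have hu0 : ∀ p, (u p : Ult 𝒰 K) ≠ 0 := by
    rintro ⟨i, b⟩ h
    have h' : u (i, b) = 0 := Subtype.ext h
    cases b
    · exact inv_ne_zero (hxx0 i) h'
    · exact hxx0 i h'
  have huh : ∀ p, (u p : Ult 𝒰 K) ∈ Lf 𝒰 K (s (cl p.1)) := by
    rintro ⟨i, b⟩
    cases b
    · exact inv_mem (hc.hgt i)
    · exact hc.hgt i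
  choose κ0 D0 w e1 e2 e3 e4 using fun p : ι × Bool =>
    exists_eqn (𝒰 := 𝒰) (K := K) s hc L τ hT (cl p.1) (u p)
  let κ' : {l : Fin (k + 1) // l ≠ 0} → J → ℝ := fun m j =>
    ∑ p : ι × Bool, if cl p.1 = m.1 then max 0 (κ0 p j) else 0
  have hκ'o : ∀ m, Oo 𝒰 (κ' m) (s m.1) := by
    intro m
    refine avx_oo (f := fun p j => if cl p.1 = m.1 then max 0 (κ0 p j) else 0) fun p => ?_
    by_cases h : cl p.1 = m.1
    · have h1 : (fun j => if cl p.1 = m.1 then max 0 (κ0 p j) else 0) =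
          fun j => max ((fun _ => (0 : ℝ)) j) (κ0 p j) := by
        funext j
        rw [if_pos h]
      rw [h1]
      refine Oo.max 𝒰 (Oo.zero 𝒰 _) ?_
      rw [← h]
      exact e1 p
    · have h1 : (fun j => if cl p.1 = m.1 then max 0 (κ0 p j) else 0) = fun _ => (0 : ℝ) := by
        funext j
        rw [if_neg h]
      rw [h1]
      exact Oo.zero 𝒰 _
  have hκ'ge : ∀ p j, κ0 p j ≤ κ' ⟨cl p.1, h0 p.1⟩ j := by
    intro p j
    have h1 := Finset.single_le_sum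
      (f := fun q : ι × Bool => if cl q.1 = cl p.1 then max 0 (κ0 q j) else 0)
      (fun q _ => by
        split_ifs
        · exact le_max_left _ _
        · exact le_rfl) (Finset.mem_univ p)
    refine le_trans ?_ h1
    simp only [if_true]
    exact le_max_right _ _
  let ca : (ι × Bool) ⊕ (ι × Bool) → {l : Fin (k + 1) // l ≠ 0} := ca2 fun i => ⟨cl i, h0 i⟩
  let y : (ι × Bool) ⊕ (ι × Bool) → Ult 𝒰 K :=
    Sum.elim (fun p => (u p : Ult 𝒰 K)) fun p => (w p : Ult 𝒰 K)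
  have hy : ∀ a, y a ∈ L (ca a).1 := by
    rintro (p | p)
    · exact (u p).2
    · exact (w p).2
  obtain ⟨κ, D₁, hκo, hκge, hev⟩ := level_A (𝒰 := 𝒰) (K := K) s hc L τ hT
    (Subtype.val : {l : Fin (k + 1) // l ≠ 0} → Fin (k + 1)) Subtype.val_injective ca
    (bs2 bs) y hy
    (by
      rintro (p | p)
      · exact hu0 p
      · exact e2 p)
    (by
      rintro (p | p)
      · exact huh p
      · exact e3 p)
    (fun b => ⟨rfl, rfl⟩) κ' hκ'o
  refine ⟨κ, max D₁ 1, Finset.univ.sup D0, hκo, le_max_right _ _, fun DL hDL => ?_⟩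
  have f1 := fun p => e4 p DL ((Finset.le_sup (Finset.mem_univ p)).trans hDL)
  have f2 : ∀ i, ∀ᶠ j in (𝒰 : Filter J),
      (τ (cl i) (xx i)).rep j * (τ (cl i) (xx i)⁻¹).rep j = 1 := by
    intro i
    refine avx_mul ?_
    rw [← map_mul, mul_inv_cancel₀ (hxx0 i), map_one]
  have f3 : ∀ i, ∀ᶠ j in (𝒰 : Filter J),
      constantCoeff ((τ (cl i) (xx i)).rep j) = (x i).rep j := fun i =>
    avx_const (hT.eps (cl i) (xx i))
  filter_upwards [hev, Filter.eventually_all.2 f1, Filter.eventually_all.2 f2,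
    Filter.eventually_all.2 f3] with j g0 g1 g2 g3
  obtain ⟨br, hbF, hbh, hbκ⟩ := g0
  choose bb pp hbb hpp heq hinv using g1
  have hF1 : ∀ p, br.F (Sum.inl p) = (τ (cl p.1) (u p)).rep j := fun p => hbF (Sum.inl p)
  have hF2 : ∀ p, br.F (Sum.inr p) = (τ (cl p.1) (w p)).rep j := fun p => hbF (Sum.inr p)
  have hpt : ptL (monoBr (le_max_left D₁ 1) br) = fun b => (x (bs b)).rep j := by
    funext b
    change constantCoeff (br.F (Sum.inl (bs b, true))) = _
    rw [hF1]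
    exact g3 (bs b)
  have hL1 : ∀ p, Real.exp (DL * max 1 (κ0 p j)) ≤
      Real.exp (DL * br.κ ⟨cl p.1, h0 p.1⟩) := by
    intro p
    rw [hbκ]
    refine Real.exp_le_exp.2 (mul_le_mul_of_nonneg_left ?_ (Nat.cast_nonneg _))
    exact max_le_max le_rfl ((hκ'ge p j).trans (hκge _ j))
  refine ⟨monoBr (le_max_left _ _) br, ⟨⟨bb, pp, ?_, ?_, ?_, ?_, ?_, ?_, ?_, ?_⟩⟩, ?_, ?_, ?_, ?_,
    ?_⟩
  · intro p b hb
    exact Subtype.ext ((hbb p).1 b hb)
  · exact fun p => (hbb p).2.1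
  · exact fun p => (hbb p).2.2.trans (hL1 p)
  · intro p i b hb
    exact Subtype.ext ((hpp p i).1 b hb)
  · exact fun p i => (hpp p i).2.1
  · exact fun p i => (hpp p i).2.2.trans (hL1 p)
  · intro p
    rw [hpt]
    change _ * br.F (Sum.inl p) ^ DL = ∑ i : Fin DL, _ * br.F (Sum.inl p) ^ (i : ℕ)
    rw [hF1]
    exact heq p
  · intro p
    rw [hpt]
    change _ * br.F (Sum.inr p) = 1
    rw [hF2]
    exact hinv p
  · intro i
    change br.F (Sum.inl (i, true)) = _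
    rw [hF1, hXτ i (xx i) rfl]
    rfl
  · intro i
    change br.F (Sum.inl (i, true)) * br.F (Sum.inl (i, false)) = 1
    rw [hF1, hF1]
    exact g2 i
  · intro i
    change constantCoeff (br.F (Sum.inl (i, true))) = _
    rw [hF1]
    exact g3 i
  · intro m
    change br.h m = _
    rw [hbh]
    exact max_eq_right (hc.scl.one _ _)
  · intro m
    exact hbκ m

end Pool.Agent.Zilber.CA
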