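import Pool.Agent.Zilber.AVChoice
import Pool.Agent.Zilber.AShift

set_option autoImplicit false

/-! AV2. The structure `LvA` from the branch at one level. -/

namespace Pool.Agent.Zilber.CA

open NumberField Pool.Agent.LAll Pool.Agent.LSharp MvPowerSeries

/-- **The level data of case A.**

Proof. `D1 = DL * (1 + log (1 + N0))`, `C` from `choice`. Take `S`, `c`, `TT`, `m`, `pl` from
`choice`; `y = b0`,
`t = shiftT b0 c (ptL br)`, i.e. `t b0 = ptL br b0 - c`, `t b = ptL br b` for `b ≠ b0`; `F s = br.F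
(inl s)`,
`G s = br.F (inr s)`, `q s = shiftP b0 c (eq.q s)`, `p s i = shiftP b0 c (eq.p s i)`, `h = br.h`,
`κ = br.κ`,
`M0 = ∑ a, n a * br.κ a`. `eqn`, `inv`: `evT_shift`. `q_CD`: `CD_of_vars` and `CD_shift`; `q_L1`:
`L1_shift`:
`L1 ≤ exp (DL κ) (1 + c) ^ DL ≤ exp (DL κ + DL log (1 + N0)) ≤ exp (D1 κ)` as `κ ≥ 1`.
`one_le_M0`: the term `a = cl (bs b0)` is `≥ 1`; `n_le`, `nκ_le`: single terms of the sum, `κ ≥ 1`.
`Q v b = Q₀ (cl (bs b)) v + (if b = b0 then max (-lam v (t b0)) 0 else 0)` with `Q₀` from `br.bnd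
S`; `sum_Q`:
`D h + (D + 1) h ≤ 3 D h ≤ DL h` (`D ≥ 1`).
`growF`: `br.bnd` for `inl s`: `lam v (coeff i (F s)) ≤ lam v (constantCoeff (F s)) + i.degree * Q₀
(cl s.1) v`; `br.F_only`: if the
coefficient is not zero then `i` is supported on the `b` with `cl (bs b) = cl s.1` (definition of
`onlyB`; the class of `bs2 bs b` is
`cl (bs b)`), so `i.degree * Q₀ (cl s.1) v = ∑ b, i b * Q₀ (cl (bs b)) v ≤ ∑ b, i b * Q v b`; `D1 *
wt v ≥ 0`. `growG` the same for
`inr s`. `growt` for `b ≠ b0`: `br.F_bs` and `br.bnd` for `bs2 bs b` and `n = single b 1`: the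
coefficient is `1`, `lam v 1 = 0`, so
`0 ≤ lam v (t b) + Q₀ (cl (bs b)) v`; for `b0`: `lam + max (-lam) 0 ≥ 0`.
`t0`: `br.F0` and `ptL br b0 - c ≠ 0`. `lamy`, `mass`, `m_nonneg`, `pl_nonneg`, `lamF`, `lamG`,
`lamt`, `sum_pl` from `choice`. -/
theorem exists_lvA {M β ι : Type} [Fintype M] [Fintype β] [Fintype ι] [DecidableEq M]
    [DecidableEq β] [DecidableEq ι] (cl : ι → M) (bs : β → ι) (b0 : β) (D DL : ℕ) (hD : 1 ≤ D)
    (hDL : 3 * D ≤ DL) (μ δ : ℝ) (hμ : 0 < μ) (N0 : ℕ) (hN0 : 1 ≤ N0)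
    (hδ : 4 * (Fintype.card ι : ℝ) * D ≤ δ * N0) :
    ∃ D1 C : ℝ, 0 ≤ D1 ∧ ∀ (K : Type) [Field K] [NumberField K]
      (br : BrL (ca2 cl) (bs2 bs) D K) (_eq : EqL DL br) (n : M → ℕ) (T : ℝ),
      2 * μ * br.h (cl (bs b0)) ≤ ht (ptL br b0) → C ≤ br.h (cl (bs b0)) →
      (∀ a, 1 ≤ n a) → (∀ a, T ≤ n a * br.h a) → (∀ a, n a * br.h a ≤ 2 * T) →
      ∃ (S : Finset (FinitePlace K))
        (L : LvA (fun b => cl (bs b)) (fun s : ι × Bool => cl s.1) b0 DL D1 μ δ K S),
        L.n = n ∧ L.T = T ∧ L.M0 = ∑ a, (n a : ℝ) * br.κ a ∧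
        (∀ s, L.F s = br.F (Sum.inl s)) ∧ ∀ s, Off S (constantCoeff (br.F s)) := by
  classical
  obtain ⟨C, hC⟩ := choice cl bs b0 D μ δ hμ N0 hN0 hδ
  have hN1 : (1 : ℝ) ≤ N0 := by exact_mod_cast hN0
  have hlN : 0 ≤ Real.log (1 + N0) := Real.log_nonneg (by linarith)
  have hD1 : 0 ≤ (DL : ℝ) * (1 + Real.log (1 + N0)) :=
    mul_nonneg (Nat.cast_nonneg _) (by linarith)
  refine ⟨DL * (1 + Real.log (1 + N0)), C, hD1, ?_⟩
  intro K _ _ br eq n T hht hCle hn hT1 hT2
  obtain ⟨S, c, TT, m, pl, hc, hcN, hx, hint, hoff, hneg, hm0, hmass, hlam, hpl0, hplF,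
    hplsum⟩ := hC K br hht hCle
  obtain ⟨Q, hQ0, hQs, hQb⟩ := br.bnd S
  have hκ0 : ∀ a, (0 : ℝ) ≤ br.κ a := fun a => zero_le_one.trans (br.one_le_κ a)
  have htb0 : shiftT b0 (c : ℤ) (ptL br) b0 = ptL br b0 - (c : K) := by
    unfold shiftT
    rw [if_pos rfl, Int.cast_natCast]
  have htb : ∀ b, b ≠ b0 → shiftT b0 (c : ℤ) (ptL br) b = ptL br b := by
    intro b hb
    unfold shiftT
    rw [if_neg hb, sub_zero]
  have hnκ : ∀ a, (n a : ℝ) * br.κ a ≤ ∑ a, (n a : ℝ) * br.κ a := fun a =>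
    Finset.single_le_sum (f := fun a => (n a : ℝ) * br.κ a)
      (fun a _ => mul_nonneg (Nat.cast_nonneg _) (hκ0 a)) (Finset.mem_univ a)
  have hnle : ∀ a, (n a : ℝ) ≤ ∑ a, (n a : ℝ) * br.κ a := fun a =>
    (le_mul_of_one_le_right (Nat.cast_nonneg _) (br.one_le_κ a)).trans (hnκ a)
  have hn1 : ∀ a, (1 : ℝ) ≤ n a := fun a => by exact_mod_cast hn a
  have hL : ∀ (P : MvPolynomial β ℤ) (k : ℝ), 1 ≤ k → P.totalDegree ≤ DL →
      L1 P ≤ Real.exp (DL * k) →
      L1 (shiftP b0 (c : ℤ) P) ≤ Real.exp (DL * (1 + Real.log (1 + N0)) * k) := by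
    intro P k hk hP hPL
    have h1 := L1_shift b0 (c : ℤ) P DL hP
    have h2 : |((c : ℤ) : ℝ)| ≤ N0 := by
      rw [Int.cast_natCast, abs_of_nonneg (Nat.cast_nonneg c)]
      exact_mod_cast hcN
    have h3 : (1 + |((c : ℤ) : ℝ)|) ^ DL ≤ Real.exp (DL * Real.log (1 + N0)) := by
      rw [Real.exp_nat_mul, Real.exp_log (by linarith)]
      exact pow_le_pow_left₀ (by positivity) (by linarith) _
    refine h1.trans ((mul_le_mul hPL h3 (by positivity) (Real.exp_pos _).le).trans ?_)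
    rw [← Real.exp_add]
    refine Real.exp_le_exp.2 ?_
    have h4 : (DL : ℝ) * Real.log (1 + N0) ≤ DL * Real.log (1 + N0) * k :=
      le_mul_of_one_le_right (mul_nonneg (Nat.cast_nonneg _) hlN) hk
    have h5 : (DL : ℝ) * (1 + Real.log (1 + N0)) * k =
      DL * k + DL * Real.log (1 + N0) * k := by ring
    rw [h5]
    linarith
  have hgrow : ∀ (s : (ι × Bool) ⊕ (ι × Bool)) (v : Plc K S) (i : β →₀ ℕ),
      coeff i (br.F s) ≠ 0 → lam v (coeff i (br.F s)) ≤ lam v (constantCoeff (br.F s)) +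
        ∑ b, (i b : ℝ) * (Q (cl (bs b)) v +
          if b = b0 then max (-lam v (shiftT b0 (c : ℤ) (ptL br) b0)) 0 else 0) +
        DL * (1 + Real.log (1 + N0)) * Pool.Agent.LAll.wt v := by
    intro s v i hi
    have h1 := hQb s v i hi
    have h2 : (i.degree : ℝ) * Q (ca2 cl s) v ≤ ∑ b, (i b : ℝ) * (Q (cl (bs b)) v +
          if b = b0 then max (-lam v (shiftT b0 (c : ℤ) (ptL br) b0)) 0 else 0) := by
      rw [Finsupp.degree_eq_sum, Nat.cast_sum, Finset.sum_mul]
      refine Finset.sum_le_sum fun b _ => ?_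
      by_cases hb : i b = 0
      · rw [hb]
        simp
      · have h3 : ca2 cl (bs2 bs b) = ca2 cl s := br.F_only s i hi b hb
        have h4 : cl (bs b) = ca2 cl s := h3
        rw [h4]
        refine mul_le_mul_of_nonneg_left ?_ (Nat.cast_nonneg _)
        have h5 : (0 : ℝ) ≤
            if b = b0 then max (-lam v (shiftT b0 (c : ℤ) (ptL br) b0)) 0 else 0 := by
          split_ifs
          · exact le_max_right _ _
          · exact le_rfl
        linarith
    have h6 : 0 ≤ (DL : ℝ) * (1 + Real.log (1 + N0)) * Pool.Agent.LAll.wt v :=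
      mul_nonneg hD1 (Pool.Agent.LAll.wt_nonneg v)
    linarith
  refine ⟨S, { n := n, h := br.h, κ := br.κ, T := T, M0 := ∑ a, (n a : ℝ) * br.κ a,
               t := shiftT b0 (c : ℤ) (ptL br), F := fun s => br.F (Sum.inl s),
               G := fun s => br.F (Sum.inr s), q := fun s => shiftP b0 (c : ℤ) (eq.q s),
               p := fun s i => shiftP b0 (c : ℤ) (eq.p s i),
               Q := fun v b => Q (cl (bs b)) v +
                 if b = b0 then max (-lam v (shiftT b0 (c : ℤ) (ptL br) b0)) 0 else 0,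
               TT := TT, m := m, pl := pl, one_le_n := hn, one_le_h := br.one_le_h,
               T_le := hT1, le_T := hT2,
               one_le_M0 := (hn1 (cl (bs b0))).trans (hnle _), n_le := hnle,
               one_le_κ := br.one_le_κ, nκ_le := hnκ,
               q_CD := fun s => CD_shift _ _ _ _ _
                 (CD_of_vars _ _ _ _ (eq.q_vars s) (eq.q_deg s)),
               q_L1 := fun s => hL _ _ (br.one_le_κ _) (eq.q_deg s) (eq.q_L1 s),
               p_CD := fun s i => CD_shift _ _ _ _ _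
                 (CD_of_vars _ _ _ _ (eq.p_vars s i) (eq.p_deg s i)),
               p_L1 := fun s i => hL _ _ (br.one_le_κ _) (eq.p_deg s i) (eq.p_L1 s i),
               eqn := ?_, inv := ?_, t0 := ?_, F0 := fun s => br.F0 _,
               intOff := fun s i => hint _ i, Q_nonneg := ?_, sum_Q := ?_,
               growF := fun s v i hi => hgrow (Sum.inl s) v i hi,
               growG := fun s v i hi => hgrow (Sum.inr s) v i hi, growt := ?_,
               m_nonneg := hm0, mass := hmass, lamy := ?_, pl_nonneg := hpl0, lamt := ?_,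
               lamF := fun s v _ => hplF (Sum.inl s) v,
               lamG := fun s v _ => hplF (Sum.inr s) v, sum_pl := hplsum },
    rfl, rfl, rfl, fun s => rfl, hoff⟩
  · intro s
    rw [evT_shift, eq.eqn]
    exact Finset.sum_congr rfl fun i _ => by rw [evT_shift]
  · intro s
    rw [evT_shift]
    exact eq.inv s
  · intro b
    by_cases hb : b = b0
    · rw [hb, htb0]
      exact hx
    · rw [htb b hb]
      exact br.F0 _
  · intro v b
    refine add_nonneg (hQ0 _ _) ?_
    split_ifs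
    · exact le_max_right _ _
    · exact le_rfl
  · intro b
    rw [Finset.sum_add_distrib]
    have hh := br.one_le_h (cl (bs b))
    have hDL' : 3 * (D : ℝ) ≤ DL := by exact_mod_cast hDL
    have hD' : (1 : ℝ) ≤ D := by exact_mod_cast hD
    have h1 := hQs (cl (bs b))
    have h3 : (3 * D : ℝ) * br.h (cl (bs b)) ≤ DL * br.h (cl (bs b)) :=
      mul_le_mul_of_nonneg_right hDL' (by linarith)
    have h4 : (1 : ℝ) * br.h (cl (bs b)) ≤ D * br.h (cl (bs b)) :=
      mul_le_mul_of_nonneg_right hD' (by linarith)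
    by_cases hb : b = b0
    · subst hb
      simp only [if_true]
      rw [htb0]
      linarith
    · simp only [if_neg hb, Finset.sum_const_zero]
      linarith
  · intro b v
    by_cases hb : b = b0
    · subst hb
      rw [if_pos rfl]
      have h1 := le_max_left (-lam v (shiftT b (c : ℤ) (ptL br) b)) 0
      have h2 := hQ0 (cl (bs b)) v
      linarith
    · rw [if_neg hb, htb b hb, add_zero]
      have h1 : coeff (Finsupp.single b 1) (br.F (bs2 bs b)) = 1 := by
        rw [br.F_bs b, map_add, coeff_C, if_neg (by simp), coeff_X, if_pos rfl, zero_add]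
      have h2 := hQb (bs2 bs b) v (Finsupp.single b 1) (by rw [h1]; exact one_ne_zero)
      rw [h1, lam_one, Finsupp.degree_single, Nat.cast_one, one_mul] at h2
      exact h2
  · intro v hv
    rw [htb0]
    exact hlam v hv
  · intro b hb v _
    rw [htb b hb]
    exact hplF (bs2 bs b) v

end Pool.Agent.Zilber.CA
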