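import Pool.Agent.Zilber.AVDefs

set_option autoImplicit false

/-! AV3. The exponents of the auxiliary functions: net exponents, different values. -/

namespace Pool.Agent.Zilber.CA

open NumberField Pool.Agent.LAll Pool.Agent.LSharp

/-- The net exponent of `x_i`. (`toNat z - toNat (-z) = z`.) -/
theorem alX_net {M β ι : Type} [Fintype β] [DecidableEq ι] (g : β → ι) (a : β → ι → ℤ) {B : ℕ}
    {n : M → ℕ} {cb : β → M} (x : XA β B n cb) (i : ι) :
    ((alX g a x (i, true) : ℤ) - alX g a x (i, false) : ℤ) =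
      ∑ r, ((x.1 r : ℕ) : ℤ) * a r i + ∑ b, (if g b = i then ((x.2 b : ℕ) : ℤ) else 0) := by
  have h1 : ∀ r, ((x.1 r : ℕ) : ℤ) * a r i =
      ((x.1 r : ℕ) : ℤ) * ((a r i).toNat : ℤ) - ((x.1 r : ℕ) : ℤ) * ((-a r i).toNat : ℤ) := by
    intro r
    rw [← mul_sub, Int.toNat_sub_toNat_neg]
  rw [Finset.sum_congr rfl fun r _ => h1 r, Finset.sum_sub_distrib]
  simp only [alX, if_true, Bool.false_eq_true, if_false, Nat.cast_add, Nat.cast_sum, Nat.cast_mul,
    Nat.cast_ite, Nat.cast_zero, add_zero]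
  ring

/-- The value of the exponents, computed. -/
private theorem alX_val {M β ι : Type} [Fintype β] [DecidableEq β] [Fintype ι] [DecidableEq ι]
    (g : β → ι) (a : β → ι → ℤ) {B : ℕ} {n : M → ℕ} {cb : β → M} (q : ι → β → ℚ)
    (hqg : ∀ b b', q (g b) b' = if b = b' then 1 else 0) (x : XA β B n cb) (b : β) :
    ∑ i, (((alX g a x (i, true) : ℤ) - alX g a x (i, false) : ℤ) : ℚ) * q i b =
      ∑ r, ((x.1 r : ℕ) : ℚ) * ∑ i, (a r i : ℚ) * q i b + ((x.2 b : ℕ) : ℚ) := by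
  have h1 : ∀ i, (((alX g a x (i, true) : ℤ) - alX g a x (i, false) : ℤ) : ℚ) * q i b =
      ∑ r, ((x.1 r : ℕ) : ℚ) * ((a r i : ℚ) * q i b) +
        ∑ b', (if g b' = i then ((x.2 b' : ℕ) : ℚ) * q i b else 0) := by
    intro i
    rw [alX_net]
    push_cast
    rw [add_mul, Finset.sum_mul, Finset.sum_mul]
    congr 1
    · exact Finset.sum_congr rfl fun r _ => mul_assoc _ _ _
    · refine Finset.sum_congr rfl fun b' _ => ?_
      split_ifs with h
      · rfl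
      · exact zero_mul _
  rw [Finset.sum_congr rfl fun i _ => h1 i, Finset.sum_add_distrib]
  congr 1
  · rw [Finset.sum_comm]
    exact Finset.sum_congr rfl fun r _ => (Finset.mul_sum _ _ _).symm
  · rw [Finset.sum_comm]
    have h2 : ∀ b', ∑ i, (if g b' = i then ((x.2 b' : ℕ) : ℚ) * q i b else 0) =
        if b' = b then ((x.2 b' : ℕ) : ℚ) else 0 := by
      intro b'
      rw [Finset.sum_ite_eq, if_pos (Finset.mem_univ _), hqg b' b]
      split_ifs with h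
      · exact mul_one _
      · exact mul_zero _
    rw [Finset.sum_congr rfl fun b' _ => h2 b', Finset.sum_ite_eq',
      if_pos (Finset.mem_univ _)]

/-- **Different indices have different values.**

Proof. Suppose that the values agree for all `b`. With `alX_net`: `∑_i net_i q i b = ∑_r u_r ∑_i a
r i q i b + ∑_(b') e_(b') q (g b') b
= ∑_r u_r ∑_i a r i q i b + e_b` (`hqg`), where `u = x.1`, `e = x.2`. The difference for `x` and
`x'` (cast to `ℝ`): the hypothesis of `hlat` for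
`u r = x.1 r - x'.1 r`, `e b = x.2 b - x'.2 b`, `|e b| ≤ n (cb b) ≤ 2 ν (cb b)`. So `u = 0`, `e =
0`, `x = x'`
(`Fin.ext`, `Prod.ext`). -/
theorem alX_diff {M β ι : Type} [Fintype β] [DecidableEq β] [Fintype ι] [DecidableEq ι]
    (g : β → ι) (a : β → ι → ℤ) {B : ℕ} {n : M → ℕ} {cb : β → M} (q : ι → β → ℚ)
    (hqg : ∀ b b', q (g b) b' = if b = b' then 1 else 0) (ν : M → ℝ)
    (hν : ∀ m, (n m : ℝ) ≤ 2 * ν m)
    (hlat : ∀ u e : β → ℤ, (∀ b, |(e b : ℝ)| ≤ 2 * ν (cb b)) →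
      (∀ b, ∑ r, (u r : ℝ) * ∑ i, (a r i : ℝ) * (q i b : ℝ) + e b = 0) → u = 0 ∧ e = 0)
    (x x' : XA β B n cb) (hne : x ≠ x') :
    ∃ b, ∑ i, (((alX g a x (i, true) : ℤ) - alX g a x (i, false) : ℤ) : ℚ) * q i b ≠
      ∑ i, (((alX g a x' (i, true) : ℤ) - alX g a x' (i, false) : ℤ) : ℚ) * q i b := by
  by_contra hcon
  push Not at hcon
  obtain ⟨h1, h2⟩ := hlat (fun r => ((x.1 r : ℕ) : ℤ) - ((x'.1 r : ℕ) : ℤ))
    (fun b => ((x.2 b : ℕ) : ℤ) - ((x'.2 b : ℕ) : ℤ)) (fun b => by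
      have h3 : ((x.2 b : ℕ) : ℝ) ≤ (n (cb b) : ℝ) := by exact_mod_cast (x.2 b).2.le
      have h4 : ((x'.2 b : ℕ) : ℝ) ≤ (n (cb b) : ℝ) := by exact_mod_cast (x'.2 b).2.le
      have h5 : (0 : ℝ) ≤ ((x.2 b : ℕ) : ℝ) := Nat.cast_nonneg _
      have h6 : (0 : ℝ) ≤ ((x'.2 b : ℕ) : ℝ) := Nat.cast_nonneg _
      have h7 := hν (cb b)
      push_cast
      rw [abs_le]
      constructor <;> linarith) (fun b => by
      have h3 := hcon b
      rw [alX_val g a q hqg, alX_val g a q hqg] at h3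
      have h4 : ∑ r, ((x.1 r : ℕ) : ℝ) * ∑ i, (a r i : ℝ) * (q i b : ℝ) + ((x.2 b : ℕ) : ℝ) =
          ∑ r, ((x'.1 r : ℕ) : ℝ) * ∑ i, (a r i : ℝ) * (q i b : ℝ) + ((x'.2 b : ℕ) : ℝ) := by
        exact_mod_cast congrArg (fun z : ℚ => (z : ℝ)) h3
      have h5 : ∑ r, ((((x.1 r : ℕ) : ℤ) - ((x'.1 r : ℕ) : ℤ) : ℤ) : ℝ) *
          ∑ i, (a r i : ℝ) * (q i b : ℝ) =
          ∑ r, ((x.1 r : ℕ) : ℝ) * ∑ i, (a r i : ℝ) * (q i b : ℝ) -
            ∑ r, ((x'.1 r : ℕ) : ℝ) * ∑ i, (a r i : ℝ) * (q i b : ℝ) := by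
        rw [← Finset.sum_sub_distrib]
        refine Finset.sum_congr rfl fun r _ => ?_
        push_cast
        ring
      rw [h5]
      push_cast
      linarith)
  refine hne (Prod.ext (funext fun r => ?_) (funext fun b => ?_))
  · have h3 := congrFun h1 r
    simp only [Pi.zero_apply] at h3
    exact Fin.ext (by omega)
  · have h3 := congrFun h2 b
    simp only [Pi.zero_apply] at h3
    exact Fin.ext (by omega)

end Pool.Agent.Zilber.CA
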