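import Pool.Agent.Zilber.TSW
import Pool.Agent.Zilber.AUInd
import Pool.Agent.Zilber.AVLev
import Pool.Agent.Zilber.AVNet
import Pool.Agent.Zilber.AVBet
import Pool.Agent.Zilber.AFin

set_option autoImplicit false

/-! AV7. Case A: the contradiction at one level. -/

namespace Pool.Agent.Zilber.CA

open NumberField Pool.Agent.LAll Pool.Agent.LSharp MvPowerSeries

theorem level_false {M β ι : Type} [Fintype M] [Fintype β] [Fintype ι] [DecidableEq M]
    [DecidableEq β] [DecidableEq ι] (cl : ι → M) (bs : β → ι) (b0 : β) (D DL : ℕ)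
    (D1 μ δ η CB : ℝ) (B : ℕ) (K : Type) [Field K] [NumberField K] (σ : K →+* ℂ)
    (S : Finset (FinitePlace K)) (br : BrL (ca2 cl) (bs2 bs) D K)
    (L : LvA (fun b => cl (bs b)) (fun s : ι × Bool => cl s.1) b0 DL D1 μ δ K S)
    (hLF : ∀ s, L.F s = br.F (Sum.inl s)) (hoff : ∀ s, Off S (constantCoeff (br.F s)))
    (hinv : ∀ i, br.F (Sum.inl (i, true)) * br.F (Sum.inl (i, false)) = 1)
    (hA : ∀ (al : XA β B L.n (fun b => cl (bs b)) → ι × Bool → ℕ) (bet : Plc K S → ℝ),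
      (∀ x a, ∑ s with cl s.1 = a, al x s ≤ DL * B * L.n a) → (∀ v, 0 ≤ bet v) →
      ∑ v, bet v ≤ δ * B * L.T →
      (∀ x v, lam v (∏ s, constantCoeff (L.F s) ^ al x s) ≤ bet v) →
      ∃ c : XA β B L.n (fun b => cl (bs b)) → ℤ, c ≠ 0 ∧
        (∀ x, |(c x : ℝ)| ≤ Real.exp (CB * L.M0)) ∧
        ∀ i, coeff i (L.aux al c) ≠ 0 → η * B < wtn L.n (fun b => cl (bs b)) i)
    (hηB : 1 ≤ η * B) (g : β → ι) (hg : ∀ b, cl (g b) = cl (bs b)) (q : ι → β → ℚ)
    (hqg : ∀ b b', q (g b) b' = if b = b' then 1 else 0)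
    (hE : Emb σ (fun i => br.F (Sum.inl (i, true))) g q)
    (a : β → ι → ℤ) (Ca : ℝ) (hCa : 0 ≤ Ca) (ha : ∀ r i, |(a r i : ℝ)| ≤ Ca * L.n (cl i))
    (hDL : 2 * (Fintype.card β : ℝ) * Fintype.card ι * Ca + Fintype.card β ≤ DL)
    (ν : M → ℝ) (hν : ∀ m, (L.n m : ℝ) ≤ 2 * ν m)
    (hlat : ∀ u e : β → ℤ, (∀ b, |(e b : ℝ)| ≤ 2 * ν (cl (bs b))) →
      (∀ b, ∑ r, (u r : ℝ) * ∑ i, (a r i : ℝ) * (q i b : ℝ) + e b = 0) → u = 0 ∧ e = 0)
    (hbet : B * ∑ r, ht (∏ i, constantCoeff (br.F (Sum.inl (i, true))) ^ a r i) +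
      ∑ b, (L.n (cl (bs b)) : ℝ) * ht (constantCoeff (br.F (Sum.inl (g b, true)))) ≤
        δ * B * L.T)
    (C₁ : ℝ) (hC1 : CB ≤ C₁) (hC2 : (Fintype.card β : ℝ) * B + Fintype.card β ≤ C₁)
    (hC3 : (DL : ℝ) * B ≤ C₁)
    (hlow : ∀ (X : Type) [Fintype X] (c : X → ℤ) (al : X → (ι × Bool) ⊕ (ι × Bool) → ℕ),
        (∀ x, |(c x : ℝ)| ≤ Real.exp (C₁ * L.M0)) →
        (Fintype.card X : ℝ) ≤ Real.exp (C₁ * L.M0) →
        (∀ x a, (cle (ca2 cl) (al x) a : ℝ) ≤ C₁ * L.n a) →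
        ∑ x, (c x : MvPowerSeries β K) * ∏ s, br.F s ^ al x s ≠ 0 →
        ∃ i, coeff i (∑ x, (c x : MvPowerSeries β K) * ∏ s, br.F s ^ al x s) ≠ 0 ∧
          LSharp.wt (fun b => L.n (ca2 cl (bs2 bs b))) i < 1) : False := by
  obtain ⟨xx, hxx⟩ : ∃ xx : ι → K, ∀ i, xx i = constantCoeff (br.F (Sum.inl (i, true))) :=
    ⟨_, fun _ => rfl⟩
  have hxx0 : ∀ i, xx i ≠ 0 := fun i => by
    rw [hxx]
    exact br.F0 _
  have hxxS : ∀ i, Off S (xx i) := fun i => by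
    rw [hxx]
    exact hoff _
  have hM0 : 0 ≤ L.M0 := zero_le_one.trans L.one_le_M0
  obtain ⟨al, hal⟩ : ∃ al : XA β B L.n (fun b => cl (bs b)) → ι × Bool → ℕ,
      al = alX g a := ⟨_, rfl⟩
  have hdeg : ∀ x m, ∑ s with cl s.1 = m, al x s ≤ DL * B * L.n m := fun x m => by
    rw [hal]
    exact alX_deg g a cl hg Ca hCa ha DL hDL x m
  obtain ⟨bet, hbetd⟩ : ∃ bet : Plc K S → ℝ, ∀ v, bet v =
      B * ∑ r, max (lam v (∏ i, xx i ^ a r i)) 0 +
      ∑ b, (L.n (cl (bs b)) : ℝ) * max (lam v (xx (g b))) 0 := ⟨_, fun _ => rfl⟩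
  have hbet0 : ∀ v, 0 ≤ bet v := fun v => by
    rw [hbetd]
    refine add_nonneg (mul_nonneg (Nat.cast_nonneg _) ?_) ?_
    · exact Finset.sum_nonneg fun r _ => le_max_right _ _
    · exact Finset.sum_nonneg fun b _ => mul_nonneg (Nat.cast_nonneg _) (le_max_right _ _)
  have hbets : ∑ v, bet v ≤ δ * B * L.T := by
    simp only [hbetd]
    rw [sum_bet g a B L.n (fun b => cl (bs b)) xx hxx0 hxxS]
    simp only [hxx]
    exact hbet
  have hlam : ∀ x v, lam v (∏ s, constantCoeff (L.F s) ^ al x s) ≤ bet v := fun x v => by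
    rw [hbetd, hal]
    refine alX_lam g a v (fun s => constantCoeff (L.F s)) xx hxx0 (fun i => ?_) (fun i => ?_) x
    · rw [hLF, hxx]
    · rw [hLF, hxx]
      refine eq_inv_of_mul_eq_one_right ?_
      rw [← map_mul, hinv, map_one]
  obtain ⟨c, hc0, hc1, hc2⟩ := hA al bet hdeg hbet0 hbets hlam
  -- the function is not zero
  have hne : L.aux al c ≠ 0 := by
    have h1 := ne_zero_of_emb σ (fun i => br.F (Sum.inl (i, true)))
      (fun i => br.F (Sum.inl (i, false))) hinv g q hE c hc0 al (fun x x' hx => by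
        rw [hal]
        exact alX_diff g a q hqg ν hν hlat x x' hx)
    rw [LvA.aux]
    refine fun h2 => h1 ?_
    rw [← h2]
    refine Finset.sum_congr rfl fun x _ => ?_
    congr 1
    refine Finset.prod_congr rfl fun s _ => ?_
    rw [hLF]
    obtain ⟨i, e⟩ := s
    cases e
    · rfl
    · rfl
  obtain ⟨al', hal'⟩ : ∃ al' : XA β B L.n (fun b => cl (bs b)) → (ι × Bool) ⊕ (ι × Bool) → ℕ,
      ∀ x, al' x = Sum.elim (al x) 0 := ⟨_, fun _ => rfl⟩
  have heq : ∑ x, (c x : MvPowerSeries β K) * ∏ s, br.F s ^ al' x s = L.aux al c := by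
    rw [LvA.aux]
    refine Finset.sum_congr rfl fun x _ => ?_
    congr 1
    rw [Fintype.prod_sum_type]
    simp only [hal', Sum.elim_inl, Sum.elim_inr, Pi.zero_apply, pow_zero, Finset.prod_const_one,
      mul_one, hLF]
  have hexp : ∀ C : ℝ, C ≤ C₁ → Real.exp (C * L.M0) ≤ Real.exp (C₁ * L.M0) := fun C hC =>
    Real.exp_le_exp.2 (mul_le_mul_of_nonneg_right hC hM0)
  obtain ⟨i, hi, hw⟩ := hlow (XA β B L.n (fun b => cl (bs b))) c al'
    (fun x => (hc1 x).trans (hexp _ hC1))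
    ((card_XA_le (fun b => cl (bs b)) B L.n L.M0 L.one_le_M0 L.n_le).trans (hexp _ hC2))
    (fun x m => by
      have h1 : cle (ca2 cl) (al' x) m = ∑ s with cl s.1 = m, al x s := by
        unfold cle
        rw [Fintype.sum_sum_type, Finset.sum_filter]
        simp only [hal', Sum.elim_inl, Sum.elim_inr, Pi.zero_apply, ite_self,
          Finset.sum_const_zero, add_zero]
        rfl
      rw [h1]
      have h2 : ((∑ s with cl s.1 = m, al x s : ℕ) : ℝ) ≤ ((DL * B * L.n m : ℕ) : ℝ) :=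
        Nat.cast_le.2 (hdeg x m)
      refine h2.trans ?_
      push_cast
      exact mul_le_mul_of_nonneg_right hC3 (Nat.cast_nonneg _))
    (by rw [heq]; exact hne)
  rw [heq] at hi
  have h3 := hc2 i hi
  have h4 : wtn L.n (fun b => cl (bs b)) i < 1 := hw
  linarith

end Pool.Agent.Zilber.CA
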