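import Pool.Agent.LSharp.Torus

set_option autoImplicit false

/-! DA1. Gelfond's inequality for complex polynomials in several variables. -/

namespace Pool.Agent.Zilber

open MvPolynomial Pool.Agent.LSharp

/-- The `ℓ¹`-norm of a complex polynomial. -/
noncomputable def Lc {σ : Type} (F : MvPolynomial σ ℂ) : ℝ := ∑ i ∈ F.support, ‖F.coeff i‖

private theorem dg_nonneg {σ : Type} (F : MvPolynomial σ ℂ) : 0 ≤ Lc F :=
  Finset.sum_nonneg fun _ _ => norm_nonneg _

private theorem dg_zero {σ : Type} : Lc (0 : MvPolynomial σ ℂ) = 0 := by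
  simp [Lc]

private theorem dg_C (a : ℂ) : Lc (C a : MvPolynomial (Fin 0) ℂ) = ‖a‖ := by
  classical
  have h1 : Lc (C a : MvPolynomial (Fin 0) ℂ) =
      ∑ i ∈ {0}, ‖(C a : MvPolynomial (Fin 0) ℂ).coeff i‖ := by
    refine Finset.sum_subset (fun i _ => ?_) fun i _ hi => ?_
    · rw [Finset.mem_singleton]
      exact Subsingleton.elim _ _
    · rw [notMem_support_iff.mp hi, norm_zero]
  rw [h1, Finset.sum_singleton, coeff_C, if_pos rfl]

private theorem dg_finSucc {d : ℕ} (F : MvPolynomial (Fin (d + 1)) ℂ) (N : ℕ)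
    (hN : F.degreeOf 0 ≤ N) :
    Lc F = ∑ i ∈ Finset.range (N + 1), Lc ((finSuccEquiv ℂ d F).coeff i) := by
  classical
  rw [Lc, ← Finset.sum_fiberwise_of_maps_to (g := fun m : Fin (d + 1) →₀ ℕ => m 0)
    (t := Finset.range (N + 1))]
  · refine Finset.sum_congr rfl fun i _ => ?_
    rw [← image_support_finSuccEquiv, Finset.sum_image, Lc]
    · refine Finset.sum_congr rfl fun m _ => ?_
      rw [finSuccEquiv_coeff_coeff]
    · intro a _ b _ h
      have h1 := congrArg Finsupp.tail h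
      rwa [Finsupp.tail_cons, Finsupp.tail_cons] at h1
  · intro m hm
    rw [Finset.mem_range]
    exact Nat.lt_succ_of_le ((monomial_le_degreeOf 0 hm).trans hN)

private theorem dg_of_coeff {σ : Type} [Fintype σ] (F : MvPolynomial σ ℂ) (d : σ → ℕ)
    (hd : ∀ k, F.degreeOf k ≤ d k) (B : ℝ) (hB : ∀ i, ‖F.coeff i‖ ≤ B) :
    Lc F ≤ (∏ k, ((d k : ℝ) + 1)) * B := by
  classical
  have hB0 : 0 ≤ B := (norm_nonneg _).trans (hB 0)
  have h1 : Lc F ≤ F.support.card * B := by
    rw [Lc]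
    refine (Finset.sum_le_sum fun i _ => hB i).trans ?_
    rw [Finset.sum_const, nsmul_eq_mul]
  refine h1.trans (mul_le_mul_of_nonneg_right ?_ hB0)
  have h2 : F.support.card ≤ (Fintype.piFinset fun h => Finset.range (d h + 1)).card := by
    refine Finset.card_le_card_of_injOn (fun i h => i h) ?_ ?_
    · intro i hi
      rw [Finset.mem_coe, Fintype.mem_piFinset]
      intro h
      rw [Finset.mem_range]
      exact Nat.lt_succ_of_le ((monomial_le_degreeOf h hi).trans (hd h))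
    · intro i _ j _ hij
      exact DFunLike.coe_injective hij
  rw [Fintype.card_piFinset] at h2
  simp only [Finset.card_range] at h2
  exact_mod_cast h2

/-- On the torus a polynomial is bounded by its norm. -/
private theorem dg_eval (d : ℕ) (F : MvPolynomial (Fin d) ℂ) (θ : Fin d → ℂ)
    (hθ : ∀ k, ‖θ k‖ = 1) : ‖eval θ F‖ ≤ Lc F := by
  rw [eval_eq', Lc]
  refine (norm_sum_le _ _).trans (Finset.sum_le_sum fun i _ => ?_)
  rw [norm_mul, norm_prod]
  have h1 : ∏ k, ‖θ k ^ i k‖ = 1 := Finset.prod_eq_one fun k _ => by rw [norm_pow, hθ k, one_pow]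
  rw [h1, mul_one]

/-- A coefficient with respect to the first variable is bounded by the Mahler measure of the
specialised polynomial. -/
private theorem dg_mahler (d : ℕ) (P : MvPolynomial (Fin (d + 1)) ℂ) (i : ℕ) (θ : Fin d → ℂ) :
    ‖eval θ ((finSuccEquiv ℂ d P).coeff i)‖ ≤
      2 ^ P.degreeOf 0 * ((finSuccEquiv ℂ d P).map (eval θ)).mahlerMeasure := by
  have e1 : eval θ ((finSuccEquiv ℂ d P).coeff i) =
      ((finSuccEquiv ℂ d P).map (eval θ)).coeff i := by
    rw [Polynomial.coeff_map]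
  rw [e1]
  refine (Polynomial.norm_coeff_le_choose_mul_mahlerMeasure i _).trans
    (mul_le_mul_of_nonneg_right ?_ (Polynomial.mahlerMeasure_nonneg _))
  have e2 : ((finSuccEquiv ℂ d P).map (eval θ)).natDegree ≤ P.degreeOf 0 := by
    rw [← natDegree_finSuccEquiv]
    exact Polynomial.natDegree_map_le
  have e3 : ((finSuccEquiv ℂ d P).map (eval θ)).natDegree.choose i ≤ 2 ^ P.degreeOf 0 :=
    (Nat.choose_le_two_pow _ _).trans (Nat.pow_le_pow_right (by norm_num) e2)
  exact_mod_cast e3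

private theorem dg_step (d : ℕ) (P Q : MvPolynomial (Fin (d + 1)) ℂ) (i j : ℕ) (θ : Fin d → ℂ)
    (hθ : ∀ k, ‖θ k‖ = 1) :
    ‖eval θ ((finSuccEquiv ℂ d P).coeff i * (finSuccEquiv ℂ d Q).coeff j)‖ ≤
      2 ^ (P.degreeOf 0 + Q.degreeOf 0) * Lc (P * Q) := by
  have h3 : ((finSuccEquiv ℂ d (P * Q)).map (eval θ)).mahlerMeasure ≤ Lc (P * Q) := by
    refine (Polynomial.mahlerMeasure_le_sum_norm_coeff _).trans ?_
    have e4 : ((finSuccEquiv ℂ d (P * Q)).map (eval θ)).natDegree <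
        (P * Q).degreeOf 0 + 1 := by
      rw [← natDegree_finSuccEquiv]
      exact Nat.lt_succ_of_le Polynomial.natDegree_map_le
    rw [Polynomial.sum_over_range' _ (fun n => norm_zero) _ e4, dg_finSucc (P * Q) _ le_rfl]
    refine Finset.sum_le_sum fun j _ => ?_
    rw [Polynomial.coeff_map]
    exact dg_eval d _ θ hθ
  have h4 : ((finSuccEquiv ℂ d (P * Q)).map (eval θ)).mahlerMeasure =
      ((finSuccEquiv ℂ d P).map (eval θ)).mahlerMeasure *
        ((finSuccEquiv ℂ d Q).map (eval θ)).mahlerMeasure := by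
    rw [map_mul, Polynomial.map_mul, Polynomial.mahlerMeasure_mul]
  rw [map_mul, norm_mul]
  calc ‖eval θ ((finSuccEquiv ℂ d P).coeff i)‖ * ‖eval θ ((finSuccEquiv ℂ d Q).coeff j)‖
      ≤ (2 ^ P.degreeOf 0 * ((finSuccEquiv ℂ d P).map (eval θ)).mahlerMeasure) *
          (2 ^ Q.degreeOf 0 * ((finSuccEquiv ℂ d Q).map (eval θ)).mahlerMeasure) :=
        mul_le_mul (dg_mahler d P i θ) (dg_mahler d Q j θ) (norm_nonneg _)
          (mul_nonneg (by positivity) (Polynomial.mahlerMeasure_nonneg _))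
    _ = 2 ^ (P.degreeOf 0 + Q.degreeOf 0) *
          ((finSuccEquiv ℂ d (P * Q)).map (eval θ)).mahlerMeasure := by
        rw [h4, pow_add]
        ring
    _ ≤ 2 ^ (P.degreeOf 0 + Q.degreeOf 0) * Lc (P * Q) :=
        mul_le_mul_of_nonneg_left h3 (by positivity)

/-- The largest coefficient with respect to the first variable. -/
private theorem dg_max (d : ℕ) (P : MvPolynomial (Fin (d + 1)) ℂ) :
    ∃ i, Lc P ≤ 2 ^ P.degreeOf 0 * Lc ((finSuccEquiv ℂ d P).coeff i) := by
  obtain ⟨i₀, -, hi₀⟩ := Finset.exists_max_image (Finset.range (P.degreeOf 0 + 1))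
    (fun i => Lc ((finSuccEquiv ℂ d P).coeff i)) ⟨0, Finset.mem_range.2 (Nat.succ_pos _)⟩
  refine ⟨i₀, ?_⟩
  rw [dg_finSucc P _ le_rfl]
  calc ∑ i ∈ Finset.range (P.degreeOf 0 + 1), Lc ((finSuccEquiv ℂ d P).coeff i)
      ≤ ∑ _i ∈ Finset.range (P.degreeOf 0 + 1), Lc ((finSuccEquiv ℂ d P).coeff i₀) :=
        Finset.sum_le_sum fun i hi => hi₀ i hi
    _ = ((P.degreeOf 0 + 1 : ℕ) : ℝ) * Lc ((finSuccEquiv ℂ d P).coeff i₀) := by
        rw [Finset.sum_const, Finset.card_range, nsmul_eq_mul]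
    _ ≤ 2 ^ P.degreeOf 0 * Lc ((finSuccEquiv ℂ d P).coeff i₀) := by
        refine mul_le_mul_of_nonneg_right ?_ (dg_nonneg _)
        have : P.degreeOf 0 + 1 ≤ 2 ^ P.degreeOf 0 := Nat.lt_two_pow_self
        exact_mod_cast this

private theorem dg_two (m : ℕ) : (2 : ℝ) ^ m ≤ Real.exp m := by
  have h3 : (2 : ℝ) ≤ Real.exp 1 := by
    have := Real.add_one_le_exp (1 : ℝ)
    linarith
  calc (2 : ℝ) ^ m ≤ Real.exp 1 ^ m := pow_le_pow_left₀ (by norm_num) h3 m
    _ = Real.exp m := by rw [← Real.exp_nat_mul, mul_one]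

/-- **Gelfond's inequality.** The norm of a product is not much smaller than the product of the norms.

Proof. Induction on `d`; `d = 0`: constants, equality with `c = 0`. Step: `P, Q` in `d + 1` variables, both
`≠ 0` (otherwise the left side is `0`). Let `p_i = (finSuccEquiv ℂ d P).coeff i`, `q_k` likewise; `Lc P = ∑_i Lc p_i`
(`i ≤ degreeOf 0 P`; compare `L1_finSucc` in LSharp/L1), so there are `i`, `k` with
`Lc P ≤ (deg_0 P + 1) Lc p_i`, `Lc Q ≤ (deg_0 Q + 1) Lc q_k`. Let `R = p_i * q_k`. By induction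
`Lc p_i * Lc q_k ≤ exp (c (sum of the degrees in the other variables)) * Lc R`; `degreeOf` of `p_i` in the variable `k'`
is at most `degreeOf k'.succ P` (`degreeOf_coeff_finSuccEquiv`). For `θ` on the torus let `u`, `w` be the one
variable complex polynomials `finSuccEquiv P`, `finSuccEquiv Q` specialised at `θ`: `‖u.coeff i‖ ≤ 2 ^ (deg u) M(u)`
(`Polynomial.norm_coeff_le_choose_mul_mahlerMeasure`, `Nat.choose_le_two_pow`), the same for `w`,
`M(u) M(w) = M(u w)` (`Polynomial.mahlerMeasure_mul`) `≤ ∑ ‖coeff (u w)‖` (`Polynomial.mahlerMeasure_le_sum_norm_coeff`)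
`≤ Lc (P * Q)` (each coefficient of `u w` is the value at `θ` of a coefficient of `finSuccEquiv (P Q)`, and a polynomial
is bounded by its `ℓ¹`-norm on the torus). So `‖eval θ R‖ ≤ 2 ^ (deg_0 P + deg_0 Q) * Lc (P * Q) =: S` for all `θ`, and
`norm_coeff_le_of_torus` (LSharp/Torus) gives `‖R.coeff m‖ ≤ S`. `R` has at most
`∏_(k') (degreeOf k' R + 1) ≤ exp (sum of the degrees)` monomials, so `Lc R ≤ exp (..) * S`. Put everything together with
`x + 1 ≤ exp x`, `2 ^ x ≤ exp x`: `c + 3` works. See `gelfond_step` and `gelfond` in LSharp/Gelfond for very similar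
computations with integral polynomials. -/
theorem gelfond_mul (d : ℕ) : ∃ c : ℝ, 0 ≤ c ∧ ∀ P Q : MvPolynomial (Fin d) ℂ,
    Lc P * Lc Q ≤ Real.exp (c * ∑ k, ((P.degreeOf k : ℝ) + Q.degreeOf k)) * Lc (P * Q) := by
  induction d with
  | zero =>
    refine ⟨0, le_rfl, fun P Q => ?_⟩
    rw [zero_mul, Real.exp_zero, one_mul]
    obtain ⟨p, rfl⟩ : ∃ p, P = C p := ⟨_, eq_C_of_isEmpty P⟩
    obtain ⟨q, rfl⟩ : ∃ q, Q = C q := ⟨_, eq_C_of_isEmpty Q⟩
    rw [← map_mul, dg_C, dg_C, dg_C, norm_mul]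
  | succ d ih =>
    obtain ⟨c, hc, ih⟩ := ih
    refine ⟨c + 2, by linarith, fun P Q => ?_⟩
    obtain ⟨i, hi⟩ := dg_max d P
    obtain ⟨j, hj⟩ := dg_max d Q
    set p := (finSuccEquiv ℂ d P).coeff i with hp
    set q := (finSuccEquiv ℂ d Q).coeff j with hq
    set N : ℕ := P.degreeOf 0 + Q.degreeOf 0 with hN
    set D' : ℕ := ∑ k : Fin d, (P.degreeOf k.succ + Q.degreeOf k.succ) with hD'
    have hL : 0 ≤ Lc (P * Q) := dg_nonneg _
    have hpk : ∀ k : Fin d, p.degreeOf k ≤ P.degreeOf k.succ := fun k =>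
      degreeOf_coeff_finSuccEquiv P k i
    have hqk : ∀ k : Fin d, q.degreeOf k ≤ Q.degreeOf k.succ := fun k =>
      degreeOf_coeff_finSuccEquiv Q k j
    have hsum : (∑ k, ((p.degreeOf k : ℝ) + q.degreeOf k)) ≤ D' := by
      have h : ∑ k, (p.degreeOf k + q.degreeOf k) ≤ D' :=
        Finset.sum_le_sum fun k _ => Nat.add_le_add (hpk k) (hqk k)
      exact_mod_cast h
    have htot : (∑ k, ((P.degreeOf k : ℝ) + Q.degreeOf k)) = N + D' := by
      rw [Fin.sum_univ_succ, hD', hN]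
      push_cast
      rfl
    have h1 : ∀ m, ‖(p * q).coeff m‖ ≤ 2 ^ N * Lc (P * Q) :=
      norm_coeff_le_of_torus d (p * q) _ fun θ hθ => dg_step d P Q i j θ hθ
    have h2 : Lc (p * q) ≤ 2 ^ D' * (2 ^ N * Lc (P * Q)) := by
      refine (dg_of_coeff (p * q) (fun k => P.degreeOf k.succ + Q.degreeOf k.succ)
        (fun k => (degreeOf_mul_le k p q).trans (Nat.add_le_add (hpk k) (hqk k))) _ h1).trans ?_
      refine mul_le_mul_of_nonneg_right ?_ (mul_nonneg (by positivity) hL)
      rw [hD', ← Finset.prod_pow_eq_pow_sum]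
      refine Finset.prod_le_prod (fun _ _ => by positivity) fun k _ => ?_
      have h3 : P.degreeOf k.succ + Q.degreeOf k.succ + 1 ≤
        2 ^ (P.degreeOf k.succ + Q.degreeOf k.succ) := Nat.lt_two_pow_self
      exact_mod_cast h3
    calc Lc P * Lc Q ≤ (2 ^ P.degreeOf 0 * Lc p) * (2 ^ Q.degreeOf 0 * Lc q) :=
          mul_le_mul hi hj (dg_nonneg _) (mul_nonneg (by positivity) (dg_nonneg _))
      _ = 2 ^ N * (Lc p * Lc q) := by
          rw [hN, pow_add]
          ring
      _ ≤ 2 ^ N * (Real.exp (c * D') * (2 ^ D' * (2 ^ N * Lc (P * Q)))) := by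
          refine mul_le_mul_of_nonneg_left ((ih p q).trans ?_) (by positivity)
          exact mul_le_mul (Real.exp_le_exp.2 (mul_le_mul_of_nonneg_left hsum hc)) h2
            (dg_nonneg _) (Real.exp_pos _).le
      _ ≤ Real.exp N * (Real.exp (c * D') * (Real.exp D' * (Real.exp N * Lc (P * Q)))) := by
          have h4 := dg_two N
          have h5 := dg_two D'
          refine mul_le_mul h4 (mul_le_mul_of_nonneg_left (mul_le_mul h5
            (mul_le_mul_of_nonneg_right h4 hL) (mul_nonneg (by positivity) hL)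
            (Real.exp_pos _).le) (Real.exp_pos _).le) (by positivity) (Real.exp_pos _).le
      _ = Real.exp (N + c * D' + D' + N) * Lc (P * Q) := by
          rw [Real.exp_add, Real.exp_add, Real.exp_add]
          ring
      _ ≤ Real.exp ((c + 2) * ∑ k, ((P.degreeOf k : ℝ) + Q.degreeOf k)) * Lc (P * Q) := by
          refine mul_le_mul_of_nonneg_right (Real.exp_le_exp.2 ?_) hL
          rw [htot]
          have h6 : (0 : ℝ) ≤ N := Nat.cast_nonneg _
          have h7 : (0 : ℝ) ≤ D' := Nat.cast_nonneg _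
          nlinarith [mul_nonneg hc h6]

end Pool.Agent.Zilber
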