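import Pool.Agent.LSharp.HCDefs
import Pool.Agent.Zilber.DAGel

set_option autoImplicit false

/-! ALPHA 2: Gelfond's inequality for products of complex polynomials in several variables. -/

namespace Pool.Agent.Zilber

open MvPolynomial

/-- The `ℓ¹`-norm of a complex polynomial. -/
noncomputable def L1C {O : Type} (g : MvPolynomial O ℂ) : ℝ := ∑ e ∈ g.support, ‖g.coeff e‖

private theorem gel_mahler (p : Polynomial ℂ) :
    (p.sum fun _ a => ‖a‖) ≤ 2 ^ p.natDegree * p.mahlerMeasure := by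
  rw [Polynomial.sum_over_range p (fun n => norm_zero)]
  calc ∑ i ∈ Finset.range (p.natDegree + 1), ‖p.coeff i‖
      ≤ ∑ i ∈ Finset.range (p.natDegree + 1), (p.natDegree.choose i : ℝ) * p.mahlerMeasure :=
        Finset.sum_le_sum fun i _ => Polynomial.norm_coeff_le_choose_mul_mahlerMeasure i p
    _ = 2 ^ p.natDegree * p.mahlerMeasure := by
        rw [← Finset.sum_mul]
        congr 1
        exact_mod_cast Nat.sum_range_choose p.natDegree

/-- One variable. Proof. `‖coeff‖ ≤ choose * mahlerMeasure` (`Polynomial.norm_coeff_le_choose_mul_mahlerMeasure`), the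
sum of the binomial coefficients is `2 ^ natDegree`, the Mahler measure is multiplicative
(`Polynomial.mahlerMeasure_mul`) and at most the `ℓ¹`-norm (`Polynomial.mahlerMeasure_le_sum_norm_coeff`). -/
theorem gel_one (p q : Polynomial ℂ) :
    (p.sum fun _ a => ‖a‖) * (q.sum fun _ a => ‖a‖) ≤
      2 ^ (p.natDegree + q.natDegree) * (p * q).sum fun _ a => ‖a‖ := by
  have h0 : ∀ r : Polynomial ℂ, 0 ≤ r.sum fun _ a => ‖a‖ := fun r =>
    Finset.sum_nonneg fun _ _ => norm_nonneg _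
  calc (p.sum fun _ a => ‖a‖) * (q.sum fun _ a => ‖a‖)
      ≤ (2 ^ p.natDegree * p.mahlerMeasure) * (2 ^ q.natDegree * q.mahlerMeasure) :=
        mul_le_mul (gel_mahler p) (gel_mahler q) (h0 q)
          (mul_nonneg (by positivity) (Polynomial.mahlerMeasure_nonneg p))
    _ = 2 ^ (p.natDegree + q.natDegree) * (p * q).mahlerMeasure := by
        rw [Polynomial.mahlerMeasure_mul, pow_add]
        ring
    _ ≤ 2 ^ (p.natDegree + q.natDegree) * (p * q).sum fun _ a => ‖a‖ :=
        mul_le_mul_of_nonneg_left (Polynomial.mahlerMeasure_le_sum_norm_coeff _) (by positivity)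

/-- **Gelfond's inequality.**

Proof. Induction on `d`; `d = 0`: constants. Step (`d + 1` variables; as in `LSharp/Gelfond.lean`, which is a
good model): write `f = ∑ f_i X_0^i`, `h = ∑ h_i X_0^i` (`MvPolynomial.finSuccEquiv`), `f_i, h_i` in `d` variables;
`L1C f = ∑_i L1C f_i`, so there is `i` with `L1C f_i ≥ L1C f / (p + 1)`, `p = degreeOf 0 f`, and `j` for `h`, `q`. For
unimodular `θ : Fin d → ℂ`: `‖f_i(θ)‖ ‖h_j(θ)‖ ≤ (∑ ‖f_i'(θ)‖) (∑ ‖h_j'(θ)‖) ≤ 2^(p+q) ∑ ‖(f h)_m (θ)‖ ≤ 2^(p+q) L1C (f h)` by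
`gel_one`. So `f_i h_j` is bounded by `2^(p+q) L1C (f h)` on the unit torus, hence so are all its coefficients
(Cauchy; or the mean over the `N`-th roots of unity, `N` large; a finite sum!), and their number is at most
`∏_k (degreeOf k f + degreeOf k h + 1)`. By induction
`L1C f_i L1C h_j ≤ exp (C_d ∑_k (deg)) L1C (f_i h_j) ≤ exp (C_d ∑ deg) ∏ (deg_k + 1) 2^(p+q) L1C (f h)`. Finally
`p + 1 ≤ exp p`, `x + 1 ≤ exp x`. So `C_(d+1) = C_d + 3` will do. -/
theorem gel (d : ℕ) : ∃ C : ℝ, 0 ≤ C ∧ ∀ f h : MvPolynomial (Fin d) ℂ,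
    L1C f * L1C h ≤ Real.exp (C * ∑ k, ((f.degreeOf k : ℝ) + h.degreeOf k)) * L1C (f * h) :=
  gelfond_mul d

end Pool.Agent.Zilber
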