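import Mathlib

set_option autoImplicit false

/-! ALPHA 1: coordinates of a maximal minor. -/

namespace Pool.Agent.Zilber

/-- Some maximal minor is not zero. -/
private theorem al_exists {m n : Type} [Fintype m] [DecidableEq m] [Fintype n]
    (T : Matrix n m ℝ) (hT : Function.Injective T.mulVec) :
    ∃ I : m → n, (T.submatrix I id).det ≠ 0 := by
  have h1 : LinearIndependent ℝ T.col := Matrix.mulVec_injective_iff.1 hT
  have h2 : T.rank = Fintype.card m := by
    rw [← Matrix.rank_transpose]
    exact LinearIndependent.rank_matrix (M := Matrix.transpose T) h1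
  rw [T.rank_eq_finrank_span_row] at h2
  have h3 : Submodule.span ℝ (Set.range T.row) = ⊤ := by
    refine Submodule.eq_top_of_finrank_eq ?_
    rw [h2, Module.finrank_fintype_fun_eq_card]
  obtain ⟨κ, a, -, ha1, ha2⟩ := exists_linearIndependent' ℝ T.row
  rw [h3] at ha1
  let b : Module.Basis κ ℝ (m → ℝ) := Module.Basis.mk ha2 ha1.ge
  have : Fintype κ := FiniteDimensional.fintypeBasisIndex b
  have hc : Fintype.card m = Fintype.card κ := by
    rw [← Module.finrank_eq_card_basis b, Module.finrank_fintype_fun_eq_card]
  let e : m ≃ κ := Fintype.equivOfCardEq hc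
  refine ⟨a ∘ e, ?_⟩
  have h4 : LinearIndependent ℝ (T.submatrix (a ∘ e) id).row := ha2.comp e e.injective
  have h5 := Matrix.linearIndependent_rows_iff_isUnit.1 h4
  exact ((Matrix.isUnit_iff_isUnit_det _).1 h5).ne_zero

/-- **Maximal minor.** `T` a real matrix with rows `n`, columns `m`, of full column rank. There are rows
`I : m → n` such that every coordinate of a vector `T h` is at most the sum of the coordinates in `I`.

Proof. Some `card m` rows are linearly independent (the rank of `T` is `card m`; row rank = column rank), so
there is `I` with `(T.submatrix I id).det ≠ 0`; choose `I : m → n` (finitely many) with `|det (T.submatrix I id)|`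
maximal, `≠ 0`; `I` is injective (two equal rows would give `0`). For `c : n` let `λ i = det (T.submatrix I id with
the row i replaced by row c) / det (T.submatrix I id)`, `|λ i| ≤ 1` by maximality (`Function.update I i c`). By
Cramer's rule `T c = ∑ i, λ i • T (I i)` (`Matrix.cramer`, `Matrix.mulVec_cramer` for the transpose; or: the matrix
`A = T.submatrix I id` is invertible, `T c = λ A` with `λ = T c A⁻¹`, and `det` of the updated matrix is `λ i det A`:
`Matrix.det_updateRow_...`). So `|(T h) c| = |∑ λ i (T h) (I i)| ≤ ∑ |(T h) (I i)|`. -/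
theorem al_minor {m n : Type} [Fintype m] [DecidableEq m] [Fintype n] [DecidableEq n]
    (T : Matrix n m ℝ) (hT : Function.Injective T.mulVec) :
    ∃ I : m → n, Function.Injective I ∧
      ∀ (h : m → ℝ) (c : n), |T.mulVec h c| ≤ ∑ i, |T.mulVec h (I i)| := by
  obtain ⟨I₀, hI₀⟩ := al_exists T hT
  have : Nonempty (m → n) := ⟨I₀⟩
  obtain ⟨I, hI⟩ := Finite.exists_max fun I : m → n => |(T.submatrix I id).det|
  have hd : (T.submatrix I id).det ≠ 0 := by
    intro h
    have h1 := hI I₀
    rw [h, abs_zero] at h1
    exact hI₀ (abs_eq_zero.1 (le_antisymm h1 (abs_nonneg _)))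
  have hdp : 0 < |(T.submatrix I id).det| := abs_pos.2 hd
  refine ⟨I, ?_, ?_⟩
  · intro i j hij
    by_contra hne
    refine hd (Matrix.det_zero_of_row_eq hne ?_)
    funext k
    simp only [Matrix.submatrix_apply, hij]
  · intro h c
    set A := T.submatrix I id with hA
    have h1 : ∀ i, |(A.updateRow i (T c)).det| ≤ |A.det| := by
      intro i
      have h2 : A.updateRow i (T c) = T.submatrix (Function.update I i c) id := by
        ext j k
        by_cases hj : j = i
        · subst hj
          simp [Matrix.updateRow_apply]
        · simp [Matrix.updateRow_apply, hj, hA]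
      rw [h2]
      exact hI _
    have h3 : A.transpose.mulVec (fun i => (A.updateRow i (T c)).det) = A.det • T c := by
      have h4 := Matrix.mulVec_cramer A.transpose (T c)
      rw [Matrix.det_transpose] at h4
      rw [← h4]
      congr 1
      funext i
      exact (Matrix.cramer_transpose_apply A (T c) i).symm
    have h5 : A.det * T.mulVec h c = ∑ i, (A.updateRow i (T c)).det * T.mulVec h (I i) := by
      have h6 : A.det * T.mulVec h c = dotProduct (A.det • T c) h := by
        rw [smul_dotProduct, smul_eq_mul]
        rfl
      rw [h6, ← h3, Matrix.mulVec_transpose, ← Matrix.dotProduct_mulVec]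
      rfl
    have h7 : |A.det| * |T.mulVec h c| ≤ |A.det| * ∑ i, |T.mulVec h (I i)| := by
      rw [← abs_mul, h5, Finset.mul_sum]
      refine (Finset.abs_sum_le_sum_abs _ _).trans (Finset.sum_le_sum fun i _ => ?_)
      rw [abs_mul]
      exact mul_le_mul_of_nonneg_right (h1 i) (abs_nonneg _)
    exact le_of_mul_le_mul_left h7 hdp

end Pool.Agent.Zilber
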