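import Mathlib

set_option autoImplicit false

/-! ALPHA 3: the pigeonhole principle modulo the image of a matrix. -/

namespace Pool.Agent.Zilber

private theorem pig_close {a b : ℝ} (ha : 0 ≤ a) (hb : 0 ≤ b) (h : ⌊a⌋₊ = ⌊b⌋₊) :
    |a - b| ≤ 1 := by
  have h1 := Nat.floor_le ha
  have h2 := Nat.lt_floor_add_one a
  have h3 := Nat.floor_le hb
  have h4 := Nat.lt_floor_add_one b
  rw [h] at h1 h2
  rw [abs_le]
  constructor <;> linarith

/-- **Pigeonhole.** `T : ℝ^m → ℝ^n` injective, `I : m → n` rows as in `al_minor`,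
`card n ≤ 2 card m`, and `|h i| ≤ K ∑ |(T h) (I i')|` for all `h`; `K * card m * Q ≤ 1`,
`17 r < Q`. There is an integer vector `G ≠ 0` with `G = T h + g`, `|h i| ≤ 1/8`,
`|g c| ≤ 1/r`, `|G c| ≤ card m * Q + 1`.

Proof. The rows `I` of `T` form an invertible matrix `A` (injective by the bound `K`: `A h = 0`
gives `h = 0`). For `p : m → Fin Q` (as integers `0 ≤ p i < Q`) let `h_p = A⁻¹ p`, so
`|h_p i| ≤ K ∑ |p i'| ≤ K card m Q ≤ 1`; define the integer vector `P_p : n → ℤ` by
`P_p c = ⌊(T h_p) c⌋` (which is `p i` for `c = I i`) and `g_p = P_p - T h_p`: zero on the range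
of `I`, in `(-1, 0]` elsewhere. To `p` associate the cells: of `h_p i` in `[-1, 1]`:
`⌊8 (h_p i + 1)⌋ ∈ {0..16}`, and of `g_p c` for `c ∉ range I`: `⌊-r g_p c⌋ ∈ {0..r-1}`. The
number of cells is `17 ^ card m * r ^ (card n - card m) ≤ (17 r) ^ card m < Q ^ card m`, so two
different `p, p'` are in the same cell (`Fintype.exists_ne_map_eq_of_card_lt`). Let
`G = P_p - P_p'`, `h = h_p - h_p'`, `g = g_p - g_p'`: `|h i| ≤ 1/8`, `|g c| ≤ 1/r` (values in
the same half-open cell; `0` on the range of `I`), `G ≠ 0` because `G (I i) = p i - p' i`.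
`|G c| ≤ |(T h) c| + |g c| ≤ ∑ |(T h) (I i)| + 1 = ∑ |p i - p' i| + 1 ≤ card m Q + 1` by the
property `hI`. -/
theorem al_pigeon {m n : Type} [Fintype m] [DecidableEq m] [Nonempty m] [Fintype n] [DecidableEq n]
    (T : Matrix n m ℝ) (I : m → n) (hinj : Function.Injective I)
    (hI : ∀ (h : m → ℝ) (c : n), |T.mulVec h c| ≤ ∑ i, |T.mulVec h (I i)|) (K : ℝ)
    (hK : ∀ (h : m → ℝ) (i : m), |h i| ≤ K * ∑ i', |T.mulVec h (I i')|)
    (hmn : Fintype.card n ≤ 2 * Fintype.card m) (Q r : ℕ) (hr : 1 ≤ r) (hQ : 17 * r < Q)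
    (hKQ : K * (Fintype.card m * Q) ≤ 1) :
    ∃ (G : n → ℤ) (h : m → ℝ) (g : n → ℝ), G ≠ 0 ∧ (∀ c, (G c : ℝ) = T.mulVec h c + g c) ∧
      (∀ i, |h i| ≤ 1 / 8) ∧ (∀ c, |g c| ≤ 1 / r) ∧ ∀ c, |(G c : ℝ)| ≤ Fintype.card m * Q + 1 := by
  classical
  have hpos : 0 < K := by
    obtain ⟨i⟩ := ‹Nonempty m›
    have h1 := hK (fun _ => 1) i
    rw [abs_one] at h1
    by_contra h2
    have h3 : K * ∑ i', |T.mulVec (fun _ => 1) (I i')| ≤ 0 :=
      mul_nonpos_of_nonpos_of_nonneg (not_lt.1 h2) (Finset.sum_nonneg fun _ _ => abs_nonneg _)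
    linarith
  have hsurj : ∀ y : m → ℝ, ∃ h : m → ℝ, ∀ i, T.mulVec h (I i) = y i := by
    have h1 : Function.Injective (T.submatrix I id).mulVecLin := by
      rw [← LinearMap.ker_eq_bot, LinearMap.ker_eq_bot']
      intro h hh
      funext i
      have h2 := hK h i
      have h3 : ∀ i', T.mulVec h (I i') = 0 := fun i' => congrFun hh i'
      have h4 : ∑ i', |T.mulVec h (I i')| = 0 :=
        Finset.sum_eq_zero fun i' _ => by rw [h3 i', abs_zero]
      rw [h4, mul_zero] at h2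
      exact abs_eq_zero.1 (le_antisymm h2 (abs_nonneg _))
    intro y
    obtain ⟨h, hh⟩ := LinearMap.injective_iff_surjective.1 h1 y
    exact ⟨h, fun i => congrFun hh i⟩
  choose H hH using fun p : m → Fin Q => hsurj (fun i => ((p i : ℕ) : ℝ))
  have hr0 : (0 : ℝ) < r := by exact_mod_cast hr
  have hHb : ∀ p i, |H p i| ≤ 1 := by
    intro p i
    have h2 : ∑ i', |T.mulVec (H p) (I i')| ≤ Fintype.card m * Q := by
      calc _ ≤ ∑ _i' : m, (Q : ℝ) := by
            refine Finset.sum_le_sum fun i' _ => ?_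
            rw [hH, abs_of_nonneg (Nat.cast_nonneg _)]
            exact_mod_cast (p i').isLt.le
        _ = _ := by rw [Finset.sum_const, Finset.card_univ, nsmul_eq_mul]
    exact (hK (H p) i).trans ((mul_le_mul_of_nonneg_left h2 hpos.le).trans hKQ)
  have hc0 : ∀ p i, 0 ≤ 8 * (H p i + 1) := fun p i => by
    linarith [(abs_le.1 (hHb p i)).1]
  have hc1 : ∀ p i, ⌊8 * (H p i + 1)⌋₊ < 17 := fun p i => by
    rw [Nat.floor_lt (hc0 p i)]
    push_cast
    linarith [(abs_le.1 (hHb p i)).2]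
  have hd0 : ∀ p c, 0 ≤ (r : ℝ) * Int.fract (T.mulVec (H p) c) := fun p c =>
    mul_nonneg hr0.le (Int.fract_nonneg _)
  have hd1 : ∀ p c, ⌊(r : ℝ) * Int.fract (T.mulVec (H p) c)⌋₊ < r := fun p c => by
    rw [Nat.floor_lt (hd0 p c)]
    have h2 := Int.fract_lt_one (T.mulVec (H p) c)
    nlinarith
  let cell : (m → Fin Q) → (m → Fin 17) × ({c // c ∉ Set.range I} → Fin r) := fun p =>
    (fun i => ⟨⌊8 * (H p i + 1)⌋₊, hc1 p i⟩,
      fun c => ⟨⌊(r : ℝ) * Int.fract (T.mulVec (H p) c)⌋₊, hd1 p c⟩)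
  have hcard : Fintype.card ((m → Fin 17) × ({c // c ∉ Set.range I} → Fin r)) <
      Fintype.card (m → Fin Q) := by
    rw [Fintype.card_prod, Fintype.card_fun, Fintype.card_fun, Fintype.card_fun, Fintype.card_fin,
      Fintype.card_fin, Fintype.card_fin]
    have h1 : Fintype.card {c // c ∉ Set.range I} ≤ Fintype.card m := by
      have h2 : Fintype.card {c // c ∉ Set.range I} =
          Fintype.card n - Fintype.card {c // c ∈ Set.range I} :=
        Fintype.card_subtype_compl (fun c => c ∈ Set.range I)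
      have h3 : Fintype.card {c // c ∈ Set.range I} = Fintype.card m :=
        Set.card_range_of_injective hinj
      omega
    calc 17 ^ Fintype.card m * r ^ Fintype.card {c // c ∉ Set.range I}
        ≤ 17 ^ Fintype.card m * r ^ Fintype.card m :=
          Nat.mul_le_mul_left _ (Nat.pow_le_pow_right hr h1)
      _ = (17 * r) ^ Fintype.card m := (mul_pow _ _ _).symm
      _ < Q ^ Fintype.card m := Nat.pow_lt_pow_left hQ Fintype.card_ne_zero
  obtain ⟨p, p', hne, heq⟩ := Fintype.exists_ne_map_eq_of_card_lt cell hcard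
  have hfl : ∀ (q : m → Fin Q) (i : m), ⌊T.mulVec (H q) (I i)⌋ = ((q i : ℕ) : ℤ) := by
    intro q i
    rw [hH]
    exact Int.floor_natCast _
  have hfr : ∀ (q : m → Fin Q) (i : m), Int.fract (T.mulVec (H q) (I i)) = 0 := by
    intro q i
    rw [hH]
    exact Int.fract_natCast _
  have hg : ∀ c, |Int.fract (T.mulVec (H p') c) - Int.fract (T.mulVec (H p) c)| ≤ 1 / r := by
    intro c
    by_cases hc : c ∈ Set.range I
    · obtain ⟨i, rfl⟩ := hc
      rw [hfr, hfr, sub_zero, abs_zero]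
      positivity
    · have h1 := congrFun (congrArg Prod.snd heq) ⟨c, hc⟩
      have h2 := congrArg Fin.val h1
      have h3 := pig_close (hd0 p' c) (hd0 p c) h2.symm
      rw [← mul_sub, abs_mul, abs_of_pos hr0] at h3
      rw [le_div_iff₀ hr0, mul_comm]
      exact h3
  refine ⟨fun c => ⌊T.mulVec (H p) c⌋ - ⌊T.mulVec (H p') c⌋, H p - H p',
    fun c => Int.fract (T.mulVec (H p') c) - Int.fract (T.mulVec (H p) c), ?_, ?_, ?_, hg, ?_⟩
  · intro h0
    refine hne (funext fun i => Fin.ext ?_)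
    have h1 := congrFun h0 (I i)
    simp only [hfl, Pi.zero_apply] at h1
    omega
  · intro c
    rw [Matrix.mulVec_sub, Pi.sub_apply, Int.cast_sub, ← Int.self_sub_fract,
      ← Int.self_sub_fract]
    ring
  · intro i
    have h1 := congrFun (congrArg Prod.fst heq) i
    have h2 := congrArg Fin.val h1
    have h3 := pig_close (hc0 p i) (hc0 p' i) h2
    rw [Pi.sub_apply]
    rw [abs_le] at h3 ⊢
    constructor <;> linarith [h3.1, h3.2]
  · intro c
    have e1 : ((⌊T.mulVec (H p) c⌋ - ⌊T.mulVec (H p') c⌋ : ℤ) : ℝ) = T.mulVec (H p - H p') c +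
        (Int.fract (T.mulVec (H p') c) - Int.fract (T.mulVec (H p) c)) := by
      rw [Matrix.mulVec_sub, Pi.sub_apply, Int.cast_sub, ← Int.self_sub_fract,
        ← Int.self_sub_fract]
      ring
    have e2 : (1 : ℝ) / r ≤ 1 := by
      rw [div_le_one hr0]
      exact_mod_cast hr
    have e3 : ∑ i, |T.mulVec (H p - H p') (I i)| ≤ Fintype.card m * Q := by
      calc _ ≤ ∑ _i : m, (Q : ℝ) := by
            refine Finset.sum_le_sum fun i _ => ?_
            rw [Matrix.mulVec_sub, Pi.sub_apply, hH, hH]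
            have h1 : ((p i : ℕ) : ℝ) ≤ Q := by exact_mod_cast (p i).isLt.le
            have h2 : ((p' i : ℕ) : ℝ) ≤ Q := by exact_mod_cast (p' i).isLt.le
            have h3 : (0 : ℝ) ≤ ((p i : ℕ) : ℝ) := Nat.cast_nonneg _
            have h4 : (0 : ℝ) ≤ ((p' i : ℕ) : ℝ) := Nat.cast_nonneg _
            rw [abs_le]
            constructor <;> linarith
        _ = _ := by rw [Finset.sum_const, Finset.card_univ, nsmul_eq_mul]
    change |((⌊T.mulVec (H p) c⌋ - ⌊T.mulVec (H p') c⌋ : ℤ) : ℝ)| ≤ _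
    rw [e1]
    calc _ ≤ |T.mulVec (H p - H p') c| +
          |Int.fract (T.mulVec (H p') c) - Int.fract (T.mulVec (H p) c)| := abs_add_le _ _
      _ ≤ Fintype.card m * Q + 1 := add_le_add ((hI _ c).trans e3) ((hg c).trans e2)

end Pool.Agent.Zilber
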