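import Mathlib

set_option autoImplicit false

/-! B11. Binomial coefficients. -/

namespace Pool.Agent.Zilber

/-- The binomial coefficients are small: `log choose (E + n, n) ≤ ε T` if `E ≤ C T`, `n ≤ η T`.

Proof. For `n = 0` the left side is `0`. For `n ≥ 1` : `choose (E + n) n ≤ (E + n) ^ n / n !`
(`Nat.choose_le_pow_div`) and `n ! ≥ (n / e) ^ n` (`n ! ≥ n ^ n exp (-n)`:
`Real.add_one_le_exp`-type or `Stirling`/`Nat.factorial` bounds; e.g. `exp n ≥ n ^ n / n !` from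
`Real.pow_div_factorial_le_exp`), so `log ≤ n (1 + log ((E + n) / n))`. With `T > 0` (as `n ≥ 1` and `n ≤ η T`),
`x = n / T ∈ (0, η]`, `(E + n) / n ≤ (C + η) / x`: `log ≤ T (x + x log ((C + 1) / x))` for `η ≤ 1`, and
`x log (1/x) ≤ 2 √x` (`Real.log_le_rpow_div` or `Real.add_one_le_exp`), `x log (C + 1) ≤ x (C + 1)`, so
`log ≤ T (x (C + 2) + 2 √x) ≤ T (η (C + 2) + 2 √η) ≤ ε T` for small `η`. -/
theorem choose_small (C ε : ℝ) (hC : 0 ≤ C) (hε : 0 < ε) : ∃ η : ℝ, 0 < η ∧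
    ∀ (T : ℝ) (E n : ℕ), 0 ≤ T → (E : ℝ) ≤ C * T → (n : ℝ) ≤ η * T →
      Real.log (Nat.choose (E + n) n) ≤ ε * T := by
  obtain ⟨δ, hδ⟩ : ∃ δ, δ = min 1 (ε / (C + 3)) := ⟨_, rfl⟩
  have hC3 : 0 < C + 3 := by linarith
  have hδ0 : 0 < δ := by
    rw [hδ]
    exact lt_min one_pos (div_pos hε hC3)
  have hδ1 : δ ≤ 1 := by
    rw [hδ]
    exact min_le_left _ _
  have hδ2 : (C + 3) * δ ≤ ε := by
    have h1 : δ ≤ ε / (C + 3) := by
      rw [hδ]
      exact min_le_right _ _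
    rw [le_div_iff₀ hC3] at h1
    linarith
  refine ⟨δ ^ 2, by positivity, fun T E n hT hE hn => ?_⟩
  rcases Nat.eq_zero_or_pos n with rfl | hn0
  · simp only [Nat.choose_zero_right, Nat.cast_one, Real.log_one]
    positivity
  have hn1 : (0 : ℝ) < n := by exact_mod_cast hn0
  have hT0 : 0 < T := by
    rcases hT.eq_or_lt with h | h
    · rw [← h, mul_zero] at hn
      exact absurd hn (not_le.2 hn1)
    · exact h
  obtain ⟨s, hs⟩ : ∃ s, s = Real.sqrt (n / T) := ⟨_, rfl⟩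
  have hs0 : 0 < s := by
    rw [hs]
    exact Real.sqrt_pos.2 (by positivity)
  have hs2 : s ^ 2 * T = n := by
    rw [hs, Real.sq_sqrt (by positivity)]
    field_simp
  have hsδ : s ≤ δ := by
    rw [hs, Real.sqrt_le_iff]
    exact ⟨hδ0.le, by rw [div_le_iff₀ hT0]; exact hn⟩
  have h1 : (Nat.choose (E + n) n : ℝ) ≤ (((E + n : ℕ) : ℝ) / n) ^ n * Real.exp n := by
    have a1 := Nat.choose_le_pow_div (α := ℝ) n (E + n)
    have a2 := Real.pow_div_factorial_le_exp (n : ℝ) hn1.le n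
    have a3 : (((E + n : ℕ) : ℝ) ^ n) / (n.factorial : ℝ) =
        (((E + n : ℕ) : ℝ) / n) ^ n * ((n : ℝ) ^ n / (n.factorial : ℝ)) := by
      rw [div_pow]
      field_simp
    rw [a3] at a1
    exact a1.trans (mul_le_mul_of_nonneg_left a2 (by positivity))
  have h2 : Real.log (Nat.choose (E + n) n) ≤ n * Real.log (((E + n : ℕ) : ℝ) / n) + n := by
    have hpos : (0 : ℝ) < (Nat.choose (E + n) n) := by
      exact_mod_cast Nat.choose_pos (Nat.le_add_left n E)
    have hne : (((E + n : ℕ) : ℝ) / n) ^ n ≠ 0 := by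
      have : (0 : ℝ) < ((E + n : ℕ) : ℝ) := by exact_mod_cast Nat.add_pos_right E hn0
      positivity
    refine (Real.log_le_log hpos h1).trans (le_of_eq ?_)
    rw [Real.log_mul hne (Real.exp_pos _).ne', Real.log_pow, Real.log_exp]
  have hET : ((E + n : ℕ) : ℝ) ≤ (C + 1) * T := by
    push_cast
    have h3 : δ ^ 2 * T ≤ 1 * T := mul_le_mul_of_nonneg_right (by nlinarith) hT
    linarith
  have h3 : ((E + n : ℕ) : ℝ) / n ≤ (C + 1) / s ^ 2 := by
    rw [div_le_div_iff₀ hn1 (by positivity), ← hs2]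
    have h4 := mul_le_mul_of_nonneg_right hET (by positivity : (0 : ℝ) ≤ s ^ 2)
    linarith
  have h4 : Real.log ((C + 1) / s ^ 2) ≤ C + 2 * (1 / s) := by
    rw [Real.log_div (by linarith) (by positivity), Real.log_pow]
    have h5 : Real.log (C + 1) ≤ C + 1 - 1 := Real.log_le_sub_one_of_pos (by linarith)
    have h6 : Real.log (1 / s) ≤ 1 / s - 1 := Real.log_le_sub_one_of_pos (by positivity)
    rw [Real.log_div one_ne_zero hs0.ne', Real.log_one] at h6
    push_cast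
    linarith
  have h5 : Real.log (((E + n : ℕ) : ℝ) / n) ≤ C + 2 * (1 / s) := by
    refine (Real.log_le_log ?_ h3).trans h4
    have : (0 : ℝ) < ((E + n : ℕ) : ℝ) := by exact_mod_cast Nat.add_pos_right E hn0
    positivity
  have h6 : (n : ℝ) * Real.log (((E + n : ℕ) : ℝ) / n) ≤ n * (C + 2 * (1 / s)) :=
    mul_le_mul_of_nonneg_left h5 hn1.le
  have h7 : (n : ℝ) * (C + 2 * (1 / s)) = T * (s ^ 2 * C + 2 * s) := by
    rw [← hs2]
    field_simp
  have h8 : s ^ 2 ≤ s := by nlinarith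
  have h9 : T * (s ^ 2 * C + 2 * s) + s ^ 2 * T ≤ T * ((C + 3) * s) := by
    have h10 : s ^ 2 * C + 2 * s + s ^ 2 ≤ (C + 3) * s := by nlinarith
    nlinarith
  have h10 : T * ((C + 3) * s) ≤ ε * T := by
    have h11 : (C + 3) * s ≤ ε := (mul_le_mul_of_nonneg_left hsδ hC3.le).trans hδ2
    nlinarith
  linarith

end Pool.Agent.Zilber
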