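import Pool.Agent.Zilber.BCon1

set_option autoImplicit false

/-! B13. Constants as variables (EXT): pure algebra. -/

namespace Pool.Agent.Zilber

open Polynomial in
/-- Change of the ring of coefficients along an injective map. -/
private theorem isAlg_mono {Ω R S : Type} [CommRing Ω] [CommRing R] [CommRing S] [Algebra R Ω]
    [Algebra S Ω] (f : R →+* S) (hf : ∀ r, algebraMap S Ω (f r) = algebraMap R Ω r)
    (hinj : Function.Injective f) {x : Ω} (hx : IsAlgebraic R x) : IsAlgebraic S x := by
  obtain ⟨p, hp, h0⟩ := hx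
  refine ⟨p.map f, (Polynomial.map_ne_zero_iff hinj).2 hp, ?_⟩
  rw [Polynomial.aeval_def, Polynomial.eval₂_map]
  have h1 : (algebraMap S Ω).comp f = algebraMap R Ω := RingHom.ext hf
  rw [h1]
  exact h0

/-- The same for subalgebras. -/
private theorem isAlg_adjoin_mono {Ω : Type} [Field Ω] {F : Subfield Ω} {S S' : Set Ω}
    (h1 : S ⊆ S') {x : Ω} (hx : IsAlgebraic (Algebra.adjoin F S) x) :
    IsAlgebraic (Algebra.adjoin F S') x :=
  isAlg_mono (Subalgebra.inclusion (Algebra.adjoin_mono h1)).toRingHom (fun _ => rfl)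
    (Subalgebra.inclusion_injective _) hx

/-- A maximal algebraically independent subfamily. -/
private theorem max_indep {Ω : Type} [Field Ω] (K : Subfield Ω) {ι : Type} [Fintype ι]
    [DecidableEq ι] (P : ι → Ω) :
    ∃ Y : Finset ι, AlgebraicIndependent K (fun i : {i // i ∈ Y} => P i) ∧
      ∀ i, IsAlgebraic (Algebra.adjoin K (P '' Y)) (P i) := by
  classical
  let S : Finset (Finset ι) :=
    Finset.univ.filter fun Y => AlgebraicIndependent K (fun i : {i // i ∈ Y} => P i)
  have hS : S.Nonempty := by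
    refine ⟨∅, Finset.mem_filter.2 ⟨Finset.mem_univ _, ?_⟩⟩
    have : IsEmpty {i // i ∈ (∅ : Finset ι)} := ⟨fun i => Finset.notMem_empty _ i.2⟩
    rw [algebraicIndependent_empty_type_iff]
    exact (algebraMap K Ω).injective
  obtain ⟨Y, hY, hmax⟩ := Finset.exists_max_image S Finset.card hS
  have hYi := (Finset.mem_filter.1 hY).2
  refine ⟨Y, hYi, fun i => ?_⟩
  by_contra hi
  have hiY : i ∉ Y := by
    intro h
    apply hi
    exact isAlgebraic_algebraMap
      (⟨P i, Algebra.subset_adjoin ⟨i, h, rfl⟩⟩ : Algebra.adjoin K (P '' (Y : Set ι)))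
  have h1 : AlgebraicIndepOn K P (insert i (Y : Set ι)) :=
    AlgebraicIndepOn.insert (s := (Y : Set ι)) hYi hi
  have h2 : insert i Y ∈ S := by
    refine Finset.mem_filter.2 ⟨Finset.mem_univ _, ?_⟩
    have h3 : AlgebraicIndepOn K P ((insert i Y : Finset ι) : Set ι) := by
      rw [Finset.coe_insert]
      exact h1
    exact h3
  have h4 := hmax _ h2
  rw [Finset.card_insert_of_notMem hiY] at h4
  omega

/-- Every element of `F ⊔ k` is in the field generated by `F` and finitely many elements of `k`. -/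
private theorem sup_fin {Ω : Type} [Field Ω] (F k : Subfield Ω) (z : Ω) (hz : z ∈ F ⊔ k) :
    ∃ c : Finset Ω, (∀ w ∈ c, w ∈ k) ∧ z ∈ Subfield.closure ((F : Set Ω) ∪ c) := by
  classical
  rw [← Subfield.closure_eq F, ← Subfield.closure_eq k, ← Subfield.closure_union] at hz
  induction hz using Subfield.closure_induction with
  | mem x hx =>
    rcases hx with hx | hx
    · exact ⟨∅, by simp, Subfield.subset_closure (Or.inl hx)⟩
    · refine ⟨{x}, ?_, Subfield.subset_closure (Or.inr (by simp))⟩
      intro w hw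
      rw [Finset.mem_singleton] at hw
      rw [hw]
      exact hx
  | one => exact ⟨∅, by simp, one_mem _⟩
  | add x y _ _ ihx ihy =>
    obtain ⟨c, hc, hx⟩ := ihx
    obtain ⟨d, hd, hy⟩ := ihy
    refine ⟨c ∪ d, fun w hw => (Finset.mem_union.1 hw).elim (hc w) (hd w), ?_⟩
    refine add_mem (Subfield.closure_mono ?_ hx) (Subfield.closure_mono ?_ hy)
    · exact Set.union_subset_union_right _ (by rw [Finset.coe_union]; exact Set.subset_union_left)
    · exact Set.union_subset_union_right _ (by rw [Finset.coe_union]; exact Set.subset_union_right)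
  | neg x _ ih =>
    obtain ⟨c, hc, hx⟩ := ih
    exact ⟨c, hc, neg_mem hx⟩
  | inv x _ ih =>
    obtain ⟨c, hc, hx⟩ := ih
    exact ⟨c, hc, inv_mem hx⟩
  | mul x y _ _ ihx ihy =>
    obtain ⟨c, hc, hx⟩ := ihx
    obtain ⟨d, hd, hy⟩ := ihy
    refine ⟨c ∪ d, fun w hw => (Finset.mem_union.1 hw).elim (hc w) (hd w), ?_⟩
    refine mul_mem (Subfield.closure_mono ?_ hx) (Subfield.closure_mono ?_ hy)
    · exact Set.union_subset_union_right _ (by rw [Finset.coe_union]; exact Set.subset_union_left)
    · exact Set.union_subset_union_right _ (by rw [Finset.coe_union]; exact Set.subset_union_right)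

/-- Transitivity: if `F'` is generated by `F` and elements algebraic over `F[S]`, then everything algebraic
over `F'[T]`, `T ⊆ S`, is algebraic over `F[S]`. -/
private theorem isAlg_trans {Ω : Type} [Field Ω] (F : Subfield Ω) (S T c : Set Ω) (hT : T ⊆ S)
    (hc : ∀ z ∈ c, IsAlgebraic (Algebra.adjoin F S) z) {x : Ω}
    (hx : IsAlgebraic (Algebra.adjoin (Subfield.closure ((F : Set Ω) ∪ c)) T) x) :
    IsAlgebraic (Algebra.adjoin F S) x := by
  set A := Algebra.adjoin F S with hA
  set B : Subalgebra A Ω := Subalgebra.algebraicClosure A Ω with hB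
  have h1 : ∀ z ∈ Subfield.closure ((F : Set Ω) ∪ c), z ∈ B := by
    intro z hz
    change IsAlgebraic A z
    induction hz using Subfield.closure_induction with
    | mem x hx =>
      rcases hx with hx | hx
      · exact isAlgebraic_algebraMap (⟨x, A.algebraMap_mem ⟨x, hx⟩⟩ : A)
      · exact hc x hx
    | one => exact isAlgebraic_one
    | add x y _ _ ihx ihy => exact ihx.add ihy
    | neg x _ ih => exact ih.neg
    | inv x _ ih => exact ih.inv
    | mul x y _ _ ihx ihy => exact ihx.mul ihy
  have h2 : ∀ z ∈ Algebra.adjoin (Subfield.closure ((F : Set Ω) ∪ c)) T, z ∈ B := by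
    intro z hz
    induction hz using Algebra.adjoin_induction with
    | mem x hx =>
      exact isAlgebraic_algebraMap (⟨x, Algebra.subset_adjoin (hT hx)⟩ : A)
    | algebraMap r => exact h1 r.1 r.2
    | add x y _ _ hx hy => exact add_mem hx hy
    | mul x y _ _ hx hy => exact mul_mem hx hy
  let f : Algebra.adjoin (Subfield.closure ((F : Set Ω) ∪ c)) T →+* B :=
    { toFun := fun z => ⟨z.1, h2 z.1 z.2⟩
      map_one' := rfl
      map_mul' := fun _ _ => rfl
      map_zero' := rfl
      map_add' := fun _ _ => rfl }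
  have h3 : IsAlgebraic B x :=
    isAlg_mono f (fun r => rfl) (fun a b h => Subtype.ext (congrArg (fun z => z.1) h)) hx
  exact h3.restrictScalars A

/-- **Constants as variables.** `F`, `k` subfields of `Ω`, `P i` finitely many elements. There are a
transcendence basis `P i`, `i ∈ Y`, of the `P i` over the compositum `F ⊔ k`, and finitely many elements `c` of `k`, such that the
`c` and the `P i`, `i ∈ Y`, together are algebraically independent over `F` and all `P i` are algebraic over
`F(c, P_Y)`.

Proof. `Y`: a maximal subset such that the `P i`, `i ∈ Y`, are algebraically independent over `F ⊔ k`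
(`exists_isTranscendenceBasis_subset` or `Finset` maximality); all `P i` are algebraic over `(F ⊔ k)[P_Y]`.
`alg_fin_const` for the `P i` (over `F ⊔ k`): finitely many elements of `F ⊔ k`; every element of `F ⊔ k` lies in
`Subfield.closure (F ∪ c₀)` for a finite subset `c₀` of `k` (`Subfield.closure_induction`: `F ⊔ k` is the closure of
`F ∪ k`). So there is a finite `c₁ ⊆ k` such that all the `P i` are algebraic over `F'[P_Y]` with
`F' = Subfield.closure (F ∪ c₁)`. Let `c ⊆ c₁` be a transcendence basis of `c₁` over `F` (maximal algebraically independent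
subset): the elements of `c₁`, hence of `F'`, are algebraic over `F(c)`, so the `P i` are algebraic over `F[c, P_Y]`
(transitivity). Independence: `P_Y` is independent over `F ⊔ k`, which contains `F[c]`; `c` is independent over `F`:
`AlgebraicIndependent.sumElim` or `algebraicIndependent_sumElim_iff`-type lemmas (`AlgebraicIndependent.sumElim_of_tower`). -/
theorem exists_constants {Ω : Type} [Field Ω] [CharZero Ω] (F k : Subfield Ω) {ι : Type}
    [Fintype ι] [DecidableEq ι] (P : ι → Ω) :
    ∃ (Y : Finset ι) (γ : ℕ) (c : Fin γ → Ω), (∀ i, c i ∈ k) ∧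
      AlgebraicIndependent (F ⊔ k : Subfield Ω) (fun i : {i // i ∈ Y} => P i) ∧
      (∀ i, IsAlgebraic (Algebra.adjoin (F ⊔ k : Subfield Ω) (P '' Y)) (P i)) ∧
      AlgebraicIndependent F (Sum.elim c (fun i : {i // i ∈ Y} => P i)) ∧
      ∀ i, IsAlgebraic (Algebra.adjoin F (Set.range c ∪ P '' Y)) (P i) := by
  classical
  obtain ⟨Y, hY, hYalg⟩ := max_indep (F ⊔ k) P
  -- finitely many constants
  choose cc hcc hcc2 using fun i => alg_fin_const (F ⊔ k) (P '' (Y : Set ι)) (P i) (hYalg i)
  choose! dd hdd hdd2 using sup_fin F k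
  let c1 : Finset Ω := Finset.univ.biUnion fun i => (cc i).biUnion dd
  have hc1k : ∀ z ∈ c1, z ∈ k := by
    intro z hz
    obtain ⟨i, -, h2⟩ := Finset.mem_biUnion.1 hz
    obtain ⟨w, h3, h4⟩ := Finset.mem_biUnion.1 h2
    exact hdd w (hcc i w h3) z h4
  have hP1 : ∀ i, IsAlgebraic
      (Algebra.adjoin (Subfield.closure ((F : Set Ω) ∪ c1)) (P '' (Y : Set ι))) (P i) := by
    intro i
    refine hcc2 i _ fun z hz => ?_
    refine Subfield.closure_mono ?_ (hdd2 z (hcc i z hz))
    refine Set.union_subset_union_right _ fun w hw => ?_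
    exact Finset.mem_biUnion.2 ⟨i, Finset.mem_univ _, Finset.mem_biUnion.2 ⟨z, hz, hw⟩⟩
  -- a transcendence basis of the constants
  obtain ⟨Z, hZ, hZalg⟩ := max_indep F (fun z : {z // z ∈ c1} => (z : Ω))
  let e := Z.equivFin
  let c : Fin Z.card → Ω := fun i => ((e.symm i).1 : Ω)
  have hcr : Set.range c = (fun z : {z // z ∈ c1} => (z : Ω)) '' (Z : Set {z // z ∈ c1}) := by
    ext x
    constructor
    · rintro ⟨i, rfl⟩
      exact ⟨(e.symm i).1, (e.symm i).2, rfl⟩
    · rintro ⟨z, hz, rfl⟩
      exact ⟨e ⟨z, hz⟩, by simp [c]⟩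
  have hci : AlgebraicIndependent F c := hZ.comp e.symm e.symm.injective
  refine ⟨Y, Z.card, c, fun i => hc1k _ (e.symm i).1.2, hY, hYalg, ?_, ?_⟩
  · let _ : Algebra F (F ⊔ k : Subfield Ω) :=
      (Subfield.inclusion (le_sup_left : F ≤ F ⊔ k)).toAlgebra
    have : IsScalarTower F (F ⊔ k : Subfield Ω) Ω := IsScalarTower.of_algebraMap_eq fun _ => rfl
    have h1 : AlgebraicIndependent F (Sum.elim (fun i : {i // i ∈ Y} => P i) c) := by
      refine hci.sumElim_of_tower ?_ hY
      rintro _ ⟨i, rfl⟩
      exact ⟨⟨c i, (le_sup_right : k ≤ F ⊔ k) (hc1k _ (e.symm i).1.2)⟩, rfl⟩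
    have h2 : Sum.elim c (fun i : {i // i ∈ Y} => P i) =
        (Sum.elim (fun i : {i // i ∈ Y} => P i) c) ∘ (Equiv.sumComm _ _) := by
      funext x
      rcases x with x | x <;> rfl
    rw [h2]
    exact h1.comp _ (Equiv.injective _)
  · intro i
    refine isAlg_trans F _ (P '' (Y : Set ι)) c1 Set.subset_union_right ?_ (hP1 i)
    intro z hz
    refine isAlg_adjoin_mono (F := F) (S := Set.range c) Set.subset_union_left ?_
    rw [hcr]
    exact hZalg ⟨z, hz⟩

end Pool.Agent.Zilber
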