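import Pool.Agent.Zilber.BDim1

set_option autoImplicit false

/-! B08. The degree of the field over the field of a transcendence basis (section 1.4). -/

namespace Pool.Agent.Zilber

open NumberField Pool.Agent.LAll Pool.Agent.LSharp MvPowerSeries Filter

variable {M β A : Type} [Fintype M] [Fintype β] [Fintype A] [DecidableEq M] [DecidableEq β]
  [DecidableEq A]

omit [Fintype M] [DecidableEq A] in
private theorem bd_one {E : Type} [Field E] [Algebra ℚ E] (ca : A → M) (F : A → E) (n : M → ℕ) :
    (1 : E) ∈ monSp ca F n := by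
  refine Submodule.subset_span ⟨fun _ => 0, fun a => ?_, ?_⟩
  · unfold cle
    simp
  · simp

omit [Fintype M] in
private theorem bd_gen {E : Type} [Field E] [Algebra ℚ E] (ca : A → M) (F : A → E) (s : A) :
    F s ∈ monSp ca F (fun _ => 1) := by
  refine Submodule.subset_span ⟨fun t => if t = s then 1 else 0, fun a => ?_, ?_⟩
  · unfold cle
    have h1 : ∀ t : A, (if ca t = a then (if t = s then 1 else 0) else 0) ≤
        (if t = s then 1 else 0 : ℕ) := by
      intro t
      split_ifs <;> simp
    refine (Finset.sum_le_sum fun t _ => h1 t).trans ?_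
    rw [Finset.sum_ite_eq' Finset.univ s]
    simp
  · rw [Finset.prod_eq_single s]
    · simp
    · intro t _ ht
      beta_reduce
      rw [if_neg ht, pow_zero]
    · intro h
      exact absurd (Finset.mem_univ s) h

omit [Fintype M] [DecidableEq A] in
private theorem bd_mono {E : Type} [Field E] [Algebra ℚ E] (ca : A → M) (F : A → E)
    {n n' : M → ℕ} (h : ∀ a, n a ≤ n' a) : monSp ca F n ≤ monSp ca F n' := by
  refine Submodule.span_mono ?_
  rintro f ⟨al, h1, h2⟩
  exact ⟨al, fun a => (h1 a).trans (h a), h2⟩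

omit [Fintype M] [DecidableEq A] in
private theorem bd_mul {E : Type} [Field E] [Algebra ℚ E] (ca : A → M) (F : A → E)
    {n n' : M → ℕ} {x y : E} (hx : x ∈ monSp ca F n) (hy : y ∈ monSp ca F n') :
    x * y ∈ monSp ca F (fun a => n a + n' a) := by
  have h1 : x * y ∈ monSp ca F n * monSp ca F n' := Submodule.mul_mem_mul hx hy
  refine (show monSp ca F n * monSp ca F n' ≤ _ from ?_) h1
  unfold monSp
  rw [Submodule.span_mul_span, Submodule.span_le]
  rintro _ ⟨f, ⟨al, h2, rfl⟩, g, ⟨al', h3, rfl⟩, rfl⟩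
  refine Submodule.subset_span ⟨fun s => al s + al' s, fun a => ?_, ?_⟩
  · have h4 : cle ca (fun s => al s + al' s) a = cle ca al a + cle ca al' a := by
      unfold cle
      rw [← Finset.sum_add_distrib]
      refine Finset.sum_congr rfl fun s _ => ?_
      split_ifs <;> simp
    rw [h4]
    exact Nat.add_le_add (h2 a) (h3 a)
  · change (∏ s, F s ^ al s) * (∏ s, F s ^ al' s) = _
    rw [← Finset.prod_mul_distrib]
    refine Finset.prod_congr rfl fun s _ => ?_
    rw [pow_add]

omit [Fintype M] [DecidableEq A] in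
private theorem bd_pow {E : Type} [Field E] [Algebra ℚ E] (ca : A → M) (F : A → E)
    {n : M → ℕ} {x : E} (hx : x ∈ monSp ca F n) (m : ℕ) :
    x ^ m ∈ monSp ca F (fun a => m * n a) := by
  induction m with
  | zero =>
    rw [pow_zero]
    exact bd_one ca F _
  | succ m ih =>
    rw [pow_succ]
    refine bd_mono ca F (fun a => ?_) (bd_mul ca F ih hx)
    rw [Nat.succ_mul]

omit [Fintype M] [DecidableEq A] [Fintype β] in
private theorem bd_prod {E : Type} [Field E] [Algebra ℚ E] (ca : A → M) (F : A → E)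
    {f : β → E} {N : β → M → ℕ} (h : ∀ b, f b ∈ monSp ca F (N b)) (e : β → ℕ) (S : Finset β) :
    ∏ b ∈ S, f b ^ e b ∈ monSp ca F (fun a => ∑ b ∈ S, e b * N b a) := by
  classical
  induction S using Finset.induction_on with
  | empty =>
    rw [Finset.prod_empty]
    exact bd_one ca F _
  | insert b S hb ih =>
    rw [Finset.prod_insert hb]
    refine bd_mono ca F (fun a => ?_) (bd_mul ca F (bd_pow ca F (h b) (e b)) ih)
    rw [Finset.sum_insert hb]

omit [Fintype M] in
private theorem bd_adj {E : Type} [Field E] [Algebra ℚ E] (ca : A → M) (F : A → E) {x : E}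
    (hx : x ∈ Algebra.adjoin ℚ (Set.range F)) : ∃ B : ℕ, x ∈ monSp ca F (fun _ => B) := by
  induction hx using Algebra.adjoin_induction with
  | mem x hx =>
    obtain ⟨s, rfl⟩ := hx
    exact ⟨1, bd_gen ca F s⟩
  | algebraMap r =>
    refine ⟨0, ?_⟩
    rw [Algebra.algebraMap_eq_smul_one]
    exact Submodule.smul_mem _ _ (bd_one ca F _)
  | add x y _ _ hx hy =>
    obtain ⟨B, hB⟩ := hx
    obtain ⟨B', hB'⟩ := hy
    exact ⟨max B B', Submodule.add_mem _ (bd_mono ca F (fun _ => le_max_left _ _) hB)
      (bd_mono ca F (fun _ => le_max_right _ _) hB')⟩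
  | mul x y _ _ hx hy =>
    obtain ⟨B, hB⟩ := hx
    obtain ⟨B', hB'⟩ := hy
    exact ⟨B + B', bd_mul ca F hB hB'⟩

private theorem bd_mon {k β' E : Type} [Fintype β'] [Field k] [Field E] [Algebra k E]
    {f : β' → E} (hf : AlgebraicIndependent k f) (n : β' → ℕ) :
    LinearIndependent k (fun e : (b : β') → Fin (n b) => ∏ b, f b ^ (e b : ℕ)) := by
  classical
  have h1 := (MvPolynomial.basisMonomials β' k).linearIndependent.map'
    (MvPolynomial.aeval (R := k) f).toLinearMap (LinearMap.ker_eq_bot.2 hf)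
  have hinj : Function.Injective (fun e : (b : β') → Fin (n b) =>
      Finsupp.equivFunOnFinite.symm (fun b => (e b : ℕ))) := by
    intro e e' h
    have h2 := Finsupp.equivFunOnFinite.symm.injective h
    funext b
    exact Fin.ext (congrFun h2 b)
  have h3 := h1.comp _ hinj
  have h4 : (fun e : (b : β') → Fin (n b) => ∏ b, f b ^ (e b : ℕ)) =
      (((MvPolynomial.aeval (R := k) f).toLinearMap) ∘ (MvPolynomial.basisMonomials β' k)) ∘
        (fun e : (b : β') → Fin (n b) =>
          Finsupp.equivFunOnFinite.symm (fun b => (e b : ℕ))) := by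
    funext e
    rw [Function.comp_apply, Function.comp_apply, MvPolynomial.coe_basisMonomials,
      AlgHom.toLinearMap_apply, MvPolynomial.aeval_monomial, map_one, one_mul,
      Finsupp.prod_fintype _ _ (fun b => pow_zero _)]
    rfl
  rw [h4]
  exact h3

private theorem bd_tower {k β' E I : Type} [Fintype β'] [Field k] [Field E] [Algebra k E]
    {f : β' → E} (hf : AlgebraicIndependent k f) (n : β' → ℕ) {g : I → E}
    (hli : LinearIndependent (IntermediateField.adjoin k (Set.range f)) g) :
    LinearIndependent k (fun x : ((b : β') → Fin (n b)) × I =>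
      (∏ b, f b ^ (x.1 b : ℕ)) * g x.2) := by
  have hf1 : ∀ e : (b : β') → Fin (n b), ∏ b, f b ^ (e b : ℕ) ∈
      IntermediateField.adjoin k (Set.range f) := fun e =>
    prod_mem fun b _ => pow_mem (IntermediateField.subset_adjoin k (Set.range f) (Set.mem_range_self b)) _
  have hli1 : LinearIndependent k (fun e : (b : β') → Fin (n b) =>
      (⟨∏ b, f b ^ (e b : ℕ), hf1 e⟩ : IntermediateField.adjoin k (Set.range f))) := by
    refine LinearIndependent.of_comp
      (IntermediateField.adjoin k (Set.range f)).val.toLinearMap ?_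
    exact bd_mon hf _
  exact linearIndependent_smul hli1 hli

/-- The limit argument: `e * ∏ w * Y ^ r ≤ C * ∏ (r X Y + B + 1)` for all `Y` implies
`e * ∏ w ≤ C * (r + 1) ^ r * ∏ X` if all `X ≥ 1`.

Proof. For `Y ≥ B + 1` : `r X Y + B + 1 ≤ (r + 1) X Y`; then cancel `Y ^ r`, `r = card β`, `Y > 0`. -/
theorem lim_bound (e C B : ℕ) (w X : β → ℕ) (hX : ∀ b, 1 ≤ X b)
    (h : ∀ Y : ℕ, e * ∏ b, (Y * w b) ≤ C * ∏ b, (Fintype.card β * (X b * Y) + B + 1)) :
    e * ∏ b, w b ≤ C * (Fintype.card β + 1) ^ Fintype.card β * ∏ b, X b := by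
  have h1 := h (B + 1)
  have h2 : ∏ b, (Fintype.card β * (X b * (B + 1)) + B + 1) ≤
      ∏ b, ((Fintype.card β + 1) * (X b * (B + 1))) := by
    refine Finset.prod_le_prod' fun b _ => ?_
    have h3 : B + 1 ≤ X b * (B + 1) := Nat.le_mul_of_pos_left _ (hX b)
    calc Fintype.card β * (X b * (B + 1)) + B + 1
        = Fintype.card β * (X b * (B + 1)) + (B + 1) := by ring
      _ ≤ Fintype.card β * (X b * (B + 1)) + X b * (B + 1) := Nat.add_le_add_left h3 _
      _ = (Fintype.card β + 1) * (X b * (B + 1)) := by ring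
  have h3 := h1.trans (Nat.mul_le_mul_left C h2)
  rw [Finset.prod_mul_distrib, Finset.prod_mul_distrib, Finset.prod_mul_distrib,
    Finset.prod_const, Finset.prod_const, Finset.card_univ] at h3
  have hpos : 0 < (B + 1) ^ Fintype.card β := by positivity
  refine Nat.le_of_mul_le_mul_left ?_ hpos
  calc (B + 1) ^ Fintype.card β * (e * ∏ b, w b)
      = e * ((B + 1) ^ Fintype.card β * ∏ b, w b) := by ring
    _ ≤ C * ((Fintype.card β + 1) ^ Fintype.card β * ((∏ b, X b) *
        (B + 1) ^ Fintype.card β)) := h3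
    _ = (B + 1) ^ Fintype.card β * (C * (Fintype.card β + 1) ^ Fintype.card β * ∏ b, X b) := by
      ring

/-- **Degree bound.** `F s` elements of a field `E` with the dimension bound, `f b`, `b : β`, algebraically
independent elements, `f b` in the space of the monomials of degree `≤ N b a` in the class `a`, and
`N b a * w b ≤ X a`. Then every family of elements of the field `ℚ(F)` which is linearly independent over
`ℚ(f)` has at most `C (r+1)^r ∏ X_(cb b) / ∏ w_b` elements.

Proof. Let `g i`, `i : I` finite, be such a family. `ℚ(F)` is the fraction field of `ℚ[F]`: multiplying all the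
`g i` by a common denominator (a nonzero element of `ℚ[F]`, which keeps them independent over `ℚ(f)`) we may
assume `g i ∈ monSp (fun _ => B)` for some `B` (every element of `Algebra.adjoin ℚ (range F)` is a `ℚ`-combination
of monomials; finitely many of them). For `Y : ℕ` the elements `g i * ∏ f b ^ (e b)`, `e b < Y w b`, are linearly
independent over `ℚ` (a relation is a relation `∑ P_i(f) g i = 0` with `P_i` polynomials, so `P_i(f) = 0`, so `P_i = 0` by the
independence of `f`), and they lie in `monSp (fun a => (∑ b, N b a * (Y w b)) + B) ≤ monSp (r X Y + B)`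
(the product of `monSp n` and `monSp n'` is in `monSp (n + n')`, `monSp` is monotone). So
`card I * ∏ (Y w b) ≤ C ∏_b (r X_(cb b) Y + B + 1)`: `lim_bound`. -/
theorem deg_bound (ca : A → M) (cb : β → M) (C : ℕ) {E : Type} [Field E] [Algebra ℚ E]
    (F : A → E) (hF : ∀ n : M → ℕ, FiniteDimensional ℚ (monSp ca F n) ∧
      Module.finrank ℚ (monSp ca F n) ≤ C * ∏ b, (n (cb b) + 1))
    (f : β → E) (hf : AlgebraicIndependent ℚ f) (N : β → M → ℕ)
    (hfN : ∀ b, f b ∈ monSp ca F (N b)) (w : β → ℕ) (X : M → ℕ) (hX : ∀ a, 1 ≤ X a)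
    (hN : ∀ b a, N b a * w b ≤ X a) {I : Type} [Fintype I] (g : I → E)
    (hg : ∀ i, g i ∈ IntermediateField.adjoin ℚ (Set.range F))
    (hli : LinearIndependent (IntermediateField.adjoin ℚ (Set.range f)) g) :
    Fintype.card I * ∏ b, w b ≤
      C * (Fintype.card β + 1) ^ Fintype.card β * ∏ b, X (cb b) := by
  classical
  -- the common denominator
  have hfrac : ∀ i, ∃ p ∈ Algebra.adjoin ℚ (Set.range F), ∃ q ∈ Algebra.adjoin ℚ (Set.range F),
      q ≠ 0 ∧ q * g i = p := by
    intro i
    obtain ⟨p, hp, q, hq, hpq⟩ := IntermediateField.mem_adjoin_iff_div.1 (hg i)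
    by_cases hq0 : q = 0
    · refine ⟨0, Subalgebra.zero_mem _, 1, Subalgebra.one_mem _, one_ne_zero, ?_⟩
      rw [hpq, hq0, div_zero, mul_zero]
    · exact ⟨p, hp, q, hq, hq0, by rw [hpq, mul_div_cancel₀ p hq0]⟩
  choose p hp q hq hq0 hpq using hfrac
  set d : E := ∏ i, q i with hd
  have hd0 : d ≠ 0 := Finset.prod_ne_zero_iff.2 fun i _ => hq0 i
  have hdg : ∀ i, d * g i ∈ Algebra.adjoin ℚ (Set.range F) := by
    intro i
    have h1 : d * g i = (∏ j ∈ Finset.univ.erase i, q j) * p i := by
      rw [hd, ← Finset.mul_prod_erase Finset.univ q (Finset.mem_univ i), ← hpq i]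
      ring
    rw [h1]
    exact Subalgebra.mul_mem _ (Subalgebra.prod_mem _ fun j _ => hq j) (hp i)
  choose B hB using fun i => bd_adj ca F (hdg i)
  set B0 : ℕ := ∑ i, B i with hB0
  have hB1 : ∀ i, d * g i ∈ monSp ca F (fun _ => B0) := fun i =>
    bd_mono ca F (fun _ => Finset.single_le_sum (f := B) (fun j _ => Nat.zero_le _)
      (Finset.mem_univ i)) (hB i)
  have hli' : LinearIndependent (IntermediateField.adjoin ℚ (Set.range f)) (fun i => d * g i) := by
    have h1 := hli.map' (LinearMap.mulLeft (IntermediateField.adjoin ℚ (Set.range f)) d)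
      (LinearMap.ker_eq_bot.2 (mul_right_injective₀ hd0))
    exact h1
  refine lim_bound (Fintype.card I) C B0 w (fun b => X (cb b)) (fun b => hX _) fun Y => ?_
  set n : M → ℕ := fun a => Fintype.card β * (X a * Y) + B0 with hn
  have hmem : ∀ x : ((b : β) → Fin (Y * w b)) × I,
      (∏ b, f b ^ (x.1 b : ℕ)) * (d * g x.2) ∈ monSp ca F n := by
    intro x
    refine bd_mono ca F (fun a => ?_) (bd_mul ca F
      (bd_prod ca F hfN (fun b => (x.1 b : ℕ)) Finset.univ) (hB1 x.2))
    refine Nat.add_le_add_right ?_ _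
    calc ∑ b, (x.1 b : ℕ) * N b a ≤ ∑ _b : β, X a * Y := by
          refine Finset.sum_le_sum fun b _ => ?_
          calc (x.1 b : ℕ) * N b a ≤ (Y * w b) * N b a := Nat.mul_le_mul_right _ (x.1 b).2.le
            _ = (N b a * w b) * Y := by ring
            _ ≤ X a * Y := Nat.mul_le_mul_right _ (hN b a)
      _ = Fintype.card β * (X a * Y) := by
        rw [Finset.sum_const, Finset.card_univ, smul_eq_mul]
  have hli2 := bd_tower hf (fun b => Y * w b) hli'
  have hli3 : LinearIndependent ℚ (fun x : ((b : β) → Fin (Y * w b)) × I =>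
      (⟨(∏ b, f b ^ (x.1 b : ℕ)) * (d * g x.2), hmem x⟩ : monSp ca F n)) := by
    refine LinearIndependent.of_comp (monSp ca F n).subtype ?_
    exact hli2
  obtain ⟨hfin, hrank⟩ := hF n
  have hcard := hli3.fintype_card_le_finrank
  rw [Fintype.card_prod, Fintype.card_pi] at hcard
  simp only [Fintype.card_fin] at hcard
  calc Fintype.card I * ∏ b, (Y * w b) = (∏ b, (Y * w b)) * Fintype.card I := mul_comm _ _
    _ ≤ Module.finrank ℚ (monSp ca F n) := hcard
    _ ≤ C * ∏ b, (n (cb b) + 1) := hrank

end Pool.Agent.Zilber
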