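import Pool.Agent.Zilber.BNf

set_option autoImplicit false

/-! B07. The dimension of the space of the functions of bounded degree (section 1.4). -/

namespace Pool.Agent.Zilber

open NumberField Pool.Agent.LAll Pool.Agent.LSharp MvPowerSeries Filter

variable {M β A : Type} [Fintype M] [Fintype β] [Fintype A] [DecidableEq M] [DecidableEq β]
  [DecidableEq A]

/-- The space of the monomials of degree `≤ n a` in the class `a`. -/
def monSp {E : Type} [Field E] [Algebra ℚ E] (ca : A → M) (F : A → E) (n : M → ℕ) :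
    Submodule ℚ E :=
  Submodule.span ℚ {f | ∃ al : A → ℕ, (∀ a, cle ca al a ≤ n a) ∧ f = ∏ s, F s ^ al s}

/-- **Dimension bound.** `E` any field containing the ring of power series.

Proof. Let `U = ∏_a evT (Δ_a ℓ_a ^ D) ^ (n_a) ≠ 0` (`evT_ne_zero`, `ℓ_a ≠ 0`, domain), `φ : MvPowerSeries β K →+* E`
injective. By `nform` multiplication by `φ U` (an injective `ℚ`-linear map) maps the generators of `monSp` into
the span of the elements `φ (∏_a Θ_a ^ (k_a) ∏_b (t_b + ζ_b) ^ (m_b))` with `k_a < D`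
(`k_a < natDegree Pi_a ≤ D`) and `m_b ≤ C n_(cb b)`: at most `D ^ card M * ∏_b (C n + 1) ≤ C' ∏_b (n + 1)`
elements. `finrank_span_le_card` and `LinearMap.finrank_le_finrank_of_injective` (finite-dimensional spaces). -/
theorem finrank_monSp (ca : A → M) (bs : β → A) (D : ℕ) : ∃ C : ℕ, ∀ (K : Type) [Field K]
    [NumberField K] (br : BrL ca bs D K) (E : Type) [Field E] [Algebra ℚ E]
    (φ : MvPowerSeries β K →+* E), Function.Injective φ → ∀ n : M → ℕ,
    FiniteDimensional ℚ (monSp ca (fun s => φ (br.F s)) n) ∧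
    Module.finrank ℚ (monSp ca (fun s => φ (br.F s)) n) ≤ C * ∏ b, (n (ca (bs b)) + 1) := by
  obtain ⟨C0, hC0⟩ := nform (M := M) (β := β) (A := A) ca bs D
  refine ⟨D ^ Fintype.card M * (C0 + 1) ^ Fintype.card β, ?_⟩
  intro K _ _ br E _ _ φ hφ n
  classical
  set t : β → K := fun b => constantCoeff (br.F (bs b)) with ht
  set Q : MvPolynomial β ℤ := ∏ a, (br.Δ a * (br.Pi a).leadingCoeff ^ D) ^ n a with hQ
  have hQ0 : Q ≠ 0 := by
    rw [hQ, Finset.prod_ne_zero_iff]
    intro a _
    refine pow_ne_zero _ (mul_ne_zero (br.Δ_prop a).1 (pow_ne_zero _ ?_))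
    rw [Polynomial.leadingCoeff_ne_zero]
    intro h
    have h1 := (br.Pi_deg a).1
    rw [h, Polynomial.natDegree_zero] at h1
    exact lt_irrefl _ h1
  have hu : φ (evT t Q) ≠ 0 := by
    intro h
    exact evT_ne_zero t Q hQ0 (hφ (by rw [h, map_zero]))
  set Y : β ⊕ M → MvPowerSeries β K :=
    Sum.elim (fun b => (MvPowerSeries.C (t b) + MvPowerSeries.X b : MvPowerSeries β K)) br.Θ with hY
  set G : ((β ⊕ M) → ℕ) → E := fun e => φ (∏ i, Y i ^ e i) with hG
  set S : Finset ((β ⊕ M) → ℕ) := Fintype.piFinset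
    (Sum.elim (fun b => Finset.range (C0 * n (ca (bs b)) + 1)) fun _ => Finset.range D) with hS
  set V : Submodule ℚ E := Submodule.span ℚ ((S.image G : Finset E) : Set E) with hV
  have hfinV : FiniteDimensional ℚ V := by
    rw [hV]
    infer_instance
  have hkey : ∀ R : MvPolynomial (β ⊕ M) ℤ,
      (∀ b, R.degreeOf (Sum.inl b) ≤ C0 * n (ca (bs b))) →
      (∀ a, R.degreeOf (Sum.inr a) < (br.Pi a).natDegree) → φ (evTZ t br.Θ R) ∈ V := by
    intro R h1 h2
    have h3 : evTZ t br.Θ R = ∑ d ∈ R.support, ((R.coeff d : ℤ) : MvPowerSeries β K) *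
        ∏ i, Y i ^ d i := by
      show MvPolynomial.aeval (R := ℤ) Y R = _
      rw [MvPolynomial.aeval_def, MvPolynomial.eval₂_eq']
      refine Finset.sum_congr rfl fun d _ => ?_
      rw [eq_intCast]
    rw [h3, map_sum]
    refine V.sum_mem fun d hd => ?_
    have h4 : φ (((R.coeff d : ℤ) : MvPowerSeries β K) * ∏ i, Y i ^ d i) =
        ((R.coeff d : ℤ) : ℚ) • G d := by
      rw [map_mul, map_intCast, Algebra.smul_def, map_intCast]
    rw [h4]
    refine V.smul_mem _ (Submodule.subset_span ?_)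
    rw [Finset.coe_image]
    refine ⟨d, ?_, rfl⟩
    rw [Finset.mem_coe, hS, Fintype.mem_piFinset]
    rintro (b | a)
    · rw [Sum.elim_inl, Finset.mem_range]
      have h5 := MvPolynomial.monomial_le_degreeOf (Sum.inl b) hd
      have h6 := h1 b
      omega
    · rw [Sum.elim_inr, Finset.mem_range]
      have h5 := MvPolynomial.monomial_le_degreeOf (Sum.inr a) hd
      have h6 := h2 a
      have h7 := (br.Pi_deg a).2
      omega
  have hinj : Function.Injective (LinearMap.mulLeft ℚ (φ (evT t Q))) := fun x y hxy =>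
    mul_left_cancel₀ hu hxy
  have hle : (monSp ca (fun s => φ (br.F s)) n).map (LinearMap.mulLeft ℚ (φ (evT t Q))) ≤ V := by
    rw [Submodule.map_le_iff_le_comap]
    unfold monSp
    rw [Submodule.span_le]
    rintro f ⟨al, hal, rfl⟩
    show φ (evT t Q) * ∏ s, φ (br.F s) ^ al s ∈ V
    obtain ⟨R, hR1, hR2, -, hR4⟩ := hC0 K br n al hal
    have h1 : φ (evT t Q) * ∏ s, φ (br.F s) ^ al s = φ (evTZ t br.Θ R) := by
      rw [hR4, map_mul, hQ, map_prod (evT t), map_prod φ (fun s => br.F s ^ al s)]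
      simp only [map_pow]
      rfl
    rw [h1]
    exact hkey R hR1 hR2
  have hfin1 : FiniteDimensional ℚ
      ((monSp ca (fun s => φ (br.F s)) n).map (LinearMap.mulLeft ℚ (φ (evT t Q)))) :=
    Submodule.finiteDimensional_of_le hle
  have e := Submodule.equivMapOfInjective _ hinj (monSp ca (fun s => φ (br.F s)) n)
  refine ⟨e.symm.finiteDimensional, ?_⟩
  rw [e.finrank_eq]
  refine (Submodule.finrank_mono hle).trans ?_
  refine (finrank_span_finset_le_card _).trans (Finset.card_image_le.trans ?_)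
  rw [hS, Fintype.card_piFinset, Fintype.prod_sum_type]
  simp only [Sum.elim_inl, Sum.elim_inr, Finset.card_range, Finset.prod_const, Finset.card_univ]
  have h8 : ∏ b, (C0 * n (ca (bs b)) + 1) ≤ ∏ b, ((C0 + 1) * (n (ca (bs b)) + 1)) := by
    refine Finset.prod_le_prod' fun b _ => ?_
    nlinarith [Nat.zero_le (n (ca (bs b))), Nat.zero_le C0]
  rw [Finset.prod_mul_distrib, Finset.prod_const, Finset.card_univ] at h8
  calc (∏ b, (C0 * n (ca (bs b)) + 1)) * D ^ Fintype.card M
      ≤ ((C0 + 1) ^ Fintype.card β * ∏ b, (n (ca (bs b)) + 1)) * D ^ Fintype.card M :=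
        Nat.mul_le_mul_right _ h8
    _ = D ^ Fintype.card M * (C0 + 1) ^ Fintype.card β * ∏ b, (n (ca (bs b)) + 1) := by ring

end Pool.Agent.Zilber
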