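import Pool.Agent.Zilber.BFine1

set_option autoImplicit false

/-! B10. Fine estimates for the coefficients of a product of powers of the coordinates (section 1.3). -/

namespace Pool.Agent.Zilber

open NumberField Pool.Agent.LAll Pool.Agent.LSharp MvPowerSeries

private noncomputable def bfD {K : Type} [Field K] [NumberField K] {S : Finset (FinitePlace K)}
    (v : Plc K S) : ℝ := dg v / (Module.finrank ℚ K : ℝ)

private theorem bf_pos {K : Type} [Field K] [NumberField K] {S : Finset (FinitePlace K)}
    (v : Plc K S) : 0 < bfD v := by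
  have h1 : (0 : ℝ) < Module.finrank ℚ K := by exact_mod_cast Module.finrank_pos
  refine div_pos ?_ h1
  rcases v with v | v
  · change (0 : ℝ) < (v.mult : ℝ)
    exact_mod_cast InfinitePlace.mult_pos
  · exact one_pos

private theorem bf_lam {K : Type} [Field K] [NumberField K] {S : Finset (FinitePlace K)}
    (v : Plc K S) (z : K) : lam v z = bfD v * Real.log (ab v z) := by
  unfold lam bfD
  ring

private theorem bf_ab {K : Type} [Field K] [NumberField K] {S : Finset (FinitePlace K)}
    (v : Plc K S) {z : K} (hz : z ≠ 0) : ab v z = Real.exp (lam v z / bfD v) := by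
  rw [bf_lam, mul_div_cancel_left₀ _ (bf_pos v).ne', Real.exp_log (ab_pos v hz)]

private theorem bf_zero {K : Type} [Field K] [NumberField K] {S : Finset (FinitePlace K)}
    (v : Plc K S) : ab v (0 : K) = 0 := by
  rcases v with v | v
  · exact map_zero v
  · exact map_zero v.1

private theorem bf_one {K : Type} [Field K] [NumberField K] {S : Finset (FinitePlace K)}
    (v : Plc K S) : ab v (1 : K) = 1 := by
  rcases v with v | v
  · exact map_one v
  · exact map_one v.1

/-- from a bound of the absolute value to a bound of the normalised logarithm -/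
private theorem bf_conv {β K : Type} [Fintype β] [Field K] [NumberField K]
    {S : Finset (FinitePlace K)} (v : Plc K S) {z : K} (hz : z ≠ 0) (n : β →₀ ℕ) (q r : β → ℝ)
    (hr : ∀ b, 1 ≤ r b)
    (h : ab v z ≤ ∏ b, (Real.exp (q b / bfD v) ^ n b * r b)) :
    lam v z ≤ ∑ b, n b * q b + bfD v * ∑ b, Real.log (r b) := by
  have hD := bf_pos v
  have h1 : Real.log (ab v z) ≤ ∑ b, ((n b : ℝ) * (q b / bfD v) + Real.log (r b)) := by
    refine (Real.log_le_log (ab_pos v hz) h).trans (le_of_eq ?_)
    rw [Real.log_prod fun b _ => mul_ne_zero (pow_ne_zero _ (Real.exp_pos _).ne')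
      (by have := hr b; positivity)]
    refine Finset.sum_congr rfl fun b _ => ?_
    rw [Real.log_mul (pow_ne_zero _ (Real.exp_pos _).ne') (by have := hr b; positivity),
      Real.log_pow, Real.log_exp]
  rw [bf_lam]
  refine (mul_le_mul_of_nonneg_left h1 hD.le).trans (le_of_eq ?_)
  rw [Finset.sum_add_distrib, mul_add, Finset.mul_sum]
  congr 1
  refine Finset.sum_congr rfl fun b _ => ?_
  field_simp

/-- **Fine estimate.** `Q` as in the field `bnd` of `Br`.

Proof. `G s = C (constantCoeff (F s))⁻¹ * F s`. For `n` with `coeff n (G s) ≠ 0` all variables of `n` are in the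
class of `s` (`F_only`), so `n.degree * Q (ca s) v = ∑_b n_b Q (cb b) v`; with `Λ = finrank ℚ K / dg v` (`ab v z = exp (Λ lam v z)`) and
`ρ b = exp (Λ Q (cb b) v)` we have `ab v (coeff n (G s)) ≤ ∏ ρ_b ^ n_b`. Infinite places: `coeff_prod_arch` with
`w = ab v` and `multichoose e m ≤ choose (e + m) m`, take `log` and divide by `Λ` (`Λ * wt v = 1`);
finite places: `coeff_prod_nonarch`, `wt v = 0`. `∏ F_s ^ (al s) = C (∏ constantCoeff ^ (al s)) * ∏ G_s ^ (al s)`, and
`lam v (∏ ..) = ∑ al s * lam v (constantCoeff (F s))` (`lam_prod`, `lam_pow`). See LSharp/BRCb and CONorm for the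
conversion between `lam` and `ab`. -/
theorem lam_coeff_fine {M β A K : Type} [Fintype β] [Fintype A] [DecidableEq M] [DecidableEq β]
    [DecidableEq A] [Field K] [NumberField K] (ca : A → M) (cb : β → M)
    (F : A → MvPowerSeries β K) (F0 : ∀ s, constantCoeff (F s) ≠ 0)
    (hF : ∀ s, F s ∈ onlyB {b | cb b = ca s}) {S : Finset (FinitePlace K)}
    (Q : M → Plc K S → ℝ) (hQ : ∀ a v, 0 ≤ Q a v)
    (hb : ∀ s v (n : β →₀ ℕ), coeff n (F s) ≠ 0 →
      lam v (coeff n (F s)) ≤ lam v (constantCoeff (F s)) + n.degree * Q (ca s) v)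
    (v : Plc K S) (al : A → ℕ) (n : β →₀ ℕ) (hne : coeff n (∏ s, F s ^ al s) ≠ 0) :
    lam v (coeff n (∏ s, F s ^ al s)) ≤ ∑ s, al s * lam v (constantCoeff (F s)) +
      ∑ b, n b * Q (cb b) v +
      LAll.wt v * ∑ b, Real.log (Nat.choose (cle ca al (cb b) + n b) (n b)) := by
  classical
  have hD := bf_pos v
  set cc : A → K := fun s => constantCoeff (F s) with hcc
  set G : A → MvPowerSeries β K := fun s => C (cc s)⁻¹ * F s with hGdef
  have hcoef : ∀ s (k : β →₀ ℕ), coeff k (G s) = (cc s)⁻¹ * coeff k (F s) := fun s k => by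
    rw [hGdef]
    exact coeff_C_mul _ _ _
  have hFG : ∀ s, F s = C (cc s) * G s := fun s => by
    rw [hGdef]
    change F s = C (cc s) * (C (cc s)⁻¹ * F s)
    rw [← mul_assoc, ← map_mul, mul_inv_cancel₀ (F0 s), map_one, one_mul]
  have hprod : ∏ s, F s ^ al s = C (∏ s, cc s ^ al s) * ∏ s, G s ^ al s := by
    rw [map_prod, ← Finset.prod_mul_distrib]
    refine Finset.prod_congr rfl fun s _ => ?_
    rw [map_pow, ← mul_pow, ← hFG s]
  have hco : coeff n (∏ s, F s ^ al s) = (∏ s, cc s ^ al s) * coeff n (∏ s, G s ^ al s) := by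
    rw [hprod]
    exact coeff_C_mul _ _ _
  have hc0 : ∏ s, cc s ^ al s ≠ 0 := Finset.prod_ne_zero_iff.2 fun s _ => pow_ne_zero _ (F0 s)
  have hG0 : coeff n (∏ s, G s ^ al s) ≠ 0 := by
    intro h
    rw [hco, h, mul_zero] at hne
    exact hne rfl
  have hlam : lam v (coeff n (∏ s, F s ^ al s)) =
      ∑ s, al s * lam v (constantCoeff (F s)) + lam v (coeff n (∏ s, G s ^ al s)) := by
    rw [hco, lam_mul v hc0 hG0, lam_prod v _ _ fun s _ => pow_ne_zero _ (F0 s)]
    congr 1
    exact Finset.sum_congr rfl fun s _ => lam_pow v _ _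
  rw [hlam, add_assoc]
  refine add_le_add le_rfl ?_
  have hbG : ∀ s (k : β →₀ ℕ), ab v (coeff k (G s)) ≤
      ∏ b, Real.exp (Q (cb b) v / bfD v) ^ k b := by
    intro s k
    rcases eq_or_ne (coeff k (F s)) 0 with h0 | h0
    · rw [hcoef, h0, mul_zero, bf_zero]
      exact Finset.prod_nonneg fun b _ => pow_nonneg (Real.exp_pos _).le _
    · have hk : coeff k (G s) ≠ 0 := by
        rw [hcoef]
        exact mul_ne_zero (inv_ne_zero (F0 s)) h0
      have h1 : lam v (coeff k (G s)) ≤ k.degree * Q (ca s) v := by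
        rw [hcoef, lam_mul v (inv_ne_zero (F0 s)) h0, lam_inv]
        have := hb s v k h0
        linarith
      have h2 : ∑ b, (k b : ℝ) * Q (cb b) v = k.degree * Q (ca s) v := by
        have e1 : (k.degree : ℝ) = ∑ b, (k b : ℝ) := by
          rw [Finsupp.degree_eq_sum]
          push_cast
          rfl
        rw [e1, Finset.sum_mul]
        refine Finset.sum_congr rfl fun b _ => ?_
        rcases eq_or_ne (k b) 0 with h3 | h3
        · rw [h3, Nat.cast_zero, zero_mul, zero_mul]
        · have h4 : cb b = ca s := hF s k h0 b h3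
          rw [h4]
      have h5 : ∏ b, Real.exp (Q (cb b) v / bfD v) ^ k b =
          Real.exp (k.degree * Q (ca s) v / bfD v) := by
        rw [← h2, Finset.sum_div, Real.exp_sum]
        refine Finset.prod_congr rfl fun b _ => ?_
        rw [← Real.exp_nat_mul]
        congr 1
        ring
      rw [h5, bf_ab v hk]
      exact Real.exp_le_exp.2 (div_le_div_of_nonneg_right h1 hD.le)
  have hGon : ∀ s, G s ∈ onlyB {b | cb b = ca s} := by
    intro s k hk b hkb
    refine hF s k (fun h0 => hk ?_) b hkb
    rw [hcoef, h0, mul_zero]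
  have hch : ∀ b, (1 : ℝ) ≤ (Nat.choose (cle ca al (cb b) + n b) (n b) : ℝ) := by
    intro b
    exact_mod_cast Nat.choose_pos (Nat.le_add_left _ _)
  rcases hv : v with v' | v'
  · have hw : LAll.wt v = bfD v := by
      rw [hv]
      rfl
    have h6 := coeff_prod_arch (fun z => ab v z) (fun z => ab_nonneg v z) (bf_zero v) (bf_one v)
      (fun y z => ab_mul v y z) (fun y z => by
        rw [hv]
        exact v'.1.add_le y z) ca cb G hGon
      (fun b => Real.exp (Q (cb b) v / bfD v)) (fun b => (Real.exp_pos _).le) hbG al n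
    have h7 : ab v (coeff n (∏ s, G s ^ al s)) ≤
        ∏ b, (Real.exp (Q (cb b) v / bfD v) ^ n b *
          (Nat.choose (cle ca al (cb b) + n b) (n b) : ℝ)) := by
      refine h6.trans (Finset.prod_le_prod (fun b _ => by positivity) fun b _ => ?_)
      refine mul_le_mul_of_nonneg_left ?_ (by positivity)
      rw [Nat.multichoose_eq]
      exact_mod_cast Nat.choose_le_choose _ (Nat.sub_le _ _)
    have h8 := bf_conv v hG0 n (fun b => Q (cb b) v) _ hch h7
    rw [← hv, hw]
    exact h8
  · have hw : LAll.wt v = 0 := by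
      rw [hv]
      rfl
    have h6 := coeff_prod_nonarch (fun z => ab v z) (fun z => ab_nonneg v z) (bf_zero v)
      (bf_one v) (fun y z => ab_mul v y z) (fun y z => by
        rw [hv]
        exact FinitePlace.add_le v'.1 y z) G
      (fun b => Real.exp (Q (cb b) v / bfD v)) (fun b => (Real.exp_pos _).le) hbG al n
    have h8 := bf_conv v hG0 n (fun b => Q (cb b) v) (fun _ => 1) (fun _ => le_rfl) (by
      refine h6.trans (le_of_eq ?_)
      exact Finset.prod_congr rfl fun b _ => (mul_one _).symm)
    rw [← hv, hw, zero_mul, add_zero]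
    refine h8.trans (le_of_eq ?_)
    simp only [Real.log_one, Finset.sum_const_zero, mul_zero, add_zero]

end Pool.Agent.Zilber
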