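import Pool.Agent.Zilber.BDefs

set_option autoImplicit false

/-! B09. Coefficients of products of power series. -/

namespace Pool.Agent.Zilber

open NumberField Pool.Agent.LAll Pool.Agent.LSharp MvPowerSeries

private theorem sum_mc (e m : ℕ) :
    ∑ i ∈ Finset.range (m + 1), Nat.multichoose e i = Nat.multichoose (e + 1) m := by
  induction m with
  | zero => simp
  | succ m ih => rw [Finset.sum_range_succ, ih, Nat.multichoose_succ_succ, add_comm]

private theorem w_sum {F ι : Type} [Field F] (w : F → ℝ) (hwz : w 0 = 0)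
    (hwa : ∀ y z, w (y + z) ≤ w y + w z) (S : Finset ι) (f : ι → F) :
    w (∑ i ∈ S, f i) ≤ ∑ i ∈ S, w (f i) := by
  classical
  induction S using Finset.induction_on with
  | empty => simp [hwz]
  | insert a S ha ih =>
    rw [Finset.sum_insert ha, Finset.sum_insert ha]
    exact (hwa _ _).trans (by linarith)

private theorem w_sum_max {F ι : Type} [Field F] (w : F → ℝ) (hwz : w 0 = 0)
    (hwa : ∀ y z, w (y + z) ≤ max (w y) (w z)) (S : Finset ι) (f : ι → F) {B : ℝ} (hB : 0 ≤ B)
    (h : ∀ i ∈ S, w (f i) ≤ B) : w (∑ i ∈ S, f i) ≤ B := by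
  classical
  induction S using Finset.induction_on with
  | empty => simpa [hwz] using hB
  | insert a S ha ih =>
    rw [Finset.sum_insert ha]
    refine (hwa _ _).trans (max_le (h a (Finset.mem_insert_self a S)) ?_)
    exact ih fun i hi => h i (Finset.mem_insert_of_mem hi)

/-- The combinatorial sum. -/
private theorem sum_anti {M β : Type} [Fintype β] [DecidableEq M] [DecidableEq β] (cb : β → M)
    (a : M) (e : M → ℕ) (n : β →₀ ℕ) :
    ∑ x ∈ (Finset.HasAntidiagonal.antidiagonal n).filter (fun x => ∀ b, x.2 b ≠ 0 → cb b = a),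
      ∏ b, (Nat.multichoose (e (cb b)) (x.1 b) : ℝ) ≤
    ∏ b, (Nat.multichoose (e (cb b) + if cb b = a then 1 else 0) (n b) : ℝ) := by
  classical
  let T : β → Finset ℕ := fun b => if cb b = a then Finset.range (n b + 1) else {n b}
  have h1 : ∏ b, (Nat.multichoose (e (cb b) + if cb b = a then 1 else 0) (n b) : ℝ) =
      ∏ b, ∑ i ∈ T b, (Nat.multichoose (e (cb b)) i : ℝ) := by
    refine Finset.prod_congr rfl fun b _ => ?_
    by_cases hb : cb b = a
    · simp only [T, hb, if_true]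
      rw [← sum_mc]
      push_cast
      rfl
    · simp only [T, hb, if_false]
      simp
  rw [h1, Finset.prod_univ_sum]
  have hinj : Set.InjOn (fun x : (β →₀ ℕ) × (β →₀ ℕ) => (x.1 : β → ℕ))
      ((Finset.HasAntidiagonal.antidiagonal n).filter (fun x => ∀ b, x.2 b ≠ 0 → cb b = a) :
        Finset ((β →₀ ℕ) × (β →₀ ℕ))) := by
    rintro ⟨p, q⟩ hx ⟨p', q'⟩ hy hxy
    have hp : p = p' := DFunLike.coe_injective hxy
    subst hp
    have h2 := Finset.HasAntidiagonal.mem_antidiagonal.1 (Finset.mem_filter.1 hx).1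
    have h3 := Finset.HasAntidiagonal.mem_antidiagonal.1 (Finset.mem_filter.1 hy).1
    have h4 : q = q' := add_left_cancel (h2.trans h3.symm)
    rw [h4]
  rw [← Finset.sum_image (f := fun p : β → ℕ => ∏ b, (Nat.multichoose (e (cb b)) (p b) : ℝ)) hinj]
  refine Finset.sum_le_sum_of_subset_of_nonneg ?_ fun p _ _ =>
    Finset.prod_nonneg fun b _ => Nat.cast_nonneg _
  intro p hp
  obtain ⟨⟨p', q⟩, hx, rfl⟩ := Finset.mem_image.1 hp
  obtain ⟨hx1, hx2⟩ := Finset.mem_filter.1 hx
  have hx3 : p' + q = n := Finset.HasAntidiagonal.mem_antidiagonal.1 hx1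
  refine Fintype.mem_piFinset.2 fun b => ?_
  have hx4 : p' b + q b = n b := by rw [← hx3]; rfl
  by_cases hb : cb b = a
  · simp only [T, hb, if_true, Finset.mem_range]
    omega
  · simp only [T, hb, if_false, Finset.mem_singleton]
    have : q b = 0 := by
      by_contra h0
      exact hb (hx2 b h0)
    omega

/-- One factor more. -/
private theorem step_arch {M β F : Type} [Fintype β] [DecidableEq M] [DecidableEq β]
    [Field F] (w : F → ℝ) (hw0 : ∀ z, 0 ≤ w z) (hwz : w 0 = 0)
    (hwm : ∀ y z, w (y * z) = w y * w z) (hwa : ∀ y z, w (y + z) ≤ w y + w z)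
    (cb : β → M) (a : M) (G H : MvPowerSeries β F) (hG : G ∈ onlyB {b | cb b = a})
    (ρ : β → ℝ) (hρ : ∀ b, 0 ≤ ρ b) (hb : ∀ n : β →₀ ℕ, w (coeff n G) ≤ ∏ b, ρ b ^ n b)
    (e : M → ℕ)
    (hH : ∀ n : β →₀ ℕ, w (coeff n H) ≤ ∏ b, (ρ b ^ n b * (Nat.multichoose (e (cb b)) (n b) : ℝ)))
    (n : β →₀ ℕ) :
    w (coeff n (H * G)) ≤
      ∏ b, (ρ b ^ n b * (Nat.multichoose (e (cb b) + if cb b = a then 1 else 0) (n b) : ℝ)) := by
  classical
  rw [coeff_mul]
  refine (w_sum w hwz hwa _ _).trans ?_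
  have h1 : ∑ x ∈ Finset.HasAntidiagonal.antidiagonal n, w (coeff x.1 H * coeff x.2 G) =
      ∑ x ∈ (Finset.HasAntidiagonal.antidiagonal n).filter (fun x => ∀ b, x.2 b ≠ 0 → cb b = a),
        w (coeff x.1 H * coeff x.2 G) := by
    symm
    refine Finset.sum_filter_of_ne fun x _ hx b hxb => ?_
    have h2 : coeff x.2 G ≠ 0 := by
      intro h0
      apply hx
      rw [h0, mul_zero, hwz]
    exact hG x.2 h2 b hxb
  rw [h1]
  have h3 : ∀ x ∈ (Finset.HasAntidiagonal.antidiagonal n).filter (fun x => ∀ b, x.2 b ≠ 0 → cb b = a),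
      w (coeff x.1 H * coeff x.2 G) ≤
        (∏ b, ρ b ^ n b) * ∏ b, (Nat.multichoose (e (cb b)) (x.1 b) : ℝ) := by
    intro x hx
    have hx3 : x.1 + x.2 = n :=
      Finset.HasAntidiagonal.mem_antidiagonal.1 (Finset.mem_filter.1 hx).1
    rw [hwm]
    refine (mul_le_mul (hH x.1) (hb x.2) (hw0 _) (Finset.prod_nonneg fun b _ =>
      mul_nonneg (pow_nonneg (hρ b) _) (Nat.cast_nonneg _))).trans (le_of_eq ?_)
    rw [← Finset.prod_mul_distrib, ← Finset.prod_mul_distrib]
    refine Finset.prod_congr rfl fun b _ => ?_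
    have hx4 : n b = x.1 b + x.2 b := by rw [← hx3]; rfl
    rw [hx4, pow_add]
    ring
  refine (Finset.sum_le_sum h3).trans ?_
  rw [← Finset.mul_sum, Finset.prod_mul_distrib]
  exact mul_le_mul_of_nonneg_left (sum_anti cb a e n)
    (Finset.prod_nonneg fun b _ => pow_nonneg (hρ b) _)

/-- `k` equal factors more. -/
private theorem steps_arch {M β F : Type} [Fintype β] [DecidableEq M] [DecidableEq β]
    [Field F] (w : F → ℝ) (hw0 : ∀ z, 0 ≤ w z) (hwz : w 0 = 0)
    (hwm : ∀ y z, w (y * z) = w y * w z) (hwa : ∀ y z, w (y + z) ≤ w y + w z)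
    (cb : β → M) (a : M) (G H : MvPowerSeries β F) (hG : G ∈ onlyB {b | cb b = a})
    (ρ : β → ℝ) (hρ : ∀ b, 0 ≤ ρ b) (hb : ∀ n : β →₀ ℕ, w (coeff n G) ≤ ∏ b, ρ b ^ n b)
    (e : M → ℕ)
    (hH : ∀ n : β →₀ ℕ, w (coeff n H) ≤ ∏ b, (ρ b ^ n b * (Nat.multichoose (e (cb b)) (n b) : ℝ)))
    (k : ℕ) (n : β →₀ ℕ) :
    w (coeff n (H * G ^ k)) ≤
      ∏ b, (ρ b ^ n b * (Nat.multichoose (e (cb b) + if cb b = a then k else 0) (n b) : ℝ)) := by
  induction k generalizing n with
  | zero => simpa using hH n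
  | succ k ih =>
    rw [pow_succ, ← mul_assoc]
    have h := step_arch w hw0 hwz hwm hwa cb a G (H * G ^ k) hG ρ hρ hb
      (fun m => e m + if m = a then k else 0) ih n
    refine h.trans (le_of_eq (Finset.prod_congr rfl fun b _ => ?_))
    by_cases hab : cb b = a
    · simp only [hab, if_true, add_assoc]
    · simp only [hab, if_false, add_zero]

private theorem one_arch {M β F : Type} [Fintype β] [DecidableEq β]
    [Field F] (w : F → ℝ) (hwz : w 0 = 0) (hw1 : w 1 = 1)
    (cb : β → M) (ρ : β → ℝ) (hρ : ∀ b, 0 ≤ ρ b) (n : β →₀ ℕ) :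
    w (coeff n (1 : MvPowerSeries β F)) ≤
      ∏ b, (ρ b ^ n b * (Nat.multichoose ((fun _ : M => 0) (cb b)) (n b) : ℝ)) := by
  classical
  rw [coeff_one]
  by_cases hn : n = 0
  · subst hn
    simp [hw1]
  · rw [if_neg hn, hwz]
    exact Finset.prod_nonneg fun b _ => mul_nonneg (pow_nonneg (hρ b) _) (Nat.cast_nonneg _)

/-- **The coefficients of a product, abstract form.** `w` is an absolute value on the field `F`
(archimedean). `G s` are power series with constant coefficient `1` (class `ca s`), only involving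
the variables of their class, with `w (coeff n (G s)) ≤ ∏ b, ρ b ^ n b`. Then the coefficients of
`∏ G_s ^ (al s)` are bounded by `∏_b ρ_b ^ n_b * multichoose (e_(cb b)) (n_b)`, `e_a` the total
exponent of the class `a`.

Proof. Induction on the number of factors (write the product as a product over a list or multiset
of indices, or induct on `Finset.univ` and on `al s`): let `G` satisfy the bound with `e`, and `H
= G s`, `a = ca s`. `coeff n (G * H) = ∑_(p + q = n) coeff p G * coeff q H`; only `q` supported in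
the class `a` contribute (`onlyB`), `w (..) ≤ ∑_q ∏_b ρ_b ^ n_b multichoose (e_(cb b)) (n_b -
q_b)` over `q ≤ n` supported in the class `a` `= ∏_b ρ_b ^ n_b * ∏_(b in a) (∑_(i ≤ n_b)
multichoose e_a (n_b - i)) * ∏_(b not in a) multichoose ..` (`Finset.prod_univ_sum`, the exponents
`q` are the functions in a product of ranges), and `∑_(i ≤ m) multichoose e i = multichoose (e +
1) m` (induction, `Nat.multichoose_succ_succ`). Start: the product `1` has `coeff 0 = 1`, the
others `0`; `multichoose 0 0 = 1`, and `0 ≤ multichoose`. -/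
theorem coeff_prod_arch {M β A F : Type} [Fintype β] [Fintype A] [DecidableEq M] [DecidableEq β]
    [DecidableEq A] [Field F] (w : F → ℝ) (hw0 : ∀ z, 0 ≤ w z) (hwz : w 0 = 0) (hw1 : w 1 = 1)
    (hwm : ∀ y z, w (y * z) = w y * w z) (hwa : ∀ y z, w (y + z) ≤ w y + w z)
    (ca : A → M) (cb : β → M) (G : A → MvPowerSeries β F)
    (hG : ∀ s, G s ∈ onlyB {b | cb b = ca s}) (ρ : β → ℝ) (hρ : ∀ b, 0 ≤ ρ b)
    (hb : ∀ s (n : β →₀ ℕ), w (coeff n (G s)) ≤ ∏ b, ρ b ^ n b) (al : A → ℕ) (n : β →₀ ℕ) :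
    w (coeff n (∏ s, G s ^ al s)) ≤
      ∏ b, (ρ b ^ n b * (Nat.multichoose (cle ca al (cb b)) (n b) : ℝ)) := by
  classical
  have key : ∀ (S : Finset A) (n : β →₀ ℕ), w (coeff n (∏ s ∈ S, G s ^ al s)) ≤
      ∏ b, (ρ b ^ n b * (Nat.multichoose
        ((fun m => ∑ s ∈ S, if ca s = m then al s else 0) (cb b)) (n b) : ℝ)) := by
    intro S
    induction S using Finset.induction_on with
    | empty =>
      intro n
      simpa using one_arch (M := M) w hwz hw1 cb ρ hρ n
    | insert s S hs ih =>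
      intro n
      rw [Finset.prod_insert hs, mul_comm]
      have h := steps_arch w hw0 hwz hwm hwa cb (ca s) (G s) (∏ s ∈ S, G s ^ al s) (hG s) ρ hρ
        (hb s) (fun m => ∑ s ∈ S, if ca s = m then al s else 0) ih (al s) n
      refine h.trans (le_of_eq (Finset.prod_congr rfl fun b _ => ?_))
      have h5 : (∑ s ∈ S, if ca s = cb b then al s else 0) + (if cb b = ca s then al s else 0) =
          ∑ s ∈ insert s S, if ca s = cb b then al s else 0 := by
        rw [Finset.sum_insert hs, add_comm]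
        congr 1
        by_cases h6 : cb b = ca s
        · rw [if_pos h6, if_pos h6.symm]
        · rw [if_neg h6, if_neg fun h7 => h6 h7.symm]
      show ρ b ^ n b * (Nat.multichoose ((∑ s ∈ S, if ca s = cb b then al s else 0) +
        (if cb b = ca s then al s else 0)) (n b) : ℝ) = _
      rw [h5]
  exact key Finset.univ n

/-- The same for a nonarchimedean absolute value: no binomial coefficients. -/
theorem coeff_prod_nonarch {β A F : Type} [Fintype β] [Fintype A] [DecidableEq β]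
    [DecidableEq A] [Field F] (w : F → ℝ) (hw0 : ∀ z, 0 ≤ w z) (hwz : w 0 = 0) (hw1 : w 1 = 1)
    (hwm : ∀ y z, w (y * z) = w y * w z) (hwa : ∀ y z, w (y + z) ≤ max (w y) (w z))
    (G : A → MvPowerSeries β F) (ρ : β → ℝ) (hρ : ∀ b, 0 ≤ ρ b)
    (hb : ∀ s (n : β →₀ ℕ), w (coeff n (G s)) ≤ ∏ b, ρ b ^ n b) (al : A → ℕ) (n : β →₀ ℕ) :
    w (coeff n (∏ s, G s ^ al s)) ≤ ∏ b, ρ b ^ n b := by
  classical
  have hn0 : ∀ n : β →₀ ℕ, 0 ≤ ∏ b, ρ b ^ n b := fun n =>
    Finset.prod_nonneg fun b _ => pow_nonneg (hρ b) _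
  have hmul : ∀ G' H' : MvPowerSeries β F, (∀ n : β →₀ ℕ, w (coeff n G') ≤ ∏ b, ρ b ^ n b) →
      (∀ n : β →₀ ℕ, w (coeff n H') ≤ ∏ b, ρ b ^ n b) →
      ∀ n : β →₀ ℕ, w (coeff n (H' * G')) ≤ ∏ b, ρ b ^ n b := by
    intro G' H' h1 h2 n
    rw [coeff_mul]
    refine w_sum_max w hwz hwa _ _ (hn0 n) fun x hx => ?_
    have hx3 : x.1 + x.2 = n := Finset.HasAntidiagonal.mem_antidiagonal.1 hx
    rw [hwm]
    refine (mul_le_mul (h2 x.1) (h1 x.2) (hw0 _) (hn0 _)).trans (le_of_eq ?_)
    rw [← Finset.prod_mul_distrib]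
    refine Finset.prod_congr rfl fun b _ => ?_
    have hx4 : n b = x.1 b + x.2 b := by rw [← hx3]; rfl
    rw [hx4, pow_add]
  have hone : ∀ n : β →₀ ℕ, w (coeff n (1 : MvPowerSeries β F)) ≤ ∏ b, ρ b ^ n b := by
    intro n
    rw [coeff_one]
    by_cases hn : n = 0
    · subst hn
      simp [hw1]
    · rw [if_neg hn, hwz]
      exact hn0 n
  have hpow : ∀ s (k : ℕ) (n : β →₀ ℕ), w (coeff n (G s ^ k)) ≤ ∏ b, ρ b ^ n b := by
    intro s k
    induction k with
    | zero => simpa using hone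
    | succ k ih =>
      rw [pow_succ]
      exact hmul _ _ (hb s) ih
  have key : ∀ (S : Finset A) (n : β →₀ ℕ), w (coeff n (∏ s ∈ S, G s ^ al s)) ≤
      ∏ b, ρ b ^ n b := by
    intro S
    induction S using Finset.induction_on with
    | empty => simpa using hone
    | insert s S hs ih =>
      rw [Finset.prod_insert hs]
      exact hmul _ _ ih (hpow s (al s))
  exact key Finset.univ n

end Pool.Agent.Zilber
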