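import Pool.Agent.Zilber.BTauD
import Pool.Agent.Zilber.BAll

set_option autoImplicit false

/-! B15. Level data for the branch in case D: base fields `kf (s l)`. -/

namespace Pool.Agent.Zilber

open Filter NumberField Module Pool.Agent.LAll Pool.Agent.LSharp

variable {J : Type} {𝒰 : Ultrafilter J} {K : J → Type} [∀ j, Field (K j)] [∀ j, NumberField (K j)]
  {k : ℕ} {ι β : Type} [Fintype ι] [Fintype β] [DecidableEq β]

/-- **Level data, case D**: for any finite family of nonzero elements `y a` of the fields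
`L (ca a)`, of height
`O(s (ca a))`, containing the basis: the structure `BrL` at most levels.

Proof. `exists_branch` (BAll) with `M = Fin (k+1)`, `h = κ = s`, `x = y`, `bs = bs'`; the set
`{y | ∃ b, cl (bs b) = l ∧ y = x (bs b)}` is the image set of `exists_branch` by `hbs`. Its
hypotheses `h1`..`h4` are the
fields of `Taus` (`hbs` identifies the basis). -/
theorem level_D {A : Type} [Fintype A] [DecidableEq A] (s : Fin (k + 1) → J → ℝ)
    {cl : ι → Fin (k + 1)} {x : ι → Ult 𝒰 K} {bs : β → ι}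
    (hc : Conf 𝒰 K s (FD 𝒰 K s) cl x bs) (L : Fin (k + 1) → Subfield (Ult 𝒰 K))
    (τ : ∀ l, L l →+* Ult 𝒰 (PS β K)) (hT : Taus (FD 𝒰 K s) cl x bs L τ)
    (ca : A → Fin (k + 1)) (bs' : β → A) (y : A → Ult 𝒰 K) (hy : ∀ a, y a ∈ L (ca a))
    (hy0 : ∀ a, y a ≠ 0) (hyh : ∀ a, y a ∈ Lf 𝒰 K (s (ca a)))
    (hbs : ∀ b, ca (bs' b) = cl (bs b) ∧ y (bs' b) = x (bs b)) :
    ∃ D : ℕ, ∀ᶠ j in (𝒰 : Filter J), ∃ br : BrL ca bs' D (K j),
      (∀ a, br.F a = (τ (ca a) ⟨y a, hy a⟩).rep j) ∧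
      (∀ l, br.h l = max 1 (s l j)) ∧ ∀ l, br.κ l = max 1 (s l j) := by
  have hset : ∀ a, ((fun b => y (bs' b)) '' {b | ca (bs' b) = a} : Set (Ult 𝒰 K)) =
      {y | ∃ b, cl (bs b) = a ∧ y = x (bs b)} := by
    intro a
    ext z
    constructor
    · rintro ⟨b, hb, rfl⟩
      exact ⟨b, (hbs b).1.symm.trans hb, (hbs b).2⟩
    · rintro ⟨b, hb, rfl⟩
      exact ⟨b, (hbs b).1.trans hb, (hbs b).2⟩
  refine exists_branch ca bs' s s ?_ y hy0 hyh ?_ L τ hT.le hy ?_ hT.eps hT.con ?_ ?_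
  · intro a
    refine ⟨1, Filter.Eventually.of_forall fun j => ?_⟩
    rw [one_mul]
    exact le_max_right _ _
  · intro a
    have h1 := (hc.ind a).comp
      (fun b : {b // ca (bs' b) = a} =>
        (⟨b.1, (hbs b.1).1.symm.trans b.2⟩ : {b // cl (bs b) = a}))
      (fun b b' hb => Subtype.ext (show b.1 = b'.1 from Subtype.mk.inj hb))
    have h2 : (fun b : {b // ca (bs' b) = a} => y (bs' b)) =
        (fun b : {b // cl (bs b) = a} => x (bs b)) ∘ (fun b : {b // ca (bs' b) = a} =>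
        (⟨b.1, (hbs b.1).1.symm.trans b.2⟩ : {b // cl (bs b) = a})) := by
      funext b
      exact (hbs b.1).2
    rw [h2]
    exact h1
  · intro a z
    rw [hset a]
    exact hT.alg a z
  · intro a b hb z hz
    rw [(hbs b).2] at hz ⊢
    exact hT.var a b ((hbs b).1.symm.trans hb) z hz
  · intro a z
    have h1 : {b | ca (bs' b) = a} = {b | cl (bs b) = a} := by
      ext b
      simp only [Set.mem_ofPred_eq]
      rw [(hbs b).1]
    rw [h1]
    exact hT.only a z

end Pool.Agent.Zilber
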