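import Pool.Agent.Zilber.BDefs

set_option autoImplicit false

/-! B04. Nonvanishing of a coefficient of low weight. -/

namespace Pool.Agent.Zilber

open NumberField Pool.Agent.LAll Pool.Agent.LSharp MvPowerSeries Filter
open scoped Topology

variable {J M β A : Type} {𝒰 : Ultrafilter J} {K : J → Type} [∀ j, Field (K j)]
  [∀ j, NumberField (K j)] [Fintype M] [Fintype β] [Fintype A] [DecidableEq M] [DecidableEq β]
  [DecidableEq A]

/-- **Nonvanishing of a coefficient of low weight** (section 1.5): if the coordinates `x (bs b)` of each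
class `a` are algebraically independent over `kf 𝒰 K (rr a)`, and `M0 ≤ C n_a max 1 rr_a`, then for most `j`
every nonzero function `∑ c_x ∏ F_s ^ (al x s)` with degrees `≤ C₁ n_a` in the class `a` and with
integral coefficients of size `exp (C₁ M0)` on the branch has a nonzero coefficient of weight `< 1`.

Proof. `nvx` (with `cb b = ca (bs b)`) gives `A₀`; `free_of_indep` with
`M₁ j = Fintype.card β * D * M0 j + M0 j` (`≤ C n_a max 1 rr_a` by `hM` and `0 ≤ M0`) gives `Free` for most `j`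
with `A = A₀` and `t b = x (bs b)`; at such a `j` apply `nvx` to the fields of `br`; its last hypothesis is
the negation of the conclusion. -/
theorem low_coeff (ca : A → M) (bs : β → A) (x : A → Ult 𝒰 K) (rr : M → J → ℝ)
    (hind : ∀ a, AlgebraicIndependent (kf 𝒰 K (rr a))
      (fun b : {b // ca (bs b) = a} => x (bs b)))
    (D : ℕ) (C₁ : ℝ) (hC₁ : 0 ≤ C₁) (n : J → M → ℕ) (M0 : J → ℝ)
    (hn1 : ∀ᶠ j in (𝒰 : Filter J), ∀ a, 1 ≤ n j a) (hM0 : ∀ᶠ j in (𝒰 : Filter J), 0 ≤ M0 j)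
    (hn : ∀ a a', a ≠ a' → Tendsto (fun j => (n j a : ℝ) / n j a') (𝒰 : Filter J) (𝓝 0) ∨
      Tendsto (fun j => (n j a' : ℝ) / n j a) (𝒰 : Filter J) (𝓝 0))
    (hM : ∀ a, ∃ C : ℝ, ∀ᶠ j in (𝒰 : Filter J), M0 j ≤ C * (n j a * max 1 (rr a j))) :
    ∀ᶠ j in (𝒰 : Filter J), ∀ br : BrL ca bs D (K j),
      (∀ b, constantCoeff (br.F (bs b)) = (x (bs b)).rep j) →
      (∀ a, n j a * br.κ a ≤ D * M0 j) →
      ∀ (X : Type) [Fintype X] (c : X → ℤ) (al : X → A → ℕ),
        (∀ x, |(c x : ℝ)| ≤ Real.exp (C₁ * M0 j)) →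
        (Fintype.card X : ℝ) ≤ Real.exp (C₁ * M0 j) →
        (∀ x a, (cle ca (al x) a : ℝ) ≤ C₁ * n j a) →
        ∑ x, (c x : MvPowerSeries β (K j)) * ∏ s, br.F s ^ al x s ≠ 0 →
        ∃ i, coeff i (∑ x, (c x : MvPowerSeries β (K j)) * ∏ s, br.F s ^ al x s) ≠ 0 ∧
          wt (fun b => n j (ca (bs b))) i < 1 := by
  obtain ⟨A₀, hA₀⟩ := nvx (fun b => ca (bs b)) ca D C₁ hC₁
  have hM' : ∀ a, ∃ C : ℝ, ∀ᶠ j in (𝒰 : Filter J),
      (Fintype.card β * D * M0 j + M0 j) ≤ C * (n j a * max 1 (rr a j)) := by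
    intro a
    obtain ⟨C, hC⟩ := hM a
    refine ⟨(Fintype.card β * D + 1) * C, ?_⟩
    filter_upwards [hC] with j hj
    have h1 : (0 : ℝ) ≤ Fintype.card β * D + 1 := by positivity
    have h2 := mul_le_mul_of_nonneg_left hj h1
    nlinarith [h2]
  have hfree := free_of_indep (𝒰 := 𝒰) (K := K) (fun b => ca (bs b)) rr (fun b => x (bs b))
    hind n (fun j => Fintype.card β * D * M0 j + M0 j) hn hM' A₀
  filter_upwards [hfree, hn1, hM0] with j hj hn1j hM0j
  intro br hbr hκ X _ c al hc hX hal hne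
  by_contra hcon
  push Not at hcon
  apply hne
  have ht : (fun b => (x (bs b)).rep j) = fun b => constantCoeff (br.F (bs b)) := by
    funext b
    rw [hbr b]
  rw [ht] at hj
  refine hA₀ (K j) (fun b => constantCoeff (br.F (bs b))) (n j) br.κ (M0 j) hn1j br.one_le_κ hκ
    hM0j hj br.Θ br.Pi br.Δ br.N br.F br.Pi_deg br.Pi_coeff br.Pi_eq br.Δ_prop br.N_deg
    br.N_coeff br.N_eq X c al hc hX ?_ ?_
  · intro y a
    exact hal y a
  · intro i hi
    exact hcon i hi

end Pool.Agent.Zilber
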