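import Pool.Agent.Zilber.BNf1

set_option autoImplicit false

/-! B06. The normal form of the monomials of the coordinates. -/

namespace Pool.Agent.Zilber

open NumberField Pool.Agent.LAll Pool.Agent.LSharp MvPowerSeries

variable {M β A : Type} [Fintype M] [Fintype β] [Fintype A] [DecidableEq M] [DecidableEq β]
  [DecidableEq A]

omit [Fintype M] [Fintype β] [DecidableEq M] [DecidableEq β] in
private theorem bnf_deg_inr (P : MvPolynomial β ℤ) (a : M) :
    (MvPolynomial.rename Sum.inl P : MvPolynomial (β ⊕ M) ℤ).degreeOf (Sum.inr a) = 0 := by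
  classical
  refine Nat.le_zero.1 (MvPolynomial.degreeOf_le_iff.2 fun d hd => ?_)
  rw [MvPolynomial.support_rename_of_injective Sum.inl_injective, Finset.mem_image] at hd
  obtain ⟨d', -, rfl⟩ := hd
  rw [Finsupp.mapDomain_of_notMem_range]
  rintro ⟨b, hb⟩
  exact absurd hb Sum.inl_ne_inr

omit [Fintype M] [Fintype β] [DecidableEq M] [DecidableEq β] in
private theorem bnf_L1_X (i : β ⊕ M) (k : ℕ) :
    L1 (MvPolynomial.X i ^ k : MvPolynomial (β ⊕ M) ℤ) ≤ 1 := by
  classical
  have h1 : L1 (MvPolynomial.X i : MvPolynomial (β ⊕ M) ℤ) = 1 := by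
    simp [L1, MvPolynomial.support_X]
  refine (L1_pow _ k).trans ?_
  rw [h1, one_pow]

/-- The polynomial of one class. -/
private noncomputable def bnfR (a : M) (r : Polynomial (MvPolynomial β ℤ)) :
    MvPolynomial (β ⊕ M) ℤ :=
  ∑ k ∈ r.support, MvPolynomial.rename Sum.inl (r.coeff k) * MvPolynomial.X (Sum.inr a) ^ k

omit [Fintype M] [Fintype β] [DecidableEq M] [DecidableEq β] in
private theorem bnfR_L1 (a : M) (r : Polynomial (MvPolynomial β ℤ)) :
    L1 (bnfR a r) ≤ ∑ k ∈ r.support, L1 (r.coeff k) := by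
  refine (L1_sum _ _).trans (Finset.sum_le_sum fun k _ => ?_)
  refine (L1_mul _ _).trans ?_
  rw [L1_rename _ Sum.inl_injective]
  exact mul_le_of_le_one_right (L1_nonneg _) (bnf_L1_X _ _)

omit [Fintype M] [Fintype β] [DecidableEq M] [DecidableEq β] in
private theorem bnfR_inl (a : M) (r : Polynomial (MvPolynomial β ℤ)) (b : β) (d : ℕ)
    (h : ∀ k, (r.coeff k).degreeOf b ≤ d) : (bnfR a r).degreeOf (Sum.inl b) ≤ d := by
  classical
  refine (MvPolynomial.degreeOf_sum_le _ _ _).trans (Finset.sup_le fun k _ => ?_)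
  refine (MvPolynomial.degreeOf_mul_le _ _ _).trans ?_
  rw [MvPolynomial.degreeOf_rename_of_injective Sum.inl_injective,
    MvPolynomial.degreeOf_X_pow_of_ne k Sum.inl_ne_inr, add_zero]
  exact h k

omit [Fintype M] [Fintype β] [DecidableEq M] [DecidableEq β] in
private theorem bnfR_inr (a : M) (r : Polynomial (MvPolynomial β ℤ)) :
    (bnfR a r).degreeOf (Sum.inr a) ≤ r.natDegree := by
  classical
  refine (MvPolynomial.degreeOf_sum_le _ _ _).trans (Finset.sup_le fun k hk => ?_)
  refine (MvPolynomial.degreeOf_mul_le _ _ _).trans ?_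
  rw [bnf_deg_inr, MvPolynomial.degreeOf_X_self_pow, zero_add]
  exact Polynomial.le_natDegree_of_mem_supp k hk

omit [Fintype M] [Fintype β] [DecidableEq M] [DecidableEq β] in
private theorem bnfR_inr_ne {a a' : M} (ha : a ≠ a') (r : Polynomial (MvPolynomial β ℤ)) :
    (bnfR a r).degreeOf (Sum.inr a') = 0 := by
  classical
  refine Nat.le_zero.1 ((MvPolynomial.degreeOf_sum_le _ _ _).trans (Finset.sup_le fun k _ => ?_))
  refine (MvPolynomial.degreeOf_mul_le _ _ _).trans ?_
  rw [bnf_deg_inr, MvPolynomial.degreeOf_X_pow_of_ne k (fun h => ha (Sum.inr.inj h).symm)]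

omit [Fintype M] [Fintype β] [DecidableEq M] [DecidableEq β] in
private theorem bnfR_ev {F : Type} [Field F] (t : β → F) (Θ : M → MvPowerSeries β F) (a : M)
    (r : Polynomial (MvPolynomial β ℤ)) : evTZ t Θ (bnfR a r) = r.eval₂ (evT t) (Θ a) := by
  unfold bnfR
  rw [map_sum, Polynomial.eval₂_eq_sum, Polynomial.sum]
  refine Finset.sum_congr rfl fun k _ => ?_
  rw [map_mul, map_pow]
  have h1 : evTZ t Θ (MvPolynomial.X (Sum.inr a)) = Θ a := by
    change MvPolynomial.aeval _ (MvPolynomial.X (Sum.inr a)) = Θ a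
    rw [MvPolynomial.aeval_X, Sum.elim_inr]
  have h2 : evTZ t Θ (MvPolynomial.rename Sum.inl (r.coeff k)) = evT t (r.coeff k) := by
    change MvPolynomial.aeval _ (MvPolynomial.rename Sum.inl (r.coeff k)) =
      MvPolynomial.aeval _ (r.coeff k)
    rw [MvPolynomial.aeval_rename]
    rfl
  rw [h1, h2]

/-- **Normal form.** `∏_a (Δ_a ℓ_a ^ D) ^ (n_a) * ∏ F_s ^ (al s)` on the branch is the value at
`(t + ζ, Θ)` of an integral polynomial in the `T_b`, `Z_a`, of degree `< natDegree Pi_a` in `Z_a`.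

Proof. Product over the classes `a` of the polynomials `R_a = ∑_{k < natDegree Pi_a} rename inl (coeff k r_a) *
X (inr a) ^ k`, `r_a` from `nf_class`. `degreeOf (inl b)` : only the class of `b` contributes; `degreeOf (inr a)` : only
`R_a` contributes (`rename inl` of a polynomial has degree `0` in `inr a`), it is `≤ natDegree r_a`. `L1_prod`,
`L1_mul`, `L1_rename`, `L1 (X ^ k) ≤ 1`, `∑`. `∏_a ∏_s F_s ^ (if ca s = a then al s else 0) = ∏_s F_s ^ (al s)`
(`Finset.prod_comm`, `Finset.prod_pow_eq_pow_sum`, `Finset.sum_ite_eq`). -/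
theorem nform (ca : A → M) (bs : β → A) (D : ℕ) : ∃ C : ℕ, ∀ (K : Type) [Field K]
    [NumberField K] (br : BrL ca bs D K) (n : M → ℕ) (al : A → ℕ), (∀ a, cle ca al a ≤ n a) →
    ∃ R : MvPolynomial (β ⊕ M) ℤ, (∀ b, R.degreeOf (Sum.inl b) ≤ C * n (ca (bs b))) ∧
      (∀ a, R.degreeOf (Sum.inr a) < (br.Pi a).natDegree) ∧
      L1 R ≤ Real.exp (C * ∑ a, n a * br.κ a) ∧
      evTZ (fun b => constantCoeff (br.F (bs b))) br.Θ R =
        (∏ a, evT (fun b => constantCoeff (br.F (bs b)))
          (br.Δ a * (br.Pi a).leadingCoeff ^ D) ^ n a) * ∏ s, br.F s ^ al s := by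
  obtain ⟨C, hC⟩ := nf_class (A := A) ca bs D
  refine ⟨C, fun K _ _ br n al hn => ?_⟩
  choose r hr1 hr2 hr3 hr4 using fun a => hC K br a (n a) al (hn a)
  refine ⟨∏ a, bnfR a (r a), fun b => ?_, fun a => ?_, ?_, ?_⟩
  · refine (MvPolynomial.degreeOf_prod_le _ _ _).trans ?_
    have h1 : ∀ a, (bnfR a (r a)).degreeOf (Sum.inl b) ≤ if ca (bs b) = a then C * n a else 0 :=
      fun a => bnfR_inl a (r a) b _ fun k => hr2 a k b
    refine (Finset.sum_le_sum fun a _ => h1 a).trans ?_
    rw [Finset.sum_ite_eq]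
    simp
  · refine ((MvPolynomial.degreeOf_prod_le _ _ _).trans ?_).trans_lt (hr1 a)
    rw [Finset.sum_eq_single a]
    · exact bnfR_inr a (r a)
    · intro a' _ ha'
      exact bnfR_inr_ne ha' (r a')
    · intro h
      exact absurd (Finset.mem_univ a) h
  · refine (L1_prod _ _).trans ?_
    have h1 : ∏ a, L1 (bnfR a (r a)) ≤ ∏ a, Real.exp (C * (n a * br.κ a)) :=
      Finset.prod_le_prod (fun a _ => L1_nonneg _) fun a _ => (bnfR_L1 a (r a)).trans (hr3 a)
    rw [← Real.exp_sum, ← Finset.mul_sum] at h1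
    exact h1
  · rw [map_prod]
    have h1 : ∀ a, evTZ (fun b => constantCoeff (br.F (bs b))) br.Θ (bnfR a (r a)) =
        evT (fun b => constantCoeff (br.F (bs b))) (br.Δ a * (br.Pi a).leadingCoeff ^ D) ^ n a *
          ∏ s, br.F s ^ (if ca s = a then al s else 0) := fun a => by
      rw [bnfR_ev, hr4 a]
    rw [Finset.prod_congr rfl fun a _ => h1 a, Finset.prod_mul_distrib]
    congr 1
    rw [Finset.prod_comm]
    refine Finset.prod_congr rfl fun s _ => ?_
    rw [Finset.prod_pow_eq_pow_sum, Finset.sum_ite_eq]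
    simp

end Pool.Agent.Zilber
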