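import Pool.Agent.Zilber.BDefs

set_option autoImplicit false

/-! B05. The normal form in one class. -/

namespace Pool.Agent.Zilber

open NumberField Pool.Agent.LAll Pool.Agent.LSharp MvPowerSeries

section PBrules

variable {τ : Type}

private theorem bPB_mono {d e : τ → ℕ} {X Y : ℝ} {N : Polynomial (MvPolynomial τ ℤ)}
    (h : PB d X N) (hde : ∀ x, d x ≤ e x) (hXY : X ≤ Y) : PB e Y N :=
  ⟨fun n x => (h.1 n x).trans (hde x), h.2.trans hXY⟩

private theorem bL1_one : L1 (1 : MvPolynomial τ ℤ) ≤ 1 := by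
  have := L1_pow (0 : MvPolynomial τ ℤ) 0
  simpa using this

private theorem bPB_C {d : τ → ℕ} {X : ℝ} {a : MvPolynomial τ ℤ} (hd : ∀ x, a.degreeOf x ≤ d x)
    (hX : L1 a ≤ X) : PB d X (Polynomial.C a) := by
  refine ⟨fun n x => ?_, le_trans ?_ hX⟩
  · rw [Polynomial.coeff_C]
    split_ifs
    · exact hd x
    · rw [MvPolynomial.degreeOf_zero]
      exact Nat.zero_le _
  · refine (Finset.sum_le_sum_of_subset_of_nonneg (Polynomial.support_C_subset a)
      fun _ _ _ => L1_nonneg _).trans ?_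
    rw [Finset.sum_singleton, Polynomial.coeff_C_zero]

private theorem bPB_one : PB (fun _ : τ => 0) 1 (1 : Polynomial (MvPolynomial τ ℤ)) := by
  rw [← Polynomial.C_1]
  refine bPB_C (fun x => ?_) bL1_one
  rw [MvPolynomial.degreeOf_one]

private theorem bPB_pow {d : τ → ℕ} {X : ℝ} {N : Polynomial (MvPolynomial τ ℤ)}
    (h : PB d X N) (k : ℕ) : PB (fun x => k * d x) (X ^ k) (N ^ k) := by
  induction k with
  | zero =>
    rw [pow_zero, pow_zero]
    exact bPB_mono bPB_one (fun x => Nat.zero_le _) le_rfl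
  | succ k ih =>
    rw [pow_succ, pow_succ]
    exact bPB_mono (ih.mul h) (fun x => by ring_nf; exact le_rfl) le_rfl

private theorem bPB_prod {ι : Type} (s : Finset ι) (f : ι → Polynomial (MvPolynomial τ ℤ))
    (k : ι → ℕ) {d : τ → ℕ} {X : ℝ} (h : ∀ a ∈ s, k a ≠ 0 → PB d X (f a)) :
    PB (fun x => (∑ a ∈ s, k a) * d x) (X ^ (∑ a ∈ s, k a)) (∏ a ∈ s, f a ^ k a) := by
  classical
  induction s using Finset.induction_on with
  | empty =>
    rw [Finset.prod_empty, Finset.sum_empty, pow_zero]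
    exact bPB_mono bPB_one (fun x => Nat.zero_le _) le_rfl
  | insert a s ha ih =>
    rw [Finset.prod_insert ha, Finset.sum_insert ha]
    have h1 := ih fun b hb => h b (Finset.mem_insert_of_mem hb)
    have h2 : PB (fun x => k a * d x) (X ^ k a) (f a ^ k a) := by
      by_cases hk : k a = 0
      · rw [hk, pow_zero, pow_zero]
        exact bPB_mono bPB_one (fun x => Nat.zero_le _) le_rfl
      · exact bPB_pow (h a (Finset.mem_insert_self a s) hk) _
    exact bPB_mono (h2.mul h1) (fun x => by ring_nf; exact le_rfl) (by rw [pow_add])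

private theorem bPB_of {N : Polynomial (MvPolynomial τ ℤ)} {D : ℕ} {d : τ → ℕ} {Y : ℝ}
    (hN : N.natDegree ≤ D) (hd : ∀ n x, (N.coeff n).degreeOf x ≤ d x)
    (hY : ∀ n, L1 (N.coeff n) ≤ Y) : PB d (((D : ℝ) + 1) * Y) N := by
  refine ⟨hd, ?_⟩
  have hY0 : 0 ≤ Y := (L1_nonneg _).trans (hY 0)
  have hs : N.support ⊆ Finset.range (D + 1) :=
    Polynomial.supp_subset_range (Nat.lt_succ_of_le hN)
  calc ∑ n ∈ N.support, L1 (N.coeff n) ≤ ∑ _n ∈ N.support, Y := Finset.sum_le_sum fun n _ => hY n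
    _ = N.support.card * Y := by rw [Finset.sum_const, nsmul_eq_mul]
    _ ≤ ((D : ℝ) + 1) * Y := by
        refine mul_le_mul_of_nonneg_right ?_ hY0
        have := Finset.card_le_card hs
        rw [Finset.card_range] at this
        exact_mod_cast this

private theorem bdeg {p : MvPolynomial τ ℤ} {D : ℕ} {S : τ → Prop} [DecidablePred S]
    (hv : ∀ b ∈ p.vars, S b) (ht : p.totalDegree ≤ D) (b : τ) :
    p.degreeOf b ≤ if S b then D else 0 := by
  split_ifs with h
  · exact (MvPolynomial.degreeOf_le_totalDegree _ _).trans ht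
  · by_contra h2
    exact h (hv b (MvPolynomial.mem_vars_iff_degreeOf_ne_zero.2 (by omega)))

end PBrules

variable {M β A : Type} [Fintype M] [Fintype β] [Fintype A] [DecidableEq M] [DecidableEq β]
  [DecidableEq A]

/-- **Normal form in one class.** For exponents `al` of total `≤ n` (only the coordinates of the class `a`
are used), `(Δ_a ℓ_a ^ D) ^ n ∏_{s of class a} F_s ^ (al s)` on the branch is the value at `(t + ζ, Θ_a)` of an
integral polynomial `r` in `Z` over `ℤ[T]` of degree `< natDegree Pi_a` in `Z`.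

Proof. `N' = C (Δ_a ^ (n - ∑ al)) * ∏_{s of class a} (N s) ^ (al s) : Polynomial (MvPolynomial β ℤ)`, of degree
`≤ D n` in `Z`, degrees of the coefficients `≤ D n` in every `T_b` with `ca (bs b) = a`, `0` in the others, sum of the `L1`
`≤ ((D + 1) exp (D κ_a)) ^ n` (`PB` and its rules for products and powers in LSharp/NVXDiv; private there, copy).
`pseudo_div` with `P = Pi a`, `E = D * n`: `ℓ ^ (D n) N' = r + Pi_a Q`, and `Pi_a` vanishes at `(t + ζ, Θ_a)` (`Pi_eq`).
Bounds of `r`: degrees `≤ D n + D n * D`, `∑ L1 ≤ ((D+1) exp (D κ)) ^ n (2 (D+1) exp (D κ)) ^ (D n) ≤ exp (C n κ)`, as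
`κ ≥ 1`. (`N_eq` to the power `al s`: `Δ ^ (al s) F_s ^ (al s) = (N_s (t + ζ, Θ)) ^ (al s)`.) -/
theorem nf_class (ca : A → M) (bs : β → A) (D : ℕ) : ∃ C : ℕ, ∀ (K : Type) [Field K]
    [NumberField K] (br : BrL ca bs D K) (a : M) (n : ℕ) (al : A → ℕ), cle ca al a ≤ n →
    ∃ r : Polynomial (MvPolynomial β ℤ), r.natDegree < (br.Pi a).natDegree ∧
      (∀ k b, (r.coeff k).degreeOf b ≤ if ca (bs b) = a then C * n else 0) ∧
      ∑ k ∈ r.support, L1 (r.coeff k) ≤ Real.exp (C * (n * br.κ a)) ∧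
      r.eval₂ (evT fun b => constantCoeff (br.F (bs b))) (br.Θ a) =
        evT (fun b => constantCoeff (br.F (bs b))) (br.Δ a * (br.Pi a).leadingCoeff ^ D) ^ n *
          ∏ s, br.F s ^ (if ca s = a then al s else 0) := by
  refine ⟨2 * D ^ 2 + 3 * D, fun K _ _ br a n al hle => ?_⟩
  set k : A → ℕ := fun s => if ca s = a then al s else 0 with hk
  set κ := br.κ a with hκ
  have hκ1 : 1 ≤ κ := br.one_le_κ a
  have hsum : ∑ s, k s ≤ n := hle
  set d1 : β → ℕ := fun b => if ca (bs b) = a then D else 0 with hd1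
  set X1 : ℝ := ((D : ℝ) + 1) * Real.exp (D * κ) with hX1
  have hX1a : Real.exp (D * κ) ≤ X1 := by
    have := Real.exp_pos (D * κ)
    have hD : (0 : ℝ) ≤ D := Nat.cast_nonneg _
    rw [hX1]
    nlinarith
  have hX1b : 1 ≤ X1 := (Real.one_le_exp (by positivity)).trans hX1a
  -- bounds of the three kinds of factors
  have hΔ : PB d1 X1 (Polynomial.C (br.Δ a)) := by
    obtain ⟨-, h2, h3, h4⟩ := br.Δ_prop a
    exact bPB_C (bdeg h2 h3) (h4.trans hX1a)
  have hNs : ∀ s ∈ Finset.univ, k s ≠ 0 → PB d1 X1 (br.N s) := by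
    intro s _ hs
    have hcs : ca s = a := by
      by_contra h
      exact hs (if_neg h)
    refine bPB_of (br.N_deg s) (fun i => ?_) fun i => ?_
    · have h1 := br.N_coeff s i
      rw [hcs] at h1
      exact bdeg h1.1 h1.2.1
    · have h1 := (br.N_coeff s i).2.2
      rwa [hcs] at h1
  have hPi : PB d1 X1 (br.Pi a) :=
    bPB_of (br.Pi_deg a).2 (fun i => bdeg (br.Pi_coeff a i).1 (br.Pi_coeff a i).2.1)
      fun i => (br.Pi_coeff a i).2.2
  -- the product
  set N' : Polynomial (MvPolynomial β ℤ) :=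
    Polynomial.C (br.Δ a) ^ (n - ∑ s, k s) * ∏ s, br.N s ^ k s with hN'
  have hPB : PB (fun x => n * d1 x) (X1 ^ n) N' := by
    have h1 := (bPB_pow hΔ (n - ∑ s, k s)).mul (bPB_prod Finset.univ br.N k hNs)
    refine bPB_mono h1 (fun x => ?_) ?_
    · rw [← add_mul, Nat.sub_add_cancel hsum]
    · rw [← pow_add, Nat.sub_add_cancel hsum]
  have hdeg : N'.natDegree ≤ D * n := by
    refine Polynomial.natDegree_mul_le.trans ?_
    have h1 : (Polynomial.C (br.Δ a) ^ (n - ∑ s, k s)).natDegree = 0 := by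
      rw [← map_pow, Polynomial.natDegree_C]
    rw [h1, zero_add]
    refine (Polynomial.natDegree_prod_le _ _).trans ?_
    calc ∑ s, (br.N s ^ k s).natDegree ≤ ∑ s, k s * D := by
          refine Finset.sum_le_sum fun s _ => Polynomial.natDegree_pow_le.trans ?_
          exact Nat.mul_le_mul_left _ (br.N_deg s)
      _ = (∑ s, k s) * D := by rw [Finset.sum_mul]
      _ ≤ D * n := by
          rw [mul_comm]
          exact Nat.mul_le_mul_left _ hsum
  obtain ⟨r, Q, hr, hQ, hPBr⟩ := pseudo_div (br.Pi a) N' (br.Pi_deg a).1 (D * n) hdeg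
    (fun x => n * d1 x) d1 (X1 ^ n) X1 hPB hPi
  refine ⟨r, hr, fun i b => ?_, ?_, ?_⟩
  · refine (hPBr.1 i b).trans ?_
    simp only [hd1]
    split_ifs
    · nlinarith [Nat.zero_le (n * D), Nat.zero_le (n * D ^ 2)]
    · simp
  · refine hPBr.2.trans ?_
    have hX2 : X1 ≤ Real.exp (2 * D * κ) := by
      have h1 : (D : ℝ) + 1 ≤ Real.exp (D * κ) := by
        refine (Real.add_one_le_exp (D : ℝ)).trans (Real.exp_le_exp.2 ?_)
        have hD : (0 : ℝ) ≤ D := Nat.cast_nonneg _
        nlinarith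
      calc X1 ≤ Real.exp (D * κ) * Real.exp (D * κ) := by
            rw [hX1]
            exact mul_le_mul_of_nonneg_right h1 (Real.exp_pos _).le
        _ = Real.exp (2 * D * κ) := by
            rw [← Real.exp_add]
            congr 1
            ring
    have hX3 : 2 * X1 ≤ Real.exp ((2 * D + 1) * κ) := by
      have h1 : (2 : ℝ) ≤ Real.exp κ := by
        have := Real.add_one_le_exp κ
        linarith
      calc 2 * X1 ≤ Real.exp κ * Real.exp (2 * D * κ) :=
            mul_le_mul h1 hX2 (by linarith) (Real.exp_pos _).le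
        _ = Real.exp ((2 * D + 1) * κ) := by
            rw [← Real.exp_add]
            congr 1
            ring
    calc X1 ^ n * (2 * X1) ^ (D * n)
        ≤ Real.exp (2 * D * κ) ^ n * Real.exp ((2 * D + 1) * κ) ^ (D * n) :=
          mul_le_mul (pow_le_pow_left₀ (by linarith) hX2 _)
            (pow_le_pow_left₀ (by linarith) hX3 _) (by positivity) (by positivity)
      _ = Real.exp (((2 * D ^ 2 + 3 * D : ℕ) : ℝ) * (n * κ)) := by
          rw [← Real.exp_nat_mul, ← Real.exp_nat_mul, ← Real.exp_add]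
          congr 1
          push_cast
          ring
  · set t : β → K := fun b => constantCoeff (br.F (bs b)) with ht
    have h1 : Polynomial.eval₂ (evT t) (br.Θ a)
        (Polynomial.C ((br.Pi a).leadingCoeff ^ (D * n)) * N') =
        Polynomial.eval₂ (evT t) (br.Θ a) r := by
      rw [hQ, Polynomial.eval₂_add, Polynomial.eval₂_mul, br.Pi_eq a, zero_mul, add_zero]
    rw [← h1, Polynomial.eval₂_mul, Polynomial.eval₂_C, hN', Polynomial.eval₂_mul,
      Polynomial.eval₂_pow, Polynomial.eval₂_C, Polynomial.eval₂_finsetProd]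
    have h2 : ∀ s ∈ Finset.univ, Polynomial.eval₂ (evT t) (br.Θ a) (br.N s ^ k s) =
        evT t (br.Δ a) ^ k s * br.F s ^ k s := by
      intro s _
      rw [Polynomial.eval₂_pow]
      by_cases hs : ca s = a
      · have h3 := br.N_eq s
        rw [hs] at h3
        rw [← h3, mul_pow]
      · have h3 : k s = 0 := if_neg hs
        rw [h3, pow_zero, pow_zero, pow_zero, mul_one]
    rw [Finset.prod_congr rfl h2, Finset.prod_mul_distrib, Finset.prod_pow_eq_pow_sum, map_mul,
      map_pow, map_pow, mul_pow, ← pow_mul]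
    have h4 : evT t (br.Δ a) ^ n =
        evT t (br.Δ a) ^ (n - ∑ s, k s) * evT t (br.Δ a) ^ ∑ s, k s := by
      rw [← pow_add, Nat.sub_add_cancel hsum]
    rw [h4]
    ring

end Pool.Agent.Zilber
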