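import Pool.Agent.Zilber.BDefs

set_option autoImplicit false

/-! B03. Relations hold on the branch, with integral coefficients. -/

namespace Pool.Agent.Zilber

open NumberField Pool.Agent.LAll Pool.Agent.LSharp MvPowerSeries Filter

variable {J β I : Type} {𝒰 : Ultrafilter J} {K : J → Type} [∀ j, Field (K j)]
  [∀ j, NumberField (K j)]

/-- **Relations on the branch.** A polynomial relation over `kf 𝒰 K κ` between finitely many elements of
`L` gives, for most `j`, a relation with integral coefficients between their Taylor expansions, with the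
same monomials and `ℓ¹`-norm `≤ exp (C max 1 (κ j))`.

Proof. `τ` is a ring homomorphism which is `cst` on `kf 𝒰 K κ`, so
`P.eval₂ ((cst β K).comp (kf ..).subtype) (fun i => τ (u i)) = τ (aeval-value in L) = 0` (the value of
`P` at the `u i`, computed in `L` (`Subfield.inclusion hkL`), is `0` because its image in `Ult 𝒰 K` is `hP`;
`MvPolynomial.eval₂_comp_left`/`map_aeval`-like lemmas). `int_lift` for the one polynomial `P` gives
`b j ≠ 0` and `q j` with `coeff m (q j) = b j * a_m j` for the monomials `m` of `P` (class of `a_m` is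
`P.coeff m ≠ 0`, so `a_m j ≠ 0` for most `j`) and the same support for most `j`; `eval_lift` with
`c j = MvPowerSeries.C` gives that the class of `aeval (fun i => (τ (u i)).rep j) (q j)` is `b` times the value
of `P`, which is `0`; `Ult.mk_eq_zero`. Look at the precise statements of `int_lift`, `eval_lift` in
LSharp/BRInt and at their use in the proof of `rel_integral` in LSharp/BRRel. -/
theorem rel_branch (κ : J → ℝ) (L : Subfield (Ult 𝒰 K)) (τ : L →+* Ult 𝒰 (PS β K))
    (hkL : kf 𝒰 K κ ≤ L) (h2 : ∀ z : L, (z : Ult 𝒰 K) ∈ kf 𝒰 K κ → τ z = cst β K z)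
    [Finite I] (u : I → L) (P : MvPolynomial I (kf 𝒰 K κ))
    (hP : MvPolynomial.aeval (fun i => (u i : Ult 𝒰 K)) P = 0) :
    ∃ C : ℝ, ∀ᶠ j in (𝒰 : Filter J), ∃ q : MvPolynomial I ℤ, q.support = P.support ∧
      L1 q ≤ Real.exp (C * max 1 (κ j)) ∧
      MvPolynomial.aeval (fun i => (τ (u i)).rep j) q = 0 := by
  classical
  set ι : kf 𝒰 K κ →+* L := Subfield.inclusion hkL with hι
  have hL : MvPolynomial.eval₂ ι u P = 0 := by
    apply L.subtype.injective
    rw [map_zero, MvPolynomial.eval₂_comp_left]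
    exact hP
  have hτι : τ.comp ι = (Ult.map (𝒰 := 𝒰) (fun _ => (MvPowerSeries.C : K _ →+* PS β K _))).comp
      (kf 𝒰 K κ).subtype := by
    ext x
    exact h2 (ι x) x.2
  have hτ := congrArg τ hL
  rw [map_zero, MvPolynomial.eval₂_comp_left, hτι] at hτ
  obtain ⟨C, b, q, hb, hsup, hL1, hcl⟩ := int_lift (𝒰 := 𝒰) (K := K) κ fun _ : Unit => P
  have h5 := eval_lift (𝒰 := 𝒰) (fun j => (MvPowerSeries.C : K j →+* PS β K j)) κ P b (q ())
    (hsup ()) (hcl ()) (fun i => τ (u i))
  have h6 : Ult.mk 𝒰 (PS β K) (fun j => ((b j : ℤ) : PS β K j)) *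
      MvPolynomial.eval₂ ((Ult.map (𝒰 := 𝒰) (fun _ => (MvPowerSeries.C : K _ →+* PS β K _))).comp
        (kf 𝒰 K κ).subtype) (fun i => τ (u i)) P = 0 := by
    have h7 : MvPolynomial.eval₂ ((Ult.map (𝒰 := 𝒰)
        (fun _ => (MvPowerSeries.C : K _ →+* PS β K _))).comp (kf 𝒰 K κ).subtype)
        (fun i => τ (u i)) P = 0 := hτ
    rw [h7, mul_zero]
  have h8 := h5.symm.trans h6
  rw [Ult.mk_eq_zero] at h8
  have hsupp : ∀ᶠ j in (𝒰 : Filter J), ∀ m ∈ P.support, (q () j).coeff m ≠ 0 := by
    refine (Filter.eventually_all_finset P.support).2 fun m hm => ?_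
    have h9 : ((P.coeff m : kf 𝒰 K κ) : Ult 𝒰 K) ≠ 0 := by
      intro h
      exact (MvPolynomial.mem_support_iff.1 hm) (Subtype.ext h)
    have h10 : Ult.mk 𝒰 K (fun j => ((b j : ℤ) : K j)) ≠ 0 := by
      intro h
      obtain ⟨j, hj⟩ := (Ult.mk_eq_zero.1 h).exists
      exact hb j (by exact_mod_cast hj)
    have h11 := mul_ne_zero h10 h9
    have h12 := hcl () m
    rw [h12] at h11
    have h13 : ¬ ∀ᶠ j in (𝒰 : Filter J), (((q () j).coeff m : ℤ) : K j) = 0 := fun h =>
      h11 (Ult.mk_eq_zero.2 h)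
    rw [← Ultrafilter.eventually_not] at h13
    filter_upwards [h13] with j hj h0
    exact hj (by rw [h0, Int.cast_zero])
  refine ⟨C, ?_⟩
  filter_upwards [h8, hsupp, hL1] with j h3 h4 h9
  refine ⟨q () j, Finset.Subset.antisymm (hsup () j) fun m hm =>
    MvPolynomial.mem_support_iff.2 (h4 m hm), h9.2 (), ?_⟩
  have h10 : ∀ (f g : ℤ →+* PS β K j), f = g := fun f g => Subsingleton.elim f g
  have h11 : ∀ (A1 : Algebra ℤ (PS β K j)) (X : I → PS β K j) (r : MvPolynomial I ℤ),
      (@MvPolynomial.aeval ℤ (PS β K j) I _ _ A1 X) r =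
        MvPolynomial.eval₂ (Int.castRingHom (PS β K j)) X r := by
    intro A1 X r
    rw [MvPolynomial.aeval_def]
    exact congrArg (fun f : ℤ →+* PS β K j => MvPolynomial.eval₂ f X r) (h10 _ _)
  exact (h11 _ _ _).trans ((h11 (Ring.toIntAlgebra _) _ _).symm.trans h3)

end Pool.Agent.Zilber
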