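import Pool.Agent.Zilber.Defs
import Pool.Agent.Zilber.BDefs

set_option autoImplicit false

/-! B14. The homomorphisms of a branch: definitions. -/

namespace Pool.Agent.Zilber

open Filter NumberField Module Pool.Agent.LAll Pool.Agent.LSharp

variable {J : Type} {𝒰 : Ultrafilter J} {K : J → Type} [∀ j, Field (K j)] [∀ j, NumberField (K j)]
  {k : ℕ} {ι β : Type} [Fintype ι] [Fintype β]

/-- **The homomorphisms of a branch** (one Taylor expansion homomorphism for each block). -/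
structure Taus (F : Fin (k + 1) → Subfield (Ult 𝒰 K)) (cl : ι → Fin (k + 1))
    (x : ι → Ult 𝒰 K) (bs : β → ι) (L : Fin (k + 1) → Subfield (Ult 𝒰 K))
    (τ : ∀ l, L l →+* Ult 𝒰 (PS β K)) : Prop where
  le : ∀ l, F l ≤ L l
  mem : ∀ i, x i ∈ L (cl i)
  alg : ∀ l (y : L l), IsAlgebraic (Algebra.adjoin (F l)
    {y | ∃ b, cl (bs b) = l ∧ y = x (bs b)}) (y : Ult 𝒰 K)
  eps : ∀ l y, eps0 β K (τ l y) = y
  con : ∀ l (y : L l), (y : Ult 𝒰 K) ∈ F l → τ l y = cst β K y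
  var : ∀ l b, cl (bs b) = l → ∀ y : L l, (y : Ult 𝒰 K) = x (bs b) →
    τ l y = cst β K (x (bs b)) + XU K b
  only : ∀ l y, ∀ᶠ j in (𝒰 : Filter J), (τ l y).rep j ∈ onlyB {b | cl (bs b) = l}

/-- The homomorphisms of a branch, chosen simultaneously. (`choose` in the field `ex` of `Br`.) -/
theorem Br.taus {F : Fin (k + 1) → Subfield (Ult 𝒰 K)} {cl : ι → Fin (k + 1)}
    {x : ι → Ult 𝒰 K} {bs : β → ι} {X : ι → Ult 𝒰 (PS β K)} (hX : Br 𝒰 K F cl x bs X) :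
    ∃ (L : Fin (k + 1) → Subfield (Ult 𝒰 K)) (τ : ∀ l, L l →+* Ult 𝒰 (PS β K)),
      Taus F cl x bs L τ ∧ ∀ i (y : L (cl i)), (y : Ult 𝒰 K) = x i → X i = τ (cl i) y := by
  choose L τ h1 h2 h3 h4 h5 h6 h7 h8 using hX.ex
  exact ⟨L, τ, ⟨h1, fun i => h2 _ i rfl, h3, h4, h5, h6, h7⟩, fun i y hy => h8 _ i rfl y hy⟩

end Pool.Agent.Zilber
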