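import Pool.Agent.Zilber.BDefs

set_option autoImplicit false

/-! B01. The branch homomorphisms. -/

namespace Pool.Agent.Zilber

open NumberField Pool.Agent.LAll Pool.Agent.LSharp MvPowerSeries Filter

variable {J M β A : Type} {𝒰 : Ultrafilter J} {K : J → Type} [∀ j, Field (K j)]
  [∀ j, NumberField (K j)] [Fintype M] [Fintype β] [Fintype A] [DecidableEq M] [DecidableEq β]
  [DecidableEq A]

/-- **Elements of bounded height.** Finitely many elements `x s` of `Lf 𝒰 K (h (ca s))` have, for most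
`j`, representatives of height `≤ D max 1 (h (ca s) j)` (`Lf`: some representative `z` has `Hb`; `x.rep`
agrees with it for most `j`: `Ult.rep_mk`, `Hb.of_eq`; maximum of finitely many constants). -/
theorem ht_rep_le (ca : A → M) (h : M → J → ℝ) (x : A → Ult 𝒰 K)
    (hx : ∀ s, x s ∈ Lf 𝒰 K (h (ca s))) :
    ∃ D : ℕ, ∀ᶠ j in (𝒰 : Filter J), ∀ s, ht ((x s).rep j) ≤ D * max 1 (h (ca s) j) := by
  have h1 : ∀ s, Hb 𝒰 (h (ca s)) (x s).rep := by
    intro s
    obtain ⟨z, hz, hb⟩ := hx s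
    refine hb.of_eq ?_
    rw [← hz]
    filter_upwards [Ult.rep_mk (𝒰 := 𝒰) z] with j hj
    exact hj.symm
  choose C hC using h1
  obtain ⟨D, hD⟩ := exists_nat_ge (∑ s, |C s|)
  refine ⟨D, ?_⟩
  filter_upwards [Filter.eventually_all.2 hC] with j hj s
  have h2 : (0 : ℝ) ≤ max 1 (h (ca s) j) := zero_le_one.trans (le_max_left _ _)
  refine (hj s).trans (mul_le_mul_of_nonneg_right ?_ h2)
  refine (le_abs_self _).trans (le_trans ?_ hD)
  exact Finset.single_le_sum (f := fun s => |C s|) (fun i _ => abs_nonneg _) (Finset.mem_univ s)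

/-- **The branch homomorphisms.** One Taylor expansion homomorphism for each class.

Proof. `exists_tau` for each `a : M`, with `k = kf 𝒰 K (κ a)`, `A = {b | ca (bs b) = a}` (a `Finset`:
`Finset.univ.filter`), `t b = x (bs b)` and `S = {x s | ca s = a}` (`Finset.image` of a filter, or
`Set.Finite.toFinset`); `choose`. (The index types `{b // b ∈ Finset.univ.filter ..}` and
`{b // ca (bs b) = a}` are identified by `Equiv.subtypeEquivRight`;
`AlgebraicIndependent` is transported by `AlgebraicIndependent.comp` with an injective map.) -/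
theorem exists_taus (ca : A → M) (bs : β → A) (κ : M → J → ℝ) (x : A → Ult 𝒰 K)
    (hind : ∀ a, AlgebraicIndependent (kf 𝒰 K (κ a))
      (fun b : {b // ca (bs b) = a} => x (bs b)))
    (halg : ∀ s, IsAlgebraic (Algebra.adjoin (kf 𝒰 K (κ (ca s)))
      ((fun b => x (bs b)) '' {b | ca (bs b) = ca s})) (x s)) :
    ∃ (L : M → Subfield (Ult 𝒰 K)) (τ : ∀ a, L a →+* Ult 𝒰 (PS β K)),
      (∀ a, kf 𝒰 K (κ a) ≤ L a) ∧ (∀ s, x s ∈ L (ca s)) ∧
      (∀ a (z : L a), IsAlgebraic (Algebra.adjoin (kf 𝒰 K (κ a))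
        ((fun b => x (bs b)) '' {b | ca (bs b) = a})) (z : Ult 𝒰 K)) ∧
      (∀ a z, eps0 β K (τ a z) = z) ∧
      (∀ a (z : L a), (z : Ult 𝒰 K) ∈ kf 𝒰 K (κ a) → τ a z = cst β K z) ∧
      (∀ a b, ca (bs b) = a → ∀ z : L a, (z : Ult 𝒰 K) = x (bs b) →
        τ a z = cst β K (x (bs b)) + XU K b) ∧
      ∀ a z, ∀ᶠ j in (𝒰 : Filter J), (τ a z).rep j ∈ onlyB {b | ca (bs b) = a} := by
  classical
  have key : ∀ a : M, ∃ (L : Subfield (Ult 𝒰 K)) (τ : L →+* Ult 𝒰 (PS β K)),
      kf 𝒰 K (κ a) ≤ L ∧ (∀ s, ca s = a → x s ∈ L) ∧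
      (∀ z : L, IsAlgebraic (Algebra.adjoin (kf 𝒰 K (κ a))
        ((fun b => x (bs b)) '' {b | ca (bs b) = a})) (z : Ult 𝒰 K)) ∧
      (∀ z, eps0 β K (τ z) = z) ∧
      (∀ z : L, (z : Ult 𝒰 K) ∈ kf 𝒰 K (κ a) → τ z = cst β K z) ∧
      (∀ b, ca (bs b) = a → ∀ z : L, (z : Ult 𝒰 K) = x (bs b) →
        τ z = cst β K (x (bs b)) + XU K b) ∧
      ∀ z, ∀ᶠ j in (𝒰 : Filter J), (τ z).rep j ∈ onlyB {b | ca (bs b) = a} := by
    intro a
    have hA : ((Finset.univ.filter fun b => ca (bs b) = a : Finset β) : Set β) =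
        {b | ca (bs b) = a} := by
      ext b
      simp
    have hmem : ∀ b, b ∈ (Finset.univ.filter fun b => ca (bs b) = a : Finset β) ↔
        ca (bs b) = a := by
      intro b
      simp
    have hi : AlgebraicIndependent (kf 𝒰 K (κ a))
        (fun b : {b // b ∈ (Finset.univ.filter fun b => ca (bs b) = a : Finset β)} =>
          x (bs b)) := by
      have h1 := (hind a).comp
        (fun b : {b // b ∈ (Finset.univ.filter fun b => ca (bs b) = a : Finset β)} =>
          (⟨b.1, (hmem b.1).1 b.2⟩ : {b // ca (bs b) = a})) (by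
        intro b b' hbb
        exact Subtype.ext (congrArg (fun c : {b // ca (bs b) = a} => c.1) hbb))
      exact h1
    have hal : ∀ y ∈ (Finset.univ.filter fun s => ca s = a).image x,
        IsAlgebraic (Algebra.adjoin (kf 𝒰 K (κ a)) ((fun b => x (bs b)) ''
          ((Finset.univ.filter fun b => ca (bs b) = a : Finset β) : Set β))) y := by
      intro y hy
      obtain ⟨s, hs, rfl⟩ := Finset.mem_image.1 hy
      have hs2 := (Finset.mem_filter.1 hs).2
      rw [hA, ← hs2]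
      exact halg s
    obtain ⟨L, τ, h1, _, h3, h4, h5, h6, h7, h8⟩ :=
      exists_tau (kf 𝒰 K (κ a)) (Finset.univ.filter fun b => ca (bs b) = a)
        (fun b => x (bs b)) hi ((Finset.univ.filter fun s => ca s = a).image x) hal
    rw [hA] at h4 h8
    refine ⟨L, τ, h1, fun s hs => h3 _ (Finset.mem_image.2 ⟨s, ?_, rfl⟩), h4, h5, h6,
      fun b hb z hz => h7 b ((hmem b).2 hb) z hz, h8⟩
    exact Finset.mem_filter.2 ⟨Finset.mem_univ s, hs⟩
  choose L τ h1 h2 h3 h4 h5 h6 h7 using key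
  exact ⟨L, τ, h1, fun s => h2 (ca s) s rfl, h3, h4, h5, h6, h7⟩

end Pool.Agent.Zilber
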