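import Pool.Agent.CITLines.Rel

set_option autoImplicit false

/-! CNT 3, 4: the degree of the field over the other variables. -/

namespace Pool.Agent.Zilber

open MvPolynomial Module Pool.Agent.CITLines

section Gauss

variable {A E : Type} [CommRing A] [IsDomain A] [UniqueFactorizationMonoid A] [Field E]

/-- The subfield generated by the image of a domain is its fraction field; Gauss. -/
private theorem cdg_core (ψ : A →+* E) (hψ : Function.Injective ψ) (F : Polynomial A)
    (hF : Irreducible F) (hd : F.natDegree ≠ 0) (w : E) (hw : F.eval₂ ψ w = 0) :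
    (∀ H : Polynomial A, H.eval₂ ψ w = 0 → F ∣ H) ∧
    IsIntegral (Subfield.closure (Set.range ψ)) w ∧
    (minpoly (Subfield.closure (Set.range ψ)) w).natDegree = F.natDegree := by
  classical
  obtain ⟨Z, hZ⟩ : ∃ Z : Subfield E, Z = Subfield.closure (Set.range ψ) := ⟨_, rfl⟩
  rw [← hZ]
  have hmem : ∀ a, ψ a ∈ Z := by
    intro a
    rw [hZ]
    exact Subfield.subset_closure ⟨a, rfl⟩
  let ψZ : A →+* Z := ψ.codRestrict Z hmem
  have hψZ : ∀ a, ((ψZ a : Z) : E) = ψ a := fun a => rfl
  let _ : Algebra A Z := ψZ.toAlgebra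
  have halg : ∀ a, algebraMap A Z a = ψZ a := fun a => rfl
  have hinj : Function.Injective (algebraMap A Z) := by
    intro a b hab
    apply hψ
    exact congrArg Subtype.val hab
  have hfaith : FaithfulSMul A Z := (faithfulSMul_iff_algebraMap_injective A Z).mpr hinj
  have hfrac : IsFractionRing A Z := by
    apply IsFractionRing.of_field
    rintro ⟨z, hz⟩
    rw [hZ, Subfield.mem_closure_iff] at hz
    obtain ⟨x, hx, y, hy, hxy⟩ := hz
    have hcl : ∀ u ∈ Subring.closure (Set.range ψ), ∃ a, ψ a = u := by
      intro u hu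
      have h1 : Subring.closure (Set.range ψ) ≤ ψ.range := by
        rw [Subring.closure_le]
        rintro _ ⟨a, rfl⟩
        exact ⟨a, rfl⟩
      exact h1 hu
    obtain ⟨a, ha⟩ := hcl x hx
    obtain ⟨b, hb⟩ := hcl y hy
    refine ⟨a, b, ?_⟩
    apply Subtype.ext
    change z = ψ a / ψ b
    rw [ha, hb, hxy]
  have hprim : F.IsPrimitive := hF.isPrimitive hd
  have hirr : Irreducible (F.map (algebraMap A Z)) :=
    (hprim.irreducible_iff_irreducible_map_fraction_map).mp hF
  have hev : ∀ H : Polynomial A, Polynomial.aeval w (H.map (algebraMap A Z)) = H.eval₂ ψ w := by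
    intro H
    rw [Polynomial.aeval_def, Polynomial.eval₂_map]
    rfl
  have hroot : Polynomial.aeval w (F.map (algebraMap A Z)) = 0 := by
    rw [hev]
    exact hw
  have hint : IsIntegral Z w := by
    have h1 : IsAlgebraic Z w := ⟨_, hirr.ne_zero, hroot⟩
    exact h1.isIntegral
  have hmin := minpoly.eq_of_irreducible hirr hroot
  have hdeg : (minpoly Z w).natDegree = F.natDegree := by
    rw [← hmin, Polynomial.natDegree_mul_C, Polynomial.natDegree_map_eq_of_injective hinj]
    rw [Ne, inv_eq_zero, Polynomial.leadingCoeff_eq_zero]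
    exact hirr.ne_zero
  refine ⟨?_, hint, hdeg⟩
  intro H hH
  apply hprim.dvd_of_fraction_map_dvd_fraction_map (K := Z)
  have h1 : minpoly Z w ∣ H.map (algebraMap A Z) := by
    apply minpoly.dvd
    rw [hev]
    exact hH
  rw [← hmin] at h1
  exact dvd_of_mul_right_dvd h1

end Gauss

section Vars

variable {E O : Type} [Field E] [CharZero E] [Fintype O] [DecidableEq O]

/-- A polynomial as a polynomial in the variable `o`. -/
private noncomputable def cdgE (o : O) :
    MvPolynomial O ℤ ≃ₐ[ℤ] Polynomial (MvPolynomial {b // b ≠ o} ℤ) :=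
  (renameEquiv ℤ (Equiv.optionSubtypeNe o).symm).trans (optionEquivLeft ℤ _)

omit [Fintype O] in
private theorem cdg_deg (o : O) (f : MvPolynomial O ℤ) : (cdgE o f).natDegree = f.degreeOf o := by
  rw [degreeOf_eq_natDegree o f]
  rfl

omit [CharZero E] [Fintype O] in
private theorem cdg_eval (o : O) (z : O → E) (f : MvPolynomial O ℤ) :
    (cdgE o f).eval₂ (aeval (fun b : {b // b ≠ o} => z b) :
      MvPolynomial {b // b ≠ o} ℤ →ₐ[ℤ] E).toRingHom (z o) = aeval z f := by
  have h : (Polynomial.eval₂RingHom (aeval (fun b : {b // b ≠ o} => z b) :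
      MvPolynomial {b // b ≠ o} ℤ →ₐ[ℤ] E).toRingHom (z o)).comp
      (cdgE o : MvPolynomial O ℤ ≃ₐ[ℤ] _).toRingEquiv.toRingHom =
      (aeval z : MvPolynomial O ℤ →ₐ[ℤ] E).toRingHom := by
    apply MvPolynomial.ringHom_ext
    · intro r
      simp
    · intro i
      by_cases hi : i = o
      · subst hi
        simp [cdgE]
      · simp [cdgE, hi]
  exact congrArg (fun g : MvPolynomial O ℤ →+* E => g f) h

omit [CharZero E] [Fintype O] in
/-- Divisibility of all relations. -/
private theorem cdg_dvd (o : O) (z : O → E)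
    (hz : AlgebraicIndependent ℤ (fun b : {b // b ≠ o} => z b)) (f : MvPolynomial O ℤ)
    (hf : Irreducible f) (hf0 : aeval z f = 0) (h : MvPolynomial O ℤ) (hh : aeval z h = 0) :
    f ∣ h := by
  have hirr : Irreducible (cdgE o f) := hf.map (cdgE o)
  have hdeg : (cdgE o f).natDegree ≠ 0 := by
    intro h0
    obtain ⟨c, hc⟩ := Polynomial.natDegree_eq_zero.mp h0
    have h1 := cdg_eval o z f
    rw [← hc, Polynomial.eval₂_C, hf0] at h1
    have h2 : c = 0 := hz (by
      rw [map_zero]
      exact h1)
    rw [h2, map_zero] at hc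
    exact hirr.ne_zero hc.symm
  have h1 := (cdg_core _ hz (cdgE o f) hirr hdeg (z o) (by rw [cdg_eval, hf0])).1 (cdgE o h) (by
    rw [cdg_eval, hh])
  exact (map_dvd_iff (cdgE o)).mp h1

/-- All but one of the coordinates are independent. -/
private theorem cdg_ex (z : O → E) (hrk : rk ℚ (Set.range z) + 1 = Fintype.card O) :
    ∃ o : O, AlgebraicIndependent ℤ (fun b : {b // b ≠ o} => z b) := by
  obtain ⟨I, hI, hind⟩ := exists_indep_finset (kr ℚ z)
  have hc : I.card + 1 = Fintype.card O := by
    rw [← dm_kr, hI] at hrk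
    exact_mod_cast hrk
  have hne : ∃ o, o ∉ I := by
    by_contra hcon
    push Not at hcon
    have : I = Finset.univ := Finset.eq_univ_iff_forall.mpr hcon
    rw [this, Finset.card_univ] at hc
    omega
  obtain ⟨o, ho⟩ := hne
  have hall : ∀ b, b ≠ o → b ∈ I := by
    intro b hb
    by_contra hbI
    have h1 : insert o (insert b I) ⊆ (Finset.univ : Finset O) := Finset.subset_univ _
    have h2 := Finset.card_le_card h1
    rw [Finset.card_insert_of_notMem, Finset.card_insert_of_notMem hbI, Finset.card_univ] at h2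
    · omega
    · rw [Finset.mem_insert, not_or]
      exact ⟨fun h => hb h.symm, ho⟩
  refine ⟨o, ?_⟩
  let φ : (MvPolynomial O ℚ ⧸ kr ℚ z) →ₐ[ℚ] E :=
    Ideal.Quotient.liftₐ (kr ℚ z) (aeval z) (fun a ha => ha)
  have hφ : Function.Injective φ := by
    rw [injective_iff_map_eq_zero]
    intro a ha
    obtain ⟨b, rfl⟩ := Ideal.Quotient.mk_surjective a
    exact Ideal.Quotient.eq_zero_iff_mem.mpr ha
  have hφX : ∀ i, φ (Ideal.Quotient.mkₐ ℚ (kr ℚ z) (X i)) = z i := by
    intro i
    change (aeval z : MvPolynomial O ℚ →ₐ[ℚ] E) (X i) = z i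
    simp
  have h1 := hind.map' (f := φ) hφ
  have h2 : AlgebraicIndependent ℚ (fun b : {b // b ≠ o} => z b) := by
    have h3 := h1.comp (fun b : {b // b ≠ o} => (⟨b.1, hall b.1 b.2⟩ : I)) (by
      intro a b hab
      apply Subtype.ext
      exact congrArg (fun x : I => x.1) hab)
    have h4 : ((φ ∘ fun i : I => Ideal.Quotient.mkₐ ℚ (kr ℚ z) (X i.1)) ∘
        fun b : {b // b ≠ o} => (⟨b.1, hall b.1 b.2⟩ : I)) = fun b : {b // b ≠ o} => z b := by
      funext b
      exact hφX b.1
    rw [← h4]
    exact h3
  exact h2.restrictScalars (RingHom.injective_int (algebraMap ℤ ℚ))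

end Vars

/-- **The degree of an irreducible relation.** `z : O → E` of transcendence degree `card O - 1`, `f` irreducible,
`f(z) = 0`, `f` contains the variable `o`. The other `z o'` are algebraically independent, and the degree of a field
`L ⊇ ℚ(z)` over them is the degree over `ℚ(z)` times `degreeOf o f`.

Proof. The ideal `kr ℚ z` of the relations over `ℚ` is a prime ideal with `dm = card O - 1`, so of height one, and it
contains `f`; `f` is irreducible in `ℤ[O]` and not constant (`f(z) = 0`), so irreducible over `ℚ` (Gauss; for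
`MvPolynomial` via one variable over the ring of the others, or through `finSuccEquiv`), and the ideal `(f)` is prime,
so `kr ℚ z = (f)` (`dm_strictAnti`: `dm (f) ≤ card O - 1`). If the `z o'`, `o' ≠ o`, were dependent, a nonzero polynomial
without the variable `o` would be a multiple of `f`: impossible by the degrees in `o`. Let `Z = ℚ(z o' : o' ≠ o)`. `f` as a
polynomial in the variable `o` over `ℚ[O \ o]` is irreducible of positive degree, so irreducible over the fraction
field (Gauss, `Polynomial.IsPrimitive.irreducible_iff_irreducible_map_fraction_map`), which is isomorphic to `Z`: the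
minimal polynomial of `z o` over `Z` has degree `degreeOf o f`, and `[ℚ(z) : Z] = degreeOf o f`
(`IntermediateField.adjoin.finrank`). `Subfield.relfinrank_mul_relfinrank`. -/
theorem c_deg {E O : Type} [Field E] [CharZero E] [Fintype O] [DecidableEq O] (z : O → E)
    (hrk : rk ℚ (Set.range z) + 1 = Fintype.card O) (f : MvPolynomial O ℤ) (hf : Irreducible f)
    (hf0 : aeval z f = 0) (o : O) (ho : f.degreeOf o ≠ 0) (L : Subfield E)
    (hL : Subfield.closure (Set.range z) ≤ L) :
    AlgebraicIndependent ℚ (fun o' : {o' // o' ≠ o} => z o') ∧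
      (Subfield.closure (Set.range fun o' : {o' // o' ≠ o} => z o')).relfinrank L =
        (Subfield.closure (Set.range z)).relfinrank L * f.degreeOf o := by
  classical
  obtain ⟨o₁, ho₁⟩ := cdg_ex z hrk
  have hdvd := cdg_dvd o₁ z ho₁ f hf hf0
  have hindZ : AlgebraicIndependent ℤ (fun b : {b // b ≠ o} => z b) := by
    rw [algebraicIndependent_iff]
    intro g hg
    by_contra hg0
    have h1 : aeval z (rename (Subtype.val : {b // b ≠ o} → O) g) = 0 := by
      rw [aeval_rename]
      exact hg
    obtain ⟨k, hk⟩ := hdvd _ h1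
    have h2 : rename (Subtype.val : {b // b ≠ o} → O) g ≠ 0 := by
      intro h3
      apply hg0
      exact rename_injective _ Subtype.val_injective (by rw [h3, map_zero])
    have h3 : (rename (Subtype.val : {b // b ≠ o} → O) g).degreeOf o = 0 := by
      apply Nat.le_zero.mp
      rw [degreeOf_le_iff]
      intro m hm
      have h4 : o ∉ (rename (Subtype.val : {b // b ≠ o} → O) g).vars := by
        intro h5
        have h6 := vars_rename (Subtype.val : {b // b ≠ o} → O) g h5
        obtain ⟨b, _, hb⟩ := Finset.mem_image.mp h6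
        exact b.2 hb
      by_contra h5
      exact h4 ((mem_vars_iff_mem_support o).mpr ⟨m, hm, Finsupp.mem_support_iff.mpr (by omega)⟩)
    rw [hk] at h2 h3
    have hk0 : k ≠ 0 := right_ne_zero_of_mul h2
    rw [degreeOf_mul_eq hf.ne_zero hk0] at h3
    omega
  have hQalg : Algebra.IsAlgebraic ℤ ℚ := by
    refine ⟨fun q => ⟨Polynomial.C (q.den : ℤ) * Polynomial.X - Polynomial.C q.num, ?_, ?_⟩⟩
    · intro h0
      have h1 := congrArg (fun p : Polynomial ℤ => p.coeff 1) h0
      simp only [Polynomial.coeff_sub, Polynomial.coeff_C_mul, Polynomial.coeff_X_one, mul_one,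
        Polynomial.coeff_C_succ, sub_zero, Polynomial.coeff_zero] at h1
      exact q.den_nz (by exact_mod_cast h1)
    · simp [Rat.den_mul_eq_num]
  refine ⟨hindZ.extendScalars ℚ, ?_⟩
  obtain ⟨ψ, hψ⟩ : ∃ ψ : MvPolynomial {b // b ≠ o} ℤ →+* E,
    ψ = (aeval (fun b : {b // b ≠ o} => z b) :
      MvPolynomial {b // b ≠ o} ℤ →ₐ[ℤ] E).toRingHom := ⟨_, rfl⟩
  have hψi : Function.Injective ψ := by
    rw [hψ]
    exact hindZ
  have hdeg := cdg_deg o f
  obtain ⟨_, hint, hmin⟩ := cdg_core ψ hψi (cdgE o f) (hf.map (cdgE o)) (by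
    rw [hdeg]
    exact ho) (z o) (by
    rw [hψ, cdg_eval, hf0])
  rw [hdeg] at hmin
  have hcl : Subfield.closure (Set.range ψ) =
      Subfield.closure (Set.range fun b : {b // b ≠ o} => z b) := by
    apply le_antisymm
    · rw [Subfield.closure_le]
      rintro _ ⟨p, rfl⟩
      rw [hψ]
      change aeval (fun b : {b // b ≠ o} => z b) p ∈ _
      rw [aeval_def, eval₂_eq]
      apply Subfield.sum_mem
      intro m _
      apply Subfield.mul_mem
      · exact Subfield.intCast_mem _ _
      · apply Subfield.prod_mem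
        intro i _
        exact Subfield.pow_mem _ (Subfield.subset_closure (Set.mem_range_self i)) _
    · rw [Subfield.closure_le]
      rintro _ ⟨b, rfl⟩
      apply Subfield.subset_closure
      refine ⟨X b, ?_⟩
      rw [hψ]
      change aeval (fun b : {b // b ≠ o} => z b) (X b) = _
      rw [aeval_X]
  rw [hcl] at hint hmin
  obtain ⟨Z, hZ⟩ : ∃ Z : Subfield E,
    Z = Subfield.closure (Set.range fun b : {b // b ≠ o} => z b) := ⟨_, rfl⟩
  obtain ⟨W, hW⟩ : ∃ W : Subfield E, W = Subfield.closure (Set.range z) := ⟨_, rfl⟩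
  rw [← hZ] at hint hmin ⊢
  rw [← hW] at hL ⊢
  have hZW : Z ≤ W := by
    rw [hZ, hW]
    apply Subfield.closure_mono
    rintro _ ⟨b, rfl⟩
    exact ⟨b.1, rfl⟩
  rw [← Subfield.relfinrank_mul_relfinrank hZW hL]
  have hfin : Z.relfinrank W = f.degreeOf o := by
    rw [Subfield.relfinrank_eq_finrank_of_le hZW]
    have h1 : Subfield.extendScalars hZW = IntermediateField.adjoin Z {z o} := by
      apply le_antisymm
      · intro x hx
        have hx' : x ∈ W := hx
        rw [hW] at hx'
        have h2 : Subfield.closure (Set.range z) ≤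
            (IntermediateField.adjoin Z {z o}).toSubfield := by
          rw [Subfield.closure_le]
          rintro _ ⟨i, rfl⟩
          by_cases hi : i = o
          · rw [hi]
            exact IntermediateField.mem_adjoin_simple_self Z (z o)
          · have h3 : z i ∈ Z := by
              rw [hZ]
              exact Subfield.subset_closure ⟨⟨i, hi⟩, rfl⟩
            exact (IntermediateField.adjoin Z {z o}).algebraMap_mem ⟨z i, h3⟩
        exact h2 hx'
      · rw [IntermediateField.adjoin_simple_le_iff]
        change z o ∈ W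
        rw [hW]
        exact Subfield.subset_closure ⟨o, rfl⟩
    rw [h1, IntermediateField.adjoin.finrank hint, hmin]
  rw [hfin, mul_comm]

end Pool.Agent.Zilber
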