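import Pool.Agent.Zilber.DDefs

set_option autoImplicit false

/-! CH11. The relations of the series of block `0` over the variables. -/

namespace Pool.Agent.Zilber

open Filter NumberField Module Pool.Agent.LAll Pool.Agent.LSharp Pool.Agent.CITLines

private theorem cha_eval {β0 S : Type} [CommRing S] [Algebra ℂ S] (g : β0 → S) (Y : S)
    (q : MvPolynomial (Option β0) ℂ) :
    (MvPolynomial.optionEquivLeft ℂ β0 q).eval₂
      (MvPolynomial.aeval g : MvPolynomial β0 ℂ →ₐ[ℂ] S).toRingHom Y =
    MvPolynomial.aeval (fun o : Option β0 => o.elim Y g) q := by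
  induction q using MvPolynomial.induction_on with
  | C a =>
    rw [MvPolynomial.optionEquivLeft_C, Polynomial.eval₂_C, MvPolynomial.aeval_C]
    exact MvPolynomial.aeval_C g a
  | add p q hp hq => rw [map_add, Polynomial.eval₂_add, hp, hq, map_add]
  | mul_X p o hp =>
    rw [map_mul, Polynomial.eval₂_mul, hp, map_mul, MvPolynomial.aeval_X]
    congr 1
    rcases o with _ | b
    · rw [MvPolynomial.optionEquivLeft_X_none, Polynomial.eval₂_X]
      rfl
    · rw [MvPolynomial.optionEquivLeft_X_some, Polynomial.eval₂_C]
      exact MvPolynomial.aeval_X g b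

/-- The relations of the complex power series of block `0` over the `C c_b + X_b`, with algebraic coefficients, at
a level with `LX`: from `h2` of `LX` for `i` (a relation over `K j` between `x i` and the `x (bs b)`, with variables `b` of
block `0`), mapped by `σ j`; written as a polynomial in the variable `none` with coefficients in the other ones. -/
theorem ser_alg {K : Type} [Field K] [NumberField K] {k : ℕ} {ι β : Type} [Fintype ι] [Fintype β]
    [DecidableEq β] {cl : ι → Fin (k + 1)} {bs : β → ι} {f : ι → MvPowerSeries β K} {D : ℕ}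
    (hL : LX K f bs cl D) (s : K →+* ℂ) (i : {i // cl i = 0}) :
    ∃ Q : Polynomial (MvPolynomial (B0 cl bs) ℂ), Q ≠ 0 ∧
      (∀ n e, IsAlgebraic ℚ ((Q.coeff n).coeff e)) ∧
      Q.eval₂ (MvPolynomial.aeval (fun b : B0 cl bs => (MvPowerSeries.C
        (s (MvPowerSeries.constantCoeff (f (bs b)))) + MvPowerSeries.X (b : β) :
          MvPowerSeries β ℂ)) : MvPolynomial (B0 cl bs) ℂ →ₐ[ℂ] MvPowerSeries β ℂ).toRingHom
        (MvPowerSeries.map s (f i)) = 0 := by
  obtain ⟨p, hp0, -, hpv, hp⟩ := hL.h2 i.1
  -- the relation only contains variables of block zero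
  obtain ⟨q, hq⟩ := MvPolynomial.exists_rename_eq_of_vars_subset_range p
    (Option.map (Subtype.val : B0 cl bs → β)) (Option.map_injective Subtype.val_injective) (by
      intro o ho
      rcases o with _ | b
      · exact ⟨none, rfl⟩
      · exact ⟨some ⟨b, (hpv b ho).trans i.2⟩, rfl⟩)
  have hq0 : q ≠ 0 := by
    rintro rfl
    rw [map_zero] at hq
    exact hp0 hq.symm
  refine ⟨MvPolynomial.optionEquivLeft ℂ (B0 cl bs) (MvPolynomial.map s q), ?_, fun n e => ?_, ?_⟩
  · intro h
    rw [EmbeddingLike.map_eq_zero_iff] at h
    exact hq0 (MvPolynomial.map_injective s s.injective (by rw [h, map_zero]))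
  · have h1 := MvPolynomial.optionEquivLeft_coeff_some_coeff_none ℂ (B0 cl bs)
      (e.optionElim n) (MvPolynomial.map s q)
    rw [Finsupp.optionElim_apply_none, Finsupp.some_optionElim, MvPolynomial.coeff_map] at h1
    change IsAlgebraic ℚ (MvPolynomial.coeff e (Polynomial.coeff _ n))
    rw [h1]
    exact (Algebra.IsAlgebraic.isAlgebraic (R := ℚ) (MvPolynomial.coeff (e.optionElim n) q)).algHom
      s.toRatAlgHom
  · rw [cha_eval]
    have hg : (fun o : Option (B0 cl bs) => o.elim (MvPowerSeries.map s (f i))
        (fun b : B0 cl bs => (MvPowerSeries.C (s (MvPowerSeries.constantCoeff (f (bs b)))) +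
          MvPowerSeries.X (b : β) : MvPowerSeries β ℂ))) =
        fun o : Option (B0 cl bs) => MvPowerSeries.map s
          ((Option.map (Subtype.val : B0 cl bs → β) o).elim (f i) fun b => f (bs b)) := by
      funext o
      rcases o with _ | b
      · rfl
      · change _ = MvPowerSeries.map s (f (bs b))
        conv_rhs => rw [hL.h1 b]
        rw [map_add, MvPowerSeries.map_C, MvPowerSeries.map_X]
        rfl
    rw [hg]
    have h2 : MvPolynomial.aeval (fun o : Option (B0 cl bs) => MvPowerSeries.map s
          ((Option.map (Subtype.val : B0 cl bs → β) o).elim (f i) fun b => f (bs b)))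
          (MvPolynomial.map s q) =
        MvPowerSeries.map s (MvPolynomial.aeval (fun o : Option β =>
          o.elim (f i) (fun b => f (bs b))) p) := by
      rw [← hq, MvPolynomial.aeval_rename, MvPolynomial.aeval_def, MvPolynomial.aeval_def,
        MvPolynomial.eval₂_map, MvPolynomial.hom_eval₂]
      have h3 : (algebraMap ℂ (MvPowerSeries β ℂ)).comp s =
          (MvPowerSeries.map s).comp (algebraMap K (MvPowerSeries β K)) := by
        ext1 a
        change MvPowerSeries.C (s a) = MvPowerSeries.map s (MvPowerSeries.C a)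
        rw [MvPowerSeries.map_C]
      rw [h3]
      rfl
    rw [h2, hp, map_zero]

end Pool.Agent.Zilber
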