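import Pool.Agent.Zilber.Defs

set_option autoImplicit false

/-! Block T (TSW: theorem T* for general coordinates) of Zilber's conjecture for tori (MP_b7926e_nt): definitions.

`x l` (`l : ι`) are power series over a number field `K` in the variables `β` (the branch at one level), `bs b` is
the coordinate which is the variable `b` (up to a constant), `cl l` is the block (class) of the coordinate `l`.
`GF x` is the field `K(x)`, `gen x l` the element `x l` of it, `om`, `Wdg`: see `Defs.lean`. -/

namespace Pool.Agent.Zilber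

open MvPolynomial Pool.Agent.CITLines Pool.Agent.Srf5 Pool.Agent.LSharp

/-- The coordinates in the fraction field. -/
noncomputable def wx {K β ι : Type} [Field K] (x : ι → MvPowerSeries β K) (l : ι) :
    FractionRing (MvPowerSeries β K) :=
  algebraMap (MvPowerSeries β K) (FractionRing (MvPowerSeries β K)) (x l)

/-- The data at one level. -/
structure LX (K : Type) [Field K] {ι β M : Type} [Fintype β]
    (x : ι → MvPowerSeries β K) (bs : β → ι) (cl : ι → M) (D : ℕ) : Prop where
  h1 : ∀ b, x (bs b) =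
    MvPowerSeries.C (MvPowerSeries.constantCoeff (x (bs b))) + MvPowerSeries.X b
  h2 : ∀ k, ∃ p : MvPolynomial (Option β) K, p ≠ 0 ∧ p.totalDegree ≤ D ∧
    (∀ b, some b ∈ p.vars → cl (bs b) = cl k) ∧
    aeval (fun o : Option β => o.elim (x k) (fun b => x (bs b))) p = 0
  h3 : ∀ s : K →+* ℂ, ∃ C : ℝ, ∀ k i, ‖s (MvPowerSeries.coeff i (x k))‖ ≤ C ^ (i.degree + 1)
  h4 : ∀ k, x k ∈ onlyB {b | cl (bs b) = cl k}
  g : ∀ k, MvPowerSeries.constantCoeff (x k) ≠ 0

/-- Adapted data for the real vectors `rr`: `g` is a basis of coordinates and `q l` the coordinates of `l` in this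
basis, for the valuations below. -/
structure AD {ι β M : Type} [Fintype ι] [Fintype β] [DecidableEq β] (bs : β → ι) (cl : ι → M)
    (rr : β → ι → ℝ) (g : β → ι) (q : ι → β → ℚ) : Prop where
  hg : ∀ b, cl (g b) = cl (bs b)
  hq : ∀ l b, q l b ≠ 0 → cl l = cl (bs b)
  hb : ∀ b b', q (g b) b' = if b = b' then 1 else 0
  hdet : (Matrix.of fun i b => ∑ l, rr i l * (q l b : ℝ)).det ≠ 0

/-- An embedding `φ` of `K(x)` (over the embedding `s` of `K`) into a field `Ω` with a real valuation `v`, trivial on
`ℂ`, adapted to `g, q` (compare `Emb` in `TSW.lean`). -/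
structure TW {K : Type} [Field K] (s : K →+* ℂ) {ι β : Type} [Fintype β]
    (x : ι → MvPowerSeries β K) (g : β → ι) (q : ι → β → ℚ) {Ω : Type} [Field Ω] [Algebra ℂ Ω]
    (v : Ω → ℝ) (φ : GF x →+* Ω) : Prop where
  rv : RV ℂ v
  const : ∀ k : K, φ (algebraMap K (GF x) k) = algebraMap ℂ Ω (s k)
  lin : ∀ l, v (φ (gen x l)) = ∑ b, (q l b : ℝ) * v (φ (gen x (g b)))
  ind : LinearIndependent ℚ (fun b => v (φ (gen x (g b))))

end Pool.Agent.Zilber
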