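import Pool.Agent.LSharp.TSConv
import Pool.Agent.LSharp.TSDiff
import Pool.Agent.Zilber.TDefs

set_option autoImplicit false

/-! T: strict derivatives of a convergent power series at any point of the open polydisc. -/

namespace Pool.Agent.Zilber

open MvPolynomial Pool.Agent.LSharp

section

variable {K β : Type} [Field K] [Fintype β]

private theorem tst_pow0 {r ρ : ℝ} (h0 : 0 ≤ r) (h : r ≤ ρ) (n : ℕ) :
    (n : ℝ) * r ^ (n - 1) * (ρ - r) ≤ ρ ^ n - r ^ n := by
  induction n with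
  | zero => simp
  | succ n ih =>
    rw [Nat.add_sub_cancel]
    have h1 : (n : ℝ) * r ^ n * (ρ - r) ≤ r * (ρ ^ n - r ^ n) := by
      rcases n with _ | m
      · simp
      · rw [Nat.add_sub_cancel] at ih
        have h2 := mul_le_mul_of_nonneg_left ih h0
        calc ((m + 1 : ℕ) : ℝ) * r ^ (m + 1) * (ρ - r)
            = r * (((m + 1 : ℕ) : ℝ) * r ^ m * (ρ - r)) := by ring
          _ ≤ _ := h2
    have h3 : 0 ≤ (ρ - r) * (ρ ^ n - r ^ n) :=
      mul_nonneg (by linarith) (sub_nonneg.2 (pow_le_pow_left₀ h0 h n))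
    push_cast
    rw [pow_succ, pow_succ]
    nlinarith [h1, h3]

private theorem tst_pow {r ρ : ℝ} (h0 : 0 ≤ r) (h : r < ρ) (n : ℕ) :
    (n : ℝ) * r ^ (n - 1) ≤ 1 / (ρ - r) * ρ ^ n := by
  have h1 := tst_pow0 h0 h.le n
  have h2 : 0 < ρ - r := by linarith
  have h3 : (0 : ℝ) ≤ r ^ n := by positivity
  rw [one_div, inv_mul_eq_div, le_div_iff₀ h2]
  linarith

/-- The derivative converges on every smaller polydisc.

Proof. `coeff i (pderiv b f) = (i b + 1) * coeff (i + single b 1) f` and `(n + 1) * ρ'^n ≤ C * ρ^(n + 1)` for all `n`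
with a constant `C` (as `ρ' < ρ`); `i ↦ i + single b 1` is injective (`Summable.comp_injective`). -/
theorem cv_pderiv (s : K →+* ℂ) {ρ ρ' : ℝ} (h0 : 0 ≤ ρ') (h : ρ' < ρ) {f : MvPowerSeries β K}
    (hf : Cv s ρ f) (b : β) : Cv s ρ' (MvPowerSeries.pderiv K b f) := by
  classical
  have hinj : Function.Injective fun j : β →₀ ℕ => j + Finsupp.single b 1 :=
    add_left_injective _
  have h1 : Summable fun j : β →₀ ℕ =>
      ‖s (MvPowerSeries.coeff (j + Finsupp.single b 1) f)‖ *
        ρ ^ (j + Finsupp.single b 1).degree := hf.comp_injective hinj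
  unfold Cv
  refine Summable.of_nonneg_of_le (fun i => by positivity) (fun j => ?_)
    (h1.mul_left (1 / (ρ - ρ')))
  have h2 : (j + Finsupp.single b 1).degree = j.degree + 1 := by
    rw [map_add, Finsupp.degree_single]
  have h3 := tst_pow h0 h (j.degree + 1)
  rw [Nat.add_sub_cancel] at h3
  have h4 : (j b : ℝ) + 1 ≤ ((j.degree + 1 : ℕ) : ℝ) := by
    push_cast
    have h5 : j b ≤ j.degree := Finsupp.le_degree b j
    have h6 : (j b : ℝ) ≤ j.degree := by exact_mod_cast h5
    linarith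
  rw [MvPowerSeries.coeff_pderiv, map_mul, map_add, map_natCast, map_one, norm_mul, h2]
  have h5 : ‖(j b : ℂ) + 1‖ = (j b : ℝ) + 1 := by
    have h6 : ((j b : ℂ) + 1) = (((j b : ℝ) + 1 : ℝ) : ℂ) := by push_cast; ring
    rw [h6, Complex.norm_real, Real.norm_of_nonneg (by positivity)]
  rw [h5]
  calc ‖s (MvPowerSeries.coeff (j + Finsupp.single b 1) f)‖ * ((j b : ℝ) + 1) * ρ' ^ j.degree
      = ‖s (MvPowerSeries.coeff (j + Finsupp.single b 1) f)‖ *
        (((j b : ℝ) + 1) * ρ' ^ j.degree) := by ring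
    _ ≤ ‖s (MvPowerSeries.coeff (j + Finsupp.single b 1) f)‖ *
        (1 / (ρ - ρ') * ρ ^ (j.degree + 1)) :=
        mul_le_mul_of_nonneg_left ((mul_le_mul_of_nonneg_right h4 (by positivity)).trans h3)
          (norm_nonneg _)
    _ = _ := by ring

/-- The partial derivatives of the terms. -/
private noncomputable def tg (s : K →+* ℂ) (f : MvPowerSeries β K) (b : β) (i : β →₀ ℕ)
    (z : β → ℂ) : ℂ :=
  s (MvPowerSeries.coeff i f) * (i b : ℂ) * ∏ c, z c ^ (i - Finsupp.single b 1 : β →₀ ℕ) c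

private theorem tst_hasSum (s : K →+* ℂ) {ρ : ℝ} {f : MvPowerSeries β K} (hf : Cv s ρ f)
    {z : β → ℂ} (hz : ‖z‖ < ρ) (b : β) :
    HasSum (fun i => tg s f b i z) (evf s z (MvPowerSeries.pderiv K b f)) := by
  classical
  have hinj : Function.Injective fun j : β →₀ ℕ => j + Finsupp.single b 1 :=
    add_left_injective _
  have h1 := cv_pderiv s (norm_nonneg z) hz hf b
  have h2 := (evf_summable s h1 (norm_le_pi_norm z)).of_norm.hasSum
  rw [← hinj.hasSum_iff]
  · have e : (fun i => tg s f b i z) ∘ (fun j : β →₀ ℕ => j + Finsupp.single b 1) =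
        fun i => s (MvPowerSeries.coeff i (MvPowerSeries.pderiv K b f)) * ∏ c, z c ^ i c := by
      funext j
      simp only [Function.comp, tg]
      rw [add_tsub_cancel_right, MvPowerSeries.coeff_pderiv, map_mul, map_add, map_natCast,
        map_one, Finsupp.add_apply, Finsupp.single_eq_same]
      push_cast
      ring
    rw [e]
    exact h2
  · intro i hi
    have h3 : i b = 0 := by
      by_contra h
      exact hi ⟨i - Finsupp.single b 1, Finsupp.sub_add_single_one_cancel h⟩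
    simp only [tg]
    rw [h3, Nat.cast_zero, mul_zero, zero_mul]

private theorem tst_prod (i : β →₀ ℕ) (b : β) (z : β → ℂ) [DecidableEq β] (h : i b ≠ 0) :
    (∏ c ∈ Finset.univ.erase b, z c ^ i c) * z b ^ (i b - 1) =
      ∏ c, z c ^ (i - Finsupp.single b 1 : β →₀ ℕ) c := by
  rw [← Finset.prod_erase_mul Finset.univ (fun c => z c ^ (i - Finsupp.single b 1 : β →₀ ℕ) c)
    (Finset.mem_univ b)]
  congr 1
  · refine Finset.prod_congr rfl fun c hc => ?_
    rw [Finsupp.tsub_apply, Finsupp.single_eq_of_ne (Finset.ne_of_mem_erase hc), Nat.sub_zero]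
  · rw [Finsupp.tsub_apply, Finsupp.single_eq_same]

private theorem tst_term (s : K →+* ℂ) (f : MvPowerSeries β K) (i : β →₀ ℕ) (z : β → ℂ) :
    HasFDerivAt (fun y : β → ℂ => s (MvPowerSeries.coeff i f) * ∏ b, y b ^ i b)
      (∑ b, tg s f b i z • (ContinuousLinearMap.proj b : (β → ℂ) →L[ℂ] ℂ)) z := by
  classical
  have h1 : ∀ b ∈ (Finset.univ : Finset β), HasFDerivAt (fun y : β → ℂ => y b ^ i b)
      (((i b : ℂ) * z b ^ (i b - 1)) • (ContinuousLinearMap.proj b : (β → ℂ) →L[ℂ] ℂ)) z := by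
    intro b _
    have h3 := (ContinuousLinearMap.hasFDerivAt
      (ContinuousLinearMap.proj b : (β → ℂ) →L[ℂ] ℂ) (x := z)).pow (i b)
    refine h3.congr_fderiv ?_
    rw [nsmul_eq_mul]
    rfl
  have h2 := (HasFDerivAt.finsetProd h1).const_mul (s (MvPowerSeries.coeff i f))
  refine h2.congr_fderiv ?_
  rw [Finset.smul_sum]
  refine Finset.sum_congr rfl fun b _ => ?_
  rw [smul_smul, smul_smul]
  congr 1
  simp only [tg]
  rcases Nat.eq_zero_or_pos (i b) with h | h
  · rw [h, Nat.cast_zero]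
    ring
  · rw [← tst_prod i b z h.ne']
    ring

private theorem tst_proj (b : β) :
    ‖(ContinuousLinearMap.proj b : (β → ℂ) →L[ℂ] ℂ)‖ ≤ 1 := by
  refine ContinuousLinearMap.opNorm_le_bound _ zero_le_one fun x => ?_
  rw [one_mul]
  exact norm_le_pi_norm x b

private theorem tst_bound (s : K →+* ℂ) (f : MvPowerSeries β K) {r ρ : ℝ} (h0 : 0 ≤ r)
    (h : r < ρ) (i : β →₀ ℕ) {z : β → ℂ} (hz : ‖z‖ ≤ r) :
    ‖∑ b, tg s f b i z • (ContinuousLinearMap.proj b : (β → ℂ) →L[ℂ] ℂ)‖ ≤
      (Fintype.card β : ℝ) * (1 / (ρ - r)) *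
        (‖s (MvPowerSeries.coeff i f)‖ * ρ ^ i.degree) := by
  have h1 : ∀ b ∈ (Finset.univ : Finset β),
      ‖tg s f b i z • (ContinuousLinearMap.proj b : (β → ℂ) →L[ℂ] ℂ)‖ ≤
        1 / (ρ - r) * (‖s (MvPowerSeries.coeff i f)‖ * ρ ^ i.degree) := by
    intro b _
    rw [norm_smul]
    have h2 : ‖tg s f b i z‖ ≤ 1 / (ρ - r) * (‖s (MvPowerSeries.coeff i f)‖ * ρ ^ i.degree) := by
      simp only [tg]
      rw [norm_mul, norm_mul, Complex.norm_natCast, norm_prod]
      rcases Nat.eq_zero_or_pos (i b) with h3 | h3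
      · rw [h3, Nat.cast_zero, mul_zero, zero_mul]
        have : 0 < ρ - r := by linarith
        have : 0 < ρ := by linarith
        positivity
      · have h4 : ∏ c, ‖z c ^ (i - Finsupp.single b 1 : β →₀ ℕ) c‖ ≤ r ^ (i.degree - 1) := by
          have h5 : (i - Finsupp.single b 1).degree = i.degree - 1 := by
            have h6 : (i - Finsupp.single b 1 + Finsupp.single b 1).degree = i.degree := by
              rw [Finsupp.sub_add_single_one_cancel h3.ne']
            rw [map_add, Finsupp.degree_single] at h6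
            omega
          rw [← h5, Finsupp.degree_eq_sum, ← Finset.prod_pow_eq_pow_sum]
          refine Finset.prod_le_prod (fun c _ => norm_nonneg _) fun c _ => ?_
          rw [norm_pow]
          exact pow_le_pow_left₀ (norm_nonneg _) ((norm_le_pi_norm z c).trans hz) _
        have h5 : (i b : ℝ) ≤ i.degree := by exact_mod_cast Finsupp.le_degree b i
        calc ‖s (MvPowerSeries.coeff i f)‖ * (i b : ℝ) *
              ∏ c, ‖z c ^ (i - Finsupp.single b 1 : β →₀ ℕ) c‖
            ≤ ‖s (MvPowerSeries.coeff i f)‖ * (i.degree : ℝ) * r ^ (i.degree - 1) :=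
              mul_le_mul (mul_le_mul_of_nonneg_left h5 (norm_nonneg _)) h4
                (Finset.prod_nonneg fun c _ => norm_nonneg _) (by positivity)
          _ = ‖s (MvPowerSeries.coeff i f)‖ * ((i.degree : ℝ) * r ^ (i.degree - 1)) := by ring
          _ ≤ ‖s (MvPowerSeries.coeff i f)‖ * (1 / (ρ - r) * ρ ^ i.degree) :=
              mul_le_mul_of_nonneg_left (tst_pow h0 h _) (norm_nonneg _)
          _ = _ := by ring
    calc ‖tg s f b i z‖ * ‖(ContinuousLinearMap.proj b : (β → ℂ) →L[ℂ] ℂ)‖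
        ≤ ‖tg s f b i z‖ * 1 := mul_le_mul_of_nonneg_left (tst_proj b) (norm_nonneg _)
      _ = ‖tg s f b i z‖ := mul_one _
      _ ≤ _ := h2
  refine (norm_sum_le _ _).trans ((Finset.sum_le_sum h1).trans (le_of_eq ?_))
  rw [Finset.sum_const, Finset.card_univ, nsmul_eq_mul]
  ring

private theorem tst_cont (s : K →+* ℂ) {r : ℝ} {g : MvPowerSeries β K} (hg : Cv s r g) :
    ContinuousOn (fun z : β → ℂ => evf s z g) (Metric.ball (0 : β → ℂ) r) := by
  unfold evf
  refine continuousOn_tsum (u := fun i : β →₀ ℕ => ‖s (MvPowerSeries.coeff i g)‖ *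
    r ^ i.degree) (fun i => ?_) hg fun i z hz => ?_
  · refine Continuous.continuousOn ?_
    exact continuous_const.mul (continuous_finsetProd _ fun b _ => (continuous_apply b).pow _)
  · rw [Metric.mem_ball, dist_zero_right] at hz
    rw [norm_mul, norm_prod]
    refine mul_le_mul_of_nonneg_left ?_ (norm_nonneg _)
    rw [Finsupp.degree_eq_sum, ← Finset.prod_pow_eq_pow_sum]
    refine Finset.prod_le_prod (fun c _ => norm_nonneg _) fun c _ => ?_
    rw [norm_pow]
    exact pow_le_pow_left₀ (norm_nonneg _) ((norm_le_pi_norm z c).trans hz.le) _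

/-- **Strict differentiability at a point of the open polydisc.**

Proof. Compare `LSharp/TSDiff.lean` (the point `0`). For the monomial `m_i(z) = ∏ b, z b^(i b)` and `‖z‖, ‖z'‖ ≤ r`:
`‖m_i(z) - m_i(z') - ∑ b, i b * m_(i - single b 1)(z0) * (z b - z' b)‖ ≤ |i|^2 r^(|i| - 2) * max(‖z - z0‖, ‖z' - z0‖) * ‖z - z'‖`
(for `|i| ≤ 1` it is `0`), `‖z0‖ ≤ r` too: induction on `|i|` as in `TSDiff.ts_diff`, or: `m_i` is a polynomial, apply the mean
value inequality to `m_i - (linear part)` on the convex ball of radius `max(‖z - z0‖, ‖z' - z0‖)` around `z0`. Fix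
`‖z0‖ < r < ρ`. The sum of `‖coeff i f‖ |i|^2 r^(|i| - 2)` is finite (`C`), so
`‖evf z f - evf z' f - L (z - z')‖ ≤ C * max(‖z - z0‖, ‖z' - z0‖) * ‖z - z'‖` with
`L w = ∑ b, w b * ∑' i, i b * coeff i f * m_(i - single b 1)(z0)`, and the inner sum is `evf s z0 (pderiv b f)` (reindex
`i = i' + single b 1`). This gives `HasStrictFDerivAt` (`isLittleO`). -/
theorem evf_strict_at [DecidableEq β] (s : K →+* ℂ) {ρ : ℝ} {f : MvPowerSeries β K}
    (hf : Cv s ρ f) (z0 : β → ℂ) (hz : ‖z0‖ < ρ) :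
    HasStrictFDerivAt (fun z : β → ℂ => evf s z f)
      (∑ b, evf s z0 (MvPowerSeries.pderiv K b f) •
        (ContinuousLinearMap.proj b : (β → ℂ) →L[ℂ] ℂ)) z0 := by
  obtain ⟨r, hr1, hr2⟩ := exists_between hz
  have hr0 : 0 < r := (norm_nonneg z0).trans_lt hr1
  have hball : ∀ z : β → ℂ, z ∈ Metric.ball (0 : β → ℂ) r → ‖z‖ < r := by
    intro z hz
    rwa [Metric.mem_ball, dist_zero_right] at hz
  have hmem : z0 ∈ Metric.ball (0 : β → ℂ) r := by
    rwa [Metric.mem_ball, dist_zero_right]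
  refine hasStrictFDerivAt_of_hasFDerivAt_of_continuousAt
    (f' := fun z : β → ℂ => ∑ b, evf s z (MvPowerSeries.pderiv K b f) •
      (ContinuousLinearMap.proj b : (β → ℂ) →L[ℂ] ℂ)) ?_ ?_
  · filter_upwards [Metric.isOpen_ball.mem_nhds hmem] with z hz'
    have h1 := hasFDerivAt_tsum_of_isPreconnected
      (f := fun (i : β →₀ ℕ) (y : β → ℂ) => s (MvPowerSeries.coeff i f) * ∏ b, y b ^ i b)
      (f' := fun (i : β →₀ ℕ) (y : β → ℂ) => ∑ b, tg s f b i y •
        (ContinuousLinearMap.proj b : (β → ℂ) →L[ℂ] ℂ))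
      (u := fun i : β →₀ ℕ => (Fintype.card β : ℝ) * (1 / (ρ - r)) *
        (‖s (MvPowerSeries.coeff i f)‖ * ρ ^ i.degree))
      (hf.mul_left _) Metric.isOpen_ball (convex_ball (0 : β → ℂ) r).isPreconnected
      (fun i y _ => tst_term s f i y)
      (fun i y hy => tst_bound s f hr0.le hr2 i (hball y hy).le)
      hz' (evf_summable s hf fun b => (norm_le_pi_norm z b).trans ((hball z hz').le.trans
        hr2.le)).of_norm hz'
    have h2 : ∑' i : β →₀ ℕ, ∑ b, tg s f b i z •
        (ContinuousLinearMap.proj b : (β → ℂ) →L[ℂ] ℂ) =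
        ∑ b, evf s z (MvPowerSeries.pderiv K b f) •
          (ContinuousLinearMap.proj b : (β → ℂ) →L[ℂ] ℂ) :=
      (hasSum_sum fun b _ => (tst_hasSum s hf ((hball z hz').trans hr2) b).smul_const _).tsum_eq
    rw [h2] at h1
    exact h1
  · refine tendsto_finsetSum _ fun b _ => ?_
    have h1 := tst_cont s (cv_pderiv s hr0.le hr2 hf b)
    exact ((h1.continuousAt (Metric.isOpen_ball.mem_nhds hmem)).smul continuousAt_const)

end

end Pool.Agent.Zilber
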