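import Pool.Agent.Zilber.CHEvl
import Pool.Agent.Zilber.TStrict

set_option autoImplicit false

/-! CH1. Convergent power series as functions: derivatives, the class `C²`. -/

namespace Pool.Agent.Zilber

open MvPolynomial Pool.Agent.LSharp

variable {β : Type} [Fintype β] [DecidableEq β]

/-- `ex0` does not increase the norm. -/
theorem norm_ex0 (p : β → Prop) [DecidablePred p] (y : {b // p b} → ℂ) : ‖ex0 p y‖ ≤ ‖y‖ := by
  refine (pi_norm_le_iff_of_nonneg (norm_nonneg y)).2 fun b => ?_
  unfold ex0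
  split_ifs with h
  · exact norm_le_pi_norm y _
  · rw [norm_zero]
    exact norm_nonneg y

/-- The series which converge absolutely on some polydisc of radius larger than `r`.

Closed under products: `cv_mul` with the minimum of the two radii (`cv_mono`). -/
noncomputable def Sr (β : Type) [Fintype β] (r : ℝ) : Subring (MvPowerSeries β ℂ) where
  carrier := {f | ∃ ρ : ℝ, 0 < ρ ∧ r < ρ ∧ Cv (RingHom.id ℂ) ρ f}
  mul_mem' := by
    rintro a b ⟨ρ, h0, h1, h2⟩ ⟨ρ', h0', h1', h2'⟩
    exact ⟨min ρ ρ', lt_min h0 h0', lt_min h1 h1',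
      cv_mul _ (lt_min h0 h0').le (cv_mono _ (lt_min h0 h0').le (min_le_left _ _) h2)
        (cv_mono _ (lt_min h0 h0').le (min_le_right _ _) h2')⟩
  add_mem' := by
    rintro a b ⟨ρ, h0, h1, h2⟩ ⟨ρ', h0', h1', h2'⟩
    exact ⟨min ρ ρ', lt_min h0 h0', lt_min h1 h1',
      cv_add _ (lt_min h0 h0').le (cv_mono _ (lt_min h0 h0').le (min_le_left _ _) h2)
        (cv_mono _ (lt_min h0 h0').le (min_le_right _ _) h2')⟩
  one_mem' := ⟨max r 0 + 1, by positivity, by linarith [le_max_left r 0], by
    have := cv_C (β := β) (RingHom.id ℂ) (max r 0 + 1) 1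
    rwa [map_one] at this⟩
  zero_mem' := ⟨max r 0 + 1, by positivity, by linarith [le_max_left r 0], by
    have := cv_C (β := β) (RingHom.id ℂ) (max r 0 + 1) 0
    rwa [map_zero] at this⟩
  neg_mem' := by
    rintro a ⟨ρ, h0, h1, h2⟩
    refine ⟨ρ, h0, h1, ?_⟩
    unfold Cv at h2 ⊢
    simpa using h2

/-- `cv_pderiv` with a radius between `r` and `ρ` (positive). -/
theorem sr_pderiv {r : ℝ} {f : MvPowerSeries β ℂ} (hf : f ∈ Sr β r) (b : β) :
    MvPowerSeries.pderiv ℂ b f ∈ Sr β r := by
  obtain ⟨ρ, h0, h1, h2⟩ := hf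
  obtain ⟨ρ', h3, h4⟩ := exists_between (max_lt h1 h0)
  exact ⟨ρ', (le_max_right _ _).trans_lt h3, (le_max_left _ _).trans_lt h3,
    cv_pderiv _ ((le_max_right _ _).trans_lt h3).le h4 h2 b⟩

/-- `ex0` as a continuous linear map. -/
private noncomputable def exL (p : β → Prop) [DecidablePred p] :
    ({b // p b} → ℂ) →L[ℂ] (β → ℂ) :=
  ContinuousLinearMap.pi fun b =>
    if h : p b then (ContinuousLinearMap.proj ⟨b, h⟩ : ({b // p b} → ℂ) →L[ℂ] ℂ) else 0

private theorem exL_apply (p : β → Prop) [DecidablePred p] (y : {b // p b} → ℂ) :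
    exL p y = ex0 p y := by
  funext b
  unfold exL ex0
  rw [ContinuousLinearMap.pi_apply]
  split_ifs with h
  · rfl
  · rfl

private theorem sum_ex0 (p : β → Prop) [DecidablePred p] (c : β → ℂ) (w : {b // p b} → ℂ) :
    ∑ b, c b * ex0 p w b = ∑ b : {b // p b}, c b * w b := by
  have h1 : ∑ b, c b * ex0 p w b = ∑ b ∈ Finset.univ.filter p, c b * ex0 p w b := by
    refine (Finset.sum_filter_of_ne fun b _ h => ?_).symm
    by_contra h2
    apply h
    unfold ex0
    rw [dif_neg h2, mul_zero]
  rw [h1, Finset.sum_subtype (Finset.univ.filter p) (p := p) (by simp)]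
  refine Finset.sum_congr rfl fun b _ => ?_
  unfold ex0
  rw [dif_pos b.2]

/-- The derivative of `y ↦ ev0 p y f`: composition of `evf_strict_at` with the linear map `ex0`
(`HasFDerivAt.comp`; `ex0` as a continuous linear map: `ContinuousLinearMap.pi` of projections and
`0`). -/
theorem ev0_fderiv {r : ℝ} (p : β → Prop) [DecidablePred p] {f : MvPowerSeries β ℂ}
    (hf : f ∈ Sr β r) (y : {b // p b} → ℂ) (hy : y ∈ Metric.ball (0 : {b // p b} → ℂ) r) :
    HasFDerivAt (fun y : {b // p b} → ℂ => ev0 p y f)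
      (∑ b : {b // p b}, ev0 p y (MvPowerSeries.pderiv ℂ (b : β) f) •
        (ContinuousLinearMap.proj b : ({b // p b} → ℂ) →L[ℂ] ℂ)) y := by
  obtain ⟨ρ, h0, h1, h2⟩ := hf
  rw [Metric.mem_ball, dist_zero_right] at hy
  have h3 : ‖exL p y‖ < ρ := by
    rw [exL_apply]
    exact (norm_ex0 p y).trans_lt (hy.trans h1)
  have h4 := (evf_strict_at (RingHom.id ℂ) h2 (exL p y) h3).hasFDerivAt.comp y
    (exL p).hasFDerivAt
  have h5 : (fun z : β → ℂ => evf (RingHom.id ℂ) z f) ∘ (exL p) = fun y => ev0 p y f := by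
    funext z
    simp only [Function.comp, ev0, exL_apply]
  rw [h5] at h4
  refine h4.congr_fderiv ?_
  refine ContinuousLinearMap.ext fun w => ?_
  rw [ContinuousLinearMap.comp_apply, sum_apply, sum_apply]
  simp only [ContinuousLinearMap.smul_apply, ContinuousLinearMap.proj_apply, smul_eq_mul,
    exL_apply]
  exact sum_ex0 p _ w

/-- The class `C²`: by `ev0_fderiv` the derivative on the ball is the combination of the functions
`y ↦ ev0 p y (pderiv b f)`, which are again differentiable, with continuous derivatives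
(`sr_pderiv` twice); `contDiffOn_succ_iff_fderiv_of_isOpen` twice (or prove `ContDiffOn ℂ n` for
every natural `n` by induction). -/
theorem ev0_contDiffOn {r : ℝ} (p : β → Prop) [DecidablePred p] {f : MvPowerSeries β ℂ}
    (hf : f ∈ Sr β r) : ContDiffOn ℂ 2 (fun y : {b // p b} → ℂ => ev0 p y f) (Metric.ball 0 r) := by
  have key : ∀ n : ℕ, ∀ f : MvPowerSeries β ℂ, f ∈ Sr β r →
      ContDiffOn ℂ n (fun y : {b // p b} → ℂ => ev0 p y f) (Metric.ball 0 r) := by
    intro n
    induction n with
    | zero =>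
      intro f hf
      rw [Nat.cast_zero, contDiffOn_zero]
      exact fun y hy => (ev0_fderiv p hf y hy).continuousAt.continuousWithinAt
    | succ n ih =>
      intro f hf
      rw [Nat.cast_succ, contDiffOn_succ_iff_fderiv_of_isOpen Metric.isOpen_ball]
      refine ⟨fun y hy => (ev0_fderiv p hf y hy).differentiableAt.differentiableWithinAt,
        fun h => absurd h (by simp), ?_⟩
      have h1 : ContDiffOn ℂ n (fun y : {b // p b} → ℂ =>
          ∑ b : {b // p b}, ev0 p y (MvPowerSeries.pderiv ℂ (b : β) f) •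
            (ContinuousLinearMap.proj b : ({b // p b} → ℂ) →L[ℂ] ℂ)) (Metric.ball 0 r) :=
        ContDiffOn.sum fun b _ => (ih _ (sr_pderiv hf b)).smul contDiffOn_const
      exact h1.congr fun y hy => (ev0_fderiv p hf y hy).fderiv
  exact key 2 f hf

end Pool.Agent.Zilber
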