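import Mathlib

set_option autoImplicit false

/-! CH3. Commutative algebra: prime ideals of the right dimension are minimal. -/

namespace Pool.Agent.Zilber

open MvPolynomial

/-- A ring homomorphism from a domain `A` which is algebraic over a subring `R` is injective if it
is injective on `R`: for `a ≠ 0` there is a relation `r_0 + r_1 a + .. + r_n a^n = 0` with `r_0 ≠ 0`
(divide by a power of `a`), so `r_0 = a * a'`, `0 ≠ φ r_0 = φ a * φ a'`. -/
theorem inj_of_alg {R A B : Type} [CommRing R] [CommRing A] [IsDomain A] [CommRing B] [IsDomain B]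
    [Algebra R A] (halg : ∀ a : A, IsAlgebraic R a) (φ : A →+* B)
    (hφ : Function.Injective (φ.comp (algebraMap R A))) : Function.Injective φ := by
  rw [injective_iff_map_eq_zero]
  intro a ha
  by_contra hne
  obtain ⟨r, hr, a', h⟩ := (halg a).exists_nonzero_dvd (mem_nonZeroDivisors_of_ne_zero hne)
  apply hr
  apply hφ
  rw [map_zero, RingHom.comp_apply, h, map_mul, ha, zero_mul]

/-- **Primes of the right dimension are minimal.** `I ≥ J₀` prime; modulo `I` the variables
`X (e a)`, `a : A`, are independent over `F`, and for every `i` the ideal `J₀` contains a relation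
`P i (X_e, X_i)` with `P i ≠ 0`. Then `I` is a minimal prime over `J₀`.

Proof. Let `J₀ ≤ 𝔭 ≤ I` be prime. In the domain `MvPolynomial ι F ⧸ 𝔭` the classes of the `X (e a)`
are independent over `F` (they are modulo `I`), so the polynomial `P i` with coefficients in the
subring `R` generated by `F` and these classes is not zero, and the class of `X i` is algebraic over
`R`. So everything is algebraic over `R` (`IsAlgebraic` is closed under sums and products over a
domain), and the homomorphism `MvPolynomial ι F ⧸ 𝔭 → MvPolynomial ι F ⧸ I` is injective on `R`, so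
injective by `inj_of_alg`: `𝔭 = I`. -/
theorem mem_minimalPrimes {F ι A : Type} [Field F] (J₀ I : Ideal (MvPolynomial ι F))
    (hI : I.IsPrime) (hle : J₀ ≤ I) (e : A → ι)
    (hind : ∀ Q : MvPolynomial A F, aeval (fun a => (X (e a) : MvPolynomial ι F)) Q ∈ I → Q = 0)
    (halg : ∀ i, ∃ P : Polynomial (MvPolynomial A F), P ≠ 0 ∧
      P.eval₂ (aeval (fun a => (X (e a) : MvPolynomial ι F)) :
        MvPolynomial A F →ₐ[F] MvPolynomial ι F).toRingHom (X i) ∈ J₀) :
    I ∈ J₀.minimalPrimes := by
  refine ⟨⟨hI, hle⟩, ?_⟩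
  rintro p ⟨hp, hJp⟩ hpI
  let f : MvPolynomial A F →+* MvPolynomial ι F :=
    (aeval (fun a => (X (e a) : MvPolynomial ι F)) :
      MvPolynomial A F →ₐ[F] MvPolynomial ι F).toRingHom
  letI : Algebra (MvPolynomial A F) (MvPolynomial ι F ⧸ p) :=
    ((Ideal.Quotient.mk p).comp f).toAlgebra
  have hmap : ∀ r, algebraMap (MvPolynomial A F) (MvPolynomial ι F ⧸ p) r =
      Ideal.Quotient.mk p (f r) := fun _ => rfl
  haveI : IsDomain (MvPolynomial ι F ⧸ p) := Ideal.Quotient.isDomain p
  haveI : IsDomain (MvPolynomial ι F ⧸ I) := Ideal.Quotient.isDomain I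
  have hX : ∀ i, IsAlgebraic (MvPolynomial A F)
      (Ideal.Quotient.mk p (X i : MvPolynomial ι F)) := by
    intro i
    obtain ⟨P, hP, hP'⟩ := halg i
    refine ⟨P, hP, ?_⟩
    rw [Polynomial.aeval_def]
    have h1 : Polynomial.eval₂ (algebraMap (MvPolynomial A F) (MvPolynomial ι F ⧸ p))
        (Ideal.Quotient.mk p (X i)) P = Ideal.Quotient.mk p (P.eval₂ f (X i)) :=
      (Polynomial.hom_eval₂ P f (Ideal.Quotient.mk p) (X i)).symm
    rw [h1, Ideal.Quotient.eq_zero_iff_mem]
    exact hJp hP'
  have hall : ∀ x : MvPolynomial ι F ⧸ p, IsAlgebraic (MvPolynomial A F) x := by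
    intro x
    obtain ⟨q, rfl⟩ := Ideal.Quotient.mk_surjective x
    induction q using MvPolynomial.induction_on with
    | C c =>
      have h1 : Ideal.Quotient.mk p (C c : MvPolynomial ι F) =
          algebraMap (MvPolynomial A F) (MvPolynomial ι F ⧸ p) (C c) := by
        rw [hmap]
        congr 1
        exact (MvPolynomial.aeval_C (fun a => (X (e a) : MvPolynomial ι F)) c).symm
      rw [h1]
      exact isAlgebraic_algebraMap _
    | add q r hq hr =>
      rw [map_add]
      exact hq.add hr
    | mul_X q i hq =>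
      rw [map_mul]
      exact hq.mul (hX i)
  have hinj : Function.Injective (Ideal.Quotient.factor hpI) := by
    refine inj_of_alg (R := MvPolynomial A F) hall _ ?_
    rw [injective_iff_map_eq_zero]
    intro Q hQ
    apply hind Q
    have h1 : Ideal.Quotient.mk I (f Q) = 0 := hQ
    rw [Ideal.Quotient.eq_zero_iff_mem] at h1
    exact h1
  intro x hx
  have h1 : Ideal.Quotient.factor hpI (Ideal.Quotient.mk p x) = 0 := by
    rw [Ideal.Quotient.factor_mk]
    exact Ideal.Quotient.eq_zero_iff_mem.2 hx
  rw [← map_zero (Ideal.Quotient.factor hpI)] at h1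
  exact Ideal.Quotient.eq_zero_iff_mem.1 (hinj h1)

end Pool.Agent.Zilber
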