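import Pool.Agent.LSharp.BRBound
import Pool.Agent.Zilber.TDefs

set_option autoImplicit false

/-! T: the branch of a configuration satisfies the hypotheses of the level theorems. -/

namespace Pool.Agent.Zilber

open Filter NumberField Module MvPolynomial Pool.Agent.LAll Pool.Agent.LSharp Pool.Agent.CITLines

variable {J : Type} {𝒰 : Ultrafilter J} {K : J → Type} [∀ j, Field (K j)] [∀ j, NumberField (K j)]
  {k : ℕ} {s : Fin (k + 1) → J → ℝ} {F : Fin (k + 1) → Subfield (Ult 𝒰 K)} {ι β : Type} [Fintype ι]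
  [Fintype β] [DecidableEq β] {cl : ι → Fin (k + 1)} {x : ι → Ult 𝒰 K} {bs : β → ι}
  {X : ι → Ult 𝒰 (PS β K)}

/-- **Convergence of the branch**, at every embedding.

Proof. Let `l = cl i` and `L, τ` as in `hX.ex l`. `branch_bounds` for `k = F l`, `s = s l`, `A = {b | cl (bs b) = l}`,
`t b = x (bs b)` (`hF`, `hc.hgt`, `hc.ind`, `hc.alg`; the sets `{y | ∃ b, ..}` and `t '' A` agree) and the element
`⟨x i, _⟩` of `L`: for most `j` and `S = ∅`: `lam v (coeff n ((τ x_i).rep j)) ≤ lam v (x_i.rep j) + |n| Q v`; `growth`. -/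
theorem conf_growth (hc : Conf 𝒰 K s F cl x bs) (hX : Br 𝒰 K F cl x bs X)
    (hF : ∀ l, F l ≤ Lf 𝒰 K (s l)) (i : ι) :
    ∀ᶠ j in (𝒰 : Filter J), ∀ σ : K j →+* ℂ, ∃ C : ℝ, ∀ n : β →₀ ℕ,
      ‖σ (MvPowerSeries.coeff n ((X i).rep j))‖ ≤ C ^ (n.degree + 1) := by
  obtain ⟨L, τ, hFL, hxL, halgL, h1, h2, h3, h4, h5⟩ := hX.ex (cl i)
  set A : Finset β := Finset.univ.filter fun b => cl (bs b) = cl i with hA
  have hmA : ∀ b, b ∈ A ↔ cl (bs b) = cl i := fun b => by rw [hA]; simp
  have hset : ((fun b => x (bs b)) '' (A : Set β)) =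
      {y | ∃ b, cl (bs b) = cl i ∧ y = x (bs b)} := by
    ext y
    constructor
    · rintro ⟨b, hb, rfl⟩
      exact ⟨b, (hmA b).1 hb, rfl⟩
    · rintro ⟨b, hb, rfl⟩
      exact ⟨b, (hmA b).2 hb, rfl⟩
  have halg : IsAlgebraic (Algebra.adjoin (F (cl i)) ((fun b => x (bs b)) '' (A : Set β)))
      (x i) := by
    rw [hset]
    exact hc.alg i
  have hind : AlgebraicIndependent (F (cl i)) (fun b : {b // b ∈ A} => x (bs b)) :=
    (hc.ind (cl i)).comp (fun b : {b // b ∈ A} => (⟨b, (hmA b).1 b.2⟩ : {b // cl (bs b) = cl i}))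
      fun b b' h => Subtype.ext (by simpa using congrArg Subtype.val h)
  obtain ⟨C, hC⟩ := branch_bounds (F (cl i)) (s (cl i)) (hF (cl i)) A (fun b => x (bs b))
    (fun b hb => by
      have := hc.hgt (bs b)
      rwa [(hmA b).1 hb] at this) hind L τ hFL (fun b hb => hxL (bs b) ((hmA b).1 hb)) h1 h2
    (fun b hb => h3 b ((hmA b).1 hb)) ⟨x i, hxL i rfl⟩ (hc.hgt i)
    (fun h => hc.ne i (congrArg Subtype.val h)) halg
  have hXi : X i = τ ⟨x i, hxL i rfl⟩ := h5 i rfl _ rfl
  filter_upwards [hC] with j hj σ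
  obtain ⟨Q, hQ0, hQs, hQ⟩ := hj.1 ∅
  rw [hXi]
  exact growth β (K j) _ (fun v => lam (S := (∅ : Finset (FinitePlace (K j)))) (Sum.inl v)
    ((x i).rep j)) (fun v => Q (Sum.inl v)) (fun v n hn => hQ (Sum.inl v) n hn) σ

omit [∀ j, NumberField (K j)] [Fintype β] [DecidableEq β] in
/-- A relation with coefficients in a subfield holds for the representatives. -/
private theorem tconf_rep {γ : Type} (k₀ : Subfield (Ult 𝒰 K)) (P : MvPolynomial γ k₀)
    (Y : γ → Ult 𝒰 (PS β K))
    (h : MvPolynomial.eval₂ ((LSharp.cst β K).comp k₀.subtype) Y P = 0) :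
    ∀ᶠ j in (𝒰 : Filter J), aeval (fun o => (Y o).rep j)
      (∑ m ∈ P.support, monomial m (((P.coeff m : k₀) : Ult 𝒰 K).rep j)) = 0 := by
  have h1 : MvPolynomial.eval₂ ((LSharp.cst β K).comp k₀.subtype) Y P =
      Ult.mk 𝒰 (PS β K) (∑ m ∈ P.support,
        (fun j => (MvPowerSeries.C (((P.coeff m : k₀) : Ult 𝒰 K).rep j) : MvPowerSeries β (K j))) *
          ∏ o ∈ m.support, (Y o).rep ^ m o) := by
    rw [MvPolynomial.eval₂_eq, map_sum]
    refine Finset.sum_congr rfl fun m _ => ?_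
    rw [map_mul, map_prod]
    congr 1
    · change LSharp.cst β K ((P.coeff m : k₀) : Ult 𝒰 K) = _
      conv_lhs => rw [← Ult.mk_rep ((P.coeff m : k₀) : Ult 𝒰 K)]
      rfl
    · refine Finset.prod_congr rfl fun o _ => ?_
      rw [map_pow, Ult.mk_rep]
  rw [h1, Ult.mk_eq_zero] at h
  filter_upwards [h] with j hj
  rw [Finset.sum_apply] at hj
  rw [map_sum, ← hj]
  refine Finset.sum_congr rfl fun m _ => ?_
  rw [aeval_monomial, Pi.mul_apply, Finset.prod_apply, MvPowerSeries.algebraMap_apply,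
    Algebra.algebraMap_self, RingHom.id_apply]
  rfl

/-- **Relations of bounded degree on the branch.**

Proof. Let `l = cl i`, `β' = {b // cl (bs b) = l}`. By `hc.alg` and `hc.ind` there is a polynomial `p ≠ 0` in the variables
`Option β'` with coefficients in `F l` and `p(x i, x (bs b)) = 0` (a nonzero polynomial in `none` over the ring generated
by the `x (bs b)`, lifted coefficientwise; see `exists_poly`, private in `LSharp/BRBound.lean`). Apply `τ` of `hX.ex l`:
`p^c(X i, X (bs b)) = 0` where `p^c` has the coefficients `cst c` (`τ c = cst c` for `c ∈ F l`). For most `j` the relation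
holds for the representatives, with the coefficients `c.rep j` (finitely many, `Ult.mk_eq_zero`), and one of them is
not `0`. Let `p_j` be this polynomial, in the variables `Option β` (rename): totalDegree `≤ totalDegree p =: D`. -/
theorem conf_rel (hc : Conf 𝒰 K s F cl x bs) (hX : Br 𝒰 K F cl x bs X) (i : ι) :
    ∃ D : ℕ, ∀ᶠ j in (𝒰 : Filter J), ∃ p : MvPolynomial (Option β) (K j), p ≠ 0 ∧
      p.totalDegree ≤ D ∧ (∀ b, some b ∈ p.vars → cl (bs b) = cl i) ∧
      aeval (fun o : Option β => o.elim ((X i).rep j) (fun b => (X (bs b)).rep j)) p = 0 := by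
  classical
  obtain ⟨L, τ, hFL, hxL, halgL, h1, h2, h3, h4, h5⟩ := hX.ex (cl i)
  set β' : Type := {b : β // cl (bs b) = cl i} with hβ'
  set R₀ := Algebra.adjoin (F (cl i)) {y | ∃ b, cl (bs b) = cl i ∧ y = x (bs b)} with hR₀
  obtain ⟨p, hp, hpx⟩ := hc.alg i
  -- lift to a polynomial over the polynomial ring
  set e : MvPolynomial β' (F (cl i)) →+* Ult 𝒰 K :=
    MvPolynomial.eval₂Hom (F (cl i)).subtype fun b : β' => x (bs b) with he
  have hsurj : ∀ c : R₀, ∃ f : MvPolynomial β' (F (cl i)), e f = c := by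
    intro c
    have hc' : (c : Ult 𝒰 K) ∈ Algebra.adjoin (F (cl i)) (Set.range fun b : β' => x (bs b)) := by
      have h1 : (Set.range fun b : β' => x (bs b)) =
          {y | ∃ b, cl (bs b) = cl i ∧ y = x (bs b)} := by
        ext z
        constructor
        · rintro ⟨b, rfl⟩
          exact ⟨b, b.2, rfl⟩
        · rintro ⟨b, hb, rfl⟩
          exact ⟨⟨b, hb⟩, rfl⟩
      rw [h1]
      exact c.2
    rw [Algebra.adjoin_range_eq_range_aeval] at hc'
    obtain ⟨f, hf⟩ := hc'
    exact ⟨f, hf⟩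
  have hlift : p.map (algebraMap R₀ (Ult 𝒰 K)) ∈ Polynomial.lifts e := by
    rw [Polynomial.lifts_iff_coeff_lifts]
    intro n
    rw [Polynomial.coeff_map]
    obtain ⟨f, hf⟩ := hsurj (p.coeff n)
    exact ⟨f, hf⟩
  obtain ⟨Q, hQ⟩ := (Polynomial.mem_lifts _).1 hlift
  have hQ0 : Q ≠ 0 := by
    rintro rfl
    rw [Polynomial.map_zero] at hQ
    exact hp ((Polynomial.map_eq_zero_iff (Subtype.val_injective :
      Function.Injective (algebraMap R₀ (Ult 𝒰 K)))).1 hQ.symm)
  have hQx : Q.eval₂ e (x i) = 0 := by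
    rw [← Polynomial.eval_map, hQ, Polynomial.eval_map]
    exact hpx
  -- as a polynomial in `Option β'`
  set P : MvPolynomial (Option β') (F (cl i)) := (optionEquivLeft (F (cl i)) β').symm Q with hP
  have hP0 : P ≠ 0 := by
    rw [hP]
    intro h
    exact hQ0 ((map_eq_zero_iff _ (optionEquivLeft (F (cl i)) β').symm.injective).1 h)
  have hQP : optionEquivLeft (F (cl i)) β' P = Q := by rw [hP, AlgEquiv.apply_symm_apply]
  -- in `L`
  set eL : MvPolynomial (Option β') (F (cl i)) →+* L :=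
    MvPolynomial.eval₂Hom (Subfield.inclusion hFL) fun o : Option β' =>
      o.elim ⟨x i, hxL i rfl⟩ (fun b => ⟨x (bs b), hxL _ b.2⟩) with heL
  have hcomp : L.subtype.comp eL = (Polynomial.eval₂RingHom e (x i)).comp
      (optionEquivLeft (F (cl i)) β' : MvPolynomial (Option β') (F (cl i)) →+*
        Polynomial (MvPolynomial β' (F (cl i)))) := by
    refine MvPolynomial.ringHom_ext (fun c => ?_) (fun o => ?_)
    · simp [he, heL, optionEquivLeft_C]
      rfl
    · rcases o with _ | b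
      · simp [he, heL]
      · simp [he, heL]
  have hPL : eL P = 0 := by
    apply Subtype.ext
    have := congrArg (fun f => f P) hcomp
    simp only [RingHom.comp_apply] at this
    change L.subtype (eL P) = 0
    rw [this]
    change Polynomial.eval₂ e (x i) (optionEquivLeft (F (cl i)) β' P) = 0
    rw [hQP, hQx]
  -- apply `τ`
  set Y : Option β' → Ult 𝒰 (PS β K) := fun o => o.elim (X i) fun b => X (bs b) with hY
  have hτ : MvPolynomial.eval₂Hom ((cst β K).comp (F (cl i)).subtype) Y = τ.comp eL := by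
    refine MvPolynomial.ringHom_ext (fun c => ?_) (fun o => ?_)
    · simp only [heL, RingHom.comp_apply, MvPolynomial.eval₂Hom_C]
      rw [h2 _ (by exact c.2)]
      rfl
    · simp only [heL, RingHom.comp_apply, MvPolynomial.eval₂Hom_X']
      rcases o with _ | b
      · exact h5 i rfl _ rfl
      · exact h5 (bs b) b.2 _ rfl
  have hrel : MvPolynomial.eval₂ ((cst β K).comp (F (cl i)).subtype) Y P = 0 := by
    have := congrArg (fun f => f P) hτ
    simp only [RingHom.comp_apply, hPL, map_zero] at this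
    exact this
  obtain ⟨m₀, hm₀⟩ := MvPolynomial.support_nonempty.2 hP0
  have hc0 : ((P.coeff m₀ : F (cl i)) : Ult 𝒰 K) ≠ 0 := fun h =>
    MvPolynomial.mem_support_iff.1 hm₀ (Subtype.ext h)
  refine ⟨P.totalDegree, ?_⟩
  filter_upwards [tconf_rep (F (cl i)) P Y hrel, Ult.rep_ne_zero hc0] with j hj hj0
  set q : MvPolynomial (Option β') (K j) :=
    ∑ m ∈ P.support, monomial m (((P.coeff m : F (cl i)) : Ult 𝒰 K).rep j) with hq
  have hg : Function.Injective (Option.map (Subtype.val : β' → β)) :=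
    Option.map_injective Subtype.val_injective
  have hqc : q.coeff m₀ = ((P.coeff m₀ : F (cl i)) : Ult 𝒰 K).rep j := by
    rw [hq, MvPolynomial.coeff_sum]
    simp only [MvPolynomial.coeff_monomial]
    rw [Finset.sum_ite_eq' P.support m₀, if_pos hm₀]
  have hq0 : q ≠ 0 := by
    intro h
    rw [h, MvPolynomial.coeff_zero] at hqc
    exact hj0 hqc.symm
  refine ⟨rename (Option.map Subtype.val) q, ?_, ?_, ?_, ?_⟩
  · intro h
    exact hq0 ((map_eq_zero_iff _ (rename_injective _ hg)).1 h)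
  · refine (totalDegree_rename_le _ _).trans ?_
    rw [hq]
    refine totalDegree_finsetSum_le fun m hm => ?_
    refine (totalDegree_monomial_le _ _).trans ?_
    exact le_totalDegree hm
  · intro b hb
    have h := MvPolynomial.vars_rename (Option.map (Subtype.val : β' → β)) q hb
    rw [Finset.mem_image] at h
    obtain ⟨o, _, ho⟩ := h
    rcases o with _ | b'
    · simp at ho
    · rw [Option.map_some, Option.some.injEq] at ho
      rw [← ho]
      exact b'.2
  · rw [aeval_rename, ← hj]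
    congr 2
    funext o
    rcases o with _ | b
    · rfl
    · rfl

omit [Fintype ι] [∀ j, NumberField (K j)] [Fintype β] [DecidableEq β] in
private theorem tconf_eps0 (y : Ult 𝒰 (PS β K)) :
    ∀ᶠ j in (𝒰 : Filter J), (eps0 β K y).rep j = MvPowerSeries.constantCoeff (y.rep j) :=
  Ult.map_rep _ y

/-- **The branch of a configuration satisfies `LX` at most levels.**

Proof. `h1`: `X (bs b) = cst (x (bs b)) + XU b` (`hX.ex (cl (bs b))`), so for most `j` `(X (bs b)).rep j = C c + X b`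
(`Ult.mk_eq_mk`, `Ult.rep_mk`) and its constant coefficient is `c`. `h2`: `conf_rel`, `D` = the maximum over `i`. `h3`:
`conf_growth` (the constants `C` for the finitely many `i`: take the maximum of the `|C| + 1`). `h4`: `hX.ex`. `g`:
`eps0 (X i) = x i ≠ 0` (`Ult.rep_ne_zero`; `constantCoeff ((X i).rep j) = (x i).rep j` for most `j`). Finite
conjunctions: `Filter.eventually_all`. -/
theorem conf_LX (hc : Conf 𝒰 K s F cl x bs) (hX : Br 𝒰 K F cl x bs X)
    (hF : ∀ l, F l ≤ Lf 𝒰 K (s l)) :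
    ∃ D : ℕ, ∀ᶠ j in (𝒰 : Filter J), LX (K j) (fun i => (X i).rep j) bs cl D := by
  choose D hD using fun i => conf_rel hc hX i
  have e1 : ∀ᶠ j in (𝒰 : Filter J), ∀ b, (X (bs b)).rep j =
      MvPowerSeries.C (MvPowerSeries.constantCoeff ((X (bs b)).rep j)) + MvPowerSeries.X b := by
    rw [Filter.eventually_all]
    intro b
    obtain ⟨L, τ, hFL, hxL, halgL, h1, h2, h3, h4, h5⟩ := hX.ex (cl (bs b))
    have hXb : X (bs b) = cst β K (x (bs b)) + XU K b :=
      (h5 (bs b) rfl ⟨x (bs b), hxL _ rfl⟩ rfl).trans (h3 b rfl _ rfl)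
    have h6 : X (bs b) = Ult.mk 𝒰 (PS β K) (fun j =>
        (MvPowerSeries.C ((x (bs b)).rep j) + MvPowerSeries.X b : MvPowerSeries β (K j))) := by
      rw [hXb]
      have h7 : cst β K (x (bs b)) =
          Ult.mk 𝒰 (PS β K) (fun j => MvPowerSeries.C ((x (bs b)).rep j)) := by
        conv_lhs => rw [← Ult.mk_rep (x (bs b))]
        rfl
      rw [h7]
      rfl
    have h8 := Ult.rep_mk (𝒰 := 𝒰) (fun j =>
        (MvPowerSeries.C ((x (bs b)).rep j) + MvPowerSeries.X b : MvPowerSeries β (K j)))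
    rw [← h6] at h8
    filter_upwards [h8] with j hj
    rw [hj, map_add, MvPowerSeries.constantCoeff_C, MvPowerSeries.constantCoeff_X, add_zero]
  have e2 : ∀ᶠ j in (𝒰 : Filter J), ∀ i, ∃ p : MvPolynomial (Option β) (K j), p ≠ 0 ∧
      p.totalDegree ≤ D i ∧ (∀ b, some b ∈ p.vars → cl (bs b) = cl i) ∧
      aeval (fun o : Option β => o.elim ((X i).rep j) (fun b => (X (bs b)).rep j)) p = 0 := by
    rw [Filter.eventually_all]
    exact hD
  have e3 : ∀ᶠ j in (𝒰 : Filter J), ∀ i, ∀ σ : K j →+* ℂ, ∃ C : ℝ, ∀ n : β →₀ ℕ,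
      ‖σ (MvPowerSeries.coeff n ((X i).rep j))‖ ≤ C ^ (n.degree + 1) := by
    rw [Filter.eventually_all]
    exact fun i => conf_growth hc hX hF i
  have e4 : ∀ᶠ j in (𝒰 : Filter J), ∀ i, (X i).rep j ∈ onlyB {b | cl (bs b) = cl i} := by
    rw [Filter.eventually_all]
    intro i
    obtain ⟨L, τ, hFL, hxL, halgL, h1, h2, h3, h4, h5⟩ := hX.ex (cl i)
    rw [h5 i rfl ⟨x i, hxL _ rfl⟩ rfl]
    exact h4 _
  have e5 : ∀ᶠ j in (𝒰 : Filter J), ∀ i,
      MvPowerSeries.constantCoeff ((X i).rep j) ≠ 0 := by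
    rw [Filter.eventually_all]
    intro i
    obtain ⟨L, τ, hFL, hxL, halgL, h1, h2, h3, h4, h5⟩ := hX.ex (cl i)
    have h6 : eps0 β K (X i) = x i := by
      rw [h5 i rfl ⟨x i, hxL _ rfl⟩ rfl]
      exact h1 _
    have h7 := tconf_eps0 (X i)
    rw [h6] at h7
    filter_upwards [h7, Ult.rep_ne_zero (hc.ne i)] with j hj hj'
    rwa [← hj]
  refine ⟨Finset.univ.sup D, ?_⟩
  filter_upwards [e1, e2, e3, e4, e5] with j h1 h2 h3 h4 h5
  refine ⟨h1, fun i => ?_, fun σ => ?_, h4, h5⟩
  · obtain ⟨p, hp0, hpd, hpv, hp⟩ := h2 i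
    exact ⟨p, hp0, hpd.trans (Finset.le_sup (Finset.mem_univ i)), hpv, hp⟩
  · choose C hC using fun i => h3 i σ
    refine ⟨∑ i, |C i|, fun i n => (hC i n).trans ?_⟩
    refine (le_trans (le_abs_self _) (abs_pow (C i) _).le).trans ?_
    exact pow_le_pow_left₀ (abs_nonneg _)
      (Finset.single_le_sum (f := fun i => |C i|) (fun _ _ => abs_nonneg _) (Finset.mem_univ i)) _

end Pool.Agent.Zilber
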