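import Pool.Agent.Zilber.CHRat
import Pool.Agent.Zilber.CHMin
import Pool.Agent.Zilber.TConf

set_option autoImplicit false

/-! CH5. The ideal of the relations over `ℂ` of block `0` is the same at most levels. -/

namespace Pool.Agent.Zilber

open Filter NumberField Module Pool.Agent.LAll Pool.Agent.LSharp Pool.Agent.CITLines

variable {J : Type} {𝒰 : Ultrafilter J} {K : J → Type} [∀ j, Field (K j)] [∀ j, NumberField (K j)]
  {k : ℕ} {s : Fin (k + 1) → J → ℝ} {ι β : Type} [Fintype ι]
  [Fintype β] [DecidableEq β] {cl : ι → Fin (k + 1)} {x : ι → Ult 𝒰 K} {bs : β → ι}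
  {X : ι → Ult 𝒰 (PS β K)}

/-- The ideal of the relations over `ℂ` of the coordinates of block `0` at the level `j`. -/
noncomputable def idl (σ : ∀ j, K j →+* ℂ) (X : ι → Ult 𝒰 (PS β K)) (cl : ι → Fin (k + 1)) (j : J) :
    Ideal (MvPolynomial {i // cl i = 0} ℂ) :=
  RingHom.ker (MvPolynomial.aeval (fun i : {i // cl i = 0} => ser σ X j i) :
    MvPolynomial {i // cl i = 0} ℂ →ₐ[ℂ] MvPowerSeries β ℂ)

theorem mem_idl (σ : ∀ j, K j →+* ℂ) (X : ι → Ult 𝒰 (PS β K)) (cl : ι → Fin (k + 1)) (j : J)
    (P : MvPolynomial {i // cl i = 0} ℂ) : P ∈ idl σ X cl j ↔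
      MvPolynomial.aeval (fun i : {i // cl i = 0} => ser σ X j i) P = 0 := RingHom.mem_ker

/-- The series `C c_b + X_b` are algebraically independent over `ℂ` (substitute: the automorphism `X_b ↦ X_b - c_b` of
polynomials, and `MvPolynomial` embeds in `MvPowerSeries`: `MvPolynomial.coe_injective`; or coefficients of the leading
form). -/
theorem shift_indep {B : Type} (e : B → β) (he : Function.Injective e) (c : B → ℂ)
    (Q : MvPolynomial B ℂ)
    (hQ : MvPolynomial.aeval (fun b => (MvPowerSeries.C (c b) + MvPowerSeries.X (e b) :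
      MvPowerSeries β ℂ)) Q = 0) : Q = 0 := by
  classical
  set Q1 : MvPolynomial B ℂ := MvPolynomial.aeval
    (fun b => (MvPolynomial.C (c b) + MvPolynomial.X b : MvPolynomial B ℂ)) Q with hQ1
  have h1 : ((MvPolynomial.rename e Q1 : MvPolynomial β ℂ) : MvPowerSeries β ℂ) = 0 := by
    rw [← hQ]
    have h2 : ((MvPolynomial.coeToMvPowerSeries.ringHom : MvPolynomial β ℂ →+* _).comp
        ((MvPolynomial.rename e : MvPolynomial B ℂ →ₐ[ℂ] MvPolynomial β ℂ) :
          MvPolynomial B ℂ →+* MvPolynomial β ℂ)).comp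
        ((MvPolynomial.aeval (fun b => (MvPolynomial.C (c b) + MvPolynomial.X b :
          MvPolynomial B ℂ)) : MvPolynomial B ℂ →ₐ[ℂ] MvPolynomial B ℂ) :
            MvPolynomial B ℂ →+* MvPolynomial B ℂ) =
        ((MvPolynomial.aeval (fun b => (MvPowerSeries.C (c b) + MvPowerSeries.X (e b) :
          MvPowerSeries β ℂ)) : MvPolynomial B ℂ →ₐ[ℂ] MvPowerSeries β ℂ) :
            MvPolynomial B ℂ →+* MvPowerSeries β ℂ) := by
      refine MvPolynomial.ringHom_ext (fun a => ?_) (fun b => ?_)
      · simp [MvPowerSeries.algebraMap_apply, MvPolynomial.algebraMap_eq]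
      · simp
    exact congrArg (fun f => f Q) h2
  have h3 : MvPolynomial.rename e Q1 = 0 := by
    apply MvPolynomial.coe_injective β ℂ
    simpa using h1
  have h4 : Q1 = 0 := by
    apply MvPolynomial.rename_injective e he
    rw [h3, map_zero]
  have h5 : MvPolynomial.aeval (fun b => (MvPolynomial.X b - MvPolynomial.C (c b) :
      MvPolynomial B ℂ)) Q1 = Q := by
    have h6 : ((MvPolynomial.aeval (fun b => (MvPolynomial.X b - MvPolynomial.C (c b) :
        MvPolynomial B ℂ))) : MvPolynomial B ℂ →ₐ[ℂ] MvPolynomial B ℂ).comp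
        (MvPolynomial.aeval (fun b => (MvPolynomial.C (c b) + MvPolynomial.X b :
          MvPolynomial B ℂ)) : MvPolynomial B ℂ →ₐ[ℂ] MvPolynomial B ℂ) =
        AlgHom.id ℂ (MvPolynomial B ℂ) := by
      refine MvPolynomial.algHom_ext fun b => ?_
      simp [MvPolynomial.algebraMap_eq]
    exact congrArg (fun f => f Q) h6
  rw [← h5, h4, map_zero]

/-- **The ideal is constant.** Let `𝔞` be the kernel of `aeval x : MvPolynomial {i // cl i = 0} ℤ → Ult`, a finitely
generated ideal (Noetherian), and `J₀` its extension to `ℂ` (`Ideal.map` of `MvPolynomial.map (Int.castRingHom ℂ)`). By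
`ch_rel_level` for finitely many generators `J₀ ≤ idl j` for most `j`. `idl j` is prime (`MvPowerSeries β ℂ` is a domain).
`mem_minimalPrimes` with `A = B0 cl bs`, `e b = ⟨bs b, _⟩`: `hind` from `shift_indep` (`conf_LX` with
`hF : kf ≤ Lf`, field `h1`: for most `j` `ser σ X j (bs b) = C c_b + X b`), `halg` from `rel_zero` (the polynomial `P` mapped to
`ℂ` is not zero, and its value is the image of an element of `𝔞`). So `idl j ∈ J₀.minimalPrimes` for most `j`; this set is
finite (`Ideal.finite_minimalPrimes_of_isNoetherianRing`), so the ultrafilter chooses one element. -/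
theorem const_ideal (hc : Conf 𝒰 K s (FD 𝒰 K s) cl x bs) (hX : Br 𝒰 K (FD 𝒰 K s) cl x bs X)
    (σ : ∀ j, K j →+* ℂ) :
    ∃ I : Ideal (MvPolynomial {i // cl i = 0} ℂ), ∀ᶠ j in (𝒰 : Filter J), idl σ X cl j = I := by
  classical
  set 𝔞 : Ideal (MvPolynomial {i // cl i = 0} ℤ) :=
    RingHom.ker (MvPolynomial.aeval (fun i : {i // cl i = 0} => x i) :
      MvPolynomial {i // cl i = 0} ℤ →ₐ[ℤ] Ult 𝒰 K) with h𝔞
  set cc : MvPolynomial {i // cl i = 0} ℤ →+* MvPolynomial {i // cl i = 0} ℂ :=
    MvPolynomial.map (Int.castRingHom ℂ) with hcc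
  set J₀ : Ideal (MvPolynomial {i // cl i = 0} ℂ) := Ideal.map cc 𝔞 with hJ₀
  obtain ⟨G, hG⟩ : 𝔞.FG := IsNoetherian.noetherian 𝔞
  have hcast : ∀ (j : J) (P : MvPolynomial {i // cl i = 0} ℤ),
      MvPolynomial.aeval (fun i : {i // cl i = 0} => ser σ X j i) (cc P) =
        MvPolynomial.aeval (fun i : {i // cl i = 0} => ser σ X j i) P := by
    intro j P
    have h : ((MvPolynomial.aeval (fun i : {i // cl i = 0} => ser σ X j i) :
        MvPolynomial {i // cl i = 0} ℂ →ₐ[ℂ] MvPowerSeries β ℂ) :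
          MvPolynomial {i // cl i = 0} ℂ →+* MvPowerSeries β ℂ).comp cc =
        ((MvPolynomial.aeval (fun i : {i // cl i = 0} => ser σ X j i) :
        MvPolynomial {i // cl i = 0} ℤ →ₐ[ℤ] MvPowerSeries β ℂ) :
          MvPolynomial {i // cl i = 0} ℤ →+* MvPowerSeries β ℂ) := by
      refine MvPolynomial.ringHom_ext (fun a => ?_) (fun i => ?_)
      · simp
      · simp [hcc]
    exact congrArg (fun f => f P) h
  have h1 : ∀ᶠ j in (𝒰 : Filter J), J₀ ≤ idl σ X cl j := by
    have h2 : ∀ᶠ j in (𝒰 : Filter J), ∀ P ∈ G,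
        MvPolynomial.aeval (fun i : {i // cl i = 0} => ser σ X j i) P = 0 := by
      rw [Filter.eventually_all_finset]
      intro P hP
      have h3 : P ∈ 𝔞 := by
        rw [← hG]
        exact Ideal.subset_span hP
      exact ch_rel_level hX σ P (RingHom.mem_ker.1 h3)
    filter_upwards [h2] with j hj
    rw [hJ₀, Ideal.map_le_iff_le_comap, ← hG, Submodule.span_le]
    intro P hP
    change cc P ∈ idl σ X cl j
    rw [mem_idl, hcast]
    exact hj P hP
  have hF : ∀ l, FD 𝒰 K s l ≤ Lf 𝒰 K (s l) := by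
    rintro l y ⟨r, hr1, hr2⟩
    exact ⟨_, hr1, hr2⟩
  obtain ⟨D, hD⟩ := conf_LX hc hX hF
  have h4 : ∀ᶠ j in (𝒰 : Filter J), idl σ X cl j ∈ J₀.minimalPrimes := by
    filter_upwards [h1, hD] with j h1 hj
    have hdom : IsDomain (MvPowerSeries β ℂ) := NoZeroDivisors.to_isDomain _
    have hprime : (idl σ X cl j).IsPrime := RingHom.ker_isPrime _
    refine mem_minimalPrimes (A := B0 cl bs) J₀ _ hprime h1
      (fun b => (⟨bs b, b.2⟩ : {i // cl i = 0})) ?_ ?_
    · intro Q hQ
      rw [mem_idl] at hQ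
      refine shift_indep (fun b : B0 cl bs => (b : β)) Subtype.val_injective
        (fun b => σ j (MvPowerSeries.constantCoeff ((X (bs b)).rep j))) Q ?_
      rw [← hQ]
      have h5 : ((MvPolynomial.aeval (fun i : {i // cl i = 0} => ser σ X j i) :
          MvPolynomial {i // cl i = 0} ℂ →ₐ[ℂ] MvPowerSeries β ℂ)).comp
          (MvPolynomial.aeval (fun b : B0 cl bs =>
            (MvPolynomial.X (⟨bs b, b.2⟩ : {i // cl i = 0}) :
              MvPolynomial {i // cl i = 0} ℂ))) =
          MvPolynomial.aeval (fun b : B0 cl bs => (MvPowerSeries.C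
            (σ j (MvPowerSeries.constantCoeff ((X (bs b)).rep j))) +
              MvPowerSeries.X (b : β) : MvPowerSeries β ℂ)) := by
        refine MvPolynomial.algHom_ext fun b => ?_
        rw [AlgHom.comp_apply, MvPolynomial.aeval_X, MvPolynomial.aeval_X, MvPolynomial.aeval_X]
        change MvPowerSeries.map (σ j) ((X (bs b)).rep j) = _
        conv_lhs => rw [hj.h1 b]
        rw [map_add, MvPowerSeries.map_C, MvPowerSeries.map_X]
      exact (congrArg (fun f => f Q) h5).symm
    · intro i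
      obtain ⟨P, hP, hPx⟩ := rel_zero hc i
      refine ⟨P.map (MvPolynomial.map (Int.castRingHom ℂ)), ?_, ?_⟩
      · intro h
        refine hP ((Polynomial.map_eq_zero_iff ?_).1 h)
        exact MvPolynomial.map_injective _ (Int.cast_injective)
      · have h6 : (P.map (MvPolynomial.map (Int.castRingHom ℂ))).eval₂
            (MvPolynomial.aeval (fun b : B0 cl bs =>
              (MvPolynomial.X (⟨bs b, b.2⟩ : {i // cl i = 0}) :
                MvPolynomial {i // cl i = 0} ℂ)) :
              MvPolynomial (B0 cl bs) ℂ →ₐ[ℂ] MvPolynomial {i // cl i = 0} ℂ).toRingHom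
            (MvPolynomial.X i) =
            cc (P.eval₂ (MvPolynomial.aeval (fun b : B0 cl bs =>
              (MvPolynomial.X (⟨bs b, b.2⟩ : {i // cl i = 0}) :
                MvPolynomial {i // cl i = 0} ℤ)) :
              MvPolynomial (B0 cl bs) ℤ →ₐ[ℤ] MvPolynomial {i // cl i = 0} ℤ).toRingHom
            (MvPolynomial.X i)) := by
          rw [Polynomial.eval₂_map, Polynomial.hom_eval₂]
          congr 1
          · refine MvPolynomial.ringHom_ext (fun a => ?_) (fun b => ?_)
            · simp [hcc]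
            · simp [hcc]
          · simp [hcc]
        rw [h6]
        refine Ideal.mem_map_of_mem _ ?_
        rw [h𝔞, RingHom.mem_ker]
        rw [← hPx]
        have h7 := Polynomial.hom_eval₂ P (MvPolynomial.aeval (fun b : B0 cl bs =>
              (MvPolynomial.X (⟨bs b, b.2⟩ : {i // cl i = 0}) :
                MvPolynomial {i // cl i = 0} ℤ)) :
              MvPolynomial (B0 cl bs) ℤ →ₐ[ℤ] MvPolynomial {i // cl i = 0} ℤ).toRingHom
            ((MvPolynomial.aeval (fun i : {i // cl i = 0} => x i) :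
              MvPolynomial {i // cl i = 0} ℤ →ₐ[ℤ] Ult 𝒰 K) :
                MvPolynomial {i // cl i = 0} ℤ →+* Ult 𝒰 K) (MvPolynomial.X i)
        refine Eq.trans h7 ?_
        congr 1
        · refine MvPolynomial.ringHom_ext (fun a => ?_) (fun b => ?_)
          · simp
          · simp
        · simp
  have hfin : J₀.minimalPrimes.Finite := Ideal.finite_minimalPrimes_of_isNoetherianRing _ _
  have h8 : ∀ᶠ j in (𝒰 : Filter J), ∃ I ∈ J₀.minimalPrimes, idl σ X cl j = I := by
    filter_upwards [h4] with j hj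
    exact ⟨_, hj, rfl⟩
  obtain ⟨I, -, hI⟩ := (Ultrafilter.eventually_exists_mem_iff hfin).1 h8
  exact ⟨I, hI⟩

end Pool.Agent.Zilber
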