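import Pool.Agent.LSharp.TSDefs
import Pool.Agent.LSharp.BRDefs

set_option autoImplicit false

/-! Core D, G0: evaluation of convergent power series, definitions. -/

namespace Pool.Agent.Zilber

open Pool.Agent.LSharp

section

variable {β : Type}

/-- Extension by zero. -/
def ex0 (p : β → Prop) [DecidablePred p] (y : {b // p b} → ℂ) (b : β) : ℂ :=
  if h : p b then y ⟨b, h⟩ else 0

/-- The value of a power series at the point `y`, the other variables are `0`. -/
noncomputable def ev0 [Fintype β] (p : β → Prop) [DecidablePred p] (y : {b // p b} → ℂ)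
    (f : MvPowerSeries β ℂ) : ℂ := evf (RingHom.id ℂ) (ex0 p y) f

/-- A ring of power series which converge on a polydisc of radius larger than `r`: evaluation is a ring
homomorphism, compatible with derivatives, and the identity theorem holds. -/
structure Evl [Fintype β] [DecidableEq β] (p : β → Prop) [DecidablePred p] (r : ℝ)
    (S : Subring (MvPowerSeries β ℂ)) : Prop where
  pos : 0 < r
  memC : ∀ c : ℂ, MvPowerSeries.C c ∈ S
  memX : ∀ b, MvPowerSeries.X b ∈ S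
  pd : ∀ f ∈ S, ∀ b, MvPowerSeries.pderiv ℂ b f ∈ S
  evC : ∀ y ∈ Metric.ball (0 : {b // p b} → ℂ) r, ∀ c : ℂ, ev0 p y (MvPowerSeries.C c) = c
  evX : ∀ y ∈ Metric.ball (0 : {b // p b} → ℂ) r, ∀ b, ev0 p y (MvPowerSeries.X b) = ex0 p y b
  evadd : ∀ y ∈ Metric.ball (0 : {b // p b} → ℂ) r, ∀ f ∈ S, ∀ g ∈ S,
    ev0 p y (f + g) = ev0 p y f + ev0 p y g
  evmul : ∀ y ∈ Metric.ball (0 : {b // p b} → ℂ) r, ∀ f ∈ S, ∀ g ∈ S,
    ev0 p y (f * g) = ev0 p y f * ev0 p y g
  cd : ∀ f ∈ S, ContDiffOn ℂ 2 (fun y => ev0 p y f) (Metric.ball 0 r)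
  fd : ∀ f ∈ S, ∀ y ∈ Metric.ball (0 : {b // p b} → ℂ) r, ∀ b : {b // p b},
    fderiv ℂ (fun y => ev0 p y f) y (Pi.single b 1) = ev0 p y (MvPowerSeries.pderiv ℂ (b : β) f)
  ident : ∀ f ∈ S, f ∈ onlyB {b | p b} →
    (∀ y ∈ Metric.ball (0 : {b // p b} → ℂ) r, ev0 p y f = 0) → f = 0

end

end Pool.Agent.Zilber
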