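import Pool.Agent.Zilber.DDefs
import Pool.Agent.Zilber.CHEvl

set_option autoImplicit false

/-! Core D, G0: the chart of block `0`, definitions. -/

namespace Pool.Agent.Zilber

open Filter NumberField Module Pool.Agent.LAll Pool.Agent.LSharp Pool.Agent.CITLines

variable {J : Type} {𝒰 : Ultrafilter J} {K : J → Type} [∀ j, Field (K j)] [∀ j, NumberField (K j)]
  {k : ℕ} {s : Fin (k + 1) → J → ℝ} {ι β : Type} [Fintype ι]
  [Fintype β] [DecidableEq β] {cl : ι → Fin (k + 1)} {x : ι → Ult 𝒰 K} {bs : β → ι}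
  {X : ι → Ult 𝒰 (PS β K)}

/-- The complex power series of the coordinates at the level `j`. -/
noncomputable def ser (σ : ∀ j, K j →+* ℂ) (X : ι → Ult 𝒰 (PS β K)) (j : J) (i : ι) :
    MvPowerSeries β ℂ := MvPowerSeries.map (σ j) ((X i).rep j)

/-- A chart of block `0`: analytic functions `h i` on a ball of `ℂ ^ B0`, `h (bs b) y = c b + y b`; they satisfy
no multiplicative relation with real exponents; the forms of the `R (some b)` are independent somewhere;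
relations with algebraic coefficients which hold at a generic point hold everywhere; for most `j` the
generic points of the chart are residues of the branch. -/
structure Cht (X : ι → Ult 𝒰 (PS β K)) (σ : ∀ j, K j →+* ℂ) (cl : ι → Fin (k + 1)) (bs : β → ι)
    (g : β → ι) (q : ι → β → ℚ) (R : Ob cl bs → ι → ℝ) (r : ℝ) (h : {i // cl i = 0} → (B0 cl bs → ℂ) → ℂ)
    (c : B0 cl bs → ℂ) : Prop where
  pos : 0 < r
  diff : ∀ i, DifferentiableOn ℂ (h i) (Metric.ball 0 r)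
  cd : ∀ i, ContDiffOn ℂ 2 (h i) (Metric.ball 0 r)
  ne : ∀ i, ∀ y ∈ Metric.ball (0 : B0 cl bs → ℂ) r, h i y ≠ 0
  coord : ∀ (b : B0 cl bs) (y : B0 cl bs → ℂ), h ⟨bs b, b.2⟩ y = c b + y b
  li : ∀ γ : {i // cl i = 0} → ℝ, (∀ y ∈ Metric.ball (0 : B0 cl bs → ℂ) r, ∀ b,
    ∑ i, (γ i : ℂ) * fderiv ℂ (h i) y (Pi.single b 1) / h i y = 0) → γ = 0
  wd : ∃ y ∈ Metric.ball (0 : B0 cl bs → ℂ) r, (Matrix.of fun b b' : B0 cl bs =>
    ∑ i : {i // cl i = 0}, (R (Sum.inl (some b)) i : ℂ) * fderiv ℂ (h i) y (Pi.single b' 1) /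
      h i y).det ≠ 0
  rel : ∀ y ∈ Metric.ball (0 : B0 cl bs → ℂ) r, AlgebraicIndependent ℚ (fun b => c b + y b) →
    ∀ P : MvPolynomial {i // cl i = 0} ℂ, (∀ e, IsAlgebraic ℚ (P.coeff e)) →
      MvPolynomial.eval (fun i => h i y) P = 0 →
      ∀ y' ∈ Metric.ball (0 : B0 cl bs → ℂ) r, MvPolynomial.eval (fun i => h i y') P = 0
  alg : ∀ y ∈ Metric.ball (0 : B0 cl bs → ℂ) r, AlgebraicIndependent ℚ (fun b => c b + y b) →
    ∀ i, IsAlgebraic (Algebra.adjoin ℚ (Set.range fun b => c b + y b)) (h i y)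
  emb : ∀ᶠ j in (𝒰 : Filter J), ∀ y ∈ Metric.ball (0 : B0 cl bs → ℂ) r,
    AlgebraicIndependent ℚ (fun b => c b + y b) →
    ∃ (Ω : Type) (_ : Field Ω) (_ : Algebra ℂ Ω) (v : Ω → ℝ) (φ : GF (fun i => (X i).rep j) →+* Ω),
      IsEmbD (σ j) (fun i => (X i).rep j) cl bs g q (fun i => h i y) v φ

end Pool.Agent.Zilber
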