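import Pool.Agent.Zilber.TSpec

set_option autoImplicit false

/-! T: specialisation of one block. -/

namespace Pool.Agent.Zilber

open MvPolynomial Pool.Agent.CITLines Pool.Agent.Srf5 Pool.Agent.LSharp

private noncomputable def tpa {ι R : Type} [CommMonoid R] (f : ι → R) (α : ι →₀ ℕ) : R :=
  α.prod (fun l e => f l ^ e)

private lemma tpa_split {ι R M : Type} [CommMonoid R] [DecidableEq M] (cl : ι → M) (m0 : M)
    (f : ι → R) (α : ι →₀ ℕ) :
    tpa f α = tpa f (α.filter (fun l => cl l = m0)) * tpa f (α.filter (fun l => ¬ cl l = m0)) := by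
  classical
  unfold tpa
  rw [← Finsupp.prod_add_index' (by simp) (by intros; rw [pow_add]),
    Finsupp.filter_add_filter_not]

private lemma tpa_map {ι R S : Type} [CommSemiring R] [CommSemiring S] (g : R →+* S) (f : ι → R)
    (α : ι →₀ ℕ) : g (tpa f α) = tpa (fun l => g (f l)) α := by
  unfold tpa
  rw [map_finsuppProd]
  simp

private lemma tpa_eval {ι R S : Type} [CommSemiring R] [CommSemiring S] (g : R →+* S)
    (f : ι → S) (Q : MvPolynomial ι R) :
    eval₂ g f Q = ∑ α ∈ Q.support, g (coeff α Q) * tpa f α := by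
  rw [eval₂_eq]
  rfl

private lemma tpa_congr {ι R : Type} [CommMonoid R] {f g : ι → R} {α : ι →₀ ℕ}
    (h : ∀ l ∈ α.support, f l = g l) : tpa f α = tpa g α := by
  unfold tpa
  apply Finsupp.prod_congr
  intro l hl
  rw [h l hl]

private lemma tpa_coeff {β K : Type} [Field K] {A : Set β} {f g : MvPowerSeries β K}
    (hf : f ∈ onlyB A) (hg : g ∈ onlyB Aᶜ) {i j : β →₀ ℕ} (hi : ∀ b, i b ≠ 0 → b ∉ A)
    (hj : ∀ b, j b ≠ 0 → b ∈ A) :
    MvPowerSeries.coeff (i + j) (f * g) = MvPowerSeries.coeff j f * MvPowerSeries.coeff i g := by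
  classical
  rw [MvPowerSeries.coeff_mul]
  rw [Finset.sum_eq_single (j, i)]
  · rintro ⟨a, b⟩ hab hne
    by_contra h
    have ha := left_ne_zero_of_mul h
    have hb := right_ne_zero_of_mul h
    have e : a + b = i + j := Finset.HasAntidiagonal.mem_antidiagonal.mp hab
    apply hne
    have key : ∀ c, a c = j c ∧ b c = i c := by
      intro c
      have ec : a c + b c = i c + j c := by
        rw [← Finsupp.add_apply, ← Finsupp.add_apply, e]
      by_cases hc : c ∈ A
      · have hb0 : b c = 0 := by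
          by_contra h3
          exact hg b hb c h3 hc
        have hi0 : i c = 0 := by
          by_contra h3
          exact hi c h3 hc
        omega
      · have ha0 : a c = 0 := by
          by_contra h3
          exact hc (hf a ha c h3)
        have hj0 : j c = 0 := by
          by_contra h3
          exact hc (hj c h3)
        omega
    have h1 : a = j := Finsupp.ext (fun c => (key c).1)
    have h2 : b = i := Finsupp.ext (fun c => (key c).2)
    rw [h1, h2]
  · intro h
    exact absurd (Finset.HasAntidiagonal.mem_antidiagonal.mpr (add_comm j i)) h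

private lemma tpa_mem {β K ι : Type} [Field K] {A : Set β} {x : ι → MvPowerSeries β K}
    {α : ι →₀ ℕ} (h : ∀ l ∈ α.support, x l ∈ onlyB A) : tpa x α ∈ onlyB A := by
  unfold tpa
  apply Subring.prod_mem
  intro l hl
  exact Subring.pow_mem _ (h l hl) _

/-- The semilinear algebra step. -/
private lemma tpa_lin {K I V Ω : Type} [Field K] [Field Ω] [Algebra ℂ Ω] (s : K →+* ℂ)
    (S : Finset I) (c : I → ℂ) (f : I → V → K) (u : I → Ω)
    (h1 : ∀ i, ∑ α ∈ S, s (f α i) * c α = 0)
    (h2 : ∀ a : I → K, (∀ i, ∑ α ∈ S, a α * f α i = 0) →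
      ∑ α ∈ S, algebraMap ℂ Ω (s (a α)) * u α = 0) :
    ∑ α ∈ S, algebraMap ℂ Ω (c α) * u α = 0 := by
  classical
  let _ : Algebra K ℂ := s.toAlgebra
  have hsm : ∀ (k : K) (z : ℂ), k • z = s k * z := fun k z => rfl
  let b := Module.Basis.ofVectorSpace K ℂ
  have h3 : ∀ k, ∑ α ∈ S, algebraMap ℂ Ω (s (b.repr (c α) k)) * u α = 0 := by
    intro k
    apply h2 (fun α => b.repr (c α) k)
    intro i
    have h4 := congrArg (fun z => b.repr z k) (h1 i)
    simp only [map_zero, Finsupp.coe_zero, Pi.zero_apply] at h4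
    rw [← h4, map_sum, Finsupp.finsetSum_apply]
    refine Finset.sum_congr rfl (fun α _ => ?_)
    rw [← hsm, map_smul, Finsupp.smul_apply, smul_eq_mul, mul_comm]
  obtain ⟨T, hT⟩ : ∃ T : Finset _, ∀ α ∈ S, (b.repr (c α)).support ⊆ T :=
    ⟨S.biUnion (fun α => (b.repr (c α)).support), fun α hα =>
      Finset.subset_biUnion_of_mem (fun α => (b.repr (c α)).support) hα⟩
  have h4 : ∀ α ∈ S, c α = ∑ k ∈ T, s (b.repr (c α) k) * b k := by
    intro α hα
    conv_lhs => rw [← b.linearCombination_repr (c α)]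
    rw [Finsupp.linearCombination_apply]
    rw [Finsupp.sum_of_support_subset _ (hT α hα) _ (by intro k _; rw [zero_smul])]
    exact Finset.sum_congr rfl (fun k _ => hsm _ _)
  have h5 : ∑ α ∈ S, algebraMap ℂ Ω (c α) * u α
      = ∑ k ∈ T, algebraMap ℂ Ω (b k) *
        ∑ α ∈ S, algebraMap ℂ Ω (s (b.repr (c α) k)) * u α := by
    have h6 : ∀ α ∈ S, algebraMap ℂ Ω (c α) * u α
        = ∑ k ∈ T, algebraMap ℂ Ω (b k) * (algebraMap ℂ Ω (s (b.repr (c α) k)) * u α) := by
      intro α hα
      conv_lhs => rw [h4 α hα]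
      rw [map_sum, Finset.sum_mul]
      refine Finset.sum_congr rfl (fun k _ => ?_)
      rw [map_mul]
      ring
    rw [Finset.sum_congr rfl h6, Finset.sum_comm]
    refine Finset.sum_congr rfl (fun k _ => ?_)
    rw [Finset.mul_sum]
  rw [h5]
  apply Finset.sum_eq_zero
  intro k _
  rw [h3 k, mul_zero]

/-- **Every relation between the coordinates survives the specialisation of one block to complex numbers.**

`K` is embedded in `ℂ` by `s`, `Ω` is a field over `ℂ`; the coordinates of the block `m0` are replaced by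
the numbers `p l : ℂ`, the other ones by `φ (gen x l)`.

Proof. Let `Q : MvPolynomial ι K` with `aeval x Q = 0`. For an exponent
`α : ι →₀ ℕ` write `α = α0 + α1` (`α0` supported on `cl l = m0`, `α1` on `cl l ≠ m0`) and `x^α = x0^α0 * x1^α1`. By
`h.h4` (`onlyB` is a subring) the power series `x0^α0` contains only the variables `b` with `cl (bs b) = m0`
(type 0), `x1^α1` only those with `cl (bs b) ≠ m0` (type 1; each `x l` with `cl l ≠ m0` is in `onlyB` of the complement).
So for `i` supported on type 1 and `j` supported on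
type 0: `coeff (i + j) (x0^α0 * x1^α1) = coeff j (x0^α0) * coeff i (x1^α1)`.
Fix `i` of type 1 and let `G = ∑ α ∈ Q.support, (coeff i (x1^α1) * Q_α) X^α0` (a polynomial over `K` in the coordinates of
the block `m0`). For `j` of type 0: `coeff j (G(x)) = ∑ α, coeff i (x1^α1) Q_α coeff j (x0^α0) = coeff (i + j) (Q(x)) = 0`,
and `coeff j (G(x)) = 0` for the other `j` because `G(x)` contains only variables of type 0. So `G(x) = 0`, hence
`G(p) = 0` by `hp`: (1) `∑ α, s (coeff i (x1^α1)) * s Q_α * p^α0 = 0` in `ℂ` for all `i` of type 1, and then for all `i` (for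
other `i` all `coeff i (x1^α1)` are `0`).
The numbers `s Q_α * p^α0` (`α ∈ Q.support`) span a finite dimensional `K`-space in `ℂ` (`K` acts through `s`); let
`e_1, .., e_r` be a basis of it and `s Q_α * p^α0 = ∑ k, s (λ_(α,k)) e_k`. By (1) and linear independence
`∑ α, λ_(α,k) * coeff i (x1^α1) = 0` for all `i, k`, that is `∑ α, λ_(α,k) x1^α1 = 0` in `MvPowerSeries β K` for all `k`. Map to
`GF x` and apply `φ` (`hφ`): `∑ α, algebraMap ℂ Ω (s λ_(α,k)) * ∏ (φ (gen x l))^(α1 l) = 0`. Multiply by
`algebraMap ℂ Ω e_k` and add: `Q(P) = ∑ α, algebraMap ℂ Ω (s Q_α * p^α0) * ∏ (φ (gen x l))^(α1 l) = 0`. -/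
theorem prod_spec {K ι β M : Type} [Field K] [Fintype ι] [Fintype β] [DecidableEq β]
    [DecidableEq M] {x : ι → MvPowerSeries β K} {bs : β → ι} {cl : ι → M} {D : ℕ}
    (h : LX K x bs cl D) (s : K →+* ℂ) (m0 : M) (p : ι → ℂ)
    (hp : ∀ G : MvPolynomial ι K, (∀ l ∈ G.vars, cl l = m0) → aeval x G = 0 →
      eval₂ s p G = 0) {Ω : Type} [Field Ω] [Algebra ℂ Ω] (φ : GF x →+* Ω)
    (hφ : ∀ k : K, φ (algebraMap K (GF x) k) = algebraMap ℂ Ω (s k))
    (Q : MvPolynomial ι K) (hQ : aeval x Q = 0) :
    eval₂ ((algebraMap ℂ Ω).comp s)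
      (fun l => if cl l = m0 then algebraMap ℂ Ω (p l) else φ (gen x l)) Q = 0 := by
  classical
  obtain ⟨A, hA⟩ : ∃ A : Set β, A = {b | cl (bs b) = m0} := ⟨_, rfl⟩
  have hx0 : ∀ l, cl l = m0 → x l ∈ onlyB A := by
    intro l hl
    have h1 := h.h4 l
    rw [hl, ← hA] at h1
    exact h1
  have hx1 : ∀ l, ¬ cl l = m0 → x l ∈ onlyB Aᶜ := by
    intro l hl i hi b hb
    have h1 := h.h4 l i hi b hb
    intro hbA
    rw [hA] at hbA
    apply hl
    rw [← hbA]
    exact h1.symm
  obtain ⟨α0, hα0⟩ : ∃ α0 : (ι →₀ ℕ) → (ι →₀ ℕ),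
    α0 = fun α => α.filter (fun l => cl l = m0) := ⟨_, rfl⟩
  obtain ⟨α1, hα1⟩ : ∃ α1 : (ι →₀ ℕ) → (ι →₀ ℕ),
    α1 = fun α => α.filter (fun l => ¬ cl l = m0) := ⟨_, rfl⟩
  have hs0 : ∀ α, ∀ l ∈ (α0 α).support, cl l = m0 := by
    intro α l hl
    rw [hα0] at hl
    simp only [Finsupp.support_filter, Finset.mem_filter] at hl
    exact hl.2
  have hs1 : ∀ α, ∀ l ∈ (α1 α).support, ¬ cl l = m0 := by
    intro α l hl
    rw [hα1] at hl
    simp only [Finsupp.support_filter, Finset.mem_filter] at hl
    exact hl.2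
  have hm0 : ∀ α, tpa x (α0 α) ∈ onlyB A := fun α => tpa_mem (fun l hl => hx0 l (hs0 α l hl))
  have hm1 : ∀ α, tpa x (α1 α) ∈ onlyB Aᶜ := fun α => tpa_mem (fun l hl => hx1 l (hs1 α l hl))
  have hsplit : ∀ {R : Type} [CommMonoid R] (f : ι → R) (α : ι →₀ ℕ),
      tpa f α = tpa f (α0 α) * tpa f (α1 α) := by
    intro R _ f α
    rw [hα0, hα1]
    exact tpa_split cl m0 f α
  -- evaluations of sums of monomials
  have hmon : ∀ {R : Type} [CommSemiring R] (g : K →+* R) (f : ι → R) (e : (ι →₀ ℕ) → (ι →₀ ℕ))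
      (a : (ι →₀ ℕ) → K), eval₂ g f (∑ α ∈ Q.support, monomial (e α) (a α))
        = ∑ α ∈ Q.support, g (a α) * tpa f (e α) := by
    intro R _ g f e a
    rw [eval₂_sum]
    refine Finset.sum_congr rfl (fun α _ => ?_)
    rw [eval₂_monomial]
    rfl
  have hcoef : ∀ (e : (ι →₀ ℕ) → (ι →₀ ℕ)) (a : (ι →₀ ℕ) → K) (j : β →₀ ℕ),
      MvPowerSeries.coeff j (aeval x (∑ α ∈ Q.support, monomial (e α) (a α)))
        = ∑ α ∈ Q.support, a α * MvPowerSeries.coeff j (tpa x (e α)) := by
    intro e a j
    rw [aeval_def, hmon, map_sum]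
    refine Finset.sum_congr rfl (fun α _ => ?_)
    rw [← Algebra.smul_def, map_smul, smul_eq_mul]
  have hQc : ∀ j : β →₀ ℕ, ∑ α ∈ Q.support, coeff α Q * MvPowerSeries.coeff j (tpa x α) = 0 := by
    intro j
    have h1 := congrArg (MvPowerSeries.coeff j) hQ
    rw [map_zero, aeval_def, tpa_eval, map_sum] at h1
    rw [← h1]
    refine Finset.sum_congr rfl (fun α _ => ?_)
    rw [← Algebra.smul_def, map_smul, smul_eq_mul]
  -- step 1, 2
  have step : ∀ i : β →₀ ℕ, ∑ α ∈ Q.support,
      s (MvPowerSeries.coeff i (tpa x (α1 α))) * (s (coeff α Q) * tpa p (α0 α)) = 0 := by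
    intro i
    by_cases hi : ∀ b, i b ≠ 0 → b ∉ A
    · obtain ⟨G, hG⟩ : ∃ G : MvPolynomial ι K, G = ∑ α ∈ Q.support,
        monomial (α0 α) (MvPowerSeries.coeff i (tpa x (α1 α)) * coeff α Q) := ⟨_, rfl⟩
      have hG0 : aeval x G = 0 := by
        ext j
        rw [hG, hcoef, MvPowerSeries.coeff_zero]
        by_cases hj : ∀ b, j b ≠ 0 → b ∈ A
        · rw [← hQc (i + j)]
          refine Finset.sum_congr rfl (fun α _ => ?_)
          rw [hsplit x α, tpa_coeff (hm0 α) (hm1 α) hi hj]
          ring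
        · push Not at hj
          obtain ⟨b, hb, hbA⟩ := hj
          apply Finset.sum_eq_zero
          intro α _
          have h3 : MvPowerSeries.coeff j (tpa x (α0 α)) = 0 := by
            by_contra h4
            exact hbA (hm0 α j h4 b hb)
          rw [h3, mul_zero]
      have hGv : ∀ l ∈ G.vars, cl l = m0 := by
        intro l hl
        rw [hG] at hl
        have h1 := vars_sum_subset _ _ hl
        rw [Finset.mem_biUnion] at h1
        obtain ⟨α, _, h2⟩ := h1
        apply hs0 α l
        by_cases hc : MvPowerSeries.coeff i (tpa x (α1 α)) * coeff α Q = 0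
        · rw [hc, monomial_zero, vars_0] at h2
          exact absurd h2 (Finset.notMem_empty l)
        · rw [vars_monomial hc] at h2
          exact h2
      have h1 := hp G hGv hG0
      rw [hG, hmon] at h1
      rw [← h1]
      refine Finset.sum_congr rfl (fun α _ => ?_)
      rw [map_mul]
      ring
    · push Not at hi
      obtain ⟨b, hb, hbA⟩ := hi
      apply Finset.sum_eq_zero
      intro α _
      have h3 : MvPowerSeries.coeff i (tpa x (α1 α)) = 0 := by
        by_contra h4
        exact (hm1 α i h4 b hb) hbA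
      rw [h3, map_zero, zero_mul]
  -- step 3, 4, 5
  have final := tpa_lin (Ω := Ω) s Q.support (fun α => s (coeff α Q) * tpa p (α0 α))
    (fun α i => MvPowerSeries.coeff i (tpa x (α1 α)))
    (fun α => tpa (fun l => φ (gen x l)) (α1 α)) step (by
      intro a ha
      obtain ⟨R, hR⟩ : ∃ R : MvPolynomial ι K, R = ∑ α ∈ Q.support, monomial (α1 α) (a α) :=
        ⟨_, rfl⟩
      have hR0 : aeval x R = 0 := by
        ext i
        rw [hR, hcoef, MvPowerSeries.coeff_zero]
        exact ha i
      have hRg : aeval (gen x) R = 0 := by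
        apply Subtype.ext
        have h1 : ((aeval (gen x) R : GF x) : FractionRing (MvPowerSeries β K))
            = aeval (fun l => algebraMap (MvPowerSeries β K)
              (FractionRing (MvPowerSeries β K)) (x l)) R := by
          have h2 := MvPolynomial.aeval_algebraMap_apply (B := FractionRing (MvPowerSeries β K))
            (gen x) R
          exact h2.symm
        rw [h1]
        have h3 : aeval (fun l => algebraMap (MvPowerSeries β K)
            (FractionRing (MvPowerSeries β K)) (x l)) R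
            = algebraMap (MvPowerSeries β K) (FractionRing (MvPowerSeries β K)) (aeval x R) :=
          MvPolynomial.aeval_algebraMap_apply (B := FractionRing (MvPowerSeries β K)) x R
        rw [h3, hR0, map_zero]
        rfl
      have h1 := congrArg φ hRg
      rw [map_zero, hR, aeval_def, hmon, map_sum] at h1
      rw [← h1]
      refine Finset.sum_congr rfl (fun α _ => ?_)
      rw [map_mul, hφ, tpa_map])
  rw [tpa_eval, ← final]
  refine Finset.sum_congr rfl (fun α _ => ?_)
  rw [hsplit]
  have e0 : tpa (fun l => if cl l = m0 then algebraMap ℂ Ω (p l) else φ (gen x l)) (α0 α)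
      = algebraMap ℂ Ω (tpa p (α0 α)) := by
    rw [tpa_map]
    apply tpa_congr
    intro l hl
    rw [if_pos (hs0 α l hl)]
  have e1 : tpa (fun l => if cl l = m0 then algebraMap ℂ Ω (p l) else φ (gen x l)) (α1 α)
      = tpa (fun l => φ (gen x l)) (α1 α) := by
    apply tpa_congr
    intro l hl
    rw [if_neg (hs1 α l hl)]
  rw [e0, e1, RingHom.comp_apply, map_mul]
  ring

end Pool.Agent.Zilber
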