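import Pool.Agent.LSharp.TSHom
import Pool.Agent.LSharp.TSVal
import Pool.Agent.Zilber.TProdA

set_option autoImplicit false

/-! T: embeddings which send one block to constants. -/

namespace Pool.Agent.Zilber

open MvPolynomial Pool.Agent.CITLines Pool.Agent.Srf5 Pool.Agent.LSharp

/-- Glueing of algebraic independence in a tower `K ⊆ ℂ ⊆ Ω`.

Proof. Mathlib: `AlgebraicIndependent.sumElim` and its variants for a tower (search for `sumElim`), reindexed by
`β ≃ {b // p b} ⊕ {b // ¬ p b}` (`Equiv.sumCompl`). By hand: let `f ≠ 0` be a polynomial over `K` in the variables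
`β`, written as a polynomial in the variables of the second kind with coefficients `f_i` in those of the first kind; some
`f_i ≠ 0`, so `f_i(u) ≠ 0`, and the polynomial over `ℂ` with the coefficients `f_i(u)` is not zero, so it does not
vanish at `w`. -/
theorem indep_glue {K β Ω : Type} [Field K] [Algebra K ℂ] [Field Ω] [Algebra ℂ Ω] [Algebra K Ω]
    [IsScalarTower K ℂ Ω] (p : β → Prop) [DecidablePred p] (u : β → ℂ) (w : β → Ω)
    (hu : AlgebraicIndependent K (fun b : {b // p b} => u b))
    (hw : AlgebraicIndependent ℂ (fun b : {b // ¬ p b} => w b)) :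
    AlgebraicIndependent K (fun b => if p b then algebraMap ℂ Ω (u b) else w b) := by
  have h1 := hu.sumElim_comp hw
  let f : β → {b // ¬ p b} ⊕ {b // p b} := fun b =>
    if h : p b then Sum.inr ⟨b, h⟩ else Sum.inl ⟨b, h⟩
  have hf : Function.Injective f := by
    intro a b hab
    simp only [f] at hab
    split_ifs at hab with ha hb hb
    · exact congrArg Subtype.val (Sum.inr.inj hab)
    · exact congrArg Subtype.val (Sum.inl.inj hab)
  have h2 := h1.comp f hf
  have h3 : (Sum.elim (fun b : {b // ¬ p b} => w b)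
      (algebraMap ℂ Ω ∘ fun b : {b // p b} => u b)) ∘ f =
      fun b => if p b then algebraMap ℂ Ω (u b) else w b := by
    funext b
    by_cases hb : p b
    · simp [f, hb]
    · simp [f, hb]
  rw [h3] at h2
  exact h2

/-- **An embedding which sends one block to constants** (the valuation `v ∘ φ'` is trivial on this block and agrees
with `v ∘ φ` on the other coordinates). The numbers `p l` (`cl l = m0`) satisfy all relations of the coordinates of the
block, and have the same transcendence degree (`hpi`: the basis coordinates go to algebraically independent numbers).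

Proof. `letI := s.toAlgebra` makes `ℂ` a `K`-algebra, and let `Ω` be a `K`-algebra by
`((algebraMap ℂ Ω).comp s).toAlgebra`. Let `P l = if cl l = m0 then algebraMap ℂ Ω (p l) else φ (gen x l)`.
(1) `kr K (wx x) ≤ kr K P`: `prod_spec` (`aeval (wx x) Q = 0` iff `aeval x Q = 0`, the map to the fraction field is
injective).
(2) `card β ≤ dm (kr K P)`: by `rv_indep` (for the field of constants `ℂ`, and `hT.ind` restricted to the `b` with
`cl (bs b) ≠ m0`) the `φ (gen x (g b))`, `cl (bs b) ≠ m0`, are algebraically independent over `ℂ`. `indep_glue` for the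
property `cl (bs b) = m0`: the family `b ↦ P (if cl (bs b) = m0 then bs b else g b)` is algebraically independent over `K`
(`hg`); use `dm_kr`, `rk_range_of_indep`, `rk_mono`.
(3) By (1), (2), `dm_wx` and `kr_eq`: `kr K (wx x) = kr K P`; `exists_hom` (with `gen_top`, `kr_gen`) gives
`φ' : GF x →ₐ[K] Ω` with `φ' (gen x l) = P l`. -/
theorem prod_hom {K : Type} [Field K] {ι β M : Type} [Fintype ι] [Fintype β]
    [DecidableEq β] [DecidableEq M] {x : ι → MvPowerSeries β K} {bs : β → ι} {cl : ι → M} {D : ℕ}
    (h : LX K x bs cl D) (s : K →+* ℂ) {g : β → ι} {q : ι → β → ℚ}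
    (hg : ∀ b, cl (g b) = cl (bs b)) {Ω : Type} [Field Ω] [Algebra ℂ Ω] {v : Ω → ℝ}
    {φ : GF x →+* Ω} (hT : TW s x g q v φ) (m0 : M) (p : ι → ℂ)
    (hp : ∀ G : MvPolynomial ι K, (∀ l ∈ G.vars, cl l = m0) → aeval x G = 0 →
      eval₂ s p G = 0)
    (hpi : ∀ G : MvPolynomial {b // cl (bs b) = m0} K, G ≠ 0 →
      eval₂ s (fun b : {b // cl (bs b) = m0} => p (bs b.1)) G ≠ 0) :
    ∃ φ' : GF x →+* Ω, (∀ k : K, φ' (algebraMap K (GF x) k) = algebraMap ℂ Ω (s k)) ∧
      (∀ l, cl l = m0 → φ' (gen x l) = algebraMap ℂ Ω (p l)) ∧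
      ∀ l, cl l ≠ m0 → φ' (gen x l) = φ (gen x l) := by
  classical
  let _ : Algebra K ℂ := s.toAlgebra
  let _ : Algebra K Ω := ((algebraMap ℂ Ω).comp s).toAlgebra
  have : IsScalarTower K ℂ Ω := IsScalarTower.of_algebraMap_eq fun _ => rfl
  let P : ι → Ω := fun l => if cl l = m0 then algebraMap ℂ Ω (p l) else φ (gen x l)
  have hle : kr K (wx x) ≤ kr K P := by
    intro Q hQ
    rw [mem_kr] at hQ ⊢
    have h1 : aeval x Q = 0 := by
      have h2 : aeval (wx x) Q =
          algebraMap (MvPowerSeries β K) (FractionRing (MvPowerSeries β K)) (aeval x Q) :=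
        aeval_algebraMap_apply (FractionRing (MvPowerSeries β K)) x Q
      rw [h2] at hQ
      exact (map_eq_zero_iff _ (IsFractionRing.injective (MvPowerSeries β K)
        (FractionRing (MvPowerSeries β K)))).1 hQ
    exact prod_spec h s m0 p hp φ hT.const Q h1
  have hu : AlgebraicIndependent K (fun b : {b // cl (bs b) = m0} => p (bs b)) := by
    rw [algebraicIndependent_iff]
    intro G hG
    by_contra h0
    exact hpi G h0 hG
  have hw : AlgebraicIndependent ℂ (fun b : {b // ¬ cl (bs b) = m0} => φ (gen x (g b))) :=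
    rv_indep hT.rv _ (fun b => (map_ne_zero φ).2 (gen_ne h _))
      (fun b : {b // ¬ cl (bs b) = m0} => v (φ (gen x (g b))))
      (hT.ind.comp Subtype.val Subtype.val_injective) fun _ => rfl
  have hglue := indep_glue (K := K) (fun b => cl (bs b) = m0) (fun b => p (bs b))
    (fun b => φ (gen x (g b))) hu hw
  have hdm : Fintype.card β ≤ dm (kr K P) := by
    have h1 := rk_range_of_indep _ hglue
    have h2 : Set.range (fun b => if cl (bs b) = m0 then algebraMap ℂ Ω (p (bs b)) else
        φ (gen x (g b))) ⊆ Set.range P := by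
      rintro _ ⟨b, rfl⟩
      by_cases hb : cl (bs b) = m0
      · refine ⟨bs b, ?_⟩
        simp only [P, if_pos hb]
      · refine ⟨g b, ?_⟩
        have hb' : ¬ cl (g b) = m0 := by rwa [hg]
        simp only [P, if_neg hb, if_neg hb']
    have h3 : (Fintype.card β : ℕ∞) ≤ (dm (kr K P) : ℕ∞) := by
      rw [dm_kr, ← h1]
      exact rk_mono h2
    exact_mod_cast h3
  have heq : kr K (gen x) = kr K P :=
    kr_gen.trans (kr_eq (wx x) P hle (by rw [dm_wx h]; exact hdm))
  obtain ⟨σ, hσ⟩ := exists_hom (gen x) gen_top P heq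
  refine ⟨σ.toRingHom, fun k => σ.commutes k, fun l hl => ?_, fun l hl => ?_⟩
  · refine (hσ l).trans ?_
    simp only [P, if_pos hl]
  · refine (hσ l).trans ?_
    simp only [P, if_neg hl]

end Pool.Agent.Zilber
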