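import Pool.Agent.Zilber.CHDefs
import Pool.Agent.Zilber.TConf
import Pool.Agent.Zilber.TProd

set_option autoImplicit false

/-! CH9. The valuation of case D at a generic point. -/

namespace Pool.Agent.Zilber

open Filter NumberField Module Pool.Agent.LAll Pool.Agent.LSharp Pool.Agent.CITLines

/-- A nonzero polynomial over a number field does not vanish at numbers which are algebraically independent over
`ℚ`. (`K` is algebraic over `ℚ`, so the image of `K` in `ℂ` is; algebraic independence over `ℚ` implies algebraic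
independence over an algebraic extension: `AlgebraicIndependent.extendScalars` or similar.) -/
theorem indep_numberField {K B : Type} [Field K] [NumberField K] (s : K →+* ℂ) (z : B → ℂ)
    (hz : AlgebraicIndependent ℚ z) (G : MvPolynomial B K) (hG : G ≠ 0) :
    MvPolynomial.eval₂ s z G ≠ 0 := by
  let _ : Algebra K ℂ := s.toAlgebra
  have h1 : IsScalarTower ℚ K ℂ := IsScalarTower.of_algebraMap_eq fun x => by
    change (x : ℂ) = s (x : K)
    rw [map_ratCast]
  have h2 : AlgebraicIndependent K z := hz.extendScalars K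
  intro h3
  exact hG (algebraicIndependent_iff.1 h2 G h3)

/-- Reduction of the coefficients commutes with the evaluation. -/
private theorem chemb_map {K γ β : Type} [Field K] (s : K →+* ℂ) (F : γ → MvPowerSeries β K)
    (G : MvPolynomial γ K) (h : MvPolynomial.aeval F G = 0) :
    MvPolynomial.aeval (fun i => MvPowerSeries.map s (F i)) (MvPolynomial.map s G) = 0 := by
  have h1 : MvPolynomial.aeval (fun i => MvPowerSeries.map s (F i)) (MvPolynomial.map s G) =
      MvPowerSeries.map s (MvPolynomial.aeval F G) := by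
    rw [MvPolynomial.aeval_def, MvPolynomial.eval₂_map, MvPolynomial.aeval_def,
      MvPolynomial.hom_eval₂]
    congr 1
    ext a
    simp [MvPowerSeries.algebraMap_apply]
  rw [h1, h, map_zero]

/-- **The embedding at one level.** `hE : Emb` gives `Ω, v, φ`; it is `TW` of `TDefs.lean`. `prod_hom` with `m0 = 0` and the
numbers `p' i = p ⟨i, _⟩` for `cl i = 0` (`0` otherwise): `hp'`: for `G` with variables in block `0` (`G` is a renaming
of a polynomial in the variables `{i // cl i = 0}`: `MvPolynomial.exists_rename_eq_of_vars_subset_range`) with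
`aeval x G = 0` apply `MvPowerSeries.map s` and `hp`; `hpi`: `indep_numberField` and `hco`. The new `φ'` satisfies `IsEmbD`:
`val` from the values of `Emb` (`q i b ≠ 0` only for `cl i = cl (bs b)`, so for `cl i ≠ 0` the sum over `β` is the sum over
`Bp`), `indep` is a subfamily (`cl (g b) = cl (bs b) ≠ 0`). -/
theorem emb_level {K : Type} [Field K] [NumberField K] {k : ℕ} {ι β : Type} [Fintype ι] [Fintype β]
    [DecidableEq β] {cl : ι → Fin (k + 1)} {bs : β → ι} {f : ι → MvPowerSeries β K} {D : ℕ}
    (hL : LX K f bs cl D) (s : K →+* ℂ) {g : β → ι} {q : ι → β → ℚ}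
    (hcg : ∀ b, cl (g b) = cl (bs b)) (hcq : ∀ i b, q i b ≠ 0 → cl i = cl (bs b))
    (hE : Emb s f g q) (p : {i // cl i = 0} → ℂ)
    (hp : ∀ G : MvPolynomial {i // cl i = 0} ℂ,
      MvPolynomial.aeval (fun i : {i // cl i = 0} => MvPowerSeries.map s (f i)) G = 0 →
        MvPolynomial.eval p G = 0)
    (hco : AlgebraicIndependent ℚ (fun b : B0 cl bs => p ⟨bs b, b.2⟩)) :
    ∃ (Ω : Type) (_ : Field Ω) (_ : Algebra ℂ Ω) (v : Ω → ℝ) (φ : GF f →+* Ω),
      IsEmbD s f cl bs g q p v φ := by
  classical
  obtain ⟨Ω, iF, -, iA, v, φ, hrv, hbase, hval, hind⟩ := hE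
  have hT : TW s f g q v φ := ⟨hrv, hbase, hval, hind⟩
  obtain ⟨p', hp'⟩ : ∃ p' : ι → ℂ, ∀ i (h : cl i = 0), p' i = p ⟨i, h⟩ :=
    ⟨fun i => if h : cl i = 0 then p ⟨i, h⟩ else 0, fun i h => dif_pos h⟩
  obtain ⟨φ', h1, h2, h3⟩ := prod_hom hL s hcg hT 0 p' (fun G hG h0 => by
    obtain ⟨G', rfl⟩ := MvPolynomial.exists_rename_eq_of_vars_subset_range G
      (Subtype.val : {i // cl i = 0} → ι) Subtype.val_injective (fun l hl => by
        rw [Subtype.range_val]
        exact hG l hl)
    rw [MvPolynomial.aeval_rename] at h0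
    have h4 := hp _ (chemb_map s _ G' h0)
    rw [MvPolynomial.eval_map] at h4
    rw [MvPolynomial.eval₂_rename]
    have h5 : p' ∘ Subtype.val = p := funext fun i => hp' i.1 i.2
    rw [h5]
    exact h4) (fun G hG => by
    have h5 : (fun b : {b // cl (bs b) = 0} => p' (bs b.1)) =
        fun b : B0 cl bs => p ⟨bs b, b.2⟩ := funext fun b => hp' _ b.2
    rw [h5]
    exact indep_numberField s _ hco G hG)
  have hne : ∀ b : Bp cl bs, cl (g b) ≠ 0 := fun b => by
    rw [hcg b]
    exact b.2
  refine ⟨Ω, iF, iA, v, φ', hrv, h1, fun i => ?_, fun i hi => ?_, ?_⟩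
  · rw [h2 i i.2, hp' i i.2]
  · rw [h3 i hi, hval i, ← Fintype.sum_subtype_add_sum_subtype (fun b => cl (bs b) = 0)]
    have h4 : ∑ b : {b // cl (bs b) = 0}, (q i b : ℝ) * v (φ (gen f (g b))) = 0 := by
      refine Finset.sum_eq_zero fun b _ => ?_
      have h5 : q i b = 0 := by
        by_contra h6
        exact hi ((hcq i b h6).trans b.2)
      rw [h5, Rat.cast_zero, zero_mul]
    rw [h4, zero_add]
    refine Finset.sum_congr rfl fun b _ => ?_
    rw [h3 (g b) (hne b)]
  · have h4 : (fun b : Bp cl bs => v (φ' (gen f (g b)))) =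
        (fun b => v (φ (gen f (g b)))) ∘ (Subtype.val : Bp cl bs → β) :=
      funext fun b => by rw [h3 (g b) (hne b)]; rfl
    rw [h4]
    exact hind.comp _ Subtype.val_injective

end Pool.Agent.Zilber
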