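import Pool.Agent.Zilber.CHGen

set_option autoImplicit false

/-! CH12. The coordinates of a generic point of the chart are algebraic over the parameters. -/

namespace Pool.Agent.Zilber

open Pool.Agent.LSharp

variable {β ι : Type} [Fintype β] [DecidableEq β]

/-- A nonzero polynomial with algebraic coefficients does not vanish at a point with algebraically
independent coordinates. -/
private theorem eval_ne_zero_of_alg {σ : Type} {z : σ → ℂ} (hz : AlgebraicIndependent ℚ z)
    (q : MvPolynomial σ ℂ) (hq : q ≠ 0) (ha : ∀ e, IsAlgebraic ℚ (q.coeff e)) :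
    MvPolynomial.eval z q ≠ 0 := by
  classical
  have hzK : AlgebraicIndependent (algebraicClosure ℚ ℂ) z := hz.algebraicClosure
  set q' : MvPolynomial σ (algebraicClosure ℚ ℂ) :=
    ∑ e ∈ q.support, MvPolynomial.monomial e (⟨q.coeff e, mem_algebraicClosure_iff.2 (ha e)⟩ :
      algebraicClosure ℚ ℂ) with hq'
  have hmap : MvPolynomial.map (algebraMap (algebraicClosure ℚ ℂ) ℂ) q' = q := by
    rw [hq', map_sum]
    conv_rhs => rw [← MvPolynomial.support_sum_monomial_coeff q]
    refine Finset.sum_congr rfl fun e _ => ?_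
    rw [MvPolynomial.map_monomial]
    rfl
  intro h0
  apply hq
  have h1 : MvPolynomial.aeval z q' = 0 := by
    rw [← h0, ← hmap, MvPolynomial.eval_map]
    rfl
  have h2 : q' = 0 := by
    have := (algebraicIndependent_iff_injective_aeval).1 hzK
    exact this (by rw [h1, map_zero])
  rw [← hmap, h2, map_zero]

/-- **Algebraicity.** Evaluate the relation `Q(C c_b + X_b, u) = 0` at `y` (`u`, `C c_b + X_b` are in `S`; `ev0_aeval`,
`evadd`, `evmul`): `Q_y(u(y)) = 0` where `Q_y` has the coefficients `Q.coeff n` evaluated at `c_b + y_b`. Some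
`Q.coeff n ≠ 0` has algebraic coefficients, so (the `c_b + y_b` are algebraically independent over `ℚ`, hence over the
field of algebraic numbers, `AlgebraicIndependent` over algebraic extensions) `Q_y ≠ 0`, and `u(y)` is algebraic over
the ring generated by the algebraic numbers and the `c_b + y_b`, so over `ℚ[c_b + y_b]` (transitivity). -/
theorem gen_alg {p : β → Prop} [DecidablePred p] {r : ℝ} {S : Subring (MvPowerSeries β ℂ)}
    (hS : Evl p r S) (u : MvPowerSeries β ℂ) (hu : u ∈ S) (c : {b // p b} → ℂ)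
    (Q : Polynomial (MvPolynomial {b // p b} ℂ)) (hQ : Q ≠ 0)
    (hQa : ∀ n e, IsAlgebraic ℚ ((Q.coeff n).coeff e))
    (hQ0 : Q.eval₂ (MvPolynomial.aeval (fun b : {b // p b} => (MvPowerSeries.C (c b) +
        MvPowerSeries.X (b : β) : MvPowerSeries β ℂ)) :
          MvPolynomial {b // p b} ℂ →ₐ[ℂ] MvPowerSeries β ℂ).toRingHom u = 0)
    (y : {b // p b} → ℂ) (hy : y ∈ Metric.ball (0 : {b // p b} → ℂ) r)
    (hgen : AlgebraicIndependent ℚ (fun b => c b + y b)) :
    IsAlgebraic (Algebra.adjoin ℚ (Set.range fun b => c b + y b)) (ev0 p y u) := by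
  classical
  set v : {b // p b} → MvPowerSeries β ℂ := fun b => MvPowerSeries.C (c b) +
    MvPowerSeries.X (b : β) with hv
  have hvS : ∀ b, v b ∈ S := fun b => S.add_mem (hS.memC _) (hS.memX _)
  have hev : ∀ b, ev0 p y (v b) = c b + y b := fun b => by
    rw [hv, hS.evadd y hy _ (hS.memC _) _ (hS.memX _), hS.evC y hy, hS.evX y hy]
    simp [ex0, b.2]
  -- evaluation as a ring homomorphism
  let φ : S →+* ℂ :=
    { toFun := fun f => ev0 p y f
      map_one' := by
        have := hS.evC y hy 1
        rwa [map_one] at this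
      map_mul' := fun f g => hS.evmul y hy f f.2 g g.2
      map_zero' := by
        have := hS.evC y hy 0
        rwa [map_zero] at this
      map_add' := fun f g => hS.evadd y hy f f.2 g g.2 }
  let ψ : MvPolynomial {b // p b} ℂ →+* S :=
    ((MvPolynomial.aeval v : MvPolynomial {b // p b} ℂ →ₐ[ℂ] MvPowerSeries β ℂ).toRingHom).codRestrict
      S (fun q => (ev0_aeval hS v hvS q y hy).1)
  have h1 : Q.eval₂ ψ (⟨u, hu⟩ : S) = 0 := by
    apply Subtype.ext
    have h := Polynomial.hom_eval₂ Q ψ S.subtype (⟨u, hu⟩ : S)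
    exact h.trans hQ0
  have h2 : Q.eval₂ (φ.comp ψ) (ev0 p y u) = 0 := by
    have h := Polynomial.hom_eval₂ Q ψ φ (⟨u, hu⟩ : S)
    rw [h1, map_zero] at h
    exact h.symm
  have hcomp : ∀ q, (φ.comp ψ) q = MvPolynomial.eval (fun b => c b + y b) q := fun q => by
    have h := (ev0_aeval hS v hvS q y hy).2
    have h' : (φ.comp ψ) q = ev0 p y (MvPolynomial.aeval v q) := rfl
    rw [h', h]
    simp_rw [hev]
  set z : {b // p b} → ℂ := fun b => c b + y b with hz
  set A := Algebra.adjoin ℚ (Set.range z) with hA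
  let B : Subalgebra A ℂ := Subalgebra.algebraicClosure A ℂ
  have hzB : ∀ b, z b ∈ B := fun b =>
    isAlgebraic_algebraMap (⟨z b, Algebra.subset_adjoin ⟨b, rfl⟩⟩ : A)
  have hB : ∀ n, (φ.comp ψ) (Q.coeff n) ∈ B := fun n => by
    rw [hcomp, MvPolynomial.eval_eq]
    refine B.sum_mem fun e _ => B.mul_mem ?_ (B.prod_mem fun b _ => B.pow_mem (hzB b) _)
    exact (hQa n e).extendScalars (algebraMap ℚ A).injective
  have halg : IsAlgebraic B (ev0 p y u) := by
    set P : Polynomial ℂ := Q.map (φ.comp ψ) with hP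
    have hPB : ∀ n, P.coeff n ∈ B := fun n => by
      rw [hP, Polynomial.coeff_map]
      exact hB n
    have hPlift : P ∈ Polynomial.lifts (algebraMap B ℂ) := by
      rw [Polynomial.lifts_iff_coeff_lifts]
      exact fun n => ⟨⟨P.coeff n, hPB n⟩, rfl⟩
    obtain ⟨P', hP'⟩ := (Polynomial.mem_lifts _).1 hPlift
    refine ⟨P', ?_, ?_⟩
    · rintro rfl
      rw [Polynomial.map_zero] at hP'
      obtain ⟨n, hn⟩ : ∃ n, Q.coeff n ≠ 0 := by
        by_contra hcon
        push Not at hcon
        exact hQ (Polynomial.ext fun n => by rw [hcon n, Polynomial.coeff_zero])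
      have h3 : P.coeff n = 0 := by rw [← hP', Polynomial.coeff_zero]
      rw [hP, Polynomial.coeff_map, hcomp] at h3
      exact eval_ne_zero_of_alg hgen _ hn (hQa n) h3
    · rw [Polynomial.aeval_def, ← Polynomial.eval_map, hP', hP, Polynomial.eval_map]
      exact h2
  exact halg.restrictScalars A

end Pool.Agent.Zilber
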