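import Pool.Agent.Zilber.CHEvl

set_option autoImplicit false

/-! CH6. Generic points of the chart. -/

namespace Pool.Agent.Zilber

open Pool.Agent.LSharp

variable {β ι : Type} [Fintype β] [DecidableEq β]

/-- The evaluation of a polynomial in elements of `S` (induction on `P`; `evC`, `evadd`, `evmul`). -/
theorem ev0_aeval {p : β → Prop} [DecidablePred p] {r : ℝ} {S : Subring (MvPowerSeries β ℂ)}
    (hS : Evl p r S) (u : ι → MvPowerSeries β ℂ) (hu : ∀ i, u i ∈ S) (P : MvPolynomial ι ℂ)
    (y : {b // p b} → ℂ) (hy : y ∈ Metric.ball (0 : {b // p b} → ℂ) r) :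
    MvPolynomial.aeval u P ∈ S ∧
      ev0 p y (MvPolynomial.aeval u P) = MvPolynomial.eval (fun i => ev0 p y (u i)) P := by
  induction P using MvPolynomial.induction_on with
  | C a =>
    rw [MvPolynomial.aeval_C, MvPolynomial.eval_C]
    have h1 : algebraMap ℂ (MvPowerSeries β ℂ) a = MvPowerSeries.C a := rfl
    rw [h1]
    exact ⟨hS.memC a, hS.evC y hy a⟩
  | add P Q hP hQ =>
    rw [map_add, map_add, ← hP.2, ← hQ.2]
    exact ⟨S.add_mem hP.1 hQ.1, hS.evadd y hy _ hP.1 _ hQ.1⟩
  | mul_X P i hP =>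
    rw [map_mul, map_mul, MvPolynomial.aeval_X, MvPolynomial.eval_X, ← hP.2]
    exact ⟨S.mul_mem hP.1 (hu i), hS.evmul y hy _ hP.1 _ (hu i)⟩

omit [Fintype β] [DecidableEq β] in
/-- The series `c + X` are algebraically independent over the complex numbers. -/
private theorem chg_ind (t : β → ℂ) :
    AlgebraicIndependent ℂ
      (fun b => (MvPowerSeries.C (t b) + MvPowerSeries.X b : MvPowerSeries β ℂ)) := by
  rw [algebraicIndependent_iff_injective_aeval]
  have h1 : (MvPolynomial.aeval (R := ℂ) fun b =>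
      (MvPowerSeries.C (t b) + MvPowerSeries.X b : MvPowerSeries β ℂ)) =
      (MvPolynomial.coeToMvPowerSeries.algHom ℂ).comp
        (MvPolynomial.aeval (R := ℂ) fun b =>
          (MvPolynomial.C (t b) + MvPolynomial.X b : MvPolynomial β ℂ)) := by
    refine MvPolynomial.algHom_ext fun b => ?_
    rw [MvPolynomial.aeval_X, AlgHom.comp_apply, MvPolynomial.aeval_X]
    simp
  have h2 : (MvPolynomial.aeval (R := ℂ) fun b =>
      (MvPolynomial.X b - MvPolynomial.C (t b) : MvPolynomial β ℂ)).comp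
        (MvPolynomial.aeval (R := ℂ) fun b =>
          (MvPolynomial.C (t b) + MvPolynomial.X b : MvPolynomial β ℂ)) =
      AlgHom.id ℂ (MvPolynomial β ℂ) := by
    refine MvPolynomial.algHom_ext fun b => ?_
    rw [AlgHom.comp_apply, MvPolynomial.aeval_X, map_add, MvPolynomial.aeval_X]
    have h3 : (MvPolynomial.aeval (R := ℂ) fun b =>
      (MvPolynomial.X b - MvPolynomial.C (t b) : MvPolynomial β ℂ)) (MvPolynomial.C (t b)) =
        MvPolynomial.C (t b) := MvPolynomial.aeval_C _ _
    rw [h3, add_sub_cancel]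
    rfl
  have h4 : Function.Injective (MvPolynomial.aeval (R := ℂ) fun b =>
      (MvPolynomial.C (t b) + MvPolynomial.X b : MvPolynomial β ℂ)) := by
    refine Function.LeftInverse.injective (g := MvPolynomial.aeval (R := ℂ) fun b =>
      (MvPolynomial.X b - MvPolynomial.C (t b) : MvPolynomial β ℂ)) fun P => ?_
    exact DFunLike.congr_fun h2 P
  have h5 : Function.Injective (MvPolynomial.coeToMvPowerSeries.algHom (R := ℂ) (σ := β) ℂ) := by
    intro P Q hPQ
    apply MvPolynomial.coe_injective β ℂ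
    simpa using hPQ
  rw [h1]
  exact h5.comp h4

/-- **Relations with algebraic coefficients which hold at a generic point hold identically.** `F` is the field of
algebraic numbers in `ℂ` (or any field of algebraic numbers), the `u i` are algebraic over `ℚ(c_b + X_b)`: `halg i` gives a
relation with algebraic coefficients.

Proof. `w = aeval u P ∈ S`. It is algebraic over the ring `R` generated by `ℚ` and the `C c_b + X_b`, `p b` (algebraic
elements over a domain form a ring; the coefficients of `P` and of the relations `halg` are algebraic over `ℚ`, so the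
`u i` are algebraic over `R` by transitivity). If `w ≠ 0` there is a relation
`r_0 + r_1 w + .. + r_n w^n = 0` with `r_i ∈ R`, `r_0 ≠ 0` (divide by a power of `w`, the ring of power series is a
domain). Evaluate at `y` (all elements are in `S`): `w(y) = 0`, so `r_0(y) = 0`; but `r_0 = Q(C c_b + X_b)`,
`Q ≠ 0` over `ℚ`, `r_0(y) = Q(c_b + y_b) ≠ 0` by the independence. -/
theorem gen_rel {p : β → Prop} [DecidablePred p] {r : ℝ} {S : Subring (MvPowerSeries β ℂ)}
    (hS : Evl p r S) (u : ι → MvPowerSeries β ℂ) (hu : ∀ i, u i ∈ S) (c : {b // p b} → ℂ)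
    (halg : ∀ i, ∃ Q : Polynomial (MvPolynomial {b // p b} ℂ), Q ≠ 0 ∧
      (∀ n e, IsAlgebraic ℚ ((Q.coeff n).coeff e)) ∧
      Q.eval₂ (MvPolynomial.aeval (fun b : {b // p b} => (MvPowerSeries.C (c b) +
        MvPowerSeries.X (b : β) : MvPowerSeries β ℂ)) :
          MvPolynomial {b // p b} ℂ →ₐ[ℂ] MvPowerSeries β ℂ).toRingHom (u i) = 0)
    (P : MvPolynomial ι ℂ) (hP : ∀ e, IsAlgebraic ℚ (P.coeff e)) (y : {b // p b} → ℂ)
    (hy : y ∈ Metric.ball (0 : {b // p b} → ℂ) r)
    (hgen : AlgebraicIndependent ℚ (fun b => c b + y b))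
    (h0 : MvPolynomial.eval (fun i => ev0 p y (u i)) P = 0) : MvPolynomial.aeval u P = 0 := by
  classical
  have hdom : IsDomain (MvPowerSeries β ℂ) := NoZeroDivisors.to_isDomain _
  by_contra hw0
  set ξ : {b // p b} → MvPowerSeries β ℂ :=
    fun b => MvPowerSeries.C (c b) + MvPowerSeries.X (b : β) with hξ
  set w := MvPolynomial.aeval u P with hw
  set R := Algebra.adjoin ℚ (Set.range ξ) with hR
  set R' := Subalgebra.algebraicClosure R (MvPowerSeries β ℂ) with hR'
  have hξS : ∀ b, ξ b ∈ S := fun b => S.add_mem (hS.memC _) (hS.memX _)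
  -- independence of the `ξ b` over `ℂ`
  have hξi : Function.Injective (MvPolynomial.aeval (R := ℂ) ξ) := by
    have h1 := (chg_ind (fun b : β => if h : p b then c ⟨b, h⟩ else 0)).comp
      (fun b : {b // p b} => (b : β)) Subtype.val_injective
    have h2 : ((fun b => (MvPowerSeries.C ((fun b : β => if h : p b then c ⟨b, h⟩ else 0) b) +
        MvPowerSeries.X b : MvPowerSeries β ℂ)) ∘ fun b : {b // p b} => (b : β)) = ξ := by
      funext b
      simp only [Function.comp_apply, hξ]
      rw [dif_pos b.2]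
    rw [h2] at h1
    exact h1
  -- the constants
  have hC : ∀ a : ℂ, IsAlgebraic ℚ a → (MvPowerSeries.C a : MvPowerSeries β ℂ) ∈ R' := by
    intro a ha
    have h1 : IsAlgebraic ℚ (algebraMap ℂ (MvPowerSeries β ℂ) a) := ha.algebraMap
    have h2 : IsAlgebraic R (algebraMap ℂ (MvPowerSeries β ℂ) a) :=
      h1.extendScalars (algebraMap ℚ R).injective
    exact h2
  have hξR : ∀ b, ξ b ∈ R' := fun b =>
    isAlgebraic_algebraMap (⟨ξ b, Algebra.subset_adjoin ⟨b, rfl⟩⟩ : R)
  have hpol : ∀ {κ : Type} (v : κ → MvPowerSeries β ℂ) (G : MvPolynomial κ ℂ),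
      (∀ i, v i ∈ R') → (∀ e, IsAlgebraic ℚ (G.coeff e)) → MvPolynomial.aeval v G ∈ R' := by
    intro κ v G hv hG
    rw [MvPolynomial.aeval_def, MvPolynomial.eval₂_eq]
    refine R'.sum_mem fun e _ => R'.mul_mem (hC _ (hG e)) ?_
    exact R'.prod_mem fun i _ => R'.pow_mem (hv i) _
  have hui : ∀ i, u i ∈ R' := by
    intro i
    obtain ⟨Q, hQ0, hQ1, hQ2⟩ := halg i
    let φ : MvPolynomial {b // p b} ℂ →+* MvPowerSeries β ℂ :=
      (MvPolynomial.aeval (R := ℂ) ξ : MvPolynomial {b // p b} ℂ →ₐ[ℂ] MvPowerSeries β ℂ).toRingHom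
    have hφi : Function.Injective φ := hξi
    have hφ : ∀ n, φ (Q.coeff n) ∈ R' := fun n => hpol ξ _ hξR (hQ1 n)
    have hlift : Q.map φ ∈ Polynomial.lifts (algebraMap R' (MvPowerSeries β ℂ)) := by
      rw [Polynomial.lifts_iff_coeff_lifts]
      intro n
      rw [Polynomial.coeff_map]
      exact ⟨⟨_, hφ n⟩, rfl⟩
    obtain ⟨G, hG⟩ := (Polynomial.mem_lifts _).1 hlift
    have hG0 : G ≠ 0 := by
      rintro rfl
      rw [Polynomial.map_zero] at hG
      exact hQ0 ((Polynomial.map_eq_zero_iff hφi).1 hG.symm)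
    have h1 : IsAlgebraic R' (u i) := by
      refine ⟨G, hG0, ?_⟩
      rw [Polynomial.aeval_def, ← Polynomial.eval_map, hG, Polynomial.eval_map]
      exact hQ2
    exact h1.restrictScalars R
  have hwR : w ∈ R' := hpol u P hui hP
  have hwalg : IsAlgebraic R w := hwR
  obtain ⟨q, hq0, hq⟩ := hwalg.exists_nonzero_coeff_and_aeval_eq_zero
    (mem_nonZeroDivisors_of_ne_zero hw0)
  -- everything is in `S`
  have hRS : ∀ a : R, (a : MvPowerSeries β ℂ) ∈ S := by
    intro a
    have h1 := a.2
    refine Algebra.adjoin_induction (p := fun z _ => z ∈ S) ?_ ?_ ?_ ?_ h1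
    · rintro _ ⟨b, rfl⟩
      exact hξS b
    · intro z
      have h2 : algebraMap ℚ (MvPowerSeries β ℂ) z = MvPowerSeries.C (algebraMap ℚ ℂ z) :=
        IsScalarTower.algebraMap_apply ℚ ℂ (MvPowerSeries β ℂ) z
      rw [h2]
      exact hS.memC _
    · intro a b _ _ ha hb
      exact S.add_mem ha hb
    · intro a b _ _ ha hb
      exact S.mul_mem ha hb
  have hwS : w ∈ S := (ev0_aeval hS u hu P y hy).1
  have hwy : ev0 p y w = 0 := by
    rw [(ev0_aeval hS u hu P y hy).2]
    exact h0
  have hqS : Polynomial.aeval w q.divX ∈ S := by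
    rw [Polynomial.aeval_eq_sum_range]
    refine S.sum_mem fun n _ => ?_
    rw [Algebra.smul_def]
    exact S.mul_mem (hRS _) (S.pow_mem hwS n)
  have hrel : Polynomial.aeval w q.divX * w + (q.coeff 0 : MvPowerSeries β ℂ) = 0 := by
    have h1 := congrArg (Polynomial.aeval w) (Polynomial.divX_mul_X_add q)
    rw [map_add, map_mul, Polynomial.aeval_X, Polynomial.aeval_C, hq] at h1
    exact h1
  have hz : ev0 p y (q.coeff 0 : MvPowerSeries β ℂ) = 0 := by
    have h1 := congrArg (ev0 p y) hrel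
    rw [hS.evadd y hy _ (S.mul_mem hqS hwS) _ (hRS _), hS.evmul y hy _ hqS _ hwS, hwy, mul_zero,
      zero_add] at h1
    have h2 := hS.evC y hy 0
    rw [map_zero] at h2
    rw [h1, h2]
  -- the constant term
  obtain ⟨G, hG⟩ : ∃ G : MvPolynomial {b // p b} ℚ,
      MvPolynomial.aeval ξ G = (q.coeff 0 : MvPowerSeries β ℂ) := by
    have h1 : ∀ z ∈ R, ∃ G : MvPolynomial {b // p b} ℚ, MvPolynomial.aeval ξ G = z := by
      intro z hz
      rw [hR, Algebra.adjoin_range_eq_range_aeval] at hz
      exact hz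
    exact h1 _ (q.coeff 0).2
  have hGm : MvPolynomial.aeval (R := ℂ) ξ (MvPolynomial.map (algebraMap ℚ ℂ) G) =
      MvPolynomial.aeval ξ G := MvPolynomial.aeval_map_algebraMap _ _ _
  have hev := (ev0_aeval hS ξ hξS (MvPolynomial.map (algebraMap ℚ ℂ) G) y hy).2
  rw [hGm, hG, hz] at hev
  have hxi : (fun b => ev0 p y (ξ b)) = fun b => c b + y b := by
    funext b
    rw [hξ]
    simp only
    rw [hS.evadd y hy _ (hS.memC _) _ (hS.memX _), hS.evC y hy, hS.evX y hy]
    unfold ex0
    rw [dif_pos b.2]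
  rw [hxi] at hev
  have hG0 : MvPolynomial.aeval (fun b => c b + y b) G = 0 := by
    rw [← MvPolynomial.aeval_map_algebraMap (A := ℂ), MvPolynomial.aeval_eq_eval]
    exact hev.symm
  have hGz : G = 0 := by
    have h1 := hgen
    rw [algebraicIndependent_iff_injective_aeval, injective_iff_map_eq_zero] at h1
    exact h1 G hG0
  rw [hGz, map_zero] at hG
  exact hq0 (Subtype.ext hG.symm)

end Pool.Agent.Zilber
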