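import Pool.Agent.Zilber.CHAn

set_option autoImplicit false

/-! CH2. The identity theorem for convergent power series in several variables. -/

namespace Pool.Agent.Zilber

open MvPolynomial Pool.Agent.LSharp

variable {β : Type} [Fintype β] [DecidableEq β]

/-- A series in the variables of `p` has the same value at points which agree in these variables. -/
theorem evf_only {p : β → Prop} {f : MvPowerSeries β ℂ} (hf : f ∈ onlyB {b | p b}) (z z' : β → ℂ)
    (h : ∀ b, p b → z b = z' b) : evf (RingHom.id ℂ) z f = evf (RingHom.id ℂ) z' f := by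
  unfold evf
  refine tsum_congr fun i => ?_
  by_cases hi : MvPowerSeries.coeff i f = 0
  · rw [hi, map_zero, zero_mul, zero_mul]
  · congr 1
    refine Finset.prod_congr rfl fun b _ => ?_
    by_cases hb : i b = 0
    · rw [hb, pow_zero, pow_zero]
    · rw [h b (hf i hi b hb)]

/-- The coefficients of degree `n` of a series which vanishes near `0` vanish. -/
private theorem ch_coeff (n : ℕ) : ∀ (f : MvPowerSeries β ℂ) (ρ r : ℝ), 0 < ρ →
    Cv (RingHom.id ℂ) ρ f → 0 < r →
    (∀ z : β → ℂ, ‖z‖ < r → evf (RingHom.id ℂ) z f = 0) →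
    ∀ i : β →₀ ℕ, i.degree = n → MvPowerSeries.coeff i f = 0 := by
  induction n with
  | zero =>
    intro f ρ r _ _ hr h i hi
    rw [(Finsupp.degree_eq_zero_iff i).1 hi]
    have h1 := h 0 (by rwa [norm_zero])
    rw [evf_zero] at h1
    exact h1
  | succ n ih =>
    intro f ρ r hρ hf hr h i hi
    obtain ⟨b, hb⟩ : ∃ b, i b ≠ 0 := by
      by_contra hcon
      push Not at hcon
      have h1 : i = 0 := Finsupp.ext hcon
      rw [h1, map_zero] at hi
      exact absurd hi.symm (Nat.succ_ne_zero n)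
    have hj : i - Finsupp.single b 1 + Finsupp.single b 1 = i :=
      Finsupp.sub_add_single_one_cancel hb
    have hdeg : (i - Finsupp.single b 1).degree = n := by
      have h1 := congrArg Finsupp.degree hj
      rw [map_add, Finsupp.degree_single, hi] at h1
      omega
    have h1 := ih (MvPowerSeries.pderiv ℂ b f) (ρ / 2) (min r ρ) (by linarith)
      (cv_pderiv _ (by linarith) (by linarith) hf b) (lt_min hr hρ) (fun z hz => ?_) _ hdeg
    · rw [MvPowerSeries.coeff_pderiv, hj] at h1
      rcases mul_eq_zero.1 h1 with h2 | h2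
      · exact h2
      · exfalso
        have h3 : (((i - Finsupp.single b 1 : β →₀ ℕ) b + 1 : ℕ) : ℂ) = 0 := by
          push_cast
          exact h2
        exact Nat.succ_ne_zero _ (Nat.cast_eq_zero.1 h3)
    · have h2 := (evf_strict_at (RingHom.id ℂ) hf z (hz.trans_le (min_le_right _ _))).hasFDerivAt
      have h3 : HasFDerivAt (fun z : β → ℂ => evf (RingHom.id ℂ) z f)
          (0 : (β → ℂ) →L[ℂ] ℂ) z := by
        refine (hasFDerivAt_const (0 : ℂ) z).congr_of_eventuallyEq ?_
        have h4 : Metric.ball (0 : β → ℂ) r ∈ nhds z :=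
          Metric.isOpen_ball.mem_nhds (by
            rw [Metric.mem_ball, dist_zero_right]
            exact hz.trans_le (min_le_left _ _))
        filter_upwards [h4] with y hy
        rw [Metric.mem_ball, dist_zero_right] at hy
        exact h y hy
      have h4 := congrArg (fun L : (β → ℂ) →L[ℂ] ℂ => L (Pi.single b 1)) (h2.unique h3)
      simp only [sum_apply, smul_apply, ContinuousLinearMap.proj_apply,
        zero_apply, smul_eq_mul] at h4
      rw [Finset.sum_eq_single b, Pi.single_eq_same, mul_one] at h4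
      · exact h4
      · intro c _ hc
        rw [Pi.single_eq_of_ne hc, mul_zero]
      · intro hb'
        exact absurd (Finset.mem_univ b) hb'

omit [Fintype β] [DecidableEq β] in
private theorem ch_ex0 (p : β → Prop) [DecidablePred p] : ex0 p 0 = 0 := by
  funext b
  unfold ex0
  split_ifs <;> rfl

/-- **Identity theorem.** A convergent series which vanishes on a small ball around `0` is `0`.

Proof. Suppose `f ≠ 0`; let `m` be the smallest degree of an exponent with nonzero coefficient and
`f_m(z) = ∑_(degree i = m) coeff i f * z^i`, a nonzero polynomial (finitely many exponents). Choose `z` with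
`f_m(z) ≠ 0` (`MvPolynomial.funext`, `ℂ` infinite), scaled such that `‖z‖ < min r ρ` (homogeneous). For `t : ℝ` (or `ℂ`)
with `|t| ≤ 1`: `0 = f(t z) = ∑_i coeff i f * z^i * t^|i| = t^m (f_m(z) + t * (rest))`, where the rest is bounded by the
sum of the absolute values; divide by `t^m`, let `t → 0`. (Or: `t ↦ f(t z)` is a power series in one variable
with the coefficients `∑_(degree i = n) coeff i f z^i`, zero near `0`: all coefficients vanish.) -/
theorem evf_ident {ρ : ℝ} (hρ : 0 < ρ) {f : MvPowerSeries β ℂ} (hf : Cv (RingHom.id ℂ) ρ f) {r : ℝ}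
    (hr : 0 < r) (h : ∀ z : β → ℂ, ‖z‖ < r → evf (RingHom.id ℂ) z f = 0) : f = 0 := by
  refine MvPowerSeries.ext fun i => ?_
  rw [map_zero]
  exact ch_coeff i.degree f ρ r hρ hf hr h i rfl

/-- **The rings of convergent power series.** `S = Sr β r`, where `r > 0` is so small that all `u i` converge on a
polydisc of radius larger than `r` (`cv_of_growth`) and (continuity of `ev0 p · (u i)` at `0`, value
`constantCoeff (u i)`: `evf_zero`) the `ev0 p y (u i)` do not vanish on the ball. The fields of `Evl`: `evadd`, `evmul`: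
`evf_add`, `evf_mul`; `cd`, `fd`: `ev0_contDiffOn`, `ev0_fderiv`; `ident`: for `z : β → ℂ`, `‖z‖ < r`, the value at `z` is
the value at `ex0 p (z restricted)` (`evf_only`), `= 0`; then `evf_ident`. -/
theorem exists_evl {ι : Type} [Fintype ι] (p : β → Prop) [DecidablePred p]
    (u : ι → MvPowerSeries β ℂ)
    (hg : ∀ i, ∃ C : ℝ, ∀ n, ‖MvPowerSeries.coeff n (u i)‖ ≤ C ^ (n.degree + 1))
    (h0 : ∀ i, MvPowerSeries.constantCoeff (u i) ≠ 0) :
    ∃ (r : ℝ) (S : Subring (MvPowerSeries β ℂ)), Evl p r S ∧ (∀ i, u i ∈ S) ∧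
      ∀ i, ∀ y ∈ Metric.ball (0 : {b // p b} → ℂ) r, ev0 p y (u i) ≠ 0 := by
  choose C hC using hg
  choose ρ hρ hcv using fun i => cv_of_growth (β := β) (RingHom.id ℂ) (C i)
  obtain ⟨ρ0, hρ0, hle⟩ : ∃ ρ0 : ℝ, 0 < ρ0 ∧ ∀ i, ρ0 ≤ ρ i := by
    rcases isEmpty_or_nonempty ι with h | h
    · exact ⟨1, one_pos, fun i => h.elim i⟩
    · refine ⟨Finset.univ.inf' Finset.univ_nonempty ρ, ?_, fun i =>
        Finset.inf'_le _ (Finset.mem_univ i)⟩
      rw [Finset.lt_inf'_iff]
      exact fun i _ => hρ i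
  have hu : ∀ i, Cv (RingHom.id ℂ) ρ0 (u i) := fun i =>
    cv_mono _ hρ0.le (hle i) (hcv i (u i) (hC i))
  have hcont : ∀ i, ∀ᶠ y : {b // p b} → ℂ in nhds 0, ev0 p y (u i) ≠ 0 := by
    intro i
    have h1 : u i ∈ Sr β (ρ0 / 2) := ⟨ρ0, hρ0, by linarith, hu i⟩
    have h2 := (ev0_fderiv p h1 0 (Metric.mem_ball_self (by linarith))).continuousAt
    refine h2.eventually_ne ?_
    unfold ev0
    rw [ch_ex0, evf_zero]
    exact h0 i
  obtain ⟨ε, hε, hball⟩ := Metric.eventually_nhds_iff_ball.1 (Filter.eventually_all.2 hcont)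
  have hr : 0 < min ε (ρ0 / 2) := lt_min hε (by linarith)
  refine ⟨min ε (ρ0 / 2), Sr β (min ε (ρ0 / 2)), ?_, fun i =>
    ⟨ρ0, hρ0, (min_le_right _ _).trans_lt (by linarith), hu i⟩, fun i y hy =>
    hball y (Metric.ball_subset_ball (min_le_left _ _) hy) i⟩
  generalize min ε (ρ0 / 2) = r at hr
  have hny : ∀ y ∈ Metric.ball (0 : {b // p b} → ℂ) r, ∀ ρ : ℝ, r < ρ → ∀ b,
      ‖ex0 p y b‖ ≤ ρ := by
    intro y hy ρ hρ b
    rw [Metric.mem_ball, dist_zero_right] at hy
    exact ((norm_le_pi_norm _ b).trans (norm_ex0 p y)).trans (hy.trans hρ).le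
  have hmin : ∀ f ∈ Sr β r, ∀ g ∈ Sr β r, ∃ ρ : ℝ, r < ρ ∧ Cv (RingHom.id ℂ) ρ f ∧
      Cv (RingHom.id ℂ) ρ g := by
    rintro f ⟨ρ, a0, a1, a2⟩ g ⟨ρ', b0, b1, b2⟩
    exact ⟨min ρ ρ', lt_min a1 b1, cv_mono _ (lt_min a0 b0).le (min_le_left _ _) a2,
      cv_mono _ (lt_min a0 b0).le (min_le_right _ _) b2⟩
  exact {
    pos := hr
    memC := fun c => ⟨r + 1, by linarith, by linarith, cv_C _ _ c⟩
    memX := fun b => ⟨r + 1, by linarith, by linarith, cv_X _ _ b⟩
    pd := fun f hf b => sr_pderiv hf b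
    evC := fun y _ c => evf_C _ _ c
    evX := fun y _ b => evf_X _ _ b
    evadd := fun y hy f hf g hg => by
      obtain ⟨ρ, h1, h2, h3⟩ := hmin f hf g hg
      exact evf_add _ h2 h3 (hny y hy ρ h1)
    evmul := fun y hy f hf g hg => by
      obtain ⟨ρ, h1, h2, h3⟩ := hmin f hf g hg
      exact evf_mul _ h2 h3 (hny y hy ρ h1)
    cd := fun f hf => ev0_contDiffOn p hf
    fd := fun f hf y hy b => by
      rw [(ev0_fderiv p hf y hy).fderiv]
      simp only [sum_apply, smul_apply, ContinuousLinearMap.proj_apply,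
        smul_eq_mul]
      rw [Finset.sum_eq_single b, Pi.single_eq_same, mul_one]
      · intro c _ hc
        rw [Pi.single_eq_of_ne hc, mul_zero]
      · intro hb'
        exact absurd (Finset.mem_univ b) hb'
    ident := fun f hf hB h => by
      obtain ⟨ρ, h1, h2, h3⟩ := hf
      refine evf_ident h1 h3 hr fun z hz => ?_
      rw [evf_only hB z (ex0 p fun b => z b) (fun b hb => by
        unfold ex0
        rw [dif_pos hb])]
      refine h _ ?_
      rw [Metric.mem_ball, dist_zero_right]
      refine lt_of_le_of_lt ?_ hz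
      exact (pi_norm_le_iff_of_nonneg (norm_nonneg z)).2 fun b => norm_le_pi_norm z _ }

end Pool.Agent.Zilber
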