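import Pool.Agent.Zilber.CHEvl
import Pool.Agent.Zilber.Ax.RL
import Pool.Agent.Zilber.Ax.Der
import Pool.Agent.Zilber.CHMin

set_option autoImplicit false

/-! CH7. Linear relations between the logarithmic derivatives at one level. -/

namespace Pool.Agent.Zilber

open Pool.Agent.LSharp Pool.Agent.CITLines

variable {β ι : Type} [Fintype β] [DecidableEq β] [Fintype ι]

private theorem li_dint {A : Type} [CommRing A] (f : A →+ A)
    (h : ∀ x y : A, f (x * y) = x * f y + y * f x) :
    ∃ p : Derivation ℤ A A, ∀ x, p x = f x :=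
  ⟨Derivation.mk' f.toIntLinearMap h, fun _ => rfl⟩

open TensorProduct in
private theorem li_frac {R E : Type} [CommRing R] [IsDomain R] [Field E] [Algebra R E]
    [IsFractionRing R E] (D : Derivation ℤ R R) :
    ∃ D' : Derivation ℤ E E, ∀ r : R, D' (algebraMap R E r) = algebraMap R E (D r) := by
  have h : Algebra.FormallyEtale R E :=
    Algebra.FormallyEtale.of_isLocalization (M := nonZeroDivisors R)
  let φ : KaehlerDifferential ℤ R →ₗ[R] E :=
    (Algebra.linearMap R E).comp D.liftKaehlerDifferential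
  let ψ : KaehlerDifferential ℤ E →ₗ[E] E :=
    (LinearMap.liftBaseChange E φ).comp
      (KaehlerDifferential.tensorKaehlerEquivOfFormallyEtale ℤ R E).symm.toLinearMap
  refine ⟨ψ.compDer (KaehlerDifferential.D ℤ E), fun r => ?_⟩
  have h1 : ψ (KaehlerDifferential.D ℤ E (algebraMap R E r)) = algebraMap R E (D r) := by
    simp only [ψ, LinearMap.comp_apply, LinearEquiv.coe_coe]
    rw [KaehlerDifferential.tensorKaehlerEquivOfFormallyEtale_symm_D_algebraMap,
      LinearMap.liftBaseChange_tmul, one_smul]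
    simp only [φ, LinearMap.comp_apply, Derivation.liftKaehlerDifferential_comp_D,
      Algebra.linearMap_apply]
  exact h1

private theorem li_fder {β E : Type} [Field E] [Algebra (MvPowerSeries β ℂ) E]
    [IsFractionRing (MvPowerSeries β ℂ) E] (b : β) :
    ∃ D : Derivation ℤ E E, ∀ f : MvPowerSeries β ℂ,
      D (algebraMap _ _ f) = algebraMap _ _ (MvPowerSeries.pderiv ℂ b f) := by
  obtain ⟨p, hp⟩ := li_dint (A := MvPowerSeries β ℂ)
    (MvPowerSeries.pderiv ℂ b).toLinearMap.toAddMonoidHom
    fun x y => (MvPowerSeries.pderiv ℂ b).leibniz x y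
  have hdom : IsDomain (MvPowerSeries β ℂ) := NoZeroDivisors.to_isDomain _
  obtain ⟨D, hD⟩ := li_frac (R := MvPowerSeries β ℂ) (E := E) p
  refine ⟨D, fun f => ?_⟩
  rw [hD, hp]
  rfl

private theorem li_mk {E : Type} [CommRing E] (alg : Algebra ℤ E) (m : Module ℤ E) (f : E →+ E)
    (hf : ∀ x y : E, f (x * y) = x • f y + y • f x) :
    ∃ D : @Derivation ℤ E E _ _ _ alg _ m, ∀ x, D x = f x := by
  obtain rfl : alg = Ring.toIntAlgebra E := Subsingleton.elim _ _
  obtain rfl : m = AddCommGroup.toIntModule E := Subsingleton.elim _ _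
  exact ⟨Derivation.mk' f.toIntLinearMap hf, fun _ => rfl⟩

private theorem li_fadd {β E : Type} [Field E] [Algebra (MvPowerSeries β ℂ) E]
    [IsFractionRing (MvPowerSeries β ℂ) E] (b : β) :
    ∃ f : E →+ E, (∀ x y : E, f (x * y) = x • f y + y • f x) ∧ ∀ r : MvPowerSeries β ℂ,
      f (algebraMap _ _ r) = algebraMap _ _ (MvPowerSeries.pderiv ℂ b r) := by
  obtain ⟨D, hD⟩ := li_fder (E := E) b
  exact ⟨D.toLinearMap.toAddMonoidHom, fun x y => D.leibniz x y, hD⟩

/-- The partial derivative as a derivation of the fraction field: the extension of the derivation `pderiv` of the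
domain `MvPowerSeries β ℂ` to its fraction field (`Derivation.liftOfSurjective` is not it; see `n_pder` in `NFrac.lean`, or
construct it with `Derivation.mk'`; Mathlib may have `Derivation.localization`-type constructions). -/
theorem exists_fder (b : β) : ∃ D : Derivation ℤ (FractionRing (MvPowerSeries β ℂ))
    (FractionRing (MvPowerSeries β ℂ)), ∀ f : MvPowerSeries β ℂ,
      D (algebraMap _ _ f) = algebraMap _ _ (MvPowerSeries.pderiv ℂ b f) := by
  obtain ⟨f, hf, hf2⟩ := li_fadd (E := FractionRing (MvPowerSeries β ℂ)) b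
  obtain ⟨D, hD⟩ := li_mk (E := FractionRing (MvPowerSeries β ℂ)) inferInstance inferInstance f hf
  exact ⟨D, fun r => by rw [hD, hf2]⟩

/-- A field homomorphism from an algebraically closed field: its range is algebraically closed in the field. -/
private theorem li_closed {E : Type} [Field E] (φ : ℂ →+* E) (z : E)
    (hz : IsAlgebraic φ.fieldRange z) : z ∈ φ.fieldRange := by
  have hE : IsAlgClosed φ.fieldRange :=
    IsAlgClosed.of_ringEquiv ℂ φ.fieldRange (RingEquiv.ofBijective φ.rangeRestrictField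
      ⟨φ.rangeRestrictField.injective, φ.rangeRestrictField_bijective.2⟩)
  have h1 : Irreducible (minpoly φ.fieldRange z) := minpoly.irreducible hz.isIntegral
  have h2 := IsAlgClosed.degree_eq_one_of_irreducible φ.fieldRange h1
  obtain ⟨w, hw⟩ := minpoly.mem_range_of_degree_eq_one φ.fieldRange z h2
  rw [← hw]
  exact w.2

/-- The shifted variables are algebraically independent. -/
private theorem li_inj {β : Type} (p : β → Prop) (c : {b // p b} → ℂ) :
    Function.Injective (MvPolynomial.aeval (fun b : {b // p b} => (MvPowerSeries.C (c b) +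
        MvPowerSeries.X (b : β) : MvPowerSeries β ℂ)) :
          MvPolynomial {b // p b} ℂ →ₐ[ℂ] MvPowerSeries β ℂ) := by
  set Φ := (MvPolynomial.aeval (fun b : {b // p b} => (MvPowerSeries.C (c b) +
        MvPowerSeries.X (b : β) : MvPowerSeries β ℂ)) :
          MvPolynomial {b // p b} ℂ →ₐ[ℂ] MvPowerSeries β ℂ) with hΦ
  let sh : MvPolynomial {b // p b} ℂ →ₐ[ℂ] MvPolynomial {b // p b} ℂ :=
    MvPolynomial.aeval (fun b => MvPolynomial.X b - MvPolynomial.C (c b))
  let sh' : MvPolynomial {b // p b} ℂ →ₐ[ℂ] MvPolynomial {b // p b} ℂ :=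
    MvPolynomial.aeval (fun b => MvPolynomial.X b + MvPolynomial.C (c b))
  have h1 : sh.comp sh' = AlgHom.id ℂ _ := by
    refine MvPolynomial.algHom_ext fun b => ?_
    simp [sh, sh']
  have hCX : ∀ z : ℂ, Φ (MvPolynomial.C z) = MvPowerSeries.C z := fun z => by
    rw [hΦ, MvPolynomial.aeval_C]
    rfl
  have h3 : ∀ q, Φ (sh q) =
      ((MvPolynomial.rename (Subtype.val : {b // p b} → β) q : MvPolynomial β ℂ) :
        MvPowerSeries β ℂ) := by
    intro q
    induction q using MvPolynomial.induction_on with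
    | C a =>
      have h4 : sh (MvPolynomial.C a) = MvPolynomial.C a := by
        simp only [sh, MvPolynomial.aeval_C]
        rfl
      rw [h4, hCX, MvPolynomial.rename_C, MvPolynomial.coe_C]
    | add a b ha hb => rw [map_add, map_add, ha, hb, map_add, MvPolynomial.coe_add]
    | mul_X a b ha =>
      have h4 : sh (MvPolynomial.X b) = MvPolynomial.X b - MvPolynomial.C (c b) := by
        simp only [sh, MvPolynomial.aeval_X]
      rw [map_mul, map_mul, ha, h4, map_sub, hCX, map_mul, MvPolynomial.coe_mul,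
        MvPolynomial.rename_X, MvPolynomial.coe_X]
      have h5 : Φ (MvPolynomial.X b) = MvPowerSeries.C (c b) + MvPowerSeries.X (b : β) := by
        rw [hΦ, MvPolynomial.aeval_X]
      rw [h5, add_sub_cancel_left]
  intro a b hab
  have h7 : ∀ q, sh (sh' q) = q := fun q => DFunLike.congr_fun h1 q
  rw [← h7 a, ← h7 b, h3, h3, MvPolynomial.coe_inj] at hab
  have h8 : sh' a = sh' b := MvPolynomial.rename_injective _ Subtype.val_injective hab
  rw [← h7 a, ← h7 b, h8]

private theorem li_sum {E σ : Type} [Field E] (s : Finset σ) (f : σ → Derivation ℤ E E) (z : E) :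
    (∑ b ∈ s, f b) z = ∑ b ∈ s, f b z := by
  classical
  induction s using Finset.induction_on with
  | empty => rw [Finset.sum_empty, Finset.sum_empty, Derivation.zero_apply]
  | insert a t ha ih => rw [Finset.sum_insert ha, Finset.sum_insert ha, Derivation.add_apply, ih]

private theorem li_aux {β ι E : Type} [Fintype β] [DecidableEq β] [Fintype ι]
    [Field E] [Algebra (MvPowerSeries β ℂ) E]
    [IsFractionRing (MvPowerSeries β ℂ) E] (p : β → Prop) [DecidablePred p]
    (u : ι → MvPowerSeries β ℂ)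
    (hne : ∀ i, MvPowerSeries.constantCoeff (u i) ≠ 0) (c : {b // p b} → ℂ)
    (halg : ∀ i, ∃ Q : Polynomial (MvPolynomial {b // p b} ℂ), Q ≠ 0 ∧
      Q.eval₂ (MvPolynomial.aeval (fun b : {b // p b} => (MvPowerSeries.C (c b) +
        MvPowerSeries.X (b : β) : MvPowerSeries β ℂ)) :
          MvPolynomial {b // p b} ℂ →ₐ[ℂ] MvPowerSeries β ℂ).toRingHom (u i) = 0)
    (γ : ι → ℂ) (hγ : γ ≠ 0)
    (h0 : ∀ b : {b // p b}, ∑ i, MvPowerSeries.C (γ i) * (MvPowerSeries.pderiv ℂ (b : β) (u i) *
      (u i)⁻¹) = 0) :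
    ∃ a : ι → ℤ, a ≠ 0 ∧ ∃ κ : ℂ, mon (fun i => algebraMap (MvPowerSeries β ℂ)
      E (u i)) a = algebraMap (MvPowerSeries β ℂ) E (MvPowerSeries.C κ) := by
  classical
  have hdom : IsDomain (MvPowerSeries β ℂ) := NoZeroDivisors.to_isDomain _
  have hai : Function.Injective (algebraMap (MvPowerSeries β ℂ) E) :=
    IsFractionRing.injective (MvPowerSeries β ℂ) E
  let φ : ℂ →+* E := (algebraMap (MvPowerSeries β ℂ) E).comp MvPowerSeries.C
  have hφ : ∀ z, φ z = algebraMap (MvPowerSeries β ℂ) E (MvPowerSeries.C z) := fun _ => rfl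
  have hchar : CharZero E := charZero_of_injective_ringHom φ.injective
  let k : Subfield E := φ.fieldRange
  let x : ι → E := fun i => algebraMap _ E (u i)
  have hu0 : ∀ i, u i ≠ 0 := fun i h => hne i (by rw [h, map_zero])
  have hx : ∀ i, x i ≠ 0 := fun i h => hu0 i (hai (by rw [map_zero]; exact h))
  have hfd : ∀ b : β, ∃ D : Derivation ℤ E E, ∀ f : MvPowerSeries β ℂ,
      D (algebraMap (MvPowerSeries β ℂ) E f) =
        algebraMap (MvPowerSeries β ℂ) E (MvPowerSeries.pderiv ℂ b f) := fun b => li_fder b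
  choose Db hDb using hfd
  have hinv : ∀ i, algebraMap _ E ((u i)⁻¹) = (x i)⁻¹ := fun i => by
    refine eq_inv_of_mul_eq_one_left ?_
    change algebraMap _ E ((u i)⁻¹) * algebraMap _ E (u i) = 1
    rw [← map_mul, MvPowerSeries.inv_mul_cancel _ (hne i), map_one]
  have key : ∀ D ∈ Ax.Dk k, (fun i => φ (γ i)) ⬝ᵥ Ax.lv x D = 0 := by
    intro D hD
    let D1 : Derivation ℤ E E :=
      ∑ b : {b // p b}, D (algebraMap (MvPowerSeries β ℂ) E (MvPowerSeries.X (b : β))) • Db b
    have hD1 : ∀ z, D1 z = ∑ b : {b // p b}, D (algebraMap (MvPowerSeries β ℂ) E (MvPowerSeries.X (b : β))) * Db b z := by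
      intro z
      simp only [D1]
      rw [li_sum]
      rfl
    have hDX : ∀ b b' : β, Db b (algebraMap (MvPowerSeries β ℂ) E (MvPowerSeries.X b')) = if b' = b then 1 else 0 := by
      intro b b'
      rw [hDb, MvPowerSeries.pderiv_X, Pi.single_apply]
      by_cases h : b' = b
      · rw [if_pos h, if_pos h, map_one]
      · rw [if_neg h, if_neg h, map_zero]
    have hag : ∀ z ∈ Subfield.closure ((k : Set E) ∪ Set.range fun b : {b // p b} =>
        algebraMap (MvPowerSeries β ℂ) E (MvPowerSeries.X (b : β))), D z = D1 z := by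
      refine Ax.der_eq_closure D D1 _ ?_
      rintro z (⟨w, rfl⟩ | ⟨b, rfl⟩)
      · rw [hD _ ⟨w, rfl⟩, hD1]
        symm
        refine Finset.sum_eq_zero fun b _ => ?_
        have h1 : Db b (φ w) = 0 := by
          rw [hφ, hDb, MvPowerSeries.pderiv_C, map_zero]
        rw [h1, mul_zero]
      · rw [hD1]
        simp only [hDX]
        rw [Finset.sum_eq_single b]
        · rw [if_pos rfl, mul_one]
        · intro b' _ hb'
          rw [if_neg (fun h => hb' (Subtype.ext h.symm)), mul_zero]
        · intro h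
          exact absurd (Finset.mem_univ b) h
    have hDx : ∀ i, D (x i) = D1 (x i) := by
      intro i
      refine Ax.der_eq D D1 _ hag _ ?_
      obtain ⟨Q, hQ, hQ0⟩ := halg i
      set L : Subfield E := Subfield.closure ((k : Set E) ∪ Set.range fun b : {b // p b} =>
        algebraMap (MvPowerSeries β ℂ) E (MvPowerSeries.X (b : β))) with hL
      set Φ : MvPolynomial {b // p b} ℂ →ₐ[ℂ] MvPowerSeries β ℂ :=
        MvPolynomial.aeval (fun b : {b // p b} => (MvPowerSeries.C (c b) +
          MvPowerSeries.X (b : β) : MvPowerSeries β ℂ)) with hΦ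
      have hmem : ∀ q, algebraMap (MvPowerSeries β ℂ) E (Φ q) ∈ L := by
        intro q
        induction q using MvPolynomial.induction_on with
        | C a =>
          have h4 : Φ (MvPolynomial.C a) = MvPowerSeries.C a := by
            rw [hΦ, MvPolynomial.aeval_C]
            rfl
          rw [h4]
          exact Subfield.subset_closure (Or.inl ⟨a, rfl⟩)
        | add a b ha hb =>
          rw [map_add, map_add]
          exact L.add_mem ha hb
        | mul_X a b ha =>
          rw [map_mul, map_mul]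
          refine L.mul_mem ha ?_
          have h4 : Φ (MvPolynomial.X b) = MvPowerSeries.C (c b) + MvPowerSeries.X (b : β) := by
            rw [hΦ, MvPolynomial.aeval_X]
          rw [h4, map_add]
          exact L.add_mem (Subfield.subset_closure (Or.inl ⟨c b, rfl⟩))
            (Subfield.subset_closure (Or.inr ⟨b, rfl⟩))
      let f : MvPolynomial {b // p b} ℂ →+* L :=
        ((algebraMap (MvPowerSeries β ℂ) E).comp Φ.toRingHom).codRestrict L hmem
      have hf : Function.Injective f := by
        intro a b hab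
        have h5 := congrArg (fun z : L => (z : E)) hab
        exact li_inj p c (hai h5)
      refine ⟨Q.map f, (Polynomial.map_ne_zero_iff hf).2 hQ, ?_⟩
      have h6 : (algebraMap L E).comp f = (algebraMap (MvPowerSeries β ℂ) E).comp Φ.toRingHom :=
        RingHom.ext fun _ => rfl
      rw [Polynomial.aeval_def, Polynomial.eval₂_map, h6, ← Polynomial.hom_eval₂, hQ0, map_zero]
    have h8 : ∀ i, φ (γ i) * (D (x i) / x i) = ∑ b : {b // p b},
        D (algebraMap (MvPowerSeries β ℂ) E (MvPowerSeries.X (b : β))) * algebraMap (MvPowerSeries β ℂ) E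
          (MvPowerSeries.C (γ i) * (MvPowerSeries.pderiv ℂ (b : β) (u i) * (u i)⁻¹)) := by
      intro i
      rw [hDx i, hD1, div_eq_mul_inv, Finset.sum_mul, Finset.mul_sum]
      refine Finset.sum_congr rfl fun b _ => ?_
      have h9 : Db b (x i) = algebraMap (MvPowerSeries β ℂ) E
        (MvPowerSeries.pderiv ℂ (b : β) (u i)) := hDb b (u i)
      rw [h9, map_mul, map_mul, hinv, hφ]
      ring
    change ∑ i, φ (γ i) * (D (x i) / x i) = 0
    rw [Finset.sum_congr rfl fun i _ => h8 i, Finset.sum_comm]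
    refine Finset.sum_eq_zero fun b _ => ?_
    rw [← Finset.mul_sum, ← map_sum, h0 b, map_zero, mul_zero]
  obtain ⟨m, cc, U, hcc, hU, hbU⟩ := Ax.rl k (li_closed φ) x hx (fun i => φ (γ i))
    (fun i => ⟨γ i, rfl⟩) key
  obtain ⟨s, hs⟩ : ∃ s, γ s ≠ 0 := by
    by_contra h
    push Not at h
    exact hγ (funext h)
  have h1 : φ (γ s) ≠ 0 := fun h => hs (φ.injective (by rw [h, map_zero]))
  rw [hbU s] at h1
  obtain ⟨l, -, hl⟩ := Finset.exists_ne_zero_of_sum_ne_zero h1
  refine ⟨U l, fun h => hl ?_, ?_⟩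
  · rw [h, Pi.zero_apply, Int.cast_zero, mul_zero]
  · obtain ⟨κ, hκ⟩ := hU l
    exact ⟨κ, hκ.symm⟩

/-- **Multiplicative relations from linear relations of the logarithmic derivatives.** The `u i` are algebraic over the
ring generated by `ℂ` and the `C c_b + X_b`, `p b`.

Proof. `E = FractionRing (MvPowerSeries β ℂ)`, `k` = the range of `ℂ → E` (a subfield, algebraically closed in `E`
because `ℂ` is algebraically closed). `Ax.rl` for `x i = algebraMap (u i)`, `b i = algebraMap (C (γ i))`. The hypothesis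
for every `D ∈ Dk k`: let `D_b` be the derivations of `exists_fder`. `D - ∑_b D(X_b) D_b` vanishes on `k` and on the `X_b`
hence on the `C c_b + X_b` and on everything algebraic over them (`Ax.der_eq`); so
`D x_i = ∑_(b : β) D(X_b) D_b x_i`, and `D_b x_i = 0` unless `p b` (because `u i` contains only variables of `p`:
`hon`, `pderiv = 0`). So `∑ γ_i D x_i / x_i = ∑_b D(X_b) ∑ γ_i D_b x_i / x_i = 0` by `h0`. `rl` gives
`γ_i = ∑_l c_l u_(l,i)` with integral `u_l` and `x ^ (u_l) ∈ k`; `γ ≠ 0`, so some `u_l ≠ 0`. -/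
theorem li_level (p : β → Prop) [DecidablePred p] (u : ι → MvPowerSeries β ℂ)
    (hne : ∀ i, MvPowerSeries.constantCoeff (u i) ≠ 0) (c : {b // p b} → ℂ)
    (hon : ∀ i, u i ∈ onlyB {b | p b})
    (halg : ∀ i, ∃ Q : Polynomial (MvPolynomial {b // p b} ℂ), Q ≠ 0 ∧
      Q.eval₂ (MvPolynomial.aeval (fun b : {b // p b} => (MvPowerSeries.C (c b) +
        MvPowerSeries.X (b : β) : MvPowerSeries β ℂ)) :
          MvPolynomial {b // p b} ℂ →ₐ[ℂ] MvPowerSeries β ℂ).toRingHom (u i) = 0)
    (γ : ι → ℂ) (hγ : γ ≠ 0)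
    (h0 : ∀ b : {b // p b}, ∑ i, MvPowerSeries.C (γ i) * (MvPowerSeries.pderiv ℂ (b : β) (u i) *
      (u i)⁻¹) = 0) :
    ∃ a : ι → ℤ, a ≠ 0 ∧ ∃ κ : ℂ, mon (fun i => algebraMap (MvPowerSeries β ℂ)
      (FractionRing (MvPowerSeries β ℂ)) (u i)) a = algebraMap (MvPowerSeries β ℂ) _ (MvPowerSeries.C κ) := by
  exact li_aux (E := FractionRing (MvPowerSeries β ℂ)) p u hne c halg γ hγ h0

end Pool.Agent.Zilber
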