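import Pool.Agent.Zilber.CHConst

set_option autoImplicit false

/-! CH10. A constant monomial at one level is an algebraic constant of the ultraproduct. -/

namespace Pool.Agent.Zilber

open Filter NumberField Module Pool.Agent.LAll Pool.Agent.LSharp Pool.Agent.CITLines

variable {J : Type} {𝒰 : Ultrafilter J} {K : J → Type} [∀ j, Field (K j)] [∀ j, NumberField (K j)]
  {k : ℕ} {s : Fin (k + 1) → J → ℝ} {ι β : Type} [Fintype ι]
  [Fintype β] [DecidableEq β] {cl : ι → Fin (k + 1)} {x : ι → Ult 𝒰 K} {bs : β → ι}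
  {X : ι → Ult 𝒰 (PS β K)}

omit [∀ j, NumberField (K j)] in
private theorem chnc_zpow (z : ∀ j, K j) (n : ℤ) :
    Ult.mk 𝒰 K (fun j => z j ^ n) = (Ult.mk 𝒰 K z) ^ n := by
  cases n with
  | ofNat n =>
    simp only [Int.ofNat_eq_natCast, zpow_natCast]
    exact map_pow (Ult.mk 𝒰 K) z n
  | negSucc n =>
    simp only [zpow_negSucc]
    rw [Ult.mk_inv]
    exact congrArg _ (map_pow (Ult.mk 𝒰 K) z (n + 1))

omit [∀ j, NumberField (K j)] in
private theorem chnc_prod {γ : Type} [Fintype γ] (x : γ → Ult 𝒰 K) (a : γ → ℤ) :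
    Ult.mk 𝒰 K (fun j => ∏ i, (x i).rep j ^ a i) = ∏ i, x i ^ a i := by
  have h : (fun j => ∏ i, (x i).rep j ^ a i) = ∏ i, (fun j => (x i).rep j ^ a i) := by
    funext j
    rw [Finset.prod_apply]
  rw [h, map_prod]
  refine Finset.prod_congr rfl fun i _ => ?_
  rw [chnc_zpow, Ult.mk_rep]

private theorem chnc_aeval (M : Polynomial ℚ) (z : ∀ j, K j)
    (h : ∀ᶠ j in (𝒰 : Filter J), Polynomial.eval₂ (algebraMap ℚ (K j)) (z j) M = 0) :
    Polynomial.aeval (Ult.mk 𝒰 K z) M = 0 := by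
  have h1 : Ult.mk 𝒰 K (Polynomial.eval₂ (algebraMap ℚ (∀ j, K j)) z M) =
      Polynomial.aeval (Ult.mk 𝒰 K z) M := by
    rw [Polynomial.hom_eval₂, Polynomial.aeval_def]
    congr 1
    exact RingHom.ext_rat _ _
  rw [← h1, Ult.mk_eq_zero]
  filter_upwards [h] with j hj
  have h2 : (Pi.evalRingHom K j) (Polynomial.eval₂ (algebraMap ℚ (∀ j, K j)) z M) =
      Polynomial.eval₂ (algebraMap ℚ (K j)) (z j) M := by
    rw [Polynomial.hom_eval₂]
    congr 1
  exact h2.trans hj

/-- A relation with integral exponents, from a relation with natural exponents. -/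
private theorem chnc_mon {γ F : Type} [Fintype γ] [Field F] (w : γ → F) (hw : ∀ i, w i ≠ 0)
    (a : γ → ℤ) (κ : F) : mon w a = κ ↔
      ∏ i, w i ^ (a i).toNat = κ * ∏ i, w i ^ (-a i).toNat := by
  have h1 : ∏ i, w i ^ (-a i).toNat ≠ 0 :=
    Finset.prod_ne_zero_iff.2 fun i _ => pow_ne_zero _ (hw i)
  have h2 : mon w a * ∏ i, w i ^ (-a i).toNat = ∏ i, w i ^ (a i).toNat := by
    unfold mon
    rw [← Finset.prod_mul_distrib]
    refine Finset.prod_congr rfl fun i _ => ?_
    rw [← zpow_natCast, ← zpow_natCast, ← zpow_add₀ (hw i)]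
    congr 1
    omega
  rw [← h2]
  exact ⟨fun h => by rw [h], fun h => mul_right_cancel₀ h1 h⟩

/-- **No constant monomials.** Suppose at the level `j₀`, whose ideal of relations is the common
one `I`, a monomial `∏ u_i ^ (a i)` with `a ≠ 0` is a constant `κ`. Then `T^(a⁺) - κ T^(a⁻) ∈ I`,
so the same holds at most levels `j` with the same `κ`; the constant coefficients: `∏ (σ j (x
i).rep j) ^ (a i) = κ` for most `j` (`eps0 (X i) = x i`, see `n_eps` in `NDat.lean`: the constant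
coefficient of `(X i).rep j` is `(x i).rep j` for most `j`). So `κ` is algebraic over `ℚ`; its
minimal polynomial `M` over `ℚ` satisfies `M(∏ ((x i).rep j) ^ (a i)) = 0` in `K j` (injectivity of
`σ j`) for most `j`, so `M(mon x a') = 0` in the ultraproduct, `a'` the extension of `a` by `0`:
contradiction to `hnc`. -/
theorem no_const (hc : Conf 𝒰 K s (FD 𝒰 K s) cl x bs) (hX : Br 𝒰 K (FD 𝒰 K s) cl x bs X)
    (σ : ∀ j, K j →+* ℂ)
    (hnc : ∀ a : ι → ℤ, a ≠ 0 → (∀ i, a i ≠ 0 → cl i = 0) → Transcendental ℚ (mon x a))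
    (I : Ideal (MvPolynomial {i // cl i = 0} ℂ)) (hI : ∀ᶠ j in (𝒰 : Filter J), idl σ X cl j = I)
    (j₀ : J) (hj₀ : idl σ X cl j₀ = I)
    (hne : ∀ i : {i // cl i = 0}, ser σ X j₀ i ≠ 0)
    (a : {i // cl i = 0} → ℤ) (ha : a ≠ 0) (κ : ℂ)
    (h : mon (fun i : {i // cl i = 0} => algebraMap (MvPowerSeries β ℂ)
      (FractionRing (MvPowerSeries β ℂ)) (ser σ X j₀ i)) a =
        algebraMap (MvPowerSeries β ℂ) _ (MvPowerSeries.C κ)) : False := by
  classical
  -- the binomial
  set P : MvPolynomial {i // cl i = 0} ℂ :=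
    ∏ i, MvPolynomial.X i ^ (a i).toNat -
      MvPolynomial.C κ * ∏ i, MvPolynomial.X i ^ (-a i).toNat with hP
  have hPe : ∀ j, MvPolynomial.aeval (fun i : {i // cl i = 0} => ser σ X j i) P =
      ∏ i : {i // cl i = 0}, ser σ X j i ^ (a i).toNat -
        MvPowerSeries.C κ * ∏ i : {i // cl i = 0}, ser σ X j i ^ (-a i).toNat := by
    intro j
    rw [hP, map_sub, map_mul, map_prod, map_prod]
    simp only [map_pow, MvPolynomial.aeval_X]
    congr 2
    exact MvPolynomial.aeval_C _ _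
  have hPj₀ : P ∈ I := by
    rw [← hj₀, mem_idl, hPe, sub_eq_zero]
    have hinj : Function.Injective (algebraMap (MvPowerSeries β ℂ)
        (FractionRing (MvPowerSeries β ℂ))) := IsFractionRing.injective _ _
    apply hinj
    rw [map_mul, map_prod, map_prod]
    simp only [map_pow]
    exact (chnc_mon (fun i : {i // cl i = 0} => algebraMap (MvPowerSeries β ℂ)
      (FractionRing (MvPowerSeries β ℂ)) (ser σ X j₀ i))
      (fun i hi => hne i (hinj (by rw [hi, map_zero]))) a _).1 h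
  -- the constant coefficients
  have hcc : ∀ i, ∀ᶠ j in (𝒰 : Filter J),
      MvPowerSeries.constantCoeff (ser σ X j i) = σ j ((x i).rep j) := by
    intro i
    have h1 : eps0 β K (X i) = x i := by
      obtain ⟨L, τ, hFL, hxL, halg, heps, hF, hb, honly, hXi⟩ := hX.ex (cl i)
      rw [hXi i rfl ⟨x i, hxL i rfl⟩ rfl]
      exact heps _
    have h2 : ∀ᶠ j in (𝒰 : Filter J), (eps0 β K (X i)).rep j =
        MvPowerSeries.constantCoeff ((X i).rep j) := Ult.map_rep _ _
    rw [h1] at h2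
    filter_upwards [h2] with j hj
    rw [hj]
    unfold ser
    rw [MvPowerSeries.constantCoeff_map]
  have hcc' : ∀ᶠ j in (𝒰 : Filter J), ∀ i,
      MvPowerSeries.constantCoeff (ser σ X j i) = σ j ((x i).rep j) :=
    (Filter.eventually_all (ι := ι)).2 hcc
  have hnz : ∀ᶠ j in (𝒰 : Filter J), ∀ i, (x i).rep j ≠ 0 :=
    (Filter.eventually_all (ι := ι)).2 fun i => Ult.rep_ne_zero (hc.ne i)
  have hκ : ∀ᶠ j in (𝒰 : Filter J),
      σ j (∏ i : {i // cl i = 0}, (x i).rep j ^ a i) = κ := by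
    filter_upwards [hI, hcc', hnz] with j h1 h2 h3
    have h4 : P ∈ idl σ X cl j := by rw [h1]; exact hPj₀
    rw [mem_idl, hPe, sub_eq_zero] at h4
    have h5 := congrArg MvPowerSeries.constantCoeff h4
    rw [map_mul, map_prod, map_prod, MvPowerSeries.constantCoeff_C] at h5
    simp only [map_pow, h2] at h5
    have h6 := (chnc_mon (fun i : {i // cl i = 0} => σ j ((x i).rep j))
      (fun i => (map_ne_zero (σ j)).2 (h3 i)) a κ).2 h5
    rw [map_prod]
    simp only [map_zpow₀]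
    exact h6
  -- the constant is algebraic
  obtain ⟨j₁, hj₁⟩ := hκ.exists
  have halg : IsAlgebraic ℚ (∏ i : {i // cl i = 0}, (x i).rep j₁ ^ a i) :=
    Algebra.IsAlgebraic.isAlgebraic _
  obtain ⟨M, hM0, hM⟩ := halg
  have hMκ : Polynomial.eval₂ (algebraMap ℚ ℂ) κ M = 0 := by
    rw [← hj₁]
    have h1 : Polynomial.eval₂ ((σ j₁).comp (algebraMap ℚ (K j₁)))
        (σ j₁ (∏ i : {i // cl i = 0}, (x i).rep j₁ ^ a i)) M = 0 := by
      rw [← Polynomial.hom_eval₂, ← Polynomial.aeval_def, hM, map_zero]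
    rwa [show (σ j₁).comp (algebraMap ℚ (K j₁)) = algebraMap ℚ ℂ from
      RingHom.ext_rat _ _] at h1
  have hMx : Polynomial.aeval (Ult.mk 𝒰 K
      (fun j => ∏ i : {i // cl i = 0}, (x i).rep j ^ a i)) M = 0 := by
    apply chnc_aeval
    filter_upwards [hκ] with j hj
    apply (σ j).injective
    rw [map_zero, Polynomial.hom_eval₂, hj]
    rwa [show (σ j).comp (algebraMap ℚ (K j)) = algebraMap ℚ ℂ from RingHom.ext_rat _ _]
  -- the extension of the exponent
  set a' : ι → ℤ := fun i => if hi : cl i = 0 then a ⟨i, hi⟩ else 0 with ha'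
  have ha'0 : a' ≠ 0 := by
    intro h0
    apply ha
    funext i
    have h1 := congrFun h0 i
    rw [ha'] at h1
    simpa [i.2] using h1
  have hmon : mon x a' = ∏ i : {i // cl i = 0}, x i ^ a i := by
    unfold mon
    have h1 : ∀ i, x i ^ a' i = if hi : cl i = 0 then x i ^ a ⟨i, hi⟩ else 1 := by
      intro i
      rw [ha']
      by_cases hi : cl i = 0
      · simp [hi]
      · simp [hi]
    rw [Finset.prod_congr rfl fun i _ => h1 i]
    rw [Finset.prod_dite]
    simp only [Finset.prod_const_one, mul_one]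
    refine Finset.prod_bij (fun i _ => ⟨i.1, (Finset.mem_filter.1 i.2).2⟩) ?_ ?_ ?_ ?_
    · intro i _
      exact Finset.mem_univ _
    · intro i _ i' _ hii
      exact Subtype.ext (Subtype.mk.inj hii)
    · intro i _
      exact ⟨⟨i.1, Finset.mem_filter.2 ⟨Finset.mem_univ _, i.2⟩⟩, Finset.mem_attach _ _, rfl⟩
    · intro i _
      rfl
  refine hnc a' ha'0 (fun i hi => ?_) ⟨M, hM0, ?_⟩
  · by_contra h0
    apply hi
    rw [ha']
    simp [h0]
  · rw [hmon, ← chnc_prod]
    exact hMx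

end Pool.Agent.Zilber
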