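import Pool.Agent.Zilber.CHDefs
import Pool.Agent.LSharp.BRInt

set_option autoImplicit false

/-! CH4. Rational relations of block `0`. -/

namespace Pool.Agent.Zilber

open Filter NumberField Module Pool.Agent.LAll Pool.Agent.LSharp Pool.Agent.CITLines

variable {J : Type} {𝒰 : Ultrafilter J} {K : J → Type} [∀ j, Field (K j)] [∀ j, NumberField (K j)]
  {k : ℕ} {s : Fin (k + 1) → J → ℝ} {ι β : Type} [Fintype ι]
  [Fintype β] [DecidableEq β] {cl : ι → Fin (k + 1)} {x : ι → Ult 𝒰 K} {bs : β → ι}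
  {X : ι → Ult 𝒰 (PS β K)}

private theorem finite_rat (N : ℕ) : {q : ℚ | |q.num| ≤ N ∧ q.den ≤ N}.Finite := by
  have h1 : ((Set.Icc (-(N : ℤ)) N) ×ˢ (Set.Iic N)).Finite :=
    (Set.finite_Icc _ _).prod (Set.finite_Iic N)
  refine Set.Finite.of_finite_image (f := fun q : ℚ => (q.num, q.den)) (h1.subset ?_) ?_
  · rintro _ ⟨q, ⟨hq1, hq2⟩, rfl⟩
    exact ⟨abs_le.1 hq1, hq2⟩
  · intro q _ q' _ h
    exact Rat.ext (congrArg Prod.fst h) (congrArg Prod.snd h)

omit [∀ j, NumberField (K j)] in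
private theorem mk_rat (q : ℚ) : Ult.mk 𝒰 K (fun j => (q : K j)) = (q : Ult 𝒰 K) := by
  have h1 : Ult.mk 𝒰 K (fun j => ((q.num : ℤ) : K j)) = ((q.num : ℤ) : Ult 𝒰 K) :=
    map_intCast (Ult.mk 𝒰 K) q.num
  have h2 : Ult.mk 𝒰 K (fun j => ((q.den : ℕ) : K j)) = ((q.den : ℕ) : Ult 𝒰 K) :=
    map_natCast (Ult.mk 𝒰 K) q.den
  have h3 : (fun j => (q : K j)) = (fun j => ((q.num : ℤ) : K j)) *
      (fun j => (((q.den : ℕ) : K j))⁻¹) := by
    funext j
    rw [Pi.mul_apply, Rat.cast_def, div_eq_mul_inv]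
  rw [h3, map_mul, Ult.mk_inv, h1, h2, Rat.cast_def, div_eq_mul_inv]

private theorem aeval_hom {R S T : Type} [CommRing R] [CommRing S] [Algebra ℤ R]
    [Algebra ℤ S] (φ : R →+* S) (z : T → R) (P : MvPolynomial T ℤ) :
    φ (MvPolynomial.aeval z P) = MvPolynomial.aeval (fun i => φ (z i)) P := by
  induction P using MvPolynomial.induction_on with
  | C a =>
    rw [MvPolynomial.aeval_C, MvPolynomial.aeval_C, eq_intCast, eq_intCast, map_intCast]
  | add p q hp hq => rw [map_add, map_add, map_add, hp, hq]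
  | mul_X p n hp =>
    rw [map_mul, map_mul, map_mul, hp, MvPolynomial.aeval_X, MvPolynomial.aeval_X]

/-- **Families of rational numbers of bounded height are constant.** `z` is the class of `a : J → ℚ` with
`ht (a j : K j) ≤ C` for most `j`; `exp (ht a) = max |num| den` (`exp_ht_rat`, private in `LSharp/BRInt.lean`, see also
`rat_num_den`), so the `a j` lie in a finite set for most `j`, and an ultrafilter chooses one value
(`Ultrafilter.eventually_exists_mem_iff` or `Ultrafilter.finite_biUnion_mem_iff`). -/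
theorem kf_const {s₀ : J → ℝ} (hs : ∀ j, s₀ j = 1) {z : Ult 𝒰 K} (hz : z ∈ kf 𝒰 K s₀) :
    ∃ a : ℚ, z = (a : Ult 𝒰 K) := by
  obtain ⟨a, rfl, C, hC⟩ := hz
  have h1 : ∀ᶠ j in (𝒰 : Filter J), ∃ q ∈ {q : ℚ | |q.num| ≤ (⌈Real.exp C⌉₊ : ℕ) ∧
      q.den ≤ ⌈Real.exp C⌉₊}, a j = q := by
    filter_upwards [hC] with j hj
    rw [hs j, max_self, mul_one] at hj
    obtain ⟨h1, h2⟩ := rat_num_den (K j) (a j)
    have h3 : Real.exp (ht ((a j : ℚ) : K j)) ≤ (⌈Real.exp C⌉₊ : ℕ) :=
      (Real.exp_le_exp.2 hj).trans (Nat.le_ceil _)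
    refine ⟨a j, ⟨?_, ?_⟩, rfl⟩
    · exact_mod_cast h1.trans h3
    · exact_mod_cast h2.trans h3
  obtain ⟨q, -, hq⟩ := (Ultrafilter.eventually_exists_mem_iff (finite_rat _)).1 h1
  refine ⟨q, ?_⟩
  rw [← mk_rat, Ult.mk_eq_mk]
  filter_upwards [hq] with j hj
  rw [hj]

/-- **Integral relations of the coordinates of block `0`.** `hc.alg i`: `x i` is algebraic over the ring generated by
`kf 𝒰 K (s 0)` and the `x (bs b)`, `b` in `B0`; by `kf_const` (`hc.scl.zero`) this is the ring generated by rational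
numbers and the `x (bs b)`. Clear denominators: a polynomial with integral coefficients. `P ≠ 0` because its value in
`(ring)[T]` is not zero. -/
theorem rel_zero (hc : Conf 𝒰 K s (FD 𝒰 K s) cl x bs) (i : {i // cl i = 0}) :
    ∃ P : Polynomial (MvPolynomial (B0 cl bs) ℤ), P ≠ 0 ∧
      P.eval₂ (MvPolynomial.aeval (fun b : B0 cl bs => x (bs b)) :
        MvPolynomial (B0 cl bs) ℤ →ₐ[ℤ] Ult 𝒰 K).toRingHom (x i) = 0 := by
  classical
  obtain ⟨i, hi⟩ := i
  set y : B0 cl bs → Ult 𝒰 K := fun b => x (bs b) with hy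
  have hal := hc.alg i
  rw [hi] at hal
  -- common denominators
  have claim : ∀ c ∈ Algebra.adjoin (FD 𝒰 K s 0) {z | ∃ b, cl (bs b) = 0 ∧ z = x (bs b)},
      ∃ (N : ℤ) (q : MvPolynomial (B0 cl bs) ℤ), N ≠ 0 ∧
        MvPolynomial.aeval y q = (N : Ult 𝒰 K) * c := by
    intro c hcm
    induction hcm using Algebra.adjoin_induction with
    | mem z hz =>
      obtain ⟨b, hb, rfl⟩ := hz
      refine ⟨1, MvPolynomial.X ⟨b, hb⟩, one_ne_zero, ?_⟩
      rw [MvPolynomial.aeval_X, Int.cast_one, one_mul]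
    | algebraMap r =>
      obtain ⟨a, ha⟩ := kf_const (hc.scl.zero) r.2
      refine ⟨a.den, MvPolynomial.C a.num, by exact_mod_cast a.den_ne_zero, ?_⟩
      have h1 : ((a.den : ℕ) : Ult 𝒰 K) ≠ 0 := by exact_mod_cast a.den_ne_zero
      have h2 : algebraMap (FD 𝒰 K s 0) (Ult 𝒰 K) r = (a : Ult 𝒰 K) := ha
      rw [h2, ← MvPolynomial.algebraMap_eq, AlgHom.commutes, Rat.cast_def, Int.cast_natCast,
        mul_div_cancel₀ _ h1]
      rfl
    | add c c' _ _ h h' =>
      obtain ⟨N, q, hN, hq⟩ := h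
      obtain ⟨N', q', hN', hq'⟩ := h'
      refine ⟨N * N', MvPolynomial.C N' * q + MvPolynomial.C N * q', mul_ne_zero hN hN', ?_⟩
      have hCC : ∀ n : ℤ, MvPolynomial.aeval y (MvPolynomial.C n : MvPolynomial (B0 cl bs) ℤ) =
          (n : Ult 𝒰 K) := fun n => by
        rw [← MvPolynomial.algebraMap_eq, AlgHom.commutes]
        rfl
      rw [map_add, map_mul, map_mul, hq, hq', hCC, hCC]
      push_cast
      ring
    | mul c c' _ _ h h' =>
      obtain ⟨N, q, hN, hq⟩ := h
      obtain ⟨N', q', hN', hq'⟩ := h'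
      refine ⟨N * N', q * q', mul_ne_zero hN hN', ?_⟩
      rw [map_mul, hq, hq']
      push_cast
      ring
  obtain ⟨p, hp0, hp⟩ := hal
  have hch : ∀ n, ∃ (N : ℤ) (q : MvPolynomial (B0 cl bs) ℤ), N ≠ 0 ∧
      MvPolynomial.aeval y q = (N : Ult 𝒰 K) * ((p.coeff n : _) : Ult 𝒰 K) := fun n =>
    claim _ (p.coeff n).2
  choose N q hN hq using hch
  have hCC : ∀ n : ℤ, MvPolynomial.aeval y (MvPolynomial.C n : MvPolynomial (B0 cl bs) ℤ) =
      (n : Ult 𝒰 K) := fun n => by
    rw [← MvPolynomial.algebraMap_eq, AlgHom.commutes]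
    rfl
  let q' : ℕ → MvPolynomial (B0 cl bs) ℤ := fun n =>
    MvPolynomial.C (∏ m ∈ p.support.erase n, N m) * q n
  have hq' : ∀ n ∈ p.support, MvPolynomial.aeval y (q' n) =
      ((∏ m ∈ p.support, N m : ℤ) : Ult 𝒰 K) * ((p.coeff n : _) : Ult 𝒰 K) := by
    intro n hn
    change MvPolynomial.aeval y (MvPolynomial.C (∏ m ∈ p.support.erase n, N m) * q n) = _
    rw [map_mul, hCC, hq, ← Finset.prod_erase_mul _ _ hn]
    push_cast
    ring
  have hN0 : ((∏ m ∈ p.support, N m : ℤ) : Ult 𝒰 K) ≠ 0 := by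
    rw [Int.cast_ne_zero]
    exact Finset.prod_ne_zero_iff.2 fun m _ => hN m
  refine ⟨∑ n ∈ p.support, Polynomial.monomial n (q' n), ?_, ?_⟩
  · obtain ⟨n, hn⟩ := Polynomial.nonempty_support_iff.2 hp0
    intro h0
    have h1 : (∑ n ∈ p.support, Polynomial.monomial n (q' n)).coeff n = q' n := by
      rw [Polynomial.finsetSum_coeff, Finset.sum_eq_single n]
      · rw [Polynomial.coeff_monomial, if_pos rfl]
      · intro m _ hm
        rw [Polynomial.coeff_monomial, if_neg hm]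
      · intro h
        exact absurd hn h
    rw [h0, Polynomial.coeff_zero] at h1
    have h2 := hq' n hn
    rw [← h1, map_zero] at h2
    have h3 : ((p.coeff n : _) : Ult 𝒰 K) ≠ 0 := by
      intro h
      exact Polynomial.mem_support_iff.1 hn (Subtype.ext h)
    exact mul_ne_zero hN0 h3 h2.symm
  · rw [Polynomial.eval₂_finsetSum]
    have h1 : ∀ n ∈ p.support, Polynomial.eval₂ (MvPolynomial.aeval y :
        MvPolynomial (B0 cl bs) ℤ →ₐ[ℤ] Ult 𝒰 K).toRingHom (x i)
        (Polynomial.monomial n (q' n)) =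
        ((∏ m ∈ p.support, N m : ℤ) : Ult 𝒰 K) * (((p.coeff n : _) : Ult 𝒰 K) * x i ^ n) := by
      intro n hn
      rw [Polynomial.eval₂_monomial]
      change MvPolynomial.aeval y (q' n) * x i ^ n = _
      rw [hq' n hn, mul_assoc]
    refine (Finset.sum_congr rfl h1).trans ?_
    rw [← Finset.mul_sum]
    have h2 : ∑ n ∈ p.support, ((p.coeff n : _) : Ult 𝒰 K) * x i ^ n = 0 := by
      rw [← hp, Polynomial.aeval_eq_sum_range' (n := p.natDegree + 1) (Nat.lt_succ_self _)]
      refine (Finset.sum_subset (Polynomial.supp_subset_range_natDegree_succ) ?_).trans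
        (Finset.sum_congr rfl fun n _ => ?_)
      · intro n _ hn
        rw [Polynomial.notMem_support_iff.1 hn]
        exact zero_mul _
      · rfl
    rw [h2, mul_zero]

/-- **Relations of the coordinates of block `0` hold on the branch**, at most levels. `hX.ex 0` gives `τ : L →+* _` with
`X i = τ (x i)` for `cl i = 0`, so `aeval X P = τ (aeval x P) = 0` (a ring homomorphism commutes with `aeval` over
`ℤ`), and this is a statement about representatives at most levels (`Ult.mk_eq_zero`, `Ult.mk_rep`;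
`aeval` of the classes is the class of the `aeval`s, induction on `P`); then apply `MvPowerSeries.map (σ j)`. -/
theorem ch_rel_level (hX : Br 𝒰 K (FD 𝒰 K s) cl x bs X) (σ : ∀ j, K j →+* ℂ)
    (P : MvPolynomial {i // cl i = 0} ℤ)
    (hP : MvPolynomial.aeval (fun i : {i // cl i = 0} => x i) P = 0) :
    ∀ᶠ j in (𝒰 : Filter J),
      MvPolynomial.aeval (fun i : {i // cl i = 0} => ser σ X j i) P = 0 := by
  obtain ⟨L, τ, -, hx, -, -, -, -, -, hτ⟩ := hX.ex 0
  let xL : {i // cl i = 0} → L := fun i => ⟨x i, hx i i.2⟩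
  have h1 : ∀ i : {i // cl i = 0}, X i = τ (xL i) := fun i => hτ i i.2 (xL i) rfl
  have h2 : MvPolynomial.aeval xL P = 0 := by
    have h3 := aeval_hom L.subtype xL P
    have h4 : (fun i => L.subtype (xL i)) = fun i : {i // cl i = 0} => x i := rfl
    rw [h4, hP] at h3
    exact (map_eq_zero_iff L.subtype L.subtype.injective).1 h3
  have h5 : MvPolynomial.aeval (fun i : {i // cl i = 0} => X i) P = 0 := by
    have h3 := aeval_hom τ xL P
    rw [h2, map_zero] at h3
    rw [h3]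
    congr 1
    exact congrArg _ (funext h1)
  let z : {i // cl i = 0} → ∀ j, PS β K j := fun i => (X i).rep
  have h6 : Ult.mk 𝒰 (PS β K) (MvPolynomial.aeval z P) = 0 := by
    rw [aeval_hom (Ult.mk 𝒰 (PS β K)) z P, ← h5]
    congr 1
    exact congrArg _ (funext fun i => Ult.mk_rep (X i))
  filter_upwards [Ult.mk_eq_zero.1 h6] with j hj
  have h7 : MvPolynomial.aeval (fun i : {i // cl i = 0} => (X i).rep j) P = 0 := by
    rw [← hj]
    exact (aeval_hom (Pi.evalRingHom (PS β K) j) z P).symm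
  have h8 := aeval_hom (MvPowerSeries.map (σ := β) (σ j))
    (fun i : {i // cl i = 0} => (X i).rep j) P
  rw [h7, map_zero] at h8
  exact h8.symm

end Pool.Agent.Zilber
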