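import Pool.Agent.Zilber.CHGen

set_option autoImplicit false

/-! CH8. From identities between power series to values. -/

namespace Pool.Agent.Zilber

open Pool.Agent.LSharp

variable {β ι : Type} [Fintype β] [DecidableEq β] [Fintype ι] [DecidableEq ι]

/-- The partial derivatives stay in the subring of the series in the variables of `p`. -/
theorem pderiv_only {A : Set β} {f : MvPowerSeries β ℂ} (hf : f ∈ onlyB A) (b : β) :
    MvPowerSeries.pderiv ℂ b f ∈ onlyB A := by
  intro i hi b' hb'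
  rw [MvPowerSeries.coeff_pderiv] at hi
  refine hf _ (left_ne_zero_of_mul hi) b' ?_
  rw [Finsupp.add_apply]
  omega

private theorem C_only {A : Set β} (c : ℂ) :
    (MvPowerSeries.C c : MvPowerSeries β ℂ) ∈ onlyB A := by
  intro i hi b hb
  exfalso
  apply hi
  rw [MvPowerSeries.coeff_C, if_neg]
  rintro rfl
  exact hb rfl

/-- The evaluation as a ring homomorphism. -/
private noncomputable def evH {p : β → Prop} [DecidablePred p] {r : ℝ}
    {S : Subring (MvPowerSeries β ℂ)} (hS : Evl p r S) (y : {b // p b} → ℂ)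
    (hy : y ∈ Metric.ball (0 : {b // p b} → ℂ) r) : S →+* ℂ where
  toFun f := ev0 p y f.1
  map_one' := by
    have := hS.evC y hy 1
    rw [map_one] at this
    exact this
  map_zero' := by
    have := hS.evC y hy 0
    rw [map_zero] at this
    exact this
  map_add' f g := hS.evadd y hy _ f.2 _ g.2
  map_mul' f g := hS.evmul y hy _ f.2 _ g.2

/-- The logarithmic derivatives, multiplied by the product of the functions. -/
private noncomputable def ww (u : ι → MvPowerSeries β ℂ) (γ : ι → ℂ) (b : β) :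
    MvPowerSeries β ℂ :=
  ∑ i, MvPowerSeries.C (γ i) * MvPowerSeries.pderiv ℂ b (u i) * ∏ i' ∈ Finset.univ.erase i, u i'

private theorem ww_eq (u : ι → MvPowerSeries β ℂ)
    (hne : ∀ i, MvPowerSeries.constantCoeff (u i) ≠ 0) (γ : ι → ℂ) (b : β) :
    ww u γ b = (∏ i, u i) *
      ∑ i, MvPowerSeries.C (γ i) * (MvPowerSeries.pderiv ℂ b (u i) * (u i)⁻¹) := by
  unfold ww
  rw [Finset.mul_sum]
  refine Finset.sum_congr rfl fun i _ => ?_
  rw [← Finset.mul_prod_erase Finset.univ u (Finset.mem_univ i)]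
  have h1 := MvPowerSeries.mul_inv_cancel (u i) (hne i)
  calc MvPowerSeries.C (γ i) * MvPowerSeries.pderiv ℂ b (u i) * ∏ i' ∈ Finset.univ.erase i, u i'
      = MvPowerSeries.C (γ i) * MvPowerSeries.pderiv ℂ b (u i) *
        (∏ i' ∈ Finset.univ.erase i, u i') * (u i * (u i)⁻¹) := by rw [h1, mul_one]
    _ = _ := by ring

private theorem ww_only {A : Set β} (u : ι → MvPowerSeries β ℂ) (hon : ∀ i, u i ∈ onlyB A)
    (γ : ι → ℂ) (b : β) : ww u γ b ∈ onlyB A := by
  unfold ww
  refine Subring.sum_mem _ fun i _ => ?_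
  exact (onlyB A).mul_mem ((onlyB A).mul_mem (C_only _) (pderiv_only (hon i) b))
    (Subring.prod_mem _ fun i' _ => hon i')

private theorem ww_mem {p : β → Prop} [DecidablePred p] {r : ℝ} {S : Subring (MvPowerSeries β ℂ)}
    (hS : Evl p r S) (u : ι → MvPowerSeries β ℂ) (hu : ∀ i, u i ∈ S) (γ : ι → ℂ) (b : β) :
    ww u γ b ∈ S := by
  unfold ww
  refine Subring.sum_mem _ fun i _ => ?_
  exact S.mul_mem (S.mul_mem (hS.memC _) (hS.pd _ (hu i) b)) (Subring.prod_mem _ fun i' _ => hu i')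

private theorem ww_ev {p : β → Prop} [DecidablePred p] {r : ℝ} {S : Subring (MvPowerSeries β ℂ)}
    (hS : Evl p r S) (u : ι → MvPowerSeries β ℂ) (hu : ∀ i, u i ∈ S)
    (hev : ∀ i, ∀ y ∈ Metric.ball (0 : {b // p b} → ℂ) r, ev0 p y (u i) ≠ 0) (γ : ι → ℂ)
    (b : β) (y : {b // p b} → ℂ) (hy : y ∈ Metric.ball (0 : {b // p b} → ℂ) r) :
    ev0 p y (ww u γ b) = (∏ i, ev0 p y (u i)) *
      ∑ i, γ i * ev0 p y (MvPowerSeries.pderiv ℂ b (u i)) / ev0 p y (u i) := by
  let U : ι → S := fun i => ⟨u i, hu i⟩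
  let W : S := ∑ i, (⟨MvPowerSeries.C (γ i), hS.memC _⟩ : S) *
    (⟨MvPowerSeries.pderiv ℂ b (u i), hS.pd _ (hu i) b⟩ : S) * ∏ i' ∈ Finset.univ.erase i, U i'
  have hW : (W : MvPowerSeries β ℂ) = ww u γ b := by
    change S.subtype W = _
    unfold ww
    simp only [W, map_sum, map_mul, map_prod]
    rfl
  have h1 : ev0 p y (ww u γ b) = evH hS y hy W := by
    rw [← hW]
    rfl
  rw [h1, Finset.mul_sum]
  simp only [W, map_sum, map_mul, map_prod]
  refine Finset.sum_congr rfl fun i _ => ?_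
  have h2 : ∀ i, evH hS y hy (U i) = ev0 p y (u i) := fun _ => rfl
  have h3 : evH hS y hy (⟨MvPowerSeries.C (γ i), hS.memC _⟩ : S) = γ i := hS.evC y hy _
  have h4 : evH hS y hy (⟨MvPowerSeries.pderiv ℂ b (u i), hS.pd _ (hu i) b⟩ : S) =
    ev0 p y (MvPowerSeries.pderiv ℂ b (u i)) := rfl
  rw [h3, h4, Finset.prod_congr rfl fun i _ => h2 i,
    ← Finset.mul_prod_erase Finset.univ (fun i => ev0 p y (u i)) (Finset.mem_univ i)]
  have h5 := hev i y hy
  field_simp

private theorem prod_ne (u : ι → MvPowerSeries β ℂ)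
    (hne : ∀ i, MvPowerSeries.constantCoeff (u i) ≠ 0) : ∏ i, u i ≠ 0 := by
  intro h
  have h1 := congrArg MvPowerSeries.constantCoeff h
  rw [map_prod, map_zero] at h1
  exact Finset.prod_ne_zero_iff.2 (fun i _ => hne i) h1

/-- **Logarithmic derivatives: zero as functions implies zero as power series.** Multiply by `U = ∏ u_i`:
`∑_i C (γ i) * pderiv b (u i) * ∏_(i' ≠ i) u_(i')` is in `S` and in `onlyB`, its value at `y` is
`U(y) * ∑ γ_i ∂_b u_i(y) / u_i(y) = 0` (`ev0_aeval`-type computations with `evadd`, `evmul`, `evC`; finite sums and products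
by induction), so it is `0` by `ident`; it is `U * ∑ C (γ i) * (pderiv b (u i) * (u i)⁻¹)` (`u i * (u i)⁻¹ = 1` as the
constant coefficient is not `0`: `MvPowerSeries.mul_inv_cancel`), and `U ≠ 0`. -/
theorem sum_zero {p : β → Prop} [DecidablePred p] {r : ℝ} {S : Subring (MvPowerSeries β ℂ)}
    (hS : Evl p r S) (u : ι → MvPowerSeries β ℂ) (hu : ∀ i, u i ∈ S)
    (hne : ∀ i, MvPowerSeries.constantCoeff (u i) ≠ 0) (hon : ∀ i, u i ∈ onlyB {b | p b})
    (hev : ∀ i, ∀ y ∈ Metric.ball (0 : {b // p b} → ℂ) r, ev0 p y (u i) ≠ 0) (γ : ι → ℂ)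
    (b : {b // p b}) (h : ∀ y ∈ Metric.ball (0 : {b // p b} → ℂ) r,
      ∑ i, γ i * ev0 p y (MvPowerSeries.pderiv ℂ (b : β) (u i)) / ev0 p y (u i) = 0) :
    ∑ i, MvPowerSeries.C (γ i) * (MvPowerSeries.pderiv ℂ (b : β) (u i) * (u i)⁻¹) = 0 := by
  have h1 : ww u γ b = 0 := by
    refine hS.ident _ (ww_mem hS u hu γ b) (ww_only u hon γ b) fun y hy => ?_
    rw [ww_ev hS u hu hev γ b y hy, h y hy, mul_zero]
  rw [ww_eq u hne γ b] at h1
  exact (mul_eq_zero.1 h1).resolve_left (prod_ne u hne)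

/-- **Determinants: a nonzero determinant of power series has a nonzero value somewhere.** `U = ∏ u_i`, `N` the matrix
with the entries `∑_i C (G r i) * pderiv b (u i) * ∏_(i' ≠ i) u_(i') = U * (entry of M)`; `det N = U ^ card * det M ≠ 0` is in
`S` and `onlyB`, so it has a nonzero value at some `y` (`ident`), and the value is
`U(y) ^ card * det (matrix of the values)` (`Matrix.det_apply` or `RingHom.map_det` for the ring homomorphism
`S → ℂ`). -/
theorem det_value {p : β → Prop} [DecidablePred p] {r : ℝ} {S : Subring (MvPowerSeries β ℂ)}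
    (hS : Evl p r S) (u : ι → MvPowerSeries β ℂ) (hu : ∀ i, u i ∈ S)
    (hne : ∀ i, MvPowerSeries.constantCoeff (u i) ≠ 0) (hon : ∀ i, u i ∈ onlyB {b | p b})
    (hev : ∀ i, ∀ y ∈ Metric.ball (0 : {b // p b} → ℂ) r, ev0 p y (u i) ≠ 0)
    (G : {b // p b} → ι → ℂ)
    (h : (Matrix.of fun r b : {b // p b} => ∑ i, MvPowerSeries.C (G r i) *
      (MvPowerSeries.pderiv ℂ (b : β) (u i) * (u i)⁻¹)).det ≠ 0) :
    ∃ y ∈ Metric.ball (0 : {b // p b} → ℂ) r, (Matrix.of fun r b : {b // p b} =>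
      ∑ i, G r i * ev0 p y (MvPowerSeries.pderiv ℂ (b : β) (u i)) / ev0 p y (u i)).det ≠ 0 := by
  classical
  by_contra hcon
  push Not at hcon
  apply h
  let N : Matrix {b // p b} {b // p b} (MvPowerSeries β ℂ) := Matrix.of fun r b => ww u (G r) b
  let NS : Matrix {b // p b} {b // p b} S :=
    Matrix.of fun r b => ⟨ww u (G r) b, ww_mem hS u hu (G r) b⟩
  have hNS : (NS.det : MvPowerSeries β ℂ) = N.det := by
    change S.subtype NS.det = _
    rw [RingHom.map_det]
    rfl
  have h1 : N.det = 0 := by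
    refine hS.ident _ ?_ ?_ fun y hy => ?_
    · rw [← hNS]
      exact NS.det.2
    · rw [Matrix.det_apply]
      refine Subring.sum_mem _ fun σ _ => ?_
      rw [Units.smul_def]
      refine Subring.zsmul_mem _ (Subring.prod_mem _ fun i _ => ?_) _
      exact ww_only u hon _ _
    · have h2 : ev0 p y N.det = evH hS y hy NS.det := by
        rw [← hNS]
        rfl
      rw [h2, RingHom.map_det]
      have h3 : (evH hS y hy).mapMatrix NS = (∏ i, ev0 p y (u i)) •
          (Matrix.of fun r b : {b // p b} =>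
            ∑ i, G r i * ev0 p y (MvPowerSeries.pderiv ℂ (b : β) (u i)) / ev0 p y (u i)) := by
        ext r b
        exact ww_ev hS u hu hev (G r) b y hy
      rw [h3, Matrix.det_smul, hcon y hy, mul_zero]
  have h4 : N = (∏ i, u i) • (Matrix.of fun r b : {b // p b} => ∑ i, MvPowerSeries.C (G r i) *
      (MvPowerSeries.pderiv ℂ (b : β) (u i) * (u i)⁻¹)) := by
    ext1 r b
    exact ww_eq u hne (G r) b
  rw [h4, Matrix.det_smul] at h1
  exact (mul_eq_zero.1 h1).resolve_left (pow_ne_zero _ (prod_ne u hne))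

end Pool.Agent.Zilber
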