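import Pool.Agent.CITLines.Rel

set_option autoImplicit false

/-! CNT 3, 4: the degree of the field over the other variables. -/

namespace Pool.Agent.Zilber

open MvPolynomial Module Pool.Agent.CITLines

private theorem cl_closure {ι E : Type} [Fintype ι] [Field E] {X : ι → E} (hX : ∀ i, X i ≠ 0)
    {x : E} (hx : x ∈ Submonoid.closure (Set.range X)) : ∃ e : ι → ℤ, x = mon X e := by
  classical
  induction hx using Submonoid.closure_induction with
  | mem x h =>
    obtain ⟨i, rfl⟩ := h
    refine ⟨Pi.single i 1, ?_⟩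
    unfold mon
    rw [Finset.prod_eq_single i]
    · rw [Pi.single_eq_same, zpow_one]
    · intro j _ hj
      rw [Pi.single_eq_of_ne hj, zpow_zero]
    · intro h
      exact absurd (Finset.mem_univ i) h
  | one => exact ⟨0, (mon_zero X).symm⟩
  | mul x y _ _ hx hy =>
    obtain ⟨e, rfl⟩ := hx
    obtain ⟨f, rfl⟩ := hy
    exact ⟨e + f, (mon_add' hX e f).symm⟩

private theorem cl_mon_sum {ι E O : Type} [Fintype ι] [Field E] {X : ι → E} (hX : ∀ i, X i ≠ 0)
    (s : Finset O) (y : O → ℕ) (a : O → ι → ℤ) :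
    mon X (∑ o ∈ s, (y o : ℤ) • a o) = ∏ o ∈ s, mon X (a o) ^ y o := by
  classical
  induction s using Finset.induction_on with
  | empty => simp [mon_zero]
  | insert o s ho ih =>
    rw [Finset.sum_insert ho, Finset.prod_insert ho, mon_add' hX, ih, mon_smul, zpow_natCast]

private theorem cl_basis {ι E : Type} [Fintype ι] [Field E] {X : ι → E} (hX : ∀ i, X i ≠ 0)
    (A : Subfield E) (h : A ≤ Subfield.closure (Set.range X))
    (h0 : finrank A (Subfield.extendScalars h) ≠ 0) :
    ∃ e : Fin (finrank A (Subfield.extendScalars h)) → ι → ℤ,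
      LinearIndependent A (fun p => mon X (e p)) := by
  have hfin : FiniteDimensional A (Subfield.extendScalars h) :=
    FiniteDimensional.of_finrank_pos (Nat.pos_of_ne_zero h0)
  have hXF : ∀ i, X i ∈ Subfield.extendScalars h := fun i => Subfield.subset_closure ⟨i, rfl⟩
  have halg : ∀ x ∈ Set.range X, IsAlgebraic A x := by
    rintro _ ⟨i, rfl⟩
    exact IntermediateField.isAlgebraic_iff.1
      (Algebra.IsAlgebraic.isAlgebraic (⟨X i, hXF i⟩ : Subfield.extendScalars h))
  have h1 : Subalgebra.toSubmodule (Algebra.adjoin A (Set.range X)) =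
      Submodule.span A (Submonoid.closure (Set.range X) : Set E) :=
    Algebra.adjoin_eq_span A (Set.range X)
  have h2 := IntermediateField.adjoin_toSubalgebra_of_isAlgebraic halg
  have h3 : Submodule.span A (Submonoid.closure (Set.range X) : Set E) =
      Subalgebra.toSubmodule (Subfield.extendScalars h).toSubalgebra := by
    apply le_antisymm
    · rw [Submodule.span_le]
      intro x hx
      have h4 : Submonoid.closure (Set.range X) ≤
          (Subfield.extendScalars h).toSubalgebra.toSubmonoid := by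
        rw [Submonoid.closure_le]
        rintro _ ⟨i, rfl⟩
        exact hXF i
      exact h4 hx
    · intro x hx
      rw [← h1, ← h2]
      have h5 : Subfield.extendScalars h ≤ IntermediateField.adjoin A (Set.range X) := by
        rw [Subfield.extendScalars_le_iff, Subfield.closure_le]
        rintro _ ⟨i, rfl⟩
        exact IntermediateField.subset_adjoin _ _ ⟨i, rfl⟩
      exact h5 hx
  have h4 : finrank A (Submodule.span A (Submonoid.closure (Set.range X) : Set E)) =
      finrank A (Subfield.extendScalars h) := by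
    rw [h3]
    rfl
  have h5 : Module.Finite A (Submodule.span A (Submonoid.closure (Set.range X) : Set E)) := by
    rw [h3]
    exact hfin
  obtain ⟨f, hf1, -, hf2⟩ := Submodule.exists_fun_fin_finrank_span_eq A
    (Submonoid.closure (Set.range X) : Set E)
  choose e he using fun p => cl_closure hX (hf1 p)
  refine ⟨fun p => e (Fin.cast h4.symm p), ?_⟩
  have h6 := hf2.comp (Fin.cast h4.symm) (Fin.cast_injective _)
  have h7 : (f ∘ Fin.cast h4.symm) = fun p => mon X (e (Fin.cast h4.symm p)) :=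
    funext fun p => he _
  rw [h7] at h6
  exact h6

private theorem cl_indep {E O P : Type} [Field E] [CharZero E] [Fintype O] (A : Subfield E)
    (z : O → E) (hz : ∀ o, z o ∈ A) (hi : AlgebraicIndependent ℚ z) (f : P → E)
    (hf : LinearIndependent A f) (Y : ℕ) :
    LinearIndependent ℚ (fun p : (O → Fin Y) × P => (∏ o, z o ^ (p.1 o : ℕ)) * f p.2) := by
  classical
  have h1 : LinearIndependent ℚ
      (fun y : O → Fin Y => (∏ o, (⟨z o, hz o⟩ : A) ^ (y o : ℕ) : A)) := by
    have h2 : LinearIndependent ℚ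
        ((aeval (R := ℚ) z).toLinearMap ∘ (MvPolynomial.basisMonomials O ℚ)) :=
      (MvPolynomial.basisMonomials O ℚ).linearIndependent.map' (aeval z).toLinearMap
        (LinearMap.ker_eq_bot.2 hi)
    have h3 := h2.comp (fun y : O → Fin Y => Finsupp.equivFunOnFinite.symm
      (fun o => (y o : ℕ))) (by
        intro y y' hy
        have h4 := Finsupp.equivFunOnFinite.symm.injective hy
        funext o
        exact Fin.ext (congrFun h4 o))
    refine LinearIndependent.of_comp (IsScalarTower.toAlgHom ℚ A E).toLinearMap ?_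
    convert h3 using 1
    funext y
    simp only [Function.comp_apply, AlgHom.toLinearMap_apply, IsScalarTower.coe_toAlgHom',
      MvPolynomial.coe_basisMonomials, aeval_monomial, map_one, one_mul, map_prod, map_pow]
    rw [Finsupp.prod_fintype _ _ (fun o => pow_zero _)]
    refine Finset.prod_congr rfl fun o _ => ?_
    rfl
  have h5 := linearIndependent_smul h1 hf
  convert h5 using 1
  funext p
  rw [Algebra.smul_def, map_prod]
  congr 1

/-- **Counting.** `z o = X ^ a o`, `|a o i| ≤ C n (cl i)`, `card β` algebraically independent elements `z o`; the spans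
of the monomials in the `X i` have dimension at most `C₁ ∏ Y`. Then `[ℚ(X) : ℚ(z)] ≤ C' ∏ n`.

Proof. If `ℚ(X)` is infinite over `Z = ℚ(z)` the relative degree is `0`. Otherwise `ℚ(X)` is generated by the `X i` as
a ring over `Z` (algebraic elements), so it has a basis over `Z` of monomials `X ^ e_1, .., X ^ e_m`, `e_a : ι → ℕ`
(`exists` a basis inside the spanning set of the monomials). Let `M` bound all `|e_a i|`. For `Y : ℕ` the elements
`X ^ e_a * ∏_o z_o ^ (y o)`, `y : O → Fin Y`, are linearly independent over `ℚ` (`AlgebraicIndependent` and the basis over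
`Z`), they are monomials in `X` with exponents of absolute value `≤ M + card O * C * n (cl i) * Y ≤ V_l`,
`V_l = ⌈card O * |C| * Y⌉ * n l + M + 1`. So `m Y ^ card O ≤ C₁ ∏_b V_(cb b)`, `card O = card β`; divide by
`Y ^ card β` and let `Y → ∞`: `m ≤ C₁ ∏_b (card O * |C| * n (cb b))` (with `⌈ ⌉`: the limit of `⌈c Y⌉ / Y` is `c`; or use
`⌈c Y⌉ ≤ (c + 1) Y` for `Y ≥ 1` and then the limit only of `(M + 1) / Y`). `C' = C₁ (card O |C| + 1) ^ card β`. -/
theorem c_lim {k : ℕ} {ι β : Type} [Fintype ι] [Fintype β] (cl : ι → Fin (k + 1))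
    (cb : β → Fin (k + 1)) (C C₁ : ℝ) (hC₁ : 0 < C₁) : ∃ C' : ℝ, 0 < C' ∧
    ∀ (E O : Type) [Field E] [CharZero E] [Fintype O] (X : ι → E) (n : Fin (k + 1) → ℕ)
      (a : O → ι → ℤ), Fintype.card O = Fintype.card β → (∀ i, X i ≠ 0) → (∀ l, 1 ≤ n l) →
      (∀ o i, |(a o i : ℝ)| ≤ C * n (cl i)) →
      AlgebraicIndependent ℚ (fun o => mon X (a o)) →
      (∀ Y : Fin (k + 1) → ℕ, (∀ l, 1 ≤ Y l) →
        (finrank ℚ (Submodule.span ℚ {w : E | ∃ e : ι → ℤ, (∀ i, |e i| ≤ Y (cl i)) ∧
          w = mon X e}) : ℝ) ≤ C₁ * ∏ b, (Y (cb b) : ℝ) ∧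
        FiniteDimensional ℚ (Submodule.span ℚ {w : E | ∃ e : ι → ℤ, (∀ i, |e i| ≤ Y (cl i)) ∧
          w = mon X e})) →
      ((Subfield.closure (Set.range fun o => mon X (a o))).relfinrank
        (Subfield.closure (Set.range X)) : ℝ) ≤ C' * ∏ b, (n (cb b) : ℝ) := by
  classical
  set c : ℕ := Fintype.card β * ⌈|C|⌉₊ with hc
  refine ⟨C₁ * ((c : ℝ) + 1) ^ Fintype.card β, by positivity, ?_⟩
  intro E O _ _ _ X n a hcard hX hn ha hi hY
  have hzX : ∀ (S : Subfield E), (∀ i, X i ∈ S) → ∀ e : ι → ℤ, mon X e ∈ S := fun S hS e =>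
    prod_mem fun i _ => zpow_mem (hS i) _
  have hle : Subfield.closure (Set.range fun o => mon X (a o)) ≤
      Subfield.closure (Set.range X) := by
    rw [Subfield.closure_le]
    rintro _ ⟨o, rfl⟩
    exact hzX (Subfield.closure (Set.range X)) (fun i => Subfield.subset_closure ⟨i, rfl⟩) (a o)
  rw [Subfield.relfinrank_eq_finrank_of_le hle]
  have hbas := cl_basis hX _ hle
  generalize finrank (Subfield.closure (Set.range fun o => mon X (a o)))
      (Subfield.extendScalars hle) = m at hbas ⊢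
  by_cases h0 : m = 0
  · rw [h0, Nat.cast_zero]
    positivity
  obtain ⟨e, he⟩ := hbas h0
  obtain ⟨M, hM⟩ : ∃ M : ℕ, ∀ p i, |e p i| ≤ (M : ℤ) := by
    refine ⟨∑ p, ∑ i, (e p i).natAbs, fun p i => ?_⟩
    rw [Int.abs_eq_natAbs]
    refine Int.ofNat_le.2 ?_
    exact (Finset.single_le_sum (f := fun i => (e p i).natAbs) (fun _ _ => Nat.zero_le _)
      (Finset.mem_univ i)).trans (Finset.single_le_sum (f := fun p => ∑ i, (e p i).natAbs)
      (fun _ _ => Nat.zero_le _) (Finset.mem_univ p))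
  have haZ : ∀ o i, |a o i| ≤ ((⌈|C|⌉₊ * n (cl i) : ℕ) : ℤ) := by
    intro o i
    have h1 : (|a o i| : ℝ) ≤ (⌈|C|⌉₊ : ℝ) * n (cl i) := (ha o i).trans
      (mul_le_mul_of_nonneg_right ((le_abs_self C).trans (Nat.le_ceil _)) (Nat.cast_nonneg _))
    have h2 : ((|a o i| : ℤ) : ℝ) ≤ (((⌈|C|⌉₊ * n (cl i) : ℕ) : ℤ) : ℝ) := by
      push_cast
      exact h1
    exact_mod_cast h2
  obtain ⟨hY1, hY2⟩ := hY (fun l => c * (M + 1) * n l + (M + 1)) (fun l => by omega)
  have hind := cl_indep (Subfield.closure (Set.range fun o => mon X (a o)))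
    (fun o => mon X (a o)) (fun o => Subfield.subset_closure ⟨o, rfl⟩) hi
    (fun p => mon X (e p)) he (M + 1)
  have hmem : ∀ p : (O → Fin (M + 1)) × Fin m,
      (∏ o, mon X (a o) ^ (p.1 o : ℕ)) * mon X (e p.2) ∈
      Submodule.span ℚ {w : E | ∃ e : ι → ℤ,
        (∀ i, |e i| ≤ (((fun l => c * (M + 1) * n l + (M + 1)) (cl i) : ℕ) : ℤ)) ∧
          w = mon X e} := by
    intro p
    refine Submodule.subset_span ⟨(∑ o, ((p.1 o : ℕ) : ℤ) • a o) + e p.2, fun i => ?_, ?_⟩
    · rw [Pi.add_apply, Finset.sum_apply]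
      refine (abs_add_le _ _).trans ?_
      have h1 : |∑ o, (((p.1 o : ℕ) : ℤ) • a o) i| ≤
          ∑ _o : O, ((M + 1 : ℕ) : ℤ) * ((⌈|C|⌉₊ * n (cl i) : ℕ) : ℤ) := by
        refine (Finset.abs_sum_le_sum_abs _ _).trans (Finset.sum_le_sum fun o _ => ?_)
        rw [Pi.smul_apply, smul_eq_mul, abs_mul]
        refine mul_le_mul ?_ (haZ o i) (abs_nonneg _) (Int.natCast_nonneg _)
        rw [abs_of_nonneg (Int.natCast_nonneg _)]
        exact Int.ofNat_le.2 (p.1 o).2.le
      rw [Finset.sum_const, Finset.card_univ, hcard, nsmul_eq_mul] at h1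
      have h2 := hM p.2 i
      have h3 : (((c * (M + 1) * n (cl i) + (M + 1) : ℕ)) : ℤ) =
          (Fintype.card β : ℤ) * (((M + 1 : ℕ) : ℤ) * ((⌈|C|⌉₊ * n (cl i) : ℕ) : ℤ)) +
            (M + 1) := by
        rw [hc]
        push_cast
        ring
      change _ ≤ (((c * (M + 1) * n (cl i) + (M + 1) : ℕ)) : ℤ)
      rw [h3]
      linarith
    · rw [mon_add' hX, cl_mon_sum hX]
  have hcard2 : (M + 1) ^ Fintype.card β * m ≤
      finrank ℚ (Submodule.span ℚ {w : E | ∃ e : ι → ℤ,
        (∀ i, |e i| ≤ (((fun l => c * (M + 1) * n l + (M + 1)) (cl i) : ℕ) : ℤ)) ∧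
          w = mon X e}) := by
    have h1 : LinearIndependent ℚ (fun p => (⟨_, hmem p⟩ : Submodule.span ℚ {w : E |
        ∃ e : ι → ℤ,
        (∀ i, |e i| ≤ (((fun l => c * (M + 1) * n l + (M + 1)) (cl i) : ℕ) : ℤ)) ∧
          w = mon X e})) := by
      refine LinearIndependent.of_comp (Submodule.subtype _) ?_
      exact hind
    have := hY2
    have h2 := h1.fintype_card_le_finrank
    rw [Fintype.card_prod, Fintype.card_fun, Fintype.card_fin, Fintype.card_fin, hcard] at h2
    exact h2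
  have hfin : (((M + 1) ^ Fintype.card β * m : ℕ) : ℝ) ≤
      C₁ * ∏ b, (((c * (M + 1) * n (cb b) + (M + 1) : ℕ)) : ℝ) :=
    (Nat.cast_le.2 hcard2).trans hY1
  have hprod : ∏ b, (((c * (M + 1) * n (cb b) + (M + 1) : ℕ)) : ℝ) ≤
      ∏ b, ((((c : ℝ) + 1) * (M + 1)) * n (cb b)) := by
    refine Finset.prod_le_prod (fun b _ => Nat.cast_nonneg _) fun b _ => ?_
    push_cast
    have h1 : (1 : ℝ) ≤ n (cb b) := by exact_mod_cast hn (cb b)
    have h2 : (0 : ℝ) ≤ (M : ℝ) + 1 := by positivity
    nlinarith [mul_nonneg h2 (sub_nonneg.2 h1)]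
  rw [Finset.prod_mul_distrib, Finset.prod_const, Finset.card_univ, mul_pow] at hprod
  have hpos : (0 : ℝ) < ((M : ℝ) + 1) ^ Fintype.card β := by positivity
  have h9 : ((M : ℝ) + 1) ^ Fintype.card β * (m : ℝ) ≤ ((M : ℝ) + 1) ^ Fintype.card β *
      (C₁ * ((c : ℝ) + 1) ^ Fintype.card β * ∏ b, (n (cb b) : ℝ)) := by
    have h10 := hfin.trans (mul_le_mul_of_nonneg_left hprod hC₁.le)
    push_cast at h10
    refine h10.trans (le_of_eq ?_)
    ring
  exact le_of_mul_le_mul_left h9 hpos

end Pool.Agent.Zilber
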