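import Pool.Agent.Zilber.DDefs
import Pool.Agent.LSharp.BRPrim
import Pool.Agent.LSharp.NVX

set_option autoImplicit false

/-! CNT 1, 2: the field of the branch over the rational numbers. -/

namespace Pool.Agent.Zilber

open Filter NumberField Module Pool.Agent.LAll Pool.Agent.LSharp Pool.Agent.CITLines

variable {J : Type} {𝒰 : Ultrafilter J} {K : J → Type} [∀ j, Field (K j)] [∀ j, NumberField (K j)]
  {k : ℕ} {s : Fin (k + 1) → J → ℝ} {ι β : Type} [Fintype ι]
  [Fintype β] [DecidableEq β] {cl : ι → Fin (k + 1)} {x : ι → Ult 𝒰 K} {bs : β → ι}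
  {X : ι → Ult 𝒰 (PS β K)}

/-- The series `t + ζ` are algebraically independent over the field of coefficients. -/
private theorem crk_ind {γ F : Type} [Field F] (t : γ → F) :
    AlgebraicIndependent F
      (fun b => (MvPowerSeries.C (t b) + MvPowerSeries.X b : MvPowerSeries γ F)) := by
  rw [algebraicIndependent_iff_injective_aeval]
  have h1 : (MvPolynomial.aeval (R := F) fun b =>
      (MvPowerSeries.C (t b) + MvPowerSeries.X b : MvPowerSeries γ F)) =
      (MvPolynomial.coeToMvPowerSeries.algHom F).comp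
        (MvPolynomial.aeval (R := F) fun b =>
          (MvPolynomial.C (t b) + MvPolynomial.X b : MvPolynomial γ F)) := by
    refine MvPolynomial.algHom_ext fun b => ?_
    rw [MvPolynomial.aeval_X, AlgHom.comp_apply, MvPolynomial.aeval_X]
    simp
  have h2 : (MvPolynomial.aeval (R := F) fun b =>
      (MvPolynomial.X b - MvPolynomial.C (t b) : MvPolynomial γ F)).comp
        (MvPolynomial.aeval (R := F) fun b =>
          (MvPolynomial.C (t b) + MvPolynomial.X b : MvPolynomial γ F)) =
      AlgHom.id F (MvPolynomial γ F) := by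
    refine MvPolynomial.algHom_ext fun b => ?_
    rw [AlgHom.comp_apply, MvPolynomial.aeval_X, map_add, MvPolynomial.aeval_X]
    have h3 : (MvPolynomial.aeval (R := F) fun b =>
      (MvPolynomial.X b - MvPolynomial.C (t b) : MvPolynomial γ F)) (MvPolynomial.C (t b)) =
        MvPolynomial.C (t b) := MvPolynomial.aeval_C _ _
    rw [h3, add_sub_cancel]
    rfl
  have h4 : Function.Injective (MvPolynomial.aeval (R := F) fun b =>
      (MvPolynomial.C (t b) + MvPolynomial.X b : MvPolynomial γ F)) := by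
    refine Function.LeftInverse.injective (g := MvPolynomial.aeval (R := F) fun b =>
      (MvPolynomial.X b - MvPolynomial.C (t b) : MvPolynomial γ F)) fun P => ?_
    exact DFunLike.congr_fun h2 P
  have h5 : Function.Injective (MvPolynomial.coeToMvPowerSeries.algHom (R := F) (σ := γ) F) := by
    intro P Q hPQ
    apply MvPolynomial.coe_injective γ F
    simpa using hPQ
  rw [h1]
  exact h5.comp h4

/-- The same over the rational numbers, in the fraction field. -/
private theorem crk_indQ {γ F : Type} [Field F] [CharZero F] (t : γ → F) :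
    AlgebraicIndependent ℚ (fun b => algebraMap (MvPowerSeries γ F)
      (FractionRing (MvPowerSeries γ F)) (MvPowerSeries.C (t b) + MvPowerSeries.X b)) := by
  have h1 := (crk_ind t).map' (f := IsScalarTower.toAlgHom F (MvPowerSeries γ F)
    (FractionRing (MvPowerSeries γ F))) (IsFractionRing.injective _ _)
  exact h1.restrictScalars (R := ℚ) (algebraMap ℚ F).injective

/-- A power series given by a primitive element is algebraic over the field of the variables. -/
private theorem crk_alg {γ F : Type} [Fintype γ] [DecidableEq γ] [Field F] [CharZero F]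
    (t : γ → F)
    (Θ y : MvPowerSeries γ F) (Pi N : Polynomial (MvPolynomial γ ℤ)) (Δ : MvPolynomial γ ℤ)
    (hPi : 0 < Pi.natDegree) (hΔ : Δ ≠ 0) (hΘ : Pi.eval₂ (evT t) Θ = 0)
    (hy : evT t Δ * y = N.eval₂ (evT t) Θ) :
    IsAlgebraic (Algebra.adjoin ℚ (Set.range fun b => algebraMap (MvPowerSeries γ F)
      (FractionRing (MvPowerSeries γ F)) (MvPowerSeries.C (t b) + MvPowerSeries.X b)))
      (algebraMap (MvPowerSeries γ F) (FractionRing (MvPowerSeries γ F)) y) := by
  set Q := FractionRing (MvPowerSeries γ F)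
  set am := algebraMap (MvPowerSeries γ F) Q with ham
  set S := Algebra.adjoin ℚ (Set.range fun b => am (MvPowerSeries.C (t b) + MvPowerSeries.X b))
  have hinj : Function.Injective am := IsFractionRing.injective _ _
  have hevT : Function.Injective (evT t) := by
    rw [injective_iff_map_eq_zero]
    intro q hq
    by_contra h
    exact evT_ne_zero t q h hq
  let ε : MvPolynomial γ ℤ →+* S := MvPolynomial.eval₂Hom (Int.castRingHom S)
    (fun b => ⟨am (MvPowerSeries.C (t b) + MvPowerSeries.X b), Algebra.subset_adjoin ⟨b, rfl⟩⟩)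
  have hε : (algebraMap S Q).comp ε = am.comp (evT t) := by
    refine MvPolynomial.ringHom_ext (fun r => ?_) fun b => ?_
    · have h1 : (MvPolynomial.C r : MvPolynomial γ ℤ) = (r : MvPolynomial γ ℤ) :=
        map_intCast MvPolynomial.C r
      rw [h1, map_intCast, map_intCast]
    · have h1 : ε (MvPolynomial.X b) =
          ⟨am (MvPowerSeries.C (t b) + MvPowerSeries.X b), Algebra.subset_adjoin ⟨b, rfl⟩⟩ :=
        MvPolynomial.eval₂Hom_X' _ _ _
      have h2 : evT t (MvPolynomial.X b) = MvPowerSeries.C (t b) + MvPowerSeries.X b :=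
        MvPolynomial.aeval_X _ _
      rw [RingHom.comp_apply, RingHom.comp_apply, h1, h2]
      rfl
  have hεi : Function.Injective ε := by
    have h1 : Function.Injective ((algebraMap S Q).comp ε) := by
      rw [hε]
      exact hinj.comp hevT
    rw [RingHom.coe_comp] at h1
    exact Function.Injective.of_comp h1
  have hev : ∀ P : Polynomial (MvPolynomial γ ℤ),
      Polynomial.aeval (am Θ) (P.map ε) = am (P.eval₂ (evT t) Θ) := by
    intro P
    rw [Polynomial.aeval_def, Polynomial.eval₂_map, hε, Polynomial.hom_eval₂]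
  have hθ : IsAlgebraic S (am Θ) := by
    refine ⟨Pi.map ε, ?_, ?_⟩
    · rw [Polynomial.map_ne_zero_iff hεi]
      rintro rfl
      simp at hPi
    · rw [hev, hΘ, map_zero]
  have hN : IsAlgebraic S (am (N.eval₂ (evT t) Θ)) := by
    rw [← hev]
    have h1 := (Polynomial.aeval (⟨am Θ, hθ⟩ : Subalgebra.algebraicClosure S Q) (N.map ε)).2
    rw [Polynomial.aeval_subalgebra_coe] at h1
    exact h1
  have hD : IsAlgebraic S (am (evT t Δ)) := by
    have h1 : am (evT t Δ) = algebraMap S Q (ε Δ) := (RingHom.congr_fun hε Δ).symm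
    rw [h1]
    exact isAlgebraic_algebraMap _
  have hD0 : am (evT t Δ) ≠ 0 := by
    rw [Ne, map_eq_zero_iff am hinj]
    exact evT_ne_zero t Δ hΔ
  have h1 : am y = am (N.eval₂ (evT t) Θ) * (am (evT t Δ))⁻¹ := by
    rw [← hy, map_mul, mul_comm, ← mul_assoc, inv_mul_cancel₀ hD0, one_mul]
  rw [h1]
  exact hN.mul (IsAlgebraic.inv_iff.2 hD)

/-- The field generated by the branch over `ℚ` has transcendence degree `card β`.

Proof. At most `j` the `X (bs b) = C (x_b) + X_b` (class of `cst (x (bs b)) + XU b`) are algebraically independent over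
`ℚ` (even over `K j`: a polynomial in `c_b + X_b`; translate: `LSharp.evT_ne_zero`, `coeff_evT` in NVX, or
`MvPolynomial.coe`), which gives `≥`. For `≤`: by `rel_primitive` for each block `l` (`A = {b | cl (bs b) = l}`, `s := s l`,
`L, τ` from `hX.ex l`, `u` = the `x i`, `cl i = l`): `Δ(t + ζ) X_i = N_i(t + ζ, Θ)`, `Π(t + ζ, Θ) = 0`, with integral polynomials,
`Δ(t + ζ) ≠ 0` and `Π` of positive degree over the domain `ℤ[t + ζ]`: so `Θ` is algebraic over `ℚ(t + ζ)` and `X_i` is in
`ℚ(t + ζ, Θ)`: algebraic over `ℚ(X (bs b))` (`rk_le_of_algebraic`, `rk_le_encard`). -/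
theorem rk_branch (hc : Conf 𝒰 K s (FD 𝒰 K s) cl x bs) (hX : Br 𝒰 K (FD 𝒰 K s) cl x bs X) :
    ∀ᶠ j in (𝒰 : Filter J), rk ℚ (Set.range (fr fun i => (X i).rep j)) = Fintype.card β := by
  classical
  have hB : ∀ᶠ j in (𝒰 : Filter J), ∀ b : β,
      (X (bs b)).rep j = MvPowerSeries.C ((x (bs b)).rep j) + MvPowerSeries.X b := by
    rw [Filter.eventually_all]
    intro b
    obtain ⟨L, τ, -, hxL, -, -, -, h3, -, h5⟩ := hX.ex (cl (bs b))
    have e1 : X (bs b) = cst β K (x (bs b)) + XU K b := by
      rw [h5 (bs b) rfl ⟨x (bs b), hxL (bs b) rfl⟩ rfl]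
      exact h3 b rfl ⟨x (bs b), hxL (bs b) rfl⟩ rfl
    have e2 : cst β K (x (bs b)) + XU K b =
        Ult.mk 𝒰 (PS β K) (fun j => MvPowerSeries.C ((x (bs b)).rep j) + MvPowerSeries.X b) := by
      have h2 : cst β K (x (bs b)) =
          Ult.mk 𝒰 (PS β K) (fun j => MvPowerSeries.C ((x (bs b)).rep j)) := by
        conv_lhs => rw [← Ult.mk_rep (x (bs b))]
        rfl
      rw [h2]
      exact (map_add (Ult.mk 𝒰 (PS β K)) (fun j => MvPowerSeries.C ((x (bs b)).rep j))
        fun j => MvPowerSeries.X b).symm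
    rw [e1, e2]
    exact Ult.rep_mk _
  have hA : ∀ᶠ j in (𝒰 : Filter J), ∀ l : Fin (k + 1), ∃ (Θ : MvPowerSeries β (K j))
      (Pi : Polynomial (MvPolynomial β ℤ)) (Δ : MvPolynomial β ℤ)
      (N : {i // cl i = l} → Polynomial (MvPolynomial β ℤ)),
      0 < Pi.natDegree ∧ Δ ≠ 0 ∧ Pi.eval₂ (evT fun b => (x (bs b)).rep j) Θ = 0 ∧
      ∀ i : {i // cl i = l}, evT (fun b => (x (bs b)).rep j) Δ * (X i).rep j =
        (N i).eval₂ (evT fun b => (x (bs b)).rep j) Θ := by
    rw [Filter.eventually_all]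
    intro l
    obtain ⟨L, τ, hFL, hxL, halg, h1, h2, h3, h4, h5⟩ := hX.ex l
    have hset : (fun b => x (bs b)) '' ((Finset.univ.filter fun b => cl (bs b) = l : Finset β) :
        Set β) = {y | ∃ b, cl (bs b) = l ∧ y = x (bs b)} := by
      ext y
      constructor
      · rintro ⟨b, hb, rfl⟩
        exact ⟨b, by simpa using hb, rfl⟩
      · rintro ⟨b, hb, rfl⟩
        exact ⟨b, by simpa using hb, rfl⟩
    obtain ⟨D, hD⟩ := rel_primitive (s l) (Finset.univ.filter fun b => cl (bs b) = l)
      (fun b => x (bs b))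
      ((hc.ind l).comp
        (fun b : {b // b ∈ Finset.univ.filter fun b => cl (bs b) = l} =>
          (⟨b.1, (Finset.mem_filter.1 b.2).2⟩ : {b // cl (bs b) = l}))
        (fun b b' hb => Subtype.ext (show b.1 = b'.1 from Subtype.mk.inj hb)))
      L τ hFL (fun b hb => hxL (bs b) (Finset.mem_filter.1 hb).2) h2
      (fun b hb y hy => h3 b (Finset.mem_filter.1 hb).2 y hy)
      (I := {i // cl i = l}) (fun i => ⟨x i.1, hxL i.1 i.2⟩)
      (fun i => by rw [hset]; exact halg _)
    filter_upwards [hD] with j hj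
    obtain ⟨Θ, Pi, Δ, N, p1, -, p3, -, -, p6, p7⟩ := hj
    refine ⟨Θ, Pi, Δ, N, p1, p3, p6, fun i => ?_⟩
    have h6 := p7 i
    rw [← h5 i.1 i.2 ⟨x i.1, hxL i.1 i.2⟩ rfl] at h6
    exact h6
  filter_upwards [hA, hB] with j hA hB
  have hbs : ∀ b, fr (fun i => (X i).rep j) (bs b) = algebraMap (MvPowerSeries β (K j))
      (FractionRing (MvPowerSeries β (K j)))
        (MvPowerSeries.C ((x (bs b)).rep j) + MvPowerSeries.X b) := by
    intro b
    rw [← hB b]
    rfl
  have hind := crk_indQ fun b => (x (bs b)).rep j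
  have hr := rk_range_of_indep _ hind
  refine le_antisymm ?_ ?_
  · rw [← hr]
    refine rk_le_of_algebraic ?_
    rintro _ ⟨i, rfl⟩
    obtain ⟨Θ, Pi, Δ, N, p1, p3, p6, p7⟩ := hA (cl i)
    exact crk_alg _ Θ _ Pi (N ⟨i, rfl⟩) Δ p1 p3 p6 (p7 ⟨i, rfl⟩)
  · rw [← hr]
    refine rk_mono ?_
    rintro _ ⟨b, rfl⟩
    exact ⟨bs b, hbs b⟩

end Pool.Agent.Zilber
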