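import Pool.Agent.Zilber.DDefs
import Pool.Agent.LSharp.BRPrim

set_option autoImplicit false

/-! CNT 1, 2: the field of the branch over the rational numbers. -/

namespace Pool.Agent.Zilber

open Filter NumberField Module Pool.Agent.LAll Pool.Agent.LSharp Pool.Agent.CITLines

section

variable {Ω : Type} [Field Ω] [Algebra ℚ Ω] {β : Type} [Fintype β] [DecidableEq β]

/-- The value of a polynomial. -/
private noncomputable def ev {Ω : Type} [Field Ω] {β : Type} (T : β → Ω) :
    MvPolynomial β ℤ →+* Ω := MvPolynomial.eval₂Hom (Int.castRingHom Ω) T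

/-- Monomials in the `T b` and a power of `θ`. -/
private noncomputable def cm (T : β → Ω) (θ : Ω) (a : β → ℕ) (i : ℕ) : Ω :=
  (∏ b, T b ^ a b) * θ ^ i

/-- The span of the monomials with bounded exponents. -/
private noncomputable def WW (T : β → Ω) (θ : Ω) (A : Finset β) (p q : ℕ) : Submodule ℚ Ω :=
  Submodule.span ℚ {w | ∃ (a : β → ℕ) (i : ℕ), (∀ b, a b ≤ p) ∧ (∀ b, b ∉ A → a b = 0) ∧ i ≤ q ∧
    w = cm T θ a i}

variable {T : β → Ω} {θ : Ω} {A : Finset β}

omit [DecidableEq β] in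
private theorem cm_mem {p q : ℕ} {a : β → ℕ} {i : ℕ} (h1 : ∀ b, a b ≤ p)
    (h2 : ∀ b, b ∉ A → a b = 0) (h3 : i ≤ q) : cm T θ a i ∈ WW T θ A p q :=
  Submodule.subset_span ⟨a, i, h1, h2, h3, rfl⟩

omit [DecidableEq β] in
private theorem WW_mono {p q p' q' : ℕ} (hp : p ≤ p') (hq : q ≤ q') :
    WW T θ A p q ≤ WW T θ A p' q' := by
  refine Submodule.span_mono ?_
  rintro _ ⟨a, i, h1, h2, h3, rfl⟩
  exact ⟨a, i, fun b => (h1 b).trans hp, h2, h3.trans hq, rfl⟩

omit [DecidableEq β] [Algebra ℚ Ω] in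
private theorem cm_mul (a a' : β → ℕ) (i i' : ℕ) :
    cm T θ a i * cm T θ a' i' = cm T θ (a + a') (i + i') := by
  unfold cm
  simp only [Pi.add_apply, pow_add, Finset.prod_mul_distrib]
  ring

omit [DecidableEq β] in
private theorem WW_mul {p q p' q' : ℕ} {u v : Ω} (hu : u ∈ WW T θ A p q)
    (hv : v ∈ WW T θ A p' q') : u * v ∈ WW T θ A (p + p') (q + q') := by
  have h1 := Submodule.mul_mem_mul hu hv
  unfold WW at h1
  rw [Submodule.span_mul_span] at h1
  refine (Submodule.span_le.2 ?_) h1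
  rintro _ ⟨_, ⟨a, i, h2, h3, h4, rfl⟩, _, ⟨a', i', h5, h6, h7, rfl⟩, rfl⟩
  change cm T θ a i * cm T θ a' i' ∈ WW T θ A (p + p') (q + q')
  rw [cm_mul]
  exact cm_mem (fun b => Nat.add_le_add (h2 b) (h5 b))
    (fun b hb => by rw [Pi.add_apply, h3 b hb, h6 b hb]) (Nat.add_le_add h4 h7)

omit [DecidableEq β] in
private theorem WW_one : (1 : Ω) ∈ WW T θ A 0 0 := by
  have h1 : (1 : Ω) = cm T θ 0 0 := by
    unfold cm
    simp
  rw [h1]
  exact cm_mem (fun b => le_rfl) (fun b _ => rfl) le_rfl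

omit [DecidableEq β] in
private theorem WW_pow {p q : ℕ} {u : Ω} (hu : u ∈ WW T θ A p q) (n : ℕ) :
    u ^ n ∈ WW T θ A (p * n) (q * n) := by
  induction n with
  | zero =>
    rw [pow_zero, mul_zero, mul_zero]
    exact WW_one
  | succ n ih =>
    rw [pow_succ, Nat.mul_succ, Nat.mul_succ]
    exact WW_mul ih hu

/-- The polynomial is of degree `≤ D` and has its variables in `A`. -/
private def CsB (A : Finset β) (D : ℕ) (P : MvPolynomial β ℤ) : Prop :=
  (∀ b ∈ P.vars, b ∈ A) ∧ P.totalDegree ≤ D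

omit [DecidableEq β] in
private theorem WW_poly {D : ℕ} {P : MvPolynomial β ℤ} (hP : CsB A D P) :
    ev T P ∈ WW T θ A D 0 := by
  have h0 : ev T P = P.eval₂ (Int.castRingHom Ω) T := rfl
  rw [h0, MvPolynomial.eval₂_eq']
  refine Submodule.sum_mem _ fun d hd => ?_
  have h1 : (Int.castRingHom Ω) (P.coeff d) * ∏ b, T b ^ d b =
      ((P.coeff d : ℤ) : ℚ) • cm T θ (fun b => d b) 0 := by
    rw [Algebra.smul_def, map_intCast]
    unfold cm
    rw [pow_zero, mul_one]
    rfl
  rw [h1]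
  refine Submodule.smul_mem _ _ (cm_mem (fun b => ?_) (fun b hb => ?_) le_rfl)
  · have h2 : d b ≤ P.totalDegree := by
      have h3 := MvPolynomial.degreeOf_le_totalDegree P b
      exact ((MvPolynomial.degreeOf_le_iff.1 le_rfl) d hd).trans h3
    exact h2.trans hP.2
  · by_contra hne
    exact hb (hP.1 b ((MvPolynomial.mem_vars_iff_mem_support b).2
      ⟨d, hd, Finsupp.mem_support_iff.2 hne⟩))

omit [DecidableEq β] in
private theorem WW_theta (i : ℕ) : θ ^ i ∈ WW T θ A 0 i := by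
  have h1 : θ ^ i = cm T θ 0 i := by
    unfold cm
    simp
  rw [h1]
  exact cm_mem (fun b => le_rfl) (fun b _ => rfl) le_rfl

omit [DecidableEq β] in
private theorem WW_eval {D : ℕ} {N : Polynomial (MvPolynomial β ℤ)} (hN : N.natDegree ≤ D)
    (hc : ∀ n, CsB A D (N.coeff n)) :
    N.eval₂ (ev T) θ ∈ WW T θ A D D := by
  rw [Polynomial.eval₂_eq_sum_range' _ (Nat.lt_succ_of_le hN)]
  refine Submodule.sum_mem _ fun n hn => ?_
  have h1 : (ev T) (N.coeff n) ∈ WW T θ A D 0 := WW_poly (hc n)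
  have h2 := WW_mul h1 (WW_theta (T := T) (θ := θ) (A := A) n)
  exact WW_mono (by omega) (by have := Finset.mem_range.1 hn; omega) h2

omit [DecidableEq β] in
/-- One step of the reduction of the powers of `θ`. -/
private theorem WW_red {D d : ℕ} {Pi : Polynomial (MvPolynomial β ℤ)} (hd : Pi.natDegree = d + 1)
    (hc : ∀ n, CsB A D (Pi.coeff n))
    (h0 : Pi.eval₂ (ev T) θ = 0) {p q : ℕ} {v : Ω}
    (hv : v ∈ WW T θ A p (d + (q + 1))) :
    ev T (Pi.coeff (d + 1)) * v ∈ WW T θ A (p + D) (d + q) := by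
  set c : Ω := ev T (Pi.coeff (d + 1)) with hcd
  have hcW : c ∈ WW T θ A D 0 := WW_poly (hc _)
  have hlow : c * θ ^ (d + 1) ∈ WW T θ A D d := by
    rw [Polynomial.eval₂_eq_sum_range, hd, Finset.sum_range_succ] at h0
    have h1 : c * θ ^ (d + 1) = - ∑ n ∈ Finset.range (d + 1),
        (ev T) (Pi.coeff n) * θ ^ n :=
      eq_neg_of_add_eq_zero_right h0
    rw [h1]
    refine Submodule.neg_mem _ (Submodule.sum_mem _ fun n hn => ?_)
    have h2 : (ev T) (Pi.coeff n) ∈ WW T θ A D 0 := WW_poly (hc n)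
    have h3 := WW_mul h2 (WW_theta (T := T) (θ := θ) (A := A) n)
    exact WW_mono (by omega) (by have := Finset.mem_range.1 hn; omega) h3
  have key : (WW T θ A p (d + (q + 1))).map (LinearMap.mulLeft ℚ c) ≤
      WW T θ A (p + D) (d + q) := by
    conv_lhs => unfold WW
    rw [Submodule.map_span_le]
    rintro _ ⟨a, i, h1, h2, h3, rfl⟩
    rw [LinearMap.mulLeft_apply]
    rcases Nat.lt_or_ge i (d + (q + 1)) with hi | hi
    · have hi2 : i ≤ d + q := by omega
      have h4 := WW_mul hcW (cm_mem (T := T) (θ := θ) h1 h2 hi2)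
      exact WW_mono (by omega) (by omega) h4
    · have hi' : i = q + (d + 1) := by omega
      have h4 : c * cm T θ a i = (c * θ ^ (d + 1)) * cm T θ a q := by
        unfold cm
        rw [hi', pow_add]
        ring
      rw [h4]
      have h5 := WW_mul hlow (cm_mem (T := T) (θ := θ) (q := q) h1 h2 le_rfl)
      exact WW_mono (by omega) (by omega) h5
  exact key (Submodule.mem_map.2 ⟨v, hv, rfl⟩)

omit [DecidableEq β] in
private theorem WW_reds {D d : ℕ} {Pi : Polynomial (MvPolynomial β ℤ)}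
    (hd : Pi.natDegree = d + 1) (hc : ∀ n, CsB A D (Pi.coeff n))
    (h0 : Pi.eval₂ (ev T) θ = 0) (q : ℕ) {p : ℕ} {v : Ω}
    (hv : v ∈ WW T θ A p (d + q)) :
    ev T (Pi.coeff (d + 1)) ^ q * v ∈ WW T θ A (p + q * D) d := by
  induction q generalizing p v with
  | zero =>
    rw [pow_zero, one_mul, zero_mul]
    exact hv
  | succ q ih =>
    have h1 := ih (WW_red hd hc h0 hv)
    have h2 : ev T (Pi.coeff (d + 1)) ^ (q + 1) * v =
        ev T (Pi.coeff (d + 1)) ^ q *
          (ev T (Pi.coeff (d + 1)) * v) := by ring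
    rw [h2]
    exact WW_mono (le_of_eq (by ring)) le_rfl h1

/-- The span is generated by few elements. -/
private theorem WW_gen (T : β → Ω) (θ : Ω) (A : Finset β) (p q : ℕ) :
    ∃ g : ({b // b ∈ A} → Fin (p + 1)) × Fin (q + 1) → Ω,
      WW T θ A p q ≤ Submodule.span ℚ (Set.range g) := by
  refine ⟨fun x => cm T θ (fun b => if h : b ∈ A then (x.1 ⟨b, h⟩ : ℕ) else 0) x.2, ?_⟩
  refine Submodule.span_mono ?_
  rintro _ ⟨a, i, h1, h2, h3, rfl⟩
  refine ⟨(fun b => ⟨a b, Nat.lt_succ_of_le (h1 b)⟩, ⟨i, Nat.lt_succ_of_le h3⟩), ?_⟩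
  have h4 : (fun b => if h : b ∈ A then
      (((fun b : {b // b ∈ A} => (⟨a b, Nat.lt_succ_of_le (h1 b)⟩ : Fin (p + 1))) ⟨b, h⟩ :
        Fin (p + 1)) : ℕ) else 0) = a := by
    funext b
    split_ifs with h
    · rfl
    · exact (h2 b h).symm
  exact congrArg (fun a => cm T θ a i) h4

/-- **One block.** -/
private theorem block_span {ι : Type} (I : Finset ι) (z : ι → Ω)
    (T : β → Ω) (A : Finset β) (θ : Ω) (D : ℕ) (Pi : Polynomial (MvPolynomial β ℤ))
    (Δ : MvPolynomial β ℤ) (N : ι × Bool → Polynomial (MvPolynomial β ℤ))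
    (hd : 0 < Pi.natDegree) (hdD : Pi.natDegree ≤ D) (hcP : ∀ n, CsB A D (Pi.coeff n))
    (hΔ : CsB A D Δ) (hN : ∀ i, (N i).natDegree ≤ D) (hcN : ∀ i n, CsB A D ((N i).coeff n))
    (h0 : Pi.eval₂ (ev T) θ = 0)
    (hT : ∀ P : MvPolynomial β ℤ, P ≠ 0 → ev T P ≠ 0) (hΔ0 : Δ ≠ 0)
    (h1 : ∀ i ∈ I, ev T Δ * z i =
      (N (i, true)).eval₂ (ev T) θ)
    (h2 : ∀ i ∈ I, ev T Δ * (z i)⁻¹ =
      (N (i, false)).eval₂ (ev T) θ) (Y : ℕ) :
    ∃ (g : ({b // b ∈ A} → Fin ((D + D * D) * (I.card * Y) + 1)) × Fin (D + 1) → Ω) (u : Ω),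
      u ≠ 0 ∧ ∀ e : ι → ℤ, (∀ i ∈ I, |e i| ≤ Y) →
        u * ∏ i ∈ I, z i ^ e i ∈ Submodule.span ℚ (Set.range g) := by
  classical
  obtain ⟨d, hd'⟩ := Nat.exists_eq_succ_of_ne_zero hd.ne'
  set M := I.card * Y with hM
  obtain ⟨g, hg⟩ := WW_gen T θ A ((D + D * D) * M) D
  set δ : Ω := ev T Δ with hδ
  set c : Ω := ev T (Pi.coeff (d + 1)) with hc
  have hc0 : Pi.coeff (d + 1) ≠ 0 := by
    intro h
    have h3 : Pi.leadingCoeff = 0 := by
      rw [Polynomial.leadingCoeff, hd']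
      exact h
    rw [Polynomial.leadingCoeff_eq_zero.1 h3, Polynomial.natDegree_zero] at hd
    exact lt_irrefl 0 hd
  have hδW : δ ∈ WW T θ A D 0 := WW_poly hΔ
  refine ⟨g, c ^ (D * M) * δ ^ M, mul_ne_zero (pow_ne_zero _ (hT _ hc0))
    (pow_ne_zero _ (hT _ hΔ0)), fun e he => hg ?_⟩
  -- one factor
  have hone : ∀ i ∈ I, δ ^ (e i).natAbs * z i ^ e i ∈
      WW T θ A (D * (e i).natAbs) (D * (e i).natAbs) := by
    intro i hi
    rcases Int.natAbs_eq (e i) with h | h
    · have h3 : z i ^ e i = z i ^ (e i).natAbs := by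
        conv_lhs => rw [h, zpow_natCast]
      rw [h3, ← mul_pow, h1 i hi]
      exact WW_pow (WW_eval (hN _) (hcN _)) _
    · have h3 : z i ^ e i = (z i)⁻¹ ^ (e i).natAbs := by
        conv_lhs => rw [h, zpow_neg, zpow_natCast, ← inv_pow]
      rw [h3, ← mul_pow, h2 i hi]
      exact WW_pow (WW_eval (hN _) (hcN _)) _
  have hprod : ∀ s ⊆ I, δ ^ (∑ i ∈ s, (e i).natAbs) * ∏ i ∈ s, z i ^ e i ∈
      WW T θ A (D * ∑ i ∈ s, (e i).natAbs) (D * ∑ i ∈ s, (e i).natAbs) := by
    intro s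
    induction s using Finset.induction_on with
    | empty =>
      intro _
      rw [Finset.sum_empty, Finset.prod_empty, pow_zero, mul_one, mul_zero]
      exact WW_one
    | insert a s ha ih =>
      intro hs
      rw [Finset.sum_insert ha, Finset.prod_insert ha]
      have h3 := WW_mul (hone a (hs (Finset.mem_insert_self a s)))
        (ih fun x hx => hs (Finset.mem_insert_of_mem hx))
      have h4 : δ ^ ((e a).natAbs + ∑ i ∈ s, (e i).natAbs) *
          (z a ^ e a * ∏ i ∈ s, z i ^ e i) = δ ^ (e a).natAbs * z a ^ e a *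
            (δ ^ (∑ i ∈ s, (e i).natAbs) * ∏ i ∈ s, z i ^ e i) := by
        rw [pow_add]
        ring
      rw [h4, Nat.mul_add]
      exact h3
  have hS : ∑ i ∈ I, (e i).natAbs ≤ M := by
    rw [hM]
    refine (Finset.sum_le_card_nsmul I _ Y fun i hi => ?_).trans (le_of_eq (smul_eq_mul _ _))
    have := he i hi
    rw [Int.abs_eq_natAbs] at this
    exact_mod_cast this
  obtain ⟨r, hr⟩ := Nat.exists_eq_add_of_le hS
  have h3 : δ ^ M * ∏ i ∈ I, z i ^ e i ∈ WW T θ A (D * M) (d + D * M) := by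
    have h4 := WW_mul (hprod I (Finset.Subset.refl I)) (WW_pow hδW r)
    have h5 : δ ^ M * ∏ i ∈ I, z i ^ e i =
        δ ^ (∑ i ∈ I, (e i).natAbs) * (∏ i ∈ I, z i ^ e i) * δ ^ r := by
      rw [hr, pow_add]
      ring
    rw [h5]
    refine WW_mono ?_ ?_ h4
    · rw [hr, Nat.mul_add]
    · rw [hr, Nat.mul_add, Nat.zero_mul]
      omega
  have h4 := WW_reds hd' hcP h0 (D * M) h3
  rw [mul_assoc]
  refine WW_mono ?_ ?_ h4
  · exact le_of_eq (by ring)
  · omega

/-- Products of elements of spans. -/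
private theorem prod_span_mem {L : Type} [DecidableEq L] {X : L → Type} [∀ l, Nonempty (X l)]
    (g : ∀ l, X l → Ω) (v : L → Ω) (hv : ∀ l, v l ∈ Submodule.span ℚ (Set.range (g l)))
    (s : Finset L) : ∏ l ∈ s, v l ∈
      Submodule.span ℚ (Set.range fun x : ∀ l, X l => ∏ l ∈ s, g l (x l)) := by
  induction s using Finset.induction_on with
  | empty =>
    refine Submodule.subset_span ⟨fun l => Classical.arbitrary (X l), ?_⟩
    simp
  | insert a s ha ih =>
    rw [Finset.prod_insert ha]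
    have h1 := Submodule.mul_mem_mul (hv a) ih
    rw [Submodule.span_mul_span] at h1
    refine (Submodule.span_mono ?_) h1
    rintro _ ⟨_, ⟨y, rfl⟩, _, ⟨x, rfl⟩, rfl⟩
    refine ⟨Function.update x a y, ?_⟩
    change ∏ l ∈ insert a s, g l (Function.update x a y l) = g a y * ∏ l ∈ s, g l (x l)
    rw [Finset.prod_insert ha, Function.update_self]
    congr 1
    refine Finset.prod_congr rfl fun l hl => ?_
    have hla : l ≠ a := fun h => ha (h ▸ hl)
    rw [Function.update_of_ne hla]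

/-- **All blocks.** -/
private theorem all_span {ι L : Type} [Fintype ι] [Fintype L] [DecidableEq L] (cl : ι → L)
    (cb : β → L) (z : ι → Ω) (D : ℕ) (Y : L → ℕ) (hY : ∀ l, 1 ≤ Y l)
    (hbl : ∀ l, ∃ (g : ({b // b ∈ Finset.univ.filter fun b => cb b = l} →
        Fin ((D + D * D) * ((Finset.univ.filter fun i => cl i = l).card * Y l) + 1)) ×
          Fin (D + 1) → Ω) (u : Ω), u ≠ 0 ∧ ∀ e : ι → ℤ,
            (∀ i ∈ Finset.univ.filter (fun i => cl i = l), |e i| ≤ Y l) →
        u * ∏ i ∈ Finset.univ.filter (fun i => cl i = l), z i ^ e i ∈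
          Submodule.span ℚ (Set.range g)) :
    finrank ℚ (Submodule.span ℚ {w : Ω | ∃ e : ι → ℤ, (∀ i, |e i| ≤ Y (cl i)) ∧
        w = mon z e}) ≤ (((D + D * D) * Fintype.card ι + 1) ^ Fintype.card β *
          (D + 1) ^ Fintype.card L) * ∏ b, Y (cb b) := by
  classical
  choose g u hu hg using hbl
  set U : Ω := ∏ l, u l with hU
  have hU0 : U ≠ 0 := Finset.prod_ne_zero_iff.2 fun l _ => hu l
  let X : L → Type := fun l => ({b // b ∈ Finset.univ.filter fun b => cb b = l} →
    Fin ((D + D * D) * ((Finset.univ.filter fun i => cl i = l).card * Y l) + 1)) × Fin (D + 1)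
  have hle : (Submodule.span ℚ {w : Ω | ∃ e : ι → ℤ, (∀ i, |e i| ≤ Y (cl i)) ∧
      w = mon z e}).map (LinearMap.mulLeft ℚ U) ≤
      Submodule.span ℚ (Set.range fun x : ∀ l, X l => ∏ l, g l (x l)) := by
    rw [Submodule.map_span_le]
    rintro _ ⟨e, he, rfl⟩
    rw [LinearMap.mulLeft_apply]
    have h1 : U * mon z e = ∏ l, (u l * ∏ i ∈ Finset.univ.filter (fun i => cl i = l),
        z i ^ e i) := by
      rw [Finset.prod_mul_distrib, Finset.prod_fiberwise]
      rfl
    rw [h1]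
    refine prod_span_mem (X := X) g _ (fun l => hg l e fun i hi => ?_) Finset.univ
    rw [← (Finset.mem_filter.1 hi).2]
    exact he i
  have hinj : Function.Injective (LinearMap.mulLeft ℚ U) := fun a b hab =>
    mul_left_cancel₀ hU0 hab
  have h2 : finrank ℚ (Submodule.span ℚ {w : Ω | ∃ e : ι → ℤ, (∀ i, |e i| ≤ Y (cl i)) ∧
      w = mon z e}) ≤ Fintype.card (∀ l, X l) := by
    rw [(Submodule.equivMapOfInjective _ hinj _).finrank_eq]
    have h3 : FiniteDimensional ℚ
        (Submodule.span ℚ (Set.range fun x : ∀ l, X l => ∏ l, g l (x l))) :=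
      FiniteDimensional.span_of_finite ℚ (Set.finite_range _)
    exact (Submodule.finrank_mono hle).trans (finrank_range_le_card _)
  refine h2.trans ?_
  rw [Fintype.card_pi]
  have hcard : ∀ l, Fintype.card (X l) ≤
      ((((D + D * D) * Fintype.card ι + 1) * Y l) ^
        (Finset.univ.filter fun b => cb b = l).card) * (D + 1) := by
    intro l
    have h3 : Fintype.card (X l) =
        ((D + D * D) * ((Finset.univ.filter fun i => cl i = l).card * Y l) + 1) ^
          (Finset.univ.filter fun b => cb b = l).card * (D + 1) := by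
      simp only [X, Fintype.card_prod, Fintype.card_fun, Fintype.card_fin, Fintype.card_coe]
    rw [h3]
    refine Nat.mul_le_mul (Nat.pow_le_pow_left ?_ _) le_rfl
    have h4 : (Finset.univ.filter fun i => cl i = l).card ≤ Fintype.card ι := Finset.card_le_univ _
    have h5 := hY l
    calc (D + D * D) * ((Finset.univ.filter fun i => cl i = l).card * Y l) + 1
        ≤ (D + D * D) * (Fintype.card ι * Y l) + Y l :=
          Nat.add_le_add (Nat.mul_le_mul le_rfl (Nat.mul_le_mul h4 le_rfl)) h5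
      _ = ((D + D * D) * Fintype.card ι + 1) * Y l := by ring
  refine (Finset.prod_le_prod' fun l _ => hcard l).trans (le_of_eq ?_)
  rw [Finset.prod_mul_distrib, Finset.prod_const, Finset.card_univ]
  have h3 : ∏ l, (((D + D * D) * Fintype.card ι + 1) * Y l) ^
      (Finset.univ.filter fun b => cb b = l).card =
      ((D + D * D) * Fintype.card ι + 1) ^ Fintype.card β * ∏ b, Y (cb b) := by
    have h4 : ∀ l, (((D + D * D) * Fintype.card ι + 1) * Y l) ^
        (Finset.univ.filter fun b => cb b = l).card =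
        ∏ b ∈ Finset.univ.filter (fun b => cb b = l),
          (((D + D * D) * Fintype.card ι + 1) * Y (cb b)) := by
      intro l
      rw [← Finset.prod_const]
      exact Finset.prod_congr rfl fun b hb => by rw [(Finset.mem_filter.1 hb).2]
    rw [Finset.prod_congr rfl fun l _ => h4 l, Finset.prod_fiberwise, Finset.prod_mul_distrib,
      Finset.prod_const, Finset.card_univ]
  rw [h3]
  ring

end

section

variable {β : Type} {F : Type} [Field F] [CharZero F]

/-- The Taylor expansion of a nonzero polynomial is not zero. -/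
private theorem cs_ev_ne (t : β → F) (P : MvPolynomial β ℤ) (hP : P ≠ 0) :
    ev (fun b => algebraMap (MvPowerSeries β F)
      (FractionRing (MvPowerSeries β F)) (MvPowerSeries.C (t b) + MvPowerSeries.X b)) P ≠ 0 := by
  let φ₁ : MvPolynomial β ℤ →+* MvPolynomial β F := MvPolynomial.map (Int.castRingHom F)
  let φ₂ : MvPolynomial β F →ₐ[F] MvPolynomial β F :=
    MvPolynomial.aeval fun b => MvPolynomial.C (t b) + MvPolynomial.X b
  let φ₃ : MvPolynomial β F →ₐ[F] MvPolynomial β F :=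
    MvPolynomial.aeval fun b => MvPolynomial.X b - MvPolynomial.C (t b)
  have h32 : ∀ Q, φ₃ (φ₂ Q) = Q := by
    intro Q
    have h1 : φ₃.comp φ₂ = AlgHom.id F _ := by
      refine MvPolynomial.algHom_ext fun b => ?_
      rw [AlgHom.comp_apply, MvPolynomial.aeval_X, map_add, MvPolynomial.aeval_X,
        MvPolynomial.algHom_C]
      simp
    exact AlgHom.congr_fun h1 Q
  have hall : (ev fun b => algebraMap (MvPowerSeries β F) (FractionRing (MvPowerSeries β F))
      (MvPowerSeries.C (t b) + MvPowerSeries.X b)) =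
      ((algebraMap (MvPowerSeries β F) (FractionRing (MvPowerSeries β F))).comp
        ((MvPolynomial.coeToMvPowerSeries.ringHom).comp (φ₂.toRingHom.comp φ₁))) := by
    refine MvPolynomial.ringHom_ext (fun r => ?_) (fun b => ?_)
    · have h2 : (MvPolynomial.C r : MvPolynomial β ℤ) = (r : MvPolynomial β ℤ) :=
        map_intCast MvPolynomial.C r
      rw [h2, map_intCast, map_intCast]
    · have e1 : φ₁ (MvPolynomial.X b) = MvPolynomial.X b := MvPolynomial.map_X _ _
      have e2 : φ₂ (MvPolynomial.X b) = MvPolynomial.C (t b) + MvPolynomial.X b :=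
        MvPolynomial.aeval_X _ _
      have e3 : (ev fun b => algebraMap (MvPowerSeries β F) (FractionRing (MvPowerSeries β F))
          (MvPowerSeries.C (t b) + MvPowerSeries.X b)) (MvPolynomial.X b) =
          algebraMap (MvPowerSeries β F) (FractionRing (MvPowerSeries β F))
            (MvPowerSeries.C (t b) + MvPowerSeries.X b) := MvPolynomial.eval₂Hom_X' _ _ _
      rw [e3]
      change _ = algebraMap (MvPowerSeries β F) (FractionRing (MvPowerSeries β F))
        (MvPolynomial.coeToMvPowerSeries.ringHom (φ₂ (φ₁ (MvPolynomial.X b))))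
      rw [e1, e2, MvPolynomial.coeToMvPowerSeries.ringHom_apply, MvPolynomial.coe_add,
        MvPolynomial.coe_C, MvPolynomial.coe_X]
  rw [hall]
  intro h0
  have h1 : MvPolynomial.coeToMvPowerSeries.ringHom (φ₂ (φ₁ P)) = 0 :=
    (IsFractionRing.injective (MvPowerSeries β F)
      (FractionRing (MvPowerSeries β F))) (h0.trans (map_zero _).symm)
  have h2 : φ₂ (φ₁ P) = 0 := by
    apply MvPolynomial.coe_injective
    rw [← MvPolynomial.coeToMvPowerSeries.ringHom_apply, h1, MvPolynomial.coe_zero]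
  have h3 := h32 (φ₁ P)
  rw [h2, map_zero] at h3
  exact hP (MvPolynomial.map_injective _ Int.cast_injective (h3.symm.trans (map_zero _).symm))

end

variable {J : Type} {𝒰 : Ultrafilter J} {K : J → Type} [∀ j, Field (K j)] [∀ j, NumberField (K j)]
  {k : ℕ} {s : Fin (k + 1) → J → ℝ} {ι β : Type} [Fintype ι]
  [Fintype β] [DecidableEq β] {cl : ι → Fin (k + 1)} {x : ι → Ult 𝒰 K} {bs : β → ι}
  {X : ι → Ult 𝒰 (PS β K)}

/-- The generic point. -/
private noncomputable def cY (K : J → Type) [∀ j, Field (K j)] (t : β → Ult 𝒰 K) (j : J)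
    (b : β) : MvPowerSeries β (K j) := MvPowerSeries.C ((t b).rep j) + MvPowerSeries.X b

omit [DecidableEq β] in
/-- The data of one block at the level `j`. -/
private theorem blk_data (hc : Conf 𝒰 K s (FD 𝒰 K s) cl x bs)
    (hX : Br 𝒰 K (FD 𝒰 K s) cl x bs X) (l : Fin (k + 1)) :
    ∃ D : ℕ, ∀ᶠ j in (𝒰 : Filter J), ∃ (Θ : MvPowerSeries β (K j))
      (Pi : Polynomial (MvPolynomial β ℤ)) (Δ : MvPolynomial β ℤ)
      (N : ι × Bool → Polynomial (MvPolynomial β ℤ)) (w : ι → MvPowerSeries β (K j)),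
      0 < Pi.natDegree ∧ Pi.natDegree ≤ D ∧ Δ ≠ 0 ∧ (∀ i, (N i).natDegree ≤ D) ∧
      (∀ n, CsB (Finset.univ.filter fun b => cl (bs b) = l) D (Pi.coeff n)) ∧
      CsB (Finset.univ.filter fun b => cl (bs b) = l) D Δ ∧
      (∀ i n, CsB (Finset.univ.filter fun b => cl (bs b) = l) D ((N i).coeff n)) ∧
      Pi.eval₂ (MvPolynomial.aeval (R := ℤ) (cY K (fun b => x (bs b)) j)).toRingHom Θ = 0 ∧
      (∀ i, cl i = l → (X i).rep j * w i = 1 ∧
        MvPolynomial.aeval (cY K (fun b => x (bs b)) j) Δ * (X i).rep j =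
          (N (i, true)).eval₂
            (MvPolynomial.aeval (R := ℤ) (cY K (fun b => x (bs b)) j)).toRingHom Θ ∧
        MvPolynomial.aeval (cY K (fun b => x (bs b)) j) Δ * w i =
          (N (i, false)).eval₂
            (MvPolynomial.aeval (R := ℤ) (cY K (fun b => x (bs b)) j)).toRingHom Θ) := by
  classical
  obtain ⟨L, τ, hFL, hxL, halg, -, hcst, hT, -, hXτ⟩ := hX.ex l
  set A : Finset β := Finset.univ.filter fun b => cl (bs b) = l with hA
  have hmA : ∀ b, b ∈ A ↔ cl (bs b) = l := fun b => by simp [hA]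
  let t : β → Ult 𝒰 K := fun b => x (bs b)
  have hind : AlgebraicIndependent (kf 𝒰 K (s l)) (fun b : {b // b ∈ A} => t b) :=
    (hc.ind l).comp (fun b : {b // b ∈ A} => (⟨b, (hmA b).1 b.2⟩ : {b // cl (bs b) = l}))
      (fun a b hab => Subtype.ext
        (congrArg (fun w : {b // cl (bs b) = l} => (w : β)) hab))
  have hset : {y | ∃ b, cl (bs b) = l ∧ y = x (bs b)} = t '' A := by
    ext y
    constructor
    · rintro ⟨b, hb, rfl⟩
      exact ⟨b, (hmA b).2 hb, rfl⟩
    · rintro ⟨b, hb, rfl⟩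
      exact ⟨b, (hmA b).1 hb, rfl⟩
  rw [hset] at halg
  let u : {i // cl i = l} × Bool → L := fun i =>
    if i.2 then ⟨x i.1, hxL i.1 i.1.2⟩ else (⟨x i.1, hxL i.1 i.1.2⟩ : L)⁻¹
  obtain ⟨D, hD⟩ := rel_primitive (s l) A t hind L τ hFL
    (fun b hb => hxL _ ((hmA b).1 hb)) hcst (fun b hb => hT b ((hmA b).1 hb)) u
    (fun i => halg (u i))
  refine ⟨D, ?_⟩
  have hinv : ∀ i (hi : cl i = l), ∀ᶠ j in (𝒰 : Filter J),
      (X i).rep j * (τ (u (⟨i, hi⟩, false))).rep j = 1 := by
    intro i hi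
    have h1 : X i * τ (u (⟨i, hi⟩, false)) = 1 := by
      rw [hXτ i hi ⟨x i, hxL i hi⟩ rfl, ← map_mul]
      have h2 : (⟨x i, hxL i hi⟩ : L) ≠ 0 := fun h => hc.ne i (congrArg Subtype.val h)
      have h3 : u (⟨i, hi⟩, false) = (⟨x i, hxL i hi⟩ : L)⁻¹ := rfl
      rw [h3, mul_inv_cancel₀ h2, map_one]
    rw [← Ult.mk_rep (X i), ← Ult.mk_rep (τ (u (⟨i, hi⟩, false))), ← map_mul,
      ← map_one (Ult.mk 𝒰 (PS β K)), Ult.mk_eq_mk] at h1
    exact h1
  have hinv' : ∀ᶠ j in (𝒰 : Filter J), ∀ i : {i // cl i = l},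
      (X i).rep j * (τ (u (i, false))).rep j = 1 := by
    rw [Filter.eventually_all]
    exact fun i => hinv i i.2
  filter_upwards [hD, hinv'] with j hj hj'
  obtain ⟨Θ, Pi, Δ, N, h1, h2, h3, h4, h5, h6, h7⟩ := hj
  refine ⟨Θ, Pi, Δ, fun i => if h : cl i.1 = l then N (⟨i.1, h⟩, i.2) else 0,
    fun i => if h : cl i = l then (τ (u (⟨i, h⟩, false))).rep j else 0, h1, h2, h3, ?_, ?_, ?_,
    ?_, h6, ?_⟩
  · intro i
    by_cases h : cl i.1 = l
    · simp only [dif_pos h]
      exact h4 _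
    · simp only [dif_neg h, Polynomial.natDegree_zero]
      exact Nat.zero_le _
  · intro n
    have := h5 _ (Or.inr (Or.inl ⟨n, rfl⟩))
    exact ⟨this.1, this.2.1⟩
  · have := h5 _ (Or.inl rfl)
    exact ⟨this.1, this.2.1⟩
  · intro i n
    by_cases h : cl i.1 = l
    · simp only [dif_pos h]
      have := h5 _ (Or.inr (Or.inr ⟨(⟨i.1, h⟩, i.2), n, rfl⟩))
      exact ⟨this.1, this.2.1⟩
    · simp only [dif_neg h, Polynomial.coeff_zero]
      exact ⟨fun b hb => by simp at hb, by simp⟩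
  · intro i hi
    refine ⟨?_, ?_, ?_⟩
    · simp only [dif_pos hi]
      exact hj' ⟨i, hi⟩
    · simp only [dif_pos hi]
      have h8 := h7 (⟨i, hi⟩, true)
      have h9 : τ (u (⟨i, hi⟩, true)) = X i := (hXτ i hi ⟨x i, hxL i hi⟩ rfl).symm
      rw [h9] at h8
      exact h8
    · simp only [dif_pos hi]
      exact h7 (⟨i, hi⟩, false)

/-- **The span of the monomials of bounded degree.**

Proof. For each block `l` apply `rel_primitive` to the elements `x i` and `(x i)⁻¹`, `cl i = l`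
(both are in `L` and algebraic; `τ (x i)⁻¹ = (τ (x i))⁻¹`): at most `j` there are `Θ_l, Π_l, Δ_l,
N_(i,±)` of degrees `≤ D` (`D` the maximum over the blocks) with `Π_l(t + ζ, Θ_l) = 0`, `Δ_l(t +
ζ) X_i^(±1) = N_(i,±)(t + ζ, Θ_l)`, only the variables of block `l`. Let `c_l ∈ ℤ[T_b]` be the
leading coefficient of `Π_l` (`≠ 0`), `δ = natDegree Π_l ≤ D`. Let `Y_l ≥ 1` and `M = card ι *
Y_l`. A monomial `∏_(cl i = l) X_i^(e i)`, `|e i| ≤ Y l`, times `Δ_l^M` is a polynomial in `t + ζ`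
(degrees in each variable `≤ D M`, see below) and `Θ_l` (degree `≤ D M`); times `c_l^(D M)` it is
a combination with coefficients in `ℚ[t + ζ]` of `Θ_l^i`, `i < δ`, of degrees `≤ D₁ M` in the `t_b
+ ζ_b` (induction: `c_l Θ^n = Θ^(n - δ) (c_l Θ^δ)` and `c_l Θ^δ` = a combination of lower powers
with coefficients of degree `≤ D`). So with `u = ∏_l (Δ_l^M c_l^(D M))(t + ζ) ≠ 0` the space `u *
span` is contained in the span of the `∏_b (t_b + ζ_b)^(α b) * ∏_l Θ_l^(i l)`, `α b ≤ D₂ Y (cl (bs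
b))`, `i l ≤ D`: at most `(D + 1)^(k + 1) ∏_b (D₂ Y (cl (bs b)) + 1) ≤ C ∏_b Y (cl (bs b))`
elements. Multiplication by `u` is injective. (The block `TSNF.lean`, `sp_mem` and `Sp`, of LSharp
is a similar normal form over `K`.) -/
theorem c_span (hc : Conf 𝒰 K s (FD 𝒰 K s) cl x bs) (hX : Br 𝒰 K (FD 𝒰 K s) cl x bs X) :
    ∃ C : ℝ, 0 < C ∧ ∀ᶠ j in (𝒰 : Filter J), ∀ Y : Fin (k + 1) → ℕ, (∀ l, 1 ≤ Y l) →
      (finrank ℚ (Submodule.span ℚ {w : FractionRing (MvPowerSeries β (K j)) |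
        ∃ e : ι → ℤ, (∀ i, |e i| ≤ Y (cl i)) ∧ w = mon (fr fun i => (X i).rep j) e}) : ℝ) ≤
        C * ∏ b, (Y (cl (bs b)) : ℝ) ∧
      FiniteDimensional ℚ (Submodule.span ℚ {w : FractionRing (MvPowerSeries β (K j)) |
        ∃ e : ι → ℤ, (∀ i, |e i| ≤ Y (cl i)) ∧ w = mon (fr fun i => (X i).rep j) e}) := by
  classical
  choose D hD using blk_data hc hX
  obtain ⟨E, hE⟩ : ∃ E : ℕ, ∀ l, D l ≤ E :=
    ⟨Finset.univ.sup D, fun l => Finset.le_sup (Finset.mem_univ l)⟩
  refine ⟨((((E + E * E) * Fintype.card ι + 1) ^ Fintype.card β *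
    (E + 1) ^ Fintype.card (Fin (k + 1)) : ℕ) : ℝ), by positivity, ?_⟩
  have hall : ∀ᶠ j in (𝒰 : Filter J), ∀ l, ∃ (Θ : MvPowerSeries β (K j))
      (Pi : Polynomial (MvPolynomial β ℤ)) (Δ : MvPolynomial β ℤ)
      (N : ι × Bool → Polynomial (MvPolynomial β ℤ)) (w : ι → MvPowerSeries β (K j)),
      0 < Pi.natDegree ∧ Pi.natDegree ≤ D l ∧ Δ ≠ 0 ∧ (∀ i, (N i).natDegree ≤ D l) ∧
      (∀ n, CsB (Finset.univ.filter fun b => cl (bs b) = l) (D l) (Pi.coeff n)) ∧
      CsB (Finset.univ.filter fun b => cl (bs b) = l) (D l) Δ ∧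
      (∀ i n, CsB (Finset.univ.filter fun b => cl (bs b) = l) (D l) ((N i).coeff n)) ∧
      Pi.eval₂ (MvPolynomial.aeval (R := ℤ) (cY K (fun b => x (bs b)) j)).toRingHom Θ = 0 ∧
      (∀ i, cl i = l → (X i).rep j * w i = 1 ∧
        MvPolynomial.aeval (cY K (fun b => x (bs b)) j) Δ * (X i).rep j =
          (N (i, true)).eval₂
            (MvPolynomial.aeval (R := ℤ) (cY K (fun b => x (bs b)) j)).toRingHom Θ ∧
        MvPolynomial.aeval (cY K (fun b => x (bs b)) j) Δ * w i =
          (N (i, false)).eval₂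
            (MvPolynomial.aeval (R := ℤ) (cY K (fun b => x (bs b)) j)).toRingHom Θ) := by
    rw [Filter.eventually_all]
    exact hD
  filter_upwards [hall] with j hj Y hY
  set Q := algebraMap (MvPowerSeries β (K j)) (FractionRing (MvPowerSeries β (K j))) with hQ
  have hfin : ({w : FractionRing (MvPowerSeries β (K j)) | ∃ e : ι → ℤ,
      (∀ i, |e i| ≤ Y (cl i)) ∧ w = mon (fr fun i => (X i).rep j) e}).Finite := by
    have h1 : ({e : ι → ℤ | ∀ i, |e i| ≤ Y (cl i)}).Finite := by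
      have h2 := Set.Finite.pi' (fun i : ι => Set.finite_Icc (-(Y (cl i) : ℤ)) (Y (cl i)))
      refine h2.subset fun e he i => ?_
      exact abs_le.1 (he i)
    refine (h1.image fun e => mon (fr fun i => (X i).rep j) e).subset ?_
    rintro _ ⟨e, he, rfl⟩
    exact ⟨e, he, rfl⟩
  refine ⟨?_, FiniteDimensional.span_of_finite ℚ hfin⟩
  have hmain := all_span cl (fun b => cl (bs b)) (fr fun i => (X i).rep j) E Y hY (fun l => by
    obtain ⟨Θ, Pi, Δ, N, w, h1, h2, h3, h4, h5, h6, h7, h8, h9⟩ := hj l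
    have hmono : ∀ P, CsB (Finset.univ.filter fun b => cl (bs b) = l) (D l) P →
        CsB (Finset.univ.filter fun b => cl (bs b) = l) E P := fun P hP =>
      ⟨hP.1, hP.2.trans (hE l)⟩
    let T : β → FractionRing (MvPowerSeries β (K j)) := fun b =>
      Q (cY K (fun b => x (bs b)) j b)
    have e1 : ev T = Q.comp
        (MvPolynomial.aeval (R := ℤ) (cY K (fun b => x (bs b)) j)).toRingHom := by
      refine MvPolynomial.ringHom_ext (fun r => ?_) (fun b => ?_)
      · have e2 : (MvPolynomial.C r : MvPolynomial β ℤ) = (r : MvPolynomial β ℤ) :=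
          map_intCast MvPolynomial.C r
        rw [e2, map_intCast, map_intCast]
      · have e3 : ev T (MvPolynomial.X b) = T b := MvPolynomial.eval₂Hom_X' _ _ _
        have e4 : (MvPolynomial.aeval (R := ℤ)
            (cY K (fun b => x (bs b)) j)).toRingHom (MvPolynomial.X b) =
            cY K (fun b => x (bs b)) j b := MvPolynomial.aeval_X _ _
        rw [RingHom.comp_apply, e3, e4]
    have hTe : ∀ P : MvPolynomial β ℤ, ev T P =
        Q (MvPolynomial.aeval (cY K (fun b => x (bs b)) j) P) := fun P => RingHom.congr_fun e1 P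
    have hNe : ∀ P : Polynomial (MvPolynomial β ℤ), P.eval₂ (ev T) (Q Θ) = Q (P.eval₂
          (MvPolynomial.aeval (R := ℤ) (cY K (fun b => x (bs b)) j)).toRingHom Θ) := by
      intro P
      rw [Polynomial.hom_eval₂, e1]
    have hmem : ∀ i, i ∈ Finset.univ.filter (fun i => cl i = l) → cl i = l := fun i hi =>
      (Finset.mem_filter.1 hi).2
    have hz : ∀ i, cl i = l → fr (fun i => (X i).rep j) i * Q (w i) = 1 := by
      intro i hi
      have := congrArg Q (h9 i hi).1
      rw [map_mul, map_one] at this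
      exact this
    refine block_span (Finset.univ.filter fun i => cl i = l) (fr fun i => (X i).rep j)
      T (Finset.univ.filter fun b => cl (bs b) = l) (Q Θ) E Pi Δ N h1 (h2.trans (hE l))
      (fun n => hmono _ (h5 n)) (hmono _ h6) (fun i => (h4 i).trans (hE l))
      (fun i n => hmono _ (h7 i n)) ?_ ?_ h3 ?_ ?_ (Y l)
    · rw [hNe, h8, map_zero]
    · exact fun P hP => cs_ev_ne _ P hP
    · intro i hi
      rw [hTe, hNe, ← (h9 i (hmem i hi)).2.1, map_mul]
      rfl
    · intro i hi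
      have e1 : (fr (fun i => (X i).rep j) i)⁻¹ = Q (w i) :=
        inv_eq_of_mul_eq_one_right (hz i (hmem i hi))
      rw [hTe, hNe, ← (h9 i (hmem i hi)).2.2, map_mul, e1])
  have h10 : ((∏ b, Y (cl (bs b)) : ℕ) : ℝ) = ∏ b, (Y (cl (bs b)) : ℝ) := by
    push_cast
    rfl
  rw [← h10, ← Nat.cast_mul]
  exact_mod_cast hmain

end Pool.Agent.Zilber
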