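import Pool.Agent.Zilber.Defs
import Pool.Agent.Zilber.AVFin
import Pool.Agent.Zilber.AVAsy
import Pool.Agent.Zilber.AVExt
import Pool.Agent.Zilber.AULat
import Pool.Agent.Zilber.BLow

set_option autoImplicit false

/-! CORE A: block `0` is empty (owners helper91, helper25). -/

namespace Pool.Agent.Zilber

open Filter NumberField Module Pool.Agent.LAll Pool.Agent.LSharp Pool.Agent.CITLines

variable {J : Type} {𝒰 : Ultrafilter J} {K : J → Type} [∀ j, Field (K j)] [∀ j, NumberField (K j)]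
  {k : ℕ} {s : Fin (k + 1) → J → ℝ} {ι β : Type} [Fintype ι]
  [Fintype β] [DecidableEq β] {cl : ι → Fin (k + 1)} {x : ι → Ult 𝒰 K} {bs : β → ι}
  {X : ι → Ult 𝒰 (PS β K)}

theorem ko_le_Lf (s : J → ℝ) (hs : ∀ j, 1 ≤ s j) : ko 𝒰 K s ≤ Lf 𝒰 K s := by
  intro y hy
  rw [mem_ko] at hy
  obtain ⟨σ, hσ, hy⟩ := hy
  obtain ⟨r, hr1, hr2⟩ := hy
  refine ⟨_, hr1, hr2.mono ⟨1, ?_⟩⟩
  filter_upwards [hσ 1 one_pos] with j hj
  rw [one_mul] at hj ⊢
  rw [abs_of_nonneg (zero_le_one.trans (hs j))] at hj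
  exact hj.trans (le_max_right _ _)

/-- **Core of case A.** -/
theorem coreA (hc : Conf 𝒰 K s (FA 𝒰 K s) cl x bs) (hX : Br 𝒰 K (FA 𝒰 K s) cl x bs X)
    (σ : ∀ j, K j →+* ℂ) (h0 : ∀ i, cl i ≠ 0)
    (b0 : β) (hb0 : cl (bs b0) = Fin.last k) (c : ℝ) (hcp : 0 < c)
    (hlow : ∀ᶠ j in (𝒰 : Filter J), c * s (Fin.last k) j ≤ ht ((x (bs b0)).rep j))
    (R : β → ι → ℝ) (hR : ∀ b, R b ∈ Ker 𝒰 K s cl x)
    (hW : ∀ᶠ j in (𝒰 : Filter J), Wdg (σ j) (fun i => (X i).rep j) R id) : False := by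
  classical
  obtain ⟨g, q, hg, hq, hqg, hdet, hE⟩ := tsw hc hX (fun l => ko_le_Lf _ (hc.scl.one l)) σ R hW
  -- the classes
  obtain ⟨cM, hcM⟩ : ∃ cM : ι → {l : Fin (k + 1) // l ≠ 0}, cM = fun i => ⟨cl i, h0 i⟩ :=
    ⟨_, rfl⟩
  have hcM' : ∀ i, (cM i).1 = cl i := fun i => by rw [hcM]
  obtain ⟨lam, hlam, hlat⟩ := lattice cM (fun b => cM (bs b)) q
    (fun i b h => Subtype.ext (by rw [hcM', hcM']; exact hq i b h)) R hdet
  obtain ⟨n0, hn0, hlat⟩ := hlat 1 zero_le_one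
  obtain ⟨κ, D, D0, hκ, hD, hbr⟩ := CA.ext_branch hc hX h0
  rw [← hcM] at hbr
  -- the constant of the exponents
  obtain ⟨Ca, hCa⟩ : ∃ Ca : ℝ, Ca = ∑ r, ∑ i, lam * |R r i| + 1 := ⟨_, rfl⟩
  have hCa0 : 0 ≤ Ca := by
    rw [hCa]
    have : 0 ≤ ∑ r, ∑ i, lam * |R r i| :=
      Finset.sum_nonneg fun r _ => Finset.sum_nonneg fun i _ => by positivity
    linarith
  have hCaR : ∀ r i, lam * |R r i| + 1 ≤ Ca := fun r i => by
    rw [hCa]
    have h1 : lam * |R r i| ≤ ∑ i, lam * |R r i| :=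
      Finset.single_le_sum (f := fun i => lam * |R r i|) (fun i _ => by positivity)
        (Finset.mem_univ i)
    have h2 : ∑ i, lam * |R r i| ≤ ∑ r, ∑ i, lam * |R r i| :=
      Finset.single_le_sum (f := fun r => ∑ i, lam * |R r i|)
        (fun r _ => Finset.sum_nonneg fun i _ => by positivity) (Finset.mem_univ r)
    linarith
  obtain ⟨D', hD'⟩ := exists_nat_ge
    (2 * (Fintype.card β : ℝ) * Fintype.card ι * Ca + Fintype.card β)
  obtain ⟨DL, hDL⟩ : ∃ DL : ℕ, DL = D0 + 3 * D + D' := ⟨_, rfl⟩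
  have hDL0 : 0 < DL := by omega
  have hDL3 : 3 * D ≤ DL := by omega
  have hDLD : D0 ≤ DL := by omega
  have hDLC : 2 * (Fintype.card β : ℝ) * Fintype.card ι * Ca + Fintype.card β ≤ DL := by
    have h1 : (D' : ℝ) ≤ DL := by
      have : D' ≤ DL := by omega
      exact_mod_cast this
    linarith
  -- the constants of case A
  have hμ : 0 < c / 2 := by linarith
  obtain ⟨δ, η, hδ, hη, B0, hA⟩ := CA.coreA (fun b => cM (bs b))
    (fun s : ι × Bool => cM s.1) b0 DL hDL0 (c / 2) hμ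
  obtain ⟨N0, hN0⟩ := exists_nat_ge (4 * (Fintype.card ι : ℝ) * D / δ + 1)
  have hN01 : 1 ≤ N0 := by
    have h1 : (0 : ℝ) ≤ 4 * (Fintype.card ι : ℝ) * D / δ := by positivity
    have h2 : (1 : ℝ) ≤ N0 := by linarith
    exact_mod_cast h2
  have hN02 : 4 * (Fintype.card ι : ℝ) * D ≤ δ * N0 := by
    have h1 : 4 * (Fintype.card ι : ℝ) * D / δ ≤ N0 := by linarith
    rw [div_le_iff₀ hδ] at h1
    linarith
  obtain ⟨Dc, C, hDc, hL⟩ := CA.exists_lvA cM bs b0 D DL hD hDL3 (c / 2) δ hμ N0 hN01 hN02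
  obtain ⟨B1, hB1⟩ := exists_nat_ge (1 / η)
  obtain ⟨B2, hB2⟩ := exists_nat_ge (4 * (Fintype.card β : ℝ) * D / δ)
  obtain ⟨B, hB⟩ : ∃ B : ℕ, B = B0 + B1 + B2 + 1 := ⟨_, rfl⟩
  have hBB0 : B0 ≤ B := by omega
  have hBpos : (0 : ℝ) < B := by
    have : 0 < B := by omega
    exact_mod_cast this
  have hηB : 1 ≤ η * B := by
    have h1 : (B1 : ℝ) ≤ B := by
      have : B1 ≤ B := by omega
      exact_mod_cast this
    have h2 : 1 / η ≤ B := by linarith
    rw [div_le_iff₀ hη] at h2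
    linarith
  have hδB : 4 * (Fintype.card β : ℝ) * D ≤ δ * B := by
    have h1 : (B2 : ℝ) ≤ B := by
      have : B2 ≤ B := by omega
      exact_mod_cast this
    have h2 : 4 * (Fintype.card β : ℝ) * D / δ ≤ B := by linarith
    rw [div_le_iff₀ hδ] at h2
    linarith
  obtain ⟨δ2, CB, hδ2, hCB, hA⟩ := hA B hBB0 Dc hDc
  -- the heights of the monomials
  have hker : ∀ r : β, ∃ C0 : ℝ, 0 < C0 ∧ ∀ Δ : ℝ, 1 ≤ Δ → ∀ᶠ j in (𝒰 : Filter J),
      ∀ a : ι → ℤ, (∀ i, |(a i : ℝ) - Δ * s (Fin.last k) j / s (cl i) j * (lam • R r) i| ≤ 1) →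
      ht (∏ i, (x i).rep j ^ a i) ≤ C0 * s (Fin.last k) j := fun r =>
    ht_of_ker s hc.scl cl x hc.ne hc.hgt (lam • R r)
      (Submodule.smul_mem _ _ (hR r)) 1 zero_le_one
  choose C0 hC00 hC0 using hker
  obtain ⟨Δ, hΔ⟩ : ∃ Δ : ℝ, Δ = 1 + n0 + 2 * (∑ r, C0 r) / δ := ⟨_, rfl⟩
  have hC0s : 0 ≤ ∑ r, C0 r := Finset.sum_nonneg fun r _ => (hC00 r).le
  have hΔ1 : 1 ≤ Δ := by
    rw [hΔ]
    have : 0 ≤ 2 * (∑ r, C0 r) / δ := by positivity
    linarith
  have hΔn : n0 ≤ Δ := by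
    rw [hΔ]
    have : 0 ≤ 2 * (∑ r, C0 r) / δ := by positivity
    linarith
  have hΔC : 2 * (∑ r, C0 r) ≤ δ * Δ := by
    have h1 : 2 * (∑ r, C0 r) / δ ≤ Δ := by
      rw [hΔ]
      linarith
    rw [div_le_iff₀ hδ] at h1
    linarith
  -- the low coefficient
  obtain ⟨C₁, hC₁⟩ : ∃ C₁ : ℝ, C₁ = CB + (Fintype.card β * B + Fintype.card β) + DL * B :=
    ⟨_, rfl⟩
  have hp1 : (0 : ℝ) ≤ (Fintype.card β : ℝ) * B + Fintype.card β := by positivity
  have hp2 : (0 : ℝ) ≤ (DL : ℝ) * B := by positivity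
  have hC₁0 : 0 ≤ C₁ := by
    rw [hC₁]
    linarith
  obtain ⟨rr, hrr⟩ : ∃ rr : {l : Fin (k + 1) // l ≠ 0} → J → ℝ,
      rr = fun a j => CA.mD s Δ κ j / CA.nD s Δ j a := ⟨_, rfl⟩
  have hrrO : ∀ a, Oo 𝒰 (rr a) (s a.1) := fun a => by
    rw [hrr]
    exact CA.rr_small s hc.scl Δ hΔ1 κ hκ a
  obtain ⟨xE, hxE⟩ : ∃ xE : (ι × Bool) ⊕ (ι × Bool) → Ult 𝒰 K,
      xE = Sum.elim (fun s => x s.1) fun s => x s.1 := ⟨_, rfl⟩
  have hxEb : ∀ b, xE (CA.bs2 bs b) = x (bs b) := fun b => by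
    rw [hxE]
    rfl
  have hind : ∀ a, AlgebraicIndependent (kf 𝒰 K (rr a))
      (fun b : {b // CA.ca2 cM (CA.bs2 bs b) = a} => xE (CA.bs2 bs b)) := by
    intro a
    have hle : kf 𝒰 K (rr a) ≤ FA 𝒰 K s a.1 := fun y hy => (mem_ko 𝒰 K).2 ⟨rr a, hrrO a, hy⟩
    have h1 := hc.ind a.1
    have h2 : AlgebraicIndependent (kf 𝒰 K (rr a))
        (fun b : {b // cl (bs b) = a.1} => x (bs b)) := by
      let _ : Algebra (kf 𝒰 K (rr a)) (FA 𝒰 K s a.1) := (Subfield.inclusion hle).toAlgebra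
      have : IsScalarTower (kf 𝒰 K (rr a)) (FA 𝒰 K s a.1) (Ult 𝒰 K) :=
        IsScalarTower.of_algebraMap_eq' rfl
      exact h1.restrictScalars (Subfield.inclusion hle).injective
    have h3 : ∀ b, CA.ca2 cM (CA.bs2 bs b) = a → cl (bs b) = a.1 := fun b hb => by
      rw [← hcM' (bs b), ← hb]
      rfl
    have h4 := h2.comp (fun b : {b // CA.ca2 cM (CA.bs2 bs b) = a} =>
      (⟨b.1, h3 b.1 b.2⟩ : {b // cl (bs b) = a.1}))
      (fun b b' hb => Subtype.ext (Subtype.mk.inj hb))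
    have h5 : (fun b : {b // CA.ca2 cM (CA.bs2 bs b) = a} => xE (CA.bs2 bs b)) =
        (fun b : {b // cl (bs b) = a.1} => x (bs b)) ∘
          (fun b : {b // CA.ca2 cM (CA.bs2 bs b) = a} =>
            (⟨b.1, h3 b.1 b.2⟩ : {b // cl (bs b) = a.1})) := by
      funext b
      exact hxEb b.1
    rw [h5]
    exact h4
  have hb1 := CA.nD_bounds s hc.scl Δ hΔ1
  have hm1 : ∀ᶠ j in (𝒰 : Filter J), 0 ≤ CA.mD s Δ κ j :=
    Filter.Eventually.of_forall fun j => Finset.sum_nonneg fun a _ =>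
      mul_nonneg (Nat.cast_nonneg _) (zero_le_one.trans (le_max_left _ _))
  have hlc := low_coeff (𝒰 := 𝒰) (K := K) (CA.ca2 cM) (CA.bs2 bs) xE rr hind D C₁ hC₁0
    (fun j => CA.nD s Δ j) (fun j => CA.mD s Δ κ j)
    (hb1.mono fun j hj a => (hj a).2.1) hm1
    (fun a a' haa => CA.nD_ratio s hc.scl Δ hΔ1 a a' haa)
    (fun a => ⟨1, by
      filter_upwards [hb1] with j hj
      have h1 : (0 : ℝ) < CA.nD s Δ j a := by exact_mod_cast (hj a).2.1
      rw [one_mul, hrr]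
      calc CA.mD s Δ κ j = CA.nD s Δ j a * (CA.mD s Δ κ j / CA.nD s Δ j a) := by field_simp
        _ ≤ _ := mul_le_mul_of_nonneg_left (le_max_right _ _) h1.le⟩)
  have hsm := CA.mD_small s hc.scl Δ hΔ1 κ hκ δ2 hδ2
  have hC0' : ∀ᶠ j in (𝒰 : Filter J), ∀ r, ∀ a : ι → ℤ,
      (∀ i, |(a i : ℝ) - Δ * s (Fin.last k) j / s (cl i) j * (lam • R r) i| ≤ 1) →
      ht (∏ i, (x i).rep j ^ a i) ≤ C0 r * s (Fin.last k) j := by
    rw [Filter.eventually_all]
    exact fun r => hC0 r Δ hΔ1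
  have hk0 : Fin.last k ≠ 0 := by
    rw [← hb0]
    exact h0 _
  have hbig := (scl_tendsto s hc.scl (Fin.last k) hk0).eventually_ge_atTop C
  have hev : ∀ᶠ j in (𝒰 : Filter J), False := by
    filter_upwards [hb1, hlc, hsm, hC0', hbig, hbr DL hDLD, hE, hlow] with j hb1 hlc hsm hC0'
      hbig hbr hE hlow
    obtain ⟨br, ⟨eq⟩, hbX, hbinv, hbx, hbh, hbκ⟩ := hbr
    have hMh : br.h (cM (bs b0)) = s (Fin.last k) j := by rw [hbh, hcM', hb0]
    obtain ⟨S, L, hLn, hLT, hLM, hLF, hoff⟩ := hL (K j) br eq (CA.nD s Δ j)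
      (Δ * s (Fin.last k) j)
      (by
        rw [hMh]
        have h1 : CA.ptL br b0 = (x (bs b0)).rep j := hbx (bs b0)
        rw [h1]
        linarith)
      (by rw [hMh]; exact hbig) (fun a => (hb1 a).2.1)
      (fun a => by rw [hbh]; exact (hb1 a).2.2.2.2.1)
      (fun a => by rw [hbh]; exact (hb1 a).2.2.2.2.2)
    have hLM' : L.M0 = CA.mD s Δ κ j := by
      rw [hLM]
      unfold CA.mD
      exact Finset.sum_congr rfl fun a _ => by rw [hbκ]
    have hLn' : ∀ a, L.n a = CA.nD s Δ j a := fun a => by rw [hLn]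
    have hsk : 0 < s (Fin.last k) j := lt_of_lt_of_le one_pos (hc.scl.one _ j)
    have hT0 : 0 ≤ Δ * s (Fin.last k) j := by positivity
    -- the exponents
    obtain ⟨ν, hν⟩ : ∃ ν : {l : Fin (k + 1) // l ≠ 0} → ℝ,
        ν = fun a => Δ * s (Fin.last k) j / s a.1 j := ⟨_, rfl⟩
    have hν0 : ∀ a, Δ ≤ ν a := fun a => by rw [hν]; exact (hb1 a).1
    have hνn : ∀ a, ν a ≤ L.n a := fun a => by rw [hν, hLn']; exact (hb1 a).2.2.1
    have hν2 : ∀ a, (L.n a : ℝ) ≤ 2 * ν a := fun a => by rw [hν, hLn']; exact (hb1 a).2.2.2.1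
    obtain ⟨a, ha⟩ : ∃ a : β → ι → ℤ, a = fun r i => round (ν (cM i) * (lam * R r i)) :=
      ⟨_, rfl⟩
    have ha1 : ∀ r i, |(a r i : ℝ) - ν (cM i) * (lam * R r i)| ≤ 1 := fun r i => by
      rw [ha, abs_sub_comm]
      exact (abs_sub_round _).trans (by norm_num)
    have hht : ∀ i, ht ((x i).rep j) ≤ D * s (cl i) j := fun i => by
      have h1 := br.ht_F (Sum.inl (i, true))
      rw [hbx i, hbh] at h1
      have h2 : ((CA.ca2 cM (Sum.inl (i, true)) : {l : Fin (k + 1) // l ≠ 0}) :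
          Fin (k + 1)) = cl i := hcM' i
      rwa [h2] at h1
    refine CA.level_false cM bs b0 D DL Dc (c / 2) δ η CB B (K j) (σ j) S br L hLF hoff hbinv
      (fun al bet h1 h2 h3 h4 => hA (K j) S L al bet
        (by rw [hLM', hLT]; exact hsm) h1 h2 h3 h4) hηB g
      (fun b => Subtype.ext (by rw [hcM', hcM']; exact hg b)) q hqg
      (by simp only [hbX]; exact hE) a Ca hCa0 (fun r i => ?_) hDLC ν hν2
      (fun u e => hlat ν a u e (fun m => hΔn.trans (hν0 m)) ha1) ?_ C₁ ?_ ?_ ?_ ?_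
    · have h1 := ha1 r i
      have h2 : |(a r i : ℝ)| ≤ |(a r i : ℝ) - ν (cM i) * (lam * R r i)| +
          |ν (cM i) * (lam * R r i)| := by
        have := abs_add_le ((a r i : ℝ) - ν (cM i) * (lam * R r i)) (ν (cM i) * (lam * R r i))
        rwa [sub_add_cancel] at this
      have hν1 : 1 ≤ ν (cM i) := hΔ1.trans (hν0 _)
      have h3 : |ν (cM i) * (lam * R r i)| = ν (cM i) * (lam * |R r i|) := by
        rw [abs_mul, abs_mul, abs_of_pos (zero_lt_one.trans_le hν1), abs_of_pos hlam]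
      rw [h3] at h2
      have h4 : ν (cM i) * (lam * |R r i|) + 1 ≤ ν (cM i) * (lam * |R r i| + 1) := by
        rw [mul_add, mul_one]
        linarith
      have h5 : (0 : ℝ) ≤ lam * |R r i| + 1 := by positivity
      calc |(a r i : ℝ)| ≤ ν (cM i) * (lam * |R r i| + 1) := by linarith
        _ ≤ L.n (cM i) * (lam * |R r i| + 1) := mul_le_mul_of_nonneg_right (hνn _) h5
        _ ≤ L.n (cM i) * Ca := mul_le_mul_of_nonneg_left (hCaR r i) (Nat.cast_nonneg _)
        _ = Ca * L.n (cM i) := mul_comm _ _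
    · have h1 : ∀ r, ht (∏ i, (x i).rep j ^ a r i) ≤ C0 r * s (Fin.last k) j := fun r => by
        refine hC0' r (a r) fun i => ?_
        have h2 := ha1 r i
        rw [hν] at h2
        simp only [hcM'] at h2
        exact h2
      simp only [hbx]
      have h3 : (B : ℝ) * ∑ r, ht (∏ i, (x i).rep j ^ a r i) ≤
          B * ((∑ r, C0 r) * s (Fin.last k) j) := by
        rw [Finset.sum_mul]
        exact mul_le_mul_of_nonneg_left (Finset.sum_le_sum fun r _ => h1 r) hBpos.le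
      have h4 : ∑ b, (L.n (cM (bs b)) : ℝ) * ht ((x (g b)).rep j) ≤
          Fintype.card β * (D * (2 * (Δ * s (Fin.last k) j))) := by
        calc ∑ b, (L.n (cM (bs b)) : ℝ) * ht ((x (g b)).rep j)
            ≤ ∑ _b : β, D * (2 * (Δ * s (Fin.last k) j)) := by
              refine Finset.sum_le_sum fun b _ => ?_
              have h5 := hht (g b)
              rw [hg b] at h5
              have h6 := (hb1 (cM (bs b))).2.2.2.2.2
              rw [← hLn', hcM'] at h6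
              calc (L.n (cM (bs b)) : ℝ) * ht ((x (g b)).rep j)
                  ≤ L.n (cM (bs b)) * (D * s (cl (bs b)) j) :=
                    mul_le_mul_of_nonneg_left h5 (Nat.cast_nonneg _)
                _ = D * (L.n (cM (bs b)) * s (cl (bs b)) j) := by ring
                _ ≤ D * (2 * (Δ * s (Fin.last k) j)) :=
                    mul_le_mul_of_nonneg_left h6 (Nat.cast_nonneg _)
          _ = _ := by rw [Finset.sum_const, Finset.card_univ, nsmul_eq_mul]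
      rw [hLT]
      have h7 : (B : ℝ) * ((∑ r, C0 r) * s (Fin.last k) j) ≤
          δ * B * (Δ * s (Fin.last k) j) / 2 := by
        have h8 := mul_le_mul_of_nonneg_right hΔC
          (show 0 ≤ (B : ℝ) * s (Fin.last k) j / 2 by positivity)
        calc (B : ℝ) * ((∑ r, C0 r) * s (Fin.last k) j)
            = 2 * (∑ r, C0 r) * (B * s (Fin.last k) j / 2) := by ring
          _ ≤ δ * Δ * (B * s (Fin.last k) j / 2) := h8
          _ = _ := by ring
      have h9 : (Fintype.card β : ℝ) * (D * (2 * (Δ * s (Fin.last k) j))) ≤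
          δ * B * (Δ * s (Fin.last k) j) / 2 := by
        have h8 := mul_le_mul_of_nonneg_right hδB
          (show 0 ≤ Δ * s (Fin.last k) j / 2 by positivity)
        calc (Fintype.card β : ℝ) * (D * (2 * (Δ * s (Fin.last k) j)))
            = 4 * (Fintype.card β : ℝ) * D * (Δ * s (Fin.last k) j / 2) := by ring
          _ ≤ δ * B * (Δ * s (Fin.last k) j / 2) := h8
          _ = _ := by ring
      linarith
    · rw [hC₁]
      linarith
    · rw [hC₁]
      linarith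
    · rw [hC₁]
      linarith
    · intro Y _ c al h1 h2 h3 h4
      rw [hLM'] at h1 h2
      simp only [hLn] at h3 ⊢
      exact hlc br (fun b => by rw [hxEb]; exact hbx (bs b))
        (fun a => by
          rw [hbκ]
          have h5 : (CA.nD s Δ j a : ℝ) * max 1 (κ a j) ≤ CA.mD s Δ κ j := by
            unfold CA.mD
            exact Finset.single_le_sum
              (f := fun a => (CA.nD s Δ j a : ℝ) * max 1 (κ a j))
              (fun a _ => mul_nonneg (Nat.cast_nonneg _)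
                (zero_le_one.trans (le_max_left _ _))) (Finset.mem_univ a)
          have h6 : (1 : ℝ) ≤ D := by exact_mod_cast hD
          have h7 : 0 ≤ CA.mD s Δ κ j := Finset.sum_nonneg fun a _ =>
            mul_nonneg (Nat.cast_nonneg _) (zero_le_one.trans (le_max_left _ _))
          nlinarith) Y c al h1 h2 h3 h4
  exact hev.exists.elim fun _ h => h

end Pool.Agent.Zilber
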