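import Pool.Agent.Zilber.Defs

set_option autoImplicit false

/-! CORE D: the vectors which vanish in block `0` (the core is in DMain.lean). -/

namespace Pool.Agent.Zilber

open Filter NumberField Module Pool.Agent.LAll Pool.Agent.LSharp Pool.Agent.CITLines

variable {J : Type} {𝒰 : Ultrafilter J} {K : J → Type} [∀ j, Field (K j)] [∀ j, NumberField (K j)]
  {k : ℕ} {s : Fin (k + 1) → J → ℝ} {ι β : Type} [Fintype ι]
  [Fintype β] [DecidableEq β] {cl : ι → Fin (k + 1)} {x : ι → Ult 𝒰 K} {bs : β → ι}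
  {X : ι → Ult 𝒰 (PS β K)}

/-- The real vectors which vanish in block `0`. -/
def pos (cl : ι → Fin (k + 1)) : Submodule ℝ (ι → ℝ) where
  carrier := {R | ∀ i, cl i = 0 → R i = 0}
  zero_mem' := fun _ _ => rfl
  add_mem' := fun {a b} ha hb i hi => by rw [Pi.add_apply, ha i hi, hb i hi, add_zero]
  smul_mem' := fun c a ha i hi => by rw [Pi.smul_apply, ha i hi, smul_zero]

end Pool.Agent.Zilber
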