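import Mathlib

set_option autoImplicit false

/-! DA4. Polynomials with exponents in a box, and multiplication by a polynomial as a matrix. -/

namespace Pool.Agent.Zilber

open MvPolynomial

variable {O R : Type} [Fintype O] [DecidableEq O] [CommRing R]

/-- The exponents of a box, as finitely supported functions. -/
noncomputable def bex {N : O → ℕ} (x : ∀ o, Fin (N o + 1)) : O →₀ ℕ :=
  Finsupp.equivFunOnFinite.symm fun o => (x o : ℕ)

/-- The polynomial with given coefficients in the box. -/
noncomputable def toPol {N : O → ℕ} (v : (∀ o, Fin (N o + 1)) → R) : MvPolynomial O R :=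
  ∑ x, monomial (bex x) (v x)

omit [DecidableEq O] in
private theorem bex_apply {N : O → ℕ} (x : ∀ o, Fin (N o + 1)) (o : O) :
    bex x o = (x o : ℕ) := rfl

omit [DecidableEq O] in
private theorem bex_le {N : O → ℕ} (x : ∀ o, Fin (N o + 1)) (o : O) : bex x o ≤ N o := by
  rw [bex_apply]
  exact Nat.lt_succ_iff.1 (x o).2

theorem bex_inj {N : O → ℕ} : Function.Injective (bex (O := O) (N := N)) := by
  intro x y h
  funext o
  exact Fin.ext (DFunLike.congr_fun h o)

theorem coeff_toPol {N : O → ℕ} (v : (∀ o, Fin (N o + 1)) → R) (x : ∀ o, Fin (N o + 1)) :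
    (toPol v).coeff (bex x) = v x := by
  unfold toPol
  rw [coeff_sum, Finset.sum_eq_single x]
  · rw [coeff_monomial, if_pos rfl]
  · intro y _ hy
    rw [coeff_monomial, if_neg fun h => hy (bex_inj h)]
  · intro h
    exact absurd (Finset.mem_univ _) h

/-- Coefficients outside the box vanish. -/
theorem coeff_toPol_of_lt {N : O → ℕ} (v : (∀ o, Fin (N o + 1)) → R) (m : O →₀ ℕ) (o : O)
    (ho : N o < m o) : (toPol v).coeff m = 0 := by
  unfold toPol
  rw [coeff_sum]
  refine Finset.sum_eq_zero fun y _ => ?_
  rw [coeff_monomial, if_neg]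
  intro h
  have h1 := bex_le y o
  rw [h] at h1
  omega

theorem degreeOf_toPol {N : O → ℕ} (v : (∀ o, Fin (N o + 1)) → R) (o : O) :
    (toPol v).degreeOf o ≤ N o := by
  rw [degreeOf_le_iff]
  intro m hm
  by_contra hcon
  exact (mem_support_iff.1 hm) (coeff_toPol_of_lt v m o (by omega))

/-- Every polynomial of degree `≤ N o` in the variable `o` is of this form. -/
theorem eq_toPol {N : O → ℕ} (F : MvPolynomial O R) (hF : ∀ o, F.degreeOf o ≤ N o) :
    F = toPol (N := N) (fun x => F.coeff (bex x)) := by
  ext m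
  by_cases h : ∀ o, m o ≤ N o
  · have h1 : m = bex (N := N) (fun o => ⟨m o, Nat.lt_succ_iff.2 (h o)⟩) := by
      ext o
      rfl
    rw [h1, coeff_toPol]
  · push Not at h
    obtain ⟨o, ho⟩ := h
    rw [coeff_toPol_of_lt _ m o ho]
    by_contra hcon
    have h1 := monomial_le_degreeOf o (mem_support_iff.2 hcon)
    have h2 := hF o
    omega

/-- The matrix of the multiplication by `f` from the box `N'` to the box `N`. -/
noncomputable def mulMat (f : MvPolynomial O R) (N N' : O → ℕ) :
    Matrix (∀ o, Fin (N o + 1)) (∀ o, Fin (N' o + 1)) R :=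
  fun a b => if bex b ≤ bex a then f.coeff (bex a - bex b) else 0

/-- **Multiplication by `f`.** (`coeff_mul_monomial'`, `Finset.mul_sum`; if `degreeOf o f + N' o ≤ N o` all monomials of
the product are in the box `N`.) -/
theorem mul_toPol (f : MvPolynomial O R) {N N' : O → ℕ} (hN : ∀ o, f.degreeOf o + N' o ≤ N o)
    (v : (∀ o, Fin (N' o + 1)) → R) : f * toPol v = toPol ((mulMat f N N').mulVec v) := by
  have h1 : ∀ o, (f * toPol v).degreeOf o ≤ N o := fun o =>
    (degreeOf_mul_le o f (toPol v)).trans
      ((Nat.add_le_add_left (degreeOf_toPol v o) _).trans (hN o))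
  have h2 : (fun x : ∀ o, Fin (N o + 1) => (f * toPol v).coeff (bex x)) =
      (mulMat f N N').mulVec v := by
    funext a
    unfold toPol
    rw [Finset.mul_sum, coeff_sum]
    change _ = ∑ b, mulMat f N N' a b * v b
    refine Finset.sum_congr rfl fun b _ => ?_
    unfold mulMat
    rw [coeff_mul_monomial']
    split_ifs
    · rfl
    · rw [zero_mul]
  rw [← h2]
  exact eq_toPol _ h1

/-- The matrix over `ℝ` is the image of the matrix over `ℤ`. -/
theorem mulMat_map (f : MvPolynomial O ℤ) (N N' : O → ℕ) :
    (mulMat f N N').map (Int.cast : ℤ → ℝ) = mulMat (map (Int.castRingHom ℝ) f) N N' := by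
  ext a b
  rw [Matrix.map_apply]
  unfold mulMat
  split_ifs
  · rw [coeff_map]
    rfl
  · exact Int.cast_zero

end Pool.Agent.Zilber
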