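import Pool.Agent.Zilber.DABox
import Pool.Agent.Zilber.DAGel

set_option autoImplicit false

/-! DA5. The lower bound for the multiplication matrix. -/

namespace Pool.Agent.Zilber

open MvPolynomial

private theorem dl_rename {σ τ : Type} (e : σ ≃ τ) (P : MvPolynomial σ ℂ) :
    Lc (rename e P) = Lc P := by
  classical
  unfold Lc
  rw [support_rename_of_injective e.injective, Finset.sum_image]
  · refine Finset.sum_congr rfl fun m _ => ?_
    rw [coeff_rename_mapDomain _ e.injective]
  · intro a _ b _ h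
    exact Finsupp.mapDomain_injective e.injective h

private theorem dl_L1 {σ : Type} (f : MvPolynomial σ ℤ) :
    Lc (map Complex.ofRealHom (map (Int.castRingHom ℝ) f)) = LSharp.L1 f := by
  unfold Lc LSharp.L1
  rw [support_map_of_injective _ Complex.ofReal_injective,
    support_map_of_injective _ (RingHom.injective_int _)]
  refine Finset.sum_congr rfl fun m _ => ?_
  rw [coeff_map, coeff_map]
  change ‖(((f.coeff m : ℤ) : ℝ) : ℂ)‖ = _
  rw [Complex.norm_real, Real.norm_eq_abs]

private theorem dl_coeff {σ : Type} (P : MvPolynomial σ ℂ) (m : σ →₀ ℕ) : ‖P.coeff m‖ ≤ Lc P := by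
  by_cases hm : m ∈ P.support
  · exact Finset.single_le_sum (f := fun i => ‖P.coeff i‖) (fun i _ => norm_nonneg _) hm
  · rw [notMem_support_iff.1 hm, norm_zero]
    exact Finset.sum_nonneg fun i _ => norm_nonneg _

private theorem dl_box {O : Type} [Fintype O] [DecidableEq O] {N : O → ℕ}
    (w : (∀ o, Fin (N o + 1)) → ℝ) (S : ℝ) (hS : ∀ a, |w a| ≤ S) :
    Lc (map Complex.ofRealHom (toPol w)) ≤ (∏ o, ((N o : ℝ) + 1)) * S := by
  classical
  have h1 : (map Complex.ofRealHom (toPol w)).support ⊆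
      Finset.univ.image (bex (O := O) (N := N)) := by
    intro m hm
    rw [support_map_of_injective _ Complex.ofReal_injective, mem_support_iff] at hm
    have h : ∀ o, m o ≤ N o := by
      intro o
      by_contra hcon
      exact hm (coeff_toPol_of_lt w m o (by omega))
    refine Finset.mem_image.2 ⟨fun o => ⟨m o, Nat.lt_succ_iff.2 (h o)⟩, Finset.mem_univ _, ?_⟩
    ext o
    rfl
  calc Lc (map Complex.ofRealHom (toPol w))
      ≤ ∑ m ∈ Finset.univ.image (bex (O := O) (N := N)),
          ‖(map Complex.ofRealHom (toPol w)).coeff m‖ :=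
        Finset.sum_le_sum_of_subset_of_nonneg h1 fun _ _ _ => norm_nonneg _
    _ = ∑ x, ‖(map Complex.ofRealHom (toPol w)).coeff (bex (N := N) x)‖ :=
        Finset.sum_image fun _ _ _ _ h => bex_inj h
    _ ≤ ∑ _x : (∀ o, Fin (N o + 1)), S := by
        refine Finset.sum_le_sum fun x _ => ?_
        rw [coeff_map, coeff_toPol]
        change ‖((w x : ℝ) : ℂ)‖ ≤ S
        rw [Complex.norm_real]
        exact hS x
    _ = (∏ o, ((N o : ℝ) + 1)) * S := by
        rw [Finset.sum_const, nsmul_eq_mul, Finset.card_univ, Fintype.card_pi]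
        simp only [Fintype.card_fin]
        push_cast
        rfl

private theorem dl_prod {O : Type} [Fintype O] (N : O → ℕ) :
    ∏ o, ((N o : ℝ) + 1) ≤ Real.exp (∑ o, (N o : ℝ)) := by
  rw [Real.exp_sum]
  exact Finset.prod_le_prod (fun _ _ => by positivity) fun o _ => Real.add_one_le_exp _

private theorem dl_deg {O R S : Type} [CommRing R] [CommRing S] (φ : R →+* S)
    (F : MvPolynomial O R) (o : O) : (map φ F).degreeOf o ≤ F.degreeOf o := by
  rw [degreeOf_le_iff]
  intro m hm
  exact monomial_le_degreeOf o (support_map_subset _ _ hm)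

/-- **The lower bound for the matrix**, from Gelfond's inequality.

Proof. Let `e : O ≃ Fin d`, `d = card O`. `Lc (rename e (map ofReal (map f))) = L1 f` and
`|h i| ≤ Lc (rename e (map ofReal (toPol h)))`; the product is `toPol (Φ h)` (mapped to `ℂ` and
renamed), with
`Lc ≤ card (box N) * S`. `gelfond_mul d` with the degrees `degreeOf (e o) ≤ N o` (sum of the two
degrees: `f.degreeOf o + N' o ≤ N o`):
`L1 f * |h i| ≤ exp (c ∑ N o) * (∏ (N o + 1)) * S ≤ exp ((c + 1) ∑ N o) * S`. -/
theorem mulMat_lower (O : Type) [Fintype O] [DecidableEq O] : ∃ c : ℝ, 0 ≤ c ∧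
    ∀ (f : MvPolynomial O ℤ) (N N' : O → ℕ), (∀ o, f.degreeOf o + N' o ≤ N o) →
      ∀ (h : (∀ o, Fin (N' o + 1)) → ℝ) (S : ℝ),
        (∀ a, |((mulMat f N N').map (Int.cast : ℤ → ℝ)).mulVec h a| ≤ S) →
        ∀ i, LSharp.L1 f * Real.exp (-(c * ∑ o, (N o : ℝ))) * |h i| ≤ S := by
  obtain ⟨c, hc, hgel⟩ := gelfond_mul (Fintype.card O)
  refine ⟨c + 1, by linarith, fun f N N' hN h S hS i => ?_⟩
  set e : O ≃ Fin (Fintype.card O) := Fintype.equivFin O with he
  set T : ℝ := ∑ o, (N o : ℝ) with hT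
  have hS0 : 0 ≤ S := (abs_nonneg _).trans (hS fun o => 0)
  set f' : MvPolynomial O ℝ := map (Int.castRingHom ℝ) f with hf'
  have hN' : ∀ o, f'.degreeOf o + N' o ≤ N o := fun o =>
    (Nat.add_le_add_right (dl_deg _ f o) _).trans (hN o)
  set P : MvPolynomial (Fin (Fintype.card O)) ℂ := rename e (map Complex.ofRealHom f') with hP
  set Q : MvPolynomial (Fin (Fintype.card O)) ℂ :=
    rename e (map Complex.ofRealHom (toPol h)) with hQ
  have hPL : Lc P = LSharp.L1 f := by rw [hP, dl_rename, hf', dl_L1]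
  have hQL : |h i| ≤ Lc Q := by
    rw [hQ, dl_rename]
    refine le_trans (le_of_eq ?_) (dl_coeff _ (bex i))
    rw [coeff_map, coeff_toPol]
    change _ = ‖((h i : ℝ) : ℂ)‖
    rw [Complex.norm_real, Real.norm_eq_abs]
  have hPQ : Lc (P * Q) ≤ (∏ o, ((N o : ℝ) + 1)) * S := by
    rw [hP, hQ, ← map_mul, ← map_mul, mul_toPol f' hN', dl_rename]
    refine dl_box _ S fun a => ?_
    have h1 := hS a
    rwa [mulMat_map] at h1
  have hdeg : (∑ k, ((P.degreeOf k : ℝ) + Q.degreeOf k)) ≤ T := by
    rw [hT, ← Equiv.sum_comp e]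
    refine Finset.sum_le_sum fun o _ => ?_
    rw [hP, hQ, degreeOf_rename_of_injective e.injective, degreeOf_rename_of_injective e.injective]
    have h1 : (map Complex.ofRealHom f').degreeOf o +
        (map Complex.ofRealHom (toPol h)).degreeOf o ≤ N o :=
      (Nat.add_le_add (dl_deg _ _ o) ((dl_deg _ _ o).trans (degreeOf_toPol h o))).trans (hN' o)
    exact_mod_cast h1
  have hL0 : 0 ≤ LSharp.L1 f := Finset.sum_nonneg fun _ _ => abs_nonneg _
  have h1 : LSharp.L1 f * |h i| ≤ Real.exp (c * T) * (Real.exp T * S) := by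
    calc LSharp.L1 f * |h i| ≤ Lc P * Lc Q := by
          rw [hPL]
          exact mul_le_mul_of_nonneg_left hQL hL0
      _ ≤ Real.exp (c * ∑ k, ((P.degreeOf k : ℝ) + Q.degreeOf k)) * Lc (P * Q) := hgel P Q
      _ ≤ Real.exp (c * T) * (Real.exp T * S) := by
          refine mul_le_mul (Real.exp_le_exp.2 (mul_le_mul_of_nonneg_left hdeg hc))
            (hPQ.trans (mul_le_mul_of_nonneg_right (dl_prod N) hS0)) ?_ (Real.exp_pos _).le
          exact Finset.sum_nonneg fun _ _ => norm_nonneg _
  have h2 : Real.exp (-((c + 1) * T)) * (Real.exp (c * T) * (Real.exp T * S)) = S := by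
    rw [← mul_assoc, ← mul_assoc, ← Real.exp_add, ← Real.exp_add]
    have : -((c + 1) * T) + c * T + T = 0 := by ring
    rw [this, Real.exp_zero, one_mul]
  calc LSharp.L1 f * Real.exp (-((c + 1) * T)) * |h i|
      = Real.exp (-((c + 1) * T)) * (LSharp.L1 f * |h i|) := by ring
    _ ≤ Real.exp (-((c + 1) * T)) * (Real.exp (c * T) * (Real.exp T * S)) :=
        mul_le_mul_of_nonneg_left h1 (Real.exp_pos _).le
    _ = S := h2

end Pool.Agent.Zilber
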