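import Mathlib

set_option autoImplicit false

/-! DA2. A maximal minor of an injective matrix. -/

namespace Pool.Agent.Zilber

private theorem exists_minor {A B : Type} [Fintype A] [Fintype B] [DecidableEq A]
    [DecidableEq B] (Φ : Matrix A B ℝ) (hΦ : Function.Injective Φ.mulVec) :
    ∃ ι : B → A, (Φ.submatrix ι id).det ≠ 0 := by
  have hspan : Submodule.span ℝ (Set.range Φ) = ⊤ := by
    by_contra hne
    obtain ⟨f, hf0, hf⟩ := Submodule.exists_le_ker_of_lt_top _ (lt_top_iff_ne_top.2 hne)
    apply hf0
    have h1 : Φ.mulVec (fun b => f (Pi.single b 1)) = Φ.mulVec 0 := by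
      rw [Matrix.mulVec_zero]
      funext a
      have h2 : f (Φ a) = 0 := hf (Submodule.subset_span ⟨a, rfl⟩)
      rw [Pi.zero_apply, ← h2]
      conv_rhs => rw [← Finset.univ_sum_single (Φ a)]
      rw [map_sum]
      refine Finset.sum_congr rfl fun b _ => ?_
      rw [← smul_eq_mul, ← map_smul]
      congr 1
      funext b'
      simp [Pi.single_apply]
    have h3 := hΦ h1
    refine LinearMap.pi_ext fun b x => ?_
    have h4 : (Pi.single b x : B → ℝ) = x • Pi.single b 1 := by
      funext b'
      simp [Pi.single_apply]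
    rw [h4, map_smul, LinearMap.zero_apply]
    have h5 : f (Pi.single b 1) = 0 := congrFun h3 b
    rw [h5, smul_zero]
  obtain ⟨κ, a, ha, hsp, hli⟩ := exists_linearIndependent' ℝ (Φ : A → B → ℝ)
  have hb := Module.Basis.mk hli (by rw [hsp]; exact hspan.ge)
  let e : κ ≃ B := hb.indexEquiv (Pi.basisFun ℝ B)
  refine ⟨a ∘ e.symm, ?_⟩
  have h6 : LinearIndependent ℝ (Φ.submatrix (a ∘ e.symm) id).row := by
    have h7 : (Φ.submatrix (a ∘ e.symm) id).row = ((Φ : A → B → ℝ) ∘ a) ∘ e.symm := rfl
    rw [h7]
    exact hli.comp _ e.symm.injective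
  rw [Matrix.linearIndependent_rows_iff_isUnit, Matrix.isUnit_iff_isUnit_det] at h6
  exact h6.ne_zero

/-- **Maximal minor.** `Φ` an injective real matrix. There are rows `ι i` which form a basis of the row space
and such that every other coordinate of `Φ h` is at most the sum of the absolute values of these.

Proof. The rows of `Φ` span `B → ℝ` (injective: rank `= card B`), so there are rows forming a basis: an `ι` with
`det (Φ.submatrix ι id) ≠ 0` (e.g. `exists_linearIndependent` for the rows / `Matrix.rank`; or: the transpose is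
surjective). Choose `ι : B → A` with the largest `|det (Φ.submatrix ι id)|` (`Finite.exists_max`), it is `> 0`.
`ι` is injective (two equal rows have determinant zero: `Matrix.det_zero_of_row_eq`). For `a : A` the row `Φ a` is `∑ λ_i Φ (ι i)`
(`λ = Φ a` times the inverse matrix), and Cramer: the determinant of the matrix with the row `i` replaced by `Φ a`, i.e.
`Φ.submatrix (Function.update ι i a) id`, is `λ_i * det` (`Matrix.det_updateRow_sum`-type lemmas, multilinearity), so
`|λ_i| ≤ 1` by maximality. `(Φ h) a = ∑ λ_i (Φ h) (ι i)`. -/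
theorem exists_max_minor {A B : Type} [Fintype A] [Fintype B] [DecidableEq A] [DecidableEq B]
    (Φ : Matrix A B ℝ) (hΦ : Function.Injective Φ.mulVec) :
    ∃ ι : B → A, Function.Injective ι ∧ (Φ.submatrix ι id).det ≠ 0 ∧
      ∀ (h : B → ℝ) (a : A), |Φ.mulVec h a| ≤ ∑ i, |Φ.mulVec h (ι i)| := by
  classical
  obtain ⟨ι₀, hι₀⟩ := exists_minor Φ hΦ
  have : Nonempty (B → A) := ⟨ι₀⟩
  obtain ⟨ι, hι⟩ := Finite.exists_max fun ι : B → A => |(Φ.submatrix ι id).det|
  have hpos : 0 < |(Φ.submatrix ι id).det| := (abs_pos.2 hι₀).trans_le (hι ι₀)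
  have hne : (Φ.submatrix ι id).det ≠ 0 := abs_pos.1 hpos
  refine ⟨ι, ?_, hne, ?_⟩
  · intro i j hij
    by_contra h
    exact hne (Matrix.det_zero_of_row_eq h (by
      funext b
      change Φ (ι i) b = Φ (ι j) b
      rw [hij]))
  · intro h a
    set M := Φ.submatrix ι id with hM
    set c := Matrix.cramer M.transpose (Φ a) with hc
    have h1 : ∀ i, |c i| ≤ |M.det| := by
      intro i
      have h2 : M.updateRow i (Φ a) = Φ.submatrix (Function.update ι i a) id := by
        ext j b
        by_cases hj : j = i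
        · subst hj
          simp [Matrix.updateRow_self]
        · simp [Matrix.updateRow_ne hj, Function.update_of_ne hj, hM]
      rw [hc, Matrix.cramer_transpose_apply, h2]
      exact hι _
    have h3 : M.det * Φ.mulVec h a = ∑ i, c i * Φ.mulVec h (ι i) := by
      have h4 := Matrix.mulVec_cramer M.transpose (Φ a)
      rw [← hc, Matrix.det_transpose, Matrix.mulVec_transpose] at h4
      have h5 : M.det * Φ.mulVec h a = (M.det • Φ a) ⬝ᵥ h := by
        rw [smul_dotProduct, smul_eq_mul]
        rfl
      rw [h5, ← h4, ← Matrix.dotProduct_mulVec]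
      rfl
    have h6 : |M.det| * |Φ.mulVec h a| ≤ |M.det| * ∑ i, |Φ.mulVec h (ι i)| := by
      rw [← abs_mul, h3, Finset.mul_sum]
      refine (Finset.abs_sum_le_sum_abs _ _).trans (Finset.sum_le_sum fun i _ => ?_)
      rw [abs_mul]
      exact mul_le_mul_of_nonneg_right (h1 i) (abs_nonneg _)
    exact le_of_mul_le_mul_left h6 hpos

end Pool.Agent.Zilber
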