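import Pool.Agent.Zilber.DAMin

set_option autoImplicit false

/-! DA3. The pigeonhole principle: an integral vector near the image of a real vector. -/

namespace Pool.Agent.Zilber

/-- **Pigeonhole.** `Φ` an integral matrix with `Λ * max |h| ≤ max |Φ h|` for real `h`. If `card B * Q < Λ` and
`card A ≤ 2 card B` there are an integral vector `G` and a real vector `h` with `|G - Φ h| ≤ 1 / (Q - 1)`, `|G| ≤ card B * Q + 1`,
and `G` is not `Φ m` for an integral `m`.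

Proof. `Φ` (over `ℝ`) is injective by `hb` (`Φ h = 0` gives `Λ |h i| ≤ 0`). `ι` from `exists_max_minor`. For `P : B → Fin Q` let
`h_P` be the real vector with `(Φ h_P) (ι i) = P i` (inverse of the submatrix). Consider the map which
sends `P` to the function `a ↦ ⌊(Q - 1) * Int.fract ((Φ h_P) a)⌋` in `Fin (Q - 1)`, on the complement `{a // a ∉ range ι}`: it has
`card A - card B ≤ card B` elements, so the number of values `(Q-1)^(card A - card B)` is less than `Q ^ (card B)`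
(`Q ≥ 2`, `card B ≥ 1`). Two different `P`, `P'` have the same image (`Finset.exists_ne_map_eq_of_card_lt_of_maps_to` or
`Fintype.exists_ne_map_eq_of_card_lt`). `h = h_P - h_P'`, `G a = P i - P' i` for `a = ι i`, and
`G a = ⌊(Φ h_P) a⌋ - ⌊(Φ h_P') a⌋` otherwise: `|G a - (Φ h) a| = |fract - fract| ≤ 1 / (Q - 1)`. Put
`S = ∑_i |(Φ h) (ι i)| ≤ card B * (Q - 1)`: `|(Φ h) a| ≤ S` for all `a`, so `|G a| ≤ S + 1` and `Λ |h i| ≤ S < Λ`,
`|h i| < 1`. If `G = Φ m` with `m` integral then `(Φ m) (ι i) = (Φ h) (ι i)` for all `i`, so `m = h` (submatrix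
invertible), `|m i| < 1`, `m = 0`, `G = 0`, but `G (ι i) = P i - P' i ≠ 0` for some `i`. -/
theorem pigeon {A B : Type} [Fintype A] [Fintype B] [DecidableEq A] [DecidableEq B] [Nonempty B]
    (Φ : Matrix A B ℤ) (Λ : ℝ)
    (hb : ∀ (h : B → ℝ) (S : ℝ), (∀ a, |(Φ.map (Int.cast : ℤ → ℝ)).mulVec h a| ≤ S) →
      ∀ i, Λ * |h i| ≤ S)
    (Q : ℕ) (hQ2 : 2 ≤ Q) (hQ : (Fintype.card B : ℝ) * Q < Λ)
    (hN : Fintype.card A ≤ 2 * Fintype.card B) :
    ∃ (G : A → ℤ) (h : B → ℝ),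
      (∀ a, |(G a : ℝ) - (Φ.map (Int.cast : ℤ → ℝ)).mulVec h a| ≤ 1 / ((Q : ℝ) - 1)) ∧
      (∀ a, |(G a : ℝ)| ≤ Fintype.card B * Q + 1) ∧ ∀ m : B → ℤ, G ≠ Φ.mulVec m := by
  classical
  obtain ⟨Ψ, hΨ⟩ : ∃ Ψ : Matrix A B ℝ, Ψ = Φ.map (Int.cast : ℤ → ℝ) := ⟨_, rfl⟩
  rw [← hΨ] at hb ⊢
  have hQR : (2 : ℝ) ≤ Q := by exact_mod_cast hQ2
  have hΛ : 0 < Λ := lt_of_le_of_lt (by positivity) hQ
  have hinj : Function.Injective Ψ.mulVec := by
    intro h h' hh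
    have h0 : ∀ a, |Ψ.mulVec (h - h') a| ≤ 0 := by
      intro a
      rw [Matrix.mulVec_sub, hh, sub_self]
      simp
    funext i
    have h1 := hb (h - h') 0 h0 i
    have h2 : |(h - h') i| ≤ 0 := by
      by_contra h3
      push Not at h3
      have := mul_pos hΛ h3
      linarith
    have h4 : h i - h' i = 0 := abs_nonpos_iff.1 h2
    linarith
  obtain ⟨ι, hι, hdet, hmax⟩ := exists_max_minor Ψ hinj
  obtain ⟨N, hN'⟩ : ∃ N : Matrix B B ℝ, N = Ψ.submatrix ι id := ⟨_, rfl⟩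
  rw [← hN'] at hdet
  have hunit : IsUnit N.det := isUnit_iff_ne_zero.2 hdet
  have hNι : ∀ (h : B → ℝ) (i : B), Ψ.mulVec h (ι i) = N.mulVec h i := by
    intro h i
    rw [hN']
    rfl
  obtain ⟨hp, hhp⟩ : ∃ hp : (B → Fin Q) → B → ℝ,
      ∀ P, hp P = N⁻¹.mulVec (fun i => ((P i : ℕ) : ℝ)) := ⟨_, fun _ => rfl⟩
  have hpe : ∀ (P : B → Fin Q) (i : B), Ψ.mulVec (hp P) (ι i) = ((P i : ℕ) : ℝ) := by
    intro P i
    rw [hNι, hhp, Matrix.mulVec_mulVec, Matrix.mul_nonsing_inv N hunit, Matrix.one_mulVec]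
  -- the boxes
  have hQ1 : (0 : ℝ) < (Q : ℝ) - 1 := by linarith
  have hcast : ((Q - 1 : ℕ) : ℝ) = (Q : ℝ) - 1 := by
    rw [Nat.cast_sub (by omega), Nat.cast_one]
  have hfl : ∀ x : ℝ, ⌊((Q : ℝ) - 1) * Int.fract x⌋₊ < Q - 1 := by
    intro x
    rw [Nat.floor_lt (mul_nonneg hQ1.le (Int.fract_nonneg x)), hcast]
    have := Int.fract_lt_one x
    nlinarith
  let f : (B → Fin Q) → ({a // a ∉ Set.range ι} → Fin (Q - 1)) := fun P a =>
    ⟨⌊((Q : ℝ) - 1) * Int.fract (Ψ.mulVec (hp P) a.1)⌋₊, hfl _⟩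
  have hcard : Fintype.card ({a // a ∉ Set.range ι} → Fin (Q - 1)) <
      Fintype.card (B → Fin Q) := by
    rw [Fintype.card_fun, Fintype.card_fun, Fintype.card_fin, Fintype.card_fin]
    have h1 : Fintype.card {a // a ∉ Set.range ι} ≤ Fintype.card B := by
      have h2 := Fintype.card_subtype_compl (fun a => a ∈ Set.range ι)
      have h3 : Fintype.card {a // a ∈ Set.range ι} = Fintype.card B :=
        (Fintype.card_congr (Equiv.ofInjective ι hι)).symm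
      omega
    calc (Q - 1) ^ Fintype.card {a // a ∉ Set.range ι} ≤ (Q - 1) ^ Fintype.card B :=
          Nat.pow_le_pow_right (by omega) h1
      _ < Q ^ Fintype.card B := Nat.pow_lt_pow_left (by omega) Fintype.card_ne_zero
  obtain ⟨P, P', hne, hf⟩ := Fintype.exists_ne_map_eq_of_card_lt f hcard
  have hS : ∑ i, |Ψ.mulVec (hp P - hp P') (ι i)| ≤ Fintype.card B * ((Q : ℝ) - 1) := by
    have h1 : ∀ i ∈ (Finset.univ : Finset B), |Ψ.mulVec (hp P - hp P') (ι i)| ≤ (Q : ℝ) - 1 := by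
      intro i _
      rw [Matrix.mulVec_sub, Pi.sub_apply, hpe, hpe, ← hcast]
      have h2 := (P i).2
      have h3 := (P' i).2
      have h4 : ((P i : ℕ) : ℝ) ≤ ((Q - 1 : ℕ) : ℝ) := by exact_mod_cast (by omega)
      have h5 : ((P' i : ℕ) : ℝ) ≤ ((Q - 1 : ℕ) : ℝ) := by exact_mod_cast (by omega)
      have h6 : (0 : ℝ) ≤ ((P i : ℕ) : ℝ) := Nat.cast_nonneg _
      have h7 : (0 : ℝ) ≤ ((P' i : ℕ) : ℝ) := Nat.cast_nonneg _
      rw [abs_le]
      constructor <;> linarith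
    refine (Finset.sum_le_sum h1).trans (le_of_eq ?_)
    rw [Finset.sum_const, nsmul_eq_mul, Finset.card_univ]
  have hG : ∀ a, |((⌊Ψ.mulVec (hp P) a⌋ - ⌊Ψ.mulVec (hp P') a⌋ : ℤ) : ℝ) -
      Ψ.mulVec (hp P - hp P') a| ≤ 1 / ((Q : ℝ) - 1) := by
    intro a
    have e1 : ((⌊Ψ.mulVec (hp P) a⌋ - ⌊Ψ.mulVec (hp P') a⌋ : ℤ) : ℝ) -
        Ψ.mulVec (hp P - hp P') a =
        Int.fract (Ψ.mulVec (hp P') a) - Int.fract (Ψ.mulVec (hp P) a) := by
      rw [Matrix.mulVec_sub, Pi.sub_apply, Int.fract, Int.fract]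
      push_cast
      ring
    rw [e1]
    by_cases ha : a ∈ Set.range ι
    · obtain ⟨i, rfl⟩ := ha
      rw [hpe, hpe, Int.fract_natCast, Int.fract_natCast, sub_self, abs_zero]
      positivity
    · have h1 : ⌊((Q : ℝ) - 1) * Int.fract (Ψ.mulVec (hp P) a)⌋₊ =
          ⌊((Q : ℝ) - 1) * Int.fract (Ψ.mulVec (hp P') a)⌋₊ :=
        congrArg Fin.val (congrFun hf ⟨a, ha⟩)
      have h2 : ∀ x : ℝ, (⌊((Q : ℝ) - 1) * Int.fract x⌋₊ : ℝ) ≤ ((Q : ℝ) - 1) * Int.fract x :=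
        fun x => Nat.floor_le (mul_nonneg hQ1.le (Int.fract_nonneg x))
      have h3 : ∀ x : ℝ, ((Q : ℝ) - 1) * Int.fract x < ⌊((Q : ℝ) - 1) * Int.fract x⌋₊ + 1 :=
        fun x => Nat.lt_floor_add_one _
      have h4 := h2 (Ψ.mulVec (hp P) a)
      have h5 := h2 (Ψ.mulVec (hp P') a)
      have h6 := h3 (Ψ.mulVec (hp P) a)
      have h7 := h3 (Ψ.mulVec (hp P') a)
      rw [← h1] at h5 h7
      rw [le_div_iff₀ hQ1, ← abs_of_pos hQ1, ← abs_mul, abs_le]
      constructor <;> nlinarith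
  refine ⟨fun a => ⌊Ψ.mulVec (hp P) a⌋ - ⌊Ψ.mulVec (hp P') a⌋, hp P - hp P', hG, ?_, ?_⟩
  · intro a
    have h1 := hG a
    have h2 := (hmax (hp P - hp P') a).trans hS
    have h3 : 1 / ((Q : ℝ) - 1) ≤ 1 := by
      rw [div_le_one hQ1]
      linarith
    have h4 : |((⌊Ψ.mulVec (hp P) a⌋ - ⌊Ψ.mulVec (hp P') a⌋ : ℤ) : ℝ)| ≤
        |((⌊Ψ.mulVec (hp P) a⌋ - ⌊Ψ.mulVec (hp P') a⌋ : ℤ) : ℝ) -
          Ψ.mulVec (hp P - hp P') a| + |Ψ.mulVec (hp P - hp P') a| := by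
      have := abs_add_le (((⌊Ψ.mulVec (hp P) a⌋ - ⌊Ψ.mulVec (hp P') a⌋ : ℤ) : ℝ) -
          Ψ.mulVec (hp P - hp P') a) (Ψ.mulVec (hp P - hp P') a)
      rwa [sub_add_cancel] at this
    have h5 : (0 : ℝ) ≤ Fintype.card B := Nat.cast_nonneg _
    linarith
  · intro m hm
    -- the integral vector is the real vector
    have h1 : ∀ a, Ψ.mulVec (fun i => ((m i : ℤ) : ℝ)) a = ((Φ.mulVec m a : ℤ) : ℝ) := by
      intro a
      rw [hΨ]
      simp [Matrix.mulVec, dotProduct]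
    have h2 : ∀ i, N.mulVec (fun i => ((m i : ℤ) : ℝ)) i = N.mulVec (hp P - hp P') i := by
      intro i
      rw [← hNι, ← hNι, h1, ← hm, Matrix.mulVec_sub, Pi.sub_apply, hpe, hpe]
      simp only [hpe]
      push_cast
      rw [Int.floor_natCast, Int.floor_natCast]
      push_cast
      rfl
    have h3 : (fun i => ((m i : ℤ) : ℝ)) = hp P - hp P' := by
      have h4 : N⁻¹.mulVec (N.mulVec (fun i => ((m i : ℤ) : ℝ))) =
          N⁻¹.mulVec (N.mulVec (hp P - hp P')) := by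
        rw [funext h2]
      rwa [Matrix.mulVec_mulVec, Matrix.mulVec_mulVec, Matrix.nonsing_inv_mul N hunit,
        Matrix.one_mulVec, Matrix.one_mulVec] at h4
    have h4 : ∀ i, m i = 0 := by
      intro i
      have h5 := hb (hp P - hp P') _ (fun a => (hmax (hp P - hp P') a).trans hS) i
      rw [← h3] at h5
      have h6 : Λ * |((m i : ℤ) : ℝ)| < Λ * 1 := by
        have h7 : (0 : ℝ) ≤ Fintype.card B := Nat.cast_nonneg _
        have h8 : Λ * |((m i : ℤ) : ℝ)| ≤ Fintype.card B * ((Q : ℝ) - 1) := h5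
        linarith
      have h7 := lt_of_mul_lt_mul_left h6 hΛ.le
      rw [← Int.cast_abs] at h7
      have h8 : |m i| < 1 := by exact_mod_cast h7
      exact Int.abs_lt_one_iff.1 h8
    apply hne
    funext i
    have h5 := congrFun hm (ι i)
    have h6 : m = 0 := funext h4
    rw [h6, Matrix.mulVec_zero] at h5
    simp only [hpe, Int.floor_natCast, Pi.zero_apply] at h5
    apply Fin.ext
    omega

end Pool.Agent.Zilber
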