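import Pool.Agent.Zilber.DALow
import Pool.Agent.Zilber.DAPig

set_option autoImplicit false

/-! DA6. ALPHA with coefficient bounds: an integral polynomial which is small modulo `f`. -/

namespace Pool.Agent.Zilber

open MvPolynomial

private theorem alpha_toPol_add {O R : Type} [Fintype O] [DecidableEq O] [CommRing R] {N : O → ℕ}
    (u v : (∀ o, Fin (N o + 1)) → R) :
    toPol (fun a => u a + v a) = toPol u + toPol v := by
  unfold toPol
  rw [← Finset.sum_add_distrib]
  refine Finset.sum_congr rfl fun x _ => ?_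
  exact map_add (monomial (bex x)) _ _

private theorem alpha_toPol_map {O R R' : Type} [Fintype O] [DecidableEq O] [CommRing R]
    [CommRing R'] (φ : R →+* R') {N : O → ℕ} (u : (∀ o, Fin (N o + 1)) → R) :
    map φ (toPol u) = toPol fun a => φ (u a) := by
  unfold toPol
  rw [map_sum]
  refine Finset.sum_congr rfl fun x _ => ?_
  rw [map_monomial]

private theorem alpha_degreeOf_map {O R R' : Type} [CommRing R] [CommRing R'] (φ : R →+* R')
    (F : MvPolynomial O R) (o : O) : (map φ F).degreeOf o ≤ F.degreeOf o := by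
  classical
  rw [degreeOf_le_iff]
  intro m hm
  exact (degreeOf_le_iff.1 le_rfl) m (support_map_subset φ F hm)

private theorem alpha_coeff {O R : Type} [Fintype O] [DecidableEq O] [CommRing R] {N : O → ℕ}
    (u : (∀ o, Fin (N o + 1)) → R) (P : R → Prop) (h0 : P 0) (h : ∀ a, P (u a)) (i : O →₀ ℕ) :
    P ((toPol u).coeff i) := by
  by_cases hi : ∀ o, i o ≤ N o
  · have h1 : i = bex (N := N) fun o => ⟨i o, Nat.lt_succ_of_le (hi o)⟩ := by
      ext o
      rfl
    rw [h1, coeff_toPol]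
    exact h _
  · push Not at hi
    obtain ⟨o, ho⟩ := hi
    rw [coeff_toPol_of_lt _ _ o ho]
    exact h0

/-- **ALPHA.** For every nonconstant polynomial `f` of degree `≤ D` in each variable and every
`La ≥ La0` with `La D ≤ log L1 f` there is an integral polynomial `G`, not divisible by `f`, with degrees
`≤ 2 card O D` and coefficients `≤ exp (La D)`, which is congruent modulo `f` (over `ℝ`) to a polynomial `g` with coefficients
`≤ exp (- La D / 4)`.

Proof. `m = card O ≥ 1`. `N o = 2 m D`, `N' o = N o - degreeOf o f`. `A = ∀ o, Fin (N o + 1)`, `B = ∀ o, Fin (N' o + 1)`,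
`Φ = mulMat f N N'`. `card B = ∏ (N o - deg + 1) ≥ ∏ (N o + 1) (1 - D / (2 m D + 1)) ≥ card A * (1 - m D / (2 m D + 1)) ≥ card A / 2`
(Bernoulli: `one_add_mul_le_pow`; all factors `(N + 1 - D) / (N + 1)`). `Λ = L1 f * exp (- c ∑ N o)`, `∑ N o = 2 m² D`, from `mulMat_lower`.
`Q = ⌊exp (La D / 2)⌋₊`. `card B ≤ (2 m D + 1) ^ m ≤ exp (2 m² D)`. Then
`card B * Q ≤ exp (2 m² D + La D / 2) < exp (La D - 2 c m² D) ≤ Λ` if `La0 > 4 m² (1 + c)`. `Q ≥ 2` if `La0 ≥ 4`.
`pigeon` gives `G₀ : A → ℤ`, `h : B → ℝ`; `G = toPol G₀`, `g = toPol (G₀ - Φ h)` (over `ℝ`), `h = toPol h`: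
`map G = map f * toPol h + g` (`mul_toPol`, `mulMat_map`, `toPol` is additive and compatible with `map`).
`1 / (Q - 1) ≤ exp (- La D / 4)` as `Q - 1 ≥ exp (La D / 2) - 2 ≥ exp (La D / 4)` for `La ≥ La0`;
`card B * Q + 1 ≤ exp (La D)`. If `f ∣ G`, `G = f * q` : `degreeOf o q = degreeOf o G - degreeOf o f ≤ N' o` if `q ≠ 0` (domain), so
`q = toPol (coefficients)` (`eq_toPol`) and `G₀ = Φ (coefficients of q)` by `mul_toPol`, `coeff_toPol`: contradiction to `pigeon`
(if `q = 0`: `G₀ = 0 = Φ 0`). (So the Gauss lemma is not needed here.) -/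
theorem alpha0 (O : Type) [Fintype O] [DecidableEq O] : ∃ La0 : ℝ, 0 < La0 ∧
    ∀ (f : MvPolynomial O ℤ) (D : ℕ), 1 ≤ D → (∀ o, f.degreeOf o ≤ D) →
      (∃ o, 0 < f.degreeOf o) → ∀ La : ℝ, La0 ≤ La → La * D ≤ Real.log (LSharp.L1 f) →
      ∃ (G : MvPolynomial O ℤ) (h g : MvPolynomial O ℝ), ¬ f ∣ G ∧
        (∀ o, G.degreeOf o ≤ 2 * Fintype.card O * D) ∧
        (∀ i, |((G.coeff i : ℤ) : ℝ)| ≤ Real.exp (La * D)) ∧
        map (Int.castRingHom ℝ) G = map (Int.castRingHom ℝ) f * h + g ∧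
        (∀ o, g.degreeOf o ≤ 2 * Fintype.card O * D) ∧
        ∀ i, |g.coeff i| ≤ Real.exp (-(La * D) / 4) := by
  classical
  obtain ⟨c, hc, hlow⟩ := mulMat_lower O
  set m := Fintype.card O with hm
  have hm0 : (0 : ℝ) ≤ m := Nat.cast_nonneg m
  have hmc : (0 : ℝ) ≤ 4 * (m : ℝ) ^ 2 * (1 + c) := by positivity
  refine ⟨4 * (m : ℝ) ^ 2 * (1 + c) + 8, by linarith, ?_⟩
  intro f D hD hdeg ⟨o₀, ho₀⟩ La hLa hlog
  have hm1 : 1 ≤ m := Fintype.card_pos_iff.2 ⟨o₀⟩
  have hD' : (1 : ℝ) ≤ D := by exact_mod_cast hD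
  have hLa8 : (8 : ℝ) ≤ La := by linarith
  have hLaD : (8 : ℝ) ≤ La * D := by nlinarith
  -- the boxes
  set N : O → ℕ := fun _ => 2 * m * D with hN
  set N' : O → ℕ := fun o => N o - f.degreeOf o with hN'
  have hDN : D ≤ 2 * m * D := by nlinarith
  have hNN : ∀ o, f.degreeOf o + N' o ≤ N o := fun o => by
    have h1 : f.degreeOf o ≤ N o := (hdeg o).trans hDN
    rw [hN']
    dsimp only
    omega
  set Φ := mulMat f N N' with hΦ
  set Λ : ℝ := LSharp.L1 f * Real.exp (-(c * ∑ o, (N o : ℝ))) with hΛ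
  have hb := hlow f N N' hNN
  -- `L1 f`
  have hL1 : Real.exp (La * D) ≤ LSharp.L1 f := by
    have h1 : 0 < Real.log (LSharp.L1 f) := by linarith
    have h2 : 0 ≤ LSharp.L1 f := Finset.sum_nonneg fun _ _ => abs_nonneg _
    have h3 : 0 < LSharp.L1 f := by
      rcases h2.lt_or_eq with h | h
      · exact h
      · rw [← h, Real.log_zero] at h1
        exact absurd h1 (lt_irrefl _)
    rw [← Real.exp_log h3]
    exact Real.exp_le_exp.2 hlog
  have hsumN : ∑ o, (N o : ℝ) = 2 * (m : ℝ) ^ 2 * D := by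
    rw [hN]
    simp only [Finset.sum_const, Finset.card_univ, ← hm, nsmul_eq_mul]
    push_cast
    ring
  have hΛlow : Real.exp (La * D - 2 * c * (m : ℝ) ^ 2 * D) ≤ Λ := by
    rw [hΛ, hsumN, sub_eq_add_neg, Real.exp_add]
    have h1 : -(c * (2 * (m : ℝ) ^ 2 * D)) = -(2 * c * (m : ℝ) ^ 2 * D) := by ring
    rw [h1]
    exact mul_le_mul_of_nonneg_right hL1 (Real.exp_pos _).le
  -- the cardinalities
  have hcardA : Fintype.card (∀ o, Fin (N o + 1)) = (2 * m * D + 1) ^ m := by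
    rw [Fintype.card_pi]
    simp only [Fintype.card_fin, hN, Finset.prod_const, Finset.card_univ, ← hm]
  have hcardB : Fintype.card (∀ o, Fin (N' o + 1)) = ∏ o, (N' o + 1) := by
    rw [Fintype.card_pi]
    simp only [Fintype.card_fin]
  have hB1 : (Fintype.card (∀ o, Fin (N' o + 1)) : ℝ) ≤ Real.exp (2 * (m : ℝ) ^ 2 * D) := by
    rw [hcardB]
    push_cast
    have h1 : ∀ o, ((N' o : ℝ) + 1) ≤ Real.exp (2 * m * D) := by
      intro o
      have h2 : (N' o : ℝ) ≤ 2 * m * D := by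
        have : N' o ≤ 2 * m * D := Nat.sub_le _ _
        exact_mod_cast this
      linarith [Real.add_one_le_exp (2 * (m : ℝ) * D)]
    calc ∏ o, ((N' o : ℝ) + 1) ≤ ∏ _o : O, Real.exp (2 * m * D) :=
          Finset.prod_le_prod (fun o _ => by positivity) fun o _ => h1 o
      _ = Real.exp (2 * (m : ℝ) ^ 2 * D) := by
          rw [Finset.prod_const, Finset.card_univ, ← hm, ← Real.exp_nat_mul]
          congr 1
          ring
  have hB2 : Fintype.card (∀ o, Fin (N o + 1)) ≤ 2 * Fintype.card (∀ o, Fin (N' o + 1)) := by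
    rw [hcardA, hcardB]
    have h1 : ((2 * m * D + 1 : ℕ) : ℝ) ^ m ≤ 2 * ((2 * m * D + 1 - D : ℕ) : ℝ) ^ m := by
      have hpos : (0 : ℝ) < ((2 * m * D + 1 : ℕ) : ℝ) := by positivity
      have hcast : ((2 * m * D + 1 - D : ℕ) : ℝ) = ((2 * m * D + 1 : ℕ) : ℝ) - D := by
        rw [Nat.cast_sub (by omega)]
      have h2 : ((2 * m * D + 1 - D : ℕ) : ℝ) =
          (1 + -((D : ℝ) / ((2 * m * D + 1 : ℕ) : ℝ))) * ((2 * m * D + 1 : ℕ) : ℝ) := by
        rw [hcast]
        field_simp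
        ring
      have h3 : (D : ℝ) / ((2 * m * D + 1 : ℕ) : ℝ) ≤ 1 := by
        rw [div_le_one hpos]
        have : D ≤ 2 * m * D + 1 := by omega
        exact_mod_cast this
      have h4 := one_add_mul_le_pow (a := -((D : ℝ) / ((2 * m * D + 1 : ℕ) : ℝ))) (by linarith) m
      have h5 : (1 : ℝ) / 2 ≤ 1 + (m : ℝ) * -((D : ℝ) / ((2 * m * D + 1 : ℕ) : ℝ)) := by
        have h6 : (m : ℝ) * ((D : ℝ) / ((2 * m * D + 1 : ℕ) : ℝ)) ≤ 1 / 2 := by
          rw [← mul_div_assoc, div_le_iff₀ hpos]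
          push_cast
          linarith
        linarith
      rw [h2, mul_pow]
      have h7 : (0 : ℝ) ≤ ((2 * m * D + 1 : ℕ) : ℝ) ^ m := by positivity
      nlinarith
    have h2 : (2 * m * D + 1) ^ m ≤ 2 * (2 * m * D + 1 - D) ^ m := by exact_mod_cast h1
    refine h2.trans (Nat.mul_le_mul_left 2 ?_)
    calc (2 * m * D + 1 - D) ^ m = ∏ _o : O, (2 * m * D + 1 - D) := by
          rw [Finset.prod_const, Finset.card_univ]
      _ ≤ ∏ o, (N' o + 1) := Finset.prod_le_prod' fun o _ => by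
          have h3 := hdeg o
          have h4 : N' o = 2 * m * D - f.degreeOf o := rfl
          rw [h4]
          omega
  -- the number `Q`
  set Q := ⌊Real.exp (La * D / 2)⌋₊ with hQ
  have hexp5 : (5 : ℝ) ≤ Real.exp (La * D / 2) := by
    linarith [Real.add_one_le_exp (La * D / 2)]
  have hQ2 : 2 ≤ Q := Nat.le_floor (by push_cast; linarith)
  have hQle : (Q : ℝ) ≤ Real.exp (La * D / 2) := Nat.floor_le (Real.exp_pos _).le
  have hQlt : Real.exp (La * D / 2) < Q + 1 := Nat.lt_floor_add_one _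
  have hBQ : (Fintype.card (∀ o, Fin (N' o + 1)) : ℝ) * Q ≤
      Real.exp (2 * (m : ℝ) ^ 2 * D + La * D / 2) := by
    rw [Real.exp_add]
    exact mul_le_mul hB1 hQle (Nat.cast_nonneg _) (Real.exp_pos _).le
  have hkey : 4 * (m : ℝ) ^ 2 * (1 + c) * D + 8 * D ≤ La * D := by
    have := mul_le_mul_of_nonneg_right hLa (by linarith : (0 : ℝ) ≤ D)
    linarith
  have hmcD : 0 ≤ c * (m : ℝ) ^ 2 * D := by positivity
  have hQΛ : (Fintype.card (∀ o, Fin (N' o + 1)) : ℝ) * Q < Λ := by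
    refine (hBQ.trans_lt (Real.exp_lt_exp.2 ?_)).trans_le hΛlow
    nlinarith
  obtain ⟨G₀, h, hG1, hG2, hG3⟩ := pigeon Φ Λ hb Q hQ2 hQΛ hB2
  refine ⟨toPol G₀, toPol h, toPol (fun a => (G₀ a : ℝ) -
    (Φ.map (Int.cast : ℤ → ℝ)).mulVec h a), ?_, ?_, ?_, ?_, ?_, ?_⟩
  · -- divisibility
    rintro ⟨q, hq⟩
    have hf0 : f ≠ 0 := by
      rintro rfl
      rw [degreeOf_zero] at ho₀
      exact lt_irrefl _ ho₀
    have hqd : ∀ o, q.degreeOf o ≤ N' o := by
      intro o
      by_cases hq0 : q = 0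
      · rw [hq0, degreeOf_zero]
        exact Nat.zero_le _
      · have h1 := degreeOf_mul_eq (n := o) hf0 hq0
        rw [← hq] at h1
        have h2 := degreeOf_toPol (N := N) G₀ o
        rw [hN']
        dsimp only
        omega
    have hq1 := eq_toPol (N := N') q hqd
    apply hG3 fun x => q.coeff (bex x)
    funext x
    have h1 := mul_toPol f hNN fun x => q.coeff (bex x)
    rw [← hq1, ← hq] at h1
    have h2 := congrArg (fun F => MvPolynomial.coeff (bex x) F) h1
    simp only [coeff_toPol] at h2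
    exact h2
  · intro o
    exact degreeOf_toPol G₀ o
  · intro i
    refine alpha_coeff G₀ (fun z => |((z : ℤ) : ℝ)| ≤ Real.exp (La * D)) ?_ (fun a => ?_) i
    · rw [Int.cast_zero, abs_zero]
      exact (Real.exp_pos _).le
    · refine (hG2 a).trans ?_
      have h1 : Real.exp (2 * (m : ℝ) ^ 2 * D + La * D / 2) + 1 ≤ Real.exp (La * D) := by
        have h2 : 2 * (m : ℝ) ^ 2 * D + La * D / 2 + 1 ≤ La * D := by nlinarith
        have h3 := Real.exp_le_exp.2 h2
        rw [Real.exp_add] at h3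
        have h4 : (2 : ℝ) ≤ Real.exp 1 := by linarith [Real.add_one_le_exp (1 : ℝ)]
        have h5 : (1 : ℝ) ≤ Real.exp (2 * (m : ℝ) ^ 2 * D + La * D / 2) := by
          rw [← Real.exp_zero]
          exact Real.exp_le_exp.2 (by positivity)
        nlinarith
      linarith
  · rw [alpha_toPol_map]
    have h1 : map (Int.castRingHom ℝ) f * toPol h =
        toPol ((mulMat (map (Int.castRingHom ℝ) f) N N').mulVec h) :=
      mul_toPol _ (fun o => by
        have := alpha_degreeOf_map (Int.castRingHom ℝ) f o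
        have := hNN o
        omega) h
    rw [h1, ← mulMat_map, ← alpha_toPol_add]
    congr 1
    funext a
    change ((G₀ a : ℤ) : ℝ) = _
    rw [hΦ]
    ring
  · intro o
    exact degreeOf_toPol _ o
  · intro i
    refine alpha_coeff _ (fun z : ℝ => |z| ≤ Real.exp (-(La * D) / 4)) ?_ (fun a => ?_) i
    · rw [abs_zero]
      exact (Real.exp_pos _).le
    · refine (hG1 a).trans ?_
      have hy : (3 : ℝ) ≤ Real.exp (La * D / 4) := by
        linarith [Real.add_one_le_exp (La * D / 4)]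
      have h1 : Real.exp (La * D / 2) = Real.exp (La * D / 4) * Real.exp (La * D / 4) := by
        rw [← Real.exp_add]
        congr 1
        ring
      have h2 : Real.exp (La * D / 4) ≤ (Q : ℝ) - 1 := by nlinarith
      have h3 : -(La * D) / 4 = -(La * D / 4) := by ring
      rw [h3, Real.exp_neg, one_div]
      exact inv_anti₀ (Real.exp_pos _) h2

end Pool.Agent.Zilber
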