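import Pool.Agent.Zilber.AlMin
import Pool.Agent.Zilber.AlGel
import Pool.Agent.Zilber.AlPig

set_option autoImplicit false

/-! Core D, ALPHA: pigeonhole modulo an integral polynomial of large norm. -/

namespace Pool.Agent.Zilber

open MvPolynomial Pool.Agent.LSharp

/-- The `ℓ¹`-norm of a real polynomial. -/
noncomputable def L1R {O : Type} (g : MvPolynomial O ℝ) : ℝ := ∑ e ∈ g.support, |g.coeff e|

/-! ### Norms as sums over larger sets -/

private theorem L1R_eq_sum {O : Type} (g : MvPolynomial O ℝ) (s : Finset (O →₀ ℕ))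
    (hs : g.support ⊆ s) : L1R g = ∑ e ∈ s, |g.coeff e| := by
  refine Finset.sum_subset hs fun i _ hi => ?_
  rw [notMem_support_iff.mp hi, abs_zero]

private theorem L1_eq_sum' {O : Type} (g : MvPolynomial O ℤ) (s : Finset (O →₀ ℕ))
    (hs : g.support ⊆ s) : L1 g = ∑ e ∈ s, |((g.coeff e : ℤ) : ℝ)| := by
  refine Finset.sum_subset hs fun i _ hi => ?_
  rw [notMem_support_iff.mp hi, Int.cast_zero, abs_zero]

private theorem L1R_nonneg {O : Type} (g : MvPolynomial O ℝ) : 0 ≤ L1R g :=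
  Finset.sum_nonneg fun _ _ => abs_nonneg _

private theorem coeff_le_L1R {O : Type} (g : MvPolynomial O ℝ) (d : O →₀ ℕ) :
    |g.coeff d| ≤ L1R g := by
  by_cases h : d ∈ g.support
  · exact Finset.single_le_sum (f := fun e => |g.coeff e|) (fun _ _ => abs_nonneg _) h
  · rw [notMem_support_iff.mp h, abs_zero]
    exact L1R_nonneg g

private theorem L1R_map {O : Type} (f : MvPolynomial O ℤ) :
    L1R (map (Int.castRingHom ℝ) f) = L1 f := by
  rw [L1R_eq_sum _ f.support (support_map_subset _ _), L1_eq_sum' f f.support subset_rfl]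
  refine Finset.sum_congr rfl fun e _ => ?_
  rw [coeff_map]
  rfl

/-! ### Gelfond's inequality for real polynomials -/

private theorem L1C_rename {O : Type} [Fintype O] (p : MvPolynomial O ℝ) :
    L1C (rename (Fintype.equivFin O) (map Complex.ofRealHom p)) = L1R p := by
  classical
  have hinj : Function.Injective (Fintype.equivFin O) := (Fintype.equivFin O).injective
  have hmap : Function.Injective (Complex.ofRealHom : ℝ →+* ℂ) := Complex.ofReal_injective
  unfold L1C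
  rw [support_rename_of_injective hinj, Finset.sum_image
    (fun a _ b _ h => Finsupp.mapDomain_injective hinj h), support_map_of_injective _ hmap]
  refine Finset.sum_congr rfl fun e _ => ?_
  rw [coeff_rename_mapDomain _ hinj, coeff_map, Complex.ofRealHom_eq_coe, Complex.norm_real,
    Real.norm_eq_abs]

private theorem deg_rename {O : Type} [Fintype O] (p : MvPolynomial O ℝ) (N : ℕ)
    (h : ∀ o, p.degreeOf o ≤ N) (k : Fin (Fintype.card O)) :
    (rename (Fintype.equivFin O) (map Complex.ofRealHom p)).degreeOf k ≤ N := by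
  have hinj : Function.Injective (Fintype.equivFin O) := (Fintype.equivFin O).injective
  obtain ⟨o, rfl⟩ := (Fintype.equivFin O).surjective k
  rw [degreeOf_rename_of_injective hinj, degreeOf_le_iff]
  intro m hm
  exact (degreeOf_le_iff.1 (h o)) m (support_map_subset _ _ hm)

private theorem gelR (O : Type) [Fintype O] : ∃ C : ℝ, 0 ≤ C ∧ ∀ (p q : MvPolynomial O ℝ) (N : ℕ),
    (∀ o, p.degreeOf o ≤ N) → (∀ o, q.degreeOf o ≤ N) →
    L1R p * L1R q ≤ Real.exp (C * (2 * (Fintype.card O * N))) * L1R (p * q) := by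
  obtain ⟨C, hC, hg⟩ := gel (Fintype.card O)
  refine ⟨C, hC, fun p q N hp hq => ?_⟩
  have h1 := hg (rename (Fintype.equivFin O) (map Complex.ofRealHom p))
    (rename (Fintype.equivFin O) (map Complex.ofRealHom q))
  rw [← map_mul, ← map_mul, L1C_rename, L1C_rename, L1C_rename] at h1
  refine h1.trans (mul_le_mul_of_nonneg_right ?_ (L1R_nonneg _))
  refine Real.exp_le_exp.2 (mul_le_mul_of_nonneg_left ?_ hC)
  have h2 : ∀ k : Fin (Fintype.card O),
      (((rename (Fintype.equivFin O) (map Complex.ofRealHom p)).degreeOf k : ℝ) +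
        (rename (Fintype.equivFin O) (map Complex.ofRealHom q)).degreeOf k) ≤ 2 * N := by
    intro k
    have a1 : (((rename (Fintype.equivFin O) (map Complex.ofRealHom p)).degreeOf k : ℕ) : ℝ) ≤ N :=
      Nat.cast_le.2 (deg_rename p N hp k)
    have a2 : (((rename (Fintype.equivFin O) (map Complex.ofRealHom q)).degreeOf k : ℕ) : ℝ) ≤ N :=
      Nat.cast_le.2 (deg_rename q N hq k)
    linarith
  refine (Finset.sum_le_sum fun k _ => h2 k).trans (le_of_eq ?_)
  rw [Finset.sum_const, Finset.card_univ, Fintype.card_fin, nsmul_eq_mul]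
  ring

/-! ### Polynomials with bounded degrees -/

section Box

variable {O : Type} [Fintype O]

private noncomputable def emb (N : ℕ) (e : O → Fin (N + 1)) : O →₀ ℕ :=
  Finsupp.equivFunOnFinite.symm fun o => (e o : ℕ)

private theorem emb_apply (N : ℕ) (e : O → Fin (N + 1)) (o : O) : emb N e o = (e o : ℕ) := rfl

private theorem emb_inj (N : ℕ) : Function.Injective (emb (O := O) N) := by
  intro a b h
  funext o
  have h1 := DFunLike.congr_fun h o
  rw [emb_apply, emb_apply] at h1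
  exact Fin.ext h1

private theorem exists_emb {N : ℕ} (d : O →₀ ℕ) (h : ∀ o, d o ≤ N) : ∃ e, emb N e = d := by
  refine ⟨fun o => ⟨d o, Nat.lt_succ_of_le (h o)⟩, ?_⟩
  ext o
  rfl

variable [DecidableEq O] {R : Type} [CommRing R]

private noncomputable def Pv (N : ℕ) (v : (O → Fin (N + 1)) → R) : MvPolynomial O R :=
  ∑ e, monomial (emb N e) (v e)

private theorem coeff_Pv (N : ℕ) (v : (O → Fin (N + 1)) → R) (e : O → Fin (N + 1)) :
    coeff (emb N e) (Pv N v) = v e := by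
  classical
  unfold Pv
  rw [coeff_sum, Finset.sum_eq_single e]
  · rw [coeff_monomial, if_pos rfl]
  · intro b _ hb
    rw [coeff_monomial, if_neg fun h => hb (emb_inj N h)]
  · intro h
    exact absurd (Finset.mem_univ e) h

private theorem exists_of_coeff_Pv (N : ℕ) (v : (O → Fin (N + 1)) → R) (d : O →₀ ℕ)
    (h : coeff d (Pv N v) ≠ 0) : ∃ e, emb N e = d := by
  classical
  by_contra hcon
  apply h
  unfold Pv
  rw [coeff_sum]
  refine Finset.sum_eq_zero fun e _ => ?_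
  rw [coeff_monomial, if_neg fun h' => hcon ⟨e, h'⟩]

private theorem degreeOf_Pv (N : ℕ) (v : (O → Fin (N + 1)) → R) (o : O) :
    (Pv N v).degreeOf o ≤ N := by
  rw [degreeOf_le_iff]
  intro d hd
  obtain ⟨e, rfl⟩ := exists_of_coeff_Pv N v d (mem_support_iff.1 hd)
  rw [emb_apply]
  exact Nat.lt_succ_iff.1 (e o).2

private theorem Pv_coeff (N : ℕ) (p : MvPolynomial O R) (h : ∀ o, p.degreeOf o ≤ N) :
    Pv N (fun e => coeff (emb N e) p) = p := by
  ext d
  by_cases hd : ∃ e, emb N e = d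
  · obtain ⟨e, rfl⟩ := hd
    rw [coeff_Pv]
  · have h1 : coeff d (Pv N fun e => coeff (emb N e) p) = 0 := by
      by_contra h2
      exact hd (exists_of_coeff_Pv N _ d h2)
    rw [h1]
    by_contra h2
    apply hd
    refine exists_emb d fun o => ?_
    exact (degreeOf_le_iff.1 (h o)) d (mem_support_iff.2 (Ne.symm h2))

private theorem support_Pv (N : ℕ) (v : (O → Fin (N + 1)) → R) :
    (Pv N v).support ⊆ Finset.univ.map ⟨emb N, emb_inj N⟩ := by
  intro d hd
  obtain ⟨e, rfl⟩ := exists_of_coeff_Pv N v d (mem_support_iff.1 hd)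
  exact Finset.mem_map.2 ⟨e, Finset.mem_univ _, rfl⟩

private theorem L1R_Pv (N : ℕ) (v : (O → Fin (N + 1)) → ℝ) : L1R (Pv N v) = ∑ e, |v e| := by
  rw [L1R_eq_sum _ _ (support_Pv N v), Finset.sum_map]
  refine Finset.sum_congr rfl fun e _ => ?_
  show |coeff (emb N e) (Pv N v)| = _
  rw [coeff_Pv]

private theorem L1_Pv (N : ℕ) (v : (O → Fin (N + 1)) → ℤ) :
    L1 (Pv N v) = ∑ e, |((v e : ℤ) : ℝ)| := by
  rw [L1_eq_sum' _ _ (support_Pv N v), Finset.sum_map]
  refine Finset.sum_congr rfl fun e _ => ?_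
  show |((coeff (emb N e) (Pv N v) : ℤ) : ℝ)| = _
  rw [coeff_Pv]

private theorem map_Pv (N : ℕ) (v : (O → Fin (N + 1)) → ℤ) :
    map (Int.castRingHom ℝ) (Pv N v) = Pv N (fun e => ((v e : ℤ) : ℝ)) := by
  unfold Pv
  rw [map_sum]
  refine Finset.sum_congr rfl fun e _ => ?_
  rw [map_monomial]
  rfl

private theorem Pv_add (N : ℕ) (v w : (O → Fin (N + 1)) → ℝ) :
    Pv N (fun e => v e + w e) = Pv N v + Pv N w := by
  unfold Pv
  rw [← Finset.sum_add_distrib]
  refine Finset.sum_congr rfl fun e _ => ?_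
  rw [map_add]

/-- The matrix of the multiplication by `F`. -/
private noncomputable def Tm (N N' : ℕ) (F : MvPolynomial O ℝ) :
    Matrix (O → Fin (N + 1)) (O → Fin (N' + 1)) ℝ :=
  fun e e' => coeff (emb N e) (F * monomial (emb N' e') 1)

private theorem Tm_mulVec (N N' : ℕ) (F : MvPolynomial O ℝ) (h : (O → Fin (N' + 1)) → ℝ)
    (e : O → Fin (N + 1)) : (Tm N N' F).mulVec h e = coeff (emb N e) (F * Pv N' h) := by
  unfold Pv
  rw [Finset.mul_sum, coeff_sum, Matrix.mulVec, dotProduct]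
  refine Finset.sum_congr rfl fun e' _ => ?_
  have h1 : monomial (emb N' e') (h e') = C (h e') * monomial (emb N' e') (1 : ℝ) := by
    rw [C_mul_monomial, mul_one]
  rw [h1, mul_left_comm, coeff_C_mul, Tm, mul_comm]

end Box

/-! ### Numbers -/

private theorem num_card (m D : ℕ) : (2 * m * D + 1) ^ m ≤ 2 * (2 * m * D - D + 1) ^ m := by
  rcases Nat.eq_zero_or_pos m with h0 | h0
  · subst h0
    simp
  · have h1 : D ≤ 2 * m * D := by nlinarith
    have h2 : ((2 * m * D - D + 1 : ℕ) : ℝ) = (2 * m * D + 1) - D := by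
      push_cast [Nat.cast_sub h1]
      ring
    have h3 : (0 : ℝ) < 2 * m * D + 1 := by positivity
    have h4 : (m : ℝ) * (D / (2 * m * D + 1)) ≤ 1 / 2 := by
      rw [← mul_div_assoc, div_le_div_iff₀ h3 (by norm_num)]
      nlinarith
    have hm1 : (1 : ℝ) ≤ m := by exact_mod_cast h0
    have h5 : (D : ℝ) / (2 * m * D + 1) ≤ 1 := by
      rw [div_le_one h3]
      have : (0 : ℝ) ≤ D := Nat.cast_nonneg _
      nlinarith
    have h6 : (1 : ℝ) + m * (-(D / (2 * m * D + 1))) ≤ (1 + -(D / (2 * m * D + 1) : ℝ)) ^ m :=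
      one_add_mul_le_pow (by linarith) m
    have h7 : (1 + -(D / (2 * m * D + 1) : ℝ)) ^ m * (2 * m * D + 1) ^ m =
        ((2 * m * D + 1) - D) ^ m := by
      rw [← mul_pow]
      congr 1
      field_simp
      ring
    have h8 : ((2 * m * D + 1 : ℝ)) ^ m ≤ 2 * ((2 * m * D + 1) - D) ^ m := by
      rw [← h7]
      have h9 : (0 : ℝ) < (2 * m * D + 1 : ℝ) ^ m := by positivity
      nlinarith
    have h10 : (((2 * m * D + 1) ^ m : ℕ) : ℝ) ≤ ((2 * (2 * m * D - D + 1) ^ m : ℕ) : ℝ) := by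
      rw [Nat.cast_mul, Nat.cast_pow (2 * m * D - D + 1), h2]
      push_cast
      exact h8
    exact_mod_cast h10

private theorem num_exp (m D : ℕ) :
    (((2 * m * D + 1) ^ m : ℕ) : ℝ) ≤ Real.exp (2 * (m : ℝ) ^ 2 * D) := by
  have h1 : ((2 * m * D : ℝ)) + 1 ≤ Real.exp (2 * m * D) := Real.add_one_le_exp _
  push_cast
  calc ((2 * m * D + 1 : ℝ)) ^ m ≤ (Real.exp (2 * m * D)) ^ m :=
        pow_le_pow_left₀ (by positivity) h1 m
    _ = Real.exp (2 * (m : ℝ) ^ 2 * D) := by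
      rw [← Real.exp_nat_mul]
      congr 1
      ring

/-- **Small modulo `f`.**

Proof. Let `m = card O`; for `m = 0` take `G = 1`, `h = 1 / f`, `g = 0` (`f` is an integer of absolute value `> 1` if
`Λ0 > 0`). Let `m ≥ 1`, `L = 2 m D`, `V` = exponents `e : O → Fin (L + 1)` (`A = (L + 1)^m` of them), `V'` = exponents
`O → Fin (L - D + 1)` (`A' = (L - D + 1)^m`); `A' ≥ A / 2` (Bernoulli: `(1 - D/(L+1))^m ≥ 1 - m D/(L+1) ≥ 1/2`).
`T : Matrix V V' ℝ`, the matrix of the multiplication by `f` from polynomials of degrees `≤ L - D` to polynomials of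
degrees `≤ L` (`T e e' = coeff (e - e') f`; `degreeOf_mul_le`), injective (`MvPolynomial O ℝ` is a domain, `f ≠ 0`
as `log (L1 f) ≥ Λ D > 0`). `al_minor` gives `I`. Gelfond (`gel`, after `rename` along an equivalence `O ≃ Fin m`
and `map` to `ℂ`): for `h` with degrees `≤ L - D`: `L1 f * L1R h ≤ exp (C 2 m L) L1R (f h) ≤ exp (C 2 m L) A ∑_(i) A |(T h) (I i)|`
(each of the `A` coefficients of `f h` is `≤ ∑_i |(T h) (I i)|`). So `hK` holds with `K = exp (2 C m L) A / L1 f` (the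
factor can be improved, not needed). `A ≤ exp (m L)`. With `L = 2 m D` all the factors `exp (C m L)`, `A`, `2`, `36` are
`≤ exp (C₁ D)` with a constant `C₁ = C₁(m)` (`D ≥ 1`). `K ≤ exp (-(Λ - C₁) D)`. Let `Q = ⌊exp ((Λ - C₂) D)⌋` with
`C₂ = C₁ + m L/D + ...` such that `K A' Q ≤ 1` and `A (A' Q + 1) ≤ exp (Λ D)`; `r = ⌊(Q - 1) / 17⌋ ≥ Q / 36` (for `Λ ≥ Λ0`, `Q`
is large). `al_pigeon` gives `G, h, g`; read them as polynomials (`∑ monomial`); `G` has degrees `≤ L = 2 m D`, `L1 G ≤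
A (A' Q + 1) ≤ exp (Λ D)`, `L1R g ≤ A / r ≤ 36 A / Q ≤ exp (-(Λ/2) D)` for `Λ ≥ Λ0`: `c = 1/2`.
`f ∤ G`: let `G = f h'` with `h'` integral. Then `f (h' - h) = g` over `ℝ` (degrees of `h' - h`: `degreeOf f + degreeOf
(h' - h) = degreeOf g ≤ L`, so all are `≤ L`; or apply Gelfond directly, its exponent contains the degrees of
`h' - h` which are `≤ L` because the degree in one variable is additive), Gelfond: `L1R (h' - h) ≤ exp (2 C m L) L1R g / L1 f
≤ 1/4 ` for `Λ ≥ Λ0` (if `g = 0` then `h' = h`). With `|coeff h| ≤ 1/8`: all `|coeff h'| < 1`, so `h' = 0`, `G = 0`: a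
contradiction. -/
theorem alpha (O : Type) [Fintype O] [DecidableEq O] : ∃ (Λ0 c : ℝ), 0 < c ∧
    ∀ (f : MvPolynomial O ℤ) (D : ℕ) (Λ : ℝ), 1 ≤ D → (∀ o, f.degreeOf o ≤ D) → Λ0 ≤ Λ →
      Λ * D ≤ Real.log (L1 f) →
      ∃ (G : MvPolynomial O ℤ) (h g : MvPolynomial O ℝ),
        (∀ o, G.degreeOf o ≤ 2 * Fintype.card O * D) ∧
        (∀ o, g.degreeOf o ≤ 2 * Fintype.card O * D) ∧ ¬ f ∣ G ∧
        map (Int.castRingHom ℝ) G = map (Int.castRingHom ℝ) f * h + g ∧
        L1 G ≤ Real.exp (Λ * D) ∧ L1R g ≤ Real.exp (-(c * Λ * D)) := by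
  classical
  obtain ⟨C, hC, hgel⟩ := gelR O
  obtain ⟨m, hm⟩ : ∃ m : ℕ, m = Fintype.card O := ⟨_, rfl⟩
  rw [← hm] at hgel ⊢
  obtain ⟨C1, hC1⟩ : ∃ C1 : ℝ, C1 = 4 * C * (m : ℝ) ^ 2 + 2 * (m : ℝ) ^ 2 + 1 := ⟨_, rfl⟩
  have hC1p : 0 ≤ C1 := by
    rw [hC1]
    positivity
  refine ⟨2 * (C1 + 4 * (m : ℝ) ^ 2 + 100), 1 / 2, by norm_num, ?_⟩
  intro f D Λ hD hfD hΛ hlog
  have hm2 : 0 ≤ (m : ℝ) ^ 2 := by positivity
  have hD1 : (1 : ℝ) ≤ D := by exact_mod_cast hD
  have hΛ0 : 0 < Λ := by linarith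
  -- the norm of f
  have hL1nn : 0 ≤ L1 f := Finset.sum_nonneg fun _ _ => abs_nonneg _
  have hL1pos : 0 < L1 f := by
    rcases hL1nn.eq_or_lt with h | h
    · rw [← h, Real.log_zero] at hlog
      have : 0 < Λ * D := by positivity
      linarith
    · exact h
  have hL1e : Real.exp (Λ * D) ≤ L1 f := by
    rwa [← Real.le_log_iff_exp_le hL1pos]
  obtain ⟨F, hF⟩ : ∃ F : MvPolynomial O ℝ, F = map (Int.castRingHom ℝ) f := ⟨_, rfl⟩
  have hLF : L1R F = L1 f := by rw [hF, L1R_map]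
  have hF0 : F ≠ 0 := by
    rintro rfl
    rw [← hLF] at hL1pos
    have : L1R (0 : MvPolynomial O ℝ) = 0 := by simp [L1R]
    linarith
  have hFD : ∀ o, F.degreeOf o ≤ D := by
    intro o
    rw [hF, degreeOf_le_iff]
    intro d hd
    exact (degreeOf_le_iff.1 (hfD o)) d (support_map_subset _ _ hd)
  obtain ⟨L, hL⟩ : ∃ L : ℕ, L = 2 * m * D := ⟨_, rfl⟩
  have hDL : ∀ _ : O, D ≤ L := by
    intro o
    have : 0 < m := by
      rw [hm]
      exact Fintype.card_pos_iff.2 ⟨o⟩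
    rw [hL]
    nlinarith
  have hFL : ∀ o, F.degreeOf o ≤ L := fun o => (hFD o).trans (hDL o)
  -- Gelfond in the form needed
  have hE : Real.exp (C * (2 * (m * L))) = Real.exp (4 * C * (m : ℝ) ^ 2 * D) := by
    rw [hL]
    congr 1
    push_cast
    ring
  have hgel' : ∀ q : MvPolynomial O ℝ, (∀ o, q.degreeOf o ≤ L) →
      L1R q ≤ Real.exp ((4 * C * (m : ℝ) ^ 2 - Λ) * D) * L1R (F * q) := by
    intro q hq
    have h1 := hgel F q L hFL hq
    rw [hE, hLF] at h1
    have h2 : Real.exp (Λ * D) * L1R q ≤ Real.exp (4 * C * (m : ℝ) ^ 2 * D) * L1R (F * q) :=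
      (mul_le_mul_of_nonneg_right hL1e (L1R_nonneg q)).trans h1
    have h3 : L1R q = Real.exp (-(Λ * D)) * (Real.exp (Λ * D) * L1R q) := by
      rw [← mul_assoc, ← Real.exp_add, neg_add_cancel, Real.exp_zero, one_mul]
    rw [h3]
    refine (mul_le_mul_of_nonneg_left h2 (Real.exp_pos _).le).trans (le_of_eq ?_)
    rw [← mul_assoc, ← Real.exp_add]
    congr 2
    ring
  -- the matrix
  obtain ⟨T, hT⟩ : ∃ T : Matrix (O → Fin (L + 1)) (O → Fin (L - D + 1)) ℝ,
      T = Tm L (L - D) F := ⟨_, rfl⟩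
  have hTv : ∀ (h : (O → Fin (L - D + 1)) → ℝ) e,
      T.mulVec h e = coeff (emb L e) (F * Pv (L - D) h) := by
    intro h e
    rw [hT, Tm_mulVec]
  have hdegFP : ∀ (h : (O → Fin (L - D + 1)) → ℝ) (o : O),
      (F * Pv (L - D) h).degreeOf o ≤ L := by
    intro h o
    have h1 := degreeOf_mul_le o F (Pv (L - D) h)
    have h2 := degreeOf_Pv (L - D) h o
    have h3 := hFD o
    have h4 := hDL o
    omega
  have hPvT : ∀ h : (O → Fin (L - D + 1)) → ℝ, Pv L (T.mulVec h) = F * Pv (L - D) h := by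
    intro h
    have h1 := Pv_coeff L (F * Pv (L - D) h) (hdegFP h)
    refine Eq.trans ?_ h1
    congr 1
    funext e
    exact hTv h e
  have hTinj : Function.Injective T.mulVec := by
    intro a b hab
    have h1 : F * Pv (L - D) a = F * Pv (L - D) b := by
      rw [← hPvT, ← hPvT, hab]
    have h2 := mul_left_cancel₀ hF0 h1
    funext e
    rw [← coeff_Pv (L - D) a e, ← coeff_Pv (L - D) b e, h2]
  obtain ⟨I, hI, hmin⟩ := al_minor T hTinj
  -- the numbers
  obtain ⟨A, hA⟩ : ∃ A : ℕ, A = Fintype.card (O → Fin (L + 1)) := ⟨_, rfl⟩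
  have hA1 : A = (2 * m * D + 1) ^ m := by
    rw [hA, Fintype.card_fun, Fintype.card_fin, ← hm, hL]
  have hAe : (A : ℝ) ≤ Real.exp (2 * (m : ℝ) ^ 2 * D) := by
    rw [hA1]
    exact num_exp m D
  obtain ⟨A', hA'⟩ : ∃ A' : ℕ, A' = Fintype.card (O → Fin (L - D + 1)) := ⟨_, rfl⟩
  have hA'1 : A' = (2 * m * D - D + 1) ^ m := by
    rw [hA', Fintype.card_fun, Fintype.card_fin, ← hm, hL]
  have hAA : A ≤ 2 * A' := by
    rw [hA1, hA'1]
    exact num_card m D
  have hA'A : A' ≤ A := by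
    rw [hA1, hA'1]
    exact Nat.pow_le_pow_left (by omega) m
  have hA'e : (A' : ℝ) ≤ Real.exp (2 * (m : ℝ) ^ 2 * D) :=
    (Nat.cast_le.2 hA'A).trans hAe
  obtain ⟨K, hKd⟩ : ∃ K : ℝ, K = Real.exp ((C1 - Λ) * D) := ⟨_, rfl⟩
  have hK : ∀ (h : (O → Fin (L - D + 1)) → ℝ) (i : O → Fin (L - D + 1)),
      |h i| ≤ K * ∑ i', |T.mulVec h (I i')| := by
    intro h i
    have h1 : |h i| ≤ L1R (Pv (L - D) h) := by
      rw [← coeff_Pv (L - D) h i]
      exact coeff_le_L1R _ _
    have h2 := hgel' (Pv (L - D) h) (fun o => (degreeOf_Pv (L - D) h o).trans (Nat.sub_le _ _))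
    rw [← hPvT, L1R_Pv L] at h2
    have hS : 0 ≤ ∑ i', |T.mulVec h (I i')| := Finset.sum_nonneg fun _ _ => abs_nonneg _
    have h3 : ∑ e, |T.mulVec h e| ≤ A * ∑ i', |T.mulVec h (I i')| := by
      refine (Finset.sum_le_sum fun e _ => hmin h e).trans (le_of_eq ?_)
      rw [Finset.sum_const, Finset.card_univ, ← hA, nsmul_eq_mul]
    calc |h i| ≤ Real.exp ((4 * C * (m : ℝ) ^ 2 - Λ) * D) * ∑ e, |T.mulVec h e| := h1.trans h2
      _ ≤ Real.exp ((4 * C * (m : ℝ) ^ 2 - Λ) * D) *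
          (Real.exp (2 * (m : ℝ) ^ 2 * D) * ∑ i', |T.mulVec h (I i')|) := by
        refine mul_le_mul_of_nonneg_left (h3.trans ?_) (Real.exp_pos _).le
        exact mul_le_mul_of_nonneg_right hAe hS
      _ = Real.exp ((4 * C * (m : ℝ) ^ 2 + 2 * (m : ℝ) ^ 2 - Λ) * D) *
          ∑ i', |T.mulVec h (I i')| := by
        rw [← mul_assoc, ← Real.exp_add]
        congr 2
        ring
      _ ≤ K * ∑ i', |T.mulVec h (I i')| := by
        refine mul_le_mul_of_nonneg_right ?_ hS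
        rw [hKd]
        refine Real.exp_le_exp.2 (mul_le_mul_of_nonneg_right ?_ (by linarith))
        rw [hC1]
        linarith
  obtain ⟨X, hX⟩ : ∃ X : ℝ, X = Real.exp ((Λ - (C1 + 2 * (m : ℝ) ^ 2)) * D) := ⟨_, rfl⟩
  have hXpos : 0 < X := by
    rw [hX]
    exact Real.exp_pos _
  have hX101 : 101 ≤ X := by
    rw [hX]
    have h1 := Real.add_one_le_exp ((Λ - (C1 + 2 * (m : ℝ) ^ 2)) * D)
    have h2 : 100 ≤ Λ - (C1 + 2 * (m : ℝ) ^ 2) := by linarith
    nlinarith
  obtain ⟨Q, hQd⟩ : ∃ Q : ℕ, Q = ⌊X⌋₊ := ⟨_, rfl⟩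
  have hQX : (Q : ℝ) ≤ X := by
    rw [hQd]
    exact Nat.floor_le hXpos.le
  have hXQ : X ≤ Q + 1 := by
    rw [hQd]
    exact (Nat.lt_floor_add_one X).le
  have hQ100 : 100 ≤ Q := by
    rw [hQd]
    exact Nat.le_floor (by push_cast; linarith)
  obtain ⟨r, hr⟩ : ∃ r : ℕ, r = (Q - 1) / 17 := ⟨_, rfl⟩
  have hr1 : 1 ≤ r := by omega
  have hrQ : 17 * r < Q := by omega
  have hQr : Q ≤ 34 * r := by omega
  have hXr : X ≤ 68 * r := by
    have h1 : (Q : ℝ) ≤ 34 * r := by exact_mod_cast hQr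
    have h2 : (100 : ℝ) ≤ Q := by exact_mod_cast hQ100
    linarith
  have hKQ : K * (Fintype.card (O → Fin (L - D + 1)) * Q) ≤ 1 := by
    rw [← hA', hKd]
    calc Real.exp ((C1 - Λ) * D) * (A' * Q)
        ≤ Real.exp ((C1 - Λ) * D) * (Real.exp (2 * (m : ℝ) ^ 2 * D) * X) := by
          refine mul_le_mul_of_nonneg_left ?_ (Real.exp_pos _).le
          exact mul_le_mul hA'e hQX (Nat.cast_nonneg _) (Real.exp_pos _).le
      _ = 1 := by
        rw [hX, ← Real.exp_add, ← Real.exp_add]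
        have : (C1 - Λ) * D + (2 * (m : ℝ) ^ 2 * D + (Λ - (C1 + 2 * (m : ℝ) ^ 2)) * D) = 0 := by
          ring
        rw [this, Real.exp_zero]
  obtain ⟨G, h, g, hG0, hGe, hh, hg, hGb⟩ := al_pigeon T I hI hmin K hK
    (by rw [← hA, ← hA']; exact hAA) Q r hr1 hrQ hKQ
  -- the bound of g
  have hr0 : (0 : ℝ) < r := by exact_mod_cast hr1
  have hg1 : L1R (Pv L g) ≤ Real.exp (-(1 / 2 * Λ * D)) := by
    rw [L1R_Pv]
    have h1 : ∑ e, |g e| ≤ A * (1 / r) := by
      refine (Finset.sum_le_sum fun e _ => hg e).trans (le_of_eq ?_)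
      rw [Finset.sum_const, Finset.card_univ, ← hA, nsmul_eq_mul]
    have h2 : (1 : ℝ) / r ≤ 68 / X := by
      rw [div_le_div_iff₀ hr0 hXpos]
      linarith
    have h3 : (68 : ℝ) ≤ Real.exp (68 * D) := by
      have := Real.add_one_le_exp ((68 : ℝ) * D)
      linarith
    have h4 : (68 : ℝ) / X ≤ Real.exp (68 * D) *
        Real.exp (-((Λ - (C1 + 2 * (m : ℝ) ^ 2)) * D)) := by
      rw [Real.exp_neg, ← hX, ← div_eq_mul_inv]
      exact div_le_div_of_nonneg_right h3 hXpos.le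
    calc ∑ e, |g e| ≤ A * (1 / r) := h1
      _ ≤ Real.exp (2 * (m : ℝ) ^ 2 * D) * (Real.exp (68 * D) *
        Real.exp (-((Λ - (C1 + 2 * (m : ℝ) ^ 2)) * D))) :=
          mul_le_mul hAe (h2.trans h4) (by positivity) (Real.exp_pos _).le
      _ = Real.exp ((2 * (m : ℝ) ^ 2 + 68 - (Λ - (C1 + 2 * (m : ℝ) ^ 2))) * D) := by
        rw [← Real.exp_add, ← Real.exp_add]
        congr 1
        ring
      _ ≤ Real.exp (-(1 / 2 * Λ * D)) := by
        refine Real.exp_le_exp.2 ?_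
        have h5 : 2 * (m : ℝ) ^ 2 + 68 - (Λ - (C1 + 2 * (m : ℝ) ^ 2)) ≤ -(1 / 2 * Λ) := by
          linarith
        have h6 := mul_le_mul_of_nonneg_right h5 (by linarith : (0 : ℝ) ≤ D)
        linarith
  have hGmap : map (Int.castRingHom ℝ) (Pv L G) = F * Pv (L - D) h + Pv L g := by
    rw [map_Pv, ← hPvT, ← Pv_add]
    congr 1
    funext e
    exact hGe e
  refine ⟨Pv L G, Pv (L - D) h, Pv L g, ?_, ?_, ?_, ?_, ?_, hg1⟩
  · intro o
    rw [← hL]
    exact degreeOf_Pv L G o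
  · intro o
    rw [← hL]
    exact degreeOf_Pv L g o
  · -- divisibility
    rintro ⟨h', hh'⟩
    have hPG : Pv L G ≠ 0 := by
      intro h0
      apply hG0
      funext e
      rw [← coeff_Pv L G e, h0]
      exact coeff_zero _
    have hf0 : f ≠ 0 := by
      rintro rfl
      rw [zero_mul] at hh'
      exact hPG hh'
    have hh0 : h' ≠ 0 := by
      rintro rfl
      rw [mul_zero] at hh'
      exact hPG hh'
    have hmul : F * (map (Int.castRingHom ℝ) h' - Pv (L - D) h) = Pv L g := by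
      have h1 := hGmap
      rw [hh', map_mul, ← hF] at h1
      rw [mul_sub, h1]
      ring
    have hdeg : ∀ o, (map (Int.castRingHom ℝ) h' - Pv (L - D) h).degreeOf o ≤ L := by
      intro o
      by_cases h0 : map (Int.castRingHom ℝ) h' - Pv (L - D) h = 0
      · rw [h0, degreeOf_zero]
        exact Nat.zero_le _
      · have h1 := degreeOf_mul_eq (n := o) hF0 h0
        rw [hmul] at h1
        have h2 := degreeOf_Pv L g o
        omega
    have h1 := hgel' _ hdeg
    rw [hmul] at h1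
    have h2 : L1R (map (Int.castRingHom ℝ) h' - Pv (L - D) h) ≤ 1 / 2 := by
      refine h1.trans ?_
      have h3 : L1R (Pv L g) ≤ 1 := by
        refine hg1.trans (Real.exp_le_one_iff.2 ?_)
        have : 0 ≤ 1 / 2 * Λ * D := by positivity
        linarith
      have h4 : Real.exp ((4 * C * (m : ℝ) ^ 2 - Λ) * D) ≤ 1 / 2 := by
        have h5 : (4 * C * (m : ℝ) ^ 2 - Λ) * D ≤ -1 := by
          have h6 : 4 * C * (m : ℝ) ^ 2 ≤ C1 := by
            rw [hC1]
            linarith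
          have h7 : 4 * C * (m : ℝ) ^ 2 - Λ ≤ -1 := by linarith
          nlinarith
        refine (Real.exp_le_exp.2 h5).trans ?_
        rw [Real.exp_neg, one_div]
        refine inv_anti₀ (by norm_num) ?_
        have := Real.add_one_le_exp (1 : ℝ)
        linarith
      calc Real.exp ((4 * C * (m : ℝ) ^ 2 - Λ) * D) * L1R (Pv L g) ≤ 1 / 2 * 1 :=
            mul_le_mul h4 h3 (L1R_nonneg _) (by norm_num)
        _ = 1 / 2 := by norm_num
    apply hh0
    ext d
    rw [coeff_zero]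
    have h3 : |coeff d (Pv (L - D) h)| ≤ 1 / 8 := by
      by_cases hd : coeff d (Pv (L - D) h) = 0
      · rw [hd, abs_zero]
        norm_num
      · obtain ⟨e, rfl⟩ := exists_of_coeff_Pv (L - D) h d hd
        rw [coeff_Pv]
        exact hh e
    have h4 : |coeff d (map (Int.castRingHom ℝ) h' - Pv (L - D) h)| ≤ 1 / 2 :=
      (coeff_le_L1R _ _).trans h2
    rw [coeff_sub, coeff_map] at h4
    have h5 : |((coeff d h' : ℤ) : ℝ)| < 1 := by
      have h6 : ((coeff d h' : ℤ) : ℝ) = ((Int.castRingHom ℝ) (coeff d h') -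
          coeff d (Pv (L - D) h)) + coeff d (Pv (L - D) h) := by
        rw [sub_add_cancel]
        rfl
      rw [h6]
      refine (abs_add_le _ _).trans_lt ?_
      linarith
    have h7 : |coeff d h'| < 1 := by
      rw [← Int.cast_abs] at h5
      exact_mod_cast h5
    exact Int.abs_lt_one_iff.1 h7
  · rw [← hF]
    exact hGmap
  · -- the norm of G
    rw [L1_Pv]
    have h1 : ∑ e, |((G e : ℤ) : ℝ)| ≤ A * (A' * Q + 1) := by
      refine (Finset.sum_le_sum fun e _ => hGb e).trans (le_of_eq ?_)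
      rw [Finset.sum_const, Finset.card_univ, ← hA, ← hA', nsmul_eq_mul]
    have h2 : (A' : ℝ) * Q ≤ Real.exp ((Λ - C1) * D) := by
      calc (A' : ℝ) * Q ≤ Real.exp (2 * (m : ℝ) ^ 2 * D) * X :=
            mul_le_mul hA'e hQX (Nat.cast_nonneg _) (Real.exp_pos _).le
        _ = Real.exp ((Λ - C1) * D) := by
          rw [hX, ← Real.exp_add]
          congr 1
          ring
    have h3 : 1 ≤ Real.exp ((Λ - C1) * D) := by
      refine Real.one_le_exp ?_
      have : 0 ≤ Λ - C1 := by linarith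
      positivity
    have h4 : (2 : ℝ) ≤ Real.exp D := by
      have := Real.add_one_le_exp (D : ℝ)
      linarith
    calc ∑ e, |((G e : ℤ) : ℝ)| ≤ A * (A' * Q + 1) := h1
      _ ≤ Real.exp (2 * (m : ℝ) ^ 2 * D) * (Real.exp D * Real.exp ((Λ - C1) * D)) := by
        refine mul_le_mul hAe ?_ (by positivity) (Real.exp_pos _).le
        have h5 : (2 : ℝ) * Real.exp ((Λ - C1) * D) ≤ Real.exp D * Real.exp ((Λ - C1) * D) :=
          mul_le_mul_of_nonneg_right h4 (Real.exp_pos _).le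
        linarith
      _ = Real.exp ((2 * (m : ℝ) ^ 2 + 1 + (Λ - C1)) * D) := by
        rw [← Real.exp_add, ← Real.exp_add]
        congr 1
        ring
      _ ≤ Real.exp (Λ * D) := by
        refine Real.exp_le_exp.2 (mul_le_mul_of_nonneg_right ?_ (by linarith))
        rw [hC1]
        have : 0 ≤ 4 * C * (m : ℝ) ^ 2 := by positivity
        linarith

end Pool.Agent.Zilber
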