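import Pool.Agent.Zilber.CHId
import Pool.Agent.Zilber.CHLi
import Pool.Agent.Zilber.CHWd
import Pool.Agent.Zilber.CHEmb
import Pool.Agent.Zilber.CHNc
import Pool.Agent.Zilber.CHAlg
import Pool.Agent.Zilber.CHGa

set_option autoImplicit false

/-! Core D, G0: a fixed chart of block `0`, and the valuation of case D. -/

namespace Pool.Agent.Zilber

open Filter NumberField Module Pool.Agent.LAll Pool.Agent.LSharp Pool.Agent.CITLines

variable {J : Type} {𝒰 : Ultrafilter J} {K : J → Type} [∀ j, Field (K j)] [∀ j, NumberField (K j)]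
  {k : ℕ} {s : Fin (k + 1) → J → ℝ} {ι β : Type} [Fintype ι]
  [Fintype β] [DecidableEq β] {cl : ι → Fin (k + 1)} {x : ι → Ult 𝒰 K} {bs : β → ι}
  {X : ι → Ult 𝒰 (PS β K)}

/-- The coefficients after a map; the variables which occur. -/
private theorem chart_only {K β : Type} [Field K] {A : Set β} (σ : K →+* ℂ)
    {f : MvPowerSeries β K} (hf : f ∈ onlyB A) : MvPowerSeries.map σ f ∈ onlyB A := by
  intro i hi b hb
  refine hf i (fun h => hi ?_) b hb
  rw [MvPowerSeries.coeff_map, h, map_zero]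

/-- The sum over block `0`. -/
private theorem chart_sum {ι M : Type} [Fintype ι] [AddCommMonoid M] (P : ι → Prop)
    [DecidablePred P] (F G : ι → M) (h1 : ∀ i, P i → F i = G i) (h2 : ∀ i, ¬ P i → F i = 0) :
    ∑ i, F i = ∑ i : {i // P i}, G i := by
  have e1 : ∑ i, F i = ∑ i ∈ Finset.univ.filter P, G i := by
    rw [Finset.sum_filter]
    refine Finset.sum_congr rfl fun i _ => ?_
    by_cases h : P i
    · rw [if_pos h, h1 i h]
    · rw [if_neg h, h2 i h]
  rw [e1]
  exact Finset.sum_subtype _ (fun i => by simp) _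

/-- **The chart.** `I` from `const_ideal`. For most `j`: `LX` (`conf_LX`), `idl σ X cl j = I`, and `hD.wd`. Choose such a `j₀`.
`u i = ser σ X j₀ i` for `i` in block `0`; growth, nonzero constant coefficients, `u i ∈ onlyB {b | cl (bs b) = 0}` from `LX`
(`h3`, `g`, `h4`). `exists_evl` with `p b = (cl (bs b) = 0)` gives `r, S`. `h i y = ev0 p y (u i)`,
`c b = constantCoeff (u (bs b))`. `diff`, `cd` from `Evl.cd`; `coord`: `u (bs b) = C c_b + X b` (`h1`), the value of such a
series at any `y` (finite sums; `evf_add` with `cv_C`, `cv_X` for any radius). `fderiv` in `li`, `wd` is `ev0 (pderiv ..)` by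
`Evl.fd`. `li`: `sum_zero` and `li_level` (`ser_alg`) give a constant monomial, `no_const`: contradiction. `wd`: `hD.wd` at
`j₀`: the matrix `om (σ j₀) .. (zpart cl (R (inl (some b)))) b'` has entries
`∑_(i : ι) C (zpart ..) * (pderiv * inverse)`, the sum over `i` in block `0` only; `det_value` for
`G b i = R (inl (some b)) i`. `rel`: `gen_rel` (`ser_alg`) gives `aeval u P = 0`, then evaluate at `y'` (`ev0_aeval`). `alg`: `gen_alg` (`ser_alg`). `emb`:
for most `j` (`LX`, `idl = I`, `hD.emb`): `emb_level` with `p i = h i y`: `hp`: a relation over `ℂ` at the level `j` is in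
`I = idl j₀`, so it holds for `u`, so at `y` (`ev0_aeval`); `hco` is `hgen` (`coord`). -/
theorem chart (hc : Conf 𝒰 K s (FD 𝒰 K s) cl x bs) (hX : Br 𝒰 K (FD 𝒰 K s) cl x bs X)
    (σ : ∀ j, K j →+* ℂ)
    (hnc : ∀ a : ι → ℤ, a ≠ 0 → (∀ i, a i ≠ 0 → cl i = 0) → Transcendental ℚ (mon x a))
    {g : β → ι} {q : ι → β → ℚ} {R : Ob cl bs → ι → ℝ} (hD : DLin 𝒰 K s cl x bs X σ g q R) :
    ∃ (r : ℝ) (h : {i // cl i = 0} → (B0 cl bs → ℂ) → ℂ) (c : B0 cl bs → ℂ),
      Cht X σ cl bs g q R r h c := by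
  classical
  obtain ⟨I, hI⟩ := const_ideal hc hX σ
  have hF : ∀ l, FD 𝒰 K s l ≤ Lf 𝒰 K (s l) := by
    intro l y hy
    obtain ⟨z, hz1, hz2⟩ := hy
    exact ⟨_, hz1, hz2⟩
  obtain ⟨D, hLX⟩ := conf_LX hc hX hF
  obtain ⟨j₀, hL₀, hI₀, hW₀⟩ := (hLX.and (hI.and hD.wd)).exists
  obtain ⟨u, hu⟩ : ∃ u : {i // cl i = 0} → MvPowerSeries β ℂ,
      u = fun i : {i // cl i = 0} => ser σ X j₀ (i : ι) := ⟨_, rfl⟩
  have hui : ∀ i, u i = MvPowerSeries.map (σ j₀) ((X i).rep j₀) := fun i => by rw [hu]; rfl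
  have hg : ∀ i, ∃ C : ℝ, ∀ n, ‖MvPowerSeries.coeff n (u i)‖ ≤ C ^ (n.degree + 1) := by
    intro i
    obtain ⟨C, hC⟩ := hL₀.h3 (σ j₀)
    refine ⟨C, fun n => ?_⟩
    rw [hui, MvPowerSeries.coeff_map]
    exact hC i n
  have h0 : ∀ i, MvPowerSeries.constantCoeff (u i) ≠ 0 := by
    intro i h
    rw [hui, MvPowerSeries.constantCoeff_map] at h
    exact hL₀.g i ((map_eq_zero _).1 h)
  have hon : ∀ i, u i ∈ onlyB {b | cl (bs b) = 0} := by
    intro i
    rw [hui]
    have h := hL₀.h4 i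
    rw [i.2] at h
    exact chart_only _ h
  obtain ⟨r, S, hS, huS, huN⟩ := exists_evl (fun b => cl (bs b) = 0) u hg h0
  obtain ⟨c, hcd⟩ : ∃ c : B0 cl bs → ℂ,
      c = fun b : B0 cl bs => σ j₀ (MvPowerSeries.constantCoeff ((X (bs b)).rep j₀)) := ⟨_, rfl⟩
  have hub : ∀ b : B0 cl bs, u ⟨bs b, b.2⟩ = MvPowerSeries.C (c b) + MvPowerSeries.X (b : β) := by
    intro b
    have h := congrArg (MvPowerSeries.map (σ j₀)) (hL₀.h1 b)
    rw [map_add, MvPowerSeries.map_C, MvPowerSeries.map_X] at h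
    rw [hui, hcd]
    exact h
  have hz0 : ∀ y ∈ Metric.ball (0 : B0 cl bs → ℂ) r,
      ev0 (fun b => cl (bs b) = 0) y (0 : MvPowerSeries β ℂ) = 0 := by
    intro y hy
    have h := hS.evC y hy 0
    rwa [map_zero] at h
  have hev : ∀ P : MvPolynomial {i // cl i = 0} ℂ, MvPolynomial.aeval u P = 0 →
      ∀ y ∈ Metric.ball (0 : B0 cl bs → ℂ) r,
        MvPolynomial.eval (fun i => ev0 (fun b => cl (bs b) = 0) y (u i)) P = 0 := by
    intro P hP y hy
    have h := (ev0_aeval hS u huS P y hy).2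
    rw [hP, hz0 y hy] at h
    exact h.symm
  have hcoord : ∀ (b : B0 cl bs) (y : B0 cl bs → ℂ),
      ev0 (fun b => cl (bs b) = 0) y (u ⟨bs b, b.2⟩) = c b + y b := by
    intro b y
    rw [hub, ev0, evf_add (ρ := ‖ex0 (fun b => cl (bs b) = 0) y‖) _ (cv_C _ _ _) (cv_X _ _ _)
      (fun b' => norm_le_pi_norm _ b'), evf_C, evf_X, RingHom.id_apply, ex0, dif_pos b.2]
  have halg : ∀ i, ∃ Q : Polynomial (MvPolynomial (B0 cl bs) ℂ), Q ≠ 0 ∧
      (∀ n e, IsAlgebraic ℚ ((Q.coeff n).coeff e)) ∧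
      Q.eval₂ (MvPolynomial.aeval (fun b : B0 cl bs => (MvPowerSeries.C (c b) +
        MvPowerSeries.X (b : β) : MvPowerSeries β ℂ)) :
          MvPolynomial (B0 cl bs) ℂ →ₐ[ℂ] MvPowerSeries β ℂ).toRingHom (u i) = 0 := by
    intro i
    rw [hui, hcd]
    exact ser_alg hL₀ (σ j₀) i
  refine ⟨r, fun i y => ev0 (fun b => cl (bs b) = 0) y (u i), c, ?_⟩
  constructor
  · exact hS.pos
  · exact fun i => (hS.cd _ (huS i)).differentiableOn (by norm_num)
  · exact fun i => hS.cd _ (huS i)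
  · exact huN
  · exact hcoord
  · intro γ hγ
    by_contra hne
    have hne' : (fun i => (γ i : ℂ)) ≠ 0 := by
      intro h
      refine hne (funext fun i => ?_)
      have h1 := congrFun h i
      simpa using h1
    obtain ⟨a, ha, κ, hκ⟩ := li_level (fun b => cl (bs b) = 0) u h0 c hon
      (fun i => by
        obtain ⟨Q, h1, -, h2⟩ := halg i
        exact ⟨Q, h1, h2⟩) (fun i => (γ i : ℂ)) hne' (fun b =>
        sum_zero hS u huS h0 hon huN (fun i => (γ i : ℂ)) b fun y hy => by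
          rw [← hγ y hy b]
          refine Finset.sum_congr rfl fun i _ => ?_
          rw [hS.fd _ (huS i) y hy b])
    refine no_const hc hX σ hnc I hI j₀ hI₀ (fun i h => ?_) a ha κ ?_
    · refine h0 i ?_
      rw [hu]
      change MvPowerSeries.constantCoeff (ser σ X j₀ i) = 0
      rw [h, map_zero]
    · rw [hu] at hκ
      exact hκ
  · have hM : (Matrix.of fun (b b' : B0 cl bs) => ∑ i : {i // cl i = 0},
        MvPowerSeries.C (R (Sum.inl (some b)) i : ℂ) *
          (MvPowerSeries.pderiv ℂ (b' : β) (u i) * (u i)⁻¹)).det ≠ 0 := by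
      have h : (Matrix.of fun (b b' : B0 cl bs) => om (σ j₀) (fun i => (X i).rep j₀)
          (zpart cl (R (Sum.inl (some b)))) (b' : β)).det ≠ 0 := hW₀
      have he : (Matrix.of fun (b b' : B0 cl bs) => om (σ j₀) (fun i => (X i).rep j₀)
          (zpart cl (R (Sum.inl (some b)))) (b' : β)) =
          Matrix.of fun (b b' : B0 cl bs) => ∑ i : {i // cl i = 0},
            MvPowerSeries.C (R (Sum.inl (some b)) i : ℂ) *
              (MvPowerSeries.pderiv ℂ (b' : β) (u i) * (u i)⁻¹) := by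
        refine Matrix.ext fun b b' => ?_
        rw [Matrix.of_apply, Matrix.of_apply]
        unfold om
        rw [chart_sum (fun i => cl i = 0) _ (fun i => MvPowerSeries.C
          (R (Sum.inl (some b)) i : ℂ) * ld (b' : β) (MvPowerSeries.map (σ j₀) ((X i).rep j₀)))
          (fun i hi => by rw [zpart, if_pos hi])
          (fun i hi => by rw [zpart, if_neg hi, Complex.ofReal_zero, map_zero, zero_mul])]
        refine Finset.sum_congr rfl fun i _ => ?_
        rw [hui]
        rfl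
      rwa [he] at h
    obtain ⟨y, hy, hne⟩ := det_value hS u huS h0 hon huN
      (fun b i => (R (Sum.inl (some b)) i : ℂ)) hM
    refine ⟨y, hy, ?_⟩
    convert hne using 3
    funext b b'
    refine Finset.sum_congr rfl fun i _ => ?_
    rw [hS.fd _ (huS i) y hy b']
  · intro y hy hgen P hP hPy y' hy'
    exact hev P (gen_rel hS u huS c halg P hP y hy hgen hPy) y' hy'
  · intro y hy hgen i
    obtain ⟨Q, h1, h2, h3⟩ := halg i
    exact gen_alg hS (u i) (huS i) c Q h1 h2 h3 y hy hgen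
  · filter_upwards [hLX, hI, hD.emb] with j hLj hIj hEj y hy hgen
    refine emb_level hLj (σ j) hD.cg hD.cq hEj _ (fun G hG => ?_) ?_
    · refine hev G ?_ y hy
      have h1 : G ∈ idl σ X cl j := (mem_idl σ X cl j G).2 hG
      rw [hIj, ← hI₀, mem_idl] at h1
      rw [hu]
      exact h1
    · have h1 : (fun b : B0 cl bs => ev0 (fun b => cl (bs b) = 0) y (u ⟨bs b, b.2⟩)) =
          fun b => c b + y b := funext fun b => hcoord b y
      rw [h1]
      exact hgen

end Pool.Agent.Zilber
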