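import Mathlib

set_option autoImplicit false

/-! CN1. Relative degrees and linearly independent families. -/

namespace Pool.Agent.Zilber

/-- If every finite family of elements of `K2` which is linearly independent over `K1` has at most `N` elements
then `relfinrank K1 K2 ≤ N`.

Proof. `Subfield.relfinrank_eq_finrank_of_le`. If the extension is infinite the `finrank` is `0`; otherwise take a
basis indexed by `Fin (finrank)` and its image in `E` (`LinearIndependent` over `K1` in `E` of elements of `K2`: the inclusion
of `K2 = extendScalars` in `E` is `K1`-linear and injective, `LinearIndependent.map'`). -/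
theorem relfinrank_le_of_card {E : Type} [Field E] (K1 K2 : Subfield E) (h : K1 ≤ K2) (N : ℕ)
    (hN : ∀ (n : ℕ) (g : Fin n → E), (∀ i, g i ∈ K2) → LinearIndependent K1 g → n ≤ N) :
    K1.relfinrank K2 ≤ N := by
  rw [Subfield.relfinrank_eq_finrank_of_le h]
  by_cases hfin : Module.Finite K1 (Subfield.extendScalars h)
  · let b := Module.finBasis K1 (Subfield.extendScalars h)
    refine hN _ (fun i => ((b i : Subfield.extendScalars h) : E)) (fun i => (b i).2) ?_
    have h1 := b.linearIndependent.map' (Subfield.extendScalars h).val.toLinearMap
      (LinearMap.ker_eq_bot.mpr (Subfield.extendScalars h).val.injective)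
    exact h1
  · rw [Module.finrank_of_not_finite hfin]
    exact Nat.zero_le _

/-- In characteristic zero the field generated by a set is the field generated over `ℚ`.

Proof. Every subfield contains the image of `ℚ` (`Subfield` of a `CharZero` field: `Rat.cast` is in it: `SubfieldClass.ratCast_mem`), so
`Subfield.closure S ≥ ` the image of `ℚ`, and `IntermediateField.adjoin ℚ S` is the smallest subfield containing `ℚ` and `S`
(`IntermediateField.adjoin` is defined by `Subfield.closure (range algebraMap ∪ S)`). -/
theorem adjoin_rat_toSubfield {E : Type} [Field E] [CharZero E] (S : Set E) :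
    (IntermediateField.adjoin ℚ S).toSubfield = Subfield.closure S := by
  rw [IntermediateField.adjoin_toSubfield]
  refine le_antisymm (Subfield.closure_le.mpr ?_) (Subfield.closure_mono Set.subset_union_right)
  rintro x (⟨q, rfl⟩ | hx)
  · rw [eq_ratCast]
    exact SubfieldClass.ratCast_mem _ q
  · exact Subfield.subset_closure hx

end Pool.Agent.Zilber
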