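import Pool.Agent.Zilber.DIrr
import Pool.Agent.Zilber.CDeg

set_option autoImplicit false

/-! CN2. The degree of the irreducible relation in one variable is a relative degree. -/

namespace Pool.Agent.Zilber

open Pool.Agent.CITLines MvPolynomial

/-- **The degree of the irreducible relation.**

Proof. `irr_rel` gives `f'` irreducible dividing all relations, so `f' ∣ f`, and `f` is irreducible: `f` and `f'` are associated, `f` divides all
relations. If the `z o'`, `o' ≠ o`, were algebraically dependent over `ℚ`, there would be a nonzero integral relation `G` not involving `T_o` (clear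
denominators; `rename`), `f ∣ G`, but `degreeOf o f > 0 = degreeOf o G`: contradiction (degrees add in a domain). Let `A = MvPolynomial {o' // o' ≠ o} ℤ`, embedded in `E` by
`aeval z`, with image in `K1 = Subfield.closure (z '' {o' ≠ o})`, its fraction field. As in the proof of `irr_rel`, `f` as a polynomial in `T_o` over `A` is
primitive and irreducible over `Frac A ≅ K1` (Gauss), of degree `degreeOf o f` (`degreeOf` and `natDegree` of `optionEquivLeft`), so it is the minimal polynomial
of `z o` over `K1` up to a factor, and `[K1(z o) : K1] = degreeOf o f`, `K1(z o) = Subfield.closure (range z)`. -/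
theorem relfinrank_omit {O E : Type} [Fintype O] [DecidableEq O] [Field E] [CharZero E]
    (z : O → E) (h : rk ℚ (Set.range z) + 1 = Fintype.card O) (f : MvPolynomial O ℤ)
    (hf : Irreducible f) (h0 : aeval z f = 0) (o : O) (ho : 0 < f.degreeOf o) :
    AlgebraicIndependent ℚ (fun o' : {o' // o' ≠ o} => z o') ∧
    (Subfield.closure (Set.range fun o' : {o' // o' ≠ o} => z o')).relfinrank
      (Subfield.closure (Set.range z)) = f.degreeOf o := by
  obtain ⟨h1, h2⟩ := c_deg z h f hf h0 o ho.ne' _ le_rfl
  refine ⟨h1, ?_⟩
  rw [h2, Subfield.relfinrank_self, one_mul]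

end Pool.Agent.Zilber
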