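import Pool.Agent.Zilber.BDefs
import Pool.Agent.CITLines.Basic

set_option autoImplicit false

/-! CN3. The transcendence degree of the branch at one level. -/

namespace Pool.Agent.Zilber

open NumberField Pool.Agent.LAll Pool.Agent.LSharp Pool.Agent.CITLines

private theorem dcnc_evT_X {β F : Type} [Field F] (t : β → F) (b : β) :
    evT t (MvPolynomial.X b) = MvPowerSeries.C (t b) + MvPowerSeries.X b := by
  unfold evT
  exact MvPolynomial.aeval_X _ _

private theorem dcnc_aeval {β K E : Type} [Field K] [Field E] (φ : MvPowerSeries β K →+* E)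
    (t : β → K) (P : MvPolynomial β ℤ) :
    φ (evT t P) = MvPolynomial.aeval (fun b => φ (evT t (MvPolynomial.X b))) P := by
  have h : φ.comp (evT t) = (MvPolynomial.aeval
      (fun b => φ (evT t (MvPolynomial.X b))) : MvPolynomial β ℤ →ₐ[ℤ] E).toRingHom := by
    refine MvPolynomial.ringHom_ext (fun r => ?_) fun b => ?_
    · have h1 : (MvPolynomial.C r : MvPolynomial β ℤ) = (r : MvPolynomial β ℤ) := by simp
      rw [h1, map_intCast, map_intCast]
    · exact (MvPolynomial.aeval_X (R := ℤ)
        (fun b => φ (evT t (MvPolynomial.X b))) b).symm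
  exact RingHom.congr_fun h P

private theorem dcnc_indep {β K E : Type} [Fintype β] [Field K] [CharZero K] [Field E] [Algebra ℚ E]
    (φ : MvPowerSeries β K →+* E) (hφ : Function.Injective φ) (t : β → K) :
    AlgebraicIndependent ℚ (fun b => φ (evT t (MvPolynomial.X b))) := by
  classical
  have h1 : AlgebraicIndependent ℤ (fun b => φ (evT t (MvPolynomial.X b))) := by
    rw [algebraicIndependent_iff]
    intro P hP
    rw [← dcnc_aeval] at hP
    by_contra hne
    exact evT_ne_zero t P hne (hφ (hP.trans (map_zero φ).symm))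
  have h2 : Algebra.IsAlgebraic ℤ ℚ := IsLocalization.isAlgebraic ℚ (nonZeroDivisors ℤ)
  exact h1.extendScalars ℚ

private theorem dcnc_mem {β K E : Type} [Field K] [Field E] [Algebra ℚ E]
    (φ : MvPowerSeries β K →+* E) (t : β → K) (P : MvPolynomial β ℤ) :
    φ (evT t P) ∈ Algebra.adjoin ℚ (Set.range fun b => φ (evT t (MvPolynomial.X b))) := by
  induction P using MvPolynomial.induction_on with
  | C a =>
    have h1 : (MvPolynomial.C a : MvPolynomial β ℤ) = (a : MvPolynomial β ℤ) := by simp
    rw [h1, map_intCast, map_intCast]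
    exact intCast_mem _ a
  | add p q hp hq =>
    rw [map_add, map_add]
    exact add_mem hp hq
  | mul_X p b hp =>
    rw [map_mul, map_mul]
    exact mul_mem hp (Algebra.subset_adjoin ⟨b, rfl⟩)

/-- The coefficients in the subalgebra. -/
private noncomputable def dcncHom {β K E : Type} [Field K] [Field E] [Algebra ℚ E]
    (φ : MvPowerSeries β K →+* E) (t : β → K) : MvPolynomial β ℤ →+*
      Algebra.adjoin ℚ (Set.range fun b => φ (evT t (MvPolynomial.X b))) :=
  (φ.comp (evT t)).codRestrict (Algebra.adjoin ℚ (Set.range fun b =>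
    φ (evT t (MvPolynomial.X b)))) (dcnc_mem φ t)

private theorem dcncHom_coe {β K E : Type} [Field K] [Field E] [Algebra ℚ E]
    (φ : MvPowerSeries β K →+* E) (t : β → K) (P : MvPolynomial β ℤ) :
    ((dcncHom φ t P : Algebra.adjoin ℚ (Set.range fun b => φ (evT t (MvPolynomial.X b)))) : E) =
      φ (evT t P) := rfl

private theorem dcnc_eval₂ {β K E : Type} [Field K] [Field E] [Algebra ℚ E]
    (φ : MvPowerSeries β K →+* E) (t : β → K) (P : Polynomial (MvPolynomial β ℤ))
    (x : MvPowerSeries β K) :
    φ (P.eval₂ (evT t) x) = Polynomial.aeval (φ x) (P.map (dcncHom φ t)) := by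
  rw [Polynomial.hom_eval₂, Polynomial.aeval_def, Polynomial.eval₂_map]
  rfl

private theorem dcnc_alg {β K E : Type} [Fintype β] [Field K] [CharZero K] [Field E] [Algebra ℚ E]
    (φ : MvPowerSeries β K →+* E) (hφ : Function.Injective φ) (t : β → K)
    (P : Polynomial (MvPolynomial β ℤ)) (hP : 0 < P.natDegree) (x : MvPowerSeries β K)
    (hx : P.eval₂ (evT t) x = 0) :
    IsAlgebraic (Algebra.adjoin ℚ (Set.range fun b => φ (evT t (MvPolynomial.X b)))) (φ x) := by
  classical
  refine ⟨P.map (dcncHom φ t), ?_, ?_⟩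
  · intro h
    have h1 := congrArg (fun q => q.coeff P.natDegree) h
    simp only [Polynomial.coeff_map, Polynomial.coeff_zero, Polynomial.coeff_natDegree] at h1
    have h2 : φ (evT t P.leadingCoeff) = 0 := by
      rw [← dcncHom_coe, h1]
      rfl
    have h3 : P.leadingCoeff ≠ 0 := by
      rw [Polynomial.leadingCoeff_ne_zero]
      rintro rfl
      simp at hP
    exact evT_ne_zero t _ h3 (hφ (h2.trans (map_zero φ).symm))
  · rw [← dcnc_eval₂, hx, map_zero]

/-- **The transcendence degree of the branch.**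

Proof. Let `T b = φ (F (bs b)) = φ (evT t (X b))` (`F_bs`). The `T b` are algebraically independent
over `ℚ`: a polynomial relation over `ℚ`, cleared of denominators,
is `P : MvPolynomial β ℤ` with `φ (evT t P) = 0`, so `evT t P = 0`, so `P = 0` (`evT_ne_zero`, `φ`
injective; `K` has characteristic zero). Every `F s` is
algebraic over `ℚ(T)`: `Θ a` is a zero of `Pi a` (`Pi_eq`), whose leading coefficient is a nonzero
polynomial in the `T b`, so its value is nonzero and `φ (Θ a)` is algebraic
over `Algebra.adjoin ℚ (range T)`; `N_eq`: `evT (Δ) F s = N_s (T, Θ)` with `evT (Δ) ≠ 0` is a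
quotient of algebraic elements. So `rk (range F) = rk (range T) = card β`:
`≥` by `rk_mono`-like lemmas (`range T ⊆ range F`) and independence (the rank of an independent set
is its cardinality), `≤` by
`rk_le_of_algebraic` (CITLines/Basic). -/
theorem rk_BrL {M β A : Type} [Fintype β] [Fintype A] (ca : A → M) (bs : β → A) (D : ℕ)
    (K : Type) [Field K] [NumberField K] (br : BrL ca bs D K) (E : Type) [Field E] [Algebra ℚ E]
    (φ : MvPowerSeries β K →+* E) (hφ : Function.Injective φ) :
    rk ℚ (Set.range fun s => φ (br.F s)) = Fintype.card β := by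
  classical
  set t : β → K := fun b => MvPowerSeries.constantCoeff (br.F (bs b)) with ht
  have hT := rk_range_of_indep _ (dcnc_indep φ hφ t)
  refine le_antisymm ?_ ?_
  · rw [← hT]
    refine rk_le_of_algebraic ?_
    rintro _ ⟨s, rfl⟩
    have h1 := dcnc_alg φ hφ t (br.Pi (ca s)) (br.Pi_deg (ca s)).1 (br.Θ (ca s))
      (br.Pi_eq (ca s))
    have h2 := congrArg φ (br.N_eq s)
    rw [map_mul, ← ht, dcnc_eval₂] at h2
    have h3 : IsAlgebraic (Algebra.adjoin ℚ (Set.range fun b => φ (evT t (MvPolynomial.X b))))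
        (Polynomial.aeval (φ (br.Θ (ca s))) ((br.N s).map (dcncHom φ t))) := by
      rw [← Subalgebra.mem_algebraicClosure] at h1 ⊢
      exact (Algebra.adjoin_le (Set.singleton_subset_iff.2 h1))
        (Polynomial.aeval_mem_adjoin_singleton _ _)
    have h4 : φ (evT t (br.Δ (ca s))) ≠ 0 := by
      intro h
      exact evT_ne_zero t _ (br.Δ_prop (ca s)).1 (hφ (h.trans (map_zero φ).symm))
    have h5 : φ (br.F s) = (φ (evT t (br.Δ (ca s))))⁻¹ *
        Polynomial.aeval (φ (br.Θ (ca s))) ((br.N s).map (dcncHom φ t)) := by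
      rw [← h2, inv_mul_cancel_left₀ h4]
    have h6 : IsAlgebraic (Algebra.adjoin ℚ (Set.range fun b => φ (evT t (MvPolynomial.X b))))
        (φ (evT t (br.Δ (ca s)))) :=
      isAlgebraic_algebraMap (⟨_, dcnc_mem φ t (br.Δ (ca s))⟩ :
        Algebra.adjoin ℚ (Set.range fun b => φ (evT t (MvPolynomial.X b))))
    show IsAlgebraic _ (φ (br.F s))
    rw [h5]
    exact h6.inv.mul h3
  · rw [← hT]
    refine rk_mono ?_
    rintro _ ⟨b, rfl⟩
    refine ⟨bs b, ?_⟩
    show φ (br.F (bs b)) = φ (evT t (MvPolynomial.X b))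
    rw [dcnc_evT_X, br.F_bs b]

end Pool.Agent.Zilber
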