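import Pool.Agent.Zilber.DDefs
import Pool.Agent.Zilber.BTauD

set_option autoImplicit false

/-! DE6. Monomials with integral exponents in the fraction field, as monomials with natural exponents in the
coordinates and their inverses. -/

namespace Pool.Agent.Zilber

open Filter NumberField Module Pool.Agent.LAll Pool.Agent.LSharp Pool.Agent.CITLines

/-- The natural exponents of the coordinates (`true`) and of their inverses (`false`). -/
def nex {ι : Type} (a : ι → ℤ) (s : ι × Bool) : ℕ := if s.2 then (a s.1).toNat else (-(a s.1)).toNat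

theorem nex_sub {ι : Type} (a : ι → ℤ) (i : ι) : (nex a (i, true) : ℤ) - nex a (i, false) = a i := by
  simp only [nex, if_true, Bool.false_eq_true, if_false]
  exact Int.toNat_sub_toNat_neg (a i)

/-- `nex` is at most the absolute value. -/
theorem nex_le {ι : Type} (a : ι → ℤ) (s : ι × Bool) : (nex a s : ℝ) ≤ |(a s.1 : ℝ)| := by
  have h : ∀ x : ℤ, ((x.toNat : ℕ) : ℝ) ≤ |(x : ℝ)| := by
    intro x
    have h1 : ((x.toNat : ℕ) : ℝ) = ((max x 0 : ℤ) : ℝ) := by
      rw [← Int.toNat_eq_max, Int.cast_natCast]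
    rw [h1, Int.cast_max, Int.cast_zero]
    exact max_le (le_abs_self _) (abs_nonneg _)
  unfold nex
  split_ifs
  · exact h _
  · refine (h _).trans ?_
    rw [Int.cast_neg, abs_neg]

/-- **The monomials.** `f i * f' i = 1`. -/
theorem mon_eq {ι β F : Type} [Fintype ι] [Field F] (f f' : ι → MvPowerSeries β F)
    (hff : ∀ i, f i * f' i = 1) (a : ι → ℤ) :
    mon (fr f) a = algebraMap (MvPowerSeries β F) (FractionRing (MvPowerSeries β F))
      (∏ s : ι × Bool, (if s.2 then f s.1 else f' s.1) ^ nex a s) := by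
  rw [Fintype.prod_prod_type, map_prod]
  unfold mon
  refine Finset.prod_congr rfl fun i _ => ?_
  have h1 : fr f i * algebraMap (MvPowerSeries β F) (FractionRing (MvPowerSeries β F)) (f' i) = 1 := by
    unfold fr
    rw [← map_mul, hff, map_one]
  have h0 : fr f i ≠ 0 := left_ne_zero_of_mul_eq_one h1
  have h2 : algebraMap (MvPowerSeries β F) (FractionRing (MvPowerSeries β F)) (f' i) =
      (fr f i)⁻¹ := eq_inv_of_mul_eq_one_right h1
  rw [Fintype.prod_bool, map_mul, map_pow, map_pow]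
  simp only [if_true, Bool.false_eq_true, if_false]
  rw [h2]
  change _ = (fr f i) ^ nex a (i, true) * _
  rw [← nex_sub a i, zpow_sub₀ h0, zpow_natCast, zpow_natCast, inv_pow, div_eq_mul_inv]

/-- The value of an integral polynomial at the monomials: a power series. -/
theorem aeval_mon_eq {ι β F O : Type} [Fintype ι] [Field F] (f f' : ι → MvPowerSeries β F)
    (hff : ∀ i, f i * f' i = 1) (a : O → ι → ℤ) (G : MvPolynomial O ℤ) :
    MvPolynomial.aeval (fun o => mon (fr f) (a o)) G =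
      algebraMap (MvPowerSeries β F) (FractionRing (MvPowerSeries β F))
        (MvPolynomial.eval₂ (Int.castRingHom _)
          (fun o => ∏ s : ι × Bool, (if s.2 then f s.1 else f' s.1) ^ nex (a o) s) G) := by
  rw [MvPolynomial.eval₂_comp_left, MvPolynomial.aeval_def]
  congr 1
  · exact Subsingleton.elim _ _
  · funext o
    exact mon_eq f f' hff (a o)

variable {J : Type} {𝒰 : Ultrafilter J} {K : J → Type} [∀ j, Field (K j)] [∀ j, NumberField (K j)]
  {k : ℕ} {ι β : Type} [Fintype ι] [Fintype β]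

/-- **The inverses on the branch**: for most `j` the series of `x i` and of `(x i)⁻¹` are inverse to each
other, and the constant coefficient of the series of `x i` is `(x i).rep j`. (`τ` is a ring homomorphism,
`Ult.mk_eq_mk`; `eps0 (τ z) = z`, `Ult.map_rep`.) -/
theorem inv_branch {F : Fin (k + 1) → Subfield (Ult 𝒰 K)} {cl : ι → Fin (k + 1)}
    {x : ι → Ult 𝒰 K} {bs : β → ι} (hx : ∀ i, x i ≠ 0) (L : Fin (k + 1) → Subfield (Ult 𝒰 K))
    (τ : ∀ l, L l →+* Ult 𝒰 (PS β K)) (hT : Taus F cl x bs L τ) :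
    ∀ᶠ j in (𝒰 : Filter J), ∀ i, (τ (cl i) ⟨x i, hT.mem i⟩).rep j *
      (τ (cl i) ⟨(x i)⁻¹, inv_mem (hT.mem i)⟩).rep j = 1 ∧
      MvPowerSeries.constantCoeff ((τ (cl i) ⟨x i, hT.mem i⟩).rep j) = (x i).rep j := by
  rw [Filter.eventually_all]
  intro i
  have h1 : τ (cl i) ⟨x i, hT.mem i⟩ * τ (cl i) ⟨(x i)⁻¹, inv_mem (hT.mem i)⟩ = 1 := by
    rw [← map_mul, ← map_one (τ (cl i))]
    congr 1
    exact Subtype.ext (mul_inv_cancel₀ (hx i))
  have h2 : ∀ᶠ j in (𝒰 : Filter J), (τ (cl i) ⟨x i, hT.mem i⟩).rep j *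
      (τ (cl i) ⟨(x i)⁻¹, inv_mem (hT.mem i)⟩).rep j = 1 := by
    have h3 : Ult.mk 𝒰 (PS β K) (fun j => (τ (cl i) ⟨x i, hT.mem i⟩).rep j *
        (τ (cl i) ⟨(x i)⁻¹, inv_mem (hT.mem i)⟩).rep j) = Ult.mk 𝒰 (PS β K) (fun _ => 1) := by
      have h4 : Ult.mk 𝒰 (PS β K) (fun j => (τ (cl i) ⟨x i, hT.mem i⟩).rep j *
          (τ (cl i) ⟨(x i)⁻¹, inv_mem (hT.mem i)⟩).rep j) =
          Ult.mk 𝒰 (PS β K) (τ (cl i) ⟨x i, hT.mem i⟩).rep *
            Ult.mk 𝒰 (PS β K) (τ (cl i) ⟨(x i)⁻¹, inv_mem (hT.mem i)⟩).rep :=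
        map_mul (Ult.mk 𝒰 (PS β K)) _ _
      have h5 : Ult.mk 𝒰 (PS β K) (fun _ => 1) = 1 := map_one (Ult.mk 𝒰 (PS β K))
      rw [h4, h5, Ult.mk_rep, Ult.mk_rep, h1]
    exact Ult.mk_eq_mk.1 h3
  have h6 := Ult.map_rep (𝒰 := 𝒰) (R := PS β K) (S := K) (fun _ => MvPowerSeries.constantCoeff)
    (τ (cl i) ⟨x i, hT.mem i⟩)
  have h7 : Ult.map (𝒰 := 𝒰) (R := PS β K) (S := K) (fun _ => MvPowerSeries.constantCoeff)
      (τ (cl i) ⟨x i, hT.mem i⟩) = x i := hT.eps (cl i) ⟨x i, hT.mem i⟩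
  rw [h7] at h6
  filter_upwards [h2, h6] with j hj1 hj2
  exact ⟨hj1, hj2.symm⟩

end Pool.Agent.Zilber
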