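import Pool.Agent.Zilber.DDefs
import Pool.Agent.Zilber.DCnA
import Pool.Agent.Zilber.DCnB
import Pool.Agent.Zilber.DCnC
import Pool.Agent.Zilber.DEz
import Pool.Agent.Zilber.BDim
import Pool.Agent.Zilber.BLevD

set_option autoImplicit false

/-! Core D, G4: counting. -/

namespace Pool.Agent.Zilber

open Filter NumberField Module Pool.Agent.LAll Pool.Agent.LSharp Pool.Agent.CITLines

variable {J : Type} {𝒰 : Ultrafilter J} {K : J → Type} [∀ j, Field (K j)] [∀ j, NumberField (K j)]
  {k : ℕ} {s : Fin (k + 1) → J → ℝ} {ι β : Type} [Fintype ι]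
  [Fintype β] [DecidableEq β] {cl : ι → Fin (k + 1)} {x : ι → Ult 𝒰 K} {bs : β → ι}
  {X : ι → Ult 𝒰 (PS β K)}

private theorem cn4_li {E I : Type} [Field E] [Algebra ℚ E] (S : IntermediateField ℚ E)
    (S' : Subfield E) (h : S.toSubfield = S') (g : I → E) (hg : LinearIndependent S' g) :
    LinearIndependent S g := by
  subst h
  exact hg

private theorem cn4_main {M β' A O E : Type} [Fintype M] [Fintype β'] [Fintype A]
    [DecidableEq M] [DecidableEq β'] [DecidableEq A] [Fintype O] [DecidableEq O] [Field E]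
    [iA : Algebra ℚ E] (ca : A → M) (cb : β' → M) (C : ℕ) (F : A → E)
    (hF : ∀ n : M → ℕ, FiniteDimensional ℚ (monSp ca F n) ∧
      Module.finrank ℚ (monSp ca F n) ≤ C * ∏ b, (n (cb b) + 1))
    (hO : Fintype.card O = Fintype.card β' + 1) (z : O → E)
    (hr : rk ℚ (Set.range z) = Fintype.card β') (N X : M → ℕ)
    (hz : ∀ o, z o ∈ monSp ca F N) (hX : ∀ a, 1 ≤ X a) (hN : ∀ a, N a ≤ X a) (G : Set E)
    (hG : G ⊆ Set.range F) (hzG : ∀ o, z o ∈ Subfield.closure G) (f : MvPolynomial O ℤ)
    (hf : Irreducible f) (h0 : MvPolynomial.eval₂ (Int.castRingHom E) z f = 0) (o : O) :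
    (Subfield.closure (Set.range z)).relfinrank (Subfield.closure G) * f.degreeOf o ≤
      C * (Fintype.card β' + 1) ^ Fintype.card β' * ∏ b, X (cb b) := by
  by_cases ho : f.degreeOf o = 0
  · rw [ho, mul_zero]
    exact Nat.zero_le _
  have hc : CharZero E := algebraRat.charZero E
  have hi : iA = DivisionRing.toRatAlgebra := Subsingleton.elim _ _
  subst hi
  have h0' : MvPolynomial.aeval z f = 0 := h0
  obtain ⟨h1, h2⟩ := relfinrank_omit z (by rw [hr, hO]; push_cast; rfl) f hf h0' o
    (Nat.pos_of_ne_zero ho)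
  have h12 : Subfield.closure (Set.range fun o' : {o' // o' ≠ o} => z o') ≤
      Subfield.closure (Set.range z) := by
    refine Subfield.closure_mono ?_
    rintro _ ⟨o', rfl⟩
    exact ⟨o', rfl⟩
  have h23 : Subfield.closure (Set.range z) ≤ Subfield.closure G := by
    rw [Subfield.closure_le]
    rintro _ ⟨o', rfl⟩
    exact hzG o'
  have h3 := Subfield.relfinrank_mul_relfinrank h12 h23
  rw [mul_comm, ← h2, h3]
  refine relfinrank_le_of_card _ _ (h12.trans h23) _ ?_
  intro n g hg hli
  have hcard : Fintype.card β' = Fintype.card {o' // o' ≠ o} := by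
    rw [Fintype.card_subtype_compl, Fintype.card_subtype_eq, hO]
    rfl
  let e : β' ≃ {o' // o' ≠ o} := Fintype.equivOfCardEq hcard
  have hf' : AlgebraicIndependent ℚ (fun b => z (e b)) := h1.comp e e.injective
  have hrange : Set.range (fun b => z (e b)) = Set.range fun o' : {o' // o' ≠ o} => z o' :=
    e.surjective.range_comp fun o' : {o' // o' ≠ o} => z o'
  have hli' : LinearIndependent (IntermediateField.adjoin ℚ (Set.range fun b => z (e b))) g := by
    refine cn4_li _ _ ?_ g hli
    rw [adjoin_rat_toSubfield, hrange]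
  have hg' : ∀ i, g i ∈ IntermediateField.adjoin ℚ (Set.range F) := by
    intro i
    have h4 : g i ∈ (IntermediateField.adjoin ℚ (Set.range F)).toSubfield := by
      rw [adjoin_rat_toSubfield]
      exact Subfield.closure_mono hG (hg i)
    exact h4
  have h5 := deg_bound ca cb C F hF (fun b => z (e b)) hf' (fun _ => N) (fun b => hz _)
    (fun _ => 1) X hX (fun _ a => by rw [mul_one]; exact hN a) g hg' hli'
  rw [Finset.prod_const_one, mul_one, Fintype.card_fin] at h5
  exact h5

/-- The field generated by the branch over `ℚ` has transcendence degree `card β`.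

Proof. `Br.taus`, `level_D` (BLevD) for the coordinates `A = ι × Bool`, `ca s = cl s.1`, `y (i, true) = x i`, `y (i, false) = (x i)⁻¹`, `bs' b = (bs b, true)`: a structure
`br : BrL ..` at most levels with `br.F (i, true) = (X i).rep j`. `rk_BrL` (DCnC) for the family of all `br.F s`: rank `card β`; the family
`br.F (i, true)` contains the basis and is contained in it: the same rank (apply the argument or `rk_BrL` also with the coordinates `A = ι` only, i.e. `level_D` for `y = x`). -/
theorem rk_branch (hc : Conf 𝒰 K s (FD 𝒰 K s) cl x bs) (hX : Br 𝒰 K (FD 𝒰 K s) cl x bs X) :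
    ∀ᶠ j in (𝒰 : Filter J), rk ℚ (Set.range (fr fun i => (X i).rep j)) = Fintype.card β := by
  classical
  obtain ⟨L, τ, hT, hτ⟩ := hX.taus
  obtain ⟨D, hD⟩ := level_D s hc L τ hT cl bs x hT.mem hc.ne hc.hgt fun b => ⟨rfl, rfl⟩
  filter_upwards [hD] with j hj
  obtain ⟨br, hbr, -, -⟩ := hj
  have h1 := rk_BrL cl bs D (K j) br (FractionRing (MvPowerSeries β (K j)))
    (algebraMap (MvPowerSeries β (K j)) (FractionRing (MvPowerSeries β (K j))))
    (IsFractionRing.injective _ _)
  have h2 : (fr fun i => (X i).rep j) = fun i =>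
      algebraMap (MvPowerSeries β (K j)) (FractionRing (MvPowerSeries β (K j))) (br.F i) := by
    funext i
    rw [hbr i, ← hτ i ⟨x i, hT.mem i⟩ rfl]
    rfl
  rw [h2]
  exact h1

/-- **Counting.**

Proof. `br` at most levels as in `rk_branch` (`A = ι × Bool`), `inv_branch` (DEz). Let `E = FractionRing (MvPowerSeries β (K j))`, `φ = algebraMap`, `C3` from `finrank_monSp` (BDim1).
If `degreeOf o f = 0` the left side is `0`. Otherwise `relfinrank_omit` (DCnB; `rk (range z) + 1 = card O` from `hO`): the `z o'`, `o' ≠ o`, are algebraically independent and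
`[ℚ(z) : ℚ(z_(≠ o))] = degreeOf o f`, so by `Subfield.relfinrank_mul_relfinrank` the left side is `relfinrank (ℚ(z_(≠ o))) (ℚ(X))`, which we bound by `relfinrank_le_of_card` (DCnA): let `g` be a finite family
of elements of `ℚ(X)` linearly independent over `ℚ(z_(≠ o))` (`adjoin_rat_toSubfield` to pass to `IntermediateField.adjoin ℚ`). `deg_bound` (BDim) with `f = z ∘ e`, `e : β ≃ {o' // o' ≠ o}` a bijection
(cardinalities), `F s = φ (br.F s)`, `N b a = ⌈C⌉₊ * card ι * n a` (the monomial `z o' = φ (∏ F_s ^ nex (a o') s)`, `mon_eq`, class sums `≤ ∑ |a o' i| ≤ card ι * C * n a`, one of the two exponents of `i` vanishes), `w = 1`,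
`X a = max 1 (⌈C⌉₊ card ι) * n a` : the number of elements is `≤ C3 (r + 1) ^ r ∏_b X (cl (bs b)) ≤ C' ∏_b n (cl (bs b))`. -/
theorem cnt (hc : Conf 𝒰 K s (FD 𝒰 K s) cl x bs) (hX : Br 𝒰 K (FD 𝒰 K s) cl x bs X)
    (O : Type) [Fintype O] (hO : Fintype.card O = Fintype.card β + 1) (C : ℝ) :
    ∃ C' : ℝ, 0 < C' ∧ ∀ᶠ j in (𝒰 : Filter J), ∀ n : Fin (k + 1) → ℕ, (∀ l, 1 ≤ n l) →
      ∀ a : O → ι → ℤ, (∀ o i, |(a o i : ℝ)| ≤ C * n (cl i)) →
      rk ℚ (Set.range fun o => mon (fr fun i => (X i).rep j) (a o)) = Fintype.card β →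
      ∀ f : MvPolynomial O ℤ, Irreducible f →
        MvPolynomial.aeval (fun o => mon (fr fun i => (X i).rep j) (a o)) f = 0 →
        ∀ o, ((Subfield.closure (Set.range fun o => mon (fr fun i => (X i).rep j) (a o))).relfinrank
          (Subfield.closure (Set.range (fr fun i => (X i).rep j))) : ℝ) * f.degreeOf o ≤
            C' * ∏ b, (n (cl (bs b)) : ℝ) := by
  classical
  obtain ⟨L, τ, hT, hτ⟩ := hX.taus
  let ca : ι × Bool → Fin (k + 1) := fun s => cl s.1
  let y : ι × Bool → Ult 𝒰 K := fun s => if s.2 then x s.1 else (x s.1)⁻¹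
  let bs' : β → ι × Bool := fun b => (bs b, true)
  have hy : ∀ s, y s ∈ L (ca s) := by
    rintro ⟨i, _ | _⟩
    · exact inv_mem (hT.mem i)
    · exact hT.mem i
  have hy0 : ∀ s, y s ≠ 0 := by
    rintro ⟨i, _ | _⟩
    · exact inv_ne_zero (hc.ne i)
    · exact hc.ne i
  have hyh : ∀ a, y a ∈ Lf 𝒰 K (s (ca a)) := by
    rintro ⟨i, _ | _⟩
    · exact inv_mem (hc.hgt i)
    · exact hc.hgt i
  obtain ⟨D, hD⟩ := level_D s hc L τ hT ca bs' y hy hy0 hyh fun b => ⟨rfl, rfl⟩
  obtain ⟨C3, hC3⟩ := finrank_monSp ca bs' D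
  set M0 : ℕ := Fintype.card (ι × Bool) * ⌈|C|⌉₊ with hM0
  refine ⟨C3 * (Fintype.card β + 1) ^ Fintype.card β * (max 1 M0 : ℕ) ^ Fintype.card β + 1,
    by positivity, ?_⟩
  filter_upwards [hD, inv_branch hc.ne L τ hT] with j hj1 hj2 n hn a ha hrk f hf h0 o
  obtain ⟨br, hbr, -, -⟩ := hj1
  have hφ : Function.Injective
      (algebraMap (MvPowerSeries β (K j)) (FractionRing (MvPowerSeries β (K j)))) :=
    IsFractionRing.injective _ _
  have hF1 : ∀ i, br.F (i, true) = (X i).rep j := by
    intro i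
    rw [hτ i ⟨x i, hT.mem i⟩ rfl]
    exact hbr (i, true)
  have hff : ∀ i, (X i).rep j * br.F (i, false) = 1 := by
    intro i
    have h1 := (hj2 i).1
    rw [hτ i ⟨x i, hT.mem i⟩ rfl]
    refine Eq.trans ?_ h1
    congr 1
    exact hbr (i, false)
  have hz : ∀ o, mon (fr fun i => (X i).rep j) (a o) = ∏ s : ι × Bool,
      (algebraMap (MvPowerSeries β (K j)) (FractionRing (MvPowerSeries β (K j))) (br.F s)) ^
        nex (a o) s := by
    intro o
    rw [mon_eq (fun i => (X i).rep j) (fun i => br.F (i, false)) hff (a o), map_prod]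
    refine Finset.prod_congr rfl fun s _ => ?_
    rw [map_pow]
    congr 2
    obtain ⟨i, _ | _⟩ := s
    · rfl
    · exact (hF1 i).symm
  have hle : ∀ o l, cle ca (nex (a o)) l ≤ M0 * n l := by
    intro o l
    have h1 : ∀ s : ι × Bool, (if ca s = l then nex (a o) s else 0) ≤ ⌈|C|⌉₊ * n l := by
      intro s
      split_ifs with hs
      · have h2 : (nex (a o) s : ℝ) ≤ C * n (cl s.1) := (nex_le (a o) s).trans (ha o s.1)
        have h3 : C * (n (cl s.1) : ℝ) ≤ (⌈|C|⌉₊ : ℝ) * n l := by
          have h4 : cl s.1 = l := hs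
          rw [h4]
          exact mul_le_mul_of_nonneg_right ((le_abs_self C).trans (Nat.le_ceil _))
            (Nat.cast_nonneg _)
        exact_mod_cast h2.trans h3
      · exact Nat.zero_le _
    unfold cle
    refine (Finset.sum_le_sum fun s _ => h1 s).trans ?_
    rw [Finset.sum_const, Finset.card_univ, smul_eq_mul, hM0, mul_assoc]
  have hmain := cn4_main ca (fun b => ca (bs' b)) C3
    (fun s => algebraMap (MvPowerSeries β (K j)) (FractionRing (MvPowerSeries β (K j))) (br.F s))
    (hC3 (K j) br (FractionRing (MvPowerSeries β (K j))) _ hφ) hO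
    (fun o => mon (fr fun i => (X i).rep j) (a o)) hrk (fun l => M0 * n l)
    (fun l => max 1 M0 * n l) (fun o => Submodule.subset_span ⟨nex (a o), hle o, hz o⟩)
    (fun l => Nat.one_le_iff_ne_zero.2 (Nat.mul_ne_zero (by omega)
      (Nat.one_le_iff_ne_zero.1 (hn l)))) (fun l => Nat.mul_le_mul_right _ (le_max_right _ _))
    (Set.range (fr fun i => (X i).rep j)) (by
      rintro _ ⟨i, rfl⟩
      exact ⟨(i, true), congrArg _ (hF1 i)⟩)
    (fun o => prod_mem fun i _ => zpow_mem (Subfield.subset_closure (Set.mem_range_self i)) _)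
    f hf (by
      rw [← h0, MvPolynomial.aeval_def]
      congr 1
      exact Subsingleton.elim _ _) o
  have hmain' : ((((Subfield.closure (Set.range fun o => mon (fr fun i => (X i).rep j)
      (a o))).relfinrank (Subfield.closure (Set.range (fr fun i => (X i).rep j)))) *
      f.degreeOf o : ℕ) : ℝ) ≤ ((C3 * (Fintype.card β + 1) ^ Fintype.card β *
        ∏ b, (max 1 M0 * n (ca (bs' b))) : ℕ) : ℝ) := by
    exact_mod_cast hmain
  rw [Nat.cast_mul] at hmain'
  refine hmain'.trans ?_
  rw [Finset.prod_mul_distrib, Finset.prod_const, Finset.card_univ]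
  push_cast
  have hpos : (0 : ℝ) ≤ ∏ b, (n (cl (bs b)) : ℝ) :=
    Finset.prod_nonneg fun b _ => Nat.cast_nonneg _
  have he : ∏ b, (n (ca (bs' b)) : ℝ) = ∏ b, (n (cl (bs b)) : ℝ) := rfl
  rw [he]
  nlinarith [hpos]

end Pool.Agent.Zilber
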