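import Pool.Agent.Zilber.TSW
import Pool.Agent.Zilber.CoreD

set_option autoImplicit false

/-! Core D: definitions. -/

namespace Pool.Agent.Zilber

open Filter NumberField Module Pool.Agent.LAll Pool.Agent.LSharp Pool.Agent.CITLines

section

variable {k : ℕ} {ι β : Type}

/-- The basis of block `0`. -/
abbrev B0 (cl : ι → Fin (k + 1)) (bs : β → ι) : Type := {b : β // cl (bs b) = 0}

/-- The bases of the blocks `l ≥ 1`. -/
abbrev Bp (cl : ι → Fin (k + 1)) (bs : β → ι) : Type := {b : β // cl (bs b) ≠ 0}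

/-- The indices of the `card β + 1` monomials `z`. -/
abbrev Ob (cl : ι → Fin (k + 1)) (bs : β → ι) : Type := Option (B0 cl bs) ⊕ Bp cl bs

/-- The part of a vector in block `0`. -/
def zpart {A : Type} [Zero A] (cl : ι → Fin (k + 1)) (R : ι → A) (i : ι) : A :=
  if cl i = 0 then R i else 0

/-- The part of a vector in the blocks `≥ 1`. -/
def ppart {A : Type} [Zero A] (cl : ι → Fin (k + 1)) (R : ι → A) (i : ι) : A :=
  if cl i = 0 then 0 else R i

end

section

variable {J : Type} (𝒰 : Ultrafilter J) (K : J → Type) [∀ j, Field (K j)] [∀ j, NumberField (K j)]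
  {k : ℕ} {ι β : Type} [Fintype ι] [Fintype β] [DecidableEq β]

/-- The data after the linear algebra: vectors `R o` of the kernel, `o` in `Option (B0) ⊕ Bp`. The vectors
`R (inl o)` vanish on the value vectors of the blocks `≥ 1`, their parts in block `0` are linearly independent,
the ones with `o = some b` have a nonzero wedge product; the `R (inr b)` are a basis on the value vectors
of the blocks `≥ 1`. -/
structure DLin (s : Fin (k + 1) → J → ℝ) (cl : ι → Fin (k + 1)) (x : ι → Ult 𝒰 K) (bs : β → ι)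
    (X : ι → Ult 𝒰 (PS β K)) (σ : ∀ j, K j →+* ℂ) (g : β → ι) (q : ι → β → ℚ)
    (R : Ob cl bs → ι → ℝ) : Prop where
  ker : ∀ o, R o ∈ Ker 𝒰 K s cl x
  cg : ∀ b, cl (g b) = cl (bs b)
  cq : ∀ i b, q i b ≠ 0 → cl i = cl (bs b)
  qg : ∀ b b', q (g b) b' = if b = b' then 1 else 0
  van : ∀ (o : Option (B0 cl bs)) (b : Bp cl bs), ∑ i, R (Sum.inl o) i * (q i b : ℝ) = 0
  li : LinearIndependent ℝ (fun o : Option (B0 cl bs) => zpart cl (R (Sum.inl o)))
  wd : ∀ᶠ j in (𝒰 : Filter J), Wdg (σ j) (fun i => (X i).rep j)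
    (fun b : B0 cl bs => zpart cl (R (Sum.inl (some b)))) (fun b : B0 cl bs => (b : β))
  det : (Matrix.of fun b b' : Bp cl bs => ∑ i, R (Sum.inr b) i * (q i b' : ℝ)).det ≠ 0
  emb : ∀ᶠ j in (𝒰 : Filter J), Emb (σ j) (fun i => (X i).rep j) g q

end

section

variable {ι β : Type} [Fintype ι]

/-- The power series in the fraction field. -/
noncomputable def fr {F : Type} [Field F] (f : ι → MvPowerSeries β F) (i : ι) :
    FractionRing (MvPowerSeries β F) := algebraMap _ _ (f i)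

/-- The integral exponents `a` are near `n R`, and exactly orthogonal to the value vectors where `R` is. -/
structure Expo {k : ℕ} (cl : ι → Fin (k + 1)) (bs : β → ι) (q : ι → β → ℚ)
    (R : Ob cl bs → ι → ℝ) (C : ℝ) (n : Fin (k + 1) → ℕ) (a : Ob cl bs → ι → ℤ) : Prop where
  near : ∀ o i, |(a o i : ℝ) - n (cl i) * R o i| ≤ C
  orth : ∀ (o : Option (B0 cl bs)) (b : Bp cl bs), ∑ i, (a (Sum.inl o) i : ℚ) * q i b = 0

end

section

variable {J : Type} (𝒰 : Ultrafilter J) {K : J → Type} [∀ j, Field (K j)] [∀ j, NumberField (K j)]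
  {k : ℕ} {ι β : Type} [Fintype ι]

/-- The lower bound GAMMA for the `ℓ¹`-norm of the irreducible integral relation of the monomials
`z o = X ^ a o`: `log L1 f ≥ κ n_0 deg f`; the `z o` have transcendence degree `card β`. -/
def Gam [Fintype β] (s : Fin (k + 1) → J → ℝ) (cl : ι → Fin (k + 1)) (bs : β → ι)
    (X : ι → Ult 𝒰 (PS β K)) (q : ι → β → ℚ) (R : Ob cl bs → ι → ℝ) (C κ : ℝ) (n0 : ℕ) : Prop :=
  ∀ᶠ j in (𝒰 : Filter J), ∀ n : Fin (k + 1) → ℕ, (∀ l, n0 ≤ n l) →
    (∀ l, (n l : ℝ) * s l j ≤ 2 * n 0) → ∀ a : Ob cl bs → ι → ℤ, Expo cl bs q R C n a →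
    (rk ℚ (Set.range fun o => mon (fr fun i => (X i).rep j) (a o)) = Fintype.card β ∧
    ∀ f : MvPolynomial (Ob cl bs) ℤ, Irreducible f →
      MvPolynomial.aeval (fun o => mon (fr fun i => (X i).rep j) (a o)) f = 0 →
      ∀ o, κ * n 0 * f.degreeOf o ≤ Real.log (L1 f))

end

section

variable {ι β : Type} [Fintype ι] [Fintype β] {k : ℕ}

/-- `c` is the residue of `u`. -/
def Rsd {Ω : Type} [Field Ω] [Algebra ℂ Ω] (v : Ω → ℝ) (u : Ω) (c : ℂ) : Prop :=
  u = algebraMap ℂ Ω c ∨ 0 < v (u - algebraMap ℂ Ω c)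

/-- **The valuation of case D**: an embedding `φ` of the field of the branch which sends block `0` to complex
numbers `p`, and with rationally independent values in the blocks `≥ 1`. -/
structure IsEmbD {F : Type} [Field F] (σ : F →+* ℂ) (f : ι → MvPowerSeries β F)
    (cl : ι → Fin (k + 1)) (bs : β → ι) (g : β → ι) (q : ι → β → ℚ) (p : {i // cl i = 0} → ℂ)
    {Ω : Type} [Field Ω] [Algebra ℂ Ω] (v : Ω → ℝ) (φ : GF f →+* Ω) : Prop where
  rv : RV ℂ v
  base : ∀ a : F, φ (algebraMap F (GF f) a) = algebraMap ℂ Ω (σ a)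
  zero : ∀ i : {i // cl i = 0}, φ (gen f i) = algebraMap ℂ Ω (p i)
  val : ∀ i, cl i ≠ 0 → v (φ (gen f i)) = ∑ b : Bp cl bs, (q i b : ℝ) * v (φ (gen f (g b)))
  indep : LinearIndependent ℚ (fun b : Bp cl bs => v (φ (gen f (g b))))

end

end Pool.Agent.Zilber
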