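import Pool.Agent.Zilber.DEPl
import Pool.Agent.LSharp.COInt

set_option autoImplicit false

/-! DE4. **The inequality at one level** (product formula). -/

namespace Pool.Agent.Zilber

open NumberField Pool.Agent.LAll Pool.Agent.LSharp MvPowerSeries

variable {M O A β : Type} [Fintype M] [Fintype O] [DecidableEq O] [Fintype A] [DecidableEq A]
  [Fintype β] [DecidableEq β] [DecidableEq M]

/-- **The inequality at one level.** `F = G(z)`, `z_o = ∏ F_s ^ (e o s)`, `f(z) = 0`, `G = f h + g`,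
the coefficients of `g` at most `exp (-E)`, `coeff n F ≠ 0`. Then `E` is bounded by the heights of
the `z_o` at the point and by small terms.

Proof. `S₀` from `br.intOff`: the coefficients of all the `F_s`, hence of `z_o` and of `G(z)` (a sum
of products with integral coefficients), are `IntOff S`, so `0 ≤ ∑_v lam v (coeff n F)`
(`sum_lam_nonneg`). Sum `place_ineq` over `v` (with `Q` from `br.bnd S`):
`∑_v max 0 (lam v z_o(0)) = ht (z_o(0))` (`sum_max_lam`), `∑_v Q a v ≤ D h a`, `∑_v wt v = 1`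
(`sum_wt`). -/
theorem level_ineq (ca : A → M) (bs : β → A) (D : ℕ) (K : Type) [Field K] [NumberField K]
    (br : BrL ca bs D K) (e : O → A → ℕ) (f G : MvPolynomial O ℤ) (h g : MvPolynomial O ℝ)
    (N : O → ℕ) (E W : ℝ)
    (hf : MvPolynomial.eval₂ (Int.castRingHom (MvPowerSeries β K))
      (fun o => ∏ s, br.F s ^ e o s) f = 0)
    (hG : ∀ o, G.degreeOf o ≤ N o) (hg : ∀ o, g.degreeOf o ≤ N o)
    (hGg : MvPolynomial.map (Int.castRingHom ℝ) G = MvPolynomial.map (Int.castRingHom ℝ) f * h + g)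
    (hgE : ∀ i, |g.coeff i| ≤ Real.exp (-E)) (n : β →₀ ℕ)
    (hW : ∀ x : ∀ o, Fin (N o + 1), ∑ b, Real.log (Nat.choose
      (cle ca (fun s => ∑ o, (x o : ℕ) * e o s) (ca (bs b)) + n b) (n b)) ≤ W)
    (hn : coeff n (MvPolynomial.eval₂ (Int.castRingHom (MvPowerSeries β K))
      (fun o => ∏ s, br.F s ^ e o s) G) ≠ 0) :
    E ≤ ∑ o, N o * ht (constantCoeff (∏ s, br.F s ^ e o s)) +
      ∑ b, n b * (D * br.h (ca (bs b))) + ∑ o, Real.log (N o + 1) + W := by
  classical
  obtain ⟨S, hS⟩ := br.intOff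
  have hFS : ∀ s (i : β →₀ ℕ), IntOff S (coeff i (br.F s)) := hS S (Finset.Subset.refl S)
  obtain ⟨Q, hQ, hQs, hQb⟩ := br.bnd S
  have hz0 : ∀ o, constantCoeff (∏ s, br.F s ^ e o s) ≠ 0 := by
    intro o
    rw [map_prod]
    refine Finset.prod_ne_zero_iff.2 fun s _ => ?_
    rw [map_pow]
    exact pow_ne_zero _ (br.F0 s)
  have hzS : ∀ o, IntOff S (constantCoeff (∏ s, br.F s ^ e o s)) := by
    intro o
    rw [← coeff_zero_eq_constantCoeff_apply]
    exact intOff_coeff_prod br.F hFS (e o) 0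
  have hcS : IntOff S (coeff n (MvPolynomial.eval₂ (Int.castRingHom (MvPowerSeries β K))
      (fun o => ∏ s, br.F s ^ e o s) G)) := by
    rw [eval_box _ G N hG, map_sum]
    refine IntOff.sum _ _ fun x _ => ?_
    have h1 : Int.castRingHom (MvPowerSeries β K) (G.coeff (bex x)) =
        C ((G.coeff (bex x) : ℤ) : K) := by
      rw [eq_intCast]
      exact (map_intCast (C : K →+* MvPowerSeries β K) _).symm
    rw [h1, coeff_C_mul]
    exact (intOff_int _).mul (intOff_coeff_prod br.F hFS _ n)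
  have h0 := sum_lam_nonneg hn hcS
  have h1 := Finset.sum_le_sum fun v (_ : v ∈ (Finset.univ : Finset (Plc K S))) =>
    place_ineq ca bs D K br e f G h g N E W hf hG hg hGg hgE n hW hn S Q hQ hQb v
  rw [Finset.sum_add_distrib, Finset.sum_add_distrib, ← Finset.sum_mul, sum_wt, one_mul] at h1
  have h2 : ∑ v : Plc K S, ∑ o, (N o : ℝ) * max 0 (lam v (constantCoeff (∏ s, br.F s ^ e o s))) =
      ∑ o, N o * ht (constantCoeff (∏ s, br.F s ^ e o s)) := by
    rw [Finset.sum_comm]
    refine Finset.sum_congr rfl fun o _ => ?_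
    rw [← Finset.mul_sum, ← sum_max_lam (hz0 o) (hzS o)]
    congr 1
    exact Finset.sum_congr rfl fun v _ => max_comm _ _
  have h3 : ∑ v : Plc K S, ∑ b, (n b : ℝ) * Q (ca (bs b)) v ≤
      ∑ b, n b * (D * br.h (ca (bs b))) := by
    rw [Finset.sum_comm]
    refine Finset.sum_le_sum fun b _ => ?_
    rw [← Finset.mul_sum]
    exact mul_le_mul_of_nonneg_left (hQs _) (Nat.cast_nonneg _)
  rw [h2] at h1
  linarith

end Pool.Agent.Zilber
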