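import Pool.Agent.Zilber.DEst

set_option autoImplicit false

/-! DE3. The estimate at one place. -/

namespace Pool.Agent.Zilber

open NumberField Pool.Agent.LAll Pool.Agent.LSharp MvPowerSeries

variable {M O A β : Type} [Fintype M] [Fintype O] [DecidableEq O] [Fintype A] [DecidableEq A]
  [Fintype β] [DecidableEq β] [DecidableEq M]

private noncomputable def dpD {K : Type} [Field K] [NumberField K] {S : Finset (FinitePlace K)}
    (v : Plc K S) : ℝ := dg v / (Module.finrank ℚ K : ℝ)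

private theorem dp_pos {K : Type} [Field K] [NumberField K] {S : Finset (FinitePlace K)}
    (v : Plc K S) : 0 < dpD v := by
  have h1 : (0 : ℝ) < Module.finrank ℚ K := by exact_mod_cast Module.finrank_pos
  refine div_pos ?_ h1
  rcases v with v | v
  · change (0 : ℝ) < (v.mult : ℝ)
    exact_mod_cast InfinitePlace.mult_pos
  · exact one_pos

private theorem dp_lam {K : Type} [Field K] [NumberField K] {S : Finset (FinitePlace K)}
    (v : Plc K S) (z : K) : lam v z = dpD v * Real.log (ab v z) := by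
  unfold lam dpD
  ring

private theorem dp_ab {K : Type} [Field K] [NumberField K] {S : Finset (FinitePlace K)}
    (v : Plc K S) {z : K} {X : ℝ} (h : z ≠ 0 → lam v z ≤ X) : ab v z ≤ Real.exp (X / dpD v) := by
  rcases eq_or_ne z 0 with rfl | hz
  · have h0 : ab v (0 : K) = 0 := by
      rcases v with v | v
      · exact map_zero v
      · exact map_zero v.1
    rw [h0]
    exact (Real.exp_pos _).le
  · have h1 := h hz
    rw [dp_lam] at h1
    rw [← Real.log_le_iff_le_exp (ab_pos v hz), le_div_iff₀ (dp_pos v), mul_comm]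
    exact h1

/-- The estimate for the monomials. -/
private theorem dp_mon (ca : A → M) (bs : β → A) (D : ℕ) (K : Type) [Field K] [NumberField K]
    (br : BrL ca bs D K) (e : O → A → ℕ) (N : O → ℕ) (W : ℝ) (n : β →₀ ℕ)
    (x : ∀ o, Fin (N o + 1))
    (hW : ∑ b, Real.log (Nat.choose
      (cle ca (fun s => ∑ o, (x o : ℕ) * e o s) (ca (bs b)) + n b) (n b)) ≤ W)
    (S : Finset (FinitePlace K)) (Q : M → Plc K S → ℝ) (hQ : ∀ a v, 0 ≤ Q a v)
    (hb : ∀ s v (n : β →₀ ℕ), coeff n (br.F s) ≠ 0 →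
      lam v (coeff n (br.F s)) ≤ lam v (constantCoeff (br.F s)) + n.degree * Q (ca s) v)
    (v : Plc K S) (hne : coeff n (∏ s, br.F s ^ (∑ o, (x o : ℕ) * e o s)) ≠ 0) :
    lam v (coeff n (∏ s, br.F s ^ (∑ o, (x o : ℕ) * e o s))) ≤
      ∑ o, N o * max 0 (lam v (constantCoeff (∏ s, br.F s ^ e o s))) +
        ∑ b, n b * Q (ca (bs b)) v + LAll.wt v * W := by
  have h1 := lam_coeff_fine ca (fun b => ca (bs b)) br.F br.F0 br.F_only Q hQ hb v
    (fun s => ∑ o, (x o : ℕ) * e o s) n hne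
  have h2 : ∑ s, ((∑ o, (x o : ℕ) * e o s : ℕ) : ℝ) * lam v (constantCoeff (br.F s)) =
      ∑ o, ((x o : ℕ) : ℝ) * lam v (constantCoeff (∏ s, br.F s ^ e o s)) := by
    have h3 : ∀ o, lam v (constantCoeff (∏ s, br.F s ^ e o s)) =
        ∑ s, (e o s : ℝ) * lam v (constantCoeff (br.F s)) := by
      intro o
      rw [map_prod, lam_prod v]
      · refine Finset.sum_congr rfl fun s _ => ?_
        rw [map_pow, lam_pow]
      · intro s _
        rw [map_pow]
        exact pow_ne_zero _ (br.F0 s)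
    simp_rw [h3, Finset.mul_sum]
    rw [Finset.sum_comm]
    refine Finset.sum_congr rfl fun s _ => ?_
    push_cast
    rw [Finset.sum_mul]
    refine Finset.sum_congr rfl fun o _ => ?_
    ring
  have h4 : ∑ o, ((x o : ℕ) : ℝ) * lam v (constantCoeff (∏ s, br.F s ^ e o s)) ≤
      ∑ o, N o * max 0 (lam v (constantCoeff (∏ s, br.F s ^ e o s))) := by
    refine Finset.sum_le_sum fun o _ => ?_
    have h5 : ((x o : ℕ) : ℝ) ≤ N o := by
      have := (x o).2
      exact_mod_cast (by omega : (x o : ℕ) ≤ N o)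
    calc ((x o : ℕ) : ℝ) * lam v (constantCoeff (∏ s, br.F s ^ e o s))
        ≤ ((x o : ℕ) : ℝ) * max 0 (lam v (constantCoeff (∏ s, br.F s ^ e o s))) :=
          mul_le_mul_of_nonneg_left (le_max_right _ _) (Nat.cast_nonneg _)
      _ ≤ _ := mul_le_mul_of_nonneg_right h5 (le_max_left _ _)
  have h6 := mul_le_mul_of_nonneg_left hW (wt_nonneg v)
  rw [← h2] at h4
  linarith

/-- **The estimate at one place.** All notation as in `level_ineq`; `Q` from the field `bnd` of `br`.

Proof. Let `c = coeff n (G(z)) ≠ 0`. For `x` in the box with `coeff n (mon_x) ≠ 0`, `mon_x = ∏ F_s ^ (al_x s)`,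
`al_x s = ∑_o x_o e o s` : `lam_coeff_fine` (with `F_only`, `F0`) gives `lam v (coeff n mon_x) ≤ X_v` where
`X_v = ∑_o N_o max 0 (lam v z_o(0)) + ∑_b n_b Q (ca (bs b)) v + wt v * W`: `∑_s al_x s lam v (F_s(0)) = ∑_o x_o lam v (z_o(0))`, `z_o(0) =
constantCoeff (∏ F_s ^ (e o s)) = ∏ F_s(0) ^ (e o s)` (`lam_prod`, `lam_pow`), `x_o ≤ N_o`. Finite `v`: `est_fin` with
`B = exp (Λ X_v)`, `Λ = finrank ℚ K / dg v`, `wt v = 0`. Infinite `v`: `est_inf`: `ab v c ≤ exp (-E) * card box * exp (Λ X_v)`, take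
`log`, divide by `Λ` (`Λ wt v = 1`), `log_card_box`. -/
theorem place_ineq (ca : A → M) (bs : β → A) (D : ℕ) (K : Type) [Field K] [NumberField K]
    (br : BrL ca bs D K) (e : O → A → ℕ) (f G : MvPolynomial O ℤ) (h g : MvPolynomial O ℝ)
    (N : O → ℕ) (E W : ℝ)
    (hf : MvPolynomial.eval₂ (Int.castRingHom (MvPowerSeries β K))
      (fun o => ∏ s, br.F s ^ e o s) f = 0)
    (hG : ∀ o, G.degreeOf o ≤ N o) (hg : ∀ o, g.degreeOf o ≤ N o)
    (hGg : MvPolynomial.map (Int.castRingHom ℝ) G = MvPolynomial.map (Int.castRingHom ℝ) f * h + g)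
    (hgE : ∀ i, |g.coeff i| ≤ Real.exp (-E)) (n : β →₀ ℕ)
    (hW : ∀ x : ∀ o, Fin (N o + 1), ∑ b, Real.log (Nat.choose
      (cle ca (fun s => ∑ o, (x o : ℕ) * e o s) (ca (bs b)) + n b) (n b)) ≤ W)
    (hn : coeff n (MvPolynomial.eval₂ (Int.castRingHom (MvPowerSeries β K))
      (fun o => ∏ s, br.F s ^ e o s) G) ≠ 0)
    (S : Finset (FinitePlace K)) (Q : M → Plc K S → ℝ) (hQ : ∀ a v, 0 ≤ Q a v)
    (hb : ∀ s v (n : β →₀ ℕ), coeff n (br.F s) ≠ 0 →
      lam v (coeff n (br.F s)) ≤ lam v (constantCoeff (br.F s)) + n.degree * Q (ca s) v)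
    (v : Plc K S) :
    lam v (coeff n (MvPolynomial.eval₂ (Int.castRingHom (MvPowerSeries β K))
      (fun o => ∏ s, br.F s ^ e o s) G)) ≤
      ∑ o, N o * max 0 (lam v (constantCoeff (∏ s, br.F s ^ e o s))) +
        ∑ b, n b * Q (ca (bs b)) v + LAll.wt v * (W + ∑ o, Real.log (N o + 1) - E) := by
  have hD := dp_pos v
  set c : K := coeff n (MvPolynomial.eval₂ (Int.castRingHom (MvPowerSeries β K))
      (fun o => ∏ s, br.F s ^ e o s) G) with hc
  set Y : ℝ := ∑ o, N o * max 0 (lam v (constantCoeff (∏ s, br.F s ^ e o s))) +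
        ∑ b, n b * Q (ca (bs b)) v with hY
  have hmon : ∀ x : ∀ o, Fin (N o + 1),
      ab v (coeff n (∏ s, br.F s ^ (∑ o, (x o : ℕ) * e o s))) ≤
        Real.exp ((Y + LAll.wt v * W) / dpD v) := fun x =>
    dp_ab v fun hne => dp_mon ca bs D K br e N W n x (hW x) S Q hQ hb v hne
  have hab := ab_pos v hn
  rcases hv : v with v' | v'
  · have hw : LAll.wt v = dpD v := by
      rw [hv]
      rfl
    have h1 := est_inf br.F e f G h g N E hf hg hGg hgE n v'
    have h2 : ∑ x : ∀ o, Fin (N o + 1),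
        v' (coeff n (∏ s, br.F s ^ (∑ o, (x o : ℕ) * e o s))) ≤
        (Fintype.card (∀ o, Fin (N o + 1)) : ℝ) * Real.exp ((Y + LAll.wt v * W) / dpD v) := by
      have h3 : ∀ x ∈ (Finset.univ : Finset (∀ o, Fin (N o + 1))),
          v' (coeff n (∏ s, br.F s ^ (∑ o, (x o : ℕ) * e o s))) ≤
            Real.exp ((Y + LAll.wt v * W) / dpD v) := by
        intro x _
        have := hmon x
        rw [hv] at this ⊢
        exact this
      have h4 := Finset.sum_le_card_nsmul _ _ _ h3
      rwa [nsmul_eq_mul, Finset.card_univ] at h4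
    have h5 : ab v c ≤ Real.exp (-E) * ((Fintype.card (∀ o, Fin (N o + 1)) : ℝ) *
        Real.exp ((Y + LAll.wt v * W) / dpD v)) := by
      have h6 : ab v c = v' c := by
        rw [hv]
        rfl
      rw [h6]
      exact h1.trans (mul_le_mul_of_nonneg_left h2 (Real.exp_pos _).le)
    have hcard : (0 : ℝ) < Fintype.card (∀ o, Fin (N o + 1)) := by
      exact_mod_cast Fintype.card_pos
    have h6 := Real.log_le_log hab h5
    rw [Real.log_mul (Real.exp_pos _).ne' (mul_pos hcard (Real.exp_pos _)).ne', Real.log_exp,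
      Real.log_mul hcard.ne' (Real.exp_pos _).ne', Real.log_exp, log_card_box] at h6
    rw [← hv, dp_lam]
    refine (mul_le_mul_of_nonneg_left h6 hD.le).trans (le_of_eq ?_)
    rw [hw]
    field_simp
    ring
  · have hw : LAll.wt v = 0 := by
      rw [hv]
      rfl
    have h1 := est_fin br.F e G N hG n v'.1 (Real.exp ((Y + LAll.wt v * W) / dpD v))
      (Real.exp_pos _).le (fun x => by
        have := hmon x
        rw [hv] at this ⊢
        exact this)
    have h5 : ab v c ≤ Real.exp ((Y + LAll.wt v * W) / dpD v) := by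
      have h6 : ab v c = v'.1 c := by
        rw [hv]
        rfl
      rw [h6]
      exact h1
    have h6 := Real.log_le_log hab h5
    rw [Real.log_exp] at h6
    rw [← hv, dp_lam]
    refine (mul_le_mul_of_nonneg_left h6 hD.le).trans (le_of_eq ?_)
    rw [hw]
    field_simp
    ring

end Pool.Agent.Zilber
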