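import Pool.Agent.Zilber.DELev
import Pool.Agent.Zilber.DAlpha
import Pool.Agent.Zilber.BChoose

set_option autoImplicit false

/-! DE7. The final contradiction at one level: choice of the constants. -/

namespace Pool.Agent.Zilber

open NumberField Pool.Agent.LAll Pool.Agent.LSharp MvPowerSeries

private lemma coeff_le_L1R {O : Type} (g : MvPolynomial O ℝ) (i : O →₀ ℕ) :
    |g.coeff i| ≤ L1R g := by
  unfold L1R
  by_cases hi : i ∈ g.support
  · exact Finset.single_le_sum (f := fun e => |g.coeff e|) (fun _ _ => abs_nonneg _) hi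
  · rw [MvPolynomial.notMem_support_iff.1 hi, abs_zero]
    exact Finset.sum_nonneg fun _ _ => abs_nonneg _

private lemma cle_box {M O A : Type} [Fintype O] [Fintype A] [DecidableEq M] (ca : A → M)
    (e : O → A → ℕ) (x : O → ℕ) (l : M) :
    cle ca (fun s => ∑ o, x o * e o s) l = ∑ o, x o * cle ca (e o) l := by
  unfold cle
  simp_rw [Finset.mul_sum]
  rw [Finset.sum_comm]
  refine Finset.sum_congr rfl fun s _ => ?_
  by_cases h : ca s = l
  · simp only [h, if_true]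
  · simp only [h, if_false, mul_zero, Finset.sum_const_zero]

/-- the arithmetic of the constants -/
private lemma end_arith {m r Db C0 κ c ε η Δ n0 sk D S1 S2 S3 W : ℝ} (hm : 0 ≤ m)
    (hC0 : 0 ≤ C0) (hκ : 0 < κ) (hc : 0 < c)
    (hε : 2 * (r * ε) ≤ c * κ / 8) (hη : 2 * (r * (η * Db)) ≤ c * κ / 8) (hΔ : 1 ≤ Δ)
    (hΔ1 : 2 * m ^ 2 * C0 + 2 * m ^ 2 ≤ c * κ / 8 * Δ) (hsk : 1 ≤ sk) (hn0 : Δ * sk ≤ n0)
    (hD : 1 ≤ D) (h1 : S1 ≤ m * (2 * m * D * (C0 * sk))) (h2 : S2 ≤ r * (η * D * (Db * (2 * n0))))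
    (h3 : S3 ≤ m * (2 * m * D)) (h4 : W = r * (ε * (D * (2 * n0))))
    (h : c * (κ * n0) * D ≤ S1 + S2 + S3 + W) : False := by
  have hck : 0 < c * κ := mul_pos hc hκ
  have hn1 : 1 ≤ n0 := by nlinarith
  have hD0 : 0 < D := by linarith
  have k1 : 2 * m ^ 2 * C0 * sk + 2 * m ^ 2 ≤ c * κ / 8 * n0 := by
    have a1 : 2 * m ^ 2 * C0 * sk + 2 * m ^ 2 ≤ (2 * m ^ 2 * C0 + 2 * m ^ 2) * sk := by
      have : 0 ≤ 2 * m ^ 2 := by positivity
      nlinarith
    have a2 : (2 * m ^ 2 * C0 + 2 * m ^ 2) * sk ≤ c * κ / 8 * Δ * sk :=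
      mul_le_mul_of_nonneg_right hΔ1 (by linarith)
    have a3 : c * κ / 8 * (Δ * sk) ≤ c * κ / 8 * n0 :=
      mul_le_mul_of_nonneg_left hn0 (by positivity)
    nlinarith
  have k2 : 2 * (r * (η * Db)) * n0 ≤ c * κ / 8 * n0 :=
    mul_le_mul_of_nonneg_right hη (by linarith)
  have k3 : 2 * (r * ε) * n0 ≤ c * κ / 8 * n0 := mul_le_mul_of_nonneg_right hε (by linarith)
  have k4 : c * (κ * n0) * D ≤ (2 * m ^ 2 * C0 * sk + 2 * m ^ 2 + 2 * (r * (η * Db)) * n0 +
      2 * (r * ε) * n0) * D := by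
    refine h.trans ?_
    rw [h4]
    have e : (2 * m ^ 2 * C0 * sk + 2 * m ^ 2 + 2 * (r * (η * Db)) * n0 +
      2 * (r * ε) * n0) * D = m * (2 * m * D * (C0 * sk)) + r * (η * D * (Db * (2 * n0))) +
        m * (2 * m * D) + r * (ε * (D * (2 * n0))) := by ring
    rw [e]
    linarith
  have k5 := le_of_mul_le_mul_right k4 hD0
  have k6 : 0 < c * κ * n0 := by positivity
  nlinarith

/-- **The contradiction at one level.** The constants: `Db` (branch), `C0` (heights of the `z_o` in units of `sk`), `C2` (class sums of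
the exponents of `z_o` in units of `n`), `κ`, `c`. There is `η > 0`, and `Δ1`, such that there are no data with `Δ ≥ Δ1`.

Proof. Let `m = card O`, `r = card β`. `level_ineq` with `N o = 2 m D`, `E = c κ n0 D` (`n0 := n 0'`, the field `n0`), the coefficients of `g`
are `≤ L1R g`, and `W = r ε' 2 D n0`: for `x` in the box `cle ca (∑ x_o e o) l ≤ ∑_o 2 m D * (C2 n_l) = (2 m² C2) (D n_l)`, and
`nn b ≤ η (D n_l)`, `l = ca (bs b)`; `choose_small` (BChoose) with `C = 2 m² C2`, `ε = ε'` and `T = D n_l` gives `log choose ≤ ε' D n_l ≤ 2 ε' D n0`, as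
`n_l ≤ n_l h_l ≤ 2 n0`. So `c κ n0 D ≤ 2 m D * m * C0 sk + ∑_b η D n_l Db h_l + 2 m² D + 2 r ε' D n0`, `∑_b η D Db n_l h_l ≤ 2 r η Db D n0`,
`sk ≤ n0 / Δ`, and `1 ≤ n0 / Δ` (`sk ≥ 1`): dividing by `D n0 > 0`:
`c κ ≤ 2 m² C0 / Δ + 2 r η Db + 2 m² / Δ + 2 r ε'`. Choose `ε'` with `2 r ε' ≤ c κ / 8`, `η` from `choose_small` and
`2 r η Db ≤ c κ / 8`, then `Δ1 ≥ 1` with `(2 m² C0 + 2 m²) / Δ1 ≤ c κ / 8`. -/
theorem end_level (M O A β : Type) [Fintype M] [Fintype O] [DecidableEq O] [Fintype A]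
    [DecidableEq A] [Fintype β] [DecidableEq β] [DecidableEq M] (ca : A → M) (bs : β → A)
    (Db : ℕ) (C0 C2 κ c : ℝ) (hC0 : 0 ≤ C0) (hC2 : 0 ≤ C2) (hκ : 0 < κ) (hc : 0 < c) :
    ∃ η : ℝ, 0 < η ∧ ∃ Δ1 : ℝ, 1 ≤ Δ1 ∧ ∀ Δ : ℝ, Δ1 ≤ Δ → ∀ (K : Type) [Field K] [NumberField K]
      (br : BrL ca bs Db K) (n : M → ℕ) (n0 sk : ℝ), 1 ≤ sk → Δ * sk ≤ n0 →
      (∀ l, (n l : ℝ) * br.h l ≤ 2 * n0) →
      ∀ e : O → A → ℕ, (∀ o l, (cle ca (e o) l : ℝ) ≤ C2 * n l) →
      (∀ o, ht (constantCoeff (∏ s, br.F s ^ e o s)) ≤ C0 * sk) →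
      ∀ (f G : MvPolynomial O ℤ) (h g : MvPolynomial O ℝ) (D : ℕ), 1 ≤ D →
      MvPolynomial.eval₂ (Int.castRingHom (MvPowerSeries β K)) (fun o => ∏ s, br.F s ^ e o s) f = 0 →
      (∀ o, G.degreeOf o ≤ 2 * Fintype.card O * D) → (∀ o, g.degreeOf o ≤ 2 * Fintype.card O * D) →
      MvPolynomial.map (Int.castRingHom ℝ) G = MvPolynomial.map (Int.castRingHom ℝ) f * h + g →
      L1R g ≤ Real.exp (-(c * (κ * n0) * D)) →
      ∀ nn : β →₀ ℕ, (∀ b, (nn b : ℝ) ≤ η * (D * n (ca (bs b)))) →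
      coeff nn (MvPolynomial.eval₂ (Int.castRingHom (MvPowerSeries β K))
        (fun o => ∏ s, br.F s ^ e o s) G) ≠ 0 → False := by
  classical
  obtain ⟨m, hm⟩ : ∃ m : ℝ, m = Fintype.card O := ⟨_, rfl⟩
  obtain ⟨r, hr⟩ : ∃ r : ℝ, r = Fintype.card β := ⟨_, rfl⟩
  have hm0 : 0 ≤ m := by rw [hm]; positivity
  have hr0 : 0 ≤ r := by rw [hr]; positivity
  have hck : 0 < c * κ := mul_pos hc hκ
  obtain ⟨ε, hε⟩ : ∃ ε : ℝ, ε = c * κ / (16 * (r + 1)) := ⟨_, rfl⟩
  have hε0 : 0 < ε := by rw [hε]; positivity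
  have hε1 : 2 * (r * ε) ≤ c * κ / 8 := by
    have h1 : 16 * (r + 1) * ε = c * κ := by
      rw [hε]
      field_simp
    nlinarith
  obtain ⟨η0, hη0, hch⟩ := choose_small (2 * m ^ 2 * C2) ε (by positivity) hε0
  obtain ⟨η, hη⟩ : ∃ η : ℝ, η = min η0 (c * κ / (16 * (r * Db + 1))) := ⟨_, rfl⟩
  have hrD : 0 ≤ r * Db := by positivity
  have hηp : 0 < η := by
    rw [hη]
    exact lt_min hη0 (by positivity)
  have hη1 : η ≤ η0 := by rw [hη]; exact min_le_left _ _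
  have hη2 : 2 * (r * (η * Db)) ≤ c * κ / 8 := by
    have h1 : η ≤ c * κ / (16 * (r * Db + 1)) := by rw [hη]; exact min_le_right _ _
    rw [le_div_iff₀ (by positivity)] at h1
    nlinarith
  refine ⟨η, hηp, max 1 ((2 * m ^ 2 * C0 + 2 * m ^ 2) / (c * κ / 8)), le_max_left _ _, ?_⟩
  intro Δ hΔ K _ _ br n n0 sk hsk hn0 hnh e he hht f G h g D hD hf hG hg hGg hgE nn hnn hne
  have hΔ1 : 1 ≤ Δ := (le_max_left _ _).trans hΔ
  have hΔ2 : 2 * m ^ 2 * C0 + 2 * m ^ 2 ≤ c * κ / 8 * Δ := by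
    have h1 := (le_max_right _ _).trans hΔ
    rw [div_le_iff₀ (by positivity)] at h1
    linarith
  have hn1 : 1 ≤ n0 := by nlinarith
  have hD1 : (1 : ℝ) ≤ D := by exact_mod_cast hD
  have hnl : ∀ l, (n l : ℝ) ≤ 2 * n0 := fun l =>
    (le_mul_of_one_le_right (Nat.cast_nonneg _) (br.one_le_h l)).trans (hnh l)
  have hW : ∀ x : ∀ o : O, Fin (2 * Fintype.card O * D + 1), ∑ b, Real.log (Nat.choose
      (cle ca (fun s => ∑ o, (x o : ℕ) * e o s) (ca (bs b)) + nn b) (nn b)) ≤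
      r * (ε * (D * (2 * n0))) := by
    intro x
    have h1 : ∀ b ∈ (Finset.univ : Finset β), Real.log (Nat.choose
      (cle ca (fun s => ∑ o, (x o : ℕ) * e o s) (ca (bs b)) + nn b) (nn b)) ≤
      ε * (D * (2 * n0)) := by
      intro b _
      have h2 : ((cle ca (fun s => ∑ o, (x o : ℕ) * e o s) (ca (bs b)) : ℕ) : ℝ) ≤
          2 * m ^ 2 * C2 * (D * n (ca (bs b))) := by
        rw [cle_box ca e (fun o => (x o : ℕ)) (ca (bs b))]
        push_cast
        have h3 : ∀ o ∈ (Finset.univ : Finset O), ((x o : ℕ) : ℝ) * (cle ca (e o) (ca (bs b)) : ℝ)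
            ≤ (2 * m * D) * (C2 * n (ca (bs b))) := by
          intro o _
          refine mul_le_mul ?_ (he o _) (Nat.cast_nonneg _) (by positivity)
          have h4 : (x o : ℕ) ≤ 2 * Fintype.card O * D := Nat.lt_succ_iff.1 (x o).2
          rw [hm]
          exact_mod_cast h4
        refine (Finset.sum_le_sum h3).trans (le_of_eq ?_)
        rw [Finset.sum_const, Finset.card_univ, nsmul_eq_mul, ← hm]
        ring
      have h3 : (nn b : ℝ) ≤ η0 * (D * n (ca (bs b))) :=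
        (hnn b).trans (mul_le_mul_of_nonneg_right hη1 (by positivity))
      refine (hch _ _ _ (by positivity) h2 h3).trans ?_
      exact mul_le_mul_of_nonneg_left (mul_le_mul_of_nonneg_left (hnl _) (by positivity)) hε0.le
    refine (Finset.sum_le_sum h1).trans (le_of_eq ?_)
    rw [Finset.sum_const, Finset.card_univ, nsmul_eq_mul, ← hr]
  have key := level_ineq ca bs Db K br e f G h g (fun _ => 2 * Fintype.card O * D)
    (c * (κ * n0) * D) (r * (ε * (D * (2 * n0)))) hf hG hg hGg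
    (fun i => (coeff_le_L1R g i).trans hgE) nn hW hne
  refine end_arith (m := m) (r := r) (Db := Db) (C0 := C0) (κ := κ) (c := c) (ε := ε) (η := η)
    (Δ := Δ) (n0 := n0) (sk := sk) (D := D) hm0 hC0 hκ hc hε1 hη2 hΔ1 hΔ2 hsk hn0 hD1 ?_ ?_ ?_ rfl
    key
  · have h1 : ∀ o ∈ (Finset.univ : Finset O), ((2 * Fintype.card O * D : ℕ) : ℝ) *
        ht (constantCoeff (∏ s, br.F s ^ e o s)) ≤ 2 * m * D * (C0 * sk) := by
      intro o _
      have h2 : ((2 * Fintype.card O * D : ℕ) : ℝ) = 2 * m * D := by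
        rw [hm]
        push_cast
        ring
      rw [h2]
      exact mul_le_mul_of_nonneg_left (hht o) (by positivity)
    refine (Finset.sum_le_sum h1).trans (le_of_eq ?_)
    rw [Finset.sum_const, Finset.card_univ, nsmul_eq_mul, ← hm]
  · have h1 : ∀ b ∈ (Finset.univ : Finset β), (nn b : ℝ) * (Db * br.h (ca (bs b))) ≤
        η * D * (Db * (2 * n0)) := by
      intro b _
      have h2 : 0 ≤ (Db : ℝ) * br.h (ca (bs b)) :=
        mul_nonneg (Nat.cast_nonneg _) (zero_le_one.trans (br.one_le_h _))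
      calc (nn b : ℝ) * (Db * br.h (ca (bs b)))
          ≤ η * (D * n (ca (bs b))) * (Db * br.h (ca (bs b))) :=
            mul_le_mul_of_nonneg_right (hnn b) h2
        _ = η * D * (Db * (n (ca (bs b)) * br.h (ca (bs b)))) := by ring
        _ ≤ η * D * (Db * (2 * n0)) := by
            refine mul_le_mul_of_nonneg_left ?_ (by positivity)
            exact mul_le_mul_of_nonneg_left (hnh _) (Nat.cast_nonneg _)
    refine (Finset.sum_le_sum h1).trans (le_of_eq ?_)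
    rw [Finset.sum_const, Finset.card_univ, nsmul_eq_mul, ← hr]
  · have h1 : ∀ o ∈ (Finset.univ : Finset O),
        Real.log (((2 * Fintype.card O * D : ℕ) : ℝ) + 1) ≤ 2 * m * D := by
      intro o _
      have h2 : ((2 * Fintype.card O * D : ℕ) : ℝ) = 2 * m * D := by
        rw [hm]
        push_cast
        ring
      have h3 : (0 : ℝ) ≤ 2 * m * D := by positivity
      have h4 := Real.log_le_sub_one_of_pos (x := 2 * m * D + 1) (by linarith)
      rw [h2]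
      linarith
    refine (Finset.sum_le_sum h1).trans (le_of_eq ?_)
    rw [Finset.sum_const, Finset.card_univ, nsmul_eq_mul, ← hm]

end Pool.Agent.Zilber
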