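import Pool.Agent.Zilber.DDefs

set_option autoImplicit false

/-! DE5. Existence of integral exponents near a multiple of the vectors `R`, exactly orthogonal. -/

namespace Pool.Agent.Zilber

private theorem expo_split {k : ℕ} {ι β : Type} [Fintype ι] [DecidableEq β]
    (cl : ι → Fin (k + 1)) (bs : β → ι) (g : β → ι) (q : ι → β → ℚ)
    [DecidablePred fun i => ∃ b' : Bp cl bs, g b' = i]
    (hqg : ∀ b b', q (g b) b' = if b = b' then 1 else 0) (F : ι → ℝ) (b : Bp cl bs) :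
    ∑ i, F i * (q i b : ℝ) = F (g b) +
      ∑ i, (if ∃ b' : Bp cl bs, g b' = i then 0 else F i * (q i b : ℝ)) := by
  rw [← sub_eq_iff_eq_add, ← Finset.sum_sub_distrib, Finset.sum_eq_single (g b)]
  · rw [if_pos ⟨b, rfl⟩, hqg, if_pos rfl]
    simp
  · intro i _ hi
    by_cases h : ∃ b' : Bp cl bs, g b' = i
    · rw [if_pos h, sub_zero]
      obtain ⟨b', rfl⟩ := h
      have hne : (b' : β) ≠ b := fun h2 => hi (by rw [h2])
      rw [hqg, if_neg hne]
      simp
    · rw [if_neg h, sub_self]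
  · intro h
    exact absurd (Finset.mem_univ _) h

private theorem expo_den {ι β : Type} [Fintype ι] [Fintype β] (q : ι → β → ℚ) :
    ∃ Q : ℕ, 1 ≤ Q ∧ ∃ qi : ι → β → ℤ, ∀ i b, ((qi i b : ℤ) : ℚ) = Q * q i b := by
  classical
  refine ⟨∏ i, ∏ b, (q i b).den, Finset.prod_pos fun i _ => Finset.prod_pos fun b _ =>
    (q i b).den_pos, ?_⟩
  have h : ∀ i b, ∃ z : ℤ, (z : ℚ) = ((∏ i, ∏ b, (q i b).den : ℕ) : ℚ) * q i b := by
    intro i b
    have h1 : (q i b).den ∣ ∏ i, ∏ b, (q i b).den :=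
      (Finset.dvd_prod_of_mem (fun b => (q i b).den) (Finset.mem_univ b)).trans
        (Finset.dvd_prod_of_mem (fun i => ∏ b, (q i b).den) (Finset.mem_univ i))
    obtain ⟨m, hm⟩ := h1
    refine ⟨m * (q i b).num, ?_⟩
    rw [hm]
    push_cast
    have h2 : ((q i b).den : ℚ) * q i b = (q i b).num := Rat.den_mul_eq_num _
    linear_combination (-(m : ℚ)) * h2
  choose z hz using h
  exact ⟨z, hz⟩

/-- The case of one vector. -/
private theorem expo_one {k : ℕ} {ι β : Type} [Fintype ι] [Fintype β] [DecidableEq β]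
    (cl : ι → Fin (k + 1)) (bs : β → ι) (g : β → ι) (q : ι → β → ℚ) (R : ι → ℝ)
    (hcg : ∀ b, cl (g b) = cl (bs b)) (hcq : ∀ i b, q i b ≠ 0 → cl i = cl (bs b))
    (hqg : ∀ b b', q (g b) b' = if b = b' then 1 else 0)
    (hvan : ∀ b : Bp cl bs, ∑ i, R i * (q i b : ℝ) = 0) (Q : ℕ) (hQ : 1 ≤ Q)
    (qi : ι → β → ℤ) (hqi : ∀ i b, ((qi i b : ℤ) : ℚ) = Q * q i b) (ν : Fin (k + 1) → ℝ) :
    ∃ a : ι → ℤ, (∀ i, |(a i : ℝ) - ν (cl i) * R i| ≤
      (Q : ℝ) / 2 * (1 + ∑ i, ∑ b, |(q i b : ℝ)|)) ∧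
      ∀ b : Bp cl bs, ∑ i, (a i : ℚ) * q i b = 0 := by
  classical
  have hQ0 : (0 : ℝ) < Q := by exact_mod_cast hQ
  have hqr : ∀ i b, ((qi i b : ℤ) : ℝ) = Q * (q i b : ℝ) := fun i b => by
    exact_mod_cast congrArg (fun r : ℚ => (r : ℝ)) (hqi i b)
  obtain ⟨m, hm⟩ : ∃ m : ι → ℤ, ∀ i, |(Q : ℝ) * m i - ν (cl i) * R i| ≤ (Q : ℝ) / 2 := by
    refine ⟨fun i => round (ν (cl i) * R i / Q), fun i => ?_⟩
    have h1 := abs_sub_round (ν (cl i) * R i / Q)
    have h2 : (Q : ℝ) * (round (ν (cl i) * R i / Q) : ℤ) - ν (cl i) * R i =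
        -(Q * (ν (cl i) * R i / Q - (round (ν (cl i) * R i / Q) : ℤ))) := by
      field_simp
      ring
    rw [h2, abs_neg, abs_mul, abs_of_pos hQ0]
    calc (Q : ℝ) * |ν (cl i) * R i / Q - (round (ν (cl i) * R i / Q) : ℤ)| ≤ Q * (1 / 2) :=
          mul_le_mul_of_nonneg_left h1 hQ0.le
      _ = Q / 2 := by ring
  have hsum0 : ∀ b : β, ∑ i, |(q i b : ℝ)| ≤ ∑ i, ∑ b, |(q i b : ℝ)| := fun b =>
    Finset.sum_le_sum fun i _ =>
      Finset.single_le_sum (f := fun b => |(q i b : ℝ)|) (fun b _ => abs_nonneg _)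
        (Finset.mem_univ b)
  have hS0 : 0 ≤ ∑ i, ∑ b, |(q i b : ℝ)| :=
    Finset.sum_nonneg fun i _ => Finset.sum_nonneg fun b _ => abs_nonneg _
  obtain ⟨a, haf, hag⟩ : ∃ a : ι → ℤ, (∀ i, (¬ ∃ b : Bp cl bs, g b = i) → a i = Q * m i) ∧
      ∀ b : Bp cl bs, a (g b) = - ∑ i, (if ∃ b' : Bp cl bs, g b' = i then 0
        else qi i b * m i) := by
    refine ⟨fun i => if h : ∃ b : Bp cl bs, g b = i then - ∑ i', (if ∃ b' : Bp cl bs, g b' = i'
      then 0 else qi i' h.choose * m i') else Q * m i, fun i hi => dif_neg hi, fun b => ?_⟩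
    have h : ∃ b' : Bp cl bs, g b' = g b := ⟨b, rfl⟩
    have h1 : h.choose = b := by
      have h2 := h.choose_spec
      have h3 := hqg (h.choose : Bp cl bs) b
      rw [h2, hqg, if_pos rfl] at h3
      by_contra hne
      rw [if_neg (fun h4 => hne (Subtype.ext h4))] at h3
      exact one_ne_zero h3
    simp only []
    rw [dif_pos h, h1]
  refine ⟨a, fun i => ?_, fun b => ?_⟩
  · by_cases hi : ∃ b : Bp cl bs, g b = i
    · obtain ⟨b, rfl⟩ := hi
      have h1 := hvan b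
      rw [expo_split cl bs g q hqg R b] at h1
      have h2 : (a (g b) : ℝ) - ν (cl (g b)) * R (g b) =
          - ∑ i, (if ∃ b' : Bp cl bs, g b' = i then 0 else
            (q i b : ℝ) * ((Q : ℝ) * m i - ν (cl i) * R i)) := by
        have h3 : R (g b) = - ∑ i, (if ∃ b' : Bp cl bs, g b' = i then 0 else
            R i * (q i b : ℝ)) := by linarith
        rw [h3, hag b, mul_neg, sub_neg_eq_add, Finset.mul_sum]
        push_cast
        rw [neg_add_eq_sub, ← Finset.sum_sub_distrib, ← Finset.sum_neg_distrib]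
        refine Finset.sum_congr rfl fun i _ => ?_
        by_cases hi : ∃ b' : Bp cl bs, g b' = i
        · rw [if_pos hi, if_pos hi, if_pos hi]
          simp
        · rw [if_neg hi, if_neg hi, if_neg hi, hqr]
          rcases eq_or_ne (q i b) 0 with h0 | h0
          · rw [h0]
            simp
          · rw [hcg, ← hcq i b h0]
            ring
      rw [h2, abs_neg]
      have h4 : |∑ i, (if ∃ b' : Bp cl bs, g b' = i then 0 else
            (q i b : ℝ) * ((Q : ℝ) * m i - ν (cl i) * R i))| ≤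
          ∑ i, |(q i b : ℝ)| * ((Q : ℝ) / 2) := by
        refine (Finset.abs_sum_le_sum_abs _ _).trans (Finset.sum_le_sum fun i _ => ?_)
        by_cases hi : ∃ b' : Bp cl bs, g b' = i
        · rw [if_pos hi, abs_zero]
          positivity
        · rw [if_neg hi, abs_mul]
          exact mul_le_mul_of_nonneg_left (hm i) (abs_nonneg _)
      refine h4.trans ?_
      rw [← Finset.sum_mul]
      have h5 := mul_le_mul_of_nonneg_right (hsum0 b) (by positivity : (0 : ℝ) ≤ (Q : ℝ) / 2)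
      have h6 : (0 : ℝ) ≤ (Q : ℝ) / 2 := by positivity
      nlinarith
    · rw [haf i hi]
      push_cast
      refine (hm i).trans ?_
      have h6 : (0 : ℝ) ≤ (Q : ℝ) / 2 := by positivity
      nlinarith [mul_nonneg h6 hS0]
  · have h1 : ((∑ i, (a i : ℚ) * q i b : ℚ) : ℝ) = 0 := by
      push_cast
      rw [expo_split cl bs g q hqg (fun i => (a i : ℝ)) b, hag b]
      push_cast
      rw [neg_add_eq_sub, ← Finset.sum_sub_distrib]
      refine Finset.sum_eq_zero fun i _ => ?_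
      by_cases hi : ∃ b' : Bp cl bs, g b' = i
      · rw [if_pos hi, if_pos hi]
        simp
      · rw [if_neg hi, if_neg hi, hqr, haf i hi]
        push_cast
        ring
    exact_mod_cast h1

/-- **Existence of exponents.** There is `C1` such that for every positive scaling `ν` of the classes there are integer vectors
`a o` with `|a o i - ν_(cl i) R o i| ≤ C1`, and `∑_i a (inl o) i q i b = 0` for the `b` of the blocks `≥ 1`.

Proof. For `o = inr b`: `a = round (ν R)`, error `≤ 1/2`. Let `o = inl o'`, `R = R o`. Let `Q > 0` be a common denominator of all the `q i b`.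
The indices `i` with `i ≠ g b` for all `b : Bp` are called free. For free `i` let `m_i = round (ν_(cl i) R i / Q)` and put
`a i = Q m_i` (`i` free), `a (g b) = - ∑_(i free) Q q i b m_i` (an integer) for `b : Bp` (`g` is injective on `Bp` by `hqg`; the value for an index `g b`
does not depend on the choice of `b`). Then `∑_i a i q i b = ∑_(i free) Q m_i q i b + ∑_(b') a (g b') q (g b') b =
∑_(i free) Q m_i q i b + a (g b) = 0`. Error: for free `i`: `|Q m_i - ν R i| ≤ Q / 2`; for `g b`: `hvan` gives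
`R (g b) = - ∑_(i free) R i q i b`, and `q i b ≠ 0` only if `cl i = cl (bs b) = cl (g b)`, so
`ν_(cl (g b)) R (g b) = - ∑_(i free) q i b (ν_(cl i) R i)`: the error is `≤ ∑ |q i b| Q / 2`. -/
theorem exists_expo {k : ℕ} {ι β : Type} [Fintype ι] [Fintype β] [DecidableEq β]
    (cl : ι → Fin (k + 1)) (bs : β → ι) (g : β → ι) (q : ι → β → ℚ) (R : Ob cl bs → ι → ℝ)
    (hcg : ∀ b, cl (g b) = cl (bs b)) (hcq : ∀ i b, q i b ≠ 0 → cl i = cl (bs b))
    (hqg : ∀ b b', q (g b) b' = if b = b' then 1 else 0)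
    (hvan : ∀ (o : Option (B0 cl bs)) (b : Bp cl bs), ∑ i, R (Sum.inl o) i * (q i b : ℝ) = 0) :
    ∃ C1 : ℝ, 0 ≤ C1 ∧ ∀ ν : Fin (k + 1) → ℝ, ∃ a : Ob cl bs → ι → ℤ,
      (∀ o i, |(a o i : ℝ) - ν (cl i) * R o i| ≤ C1) ∧
      ∀ (o : Option (B0 cl bs)) (b : Bp cl bs), ∑ i, (a (Sum.inl o) i : ℚ) * q i b = 0 := by
  classical
  obtain ⟨Q, hQ, qi, hqi⟩ := expo_den q
  have hQ1 : (1 : ℝ) ≤ Q := by exact_mod_cast hQ
  have hS0 : 0 ≤ ∑ i, ∑ b, |(q i b : ℝ)| :=
    Finset.sum_nonneg fun i _ => Finset.sum_nonneg fun b _ => abs_nonneg _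
  refine ⟨(Q : ℝ) / 2 * (1 + ∑ i, ∑ b, |(q i b : ℝ)|), by positivity, fun ν => ?_⟩
  have h := fun o : Option (B0 cl bs) => expo_one cl bs g q (R (Sum.inl o)) hcg hcq hqg
    (hvan o) Q hQ qi hqi ν
  choose a0 ha0 ha1 using h
  refine ⟨fun o => Sum.elim a0 (fun b i => round (ν (cl i) * R (Sum.inr b) i)) o, ?_, ?_⟩
  · rintro (o | b) i
    · exact ha0 o i
    · simp only [Sum.elim_inr]
      rw [abs_sub_comm]
      refine (abs_sub_round _).trans ?_
      nlinarith [mul_nonneg (by linarith : (0 : ℝ) ≤ (Q : ℝ) / 2) hS0]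
  · intro o b
    exact ha1 o b

end Pool.Agent.Zilber
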