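import Pool.Agent.CITLines.Basic

set_option autoImplicit false

/-! The irreducible integral relation of a family of transcendence degree `card - 1`. -/

namespace Pool.Agent.Zilber

open Pool.Agent.CITLines MvPolynomial

/-- The kernel of the evaluation at an algebraic element is principal. -/
private theorem rel_gauss {R Ω : Type} [CommRing R] [IsDomain R] [UniqueFactorizationMonoid R]
    [Field Ω] (φ : R →+* Ω) (hφ : Function.Injective φ) (z : Ω) {P : Polynomial R} (hP0 : P ≠ 0)
    (hP : P.eval₂ φ z = 0) :
    ∃ g : Polynomial R, Irreducible g ∧ g.eval₂ φ z = 0 ∧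
      ∀ p : Polynomial R, p.eval₂ φ z = 0 → g ∣ p := by
  have hI : (RingHom.ker (Polynomial.eval₂RingHom φ z)).IsPrime := RingHom.ker_isPrime _
  have hne : RingHom.ker (Polynomial.eval₂RingHom φ z) ≠ ⊥ := by
    intro h
    have h1 : P ∈ RingHom.ker (Polynomial.eval₂RingHom φ z) := hP
    rw [h] at h1
    exact hP0 h1
  obtain ⟨g, hg, hgp⟩ := hI.exists_mem_prime_of_ne_bot hne
  have hg0 : g.eval₂ φ z = 0 := hg
  have hirr : Irreducible g := hgp.irreducible
  have hdeg : g.natDegree ≠ 0 := by
    intro h
    have hg1 := hg0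
    rw [Polynomial.eq_C_of_natDegree_eq_zero h, Polynomial.eval₂_C] at hg1
    have h1 : g.coeff 0 = 0 := hφ (hg1.trans (map_zero φ).symm)
    apply hgp.ne_zero
    rw [Polynomial.eq_C_of_natDegree_eq_zero h, h1, map_zero]
  have hprim : g.IsPrimitive := hirr.isPrimitive hdeg
  let K := FractionRing R
  have hirrK : Irreducible (g.map (algebraMap R K)) :=
    hprim.irreducible_iff_irreducible_map_fraction_map.1 hirr
  let φK : K →+* Ω := IsFractionRing.lift hφ
  have hφK : φK.comp (algebraMap R K) = φ := by
    ext r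
    exact IsFractionRing.lift_algebraMap hφ r
  have hev : ∀ p : Polynomial R, (p.map (algebraMap R K)).eval₂ φK z = p.eval₂ φ z := by
    intro p
    rw [Polynomial.eval₂_map, hφK]
  refine ⟨g, hirr, hg0, fun p hp => ?_⟩
  refine hprim.dvd_of_fraction_map_dvd_fraction_map (K := K) ?_
  by_contra hcon
  obtain ⟨a, b, hab⟩ := (hirrK.coprime_iff_not_dvd).2 hcon
  have h1 := congrArg (fun q => Polynomial.eval₂ φK z q) hab
  simp only [Polynomial.eval₂_add, Polynomial.eval₂_mul, hev, hp, hg0, mul_zero, add_zero,
    Polynomial.eval₂_one] at h1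
  exact zero_ne_one h1

/-- Clearing denominators. -/
private theorem rel_clear {σ : Type} (f : MvPolynomial σ ℚ) :
    ∃ (N : ℕ) (g : MvPolynomial σ ℤ), N ≠ 0 ∧ map (Int.castRingHom ℚ) g = C (N : ℚ) * f := by
  induction f using MvPolynomial.induction_on with
  | C a =>
    refine ⟨a.den, C a.num, a.den_ne_zero, ?_⟩
    rw [map_C, ← C_mul]
    congr 1
    rw [eq_intCast]
    exact (Rat.den_mul_eq_num a).symm
  | add f1 f2 h1 h2 =>
    obtain ⟨N1, g1, hN1, hg1⟩ := h1
    obtain ⟨N2, g2, hN2, hg2⟩ := h2
    refine ⟨N1 * N2, C (N2 : ℤ) * g1 + C (N1 : ℤ) * g2, mul_ne_zero hN1 hN2, ?_⟩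
    rw [map_add, map_mul, map_mul, map_C, map_C, hg1, hg2]
    simp only [eq_intCast, Int.cast_natCast, Nat.cast_mul, C_mul]
    ring
  | mul_X f1 i h1 =>
    obtain ⟨N1, g1, hN1, hg1⟩ := h1
    refine ⟨N1, g1 * X i, hN1, ?_⟩
    rw [map_mul, map_X, hg1, mul_assoc]

/-- All but one of the `z o` are algebraically independent.

Proof. `rk` is the rank of the matroid `AlgebraicIndependent.matroid ℚ E`; a basis `B` of `Set.range z` is an algebraically
independent set with `B.encard = rk = card O - 1`; choose preimages of its elements in `O`: an injective map from `B`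
to `O` whose image has `card O - 1` elements; `o1` is the missing one. -/
theorem exists_omit {O E : Type} [Fintype O] [DecidableEq O] [Field E] [CharZero E] (z : O → E)
    (h : rk ℚ (Set.range z) + 1 = Fintype.card O) :
    ∃ o1 : O, AlgebraicIndependent ℚ (fun o : {o // o ≠ o1} => z o) := by
  classical
  obtain ⟨B, hB⟩ := (AlgebraicIndependent.matroid ℚ E).exists_isBasis (Set.range z)
    (Set.subset_univ _)
  have hcard : B.encard + 1 = Fintype.card O := by
    rw [← h]
    congr 1
    exact hB.encard_eq_eRk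
  have hind : AlgebraicIndependent ℚ ((↑) : B → E) := hB.indep
  choose g hg using fun b : B => hB.subset b.2
  have hginj : Function.Injective g := by
    intro b b' hbb
    apply Subtype.ext
    rw [← hg b, ← hg b', hbb]
  have h1 : (Set.range g).encard = B.encard := by
    rw [← Set.image_univ, hginj.encard_image, Set.encard_univ]
    rfl
  have h2 : (Set.range g).encard + (Set.range g)ᶜ.encard = Fintype.card O := by
    rw [Set.encard_add_encard_compl, Set.encard_univ, ENat.card_eq_coe_fintype_card]
  have hfin : (Set.range g).encard ≠ ⊤ := (Set.toFinite (Set.range g)).encard_lt_top.ne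
  have h3 : (Set.range g)ᶜ.encard = 1 := by
    rw [← hcard, ← h1] at h2
    exact ENat.add_right_injective_of_ne_top hfin h2
  obtain ⟨o1, ho1⟩ := Set.encard_eq_one.1 h3
  refine ⟨o1, ?_⟩
  have hmem : ∀ o : {o // o ≠ o1}, ∃ b : B, g b = o := by
    intro o
    by_contra hcon
    have h4 : (o : O) ∈ (Set.range g)ᶜ := fun ⟨b, hb⟩ => hcon ⟨b, hb⟩
    rw [ho1] at h4
    exact o.2 h4
  choose f hf using hmem
  have hfinj : Function.Injective f := by
    intro o o' hoo
    apply Subtype.ext
    rw [← hf o, ← hf o', hoo]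
  have h5 : (fun o : {o // o ≠ o1} => z o) = ((↑) : B → E) ∘ f := by
    funext o
    change z o = (f o : E)
    rw [← hg (f o), hf o]
  rw [h5]
  exact hind.comp f hfinj

/-- **The irreducible relation.** It divides all integral relations.

Proof. `o1` from `exists_omit`. `I` = the kernel of `aeval z : MvPolynomial O ℤ → E` (a prime ideal, `I ≠ 0` because `z` is not
algebraically independent: the rank would be `card O`; `I` contains no nonzero constant). A nonzero element of `I` is a product of
irreducible elements (UFD), one of them, `f`, is in `I`. Let `G ∈ I`. Identify `MvPolynomial O ℤ` with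
`Polynomial (MvPolynomial {o // o ≠ o1} ℤ)` (`renameEquiv` with `Equiv.optionSubtypeNe o1` or similar, and `optionEquivLeft`), `A = MvPolynomial {o // o ≠ o1} ℤ` is a UFD
(`UniqueFactorizationMonoid`, hence a normalized GCD domain classically), embedded in `E` by `aeval z` (independence over `ℚ`, hence over `ℤ`), with
fraction field `L` (a subfield of `E`, or `FractionRing A`). `f` has positive degree in the variable `o1` (otherwise it is an
element of `A` mapped to `0`). `f` is irreducible of positive degree, so it is primitive and irreducible over `L`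
(`Polynomial.IsPrimitive.irreducible_iff_irreducible_map_fraction_map`), `f(z_(o1)) = 0`, so over `L` it is an associate of the minimal polynomial
of `z_(o1)`, which divides `G` over `L`; `Polynomial.IsPrimitive.dvd_of_fraction_map_dvd_fraction_map`-type lemma
(`IsPrimitive.dvd_iff_fraction_map_dvd_fraction_map` needs both primitive: write `G = content * primitive part`). -/
theorem irr_rel {O E : Type} [Fintype O] [DecidableEq O] [Field E] [CharZero E] (z : O → E)
    (h : rk ℚ (Set.range z) + 1 = Fintype.card O) :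
    ∃ f : MvPolynomial O ℤ, Irreducible f ∧ aeval z f = 0 ∧
      ∀ G : MvPolynomial O ℤ, aeval z G = 0 → f ∣ G := by
  classical
  obtain ⟨o1, hind⟩ := exists_omit z h
  -- an integral relation
  have hdep : ¬ AlgebraicIndependent ℚ z := by
    intro hz
    rw [rk_range_of_indep z hz] at h
    have h1 : (((Fintype.card O + 1 : ℕ)) : ℕ∞) = (Fintype.card O : ℕ) := by
      rw [← h]
      simp
    have h2 : Fintype.card O + 1 = Fintype.card O := by exact_mod_cast h1
    omega
  rw [algebraicIndependent_iff] at hdep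
  push Not at hdep
  obtain ⟨G, hG, hG0⟩ := hdep
  obtain ⟨N, G', hN, hG'⟩ := rel_clear G
  have haev : ∀ p : MvPolynomial O ℤ, aeval z (map (Int.castRingHom ℚ) p) = aeval z p := by
    intro p
    exact aeval_map_algebraMap ℚ z p
  have hG'z : aeval z G' = 0 := by
    rw [← haev, hG', map_mul, hG, mul_zero]
  have hG'0 : G' ≠ 0 := by
    rintro rfl
    rw [map_zero] at hG'
    rcases mul_eq_zero.1 hG'.symm with h1 | h1
    · rw [C_eq_zero] at h1
      exact hN (by exact_mod_cast h1)
    · exact hG0 h1
  -- the ring of the other variables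
  let φ : MvPolynomial {o // o ≠ o1} ℤ →ₐ[ℤ] E := aeval (fun o : {o // o ≠ o1} => z o)
  have hφ : Function.Injective (φ : MvPolynomial {o // o ≠ o1} ℤ →+* E) := by
    rw [injective_iff_map_eq_zero]
    intro p hp
    have h1 : aeval (fun o : {o // o ≠ o1} => z o) (map (Int.castRingHom ℚ) p) = 0 :=
      (aeval_map_algebraMap ℚ _ p).trans hp
    have h2 := (algebraicIndependent_iff.1 hind) _ h1
    exact (map_eq_zero_iff _ (map_injective (Int.castRingHom ℚ) Int.cast_injective)).1 h2
  let e : MvPolynomial O ℤ ≃ₐ[ℤ] Polynomial (MvPolynomial {o // o ≠ o1} ℤ) :=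
    (renameEquiv ℤ (Equiv.optionSubtypeNe o1).symm).trans (optionEquivLeft ℤ {o // o ≠ o1})
  have heX : ∀ o, (e (X o)).eval₂ (φ : MvPolynomial {o // o ≠ o1} ℤ →+* E) (z o1) = z o := by
    intro o
    have h1 : e (X o) = optionEquivLeft ℤ {o // o ≠ o1} (X ((Equiv.optionSubtypeNe o1).symm o)) := by
      change optionEquivLeft ℤ {o // o ≠ o1} (rename (Equiv.optionSubtypeNe o1).symm (X o)) = _
      rw [rename_X]
    rw [h1]
    by_cases ho : o = o1
    · rw [ho, Equiv.optionSubtypeNe_symm_self, optionEquivLeft_X_none, Polynomial.eval₂_X]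
    · rw [Equiv.optionSubtypeNe_symm_of_ne ho, optionEquivLeft_X_some, Polynomial.eval₂_C]
      exact aeval_X _ _
  have he : ∀ p : MvPolynomial O ℤ,
      (e p).eval₂ (φ : MvPolynomial {o // o ≠ o1} ℤ →+* E) (z o1) = aeval z p := by
    intro p
    have h1 : ((Polynomial.eval₂RingHom (φ : MvPolynomial {o // o ≠ o1} ℤ →+* E) (z o1)).comp
        (e : MvPolynomial O ℤ →+* Polynomial (MvPolynomial {o // o ≠ o1} ℤ))) =
        (aeval z : MvPolynomial O ℤ →ₐ[ℤ] E) := by
      refine MvPolynomial.ringHom_ext (fun a => ?_) fun o => ?_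
      · have h2 : (C a : MvPolynomial O ℤ) = ((a : ℤ) : MvPolynomial O ℤ) := by
          rw [← eq_intCast (C : ℤ →+* MvPolynomial O ℤ) a]
        rw [h2, map_intCast, map_intCast]
      · exact (heX o).trans (aeval_X z o).symm
    exact RingHom.congr_fun h1 p
  obtain ⟨g, hg, hg0, hgd⟩ := rel_gauss (φ : MvPolynomial {o // o ≠ o1} ℤ →+* E) hφ (z o1)
    (P := e G') (by
      rw [Ne, EmbeddingLike.map_eq_zero_iff]
      exact hG'0) (by rw [he, hG'z])
  refine ⟨e.symm g, (MulEquiv.irreducible_iff e.symm).2 hg, ?_, fun p hp => ?_⟩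
  · rw [← he, e.apply_symm_apply, hg0]
  · rw [← he] at hp
    obtain ⟨q, hq⟩ := hgd _ hp
    refine ⟨e.symm q, ?_⟩
    rw [← map_mul, ← hq, e.symm_apply_apply]

/-- An irreducible relation is not constant. (`aeval z (C a) = a ≠ 0` in characteristic `0`.) -/
theorem exists_degreeOf_pos {O E : Type} [Fintype O] [DecidableEq O] [Field E] [CharZero E]
    (z : O → E) (f : MvPolynomial O ℤ) (hf : Irreducible f) (h0 : aeval z f = 0) :
    ∃ o, 0 < f.degreeOf o := by
  by_contra hcon
  push Not at hcon
  have h1 : f.vars = ∅ := by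
    rw [Finset.eq_empty_iff_forall_notMem]
    intro o ho
    rw [mem_vars_iff_degreeOf_ne_zero] at ho
    exact ho (Nat.le_zero.1 (hcon o))
  rw [vars_eq_empty_iff_eq_C] at h1
  rw [h1, aeval_C] at h0
  have h2 : ((f.coeff 0 : ℤ) : E) = 0 := h0
  have h3 : f.coeff 0 = 0 := by exact_mod_cast h2
  rw [h3, map_zero] at h1
  exact hf.ne_zero h1

end Pool.Agent.Zilber
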