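import Pool.Agent.Zilber.DDefs
import Pool.Agent.Zilber.DAlpha
import Pool.Agent.Zilber.DEx
import Pool.Agent.Zilber.DIrr
import Pool.Agent.Zilber.DEz
import Pool.Agent.Zilber.DEnum
import Pool.Agent.Zilber.BLow
import Pool.Agent.Zilber.BLevD
import Pool.Agent.Zilber.AUKer

set_option autoImplicit false

/-! Core D, END: the contradiction from GAMMA and ALPHA. -/

namespace Pool.Agent.Zilber

open Filter NumberField Module Pool.Agent.LAll Pool.Agent.LSharp Pool.Agent.CITLines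

variable {J : Type} {𝒰 : Ultrafilter J} {K : J → Type} [∀ j, Field (K j)] [∀ j, NumberField (K j)]
  {k : ℕ} {s : Fin (k + 1) → J → ℝ} {ι β : Type} [Fintype ι]
  [Fintype β] [DecidableEq β] {cl : ι → Fin (k + 1)} {x : ι → Ult 𝒰 K} {bs : β → ι}
  {X : ι → Ult 𝒰 (PS β K)}

private theorem num_ceil {Δ sk sl : ℝ} (h1 : 1 ≤ Δ) (h2 : 1 ≤ sl) (h3 : sl ≤ sk) :
    Δ ≤ (⌈Δ * sk / sl⌉₊ : ℝ) ∧ Δ * sk ≤ ⌈Δ * sk / sl⌉₊ * sl ∧
      (⌈Δ * sk / sl⌉₊ : ℝ) * sl ≤ 2 * (Δ * sk) ∧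
      |(⌈Δ * sk / sl⌉₊ : ℝ) - Δ * sk / sl| ≤ 1 := by
  have h0 : (0 : ℝ) < sl := by linarith
  have h4 : Δ ≤ Δ * sk / sl := by
    rw [le_div_iff₀ h0]
    exact mul_le_mul_of_nonneg_left h3 (by linarith)
  have h5 : Δ * sk / sl ≤ (⌈Δ * sk / sl⌉₊ : ℝ) := Nat.le_ceil _
  have h6 : (⌈Δ * sk / sl⌉₊ : ℝ) < Δ * sk / sl + 1 := Nat.ceil_lt_add_one (by linarith)
  have h7 : Δ * sk / sl * sl = Δ * sk := div_mul_cancel₀ _ h0.ne'
  have h8 : sl ≤ Δ * sk := by nlinarith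
  refine ⟨h4.trans h5, ?_, ?_, ?_⟩
  · nlinarith
  · nlinarith
  · rw [abs_le]
    constructor <;> linarith

private theorem num_floor {t : ℝ} (h : 2 ≤ t) :
    1 ≤ ⌊t⌋₊ ∧ (⌊t⌋₊ : ℝ) ≤ t ∧ t ≤ 2 * (⌊t⌋₊ : ℝ) := by
  have h1 : t < (⌊t⌋₊ : ℝ) + 1 := Nat.lt_floor_add_one t
  have h2 : (⌊t⌋₊ : ℝ) ≤ t := Nat.floor_le (by linarith)
  refine ⟨?_, h2, by linarith⟩
  rw [Nat.one_le_floor_iff]
  linarith

private theorem card_Ob {k : ℕ} {ι β : Type} [Fintype β] [DecidableEq β] (cl : ι → Fin (k + 1))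
    (bs : β → ι) : Fintype.card (Ob cl bs) = Fintype.card β + 1 := by
  rw [Fintype.card_sum, Fintype.card_option]
  have h1 : Fintype.card (B0 cl bs) + Fintype.card (Bp cl bs) = Fintype.card β := by
    rw [← Fintype.card_sum]
    exact Fintype.card_congr (Equiv.sumCompl fun b => cl (bs b) = 0)
  omega

/-- The class sums of the natural exponents. -/
private theorem cle_nex_le {k : ℕ} {ι : Type} [Fintype ι] (cl : ι → Fin (k + 1)) (a : ι → ℤ)
    (l : Fin (k + 1)) (T : ℝ) (hT : 0 ≤ T) (h : ∀ i, cl i = l → |(a i : ℝ)| ≤ T) :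
    (cle (fun s : ι × Bool => cl s.1) (nex a) l : ℝ) ≤ 2 * Fintype.card ι * T := by
  unfold cle
  rw [Nat.cast_sum]
  have h1 : ∀ s : ι × Bool, ((if cl s.1 = l then nex a s else 0 : ℕ) : ℝ) ≤ T := by
    intro s
    split_ifs with h2
    · exact (nex_le a s).trans (h s.1 h2)
    · simpa using hT
  refine (Finset.sum_le_card_nsmul _ _ T fun s _ => h1 s).trans (le_of_eq ?_)
  rw [Finset.card_univ, Fintype.card_prod, Fintype.card_bool, nsmul_eq_mul]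
  push_cast
  ring

/-- The constant coefficient of a monomial. -/
private theorem cc_mon {ι β F : Type} [Fintype ι] [Field F] (f f' : ι → MvPowerSeries β F)
    (hff : ∀ i, f i * f' i = 1) (a : ι → ℤ) :
    MvPowerSeries.constantCoeff (∏ s : ι × Bool, (if s.2 then f s.1 else f' s.1) ^ nex a s) =
      ∏ i, (MvPowerSeries.constantCoeff (f i)) ^ a i := by
  rw [Fintype.prod_prod_type, map_prod]
  refine Finset.prod_congr rfl fun i _ => ?_
  have h1 : MvPowerSeries.constantCoeff (f i) * MvPowerSeries.constantCoeff (f' i) = 1 := by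
    rw [← map_mul, hff, map_one]
  have h0 : MvPowerSeries.constantCoeff (f i) ≠ 0 := left_ne_zero_of_mul_eq_one h1
  have h2 : MvPowerSeries.constantCoeff (f' i) = (MvPowerSeries.constantCoeff (f i))⁻¹ :=
    eq_inv_of_mul_eq_one_right h1
  rw [Fintype.prod_bool, map_mul, map_pow, map_pow]
  simp only [if_true, Bool.false_eq_true, if_false]
  rw [h2]
  rw [← nex_sub a i, zpow_sub₀ h0, zpow_natCast, zpow_natCast, inv_pow, div_eq_mul_inv]

private theorem coeff_le_L1' {O : Type} (G : MvPolynomial O ℤ) (d : O →₀ ℕ) :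
    |((G.coeff d : ℤ) : ℝ)| ≤ L1 G := by
  have h0 : ∀ e : O →₀ ℕ, (0 : ℝ) ≤ |((G.coeff e : ℤ) : ℝ)| := fun _ => abs_nonneg _
  by_cases h : d ∈ G.support
  · exact Finset.single_le_sum (f := fun e => |((G.coeff e : ℤ) : ℝ)|) (fun e _ => h0 e) h
  · rw [MvPolynomial.notMem_support_iff.mp h, Int.cast_zero, abs_zero]
    exact Finset.sum_nonneg fun e _ => h0 e

private theorem num_pow (m D : ℕ) :
    (((2 * m * D + 1) ^ m : ℕ) : ℝ) ≤ Real.exp (2 * (m : ℝ) ^ 2 * D) := by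
  have h1 : ((2 * m * D : ℝ)) + 1 ≤ Real.exp (2 * m * D) := Real.add_one_le_exp _
  push_cast
  calc ((2 * m * D + 1 : ℝ)) ^ m ≤ (Real.exp (2 * m * D)) ^ m :=
        pow_le_pow_left₀ (by positivity) h1 m
    _ = Real.exp (2 * (m : ℝ) ^ 2 * D) := by
        rw [← Real.exp_nat_mul]
        congr 1
        ring

private theorem cz_fr {β F : Type} [Field F] [CharZero F] :
    CharZero (FractionRing (MvPowerSeries β F)) := by
  have : CharZero (MvPowerSeries β F) :=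
    charZero_of_injective_ringHom (MvPowerSeries.C_injective (σ := β) (R := F))
  exact charZero_of_injective_algebraMap
    (IsFractionRing.injective (MvPowerSeries β F) (FractionRing (MvPowerSeries β F)))

private theorem rk_alg {E : Type} [Field E] [CharZero E] (A : Algebra ℚ E) (z : Set E) :
    @rk ℚ E _ _ A z = @rk ℚ E _ _ DivisionRing.toRatAlgebra z := by
  rw [Subsingleton.elim A DivisionRing.toRatAlgebra]

private theorem aeval_alg {E O : Type} [Field E] (A : Algebra ℤ E) (z : O → E)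
    (G : MvPolynomial O ℤ) :
    (@MvPolynomial.aeval ℤ E O _ _ A z) G =
      (@MvPolynomial.aeval ℤ E O _ _ (Ring.toIntAlgebra E) z) G := by
  rw [Subsingleton.elim A (Ring.toIntAlgebra E)]

private theorem irr_rel' {β F O : Type} [Field F] [CharZero F] [Fintype O] [DecidableEq O]
    (z : O → FractionRing (MvPowerSeries β F))
    (h : rk ℚ (Set.range z) + 1 = Fintype.card O) :
    ∃ f : MvPolynomial O ℤ, Irreducible f ∧ MvPolynomial.aeval z f = 0 ∧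
      (∀ G : MvPolynomial O ℤ, MvPolynomial.aeval z G = 0 → f ∣ G) ∧ ∃ o, 0 < f.degreeOf o := by
  have : CharZero (FractionRing (MvPowerSeries β F)) := cz_fr
  rw [rk_alg] at h
  obtain ⟨f, h1, h2, h3⟩ := irr_rel z h
  obtain ⟨o, ho⟩ := exists_degreeOf_pos z f h1 h2
  refine ⟨f, h1, ?_, fun G hG => h3 G ?_, o, ho⟩
  · rw [aeval_alg]
    exact h2
  · rw [aeval_alg] at hG
    exact hG

/-- The data at one level. -/
private def LevD (s : Fin (k + 1) → J → ℝ) (cl : ι → Fin (k + 1)) (bs : β → ι)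
    (X : ι → Ult 𝒰 (PS β K)) (R : Ob cl bs → ι → ℝ) (C1 κ c Δ : ℝ) (j : J) (D : ℕ) : Prop :=
  1 ≤ D ∧ ∃ (a : Ob cl bs → ι → ℤ) (f G : MvPolynomial (Ob cl bs) ℤ)
    (h g : MvPolynomial (Ob cl bs) ℝ),
    (∀ o i, |(a o i : ℝ) - Δ * s (Fin.last k) j / s (cl i) j * R o i| ≤ C1) ∧
    MvPolynomial.aeval (fun o => mon (fr fun i => (X i).rep j) (a o)) f = 0 ∧
    MvPolynomial.aeval (fun o => mon (fr fun i => (X i).rep j) (a o)) G ≠ 0 ∧
    (∀ o, G.degreeOf o ≤ 2 * Fintype.card (Ob cl bs) * D) ∧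
    (∀ o, g.degreeOf o ≤ 2 * Fintype.card (Ob cl bs) * D) ∧
    MvPolynomial.map (Int.castRingHom ℝ) G = MvPolynomial.map (Int.castRingHom ℝ) f * h + g ∧
    L1 G ≤ Real.exp (κ * ⌈Δ * s (Fin.last k) j / s 0 j⌉₊ * D) ∧
    L1R g ≤ Real.exp (-(c * (κ * ⌈Δ * s (Fin.last k) j / s 0 j⌉₊) * D))

private theorem lev_data (hs : Scl 𝒰 s) {q : ι → β → ℚ} {R : Ob cl bs → ι → ℝ}
    {C1 Rm κ c Δ Λ0 : ℝ} {n0 : ℕ} (hκ : 0 < κ)
    (hex : ∀ ν : Fin (k + 1) → ℝ, ∃ a : Ob cl bs → ι → ℤ,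
      (∀ o i, |(a o i : ℝ) - ν (cl i) * R o i| ≤ C1) ∧
      ∀ (o : Option (B0 cl bs)) (b : Bp cl bs), ∑ i, (a (Sum.inl o) i : ℚ) * q i b = 0)
    (hRm : ∀ o i, |R o i| ≤ Rm)
    (hG : Gam 𝒰 s cl bs X q R (C1 + Rm) κ n0)
    (hal : ∀ (f : MvPolynomial (Ob cl bs) ℤ) (D : ℕ) (Λ : ℝ), 1 ≤ D →
      (∀ o, f.degreeOf o ≤ D) → Λ0 ≤ Λ →
      Λ * D ≤ Real.log (L1 f) →
      ∃ (G : MvPolynomial (Ob cl bs) ℤ) (h g : MvPolynomial (Ob cl bs) ℝ),
        (∀ o, G.degreeOf o ≤ 2 * Fintype.card (Ob cl bs) * D) ∧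
        (∀ o, g.degreeOf o ≤ 2 * Fintype.card (Ob cl bs) * D) ∧ ¬ f ∣ G ∧
        MvPolynomial.map (Int.castRingHom ℝ) G =
          MvPolynomial.map (Int.castRingHom ℝ) f * h + g ∧
        L1 G ≤ Real.exp (Λ * D) ∧ L1R g ≤ Real.exp (-(c * Λ * D)))
    (h1 : 1 ≤ Δ) (hn0 : (n0 : ℝ) ≤ Δ) (hΛ : Λ0 / κ ≤ Δ) :
    ∀ᶠ j in (𝒰 : Filter J), ∃ D : ℕ, LevD s cl bs X R C1 κ c Δ j D := by
  classical
  have hle : ∀ᶠ j in (𝒰 : Filter J), ∀ l, s l j ≤ s (Fin.last k) j :=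
    Filter.eventually_all.2 fun l => scl_le s hs l _ (Fin.le_last l)
  unfold Gam at hG
  filter_upwards [hle, hG] with j hj hGj
  have hc := fun l => num_ceil h1 (hs.one l j) (hj l)
  obtain ⟨a, ha, hao⟩ := hex (fun l => Δ * s (Fin.last k) j / s l j)
  have hs0 : s 0 j = 1 := hs.zero j
  have h0 : Δ * s (Fin.last k) j ≤ (⌈Δ * s (Fin.last k) j / s 0 j⌉₊ : ℝ) :=
    calc _ ≤ _ := (hc 0).2.1
      _ = _ := by rw [hs0, mul_one]
  have hsk : (1 : ℝ) ≤ s (Fin.last k) j := hs.one _ j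
  obtain ⟨hrk, hlow⟩ := hGj (fun l => ⌈Δ * s (Fin.last k) j / s l j⌉₊)
    (fun l => by
      have h2 := (hc l).1
      exact_mod_cast hn0.trans h2)
    (fun l => by
      have h2 := (hc l).2.2.1
      linarith) a
    ⟨fun o i => by
      have h3 := ha o i
      have h4 := (hc (cl i)).2.2.2
      have h5 : (a o i : ℝ) - (⌈Δ * s (Fin.last k) j / s (cl i) j⌉₊ : ℝ) * R o i =
          ((a o i : ℝ) - Δ * s (Fin.last k) j / s (cl i) j * R o i) -
          ((⌈Δ * s (Fin.last k) j / s (cl i) j⌉₊ : ℝ) - Δ * s (Fin.last k) j / s (cl i) j) *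
            R o i := by ring
      rw [h5]
      refine (abs_sub _ _).trans (add_le_add h3 ?_)
      rw [abs_mul]
      calc _ ≤ 1 * |R o i| := mul_le_mul_of_nonneg_right h4 (abs_nonneg _)
        _ ≤ Rm := by
          rw [one_mul]
          exact hRm o i, hao⟩
  have hcard : rk ℚ (Set.range fun o => mon (fr fun i => (X i).rep j) (a o)) + 1 =
      Fintype.card (Ob cl bs) := by
    rw [hrk, card_Ob, Nat.cast_add, Nat.cast_one]
  obtain ⟨f, hf, hf0, hfd, o1, ho1⟩ :=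
    irr_rel' (fun o => mon (fr fun i => (X i).rep j) (a o)) hcard
  obtain ⟨o2, _, ho2⟩ := Finset.exists_max_image Finset.univ (fun o => f.degreeOf o)
    ⟨o1, Finset.mem_univ o1⟩
  have hD1 : 1 ≤ f.degreeOf o2 := ho1.trans_le (ho2 o1 (Finset.mem_univ _))
  have hL := hlow f hf hf0 o2
  obtain ⟨G, h, g, g1, g2, g3, g4, g5, g6⟩ := hal f (f.degreeOf o2)
    (κ * (⌈Δ * s (Fin.last k) j / s 0 j⌉₊ : ℝ)) hD1 (fun o => ho2 o (Finset.mem_univ _)) (by
      rw [div_le_iff₀ hκ] at hΛ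
      have h6 : Δ ≤ Δ * s (Fin.last k) j := by nlinarith
      have h7 : Δ * κ ≤ (⌈Δ * s (Fin.last k) j / s 0 j⌉₊ : ℝ) * κ :=
        mul_le_mul_of_nonneg_right (h6.trans h0) hκ.le
      linarith) hL
  exact ⟨f.degreeOf o2, hD1, a, f, G, h, g, ha, hf0, fun h6 => g3 (hfd G h6), g1, g2, g4, g5, g6⟩

private abbrev caD (cl : ι → Fin (k + 1)) : ι × Bool → Fin (k + 1) := fun s => cl s.1

private abbrev bsD (bs : β → ι) : β → ι × Bool := fun b => (bs b, true)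

private noncomputable def yD (x : ι → Ult 𝒰 K) (s : ι × Bool) : Ult 𝒰 K :=
  if s.2 then x s.1 else (x s.1)⁻¹

/-- The branch with the coordinates and their inverses. -/
private theorem branch_D (hc : Conf 𝒰 K s (FD 𝒰 K s) cl x bs)
    (hX : Br 𝒰 K (FD 𝒰 K s) cl x bs X) :
    ∃ (Db : ℕ) (f' : ∀ j, ι → MvPowerSeries β (K j)), ∀ᶠ j in (𝒰 : Filter J),
      (∀ i, (X i).rep j * f' j i = 1) ∧
      (∀ i, MvPowerSeries.constantCoeff ((X i).rep j) = (x i).rep j) ∧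
      ∃ br : BrL (caD cl) (bsD bs) Db (K j),
        (∀ s, br.F s = if s.2 then (X s.1).rep j else f' j s.1) ∧
        (∀ l, br.h l = max 1 (s l j)) ∧ ∀ l, br.κ l = max 1 (s l j) := by
  classical
  obtain ⟨L, τ, hT, hXτ⟩ := hX.taus
  have hy : ∀ a : ι × Bool, yD x a ∈ L (caD cl a) := by
    rintro ⟨i, b⟩
    cases b
    · exact inv_mem (hT.mem i)
    · exact hT.mem i
  have hy0 : ∀ a : ι × Bool, yD x a ≠ 0 := by
    rintro ⟨i, b⟩
    cases b
    · exact inv_ne_zero (hc.ne i)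
    · exact hc.ne i
  have hyh : ∀ a : ι × Bool, yD x a ∈ Lf 𝒰 K (s (caD cl a)) := by
    rintro ⟨i, b⟩
    cases b
    · exact inv_mem (hc.hgt i)
    · exact hc.hgt i
  obtain ⟨Db, hDb⟩ := level_D s hc L τ hT (caD cl) (bsD bs) (yD x) hy hy0 hyh
    (fun b => ⟨rfl, rfl⟩)
  have hXi : ∀ i, X i = τ (cl i) ⟨x i, hT.mem i⟩ := fun i => hXτ i _ rfl
  refine ⟨Db, fun j i => (τ (cl i) ⟨(x i)⁻¹, inv_mem (hT.mem i)⟩).rep j, ?_⟩
  filter_upwards [hDb, inv_branch hc.ne L τ hT] with j h1 h2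
  obtain ⟨br, hF, hh, hk⟩ := h1
  refine ⟨fun i => ?_, fun i => ?_, br, ?_, hh, hk⟩
  · rw [hXi i]
    exact (h2 i).1
  · rw [hXi i]
    exact (h2 i).2
  · rintro ⟨i, b⟩
    rw [hF]
    cases b
    · rfl
    · rw [if_pos rfl, hXi i]
      rfl

/-- The numbers `n'` at one level. -/
private theorem num_lev {Δ η D sk sl : ℝ} (h1 : 1 ≤ Δ) (hη : 0 < η) (hΔ : 2 / η ≤ Δ)
    (hD : 1 ≤ D) (h2 : 1 ≤ sl) (h3 : sl ≤ sk) :
    1 ≤ ⌊η * (D * ⌈Δ * sk / sl⌉₊)⌋₊ ∧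
      (⌊η * (D * ⌈Δ * sk / sl⌉₊)⌋₊ : ℝ) ≤ η * (D * ⌈Δ * sk / sl⌉₊) ∧
      η * (D * ⌈Δ * sk / sl⌉₊) ≤ 2 * (⌊η * (D * ⌈Δ * sk / sl⌉₊)⌋₊ : ℝ) ∧
      (⌊η * (D * ⌈Δ * sk / sl⌉₊)⌋₊ : ℝ) * sl ≤ 2 * (η * (D * (Δ * sk))) ∧
      η * (D * (Δ * sk)) ≤ 2 * (⌊η * (D * ⌈Δ * sk / sl⌉₊)⌋₊ * sl) := by
  obtain ⟨c1, c2, c3, -⟩ := num_ceil h1 h2 h3
  have hn : (0 : ℝ) ≤ ⌈Δ * sk / sl⌉₊ := Nat.cast_nonneg _
  have h4 : 2 ≤ η * (D * ⌈Δ * sk / sl⌉₊) := by
    rw [div_le_iff₀ hη] at hΔ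
    have h5 : Δ ≤ D * ⌈Δ * sk / sl⌉₊ := by nlinarith
    nlinarith
  obtain ⟨f1, f2, f3⟩ := num_floor h4
  refine ⟨f1, f2, f3, ?_, ?_⟩
  · calc (⌊η * (D * ⌈Δ * sk / sl⌉₊)⌋₊ : ℝ) * sl ≤ η * (D * ⌈Δ * sk / sl⌉₊) * sl :=
          mul_le_mul_of_nonneg_right f2 (by linarith)
      _ = η * D * (⌈Δ * sk / sl⌉₊ * sl) := by ring
      _ ≤ η * D * (2 * (Δ * sk)) := mul_le_mul_of_nonneg_left c3 (by positivity)
      _ = _ := by ring
  · calc η * (D * (Δ * sk)) = η * D * (Δ * sk) := by ring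
      _ ≤ η * D * (⌈Δ * sk / sl⌉₊ * sl) := mul_le_mul_of_nonneg_left c2 (by positivity)
      _ = η * (D * ⌈Δ * sk / sl⌉₊) * sl := by ring
      _ ≤ 2 * (⌊η * (D * ⌈Δ * sk / sl⌉₊)⌋₊ : ℝ) * sl :=
          mul_le_mul_of_nonneg_right f3 (by linarith)
      _ = _ := by ring

private theorem low_hyps (hs : Scl 𝒰 s) {Δ η : ℝ} (h1 : 1 ≤ Δ) (hη : 0 < η) (hΔ : 2 / η ≤ Δ)
    (Dj : J → ℕ) (hD1 : ∀ᶠ j in (𝒰 : Filter J), 1 ≤ Dj j) :
    (∀ᶠ j in (𝒰 : Filter J), ∀ a, 1 ≤ ⌊η * (Dj j * ⌈Δ * s (Fin.last k) j / s a j⌉₊)⌋₊) ∧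
    (∀ᶠ j in (𝒰 : Filter J), 0 ≤ (Dj j : ℝ) * (Δ * s (Fin.last k) j)) ∧
    (∀ a a', a ≠ a' → Tendsto (fun j =>
        (⌊η * (Dj j * ⌈Δ * s (Fin.last k) j / s a j⌉₊)⌋₊ : ℝ) /
        ⌊η * (Dj j * ⌈Δ * s (Fin.last k) j / s a' j⌉₊)⌋₊) (𝒰 : Filter J) (nhds 0) ∨
      Tendsto (fun j =>
        (⌊η * (Dj j * ⌈Δ * s (Fin.last k) j / s a' j⌉₊)⌋₊ : ℝ) /
        ⌊η * (Dj j * ⌈Δ * s (Fin.last k) j / s a j⌉₊)⌋₊) (𝒰 : Filter J) (nhds 0)) ∧
    (∀ a, ∃ C : ℝ, ∀ᶠ j in (𝒰 : Filter J), (Dj j : ℝ) * (Δ * s (Fin.last k) j) ≤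
      C * (⌊η * (Dj j * ⌈Δ * s (Fin.last k) j / s a j⌉₊)⌋₊ * max 1 (s a j))) := by
  classical
  have hle : ∀ᶠ j in (𝒰 : Filter J), ∀ l, s l j ≤ s (Fin.last k) j :=
    Filter.eventually_all.2 fun l => scl_le s hs l _ (Fin.le_last l)
  have key : ∀ a a' : Fin (k + 1), a < a' → Tendsto (fun j =>
        (⌊η * (Dj j * ⌈Δ * s (Fin.last k) j / s a' j⌉₊)⌋₊ : ℝ) /
        ⌊η * (Dj j * ⌈Δ * s (Fin.last k) j / s a j⌉₊)⌋₊) (𝒰 : Filter J) (nhds 0) := by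
    intro a a' haa
    have h2 := (hs.sep a a' haa).const_mul 4
    rw [mul_zero] at h2
    refine squeeze_zero' (Filter.Eventually.of_forall fun j => by positivity) ?_ h2
    filter_upwards [hle, hD1] with j hj hDj
    have hDr : (1 : ℝ) ≤ Dj j := by exact_mod_cast hDj
    obtain ⟨a1, -, -, -, a5⟩ := num_lev h1 hη hΔ hDr (hs.one a j) (hj a)
    obtain ⟨-, -, -, b4, -⟩ := num_lev h1 hη hΔ hDr (hs.one a' j) (hj a')
    have hp : (0 : ℝ) < ⌊η * (Dj j * ⌈Δ * s (Fin.last k) j / s a j⌉₊)⌋₊ := by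
      exact_mod_cast a1
    have hs' : (0 : ℝ) < s a' j := by linarith [hs.one a' j]
    rw [← mul_div_assoc, div_le_div_iff₀ hp hs']
    nlinarith
  refine ⟨?_, ?_, fun a a' haa => ?_, fun a => ⟨2 / η, ?_⟩⟩
  · filter_upwards [hle, hD1] with j hj hDj a
    exact (num_lev h1 hη hΔ (by exact_mod_cast hDj) (hs.one a j) (hj a)).1
  · filter_upwards with j
    have h3 := hs.one (Fin.last k) j
    positivity
  · rcases lt_or_gt_of_ne haa with h | h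
    · exact Or.inr (key a a' h)
    · exact Or.inl (key a' a h)
  · filter_upwards [hle, hD1] with j hj hDj
    have hDr : (1 : ℝ) ≤ Dj j := by exact_mod_cast hDj
    obtain ⟨-, -, -, -, a5⟩ := num_lev h1 hη hΔ hDr (hs.one a j) (hj a)
    rw [max_eq_right (hs.one a j), div_mul_eq_mul_div, le_div_iff₀ hη]
    linarith

private theorem cle_sum {M A O : Type} [Fintype A] [DecidableEq M] [Fintype O] (ca : A → M)
    (x : O → ℕ) (e : O → A → ℕ) (l : M) :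
    cle ca (fun s => ∑ o, x o * e o s) l = ∑ o, x o * cle ca (e o) l := by
  unfold cle
  have h : ∀ s, (if ca s = l then ∑ o, x o * e o s else 0) =
      ∑ o, x o * (if ca s = l then e o s else 0) := by
    intro s
    split_ifs
    · rfl
    · simp
  simp only [h]
  rw [Finset.sum_comm]
  exact Finset.sum_congr rfl fun o _ => (Finset.mul_sum _ _ _).symm

private theorem le_of_wt {β : Type} [Fintype β] (n : β → ℕ) (i : β →₀ ℕ) (hn : ∀ b, 1 ≤ n b)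
    (h : Pool.Agent.LSharp.wt n i < 1) (b : β) : (i b : ℝ) ≤ n b := by
  have h1 : (i b : ℝ) / n b ≤ Pool.Agent.LSharp.wt n i :=
    Finset.single_le_sum (f := fun b => (i b : ℝ) / n b) (fun b _ => by positivity)
      (Finset.mem_univ b)
  have h2 : (0 : ℝ) < n b := by exact_mod_cast hn b
  have h3 := h1.trans h.le
  rwa [div_le_one h2] at h3

/-- **END.**

Proof. `m = card (Ob cl bs) = card β + 1`.
(1) `Br.taus` : `L`, `τ`, `hT`, `X i = τ (cl i) ⟨x i, _⟩`. Coordinates `A = ι × Bool`, `ca s = cl s.1`, `y (i, true) = x i`, `y (i, false) = (x i)⁻¹`,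
`bs' b = (bs b, true)`; `level_D` (BLevD) gives `Db` and `br` at most levels; `inv_branch` (DEz): the series of `x i`, `(x i)⁻¹` are inverse.
(2) `exists_expo` (DEx) with the fields of `hD`: `C1`. (3) `ht_of_ker` (AUKer) for every `R o` (`hD.ker`) and `C1`: `C0` (maximum over `o`).
(4) `Rm` a bound of all `|R o i|`, `C = C1 + Rm`; `hG C` gives `κ`, `n0m`. (5) `alpha (Ob cl bs)` : `Λ0`, `c`. `end_level` (DEnum) with
`C2 = 2 card ι (Rm + C)` : `η`, `Δ1`. Put `η' = min η (1/2)` and `Δ` = maximum of `Δ1`, `2 / η'`, `n0m`, `Λ0 / κ`, `1`.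
(6) `n l j = ⌈Δ s_k j / s_l j⌉₊` (`s_k = s (Fin.last k)`). For most `j` (`scl_le`): `Δ s_k ≤ n_l s_l ≤ 2 Δ s_k`, `n_l ≥ Δ`, and `n_0 ≥ Δ s_k` as `s_0 = 1`, so
`n_l s_l ≤ 2 n_0`, `n_0 ≤ 2 Δ s_k`.
(7) For most `j` : `a` = the vectors of `exists_expo` for `ν_l = Δ s_k / s_l`; `|a - n R| ≤ C1 + |n - ν| |R| ≤ C`, so `Expo .. C n a`, and `Gam` gives
`rk (range z) = card β` and the lower bound. `irr_rel` (DIrr) for `z o = mon (fr ..) (a o)` gives `f`, irreducible, dividing all relations;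
`D = ` maximum of the `degreeOf o f`, `≥ 1` (`exists_degreeOf_pos`). `alpha` with `Λ = κ n_0` (`≥ κ Δ ≥ Λ0`; `Λ D ≤ log L1 f` by the lower bound for an `o`
with `degreeOf o f = D`): `G`, `h`, `g`. Choose all this as functions of `j` (`Classical.choice`, or `Filter.Eventually.choice`; the values at the other levels do not matter).
(8) `low_coeff` (BLow) with `rr = s`, `M0 j = D_j Δ s_k`, `n' j l = ⌊η' (D_j n_l)⌋₊`, and `C₁` = maximum of `2 κ`, `2 m²`, `4 m² C2 / η'`. `η' D n_l ≥ 1`, so `n'_l ≥ 1` and `n'_l ≥ η' D n_l / 2`. `n'_l max 1 s_l ≤ η' D n_l s_l ≤ M0 ≤ Db M0`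
(`Db ≥ 1` from `Pi_deg`); `M0 ≤ D n_l s_l ≤ (2 / η') n'_l s_l` ; `n'_l / n'_l' ≤ 2 n_l / n_l' ≤ 4 s_l' / s_l → 0` for `l' < l`. `|G.coeff| ≤ L1 G ≤ exp (κ n_0 D) ≤ exp (2 κ M0)`; the box
`∀ o, Fin (2 m D + 1)` has `≤ exp (2 m² D) ≤ exp (2 m² M0)` elements; the class sums of the exponents `∑_o x_o nex (a o)` are
`≤ 2 m D * m * (card ι) (Rm n_l + C) ≤ C₁ n'_l`. (`C2`: `cle ca (nex (a o)) l ≤ ∑_(i in l) |a o i| ≤ card ι (Rm n_l + C) ≤ C2 n_l`, `nex_le`, one of the two exponents of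
`(i, true)`, `(i, false)` is `0`.)
(9) At a good level: with `f i = br.F (i, true)`, `f' i = br.F (i, false)`: `aeval_mon_eq` (DEz) shows that the power series value of `f` is `0` and that of
`G` is not (`¬ f ∣ G`; `algebraMap` to the fraction ring is injective). `eval_box` (DEval) writes it as the sum in `low_coeff`: there is `nn` with a nonzero
coefficient and weight `< 1`, so `nn b ≤ n'_l ≤ η (D n_l)`. `end_level` gives the contradiction (`ht (z_o(P)) ≤ C0 s_k` from (3): the constant coefficient of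
`∏ F_s ^ nex` is `∏ (x i).rep j ^ (a i)`). -/
theorem d_end (hc : Conf 𝒰 K s (FD 𝒰 K s) cl x bs) (hX : Br 𝒰 K (FD 𝒰 K s) cl x bs X)
    (σ : ∀ j, K j →+* ℂ) {g : β → ι} {q : ι → β → ℚ} {R : Ob cl bs → ι → ℝ}
    (hD : DLin 𝒰 K s cl x bs X σ g q R)
    (hG : ∀ C : ℝ, ∃ (κ : ℝ) (n0 : ℕ), 0 < κ ∧ Gam 𝒰 s cl bs X q R C κ n0) : False := by
  classical
  have hs := hc.scl
  obtain ⟨Db, f', hDb⟩ := branch_D hc hX
  obtain ⟨C1, hC1, hex⟩ := exists_expo cl bs g q R hD.cg hD.cq hD.qg hD.van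
  have hk := fun o => ht_of_ker s hs cl x hc.ne hc.hgt (R o) (hD.ker o) C1 hC1
  choose C0f hC0f hk using hk
  -- the constants
  obtain ⟨Rm, hRm0, hRm⟩ : ∃ Rm : ℝ, 0 ≤ Rm ∧ ∀ o i, |R o i| ≤ Rm :=
    ⟨∑ o, ∑ i, |R o i|, Finset.sum_nonneg fun _ _ => Finset.sum_nonneg fun _ _ => abs_nonneg _,
      fun o i => (Finset.single_le_sum (f := fun i => |R o i|) (fun _ _ => abs_nonneg _)
        (Finset.mem_univ i)).trans (Finset.single_le_sum (f := fun o => ∑ i, |R o i|)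
        (fun _ _ => Finset.sum_nonneg fun _ _ => abs_nonneg _) (Finset.mem_univ o))⟩
  obtain ⟨κ, n0, hκ, hGam⟩ := hG (C1 + Rm)
  obtain ⟨Λ0, c, hc0, hal⟩ := alpha (Ob cl bs)
  obtain ⟨C0, hC00, hC0⟩ : ∃ C0 : ℝ, 0 ≤ C0 ∧ ∀ o, C0f o ≤ C0 :=
    ⟨∑ o, C0f o, Finset.sum_nonneg fun o _ => (hC0f o).le,
      fun o => Finset.single_le_sum (f := C0f) (fun o _ => (hC0f o).le) (Finset.mem_univ o)⟩
  obtain ⟨C2, hC2e⟩ : ∃ C2 : ℝ, C2 = 2 * Fintype.card ι * (Rm + (C1 + Rm)) := ⟨_, rfl⟩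
  have hC2 : 0 ≤ C2 := by
    rw [hC2e]
    positivity
  obtain ⟨η0, hη0, Δ1, hΔ1, hend⟩ := end_level (Fin (k + 1)) (Ob cl bs) (ι × Bool) β (caD cl)
    (bsD bs) Db C0 C2 κ c hC00 hC2 hκ hc0
  obtain ⟨η, hη, hη1, hη2⟩ : ∃ η : ℝ, 0 < η ∧ η ≤ η0 ∧ η ≤ 1 / 2 :=
    ⟨min η0 (1 / 2), lt_min hη0 (by norm_num), min_le_left _ _, min_le_right _ _⟩
  obtain ⟨Δ, hΔ2, hΔ3, hΔ4, hΔ5, h1⟩ : ∃ Δ : ℝ, Δ1 ≤ Δ ∧ 2 / η ≤ Δ ∧ (n0 : ℝ) ≤ Δ ∧
      Λ0 / κ ≤ Δ ∧ 1 ≤ Δ :=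
    ⟨max Δ1 (max (2 / η) (max n0 (max (Λ0 / κ) 1))), by simp, by simp, by simp, by simp,
      by simp⟩
  have hlev := lev_data (X := X) hs hκ hex hRm hGam hal h1 hΔ4 hΔ5
  obtain ⟨Dj, hDj⟩ : ∃ Dj : J → ℕ, ∀ᶠ j in (𝒰 : Filter J),
      LevD s cl bs X R C1 κ c Δ j (Dj j) := by
    refine ⟨fun j => if h : ∃ D, LevD s cl bs X R C1 κ c Δ j D then h.choose else 1, ?_⟩
    filter_upwards [hlev] with j hj
    rw [dif_pos hj]
    exact hj.choose_spec
  obtain ⟨l1, l2, l3, l4⟩ := low_hyps hs h1 hη hΔ3 Dj (hDj.mono fun j h => h.1)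
  obtain ⟨m, hm⟩ : ∃ m : ℕ, m = Fintype.card (Ob cl bs) := ⟨_, rfl⟩
  have hlow := low_coeff (caD cl) (bsD bs) (yD x) s (fun a => hc.ind a) Db
    (2 * κ + 2 * (m : ℝ) ^ 2 + 4 * (m : ℝ) ^ 2 * C2 / η) (by positivity)
    (fun j l => ⌊η * (Dj j * ⌈Δ * s (Fin.last k) j / s l j⌉₊)⌋₊)
    (fun j => (Dj j : ℝ) * (Δ * s (Fin.last k) j)) l1 l2 l3 l4
  have hle : ∀ᶠ j in (𝒰 : Filter J), ∀ l, s l j ≤ s (Fin.last k) j :=
    Filter.eventually_all.2 fun l => scl_le s hs l _ (Fin.le_last l)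
  have hkk : ∀ᶠ j in (𝒰 : Filter J), ∀ (o : Ob cl bs) (a : ι → ℤ),
      (∀ i, |(a i : ℝ) - Δ * s (Fin.last k) j / s (cl i) j * R o i| ≤ C1) →
      ht (∏ i, (x i).rep j ^ a i) ≤ C0 * s (Fin.last k) j := by
    rw [Filter.eventually_all]
    intro o
    filter_upwards [hk o Δ h1] with j hj a ha
    refine (hj a ha).trans (mul_le_mul_of_nonneg_right (hC0 o) ?_)
    linarith [hs.one (Fin.last k) j]
  have hfalse : ∀ᶠ j in (𝒰 : Filter J), False := by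
    filter_upwards [hDb, hDj, hlow, hle, hkk] with j hb hL hlo hj hkj
    obtain ⟨hff, hf0, br, hF, hh, hκb⟩ := hb
    obtain ⟨hD1, a, f, G, h, gg, ha, hfz, hGz, hGd, hgd, hmap, hG1, hg1⟩ := hL
    have hDr : (1 : ℝ) ≤ Dj j := by exact_mod_cast hD1
    have hsk : (1 : ℝ) ≤ s (Fin.last k) j := hs.one _ j
    have hs0 : s 0 j = 1 := hs.zero j
    have hn := fun l => num_ceil h1 (hs.one l j) (hj l)
    have hn' := fun l => num_lev h1 hη hΔ3 hDr (hs.one l j) (hj l)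
    have hn0 : Δ * s (Fin.last k) j ≤ (⌈Δ * s (Fin.last k) j / s 0 j⌉₊ : ℝ) :=
      calc _ ≤ _ := (hn 0).2.1
        _ = _ := by rw [hs0, mul_one]
    have hn0' : (⌈Δ * s (Fin.last k) j / s 0 j⌉₊ : ℝ) ≤ 2 * (Δ * s (Fin.last k) j) :=
      calc _ = (⌈Δ * s (Fin.last k) j / s 0 j⌉₊ : ℝ) * s 0 j := by rw [hs0, mul_one]
        _ ≤ _ := (hn 0).2.2.1
    have hab : ∀ o i, |(a o i : ℝ)| ≤
        (Rm + (C1 + Rm)) * ⌈Δ * s (Fin.last k) j / s (cl i) j⌉₊ := by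
      intro o i
      have b1 := ha o i
      have b2 : Δ * s (Fin.last k) j / s (cl i) j ≤
        (⌈Δ * s (Fin.last k) j / s (cl i) j⌉₊ : ℝ) := Nat.le_ceil _
      have b3 : 0 ≤ Δ * s (Fin.last k) j / s (cl i) j := by
        have := hs.one (cl i) j
        positivity
      have b4 : (1 : ℝ) ≤ ⌈Δ * s (Fin.last k) j / s (cl i) j⌉₊ := h1.trans (hn (cl i)).1
      have b5 : (a o i : ℝ) = ((a o i : ℝ) - Δ * s (Fin.last k) j / s (cl i) j * R o i) +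
        Δ * s (Fin.last k) j / s (cl i) j * R o i := by ring
      have b6 : |Δ * s (Fin.last k) j / s (cl i) j * R o i| ≤
          ⌈Δ * s (Fin.last k) j / s (cl i) j⌉₊ * Rm := by
        rw [abs_mul, abs_of_nonneg b3]
        exact mul_le_mul b2 (hRm o i) (abs_nonneg _) (by linarith)
      rw [b5]
      refine (abs_add_le _ _).trans ?_
      nlinarith
    have hcle : ∀ o l, (cle (caD cl) (nex (a o)) l : ℝ) ≤
        C2 * ⌈Δ * s (Fin.last k) j / s l j⌉₊ := by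
      intro o l
      refine (cle_nex_le cl (a o) l ((Rm + (C1 + Rm)) * ⌈Δ * s (Fin.last k) j / s l j⌉₊)
        (by positivity) fun i hi => ?_).trans (le_of_eq ?_)
      · have b1 := hab o i
        rw [hi] at b1
        exact b1
      · rw [hC2e]
        ring
    have hFF : ∀ o, ∏ s, br.F s ^ nex (a o) s =
        ∏ s : ι × Bool, (if s.2 then (X s.1).rep j else f' j s.1) ^ nex (a o) s := fun o =>
      Finset.prod_congr rfl fun s _ => by rw [hF s]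
    have hval : ∀ P : MvPolynomial (Ob cl bs) ℤ,
        MvPolynomial.aeval (fun o => mon (fr fun i => (X i).rep j) (a o)) P =
        algebraMap (MvPowerSeries β (K j)) (FractionRing (MvPowerSeries β (K j)))
          (MvPolynomial.eval₂ (Int.castRingHom (MvPowerSeries β (K j)))
            (fun o => ∏ s, br.F s ^ nex (a o) s) P) := by
      intro P
      rw [aeval_mon_eq (fun i => (X i).rep j) (f' j) hff a P]
      simp only [hFF]
    have hf2 : MvPolynomial.eval₂ (Int.castRingHom (MvPowerSeries β (K j)))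
        (fun o => ∏ s, br.F s ^ nex (a o) s) f = 0 :=
      IsFractionRing.injective (MvPowerSeries β (K j)) (FractionRing (MvPowerSeries β (K j)))
        ((hval f).symm.trans (hfz.trans (map_zero _).symm))
    have hG2 : MvPolynomial.eval₂ (Int.castRingHom (MvPowerSeries β (K j)))
        (fun o => ∏ s, br.F s ^ nex (a o) s) G ≠ 0 := fun h0 => hGz (by rw [hval, h0, map_zero])
    have hbox := eval_box (Int.castRingHom (MvPowerSeries β (K j))) G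
      (fun _ => 2 * Fintype.card (Ob cl bs) * Dj j) hGd br.F (fun o => nex (a o))
    have hM1 : (Dj j : ℝ) ≤ Dj j * (Δ * s (Fin.last k) j) := by
      have : (1 : ℝ) ≤ Δ * s (Fin.last k) j := by nlinarith
      nlinarith
    have hη' : (0 : ℝ) ≤ 1 / η := by positivity
    obtain ⟨nn, hnn, hwt⟩ := hlo br
      (fun b => by
        rw [hF]
        exact hf0 (bs b))
      (fun l => by
        have b1 := (hn' l).2.2.2.1
        have b2 : (1 : ℝ) ≤ Db := by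
          have := br.Pi_deg l
          exact_mod_cast (Nat.succ_le_of_lt this.1).trans this.2
        rw [hκb l, max_eq_right (hs.one l j)]
        have b3 : 0 ≤ (Dj j : ℝ) * (Δ * s (Fin.last k) j) := by positivity
        nlinarith)
      (∀ _ : Ob cl bs, Fin (2 * Fintype.card (Ob cl bs) * Dj j + 1))
      (fun x => G.coeff (bex x)) (fun x s => ∑ o, (x o : ℕ) * nex (a o) s)
      (fun x => by
        refine (coeff_le_L1' G _).trans (hG1.trans (Real.exp_le_exp.2 ?_))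
        have b1 : 0 ≤ (2 * (m : ℝ) ^ 2 + 4 * (m : ℝ) ^ 2 * C2 / η) *
            ((Dj j : ℝ) * (Δ * s (Fin.last k) j)) := by positivity
        have b2 : κ * (⌈Δ * s (Fin.last k) j / s 0 j⌉₊ : ℝ) * Dj j ≤
            κ * (2 * (Δ * s (Fin.last k) j)) * Dj j :=
          mul_le_mul_of_nonneg_right (mul_le_mul_of_nonneg_left hn0' hκ.le) (by linarith)
        nlinarith)
      (by
        have b1 : (Fintype.card (∀ _ : Ob cl bs,
            Fin (2 * Fintype.card (Ob cl bs) * Dj j + 1)) : ℝ) =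
            (((2 * m * Dj j + 1) ^ m : ℕ) : ℝ) := by
          rw [Fintype.card_fun, Fintype.card_fin, hm]
        rw [b1]
        refine (num_pow m (Dj j)).trans (Real.exp_le_exp.2 ?_)
        have b2 : 0 ≤ (2 * κ + 4 * (m : ℝ) ^ 2 * C2 / η) *
            ((Dj j : ℝ) * (Δ * s (Fin.last k) j)) := by positivity
        have b3 : 2 * (m : ℝ) ^ 2 * Dj j ≤ 2 * (m : ℝ) ^ 2 * (Dj j * (Δ * s (Fin.last k) j)) :=
          mul_le_mul_of_nonneg_left hM1 (by positivity)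
        nlinarith)
      (fun x l => by
        rw [cle_sum (caD cl) (fun o => (x o : ℕ)) (fun o => nex (a o)) l]
        push_cast
        have b1 : ∀ o, ((x o : ℕ) : ℝ) * (cle (caD cl) (nex (a o)) l : ℝ) ≤
            (2 * m * Dj j) * (C2 * ⌈Δ * s (Fin.last k) j / s l j⌉₊) := by
          intro o
          refine mul_le_mul ?_ (hcle o l) (Nat.cast_nonneg _) (by positivity)
          have b2 : (x o : ℕ) ≤ 2 * m * Dj j := by
            have b6 := Nat.lt_succ_iff.1 (x o).2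
            have b7 : 2 * m * Dj j = 2 * Fintype.card (Ob cl bs) * Dj j := by rw [hm]
            omega
          exact_mod_cast b2
        refine (Finset.sum_le_card_nsmul _ _ _ fun o _ => b1 o).trans ?_
        rw [Finset.card_univ, ← hm, nsmul_eq_mul]
        have b3 := (hn' l).2.2.1
        have b4 : (Dj j : ℝ) * ⌈Δ * s (Fin.last k) j / s l j⌉₊ ≤
            2 / η * ⌊η * (Dj j * ⌈Δ * s (Fin.last k) j / s l j⌉₊)⌋₊ := by
          rw [div_mul_eq_mul_div, le_div_iff₀ hη]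
          linarith
        have b5 : 0 ≤ (2 * κ + 2 * (m : ℝ) ^ 2) *
            (⌊η * (Dj j * ⌈Δ * s (Fin.last k) j / s l j⌉₊)⌋₊ : ℝ) := by positivity
        calc (m : ℝ) * (2 * m * Dj j * (C2 * ⌈Δ * s (Fin.last k) j / s l j⌉₊))
            = 2 * (m : ℝ) ^ 2 * C2 * (Dj j * ⌈Δ * s (Fin.last k) j / s l j⌉₊) := by ring
          _ ≤ 2 * (m : ℝ) ^ 2 * C2 *
              (2 / η * ⌊η * (Dj j * ⌈Δ * s (Fin.last k) j / s l j⌉₊)⌋₊) :=
              mul_le_mul_of_nonneg_left b4 (by positivity)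
          _ = 4 * (m : ℝ) ^ 2 * C2 / η *
              ⌊η * (Dj j * ⌈Δ * s (Fin.last k) j / s l j⌉₊)⌋₊ := by ring
          _ ≤ _ := by linarith)
      (by
        rw [hbox] at hG2
        exact hG2)
    refine hend Δ hΔ2 (K j) br (fun l => ⌈Δ * s (Fin.last k) j / s l j⌉₊)
      (⌈Δ * s (Fin.last k) j / s 0 j⌉₊ : ℝ) (s (Fin.last k) j) hsk hn0 (fun l => ?_)
      (fun o => nex (a o)) hcle (fun o => ?_) f G h gg (Dj j) hD1 hf2 hGd hgd hmap hg1 nn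
      (fun b => ?_) (by
        rw [hbox]
        exact hnn)
    · rw [hh l, max_eq_right (hs.one l j)]
      have b1 := (hn l).2.2.1
      linarith
    · rw [hFF, cc_mon (fun i => (X i).rep j) (f' j) hff (a o)]
      have b1 := hkj o (a o) (ha o)
      simp only [hf0]
      exact b1
    · refine (le_of_wt _ nn (fun b => (hn' _).1) hwt b).trans ?_
      refine (hn' (cl (bs b))).2.1.trans ?_
      exact mul_le_mul_of_nonneg_right hη1 (by positivity)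
  exact hfalse.exists.elim fun _ h => h

end Pool.Agent.Zilber
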