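import Pool.Agent.Zilber.AUKer

set_option autoImplicit false

/-! END, the numbers: the multiples `n l`, and the sizes `n' l`. -/

namespace Pool.Agent.Zilber

open Filter Topology NumberField Module Pool.Agent.LAll Pool.Agent.LSharp Pool.Agent.CITLines

/-- The multiples `n l = ⌈Δ s_k / s_l⌉`. -/
noncomputable def en {J : Type} {k : ℕ} (s : Fin (k + 1) → J → ℝ) (Δ : ℝ) (j : J)
    (l : Fin (k + 1)) : ℕ := ⌈Δ * s (Fin.last k) j / s l j⌉₊

theorem en_prop {J : Type} {𝒰 : Ultrafilter J} {k : ℕ} (s : Fin (k + 1) → J → ℝ)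
    (hs : Scl 𝒰 s) (Δ : ℝ) (hΔ : 1 ≤ Δ) :
    ∀ᶠ j in (𝒰 : Filter J), ∀ l, Δ ≤ en s Δ j l ∧
      Δ * s (Fin.last k) j ≤ en s Δ j l * s l j ∧
      (en s Δ j l : ℝ) * s l j ≤ 2 * (Δ * s (Fin.last k) j) ∧
      |(en s Δ j l : ℝ) - Δ * s (Fin.last k) j / s l j| ≤ 1 := by
  rw [Filter.eventually_all]
  intro l
  filter_upwards [scl_le s hs l (Fin.last k) (Fin.le_last l)] with j hj
  have h1 : 1 ≤ s l j := hs.one l j
  have h1' : 0 < s l j := by linarith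
  have h2 : 1 ≤ s (Fin.last k) j := hs.one _ j
  have hΔ0 : 0 < Δ := by linarith
  have h3 : 0 ≤ Δ * s (Fin.last k) j / s l j := by positivity
  have h4 : Δ * s (Fin.last k) j / s l j ≤ en s Δ j l := Nat.le_ceil _
  have h5 : (en s Δ j l : ℝ) < Δ * s (Fin.last k) j / s l j + 1 := Nat.ceil_lt_add_one h3
  have h6 : Δ * s (Fin.last k) j / s l j * s l j = Δ * s (Fin.last k) j :=
    div_mul_cancel₀ _ h1'.ne'
  have h7 : Δ ≤ Δ * s (Fin.last k) j / s l j := by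
    rw [le_div_iff₀ h1']
    exact mul_le_mul_of_nonneg_left hj hΔ0.le
  refine ⟨h7.trans h4, ?_, ?_, ?_⟩
  · rw [← h6]
    exact mul_le_mul_of_nonneg_right h4 h1'.le
  · have h8 : (en s Δ j l : ℝ) * s l j ≤ (Δ * s (Fin.last k) j / s l j + 1) * s l j :=
      mul_le_mul_of_nonneg_right h5.le h1'.le
    rw [add_mul, h6, one_mul] at h8
    nlinarith
  · rw [abs_of_nonneg (by linarith)]
    linarith

/-- The sizes `n' l = ⌊η (D n_l)⌋`. -/
noncomputable def en' {J : Type} {k : ℕ} (s : Fin (k + 1) → J → ℝ) (Δ η : ℝ) (D : J → ℕ) (j : J)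
    (l : Fin (k + 1)) : ℕ := ⌊η * (D j * en s Δ j l)⌋₊

theorem en'_prop {J : Type} {𝒰 : Ultrafilter J} {k : ℕ} (s : Fin (k + 1) → J → ℝ)
    (hs : Scl 𝒰 s) (Δ η : ℝ) (hη : 0 < η) (hΔ : 1 ≤ Δ) (hΔη : 1 ≤ η * Δ)
    (D : J → ℕ) (hD : ∀ᶠ j in (𝒰 : Filter J), 1 ≤ D j) :
    ∀ᶠ j in (𝒰 : Filter J), ∀ l, 1 ≤ en' s Δ η D j l ∧
      (en' s Δ η D j l : ℝ) ≤ η * (D j * en s Δ j l) ∧
      η * (D j * en s Δ j l) ≤ 2 * en' s Δ η D j l := by
  filter_upwards [en_prop s hs Δ hΔ, hD] with j hj hDj l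
  have hD1 : (1 : ℝ) ≤ D j := by exact_mod_cast hDj
  have h1 := (hj l).1
  have h2 : (1 : ℝ) ≤ η * (D j * en s Δ j l) := by
    have h3 : Δ ≤ D j * en s Δ j l := by nlinarith
    have h4 : η * Δ ≤ η * (D j * en s Δ j l) := mul_le_mul_of_nonneg_left h3 hη.le
    linarith
  have h5 : 1 ≤ en' s Δ η D j l := Nat.le_floor (by exact_mod_cast h2)
  have h6 : (en' s Δ η D j l : ℝ) ≤ η * (D j * en s Δ j l) := Nat.floor_le (by linarith)
  have h7 : η * (D j * en s Δ j l) < en' s Δ η D j l + 1 := Nat.lt_floor_add_one _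
  have h8 : (1 : ℝ) ≤ en' s Δ η D j l := by exact_mod_cast h5
  exact ⟨h5, h6, by linarith⟩

theorem en'_tendsto {J : Type} {𝒰 : Ultrafilter J} {k : ℕ} (s : Fin (k + 1) → J → ℝ)
    (hs : Scl 𝒰 s) (Δ η : ℝ) (hη : 0 < η) (hΔ : 1 ≤ Δ) (hΔη : 1 ≤ η * Δ)
    (D : J → ℕ) (hD : ∀ᶠ j in (𝒰 : Filter J), 1 ≤ D j) (l' l : Fin (k + 1)) (hl : l' < l) :
    Tendsto (fun j => (en' s Δ η D j l : ℝ) / en' s Δ η D j l') (𝒰 : Filter J) (𝓝 0) := by
  have h0 : Tendsto (fun j => 4 * (s l' j / s l j)) (𝒰 : Filter J) (𝓝 0) := by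
    have := (hs.sep l' l hl).const_mul 4
    simpa using this
  refine squeeze_zero' (Filter.Eventually.of_forall fun j => by positivity) ?_ h0
  filter_upwards [en_prop s hs Δ hΔ, en'_prop s hs Δ η hη hΔ hΔη D hD, hD] with j hj hj' hDj
  have hD1 : (1 : ℝ) ≤ D j := by exact_mod_cast hDj
  have hsl : 0 < s l j := lt_of_lt_of_le one_pos (hs.one l j)
  have hsl' : 0 < s l' j := lt_of_lt_of_le one_pos (hs.one l' j)
  have h1 : (1 : ℝ) ≤ en' s Δ η D j l' := by exact_mod_cast (hj' l').1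
  rw [div_le_iff₀ (by linarith)]
  have h2 := (hj' l).2.1
  have h3 := (hj' l').2.2
  have h4 := (hj l).2.2.1
  have h5 := (hj l').2.1
  -- `n_l s_l ≤ 2 n_l' s_l'`
  have h6 : (en s Δ j l : ℝ) * s l j ≤ 2 * (en s Δ j l' * s l' j) := by linarith
  have h7 : (en s Δ j l : ℝ) ≤ 2 * (en s Δ j l' * s l' j) / s l j := by
    rw [le_div_iff₀ hsl]
    exact h6
  calc (en' s Δ η D j l : ℝ) ≤ η * (D j * en s Δ j l) := h2
    _ ≤ η * (D j * (2 * (en s Δ j l' * s l' j) / s l j)) := by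
        refine mul_le_mul_of_nonneg_left ?_ hη.le
        exact mul_le_mul_of_nonneg_left h7 (by linarith)
    _ = 2 * (s l' j / s l j) * (η * (D j * en s Δ j l')) := by ring
    _ ≤ 2 * (s l' j / s l j) * (2 * en' s Δ η D j l') :=
        mul_le_mul_of_nonneg_left h3 (by positivity)
    _ = 4 * (s l' j / s l j) * en' s Δ η D j l' := by ring

end Pool.Agent.Zilber
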