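import Pool.Agent.Zilber.DDefs
import Pool.Agent.Zilber.DAlpha
import Pool.Agent.Zilber.DEx
import Pool.Agent.Zilber.DIrr
import Pool.Agent.Zilber.DEndA

set_option autoImplicit false

/-! END, the data at one level. -/

namespace Pool.Agent.Zilber

open Filter Topology NumberField Module Pool.Agent.LAll Pool.Agent.LSharp Pool.Agent.CITLines

theorem card_Ob {k : ℕ} {ι β : Type} [Fintype β] (cl : ι → Fin (k + 1)) (bs : β → ι) :
    Fintype.card (Ob cl bs) = Fintype.card β + 1 := by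
  have h1 := Fintype.card_congr (Equiv.sumCompl fun b : β => cl (bs b) = 0)
  rw [Fintype.card_sum] at h1
  rw [Fintype.card_sum, Fintype.card_option, ← h1]
  ring

/-- The irreducible relation, for arbitrary algebra structures over `ℚ` and `ℤ`. -/
theorem irr_rel' {O E : Type} [Fintype O] [DecidableEq O] [Field E] [iA : Algebra ℚ E]
    [iZ : Algebra ℤ E] (z : O → E) (h : rk ℚ (Set.range z) + 1 = Fintype.card O) :
    ∃ f : MvPolynomial O ℤ, Irreducible f ∧ MvPolynomial.aeval z f = 0 ∧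
      (∀ G : MvPolynomial O ℤ, MvPolynomial.aeval z G = 0 → f ∣ G) ∧ ∃ o, 0 < f.degreeOf o := by
  have hc : CharZero E := algebraRat.charZero E
  have hi : iA = DivisionRing.toRatAlgebra := Subsingleton.elim _ _
  have hz : iZ = Ring.toIntAlgebra E := Subsingleton.elim _ _
  subst hi
  subst hz
  obtain ⟨f, h1, h2, h3⟩ := irr_rel z h
  exact ⟨f, h1, h2, h3, exists_degreeOf_pos z f h1 h2⟩

variable {J : Type} {𝒰 : Ultrafilter J} {K : J → Type} [∀ j, Field (K j)] [∀ j, NumberField (K j)]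
  {k : ℕ} {s : Fin (k + 1) → J → ℝ} {ι β : Type} [Fintype ι]
  [Fintype β] [DecidableEq β] {cl : ι → Fin (k + 1)} {x : ι → Ult 𝒰 K} {bs : β → ι}
  {X : ι → Ult 𝒰 (PS β K)}

/-- The data of END at one level. -/
structure EP (s : Fin (k + 1) → J → ℝ) (cl : ι → Fin (k + 1)) (bs : β → ι)
    (X : ι → Ult 𝒰 (PS β K)) (R : Ob cl bs → ι → ℝ) (Δ C1 κ c : ℝ) (j : J)
    (a : Ob cl bs → ι → ℤ) (f G : MvPolynomial (Ob cl bs) ℤ) (h g : MvPolynomial (Ob cl bs) ℝ)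
    (D : ℕ) : Prop where
  D1 : 1 ≤ D
  near : ∀ o i, |(a o i : ℝ) - Δ * s (Fin.last k) j / s (cl i) j * R o i| ≤ C1
  f0 : MvPolynomial.aeval (fun o => mon (fr fun i => (X i).rep j) (a o)) f = 0
  G0 : MvPolynomial.aeval (fun o => mon (fr fun i => (X i).rep j) (a o)) G ≠ 0
  dG : ∀ o, G.degreeOf o ≤ 2 * Fintype.card (Ob cl bs) * D
  dg : ∀ o, g.degreeOf o ≤ 2 * Fintype.card (Ob cl bs) * D
  eq : MvPolynomial.map (Int.castRingHom ℝ) G = MvPolynomial.map (Int.castRingHom ℝ) f * h + g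
  LG : L1 G ≤ Real.exp (κ * en s Δ j 0 * D)
  Lg : L1R g ≤ Real.exp (-(c * (κ * en s Δ j 0) * D))

theorem end_data (hs : Scl 𝒰 s) (q : ι → β → ℚ) (R : Ob cl bs → ι → ℝ)
    (C1 Rm κ Λ0 c : ℝ) (n0m : ℕ) (hRm : ∀ o i, |R o i| ≤ Rm) (hκ : 0 < κ)
    (hex : ∀ ν : Fin (k + 1) → ℝ, ∃ a : Ob cl bs → ι → ℤ,
      (∀ o i, |(a o i : ℝ) - ν (cl i) * R o i| ≤ C1) ∧
      ∀ (o : Option (B0 cl bs)) (b : Bp cl bs), ∑ i, (a (Sum.inl o) i : ℚ) * q i b = 0)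
    (hG : Gam 𝒰 s cl bs X q R (C1 + Rm) κ n0m)
    (hal : ∀ (f : MvPolynomial (Ob cl bs) ℤ) (D : ℕ) (Λ : ℝ), 1 ≤ D →
      (∀ o, f.degreeOf o ≤ D) → Λ0 ≤ Λ → Λ * D ≤ Real.log (L1 f) →
      ∃ (G : MvPolynomial (Ob cl bs) ℤ) (h g : MvPolynomial (Ob cl bs) ℝ),
        (∀ o, G.degreeOf o ≤ 2 * Fintype.card (Ob cl bs) * D) ∧
        (∀ o, g.degreeOf o ≤ 2 * Fintype.card (Ob cl bs) * D) ∧ ¬ f ∣ G ∧
        MvPolynomial.map (Int.castRingHom ℝ) G = MvPolynomial.map (Int.castRingHom ℝ) f * h + g ∧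
        L1 G ≤ Real.exp (Λ * D) ∧ L1R g ≤ Real.exp (-(c * Λ * D)))
    (Δ : ℝ) (hΔ : 1 ≤ Δ) (hΔn : (n0m : ℝ) ≤ Δ) (hΔΛ : Λ0 ≤ κ * Δ) :
    ∀ᶠ j in (𝒰 : Filter J), ∃ t : (Ob cl bs → ι → ℤ) × MvPolynomial (Ob cl bs) ℤ ×
      MvPolynomial (Ob cl bs) ℤ × MvPolynomial (Ob cl bs) ℝ × MvPolynomial (Ob cl bs) ℝ × ℕ,
      EP s cl bs X R Δ C1 κ c j t.1 t.2.1 t.2.2.1 t.2.2.2.1 t.2.2.2.2.1 t.2.2.2.2.2 := by
  classical
  filter_upwards [hG, en_prop s hs Δ hΔ] with j hGj hj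
  obtain ⟨a, ha, hao⟩ := hex (fun l => Δ * s (Fin.last k) j / s l j)
  have h0 : s 0 j = 1 := hs.zero j
  have hn0 := hj 0
  rw [h0, mul_one, div_one] at hn0
  have hExpo : Expo cl bs q R (C1 + Rm) (en s Δ j) a := by
    refine ⟨fun o i => ?_, hao⟩
    have h1 := ha o i
    have h2 := (hj (cl i)).2.2.2
    have h3 : (a o i : ℝ) - en s Δ j (cl i) * R o i =
        ((a o i : ℝ) - Δ * s (Fin.last k) j / s (cl i) j * R o i) -
          ((en s Δ j (cl i) : ℝ) - Δ * s (Fin.last k) j / s (cl i) j) * R o i := by ring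
    rw [h3]
    refine (abs_sub _ _).trans (add_le_add h1 ?_)
    rw [abs_mul]
    calc _ ≤ 1 * |R o i| := mul_le_mul_of_nonneg_right h2 (abs_nonneg _)
      _ ≤ Rm := by rw [one_mul]; exact hRm o i
  obtain ⟨hrk, hlow⟩ := hGj (en s Δ j) (fun l => by
      have := (hj l).1
      exact_mod_cast hΔn.trans this) (fun l => by
      refine (hj l).2.2.1.trans ?_
      exact mul_le_mul_of_nonneg_left hn0.2.1 (by norm_num)) a hExpo
  obtain ⟨f, hfi, hf0, hfd, o0, ho0⟩ := irr_rel'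
    (fun o => mon (fr fun i => (X i).rep j) (a o)) (by
      rw [hrk, card_Ob]
      push_cast
      rfl)
  obtain ⟨o1, -, ho1⟩ := Finset.exists_max_image Finset.univ (fun o => f.degreeOf o)
    ⟨o0, Finset.mem_univ _⟩
  obtain ⟨D, hD⟩ : ∃ D : ℕ, D = f.degreeOf o1 := ⟨_, rfl⟩
  have hD1 : 1 ≤ D := by
    have := ho1 o0 (Finset.mem_univ _)
    omega
  obtain ⟨G, h, g, h1, h2, h3, h4, h5, h6⟩ := hal f D (κ * en s Δ j 0) hD1 (fun o => by
      rw [hD]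
      exact ho1 o (Finset.mem_univ _)) (hΔΛ.trans (mul_le_mul_of_nonneg_left hn0.1 hκ.le)) (by
      rw [hD]
      exact hlow f hfi hf0 o1)
  exact ⟨⟨a, f, G, h, g, D⟩, ⟨hD1, ha, hf0, fun h7 => h3 (hfd G h7), h1, h2, h4, h5, h6⟩⟩

end Pool.Agent.Zilber
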