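import Pool.Agent.Zilber.DEndB
import Pool.Agent.Zilber.DEz
import Pool.Agent.Zilber.DEnum
import Pool.Agent.Zilber.BLow
import Pool.Agent.Zilber.BLevD

set_option autoImplicit false

/-! END, the contradiction at one level. -/

namespace Pool.Agent.Zilber

open Filter Topology NumberField Module Pool.Agent.LAll Pool.Agent.LSharp Pool.Agent.CITLines

theorem cle_nex {k : ℕ} {ι : Type} [Fintype ι] (cl : ι → Fin (k + 1)) (a : ι → ℤ) (B : ℝ)
    (l : Fin (k + 1)) (ha : ∀ i, cl i = l → |(a i : ℝ)| ≤ B) (hB : 0 ≤ B) :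
    (cle (fun s : ι × Bool => cl s.1) (nex a) l : ℝ) ≤ 2 * Fintype.card ι * B := by
  unfold cle
  rw [Nat.cast_sum]
  have h1 : ∀ s ∈ (Finset.univ : Finset (ι × Bool)),
      (((if cl s.1 = l then nex a s else 0 : ℕ)) : ℝ) ≤ B := by
    intro s _
    split_ifs with h
    · exact (nex_le a s).trans (ha s.1 h)
    · simpa using hB
  refine (Finset.sum_le_sum h1).trans (le_of_eq ?_)
  rw [Finset.sum_const, Finset.card_univ, Fintype.card_prod, Fintype.card_bool, nsmul_eq_mul]
  push_cast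
  ring

theorem const_nex {ι β F : Type} [Fintype ι] [Field F] (f : ι × Bool → MvPowerSeries β F)
    (y : ι → F) (h1 : ∀ i, f (i, true) * f (i, false) = 1)
    (h2 : ∀ i, MvPowerSeries.constantCoeff (f (i, true)) = y i) (a : ι → ℤ) :
    MvPowerSeries.constantCoeff (∏ s, f s ^ nex a s) = ∏ i, y i ^ a i := by
  rw [Fintype.prod_prod_type, map_prod]
  refine Finset.prod_congr rfl fun i _ => ?_
  have h3 : y i * MvPowerSeries.constantCoeff (f (i, false)) = 1 := by
    rw [← h2, ← map_mul, h1, map_one]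
  have h0 : y i ≠ 0 := left_ne_zero_of_mul_eq_one h3
  have h4 : MvPowerSeries.constantCoeff (f (i, false)) = (y i)⁻¹ := eq_inv_of_mul_eq_one_right h3
  rw [Fintype.prod_bool, map_mul, map_pow, map_pow, h4, h2, ← nex_sub a i, zpow_sub₀ h0,
    zpow_natCast, zpow_natCast, inv_pow, div_eq_mul_inv]

/-- A weight below `1`: every exponent is small. -/
theorem le_of_wt {β : Type} [Fintype β] (n : β → ℕ) (hn : ∀ b, 1 ≤ n b) (i : β →₀ ℕ)
    (h : wt n i < 1) (b : β) : (i b : ℝ) ≤ n b := by
  have h0 : (0 : ℝ) < n b := by exact_mod_cast hn b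
  have h1 : (i b : ℝ) / n b ≤ wt n i :=
    Finset.single_le_sum (f := fun b => (i b : ℝ) / n b) (fun c _ => by positivity)
      (Finset.mem_univ b)
  have h2 : (i b : ℝ) / n b < 1 := lt_of_le_of_lt h1 h
  rw [div_lt_one h0] at h2
  exact h2.le

end Pool.Agent.Zilber
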