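import Pool.Agent.Zilber.DEval

set_option autoImplicit false

/-! DE2. Estimates at one place for `F = G(z)`, `G = f h + g`, `f(z) = 0`. -/

namespace Pool.Agent.Zilber

open NumberField Pool.Agent.LAll Pool.Agent.LSharp MvPowerSeries

variable {O A β K : Type} [Fintype O] [DecidableEq O] [Fintype A] [DecidableEq A] [Fintype β]
  [DecidableEq β] [Field K] [NumberField K]

/-- **Infinite places.** `z_o = ∏ F_s ^ (e o s)`, `f(z) = 0`, `G = f h + g` over `ℝ`, `g` with coefficients `≤ exp (-E)`.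
Then the coefficients of `G(z)` are at most `exp (-E)` times the sum of those of the monomials.

Proof. `σ = v.embedding : K →+* ℂ`, `v c = ‖σ c‖` (`InfinitePlace.norm_embedding_eq`), `σ' = MvPowerSeries.map σ` (`MvPowerSeries β K →+*
MvPowerSeries β ℂ`), `ψ : ℝ →+* MvPowerSeries β ℂ` the constants. `σ' (eval₂ (Int.castRingHom _) z G) =
eval₂ ψ (σ' ∘ z) (map (Int.castRingHom ℝ) G) = eval₂ ψ (σ' z) (map f) * eval₂ ψ (σ' z) h + eval₂ ψ (σ' z) g`, and the first
factor is `σ' (f(z)) = 0`. `eval_box` for `g` (with `F_s` replaced by `σ' F_s`), and take the coefficient `n`: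
`σ (coeff n (G(z))) = ∑_x g_x σ (coeff n (∏ F_s ^ ..))` (`MvPowerSeries.coeff_map`, `coeff_C_mul`). Norms. -/
theorem est_inf (F : A → MvPowerSeries β K) (e : O → A → ℕ) (f G : MvPolynomial O ℤ)
    (h g : MvPolynomial O ℝ) (N : O → ℕ) (E : ℝ)
    (hf : MvPolynomial.eval₂ (Int.castRingHom (MvPowerSeries β K)) (fun o => ∏ s, F s ^ e o s) f = 0)
    (hg : ∀ o, g.degreeOf o ≤ N o)
    (hGg : MvPolynomial.map (Int.castRingHom ℝ) G = MvPolynomial.map (Int.castRingHom ℝ) f * h + g)
    (hgE : ∀ i, |g.coeff i| ≤ Real.exp (-E)) (n : β →₀ ℕ) (v : InfinitePlace K) :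
    v (coeff n (MvPolynomial.eval₂ (Int.castRingHom (MvPowerSeries β K))
      (fun o => ∏ s, F s ^ e o s) G)) ≤
      Real.exp (-E) * ∑ x : ∀ o, Fin (N o + 1), v (coeff n (∏ s, F s ^ (∑ o, (x o : ℕ) * e o s))) := by
  classical
  set σ : K →+* ℂ := v.embedding with hσ
  set σ' : MvPowerSeries β K →+* MvPowerSeries β ℂ := MvPowerSeries.map σ with hσ'
  set ψ : ℝ →+* MvPowerSeries β ℂ := (MvPowerSeries.C (σ := β)).comp Complex.ofRealHom with hψ
  have hz : ∀ P : MvPolynomial O ℤ, σ' (MvPolynomial.eval₂ (Int.castRingHom (MvPowerSeries β K))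
      (fun o => ∏ s, F s ^ e o s) P) =
      MvPolynomial.eval₂ ψ (fun o => ∏ s, (σ' (F s)) ^ e o s)
        (MvPolynomial.map (Int.castRingHom ℝ) P) := by
    intro P
    rw [MvPolynomial.eval₂_map]
    have h1 : ψ.comp (Int.castRingHom ℝ) = σ'.comp (Int.castRingHom (MvPowerSeries β K)) :=
      RingHom.ext_int _ _
    rw [h1]
    have h2 := MvPolynomial.eval₂_comp_left σ' (Int.castRingHom (MvPowerSeries β K))
      (fun o => ∏ s, F s ^ e o s) P
    rw [h2]
    congr 1
    funext o
    rw [Function.comp_apply, map_prod]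
    exact Finset.prod_congr rfl fun s _ => map_pow _ _ _
  have h0 : MvPolynomial.eval₂ ψ (fun o => ∏ s, (σ' (F s)) ^ e o s)
      (MvPolynomial.map (Int.castRingHom ℝ) f) = 0 := by
    rw [← hz, hf, map_zero]
  have h1 := hz G
  rw [hGg, MvPolynomial.eval₂_add, MvPolynomial.eval₂_mul, h0, zero_mul, zero_add,
    eval_box ψ g N hg (fun s => σ' (F s)) e] at h1
  have h2 := congrArg (coeff n) h1
  rw [map_sum, hσ', MvPowerSeries.coeff_map] at h2
  have h3 : v (coeff n (MvPolynomial.eval₂ (Int.castRingHom (MvPowerSeries β K))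
      (fun o => ∏ s, F s ^ e o s) G)) = ‖σ (coeff n (MvPolynomial.eval₂
        (Int.castRingHom (MvPowerSeries β K)) (fun o => ∏ s, F s ^ e o s) G))‖ :=
    (InfinitePlace.norm_embedding_eq v _).symm
  rw [h3, h2, Finset.mul_sum]
  refine (norm_sum_le _ _).trans (Finset.sum_le_sum fun x _ => ?_)
  have h4 : ∏ s, (MvPowerSeries.map σ (F s)) ^ (∑ o, (x o : ℕ) * e o s) =
      MvPowerSeries.map σ (∏ s, F s ^ (∑ o, (x o : ℕ) * e o s)) := by
    rw [map_prod]
    exact Finset.prod_congr rfl fun s _ => (map_pow _ _ _).symm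
  have h5 : ψ (g.coeff (bex x)) = MvPowerSeries.C ((g.coeff (bex x) : ℝ) : ℂ) := rfl
  rw [h4, h5, MvPowerSeries.coeff_C_mul, MvPowerSeries.coeff_map, norm_mul,
    InfinitePlace.norm_embedding_eq, Complex.norm_real, Real.norm_eq_abs]
  exact mul_le_mul_of_nonneg_right (hgE _) (apply_nonneg v _)

private theorem dest_fin_nat (v : FinitePlace K) (n : ℕ) : v (n : K) ≤ 1 := by
  induction n with
  | zero => simp
  | succ n ih =>
    push_cast
    refine (FinitePlace.add_le v _ _).trans (max_le ih ?_)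
    rw [map_one]

private theorem dest_fin_int (v : FinitePlace K) (n : ℤ) : v (n : K) ≤ 1 := by
  rcases Int.natAbs_eq n with h | h
  · rw [h]
    simp only [Int.cast_natCast]
    exact dest_fin_nat v _
  · rw [h]
    simp only [Int.cast_neg, Int.cast_natCast, map_neg_eq_map]
    exact dest_fin_nat v _

private theorem dest_fin_sum (v : FinitePlace K) {γ : Type} (s : Finset γ) (f : γ → K) (B : ℝ)
    (hB : 0 ≤ B) (h : ∀ i ∈ s, v (f i) ≤ B) : v (∑ i ∈ s, f i) ≤ B := by
  classical
  induction s using Finset.induction_on with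
  | empty => rw [Finset.sum_empty, map_zero]; exact hB
  | insert a s ha ih =>
    rw [Finset.sum_insert ha]
    refine (FinitePlace.add_le v _ _).trans (max_le (h a (Finset.mem_insert_self a s)) ?_)
    exact ih fun i hi => h i (Finset.mem_insert_of_mem hi)

/-- **Finite places**: the coefficients of `G(z)` are at most the maximum of those of the monomials (`G` has
integral coefficients). `eval_box`, `FinitePlace.add_le`, `v (integer) ≤ 1`; see `pl_fin_sum`, `pl_fin_int` in
LAll/Places (private there). -/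
theorem est_fin (F : A → MvPowerSeries β K) (e : O → A → ℕ) (G : MvPolynomial O ℤ)
    (N : O → ℕ) (hG : ∀ o, G.degreeOf o ≤ N o) (n : β →₀ ℕ) (v : FinitePlace K) (B : ℝ)
    (hB0 : 0 ≤ B) (hB : ∀ x : ∀ o, Fin (N o + 1), v (coeff n (∏ s, F s ^ (∑ o, (x o : ℕ) * e o s))) ≤ B) :
    v (coeff n (MvPolynomial.eval₂ (Int.castRingHom (MvPowerSeries β K))
      (fun o => ∏ s, F s ^ e o s) G)) ≤ B := by
  classical
  rw [eval_box (Int.castRingHom (MvPowerSeries β K)) G N hG F e, map_sum]
  refine dest_fin_sum v _ _ B hB0 fun x _ => ?_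
  have h5 : (Int.castRingHom (MvPowerSeries β K)) (G.coeff (bex x)) =
      MvPowerSeries.C ((G.coeff (bex x) : ℤ) : K) := by
    rw [eq_intCast, map_intCast]
  rw [h5, MvPowerSeries.coeff_C_mul, map_mul]
  exact (mul_le_of_le_one_left (apply_nonneg v _) (dest_fin_int v _)).trans (hB x)

end Pool.Agent.Zilber
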