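import Pool.Agent.Zilber.DABox
import Pool.Agent.Zilber.BFine

set_option autoImplicit false

/-! DE1. The value of a polynomial at monomials in the coordinates. -/

namespace Pool.Agent.Zilber

open MvPolynomial

/-- **The value of `G` at monomials** `z_o = ∏_s F_s ^ (e o s)` is a sum over the box.

Proof. `eq_toPol` (with the coefficients of `G`), `eval₂` of `toPol` is the sum over the box of `φ (coefficient) * ∏_o z_o ^ (x o)`
(`eval₂_monomial`, `Finsupp.prod_fintype`), and `∏_o (∏_s F_s ^ (e o s)) ^ (x o) = ∏_s F_s ^ (∑_o x o * e o s)`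
(`Finset.prod_pow`, `Finset.prod_comm`, `Finset.prod_pow_eq_pow_sum`). -/
theorem eval_box {O A R S : Type} [Fintype O] [DecidableEq O] [Fintype A] [CommRing R]
    [CommRing S] (φ : R →+* S) (G : MvPolynomial O R) (N : O → ℕ) (hG : ∀ o, G.degreeOf o ≤ N o)
    (F : A → S) (e : O → A → ℕ) :
    eval₂ φ (fun o => ∏ s, F s ^ e o s) G =
      ∑ x : ∀ o, Fin (N o + 1), φ (G.coeff (bex x)) * ∏ s, F s ^ (∑ o, (x o : ℕ) * e o s) := by
  conv_lhs => rw [eq_toPol G hG]
  unfold toPol
  rw [eval₂_sum]
  refine Finset.sum_congr rfl fun x _ => ?_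
  rw [eval₂_monomial]
  congr 1
  rw [Finsupp.prod_fintype _ _ fun i => pow_zero _]
  simp only [← Finset.prod_pow]
  rw [Finset.prod_comm]
  refine Finset.prod_congr rfl fun s _ => ?_
  rw [← Finset.prod_pow_eq_pow_sum]
  refine Finset.prod_congr rfl fun o _ => ?_
  have h1 : bex x o = x o := rfl
  rw [h1, ← pow_mul, mul_comm]

/-- The number of the exponents in the box, `∑ log`. -/
theorem log_card_box {O : Type} [Fintype O] [DecidableEq O] (N : O → ℕ) :
    Real.log (Fintype.card (∀ o, Fin (N o + 1))) = ∑ o, Real.log (N o + 1) := by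
  rw [Fintype.card_pi]
  simp only [Fintype.card_fin]
  rw [Nat.cast_prod, Real.log_prod]
  · refine Finset.sum_congr rfl fun o _ => ?_
    rw [Nat.cast_add, Nat.cast_one]
  · intro o _
    exact_mod_cast Nat.succ_ne_zero (N o)

end Pool.Agent.Zilber
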