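import Pool.Agent.Zilber.DIrr
import Pool.Agent.Zil.GMRel

set_option autoImplicit false

/-! FC4. Irreducible over `ℤ` and over `ℚ`. -/

namespace Pool.Agent.Zilber

open MvPolynomial Pool.Agent.CITLines

/-- **Gauss lemma.** An irreducible integral polynomial with a zero of transcendence degree
`card O - 1` is irreducible over `ℚ`. `exists_omit` (DIrr) gives an enumeration
`e : Fin (t + 1) ≃ O` and an index as in `exists_relation_int` (Zil/GMRel), whose `g` (renamed) is
irreducible over `ℤ` and over `ℚ` and divides `G`; `G` is irreducible and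
`g` is not a unit, so `G` is `g` times a unit, and `map G` is `map g` times a unit. -/
theorem irr_map {O E : Type} [Fintype O] [DecidableEq O] [Field E] [CharZero E] (z : O → E)
    (h : rk ℚ (Set.range z) + 1 = Fintype.card O) (G : MvPolynomial O ℤ) (hG : Irreducible G)
    (h0 : aeval z G = 0) : Irreducible (map (Int.castRingHom ℚ) G) := by
  obtain ⟨o1, hind⟩ := exists_omit z h
  have hpos : 0 < Fintype.card O := Fintype.card_pos_iff.2 ⟨o1⟩
  obtain ⟨t, ht⟩ : ∃ t, Fintype.card O = t + 1 := ⟨Fintype.card O - 1, by omega⟩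
  let e : Fin (t + 1) ≃ O := (Fintype.equivFinOfCardEq ht).symm
  let i₁ : Fin (t + 1) := e.symm o1
  have hi₁ : e i₁ = o1 := e.apply_symm_apply o1
  have hne : ∀ k : Fin t, e (i₁.succAbove k) ≠ o1 := by
    intro k hk
    rw [← hi₁] at hk
    exact Fin.succAbove_ne i₁ k (e.injective hk)
  have hind' : AlgebraicIndependent ℚ (fun k : Fin t => (z ∘ e) (i₁.succAbove k)) := by
    have h1 := hind.comp (fun k : Fin t => (⟨e (i₁.succAbove k), hne k⟩ : {o // o ≠ o1}))
      (fun k k' hkk => Fin.succAbove_right_injective (e.injective (congrArg Subtype.val hkk)))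
    exact h1
  have halg : IsAlgebraic
      (Algebra.adjoin ℚ (Set.range fun k : Fin t => (z ∘ e) (i₁.succAbove k))) ((z ∘ e) i₁) := by
    by_contra hcon
    have h1 := (hind'.option_iff_transcendental ((z ∘ e) i₁)).2 hcon
    have h2 := rk_range_of_indep _ h1
    have h3 : rk ℚ (Set.range fun o : Option (Fin t) =>
        o.elim ((z ∘ e) i₁) fun k : Fin t => (z ∘ e) (i₁.succAbove k)) ≤ rk ℚ (Set.range z) := by
      refine rk_mono ?_
      rintro _ ⟨o, rfl⟩
      cases o with
      | none => exact ⟨e i₁, rfl⟩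
      | some k => exact ⟨e (i₁.succAbove k), rfl⟩
    rw [h2, Fintype.card_option, Fintype.card_fin] at h3
    rw [ht] at h
    have h4 : ((t + 1 : ℕ) : ℕ∞) + 1 ≤ ((t + 1 : ℕ) : ℕ∞) := by
      calc ((t + 1 : ℕ) : ℕ∞) + 1 ≤ rk ℚ (Set.range z) + 1 := by gcongr
        _ = _ := h
    have h5 : t + 1 + 1 ≤ t + 1 := by exact_mod_cast h4
    omega
  obtain ⟨g, hg, hgQ, hgz, hgd⟩ :=
    Pool.Agent.Zil.Gam.exists_relation_int (z ∘ e) i₁ hind' halg
  have hGz : aeval (z ∘ e) (rename e.symm G) = 0 := by
    rw [aeval_rename]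
    have h1 : (z ∘ e) ∘ e.symm = z := by
      funext o
      simp
    rw [h1, h0]
  have hG' : Irreducible (rename e.symm G) :=
    (MulEquiv.irreducible_iff (renameEquiv ℤ e.symm)).2 hG
  have hass : Associated g (rename e.symm G) :=
    hg.associated_of_dvd hG' (hgd _ hGz)
  have hassQ : Associated (map (Int.castRingHom ℚ) g)
      (map (Int.castRingHom ℚ) (rename e.symm G)) := hass.map (map (Int.castRingHom ℚ))
  have h1 : Irreducible (map (Int.castRingHom ℚ) (rename e.symm G)) := hassQ.irreducible hgQ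
  rw [map_rename] at h1
  exact (MulEquiv.irreducible_iff (renameEquiv ℚ e.symm)).1 h1

end Pool.Agent.Zilber
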