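import Pool.Agent.CITLines.Basic

set_option autoImplicit false

/-! Core D, G1, DM2: degrees of field extensions. -/

namespace Pool.Agent.Zilber

open Pool.Agent.CITLines

private theorem tsub {E : Type} [Field E] [CharZero E] (S : Set E) :
    (IntermediateField.adjoin ℚ S).toSubfield = Subfield.closure S := by
  rw [IntermediateField.adjoin_toSubfield]
  refine le_antisymm (Subfield.closure_le.2 ?_) (Subfield.closure_mono Set.subset_union_right)
  rintro a (⟨q, rfl⟩ | ha)
  · rw [eq_ratCast]
    exact SubfieldClass.ratCast_mem _ q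
  · exact Subfield.subset_closure ha

open IntermediateField.algebraAdjoinAdjoin in
private theorem alg_iff {E : Type} [Field E] [CharZero E] (S : Set E) (a : E) :
    IsAlgebraic (Algebra.adjoin ℚ S) a ↔ IsAlgebraic (Subfield.closure S) a := by
  rw [← tsub]
  exact IsFractionRing.isAlgebraic_iff (Algebra.adjoin ℚ S) (IntermediateField.adjoin ℚ S) E

private theorem map_range {E : Type} [Field E] (E' : Subfield E) {O : Type} (z : O → E)
    (hz : ∀ o, z o ∈ E') :
    (Subfield.closure (Set.range fun o => (⟨z o, hz o⟩ : E'))).map E'.subtype =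
      Subfield.closure (Set.range z) := by
  rw [RingHom.map_field_closure, ← Set.range_comp]
  rfl

/-- The degree of `E'` over the field generated by the `z o` as elements of `E'`. (`Subfield.relfinrank_comap`,
`Subfield.relfinrank_eq_finrank_of_le`, `IntermediateField.adjoin_toSubfield`; in characteristic `0` the field generated by
`ℚ` and a set is the `Subfield.closure` of the set.) -/
theorem dm_finrank {E : Type} [Field E] [CharZero E] (E' : Subfield E) {O : Type} (z : O → E)
    (hz : ∀ o, z o ∈ E') :
    Module.finrank (IntermediateField.adjoin ℚ (Set.range fun o => (⟨z o, hz o⟩ : E'))) E' =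
      (Subfield.closure (Set.range z)).relfinrank E' := by
  have h1 : (Subfield.closure (Set.range z)).comap E'.subtype =
      Subfield.closure (Set.range fun o => (⟨z o, hz o⟩ : E')) := by
    rw [← map_range E' z hz, Subfield.comap_map]
  have h2 := Subfield.finrank_comap (Subfield.closure (Set.range z)) E'.subtype
  rw [h1, ← tsub, Subfield.fieldRange_subtype] at h2
  exact h2

/-- Equal transcendence degree: the extension is algebraic. (If `x i` is transcendental over `ℚ(z)` then
`rk ℚ (insert (x i) (range z)) = rk ℚ (range z) + 1`; but all these elements are algebraic over, even in the field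
generated by, the `x i`: `rk_le_of_algebraic`; the ranks are finite.) -/
theorem alg_of_rk {E : Type} [Field E] [CharZero E] {O ι : Type} [Finite O] [Finite ι] (z : O → E)
    (x : ι → E) (hz : ∀ o, z o ∈ Subfield.closure (Set.range x))
    (h : rk ℚ (Set.range x) ≤ rk ℚ (Set.range z)) (i : ι) :
    IsAlgebraic (Subfield.closure (Set.range z)) (x i) := by
  classical
  by_contra hcon
  have hcl : x i ∉ (AlgebraicIndependent.matroid ℚ E).closure (Set.range z) := by
    rw [AlgebraicIndependent.matroid_closure_eq]
    intro h1
    exact hcon ((alg_iff _ _).1 h1)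
  have h1 : rk ℚ (insert (x i) (Set.range z)) = rk ℚ (Set.range z) + 1 :=
    Matroid.eRk_insert_eq_add_one ⟨Set.mem_univ _, hcl⟩
  have h2 : rk ℚ (insert (x i) (Set.range z)) ≤ rk ℚ (Set.range x) := by
    apply rk_le_of_algebraic
    rintro a (rfl | ⟨o, rfl⟩)
    · exact isAlgebraic_algebraMap
        (⟨x i, Algebra.subset_adjoin ⟨i, rfl⟩⟩ : Algebra.adjoin ℚ (Set.range x))
    · exact (alg_iff _ _).2
        (isAlgebraic_algebraMap (⟨z o, hz o⟩ : Subfield.closure (Set.range x)))
  have h3 : rk ℚ (Set.range z) ≤ (Set.range z).encard := rk_le_encard _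
  have h4 : rk ℚ (Set.range z) < ⊤ := h3.trans_lt (Set.finite_range z).encard_lt_top
  have h5 : rk ℚ (Set.range z) + 1 ≤ rk ℚ (Set.range z) := (h1 ▸ h2).trans h
  have h6 : rk ℚ (Set.range z) < rk ℚ (Set.range z) + 1 :=
    ENat.lt_add_one_iff h4.ne |>.2 le_rfl
  exact absurd h5 (not_le.2 h6)

private theorem int_of {E : Type} [Field E] (E' : Subfield E) {F : Type} [Field F] [Algebra F E']
    (K : IntermediateField F E') (D : Subfield E) (hle : D ≤ E')
    (hmem : ∀ a : D, (⟨a, hle a.2⟩ : E') ∈ K) (a : E') (ha : IsAlgebraic D (a : E)) :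
    IsIntegral K a := by
  let φ : D →+* K :=
    { toFun := fun a => ⟨⟨a, hle a.2⟩, hmem a⟩
      map_one' := rfl
      map_mul' := fun _ _ => rfl
      map_zero' := rfl
      map_add' := fun _ _ => rfl }
  rw [← isAlgebraic_iff_isIntegral]
  obtain ⟨p, hp, hpe⟩ := ha
  refine ⟨p.map φ, (Polynomial.map_ne_zero_iff φ.injective).2 hp, ?_⟩
  apply E'.subtype.injective
  rw [Polynomial.aeval_def] at hpe
  rw [map_zero, Polynomial.aeval_def, Polynomial.eval₂_map, Polynomial.hom_eval₂, ← hpe]
  rfl

private theorem fin_of {F L : Type} [Field F] [Field L] [Algebra F L] {ι : Type} [Finite ι]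
    (x : ι → L) (hx : ∀ i, IsIntegral F (x i)) (hc : Subfield.closure (Set.range x) = ⊤) :
    FiniteDimensional F L := by
  have hfin : FiniteDimensional F (IntermediateField.adjoin F (Set.range x)) :=
    IntermediateField.finiteDimensional_adjoin (by
      rintro _ ⟨i, rfl⟩
      exact hx i)
  have htop : IntermediateField.adjoin F (Set.range x) = ⊤ := by
    rw [eq_top_iff]
    intro a _
    have h3 : Subfield.closure (Set.range x) ≤
        (IntermediateField.adjoin F (Set.range x)).toSubfield :=
      Subfield.closure_le.2 (IntermediateField.subset_adjoin F (Set.range x))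
    rw [hc] at h3
    exact h3 (Subfield.mem_top a)
  rw [htop] at hfin
  exact Module.Finite.equiv (IntermediateField.topEquiv (F := F) (E := L)).toLinearEquiv

/-- A finitely generated algebraic extension is finite. -/
theorem dm_fin {E : Type} [Field E] [CharZero E] {O ι : Type} [Finite ι] (z : O → E) (x : ι → E)
    (hz : ∀ o, z o ∈ Subfield.closure (Set.range x))
    (h : ∀ i, IsAlgebraic (Subfield.closure (Set.range z)) (x i)) :
    FiniteDimensional (IntermediateField.adjoin ℚ
      (Set.range fun o => (⟨z o, hz o⟩ : Subfield.closure (Set.range x))))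
      (Subfield.closure (Set.range x)) := by
  classical
  have hxm : ∀ i, x i ∈ Subfield.closure (Set.range x) := fun i =>
    Subfield.subset_closure ⟨i, rfl⟩
  generalize hE' : Subfield.closure (Set.range x) = E' at hz hxm ⊢
  generalize hK : IntermediateField.adjoin ℚ (Set.range fun o => (⟨z o, hz o⟩ : E')) = K
  have hle : Subfield.closure (Set.range z) ≤ E' := by
    refine Subfield.closure_le.2 ?_
    rintro _ ⟨o, rfl⟩
    exact hz o
  have hmem : ∀ a : Subfield.closure (Set.range z), (⟨a, hle a.2⟩ : E') ∈ K := by
    rintro ⟨a, ha⟩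
    have ha' := ha
    rw [← map_range E' z hz] at ha'
    obtain ⟨b, hb, hba⟩ := ha'
    have hb2 : (⟨a, hle ha⟩ : E') = b := Subtype.ext hba.symm
    rw [hb2]
    have hb3 : b ∈ Subfield.closure (Set.range fun o => (⟨z o, hz o⟩ : E')) := hb
    rw [← tsub] at hb3
    rw [← hK]
    exact hb3
  refine fin_of (fun i => (⟨x i, hxm i⟩ : E'))
    (fun i => int_of E' K _ hle hmem _ (h i)) ?_
  rw [← Subfield.comap_map E'.subtype (Subfield.closure _), map_range E' x hxm, hE',
    eq_top_iff]
  intro a _
  exact a.2

/-- So its degree is positive. -/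
theorem dm_pos {E : Type} [Field E] [CharZero E] {O ι : Type} [Finite ι] (z : O → E) (x : ι → E)
    (hz : ∀ o, z o ∈ Subfield.closure (Set.range x))
    (h : ∀ i, IsAlgebraic (Subfield.closure (Set.range z)) (x i)) :
    0 < (Subfield.closure (Set.range z)).relfinrank (Subfield.closure (Set.range x)) := by
  have hf := dm_fin z x hz h
  rw [← dm_finrank (Subfield.closure (Set.range x)) z hz]
  exact Module.finrank_pos

end Pool.Agent.Zilber
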