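import Pool.Agent.Zilber.FCTr
import Pool.Agent.Zilber.DMb

set_option autoImplicit false

/-! FC3. The transcendence degree of the `zbf` at a generic point. -/

namespace Pool.Agent.Zilber

open MvPolynomial Pool.Agent.CITLines

variable {ι β : Type} [Fintype ι] [Fintype β] [DecidableEq β] {r : ℝ} {h : ι → (β → ℂ) → ℂ}
  {c : β → ℂ} {R : Option β → ι → ℝ}

/-- The determinant of the real exponents near `N R`, divided by `N ^ card β`, converges: let
`m_(b,b')(x) = ∑ i, x_(b,i) * g_(i,b')`; `det (m(R)) ≠ 0`. There is `N₀` such that `det (m(x)) ≠ 0` for all `N ≥ N₀` and all `x` with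
`|x - N R| ≤ C` (`det (m(x)) = N ^ card β * det (m(x / N))`, `|x / N - R| ≤ C / N`, continuity of the determinant). -/
theorem det_near (g : ι → β → ℂ) (R' : β → ι → ℝ)
    (hdet : (Matrix.of fun b b' : β => ∑ i, (R' b i : ℂ) * g i b').det ≠ 0) (C : ℝ) :
    ∃ N₀ : ℕ, ∀ N : ℕ, N₀ ≤ N → ∀ x : β → ι → ℝ, (∀ b i, |x b i - N * R' b i| ≤ C) →
      (Matrix.of fun b b' : β => ∑ i, (x b i : ℂ) * g i b').det ≠ 0 := by
  have hcont : Continuous fun x : β → ι → ℝ =>
      (Matrix.of fun b b' : β => ∑ i, (x b i : ℂ) * g i b').det := by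
    refine Continuous.matrix_det (continuous_matrix fun b b' => ?_)
    refine continuous_finsetSum _ fun i _ => ?_
    exact (Complex.continuous_ofReal.comp
      ((continuous_apply i).comp (continuous_apply b))).mul continuous_const
  have h1 : ∀ᶠ x in nhds R', (Matrix.of fun b b' : β =>
      ∑ i, (x b i : ℂ) * g i b').det ≠ 0 := hcont.continuousAt.eventually_ne hdet
  obtain ⟨ε, hε, hball⟩ := Metric.eventually_nhds_iff.1 h1
  obtain ⟨N₀, hN₀⟩ := exists_nat_gt (|C| / ε)
  refine ⟨N₀, fun N hN x hx => ?_⟩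
  have hN0 : (0 : ℝ) < N := by
    have h2 : (0 : ℝ) ≤ |C| / ε := div_nonneg (abs_nonneg _) hε.le
    have h3 : (N₀ : ℝ) ≤ N := by exact_mod_cast hN
    linarith
  have hCN : |C| / N < ε := by
    rw [div_lt_iff₀ hN0]
    rw [div_lt_iff₀ hε] at hN₀
    have h3 : (N₀ : ℝ) ≤ N := by exact_mod_cast hN
    nlinarith
  have h2 := hball (y := fun b i => x b i / N) (by
    rw [dist_pi_lt_iff hε]
    intro b
    rw [dist_pi_lt_iff hε]
    intro i
    rw [Real.dist_eq]
    have h3 : x b i / N - R' b i = (x b i - N * R' b i) / N := by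
      field_simp
    rw [h3, abs_div, abs_of_pos hN0]
    refine lt_of_le_of_lt (div_le_div_of_nonneg_right ((hx b i).trans (le_abs_self C)) hN0.le) ?_
    exact hCN)
  intro h0
  apply h2
  have hNC : (N : ℂ) ≠ 0 := by exact_mod_cast hN0.ne'
  have h4 : (Matrix.of fun b b' : β => ∑ i, (((x b i / N : ℝ)) : ℂ) * g i b') =
      (N : ℂ)⁻¹ • (Matrix.of fun b b' : β => ∑ i, (x b i : ℂ) * g i b') := by
    ext b b'
    rw [Matrix.smul_apply, Matrix.of_apply, Matrix.of_apply, smul_eq_mul, Finset.mul_sum]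
    refine Finset.sum_congr rfl fun i _ => ?_
    push_cast
    rw [div_eq_mul_inv]
    ring
  rw [h4, Matrix.det_smul, h0, mul_zero]

/-- **A map with invertible derivative somewhere satisfies no polynomial relation on a ball.** The image of a
neighbourhood of `y₀` contains a neighbourhood of the image point (`HasStrictFDerivAt.map_nhds_eq_of_equiv` or
`.map_nhds_eq_of_surj`; a `C¹` map over `ℂ` is strictly differentiable: `ContDiffAt.hasStrictFDerivAt`), so `P` vanishes on
a nonempty open set of `β → ℂ`, which contains a product of infinite sets: `P = 0` (`MvPolynomial.funext_set`-type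
lemma, or induction). -/
theorem no_rel {y₀ : β → ℂ} (z : β → (β → ℂ) → ℂ) (hz : ∀ b, ContDiffAt ℂ 1 (z b) y₀)
    (hdet : (Matrix.of fun b b' : β => fderiv ℂ (z b) y₀ (Pi.single b' 1)).det ≠ 0)
    (P : MvPolynomial β ℂ) (hP : ∀ᶠ y in nhds y₀, eval (fun b => z b y) P = 0) : P = 0 := by
  classical
  obtain ⟨Z, hZdef⟩ : ∃ Z : (β → ℂ) → (β → ℂ), Z = fun y b => z b y := ⟨_, rfl⟩
  have hZ : ContDiffAt ℂ 1 Z y₀ := by
    rw [hZdef]
    exact contDiffAt_pi.2 hz
  have hS : HasStrictFDerivAt Z (fderiv ℂ Z y₀) y₀ := hZ.hasStrictFDerivAt one_ne_zero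
  obtain ⟨Mt, hMt⟩ : ∃ Mt : Matrix β β ℂ, Mt =
    Matrix.of fun b b' : β => fderiv ℂ (z b) y₀ (Pi.single b' 1) := ⟨_, rfl⟩
  rw [← hMt] at hdet
  have hL : ∀ w : β → ℂ, fderiv ℂ Z y₀ w = Mt.mulVec w := by
    intro w
    funext b
    have h1 : fderiv ℂ Z y₀ w b = fderiv ℂ (z b) y₀ w := by
      have h2 : HasFDerivAt (z b) ((ContinuousLinearMap.proj b : (β → ℂ) →L[ℂ] ℂ).comp
          (fderiv ℂ Z y₀)) y₀ := by
        have h3 := hasFDerivAt_pi'.1 hS.hasFDerivAt b
        rw [hZdef] at h3 ⊢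
        exact h3
      rw [h2.fderiv]
      rfl
    rw [h1]
    have h2 : w = ∑ b', w b' • (Pi.single b' 1 : β → ℂ) := by
      funext c
      rw [Finset.sum_apply]
      simp [Pi.single_apply]
    conv_lhs => rw [h2]
    rw [map_sum, Matrix.mulVec, dotProduct]
    refine Finset.sum_congr rfl fun b' _ => ?_
    rw [map_smul, hMt, Matrix.of_apply, smul_eq_mul, mul_comm]
  have hsurj : (fderiv ℂ Z y₀).range = ⊤ := by
    rw [eq_top_iff]
    rintro v -
    refine ⟨Mt⁻¹.mulVec v, ?_⟩
    have h1 := hL (Mt⁻¹.mulVec v)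
    rw [Matrix.mulVec_mulVec, Matrix.mul_nonsing_inv _ (Ne.isUnit hdet), Matrix.one_mulVec] at h1
    exact h1
  have hmap := hS.map_nhds_eq_of_surj hsurj
  have h2 : ∀ᶠ u in nhds (Z y₀), eval u P = 0 := by
    rw [← hmap, Filter.eventually_map]
    filter_upwards [hP] with y hy
    rw [hZdef]
    exact hy
  obtain ⟨ε, hε, hball⟩ := Metric.eventually_nhds_iff.1 h2
  refine funext_set (fun b => Metric.ball (Z y₀ b) ε) (fun b => ?_) fun u hu => ?_
  · exact infinite_of_mem_nhds (Z y₀ b) (Metric.ball_mem_nhds _ hε)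
  · rw [map_zero]
    refine hball ?_
    rw [dist_pi_lt_iff hε]
    exact fun b => hu b (Set.mem_univ b)

private theorem fcrk_alg_of_rk {k K : Type} [Field k] [Field K] [Algebra k K] (s t : Set K)
    (h : rk k (s ∪ t) ≤ rk k s) (hs : rk k s < ⊤) :
    ∀ a ∈ t, IsAlgebraic (Algebra.adjoin k s) a := by
  intro a ha
  unfold rk at h hs
  have h1 := (Matroid.eRk_lt_top_iff.1 hs).closure_eq_closure_of_subset_of_eRk_ge_eRk
    Set.subset_union_left h
  have h2 : a ∈ (AlgebraicIndependent.matroid k K).closure (s ∪ t) :=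
    Matroid.mem_closure_of_mem' _ (Set.mem_union_right _ ha)
      (by rw [AlgebraicIndependent.matroid_e]; exact Set.mem_univ a)
  rw [← h1, AlgebraicIndependent.matroid_closure_eq] at h2
  exact h2

private theorem fcrk_alg_closure {K : Type} [Field K] [Algebra ℚ K] (s : Set K) (a : K)
    (ha : IsAlgebraic (Algebra.adjoin ℚ s) a) : IsAlgebraic (Subfield.closure s) a := by
  have hle : ∀ x ∈ Algebra.adjoin ℚ s, x ∈ Subfield.closure s := by
    intro x hx
    induction hx using Algebra.adjoin_induction with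
    | mem x hx => exact Subfield.subset_closure hx
    | algebraMap r =>
      have h1 : algebraMap ℚ K r = (r : K) := eq_ratCast _ r
      rw [h1]
      exact SubfieldClass.ratCast_mem _ r
    | add x y _ _ hx hy => exact add_mem hx hy
    | mul x y _ _ hx hy => exact mul_mem hx hy
  obtain ⟨P, hP, hPa⟩ := ha
  let f : Algebra.adjoin ℚ s →+* Subfield.closure s :=
    { toFun := fun x => ⟨x, hle x x.2⟩
      map_one' := rfl
      map_mul' := fun _ _ => rfl
      map_zero' := rfl
      map_add' := fun _ _ => rfl }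
  have hf : Function.Injective f := by
    intro x y h
    have h1 : ((f x : Subfield.closure s) : K) = f y := by rw [h]
    exact Subtype.ext h1
  refine ⟨P.map f, (Polynomial.map_ne_zero_iff hf).2 hP, ?_⟩
  rw [Polynomial.aeval_def, Polynomial.eval₂_map]
  rw [Polynomial.aeval_def] at hPa
  exact hPa

private theorem fcrk_up {s : Set ℂ} (a : ℂ) (ha : IsAlgebraic ℚ a) :
    IsAlgebraic (Algebra.adjoin ℚ s) a := by
  obtain ⟨P, hP, hPa⟩ := ha
  refine ⟨P.map (algebraMap ℚ (Algebra.adjoin ℚ s)), (Polynomial.map_ne_zero_iff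
    (algebraMap ℚ (Algebra.adjoin ℚ s)).injective).2 hP, ?_⟩
  rw [Polynomial.aeval_def, Polynomial.eval₂_map]
  rw [Polynomial.aeval_def] at hPa
  exact hPa

private theorem fcrk_cd (hP : Pch r h c R) {y₀ : β → ℂ}
    (hy₀ : y₀ ∈ Metric.ball (0 : β → ℂ) r) (a : Option β → ι → ℤ) (ρ : Option β → ℂ)
    (o : Option β) : ContDiffAt ℂ 1 (fun y => zbf h a ρ y o) y₀ := by
  unfold zbf
  refine contDiffAt_const.mul (contDiffAt_prod fun i _ => ?_)
  have h1 : ContDiffAt ℂ 1 (h i) y₀ :=
    ((hP.cd i).contDiffAt (Metric.isOpen_ball.mem_nhds hy₀)).of_le (by norm_num)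
  have h2 := hP.ne i y₀ hy₀
  cases a o i with
  | ofNat n =>
    simp only [Int.ofNat_eq_natCast, zpow_natCast]
    exact h1.pow n
  | negSucc n =>
    simp only [zpow_negSucc]
    exact (h1.pow _).inv (pow_ne_zero _ h2)

private theorem fcrk_fd (hP : Pch r h c R) {y₀ : β → ℂ}
    (hy₀ : y₀ ∈ Metric.ball (0 : β → ℂ) r) (a : Option β → ι → ℤ) (ρ : Option β → ℂ)
    (o : Option β) (v : β → ℂ) : fderiv ℂ (fun y => zbf h a ρ y o) y₀ v =
      zbf h a ρ y₀ o * ∑ i, (a o i : ℂ) * (fderiv ℂ (h i) y₀ v / h i y₀) := by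
  classical
  have h1 : ∀ i ∈ (Finset.univ : Finset ι), HasFDerivAt (fun y => h i y ^ a o i)
      (((a o i : ℂ) * h i y₀ ^ (a o i - 1)) • fderiv ℂ (h i) y₀) y₀ := by
    intro i _
    have h2 : HasFDerivAt (h i) (fderiv ℂ (h i) y₀) y₀ :=
      (((hP.cd i).contDiffAt (Metric.isOpen_ball.mem_nhds hy₀)).differentiableAt
        (by norm_num)).hasFDerivAt
    exact (hasDerivAt_zpow (a o i) (h i y₀) (Or.inl (hP.ne i y₀ hy₀))).comp_hasFDerivAt y₀ h2
  have h3 := (HasFDerivAt.finsetProd h1).const_mul (ρ o)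
  have h4 : fderiv ℂ (fun y => zbf h a ρ y o) y₀ = ρ o • ∑ i, (∏ j ∈ Finset.univ.erase i,
      h j y₀ ^ a o j) • (((a o i : ℂ) * h i y₀ ^ (a o i - 1)) • fderiv ℂ (h i) y₀) := h3.fderiv
  rw [h4, ContinuousLinearMap.smul_apply, ContinuousLinearMap.sum_apply, smul_eq_mul]
  unfold zbf
  rw [mul_assoc]
  congr 1
  rw [Finset.mul_sum]
  refine Finset.sum_congr rfl fun i _ => ?_
  have h5 := hP.ne i y₀ hy₀
  have h6 : (∏ j ∈ Finset.univ.erase i, h j y₀ ^ a o j) * h i y₀ ^ a o i =
      ∏ j, h j y₀ ^ a o j :=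
    Finset.prod_erase_mul Finset.univ (fun j : ι => h j y₀ ^ a o j) (Finset.mem_univ i)
  rw [ContinuousLinearMap.smul_apply, ContinuousLinearMap.smul_apply, smul_eq_mul, smul_eq_mul,
    ← h6, zpow_sub_one₀ h5]
  field_simp

/-- **The transcendence degree.** `N₀` from `det_near` at the point `y₀` of `hP.wd`. Upper bound: the `zbf` are algebraic
over `ℚ[c + y₁]` (`hP.alg`, `hρ`; integral powers: the algebraic elements form a field), so the rank is at most
`card β` (`rk_le_of_algebraic`, `rk_range_of_indep`). Lower bound: the `zbf (some b)` are algebraically independent: an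
integral relation `P` (in the variables `Option β`, through `rename some`) at `y₁` holds at all `y` in the ball
(`pch_zrel`), and `no_rel` for `z b y = zbf h a ρ y (some b)`:
`fderiv (z b) y₀ = z b y₀ * ∑_i a (some b) i * fderiv (h i) y₀ / h i y₀`, so the determinant is `∏ z b y₀` times the
one of `det_near`. -/
theorem pch_rk (hP : Pch r h c R) (C : ℝ) : ∃ N₀ : ℕ, ∀ N : ℕ, N₀ ≤ N →
    ∀ a : Option β → ι → ℤ, (∀ o i, |(a o i : ℝ) - N * R o i| ≤ C) → ∀ ρ : Option β → ℂ,
      (∀ o, ρ o ≠ 0) → (∀ o, IsAlgebraic ℚ (ρ o)) → ∀ y₁ ∈ Metric.ball (0 : β → ℂ) r,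
      AlgebraicIndependent ℚ (fun b => c b + y₁ b) →
        rk ℚ (Set.range (zbf h a ρ y₁)) = Fintype.card β ∧
        ∀ i, IsAlgebraic (Subfield.closure (Set.range (zbf h a ρ y₁))) (h i y₁) := by
  obtain ⟨y₀, hy₀, hdet⟩ := hP.wd
  obtain ⟨g, hg⟩ : ∃ g : ι → β → ℂ, ∀ i b', g i b' =
    fderiv ℂ (h i) y₀ (Pi.single b' 1) / h i y₀ := ⟨_, fun _ _ => rfl⟩
  have hdet' : (Matrix.of fun b b' : β => ∑ i, (R (some b) i : ℂ) * g i b').det ≠ 0 := by
    have e : (Matrix.of fun b b' : β => ∑ i, (R (some b) i : ℂ) * g i b') =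
        Matrix.of fun b b' : β =>
          ∑ i, (R (some b) i : ℂ) * fderiv ℂ (h i) y₀ (Pi.single b' 1) / h i y₀ := by
      ext b b'
      rw [Matrix.of_apply, Matrix.of_apply]
      refine Finset.sum_congr rfl fun i _ => ?_
      rw [hg, mul_div_assoc]
    rw [e]
    exact hdet
  obtain ⟨N₀, hN₀⟩ := det_near g (fun b i => R (some b) i) hdet' C
  refine ⟨N₀, fun N hN a ha ρ hρ0 hρ y₁ hy₁ hgen => ?_⟩
  have hdN := hN₀ N hN (fun b i => (a (some b) i : ℝ)) fun b i => ha (some b) i
  -- the upper bound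
  have hcrk : rk ℚ (Set.range fun b => c b + y₁ b) = Fintype.card β :=
    rk_range_of_indep _ hgen
  have halgz : ∀ o, IsAlgebraic (Algebra.adjoin ℚ (Set.range fun b => c b + y₁ b))
      (zbf h a ρ y₁ o) := by
    intro o
    unfold zbf
    refine IsAlgebraic.mul (fcrk_up _ (hρ o)) ?_
    rw [← Subalgebra.mem_algebraicClosure]
    refine Subalgebra.prod_mem _ fun i _ => ?_
    rw [Subalgebra.mem_algebraicClosure]
    have h1 := hP.alg y₁ hy₁ hgen i
    cases a o i with
    | ofNat n =>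
      rw [Int.ofNat_eq_natCast, zpow_natCast]
      exact h1.pow _
    | negSucc n =>
      rw [zpow_negSucc]
      exact (h1.pow _).inv
  have hup : rk ℚ (Set.range (zbf h a ρ y₁) ∪ Set.range fun i => h i y₁) ≤
      (Fintype.card β : ℕ∞) := by
    rw [← hcrk]
    refine rk_le_of_algebraic ?_
    rintro _ (⟨o, rfl⟩ | ⟨i, rfl⟩)
    · exact halgz o
    · exact hP.alg y₁ hy₁ hgen i
  -- the lower bound
  have hind : AlgebraicIndependent ℚ fun b : β => zbf h a ρ y₁ (some b) := by
    have hind0 : AlgebraicIndependent ℤ fun b : β => zbf h a ρ y₁ (some b) := by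
      rw [algebraicIndependent_iff]
      intro P hP0
      have h1 : aeval (zbf h a ρ y₁) (rename some P) = 0 := by
        rw [aeval_rename]
        exact hP0
      have h2 := pch_zrel hP a ρ hρ0 hρ y₁ hy₁ hgen (rename some P) h1
      have h3 : map (Int.castRingHom ℂ) P = 0 := by
        refine no_rel (y₀ := y₀) (fun b y => zbf h a ρ y (some b)) (fun b => ?_) ?_ _ ?_
        · exact fcrk_cd hP hy₀ a ρ (some b)
        · have e : (Matrix.of fun b b' : β => fderiv ℂ
              (fun y => zbf h a ρ y (some b)) y₀ (Pi.single b' 1)) =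
              Matrix.of fun b b' : β => zbf h a ρ y₀ (some b) *
                (Matrix.of fun b b' : β =>
                  ∑ i, (((a (some b) i : ℤ) : ℝ) : ℂ) * g i b') b b' := by
            ext b b'
            rw [Matrix.of_apply, Matrix.of_apply, Matrix.of_apply,
              fcrk_fd hP hy₀ a ρ (some b)]
            congr 1
            refine Finset.sum_congr rfl fun i _ => ?_
            rw [hg]
            push_cast
            rfl
          rw [e, Matrix.det_mul_column]
          refine mul_ne_zero (Finset.prod_ne_zero_iff.2 fun b _ => ?_) hdN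
          unfold zbf
          exact mul_ne_zero (hρ0 _) (Finset.prod_ne_zero_iff.2 fun i _ =>
            zpow_ne_zero _ (hP.ne i y₀ hy₀))
        · filter_upwards [Metric.isOpen_ball.mem_nhds hy₀] with y hy
          have h4 := h2 y hy
          rw [aeval_rename, aeval_def] at h4
          rw [eval_map]
          exact h4
      exact map_injective _ (RingHom.injective_int (Int.castRingHom ℂ))
        (by rw [h3, map_zero])
    have hZQ : Algebra.IsAlgebraic ℤ ℚ := IsLocalization.isAlgebraic ℚ (nonZeroDivisors ℤ)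
    exact hind0.extendScalars ℚ
  have hlow : (Fintype.card β : ℕ∞) ≤ rk ℚ (Set.range (zbf h a ρ y₁)) := by
    rw [← rk_range_of_indep _ hind]
    refine rk_mono ?_
    rintro _ ⟨b, rfl⟩
    exact ⟨some b, rfl⟩
  have hrk : rk ℚ (Set.range (zbf h a ρ y₁)) = Fintype.card β :=
    le_antisymm ((rk_mono Set.subset_union_left).trans hup) hlow
  refine ⟨hrk, fun i => fcrk_alg_closure _ _ ?_⟩
  refine fcrk_alg_of_rk (Set.range (zbf h a ρ y₁)) (Set.range fun i => h i y₁) ?_ ?_ _ ⟨i, rfl⟩
  · rw [hrk]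
    exact hup
  · rw [hrk]
    exact ENat.natCast_lt_top _

end Pool.Agent.Zilber
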