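import Pool.Agent.Zilber.FCLog
import Pool.Agent.Zilber.FCRk
import Pool.Agent.Zilber.FCIrr
import Pool.Agent.Zil.GAGam

set_option autoImplicit false

/-! Core D, G2 and G3: the lower bound for the norm of the face (adaptor for `Pool.Agent.Zil.Gam.gamma_face`). -/

namespace Pool.Agent.Zilber

open MvPolynomial Pool.Agent.CITLines Pool.Agent.LSharp

variable {ι β : Type} [Fintype ι] [Fintype β] [DecidableEq β] {r : ℝ} {h : ι → (β → ℂ) → ℂ}
  {c : β → ℂ} {R : Option β → ι → ℝ}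

open Pool.Agent.Zil.Gam in
private theorem dface_l1 {O O' : Type} (e : O ≃ O') (F : MvPolynomial O ℤ) :
    l1 (rename e F) = L1 F := by
  classical
  unfold l1 L1
  rw [MvPolynomial.support_rename_of_injective e.injective,
    Finset.sum_image fun x _ y _ hxy => Finsupp.mapDomain_injective e.injective hxy]
  refine Finset.sum_congr rfl fun x _ => ?_
  rw [coeff_rename_mapDomain _ e.injective]

/-- The reindexing of the coordinates. -/
private noncomputable def dfaceA {t : ℕ} (e : β ≃ Fin t) : (Fin t → ℂ) →L[ℂ] (β → ℂ) :=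
  ContinuousLinearMap.pi fun b => ContinuousLinearMap.proj (e b)

omit [Fintype β] [DecidableEq β] in
private theorem dfaceA_apply {t : ℕ} (e : β ≃ Fin t) (y : Fin t → ℂ) :
    dfaceA e y = y ∘ e := rfl

omit [Fintype β] in
private theorem dfaceA_single {t : ℕ} (e : β ≃ Fin t) (b : Fin t) :
    dfaceA e (Pi.single b 1) = Pi.single (e.symm b) 1 := by
  funext b'
  change (Pi.single b 1 : Fin t → ℂ) (e b') = _
  by_cases hb : b' = e.symm b
  · rw [hb, Pi.single_eq_same, e.apply_symm_apply, Pi.single_eq_same]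
  · rw [Pi.single_eq_of_ne hb, Pi.single_eq_of_ne]
    intro h1
    exact hb (by rw [← h1, e.symm_apply_apply])

open Pool.Agent.Zil.Gam in
/-- The rank of the derivative in the new coordinates. -/
private theorem dface_rank {t q : ℕ} (eβ : β ≃ Fin t) (eι : ι ≃ Fin q)
    (eO : Option β ≃ Fin (t + 1)) {y₀ : β → ℂ} {ℓ : ι → (β → ℂ) → ℂ} {g : ι → β → ℂ}
    (hd : ∀ i, DifferentiableAt ℂ (ℓ i) y₀)
    (hg : ∀ i b, fderiv ℂ (ℓ i) y₀ (Pi.single b 1) = g i b)
    (hdet : (Matrix.of fun b b' : β => ∑ i, (R (some b) i : ℂ) * g i b').det ≠ 0) :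
    LinearIndependent ℂ (om (fun (y : Fin t → ℂ) (k : Fin (t + 1)) =>
      ∑ s, (R (eO.symm k) (eι.symm s) : ℂ) * ℓ (eι.symm s) (y ∘ eβ)) (y₀ ∘ eβ.symm)) := by
  have hy : dfaceA eβ (y₀ ∘ eβ.symm) = y₀ := by
    rw [dfaceA_apply]
    funext b
    simp
  have h1 : ∀ i, HasFDerivAt (fun y : Fin t → ℂ => ℓ i (y ∘ eβ))
      ((fderiv ℂ (ℓ i) y₀).comp (dfaceA eβ)) (y₀ ∘ eβ.symm) := by
    intro i
    have h2 : HasFDerivAt (ℓ i) (fderiv ℂ (ℓ i) y₀) (dfaceA eβ (y₀ ∘ eβ.symm)) := by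
      rw [hy]
      exact (hd i).hasFDerivAt
    exact h2.comp (y₀ ∘ eβ.symm) (dfaceA eβ).hasFDerivAt
  have h2 : ∀ k : Fin (t + 1), HasFDerivAt (fun y : Fin t → ℂ =>
      ∑ s, (R (eO.symm k) (eι.symm s) : ℂ) * ℓ (eι.symm s) (y ∘ eβ))
      (∑ s, (R (eO.symm k) (eι.symm s) : ℂ) • ((fderiv ℂ (ℓ (eι.symm s)) y₀).comp (dfaceA eβ)))
      (y₀ ∘ eβ.symm) := by
    intro k
    refine HasFDerivAt.fun_sum fun s _ => ?_
    exact (h1 (eι.symm s)).const_mul _
  have h3 := hasFDerivAt_pi.2 h2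
  have h4 : ∀ (b : Fin t) (k : Fin (t + 1)), om (fun (y : Fin t → ℂ) (k : Fin (t + 1)) =>
      ∑ s, (R (eO.symm k) (eι.symm s) : ℂ) * ℓ (eι.symm s) (y ∘ eβ)) (y₀ ∘ eβ.symm) b k =
      ∑ i, (R (eO.symm k) i : ℂ) * g i (eβ.symm b) := by
    intro b k
    unfold om
    rw [h3.fderiv]
    change (∑ s, (R (eO.symm k) (eι.symm s) : ℂ) •
      ((fderiv ℂ (ℓ (eι.symm s)) y₀).comp (dfaceA eβ))) (Pi.single b 1) = _
    rw [_root_.sum_apply, ← eι.symm.sum_comp]
    refine Finset.sum_congr rfl fun s _ => ?_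
    rw [_root_.smul_apply, ContinuousLinearMap.comp_apply, dfaceA_single, hg,
      smul_eq_mul]
  rw [Fintype.linearIndependent_iff]
  intro γ hγ
  have h5 : (Matrix.of fun b b' : β => ∑ i, (R (some b) i : ℂ) * g i b').mulVec
      (fun b' => γ (eβ b')) = 0 := by
    funext b
    have h6 := congrFun hγ (eO (some b))
    rw [Finset.sum_apply] at h6
    rw [Matrix.mulVec, dotProduct, ← eβ.symm.sum_comp]
    refine Eq.trans (Finset.sum_congr rfl fun b' _ => ?_) h6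
    rw [Pi.smul_apply, h4, Matrix.of_apply, eO.symm_apply_apply, eβ.apply_symm_apply,
      smul_eq_mul, mul_comm]
  have h6 := Matrix.eq_zero_of_mulVec_eq_zero hdet h5
  intro b
  have h7 := congrFun h6 (eβ.symm b)
  rw [eβ.apply_symm_apply] at h7
  exact h7

open Pool.Agent.Zil.Gam in
private theorem dface_noConst (hP : Pch r h c R) {t q : ℕ} (eβ : β ≃ Fin t) (eι : ι ≃ Fin q)
    {y₀ : β → ℂ} {r₀ : ℝ} (hsub : Metric.ball y₀ r₀ ⊆ Metric.ball 0 r) {ℓ : ι → (β → ℂ) → ℂ}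
    (hcd : ∀ i, ContDiffOn ℂ 2 (ℓ i) (Metric.ball y₀ r₀))
    (hfd : ∀ i, ∀ y ∈ Metric.ball y₀ r₀, ∀ b, fderiv ℂ (ℓ i) y (Pi.single b 1) =
        fderiv ℂ (h i) y (Pi.single b 1) / h i y) :
    NoConst {y' : Fin t → ℂ | y' ∘ eβ ∈ Metric.ball y₀ r₀}
      (fun y' s => ℓ (eι.symm s) (y' ∘ eβ)) := by
  intro γ hγ U' hU' ho hne b
  have hc : Continuous fun y : β → ℂ => (y ∘ eβ.symm : Fin t → ℂ) := by
    fun_prop
  obtain ⟨y, hy, hy'⟩ := pch_noConst hP hsub hcd hfd (fun i => γ (eι i))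
    (fun h1 => hγ (by
      funext s
      have h2 := congrFun h1 (eι.symm s)
      rw [eι.apply_symm_apply] at h2
      exact h2))
    {y : β → ℂ | (y ∘ eβ.symm : Fin t → ℂ) ∈ U'}
    (fun y hy => by
      have h2 := hU' hy
      have h3 : (y ∘ eβ.symm) ∘ eβ = y := by
        funext b
        simp
      change (y ∘ eβ.symm) ∘ eβ ∈ Metric.ball y₀ r₀ at h2
      rwa [h3] at h2)
    (ho.preimage hc) (by
      obtain ⟨y', hy'⟩ := hne
      refine ⟨y' ∘ eβ, ?_⟩
      have h3 : (y' ∘ eβ) ∘ eβ.symm = y' := by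
        funext b
        simp
      change (y' ∘ eβ) ∘ eβ.symm ∈ U'
      rwa [h3]) b
  refine ⟨y ∘ eβ.symm, hy, fun h1 => hy' ?_⟩
  have h3 : (y ∘ eβ.symm) ∘ eβ = y := by
    funext b
    simp
  rw [← h1, ← eι.sum_comp]
  refine Finset.sum_congr rfl fun i _ => ?_
  change _ = _ * ℓ (eι.symm (eι i)) ((y ∘ eβ.symm) ∘ eβ)
  rw [h3, eι.symm_apply_apply]

omit [Fintype β] [DecidableEq β] in
open Pool.Agent.Zil.Gam in
private theorem dface_zz {t q : ℕ} (eβ : β ≃ Fin t) (eι : ι ≃ Fin q)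
    (eO : Option β ≃ Fin (t + 1)) {ℓ : ι → (β → ℂ) → ℂ} (a : Option β → ι → ℤ)
    (ρ : Option β → ℂ) (y : Fin t → ℂ) (hexp : ∀ i, Complex.exp (ℓ i (y ∘ eβ)) = h i (y ∘ eβ)) :
    zz (fun (y' : Fin t → ℂ) s => ℓ (eι.symm s) (y' ∘ eβ))
      (fun k s => a (eO.symm k) (eι.symm s)) (fun k => ρ (eO.symm k)) y =
      zbf h a ρ (y ∘ eβ) ∘ eO.symm := by
  funext k
  unfold zz zbf
  rw [Function.comp_apply, Complex.exp_sum, ← eι.symm.prod_comp]
  congr 1
  refine Finset.prod_congr rfl fun s _ => ?_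
  rw [Complex.exp_int_mul, hexp]

/-- **The lower bound for faces.**

Proof. `y₀, r₀, ℓ` from `pch_log`. Let `t = card β`, `q = card ι`, `eβ : β ≃ Fin t`, `eι : ι ≃ Fin q`,
`eO : Option β ≃ Fin (t + 1)` (any). `ℓ' : (Fin t → ℂ) → Fin q → ℂ`, `ℓ' y' s = ℓ (eι.symm s) (y' ∘ eβ)`,
`U` = the set of the `y'` with `y' ∘ eβ ∈ ball y₀ r₀`, `R' k s = R (eO.symm k) (eι.symm s)`. `gamma_face` (Zil/GAGam) for
`U, ℓ', R', C`: `hℓ` (composition with a linear map), `hR` (`hP.hR`), `hN` from `pch_noConst`, `hr`: at `y₀` the vectors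
`om L y₀ b = (∑_s R' k s ∂_b ℓ'_s)_k` are independent because their coordinates `k = eO (some b')` form an invertible matrix
(`wd`, `hfd`). It gives `κ, E₀`; `N0 = max ⌈E₀⌉ (N₀ of pch_rk)`. For `N ≥ N0` and `a, ρ, y₁, G, fb, m`: the first claim is `pch_rk`.
`gamma_face` with `E = N`, `a' k s = a (eO.symm k) (eι.symm s)`, `F = rename eO fb`, `g = rename eO G`, `D = rename eO D₀` with `D₀` of
`pch_fibre`, `e₀ = relfinrank`: `g ^ m ∣ F`; `map g` is irreducible over `ℚ`: the lemma `irr_map` (FCIrr) with `z = zbf h a ρ y₁`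
and `pch_rk`; `¬ map g ∣ map D` because `D₀(z) ≠ 0`, `G(z) = 0`; `g(zz) = 0` on `U` from `pch_zrel` (`zz ℓ' a' ρ' y' = zbf h a ρ (y' ∘ eβ)`
reindexed, `Complex.exp` of the sum is the product of the integral powers `exp (ℓ i y) ^ a`: `Complex.exp_sum`,
`Complex.exp_int_mul`); the fibres from `pch_fibre`. `l1 (rename eO fb) = L1 fb`. -/
theorem face_bound (hP : Pch r h c R) (C : ℝ) : ∃ (κ : ℝ) (N0 : ℕ), 0 < κ ∧ ∀ N : ℕ, N0 ≤ N →
    ∀ a : Option β → ι → ℤ, (∀ o i, |(a o i : ℝ) - N * R o i| ≤ C) → ∀ ρ : Option β → ℂ,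
      (∀ o, ρ o ≠ 0) → (∀ o, IsAlgebraic ℚ (ρ o)) → (∀ o, |Real.log ‖ρ o‖| ≤ C * N) →
      ∀ y₁ ∈ Metric.ball (0 : β → ℂ) r, AlgebraicIndependent ℚ (fun b => c b + y₁ b) →
        rk ℚ (Set.range (zbf h a ρ y₁)) = Fintype.card β ∧
        (∀ i, IsAlgebraic (Subfield.closure (Set.range (zbf h a ρ y₁))) (h i y₁)) ∧
        ∀ (G fb : MvPolynomial (Option β) ℤ) (m : ℕ), Irreducible G →
          aeval (zbf h a ρ y₁) G = 0 → G ^ m ∣ fb → fb ≠ 0 →
          (m : ℝ) * (κ * (N : ℝ) ^ Fintype.card β) * (κ * N) ≤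
            (Subfield.closure (Set.range (zbf h a ρ y₁))).relfinrank
              (Subfield.closure (Set.range (zbf h a ρ y₁) ∪ Set.range fun i => h i y₁)) *
              Real.log (L1 fb) := by
  obtain ⟨y₀, r₀, hr₀, hsub, hdet, ℓ, hcd, hexp, hfd⟩ := pch_log hP
  let eβ : β ≃ Fin (Fintype.card β) := Fintype.equivFin β
  let eι : ι ≃ Fin (Fintype.card ι) := Fintype.equivFin ι
  let eO : Option β ≃ Fin (Fintype.card β + 1) :=
    Fintype.equivFinOfCardEq Fintype.card_option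
  have hy₀ : y₀ ∈ Metric.ball y₀ r₀ := Metric.mem_ball_self hr₀
  have hU : IsOpen {y' : Fin (Fintype.card β) → ℂ | y' ∘ eβ ∈ Metric.ball y₀ r₀} :=
    Metric.isOpen_ball.preimage (dfaceA eβ).continuous
  have hℓ : ContDiffOn ℂ 2 (fun (y' : Fin (Fintype.card β) → ℂ) s => ℓ (eι.symm s) (y' ∘ eβ))
      {y' | y' ∘ eβ ∈ Metric.ball y₀ r₀} := by
    rw [contDiffOn_pi]
    intro s
    exact (hcd (eι.symm s)).comp (dfaceA eβ).contDiff.contDiffOn fun y hy => hy
  have hR : LinearIndependent ℝ fun (k : Fin (Fintype.card β + 1)) s =>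
      R (eO.symm k) (eι.symm s) := by
    have h1 := (hP.hR.comp eO.symm eO.symm.injective).map'
      (LinearMap.funLeft ℝ ℝ eι.symm)
      (LinearMap.ker_eq_bot.2 (LinearMap.funLeft_injective_of_surjective ℝ ℝ _
        eι.symm.surjective))
    exact h1
  obtain ⟨κ, hκ, E₀, hE₀, hmain⟩ := Pool.Agent.Zil.Gam.gamma_face hU hℓ hR
    (dface_noConst hP eβ eι hsub hcd hfd)
    ⟨y₀ ∘ eβ.symm, by
      have h3 : (y₀ ∘ eβ.symm) ∘ eβ = y₀ := by
        funext b
        simp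
      change (y₀ ∘ eβ.symm) ∘ eβ ∈ Metric.ball y₀ r₀
      rwa [h3],
      dface_rank eβ eι eO
        (fun i => ((hcd i).contDiffAt (Metric.isOpen_ball.mem_nhds hy₀)).differentiableAt
          (by norm_num))
        (fun i b => hfd i y₀ hy₀ b) (by
          simpa only [mul_div_assoc] using hdet)⟩ C
  obtain ⟨N1, hN1⟩ := pch_rk hP C
  refine ⟨κ, max ⌈E₀⌉₊ N1, hκ, fun N hN a ha ρ hρ0 hρa hρl y₁ hy₁ hgen => ?_⟩
  obtain ⟨hrk, halg⟩ := hN1 N ((le_max_right _ _).trans hN) a ha ρ hρ0 hρa y₁ hy₁ hgen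
  refine ⟨hrk, halg, fun G fb m hG hG0 hdvd hfb => ?_⟩
  obtain ⟨D₀, hD₀, hDf⟩ := pch_fibre hP a ρ hρ0 hρa y₁ hy₁ hgen halg
  have hE : E₀ ≤ (N : ℝ) := by
    refine (Nat.le_ceil E₀).trans ?_
    exact_mod_cast (le_max_left _ _).trans hN
  have hzz : ∀ y : Fin (Fintype.card β) → ℂ, y ∘ eβ ∈ Metric.ball y₀ r₀ →
      Pool.Agent.Zil.Gam.zz (fun (y' : Fin (Fintype.card β) → ℂ) s => ℓ (eι.symm s) (y' ∘ eβ))
        (fun k s => a (eO.symm k) (eι.symm s)) (fun k => ρ (eO.symm k)) y =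
        zbf h a ρ (y ∘ eβ) ∘ eO.symm :=
    fun y hy => dface_zz eβ eι eO a ρ y fun i => hexp i _ hy
  have hren : ∀ (w : Option β → ℂ) (P : MvPolynomial (Option β) ℤ),
      aeval (w ∘ eO.symm) (rename eO P) = aeval w P := by
    intro w P
    rw [aeval_rename]
    congr 2
    funext o
    simp
  have hmap : ∀ (w : Option β → ℂ) (P : MvPolynomial (Option β) ℤ),
      aeval (w ∘ eO.symm) (map (Int.castRingHom ℚ) (rename eO P)) = aeval w P := by
    intro w P
    rw [← hren]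
    exact aeval_map_algebraMap ℚ _ _
  have h1 := hmain N hE (fun k s => a (eO.symm k) (eι.symm s))
    (fun k s => ha (eO.symm k) (eι.symm s)) (fun k => ρ (eO.symm k)) (fun k => hρ0 _)
    (fun k => hρl _) (rename eO fb) (rename eO G) (rename eO D₀) m
    ((Subfield.closure (Set.range (zbf h a ρ y₁))).relfinrank
      (Subfield.closure (Set.range (zbf h a ρ y₁) ∪ Set.range fun i => h i y₁)))
    (fun h2 => hfb ((map_eq_zero_iff _ (rename_injective eO eO.injective)).1 h2))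
    (by
      rw [← map_pow]
      exact map_dvd (rename eO) hdvd)
    (by
      rw [map_rename]
      refine (MulEquiv.irreducible_iff (renameEquiv ℚ eO)).2 ?_
      refine irr_map (zbf h a ρ y₁) ?_ G hG hG0
      rw [hrk, Fintype.card_option]
      push_cast
      rfl)
    (by
      rintro ⟨Q, hQ⟩
      have h2 := congrArg (aeval (zbf h a ρ y₁ ∘ eO.symm)) hQ
      rw [map_mul, hmap, hmap, hG0, zero_mul] at h2
      exact hD₀ h2)
    (by
      intro y hy
      rw [hzz y hy, hren]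
      exact pch_zrel hP a ρ hρ0 hρa y₁ hy₁ hgen G hG0 _ (hsub hy))
    (by
      classical
      intro z₀ hz₀ Y' hY' hY''
      have h2 : z₀ = (z₀ ∘ eO) ∘ eO.symm := by
        funext k
        simp
      have h3 := hDf (z₀ ∘ eO) (by
        rw [← hren, ← h2]
        exact hz₀) (Y'.image fun y => y ∘ eβ) (by
          intro y hy
          obtain ⟨y', hy', rfl⟩ := Finset.mem_image.1 hy
          refine ⟨hsub (hY' y' hy'), ?_⟩
          rw [← hY'' y' hy', hzz y' (hY' y' hy')]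
          funext o
          simp)
      rw [Finset.card_image_of_injective] at h3
      · exact h3
      · intro y y' hyy
        funext k
        have h4 := congrFun hyy (eβ.symm k)
        simpa using h4)
  rw [dface_l1] at h1
  exact h1

end Pool.Agent.Zilber
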