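import Pool.Agent.Zilber.DDefs

set_option autoImplicit false

/-! DG4. Elements with independent residues and elements with independent values.

* `rsd_mul`, `rsd_pow`, `rsd_sum`: calculus of `Rsd v u c` (`u = c` or `v (u - c) > 0`); `v` is a valuation trivial on `ℂ`; note that
  `v 0` has no meaning. If `Rsd v u c` and `c ≠ 0` then `u ≠ 0` and `v u = 0` (`u = c + (u - c)`, `v (u - c) > 0 = v c`: use `add` twice:
  `v u ≥ min 0 (v (u - c))`, and `0 = v c = v (u - (u - c)) ≥ min (v u) (v (u - c))`).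
* `rsd_aeval`: for a polynomial `P ∈ ℚ[O]` (induction on `P`).
* `val_sum_ne`: a finite sum of nonzero elements with different values is not zero.
* `rk_of_res`. Let `O' ⊆ O` be such that the `zb o`, `o ∈ O'`, are algebraically independent and `card O' = rk ℚ (range zb)` (basis of the
  matroid inside `range zb`, choose preimages). CLAIM: the `z (inl o)`, `o ∈ O'`, and the `z (inr b)` are algebraically independent over
  `ℚ`. Let `P ∈ ℚ[O' ⊕ B]`, `P ≠ 0`. Write `P = ∑_e P_e T^e`, `e : B →₀ ℕ`, `P_e ∈ ℚ[O']` (`MvPolynomial.sumAlgEquiv` or `sumToIter`). For `P_e ≠ 0`: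
  `P_e(zb) ≠ 0` is the residue of `φ (P_e(z))`, so `φ (P_e(z) z^e)` has the value `∑ b, e b * v (φ (z (inr b)))`, and these are different for
  different `e` (`hw`). So the sum `φ (aeval z P)` is not zero (`val_sum_ne`). -/

namespace Pool.Agent.Zilber

open MvPolynomial Module Pool.Agent.LSharp Pool.Agent.CITLines

section

variable {Ω : Type} [Field Ω] [Algebra ℂ Ω] {v : Ω → ℝ}

private theorem ab_neg (hv : RV ℂ v) (x : Ω) : v (-x) = v x := by
  by_cases hx : x = 0
  · rw [hx, neg_zero]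
  · have h1 : (algebraMap ℂ Ω (-1)) = -1 := by rw [map_neg, map_one]
    have h2 := hv.triv (-1) (by norm_num)
    rw [h1] at h2
    have h3 := hv.mul (-1) x (by simp) hx
    rw [h2, zero_add, neg_one_mul] at h3
    exact h3

private theorem ab_lt (hv : RV ℂ v) {x y : Ω} (hx : x ≠ 0) (hy : y ≠ 0) (h : v x < v y) :
    x + y ≠ 0 ∧ v (x + y) = v x := by
  have h0 : x + y ≠ 0 := by
    intro h1
    have h2 : y = -x := by
      rw [eq_neg_iff_add_eq_zero, add_comm]
      exact h1
    rw [h2, ab_neg hv] at h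
    exact lt_irrefl _ h
  refine ⟨h0, le_antisymm ?_ ?_⟩
  · have h1 := hv.add (x + y) (-y) h0 (neg_ne_zero.2 hy) (by rw [add_neg_cancel_right]; exact hx)
    rw [add_neg_cancel_right, ab_neg hv] at h1
    rcases min_le_iff.1 h1 with h2 | h2
    · exact h2
    · exact absurd h (not_lt.2 h2)
  · have h1 := hv.add x y hx hy h0
    rwa [min_eq_left h.le] at h1

private theorem ab_iff {u : Ω} {c : ℂ} :
    Rsd v u c ↔ (u - algebraMap ℂ Ω c = 0 ∨ 0 < v (u - algebraMap ℂ Ω c)) := by
  unfold Rsd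
  rw [sub_eq_zero]

/-- The maximal ideal. -/
private theorem ab_add (hv : RV ℂ v) {x y : Ω} (hx : x = 0 ∨ 0 < v x) (hy : y = 0 ∨ 0 < v y) :
    x + y = 0 ∨ 0 < v (x + y) := by
  by_cases h0 : x + y = 0
  · exact Or.inl h0
  by_cases hx0 : x = 0
  · rw [hx0, zero_add]
    exact hy
  by_cases hy0 : y = 0
  · rw [hy0, add_zero]
    exact hx
  right
  have h1 := hv.add x y hx0 hy0 h0
  exact lt_of_lt_of_le (lt_min (hx.resolve_left hx0) (hy.resolve_left hy0)) h1

private theorem ab_mul (hv : RV ℂ v) {x y : Ω} (hx : x = 0 ∨ 0 < v x) (hy : y = 0 ∨ 0 ≤ v y) :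
    x * y = 0 ∨ 0 < v (x * y) := by
  by_cases hx0 : x = 0
  · rw [hx0, zero_mul]
    exact Or.inl rfl
  by_cases hy0 : y = 0
  · rw [hy0, mul_zero]
    exact Or.inl rfl
  right
  rw [hv.mul x y hx0 hy0]
  exact add_pos_of_pos_of_nonneg (hx.resolve_left hx0) (hy.resolve_left hy0)

private theorem ab_cst (hv : RV ℂ v) (c : ℂ) :
    algebraMap ℂ Ω c = 0 ∨ 0 ≤ v (algebraMap ℂ Ω c) := by
  by_cases hc : c = 0
  · rw [hc, map_zero]
    exact Or.inl rfl
  · exact Or.inr (hv.triv c hc).ge

private theorem ab_int (hv : RV ℂ v) {u : Ω} {c : ℂ} (h : Rsd v u c) : u = 0 ∨ 0 ≤ v u := by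
  by_cases hu : u = 0
  · exact Or.inl hu
  by_cases hd : u - algebraMap ℂ Ω c = 0
  · rw [sub_eq_zero] at hd
    rw [hd]
    exact ab_cst hv c
  right
  have hdv := (ab_iff.1 h).resolve_left hd
  by_cases hc : algebraMap ℂ Ω c = 0
  · rw [hc, sub_zero] at hdv
    exact hdv.le
  have h1 := hv.add (algebraMap ℂ Ω c) (u - algebraMap ℂ Ω c) hc hd
    (by rw [add_sub_cancel]; exact hu)
  rw [add_sub_cancel] at h1
  refine le_trans (le_min ?_ hdv.le) h1
  exact (ab_cst hv c).resolve_left hc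

private theorem rsd_add (hv : RV ℂ v) {u u' : Ω} {c c' : ℂ} (h : Rsd v u c) (h' : Rsd v u' c') :
    Rsd v (u + u') (c + c') := by
  rw [ab_iff] at *
  rw [map_add, add_sub_add_comm]
  exact ab_add hv h h'

theorem rsd_ne (hv : RV ℂ v) {u : Ω} {c : ℂ} (h : Rsd v u c) (hc : c ≠ 0) : u ≠ 0 ∧ v u = 0 := by
  have hc' : algebraMap ℂ Ω c ≠ 0 := (map_ne_zero _).2 hc
  by_cases hd : u - algebraMap ℂ Ω c = 0
  · rw [sub_eq_zero] at hd
    rw [hd]
    exact ⟨hc', hv.triv c hc⟩
  have hdv := (ab_iff.1 h).resolve_left hd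
  have h1 := ab_lt hv hc' hd (by rw [hv.triv c hc]; exact hdv)
  rw [add_sub_cancel, hv.triv c hc] at h1
  exact h1

theorem rsd_mul (hv : RV ℂ v) {u u' : Ω} {c c' : ℂ} (h : Rsd v u c) (h' : Rsd v u' c') :
    Rsd v (u * u') (c * c') := by
  have h1 := ab_int hv h'
  rw [ab_iff] at *
  have h2 : u * u' - algebraMap ℂ Ω (c * c') =
      (u - algebraMap ℂ Ω c) * u' + (u' - algebraMap ℂ Ω c') * algebraMap ℂ Ω c := by
    rw [map_mul]
    ring
  rw [h2]
  exact ab_add hv (ab_mul hv h h1) (ab_mul hv h' (ab_cst hv c))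

private theorem rsd_aeval (hv : RV ℂ v) {E O : Type} [Field E] [CharZero E] (φ : E →+* Ω)
    (z : O → E) (zb : O → ℂ) (hzb : ∀ o, Rsd v (φ (z o)) (zb o)) (P : MvPolynomial O ℚ) :
    Rsd v (φ (aeval z P)) (aeval zb P) := by
  induction P using MvPolynomial.induction_on with
  | C a =>
    left
    rw [aeval_C, aeval_C]
    simp
  | add p q hp hq =>
    rw [map_add, map_add, map_add]
    exact rsd_add hv hp hq
  | mul_X p o hp =>
    rw [map_mul, map_mul, map_mul, aeval_X, aeval_X]
    exact rsd_mul hv hp (hzb o)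

theorem val_sum_ne (hv : RV ℂ v) {I : Type} (S : Finset I) (hS : S.Nonempty) (w : I → Ω)
    (hw : ∀ i ∈ S, w i ≠ 0) (hinj : Set.InjOn (fun i => v (w i)) (S : Set I)) :
    ∑ i ∈ S, w i ≠ 0 := by
  have key : ∀ T : Finset I, T.Nonempty → T ⊆ S →
      ∑ i ∈ T, w i ≠ 0 ∧ ∃ i ∈ T, v (∑ i ∈ T, w i) = v (w i) := by
    intro T hT
    induction hT using Finset.Nonempty.cons_induction with
    | singleton a =>
      intro hs
      rw [Finset.sum_singleton]
      exact ⟨hw a (hs (Finset.mem_singleton_self a)), a, Finset.mem_singleton_self a, rfl⟩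
    | cons a T ha hT ih =>
      intro hs
      have haS : a ∈ S := hs (Finset.mem_cons_self a T)
      have hTS : T ⊆ S := fun i hi => hs (Finset.mem_cons_of_mem hi)
      obtain ⟨h1, i, hi, h2⟩ := ih hTS
      have hne : v (w a) ≠ v (w i) := by
        intro h3
        have h4 := hinj haS (hTS hi) h3
        rw [h4] at ha
        exact ha hi
      rw [Finset.sum_cons]
      rcases lt_or_gt_of_ne hne with h3 | h3
      · have h4 := ab_lt hv (hw a haS) h1 (by rw [h2]; exact h3)
        exact ⟨h4.1, a, Finset.mem_cons_self a T, h4.2⟩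
      · have h4 := ab_lt hv h1 (hw a haS) (by rw [h2]; exact h3)
        rw [add_comm] at h4
        exact ⟨h4.1, i, Finset.mem_cons_of_mem hi, h4.2.trans h2⟩
  exact (key S hS (Finset.Subset.refl S)).1

private theorem ab_pow (hv : RV ℂ v) {u : Ω} (hu : u ≠ 0) (n : ℕ) : v (u ^ n) = n * v u := by
  induction n with
  | zero =>
    have h1 := hv.triv 1 one_ne_zero
    rw [map_one] at h1
    rw [pow_zero, h1]
    simp
  | succ n ih =>
    rw [pow_succ, hv.mul _ _ (pow_ne_zero n hu) hu, ih]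
    push_cast
    ring

private theorem ab_prod (hv : RV ℂ v) {B : Type} (S : Finset B) (u : B → Ω) (hu : ∀ b, u b ≠ 0) :
    v (∏ b ∈ S, u b) = ∑ b ∈ S, v (u b) := by
  classical
  induction S using Finset.induction_on with
  | empty =>
    have h1 := hv.triv 1 one_ne_zero
    rw [map_one] at h1
    rw [Finset.prod_empty, h1, Finset.sum_empty]
  | insert a T ha ih =>
    rw [Finset.prod_insert ha, Finset.sum_insert ha,
      hv.mul _ _ (hu a) (Finset.prod_ne_zero_iff.2 fun b _ => hu b), ih]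

end

theorem rk_of_res {E Ω : Type} [Field E] [CharZero E] [Field Ω] [Algebra ℂ Ω] (v : Ω → ℝ)
    (hv : RV ℂ v) (φ : E →+* Ω) {O B : Type} [Fintype O] [Fintype B] (z : O ⊕ B → E) (zb : O → ℂ)
    (hzb0 : ∀ o, zb o ≠ 0) (hz0 : ∀ b, z (Sum.inr b) ≠ 0)
    (hzb : ∀ o, Rsd v (φ (z (Sum.inl o))) (zb o))
    (hw : LinearIndependent ℚ (fun b => v (φ (z (Sum.inr b))))) :
    rk ℚ (Set.range zb) + Fintype.card B ≤ rk ℚ (Set.range z) := by
  classical
  obtain ⟨A, hA⟩ := (AlgebraicIndependent.matroid ℚ ℂ).exists_isBasis (Set.range zb)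
  have hAfin : A.Finite := (Set.finite_range zb).subset hA.subset
  have hft : Fintype A := hAfin.fintype
  have hind : AlgebraicIndependent ℚ ((↑) : A → ℂ) := hA.indep
  have hrk : rk ℚ (Set.range zb) = Fintype.card A := by
    unfold rk
    rw [← hA.encard_eq_eRk, Set.encard_eq_coe_toFinset_card, Set.toFinset_card]
  have hsec : ∀ a : A, ∃ o, zb o = a := fun a => hA.subset a.2
  choose f hf using hsec
  have hind' : AlgebraicIndependent ℚ (fun a : A => zb (f a)) := by
    have : (fun a : A => zb (f a)) = ((↑) : A → ℂ) := funext hf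
    rw [this]
    exact hind
  let y : B ⊕ A → E := Sum.elim (fun b => z (Sum.inr b)) (fun a => z (Sum.inl (f a)))
  have hy : AlgebraicIndependent ℚ y := by
    rw [algebraicIndependent_iff]
    intro P hP
    by_contra hP0
    set Q : MvPolynomial B (MvPolynomial A ℚ) := sumAlgEquiv ℚ B A P with hQ
    have hQ0 : Q ≠ 0 := fun h => hP0 ((sumAlgEquiv ℚ B A).injective (by rw [map_zero]; exact h))
    set ev : MvPolynomial B (MvPolynomial A ℚ) →+* E :=
      eval₂Hom (aeval (fun a => z (Sum.inl (f a))) : MvPolynomial A ℚ →ₐ[ℚ] E).toRingHom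
        (fun b => z (Sum.inr b)) with hev
    have h1 : ev Q = aeval y P := by
      have h2 : ev.comp (sumAlgEquiv ℚ B A).toRingEquiv.toRingHom =
          (aeval y : MvPolynomial (B ⊕ A) ℚ →ₐ[ℚ] E).toRingHom := by
        refine MvPolynomial.ringHom_ext (fun q => ?_) (fun i => ?_)
        · change ev (sumAlgEquiv ℚ B A (C q)) = aeval y (C q)
          rw [sumAlgEquiv_C_inl, hev, coe_eval₂Hom, eval₂_C, aeval_C]
          change aeval (fun a => z (Sum.inl (f a))) (C q) = _
          rw [aeval_C]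
        · rcases i with b | a
          · change ev (sumAlgEquiv ℚ B A (X (Sum.inl b))) = aeval y (X (Sum.inl b))
            rw [sumAlgEquiv_X_inl, hev, coe_eval₂Hom, eval₂_X, aeval_X]
            rfl
          · change ev (sumAlgEquiv ℚ B A (X (Sum.inr a))) = aeval y (X (Sum.inr a))
            rw [sumAlgEquiv_X_inr, hev, coe_eval₂Hom, eval₂_C, aeval_X]
            change aeval (fun a => z (Sum.inl (f a))) (X a) = _
            rw [aeval_X]
            rfl
      exact RingHom.congr_fun h2 P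
    rw [hP] at h1
    have h3 : ev Q = ∑ e ∈ Q.support, aeval (fun a => z (Sum.inl (f a))) (coeff e Q) *
        ∏ b, z (Sum.inr b) ^ e b := by
      rw [hev, coe_eval₂Hom, eval₂_eq']
      rfl
    have h4 : ∀ e ∈ Q.support, Rsd v (φ (aeval (fun a => z (Sum.inl (f a))) (coeff e Q)))
        (aeval (fun a => zb (f a)) (coeff e Q)) ∧ aeval (fun a => zb (f a)) (coeff e Q) ≠ 0 := by
      intro e he
      refine ⟨rsd_aeval hv φ _ _ (fun a => hzb (f a)) _, fun h => ?_⟩
      exact (mem_support_iff.1 he) (hind'.eq_zero_of_aeval_eq_zero _ h)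
    have h5 : ∀ e ∈ Q.support, φ (aeval (fun a => z (Sum.inl (f a))) (coeff e Q) *
        ∏ b, z (Sum.inr b) ^ e b) ≠ 0 ∧ v (φ (aeval (fun a => z (Sum.inl (f a))) (coeff e Q) *
        ∏ b, z (Sum.inr b) ^ e b)) = ∑ b, (e b : ℝ) * v (φ (z (Sum.inr b))) := by
      intro e he
      obtain ⟨h6, h7⟩ := h4 e he
      obtain ⟨h8, h9⟩ := rsd_ne hv h6 h7
      have h10 : ∀ b, φ (z (Sum.inr b)) ≠ 0 := fun b => (map_ne_zero φ).2 (hz0 b)
      have h11 : φ (∏ b, z (Sum.inr b) ^ e b) = ∏ b, φ (z (Sum.inr b)) ^ e b := by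
        rw [map_prod]
        exact Finset.prod_congr rfl fun b _ => map_pow φ _ _
      have h12 : (∏ b, φ (z (Sum.inr b)) ^ e b) ≠ 0 :=
        Finset.prod_ne_zero_iff.2 fun b _ => pow_ne_zero _ (h10 b)
      rw [map_mul, h11]
      refine ⟨mul_ne_zero h8 h12, ?_⟩
      rw [hv.mul _ _ h8 h12, h9, zero_add, ab_prod hv _ _ (fun b => pow_ne_zero _ (h10 b))]
      exact Finset.sum_congr rfl fun b _ => ab_pow hv (h10 b) _
    have h6 := val_sum_ne hv Q.support (support_nonempty.2 hQ0)
      (fun e => φ (aeval (fun a => z (Sum.inl (f a))) (coeff e Q) * ∏ b, z (Sum.inr b) ^ e b))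
      (fun e he => (h5 e he).1) (by
        intro e he e' he' hee
        have h7 := (h5 e he).2
        have h8 := (h5 e' he').2
        have h9 : ∑ b, ((e b : ℚ) - (e' b : ℚ)) • v (φ (z (Sum.inr b))) = 0 := by
          have h10 : ∑ b, (e b : ℝ) * v (φ (z (Sum.inr b))) = ∑ b, (e' b : ℝ) * v (φ (z (Sum.inr b))) := by
            rw [← h7, ← h8]
            exact hee
          rw [← sub_eq_zero, ← Finset.sum_sub_distrib] at h10
          rw [← h10]
          refine Finset.sum_congr rfl fun b _ => ?_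
          rw [Rat.smul_def]
          push_cast
          ring
        have h10 := Fintype.linearIndependent_iff.1 hw _ h9
        ext b
        have h11 := h10 b
        rw [sub_eq_zero] at h11
        exact_mod_cast h11)
    apply h6
    rw [← map_sum, ← h3, h1, map_zero]
  have h1 := rk_range_of_indep y hy
  have h2 : Set.range y ⊆ Set.range z := by
    rintro _ ⟨i | i, rfl⟩
    · exact ⟨Sum.inr i, rfl⟩
    · exact ⟨Sum.inl (f i), rfl⟩
  calc rk ℚ (Set.range zb) + Fintype.card B = rk ℚ (Set.range y) := by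
        rw [h1, hrk, Fintype.card_sum]
        push_cast
        rw [add_comm]
    _ ≤ rk ℚ (Set.range z) := rk_mono h2

end Pool.Agent.Zilber
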