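import Pool.Agent.Zilber.DGAb

set_option autoImplicit false

/-! DG5. The monomials `z o` under the embedding, and transfer from the field generated by the
branch to the fraction
field.

`f : ι → MvPowerSeries β F`, `GF f` the field generated over `F` by the `f i` in the fraction
field, `gen f i : GF f`, `fr f i` in the
fraction field. `a : Ob cl bs → ι → ℤ` exponents with `Expo .. a`.
* `em_zero`: `mon (gen f) (a o) = mon (gen f) (zpart cl (a o)) * mon (gen f) (ppart cl (a o))`
(`mon_add'`, `zpart + ppart = id`);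
  `φ (mon (gen f) (zpart ..)) = algebraMap (∏ i : block 0, p i ^ a o i)` (`h.zero`, `map_prod`,
`map_zpow₀`); `Rsd` of a product
  (`rsd_mul`, `Rsd v (algebraMap c) c` by the left alternative).
* `em_val`: `v (φ (mon (gen f) a)) = ∑ i, a i * v (φ (gen f i))` (all nonzero; `hv.mul`; integer
powers), `v (φ (gen f i)) = 0` for `cl i = 0`
  (`h.zero`, trivial on `ℂ`; `p i ≠ 0` because `gen f i ≠ 0`), `h.val` for `cl i ≠ 0`; interchange
the sums; `q i b = 0` for `cl i = 0`, `b : Bp`
  (`hcq`).
* `em_rk`, `em_rel`, `em_aeval`: the inclusion `GF f → FractionRing` is an injective ring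
homomorphism which sends `gen f i` to `fr f i`
  and `mon (gen f) a` to `mon (fr f) a` (`mon_map`). Transcendence degree: `AlgebraicIndependent`
of a subset of the range is
  preserved and reflected (`rk_image_le` of CITLines/Rank.lean and `AlgebraicIndependent.map'`);
relative degree:
  `Subfield.relfinrank_map_map`, `Subfield.map` of a closure is the closure of the image
(`RingHom.map_field_closure`). -/

namespace Pool.Agent.Zilber

open MvPolynomial Module Pool.Agent.LSharp Pool.Agent.CITLines

variable {F : Type} [Field F] {ι β : Type} [Fintype ι] [Fintype β] [DecidableEq β]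

private theorem emg_ne {f : ι → MvPowerSeries β F} (hf : ∀ i, f i ≠ 0) (i : ι) : gen f i ≠ 0 := by
  intro h
  have h1 : algebraMap (MvPowerSeries β F) (FractionRing (MvPowerSeries β F)) (f i) = 0 :=
    congrArg Subtype.val h
  rw [map_eq_zero_iff _ (IsFractionRing.injective _ _)] at h1
  exact hf i h1

private theorem part_add {k : ℕ} (cl : ι → Fin (k + 1)) (a : ι → ℤ) :
    zpart cl a + ppart cl a = a := by
  funext i
  rw [Pi.add_apply]
  unfold zpart ppart
  split_ifs <;> simp

theorem em_zero {k : ℕ} {σ : F →+* ℂ} {f : ι → MvPowerSeries β F} {cl : ι → Fin (k + 1)}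
    {bs : β → ι} {g : β → ι} {q : ι → β → ℚ} {p : {i // cl i = 0} → ℂ} {Ω : Type} [Field Ω]
    [Algebra ℂ Ω] {v : Ω → ℝ} {φ : GF f →+* Ω} (h : IsEmbD σ f cl bs g q p v φ)
    (hf : ∀ i, f i ≠ 0) (a : ι → ℤ) (ρ : ℂ) (hρ : Rsd v (φ (mon (gen f) (ppart cl a))) ρ) :
    Rsd v (φ (mon (gen f) a)) (ρ * ∏ i, p i ^ a i) := by
  have h1 : mon (gen f) a = mon (gen f) (zpart cl a) * mon (gen f) (ppart cl a) := by
    rw [← mon_add' (emg_ne hf), part_add]
  have h2 : φ (mon (gen f) (zpart cl a)) = algebraMap ℂ Ω (∏ i, p i ^ a i) := by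
    unfold mon
    rw [map_prod, map_prod]
    have h3 : ∀ i : ι, φ (gen f i ^ zpart cl a i) =
        if h0 : cl i = 0 then algebraMap ℂ Ω (p ⟨i, h0⟩ ^ a i) else 1 := by
      intro i
      rw [map_zpow₀]
      unfold zpart
      split_ifs with h0
      · rw [h.zero ⟨i, h0⟩, map_zpow₀]
      · rw [zpow_zero]
    rw [Finset.prod_congr rfl fun i _ => h3 i,
      ← Fintype.prod_subtype_mul_prod_subtype (fun i => cl i = 0)]
    have h4 : ∏ i : {i // ¬ cl i = 0}, (if h0 : cl i = 0 then
        algebraMap ℂ Ω (p ⟨i, h0⟩ ^ a i) else 1) = 1 :=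
      Finset.prod_eq_one fun i _ => dif_neg i.2
    rw [h4, mul_one]
    exact Finset.prod_congr rfl fun i _ => dif_pos i.2
  rw [h1, map_mul, h2, mul_comm ρ]
  exact rsd_mul h.rv (Or.inl rfl) hρ

theorem em_val {k : ℕ} {σ : F →+* ℂ} {f : ι → MvPowerSeries β F} {cl : ι → Fin (k + 1)}
    {bs : β → ι} {g : β → ι} {q : ι → β → ℚ} {p : {i // cl i = 0} → ℂ} {Ω : Type} [Field Ω]
    [Algebra ℂ Ω] {v : Ω → ℝ} {φ : GF f →+* Ω} (h : IsEmbD σ f cl bs g q p v φ)
    (hcq : ∀ i b, q i b ≠ 0 → cl i = cl (bs b)) (hf : ∀ i, f i ≠ 0) (a : ι → ℤ) :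
    v (φ (mon (gen f) a)) =
      ∑ b : Bp cl bs, ((∑ i, (a i : ℚ) * q i b : ℚ) : ℝ) * v (φ (gen f (g b))) := by
  have hne : ∀ i, φ (gen f i) ≠ 0 := fun i => by
    rw [map_ne_zero]
    exact emg_ne hf i
  have h1 : v 1 = 0 := by
    have h2 := h.rv.triv 1 one_ne_zero
    rwa [map_one] at h2
  have hpow : ∀ (u : Ω) (hu : u ≠ 0) (n : ℕ), v (u ^ n) = n * v u := by
    intro u hu n
    induction n with
    | zero => rw [pow_zero, h1, Nat.cast_zero, zero_mul]
    | succ n ih =>
      rw [pow_succ, h.rv.mul _ _ (pow_ne_zero _ hu) hu, ih]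
      push_cast
      ring
  have hzpow : ∀ (u : Ω) (hu : u ≠ 0) (n : ℤ), v (u ^ n) = n * v u := by
    intro u hu n
    obtain ⟨m, rfl | rfl⟩ := n.eq_nat_or_neg
    · rw [zpow_natCast, hpow u hu, Int.cast_natCast]
    · have h2 := h.rv.mul (u ^ m) (u ^ (-(m : ℤ))) (pow_ne_zero _ hu) (zpow_ne_zero _ hu)
      rw [← zpow_natCast, ← zpow_add₀ hu, add_neg_cancel, zpow_zero, h1, zpow_natCast,
        hpow u hu] at h2
      push_cast
      linarith
  have hprod : ∀ (s : Finset ι) (u : ι → Ω), (∀ i, u i ≠ 0) →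
      v (∏ i ∈ s, u i) = ∑ i ∈ s, v (u i) := by
    intro s u hu
    classical
    induction s using Finset.induction_on with
    | empty => rw [Finset.prod_empty, h1, Finset.sum_empty]
    | insert i s hi ih =>
      rw [Finset.prod_insert hi, Finset.sum_insert hi,
        h.rv.mul _ _ (hu i) (Finset.prod_ne_zero_iff.2 fun i _ => hu i), ih]
  have hv : ∀ i, v (φ (gen f i)) = ∑ b : Bp cl bs, (q i b : ℝ) * v (φ (gen f (g b))) := by
    intro i
    by_cases h0 : cl i = 0
    · have h2 : v (φ (gen f i)) = 0 := by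
        have h3 := h.zero ⟨i, h0⟩
        have h4 : p ⟨i, h0⟩ ≠ 0 := by
          intro h5
          rw [h5, map_zero] at h3
          exact hne i h3
        have h6 := h.rv.triv _ h4
        rw [← h3] at h6
        exact h6
      rw [h2]
      refine (Finset.sum_eq_zero fun b _ => ?_).symm
      have h3 : q i b = 0 := by
        by_contra h4
        have h5 := hcq i b h4
        rw [h0] at h5
        exact b.2 h5.symm
      rw [h3]
      simp
    · exact h.val i h0
  unfold mon
  rw [map_prod, hprod _ _ fun i => by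
    rw [map_zpow₀]
    exact zpow_ne_zero _ (hne i)]
  simp only [map_zpow₀]
  rw [Finset.sum_congr rfl fun i _ => hzpow _ (hne i) (a i)]
  rw [Finset.sum_congr rfl fun i _ => by rw [hv i, Finset.mul_sum]]
  rw [Finset.sum_comm]
  refine Finset.sum_congr rfl fun b _ => ?_
  push_cast
  rw [Finset.sum_mul]
  exact Finset.sum_congr rfl fun i _ => by ring

private theorem rk_image_eq {K L : Type} [Field K] [Field L] [Algebra ℚ K] [Algebra ℚ L]
    (f : K →ₐ[ℚ] L) (s : Set K) : rk ℚ (f '' s) = rk ℚ s := by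
  refine le_antisymm (rk_image_le f s) ?_
  obtain ⟨B, hB⟩ := (AlgebraicIndependent.matroid ℚ K).exists_isBasis s
  have h1 : AlgebraicIndependent ℚ ((↑) : B → K) := hB.indep
  have h2 : AlgebraicIndependent ℚ (fun b : B => f b) := h1.map' f.injective
  have h3 : AlgebraicIndependent ℚ ((↑) : (f '' B : Set L) → L) := by
    have h4 := h2.coe_range
    have h5 : Set.range (fun b : B => f b) = f '' B := by
      rw [Set.image_eq_range]
    rwa [h5] at h4
  have h4 : (AlgebraicIndependent.matroid ℚ L).Indep (f '' B) := h3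
  have h5 : (f '' B).encard ≤ rk ℚ (f '' s) :=
    h4.encard_le_eRk_of_subset (Set.image_mono hB.subset)
  rw [Function.Injective.encard_image (f := f) f.injective B] at h5
  rw [rk, ← hB.encard_eq_eRk]
  exact h5

private theorem mon_fr (f : ι → MvPowerSeries β F) (a : ι → ℤ) :
    mon (fr f) a = algebraMap (GF f) (FractionRing (MvPowerSeries β F)) (mon (gen f) a) :=
  mon_map (algebraMap (GF f) (FractionRing (MvPowerSeries β F))) (gen f) a

theorem em_rk (f : ι → MvPowerSeries β F) [CharZero F] {O : Type} [Finite O] (a : O → ι → ℤ) :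
    rk ℚ (Set.range fun o => mon (fr f) (a o)) = rk ℚ (Set.range fun o => mon (gen f) (a o)) := by
  rw [← rk_image_eq (algebraMap (GF f) (FractionRing (MvPowerSeries β F))).toRatAlgHom,
    ← Set.range_comp]
  congr 2
  funext o
  exact mon_fr f (a o)

theorem em_rkX (f : ι → MvPowerSeries β F) [CharZero F] :
    rk ℚ (Set.range (fr f)) = rk ℚ (Set.range (gen f)) := by
  rw [← rk_image_eq (algebraMap (GF f) (FractionRing (MvPowerSeries β F))).toRatAlgHom,
    ← Set.range_comp]
  rfl

theorem em_rel (f : ι → MvPowerSeries β F) {O : Type} (a : O → ι → ℤ) :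
    (Subfield.closure (Set.range fun o => mon (fr f) (a o))).relfinrank
        (Subfield.closure (Set.range (fr f))) =
      (Subfield.closure (Set.range fun o => mon (gen f) (a o))).relfinrank
        (Subfield.closure (Set.range (gen f))) := by
  rw [← Subfield.relfinrank_map_map (Subfield.closure (Set.range fun o => mon (gen f) (a o))) _
    (algebraMap (GF f) (FractionRing (MvPowerSeries β F))), RingHom.map_field_closure,
    RingHom.map_field_closure, ← Set.range_comp, ← Set.range_comp]
  congr 3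
  funext o
  exact mon_fr f (a o)

theorem em_aeval (f : ι → MvPowerSeries β F) {O : Type} (a : O → ι → ℤ) (P : MvPolynomial O ℤ) :
    aeval (fun o => mon (fr f) (a o)) P = 0 ↔ aeval (fun o => mon (gen f) (a o)) P = 0 := by
  have h1 : aeval (fun o => mon (fr f) (a o)) P =
      algebraMap (GF f) (FractionRing (MvPowerSeries β F))
        (aeval (fun o => mon (gen f) (a o)) P) := by
    have h2 : (fun o => mon (fr f) (a o)) = fun o =>
        algebraMap (GF f) (FractionRing (MvPowerSeries β F)) (mon (gen f) (a o)) :=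
      funext fun o => mon_fr f (a o)
    rw [MvPolynomial.map_aeval, h2, MvPolynomial.aeval_def, MvPolynomial.coe_eval₂Hom]
    congr 1
  rw [h1, map_eq_zero_iff _ (algebraMap (GF f) (FractionRing (MvPowerSeries β F))).injective]

end Pool.Agent.Zilber
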