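import Mathlib

set_option autoImplicit false

/-! DG1. Generic points of a ball.

PROOF. For `P ∈ ℚ[T_b]`, `P ≠ 0`, let `U P = {y | aeval (fun b => c b + y b) P ≠ 0}`. It is open (a polynomial function is
continuous) and dense: if `U P` does not meet a nonempty open set then the polynomial function of `P` vanishes on a product of
balls (of infinite sets), so `P = 0` (`MvPolynomial.funext_set` or the like over `ℂ`; `MvPolynomial.map_injective`). There are only
countably many `P` (`β` finite, `ℚ` countable: `MvPolynomial` is countable), so the intersection of the `U P` is dense (Baire: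
`dense_iInter_of_isOpen`, `β → ℂ` is a complete metric space) and meets the ball. -/

namespace Pool.Agent.Zilber

private theorem open_P {β : Type} [Fintype β] (c : β → ℂ) (P : MvPolynomial β ℚ) :
    IsOpen {y : β → ℂ | MvPolynomial.aeval (fun b => c b + y b) P ≠ 0} := by
  have h1 : Continuous fun y : β → ℂ => MvPolynomial.aeval (fun b => c b + y b) P := by
    have h2 : (fun y : β → ℂ => MvPolynomial.aeval (fun b => c b + y b) P) =
        fun y => MvPolynomial.eval (c + y) (MvPolynomial.map (algebraMap ℚ ℂ) P) := by
      funext y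
      rw [MvPolynomial.aeval_def, MvPolynomial.eval₂_eq_eval_map]
      rfl
    rw [h2]
    exact (MvPolynomial.continuous_eval _).comp (continuous_const.add continuous_id)
  exact isOpen_ne.preimage h1

private theorem dense_P {β : Type} [Fintype β] (c : β → ℂ) (P : MvPolynomial β ℚ) (hP : P ≠ 0) :
    Dense {y : β → ℂ | MvPolynomial.aeval (fun b => c b + y b) P ≠ 0} := by
  rw [Metric.dense_iff]
  intro x r hr
  by_contra hne
  rw [Set.not_nonempty_iff_eq_empty] at hne
  apply hP
  have hinf : ∀ b : β, (Metric.ball (c b + x b) r : Set ℂ).Infinite := by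
    intro b
    exact infinite_of_mem_nhds _ (Metric.ball_mem_nhds _ hr)
  have h1 : MvPolynomial.map (algebraMap ℚ ℂ) P = 0 := by
    refine MvPolynomial.funext_set (fun b => Metric.ball (c b + x b) r) hinf fun z hz => ?_
    rw [map_zero]
    by_contra hz0
    have h2 : z - c ∈ Metric.ball x r ∩
        {y : β → ℂ | MvPolynomial.aeval (fun b => c b + y b) P ≠ 0} := by
      refine ⟨?_, ?_⟩
      · rw [Metric.mem_ball, dist_pi_lt_iff hr]
        intro b
        have h3 := hz b (Set.mem_univ b)
        rw [Metric.mem_ball, dist_eq_norm] at h3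
        rw [dist_eq_norm, Pi.sub_apply]
        have h4 : z b - c b - x b = z b - (c b + x b) := by ring
        rwa [h4]
      · have h3 : (fun b => c b + (z - c) b) = z := by
          funext b
          simp
        change MvPolynomial.aeval (fun b => c b + (z - c) b) P ≠ 0
        rw [h3, MvPolynomial.aeval_def, MvPolynomial.eval₂_eq_eval_map]
        exact hz0
    rw [hne] at h2
    exact h2
  exact (MvPolynomial.map_injective (algebraMap ℚ ℂ) (algebraMap ℚ ℂ).injective)
    (by rw [h1, map_zero])

theorem exists_generic {β : Type} [Fintype β] (c : β → ℂ) (r : ℝ) (hr : 0 < r) :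
    ∃ y ∈ Metric.ball (0 : β → ℂ) r, AlgebraicIndependent ℚ (fun b => c b + y b) := by
  classical
  have hcount0 : Countable (MvPolynomial β ℚ) := by
    rw [← Cardinal.mk_le_aleph0_iff]
    refine MvPolynomial.cardinalMk_le_max.trans ?_
    simp
  have hcount : Countable {P : MvPolynomial β ℚ // P ≠ 0} := inferInstance
  have hd := dense_iInter_of_isOpen
    (f := fun P : {P : MvPolynomial β ℚ // P ≠ 0} =>
      {y : β → ℂ | MvPolynomial.aeval (fun b => c b + y b) P.1 ≠ 0})
    (fun P => open_P c P.1) (fun P => dense_P c P.1 P.2)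
  obtain ⟨y, hy1, hy2⟩ := Metric.dense_iff.1 hd 0 r hr
  refine ⟨y, hy1, algebraicIndependent_iff.2 fun P hP => ?_⟩
  by_contra hP0
  exact (Set.mem_iInter.1 hy2 ⟨P, hP0⟩) hP

end Pool.Agent.Zilber
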