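import Mathlib

set_option autoImplicit false

/-! DG6. The numerical conclusion of GAMMA.

PROOF. All quantities are nonnegative. `W b ≥ (c0 / 2) n b`: `W b = ⌊c0 n b⌋₊ ≥ c0 n b - 1 ≥ (c0 / 2) n b` as `c0 n b ≥ 2`.
`ez * L ≥ ez * m * (κ1 N^d) (κ1 N) / e0 ≥ (∏ W) κ1^2 N^(d+1) ≥ (c0/2)^(card B) κ1^2 N N^d ∏_{b : B} n b ≥ κ N * (C' * N^d * ∏ n b) ≥ κ N ez D`
with `κ = (c0/2)^(card B) κ1^2 / C'`; divide by `ez > 0`. Here `h1 : (∏ W) * e0 ≤ ez * m`, `h2 : m * (κ1 N^d) * (κ1 N) ≤ e0 * L` (multiply `h1` by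
`κ1^2 N^(d+1)`, `h2` by `ez`, cancel `e0 > 0`). -/

namespace Pool.Agent.Zilber

theorem gam_num {B : Type} [Fintype B] (d : ℕ) (c0 κ1 C' : ℝ) (hc0 : 0 < c0) (hκ1 : 0 < κ1)
    (hC' : 0 < C') : ∃ κ : ℝ, 0 < κ ∧ ∀ (N : ℕ) (n : B → ℕ), (∀ b, 2 ≤ c0 * n b) →
      ∀ (ez e0 m D : ℕ) (L : ℝ), 0 < ez → 0 < e0 →
        (∏ b, ⌊c0 * n b⌋₊) * e0 ≤ ez * m →
        (m : ℝ) * (κ1 * (N : ℝ) ^ d) * (κ1 * N) ≤ e0 * L →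
        (ez : ℝ) * D ≤ C' * ((N : ℝ) ^ d * ∏ b, (n b : ℝ)) → κ * N * D ≤ L := by
  classical
  refine ⟨(c0 / 2) ^ Fintype.card B * κ1 ^ 2 / C', by positivity, ?_⟩
  intro N n hn ez e0 m D L hez he0 h1 h2 h3
  have hezR : (0 : ℝ) < ez := by exact_mod_cast hez
  have he0R : (0 : ℝ) < e0 := by exact_mod_cast he0
  have hW : (c0 / 2) ^ Fintype.card B * ∏ b, (n b : ℝ) ≤ ∏ b, ((⌊c0 * n b⌋₊ : ℕ) : ℝ) := by
    have e : (c0 / 2) ^ Fintype.card B * ∏ b, (n b : ℝ) = ∏ b, (c0 / 2 * (n b : ℝ)) := by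
      rw [Finset.prod_mul_distrib, Finset.prod_const, Finset.card_univ]
    rw [e]
    refine Finset.prod_le_prod (fun b _ => by positivity) (fun b _ => ?_)
    have hf := Nat.lt_floor_add_one (c0 * (n b : ℝ))
    have := hn b
    linarith
  have h1R : (∏ b, ((⌊c0 * n b⌋₊ : ℕ) : ℝ)) * e0 ≤ ez * m := by exact_mod_cast h1
  set P : ℝ := ∏ b, ((⌊c0 * n b⌋₊ : ℕ) : ℝ) with hP
  set Q : ℝ := ∏ b, (n b : ℝ) with hQ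
  set a : ℝ := (c0 / 2) ^ Fintype.card B with ha
  have hN : (0 : ℝ) ≤ N := Nat.cast_nonneg N
  have hNd : (0 : ℝ) ≤ (N : ℝ) ^ d := by positivity
  have s1 : (e0 : ℝ) * (P * (κ1 ^ 2 * ((N : ℝ) ^ d * N))) ≤ e0 * (ez * L) := by
    have t1 : P * e0 * (κ1 ^ 2 * ((N : ℝ) ^ d * N)) ≤ ez * m * (κ1 ^ 2 * ((N : ℝ) ^ d * N)) :=
      mul_le_mul_of_nonneg_right h1R (by positivity)
    have t2 : (ez : ℝ) * ((m : ℝ) * (κ1 * (N : ℝ) ^ d) * (κ1 * N)) ≤ ez * (e0 * L) :=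
      mul_le_mul_of_nonneg_left h2 hezR.le
    calc (e0 : ℝ) * (P * (κ1 ^ 2 * ((N : ℝ) ^ d * N)))
        = P * e0 * (κ1 ^ 2 * ((N : ℝ) ^ d * N)) := by ring
      _ ≤ ez * m * (κ1 ^ 2 * ((N : ℝ) ^ d * N)) := t1
      _ = (ez : ℝ) * ((m : ℝ) * (κ1 * (N : ℝ) ^ d) * (κ1 * N)) := by ring
      _ ≤ ez * (e0 * L) := t2
      _ = e0 * (ez * L) := by ring
  have s2 : P * (κ1 ^ 2 * ((N : ℝ) ^ d * N)) ≤ ez * L := le_of_mul_le_mul_left s1 he0R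
  have s3 : a * Q * (κ1 ^ 2 * ((N : ℝ) ^ d * N)) ≤ P * (κ1 ^ 2 * ((N : ℝ) ^ d * N)) :=
    mul_le_mul_of_nonneg_right hW (by positivity)
  have s4 : (ez : ℝ) * D / C' ≤ (N : ℝ) ^ d * Q := by
    rw [div_le_iff₀ hC']
    calc (ez : ℝ) * D ≤ C' * ((N : ℝ) ^ d * Q) := h3
      _ = (N : ℝ) ^ d * Q * C' := by ring
  have ha0 : 0 ≤ a := by positivity
  have s5 : a * κ1 ^ 2 * N * ((ez : ℝ) * D / C') ≤ a * κ1 ^ 2 * N * ((N : ℝ) ^ d * Q) :=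
    mul_le_mul_of_nonneg_left s4 (by positivity)
  have s6 : (ez : ℝ) * (a * κ1 ^ 2 / C' * N * D) ≤ ez * L := by
    calc (ez : ℝ) * (a * κ1 ^ 2 / C' * N * D) = a * κ1 ^ 2 * N * ((ez : ℝ) * D / C') := by ring
      _ ≤ a * κ1 ^ 2 * N * ((N : ℝ) ^ d * Q) := s5
      _ = a * Q * (κ1 ^ 2 * ((N : ℝ) ^ d * N)) := by ring
      _ ≤ P * (κ1 ^ 2 * ((N : ℝ) ^ d * N)) := s3
      _ ≤ ez * L := s2
  exact le_of_mul_le_mul_left s6 hezR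

end Pool.Agent.Zilber
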