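import Pool.Agent.Zilber.DJLau
import Pool.Agent.CITLines.Push

set_option autoImplicit false

/-! DG3. The transcendence degree of the residues, and positivity of relative degrees.

* `rk_res`. The `zt A zb b` (`b : β`) are algebraically independent and algebraic over `ℚ(zb)` (products of integer powers,
  `isAlgebraic_mon`), so `card β ≤ rk ℚ (range zb)` (`rk_range_of_indep`, `rk_le_of_algebraic`); `rk ℚ (range zb) ≤ rk ℚ (range p)` by `halg`
  (`rk_le_of_algebraic`). So `rk ℚ (range zb) = card β`. If some `p i` was transcendental over `ℚ(zb)`, a basis of `range zb` together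
  with `p i` would be `card β + 1` independent elements in the closure of `range p` (matroid), a contradiction; so `p i` is
  algebraic over `Algebra.adjoin ℚ (range zb)`, so over the bigger ring `Subfield.closure (range zb)`.
* `relfinrank_pos'`: `S ⊆ T` finite sets of a field of characteristic zero with the same transcendence degree over `ℚ`: every
  element of `T` is algebraic over `ℚ(S)`, so `ℚ(T) / ℚ(S)` is finite, the relative degree is positive
  (`Subfield.relfinrank_eq_finrank_of_le`, `Module.finrank_pos`; finiteness: `IntermediateField.finiteDimensional_adjoin` for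
  `IntermediateField.adjoin (Subfield.closure S) T`). -/

namespace Pool.Agent.Zilber

open MvPolynomial Module Pool.Agent.CITLines

private theorem dg_alg_of_rk {k K : Type} [Field k] [Field K] [Algebra k K] (s t : Set K)
    (h : rk k (s ∪ t) ≤ rk k s) (hs : rk k s < ⊤) :
    ∀ a ∈ t, IsAlgebraic (Algebra.adjoin k s) a := by
  intro a ha
  unfold rk at h hs
  have h1 := (Matroid.eRk_lt_top_iff.1 hs).closure_eq_closure_of_subset_of_eRk_ge_eRk
    Set.subset_union_left h
  have h2 : a ∈ (AlgebraicIndependent.matroid k K).closure (s ∪ t) :=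
    Matroid.mem_closure_of_mem' _ (Set.mem_union_right _ ha)
      (by rw [AlgebraicIndependent.matroid_e]; exact Set.mem_univ a)
  rw [← h1, AlgebraicIndependent.matroid_closure_eq] at h2
  exact h2

private theorem dg_closure_alg {K : Type} [Field K] [Algebra ℚ K] (s : Set K) (a : K)
    (ha : a ∈ Subfield.closure s) : IsAlgebraic (Algebra.adjoin ℚ s) a := by
  induction ha using Subfield.closure_induction with
  | mem x hx => exact isAlgebraic_algebraMap (⟨x, Algebra.subset_adjoin hx⟩ : Algebra.adjoin ℚ s)
  | one => exact isAlgebraic_one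
  | add x y _ _ hx hy => exact hx.add hy
  | neg x _ hx => exact hx.neg
  | inv x _ hx => exact hx.inv
  | mul x y _ _ hx hy => exact hx.mul hy

private theorem dg_alg_closure {K : Type} [Field K] [Algebra ℚ K] (s : Set K) (a : K)
    (ha : IsAlgebraic (Algebra.adjoin ℚ s) a) : IsAlgebraic (Subfield.closure s) a := by
  have hle : ∀ x ∈ Algebra.adjoin ℚ s, x ∈ Subfield.closure s := by
    intro x hx
    induction hx using Algebra.adjoin_induction with
    | mem x hx => exact Subfield.subset_closure hx
    | algebraMap r =>
      have h1 : algebraMap ℚ K r = (r : K) := eq_ratCast _ r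
      rw [h1]
      exact SubfieldClass.ratCast_mem _ r
    | add x y _ _ hx hy => exact add_mem hx hy
    | mul x y _ _ hx hy => exact mul_mem hx hy
  obtain ⟨P, hP, hPa⟩ := ha
  let f : Algebra.adjoin ℚ s →+* Subfield.closure s :=
    { toFun := fun x => ⟨x, hle x x.2⟩
      map_one' := rfl
      map_mul' := fun _ _ => rfl
      map_zero' := rfl
      map_add' := fun _ _ => rfl }
  have hf : Function.Injective f := by
    intro x y h
    have h1 : ((f x : Subfield.closure s) : K) = f y := by rw [h]
    exact Subtype.ext h1
  refine ⟨P.map f, (Polynomial.map_ne_zero_iff hf).2 hP, ?_⟩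
  rw [Polynomial.aeval_def, Polynomial.eval₂_map]
  rw [Polynomial.aeval_def] at hPa
  exact hPa

theorem rk_res {ι0 β : Type} [Fintype ι0] [Fintype β] (p : ι0 → ℂ) (zb : Option β → ℂ)
    (hzb : ∀ o, zb o ≠ 0) (A : Matrix (Option β) (Option β) ℤ)
    (hind : AlgebraicIndependent ℚ (zt A zb))
    (halg : ∀ o, IsAlgebraic (Algebra.adjoin ℚ (Set.range p)) (zb o))
    (hrk : rk ℚ (Set.range p) ≤ Fintype.card β) :
    rk ℚ (Set.range zb) = Fintype.card β ∧
      ∀ i, IsAlgebraic (Subfield.closure (Set.range zb)) (p i) := by
  have h1 : (Fintype.card β : ℕ∞) ≤ rk ℚ (Set.range zb) := by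
    rw [← rk_range_of_indep _ hind]
    refine rk_le_of_algebraic ?_
    rintro _ ⟨b, rfl⟩
    exact isAlgebraic_mon (k := ℚ) zb (A (some b))
  have h2 : rk ℚ (Set.range zb) ≤ rk ℚ (Set.range p) := by
    refine rk_le_of_algebraic ?_
    rintro _ ⟨o, rfl⟩
    exact halg o
  have h3 : rk ℚ (Set.range zb) = Fintype.card β := le_antisymm (h2.trans hrk) h1
  refine ⟨h3, fun i => dg_alg_closure _ _ ?_⟩
  refine dg_alg_of_rk (Set.range zb) (Set.range p) ?_ ?_ _ ⟨i, rfl⟩
  · have h4 : rk ℚ (Set.range zb ∪ Set.range p) ≤ rk ℚ (Set.range p) := by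
      refine rk_le_of_algebraic ?_
      rintro a (⟨o, rfl⟩ | ha)
      · exact halg o
      · exact isAlgebraic_algebraMap
          (⟨a, Algebra.subset_adjoin ha⟩ : Algebra.adjoin ℚ (Set.range p))
    exact (h4.trans hrk).trans h1
  · rw [h3]
    exact ENat.natCast_lt_top _

theorem relfinrank_pos'' {E : Type} [Field E] {ι O : Type} [Finite ι]
    (p : ι → E) (zb : O → E)
    (hp : ∀ i, IsAlgebraic (Subfield.closure (Set.range zb)) (p i)) :
    0 < (Subfield.closure (Set.range zb)).relfinrank
      (Subfield.closure (Set.range zb ∪ Set.range p)) := by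
  set k0 := Subfield.closure (Set.range zb) with hk0
  set L := Subfield.closure (Set.range zb ∪ Set.range p) with hL
  have hle : k0 ≤ L := Subfield.closure_mono Set.subset_union_left
  set F : IntermediateField k0 E := Subfield.extendScalars hle with hF
  have hFad : F ≤ IntermediateField.adjoin k0 (Set.range p) := by
    intro x hx
    have hx' : x ∈ L := hx
    have h1 : L ≤ (IntermediateField.adjoin k0 (Set.range p)).toSubfield := by
      rw [hL, Subfield.closure_le]
      rintro y (hy | hy)
      · exact (IntermediateField.adjoin k0 (Set.range p)).algebraMap_mem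
          ⟨y, Subfield.subset_closure hy⟩
      · exact IntermediateField.subset_adjoin _ _ hy
    exact h1 hx'
  have hfin0 : FiniteDimensional k0 (IntermediateField.adjoin k0 (Set.range p)) := by
    refine IntermediateField.finiteDimensional_adjoin ?_
    rintro _ ⟨i, rfl⟩
    exact (hp i).isIntegral
  have hfin : FiniteDimensional k0 F :=
    FiniteDimensional.of_injective (IntermediateField.inclusion hFad).toLinearMap
      (IntermediateField.inclusion hFad).injective
  have hdeg : k0.relfinrank L = finrank k0 F := Subfield.relfinrank_eq_finrank_of_le hle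
  rw [hdeg]
  exact Module.finrank_pos

theorem relfinrank_pos' {E : Type} [Field E] [CharZero E] {ι O : Type} [Finite ι] [Finite O]
    (x : ι → E) (z : O → E) (hz : ∀ o, z o ∈ Subfield.closure (Set.range x)) (d : ℕ)
    (hx : rk ℚ (Set.range x) = d) (hz' : rk ℚ (Set.range z) = d) :
    0 < (Subfield.closure (Set.range z)).relfinrank (Subfield.closure (Set.range x)) := by
  have h1 : Subfield.closure (Set.range x) = Subfield.closure (Set.range z ∪ Set.range x) := by
    refine le_antisymm (Subfield.closure_mono Set.subset_union_right) ?_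
    rw [Subfield.closure_le]
    rintro a (⟨o, rfl⟩ | ha)
    · exact hz o
    · exact Subfield.subset_closure ha
  rw [h1]
  refine relfinrank_pos'' x z fun i => dg_alg_closure _ _ ?_
  refine dg_alg_of_rk (Set.range z) (Set.range x) ?_ ?_ _ ⟨i, rfl⟩
  · have h4 : rk ℚ (Set.range z ∪ Set.range x) ≤ rk ℚ (Set.range x) := by
      refine rk_le_of_algebraic ?_
      rintro a (⟨o, rfl⟩ | ha)
      · exact dg_closure_alg _ _ (hz o)
      · exact isAlgebraic_algebraMap
          (⟨a, Algebra.subset_adjoin ha⟩ : Algebra.adjoin ℚ (Set.range x))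
    rw [hz', ← hx]
    exact h4
  · rw [hz']
    exact ENat.natCast_lt_top _

end Pool.Agent.Zilber
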