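import Pool.Agent.Zilber.DJLau

set_option autoImplicit false

/-! DG2. Specialisations of monomials with algebraic coefficients.

PROOF. Let `P ∈ ℚ[ι0 ⊕ O]` with `aeval (p, zb) P = 0`, `zb o = ρ o * ∏ i, p i ^ a o i`. Choose a natural number `M` with
`m o * |a o i| ≤ M` for all exponents `m` of `P` and all `o, i`. For every `w : ι0 → ℂ` with nonzero coordinates
`(∏ i, w i ^ (M * card O)) * aeval (w, ρ o * ∏ i, w i ^ a o i) P = eval w Q` with a polynomial `Q ∈ ℂ[ι0]` whose coefficients are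
`ℚ`-linear combinations of products of powers of the `ρ o`, so algebraic over `ℚ`: write `P` as the sum of its monomials;
the monomial `T^m` (`m : ι0 ⊕ O →₀ ℕ`) gives `(∏ o, ρ o ^ m (inr o)) * ∏ i, w i ^ (m (inl i) + ∑ o, m (inr o) * a o i + M * card O)`, with
nonnegative exponents (`Int.toNat`). For `w = p`: `eval p Q = 0`; `hrel` gives `eval u Q = 0`; for `w = u`: `aeval (..) P = 0`
(divide by `∏ i, u i ^ ..`). -/

namespace Pool.Agent.Zilber

open MvPolynomial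

/-- Clearing the denominators. -/
private theorem dg_clear {ι0 O : Type} [Fintype ι0] [Fintype O] (ρ : O → ℂ)
    (hρ : ∀ o, IsAlgebraic ℚ (ρ o)) (a : O → ι0 → ℤ) (P : MvPolynomial (ι0 ⊕ O) ℚ) :
    ∃ N : ℕ, ∀ n, N ≤ n → ∃ Q : MvPolynomial ι0 (algebraicClosure ℚ ℂ),
      ∀ w : ι0 → ℂ, (∀ i, w i ≠ 0) →
        aeval w Q = (∏ i, w i) ^ n *
          aeval (Sum.elim w (fun o => ρ o * ∏ i, w i ^ a o i)) P := by
  classical
  induction P using MvPolynomial.induction_on with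
  | C c =>
    refine ⟨0, fun n _ => ⟨C (algebraMap ℚ (algebraicClosure ℚ ℂ) c) * (∏ i, X i) ^ n,
      fun w _ => ?_⟩⟩
    rw [map_mul, map_pow, map_prod]
    simp only [aeval_X]
    rw [aeval_C, aeval_C, mul_comm, ← IsScalarTower.algebraMap_apply]
  | add P₁ P₂ h₁ h₂ =>
    obtain ⟨N₁, h₁⟩ := h₁
    obtain ⟨N₂, h₂⟩ := h₂
    refine ⟨max N₁ N₂, fun n hn => ?_⟩
    obtain ⟨Q₁, h₁⟩ := h₁ n ((le_max_left _ _).trans hn)
    obtain ⟨Q₂, h₂⟩ := h₂ n ((le_max_right _ _).trans hn)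
    refine ⟨Q₁ + Q₂, fun w hw => ?_⟩
    rw [map_add, map_add, h₁ w hw, h₂ w hw, mul_add]
  | mul_X P x h =>
    obtain ⟨N, h⟩ := h
    rcases x with i | o
    · refine ⟨N, fun n hn => ?_⟩
      obtain ⟨Q, hQ⟩ := h n hn
      refine ⟨Q * X i, fun w hw => ?_⟩
      rw [map_mul, map_mul, hQ w hw, aeval_X, aeval_X, Sum.elim_inl, mul_assoc]
    · obtain ⟨K, hK⟩ : ∃ K : ℕ, ∀ i, 0 ≤ (K : ℤ) + a o i := by
        refine ⟨∑ i, (a o i).natAbs, fun i => ?_⟩
        have h1 := Finset.single_le_sum (f := fun i => (a o i).natAbs)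
          (fun _ _ => Nat.zero_le _) (Finset.mem_univ i)
        have h2 : (a o i).natAbs ≤ ∑ i, (a o i).natAbs := h1
        omega
      refine ⟨N + K, fun n hn => ?_⟩
      obtain ⟨Q, hQ⟩ := h (n - K) (by omega)
      refine ⟨Q * (C (⟨ρ o, mem_algebraicClosure_iff.2 (hρ o)⟩ : algebraicClosure ℚ ℂ) *
        ∏ i, X i ^ ((K : ℤ) + a o i).toNat), fun w hw => ?_⟩
      rw [map_mul, map_mul, map_mul, hQ w hw, map_prod, aeval_C]
      simp only [map_pow, aeval_X, Sum.elim_inr]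
      have h1 : ∏ i, w i ^ ((K : ℤ) + a o i).toNat = (∏ i, w i) ^ K * ∏ i, w i ^ a o i := by
        rw [← Finset.prod_pow, ← Finset.prod_mul_distrib]
        refine Finset.prod_congr rfl fun i _ => ?_
        rw [← zpow_natCast, Int.toNat_of_nonneg (hK i), zpow_add₀ (hw i), zpow_natCast]
      have h2 : (∏ i, w i) ^ n = (∏ i, w i) ^ (n - K) * (∏ i, w i) ^ K := by
        rw [← pow_add]
        congr 1
        omega
      have h3 : algebraMap (algebraicClosure ℚ ℂ) ℂ ⟨ρ o, mem_algebraicClosure_iff.2 (hρ o)⟩ =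
        ρ o := rfl
      rw [h1, h2, h3]
      ring

theorem sp_of_rel {ι0 O : Type} [Fintype ι0] [Fintype O] (p u : ι0 → ℂ) (hp : ∀ i, p i ≠ 0)
    (hu : ∀ i, u i ≠ 0)
    (hrel : ∀ P : MvPolynomial ι0 ℂ, (∀ e, IsAlgebraic ℚ (P.coeff e)) → eval p P = 0 →
      eval u P = 0)
    (ρ : O → ℂ) (hρ : ∀ o, IsAlgebraic ℚ (ρ o)) (a : O → ι0 → ℤ) :
    Sp p (fun o => ρ o * ∏ i, p i ^ a o i) u (fun o => ρ o * ∏ i, u i ^ a o i) := by
  intro P hP
  obtain ⟨N, hN⟩ := dg_clear ρ hρ a P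
  obtain ⟨Q, hQ⟩ := hN N le_rfl
  have he : ∀ w : ι0 → ℂ, eval w (map (algebraMap (algebraicClosure ℚ ℂ) ℂ) Q) = aeval w Q := by
    intro w
    rw [eval_map, aeval_def]
  have h1 : eval p (map (algebraMap (algebraicClosure ℚ ℂ) ℂ) Q) = 0 := by
    rw [he, hQ p hp, hP, mul_zero]
  have h2 := hrel _ (fun e => by
    rw [coeff_map]
    exact mem_algebraicClosure_iff.1 (Q.coeff e).2) h1
  rw [he, hQ u hu] at h2
  refine (mul_eq_zero.mp h2).resolve_left (pow_ne_zero _ (Finset.prod_ne_zero_iff.mpr ?_))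
  intro i _
  exact hu i

end Pool.Agent.Zilber
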