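import Pool.Agent.Zilber.DDefs

set_option autoImplicit false

/-! Core D, LAT: the lattice of the values of the `z b`. -/

namespace Pool.Agent.Zilber

open Module

/-- **Lattices.**

Proof. `Dm = (∑_i R b i q i b')`, `δ > 0` with `max_b' |∑_b u_b Dm b b'| ≥ δ max_b |u_b|` for real `u` (invertible matrix). `A b b' = ∑_i a b i q i b'`; `q i b' ≠ 0` only if `cl i = cb b'`, so
`A b b' = n_(cb b') (Dm b b' + err)`, `|err| ≤ C Q / n0`, `Q = max_b' ∑_i |q i b'|`. Let `n0 ≥ 2 card B (|C| Q + 1) / δ` (and `≥ 1`), `c0 = δ / 4`. For real `u ≠ 0` : `max_b' |∑_b u_b A b b'| / n_(cb b') ≥ (δ / 2) max |u|`;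
in particular the matrix `A` (over `ℝ`, hence over `ℚ`) is injective: `det ≠ 0`. For the last statement: if `d = t A` with `t ≠ 0` integral then for some `b'` `|d b'| ≥ (δ / 2) n_(cb b') * 1 > c0 n_(cb b') ≥ W b' > |d b'|`: contradiction
(`n > 0`); so `t = 0` and `d = 0`. (Compare `lattice` in AULat, same argument.) -/
theorem lat {k : ℕ} {ι B : Type} [Fintype ι] [Fintype B] [DecidableEq B] (cl : ι → Fin (k + 1))
    (cb : B → Fin (k + 1)) (q : ι → B → ℚ) (hq : ∀ i b, q i b ≠ 0 → cl i = cb b)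
    (R : B → ι → ℝ) (hR : (Matrix.of fun b b' => ∑ i, R b i * (q i b' : ℝ)).det ≠ 0) (C : ℝ) :
    ∃ (c0 : ℝ) (n0 : ℕ), 0 < c0 ∧ ∀ n : Fin (k + 1) → ℕ, (∀ l, n0 ≤ n l) → ∀ a : B → ι → ℤ,
      (∀ b i, |(a b i : ℝ) - n (cl i) * R b i| ≤ C) →
      (Matrix.of fun b b' => ∑ i, (a b i : ℚ) * q i b').det ≠ 0 ∧
      ∀ W : B → ℕ, (∀ b, (W b : ℝ) ≤ c0 * n (cb b)) → ∀ d : B → ℤ, (∀ b, |d b| < W b) →
        ∀ t : B → ℤ, (∀ b', (d b' : ℚ) = ∑ b, (t b : ℚ) * ∑ i, (a b i : ℚ) * q i b') → d = 0 := by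
  classical
  set Dm : Matrix B B ℝ := Matrix.of fun b b' => ∑ i, R b i * (q i b' : ℝ) with hDm
  have hunit : IsUnit Dm.det := isUnit_iff_ne_zero.2 hR
  obtain ⟨M, hM1, hM⟩ : ∃ M : ℝ, 1 ≤ M ∧ ∀ (u : B → ℝ) (ε : ℝ), 0 ≤ ε →
      (∀ b', |∑ b, u b * Dm b b'| ≤ ε) → ∀ b₀, |u b₀| ≤ M * ε := by
    refine ⟨1 + ∑ b, ∑ b', |Dm⁻¹ b b'|, ?_, ?_⟩
    · have : 0 ≤ ∑ b, ∑ b', |Dm⁻¹ b b'| :=
        Finset.sum_nonneg fun b _ => Finset.sum_nonneg fun b' _ => abs_nonneg _
      linarith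
    · intro u ε hε h b₀
      have h1 : u = Matrix.vecMul (Matrix.vecMul u Dm) Dm⁻¹ := by
        rw [Matrix.vecMul_vecMul, Matrix.mul_nonsing_inv _ hunit, Matrix.vecMul_one]
      have h2 : u b₀ = ∑ b', (∑ b, u b * Dm b b') * Dm⁻¹ b' b₀ := by
        conv_lhs => rw [h1]
        simp only [Matrix.vecMul, dotProduct]
      rw [h2]
      calc |∑ b', (∑ b, u b * Dm b b') * Dm⁻¹ b' b₀|
          ≤ ∑ b', |(∑ b, u b * Dm b b') * Dm⁻¹ b' b₀| := Finset.abs_sum_le_sum_abs _ _
        _ ≤ ∑ b', ε * |Dm⁻¹ b' b₀| := by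
            apply Finset.sum_le_sum
            intro b' _
            rw [abs_mul]
            exact mul_le_mul_of_nonneg_right (h b') (abs_nonneg _)
        _ = ε * ∑ b', |Dm⁻¹ b' b₀| := by rw [Finset.mul_sum]
        _ ≤ ε * ∑ b', ∑ b'', |Dm⁻¹ b' b''| := by
            apply mul_le_mul_of_nonneg_left _ hε
            apply Finset.sum_le_sum
            intro b' _
            exact Finset.single_le_sum (f := fun b'' => |Dm⁻¹ b' b''|)
              (fun b'' _ => abs_nonneg _) (Finset.mem_univ b₀)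
        _ ≤ (1 + ∑ b, ∑ b', |Dm⁻¹ b b'|) * ε := by linarith
  set Q : ℝ := ∑ b', ∑ i, |(q i b' : ℝ)| with hQ
  have hQ0 : 0 ≤ Q := Finset.sum_nonneg fun b _ => Finset.sum_nonneg fun i _ => abs_nonneg _
  have hM0 : 0 < M := by linarith
  obtain ⟨n0, hn0⟩ := exists_nat_ge (2 * (Fintype.card B : ℝ) * (|C| * Q + 1) * M + 1)
  refine ⟨1 / (4 * M), n0, by positivity, ?_⟩
  intro n hn a ha
  have hnpos : ∀ l, 2 * (Fintype.card B : ℝ) * (|C| * Q) * M + 1 ≤ n l := by
    intro l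
    have h1 : (n0 : ℝ) ≤ n l := by exact_mod_cast hn l
    have h2 : 0 ≤ 2 * (Fintype.card B : ℝ) * M := by positivity
    nlinarith
  have hnp : ∀ l, (0 : ℝ) < n l := by
    intro l
    have h1 := hnpos l
    have h2 : 0 ≤ 2 * (Fintype.card B : ℝ) * (|C| * Q) * M := by positivity
    linarith
  -- the error
  have herr : ∀ b b', |(∑ i, (a b i : ℝ) * (q i b' : ℝ)) - n (cb b') * Dm b b'| ≤ |C| * Q := by
    intro b b'
    have h1 : (∑ i, (a b i : ℝ) * (q i b' : ℝ)) - n (cb b') * Dm b b' =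
        ∑ i, ((a b i : ℝ) - n (cb b') * R b i) * (q i b' : ℝ) := by
      rw [hDm, Matrix.of_apply, Finset.mul_sum, ← Finset.sum_sub_distrib]
      apply Finset.sum_congr rfl
      intro i _
      ring
    rw [h1]
    calc |∑ i, ((a b i : ℝ) - n (cb b') * R b i) * (q i b' : ℝ)|
        ≤ ∑ i, |((a b i : ℝ) - n (cb b') * R b i) * (q i b' : ℝ)| :=
          Finset.abs_sum_le_sum_abs _ _
      _ ≤ ∑ i, |C| * |(q i b' : ℝ)| := by
          apply Finset.sum_le_sum
          intro i _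
          by_cases h0 : q i b' = 0
          · simp [h0]
          · rw [abs_mul, ← hq i b' h0]
            exact mul_le_mul_of_nonneg_right ((ha b i).trans (le_abs_self C)) (abs_nonneg _)
      _ = |C| * ∑ i, |(q i b' : ℝ)| := by rw [Finset.mul_sum]
      _ ≤ |C| * Q := by
          apply mul_le_mul_of_nonneg_left _ (abs_nonneg C)
          exact Finset.single_le_sum (f := fun b'' => ∑ i, |(q i b'' : ℝ)|)
            (fun b'' _ => Finset.sum_nonneg fun i _ => abs_nonneg _) (Finset.mem_univ b')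
  -- the main estimate
  have key : ∀ (u : B → ℝ) (ε : ℝ), 0 ≤ ε →
      (∀ b', |∑ b, u b * ∑ i, (a b i : ℝ) * (q i b' : ℝ)| ≤ ε * n (cb b')) →
      ∀ b₀, |u b₀| ≤ 2 * M * ε := by
    intro u ε hε h b₀
    have : Nonempty B := ⟨b₀⟩
    obtain ⟨b₁, hb₁⟩ := Finite.exists_max (fun b => |u b|)
    have hU0 : 0 ≤ |u b₁| := abs_nonneg _
    have h2 : ∀ b', |∑ b, u b * Dm b b'| ≤ ε + |u b₁| / (2 * M) := by
      intro b'
      have hp := hnp (cb b')
      have h3 : (n (cb b') : ℝ) * ∑ b, u b * Dm b b' =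
          (∑ b, u b * ∑ i, (a b i : ℝ) * (q i b' : ℝ)) -
          ∑ b, u b * ((∑ i, (a b i : ℝ) * (q i b' : ℝ)) - n (cb b') * Dm b b') := by
        rw [Finset.mul_sum, ← Finset.sum_sub_distrib]
        apply Finset.sum_congr rfl
        intro b _
        ring
      have h4 : |∑ b, u b * ((∑ i, (a b i : ℝ) * (q i b' : ℝ)) - n (cb b') * Dm b b')| ≤
          (Fintype.card B : ℝ) * (|u b₁| * (|C| * Q)) := by
        calc |∑ b, u b * ((∑ i, (a b i : ℝ) * (q i b' : ℝ)) - n (cb b') * Dm b b')|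
            ≤ ∑ b, |u b * ((∑ i, (a b i : ℝ) * (q i b' : ℝ)) - n (cb b') * Dm b b')| :=
              Finset.abs_sum_le_sum_abs _ _
          _ ≤ ∑ _b : B, |u b₁| * (|C| * Q) := by
              apply Finset.sum_le_sum
              intro b _
              rw [abs_mul]
              exact mul_le_mul (hb₁ b) (herr b b') (abs_nonneg _) hU0
          _ = (Fintype.card B : ℝ) * (|u b₁| * (|C| * Q)) := by
              rw [Finset.sum_const, Finset.card_univ, nsmul_eq_mul]
      have h5 : (n (cb b') : ℝ) * |∑ b, u b * Dm b b'| ≤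
          ε * n (cb b') + (Fintype.card B : ℝ) * (|u b₁| * (|C| * Q)) := by
        rw [← abs_of_pos hp, ← abs_mul, h3, abs_of_pos hp]
        exact (abs_sub _ _).trans (add_le_add (h b') h4)
      have h6 : (Fintype.card B : ℝ) * (|u b₁| * (|C| * Q)) ≤
          n (cb b') * (|u b₁| / (2 * M)) := by
        have h7 := hnpos (cb b')
        have h8 : (Fintype.card B : ℝ) * (|u b₁| * (|C| * Q)) =
            (2 * (Fintype.card B : ℝ) * (|C| * Q) * M) * (|u b₁| / (2 * M)) := by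
          field_simp
        rw [h8]
        apply mul_le_mul_of_nonneg_right _ (by positivity)
        linarith
      have h9 : (n (cb b') : ℝ) * |∑ b, u b * Dm b b'| ≤
          n (cb b') * (ε + |u b₁| / (2 * M)) := by
        rw [mul_add]
        linarith
      exact le_of_mul_le_mul_left h9 hp
    have h3 := hM u (ε + |u b₁| / (2 * M)) (by positivity) h2
    have h4 := h3 b₁
    have h5 : M * (ε + |u b₁| / (2 * M)) = M * ε + |u b₁| / 2 := by
      field_simp
    rw [h5] at h4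
    have h6 : |u b₀| ≤ |u b₁| := hb₁ b₀
    linarith
  refine ⟨?_, ?_⟩
  · intro hdet
    obtain ⟨v, hv0, hv⟩ := Matrix.exists_vecMul_eq_zero_iff.2 hdet
    apply hv0
    have h1 := key (fun b => (v b : ℝ)) 0 le_rfl (by
      intro b'
      have h2 := congrFun hv b'
      simp only [Matrix.vecMul, dotProduct, Matrix.of_apply, Pi.zero_apply] at h2
      have h3 : ∑ b, (v b : ℝ) * ∑ i, (a b i : ℝ) * (q i b' : ℝ) = 0 := by
        exact_mod_cast congrArg (fun z : ℚ => (z : ℝ)) h2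
      rw [h3, abs_zero, zero_mul])
    funext b
    have h2 := h1 b
    rw [mul_zero] at h2
    have h3 : (v b : ℝ) = 0 := abs_eq_zero.1 (le_antisymm h2 (abs_nonneg _))
    exact_mod_cast h3
  · intro W hW d hd t ht
    have h1 := key (fun b => (t b : ℝ)) (1 / (4 * M)) (by positivity) (by
      intro b'
      have h3 : ∑ b, (t b : ℝ) * ∑ i, (a b i : ℝ) * (q i b' : ℝ) = (d b' : ℝ) := by
        exact_mod_cast congrArg (fun z : ℚ => (z : ℝ)) (ht b').symm
      have h4 : |(d b' : ℝ)| ≤ W b' := by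
        have h5 : |d b'| ≤ (W b' : ℤ) := (hd b').le
        exact_mod_cast h5
      rw [h3]
      exact h4.trans (hW b'))
    have h2 : ∀ b, t b = 0 := by
      intro b
      by_contra hne
      have h3 : (1 : ℝ) ≤ |(t b : ℝ)| := by
        have h4 : 1 ≤ |t b| := Int.one_le_abs hne
        exact_mod_cast h4
      have h4 := h1 b
      have h5 : 2 * M * (1 / (4 * M)) = 1 / 2 := by
        field_simp
        norm_num
      rw [h5] at h4
      linarith
    funext b'
    have h3 := ht b'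
    have h4 : ∑ b, (t b : ℚ) * ∑ i, (a b i : ℚ) * q i b' = 0 := by
      apply Finset.sum_eq_zero
      intro b _
      rw [h2 b]
      simp
    rw [h4] at h3
    exact_mod_cast h3

end Pool.Agent.Zilber
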