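import Pool.Agent.LSharp.HCDefs
import Pool.Agent.LSharp.L1

set_option autoImplicit false

/-! Core D, G1, DM3: polynomials in two kinds of variables. -/

namespace Pool.Agent.Zilber

open MvPolynomial Pool.Agent.LSharp

/-- the splitting homomorphism -/
private noncomputable def dmTheta {O B : Type} {t : ℕ} (e : Fin (t + 1) ≃ O) :
    MvPolynomial (O ⊕ B) ℤ →ₐ[ℤ] MvPolynomial B (MvPolynomial (Fin (t + 1)) ℤ) :=
  aeval (Sum.elim (fun o => C (X (e.symm o))) X)

private theorem dmTheta_injective {O B : Type} {t : ℕ} (e : Fin (t + 1) ≃ O) :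
    Function.Injective (dmTheta (B := B) e) := by
  have h1 : dmTheta (B := B) e = ((sumAlgEquiv ℤ B (Fin (t + 1))).toAlgHom).comp
      (rename (Sum.elim (fun o => Sum.inr (e.symm o)) Sum.inl)) := by
    apply MvPolynomial.algHom_ext
    intro x
    rcases x with o | b
    · simp [dmTheta]
    · simp [dmTheta]
  rw [h1]
  intro f g hfg
  have h2 : Function.Injective (Sum.elim (fun o => Sum.inr (e.symm o)) Sum.inl :
      O ⊕ B → B ⊕ Fin (t + 1)) := by
    rintro (o | b) (o' | b') h
    · simpa using h
    · simp at h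
    · simp at h
    · simpa using h
  exact rename_injective _ h2 ((sumAlgEquiv ℤ B (Fin (t + 1))).injective hfg)

private theorem dmTheta_monomial {O B : Type} [Fintype O] [Fintype B] {t : ℕ}
    (e : Fin (t + 1) ≃ O) (i : O ⊕ B →₀ ℕ) (a : ℤ) :
    dmTheta e (monomial i a) = monomial (Finsupp.equivFunOnFinite.symm fun b => i (Sum.inr b))
      (monomial (Finsupp.equivFunOnFinite.symm fun j => i (Sum.inl (e j))) a) := by
  classical
  rw [dmTheta, aeval_monomial, Finsupp.prod_fintype _ _ (fun _ => pow_zero _),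
    Fintype.prod_sum_type]
  simp only [Sum.elim_inl, Sum.elim_inr]
  rw [monomial_eq (s := (Finsupp.equivFunOnFinite.symm fun b => i (Sum.inr b))),
    monomial_eq (s := (Finsupp.equivFunOnFinite.symm fun j => i (Sum.inl (e j)))),
    Finsupp.prod_fintype _ _ (fun _ => pow_zero _), Finsupp.prod_fintype _ _
    (fun _ => pow_zero _), C_mul, ← mul_assoc]
  congr 1
  congr 1
  rw [map_prod, ← Equiv.prod_comp e]
  apply Finset.prod_congr rfl
  intro j _
  simp

private theorem dm_L1_monomial_le {σ : Type} (i : σ →₀ ℕ) (a : ℤ) :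
    L1 (monomial i a) ≤ |(a : ℝ)| := by
  classical
  rw [L1_eq_sum _ {i} support_monomial_subset, Finset.sum_singleton, coeff_monomial,
    if_pos rfl]

/-- **Splitting the variables.** `fh` = `rename (Sum.map e.symm id) f`, then `Sum.swap` and `sumToIter`
(`MvPolynomial B (MvPolynomial (Fin (t+1)) ℤ)`). The coefficients of the coefficients of `fh` are coefficients of `f`,
different ones for different exponents. -/
theorem dm_split {O B : Type} [Fintype O] [Fintype B] {t : ℕ} (e : Fin (t + 1) ≃ O)
    (f : MvPolynomial (O ⊕ B) ℤ) :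
    ∃ fh : MvPolynomial B (MvPolynomial (Fin (t + 1)) ℤ), (f ≠ 0 → fh ≠ 0) ∧
      (∀ b, L1 (rename e (coeff b fh)) ≤ L1 f) ∧
      ∀ {E : Type} [Field E] (z : O ⊕ B → E),
        eval₂ (aeval (fun i => z (Sum.inl (e i))) : MvPolynomial (Fin (t + 1)) ℤ →ₐ[ℤ] E).toRingHom
          (fun b => z (Sum.inr b)) fh = aeval z f := by
  classical
  refine ⟨dmTheta e f, fun h h0 => h (dmTheta_injective e (h0.trans (map_zero _).symm)), ?_, ?_⟩
  · intro b
    have h1 : dmTheta e f = ∑ i ∈ f.support, dmTheta e (monomial i (coeff i f)) := by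
      conv_lhs => rw [← support_sum_monomial_coeff f]
      rw [map_sum]
    rw [h1, coeff_sum, map_sum]
    refine (L1_sum _ _).trans ?_
    unfold L1
    apply Finset.sum_le_sum
    intro i _
    have h2 : L1 (rename e (coeff b (dmTheta e (monomial i (coeff i f))))) ≤
        |((coeff i f : ℤ) : ℝ)| := by
      rw [dmTheta_monomial, coeff_monomial]
      split_ifs
      · rw [rename_monomial]
        exact dm_L1_monomial_le _ _
      · rw [map_zero, L1_zero]
        exact abs_nonneg _
    exact h2
  · intro E _ z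
    have h1 : (eval₂Hom (aeval (fun i => z (Sum.inl (e i))) :
        MvPolynomial (Fin (t + 1)) ℤ →ₐ[ℤ] E).toRingHom (fun b => z (Sum.inr b))).comp
          (dmTheta e).toRingHom = (aeval z : MvPolynomial (O ⊕ B) ℤ →ₐ[ℤ] E).toRingHom := by
      apply MvPolynomial.ringHom_ext
      · intro r
        simp
      · intro x
        rcases x with o | b
        · simp [dmTheta]
        · simp [dmTheta]
    exact RingHom.congr_fun h1 f

end Pool.Agent.Zilber
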