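import Pool.Agent.Zilber.DMa
import Pool.Agent.Zil.GMNF
import Pool.Agent.CITLines.Basic

set_option autoImplicit false

/-! Core D, G1, DM4: the transcendence degree of the `z o`. -/

namespace Pool.Agent.Zilber

open Pool.Agent.LSharp Pool.Agent.CITLines Pool.Agent.Zil.Gam MvPolynomial

/-- **Independence of elements with independent residues and independent values.** Suppose `p ≠ 0`
is a polynomial with `p(z', w) = 0`; as a polynomial in the variables `B` with coefficients in
`MvPolynomial T ℤ` (`sumToIter`) it is not zero, and by `lead_poly` (Zil/GMNF) its value is not `0`: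
it is `aeval z' q * w^b`, which is not zero, plus something of larger value. Over `ℚ`: extension of
scalars. -/
theorem indep_res_val {E κ : Type} [Field E] [Field κ] [CharZero E] [CharZero κ] {v : E → ℝ}
    {Rs : E → κ → Prop} (R : Resd v Rs) {T B : Type} [Fintype B] (z' : T → E) (zb' : T → κ)
    (hz : ∀ i, Rs (z' i) (zb' i)) (hind : AlgebraicIndependent ℚ zb') (w : B → E)
    (hw : ∀ b, w b ≠ 0) (hwv : LinearIndependent ℚ (fun b => v (w b))) :
    AlgebraicIndependent ℚ (Sum.elim z' w) := by
  have h1 : AlgebraicIndependent ℤ (Sum.elim z' w) := by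
    rw [algebraicIndependent_iff]
    intro p hp
    by_contra hne
    obtain ⟨P, hP⟩ : ∃ P : MvPolynomial B (MvPolynomial T ℤ),
        P = sumAlgEquiv ℤ B T (rename (Equiv.sumComm T B) p) := ⟨_, rfl⟩
    have hP0 : P ≠ 0 := by
      rw [hP]
      intro h0
      have h2 := (sumAlgEquiv ℤ B T).injective (h0.trans (map_zero _).symm)
      exact hne (rename_injective _ (Equiv.sumComm T B).injective (h2.trans (map_zero _).symm))
    have hval : eval₂ (aeval z' : MvPolynomial T ℤ →ₐ[ℤ] E).toRingHom w P = 0 := by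
      have h3 : (eval₂Hom (aeval z' : MvPolynomial T ℤ →ₐ[ℤ] E).toRingHom w).comp
          ((sumAlgEquiv ℤ B T).toAlgHom.comp (rename (Equiv.sumComm T B) :
            MvPolynomial (T ⊕ B) ℤ →ₐ[ℤ] MvPolynomial (B ⊕ T) ℤ)).toRingHom =
          (aeval (Sum.elim z' w) : MvPolynomial (T ⊕ B) ℤ →ₐ[ℤ] E).toRingHom := by
        refine MvPolynomial.ringHom_ext' ?_ ?_
        · exact Subsingleton.elim _ _
        · rintro (i | i)
          · simp
          · simp
      have h4 := RingHom.congr_fun h3 p
      rw [hP]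
      exact h4.trans hp
    obtain ⟨b, -, q, -, hq, -, -, h5⟩ := lead_poly R z' zb' hz hind w hw hwv P hP0
    rw [hval] at h5
    rcases h5 with h5 | h5
    · exact mul_ne_zero hq (wmon_ne hw _) h5.symm
    · rw [zero_sub, R.vneg] at h5
      exact lt_irrefl _ h5
  have : Algebra.IsAlgebraic ℤ ℚ := IsLocalization.isAlgebraic ℚ (nonZeroDivisors ℤ)
  exact h1.extendScalars ℚ

/-- **The transcendence degree of the `z o` is at least that of their residues plus the number of
the values.** Let `T ⊆ O` be such that the `zb o`, `o ∈ T`, are algebraically independent and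
`card T = rk ℚ (range zb)` (a basis of the matroid); `indep_res_val` with `E' = ⊤`,
`A = Set.range zb`-type data (`dm_resd` with `E' = ⊤`), `w b = z (inr b)`: their values are `M`
times those of the `y b`, so independent over `ℚ` (`hMdet`). -/
theorem rk_z {E Ω : Type} [Field E] [CharZero E] [Field Ω] [Algebra ℂ Ω] (v : Ω → ℝ)
    (hv : RV ℂ v) (φ : E →+* Ω) {O B : Type} [Fintype O] [Fintype B]
    [DecidableEq B] (z : O ⊕ B → E) (y : B → E) (zb : O → ℂ)
    (hz0 : ∀ o, z o ≠ 0) (hy0 : ∀ b, y b ≠ 0) (hzb0 : ∀ o, zb o ≠ 0)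
    (hzb : ∀ o, Rsd v (φ (z (Sum.inl o))) (zb o))
    (hw : LinearIndependent ℚ (fun b => v (φ (y b))))
    (M : Matrix B B ℚ) (hMdet : M.det ≠ 0)
    (hM : ∀ b, v (φ (z (Sum.inr b))) = ∑ b', (M b b' : ℝ) * v (φ (y b'))) :
    rk ℚ (Set.range zb) + Fintype.card B ≤ rk ℚ (Set.range z) := by
  classical
  obtain ⟨S, hS⟩ := (AlgebraicIndependent.matroid ℚ ℂ).exists_isBasis (Set.range zb)
  have hSfin : S.Finite := (Set.finite_range zb).subset hS.subset
  have hft : Fintype S := hSfin.fintype
  have hSind : AlgebraicIndependent ℚ ((↑) : S → ℂ) := hS.indep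
  have hsec : ∀ b : S, ∃ o, zb o = b := fun b => hS.subset b.2
  choose f hf using hsec
  have R := dm_resd hv φ ⊤ (Set.range zb) (by
    rintro _ ⟨o, rfl⟩
    exact ⟨z (Sum.inl o), trivial, hzb o⟩)
  have hval : LinearIndependent ℚ (fun b => v (φ (z (Sum.inr b)))) := by
    rw [Fintype.linearIndependent_iff]
    intro g hg
    have h1 : Matrix.vecMul g M = 0 := by
      funext b'
      refine Fintype.linearIndependent_iff.1 hw (Matrix.vecMul g M) ?_ b'
      rw [← hg]
      simp only [hM, Rat.smul_def, Matrix.vecMul, dotProduct, Rat.cast_sum, Rat.cast_mul,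
        Finset.mul_sum, Finset.sum_mul]
      rw [Finset.sum_comm]
      exact Finset.sum_congr rfl fun b _ => Finset.sum_congr rfl fun b' _ => by ring
    exact fun b => congrFun (Matrix.eq_zero_of_vecMul_eq_zero hMdet h1) b
  have hA : ∀ s : S, (s : ℂ) ∈ Subfield.closure (Set.range zb) := fun s =>
    Subfield.subset_closure (hS.subset s.2)
  have hind : AlgebraicIndependent ℚ
      (fun s : S => (⟨s, hA s⟩ : Subfield.closure (Set.range zb))) := by
    let g : Subfield.closure (Set.range zb) →ₐ[ℚ] ℂ :=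
      (Subfield.closure (Set.range zb)).subtype.toRatAlgHom
    exact AlgebraicIndependent.of_comp g hSind
  have key := indep_res_val R (T := S) (B := B) (fun s => ⟨z (Sum.inl (f s)), trivial⟩)
    (fun s : S => (⟨s, hA s⟩ : Subfield.closure (Set.range zb))) (fun s => by
      have h1 := hzb (f s)
      rw [hf s] at h1
      exact h1) hind (fun b => ⟨z (Sum.inr b), trivial⟩) (fun b h => hz0 (Sum.inr b)
        (congrArg Subtype.val h)) hval
  have key2 : AlgebraicIndependent ℚ (fun x : S ⊕ B => z (Sum.map f id x)) := by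
    let g : (⊤ : Subfield E) →ₐ[ℚ] E := (⊤ : Subfield E).subtype.toRatAlgHom
    have h1 := key.map' (f := g) (⊤ : Subfield E).subtype.injective
    have h2 : (g ∘ Sum.elim (fun s : S => (⟨z (Sum.inl (f s)), trivial⟩ : (⊤ : Subfield E)))
        (fun b => ⟨z (Sum.inr b), trivial⟩)) = fun x : S ⊕ B => z (Sum.map f id x) := by
      funext x
      rcases x with x | x <;> rfl
    rwa [h2] at h1
  have h1 := rk_range_of_indep _ key2
  have h2 : rk ℚ (Set.range zb) = Fintype.card S := by
    unfold rk
    rw [← hS.encard_eq_eRk, Set.encard_eq_coe_toFinset_card, Set.toFinset_card]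
  rw [h2]
  have h3 : ((Fintype.card (S ⊕ B) : ℕ) : ℕ∞) ≤ rk ℚ (Set.range z) := by
    rw [← h1]
    refine rk_mono ?_
    rintro _ ⟨x, rfl⟩
    exact ⟨_, rfl⟩
  rw [Fintype.card_sum, Nat.cast_add] at h3
  exact h3

end Pool.Agent.Zilber
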