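import Pool.Agent.Zilber.DMa
import Pool.Agent.Zilber.DMb
import Pool.Agent.Zilber.DMc
import Pool.Agent.Zilber.DMd
import Pool.Agent.Zilber.DIrr
import Pool.Agent.Zil.GMFin

set_option autoImplicit false

/-! Core D, G1: the multiplicity of the residual relation in the face. -/

namespace Pool.Agent.Zilber

open MvPolynomial Module Pool.Agent.LSharp Pool.Agent.CITLines

open Pool.Agent.Zil.Gam

/-- The values of the `w b` are independent. -/
private theorem mult_indep {Γ : Type} [AddCommGroup Γ] [Module ℚ Γ] {B : Type} [Fintype B]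
    [DecidableEq B] (u : B → Γ) (hu : LinearIndependent ℚ u) (M : Matrix B B ℚ)
    (hMdet : M.det ≠ 0) : LinearIndependent ℚ (fun b => ∑ b', M b b' • u b') := by
  rw [Fintype.linearIndependent_iff] at hu ⊢
  intro g hg
  have h1 : ∑ b', (∑ b, g b * M b b') • u b' = 0 := by
    rw [← hg]
    simp_rw [Finset.smul_sum, Finset.sum_smul, smul_smul]
    exact Finset.sum_comm
  have h2 := hu _ h1
  by_contra hcon
  push Not at hcon
  apply hMdet
  rw [← Matrix.exists_vecMul_eq_zero_iff]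
  refine ⟨g, ?_, ?_⟩
  · intro h0
    obtain ⟨b, hb⟩ := hcon
    exact hb (congrFun h0 b)
  · funext b'
    exact h2 b'

/-- Values of polynomials in a subfield. -/
private theorem mult_aeval {E : Type} [Field E] (K : Subfield E) {σ : Type} (x : σ → K)
    (f : MvPolynomial σ ℤ) : ((aeval x f : K) : E) = aeval (fun i => (x i : E)) f := by
  have h := eval₂_comp_left K.subtype (algebraMap ℤ K) x f
  rw [aeval_def, aeval_def]
  change K.subtype _ = _
  rw [h]
  congr 1

/-- The ranges agree. -/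
private theorem mult_range {E O B : Type} {t : ℕ} (e : Fin (t + 1) ≃ O) (z : O ⊕ B → E) :
    (Set.range (fun i => z (Sum.inl (e i))) ∪ Set.range (fun b => z (Sum.inr b))) =
      Set.range z := by
  ext x
  constructor
  · rintro (⟨i, rfl⟩ | ⟨b, rfl⟩)
    · exact ⟨_, rfl⟩
    · exact ⟨_, rfl⟩
  · rintro ⟨o | b, rfl⟩
    · exact Or.inl ⟨e.symm o, by simp⟩
    · exact Or.inr ⟨b, rfl⟩


/-- **Multiplicity.** Adaptor for `Pool.Agent.Zil.Gam.mult_face`.

Proof. `exists_omit` (DIrr) for `zb` gives `o1`; let `e : Fin (t + 1) ≃ O` (`t + 1 = card O`; `hrk` shows `card O ≠ 0`),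
`i₁ = e.symm o1`: the `zb (e (i₁.succAbove k))` are algebraically independent. `E' = closure (range X)`,
`κ' = closure (range zb ∪ range p)`: `dm_resd` (residues: `zb o` of `z (inl o)`, `p i` of `P i` by `hp`) gives
`R : Resd ..`. `z' i = ⟨z (inl (e i)), _⟩`, `w b = ⟨z (inr b), _⟩`, `zb' i = ⟨zb (e i), _⟩`. The values of the `w b` are
independent over `ℚ` (`hMdet`, `hM`, `hw`). Finiteness of `E'` over `ℚ(z', w)`: `rk_z`, `hrk`, `hrX`, `alg_of_rk`, `dm_fin`
(`Set.range z' ∪ Set.range w` is the range over `O ⊕ B`). If `κ'` is not finite over `ℚ(zb')` its relative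
degree is `0`: then take `m = 0`, `fb` any nonzero coefficient from `dm_split` (renamed by `e`), `G` from `irr_rel` (DIrr).
Otherwise `mult_face` with `M = ∀ b, Fin (W b)`, `π m = ∏ b, y b ^ (m b)` (in `E'`): `hM` of `mult_face`:
`v (π m) - v (π m') = ∑ d b * v (y b)`, `|d b| < W b`; if it is `∑ a b * v (w b) = ∑ a b * M b b' * v (y b')` then
`d b' = ∑ a b * M b b'` (independence), so `d = 0` by `hW`, `m = m'`. `f̂ = fh` of `dm_split`. The result `b₀, s`:
`fb = rename e (coeff b₀ fh)`, `m = s`, `G` from `irr_rel` for `zb`: `rename e.symm G` is irreducible and vanishes at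
`zb'`. Degrees: `dm_finrank` for `z'` and `zb'`. `card (∀ b, Fin (W b)) = ∏ W b`. -/
theorem mult {E Ω : Type} [Field E] [CharZero E] [Field Ω] [Algebra ℂ Ω] (v : Ω → ℝ)
    (hv : RV ℂ v) (φ : E →+* Ω) {ι ι0 O B : Type} [Fintype ι] [Fintype ι0] [Fintype O] [Fintype B]
    [DecidableEq B] (X : ι → E) (P : ι0 → E) (z : O ⊕ B → E) (y : B → E) (p : ι0 → ℂ) (zb : O → ℂ)
    (hP : ∀ i, P i ∈ Subfield.closure (Set.range X))
    (hz : ∀ o, z o ∈ Subfield.closure (Set.range X))
    (hy : ∀ b, y b ∈ Subfield.closure (Set.range X)) (hz0 : ∀ o, z o ≠ 0) (hy0 : ∀ b, y b ≠ 0)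
    (hp : ∀ i, φ (P i) = algebraMap ℂ Ω (p i)) (hzb0 : ∀ o, zb o ≠ 0)
    (hzb : ∀ o, Rsd v (φ (z (Sum.inl o))) (zb o))
    (hw : LinearIndependent ℚ (fun b => v (φ (y b))))
    (M : Matrix B B ℚ) (hMdet : M.det ≠ 0)
    (hM : ∀ b, v (φ (z (Sum.inr b))) = ∑ b', (M b b' : ℝ) * v (φ (y b')))
    (W : B → ℕ) (hW : ∀ d : B → ℤ, (∀ b, |d b| < W b) → ∀ t : B → ℤ,
      (∀ b', (d b' : ℚ) = ∑ b, (t b : ℚ) * M b b') → d = 0)
    (hrk : rk ℚ (Set.range zb) + 1 = Fintype.card O)
    (hrX : rk ℚ (Set.range X) + 1 = Fintype.card O + Fintype.card B)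
    (f : MvPolynomial (O ⊕ B) ℤ) (hf : Irreducible f) (hf0 : aeval z f = 0) :
    ∃ (fb G : MvPolynomial O ℤ) (m : ℕ), fb ≠ 0 ∧ L1 fb ≤ L1 f ∧ Irreducible G ∧
      aeval zb G = 0 ∧ G ^ m ∣ fb ∧
      (∏ b, W b) * (Subfield.closure (Set.range zb)).relfinrank
          (Subfield.closure (Set.range zb ∪ Set.range p)) ≤
        (Subfield.closure (Set.range z)).relfinrank (Subfield.closure (Set.range X)) * m := by
  classical
  obtain ⟨o1, ho1⟩ := exists_omit zb hrk
  have hcO : 0 < Fintype.card O := Fintype.card_pos_iff.2 ⟨o1⟩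
  obtain ⟨t, ht⟩ := Nat.exists_eq_succ_of_ne_zero hcO.ne'
  let e : Fin (t + 1) ≃ O := (Fintype.equivFinOfCardEq ht).symm
  set i₁ : Fin (t + 1) := e.symm o1 with hi₁
  obtain ⟨fh, hfh0, hfhL, hfhe⟩ := dm_split e f
  obtain ⟨G, hG, hG0, -⟩ := irr_rel zb hrk
  have hfne : fh ≠ 0 := hfh0 hf.ne_zero
  have hzbA : ∀ o, zb o ∈ Subfield.closure (Set.range zb ∪ Set.range p) :=
    fun o => Subfield.subset_closure (Or.inl ⟨o, rfl⟩)
  set κ' : Subfield ℂ := Subfield.closure (Set.range zb ∪ Set.range p) with hκ'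
  let zb' : Fin (t + 1) → κ' := fun i => ⟨zb (e i), hzbA _⟩
  -- the degrees
  have hdeg1 : Module.finrank (IntermediateField.adjoin ℚ (Set.range zb')) κ' =
      (Subfield.closure (Set.range zb)).relfinrank κ' := by
    have h1 := dm_finrank κ' (fun i => zb (e i)) (fun i => hzbA (e i))
    have h2 : Set.range (fun i => zb (e i)) = Set.range zb := e.surjective.range_comp zb
    rw [h2] at h1
    exact h1
  by_cases hκ : FiniteDimensional (IntermediateField.adjoin ℚ (Set.range zb')) κ'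
  swap
  · obtain ⟨b₀, hb₀⟩ := ne_zero_iff.1 hfne
    refine ⟨rename e (coeff b₀ fh), G, 0, ?_, hfhL b₀, hG, hG0, ?_, ?_⟩
    · intro h0
      exact hb₀ (rename_injective e e.injective (h0.trans (map_zero _).symm))
    · rw [pow_zero]
      exact one_dvd _
    · rw [← hdeg1, Module.finrank_of_infinite_dimensional hκ]
      simp
  have R : Resd (fun x : Subfield.closure (Set.range X) => v (φ x))
      (fun (x : Subfield.closure (Set.range X)) (c : κ') => Rsd v (φ x) (c : ℂ)) := by
    refine dm_resd hv φ _ _ ?_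
    rintro c (⟨o, rfl⟩ | ⟨i, rfl⟩)
    · exact ⟨z (Sum.inl o), hz _, hzb o⟩
    · exact ⟨P i, hP i, Or.inl (hp i)⟩
  have hXr : rk ℚ (Set.range X) ≤ rk ℚ (Set.range z) := by
    have h1 := rk_z v hv φ z y zb hz0 hy0 hzb0 hzb hw M hMdet hM
    have h2 : rk ℚ (Set.range X) + 1 = (rk ℚ (Set.range zb) + Fintype.card B) + 1 := by
      rw [hrX, ← hrk]
      ring
    have h3 : rk ℚ (Set.range X) = rk ℚ (Set.range zb) + Fintype.card B :=
      ENat.add_left_injective_of_ne_top ENat.one_ne_top h2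
    rw [h3]
    exact h1
  have hfin := dm_fin z X hz (alg_of_rk z X hz hXr)
  have hdeg2 := dm_finrank (Subfield.closure (Set.range X)) z hz
  set E' : Subfield E := Subfield.closure (Set.range X) with hE'
  let z0 : O ⊕ B → E' := fun o => ⟨z o, hz o⟩
  let z' : Fin (t + 1) → E' := fun i => z0 (Sum.inl (e i))
  let w : B → E' := fun b => z0 (Sum.inr b)
  let y' : B → E' := fun b => ⟨y b, hy b⟩
  have hw0 : ∀ b, w b ≠ 0 := fun b h => hz0 (Sum.inr b) (congrArg Subtype.val h)
  have hy'0 : ∀ b, y' b ≠ 0 := fun b h => hy0 b (congrArg Subtype.val h)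
  have hwv : LinearIndependent ℚ (fun b => v (φ (w b : E))) := by
    have h1 := mult_indep (fun b => v (φ (y b))) hw M hMdet
    have h2 : (fun b => v (φ ((w b : E') : E))) = fun b => ∑ b', M b b' • v (φ (y b')) := by
      funext b
      rw [show ((w b : E') : E) = z (Sum.inr b) from rfl, hM]
      exact Finset.sum_congr rfl fun b' _ => by rw [Rat.smul_def]
    rw [h2]
    exact h1
  have hne : ∀ k, e (i₁.succAbove k) ≠ o1 := by
    intro k h
    have h1 : i₁.succAbove k = i₁ := by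
      apply e.injective
      rw [h, hi₁, e.apply_symm_apply]
    exact Fin.succAbove_ne i₁ k h1
  have hind : AlgebraicIndependent ℚ (fun k => zb' (i₁.succAbove k)) := by
    apply AlgebraicIndependent.of_comp κ'.subtype.toRatAlgHom
    have h1 := ho1.comp (fun k => (⟨e (i₁.succAbove k), hne k⟩ : {o // o ≠ o1})) (by
      intro k k' hkk
      have h2 := congrArg Subtype.val hkk
      exact Fin.succAbove_right_injective (e.injective h2))
    exact h1
  have hset : Set.range z' ∪ Set.range w = Set.range z0 := mult_range e z0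
  have hE : FiniteDimensional (IntermediateField.adjoin ℚ (Set.range z' ∪ Set.range w)) E' := by
    rw [hset]
    exact hfin
  have hfz : eval₂ (aeval z' : MvPolynomial (Fin (t + 1)) ℤ →ₐ[ℤ] E').toRingHom w fh = 0 := by
    have h1 := hfhe z0
    have h2 : aeval z0 f = 0 := by
      apply Subtype.val_injective
      rw [mult_aeval]
      exact hf0
    exact h1.trans h2
  let π : (∀ b, Fin (W b)) → E' := fun m => ∏ b, y' b ^ (m b : ℕ)
  have hπ0 : ∀ m, π m ≠ 0 := fun m =>
    Finset.prod_ne_zero_iff.2 fun b _ => pow_ne_zero _ (hy'0 b)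
  have hvπ : ∀ m, v (φ (π m : E)) = ∑ b, ((m b : ℕ) : ℝ) * v (φ (y b)) := by
    intro m
    have h1 := R.vprod Finset.univ (fun b => y' b ^ (m b : ℕ))
      (fun b _ => pow_ne_zero _ (hy'0 b))
    refine h1.trans ?_
    refine Finset.sum_congr rfl fun b _ => ?_
    exact R.vpow (hy'0 b) (m b : ℕ)
  have hM' : ∀ m m' : (∀ b, Fin (W b)), m ≠ m' → ∀ a : B → ℤ,
      v (φ (π m : E)) - v (φ (π m' : E)) ≠ ∑ b, (a b : ℝ) * v (φ (w b : E)) := by
    intro m m' hmm a heq
    apply hmm
    rw [hvπ, hvπ] at heq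
    have hsum : ∑ b, (a b : ℝ) * v (φ (w b : E)) =
        ∑ b', (∑ b, (a b : ℝ) * (M b b' : ℝ)) * v (φ (y b')) := by
      have h1 : ∀ b, v (φ ((w b : E') : E)) = ∑ b', (M b b' : ℝ) * v (φ (y b')) := hM
      simp_rw [h1, Finset.mul_sum, Finset.sum_mul]
      rw [Finset.sum_comm]
      exact Finset.sum_congr rfl fun b' _ => Finset.sum_congr rfl fun b _ => by ring
    have hli := Fintype.linearIndependent_iff.1 hw
      (fun b' => ((((m b' : ℕ) : ℤ) - ((m' b' : ℕ) : ℤ) : ℤ) : ℚ) - ∑ b, (a b : ℚ) * M b b') (by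
        have h1 : ∀ b', (((((m b' : ℕ) : ℤ) - ((m' b' : ℕ) : ℤ) : ℤ) : ℚ) -
            ∑ b, (a b : ℚ) * M b b') • v (φ (y b')) =
            ((m b' : ℕ) : ℝ) * v (φ (y b')) - ((m' b' : ℕ) : ℝ) * v (φ (y b')) -
              (∑ b, (a b : ℝ) * (M b b' : ℝ)) * v (φ (y b')) := by
          intro b'
          rw [Rat.smul_def]
          push_cast
          ring
        simp_rw [h1]
        rw [Finset.sum_sub_distrib, Finset.sum_sub_distrib, heq, hsum, sub_self])
    have hd := hW (fun b' => ((m b' : ℕ) : ℤ) - ((m' b' : ℕ) : ℤ)) (by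
      intro b
      have h1 := (m b).2
      have h2 := (m' b).2
      rw [abs_lt]
      constructor <;> omega) a (fun b' => by
        have h1 := hli b'
        exact sub_eq_zero.1 h1)
    funext b
    have h1 : ((m b : ℕ) : ℤ) - ((m' b : ℕ) : ℤ) = 0 := congrFun hd b
    apply Fin.ext
    omega
  obtain ⟨b₀, hb₀, s, hs1, hs2⟩ := mult_face R i₁ z' zb' (fun i => hzb (e i)) w hw0 hwv hind hE hκ
    π hπ0 hM' fh hfne hfz
  refine ⟨rename e (coeff b₀ fh), G, s, ?_, hfhL b₀, hG, hG0, ?_, ?_⟩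
  · intro h0
    exact (mem_support_iff.1 hb₀) (rename_injective e e.injective (h0.trans (map_zero _).symm))
  · have h1 := hs1 (rename e.symm G) ((MulEquiv.irreducible_iff (renameEquiv ℤ e.symm)).2 hG) (by
      apply Subtype.val_injective
      rw [aeval_rename, mult_aeval]
      have h2 : (fun o => (((zb' ∘ e.symm) o : κ') : ℂ)) = zb := by
        funext o
        change zb (e (e.symm o)) = zb o
        rw [e.apply_symm_apply]
      rw [h2]
      exact hG0)
    obtain ⟨q, hq⟩ := h1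
    refine ⟨rename e q, ?_⟩
    rw [hq, map_mul, map_pow, rename_rename]
    have h3 : (e ∘ e.symm : O → O) = id := by
      funext o
      simp
    rw [h3, rename_id_apply]
  · rw [hset, Fintype.card_pi, hdeg1] at hs2
    simp only [Fintype.card_fin] at hs2
    rw [← hdeg2]
    exact hs2

end Pool.Agent.Zilber
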