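import Pool.Agent.Zilber.RhVal

set_option autoImplicit false

/-! RHO 2: the residues (multiplication, powers, roots of polynomials). Everything is elementary: `Rs v u c` means that
`u - c` is zero or has positive value; use `sml_add`, `sml_mul`, `igl_const`, `sml_or_of_mul`, ... of `RhVal`. -/

namespace Pool.Agent.Zilber

open Pool.Agent.LSharp

variable {Ω : Type} [Field Ω] [Algebra ℂ Ω] {v : Ω → ℝ}

/-- An element with a residue is integral. -/
private theorem igl_of_rs (h : RV ℂ v) {u : Ω} {c : ℂ} (hu : Rs v u c) : Igl v u := by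
  have h1 := igl_add h (Sml.igl hu) (igl_const h c)
  rwa [sub_add_cancel] at h1

private theorem val_one (h : RV ℂ v) : v 1 = 0 := by
  have h1 := h.triv 1 one_ne_zero
  rwa [map_one] at h1

private theorem val_inv (h : RV ℂ v) {x : Ω} (hx : x ≠ 0) : v x⁻¹ = -v x := by
  have h1 := h.mul x x⁻¹ hx (inv_ne_zero hx)
  rw [mul_inv_cancel₀ hx, val_one h] at h1
  linarith

private theorem val_pow (h : RV ℂ v) {x : Ω} (hx : x ≠ 0) (n : ℕ) : v (x ^ n) = n * v x := by
  induction n with
  | zero => rw [pow_zero, val_one h]; simp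
  | succ n ih =>
    rw [pow_succ, h.mul _ _ (pow_ne_zero n hx) hx, ih]
    push_cast
    ring

/-- Proof. `u = (u - c) + c` is integral; if `u = 0` or `v u > 0` then `c = u - (u - c)` is small: `not_sml_const`. -/
theorem rs_val (h : RV ℂ v) {u : Ω} {c : ℂ} (hc : c ≠ 0) (hu : Rs v u c) : u ≠ 0 ∧ v u = 0 := by
  have h1 : ¬ Sml v u := by
    intro h2
    apply not_sml_const h hc
    have h3 := sml_add h h2 (sml_neg h hu)
    have h4 : u + -(u - algebraMap ℂ Ω c) = algebraMap ℂ Ω c := by ring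
    rwa [h4] at h3
  have h2 := igl_of_rs h hu
  have h3 : u ≠ 0 := fun h4 => h1 (Or.inl h4)
  refine ⟨h3, le_antisymm ?_ (h2.resolve_left h3)⟩
  exact not_lt.1 fun h4 => h1 (Or.inr h4)

/-- Proof. `u u' - c c' = (u - c) u' + c (u' - c')`, and `u' = (u' - c') + c'` is integral. -/
theorem rs_mul (h : RV ℂ v) {u u' : Ω} {c c' : ℂ} (hu : Rs v u c) (hu' : Rs v u' c') :
    Rs v (u * u') (c * c') := by
  have h1 := sml_add h (sml_mul h hu (igl_of_rs h hu')) (sml_mul h hu' (igl_const h c))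
  have h2 : (u - algebraMap ℂ Ω c) * u' + (u' - algebraMap ℂ Ω c') * algebraMap ℂ Ω c =
      u * u' - algebraMap ℂ Ω (c * c') := by
    rw [map_mul]
    ring
  rwa [h2] at h1

/-- Proof. `u⁻¹ - c⁻¹ = (u - c) * (- c⁻¹ u⁻¹)` and `v (u⁻¹) = - v u = 0` (`rs_val`, `h.mul`, `h.triv`). -/
theorem rs_inv (h : RV ℂ v) {u : Ω} {c : ℂ} (hc : c ≠ 0) (hu : Rs v u c) :
    Rs v u⁻¹ c⁻¹ := by
  obtain ⟨h1, h2⟩ := rs_val h hc hu
  have h3 : Igl v u⁻¹ := Or.inr (by rw [val_inv h h1, h2, neg_zero])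
  have h4 := sml_mul h hu (igl_mul h (igl_const h (-c⁻¹)) h3)
  have hc' : algebraMap ℂ Ω c ≠ 0 := (map_ne_zero _).2 hc
  have h5 : (u - algebraMap ℂ Ω c) * (algebraMap ℂ Ω (-c⁻¹) * u⁻¹) =
      u⁻¹ - algebraMap ℂ Ω c⁻¹ := by
    rw [map_neg, map_inv₀]
    field_simp
    ring
  rwa [h5] at h4

private theorem rs_one (v : Ω → ℝ) : Rs v (1 : Ω) 1 := Or.inl (by rw [map_one, sub_self])

private theorem rs_pow (h : RV ℂ v) {u : Ω} {c : ℂ} (hu : Rs v u c) (n : ℕ) :
    Rs v (u ^ n) (c ^ n) := by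
  induction n with
  | zero => rw [pow_zero, pow_zero]; exact rs_one v
  | succ n ih => rw [pow_succ, pow_succ]; exact rs_mul h ih hu

/-- Proof. Induction from `rs_mul`, `rs_inv`. -/
theorem rs_zpow (h : RV ℂ v) {u : Ω} {c : ℂ} (hc : c ≠ 0) (hu : Rs v u c) (n : ℤ) :
    Rs v (u ^ n) (c ^ n) := by
  obtain ⟨m, rfl | rfl⟩ := n.eq_nat_or_neg
  · rw [zpow_natCast, zpow_natCast]
    exact rs_pow h hu m
  · rw [zpow_neg, zpow_neg, zpow_natCast, zpow_natCast]
    exact rs_inv h (pow_ne_zero m hc) (rs_pow h hu m)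

/-- Proof. Induction from `rs_mul`. -/
theorem rs_prod (h : RV ℂ v) {κ : Type} (s : Finset κ) (u : κ → Ω) (c : κ → ℂ)
    (hu : ∀ i ∈ s, Rs v (u i) (c i)) : Rs v (∏ i ∈ s, u i) (∏ i ∈ s, c i) := by
  classical
  induction s using Finset.induction_on with
  | empty => simpa using rs_one v
  | insert a s ha ih =>
    rw [Finset.prod_insert ha, Finset.prod_insert ha]
    exact rs_mul h (hu a (Finset.mem_insert_self a s))
      (ih fun i hi => hu i (Finset.mem_insert_of_mem hi))

private theorem rs_multiset (h : RV ℂ v) {u : Ω} (hu : Igl v u) (s : Multiset ℂ)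
    (hs : Sml v (s.map fun c => u - algebraMap ℂ Ω c).prod) : ∃ c ∈ s, Rs v u c := by
  have hi : ∀ c : ℂ, Igl v (u - algebraMap ℂ Ω c) := fun c => by
    have h1 := igl_add h hu (igl_const h (-c))
    rwa [map_neg, ← sub_eq_add_neg] at h1
  have hp : ∀ s : Multiset ℂ, Igl v (s.map fun c => u - algebraMap ℂ Ω c).prod := fun s => by
    induction s using Multiset.induction_on with
    | empty =>
      rw [Multiset.map_zero, Multiset.prod_zero]
      exact Or.inr (val_one h).ge
    | cons a s ih =>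
      rw [Multiset.map_cons, Multiset.prod_cons]
      exact igl_mul h (hi a) ih
  induction s using Multiset.induction_on with
  | empty =>
    exfalso
    apply not_sml_const h (one_ne_zero (α := ℂ))
    rw [map_one]
    simpa using hs
  | cons a s ih =>
    rw [Multiset.map_cons, Multiset.prod_cons] at hs
    rcases sml_or_of_mul h (hi a) (hp s) hs with h1 | h1
    · exact ⟨a, Multiset.mem_cons_self a s, h1⟩
    · obtain ⟨c, h2, h3⟩ := ih h1
      exact ⟨c, Multiset.mem_cons_of_mem h2, h3⟩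

/-- **A root of the residue polynomial.**

Proof. `p` splits over `ℂ`: `p = C lc * ∏ (X - C c)` over the multiset `p.roots` (`IsAlgClosed.splits`,
`Polynomial.eq_prod_roots_of_splits_id` or the current name), so `aeval u p = lc * ∏ (u - c)`; all factors are integral,
`lc ≠ 0` is not small (`not_sml_const`), so one of the factors is small (induction on the multiset with
`sml_or_of_mul`; the empty product `1` is not small). -/
theorem exists_rs_root (h : RV ℂ v) (p : Polynomial ℂ) (hp : p ≠ 0) {u : Ω} (hu : Igl v u)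
    (hs : Sml v (Polynomial.aeval u p)) : ∃ c : ℂ, p.IsRoot c ∧ Rs v u c := by
  have hlc : p.leadingCoeff ≠ 0 := Polynomial.leadingCoeff_ne_zero.2 hp
  have h1 : Polynomial.aeval u p =
      algebraMap ℂ Ω p.leadingCoeff * (p.roots.map fun c => u - algebraMap ℂ Ω c).prod := by
    conv_lhs => rw [(IsAlgClosed.splits p).eq_prod_roots]
    rw [map_mul, Polynomial.aeval_C, map_multiset_prod, Multiset.map_map]
    congr 2
    refine Multiset.map_congr rfl fun c _ => ?_
    simp
  have h2 : (p.roots.map fun c => u - algebraMap ℂ Ω c).prod =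
      Polynomial.aeval u p * algebraMap ℂ Ω p.leadingCoeff⁻¹ := by
    have h3 : algebraMap ℂ Ω p.leadingCoeff ≠ 0 := (map_ne_zero _).2 hlc
    rw [h1, map_inv₀]
    field_simp
  obtain ⟨c, h3, h4⟩ := rs_multiset h hu p.roots (by
    rw [h2]
    exact sml_mul h hs (igl_const h _))
  exact ⟨c, (Polynomial.mem_roots hp).1 h3, h4⟩

/-- Proof. `u` is integral: `u ^ N` has value `0` (`rs_val`), so `N * v u = 0` (`h.mul`, induction). `exists_rs_root` for
`p = X ^ N - C c`. -/
theorem exists_rs_pow (h : RV ℂ v) {N : ℕ} (hN : 0 < N) {u : Ω} {c : ℂ} (hc : c ≠ 0)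
    (hu : Rs v (u ^ N) c) : ∃ ρ : ℂ, ρ ^ N = c ∧ Rs v u ρ := by
  obtain ⟨h1, h2⟩ := rs_val h hc hu
  have h3 : u ≠ 0 := fun h4 => h1 (by rw [h4, zero_pow hN.ne'])
  rw [val_pow h h3] at h2
  have h4 : v u = 0 := by
    rcases mul_eq_zero.1 h2 with h5 | h5
    · exact absurd (Nat.cast_eq_zero.1 h5) hN.ne'
    · exact h5
  obtain ⟨ρ, h5, h6⟩ := exists_rs_root h (Polynomial.X ^ N - Polynomial.C c)
    (Polynomial.X_pow_sub_C_ne_zero hN c) (Or.inr h4.ge) (by
      rw [map_sub, map_pow, Polynomial.aeval_X, Polynomial.aeval_C]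
      exact hu)
  refine ⟨ρ, ?_, h6⟩
  rw [Polynomial.IsRoot.def] at h5
  simp only [Polynomial.eval_sub, Polynomial.eval_pow, Polynomial.eval_X, Polynomial.eval_C] at h5
  exact sub_eq_zero.1 h5

end Pool.Agent.Zilber
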