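import Mathlib

set_option autoImplicit false

/-! RHO 3: the size of the nonzero roots of an integral polynomial (Mathlib only). -/

namespace Pool.Agent.Zilber

private theorem rr_sum (p : Polynomial ℤ) {c : ℂ} (hc : Polynomial.aeval c p = 0) :
    ∑ i ∈ p.support, ((p.coeff i : ℤ) : ℂ) * c ^ i = 0 := by
  rw [Polynomial.aeval_def, Polynomial.eval₂_eq_sum, Polynomial.sum_def] at hc
  simpa using hc

private theorem rr_one (p : Polynomial ℤ) {n : ℕ} (hn : n ∈ p.support) :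
    (1 : ℝ) ≤ |((p.coeff n : ℤ) : ℝ)| := by
  have h1 : p.coeff n ≠ 0 := Polynomial.mem_support_iff.1 hn
  have h2 : (1 : ℤ) ≤ |p.coeff n| := Int.one_le_abs h1
  exact_mod_cast h2

private theorem rr_le (p : Polynomial ℤ) {n : ℕ} (hn : n ∈ p.support) :
    |((p.coeff n : ℤ) : ℝ)| ≤ ∑ i ∈ p.support, |((p.coeff i : ℤ) : ℝ)| :=
  Finset.single_le_sum (f := fun i => |((p.coeff i : ℤ) : ℝ)|) (fun _ _ => abs_nonneg _) hn

/-- The main estimate: one term against the other ones. -/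
private theorem rr_main (p : Polynomial ℤ) {c : ℂ} (hc : Polynomial.aeval c p = 0) {n : ℕ}
    (hn : n ∈ p.support) {B : ℝ} (hB : 0 ≤ B) (h : ∀ i ∈ p.support, i ≠ n → ‖c‖ ^ i ≤ B) :
    ‖c‖ ^ n ≤ (∑ i ∈ p.support, |((p.coeff i : ℤ) : ℝ)|) * B := by
  classical
  have h1 := rr_sum p hc
  rw [← Finset.add_sum_erase _ _ hn] at h1
  have h2 : ((p.coeff n : ℤ) : ℂ) * c ^ n =
      -∑ i ∈ p.support.erase n, ((p.coeff i : ℤ) : ℂ) * c ^ i := eq_neg_of_add_eq_zero_left h1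
  have h3 : ‖((p.coeff n : ℤ) : ℂ) * c ^ n‖ ≤
      ∑ i ∈ p.support.erase n, |((p.coeff i : ℤ) : ℝ)| * B := by
    rw [h2, norm_neg]
    refine (norm_sum_le _ _).trans (Finset.sum_le_sum fun i hi => ?_)
    rw [norm_mul, norm_pow, Complex.norm_intCast]
    exact mul_le_mul_of_nonneg_left
      (h i (Finset.mem_of_mem_erase hi) (Finset.ne_of_mem_erase hi)) (abs_nonneg _)
  rw [norm_mul, norm_pow, Complex.norm_intCast, ← Finset.sum_mul] at h3
  have h4 : ‖c‖ ^ n ≤ |((p.coeff n : ℤ) : ℝ)| * ‖c‖ ^ n :=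
    le_mul_of_one_le_left (by positivity) (rr_one p hn)
  refine h4.trans (h3.trans (mul_le_mul_of_nonneg_right ?_ hB))
  exact Finset.sum_le_sum_of_subset_of_nonneg (Finset.erase_subset _ _)
    fun _ _ _ => abs_nonneg _

/-- Proof. Let `n` be the degree of `p`, `a_n` the leading coefficient, `|a_n| ≥ 1`,
`S = ∑ i ∈ p.support, |a_i|`. If `‖c‖ ≤ 1` nothing
is to be proved (`S ≥ |a_n| ≥ 1`). If `‖c‖ ≥ 1` then (`n ≥ 1`, because a constant has no root)
`‖c‖^n ≤ ‖a_n c^n‖ = ‖∑ i < n, a_i c^i‖ ≤ S * ‖c‖^(n - 1)`. -/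
theorem norm_root_le (p : Polynomial ℤ) (hp : p ≠ 0) {c : ℂ} (hc : Polynomial.aeval c p = 0) :
    ‖c‖ ≤ ∑ i ∈ p.support, |((p.coeff i : ℤ) : ℝ)| := by
  have hn : p.natDegree ∈ p.support := Polynomial.natDegree_mem_support_of_nonzero hp
  have hS := (rr_one p hn).trans (rr_le p hn)
  rcases le_total ‖c‖ 1 with h1 | h1
  · exact h1.trans hS
  · have hc0 : 0 < ‖c‖ := lt_of_lt_of_le one_pos h1
    cases hd : p.natDegree with
    | zero =>
      exfalso
      have h2 := Polynomial.eq_C_of_natDegree_eq_zero hd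
      rw [h2, Polynomial.aeval_C] at hc
      have h3 : p.coeff 0 = 0 := by simpa using hc
      rw [h3, Polynomial.C_0] at h2
      exact hp h2
    | succ d =>
      have h2 := rr_main p hc hn (B := ‖c‖ ^ d) (by positivity) fun i hi hne => by
        have h3 := Polynomial.le_natDegree_of_mem_supp i hi
        exact pow_le_pow_right₀ h1 (by omega)
      rw [hd, pow_succ, mul_comm] at h2
      exact le_of_mul_le_mul_right h2 (by positivity)

/-- Proof. The same with the smallest exponent `t` of `p` (`natTrailingDegree`), `|a_t| ≥ 1`: for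
`‖c‖ ≤ 1`, `‖c‖^t ≤ ‖a_t c^t‖ = ‖∑ i > t, a_i c^i‖ ≤ S * ‖c‖^(t + 1)`. (Or: `norm_root_le` for
`p.reverse` and `c⁻¹`, see `Polynomial.eval₂_reverse_eq_zero_iff`.) -/
theorem inv_norm_root_le (p : Polynomial ℤ) (hp : p ≠ 0) {c : ℂ} (hc0 : c ≠ 0)
    (hc : Polynomial.aeval c p = 0) : ‖c‖⁻¹ ≤ ∑ i ∈ p.support, |((p.coeff i : ℤ) : ℝ)| := by
  have hn : p.natTrailingDegree ∈ p.support :=
    Polynomial.natTrailingDegree_mem_support_of_nonzero hp
  have hS := (rr_one p hn).trans (rr_le p hn)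
  have hpos : 0 < ‖c‖ := norm_pos_iff.2 hc0
  rcases le_total 1 ‖c‖ with h1 | h1
  · exact (inv_le_one_of_one_le₀ h1).trans hS
  · have h2 := rr_main p hc hn (B := ‖c‖ ^ (p.natTrailingDegree + 1)) (by positivity)
      fun i hi hne => by
        have h3 := Polynomial.natTrailingDegree_le_of_mem_supp i hi
        exact pow_le_pow_of_le_one hpos.le h1 (by omega)
    rw [pow_succ, ← mul_assoc, mul_right_comm] at h2
    have h3 : 1 ≤ (∑ i ∈ p.support, |((p.coeff i : ℤ) : ℝ)|) * ‖c‖ := by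
      refine le_of_mul_le_mul_right ?_ (pow_pos hpos p.natTrailingDegree)
      rw [one_mul]
      exact h2
    rwa [inv_le_iff_one_le_mul₀ hpos]

/-- Proof. `|log ‖c‖|` is `log ‖c‖` or `log ‖c‖⁻¹`; the two bounds above. -/
theorem abs_log_root_le (p : Polynomial ℤ) (hp : p ≠ 0) {c : ℂ} (hc0 : c ≠ 0)
    (hc : Polynomial.aeval c p = 0) :
    |Real.log ‖c‖| ≤ Real.log (∑ i ∈ p.support, |((p.coeff i : ℤ) : ℝ)|) := by
  have hpos : 0 < ‖c‖ := norm_pos_iff.2 hc0
  rw [abs_le']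
  refine ⟨Real.log_le_log hpos (norm_root_le p hp hc), ?_⟩
  rw [← Real.log_inv]
  exact Real.log_le_log (inv_pos.2 hpos) (inv_norm_root_le p hp hc0 hc)

end Pool.Agent.Zilber
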