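import Pool.Agent.LSharp.L1
import Pool.Agent.LSharp.TSVal
import Pool.Agent.Zilber.RhRes
import Pool.Agent.Zilber.RhRoot

set_option autoImplicit false

/-! RHO 4: the residue of an element of value `0` which is algebraically dependent on elements with
rationally independent
values. -/

namespace Pool.Agent.Zilber

open MvPolynomial Pool.Agent.LSharp

private theorem rk_prod {Ω : Type} [Field Ω] [Algebra ℂ Ω] {v : Ω → ℝ} (hv : RV ℂ v)
    {γ : Type} [Fintype γ] (y : γ → Ω) (hy0 : ∀ b, y b ≠ 0) (k : γ → ℤ) :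
    (∏ b, y b ^ k b) ≠ 0 ∧ v (∏ b, y b ^ k b) = ∑ b, (k b : ℝ) * v (y b) := by
  classical
  have key : ∀ S : Finset γ, (∏ b ∈ S, y b ^ k b) ≠ 0 ∧
      v (∏ b ∈ S, y b ^ k b) = ∑ b ∈ S, (k b : ℝ) * v (y b) := by
    intro S
    induction S using Finset.induction_on with
    | empty => simp [rv_one hv]
    | insert a S ha ih =>
      rw [Finset.prod_insert ha, Finset.sum_insert ha]
      refine ⟨mul_ne_zero (zpow_ne_zero _ (hy0 a)) ih.1, ?_⟩
      rw [hv.mul _ _ (zpow_ne_zero _ (hy0 a)) ih.1, rv_zpow hv (hy0 a), ih.2]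
  exact key Finset.univ

private theorem rk_inj {γ : Type} [Fintype γ] (w : γ → ℝ) (hy : LinearIndependent ℚ w)
    (m m' : γ →₀ ℕ) (h : ∑ b, (m b : ℝ) * w b = ∑ b, (m' b : ℝ) * w b) : m = m' := by
  have h1 : ∑ b, ((m b : ℚ) - (m' b : ℚ)) • w b = 0 := by
    have : ∀ b, ((m b : ℚ) - (m' b : ℚ)) • w b = (m b : ℝ) * w b - (m' b : ℝ) * w b := by
      intro b
      rw [Rat.smul_def]
      push_cast
      ring
    rw [Finset.sum_congr rfl fun b _ => this b, Finset.sum_sub_distrib, h, sub_self]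
  have h2 := Fintype.linearIndependent_iff.1 hy _ h1
  ext b
  have h3 := h2 b
  have h4 : (m b : ℚ) = (m' b : ℚ) := by linarith
  exact_mod_cast h4

private theorem rk_rel {Ω : Type} [Field Ω] {γ : Type} [Fintype γ]
    (P : MvPolynomial (Option γ) ℤ) (u : Ω) (y : γ → Ω)
    (hrel : aeval (fun o : Option γ => o.elim u y) P = 0) :
    ∑ e ∈ P.support, ((P.coeff e : ℤ) : Ω) * u ^ (e none) * ∏ b, y b ^ (e (some b)) = 0 := by
  rw [aeval_def, eval₂_eq'] at hrel
  rw [← hrel]
  refine Finset.sum_congr rfl fun e _ => ?_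
  rw [Fintype.prod_option]
  simp only [Option.elim_none, Option.elim_some, eq_intCast]
  ring

private theorem rk_quot {Ω : Type} [Field Ω] {γ : Type} [Fintype γ] (y : γ → Ω)
    (hy0 : ∀ b, y b ≠ 0) (m m0 : γ → ℕ) :
    (∏ b, y b ^ (m b)) = (∏ b, y b ^ ((m b : ℤ) - (m0 b : ℤ))) * ∏ b, y b ^ (m0 b) := by
  rw [← Finset.prod_mul_distrib]
  refine Finset.prod_congr rfl fun b _ => ?_
  rw [zpow_sub₀ (hy0 b), zpow_natCast, zpow_natCast, div_mul_cancel₀ _ (pow_ne_zero _ (hy0 b))]

private theorem rk_coef {σ : Type} (P : MvPolynomial σ ℤ) (T : Finset (σ →₀ ℕ))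
    (hT : T ⊆ P.support) (f : (σ →₀ ℕ) → ℕ) :
    ∑ i ∈ (∑ e ∈ T, Polynomial.monomial (f e) (P.coeff e)).support,
      |(((∑ e ∈ T, Polynomial.monomial (f e) (P.coeff e)).coeff i : ℤ) : ℝ)| ≤ L1 P := by
  classical
  set p : Polynomial ℤ := ∑ e ∈ T, Polynomial.monomial (f e) (P.coeff e) with hp
  have h1 : ∀ i, |((p.coeff i : ℤ) : ℝ)| ≤
      ∑ e ∈ T, if f e = i then |((P.coeff e : ℤ) : ℝ)| else 0 := by
    intro i
    rw [hp, Polynomial.finsetSum_coeff]
    push_cast
    refine (Finset.abs_sum_le_sum_abs _ _).trans (Finset.sum_le_sum fun e _ => ?_)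
    rw [Polynomial.coeff_monomial]
    split_ifs <;> simp
  calc ∑ i ∈ p.support, |((p.coeff i : ℤ) : ℝ)|
      ≤ ∑ i ∈ p.support, ∑ e ∈ T, (if f e = i then |((P.coeff e : ℤ) : ℝ)| else 0) :=
        Finset.sum_le_sum fun i _ => h1 i
    _ = ∑ e ∈ T, ∑ i ∈ p.support, (if f e = i then |((P.coeff e : ℤ) : ℝ)| else 0) :=
        Finset.sum_comm
    _ ≤ ∑ e ∈ T, |((P.coeff e : ℤ) : ℝ)| := by
        refine Finset.sum_le_sum fun e _ => ?_
        rw [Finset.sum_ite_eq]
        split_ifs
        · exact le_rfl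
        · exact abs_nonneg _
    _ ≤ L1 P := by
        unfold L1
        exact Finset.sum_le_sum_of_subset_of_nonneg hT fun _ _ _ => abs_nonneg _

/-- **The face of a relation.** `u` has value `0`, the values of the `y b` are linearly independent
over `ℚ`, `P` is an
integral relation between `u` and the `y b`. Then `u` has a residue in `ℂ`, which is a nonzero
algebraic number of size
bounded by `L1 P`.

Proof. Group the monomials of `P` by their exponents in the `y b`: `P = ∑ m, c_m(U) y^m`,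
`m : γ →₀ ℕ`, `c_m : Polynomial ℤ`
(`MvPolynomial.optionEquivRight ℤ γ P : MvPolynomial γ (Polynomial ℤ)`, or directly:
`c_m = ∑ e ∈ P.support with e.some = m, Polynomial.monomial (e none) (P.coeff e)`, nonzero for `m`
in the image of
`P.support` under `Finsupp.some`; the map `e ↦ (e none, e.some)` is injective). So
`∑ m ∈ S, aeval u c_m * ∏ b, y b ^ m b = 0`, `S`
the finite nonempty set of the `m` with `c_m ≠ 0`. Let `w m = ∑ b, m b * v (y b)`; `w` is injective
on `S` by `hy` (a rational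
relation `∑ (m b - m' b) v (y b) = 0`); let `m0 ∈ S` be the point with the smallest `w`. Divide by
`y^m0`:
`aeval u c_m0 = - ∑ m ∈ S \ {m0}, aeval u c_m * (y^m / y^m0)`, `aeval u c_m` is integral
(`igl_add`, `igl_mul`, `igl_const`, `igl_pow`;
integers are constants), `y^m / y^m0` is not zero and has value `w m - w m0 > 0` (`hv.mul`), so it
is small, and the sum is small
(`sml_mul`, `sml_sum`, `sml_neg`). `exists_rs_root` for `c_m0` mapped to `ℂ` gives `c`; `c ≠ 0`
because otherwise `u` is small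
(`u - 0`), but `u ≠ 0` and `v u = 0`; `c` is a root of `c_m0`, so algebraic (`IsAlgebraic ℚ c`: map
`c_m0` to `ℚ`), and
`abs_log_root_le` with `∑ |coefficients of c_m0| ≤ L1 P` (they are coefficients of `P` at different
exponents) and `Real.log_le_log`
(the sum is at least `1`, or positive). -/
theorem face_residue {Ω : Type} [Field Ω] [Algebra ℂ Ω] {v : Ω → ℝ} (hv : RV ℂ v) {γ : Type}
    [Fintype γ] (P : MvPolynomial (Option γ) ℤ) (hP : P ≠ 0) (u : Ω) (hu : u ≠ 0) (hu0 : v u = 0)
    (y : γ → Ω) (hy0 : ∀ b, y b ≠ 0) (hy : LinearIndependent ℚ fun b => v (y b))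
    (hrel : aeval (fun o : Option γ => o.elim u y) P = 0) :
    ∃ c : ℂ, c ≠ 0 ∧ IsAlgebraic ℚ c ∧ Rs v u c ∧ |Real.log ‖c‖| ≤ Real.log (L1 P) := by
  classical
  have hne : P.support.Nonempty :=
    Finset.nonempty_iff_ne_empty.2 (fun h => hP (support_eq_empty.1 h))
  obtain ⟨e0, he0, hmin⟩ := Finset.exists_min_image P.support
    (fun e => ∑ b, (e (some b) : ℝ) * v (y b)) hne
  set T : Finset (Option γ →₀ ℕ) := P.support.filter (fun e => ∀ b, e (some b) = e0 (some b))
    with hT
  set p : Polynomial ℤ := ∑ e ∈ T, Polynomial.monomial (e none) (P.coeff e) with hp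
  have he0T : e0 ∈ T := Finset.mem_filter.2 ⟨he0, fun _ => rfl⟩
  have hpc : p.coeff (e0 none) = P.coeff e0 := by
    rw [hp, Polynomial.finsetSum_coeff, Finset.sum_eq_single_of_mem e0 he0T]
    · rw [Polynomial.coeff_monomial, if_pos rfl]
    · intro e he hee
      rw [Polynomial.coeff_monomial, if_neg]
      intro h
      apply hee
      ext o
      cases o with
      | none => exact h
      | some b => exact (Finset.mem_filter.1 he).2 b
  have hp0 : p ≠ 0 := by
    intro h
    rw [h, Polynomial.coeff_zero] at hpc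
    exact (mem_support_iff.1 he0) hpc.symm
  have hu1 : Igl v u := Or.inr hu0.ge
  have hrel' := rk_rel P u y hrel
  set Y0 : Ω := ∏ b, y b ^ (e0 (some b)) with hY0
  have hY0' : Y0 ≠ 0 := Finset.prod_ne_zero_iff.2 fun b _ => pow_ne_zero _ (hy0 b)
  set q : (Option γ →₀ ℕ) → Ω := fun e => ∏ b, y b ^ ((e (some b) : ℤ) - (e0 (some b) : ℤ))
    with hq
  have hrel2 : ∑ e ∈ P.support, ((P.coeff e : ℤ) : Ω) * u ^ (e none) * q e = 0 := by
    have h1 : (∑ e ∈ P.support, ((P.coeff e : ℤ) : Ω) * u ^ (e none) * q e) * Y0 = 0 := by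
      rw [Finset.sum_mul, ← hrel']
      refine Finset.sum_congr rfl fun e _ => ?_
      rw [rk_quot y hy0 (fun b => e (some b)) (fun b => e0 (some b))]
      ring
    exact (mul_eq_zero.1 h1).resolve_right hY0'
  have hsum : Polynomial.aeval u (p.map (algebraMap ℤ ℂ)) =
      ∑ e ∈ T, ((P.coeff e : ℤ) : Ω) * u ^ (e none) := by
    rw [hp, Polynomial.map_sum, map_sum]
    refine Finset.sum_congr rfl fun e _ => ?_
    rw [Polynomial.map_monomial, Polynomial.aeval_monomial]
    simp
  have hqT : ∀ e ∈ T, q e = 1 := by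
    intro e he
    rw [hq]
    refine Finset.prod_eq_one fun b _ => ?_
    rw [(Finset.mem_filter.1 he).2 b, sub_self, zpow_zero]
  have hsplit : ∑ e ∈ T, ((P.coeff e : ℤ) : Ω) * u ^ (e none) =
      -∑ e ∈ P.support.filter (fun e => ¬ ∀ b, e (some b) = e0 (some b)),
        ((P.coeff e : ℤ) : Ω) * u ^ (e none) * q e := by
    rw [eq_neg_iff_add_eq_zero, ← hrel2,
      ← Finset.sum_filter_add_sum_filter_not P.support (fun e => ∀ b, e (some b) = e0 (some b))]
    congr 1
    refine Finset.sum_congr rfl fun e he => ?_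
    rw [hqT e he, mul_one]
  have hsml : Sml v (Polynomial.aeval u (p.map (algebraMap ℤ ℂ))) := by
    rw [hsum, hsplit]
    refine sml_neg hv (sml_sum hv _ _ fun e he => ?_)
    obtain ⟨he1, he2⟩ := Finset.mem_filter.1 he
    have hk := rk_prod hv y hy0 (fun b => (e (some b) : ℤ) - (e0 (some b) : ℤ))
    have hint : Igl v (((P.coeff e : ℤ) : Ω) * u ^ (e none)) := by
      refine igl_mul hv ?_ (igl_pow hv hu1 _)
      have h2 := igl_const hv ((P.coeff e : ℤ) : ℂ)
      rwa [map_intCast] at h2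
    have hqs : Sml v (q e) := by
      refine Or.inr ?_
      rw [hq]
      rw [hk.2]
      have h3 : ∑ b, (((e (some b) : ℤ) - (e0 (some b) : ℤ) : ℤ) : ℝ) * v (y b) =
          ∑ b, (e (some b) : ℝ) * v (y b) - ∑ b, (e0 (some b) : ℝ) * v (y b) := by
        rw [← Finset.sum_sub_distrib]
        refine Finset.sum_congr rfl fun b _ => ?_
        push_cast
        ring
      rw [h3, sub_pos]
      refine lt_of_le_of_ne (hmin e he1) fun h4 => he2 ?_
      have h5 := rk_inj _ hy e0.some e.some (by simpa using h4)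
      intro b
      rw [← Finsupp.some_apply, ← Finsupp.some_apply, h5]
    rw [mul_comm]
    exact sml_mul hv hqs hint
  have hpm : p.map (algebraMap ℤ ℂ) ≠ 0 := by
    intro h
    exact hp0 (Polynomial.map_injective _ (algebraMap ℤ ℂ).injective_int (by
      rw [h, Polynomial.map_zero]))
  obtain ⟨c, hroot, hc⟩ := exists_rs_root hv _ hpm hu1 hsml
  have hc0 : c ≠ 0 := by
    rintro rfl
    unfold Rs at hc
    rw [map_zero, sub_zero] at hc
    rcases hc with h | h
    · exact hu h
    · rw [hu0] at h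
      exact lt_irrefl _ h
  have hroot' : Polynomial.aeval c p = 0 := by
    rw [← Polynomial.eval_map_algebraMap]
    exact hroot
  refine ⟨c, hc0, ?_, hc, ?_⟩
  · have h6 : IsAlgebraic ℤ c := ⟨p, hp0, hroot'⟩
    exact h6.extendScalars (algebraMap ℤ ℚ).injective_int
  · refine (abs_log_root_le p hp0 hc0 hroot').trans (Real.log_le_log ?_ ?_)
    · refine Finset.sum_pos (fun i hi => ?_) ?_
      · rw [abs_pos]
        exact_mod_cast Polynomial.mem_support_iff.1 hi
      · exact Finset.nonempty_iff_ne_empty.2 fun h => hp0 (Polynomial.support_eq_empty.1 h)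
    · exact rk_coef P T (Finset.filter_subset _ _) (fun e => e none)

end Pool.Agent.Zilber
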