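import Pool.Agent.Zilber.DDefs
import Pool.Agent.LSharp.BRInt

set_option autoImplicit false

/-! RHO 5: the integral relation between a monomial of one block and the coordinates `g b` of this
block, at most levels. -/

namespace Pool.Agent.Zilber

open Filter NumberField Module Pool.Agent.LAll Pool.Agent.LSharp Pool.Agent.CITLines

/-- More elements than the transcendence degree are algebraically dependent.

Proof. Otherwise `AlgebraicIndependent F z` (`algebraicIndependent_iff`), so `rk F (Set.range z) =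
card γ + 1`
(`rk_range_of_indep`, `Fintype.card_option`), but `rk F (Set.range z) ≤ rk F (Set.range t)`
(`rk_le_of_algebraic`)
`≤ (Set.range t).encard ≤ card γ` (`rk_le_encard`). -/
theorem exists_dep {F E : Type} [Field F] [Field E] [Algebra F E] {γ : Type} [Fintype γ]
    (t : γ → E) (z : Option γ → E)
    (hz : ∀ o, IsAlgebraic (Algebra.adjoin F (Set.range t)) (z o)) :
    ∃ p : MvPolynomial (Option γ) F, p ≠ 0 ∧ MvPolynomial.aeval z p = 0 := by
  by_contra hcon
  have hind : AlgebraicIndependent F z := by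
    rw [algebraicIndependent_iff]
    intro p hp
    by_contra h
    exact hcon ⟨p, h, hp⟩
  have h1 : rk F (Set.range z) = Fintype.card (Option γ) := rk_range_of_indep z hind
  have h2 : rk F (Set.range z) ≤ rk F (Set.range t) := rk_le_of_algebraic (by
    rintro _ ⟨o, rfl⟩
    exact hz o)
  have h3 : rk F (Set.range t) ≤ (Set.range t).encard := rk_le_encard _
  have h4 : (Set.range t).encard ≤ ((Fintype.card γ : ℕ) : ℕ∞) := by
    rw [← Set.image_univ]
    refine (Set.encard_image_le _ _).trans ?_
    simp [Set.encard_univ]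
  have h5 : ((Fintype.card (Option γ) : ℕ) : ℕ∞) ≤ ((Fintype.card γ : ℕ) : ℕ∞) := by
    rw [← h1]
    exact h2.trans (h3.trans h4)
  rw [Fintype.card_option] at h5
  have h6 : Fintype.card γ + 1 ≤ Fintype.card γ := by exact_mod_cast h5
  omega

variable {J : Type} {𝒰 : Ultrafilter J} {K : J → Type} [∀ j, Field (K j)] [∀ j, NumberField (K j)]
  {k : ℕ} {s : Fin (k + 1) → J → ℝ} {ι β : Type} [Fintype ι]
  [Fintype β] [DecidableEq β] {cl : ι → Fin (k + 1)} {x : ι → Ult 𝒰 K} {bs : β → ι}
  {X : ι → Ult 𝒰 (PS β K)}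

private theorem ev_int {A B : Type} [CommRing A] [Algebra ℤ A] [CommRing B] (φ : A →+* B)
    {σ : Type} (v : σ → A) (P : MvPolynomial σ ℤ) :
    φ (MvPolynomial.aeval v P) =
      MvPolynomial.eval₂ (Int.castRingHom B) (fun o => φ (v o)) P := by
  rw [MvPolynomial.aeval_def, MvPolynomial.eval₂_comp_left]
  congr 1
  exact Subsingleton.elim _ _

private theorem ev_cast {A : Type} [CommRing A] [Algebra ℤ A] {σ : Type} (v : σ → A)
    (P : MvPolynomial σ ℤ) :
    MvPolynomial.aeval v P = MvPolynomial.eval₂ (Int.castRingHom A) v P := by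
  rw [MvPolynomial.aeval_def]
  congr 1
  exact Subsingleton.elim _ _

private theorem zpow_toNat {F : Type} [Field F] {a : F} {n : ℤ} (h : n ≠ 0 → a ≠ 0) :
    a ^ n * a ^ (-n).toNat = a ^ n.toNat := by
  by_cases hn : n = 0
  · subst hn
    simp
  · have ha := h hn
    rw [← zpow_natCast a (-n).toNat, ← zpow_natCast a n.toNat, ← zpow_add₀ ha]
    congr 1
    omega

/-- **The relation at level `j`.**

Proof. `L, τ` from `hX.ex l`; `F l = FD 𝒰 K s l = kf 𝒰 K (s l)` (`rfl`).
(1) `z : Option {b // cl (bs b) = l} → Ult 𝒰 K`, `z none = mon x e`, `z (some b) = x (g b)`. All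
`z o` are in `L`: `x i ∈ L` for
`cl i = l`; `mon x e = ∏ i, x i ^ e i`, for `e i = 0` the factor is `1` (`prod_mem`, `zpow_mem`).
So they are algebraic over
`Algebra.adjoin (F l) {y | ∃ b, cl (bs b) = l ∧ y = x (bs b)}` (third clause of `ex`), which is
`adjoin (range fun b : {b // cl (bs b) = l} => x (bs b))`; `exists_dep` gives `p ≠ 0` over `kf 𝒰 K
(s l)` with `aeval z p = 0`.
(2) `int_lift (s l) (fun _ : Unit => p)` gives `C, b, q`. `q j ≠ 0` for most `j`: for `m` with
`p.coeff m ≠ 0` the class of
`(q j).coeff m` is `mk b * p.coeff m ≠ 0` (`Ult.rep_ne_zero`-like: `Ult.mk_eq_zero`,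
`Ultrafilter.eventually_not`).
`L1 (q j) ≤ exp (C * max 1 (s l j)) ≤ exp (max C 0 * s l j)`, `1 ≤ s l j` by `hc.scl.one`.
(3) Let `zL o : L` be `z o` and `Y o = τ (zL o)`. In `L`: `aeval zL p = 0` (`F l ≤ L` as
`Subfield.inclusion`; `L → Ult` is
injective). Applying `τ`, which is `cst β K = Ult.map (fun _ => MvPowerSeries.C)` on `F l`:
`eval₂ ((Ult.map fun _ => MvPowerSeries.C).comp (kf 𝒰 K (s l)).subtype) Y p = 0`. So `eval_lift
(fun j => MvPowerSeries.C)` gives
`aeval (fun o => (Y o).rep j) (q j) = 0` in `MvPowerSeries β (K j)` for most `j`.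
(4) `Y (some b) = X (g b)` (last clause of `ex`). In `L`: `mon x e * ∏ i, x i ^ (- e i).toNat = ∏
i, x i ^ (e i).toNat` (over the `i` with
`cl i = l`; the other exponents are `0`), so `Y none * ∏ i, X i ^ (- e i).toNat = ∏ i, X i ^ (e
i).toNat` in `Ult 𝒰 (PS β K)`, so for
most `j` the same for the `rep j`. For `cl i = l`, `X i ≠ 0` (`τ` is injective, `hc.ne`), so `(X
i).rep j ≠ 0` for most `j`. Hence the
image of `(Y none).rep j` in the fraction field is `∏ i, (algebraMap ((X i).rep j)) ^ e i`, which
is `mon (gen ..) e` coerced.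
(5) The relation in `GF ..`: `Subtype.ext` (or injectivity of `algebraMap (GF _) (FractionRing
_)`): the coercion of the value of
`q j` in `GF` is its value in the fraction field, which is the image of the value in
`MvPowerSeries β (K j)`: `0`. -/
theorem rel_level (hc : Conf 𝒰 K s (FD 𝒰 K s) cl x bs) (hX : Br 𝒰 K (FD 𝒰 K s) cl x bs X)
    {g : β → ι} (hcg : ∀ b, cl (g b) = cl (bs b)) (l : Fin (k + 1)) (e : ι → ℤ)
    (he : ∀ i, e i ≠ 0 → cl i = l) :
    ∃ C : ℝ, 0 ≤ C ∧ ∀ᶠ j in (𝒰 : Filter J),
      ∃ P : MvPolynomial (Option {b : β // cl (bs b) = l}) ℤ,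
      P ≠ 0 ∧ L1 P ≤ Real.exp (C * s l j) ∧
      MvPolynomial.aeval (fun o : Option {b : β // cl (bs b) = l} =>
        o.elim (mon (gen fun i => (X i).rep j) e)
          (fun b => gen (fun i => (X i).rep j) (g b))) P = 0 := by
  classical
  obtain ⟨L, τ, hFL, hxL, hal, heps, hcst, -, -, hXi⟩ := hX.ex l
  have hFL' : kf 𝒰 K (s l) ≤ L := hFL
  -- (1) the relation over `kf`
  have hmonL : mon x e ∈ L := by
    unfold mon
    refine prod_mem fun i _ => ?_
    by_cases h : e i = 0
    · rw [h, zpow_zero]
      exact one_mem L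
    · exact zpow_mem (hxL i (he i h)) _
  have hzL : ∀ o : Option {b : β // cl (bs b) = l},
      o.elim (mon x e) (fun b => x (g b)) ∈ L := by
    rintro (_ | b)
    · exact hmonL
    · exact hxL (g b) ((hcg b).trans b.2)
  have hset : {y | ∃ b, cl (bs b) = l ∧ y = x (bs b)} =
      Set.range (fun b : {b : β // cl (bs b) = l} => x (bs b)) := by
    ext y
    constructor
    · rintro ⟨b, hb, rfl⟩
      exact ⟨⟨b, hb⟩, rfl⟩
    · rintro ⟨b, rfl⟩
      exact ⟨b, b.2, rfl⟩
  obtain ⟨p, hp0, hp⟩ := exists_dep (F := kf 𝒰 K (s l))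
    (fun b : {b : β // cl (bs b) = l} => x (bs b))
    (fun o : Option {b : β // cl (bs b) = l} => o.elim (mon x e) (fun b => x (g b))) (by
      intro o
      rw [← hset]
      exact hal ⟨_, hzL o⟩)
  -- (2) the integral polynomials
  obtain ⟨C, b, q, hb, hsupp, hbd, hcoef⟩ := int_lift (s l) (fun _ : Unit => p)
  have hqne : ∀ᶠ j in (𝒰 : Filter J), q () j ≠ 0 := by
    obtain ⟨m, hm⟩ := (MvPolynomial.ne_zero_iff).1 hp0
    have h1 : Ult.mk 𝒰 K (fun j => (((q () j).coeff m : ℤ) : K j)) ≠ 0 := by
      rw [← hcoef () m]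
      refine mul_ne_zero ?_ (fun h => hm (Subtype.ext h))
      intro h
      obtain ⟨j, hj⟩ := (Ult.mk_eq_zero.1 h).exists
      exact hb j (by exact_mod_cast hj)
    have h2 : ∀ᶠ j in (𝒰 : Filter J), ¬ (((q () j).coeff m : ℤ) : K j) = 0 := by
      rw [Ultrafilter.eventually_not]
      intro h
      exact h1 (Ult.mk_eq_zero.2 h)
    filter_upwards [h2] with j hj h0
    apply hj
    rw [h0, MvPolynomial.coeff_zero, Int.cast_zero]
  -- (3) the relation for the power series
  set zL : Option {b : β // cl (bs b) = l} → L := fun o => ⟨_, hzL o⟩ with hzLdef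
  set Y : Option {b : β // cl (bs b) = l} → Ult 𝒰 (PS β K) := fun o => τ (zL o) with hY
  have hev : ∀ᶠ j in (𝒰 : Filter J),
      MvPolynomial.eval₂ (Int.castRingHom (PS β K j)) (fun o => (Y o).rep j) (q () j) = 0 := by
    have h1 := eval_lift (𝒰 := 𝒰) (fun j => (MvPowerSeries.C : K j →+* PS β K j)) (s l) p b
      (fun j => q () j) (fun j => hsupp () j) (fun m => hcoef () m) Y
    have h2 : MvPolynomial.eval₂ (Subfield.inclusion hFL') zL p = 0 := by
      apply Subtype.ext
      have h3 := MvPolynomial.eval₂_comp_left L.subtype (Subfield.inclusion hFL') zL p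
      change L.subtype _ = _
      rw [h3]
      exact hp
    have h4 : MvPolynomial.eval₂ ((Ult.map (𝒰 := 𝒰)
        (fun j => (MvPowerSeries.C : K j →+* PS β K j))).comp (kf 𝒰 K (s l)).subtype) Y p = 0 := by
      have h5 := MvPolynomial.eval₂_comp_left τ (Subfield.inclusion hFL') zL p
      rw [h2, map_zero] at h5
      have h6 : (Ult.map (𝒰 := 𝒰)
          (fun j => (MvPowerSeries.C : K j →+* PS β K j))).comp (kf 𝒰 K (s l)).subtype =
          τ.comp (Subfield.inclusion hFL') := by
        ext y
        exact (hcst (Subfield.inclusion hFL' y) y.2).symm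
      rw [h6]
      exact h5.symm
    rw [h4, mul_zero] at h1
    filter_upwards [Ult.mk_eq_zero.1 h1.symm] with j hj
    exact (@ev_cast (PS β K j) _ (Ring.toIntAlgebra _) _ _ _).symm.trans hj
  -- (4) the power series
  have hYs : ∀ b : {b : β // cl (bs b) = l}, Y (some b) = X (g b) := fun b =>
    (hXi (g b) ((hcg b).trans b.2) (zL (some b)) rfl).symm
  have hXne : ∀ᶠ j in (𝒰 : Filter J), ∀ i, cl i = l → (X i).rep j ≠ 0 := by
    rw [Filter.eventually_all]
    intro i
    by_cases hi : cl i = l
    · have h1 : X i ≠ 0 := by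
        rw [hXi i hi ⟨x i, hxL i hi⟩ rfl]
        intro h2
        have h3 := heps ⟨x i, hxL i hi⟩
        rw [h2, map_zero] at h3
        exact hc.ne i h3.symm
      filter_upwards [Ult.rep_ne_zero h1] with j hj _
      exact hj
    · exact Filter.Eventually.of_forall fun j h => absurd h hi
  have hYn : Y none * ∏ i, X i ^ (-e i).toNat = ∏ i, X i ^ (e i).toNat := by
    set xL : ι → L := fun i => if h : cl i = l then ⟨x i, hxL i h⟩ else 1 with hxLdef
    have h1 : ∀ n : ι → ℕ, (∀ i, n i ≠ 0 → cl i = l) →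
        ∏ i, X i ^ n i = τ (∏ i, xL i ^ n i) := by
      intro n hn
      rw [map_prod]
      refine Finset.prod_congr rfl fun i _ => ?_
      by_cases h : n i = 0
      · rw [h, pow_zero, pow_zero, map_one]
      · have h2 := hn i h
        rw [map_pow]
        congr 1
        simp only [hxLdef]
        rw [dif_pos h2]
        exact hXi i h2 _ rfl
    have h1' : ∀ n : ι → ℕ, (∀ i, n i ≠ 0 → cl i = l) →
        ((∏ i, xL i ^ n i : L) : Ult 𝒰 K) = ∏ i, x i ^ n i := by
      intro n hn
      have h3 : ((∏ i, xL i ^ n i : L) : Ult 𝒰 K) = L.subtype (∏ i, xL i ^ n i) := rfl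
      rw [h3, map_prod]
      refine Finset.prod_congr rfl fun i _ => ?_
      by_cases h : n i = 0
      · rw [h, pow_zero, pow_zero, map_one]
      · have h2 := hn i h
        rw [map_pow]
        congr 1
        simp only [hxLdef]
        rw [dif_pos h2]
        rfl
    have hn1 : ∀ i, (-e i).toNat ≠ 0 → cl i = l := fun i h => he i (by
      intro h0
      rw [h0] at h
      exact h rfl)
    have hn2 : ∀ i, (e i).toNat ≠ 0 → cl i = l := fun i h => he i (by
      intro h0
      rw [h0] at h
      exact h rfl)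
    rw [h1 _ hn1, h1 _ hn2]
    simp only [hY]
    rw [← map_mul]
    congr 1
    apply Subtype.ext
    have h4 : ((zL none * ∏ i, xL i ^ (-e i).toNat : L) : Ult 𝒰 K) =
        mon x e * ((∏ i, xL i ^ (-e i).toNat : L) : Ult 𝒰 K) := rfl
    rw [h4, h1' _ hn1, h1' _ hn2]
    unfold mon
    rw [← Finset.prod_mul_distrib]
    refine Finset.prod_congr rfl fun i _ => ?_
    exact zpow_toNat fun _ => hc.ne i
  have hYj : ∀ᶠ j in (𝒰 : Filter J), (Y none).rep j * ∏ i, (X i).rep j ^ (-e i).toNat =
      ∏ i, (X i).rep j ^ (e i).toNat := by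
    have h1 : Ult.mk 𝒰 (PS β K) ((Y none).rep * ∏ i, (X i).rep ^ (-e i).toNat) =
        Ult.mk 𝒰 (PS β K) (∏ i, (X i).rep ^ (e i).toNat) := by
      rw [map_mul, map_prod, map_prod, Ult.mk_rep]
      simp only [map_pow, Ult.mk_rep]
      exact hYn
    filter_upwards [Ult.mk_eq_mk.1 h1] with j hj
    rw [Pi.mul_apply, Finset.prod_apply, Finset.prod_apply] at hj
    simpa only [Pi.pow_apply] using hj
  -- (5) the conclusion
  refine ⟨max C 0, le_max_right _ _, ?_⟩
  filter_upwards [hqne, hbd, hev, hXne, hYj] with j j1 j2 j3 j4 j5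
  refine ⟨q () j, j1, ?_, ?_⟩
  · refine (j2.2 ()).trans (Real.exp_le_exp.2 ?_)
    have h1 := hc.scl.one l j
    rw [max_eq_right h1]
    exact mul_le_mul_of_nonneg_right (le_max_left _ _) (by linarith)
  · set f : ι → MvPowerSeries β (K j) := fun i => (X i).rep j with hf
    set A : MvPowerSeries β (K j) →+* FractionRing (MvPowerSeries β (K j)) := algebraMap _ _
      with hA
    set ψ : GF f →+* FractionRing (MvPowerSeries β (K j)) := (IntermediateField.val _).toRingHom
      with hψ
    have hAinj : Function.Injective A :=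
      IsFractionRing.injective (MvPowerSeries β (K j)) (FractionRing (MvPowerSeries β (K j)))
    have hgen : ∀ i, ψ (gen f i) = A (f i) := fun i => rfl
    apply ψ.injective
    rw [map_zero]
    refine (ev_int ψ _ _).trans ?_
    have hv : (fun o : Option {b : β // cl (bs b) = l} =>
        ψ (o.elim (mon (gen f) e) (fun b => gen f (g b)))) = fun o => A ((Y o).rep j) := by
      funext o
      rcases o with _ | b
      · have h1 : ψ (mon (gen f) e) = ∏ i, A (f i) ^ e i := by
          unfold mon
          rw [map_prod]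
          refine Finset.prod_congr rfl fun i _ => ?_
          rw [map_zpow₀, hgen]
        have h2 : (∏ i, A (f i) ^ e i) * ∏ i, A (f i) ^ (-e i).toNat =
            ∏ i, A (f i) ^ (e i).toNat := by
          rw [← Finset.prod_mul_distrib]
          refine Finset.prod_congr rfl fun i _ => ?_
          refine zpow_toNat fun h3 h4 => j4 i (he i h3) ?_
          exact hAinj (by rw [h4, map_zero])
        have h3 : A ((Y none).rep j) * ∏ i, A (f i) ^ (-e i).toNat =
            ∏ i, A (f i) ^ (e i).toNat := by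
          have h4 := congrArg A j5
          rw [map_mul, map_prod, map_prod] at h4
          simpa only [map_pow] using h4
        have h4 : (∏ i, A (f i) ^ (-e i).toNat) ≠ 0 := by
          rw [Finset.prod_ne_zero_iff]
          intro i _
          by_cases h5 : e i = 0
          · rw [h5]
            simp
          · refine pow_ne_zero _ fun h6 => j4 i (he i h5) ?_
            exact hAinj (by rw [h6, map_zero])
        change ψ (mon (gen f) e) = A ((Y none).rep j)
        rw [h1]
        exact mul_right_cancel₀ h4 (h2.trans h3.symm)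
      · change ψ (gen f (g b)) = A ((Y (some b)).rep j)
        rw [hgen, hYs b]
    rw [hv]
    refine (ev_int A (fun o => (Y o).rep j) (q () j)).symm.trans ?_
    refine (congrArg A ((ev_cast _ _).trans j3)).trans (map_zero A)

end Pool.Agent.Zilber
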