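import Pool.Agent.Zilber.DDefs
import Pool.Agent.Zilber.RhKey
import Pool.Agent.Zilber.RhLev
import Pool.Agent.LSharp.TSVal
import Pool.Agent.CITLines.Lift1

set_option autoImplicit false

/-! Core D, RHO: the sizes of the residues of the monomials of value `0` in the blocks `≥ 1`.

Proof. Let `N` be a common denominator of the `q i b`, `e i = N δ_i - ∑ b, N q i b δ_(g b)` (supported in the block of `i`).
For `cl i ≠ 0` the monomial `u i = mon (φ gen) (e i)` has value `0`; by `rel_level` it is, together with the `gen (g b)` of its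
block, a zero of an integral polynomial of size `exp (C s)`, so by `face_residue` it has a residue `c i`, algebraic and
`|log ‖c i‖| ≤ C s (cl i) j`. By orthogonality `N a = ∑ i, a i e i`, so `(mon (φ gen) a) ^ N = ∏ i, u i ^ a i` has the residue
`∏ i, c i ^ a i`, and `exists_rs_pow` gives `ρ`. -/

namespace Pool.Agent.Zilber

open Filter NumberField Module Pool.Agent.LAll Pool.Agent.LSharp Pool.Agent.CITLines

/-- common denominator -/
private theorem rh_den {ι β : Type} [Fintype ι] [Fintype β] (q : ι → β → ℚ) :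
    ∃ (N : ℕ) (m : ι → β → ℤ), 0 < N ∧ ∀ i b, (m i b : ℚ) = N * q i b := by
  obtain ⟨k, hk, a, ha⟩ := exists_clear (fun p : ι × β => q p.1 p.2)
  refine ⟨k.natAbs, fun i b => k.sign * a (i, b), Int.natAbs_pos.2 hk, fun i b => ?_⟩
  push_cast
  rw [ha (i, b)]
  have h1 : ((k.natAbs : ℕ) : ℚ) = (k.sign : ℚ) * k := by
    have h2 : (k.sign * k : ℤ) = (k.natAbs : ℤ) := Int.sign_mul_self_eq_natAbs k
    have h3 : (((k.natAbs : ℕ) : ℤ) : ℚ) = ((k.sign * k : ℤ) : ℚ) := by rw [h2]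
    rw [Int.cast_natCast, Int.cast_mul] at h3
    exact h3
  rw [h1]
  ring

open Classical in
/-- the exponents of the monomials of value `0` -/
private noncomputable def rhE {ι β : Type} [Fintype β] (N : ℕ) (m : ι → β → ℤ) (g : β → ι)
    (i i' : ι) : ℤ :=
  N * (if i' = i then 1 else 0) - ∑ b, m i b * (if i' = g b then 1 else 0)

private theorem rhE_supp {ι β M : Type} [Fintype β] {N : ℕ} {m : ι → β → ℤ} {g bs : β → ι}
    {cl : ι → M} (hcg : ∀ b, cl (g b) = cl (bs b)) (hm : ∀ i b, m i b ≠ 0 → cl i = cl (bs b))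
    (i i' : ι) (h : rhE N m g i i' ≠ 0) : cl i' = cl i := by
  by_contra hne
  apply h
  unfold rhE
  have h1 : i' ≠ i := fun h2 => hne (by rw [h2])
  rw [if_neg h1, mul_zero, zero_sub, neg_eq_zero]
  refine Finset.sum_eq_zero fun b _ => ?_
  by_cases h2 : i' = g b
  · by_cases h3 : m i b = 0
    · rw [h3, zero_mul]
    · exact absurd ((h2 ▸ hcg b).trans (hm i b h3).symm) hne
  · rw [if_neg h2, mul_zero]

private theorem rhE_sum {ι β : Type} [Fintype ι] [Fintype β] (N : ℕ) (m : ι → β → ℤ) (g : β → ι)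
    (a : ι → ℤ) (h : ∀ b, ∑ i, a i * m i b = 0) :
    (N : ℤ) • a = ∑ i, a i • rhE N m g i := by
  classical
  funext i'
  rw [Pi.smul_apply, Finset.sum_apply, smul_eq_mul]
  have h1 : ∀ i, (a i • rhE N m g i) i' = (N : ℤ) * (a i * (if i' = i then 1 else 0)) -
      ∑ b, (if i' = g b then 1 else 0) * (a i * m i b) := by
    intro i
    rw [Pi.smul_apply, smul_eq_mul]
    unfold rhE
    rw [mul_sub, Finset.mul_sum]
    congr 1
    · split_ifs <;> ring
    · refine Finset.sum_congr rfl fun b _ => ?_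
      split_ifs <;> ring
  rw [Finset.sum_congr rfl fun i _ => h1 i, Finset.sum_sub_distrib, Finset.sum_comm]
  have h2 : ∑ b, ∑ i, (if i' = g b then (1 : ℤ) else 0) * (a i * m i b) = 0 := by
    refine Finset.sum_eq_zero fun b _ => ?_
    rw [← Finset.mul_sum, h b, mul_zero]
  rw [h2, sub_zero, ← Finset.mul_sum]
  congr 1
  rw [Finset.sum_eq_single i']
  · simp
  · intro i _ hi
    rw [if_neg fun h => hi h.symm, mul_zero]
  · intro h
    exact absurd (Finset.mem_univ _) h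

private theorem rhE_pr {ι β : Type} [Fintype ι] [Fintype β] (N : ℕ) (m : ι → β → ℤ) (g : β → ι)
    (i : ι) (t : ι → ℝ) : pr (rhE N m g i) t = N * t i - ∑ b, (m i b : ℝ) * t (g b) := by
  classical
  unfold pr
  have h1 : ∀ l, ((rhE N m g i l : ℤ) : ℝ) * t l = (N : ℝ) * (if l = i then t i else 0) -
      ∑ b, (if l = g b then (m i b : ℝ) * t (g b) else 0) := by
    intro l
    unfold rhE
    push_cast
    rw [sub_mul, Finset.sum_mul]
    congr 1
    · by_cases h : l = i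
      · subst h; simp
      · simp [h]
    · refine Finset.sum_congr rfl fun b _ => ?_
      by_cases h : l = g b
      · subst h; simp
      · simp [h]
  rw [Finset.sum_congr rfl fun l _ => h1 l, Finset.sum_sub_distrib, Finset.sum_comm,
    ← Finset.mul_sum]
  congr 1
  · rw [Finset.sum_ite_eq' Finset.univ i, if_pos (Finset.mem_univ i)]
  · refine Finset.sum_congr rfl fun b _ => ?_
    rw [Finset.sum_ite_eq' Finset.univ (g b), if_pos (Finset.mem_univ _)]

/-- the last step: the product and the root -/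
private theorem rh_root {Ω : Type} [Field Ω] [Algebra ℂ Ω] {v : Ω → ℝ} (hv : RV ℂ v) {ι : Type}
    [Fintype ι] {N : ℕ} (hN : 0 < N) (u : ι → Ω) (c : ι → ℂ) (hc : ∀ i, c i ≠ 0)
    (hca : ∀ i, IsAlgebraic ℚ (c i)) (a : ι → ℤ) (hu : ∀ i, a i ≠ 0 → Rs v (u i) (c i))
    (w : Ω) (hw : w ^ N = ∏ i, u i ^ a i) :
    ∃ ρ : ℂ, ρ ≠ 0 ∧ IsAlgebraic ℚ ρ ∧ Rs v w ρ ∧
      |Real.log ‖ρ‖| ≤ ∑ i, |(a i : ℝ)| * |Real.log ‖c i‖| := by
  have h1 : Rs v (w ^ N) (∏ i, c i ^ a i) := by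
    rw [hw]
    refine rs_prod hv _ _ _ fun i _ => ?_
    by_cases h : a i = 0
    · rw [h, zpow_zero, zpow_zero]
      unfold Rs
      rw [map_one, sub_self]
      exact sml_zero
    · exact rs_zpow hv (hc i) (hu i h) (a i)
  have h2 : ∏ i, c i ^ a i ≠ 0 := Finset.prod_ne_zero_iff.2 fun i _ => zpow_ne_zero _ (hc i)
  obtain ⟨ρ, hρ, hρ'⟩ := exists_rs_pow hv hN h2 h1
  have hρ0 : ρ ≠ 0 := by
    rintro rfl
    rw [zero_pow hN.ne'] at hρ
    exact h2 hρ.symm
  refine ⟨ρ, hρ0, ?_, hρ', ?_⟩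
  · have h3 : ∏ i, c i ^ a i ∈ algebraicClosure ℚ ℂ :=
      prod_mem fun i _ => zpow_mem (mem_algebraicClosure_iff.2 (hca i)) _
    rw [← hρ] at h3
    exact (mem_algebraicClosure_iff.1 h3).of_pow hN
  · have h4 : (N : ℝ) * Real.log ‖ρ‖ = ∑ i, (a i : ℝ) * Real.log ‖c i‖ := by
      rw [← Real.log_pow, ← norm_pow, hρ, norm_prod, Real.log_prod]
      · refine Finset.sum_congr rfl fun i _ => ?_
        rw [norm_zpow, Real.log_zpow]
      · intro i _
        exact norm_ne_zero_iff.2 (zpow_ne_zero _ (hc i))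
    have h5 : (1 : ℝ) ≤ N := by exact_mod_cast hN
    calc |Real.log ‖ρ‖| ≤ (N : ℝ) * |Real.log ‖ρ‖| := le_mul_of_one_le_left (abs_nonneg _) h5
      _ = |(N : ℝ) * Real.log ‖ρ‖| := by rw [abs_mul, abs_of_nonneg (by linarith : (0 : ℝ) ≤ N)]
      _ = |∑ i, (a i : ℝ) * Real.log ‖c i‖| := by rw [h4]
      _ ≤ ∑ i, |(a i : ℝ) * Real.log ‖c i‖| := Finset.abs_sum_le_sum_abs _ _
      _ = ∑ i, |(a i : ℝ)| * |Real.log ‖c i‖| := by simp only [abs_mul]

private theorem rh_aeval {E Ω γ : Type} [CommRing E] [CommRing Ω] [Algebra ℤ E] [Algebra ℤ Ω]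
    (φ : E →+* Ω) (w : γ → E) (P : MvPolynomial γ ℤ) :
    φ (MvPolynomial.aeval w P) = MvPolynomial.aeval (fun o => φ (w o)) P := by
  rw [MvPolynomial.aeval_def, MvPolynomial.aeval_def, MvPolynomial.hom_eval₂]
  congr 1
  exact RingHom.ext_int _ _

/-- everything at one level -/
private theorem rho_lev {F : Type} [Field F] {k : ℕ} {ι β : Type} [Fintype ι] [Fintype β]
    [DecidableEq β] {cl : ι → Fin (k + 1)} {bs g : β → ι} {q : ι → β → ℚ}
    (hcq : ∀ i b, q i b ≠ 0 → cl i = cl (bs b)) {N : ℕ}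
    {m : ι → β → ℤ} (hN : 0 < N) (hm : ∀ i b, (m i b : ℚ) = N * q i b)
    {σ : F →+* ℂ} {f : ι → MvPowerSeries β F} (hne : ∀ i, f i ≠ 0) {p : {i // cl i = 0} → ℂ}
    {Ω : Type} [Field Ω] [Algebra ℂ Ω] {v : Ω → ℝ} {φ : GF f →+* Ω}
    (hE : IsEmbD σ f cl bs g q p v φ) (A : ι → ℝ) (hA : ∀ i, 0 ≤ A i)
    (hrel : ∀ i, ∃ P : MvPolynomial (Option {b : β // cl (bs b) = cl i}) ℤ,
      P ≠ 0 ∧ L1 P ≤ Real.exp (A i) ∧
      MvPolynomial.aeval (fun o : Option {b : β // cl (bs b) = cl i} =>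
        o.elim (mon (gen f) (rhE N m g i)) (fun b => gen f (g b))) P = 0)
    (a : ι → ℤ) (ha0 : ∀ i, cl i = 0 → a i = 0)
    (hort : ∀ b : Bp cl bs, ∑ i, (a i : ℚ) * q i b = 0) :
    ∃ ρ : ℂ, ρ ≠ 0 ∧ IsAlgebraic ℚ ρ ∧ Rs v (φ (mon (gen f) a)) ρ ∧
      |Real.log ‖ρ‖| ≤ ∑ i, |(a i : ℝ)| * A i := by
  classical
  have hgen : ∀ i, gen f i ≠ 0 := by
    intro i h0
    have h1 := congrArg (Subtype.val) h0
    change algebraMap (MvPowerSeries β F) (FractionRing (MvPowerSeries β F)) (f i) = 0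
      at h1
    exact hne i ((FaithfulSMul.algebraMap_eq_zero_iff (MvPowerSeries β F)
      (FractionRing (MvPowerSeries β F))).1 h1)
  have hW : ∀ i, φ (gen f i) ≠ 0 := fun i => (map_ne_zero φ).2 (hgen i)
  have hqz : ∀ i b, cl i ≠ cl (bs b) → q i b = 0 := fun i b h => by
    by_contra h1
    exact h (hcq i b h1)
  -- the residues
  have hres : ∀ i, ∃ c : ℂ, c ≠ 0 ∧ IsAlgebraic ℚ c ∧
      (cl i ≠ 0 → Rs v (φ (mon (gen f) (rhE N m g i))) c) ∧
      |Real.log ‖c‖| ≤ A i := by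
    intro i
    by_cases hi : cl i = 0
    · refine ⟨1, one_ne_zero, isAlgebraic_one, fun h => absurd hi h, ?_⟩
      rw [norm_one, Real.log_one, abs_zero]
      exact hA i
    · obtain ⟨P, hP, hL, hr⟩ := hrel i
      have hinj : Function.Injective (fun b : {b : β // cl (bs b) = cl i} =>
          (⟨b.1, fun h => hi (b.2.symm.trans h)⟩ : Bp cl bs)) := by
        intro b b' hbb
        exact Subtype.ext (congrArg (fun t : Bp cl bs => (t : β)) hbb)
      have hli := hE.indep.comp _ hinj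
      have hmon : φ (mon (gen f) (rhE N m g i)) = mon (fun i => φ (gen f i)) (rhE N m g i) :=
        (mon_map φ (gen f) (rhE N m g i)).symm
      have hu0 : v (φ (mon (gen f) (rhE N m g i))) = 0 := by
        rw [hmon, rv_mon hE.rv _ hW, rhE_pr, hE.val i hi]
        have h1 : ∑ b : Bp cl bs, (q i b : ℝ) * v (φ (gen f (g b))) =
            ∑ b : β, (q i b : ℝ) * v (φ (gen f (g b))) := by
          rw [← Finset.sum_subtype (Finset.univ.filter fun b => cl (bs b) ≠ 0)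
            (p := fun b => cl (bs b) ≠ 0) (fun b => by simp)
            (fun b => (q i b : ℝ) * v (φ (gen f (g b))))]
          refine Finset.sum_subset (Finset.subset_univ _) fun b _ hb => ?_
          have h2 : cl (bs b) = 0 := by simpa using hb
          rw [hqz i b (fun h => hi (h.trans h2)), Rat.cast_zero, zero_mul]
        rw [h1, Finset.mul_sum, ← Finset.sum_sub_distrib]
        refine Finset.sum_eq_zero fun b _ => ?_
        have h2 : ((m i b : ℤ) : ℝ) = (N : ℝ) * (q i b : ℝ) := by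
          have h3 := congrArg (fun t : ℚ => (t : ℝ)) (hm i b)
          push_cast at h3
          exact h3
        rw [h2]
        ring
      have h5 := rh_aeval φ (fun o : Option {b : β // cl (bs b) = cl i} =>
        o.elim (mon (gen f) (rhE N m g i)) (fun b => gen f (g b))) P
      rw [hr, map_zero] at h5
      obtain ⟨c, h1, h2, h3, h4⟩ := face_residue hE.rv P hP (φ (mon (gen f) (rhE N m g i)))
        (by rw [hmon]; exact Finset.prod_ne_zero_iff.2 fun i _ => zpow_ne_zero _ (hW i)) hu0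
        (fun b => φ (gen f (g b))) (fun b => hW _) hli (by
          rw [h5]
          congr 2
          funext o
          cases o <;> rfl)
      refine ⟨c, h1, h2, fun _ => h3, h4.trans ?_⟩
      rw [Real.log_le_iff_le_exp (lt_of_lt_of_le one_pos (one_le_L1 P hP))]
      exact hL
  choose c hc0 hca hcr hcl using hres
  have hz : ∀ b, ∑ i, a i * m i b = 0 := by
    intro b
    by_cases hb : cl (bs b) = 0
    · refine Finset.sum_eq_zero fun i _ => ?_
      by_cases hi : cl i = 0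
      · rw [ha0 i hi, zero_mul]
      · have h1 : (m i b : ℚ) = 0 := by rw [hm, hqz i b (fun h => hi (h.trans hb)), mul_zero]
        have h2 : m i b = 0 := by exact_mod_cast h1
        rw [h2, mul_zero]
    · have h1 := hort ⟨b, hb⟩
      have h2 : ((∑ i, a i * m i b : ℤ) : ℚ) = 0 := by
        push_cast
        have h3 : ∀ i, (a i : ℚ) * (m i b : ℚ) = N * ((a i : ℚ) * q i b) := fun i => by
          rw [hm]; ring
        rw [Finset.sum_congr rfl fun i _ => h3 i, ← Finset.mul_sum, h1, mul_zero]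
      exact_mod_cast h2
  have hw : φ (mon (gen f) a) ^ N = ∏ i, φ (mon (gen f) (rhE N m g i)) ^ a i := by
    rw [← map_pow, ← zpow_natCast, ← mon_smul, rhE_sum N m g a hz, mon_sum hgen, map_prod]
    refine Finset.prod_congr rfl fun i _ => ?_
    rw [mon_smul, map_zpow₀]
  obtain ⟨ρ, h1, h2, h3, h4⟩ := rh_root hE.rv hN (fun i => φ (mon (gen f) (rhE N m g i))) c hc0
    hca a (fun i hi => hcr i fun h => hi (ha0 i h)) _ hw
  exact ⟨ρ, h1, h2, h3, h4.trans (Finset.sum_le_sum fun i _ =>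
    mul_le_mul_of_nonneg_left (hcl i) (abs_nonneg _))⟩

variable {J : Type} {𝒰 : Ultrafilter J} {K : J → Type} [∀ j, Field (K j)] [∀ j, NumberField (K j)]
  {k : ℕ} {s : Fin (k + 1) → J → ℝ} {ι β : Type} [Fintype ι]
  [Fintype β] [DecidableEq β] {cl : ι → Fin (k + 1)} {x : ι → Ult 𝒰 K} {bs : β → ι}
  {X : ι → Ult 𝒰 (PS β K)}

omit [Fintype β] [DecidableEq β] in
private theorem rh_ne (hc : Conf 𝒰 K s (FD 𝒰 K s) cl x bs)
    (hX : Br 𝒰 K (FD 𝒰 K s) cl x bs X) : ∀ᶠ j in (𝒰 : Filter J), ∀ i, (X i).rep j ≠ 0 := by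
  rw [Filter.eventually_all]
  intro i
  refine Ult.rep_ne_zero fun h0 => ?_
  obtain ⟨L, τ, -, hL, -, heps, -, -, -, hτ⟩ := hX.ex (cl i)
  have h1 := hτ i rfl ⟨x i, hL i rfl⟩ rfl
  have h2 := heps ⟨x i, hL i rfl⟩
  rw [← h1, h0, map_zero] at h2
  exact hc.ne i h2.symm

theorem rho (hc : Conf 𝒰 K s (FD 𝒰 K s) cl x bs) (hX : Br 𝒰 K (FD 𝒰 K s) cl x bs X)
    (σ : ∀ j, K j →+* ℂ) {g : β → ι} {q : ι → β → ℚ} (hcg : ∀ b, cl (g b) = cl (bs b))
    (hcq : ∀ i b, q i b ≠ 0 → cl i = cl (bs b)) :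
    ∃ C : ℝ, ∀ᶠ j in (𝒰 : Filter J), ∀ (p : {i // cl i = 0} → ℂ) (Ω : Type) [Field Ω]
      [Algebra ℂ Ω] (v : Ω → ℝ) (φ : GF (fun i => (X i).rep j) →+* Ω),
      IsEmbD (σ j) (fun i => (X i).rep j) cl bs g q p v φ → ∀ a : ι → ℤ,
      (∀ i, cl i = 0 → a i = 0) → (∀ b : Bp cl bs, ∑ i, (a i : ℚ) * q i b = 0) →
      ∃ ρ : ℂ, ρ ≠ 0 ∧ IsAlgebraic ℚ ρ ∧ Rsd v (φ (mon (gen fun i => (X i).rep j) a)) ρ ∧
        |Real.log ‖ρ‖| ≤ C * ∑ i, |(a i : ℝ)| * s (cl i) j := by
  classical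
  obtain ⟨N, m, hN, hm⟩ := rh_den q
  have hmq : ∀ i b, m i b ≠ 0 → cl i = cl (bs b) := by
    intro i b hne
    refine hcq i b fun h0 => hne ?_
    have h1 := hm i b
    rw [h0, mul_zero] at h1
    exact_mod_cast h1
  choose C hC0 hC using fun i => rel_level hc hX hcg (cl i) (rhE N m g i)
    (rhE_supp hcg hmq i)
  refine ⟨∑ i, C i, ?_⟩
  have hall := (Filter.eventually_all (l := (𝒰 : Filter J))).2 hC
  filter_upwards [hall, rh_ne hc hX] with j hj hne p Ω _ _ v φ hE a ha0 hort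
  have hs0 : ∀ l, 0 ≤ s l j := fun l => zero_le_one.trans (hc.scl.one l j)
  obtain ⟨ρ, h1, h2, h3, h4⟩ := rho_lev hcq hN hm hne hE (fun i => C i * s (cl i) j)
    (fun i => mul_nonneg (hC0 i) (hs0 _)) hj a ha0 hort
  refine ⟨ρ, h1, h2, h3.imp (fun h => sub_eq_zero.1 h) id, h4.trans ?_⟩
  rw [Finset.mul_sum]
  refine Finset.sum_le_sum fun i _ => ?_
  have h5 : C i ≤ ∑ i, C i := Finset.single_le_sum (fun i _ => hC0 i) (Finset.mem_univ i)
  calc |(a i : ℝ)| * (C i * s (cl i) j) = C i * (|(a i : ℝ)| * s (cl i) j) := by ring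
    _ ≤ (∑ i, C i) * (|(a i : ℝ)| * s (cl i) j) :=
      mul_le_mul_of_nonneg_right h5 (mul_nonneg (abs_nonneg _) (hs0 _))

end Pool.Agent.Zilber
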