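import Pool.Agent.CITLines.Basic
import Pool.Agent.LSharp.HCDefs
import Pool.Agent.Zil.GAFD

set_option autoImplicit false

/-! Core D: the lower bound for faces, definitions (pure complex analysis, no ultraproducts). -/

namespace Pool.Agent.Zilber

open Pool.Agent.CITLines Pool.Agent.LSharp

/-- A chart of a variety with `card β` parameters. -/
structure Pch {ι β : Type} [Fintype ι] [Fintype β] [DecidableEq β] (r : ℝ)
    (h : ι → (β → ℂ) → ℂ) (c : β → ℂ) (R : Option β → ι → ℝ) : Prop where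
  pos : 0 < r
  cd : ∀ i, ContDiffOn ℂ 2 (h i) (Metric.ball 0 r)
  ne : ∀ i, ∀ y ∈ Metric.ball (0 : β → ℂ) r, h i y ≠ 0
  coord : ∀ b, ∃ i, ∀ y, h i y = c b + y b
  hR : LinearIndependent ℝ R
  li : ∀ γ : ι → ℝ, (∀ y ∈ Metric.ball (0 : β → ℂ) r, ∀ b,
    ∑ i, (γ i : ℂ) * fderiv ℂ (h i) y (Pi.single b 1) / h i y = 0) → γ = 0
  wd : ∃ y ∈ Metric.ball (0 : β → ℂ) r, (Matrix.of fun b b' : β =>
    ∑ i, (R (some b) i : ℂ) * fderiv ℂ (h i) y (Pi.single b' 1) / h i y).det ≠ 0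
  rel : ∀ y ∈ Metric.ball (0 : β → ℂ) r, AlgebraicIndependent ℚ (fun b => c b + y b) →
    ∀ P : MvPolynomial ι ℂ, (∀ e, IsAlgebraic ℚ (P.coeff e)) →
      MvPolynomial.eval (fun i => h i y) P = 0 →
      ∀ y' ∈ Metric.ball (0 : β → ℂ) r, MvPolynomial.eval (fun i => h i y') P = 0
  alg : ∀ y ∈ Metric.ball (0 : β → ℂ) r, AlgebraicIndependent ℚ (fun b => c b + y b) →
    ∀ i, IsAlgebraic (Algebra.adjoin ℚ (Set.range fun b => c b + y b)) (h i y)

/-- The monomials `ρ_o ∏ h_i(y) ^ (a o i)`. -/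
noncomputable def zbf {ι β O : Type} [Fintype ι] (h : ι → (β → ℂ) → ℂ) (a : O → ι → ℤ) (ρ : O → ℂ)
    (y : β → ℂ) (o : O) : ℂ := ρ o * ∏ i, h i y ^ a o i

end Pool.Agent.Zilber
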