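import Pool.Agent.Zilber.DMa
import Pool.Agent.Zilber.DRho
import Pool.Agent.Zilber.FCDefs

set_option autoImplicit false

/-! Core D, GAMMA: the residues of the `z o` (one level). -/

namespace Pool.Agent.Zilber

open Filter NumberField Module Pool.Agent.LAll Pool.Agent.LSharp Pool.Agent.CITLines

private theorem gr_gen_ne {ι β : Type} {F : Type} [Field F] {f : ι → MvPowerSeries β F}
    (hf : ∀ i, f i ≠ 0) (i : ι) : gen f i ≠ 0 := by
  intro h0
  have h1 := congrArg (Subtype.val) h0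
  change algebraMap (MvPowerSeries β F) (FractionRing (MvPowerSeries β F)) (f i) = 0
    at h1
  exact hf i ((FaithfulSMul.algebraMap_eq_zero_iff (MvPowerSeries β F)
    (FractionRing (MvPowerSeries β F))).1 h1)

section

variable {ι β : Type} [Fintype ι] [Fintype β] {k : ℕ} {F : Type} [Field F] {σ : F →+* ℂ}
  {f : ι → MvPowerSeries β F} {cl : ι → Fin (k + 1)} {bs : β → ι} {g : β → ι} {q : ι → β → ℚ}
  {p : {i // cl i = 0} → ℂ} {Ω : Type} [Field Ω] [Algebra ℂ Ω] {v : Ω → ℝ} {φ : GF f →+* Ω}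

/-- **The residue of a monomial with exponents orthogonal to the value vectors.** `mon (gen f) a` is the product of the
monomials with exponents `zpart cl a` and `ppart cl a`; `φ` sends the first one to `∏ (p i) ^ (a i)` (`hE.zero`), the second one has the
residue `ρ`. `rsd_mul` and `Rsd v (algebraMap c) c`. -/
theorem res_mon (hE : IsEmbD σ f cl bs g q p v φ) (hf : ∀ i, f i ≠ 0) (a : ι → ℤ) (ρ : ℂ)
    (hρ : Rsd v (φ (mon (gen f) (ppart cl a))) ρ) :
    Rsd v (φ (mon (gen f) a)) (ρ * ∏ i : {i // cl i = 0}, p i ^ a i) := by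
  classical
  have h1 : mon (gen f) a = mon (gen f) (ppart cl a) * mon (gen f) (zpart cl a) := by
    rw [← mon_add' (gr_gen_ne hf)]
    congr 1
    funext i
    rw [Pi.add_apply]
    unfold ppart zpart
    by_cases h : cl i = 0
    · rw [if_pos h, if_pos h, zero_add]
    · rw [if_neg h, if_neg h, add_zero]
  have h2 : φ (mon (gen f) (zpart cl a)) = algebraMap ℂ Ω (∏ i : {i // cl i = 0}, p i ^ a i) := by
    rw [← mon_map, map_prod]
    unfold mon
    rw [← Finset.prod_subset (Finset.subset_univ (Finset.univ.filter fun i => cl i = 0))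
      (fun i _ hi => by
        have h3 : cl i ≠ 0 := by simpa using hi
        unfold zpart
        rw [if_neg h3, zpow_zero])]
    rw [Finset.prod_subtype (Finset.univ.filter fun i => cl i = 0)
      (p := fun i => cl i = 0) (fun i => by simp)
      (fun i => φ (gen f i) ^ zpart cl a i)]
    refine Finset.prod_congr rfl fun i _ => ?_
    unfold zpart
    rw [if_pos i.2, hE.zero i, map_zpow₀]
  rw [h1, map_mul, h2]
  exact rsd_mul hE.rv hρ (Or.inl rfl)

/-- **The values of monomials**: `v (φ (mon (gen f) a)) = ∑_(b : Bp) (∑_i a i q i b) v(φ (gen f (g b)))`. The value of the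
`gen f i` with `cl i = 0` is `0` (`hE.zero`, `RV.triv`, `p i ≠ 0` because `φ` is injective), and `q i b = 0` for them and `b : Bp`
(`hcq`). -/
theorem val_mon (hE : IsEmbD σ f cl bs g q p v φ) (hf : ∀ i, f i ≠ 0)
    (hcq : ∀ i b, q i b ≠ 0 → cl i = cl (bs b)) (a : ι → ℤ) :
    v (φ (mon (gen f) a)) =
      ∑ b : Bp cl bs, ((∑ i, (a i : ℚ) * q i b : ℚ) : ℝ) * v (φ (gen f (g b))) := by
  classical
  have hW : ∀ i, φ (gen f i) ≠ 0 := fun i => (map_ne_zero φ).2 (gr_gen_ne hf i)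
  have hv : ∀ i, v (φ (gen f i)) = ∑ b : Bp cl bs, (q i b : ℝ) * v (φ (gen f (g b))) := by
    intro i
    by_cases h : cl i = 0
    · have h1 : φ (gen f i) = algebraMap ℂ Ω (p ⟨i, h⟩) := hE.zero ⟨i, h⟩
      have h2 : p ⟨i, h⟩ ≠ 0 := by
        intro h3
        apply hW i
        rw [h1, h3, map_zero]
      rw [h1, hE.rv.triv _ h2]
      symm
      refine Finset.sum_eq_zero fun b _ => ?_
      have h3 : q i b = 0 := by
        by_contra h4
        exact b.2 ((hcq i b h4).symm.trans h)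
      rw [h3, Rat.cast_zero, zero_mul]
    · exact hE.val i h
  rw [← mon_map, rv_mon hE.rv _ hW]
  unfold pr
  have h5 : ∀ i, (a i : ℝ) * v (φ (gen f i)) =
      ∑ b : Bp cl bs, ((a i : ℝ) * (q i b : ℝ)) * v (φ (gen f (g b))) := by
    intro i
    rw [hv i, Finset.mul_sum]
    exact Finset.sum_congr rfl fun b _ => (mul_assoc _ _ _).symm
  rw [Finset.sum_congr rfl fun i _ => h5 i, Finset.sum_comm]
  refine Finset.sum_congr rfl fun b _ => ?_
  rw [← Finset.sum_mul]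
  push_cast
  rfl

end

variable {J : Type} {𝒰 : Ultrafilter J} {K : J → Type} [∀ j, Field (K j)] [∀ j, NumberField (K j)]
  {k : ℕ} {s : Fin (k + 1) → J → ℝ} {ι β : Type} [Fintype ι]
  [Fintype β] [DecidableEq β] {cl : ι → Fin (k + 1)} {x : ι → Ult 𝒰 K} {bs : β → ι}
  {X : ι → Ult 𝒰 (PS β K)}

/-- **The residues `ρ o`.** From `rho` with `C_ρ`: for `a (inl o)` replaced by `ppart cl (a (inl o))` (orthogonality: `orth` and `hcq`).
The bound: `∑_i |ppart a_i| s_(cl i) ≤ ∑_i (n_(cl i) |R_i| + C) s_(cl i) ≤ ∑_i (|R_i| + C) n_(cl i) s_(cl i) ≤ 2 n_0 ∑_i (|R_i| + |C|)`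
(`1 ≤ n l`, `0 ≤ s l j`; `hs`), for the finitely many `o`. So `C_F = |C_ρ| * 2 * ∑_o ∑_i (|R (inl o) i| + |C|) + |C|` works. Choose
the `ρ o` simultaneously. -/
theorem rho_bound (hc : Conf 𝒰 K s (FD 𝒰 K s) cl x bs) (hX : Br 𝒰 K (FD 𝒰 K s) cl x bs X)
    (σ : ∀ j, K j →+* ℂ) {g : β → ι} {q : ι → β → ℚ} (hcg : ∀ b, cl (g b) = cl (bs b))
    (hcq : ∀ i b, q i b ≠ 0 → cl i = cl (bs b)) (R : Ob cl bs → ι → ℝ) (C : ℝ) :
    ∃ CF : ℝ, C ≤ CF ∧ ∀ᶠ j in (𝒰 : Filter J), ∀ (p : {i // cl i = 0} → ℂ) (Ω : Type) [Field Ω]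
      [Algebra ℂ Ω] (v : Ω → ℝ) (φ : GF (fun i => (X i).rep j) →+* Ω),
      IsEmbD (σ j) (fun i => (X i).rep j) cl bs g q p v φ →
      ∀ n : Fin (k + 1) → ℕ, (∀ l, 1 ≤ n l) → (∀ l, (n l : ℝ) * s l j ≤ 2 * n 0) →
      ∀ a : Ob cl bs → ι → ℤ, Expo cl bs q R C n a →
      ∃ ρ : Option (B0 cl bs) → ℂ, (∀ o, ρ o ≠ 0) ∧ (∀ o, IsAlgebraic ℚ (ρ o)) ∧
        (∀ o, Rsd v (φ (mon (gen fun i => (X i).rep j) (ppart cl (a (Sum.inl o))))) (ρ o)) ∧
        ∀ o, |Real.log ‖ρ o‖| ≤ CF * n 0 := by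
  classical
  obtain ⟨D, hD⟩ := rho hc hX σ hcg hcq
  have hT0 : ∀ o : Option (B0 cl bs), 0 ≤ ∑ i, (|R (Sum.inl o) i| + |C|) := fun o =>
    Finset.sum_nonneg fun i _ => add_nonneg (abs_nonneg _) (abs_nonneg _)
  refine ⟨|D| * 2 * (∑ o : Option (B0 cl bs), ∑ i, (|R (Sum.inl o) i| + |C|)) + |C|, ?_, ?_⟩
  · have h1 : 0 ≤ |D| * 2 * (∑ o : Option (B0 cl bs), ∑ i, (|R (Sum.inl o) i| + |C|)) :=
      mul_nonneg (mul_nonneg (abs_nonneg _) zero_le_two) (Finset.sum_nonneg fun o _ => hT0 o)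
    linarith [le_abs_self C]
  filter_upwards [hD] with j hj p Ω _ _ v φ hE n hn hs a ha
  have hex : ∀ o : Option (B0 cl bs), ∃ ρ : ℂ, ρ ≠ 0 ∧ IsAlgebraic ℚ ρ ∧
      Rsd v (φ (mon (gen fun i => (X i).rep j) (ppart cl (a (Sum.inl o))))) ρ ∧
      |Real.log ‖ρ‖| ≤ (|D| * 2 * (∑ o : Option (B0 cl bs), ∑ i, (|R (Sum.inl o) i| + |C|)) +
        |C|) * n 0 := by
    intro o
    obtain ⟨ρ, h1, h2, h3, h4⟩ := hj p Ω v φ hE (ppart cl (a (Sum.inl o)))
      (fun i hi => by unfold ppart; rw [if_pos hi])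
      (fun b => by
        rw [← ha.orth o b]
        refine Finset.sum_congr rfl fun i _ => ?_
        unfold ppart
        by_cases hi : cl i = 0
        · have h5 : q i b = 0 := by
            by_contra h6
            exact b.2 ((hcq i b h6).symm.trans hi)
          rw [h5, mul_zero, mul_zero]
        · rw [if_neg hi])
    refine ⟨ρ, h1, h2, h3, h4.trans ?_⟩
    have hn0 : (0 : ℝ) ≤ n 0 := Nat.cast_nonneg _
    have hsum : ∑ i, |((ppart cl (a (Sum.inl o)) i : ℤ) : ℝ)| * s (cl i) j ≤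
        (2 * ∑ i, (|R (Sum.inl o) i| + |C|)) * n 0 := by
      rw [Finset.mul_sum, Finset.sum_mul]
      refine Finset.sum_le_sum fun i _ => ?_
      have hs0 : 0 ≤ s (cl i) j := zero_le_one.trans (hc.scl.one (cl i) j)
      have hn1 : (1 : ℝ) ≤ n (cl i) := by exact_mod_cast hn (cl i)
      have h6 : |((ppart cl (a (Sum.inl o)) i : ℤ) : ℝ)| ≤ |(a (Sum.inl o) i : ℝ)| := by
        unfold ppart
        by_cases hi : cl i = 0
        · rw [if_pos hi, Int.cast_zero, abs_zero]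
          exact abs_nonneg _
        · rw [if_neg hi]
      have h7 : |(a (Sum.inl o) i : ℝ)| ≤ n (cl i) * (|R (Sum.inl o) i| + |C|) := by
        have h8 := ha.near (Sum.inl o) i
        have h9 : |(a (Sum.inl o) i : ℝ)| ≤
            |(a (Sum.inl o) i : ℝ) - n (cl i) * R (Sum.inl o) i| +
              |(n (cl i) : ℝ) * R (Sum.inl o) i| := by
          have := abs_add_le ((a (Sum.inl o) i : ℝ) - n (cl i) * R (Sum.inl o) i)
            ((n (cl i) : ℝ) * R (Sum.inl o) i)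
          rwa [sub_add_cancel] at this
        rw [abs_mul, abs_of_nonneg (zero_le_one.trans hn1)] at h9
        have h10 : |C| ≤ n (cl i) * |C| := le_mul_of_one_le_left (abs_nonneg _) hn1
        nlinarith [le_abs_self C]
      have h11 : (0 : ℝ) ≤ |R (Sum.inl o) i| + |C| := add_nonneg (abs_nonneg _) (abs_nonneg _)
      calc |((ppart cl (a (Sum.inl o)) i : ℤ) : ℝ)| * s (cl i) j
          ≤ (n (cl i) * (|R (Sum.inl o) i| + |C|)) * s (cl i) j :=
            mul_le_mul_of_nonneg_right (h6.trans h7) hs0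
        _ = (|R (Sum.inl o) i| + |C|) * (n (cl i) * s (cl i) j) := by ring
        _ ≤ (|R (Sum.inl o) i| + |C|) * (2 * n 0) :=
            mul_le_mul_of_nonneg_left (hs (cl i)) h11
        _ = 2 * (|R (Sum.inl o) i| + |C|) * n 0 := by ring
    have hsum0 : 0 ≤ ∑ i, |((ppart cl (a (Sum.inl o)) i : ℤ) : ℝ)| * s (cl i) j :=
      Finset.sum_nonneg fun i _ => mul_nonneg (abs_nonneg _)
        (zero_le_one.trans (hc.scl.one (cl i) j))
    have ho : ∑ i, (|R (Sum.inl o) i| + |C|) ≤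
        ∑ o : Option (B0 cl bs), ∑ i, (|R (Sum.inl o) i| + |C|) :=
      Finset.single_le_sum (f := fun o : Option (B0 cl bs) => ∑ i, (|R (Sum.inl o) i| + |C|))
        (fun o _ => hT0 o) (Finset.mem_univ o)
    calc D * ∑ i, |((ppart cl (a (Sum.inl o)) i : ℤ) : ℝ)| * s (cl i) j
        ≤ |D| * ∑ i, |((ppart cl (a (Sum.inl o)) i : ℤ) : ℝ)| * s (cl i) j :=
          mul_le_mul_of_nonneg_right (le_abs_self _) hsum0
      _ ≤ |D| * ((2 * ∑ i, (|R (Sum.inl o) i| + |C|)) * n 0) :=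
          mul_le_mul_of_nonneg_left hsum (abs_nonneg _)
      _ = (|D| * 2 * n 0) * ∑ i, (|R (Sum.inl o) i| + |C|) := by ring
      _ ≤ (|D| * 2 * n 0) * ∑ o : Option (B0 cl bs), ∑ i, (|R (Sum.inl o) i| + |C|) :=
          mul_le_mul_of_nonneg_left ho (by positivity)
      _ ≤ (|D| * 2 * (∑ o : Option (B0 cl bs), ∑ i, (|R (Sum.inl o) i| + |C|)) +
          |C|) * n 0 := by nlinarith [mul_nonneg (abs_nonneg C) hn0]
  choose ρ h1 h2 h3 h4 using hex
  exact ⟨ρ, h1, h2, h3, h4⟩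

end Pool.Agent.Zilber
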