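import Pool.Agent.Zilber.GGen
import Pool.Agent.Zilber.GRes
import Pool.Agent.Zilber.DFace
import Pool.Agent.Zilber.DMult

set_option autoImplicit false

/-! Core D, GAMMA: the inequality at one level. -/

namespace Pool.Agent.Zilber

open Filter NumberField Module Pool.Agent.LAll Pool.Agent.LSharp Pool.Agent.CITLines

private theorem glev_rk_image {K L : Type} [Field K] [Field L] [Algebra ℚ K] [Algebra ℚ L]
    (f : K →ₐ[ℚ] L) (s : Set K) : rk ℚ (f '' s) = rk ℚ s := by
  refine le_antisymm (rk_image_le f s) ?_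
  obtain ⟨B, hB⟩ := (AlgebraicIndependent.matroid ℚ K).exists_isBasis s
  have h1 : AlgebraicIndependent ℚ ((↑) : B → K) := hB.indep
  have h2 : AlgebraicIndependent ℚ (fun b : B => f b) := h1.map' f.injective
  have h3 : AlgebraicIndependent ℚ ((↑) : (f '' B : Set L) → L) := by
    have h4 := h2.coe_range
    have h5 : Set.range (fun b : B => f b) = f '' B := by
      rw [Set.image_eq_range]
    rwa [h5] at h4
  have h4 : (AlgebraicIndependent.matroid ℚ L).Indep (f '' B) := h3
  have h5 : (f '' B).encard ≤ rk ℚ (f '' s) :=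
    h4.encard_le_eRk_of_subset (Set.image_mono hB.subset)
  rw [Function.Injective.encard_image (f := f) f.injective B] at h5
  rw [rk, ← hB.encard_eq_eRk]
  exact h5

/-- A monomial in elements of a field is in the field generated. -/
private theorem glev_mon_mem {E ι : Type} [Field E] [Fintype ι] (x : ι → E) (a : ι → ℤ) :
    mon x a ∈ Subfield.closure (Set.range x) := by
  unfold mon
  exact prod_mem fun i _ => zpow_mem (Subfield.subset_closure (Set.mem_range_self i)) _

private theorem glev_mon_ne {E ι : Type} [Field E] [Fintype ι] (x : ι → E) (hx : ∀ i, x i ≠ 0)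
    (a : ι → ℤ) : mon x a ≠ 0 := by
  unfold mon
  exact Finset.prod_ne_zero_iff.2 fun i _ => zpow_ne_zero _ (hx i)

/-- A monomial is algebraic over the ring generated. -/
private theorem glev_mon_alg {E ι : Type} [Field E] [CharZero E] [Fintype ι] (x : ι → E)
    (a : ι → ℤ) : IsAlgebraic (Algebra.adjoin ℚ (Set.range x)) (mon x a) := by
  unfold mon
  refine Finset.prod_induction _ (fun y => IsAlgebraic (Algebra.adjoin ℚ (Set.range x)) y)
    (fun y z hy hz => hy.mul hz) isAlgebraic_one fun i _ => ?_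
  have h1 : IsAlgebraic (Algebra.adjoin ℚ (Set.range x)) (x i) :=
    isAlgebraic_algebraMap (⟨x i, Algebra.subset_adjoin ⟨i, rfl⟩⟩ :
      Algebra.adjoin ℚ (Set.range x))
  rcases Int.eq_nat_or_neg (a i) with ⟨m, hm | hm⟩
  · rw [hm, zpow_natCast]
    exact h1.pow m
  · rw [hm, zpow_neg, zpow_natCast]
    exact (h1.pow m).inv

private theorem glev_L1_pos {O : Type} (P : MvPolynomial O ℤ) (hP : P ≠ 0) : 0 < L1 P := by
  unfold L1
  refine Finset.sum_pos (fun e he => ?_) (MvPolynomial.support_nonempty.2 hP)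
  exact abs_pos.2 (Int.cast_ne_zero.2 (MvPolynomial.mem_support_iff.1 he))

private theorem glev_ne {F ι β : Type} [Field F] (f : ι → MvPowerSeries β F) (hf : ∀ i, f i ≠ 0)
    (i : ι) : gen f i ≠ 0 := by
  intro h
  have h1 : ((gen f i : GF f) : FractionRing (MvPowerSeries β F)) = 0 := by
    rw [h]
    rfl
  exact hf i ((IsFractionRing.injective (MvPowerSeries β F)
    (FractionRing (MvPowerSeries β F))) (h1.trans (map_zero _).symm))

private theorem glev_aeval {E O : Type} [Field E] (inst : Algebra ℤ E) (z : O → E)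
    (P : MvPolynomial O ℤ) :
    @MvPolynomial.aeval ℤ E O _ _ inst z P = MvPolynomial.eval₂ (Int.castRingHom E) z P := by
  rw [MvPolynomial.aeval_def]
  congr 1
  exact Subsingleton.elim _ _

/-- Ranks of families in `GF f` and in the fraction field (`IntermediateField.val` is injective: `rk` is invariant under
injective homomorphisms of fields). -/
theorem rk_gen {F : Type} [Field F] [CharZero F] {ι β O : Type} [Finite ι] (f : ι → MvPowerSeries β F)
    (z : O → GF f) :
    rk ℚ (Set.range fun o => (z o : FractionRing (MvPowerSeries β F))) = rk ℚ (Set.range z) := by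
  rw [← glev_rk_image (algebraMap (GF f) (FractionRing (MvPowerSeries β F))).toRatAlgHom,
    ← Set.range_comp]
  rfl

/-- The monomials in `GF f` and in the fraction field. -/
theorem coe_mon {F : Type} [Field F] {ι β : Type} [Fintype ι] (f : ι → MvPowerSeries β F)
    (a : ι → ℤ) : ((mon (gen f) a : GF f) : FractionRing (MvPowerSeries β F)) = mon (fr f) a := by
  exact (mon_map (algebraMap (GF f) (FractionRing (MvPowerSeries β F))) (gen f) a).symm

/-- The degree of the field of the branch over the field of the monomials is the same in `GF f` and in the fraction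
field (`Subfield.relfinrank_map_map`, `Subfield.map` of closures; the images of `Subfield.closure (range z)` under the
injective `GF f → FractionRing _`). -/
theorem relfinrank_gen {F : Type} [Field F] {ι β O : Type} (f : ι → MvPowerSeries β F)
    (z : O → GF f) :
    (Subfield.closure (Set.range z)).relfinrank (Subfield.closure (Set.range (gen f))) =
      (Subfield.closure (Set.range fun o => (z o : FractionRing (MvPowerSeries β F)))).relfinrank
        (Subfield.closure (Set.range (fr f))) := by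
  rw [← Subfield.relfinrank_map_map (Subfield.closure (Set.range z)) _
    (algebraMap (GF f) (FractionRing (MvPowerSeries β F))), RingHom.map_field_closure,
    RingHom.map_field_closure, ← Set.range_comp, ← Set.range_comp]
  rfl

/-- **One level.** Everything is at one level; `zb o = ρ o * ∏ p i ^ (a (inl o) i)`.

Proof. Put `z o = mon (gen f) (a o)`, `y b = gen f (g b)` (`b : Bp`), `M b b' = ∑_i a (inr b) i q i b'`. Residues of the `z (inl o)`:
`res_mon`. Values of the `z (inr b)`: `val_mon`. `rk_z` (DMd): `rk (range zb) + card Bp ≤ rk (range z)`; with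
`hrk` and `card β = card B0 + card Bp` (`Fintype.card_subtype_compl`-type) and `rk (range z) ≤ rk (range (gen f)) = card β`
(`z o` is in the field generated: `rk_le_of_algebraic`; `rk_gen`, `hrX`): first claim. `mult` with `O = Option B0`, `B = Bp`, `X = gen f`,
`P i = gen f i`: `fb, G, m`. `hface` (from `face_bound`) for `G, fb, m`; `L1 fb ≤ L1 f` (`Real.log_le_log`, `L1 fb ≥ 1` because
`fb ≠ 0` has integral coefficients). `gam_num` with `T = N ^ card B0`, `n b = n (cl (bs b))`, `W b = ⌊c0 * n b⌋₊`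
(`≥ c0 n b / 2` as `c0 n b ≥ 2`), `e₀`, `ez` the two degrees, positive by `dm_pos` (`halg` for `e₀`; `alg_of_rk` for `ez`), `h3` from `hcnt`
(`relfinrank_gen`, `coe_mon`; the product over `β` is the product over `B0`, where `cl (bs b) = 0`, times the one over `Bp`).
`hlat`: `det M ≠ 0` and `hW` for `W`. -/
theorem gam_level {k : ℕ} {ι β : Type} [Fintype ι] [Fintype β] [DecidableEq β] {F : Type} [Field F]
    [CharZero F] {σ : F →+* ℂ} {f : ι → MvPowerSeries β F} {cl : ι → Fin (k + 1)} {bs : β → ι}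
    {g : β → ι} {q : ι → β → ℚ} {p : {i // cl i = 0} → ℂ} {Ω : Type} [Field Ω] [Algebra ℂ Ω]
    {v : Ω → ℝ} {φ : GF f →+* Ω} (hE : IsEmbD σ f cl bs g q p v φ) (hf0 : ∀ i, f i ≠ 0)
    (hcq : ∀ i b, q i b ≠ 0 → cl i = cl (bs b)) (n : Fin (k + 1) → ℕ) (hn : ∀ l, 1 ≤ n l)
    (a : Ob cl bs → ι → ℤ) (ρ : Option (B0 cl bs) → ℂ) (hρ0 : ∀ o, ρ o ≠ 0)
    (hρ : ∀ o, Rsd v (φ (mon (gen f) (ppart cl (a (Sum.inl o))))) (ρ o))
    (zb : Option (B0 cl bs) → ℂ)
    (hzb : ∀ o, zb o = ρ o * ∏ i : {i // cl i = 0}, p i ^ a (Sum.inl o) i)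
    (c0 κF C' : ℝ) (hc0 : 0 < c0) (hκF : 0 < κF) (hC' : 0 < C')
    (hn2 : ∀ l, 2 ≤ c0 * n l)
    (hlat : (Matrix.of fun b b' : Bp cl bs => ∑ i, (a (Sum.inr b) i : ℚ) * q i b').det ≠ 0 ∧
      ∀ W : Bp cl bs → ℕ, (∀ b, (W b : ℝ) ≤ c0 * n (cl (bs b))) → ∀ d : Bp cl bs → ℤ,
        (∀ b, |d b| < W b) → ∀ t : Bp cl bs → ℤ,
        (∀ b', (d b' : ℚ) = ∑ b, (t b : ℚ) * ∑ i, (a (Sum.inr b) i : ℚ) * q i b') → d = 0)
    (hrk : rk ℚ (Set.range zb) = Fintype.card (B0 cl bs))
    (halg : ∀ i, IsAlgebraic (Subfield.closure (Set.range zb)) (p i))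
    (hrX : rk ℚ (Set.range (fr f)) = Fintype.card β)
    (hface : ∀ (G fb : MvPolynomial (Option (B0 cl bs)) ℤ) (m : ℕ), Irreducible G →
      MvPolynomial.aeval zb G = 0 → G ^ m ∣ fb → fb ≠ 0 →
      (m : ℝ) * (κF * (n 0 : ℝ) ^ Fintype.card (B0 cl bs)) * (κF * n 0) ≤
        (Subfield.closure (Set.range zb)).relfinrank
          (Subfield.closure (Set.range zb ∪ Set.range p)) * Real.log (L1 fb))
    (hcnt : rk ℚ (Set.range fun o => mon (fr f) (a o)) = Fintype.card β →
      ∀ f' : MvPolynomial (Ob cl bs) ℤ, Irreducible f' →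
        MvPolynomial.aeval (fun o => mon (fr f) (a o)) f' = 0 →
        ∀ o, ((Subfield.closure (Set.range fun o => mon (fr f) (a o))).relfinrank
          (Subfield.closure (Set.range (fr f))) : ℝ) * f'.degreeOf o ≤
            C' * ∏ b, (n (cl (bs b)) : ℝ)) :
    rk ℚ (Set.range fun o => mon (fr f) (a o)) = Fintype.card β ∧
    ∀ f' : MvPolynomial (Ob cl bs) ℤ, Irreducible f' →
      MvPolynomial.aeval (fun o => mon (fr f) (a o)) f' = 0 →
      ∀ o, κF ^ 2 / (C' * (2 / c0) ^ Fintype.card (Bp cl bs)) * n 0 * f'.degreeOf o ≤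
        Real.log (L1 f') := by
  classical
  set X : ι → GF f := gen f with hX
  set z : Ob cl bs → GF f := fun o => mon (gen f) (a o) with hz
  have hX0 : ∀ i, X i ≠ 0 := glev_ne f hf0
  have hz0 : ∀ o, z o ≠ 0 := fun o => glev_mon_ne X hX0 (a o)
  have hzX : ∀ o, z o ∈ Subfield.closure (Set.range X) := fun o => glev_mon_mem X (a o)
  have hp0 : ∀ i, p i ≠ 0 := by
    intro i h
    have h1 := hE.zero i
    rw [h, map_zero] at h1
    exact hX0 i.1 ((map_eq_zero φ).1 h1)
  have hzb0 : ∀ o, zb o ≠ 0 := by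
    intro o
    rw [hzb o]
    exact mul_ne_zero (hρ0 o) (Finset.prod_ne_zero_iff.2 fun i _ => zpow_ne_zero _ (hp0 i))
  have hzbR : ∀ o, Rsd v (φ (z (Sum.inl o))) (zb o) := by
    intro o
    rw [hzb o]
    exact res_mon hE hf0 (a (Sum.inl o)) (ρ o) (hρ o)
  set M : Matrix (Bp cl bs) (Bp cl bs) ℚ :=
    Matrix.of fun b b' : Bp cl bs => ∑ i, (a (Sum.inr b) i : ℚ) * q i b' with hM
  have hMv : ∀ b : Bp cl bs, v (φ (z (Sum.inr b))) =
      ∑ b', (M b b' : ℝ) * v (φ (gen f (g b'))) := fun b => val_mon hE hf0 hcq (a (Sum.inr b))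
  have hcardβ : Fintype.card (B0 cl bs) + Fintype.card (Bp cl bs) = Fintype.card β := by
    rw [← Fintype.card_sum]
    exact Fintype.card_congr (Equiv.sumCompl (fun b => cl (bs b) = 0))
  have hcoe : (fun o => ((z o : GF f) : FractionRing (MvPowerSeries β F))) =
      fun o => mon (fr f) (a o) := funext fun o => coe_mon f (a o)
  have hrz : rk ℚ (Set.range fun o => mon (fr f) (a o)) = rk ℚ (Set.range z) := by
    rw [← rk_gen f z, hcoe]
  have hrX' : rk ℚ (Set.range X) = Fintype.card β := by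
    rw [← hrX, ← rk_gen f X]
    rfl
  have hge := rk_z v hE.rv φ z (fun b : Bp cl bs => gen f (g b)) zb hz0 (fun b => hX0 _) hzb0 hzbR
    hE.indep M hlat.1 hMv
  rw [hrk] at hge
  have hge' : rk ℚ (Set.range X) ≤ rk ℚ (Set.range z) := by
    rw [hrX', ← hcardβ]
    push_cast
    exact hge
  have hle : rk ℚ (Set.range z) ≤ rk ℚ (Set.range X) := by
    refine rk_le_of_algebraic ?_
    rintro _ ⟨o, rfl⟩
    exact glev_mon_alg X (a o)
  have hfirst : rk ℚ (Set.range fun o => mon (fr f) (a o)) = Fintype.card β := by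
    rw [hrz, ← hrX']
    exact le_antisymm hle hge'
  refine ⟨hfirst, fun f' hf' hf'0 o => ?_⟩
  have hf'z : MvPolynomial.eval₂ (Int.castRingHom (GF f)) z f' = 0 := by
    have h1 : MvPolynomial.aeval (fun o => mon (fr f) (a o)) f' =
        algebraMap (GF f) (FractionRing (MvPowerSeries β F))
          (MvPolynomial.eval₂ (Int.castRingHom (GF f)) z f') := by
      rw [MvPolynomial.eval₂_comp_left, glev_aeval, ← hcoe]
      congr 1
    rw [h1] at hf'0
    exact (map_eq_zero_iff _ (algebraMap (GF f)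
      (FractionRing (MvPowerSeries β F))).injective).1 hf'0
  let W : Bp cl bs → ℕ := fun b => ⌊c0 * (n (cl (bs b)) : ℝ)⌋₊
  have hW1 : ∀ b, (W b : ℝ) ≤ c0 * n (cl (bs b)) := fun b =>
    Nat.floor_le (mul_nonneg hc0.le (Nat.cast_nonneg _))
  have hW2 : ∀ b : Bp cl bs, c0 / 2 * (n (cl (bs b)) : ℝ) ≤ W b := by
    intro b
    have h1 : c0 * (n (cl (bs b)) : ℝ) < (W b : ℝ) + 1 := Nat.lt_floor_add_one _
    have h2 := hn2 (cl (bs b))
    have h3 : c0 / 2 * (n (cl (bs b)) : ℝ) = c0 * n (cl (bs b)) / 2 := by ring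
    rw [h3]
    linarith
  obtain ⟨fb, G, m, hfb0, hL, hG, hGz, hGd, hmul⟩ := mult v hE.rv φ X
    (fun i : {i // cl i = 0} => X i) z (fun b : Bp cl bs => gen f (g b)) p zb
    (fun i => Subfield.subset_closure ⟨i.1, rfl⟩) hzX
    (fun b => Subfield.subset_closure ⟨g b, rfl⟩) hz0 (fun b => hX0 _) hE.zero hzb0 hzbR hE.indep M
    hlat.1 hMv W (fun d hd t ht => hlat.2 W hW1 d hd t ht)
    (by rw [hrk, Fintype.card_option]; push_cast; rfl)
    (by
      rw [hrX', Fintype.card_option, ← hcardβ]
      push_cast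
      ring) f' hf' (by
        rw [glev_aeval]
        exact hf'z)
  have hface' := hface G fb m hG hGz hGd hfb0
  have hlog : Real.log (L1 fb) ≤ Real.log (L1 f') := Real.log_le_log (glev_L1_pos fb hfb0) hL
  have hun : Set.range zb ∪ Set.range p = Set.range (Sum.elim zb p) := (Set.Sum.elim_range _ _).symm
  have he₀ : 0 < (Subfield.closure (Set.range zb)).relfinrank
      (Subfield.closure (Set.range zb ∪ Set.range p)) := by
    rw [hun]
    refine dm_pos zb (Sum.elim zb p) (fun o => Subfield.subset_closure ⟨Sum.inl o, rfl⟩) ?_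
    rintro (o | i)
    · exact isAlgebraic_algebraMap (⟨zb o, Subfield.subset_closure ⟨o, rfl⟩⟩ :
        Subfield.closure (Set.range zb))
    · exact halg i
  have hez : 0 < (Subfield.closure (Set.range z)).relfinrank (Subfield.closure (Set.range X)) :=
    dm_pos z X hzX (alg_of_rk z X hzX hge')
  have hcnt' := hcnt hfirst f' hf' hf'0 o
  have hrel : (Subfield.closure (Set.range z)).relfinrank (Subfield.closure (Set.range X)) =
      (Subfield.closure (Set.range fun o => mon (fr f) (a o))).relfinrank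
        (Subfield.closure (Set.range (fr f))) := by
    rw [← hcoe]
    exact relfinrank_gen f z
  rw [← hrel] at hcnt'
  have hprod : ∏ b, (n (cl (bs b)) : ℝ) =
      (n 0 : ℝ) ^ Fintype.card (B0 cl bs) * ∏ b : Bp cl bs, (n (cl (bs b)) : ℝ) := by
    rw [← Fintype.prod_subtype_mul_prod_subtype (fun b => cl (bs b) = 0)
      (fun b => (n (cl (bs b)) : ℝ))]
    congr 1
    rw [Finset.prod_congr rfl fun b _ => by rw [b.2], Finset.prod_const, Finset.card_univ]
  rw [hprod] at hcnt'
  have hn0 : ∀ l, (0 : ℝ) < n l := fun l => by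
    have := hn l
    exact_mod_cast this
  refine gam_num (B := Bp cl bs) c0 κF C' ((n 0 : ℝ) ^ Fintype.card (B0 cl bs)) (n 0)
    (Real.log (L1 f')) hc0 hκF hC' (pow_pos (hn0 0) _) (hn0 0) (fun b => (n (cl (bs b)) : ℝ))
    (fun b => hn0 _) W hW2 _ _ m (f'.degreeOf o) he₀ hez hmul ?_ hcnt'
  exact hface'.trans (mul_le_mul_of_nonneg_left hlog (Nat.cast_nonneg _))

end Pool.Agent.Zilber
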