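import Pool.Agent.Zilber.DChart
import Pool.Agent.Zilber.GLev
import Pool.Agent.Zilber.DCnt
import Pool.Agent.Zilber.DLat

set_option autoImplicit false

/-! Core D, GAMMA: the lower bound for the norm of the relation. -/

namespace Pool.Agent.Zilber

open Filter NumberField Module Pool.Agent.LAll Pool.Agent.LSharp Pool.Agent.CITLines

variable {J : Type} {𝒰 : Ultrafilter J} {K : J → Type} [∀ j, Field (K j)] [∀ j, NumberField (K j)]
  {k : ℕ} {s : Fin (k + 1) → J → ℝ} {ι β : Type} [Fintype ι]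
  [Fintype β] [DecidableEq β] {cl : ι → Fin (k + 1)} {x : ι → Ult 𝒰 K} {bs : β → ι}
  {X : ι → Ult 𝒰 (PS β K)}

/-- The chart as a pure chart (`Pch`), for the vectors `R (inl o)` restricted to block `0`. `hR`: the `zpart cl (R (inl o))` are
independent, and they are determined by their coordinates in block `0`. `coord`: `i = ⟨bs b, _⟩`. -/
theorem cht_pch {σ : ∀ j, K j →+* ℂ} {g : β → ι} {q : ι → β → ℚ} {R : Ob cl bs → ι → ℝ}
    (hD : DLin 𝒰 K s cl x bs X σ g q R) {r : ℝ} {h : {i // cl i = 0} → (B0 cl bs → ℂ) → ℂ}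
    {c : B0 cl bs → ℂ} (hC : Cht X σ cl bs g q R r h c) :
    Pch r h c (fun (o : Option (B0 cl bs)) (i : {i // cl i = 0}) => R (Sum.inl o) i) := by
  refine ⟨hC.pos, hC.cd, hC.ne, fun b => ⟨⟨bs b, b.2⟩, hC.coord b⟩, ?_, hC.li, hC.wd, hC.rel,
    hC.alg⟩
  let E : ({i // cl i = 0} → ℝ) →ₗ[ℝ] (ι → ℝ) :=
    { toFun := fun w i => if hi : cl i = 0 then w ⟨i, hi⟩ else 0
      map_add' := fun w w' => by
        funext i
        by_cases hi : cl i = 0
        · simp [hi]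
        · simp [hi]
      map_smul' := fun t w => by
        funext i
        by_cases hi : cl i = 0
        · simp [hi]
        · simp [hi] }
  refine LinearIndependent.of_comp E ?_
  have h1 : (E ∘ fun (o : Option (B0 cl bs)) (i : {i // cl i = 0}) => R (Sum.inl o) i) =
      fun o : Option (B0 cl bs) => zpart cl (R (Sum.inl o)) := by
    funext o i
    change (if hi : cl i = 0 then R (Sum.inl o) i else 0) = if cl i = 0 then R (Sum.inl o) i else 0
    by_cases hi : cl i = 0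
    · rw [dif_pos hi, if_pos hi]
    · rw [dif_neg hi, if_neg hi]
  rw [h1]
  exact hD.li

/-- **GAMMA.**

Proof. `chart` gives `r, h, c`; `cht_pch`; `rho_bound` gives `CF ≥ C`; `face_bound` for `CF` gives `κF, N0`; `lat` with
`cb b = cl (bs b)`, `R b = R (inr b)` (`hD.det`, `hD.cq`) and `C` gives `c0, nL`; `cnt` with `O = Ob cl bs`
(`card = card β + 1`: `card (B0) + 1 + card (Bp)`) and the constant `Ca = ∑_o ∑_i |R o i| + |C|` (so that
`|a o i| ≤ n |R o i| + C ≤ Ca n` as `1 ≤ n`) gives `C'`. `exists_generic` gives `y₁`. `κ = κF^2 / (C' (2/c0)^card Bp)`,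
`n0 = max 1 N0, nL, ⌈2/c0⌉`. For most `j`: `hC.emb` at `y₁` gives `Ω, v, φ` and `hE` (`p i = h i y₁`), the statements of `rho_bound`,
`rk_branch`, `cnt`, and `f i = (X i).rep j ≠ 0` (`hc.ne`; `conf_LX` field `g`, or injectivity of `φ`: `p i ≠ 0`, values). For `n`, `a`: `ρ` from
`rho_bound`; `zb = zbf h (fun o i => a (inl o) i) ρ y₁`; `face_bound` with `N = n 0` (near: `cl i = 0`); `gam_level`. -/
theorem d_gamma (hc : Conf 𝒰 K s (FD 𝒰 K s) cl x bs) (hX : Br 𝒰 K (FD 𝒰 K s) cl x bs X)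
    (σ : ∀ j, K j →+* ℂ)
    (hnc : ∀ a : ι → ℤ, a ≠ 0 → (∀ i, a i ≠ 0 → cl i = 0) → Transcendental ℚ (mon x a))
    {g : β → ι} {q : ι → β → ℚ} {R : Ob cl bs → ι → ℝ} (hD : DLin 𝒰 K s cl x bs X σ g q R)
    (C : ℝ) : ∃ (κ : ℝ) (n0 : ℕ), 0 < κ ∧ Gam 𝒰 s cl bs X q R C κ n0 := by
  classical
  obtain ⟨r, h, c, hC⟩ := chart hc hX σ hnc hD
  have hP := cht_pch hD hC
  obtain ⟨CF, hCF, hρb⟩ := rho_bound hc hX σ hD.cg hD.cq R C
  obtain ⟨κF, N0, hκF, hFB⟩ := face_bound hP CF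
  obtain ⟨c0, nL, hc0, hL⟩ := lat cl (fun b : Bp cl bs => cl (bs b))
    (fun i (b : Bp cl bs) => q i b) (fun i b hi => hD.cq i b hi) (fun b => R (Sum.inr b)) hD.det C
  have hcard : Fintype.card (Ob cl bs) = Fintype.card β + 1 := by
    have h1 : Fintype.card β = Fintype.card (B0 cl bs) + Fintype.card (Bp cl bs) := by
      rw [← Fintype.card_sum]
      exact (Fintype.card_congr (Equiv.sumCompl (fun b => cl (bs b) = 0))).symm
    rw [Fintype.card_sum, Fintype.card_option, h1]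
    omega
  obtain ⟨C', hC', hcnt⟩ := cnt hc hX (Ob cl bs) hcard ((∑ o, ∑ i, |R o i|) + |C|)
  have hF : ∀ l, FD 𝒰 K s l ≤ Lf 𝒰 K (s l) := by
    intro l y hy
    obtain ⟨z, hz1, hz2⟩ := hy
    exact ⟨_, hz1, hz2⟩
  obtain ⟨D, hLX⟩ := conf_LX hc hX hF
  obtain ⟨y₁, hy₁, hgen⟩ := exists_generic c hC.pos
  refine ⟨κF ^ 2 / (C' * (2 / c0) ^ Fintype.card (Bp cl bs)),
    max (max 1 N0) (max nL ⌈2 / c0⌉₊), by positivity, ?_⟩
  unfold Gam
  filter_upwards [hρb, hC.emb, hLX, rk_branch hc hX, hcnt] with j hj1 hj2 hj3 hj4 hj5 n hn hns a ha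
  have hn1 : ∀ l, 1 ≤ n l := fun l =>
    (le_max_left _ _).trans ((le_max_left _ _).trans (hn l))
  have hnN : ∀ l, N0 ≤ n l := fun l =>
    (le_max_right _ _).trans ((le_max_left _ _).trans (hn l))
  have hnL : ∀ l, nL ≤ n l := fun l =>
    (le_max_left _ _).trans ((le_max_right _ _).trans (hn l))
  have hn2 : ∀ l, 2 ≤ c0 * (n l : ℝ) := by
    intro l
    have h1 : ⌈2 / c0⌉₊ ≤ n l := (le_max_right _ _).trans ((le_max_right _ _).trans (hn l))
    have h2 : 2 / c0 ≤ (n l : ℝ) := (Nat.le_ceil _).trans (by exact_mod_cast h1)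
    rw [div_le_iff₀ hc0] at h2
    linarith
  obtain ⟨Ω, iF, iA, v, φ, hE⟩ := hj2 y₁ hy₁ hgen
  obtain ⟨ρ, hρ0, hρa, hρr, hρl⟩ := hj1 (fun i => h i y₁) Ω v φ hE n hn1 hns a ha
  obtain ⟨hz1, hz2, hz3⟩ := hFB (n 0) (hnN 0)
    (fun (o : Option (B0 cl bs)) (i : {i // cl i = 0}) => a (Sum.inl o) i)
    (fun o i => by
      have h1 := ha.near (Sum.inl o) i
      rw [i.2] at h1
      exact h1.trans hCF) ρ hρ0 hρa hρl y₁ hy₁ hgen
  have hf0 : ∀ i, (X i).rep j ≠ 0 := by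
    intro i h0
    refine hj3.g i ?_
    rw [h0, map_zero]
  have hCa : ∀ o i, |(a o i : ℝ)| ≤ ((∑ o, ∑ i, |R o i|) + |C|) * n (cl i) := by
    intro o i
    have h1 := ha.near o i
    have h2 : (1 : ℝ) ≤ n (cl i) := by exact_mod_cast hn1 (cl i)
    have h3 : |R o i| ≤ ∑ o, ∑ i, |R o i| :=
      (Finset.single_le_sum (f := fun i => |R o i|) (fun i _ => abs_nonneg _)
        (Finset.mem_univ i)).trans (Finset.single_le_sum (f := fun o => ∑ i, |R o i|)
        (fun o _ => Finset.sum_nonneg fun i _ => abs_nonneg _) (Finset.mem_univ o))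
    have h4 : |(a o i : ℝ)| ≤ |(a o i : ℝ) - n (cl i) * R o i| + |(n (cl i) : ℝ) * R o i| := by
      have h5 := abs_add_le ((a o i : ℝ) - n (cl i) * R o i) ((n (cl i) : ℝ) * R o i)
      rwa [sub_add_cancel] at h5
    have h6 : |(n (cl i) : ℝ) * R o i| = n (cl i) * |R o i| := by
      rw [abs_mul, abs_of_nonneg (by linarith : (0 : ℝ) ≤ n (cl i))]
    have h7 : (n (cl i) : ℝ) * |R o i| ≤ n (cl i) * ∑ o, ∑ i, |R o i| :=
      mul_le_mul_of_nonneg_left h3 (by linarith)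
    have h8 : |C| ≤ |C| * n (cl i) := le_mul_of_one_le_right (abs_nonneg _) h2
    have h9 := le_abs_self C
    calc |(a o i : ℝ)| ≤ |(a o i : ℝ) - n (cl i) * R o i| + |(n (cl i) : ℝ) * R o i| := h4
      _ ≤ C + n (cl i) * ∑ o, ∑ i, |R o i| := by
        rw [h6]
        exact add_le_add h1 h7
      _ ≤ ((∑ o, ∑ i, |R o i|) + |C|) * n (cl i) := by linarith
  exact gam_level hE hf0 hD.cq n hn1 a ρ hρ0 hρr
    (zbf h (fun (o : Option (B0 cl bs)) (i : {i // cl i = 0}) => a (Sum.inl o) i) ρ y₁)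
    (fun o => rfl) c0 κF C' hc0 hκF hC' hn2
    (hL n hnL (fun b => a (Sum.inr b)) fun b i => ha.near (Sum.inr b) i) hz1 hz2 hj4 hz3
    (fun hrk f' hf' h0 o => hj5 n hn1 a hCa hrk f' hf' h0 o)

end Pool.Agent.Zilber
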