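import Pool.Agent.Zilber.DJLau
import Pool.Agent.CITLines.Push

set_option autoImplicit false

/-! Core D, package J5b: nonvanishing at specialisations. `Sp`, `zt`, `laurent` are in DJLau.lean
(black box).

PROOF of `exists_h0`. The `card β + 1` elements `D(zb)`, `zt A zb b` are algebraic over `ℚ[zb]`
and `rk ℚ (range zb) = card β`, so there is a nonzero polynomial `∑ i, c i * Y ^ i` over `ℚ[T_b]`
with root `D(zb)` when `T_b = zt A zb b`; dividing by a power of `Y` we may suppose `c 0 ≠ 0`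
(as `D(zb) ≠ 0`); `h0` is an integral multiple of `c 0`. Let `(u, z)` be a specialisation with
nonzero coordinates, `D(z) = 0`. The polynomial `P = ∑ i, c i (T_b) * D(T_o) ^ i` in
`ℚ[β ⊕ Option β]` vanishes at `(zt A zb, zb)`, so at `(zt A z, z)` (`laurent`):
`c 0 (zt A z) = 0`. -/

namespace Pool.Agent.Zilber

open MvPolynomial Module Pool.Agent.CITLines

/-- Evaluation of polynomials over `ℚ[β]`. -/
private noncomputable def djEv {β : Type} [Fintype β] (A : Matrix (Option β) (Option β) ℤ)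
    (D : MvPolynomial (Option β) ℚ) (z : Option β → ℂ) :
    Polynomial (MvPolynomial β ℚ) →+* ℂ :=
  Polynomial.eval₂RingHom ((aeval (zt A z) : MvPolynomial β ℚ →ₐ[ℚ] ℂ) : MvPolynomial β ℚ →+* ℂ)
    (aeval z D)

/-- The polynomial in `β ⊕ Option β` variables. -/
private noncomputable def djP {β : Type} (D : MvPolynomial (Option β) ℚ) :
    Polynomial (MvPolynomial β ℚ) →+* MvPolynomial (β ⊕ Option β) ℚ :=
  Polynomial.eval₂RingHom
    ((rename Sum.inl : MvPolynomial β ℚ →ₐ[ℚ] MvPolynomial (β ⊕ Option β) ℚ) :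
      MvPolynomial β ℚ →+* MvPolynomial (β ⊕ Option β) ℚ)
    (rename Sum.inr D)

private theorem aeval_djP {β : Type} [Fintype β] (A : Matrix (Option β) (Option β) ℤ)
    (D : MvPolynomial (Option β) ℚ) (z : Option β → ℂ) (q : Polynomial (MvPolynomial β ℚ)) :
    aeval (Sum.elim (zt A z) z) (djP D q) = djEv A D z q := by
  unfold djP djEv
  rw [Polynomial.coe_eval₂RingHom, Polynomial.coe_eval₂RingHom]
  have h := Polynomial.hom_eval₂ q
    ((rename Sum.inl : MvPolynomial β ℚ →ₐ[ℚ] MvPolynomial (β ⊕ Option β) ℚ) :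
      MvPolynomial β ℚ →+* MvPolynomial (β ⊕ Option β) ℚ)
    ((aeval (Sum.elim (zt A z) z) : MvPolynomial (β ⊕ Option β) ℚ →ₐ[ℚ] ℂ) :
      MvPolynomial (β ⊕ Option β) ℚ →+* ℂ) (rename Sum.inr D)
  rw [RingHom.coe_coe] at h
  rw [h]
  congr 1
  · refine RingHom.ext fun x => ?_
    rw [RingHom.comp_apply, RingHom.coe_coe, RingHom.coe_coe, RingHom.coe_coe, aeval_rename,
      Sum.elim_comp_inl]
  · rw [aeval_rename, Sum.elim_comp_inr]

private theorem djEv_zero {β : Type} [Fintype β] (A : Matrix (Option β) (Option β) ℤ)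
    (D : MvPolynomial (Option β) ℚ) (z : Option β → ℂ) (q : Polynomial (MvPolynomial β ℚ))
    (hD : aeval z D = 0) : djEv A D z q = aeval (zt A z) (q.coeff 0) := by
  unfold djEv
  rw [Polynomial.coe_eval₂RingHom, hD, Polynomial.eval₂_at_zero, RingHom.coe_coe]

private theorem djEv_opt {β : Type} [Fintype β] (A : Matrix (Option β) (Option β) ℤ)
    (D : MvPolynomial (Option β) ℚ) (z : Option β → ℂ) (Q : MvPolynomial (Option β) ℚ) :
    djEv A D z (optionEquivLeft ℚ β Q) =
      aeval (fun o : Option β => o.elim (aeval z D) (zt A z)) Q := by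
  unfold djEv
  rw [Polynomial.coe_eval₂RingHom]
  induction Q using MvPolynomial.induction_on with
  | C a =>
    rw [optionEquivLeft_C, Polynomial.eval₂_C, RingHom.coe_coe, aeval_C, aeval_C]
  | add p q hp hq => rw [map_add, Polynomial.eval₂_add, hp, hq, map_add]
  | mul_X p o hp =>
    rw [map_mul, Polynomial.eval₂_mul, hp, map_mul, aeval_X]
    congr 1
    cases o with
    | none => rw [optionEquivLeft_X_none, Polynomial.eval₂_X]; rfl
    | some b =>
      rw [optionEquivLeft_X_some, Polynomial.eval₂_C, RingHom.coe_coe, aeval_X]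
      rfl

private theorem dj_not_indep {β : Type} [Fintype β] (A : Matrix (Option β) (Option β) ℤ)
    (zb : Option β → ℂ) (hrk : rk ℚ (Set.range zb) = Fintype.card β)
    (D : MvPolynomial (Option β) ℚ) :
    ¬ AlgebraicIndependent ℚ (fun o : Option β => o.elim (aeval zb D) (zt A zb)) := by
  intro h
  have h1 := rk_range_of_indep _ h
  have h2 : rk ℚ (Set.range fun o : Option β => o.elim (aeval zb D) (zt A zb)) ≤
      rk ℚ (Set.range zb) := by
    refine rk_le_of_algebraic ?_
    rintro _ ⟨o, rfl⟩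
    cases o with
    | none =>
      have h3 : aeval zb D ∈ Algebra.adjoin ℚ (Set.range zb) := by
        rw [Algebra.adjoin_range_eq_range_aeval]
        exact ⟨D, rfl⟩
      exact isAlgebraic_algebraMap (⟨aeval zb D, h3⟩ : Algebra.adjoin ℚ (Set.range zb))
    | some b => exact isAlgebraic_mon (k := ℚ) zb (A (some b))
  rw [h1, hrk, Fintype.card_option] at h2
  have h3 : Fintype.card β + 1 ≤ Fintype.card β := by exact_mod_cast h2
  omega

attribute [local instance] MvPolynomial.algebraMvPolynomial in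
private theorem dj_clear {β : Type} (c : MvPolynomial β ℚ) (hc : c ≠ 0) :
    ∃ h0 : MvPolynomial β ℤ, h0 ≠ 0 ∧ ∀ x : β → ℂ, aeval x h0 ≠ 0 → aeval x c ≠ 0 := by
  obtain ⟨⟨h0, ⟨s, hs⟩⟩, h⟩ := IsLocalization.surj
    ((nonZeroDivisors ℤ).map (C : ℤ →+* MvPolynomial β ℤ)) c
  obtain ⟨k, hk, rfl⟩ := hs
  have hk0 : k ≠ 0 := nonZeroDivisors.ne_zero hk
  have e1 : ∀ q : MvPolynomial β ℤ, algebraMap (MvPolynomial β ℤ) (MvPolynomial β ℚ) q =
      MvPolynomial.map (algebraMap ℤ ℚ) q := fun q => rfl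
  rw [e1, e1, map_C] at h
  dsimp only at h
  refine ⟨h0, ?_, ?_⟩
  · rintro rfl
    rw [map_zero] at h
    rcases mul_eq_zero.1 h with h | h
    · exact hc h
    · rw [C_eq_zero] at h
      exact hk0 (by simpa using h)
  · intro x hx hcx
    apply hx
    have h2 : aeval x (MvPolynomial.map (algebraMap ℤ ℚ) h0) = 0 := by
      rw [← h, map_mul, hcx, zero_mul]
    rwa [aeval_map_algebraMap] at h2

theorem exists_h0 {ι β : Type} [Fintype ι] [Fintype β] (A : Matrix (Option β) (Option β) ℤ)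
    (p : ι → ℂ) (zb : Option β → ℂ) (hzb : ∀ o, zb o ≠ 0)
    (hrk : rk ℚ (Set.range zb) = Fintype.card β)
    (hind : AlgebraicIndependent ℚ (zt A zb)) (D : MvPolynomial (Option β) ℚ)
    (hD : aeval zb D ≠ 0) :
    ∃ h0 : MvPolynomial β ℤ, h0 ≠ 0 ∧ ∀ (u : ι → ℂ) (z : Option β → ℂ), (∀ o, z o ≠ 0) →
      Sp p zb u z → aeval (zt A z) h0 ≠ 0 → aeval z D ≠ 0 := by
  have h1 := dj_not_indep A zb hrk D
  rw [algebraicIndependent_iff] at h1
  push Not at h1
  obtain ⟨Q, hQ, hQ0⟩ := h1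
  have hq0 : optionEquivLeft ℚ β Q ≠ 0 := by
    intro h
    exact hQ0 ((optionEquivLeft ℚ β).injective (h.trans (map_zero _).symm))
  rw [← djEv_opt] at hQ
  generalize optionEquivLeft ℚ β Q = q at hQ hq0
  obtain ⟨r, hr, hnd⟩ := Polynomial.exists_eq_pow_rootMultiplicity_mul_and_not_dvd q hq0 0
  rw [Polynomial.C_0, sub_zero] at hr hnd
  have hr0 : r.coeff 0 ≠ 0 := by
    intro h
    exact hnd (Polynomial.X_dvd_iff.2 h)
  have hr1 : djEv A D zb r = 0 := by
    rw [hr, map_mul, map_pow] at hQ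
    have h2 : djEv A D zb Polynomial.X = aeval zb D := by
      unfold djEv
      rw [Polynomial.coe_eval₂RingHom, Polynomial.eval₂_X]
    rw [h2] at hQ
    exact (mul_eq_zero.1 hQ).resolve_left (pow_ne_zero _ hD)
  obtain ⟨h0, hh0, hh⟩ := dj_clear (r.coeff 0) hr0
  refine ⟨h0, hh0, fun u z hz hs hne hDz => hh _ hne ?_⟩
  have h3 := laurent A p zb hzb u z hz hs (djP D r) (by rw [aeval_djP]; exact hr1)
  rwa [aeval_djP, djEv_zero A D z r hDz] at h3

end Pool.Agent.Zilber
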