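import Pool.Agent.CITLines.Rel

set_option autoImplicit false

/-! Core D, package J5a: relations of bounded degree.

PROOF of `exists_dep`. `k0 = Subfield.closure (range zb)`, `L = Subfield.closure (range zb ∪ range p)`, `e = k0.relfinrank L`. `L` is a
finite extension of `k0` (generated by finitely many elements, algebraic over `k0`, `hp`), of degree `e`
(`Subfield.relfinrank` is by definition the `finrank` of `L` over `k0` as `k0 ≤ L`; see `Subfield.relfinrank_eq_finrank_of_le` or
the like), so the `e + 1` elements `1, g, .., g ^ e` of `L` are linearly dependent over `k0`: `∑ i, c i * g ^ i = 0`, `c i ∈ k0` not all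
zero. Every element of `k0` is a quotient `aeval zb P / aeval zb Q`, `aeval zb Q ≠ 0` with `P, Q ∈ ℚ[O]` (the set of these quotients is a
subfield which contains the `zb o`; `Subfield.closure_le`, or `Subfield.closure_induction`). Multiply by the product of the
denominators: `π i = P i * ∏ i' ≠ i, Q i'`. -/

namespace Pool.Agent.Zilber

open MvPolynomial Module

theorem exists_dep {ι O : Type} [Fintype ι] [Fintype O] (p : ι → ℂ) (zb : O → ℂ)
    (hp : ∀ i, IsAlgebraic (Subfield.closure (Set.range zb)) (p i)) (g : ℂ)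
    (hg : g ∈ Subfield.closure (Set.range zb ∪ Set.range p)) :
    ∃ π : Fin ((Subfield.closure (Set.range zb)).relfinrank
        (Subfield.closure (Set.range zb ∪ Set.range p)) + 1) → MvPolynomial O ℚ,
      (∃ i, aeval zb (π i) ≠ 0) ∧ ∑ i, aeval zb (π i) * g ^ (i : ℕ) = 0 := by
  classical
  set k0 := Subfield.closure (Set.range zb) with hk0
  set L := Subfield.closure (Set.range zb ∪ Set.range p) with hL
  have hle : k0 ≤ L := Subfield.closure_mono Set.subset_union_left
  set F : IntermediateField k0 ℂ := Subfield.extendScalars hle with hF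
  have hFad : F ≤ IntermediateField.adjoin k0 (Set.range p) := by
    intro x hx
    have hx' : x ∈ L := hx
    have h1 : L ≤ (IntermediateField.adjoin k0 (Set.range p)).toSubfield := by
      rw [hL, Subfield.closure_le]
      rintro y (hy | hy)
      · exact (IntermediateField.adjoin k0 (Set.range p)).algebraMap_mem
          ⟨y, Subfield.subset_closure hy⟩
      · exact IntermediateField.subset_adjoin _ _ hy
    exact h1 hx'
  have hfin0 : FiniteDimensional k0 (IntermediateField.adjoin k0 (Set.range p)) := by
    refine IntermediateField.finiteDimensional_adjoin ?_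
    rintro _ ⟨i, rfl⟩
    exact (hp i).isIntegral
  have hfin : FiniteDimensional k0 F :=
    FiniteDimensional.of_injective (IntermediateField.inclusion hFad).toLinearMap
      (IntermediateField.inclusion hFad).injective
  have hdeg : k0.relfinrank L = finrank k0 F := Subfield.relfinrank_eq_finrank_of_le hle
  rw [hdeg]
  have hgF : g ∈ F := hg
  have hdep : ¬ LinearIndependent k0
      (fun i : Fin (finrank k0 F + 1) => (⟨g, hgF⟩ : F) ^ (i : ℕ)) := by
    intro h
    have h1 := h.fintype_card_le_finrank
    rw [Fintype.card_fin] at h1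
    omega
  rw [Fintype.not_linearIndependent_iff] at hdep
  obtain ⟨c, hc, i₀, hi₀⟩ := hdep
  have hquot : ∀ x : k0, ∃ P Q : MvPolynomial O ℚ, aeval zb Q ≠ 0 ∧
      aeval zb P = (x : ℂ) * aeval zb Q := by
    intro x
    have h1 : k0 ≤ (IntermediateField.adjoin ℚ (Set.range zb)).toSubfield := by
      rw [hk0, Subfield.closure_le]
      exact IntermediateField.subset_adjoin _ _
    have h2 : (x : ℂ) ∈ IntermediateField.adjoin ℚ (Set.range zb) := h1 x.2
    obtain ⟨P, Q, hPQ⟩ := (IntermediateField.mem_adjoin_range_iff ℚ zb (x : ℂ)).1 h2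
    by_cases hQ : aeval zb Q = 0
    · refine ⟨0, 1, ?_, ?_⟩
      · rw [map_one]
        exact one_ne_zero
      · rw [hPQ, hQ, div_zero, zero_mul, map_zero]
    · refine ⟨P, Q, hQ, ?_⟩
      rw [hPQ, div_mul_cancel₀ _ hQ]
  choose P Q hQ hP using hquot
  have hπ : ∀ i : Fin (finrank k0 F + 1), aeval zb (P (c i) *
      ∏ i' ∈ Finset.univ.erase i, Q (c i')) = (c i : ℂ) * ∏ i', aeval zb (Q (c i')) := by
    intro i
    rw [map_mul, map_prod, hP, mul_assoc,
      Finset.mul_prod_erase Finset.univ (fun i' => aeval zb (Q (c i'))) (Finset.mem_univ i)]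
  have hne : ∏ i', aeval zb (Q (c i')) ≠ 0 := Finset.prod_ne_zero_iff.2 fun i' _ => hQ _
  refine ⟨fun i => P (c i) * ∏ i' ∈ Finset.univ.erase i, Q (c i'), ⟨i₀, ?_⟩, ?_⟩
  · rw [hπ]
    exact mul_ne_zero (fun h => hi₀ (Subtype.ext h)) hne
  · have h1 : ∑ i, (c i : ℂ) * g ^ (i : ℕ) = 0 := by
      have h2 := congrArg F.val hc
      rw [map_sum, map_zero] at h2
      rw [← h2]
      refine Finset.sum_congr rfl fun i _ => ?_
      rfl
    calc ∑ i, aeval zb (P (c i) * ∏ i' ∈ Finset.univ.erase i, Q (c i')) * g ^ (i : ℕ)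
        = ∑ i, (∏ i', aeval zb (Q (c i'))) * ((c i : ℂ) * g ^ (i : ℕ)) := by
          refine Finset.sum_congr rfl fun i _ => ?_
          rw [hπ]
          ring
      _ = 0 := by rw [← Finset.mul_sum, h1, mul_zero]

end Pool.Agent.Zilber
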