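import Pool.Agent.Zilber.DJDep
import Pool.Agent.Zilber.DJAlg

set_option autoImplicit false

/-! Core D, package J5c: the number of points of a fibre. `exists_dep` (DJDep.lean) and `exists_h0` (DJAlg.lean) are
black boxes.

PROOF of `exists_fib`. `e` = the relative degree of the statement.
(b) Enumerate `ι` by `ix : ι ≃ Fin (card ι)` and let `g_t = ∑ i, t ^ (ix i) * p i` for `t : ℕ` (an element of
`Subfield.closure (range zb ∪ range p)`). If `u ≠ u' : ι → ℂ` then `∑ i, t ^ (ix i) * (u i - u' i) = 0` for at most `card ι` values of `t` (a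
nonzero polynomial in `t` of degree `< card ι`). So for every finset `U` of `e + 1` points there is `t < T = (e + 1) ^ 2 * card ι + 1`
such that `u ↦ ∑ i, t ^ (ix i) * u i` is injective on `U`.
(c) For every `t < T` choose `π_t` by `exists_dep` for `g_t` and `i_t` with `aeval zb (π_t i_t) ≠ 0`. `D = ∏ t, π_t i_t`, `aeval zb D ≠ 0`, and let
`h0` be as in `exists_h0`. If `(u, z)` is a specialisation with nonzero coordinates and `aeval (zt A z) h0 ≠ 0` then `D(z) ≠ 0`, and
`∑ i, π_t i (z) Y ^ i` is a nonzero polynomial of degree `≤ e` with the root `∑ i, t ^ (ix i) * u i` (the relation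
`∑ i, π_t i (zb) g_t ^ i = 0` is a polynomial relation of `(p, zb)`, `Sp`). So if `U` had more than `e` elements, take a subset of
`e + 1` elements (`Finset.exists_subset_card_eq`) and `t` as in (b): `e + 1` different roots, contradiction. -/

namespace Pool.Agent.Zilber

open MvPolynomial Module Pool.Agent.CITLines

private theorem fib_rel {ι O : Type} [Fintype ι] {e : ℕ} (p : ι → ℂ) (zb : O → ℂ)
    (π : Fin (e + 1) → MvPolynomial O ℚ) (c : ι → ℕ)
    (h : ∑ i, aeval zb (π i) * (∑ j, (c j : ℂ) * p j) ^ (i : ℕ) = 0) {u : ι → ℂ} {z : O → ℂ}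
    (hs : Sp p zb u z) : ∑ i, aeval z (π i) * (∑ j, (c j : ℂ) * u j) ^ (i : ℕ) = 0 := by
  have key : ∀ (q : ι → ℂ) (y : O → ℂ),
      aeval (Sum.elim q y) (∑ i : Fin (e + 1), rename Sum.inr (π i) *
        (∑ j, (c j : MvPolynomial (ι ⊕ O) ℚ) * X (Sum.inl j)) ^ (i : ℕ)) =
      ∑ i, aeval y (π i) * (∑ j, (c j : ℂ) * q j) ^ (i : ℕ) := by
    intro q y
    rw [map_sum]
    refine Finset.sum_congr rfl fun i _ => ?_
    rw [map_mul, map_pow, map_sum, aeval_rename]
    congr 2
    refine Finset.sum_congr rfl fun j _ => ?_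
    rw [map_mul, map_natCast, aeval_X, Sum.elim_inl]
  rw [← key]
  apply hs
  rw [key]
  exact h

private theorem fib_poly {e : ℕ} (c : Fin (e + 1) → ℂ) {i₀ : Fin (e + 1)} (h : c i₀ ≠ 0)
    (V : Finset ℂ) (hV : ∀ y ∈ V, ∑ i, c i * y ^ (i : ℕ) = 0) : V.card ≤ e := by
  by_contra hc
  push Not at hc
  have h0 := Polynomial.eq_zero_of_natDegree_lt_card_of_eval_eq_zero'
    (∑ i : Fin (e + 1), Polynomial.C (c i) * Polynomial.X ^ (i : ℕ)) V (fun y hy => by
      rw [Polynomial.eval_finsetSum]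
      simpa using hV y hy) (lt_of_le_of_lt (Polynomial.natDegree_sum_le_of_forall_le _ _
        fun i _ => (Polynomial.natDegree_C_mul_X_pow_le _ _).trans (Nat.lt_succ_iff.1 i.2)) hc)
  have h1 := congrArg (fun P => Polynomial.coeff P (i₀ : ℕ)) h0
  simp only [Polynomial.finsetSum_coeff, Polynomial.coeff_C_mul, Polynomial.coeff_X_pow,
    Polynomial.coeff_zero, mul_ite, mul_one, mul_zero] at h1
  rw [Finset.sum_eq_single i₀] at h1
  · rw [if_pos rfl] at h1
    exact h h1
  · intro b _ hb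
    rw [if_neg]
    intro h2
    exact hb (Fin.ext h2.symm)
  · intro h2
    exact absurd (Finset.mem_univ _) h2

/-- A generic projection is injective on a finite set. -/
private theorem fib_inj {ι : Type} [Fintype ι] (ix : ι ≃ Fin (Fintype.card ι)) (V : Finset (ι → ℂ))
    {T : ℕ} (hT : V.card ^ 2 * Fintype.card ι < T) :
    ∃ t < T, ∀ u ∈ V, ∀ u' ∈ V,
      ∑ i, ((t ^ (ix i : ℕ) : ℕ) : ℂ) * u i = ∑ i, ((t ^ (ix i : ℕ) : ℕ) : ℂ) * u' i → u = u' := by
  classical
  let Q : (ι → ℂ) × (ι → ℂ) → Polynomial ℂ := fun w =>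
    ∑ i, Polynomial.C (w.1 i - w.2 i) * Polynomial.X ^ (ix i : ℕ)
  have hQ0 : ∀ w : (ι → ℂ) × (ι → ℂ), w.1 ≠ w.2 → Q w ≠ 0 := by
    intro w hw h0
    apply hw
    funext i
    have h1 := congrArg (fun P => Polynomial.coeff P (ix i : ℕ)) h0
    simp only [Q, Polynomial.finsetSum_coeff, Polynomial.coeff_C_mul, Polynomial.coeff_X_pow,
      Polynomial.coeff_zero, mul_ite, mul_one, mul_zero] at h1
    rw [Finset.sum_eq_single i] at h1
    · rw [if_pos rfl] at h1
      exact sub_eq_zero.1 h1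
    · intro b _ hb
      rw [if_neg]
      intro h2
      exact hb (ix.injective (Fin.ext h2.symm))
    · intro h2
      exact absurd (Finset.mem_univ _) h2
  have hQd : ∀ w, (Q w).natDegree ≤ Fintype.card ι := fun w =>
    Polynomial.natDegree_sum_le_of_forall_le _ _ fun i _ =>
      (Polynomial.natDegree_C_mul_X_pow_le _ _).trans (ix i).2.le
  have hP0 : ∏ w ∈ V.offDiag, Q w ≠ 0 :=
    Finset.prod_ne_zero_iff.2 fun w hw => hQ0 w (Finset.mem_offDiag.1 hw).2.2
  have hPd : (∏ w ∈ V.offDiag, Q w).natDegree < T := by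
    refine lt_of_le_of_lt (Polynomial.natDegree_prod_le _ _) (lt_of_le_of_lt ?_ hT)
    refine (Finset.sum_le_card_nsmul _ _ _ fun w _ => hQd w).trans ?_
    rw [smul_eq_mul]
    refine Nat.mul_le_mul_right _ ?_
    rw [Finset.offDiag_card, sq]
    exact Nat.sub_le _ _
  by_contra hcon
  push Not at hcon
  apply hP0
  refine Polynomial.eq_zero_of_natDegree_lt_card_of_eval_eq_zero' _
    ((Finset.range T).image (Nat.cast : ℕ → ℂ)) ?_ ?_
  · intro y hy
    obtain ⟨t, ht, rfl⟩ := Finset.mem_image.1 hy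
    obtain ⟨u, hu, u', hu', h1, h2⟩ := hcon t (Finset.mem_range.1 ht)
    rw [Polynomial.eval_prod]
    refine Finset.prod_eq_zero (i := (u, u')) (Finset.mem_offDiag.2 ⟨hu, hu', h2⟩) ?_
    simp only [Q]
    rw [Polynomial.eval_finsetSum]
    have h3 : ∑ i, ((t ^ (ix i : ℕ) : ℕ) : ℂ) * (u i - u' i) = 0 := by
      simp only [mul_sub, Finset.sum_sub_distrib]
      rw [h1, sub_self]
    rw [← h3]
    refine Finset.sum_congr rfl fun i _ => ?_
    rw [Polynomial.eval_mul, Polynomial.eval_C, Polynomial.eval_pow, Polynomial.eval_X,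
      Nat.cast_pow]
    ring
  · rw [Finset.card_image_of_injective _ Nat.cast_injective, Finset.card_range]
    exact hPd

theorem exists_fib {ι β : Type} [Fintype ι] [Fintype β] (A : Matrix (Option β) (Option β) ℤ)
    (p : ι → ℂ) (zb : Option β → ℂ) (hzb : ∀ o, zb o ≠ 0)
    (hrk : rk ℚ (Set.range zb) = Fintype.card β)
    (hp : ∀ i, IsAlgebraic (Subfield.closure (Set.range zb)) (p i))
    (hind : AlgebraicIndependent ℚ (zt A zb)) :
    ∃ h0 : MvPolynomial β ℤ, h0 ≠ 0 ∧ ∀ z : Option β → ℂ, (∀ o, z o ≠ 0) →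
      aeval (zt A z) h0 ≠ 0 → ∀ U : Finset (ι → ℂ), (∀ u ∈ U, Sp p zb u z) →
        U.card ≤ (Subfield.closure (Set.range zb)).relfinrank
          (Subfield.closure (Set.range zb ∪ Set.range p)) := by
  classical
  let ix : ι ≃ Fin (Fintype.card ι) := Fintype.equivFin ι
  let c : ℕ → ι → ℕ := fun t i => t ^ (ix i : ℕ)
  let e := (Subfield.closure (Set.range zb)).relfinrank
    (Subfield.closure (Set.range zb ∪ Set.range p))
  have hg : ∀ t : ℕ, (∑ i, (c t i : ℂ) * p i) ∈ Subfield.closure (Set.range zb ∪ Set.range p) :=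
    fun t => sum_mem fun i _ => mul_mem (natCast_mem _ _)
      (Subfield.subset_closure (Or.inr ⟨i, rfl⟩))
  choose π hπ hsum using fun t : ℕ => exists_dep p zb hp _ (hg t)
  choose i₀ hi₀ using hπ
  have hD : aeval zb (∏ t ∈ Finset.range ((e + 1) ^ 2 * Fintype.card ι + 1), π t (i₀ t)) ≠ 0 := by
    rw [map_prod]
    exact Finset.prod_ne_zero_iff.2 fun t _ => hi₀ t
  obtain ⟨h0, hh0, hsp⟩ := exists_h0 A p zb hzb hrk hind _ hD
  refine ⟨h0, hh0, fun z hz hne U hU => ?_⟩
  by_contra hcon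
  push Not at hcon
  obtain ⟨V, hVU, hV⟩ := Finset.exists_subset_card_eq (Nat.succ_le_of_lt hcon)
  obtain ⟨u₀, hu₀⟩ : V.Nonempty := Finset.card_pos.1 (by rw [hV]; exact Nat.succ_pos _)
  have hDz := hsp u₀ z hz (hU u₀ (hVU hu₀)) hne
  rw [map_prod, Finset.prod_ne_zero_iff] at hDz
  obtain ⟨t, htT, htinj⟩ := fib_inj ix V (T := (e + 1) ^ 2 * Fintype.card ι + 1) (by
    rw [hV]
    exact Nat.lt_succ_self _)
  have h1 : (V.image fun u => ∑ i, (c t i : ℂ) * u i).card ≤ e := by
    refine fib_poly (fun i => aeval z (π t i)) (hDz t (Finset.mem_range.2 htT)) _ ?_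
    intro y hy
    obtain ⟨u, hu, rfl⟩ := Finset.mem_image.1 hy
    exact fib_rel p zb (π t) (c t) (hsum t) (hU u (hVU hu))
  rw [Finset.card_image_of_injOn (fun u hu u' hu' h => htinj u hu u' hu' h), hV] at h1
  exact absurd h1 (Nat.not_succ_le_self e)

end Pool.Agent.Zilber
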