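import Mathlib

set_option autoImplicit false

/-! Core D, package J1: averages of integral polynomials over a grid of roots of unity.

* `sum_log_primitive`. Let `a ∈ ℤ[X]`, `a ≠ 0`, `deg a + 1 < p`, `p` prime. The minimal polynomial
  over `ℚ` of a primitive `p`-th root of unity `ζ` is `Φ_p`, of degree `p - 1 > deg a`
  (`Polynomial.cyclotomic_eq_minpoly_rat`, `natDegree_cyclotomic`, `Nat.totient_prime`), so `a(ζ)
  ≠ 0` (`minpoly.natDegree_le` or `Polynomial.eq_zero_of_dvd_of_natDegree_lt`). The product over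
  the primitive roots of `a(ζ)` is the norm from `ℚ(ζ)` to `ℚ` of an algebraic integer: let `L =
  CyclotomicField p ℚ`, `ζ0 = IsCyclotomicExtension.zeta p ℚ L`, `α = aeval ζ0 a`;
  `Algebra.norm_eq_prod_embeddings ℚ ℂ α` and `IsPrimitiveRoot.embeddingsEquivPrimitiveRoots`
  (bijection of the embeddings `L →ₐ[ℚ] ℂ` with `primitiveRoots p ℂ`, `σ ↦ σ ζ0`). `Algebra.norm ℚ
  α` is an integer (`Algebra.isIntegral_norm`, `IsIntegrallyClosed.isIntegral_iff`), nonzero, so
  its absolute value is `≥ 1`: `∏ ‖a(ζ)‖ ≥ 1`; take logarithms (`Real.log_prod`).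
(Alternative: resultants, `Polynomial.resultant`.)
* `exists_grid`: Kronecker substitution. Choose `k : β → ℕ` such that the numbers `∑ b, k b * m b`
  are different for the different exponents `m` in the support of `a`: enumerate `β`
  (`Fintype.equivFin`), `k b = t ^ (index of b)`; for `m ≠ m'` the polynomial `∑ b, (m b - m' b) t
  ^ (index of b)` in `t` is not zero and has finitely many roots; take `t : ℕ` outside all of
  them. Then `ã = aeval (fun b => X ^ k b) a = ∑ m, coeff m a • X ^ (∑ k b m b) ∈ ℤ[X]` is not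
  zero. Let `p` be a prime `> deg ã + 2` (`Nat.exists_infinite_primes`). If `a' ∣ a` then `ã' ∣
  ã`, so `ã' ≠ 0` and `deg ã' ≤ deg ã`; apply `sum_log_primitive` to `ã'`; `aeval ζ ã' = aeval
  (fun b => ζ ^ k b) a'`. -/

namespace Pool.Agent.Zilber

private theorem aeval_ne_zero_of_deg {K : Type} [Field K] [CharZero K] (a : Polynomial ℤ)
    (ha : a ≠ 0) (p : ℕ) (hp : p.Prime) (hd : a.natDegree + 1 < p) {ζ : K}
    (hζ : IsPrimitiveRoot ζ p) : Polynomial.aeval ζ a ≠ 0 := by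
  intro h0
  have hint : IsIntegral ℤ ζ := hζ.isIntegral hp.pos
  have h1 := minpoly.isIntegrallyClosed_dvd hint h0
  have h2 := Polynomial.natDegree_le_of_dvd h1 ha
  rw [← Polynomial.cyclotomic_eq_minpoly hζ hp.pos, Polynomial.natDegree_cyclotomic,
    Nat.totient_prime hp] at h2
  omega

private theorem isIntegral_aeval {K : Type} [Field K] (a : Polynomial ℤ) {ζ : K}
    (hζ : IsIntegral ℤ ζ) : IsIntegral ℤ (Polynomial.aeval ζ a) := by
  have h1 : (integralClosure ℤ K).val (Polynomial.aeval (⟨ζ, hζ⟩ : integralClosure ℤ K) a) =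
      Polynomial.aeval ζ a := (Polynomial.aeval_algHom_apply _ _ _).symm
  rw [← h1]
  exact (Polynomial.aeval (⟨ζ, hζ⟩ : integralClosure ℤ K) a).2

private theorem norm_cyc (a : Polynomial ℤ) (ha : a ≠ 0) (p : ℕ) (hp : p.Prime)
    (hd : a.natDegree + 1 < p) (L : Type) [Field L] [CharZero L] [Algebra ℚ L]
    [IsCyclotomicExtension {p} ℚ L] :
    ∃ N : ℤ, N ≠ 0 ∧ ∏ ζ ∈ primitiveRoots p ℂ, Polynomial.aeval ζ a = (N : ℂ) := by
  have : NeZero p := ⟨hp.ne_zero⟩
  have hζ0 : IsPrimitiveRoot (IsCyclotomicExtension.zeta p ℚ L) p :=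
    IsCyclotomicExtension.zeta_spec p ℚ L
  set ζ0 := IsCyclotomicExtension.zeta p ℚ L with hζ0d
  have hirr : Irreducible (Polynomial.cyclotomic p ℚ) :=
    Polynomial.cyclotomic.irreducible_rat hp.pos
  have : FiniteDimensional ℚ L := IsCyclotomicExtension.finiteDimensional {p} ℚ L
  have hα0 : Polynomial.aeval ζ0 a ≠ 0 := aeval_ne_zero_of_deg a ha p hp hd hζ0
  have hint : IsIntegral ℤ (Algebra.norm ℚ (Polynomial.aeval ζ0 a)) :=
    Algebra.isIntegral_norm ℚ (isIntegral_aeval a (hζ0.isIntegral hp.pos))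
  obtain ⟨N, hN⟩ := IsIntegrallyClosed.isIntegral_iff.1 hint
  have hN0 : N ≠ 0 := by
    rintro rfl
    rw [map_zero] at hN
    exact (Algebra.norm_ne_zero_iff.2 hα0) hN.symm
  refine ⟨N, hN0, ?_⟩
  have h1 := Algebra.norm_eq_prod_embeddings ℚ ℂ (Polynomial.aeval ζ0 a)
  rw [← hN] at h1
  have h2 : ∏ σ : L →ₐ[ℚ] ℂ, σ (Polynomial.aeval ζ0 a) =
      ∏ ζ : primitiveRoots p ℂ, Polynomial.aeval (ζ : ℂ) a := by
    refine Fintype.prod_equiv (hζ0.embeddingsEquivPrimitiveRoots ℂ hirr) _ _ fun σ => ?_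
    rw [IsPrimitiveRoot.embeddingsEquivPrimitiveRoots_apply_coe]
    have h3 := Polynomial.aeval_algHom_apply (σ.restrictScalars ℤ) ζ0 a
    exact h3.symm
  rw [h2, Finset.prod_coe_sort (primitiveRoots p ℂ) (fun ζ => Polynomial.aeval ζ a)] at h1
  rw [← h1]
  simp

theorem sum_log_primitive (a : Polynomial ℤ) (ha : a ≠ 0) (p : ℕ) (hp : p.Prime)
    (hd : a.natDegree + 1 < p) :
    (∀ ζ ∈ primitiveRoots p ℂ, Polynomial.aeval ζ a ≠ 0) ∧
      0 ≤ ∑ ζ ∈ primitiveRoots p ℂ, Real.log ‖Polynomial.aeval ζ a‖ := by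
  have hne : ∀ ζ ∈ primitiveRoots p ℂ, Polynomial.aeval ζ a ≠ 0 := fun ζ hζ =>
    aeval_ne_zero_of_deg a ha p hp hd ((mem_primitiveRoots hp.pos).1 hζ)
  refine ⟨hne, ?_⟩
  have : NeZero p := ⟨hp.ne_zero⟩
  have : NeZero ((p : ℕ) : ℚ) := ⟨by exact_mod_cast hp.ne_zero⟩
  obtain ⟨N, hN0, hprod⟩ := @norm_cyc a ha p hp hd (CyclotomicField p ℚ) _ _
    (CyclotomicField.algebra p ℚ) (CyclotomicField.isCyclotomicExtension p ℚ)
  rw [← Real.log_prod (fun ζ hζ => norm_ne_zero_iff.2 (hne ζ hζ))]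
  rw [← norm_prod, hprod]
  apply Real.log_nonneg
  have h4 : (1 : ℝ) ≤ |(N : ℝ)| := by
    have := Int.one_le_abs hN0
    exact_mod_cast this
  calc (1 : ℝ) ≤ |(N : ℝ)| := h4
    _ = ‖(N : ℂ)‖ := by rw [Complex.norm_intCast]

/-- A natural number which is not a root of a given nonzero polynomial. -/
private theorem exists_nat_not_root (P : Polynomial ℤ) (hP : P ≠ 0) :
    ∃ t : ℕ, P.eval (t : ℤ) ≠ 0 := by
  by_contra hcon
  push Not at hcon
  apply hP
  refine Polynomial.eq_zero_of_infinite_isRoot P ?_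
  refine Set.Infinite.mono (s := Set.range (fun t : ℕ => (t : ℤ))) ?_
    (Set.infinite_range_of_injective Nat.cast_injective)
  rintro _ ⟨t, rfl⟩
  exact hcon t

/-- Weights which separate the exponents of a finite set. -/
private theorem exists_weights {β : Type} [Fintype β] (S : Finset (β →₀ ℕ)) :
    ∃ k : β → ℕ, ∀ m ∈ S, ∀ m' ∈ S, ∑ b, k b * m b = ∑ b, k b * m' b → m = m' := by
  classical
  let e := Fintype.equivFin β
  let V : (β →₀ ℕ) × (β →₀ ℕ) → Polynomial ℤ := fun q =>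
    ∑ b, Polynomial.C ((q.1 b : ℤ) - (q.2 b : ℤ)) * Polynomial.X ^ (e b : ℕ)
  have hV : ∀ q : (β →₀ ℕ) × (β →₀ ℕ), q.1 ≠ q.2 → V q ≠ 0 := by
    intro q hq h0
    apply hq
    ext b
    have h1 := congrArg (fun P : Polynomial ℤ => P.coeff (e b : ℕ)) h0
    simp only [V, Polynomial.finsetSum_coeff, Polynomial.coeff_C_mul_X_pow,
      Polynomial.coeff_zero] at h1
    rw [Finset.sum_eq_single b] at h1
    · rw [if_pos rfl] at h1
      have : (q.1 b : ℤ) = q.2 b := by linarith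
      exact_mod_cast this
    · intro b' _ hb'
      refine if_neg fun h2 => hb' ?_
      exact (e.injective (Fin.ext h2)).symm
    · intro h2
      exact absurd (Finset.mem_univ b) h2
  let P : Polynomial ℤ := ∏ q ∈ (S ×ˢ S).filter (fun q => q.1 ≠ q.2), V q
  have hP : P ≠ 0 := Finset.prod_ne_zero_iff.2 fun q hq => hV q (Finset.mem_filter.1 hq).2
  obtain ⟨t, ht⟩ := exists_nat_not_root P hP
  refine ⟨fun b => t ^ (e b : ℕ), fun m hm m' hm' heq => ?_⟩
  by_contra hne
  apply ht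
  have hmem : (m, m') ∈ (S ×ˢ S).filter (fun q => q.1 ≠ q.2) :=
    Finset.mem_filter.2 ⟨Finset.mem_product.2 ⟨hm, hm'⟩, hne⟩
  have h1 : (V (m, m')).eval (t : ℤ) = 0 := by
    simp only [V, Polynomial.eval_finsetSum, Polynomial.eval_mul, Polynomial.eval_C,
      Polynomial.eval_pow, Polynomial.eval_X]
    have h2 : ((∑ b, t ^ (e b : ℕ) * m b : ℕ) : ℤ) = ((∑ b, t ^ (e b : ℕ) * m' b : ℕ) : ℤ) := by
      rw [heq]
    push_cast at h2
    calc ∑ b, ((m b : ℤ) - (m' b : ℤ)) * (t : ℤ) ^ (e b : ℕ)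
        = ∑ b, (t : ℤ) ^ (e b : ℕ) * (m b : ℤ) - ∑ b, (t : ℤ) ^ (e b : ℕ) * (m' b : ℤ) := by
          rw [← Finset.sum_sub_distrib]
          exact Finset.sum_congr rfl fun b _ => by ring
      _ = 0 := by rw [h2, sub_self]
  rw [Polynomial.eval_prod]
  exact Finset.prod_eq_zero hmem h1

theorem exists_grid {β : Type} [Fintype β] (a : MvPolynomial β ℤ) (ha : a ≠ 0) :
    ∃ (p : ℕ) (k : β → ℕ), p.Prime ∧ 2 < p ∧
      (∀ ζ ∈ primitiveRoots p ℂ, MvPolynomial.aeval (fun b => ζ ^ k b) a ≠ 0) ∧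
      ∀ a' : MvPolynomial β ℤ, a' ∣ a →
        0 ≤ ∑ ζ ∈ primitiveRoots p ℂ, Real.log ‖MvPolynomial.aeval (fun b => ζ ^ k b) a'‖ := by
  classical
  obtain ⟨k, hk⟩ := exists_weights a.support
  let φ : MvPolynomial β ℤ →ₐ[ℤ] Polynomial ℤ :=
    MvPolynomial.aeval (fun b => (Polynomial.X : Polynomial ℤ) ^ k b)
  have hφ : φ a ≠ 0 := by
    obtain ⟨m0, hm0⟩ := MvPolynomial.support_nonempty.2 ha
    have h1 : φ a = ∑ m ∈ a.support, Polynomial.C (a.coeff m) *
        Polynomial.X ^ (∑ b, k b * m b) := by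
      change MvPolynomial.eval₂ _ _ a = _
      rw [MvPolynomial.eval₂_eq']
      refine Finset.sum_congr rfl fun m _ => ?_
      congr 1
      rw [← Finset.prod_pow_eq_pow_sum]
      exact Finset.prod_congr rfl fun b _ => (pow_mul _ _ _).symm
    intro h0
    have h2 := congrArg (fun P : Polynomial ℤ => P.coeff (∑ b, k b * m0 b)) h0
    simp only [h1, Polynomial.finsetSum_coeff, Polynomial.coeff_C_mul_X_pow,
      Polynomial.coeff_zero] at h2
    rw [Finset.sum_eq_single m0] at h2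
    · rw [if_pos rfl] at h2
      exact (MvPolynomial.mem_support_iff.1 hm0) h2
    · intro m hm hne
      exact if_neg fun h3 => hne (hk m0 hm0 m hm h3).symm
    · intro h3
      exact absurd hm0 h3
  obtain ⟨p, hp1, hp⟩ := Nat.exists_infinite_primes ((φ a).natDegree + 3)
  have hcomp : ∀ (ζ : ℂ) (b : MvPolynomial β ℤ),
      MvPolynomial.aeval (fun i => ζ ^ k i) b = Polynomial.aeval ζ (φ b) := by
    intro ζ b
    have h1 : (MvPolynomial.aeval (fun i => ζ ^ k i) : MvPolynomial β ℤ →ₐ[ℤ] ℂ) =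
        (Polynomial.aeval ζ).comp φ := by
      refine MvPolynomial.algHom_ext fun i => ?_
      simp [φ]
    rw [h1]
    rfl
  refine ⟨p, k, hp, by omega, fun ζ hζ => ?_, fun a' ha' => ?_⟩
  · rw [hcomp]
    exact (sum_log_primitive (φ a) hφ p hp (by omega)).1 ζ hζ
  · have hdvd : φ a' ∣ φ a := map_dvd φ ha'
    have hne : φ a' ≠ 0 := fun h0 => hφ (by rw [h0] at hdvd; exact zero_dvd_iff.1 hdvd)
    have hdeg := Polynomial.natDegree_le_of_dvd hdvd hφ
    simp only [hcomp]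
    exact (sum_log_primitive (φ a') hne p hp (by omega)).2

end Pool.Agent.Zilber
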