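import Pool.Agent.CITLines.Rel

set_option autoImplicit false

/-! Core D, package J3: Laurent polynomial relations at specialisations.

`zb : Option β → ℂ` nonzero coordinates, `p : ι → ℂ`; `Sp p zb u z`: the point `(u, z)` satisfies all the polynomial relations over
`ℚ` of `(p, zb)` (it is a specialisation). `zt A z b = ∏ o, z o ^ A (some b) o`.

* `laurent`: if `P ∈ ℚ[β ⊕ Option β]` vanishes at `(zt A zb, zb)` then it vanishes at `(zt A z, z)` for every specialisation with nonzero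
  coordinates. PROOF. Let `M` be a natural number `≥ deg_b P * |A (some b) o|` for all `b, o`. Each monomial
  `∏ b (zt A z b) ^ m b * ∏ o z o ^ m' o` of `P`, multiplied by `∏ o, z o ^ (M * card β)`, is a monomial with natural exponents
  in `z` (`zt A z b ^ m b = ∏ o z o ^ (m b * A (some b) o)`, exponents `≥ -M`). So `(∏ o, z o ^ (M card β)) * P(zt A z, z) = Q(z)` with
  `Q ∈ ℚ[Option β]` for all `z` with nonzero coordinates, in particular for `zb`, and `Q(zb) = 0` implies `Q(z) = 0`.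
* `zt_indep`: if for every point `ζ` of the unit torus there is a specialisation with nonzero coordinates and `zt A z = ζ`, the
  `zt A zb b` are algebraically independent over `ℚ`: a relation `h` holds at all the points of the unit torus (`laurent`), an infinite
  set in each coordinate, so `h = 0` (`MvPolynomial.funext_set` over `ℂ`, `MvPolynomial.map_injective`). -/

namespace Pool.Agent.Zilber

open MvPolynomial Module Pool.Agent.CITLines

/-- `(u, z)` is a specialisation of `(p, zb)` over `ℚ`. -/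
def Sp {ι O : Type} (p : ι → ℂ) (zb : O → ℂ) (u : ι → ℂ) (z : O → ℂ) : Prop :=
  ∀ P : MvPolynomial (ι ⊕ O) ℚ, aeval (Sum.elim p zb) P = 0 → aeval (Sum.elim u z) P = 0

/-- The monomials of the rows `some b` of the matrix. -/
noncomputable def zt {β : Type} [Fintype β] (A : Matrix (Option β) (Option β) ℤ) (z : Option β → ℂ)
    (b : β) : ℂ := ∏ o, z o ^ A (some b) o

/-- Clearing the denominators of a Laurent polynomial. -/
private theorem clear {ι β : Type} [Fintype β] (A : Matrix (Option β) (Option β) ℤ)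
    (P : MvPolynomial (β ⊕ Option β) ℚ) :
    ∃ N : ℕ, ∀ n, N ≤ n → ∃ Q : MvPolynomial (ι ⊕ Option β) ℚ,
      ∀ (u : ι → ℂ) (z : Option β → ℂ), (∀ o, z o ≠ 0) →
        aeval (Sum.elim u z) Q = (∏ o, z o) ^ n * aeval (Sum.elim (zt A z) z) P := by
  classical
  induction P using MvPolynomial.induction_on with
  | C a =>
    refine ⟨0, fun n _ => ⟨C a * (∏ o, X (Sum.inr o)) ^ n, fun u z _ => ?_⟩⟩
    rw [map_mul, map_pow, map_prod]
    simp only [aeval_X, Sum.elim_inr]
    rw [algHom_C, algHom_C, mul_comm]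
  | add P₁ P₂ h₁ h₂ =>
    obtain ⟨N₁, h₁⟩ := h₁
    obtain ⟨N₂, h₂⟩ := h₂
    refine ⟨max N₁ N₂, fun n hn => ?_⟩
    obtain ⟨Q₁, h₁⟩ := h₁ n ((le_max_left _ _).trans hn)
    obtain ⟨Q₂, h₂⟩ := h₂ n ((le_max_right _ _).trans hn)
    refine ⟨Q₁ + Q₂, fun u z hz => ?_⟩
    rw [map_add, map_add, h₁ u z hz, h₂ u z hz, mul_add]
  | mul_X P x h =>
    obtain ⟨N, h⟩ := h
    rcases x with b | o
    · obtain ⟨K, hK⟩ : ∃ K : ℕ, ∀ o, 0 ≤ (K : ℤ) + A (some b) o := by
        refine ⟨∑ o, (A (some b) o).natAbs, fun o => ?_⟩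
        have h1 := Finset.single_le_sum (f := fun o => (A (some b) o).natAbs)
          (fun _ _ => Nat.zero_le _) (Finset.mem_univ o)
        have h2 : (A (some b) o).natAbs ≤ ∑ o, (A (some b) o).natAbs := h1
        omega
      refine ⟨N + K, fun n hn => ?_⟩
      obtain ⟨Q, hQ⟩ := h (n - K) (by omega)
      refine ⟨Q * ∏ o, X (Sum.inr o) ^ ((K : ℤ) + A (some b) o).toNat, fun u z hz => ?_⟩
      rw [map_mul, map_mul, hQ u z hz, map_prod]
      simp only [map_pow, aeval_X, Sum.elim_inr, Sum.elim_inl]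
      have h1 : ∏ o, z o ^ ((K : ℤ) + A (some b) o).toNat = (∏ o, z o) ^ K * zt A z b := by
        rw [zt, ← Finset.prod_pow, ← Finset.prod_mul_distrib]
        refine Finset.prod_congr rfl fun o _ => ?_
        rw [← zpow_natCast, Int.toNat_of_nonneg (hK o), zpow_add₀ (hz o), zpow_natCast]
      rw [h1]
      have h2 : (∏ o, z o) ^ n = (∏ o, z o) ^ (n - K) * (∏ o, z o) ^ K := by
        rw [← pow_add]
        congr 1
        omega
      rw [h2]
      ring
    · refine ⟨N, fun n hn => ?_⟩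
      obtain ⟨Q, hQ⟩ := h n hn
      refine ⟨Q * X (Sum.inr o), fun u z hz => ?_⟩
      rw [map_mul, map_mul, hQ u z hz, aeval_X, aeval_X, Sum.elim_inr, Sum.elim_inr, mul_assoc]

private theorem inf_circle : {z : ℂ | ‖z‖ = 1}.Infinite := by
  have hx : ∀ n : ℕ, (0 : ℝ) ≤ 1 - (1 / ((n : ℝ) + 1)) ^ 2 := by
    intro n
    have h1 : (1 : ℝ) / ((n : ℝ) + 1) ≤ 1 := by
      rw [div_le_one (by positivity)]
      have : (0 : ℝ) ≤ n := Nat.cast_nonneg n
      linarith
    have h2 : (0 : ℝ) ≤ 1 / ((n : ℝ) + 1) := by positivity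
    nlinarith
  refine Set.infinite_of_injective_forall_mem
    (f := fun n : ℕ => (⟨1 / ((n : ℝ) + 1), √(1 - (1 / ((n : ℝ) + 1)) ^ 2)⟩ : ℂ)) ?_ ?_
  · intro m n hmn
    have h1 := congrArg Complex.re hmn
    have h2 : (1 : ℝ) / ((m : ℝ) + 1) = 1 / ((n : ℝ) + 1) := h1
    have hm : ((m : ℝ) + 1) ≠ 0 := by positivity
    have hn : ((n : ℝ) + 1) ≠ 0 := by positivity
    rw [div_eq_div_iff hm hn] at h2
    have h3 : (m : ℝ) = n := by linarith
    exact_mod_cast h3
  · intro n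
    rw [Set.mem_ofPred_eq, Complex.norm_def, Complex.normSq_mk, Real.mul_self_sqrt (hx n)]
    have h1 : 1 / ((n : ℝ) + 1) * (1 / ((n : ℝ) + 1)) + (1 - (1 / ((n : ℝ) + 1)) ^ 2) = 1 := by
      ring
    rw [h1, Real.sqrt_one]

theorem laurent {ι β : Type} [Fintype ι] [Fintype β] (A : Matrix (Option β) (Option β) ℤ)
    (p : ι → ℂ) (zb : Option β → ℂ) (hzb : ∀ o, zb o ≠ 0) (u : ι → ℂ) (z : Option β → ℂ)
    (hz : ∀ o, z o ≠ 0) (hs : Sp p zb u z) (P : MvPolynomial (β ⊕ Option β) ℚ)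
    (hP : aeval (Sum.elim (zt A zb) zb) P = 0) : aeval (Sum.elim (zt A z) z) P = 0 := by
  obtain ⟨N, hN⟩ := clear (ι := ι) A P
  obtain ⟨Q, hQ⟩ := hN N le_rfl
  have h1 := hQ p zb hzb
  rw [hP, mul_zero] at h1
  have h2 := hs Q h1
  rw [hQ u z hz] at h2
  refine (mul_eq_zero.mp h2).resolve_left (pow_ne_zero _ (Finset.prod_ne_zero_iff.mpr ?_))
  intro o _
  exact hz o

theorem zt_indep {ι β : Type} [Fintype ι] [Fintype β] (A : Matrix (Option β) (Option β) ℤ)
    (p : ι → ℂ) (zb : Option β → ℂ) (hzb : ∀ o, zb o ≠ 0)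
    (h : ∀ ζ : β → ℂ, (∀ b, ‖ζ b‖ = 1) → ∃ (u : ι → ℂ) (z : Option β → ℂ), (∀ o, z o ≠ 0) ∧
      Sp p zb u z ∧ ∀ b, zt A z b = ζ b) :
    AlgebraicIndependent ℚ (zt A zb) := by
  classical
  rw [algebraicIndependent_iff]
  intro q hq
  have h1 : ∀ ζ : β → ℂ, (∀ b, ‖ζ b‖ = 1) → aeval ζ q = 0 := by
    intro ζ hζ
    obtain ⟨u, z, hz, hs, hzt⟩ := h ζ hζ
    have h2 := laurent A p zb hzb u z hz hs (rename Sum.inl q) (by
      rw [aeval_rename, Sum.elim_comp_inl]
      exact hq)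
    rw [aeval_rename, Sum.elim_comp_inl] at h2
    have h3 : zt A z = ζ := funext hzt
    rwa [h3] at h2
  have h4 : map (algebraMap ℚ ℂ) q = 0 := by
    refine funext_set (fun _ => {z : ℂ | ‖z‖ = 1}) (fun _ => inf_circle) fun ζ hζ => ?_
    rw [map_zero, eval_map]
    have h5 := h1 ζ fun b => hζ b (Set.mem_univ b)
    rw [aeval_def] at h5
    exact h5
  exact (map_injective _ (algebraMap ℚ ℂ).injective) (by rw [h4, map_zero])

end Pool.Agent.Zilber
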