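import Pool.Agent.LSharp.HCDefs

set_option autoImplicit false

/-! Core D, package J4: Jensen's formula at one point of the torus.

`F ∈ ℤ[T_o : o ∈ Option β]`, `F ≠ 0`, `P = optionEquivLeft ℤ β F ∈ ℤ[T_b : b ∈ β][X]`, `a = P.leadingCoeff`, `ζ` a point of the unit torus
with `a(ζ) ≠ 0`. Let `F_ζ = P.map (aeval ζ : ℤ[T_b] →+* ℂ) ∈ ℂ[X]`: its leading coefficient is `a(ζ)`
(`Polynomial.leadingCoeff_map_of_leadingCoeff_ne_zero`), and `F_ζ(x) = aeval (fun o => o.elim x ζ) F` for all `x`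
(`MvPolynomial.optionEquivLeft_apply`; both sides are ring homomorphisms of `F`, `MvPolynomial.induction_on`).
(1) `∑ coefficients ‖F_ζ‖ ≤ L1 F`: the coefficient `i` of `F_ζ` is the sum over the exponents `m` of `F` with `m none = i` of
`coeff m F * ζ ^ m'` (`MvPolynomial.optionEquivLeft_coeff_coeff`), and `‖ζ ^ m'‖ = 1`.
(2) `log M(F_ζ) ≤ log L1 F` for the Mahler measure: `Polynomial.mahlerMeasure_le_sum_norm_coeff`.
(3) `M(F_ζ) = ‖a(ζ)‖ * ∏ roots max 1 ‖root‖` (`Polynomial.mahlerMeasure_eq_leadingCoeff_mul_prod_roots`). `G ^ m ∣ F`, so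
`G_ζ ^ m ∣ F_ζ`, and every `x ∈ S` is a root of `G_ζ` (`≠ 0`, if `m > 0`, because `F_ζ ≠ 0`; if `m = 0` only `‖a(ζ)‖ ≤ M(F_ζ)` is needed:
`Polynomial.leadingCoeff_le_mahlerMeasure`), so it is a root of `F_ζ` of multiplicity `≥ m`. So
`∏ roots max 1 ‖root‖ ≥ ∏ x ∈ S, (exp Λ) ^ m` (the multiset `∑ x ∈ S, m • {x}` is `≤` the multiset of the roots
(`Multiset.le_iff_count`), and all the factors are `≥ 1`). Take logarithms. -/

namespace Pool.Agent.Zilber

open MvPolynomial Pool.Agent.LSharp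

/-- Specialisation of all variables but one. -/
private noncomputable def spO {β : Type} (ζ : β → ℂ) :
    MvPolynomial (Option β) ℤ →+* Polynomial ℂ :=
  (Polynomial.mapRingHom (aeval ζ : MvPolynomial β ℤ →ₐ[ℤ] ℂ).toRingHom).comp
    (optionEquivLeft ℤ β : MvPolynomial (Option β) ℤ ≃ₐ[ℤ] _).toRingEquiv.toRingHom

private theorem spO_apply {β : Type} (ζ : β → ℂ) (F : MvPolynomial (Option β) ℤ) :
    spO ζ F = (optionEquivLeft ℤ β F).map (aeval ζ : MvPolynomial β ℤ →ₐ[ℤ] ℂ).toRingHom := rfl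

private theorem spO_eval {β : Type} (ζ : β → ℂ) (F : MvPolynomial (Option β) ℤ) (x : ℂ) :
    (spO ζ F).eval x = aeval (fun o : Option β => o.elim x ζ) F := by
  have h : (Polynomial.evalRingHom x).comp (spO ζ) =
      (aeval (fun o : Option β => o.elim x ζ) : MvPolynomial (Option β) ℤ →ₐ[ℤ] ℂ).toRingHom := by
    refine MvPolynomial.ringHom_ext (fun r => ?_) fun o => ?_
    · simp [spO_apply]
    · cases o <;> simp [spO_apply]
  exact congrArg (fun φ => φ F) h

private theorem norm_aeval_monomial {β : Type} (ζ : β → ℂ) (hζ : ∀ b, ‖ζ b‖ = 1) (μ : β →₀ ℕ)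
    (r : ℤ) : ‖aeval ζ (monomial μ r)‖ = |(r : ℝ)| := by
  rw [aeval_monomial, norm_mul, Finsupp.prod, norm_prod, Finset.prod_eq_one, mul_one]
  · simp
  · intro b _
    rw [norm_pow, hζ, one_pow]

private theorem spO_sum {β : Type} (ζ : β → ℂ) (hζ : ∀ b, ‖ζ b‖ = 1)
    (F : MvPolynomial (Option β) ℤ) : ((spO ζ F).sum fun _ a => ‖a‖) ≤ L1 F := by
  have h1 : spO ζ F = ∑ m ∈ F.support, Polynomial.monomial (m none)
      (aeval ζ (monomial m.some (F.coeff m))) := by
    conv_lhs => rw [F.as_sum]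
    rw [map_sum]
    refine Finset.sum_congr rfl fun m _ => ?_
    rw [spO_apply, optionEquivLeft_monomial, Polynomial.map_monomial]
    rfl
  have h2 : ∀ i, ‖(spO ζ F).coeff i‖ ≤
      ∑ m ∈ F.support, if m none = i then |((F.coeff m : ℤ) : ℝ)| else 0 := by
    intro i
    rw [h1, Polynomial.finsetSum_coeff]
    refine (norm_sum_le _ _).trans (Finset.sum_le_sum fun m _ => ?_)
    rw [Polynomial.coeff_monomial]
    split_ifs
    · rw [norm_aeval_monomial ζ hζ]
    · simp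
  unfold Polynomial.sum
  refine (Finset.sum_le_sum fun i _ => h2 i).trans ?_
  rw [Finset.sum_comm]
  unfold L1
  refine Finset.sum_le_sum fun m _ => ?_
  rw [Finset.sum_ite_eq]
  split_ifs
  · exact le_rfl
  · exact abs_nonneg _

theorem jen_one {β : Type} [Fintype β] (F G : MvPolynomial (Option β) ℤ) (m : ℕ) (hdvd : G ^ m ∣ F)
    (ζ : β → ℂ) (hζ : ∀ b, ‖ζ b‖ = 1)
    (ha : aeval ζ (optionEquivLeft ℤ β F).leadingCoeff ≠ 0) (Λ : ℝ) (hΛ : 0 ≤ Λ) (S : Finset ℂ)
    (hS : ∀ x ∈ S, aeval (fun o : Option β => o.elim x ζ) G = 0 ∧ Real.exp Λ ≤ ‖x‖) :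
    Real.log ‖aeval ζ (optionEquivLeft ℤ β F).leadingCoeff‖ + m * S.card * Λ ≤
      Real.log (L1 F) := by
  classical
  set a : ℂ := aeval ζ (optionEquivLeft ℤ β F).leadingCoeff with hadef
  have hlc : (spO ζ F).leadingCoeff = a := by
    rw [spO_apply, Polynomial.leadingCoeff_map_of_leadingCoeff_ne_zero]
    · rfl
    · exact ha
  have hF0 : spO ζ F ≠ 0 := by
    intro h
    rw [h, Polynomial.leadingCoeff_zero] at hlc
    exact ha hlc.symm
  -- the multiset of the roots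
  have hle : m • S.val ≤ (spO ζ F).roots := by
    rcases Nat.eq_zero_or_pos m with rfl | hm
    · rw [zero_smul]
      exact Multiset.zero_le _
    have hG : (spO ζ G) ^ m ∣ spO ζ F := by
      rw [← map_pow]
      exact map_dvd _ hdvd
    have hG0 : spO ζ G ≠ 0 := by
      intro h
      rw [h, zero_pow hm.ne'] at hG
      exact hF0 (zero_dvd_iff.1 hG)
    refine le_trans ?_ (Polynomial.roots.le_of_dvd hF0 hG)
    rw [Polynomial.roots_pow]
    refine nsmul_le_nsmul_right ?_ m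
    rw [Multiset.le_iff_subset S.nodup]
    intro x hx
    rw [Polynomial.mem_roots hG0, Polynomial.IsRoot.def, spO_eval]
    exact (hS x hx).1
  obtain ⟨R, hR⟩ := Multiset.le_iff_exists_add.1 hle
  have hR1 : 1 ≤ (R.map fun x => max 1 ‖x‖).prod := by
    refine Multiset.one_le_prod ?_
    intro y hy
    obtain ⟨x, -, rfl⟩ := Multiset.mem_map.1 hy
    exact le_max_left _ _
  have hS1 : Real.exp (S.card * Λ) ≤ (S.val.map fun x => max 1 ‖x‖).prod := by
    have h1 : (S.val.map fun x => max 1 ‖x‖).prod = ∏ x ∈ S, max 1 ‖x‖ := rfl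
    rw [h1, ← nsmul_eq_mul, Real.exp_nsmul, ← Finset.prod_const]
    refine Finset.prod_le_prod (fun x _ => (Real.exp_pos _).le) fun x hx => ?_
    exact (hS x hx).2.trans (le_max_right _ _)
  have hM : ‖a‖ * Real.exp (m * S.card * Λ) ≤ (spO ζ F).mahlerMeasure := by
    rw [Polynomial.mahlerMeasure_eq_leadingCoeff_mul_prod_roots, hlc, hR, Multiset.map_add,
      Multiset.prod_add, Multiset.map_nsmul, Multiset.prod_nsmul]
    refine mul_le_mul_of_nonneg_left ?_ (norm_nonneg a)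
    have h1 : Real.exp (m * S.card * Λ) = Real.exp (S.card * Λ) ^ m := by
      rw [← Real.exp_nsmul, nsmul_eq_mul, mul_assoc]
    rw [h1]
    have h2 : Real.exp (S.card * Λ) ^ m ≤ (S.val.map fun x => max 1 ‖x‖).prod ^ m :=
      pow_le_pow_left₀ (Real.exp_pos _).le hS1 m
    refine h2.trans ?_
    exact le_mul_of_one_le_right (le_trans (pow_pos (Real.exp_pos _) m).le h2) hR1
  have hfin := (hM.trans (Polynomial.mahlerMeasure_le_sum_norm_coeff _)).trans (spO_sum ζ hζ F)
  have hapos : 0 < ‖a‖ := norm_pos_iff.2 ha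
  have h3 := Real.log_le_log (mul_pos hapos (Real.exp_pos _)) hfin
  rwa [Real.log_mul hapos.ne' (Real.exp_pos _).ne', Real.log_exp] at h3

end Pool.Agent.Zilber
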