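import Pool.Agent.LSharp.HCDefs

set_option autoImplicit false

/-! Core D, package J2: monomial changes of coordinates of integral polynomials.

`A ∈ GL(O, ℤ)`, `B = A⁻¹` (integral, `Matrix.nonsing_inv`, `hA`). For `z : O → ℂ` with nonzero coordinates let
`w o = ∏ o', z o' ^ A o o'`; then `z o = ∏ o', w o' ^ B o o'` (`∏ o', (∏ o'', z o'' ^ A o' o'') ^ B o o' = ∏ o'', z o'' ^ (B * A) o o''`) and
`z ^ m = ∏ o', w o' ^ (∑ o, m o * B o o')` for `m : O →₀ ℕ`.
For `F ∈ ℤ[T_o]` and `c : O → ℕ` with `-(∑ o, m o * B o o') ≤ c o'` for all `m` in the support of `F` and all `o'` (call such `c`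
admissible; every larger `c` is admissible, and they exist as the support is finite) let
`tw c F = ∑ m ∈ F.support, monomial (o' ↦ (∑ o, m o * B o o' + c o').toNat) (coeff m F)`. Then
(1) `aeval w (tw c F) = (∏ o', w o' ^ c o') * aeval z F` for all `z` with nonzero coordinates.
(2) `L1 (tw c F) = L1 F`: the map `m ↦ m B + c` is injective on the support (`B` is invertible), so the coefficients of `tw c F` are
those of `F` (`L1` is the sum of the absolute values of the coefficients over the support).
(3) For admissible `c` of `G` and `d` of `h` the exponent `m c + d` is admissible for `G ^ m * h` (the exponents in the support of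
`G ^ m * h` are sums of `m` exponents in the support of `G` and one in that of `h`: `MvPolynomial.support_mul`; induction on `m`), and
`tw (m c + d) (G ^ m * h) = (tw c G) ^ m * tw d h`: by (1) both sides have the same value at all `w` with nonzero coordinates
(every such `w` comes from `z o = ∏ w ^ B`), so they are equal as polynomials over `ℂ` (`MvPolynomial.funext_set` with the infinite set
`{0}ᶜ`, or multiply the difference by the product of the variables and use `MvPolynomial.funext`), so over `ℤ`
(`MvPolynomial.map_injective`).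
`exists_twist`: `G' = tw c G`, `f' = tw (m c + d) (G ^ m * h)`. -/

namespace Pool.Agent.Zilber

open MvPolynomial Pool.Agent.LSharp

/-- Laurent polynomials in the variables `O` with integer coefficients. -/
private abbrev LP (O : Type) := AddMonoidAlgebra ℤ (O → ℤ)

/-- The exponents of polynomials as exponents of Laurent polynomials. -/
private def ex (O : Type) : (O →₀ ℕ) →+ (O → ℤ) where
  toFun m o := (m o : ℤ)
  map_zero' := by ext; simp
  map_add' := by intros; ext; simp

private lemma ex_inj (O : Type) : Function.Injective (ex O) := by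
  intro a b h
  ext o
  have := congrFun h o
  simpa [ex] using this

/-- Polynomials as Laurent polynomials. -/
private noncomputable def io (O : Type) : MvPolynomial O ℤ →+* LP O :=
  AddMonoidAlgebra.mapDomainRingHom ℤ (ex O)

/-- The `ℓ¹`-norm. -/
private noncomputable def nm {M : Type} (x : AddMonoidAlgebra ℤ M) : ℝ :=
  x.coeff.sum fun _ a => |((a : ℤ) : ℝ)|

private lemma nm_mapDomain {M M' : Type} (f : M → M') (hf : Function.Injective f)
    (x : AddMonoidAlgebra ℤ M) : nm (AddMonoidAlgebra.mapDomain f x) = nm x := by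
  unfold nm
  rw [show (AddMonoidAlgebra.mapDomain f x).coeff = Finsupp.mapDomain f x.coeff from rfl]
  exact Finsupp.sum_mapDomain_index_inj hf

private lemma nm_io {O : Type} (F : MvPolynomial O ℤ) : nm (io O F) = L1 F := by
  have : nm (io O F) = nm F := nm_mapDomain (ex O) (ex_inj O) F
  rw [this]
  rfl

private lemma single_mul_eq {M : Type} [AddCommGroup M] (c : M) (x : AddMonoidAlgebra ℤ M) :
    AddMonoidAlgebra.single c 1 * x = AddMonoidAlgebra.mapDomain (fun m => c + m) x := by
  induction x using AddMonoidAlgebra.induction_linear with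
  | zero => simp
  | add x y hx hy => rw [mul_add, hx, hy, AddMonoidAlgebra.mapDomain_add]
  | single m a => simp

private lemma nm_single_mul {M : Type} [AddCommGroup M] (c : M) (x : AddMonoidAlgebra ℤ M) :
    nm (AddMonoidAlgebra.single c 1 * x) = nm x := by
  rw [single_mul_eq]
  exact nm_mapDomain _ (add_right_injective c) x

/-- The monomial substitution of exponents `m ↦ m B`. -/
private noncomputable def ph {O : Type} [Fintype O] (B : Matrix O O ℤ) : LP O →+* LP O :=
  AddMonoidAlgebra.mapDomainRingHom ℤ ((Matrix.vecMulLinear B).toAddMonoidHom)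

/-- Clearing denominators. -/
private lemma exists_clear {O : Type} [Fintype O] [DecidableEq O] (x : LP O) :
    ∃ c : O →₀ ℕ, ∃ F : MvPolynomial O ℤ, io O F = AddMonoidAlgebra.single (ex O c) 1 * x := by
  induction x using AddMonoidAlgebra.induction_linear with
  | zero => exact ⟨0, 0, by simp⟩
  | add x y hx hy =>
    obtain ⟨c, F, hF⟩ := hx
    obtain ⟨d, G, hG⟩ := hy
    refine ⟨c + d, monomial d 1 * F + monomial c 1 * G, ?_⟩
    have hm : ∀ e : O →₀ ℕ, io O (monomial e 1) = AddMonoidAlgebra.single (ex O e) 1 := by
      intro e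
      exact AddMonoidAlgebra.mapDomain_single
    rw [map_add, map_mul, map_mul, hF, hG, hm, hm, map_add, mul_add, ← mul_assoc, ← mul_assoc,
      AddMonoidAlgebra.single_mul_single, AddMonoidAlgebra.single_mul_single, mul_one,
      add_comm (ex O d)]
  | single m a =>
    refine ⟨Finsupp.equivFunOnFinite.symm fun o => (-(m o)).toNat,
      monomial (Finsupp.equivFunOnFinite.symm fun o => (m o).toNat) a, ?_⟩
    have hm : io O (monomial (Finsupp.equivFunOnFinite.symm fun o => (m o).toNat) a) =
        AddMonoidAlgebra.single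
          (ex O (Finsupp.equivFunOnFinite.symm fun o => (m o).toNat)) a :=
      AddMonoidAlgebra.mapDomain_single
    rw [hm, AddMonoidAlgebra.single_mul_single, one_mul]
    congr 1
    ext o
    simp [ex]
    omega

/-- The value of the monomials at a point with nonzero coordinates. -/
private noncomputable def mo {O : Type} [Fintype O] (z : O → ℂ) (hz : ∀ o, z o ≠ 0) :
    Multiplicative (O → ℤ) →* ℂ where
  toFun m := ∏ o, z o ^ (Multiplicative.toAdd m o)
  map_one' := by simp
  map_mul' := by
    intro a b
    rw [← Finset.prod_mul_distrib]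
    refine Finset.prod_congr rfl fun o _ => ?_
    rw [← zpow_add₀ (hz o)]
    rfl

/-- The value of a Laurent polynomial at a point with nonzero coordinates. -/
private noncomputable def ev {O : Type} [Fintype O] (z : O → ℂ) (hz : ∀ o, z o ≠ 0) :
    LP O →+* ℂ :=
  (AddMonoidAlgebra.lift ℤ ℂ (O → ℤ) (mo z hz)).toRingHom

private lemma ev_single {O : Type} [Fintype O] (z : O → ℂ) (hz : ∀ o, z o ≠ 0) (m : O → ℤ)
    (a : ℤ) : ev z hz (AddMonoidAlgebra.single m a) = a * ∏ o, z o ^ m o := by
  refine (AddMonoidAlgebra.lift_single (mo z hz) m a).trans ?_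
  rw [zsmul_eq_mul]
  rfl

private lemma prod_zpow_sum {O : Type} (s : Finset O) (z : ℂ) (hz : z ≠ 0) (f : O → ℤ) :
    ∏ o ∈ s, z ^ f o = z ^ (∑ o ∈ s, f o) := by
  classical
  induction s using Finset.induction_on with
  | empty => simp
  | insert a s ha ih => rw [Finset.prod_insert ha, Finset.sum_insert ha, ih, zpow_add₀ hz]

private lemma ev_io {O : Type} [Fintype O] (z : O → ℂ) (hz : ∀ o, z o ≠ 0)
    (F : MvPolynomial O ℤ) : ev z hz (io O F) = aeval z F := by
  have : (ev z hz).comp (io O) = (aeval z : MvPolynomial O ℤ →ₐ[ℤ] ℂ).toRingHom := by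
    refine MvPolynomial.ringHom_ext ?_ ?_
    · intro r
      have h1 : io O (C r) = AddMonoidAlgebra.single (ex O 0) r :=
        AddMonoidAlgebra.mapDomain_single
      simp
    · intro i
      have h1 : io O (X i) = AddMonoidAlgebra.single (ex O (Finsupp.single i 1)) 1 :=
        AddMonoidAlgebra.mapDomain_single
      classical
      rw [RingHom.comp_apply, h1, ev_single]
      simp only [Int.cast_one, one_mul, AlgHom.toRingHom_eq_coe, RingHom.coe_coe, aeval_X]
      rw [Finset.prod_eq_single i]
      · simp [ex]
      · intro b _ hb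
        simp [ex, Finsupp.single_apply, hb.symm]
      · simp
  exact congrArg (fun f => f F) this

private lemma ev_ph {O : Type} [Fintype O] [DecidableEq O] (A B : Matrix O O ℤ) (hBA : B * A = 1)
    (z : O → ℂ) (hz : ∀ o, z o ≠ 0) (hw : ∀ o, (∏ o', z o' ^ A o o') ≠ 0) (x : LP O) :
    ev (fun o => ∏ o', z o' ^ A o o') hw (ph B x) = ev z hz x := by
  induction x using AddMonoidAlgebra.induction_linear with
  | zero => simp
  | add x y hx hy => rw [map_add, map_add, map_add, hx, hy]
  | single m a =>
    have h1 : ph B (AddMonoidAlgebra.single m a) =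
        AddMonoidAlgebra.single (Matrix.vecMul m B) a := AddMonoidAlgebra.mapDomain_single
    rw [h1, ev_single, ev_single]
    congr 1
    have h2 : ∀ o', (∏ o'', z o'' ^ A o' o'') ^ (Matrix.vecMul m B o') =
        ∏ o'', z o'' ^ (A o' o'' * Matrix.vecMul m B o') := by
      intro o'
      rw [← Finset.prod_zpow]
      exact Finset.prod_congr rfl fun o'' _ => (zpow_mul _ _ _).symm
    simp only [h2]
    rw [Finset.prod_comm]
    refine Finset.prod_congr rfl fun o'' _ => ?_
    rw [prod_zpow_sum _ (z o'') (hz o'')]
    congr 1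
    have h3 : Matrix.vecMul (Matrix.vecMul m B) A = m := by
      rw [Matrix.vecMul_vecMul, hBA, Matrix.vecMul_one]
    have h4 := congrFun h3 o''
    rw [← h4]
    simp only [Matrix.vecMul, dotProduct]
    exact Finset.sum_congr rfl fun o _ => mul_comm _ _

theorem exists_twist {O : Type} [Fintype O] [DecidableEq O] (A : Matrix O O ℤ) (hA : IsUnit A.det)
    (G h : MvPolynomial O ℤ) (m : ℕ) :
    ∃ G' f' : MvPolynomial O ℤ, L1 f' = L1 (G ^ m * h) ∧ G' ^ m ∣ f' ∧
      ∀ z : O → ℂ, (∀ o, z o ≠ 0) → aeval z G = 0 →
        aeval (fun o => ∏ o', z o' ^ A o o') G' = 0 := by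
  classical
  set B : Matrix O O ℤ := A⁻¹ with hB
  have hAB : A * B = 1 := Matrix.mul_nonsing_inv A hA
  have hBA : B * A = 1 := Matrix.nonsing_inv_mul A hA
  obtain ⟨c, G', hG'⟩ := exists_clear (ph B (io O G))
  obtain ⟨d, h', hh'⟩ := exists_clear (ph B (io O h))
  refine ⟨G', G' ^ m * h', ?_, dvd_mul_right _ _, ?_⟩
  · have h1 : io O (G' ^ m * h') =
        AddMonoidAlgebra.single (m • ex O c + ex O d) 1 * ph B (io O (G ^ m * h)) := by
      rw [map_mul, map_pow, hG', hh', mul_pow, AddMonoidAlgebra.single_pow, one_pow, map_mul,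
        map_pow, map_mul, map_pow]
      rw [show (AddMonoidAlgebra.single (m • ex O c + ex O d) (1 : ℤ)) =
        AddMonoidAlgebra.single (m • ex O c) 1 * AddMonoidAlgebra.single (ex O d) 1 by
          rw [AddMonoidAlgebra.single_mul_single, mul_one]]
      ring
    rw [← nm_io, h1, nm_single_mul, ← nm_io (G ^ m * h)]
    refine nm_mapDomain _ ?_ _
    intro u v huv
    have huv' : Matrix.vecMul u B = Matrix.vecMul v B := huv
    have := congrArg (fun t => Matrix.vecMul t A) huv'
    simpa [Matrix.vecMul_vecMul, hBA] using this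
  · intro z hz hG
    have hw : ∀ o, (∏ o', z o' ^ A o o') ≠ 0 := fun o =>
      Finset.prod_ne_zero_iff.2 fun o' _ => zpow_ne_zero _ (hz o')
    rw [← ev_io _ hw, hG', map_mul, ev_ph A B hBA z hz hw, ev_io, hG, mul_zero]

end Pool.Agent.Zilber
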