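import Pool.Agent.Zilber.DJGrid
import Pool.Agent.Zilber.DJTwist
import Pool.Agent.Zilber.DJOne
import Pool.Agent.Zilber.DJFib

set_option autoImplicit false

/-! Core D, G3: Jensen's formula on a grid of roots of unity. -/

namespace Pool.Agent.Zilber

open MvPolynomial Module Pool.Agent.LSharp Pool.Agent.CITLines

private theorem one_le_L1 {σ : Type} {F : MvPolynomial σ ℤ} (h : F ≠ 0) : 1 ≤ L1 F := by
  obtain ⟨m, hm⟩ := MvPolynomial.ne_zero_iff.1 h
  have h1 : (1 : ℝ) ≤ |((F.coeff m : ℤ) : ℝ)| := by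
    have h2 : 1 ≤ |F.coeff m| := Int.one_le_abs hm
    exact_mod_cast h2
  exact h1.trans (Finset.single_le_sum (f := fun i => |((F.coeff i : ℤ) : ℝ)|)
    (fun _ _ => abs_nonneg _) (MvPolynomial.mem_support_iff.2 hm))

private theorem prod_zpow_sum {O : Type} {y : ℂ} (hy : y ≠ 0) (s : Finset O) (f : O → ℤ) :
    ∏ o ∈ s, y ^ f o = y ^ ∑ o ∈ s, f o := by
  classical
  induction s using Finset.induction_on with
  | empty => simp
  | insert a s ha ih => rw [Finset.prod_insert ha, Finset.sum_insert ha, zpow_add₀ hy, ih]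

/-- A point is determined by its monomials. -/
private theorem eq_of_mon {O : Type} [Fintype O] [DecidableEq O] (A : Matrix O O ℤ)
    (hA : IsUnit A.det) (z z' : O → ℂ) (hz : ∀ o, z o ≠ 0) (hz' : ∀ o, z' o ≠ 0)
    (h : ∀ o, ∏ o', z o' ^ A o o' = ∏ o', z' o' ^ A o o') : z = z' := by
  have key : ∀ y : O → ℂ, (∀ o, y o ≠ 0) → ∀ o,
      y o = ∏ o', (∏ o'', y o'' ^ A o' o'') ^ (A⁻¹) o o' := by
    intro y hy o
    have h1 : ∏ o', (∏ o'', y o'' ^ A o' o'') ^ (A⁻¹) o o' =
        ∏ o'', y o'' ^ ((A⁻¹ * A) o o'') := by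
      calc ∏ o', (∏ o'', y o'' ^ A o' o'') ^ (A⁻¹) o o'
          = ∏ o', ∏ o'', y o'' ^ (A⁻¹ o o' * A o' o'') := by
            refine Finset.prod_congr rfl fun o' _ => ?_
            rw [← Finset.prod_zpow]
            refine Finset.prod_congr rfl fun o'' _ => ?_
            rw [← zpow_mul, mul_comm]
        _ = ∏ o'', ∏ o', y o'' ^ (A⁻¹ o o' * A o' o'') := Finset.prod_comm
        _ = ∏ o'', y o'' ^ ((A⁻¹ * A) o o'') := by
            refine Finset.prod_congr rfl fun o'' _ => ?_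
            rw [Matrix.mul_apply]
            exact prod_zpow_sum (hy o'') _ _
    rw [h1, Matrix.nonsing_inv_mul _ hA, Finset.prod_eq_single o]
    · rw [Matrix.one_apply_eq, zpow_one]
    · intro o' _ ho'
      rw [Matrix.one_apply_ne ho'.symm, zpow_zero]
    · intro h0
      exact absurd (Finset.mem_univ o) h0
  funext o
  rw [key z hz o, key z' hz' o]
  refine Finset.prod_congr rfl fun o' _ => ?_
  rw [h o']

/-- **Jensen on a torsion grid.** -/
theorem jen {ι β : Type} [Fintype ι] [Fintype β] [DecidableEq β] (p : ι → ℂ)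
    (zb : Option β → ℂ) (hzb : ∀ o, zb o ≠ 0) (hrk : rk ℚ (Set.range zb) = Fintype.card β)
    (hp : ∀ i, IsAlgebraic (Subfield.closure (Set.range zb)) (p i))
    (G fb : MvPolynomial (Option β) ℤ) (hG : Irreducible G) (hG0 : aeval zb G = 0) (m : ℕ)
    (hdvd : G ^ m ∣ fb) (hfb : fb ≠ 0) (A : Matrix (Option β) (Option β) ℤ) (hA : IsUnit A.det)
    (N Λ : ℝ) (hN : 0 ≤ N) (hΛ : 0 ≤ Λ)
    (hpts : ∀ ζ : β → ℂ, (∀ b, ‖ζ b‖ = 1) → ∃ T : Finset (ι → ℂ), N ≤ T.card ∧ ∀ u ∈ T,
      ∃ z : Option β → ℂ, (∀ o, z o ≠ 0) ∧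
        (∀ P : MvPolynomial (ι ⊕ Option β) ℚ, aeval (Sum.elim p zb) P = 0 →
          aeval (Sum.elim u z) P = 0) ∧
        (∀ b, ∏ o, z o ^ A (some b) o = ζ b) ∧ Real.exp Λ ≤ ‖∏ o, z o ^ A none o‖) :
    m * N * Λ ≤ (Subfield.closure (Set.range zb)).relfinrank
      (Subfield.closure (Set.range zb ∪ Set.range p)) * Real.log (L1 fb) := by
  classical
  set e : ℕ := (Subfield.closure (Set.range zb)).relfinrank
      (Subfield.closure (Set.range zb ∪ Set.range p)) with he
  have hlog : 0 ≤ Real.log (L1 fb) := Real.log_nonneg (one_le_L1 hfb)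
  rcases hN.eq_or_lt with hN0 | hNpos
  · rw [← hN0, mul_zero, zero_mul]
    positivity
  have hone : ∀ ζ : β → ℂ, (∀ b, ‖ζ b‖ = 1) → ∃ (u : ι → ℂ) (z : Option β → ℂ),
      (∀ o, z o ≠ 0) ∧ Sp p zb u z ∧ ∀ b, zt A z b = ζ b := by
    intro ζ hζ
    obtain ⟨T, hT, hT1⟩ := hpts ζ hζ
    have h1 : (0 : ℝ) < T.card := lt_of_lt_of_le hNpos hT
    have h2 : 0 < T.card := by exact_mod_cast h1
    obtain ⟨u, hu⟩ := Finset.card_pos.1 h2
    obtain ⟨z, hz, hz1, hz2, -⟩ := hT1 u hu
    exact ⟨u, z, hz, hz1, hz2⟩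
  have hind := zt_indep A p zb hzb hone
  obtain ⟨h0, hh0, hfib⟩ := exists_fib A p zb hzb hrk hp hind
  obtain ⟨h, hh⟩ := hdvd
  obtain ⟨G', f', hL1, hdvd', hvan⟩ := exists_twist A hA G h m
  rw [← hh] at hL1
  have hf' : f' ≠ 0 := by
    rintro rfl
    have h1 := one_le_L1 hfb
    rw [← hL1] at h1
    unfold L1 at h1
    rw [MvPolynomial.support_zero, Finset.sum_empty] at h1
    linarith
  set a : MvPolynomial β ℤ := (optionEquivLeft ℤ β f').leadingCoeff with ha
  have ha0 : a ≠ 0 := by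
    rw [ha, Ne, Polynomial.leadingCoeff_eq_zero]
    intro h1
    exact hf' ((map_eq_zero_iff _ (optionEquivLeft ℤ β).injective).1 h1)
  obtain ⟨p', k, hp', hp2, hne, hsum⟩ := exists_grid (a * h0) (mul_ne_zero ha0 hh0)
  have hcard : 0 < (primitiveRoots p' ℂ).card := by
    rw [Complex.card_primitiveRoots, Nat.totient_prime hp']
    omega
  -- the inequality at one point
  have hpt : ∀ ζ0 ∈ primitiveRoots p' ℂ,
      e * Real.log ‖aeval (fun b => ζ0 ^ k b) a‖ + m * N * Λ ≤ e * Real.log (L1 fb) := by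
    intro ζ0 hζ0
    have hprim : IsPrimitiveRoot ζ0 p' := (mem_primitiveRoots hp'.pos).1 hζ0
    set ζ : β → ℂ := fun b => ζ0 ^ k b with hζ
    have hζ1 : ∀ b, ‖ζ b‖ = 1 := by
      intro b
      rw [hζ]
      change ‖ζ0 ^ k b‖ = 1
      rw [norm_pow, hprim.norm'_eq_one hp'.ne_zero, one_pow]
    have h1 := hne ζ0 hζ0
    rw [map_mul] at h1
    have haζ : aeval ζ a ≠ 0 := left_ne_zero_of_mul h1
    have hhζ : aeval ζ h0 ≠ 0 := right_ne_zero_of_mul h1
    obtain ⟨T, hT, hT1⟩ := hpts ζ hζ1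
    have hT2 : ∀ u : T, ∃ z : Option β → ℂ, (∀ o, z o ≠ 0) ∧ Sp p zb u z ∧
        (∀ b, zt A z b = ζ b) ∧ Real.exp Λ ≤ ‖∏ o, z o ^ A none o‖ := fun u => hT1 u.1 u.2
    choose zz hzz hsp hzt hbig using hT2
    let x : T → ℂ := fun u => ∏ o, zz u o ^ A none o
    let S : Finset ℂ := Finset.univ.image x
    -- values in all coordinates
    have hval : ∀ u : T, (fun o => ∏ o', zz u o' ^ A o o') = fun o : Option β => o.elim (x u) ζ := by
      intro u
      funext o
      cases o with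
      | none => rfl
      | some b => exact hzt u b
    have hS : ∀ y ∈ S, aeval (fun o : Option β => o.elim y ζ) G' = 0 ∧ Real.exp Λ ≤ ‖y‖ := by
      intro y hy
      obtain ⟨u, -, rfl⟩ := Finset.mem_image.1 hy
      refine ⟨?_, hbig u⟩
      rw [← hval u]
      refine hvan (zz u) (hzz u) ?_
      have h2 := hsp u (rename Sum.inr (MvPolynomial.map (Int.castRingHom ℚ) G)) (by
        rw [aeval_rename]
        have h3 : (Sum.elim p zb) ∘ Sum.inr = zb := by
          funext o
          rfl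
        rw [h3, ← hG0]
        exact aeval_map_algebraMap ℚ zb G)
      rw [aeval_rename] at h2
      have h3 : (Sum.elim u.1 (zz u)) ∘ Sum.inr = zz u := by
        funext o
        rfl
      rw [h3] at h2
      rw [← h2]
      exact (aeval_map_algebraMap ℚ (zz u) G).symm
    -- fibres
    have hfibre : ∀ y ∈ S, (Finset.univ.filter fun u : T => x u = y).card ≤ e := by
      intro y hy
      obtain ⟨u0, -, hu0⟩ := Finset.mem_image.1 hy
      have h2 := hfib (zz u0) (hzz u0) (by
        have h3 : zt A (zz u0) = ζ := funext (hzt u0)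
        rw [h3]
        exact hhζ) ((Finset.univ.filter fun u : T => x u = y).image Subtype.val) (by
          intro u hu
          obtain ⟨w, hw, rfl⟩ := Finset.mem_image.1 hu
          have hw1 : x w = y := (Finset.mem_filter.1 hw).2
          have h4 : zz w = zz u0 := by
            refine eq_of_mon A hA _ _ (hzz w) (hzz u0) fun o => ?_
            have h5 : ∏ o', zz w o' ^ A o o' = o.elim (x w) ζ := congrFun (hval w) o
            have h6 : ∏ o', zz u0 o' ^ A o o' = o.elim (x u0) ζ := congrFun (hval u0) o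
            rw [h5, h6, hw1, hu0]
          rw [← h4]
          exact hsp w)
      rwa [Finset.card_image_of_injective _ Subtype.val_injective] at h2
    have hTS : (T.card : ℝ) ≤ e * S.card := by
      have h2 := Finset.card_le_mul_card_image (f := x) (Finset.univ : Finset T) e
        (fun y hy => hfibre y hy)
      rw [Finset.card_univ, Fintype.card_coe] at h2
      exact_mod_cast h2
    have h3 := jen_one f' G' m hdvd' ζ hζ1 haζ Λ hΛ S hS
    rw [hL1] at h3
    have h4 : (0 : ℝ) ≤ e := Nat.cast_nonneg _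
    have h5 : m * N * Λ ≤ m * (e * S.card) * Λ := by
      refine mul_le_mul_of_nonneg_right ?_ hΛ
      exact mul_le_mul_of_nonneg_left (hT.trans hTS) (Nat.cast_nonneg _)
    have h6 := mul_le_mul_of_nonneg_left h3 h4
    calc e * Real.log ‖aeval ζ a‖ + m * N * Λ
        ≤ e * Real.log ‖aeval ζ a‖ + m * (e * S.card) * Λ := by linarith
      _ = e * (Real.log ‖aeval ζ a‖ + m * S.card * Λ) := by ring
      _ ≤ e * Real.log (L1 fb) := h6
  have h1 := Finset.sum_le_sum hpt
  rw [Finset.sum_add_distrib, ← Finset.mul_sum, Finset.sum_const, Finset.sum_const,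
    nsmul_eq_mul, nsmul_eq_mul] at h1
  have h2 := hsum a (dvd_mul_right a h0)
  have h3 : (0 : ℝ) ≤ e * ∑ ζ ∈ primitiveRoots p' ℂ, Real.log ‖aeval (fun b => ζ ^ k b) a‖ :=
    mul_nonneg (Nat.cast_nonneg _) h2
  have h4 : (0 : ℝ) < (primitiveRoots p' ℂ).card := by exact_mod_cast hcard
  have h5 : ((primitiveRoots p' ℂ).card : ℝ) * (m * N * Λ) ≤
      (primitiveRoots p' ℂ).card * (e * Real.log (L1 fb)) := by linarith
  exact le_of_mul_le_mul_left h5 h4

end Pool.Agent.Zilber
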