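import Pool.Agent.Zilber.TSW
import Pool.Agent.LSharp.TSVal

set_option autoImplicit false

/-! Core D, linear algebra (d_lin): monomials with independent values are algebraically
independent. -/

namespace Pool.Agent.Zilber

open Filter NumberField Module Pool.Agent.LAll Pool.Agent.LSharp Pool.Agent.CITLines

variable {J : Type} {𝒰 : Ultrafilter J} {K : J → Type} [∀ j, Field (K j)] [∀ j, NumberField (K j)]
  {k : ℕ} {s : Fin (k + 1) → J → ℝ} {F : Fin (k + 1) → Subfield (Ult 𝒰 K)} {ι β : Type} [Fintype ι]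
  [Fintype β] [DecidableEq β] {cl : ι → Fin (k + 1)} {x : ι → Ult 𝒰 K} {bs : β → ι}
  {X : ι → Ult 𝒰 (PS β K)}

private theorem zpow_split {E : Type} [Field E] {z : E} (hz : z ≠ 0) (n : ℤ) :
    z ^ n * z ^ (-n).toNat = z ^ n.toNat := by
  rw [← zpow_natCast, ← zpow_natCast, ← zpow_add₀ hz]
  congr 1
  omega

private theorem mon_split {E : Type} [Field E] {z : ι → E} (hz : ∀ i, z i ≠ 0) (n : ι → ℤ) :
    mon z n * ∏ i, z i ^ (-(n i)).toNat = ∏ i, z i ^ (n i).toNat := by
  unfold mon
  rw [← Finset.prod_mul_distrib]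
  exact Finset.prod_congr rfl fun i _ => zpow_split (hz i) (n i)

private theorem eq_mon {E : Type} [Field E] {z : ι → E} (hz : ∀ i, z i ≠ 0) (n : ι → ℤ) {t : E}
    (h : t * ∏ i, z i ^ (-(n i)).toNat = ∏ i, z i ^ (n i).toNat) : t = mon z n := by
  rw [← mon_split hz n] at h
  exact mul_right_cancel₀ (Finset.prod_ne_zero_iff.2 fun i _ => pow_ne_zero _ (hz i)) h

private theorem map_mon {E E' : Type} [Field E] [Field E'] (φ : E →+* E') (z : ι → E)
    (n : ι → ℤ) : φ (mon z n) = mon (fun i => φ (z i)) n := by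
  unfold mon
  rw [map_prod]
  exact Finset.prod_congr rfl fun i _ => map_zpow₀ φ _ _

/-- **One level.** The monomials of the `gen f i` with exponents `e p` are algebraically
independent over the field of the coefficients when the vectors `∑ i, e p i * q i b` are linearly
independent over `ℚ`.

Proof. Take `Ω, v, φ` from `hE`. `φ (gen f i) ≠ 0`. By `rv_mon` the value of `φ (mon (gen f) (e
p)) = mon (φ ∘ gen f) (e p)` is `∑ i, e p i * v (φ (gen f i)) = ∑ b, (∑ i, e p i * q i b) * v (φ
(gen f (g b)))`; these real numbers are linearly independent over `ℚ`, because the `v (φ (gen f (g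
b)))` are and by `he`. By `rv_indep` the `φ (mon (gen f) (e p))` are algebraically independent
over `ℂ`. If `P ≠ 0` has coefficients in `F` and `aeval (mon (gen f) (e ·)) P = 0` then, applying
`φ`, the polynomial `P.map σ ≠ 0` vanishes at them, a contradiction. -/
theorem dl_level {F : Type} [Field F] (σ : F →+* ℂ) (f : ι → MvPowerSeries β F)
    (hf : ∀ i, f i ≠ 0) (g : β → ι) (q : ι → β → ℚ) (hE : Emb σ f g q) {P : Type} [Fintype P]
    (e : P → ι → ℤ) (he : LinearIndependent ℚ (fun p b => ∑ i, (e p i : ℚ) * q i b)) :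
    AlgebraicIndependent F (fun p => mon (gen f) (e p)) := by
  obtain ⟨Ω, i1, i2, i3, v, φ, hv, hσ, hq, hli⟩ := hE
  have hg0 : ∀ i, gen f i ≠ 0 := by
    intro i h0
    have h1 : algebraMap (MvPowerSeries β F) (FractionRing (MvPowerSeries β F)) (f i) = 0 :=
      congrArg (fun z : GF f => (z : FractionRing (MvPowerSeries β F))) h0
    exact hf i ((map_eq_zero_iff _ (IsFractionRing.injective _ _)).1 h1)
  have hφ0 : ∀ i, φ (gen f i) ≠ 0 := fun i => (map_ne_zero φ).2 (hg0 i)
  have hc : ∀ p, φ (mon (gen f) (e p)) = mon (fun i => φ (gen f i)) (e p) := fun p =>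
    map_mon φ _ _
  have hc0 : ∀ p, φ (mon (gen f) (e p)) ≠ 0 := by
    intro p
    rw [hc p]
    exact Finset.prod_ne_zero_iff.2 fun i _ => zpow_ne_zero _ (hφ0 i)
  have hval : ∀ p, v (φ (mon (gen f) (e p))) =
      Fintype.linearCombination ℚ (fun b => v (φ (gen f (g b))))
        (fun b => ∑ i, (e p i : ℚ) * q i b) := by
    intro p
    rw [hc p, rv_mon hv _ hφ0, Fintype.linearCombination_apply]
    unfold pr
    have h1 : ∀ b, (∑ i, (e p i : ℚ) * q i b) • v (φ (gen f (g b))) =
        ∑ i, (e p i : ℝ) * ((q i b : ℝ) * v (φ (gen f (g b)))) := by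
      intro b
      rw [Rat.smul_def, Rat.cast_sum, Finset.sum_mul]
      refine Finset.sum_congr rfl fun i _ => ?_
      push_cast
      ring
    rw [Finset.sum_congr rfl fun b _ => h1 b, Finset.sum_comm]
    refine Finset.sum_congr rfl fun i _ => ?_
    change (e p i : ℝ) * v (φ (gen f i)) = _
    rw [hq i, Finset.mul_sum]
  have hθ : LinearIndependent ℚ (fun p => v (φ (mon (gen f) (e p)))) := by
    have h1 := he.map' (Fintype.linearCombination ℚ (fun b => v (φ (gen f (g b)))))
      (LinearMap.ker_eq_bot.2 (linearIndependent_iff_injective_fintypeLinearCombination.1 hli))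
    have h2 : (fun p => v (φ (mon (gen f) (e p)))) =
        (Fintype.linearCombination ℚ (fun b => v (φ (gen f (g b))))) ∘
          (fun p b => ∑ i, (e p i : ℚ) * q i b) := funext hval
    rw [h2]
    exact h1
  have hai : AlgebraicIndependent ℂ (fun p => φ (mon (gen f) (e p))) :=
    rv_indep hv _ hc0 _ hθ fun _ => rfl
  rw [algebraicIndependent_iff] at hai ⊢
  intro Q hQ
  have h1 : MvPolynomial.aeval (fun p => φ (mon (gen f) (e p))) (MvPolynomial.map σ Q) = 0 := by
    have h2 : φ (MvPolynomial.aeval (fun p => mon (gen f) (e p)) Q) = 0 := by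
      rw [hQ, map_zero]
    rw [MvPolynomial.aeval_def, MvPolynomial.eval₂_comp_left] at h2
    rw [MvPolynomial.aeval_def, MvPolynomial.eval₂_map, ← h2]
    congr 1
    ext a
    exact (hσ a).symm
  have h3 := hai _ h1
  exact MvPolynomial.map_injective σ σ.injective (by rw [h3, map_zero])

/-- **Abhyankar's inequality for configurations.**

Proof. Let `L, τ` be as in `hX.ex l`. Suppose that there is a polynomial `Q ≠ 0` over `F l` with
`aeval (fun p => mon x (e p)) Q = 0`; multiplying by a monomial in the `x i` we may write this as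
a polynomial relation, or work in the field `L`: `mon x (e p) ∈ L` (only the `x i` with `cl i = l`
occur), and `τ` maps the nonzero elements of the field `L` to units, `τ (mon x (e p)) = mon X (e
p)` in the ring `Ult 𝒰 (PS β K)` in the sense that `τ (mon x (e p)) * ∏ i, X i ^ (-(e p i)).toNat
= ∏ i, X i ^ (e p i).toNat`. For almost all `j`: the constant coefficients of the `(X i).rep j`
(`cl i = l`) are not zero (`x i ≠ 0`), so they are not zero; let `Q j` be the polynomial over `K
j` with the coefficients `(coeff m Q).rep j` (finitely many `m`), `Q j ≠ 0`, and `aeval (fun p =>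
mon (gen f_j) (e p)) (Q j) = 0` where `f_j i = (X i).rep j` (apply `τ` to the relation: `τ` of a
coefficient is the constant `cst`). This contradicts `dl_level` for some `j`
(`Filter.Eventually.exists`). For the `i` with `cl i ≠ l` `f_j i ≠ 0` for almost all `j`, too. -/
theorem dl_abh (hc : Conf 𝒰 K s F cl x bs) (hX : Br 𝒰 K F cl x bs X) (σ : ∀ j, K j →+* ℂ)
    (g : β → ι) (q : ι → β → ℚ)
    (hemb : ∀ᶠ j in (𝒰 : Filter J), Emb (σ j) (fun i => (X i).rep j) g q) (l : Fin (k + 1))
    {P : Type} [Fintype P] (e : P → ι → ℤ) (hl : ∀ p i, e p i ≠ 0 → cl i = l)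
    (he : LinearIndependent ℚ (fun p b => ∑ i, (e p i : ℚ) * q i b)) :
    AlgebraicIndependent (F l) (fun p => mon x (e p)) := by
  classical
  rw [algebraicIndependent_iff]
  intro Q hQ
  by_contra hQ0
  obtain ⟨L, τ, hFL, hxL, _, heps, hcst, _, _, hXτ⟩ := hX.ex l
  -- the coordinates as elements of `L`
  obtain ⟨z, hz1, hz2⟩ : ∃ z : ι → L, (∀ i, cl i = l → (z i : Ult 𝒰 K) = x i) ∧
      ∀ i, cl i ≠ l → z i = 1 := by
    refine ⟨fun i => if h : cl i = l then ⟨x i, hxL i h⟩ else 1, fun i h => ?_, fun i h => ?_⟩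
    · simp only [dif_pos h]
    · simp only [dif_neg h]
  have hz0 : ∀ i, z i ≠ 0 := by
    intro i h0
    by_cases h : cl i = l
    · have h1 := hz1 i h
      rw [h0] at h1
      exact hc.ne i h1.symm
    · rw [hz2 i h] at h0
      exact one_ne_zero h0
  have he0 : ∀ p i, cl i ≠ l → e p i = 0 := by
    intro p i h
    by_contra h1
    exact h (hl p i h1)
  have hy : ∀ p, ((mon z (e p) : L) : Ult 𝒰 K) = mon x (e p) := by
    intro p
    change L.subtype (mon z (e p)) = _
    rw [map_mon]
    unfold mon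
    refine Finset.prod_congr rfl fun i _ => ?_
    by_cases h : cl i = l
    · change (z i : Ult 𝒰 K) ^ _ = _
      rw [hz1 i h]
    · rw [he0 p i h, zpow_zero, zpow_zero]
  have hXz : ∀ i, cl i = l → X i = τ (z i) := fun i h => hXτ i h (z i) (hz1 i h)
  -- the relation in `L`, and its image under `τ`
  have hrel : MvPolynomial.eval₂ (Subfield.inclusion hFL) (fun p => (mon z (e p) : L)) Q = 0 := by
    have h1 : L.subtype (MvPolynomial.eval₂ (Subfield.inclusion hFL)
        (fun p => (mon z (e p) : L)) Q) = 0 := by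
      rw [MvPolynomial.eval₂_comp_left, ← hQ, MvPolynomial.aeval_def]
      congr 1
      funext p
      exact hy p
    exact (map_eq_zero_iff _ L.subtype.injective).1 h1
  have hτ : ∑ m ∈ Q.support, cst β K ((Q.coeff m : F l) : Ult 𝒰 K) *
      ∏ p, τ (mon z (e p)) ^ m p = 0 := by
    have h1 := congrArg τ hrel
    rw [map_zero, MvPolynomial.eval₂_comp_left, MvPolynomial.eval₂_eq'] at h1
    rw [← h1]
    refine Finset.sum_congr rfl fun m _ => ?_
    congr 1
    exact (hcst (Subfield.inclusion hFL (Q.coeff m)) (Q.coeff m).2).symm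
  have hmon : ∀ p, τ (mon z (e p)) * ∏ i, X i ^ (-(e p i)).toNat = ∏ i, X i ^ (e p i).toNat := by
    intro p
    have h1 := congrArg τ (mon_split hz0 (e p))
    rw [map_mul, map_prod, map_prod] at h1
    have h2 : ∀ i, X i ^ (-(e p i)).toNat = τ (z i ^ (-(e p i)).toNat) := by
      intro i
      by_cases h : cl i = l
      · rw [hXz i h, map_pow]
      · rw [he0 p i h, neg_zero, Int.toNat_zero, pow_zero, pow_zero, map_one]
    have h3 : ∀ i, X i ^ (e p i).toNat = τ (z i ^ (e p i).toNat) := by
      intro i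
      by_cases h : cl i = l
      · rw [hXz i h, map_pow]
      · rw [he0 p i h, Int.toNat_zero, pow_zero, pow_zero, map_one]
    rw [Finset.prod_congr rfl fun i _ => h2 i, Finset.prod_congr rfl fun i _ => h3 i]
    exact h1
  have hX0 : ∀ i, X i ≠ 0 := by
    intro i h0
    obtain ⟨L', τ', _, hxL', _, heps', _, _, _, hXτ'⟩ := hX.ex (cl i)
    have h1 := hXτ' i rfl ⟨x i, hxL' i rfl⟩ rfl
    have h2 := heps' ⟨x i, hxL' i rfl⟩
    rw [← h1, h0, map_zero] at h2
    exact hc.ne i h2.symm
  -- the levels
  have e1 : ∀ᶠ j in (𝒰 : Filter J), ∑ m ∈ Q.support,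
      MvPowerSeries.C (((Q.coeff m : F l) : Ult 𝒰 K).rep j) *
        ∏ p, (τ (mon z (e p))).rep j ^ m p = 0 := by
    have h1 : Ult.mk 𝒰 (PS β K) (fun j => ∑ m ∈ Q.support,
        MvPowerSeries.C (((Q.coeff m : F l) : Ult 𝒰 K).rep j) *
          ∏ p, (τ (mon z (e p))).rep j ^ m p) = 0 := by
      have h2 : (fun j => ∑ m ∈ Q.support,
          MvPowerSeries.C (((Q.coeff m : F l) : Ult 𝒰 K).rep j) *
            ∏ p, (τ (mon z (e p))).rep j ^ m p) = ∑ m ∈ Q.support,
          (fun j => (MvPowerSeries.C (((Q.coeff m : F l) : Ult 𝒰 K).rep j) : PS β K j)) *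
            ∏ p, (τ (mon z (e p))).rep ^ m p := by
        funext j
        rw [Finset.sum_apply]
        refine Finset.sum_congr rfl fun m _ => ?_
        rw [Pi.mul_apply, Finset.prod_apply]
        rfl
      rw [h2, map_sum, ← hτ]
      refine Finset.sum_congr rfl fun m _ => ?_
      rw [map_mul, map_prod]
      congr 1
      · conv_rhs => rw [← Ult.mk_rep ((Q.coeff m : F l) : Ult 𝒰 K)]
        rfl
      · refine Finset.prod_congr rfl fun p _ => ?_
        rw [map_pow, Ult.mk_rep]
    exact Ult.mk_eq_zero.1 h1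
  have e2 : ∀ᶠ j in (𝒰 : Filter J), ∀ p, (τ (mon z (e p))).rep j *
      ∏ i, (X i).rep j ^ (-(e p i)).toNat = ∏ i, (X i).rep j ^ (e p i).toNat := by
    rw [Filter.eventually_all]
    intro p
    have h1 : Ult.mk 𝒰 (PS β K) ((τ (mon z (e p))).rep *
        ∏ i, (X i).rep ^ (-(e p i)).toNat) =
        Ult.mk 𝒰 (PS β K) (∏ i, (X i).rep ^ (e p i).toNat) := by
      rw [map_mul, map_prod, map_prod, Ult.mk_rep]
      rw [Finset.prod_congr rfl fun i _ => map_pow (Ult.mk 𝒰 (PS β K)) (X i).rep _]
      rw [Finset.prod_congr rfl fun i _ => map_pow (Ult.mk 𝒰 (PS β K)) (X i).rep _]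
      simp only [Ult.mk_rep]
      exact hmon p
    filter_upwards [Ult.mk_eq_mk.1 h1] with j hj
    rw [Pi.mul_apply, Finset.prod_apply, Finset.prod_apply] at hj
    exact hj
  have e3 : ∀ᶠ j in (𝒰 : Filter J), ∀ i, (X i).rep j ≠ 0 := by
    rw [Filter.eventually_all]
    exact fun i => Ult.rep_ne_zero (hX0 i)
  obtain ⟨m₀, hm₀⟩ := MvPolynomial.support_nonempty.2 hQ0
  have e4 : ∀ᶠ j in (𝒰 : Filter J), ((Q.coeff m₀ : F l) : Ult 𝒰 K).rep j ≠ 0 := by
    apply Ult.rep_ne_zero
    intro h
    exact MvPolynomial.mem_support_iff.1 hm₀ (Subtype.ext h)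
  obtain ⟨j, h1, h2, h3, h4, h5⟩ := (e1.and (e2.and (e3.and (e4.and hemb)))).exists
  have hlev := dl_level (σ j) (fun i => (X i).rep j) h3 g q h5 e he
  rw [algebraicIndependent_iff] at hlev
  have hQj := hlev (∑ m ∈ Q.support,
    MvPolynomial.monomial m (((Q.coeff m : F l) : Ult 𝒰 K).rep j)) ?_
  · apply h4
    have h6 := congrArg (MvPolynomial.coeff m₀) hQj
    rw [MvPolynomial.coeff_sum, MvPolynomial.coeff_zero,
      Finset.sum_eq_single_of_mem m₀ hm₀ (fun m _ hm => by
        rw [MvPolynomial.coeff_monomial, if_neg hm]),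
      MvPolynomial.coeff_monomial, if_pos rfl] at h6
    exact h6
  · apply Subtype.ext
    have hmj : ∀ p, ((mon (gen fun i => (X i).rep j) (e p) : GF fun i => (X i).rep j) :
        FractionRing (MvPowerSeries β (K j))) = algebraMap (MvPowerSeries β (K j))
          (FractionRing (MvPowerSeries β (K j))) ((τ (mon z (e p))).rep j) := by
      intro p
      have h7 : ((mon (gen fun i => (X i).rep j) (e p) : GF fun i => (X i).rep j) :
          FractionRing (MvPowerSeries β (K j))) =
          mon (fun i => algebraMap (MvPowerSeries β (K j))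
            (FractionRing (MvPowerSeries β (K j))) ((X i).rep j)) (e p) := by
        exact map_mon (algebraMap (GF fun i => (X i).rep j)
          (FractionRing (MvPowerSeries β (K j)))) _ _
      rw [h7]
      refine (eq_mon (fun i => ?_) (e p) ?_).symm
      · rw [Ne, map_eq_zero_iff _ (IsFractionRing.injective _ _)]
        exact h3 i
      · have h8 := congrArg (algebraMap (MvPowerSeries β (K j))
          (FractionRing (MvPowerSeries β (K j)))) (h2 p)
        rw [map_mul, map_prod, map_prod] at h8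
        simp only [map_pow] at h8
        exact h8
    change algebraMap (GF fun i => (X i).rep j) (FractionRing (MvPowerSeries β (K j)))
      (MvPolynomial.aeval _ _) = 0
    rw [map_sum, map_sum]
    have h9 := congrArg (algebraMap (MvPowerSeries β (K j))
      (FractionRing (MvPowerSeries β (K j)))) h1
    rw [map_zero, map_sum] at h9
    rw [← h9]
    refine Finset.sum_congr rfl fun m _ => ?_
    rw [MvPolynomial.aeval_monomial, map_mul, map_mul,
      Finsupp.prod_fintype _ _ (fun p => pow_zero _), map_prod, map_prod]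
    congr 1
    · refine Finset.prod_congr rfl fun p _ => ?_
      rw [map_pow, map_pow]
      congr 1
      exact hmj p

end Pool.Agent.Zilber
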