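import Pool.Agent.Zilber.N2C
import Pool.Agent.Zilber.DLOm
import Pool.Agent.Zilber.DLAbh
import Pool.Agent.Zilber.DDefs

set_option autoImplicit false

/-! Core D, linear algebra (d_lin): Lemma H for configurations. -/

namespace Pool.Agent.Zilber

open Filter NumberField Module Pool.Agent.LAll Pool.Agent.LSharp Pool.Agent.CITLines

variable {J : Type} {𝒰 : Ultrafilter J} {K : J → Type} [∀ j, Field (K j)] [∀ j, NumberField (K j)]
  {k : ℕ} {s : Fin (k + 1) → J → ℝ} {F : Fin (k + 1) → Subfield (Ult 𝒰 K)} {ι β : Type} [Fintype ι]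
  [Fintype β] [DecidableEq β] {cl : ι → Fin (k + 1)} {x : ι → Ult 𝒰 K} {bs : β → ι}
  {X : ι → Ult 𝒰 (PS β K)}

/-- Rational vectors and their real spans: a real space on which a linear map is injective, with
images in the real span of the rational vectors `r p`, has at most the dimension of an independent
family with the same rational span. -/
private theorem dim_le_rat {P : Type} (r : P → β → ℚ) (W : Submodule ℝ (ι → ℝ))
    (ψ : (ι → ℝ) →ₗ[ℝ] (β → ℝ)) (hinj : ∀ R ∈ W, ψ R = 0 → R = 0)
    (him : ∀ R ∈ W, ψ R ∈ Submodule.span ℝ (Set.range fun p b => (r p b : ℝ))) {κ : Type}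
    [Fintype κ] (a : κ → P) (ha : Submodule.span ℚ (Set.range (r ∘ a)) =
      Submodule.span ℚ (Set.range r)) : finrank ℝ W ≤ Fintype.card κ := by
  classical
  -- the real spans agree
  have h1 : ∀ u ∈ Submodule.span ℚ (Set.range (r ∘ a)), (fun b => (u b : ℝ)) ∈
      Submodule.span ℝ (Set.range fun (t : κ) b => (r (a t) b : ℝ)) := by
    intro u hu
    induction hu using Submodule.span_induction with
    | mem x hx =>
      obtain ⟨t, rfl⟩ := hx
      exact Submodule.subset_span ⟨t, rfl⟩
    | zero =>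
      have e : (fun b => (((0 : β → ℚ) b : ℚ) : ℝ)) = 0 := by
        funext b
        simp
      rw [e]
      exact Submodule.zero_mem _
    | add x y _ _ hx hy =>
      have e : (fun b => (((x + y) b : ℚ) : ℝ)) = (fun b => (x b : ℝ)) + fun b => (y b : ℝ) := by
        funext b
        simp
      rw [e]
      exact Submodule.add_mem _ hx hy
    | smul c x _ hx =>
      have e : (fun b => (((c • x) b : ℚ) : ℝ)) = (c : ℝ) • fun b => (x b : ℝ) := by
        funext b
        simp
      rw [e]
      exact Submodule.smul_mem _ _ hx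
  have h2 : Submodule.span ℝ (Set.range fun p b => (r p b : ℝ)) ≤
      Submodule.span ℝ (Set.range fun (t : κ) b => (r (a t) b : ℝ)) := by
    refine Submodule.span_le.2 ?_
    rintro _ ⟨p, rfl⟩
    refine h1 (r p) ?_
    rw [ha]
    exact Submodule.subset_span ⟨p, rfl⟩
  have h3 : finrank ℝ (Submodule.span ℝ (Set.range fun (t : κ) b => (r (a t) b : ℝ))) ≤
      Fintype.card κ := finrank_range_le_card _
  refine le_trans ?_ h3
  let ψ' : W →ₗ[ℝ] (Submodule.span ℝ (Set.range fun (t : κ) b => (r (a t) b : ℝ))) :=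
    (ψ.comp W.subtype).codRestrict _ fun R => h2 (him R.1 R.2)
  have hψ : Function.Injective ψ' := by
    rw [← LinearMap.ker_eq_bot, LinearMap.ker_eq_bot']
    intro R hR
    have h4 : ψ R.1 = 0 := congrArg Subtype.val hR
    exact Subtype.ext (hinj R.1 R.2 h4)
  exact LinearMap.finrank_le_finrank_of_injective hψ

/-- **Lemma H.** A space of vectors of block `0` on which the pairing with the value vectors is
injective has the largest possible rank.

Proof. `n2c` for `V` gives `e p` (`p : Fin m`), `ce`. Let `P = {p // ce p = 0}`. Every vector of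
`V ⊓ spR e` is in the real span `S0` of the `e p`, `p ∈ P`: write it as a real combination of all
`e p` and take the part in block `0` (`V` is supported there). Let `ψ R b = ∑ i, R i * q i b` and let
`ρ` be the dimension of the `ℚ`-span of the rational vectors `ψ (e p)`, `p ∈ P`: the space `ψ (S0)` is
spanned over `ℝ` by them and has dimension `ρ` (or `≤ ρ`). `ψ` is injective on `V` (`hinj`), so
`dim (V ⊓ spR e) ≤ ρ`. Choose `ρ` of the `p ∈ P` with linearly independent `ψ (e p)` over `ℚ`; by
`dl_abh` (`l = 0`) and `rk_range_of_indep`, `rk_mono` the summand `l = 0` of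
`tr 𝒰 K F ce (fun p => mon x (e p))` is at least `ρ`. So the inequality of `n2c` gives
`dim V + ρ ≤ rkO σ X V + ρ`. -/
theorem dl_rank (hc : Conf 𝒰 K s F cl x bs) (hX : Br 𝒰 K F cl x bs X) (σ : ∀ j, K j →+* ℂ)
    (g : β → ι) (q : ι → β → ℚ)
    (hemb : ∀ᶠ j in (𝒰 : Filter J), Emb (σ j) (fun i => (X i).rep j) g q)
    (V : Submodule ℝ (ι → ℝ)) (hV : ∀ R ∈ V, ∀ i, R i ≠ 0 → cl i = 0)
    (hinj : ∀ R ∈ V, (∀ b, ∑ i, R i * (q i b : ℝ) = 0) → R = 0) :
    finrank ℝ V ≤ rkO σ X V := by
  classical
  obtain ⟨m, e, ce, -, hce, hle⟩ := n2c hc hX σ V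
  set r : {p : Fin m // ce p = 0} → β → ℚ := fun p b => ∑ i, (e p.1 i : ℚ) * q i b with hr
  obtain ⟨κ, a, ha, hsp, hli⟩ := exists_linearIndependent' ℚ r
  have hfin : Finite κ := Finite.of_injective a ha
  have : Fintype κ := Fintype.ofFinite κ
  let ψ : (ι → ℝ) →ₗ[ℝ] (β → ℝ) :=
    { toFun := fun R b => ∑ i, R i * (q i b : ℝ)
      map_add' := by
        intro R R'
        funext b
        simp only [Pi.add_apply, add_mul, Finset.sum_add_distrib]
      map_smul' := by
        intro c R
        funext b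
        simp only [Pi.smul_apply, smul_eq_mul, RingHom.id_apply, Finset.mul_sum, mul_assoc] }
  -- the intersection with the real span of the integral vectors
  have hd : finrank ℝ (V ⊓ spR e : Submodule ℝ (ι → ℝ)) ≤ Fintype.card κ := by
    refine dim_le_rat r (V ⊓ spR e) ψ (fun R hR h0 => hinj R hR.1 fun b => congrFun h0 b) ?_ a hsp
    intro R hR
    obtain ⟨c, hcR⟩ := (Submodule.mem_span_range_iff_exists_fun ℝ).1 hR.2
    have hR0 : R = ∑ p : {p : Fin m // ce p = 0}, c p.1 • fun i => (e p.1 i : ℝ) := by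
      funext i
      rw [Finset.sum_apply]
      simp only [Pi.smul_apply, smul_eq_mul]
      by_cases hi : cl i = 0
      · have h1 : R i = ∑ p, c p * (e p i : ℝ) := by
          rw [← hcR, Finset.sum_apply]
          simp only [Pi.smul_apply, smul_eq_mul]
        rw [h1, ← Finset.sum_filter_of_ne (p := fun p => ce p = 0) fun p _ hne => ?_]
        · exact Finset.sum_subtype _ (fun p => by simp) _
        · have h4 : e p i ≠ 0 := by
            intro h5
            rw [h5, Int.cast_zero, mul_zero] at hne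
            exact hne rfl
          exact (hce p i h4).symm.trans hi
      · have h1 : R i = 0 := by
          by_contra h2
          exact hi (hV R hR.1 i h2)
        rw [h1]
        symm
        refine Finset.sum_eq_zero fun p _ => ?_
        have h2 : e p.1 i = 0 := by
          by_contra h3
          exact hi ((hce p.1 i h3).trans p.2)
        rw [h2, Int.cast_zero, mul_zero]
    rw [hR0, map_sum]
    refine Submodule.sum_mem _ fun p _ => ?_
    rw [map_smul]
    refine Submodule.smul_mem _ _ (Submodule.subset_span ⟨p, ?_⟩)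
    funext b
    show ((r p b : ℚ) : ℝ) = ∑ i, (e p.1 i : ℝ) * (q i b : ℝ)
    rw [hr]
    push_cast
    rfl
  -- the transcendence degree of block `0`
  have hρ : (Fintype.card κ : ℕ∞) ≤ tr 𝒰 K F ce (fun p => mon x (e p)) := by
    have h1 := dl_abh hc hX σ g q hemb 0 (fun t : κ => e (a t).1)
      (fun t i hi => (hce _ i hi).trans (a t).2) hli
    rw [← rk_range_of_indep _ h1]
    unfold tr
    refine le_trans (rk_mono ?_) (Finset.single_le_sum
      (f := fun l => rk (F l) {y | ∃ p, ce p = l ∧ y = mon x (e p)}) (fun _ _ => zero_le)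
      (Finset.mem_univ (0 : Fin (k + 1))))
    rintro _ ⟨t, rfl⟩
    exact ⟨(a t).1, (a t).2, rfl⟩
  have h2 : ((finrank ℝ V + Fintype.card κ : ℕ) : ℕ∞) ≤
      ((rkO σ X V + Fintype.card κ : ℕ) : ℕ∞) := by
    push_cast
    refine le_trans (add_le_add le_rfl hρ) (hle.trans ?_)
    refine add_le_add le_rfl ?_
    exact_mod_cast hd
  have h3 : finrank ℝ V + Fintype.card κ ≤ rkO σ X V + Fintype.card κ := by exact_mod_cast h2
  omega

/-- **Lemma H, wedge form.**

Proof. Let `V` be the span of the `R b`. The `R b` are linearly independent and the pairing is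
injective on `V` (`hdet`; for `b'` not in `B0` the sum `∑ i, R b i * q i b'` is zero because of `hR`,
`hq`). `dl_rank`: `rkO σ X V ≥ card B0`. By `rkO_oE`, `span_oE` the vectors `oE σ X (R b)`
(`b` in `B0`) span a space of dimension `card B0`, so they are linearly independent over `EU 𝒰 β`.
Their coordinates outside `B0` are `0` (`oE_zero`), so the square matrix `oE σ X (R b) b'`
(`b, b'` in `B0`) is invertible. `wdg_iff`. -/
theorem dl_H (hc : Conf 𝒰 K s F cl x bs) (hX : Br 𝒰 K F cl x bs X) (σ : ∀ j, K j →+* ℂ)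
    (g : β → ι) (q : ι → β → ℚ) (hq : ∀ i b, q i b ≠ 0 → cl i = cl (bs b))
    (hemb : ∀ᶠ j in (𝒰 : Filter J), Emb (σ j) (fun i => (X i).rep j) g q)
    (R : B0 cl bs → ι → ℝ) (hR : ∀ b i, R b i ≠ 0 → cl i = 0)
    (hdet : (Matrix.of fun b b' : B0 cl bs => ∑ i, R b i * (q i b' : ℝ)).det ≠ 0) :
    ∀ᶠ j in (𝒰 : Filter J), Wdg (σ j) (fun i => (X i).rep j) R
      (fun b : B0 cl bs => (b : β)) := by
  classical
  set M : Matrix (B0 cl bs) (B0 cl bs) ℝ :=
    Matrix.of fun b b' : B0 cl bs => ∑ i, R b i * (q i b' : ℝ) with hM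
  -- combinations with vanishing pairing
  have hcomb : ∀ c : B0 cl bs → ℝ, (∀ b' : B0 cl bs, ∑ i, (∑ b, c b • R b) i * (q i b' : ℝ) = 0) →
      c = 0 := by
    intro c h0
    by_contra hne
    refine hdet (Matrix.exists_vecMul_eq_zero_iff.1 ⟨c, hne, ?_⟩)
    funext b'
    rw [Pi.zero_apply, ← h0 b']
    unfold Matrix.vecMul dotProduct
    simp only [hM, Matrix.of_apply, Finset.sum_apply, Pi.smul_apply, smul_eq_mul,
      Finset.sum_mul, Finset.mul_sum]
    rw [Finset.sum_comm]
    refine Finset.sum_congr rfl fun i _ => Finset.sum_congr rfl fun b _ => ?_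
    ring
  have hli : LinearIndependent ℝ R := by
    rw [Fintype.linearIndependent_iff]
    intro c h0
    have h1 := hcomb c fun b' => by
      rw [h0]
      simp
    exact fun b => congrFun h1 b
  set V : Submodule ℝ (ι → ℝ) := Submodule.span ℝ (Set.range R) with hVdef
  have hV : ∀ R' ∈ V, ∀ i, R' i ≠ 0 → cl i = 0 := by
    intro R' hR' i hi
    obtain ⟨c, rfl⟩ := (Submodule.mem_span_range_iff_exists_fun ℝ).1 hR'
    by_contra hcl
    refine hi ?_
    rw [Finset.sum_apply]
    refine Finset.sum_eq_zero fun b _ => ?_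
    have h2 : R b i = 0 := by
      by_contra h3
      exact hcl (hR b i h3)
    rw [Pi.smul_apply, h2, smul_zero]
  have hinj : ∀ R' ∈ V, (∀ b, ∑ i, R' i * (q i b : ℝ) = 0) → R' = 0 := by
    intro R' hR' h0
    obtain ⟨c, rfl⟩ := (Submodule.mem_span_range_iff_exists_fun ℝ).1 hR'
    have h1 := hcomb c fun b' => h0 b'
    rw [h1]
    simp
  have h1 := dl_rank hc hX σ g q hemb V hV hinj
  rw [rkO_oE, hVdef, finrank_span_eq_card hli, span_oE, ← Set.range_comp] at h1
  have h2 : LinearIndependent (EU 𝒰 β) (oE σ X ∘ R) :=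
    linearIndependent_iff_card_le_finrank_span.2 h1
  refine (wdg_iff σ X R fun b : B0 cl bs => (b : β)).1 fun hdet0 => ?_
  obtain ⟨c, hne, hc0⟩ := Matrix.exists_vecMul_eq_zero_iff.2 hdet0
  refine hne ?_
  rw [Fintype.linearIndependent_iff] at h2
  funext b
  refine h2 c ?_ b
  funext b'
  rw [Finset.sum_apply]
  simp only [Pi.smul_apply, smul_eq_mul, Function.comp_apply, Pi.zero_apply]
  by_cases hb' : cl (bs b') = 0
  · have h3 := congrFun hc0 ⟨b', hb'⟩
    simpa [Matrix.vecMul, dotProduct] using h3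
  · refine Finset.sum_eq_zero fun b _ => ?_
    rw [oE_zero hX σ (R b) 0 (hR b) b' hb', mul_zero]

end Pool.Agent.Zilber
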