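import Pool.Agent.Zilber.Defs

set_option autoImplicit false

/-! The base fields of the two cases consist of elements of height `O(s l)` (owner helper44). -/

namespace Pool.Agent.Zilber

open Filter NumberField Pool.Agent.LAll Pool.Agent.LSharp

variable {J : Type} (𝒰 : Ultrafilter J) (K : J → Type) [∀ j, Field (K j)] [∀ j, NumberField (K j)]
  {k : ℕ}

theorem kfs_le_Lfs (s : J → ℝ) : kf 𝒰 K s ≤ Lf 𝒰 K s := by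
  intro y hy
  obtain ⟨r, hr1, hr2⟩ := hy
  exact ⟨_, hr1, hr2⟩

theorem FD_le_Lf (s : Fin (k + 1) → J → ℝ) (l : Fin (k + 1)) : FD 𝒰 K s l ≤ Lf 𝒰 K (s l) :=
  kfs_le_Lfs 𝒰 K (s l)

theorem Lf_le_of_Oo {σ s : J → ℝ} (h : Oo 𝒰 σ s) (hs : ∀ j, 1 ≤ s j) :
    Lf 𝒰 K σ ≤ Lf 𝒰 K s := by
  intro y hy
  obtain ⟨r, hr1, hr2⟩ := hy
  refine ⟨r, hr1, hr2.mono ⟨1, ?_⟩⟩
  filter_upwards [h 1 one_pos] with j hj
  rw [one_mul]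
  rw [one_mul, abs_of_nonneg (zero_le_one.trans (hs j))] at hj
  exact hj.trans (le_max_right _ _)

theorem FA_le_Lf {s : Fin (k + 1) → J → ℝ} (hs : Scl 𝒰 s) (l : Fin (k + 1)) :
    FA 𝒰 K s l ≤ Lf 𝒰 K (s l) := by
  intro y hy
  obtain ⟨σ, hσ, hy⟩ := (mem_ko 𝒰 K).1 hy
  exact Lf_le_of_Oo 𝒰 K hσ (hs.one l) (kfs_le_Lfs 𝒰 K σ hy)

theorem Lo_le_Lf {s : Fin (k + 1) → J → ℝ} (hs : Scl 𝒰 s) (l : Fin (k + 1)) :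
    Lo 𝒰 K (s l) ≤ Lf 𝒰 K (s l) := by
  intro y hy
  obtain ⟨σ, hσ, hy⟩ := (mem_Lo 𝒰 K).1 hy
  exact Lf_le_of_Oo 𝒰 K hσ (hs.one l) hy

end Pool.Agent.Zilber
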