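import Pool.Agent.Zilber.DLH
import Pool.Agent.Zilber.TBase
import Pool.Agent.Zilber.DLSel

set_option autoImplicit false

/-! Core D, step 1: the linear algebra (owner helper45). -/

namespace Pool.Agent.Zilber

open Filter NumberField Module Pool.Agent.LAll Pool.Agent.LSharp Pool.Agent.CITLines

variable {J : Type} {𝒰 : Ultrafilter J} {K : J → Type} [∀ j, Field (K j)] [∀ j, NumberField (K j)]
  {k : ℕ} {s : Fin (k + 1) → J → ℝ} {ι β : Type} [Fintype ι]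
  [Fintype β] [DecidableEq β] {cl : ι → Fin (k + 1)} {x : ι → Ult 𝒰 K} {bs : β → ι}
  {X : ι → Ult 𝒰 (PS β K)}

theorem d_lin (hc : Conf 𝒰 K s (FD 𝒰 K s) cl x bs) (hX : Br 𝒰 K (FD 𝒰 K s) cl x bs X)
    (σ : ∀ j, K j →+* ℂ)
    (hnc : ∀ a : ι → ℤ, a ≠ 0 → (∀ i, a i ≠ 0 → cl i = 0) → Transcendental ℚ (mon x a))
    (V : Submodule ℝ (ι → ℝ)) (hV : V ≤ Ker 𝒰 K s cl x) (hr : rkO σ X V = Fintype.card β)
    (h1 : finrank ℝ (V ⊓ pos cl : Submodule ℝ (ι → ℝ)) + Fintype.card β + 1 ≤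
      finrank ℝ V + rkO σ X (V ⊓ pos cl)) :
    ∃ (g : β → ι) (q : ι → β → ℚ) (R : Ob cl bs → ι → ℝ), DLin 𝒰 K s cl x bs X σ g q R := by
  obtain ⟨R', S, hR', hS, hcard, hdet⟩ := dl_choose (oE σ X) (V : Set (ι → ℝ))
    ((V ⊓ pos cl : Submodule ℝ (ι → ℝ)) : Set (ι → ℝ)) (fun r hr => hr.1)
    (by rw [← rkO_oE]; exact hr)
  have hW : ∀ᶠ j in (𝒰 : Filter J), Wdg (σ j) (fun i => (X i).rep j) R' id :=
    (wdg_iff σ X R' id).1 hdet
  obtain ⟨g, q, hg, hq, hqg, hqd, hemb⟩ := tsw hc hX (FD_le_Lf 𝒰 K s) σ R' hW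
  rw [← rkO_oE] at hcard
  obtain ⟨R, hRV, hvan, hli, hd0, hdp⟩ := dl_vec cl bs q hq V R' S hR' hS hqd (by
    rw [hcard]
    exact h1)
  refine ⟨g, q, R, ⟨fun o => hV (hRV o), hg, hq, hqg, hvan, hli, ?_, hdp, hemb⟩⟩
  refine dl_H hc hX σ g q hq hemb _ (fun b i hi => ?_) ?_
  · by_contra h
    exact hi (by unfold zpart; rw [if_neg h])
  · have h3 : (Matrix.of fun b b' : B0 cl bs =>
        ∑ i, zpart cl (R (Sum.inl (some b))) i * (q i b' : ℝ)) =
        Matrix.of fun b b' : B0 cl bs => ∑ i, R (Sum.inl (some b)) i * (q i b' : ℝ) := by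
      ext b b'
      refine Finset.sum_congr rfl fun i _ => ?_
      unfold zpart
      split_ifs with h
      · rfl
      · have : q i b' = 0 := by
          by_contra h4
          exact h ((hq i b' h4).trans b'.2)
        rw [this]
        simp
    rw [h3]
    exact hd0

end Pool.Agent.Zilber
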