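import Pool.Agent.Zilber.DDefs
import Pool.Agent.Zil.GMDefs

set_option autoImplicit false

/-! Core D, G1, DM1: the residue relation of an embedding. -/

namespace Pool.Agent.Zilber

open Pool.Agent.LSharp Pool.Agent.Zil.Gam

section

variable {Ω : Type} [Field Ω] [Algebra ℂ Ω] {v : Ω → ℝ}

/-- zero or of positive value -/
private def Sm (v : Ω → ℝ) (x : Ω) : Prop := x = 0 ∨ 0 < v x

private theorem rsd_iff {u : Ω} {c : ℂ} : Rsd v u c ↔ Sm v (u - algebraMap ℂ Ω c) := by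
  unfold Rsd Sm
  rw [sub_eq_zero]

private theorem sm_add (hv : RV ℂ v) {x y : Ω} (hx : Sm v x) (hy : Sm v y) : Sm v (x + y) := by
  rcases eq_or_ne x 0 with h1 | h1
  · rw [h1, zero_add]
    exact hy
  rcases eq_or_ne y 0 with h2 | h2
  · rw [h2, add_zero]
    exact hx
  rcases eq_or_ne (x + y) 0 with h3 | h3
  · exact Or.inl h3
  have h4 : 0 < v x := hx.resolve_left h1
  have h5 : 0 < v y := hy.resolve_left h2
  exact Or.inr ((lt_min h4 h5).trans_le (hv.add x y h1 h2 h3))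

private theorem sm_mul (hv : RV ℂ v) {x y : Ω} (hx : Sm v x) (hy : y = 0 ∨ 0 ≤ v y) :
    Sm v (x * y) := by
  rcases eq_or_ne x 0 with h1 | h1
  · left
    rw [h1, zero_mul]
  rcases eq_or_ne y 0 with h2 | h2
  · left
    rw [h2, mul_zero]
  right
  have h4 : 0 < v x := hx.resolve_left h1
  have h5 : 0 ≤ v y := hy.resolve_left h2
  rw [hv.mul x y h1 h2]
  linarith

private theorem sm_neg (hv : RV ℂ v) {x : Ω} (hx : Sm v x) : Sm v (-x) := by
  rcases eq_or_ne x 0 with h1 | h1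
  · left
    rw [h1, neg_zero]
  · right
    rw [rv_neg hv h1]
    exact hx.resolve_left h1

private theorem alg_ne {c : ℂ} (hc : c ≠ 0) : algebraMap ℂ Ω c ≠ 0 :=
  (map_ne_zero (algebraMap ℂ Ω)).2 hc

private theorem alg_int (hv : RV ℂ v) (c : ℂ) :
    algebraMap ℂ Ω c = 0 ∨ 0 ≤ v (algebraMap ℂ Ω c) := by
  rcases eq_or_ne c 0 with h | h
  · left
    rw [h, map_zero]
  · right
    rw [hv.triv c h]

private theorem rsd_int (hv : RV ℂ v) {u : Ω} {c : ℂ} (h : Rsd v u c) : u = 0 ∨ 0 ≤ v u := by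
  rcases eq_or_ne u 0 with h0 | h0
  · exact Or.inl h0
  right
  rcases h with h | h
  · rw [h]
    exact (alg_int hv c).resolve_left (by rw [← h]; exact h0)
  rcases eq_or_ne (u - algebraMap ℂ Ω c) 0 with h1 | h1
  · rw [sub_eq_zero] at h1
    have h2 := (alg_int (Ω := Ω) hv c).resolve_left (by rw [← h1]; exact h0)
    rw [h1]
    exact h2
  rcases eq_or_ne c 0 with h2 | h2
  · rw [h2, map_zero, sub_zero] at h
    exact h.le
  have h3 : u - algebraMap ℂ Ω c + algebraMap ℂ Ω c = u := by ring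
  have h4 := hv.add (u - algebraMap ℂ Ω c) (algebraMap ℂ Ω c) h1 (alg_ne h2)
    (by rw [h3]; exact h0)
  rw [h3, hv.triv c h2] at h4
  exact (le_min h.le le_rfl).trans h4

end

/-- Sums of residues. (If `u ≠ algebraMap c` the value of the difference is positive; `RV.add`, cases where sums
vanish.) -/
theorem rsd_add {Ω : Type} [Field Ω] [Algebra ℂ Ω] {v : Ω → ℝ} (hv : RV ℂ v) {u u' : Ω} {c c' : ℂ}
    (h : Rsd v u c) (h' : Rsd v u' c') : Rsd v (u + u') (c + c') := by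
  rw [rsd_iff] at h h' ⊢
  have e : u + u' - algebraMap ℂ Ω (c + c') =
      (u - algebraMap ℂ Ω c) + (u' - algebraMap ℂ Ω c') := by
    rw [map_add]
    ring
  rw [e]
  exact sm_add hv h h'

/-- Products of residues: `u u' - c c' = (u - c) u' + c (u' - c')`; `u'` is `0` or has value `≥ 0`, `c` is `0` or has value
`0` (`RV.triv`). -/
theorem rsd_mul {Ω : Type} [Field Ω] [Algebra ℂ Ω] {v : Ω → ℝ} (hv : RV ℂ v) {u u' : Ω} {c c' : ℂ}
    (h : Rsd v u c) (h' : Rsd v u' c') : Rsd v (u * u') (c * c') := by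
  have hi := rsd_int hv h'
  rw [rsd_iff] at h h' ⊢
  have e : u * u' - algebraMap ℂ Ω (c * c') =
      (u - algebraMap ℂ Ω c) * u' + (u' - algebraMap ℂ Ω c') * algebraMap ℂ Ω c := by
    rw [map_mul]
    ring
  rw [e]
  exact sm_add hv (sm_mul hv h hi) (sm_mul hv h' (alg_int hv c))

theorem rsd_neg {Ω : Type} [Field Ω] [Algebra ℂ Ω] {v : Ω → ℝ} (hv : RV ℂ v) {u : Ω} {c : ℂ}
    (h : Rsd v u c) : Rsd v (-u) (-c) := by
  rw [rsd_iff] at h ⊢
  have e : -u - algebraMap ℂ Ω (-c) = -(u - algebraMap ℂ Ω c) := by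
    rw [map_neg]
    ring
  rw [e]
  exact sm_neg hv h

/-- Elements with a nonzero residue have value `0`. -/
theorem rsd_unit {Ω : Type} [Field Ω] [Algebra ℂ Ω] {v : Ω → ℝ} (hv : RV ℂ v) {u : Ω} {c : ℂ}
    (h : Rsd v u c) (hc : c ≠ 0) : u ≠ 0 ∧ v u = 0 := by
  have hc0 : algebraMap ℂ Ω c ≠ 0 := alg_ne hc
  rcases eq_or_ne (u - algebraMap ℂ Ω c) 0 with h1 | h1
  · rw [sub_eq_zero] at h1
    rw [h1]
    exact ⟨hc0, hv.triv c hc⟩
  have h2 : 0 < v (u - algebraMap ℂ Ω c) := (rsd_iff.1 h).resolve_left h1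
  have hu : u ≠ 0 := by
    intro h0
    rw [h0, zero_sub, rv_neg hv hc0, hv.triv c hc] at h2
    exact lt_irrefl _ h2
  refine ⟨hu, le_antisymm ?_ ((rsd_int hv h).resolve_left hu)⟩
  by_contra hcon
  push Not at hcon
  have e : u + -(u - algebraMap ℂ Ω c) = algebraMap ℂ Ω c := by ring
  have h3 := hv.add u (-(u - algebraMap ℂ Ω c)) hu (neg_ne_zero.2 h1) (by rw [e]; exact hc0)
  rw [e, rv_neg hv h1, hv.triv c hc] at h3
  exact absurd ((lt_min hcon h2).trans_le h3) (lt_irrefl _)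

/-- `u⁻¹ - c⁻¹ = - (u - c) / (u c)`. -/
theorem rsd_inv {Ω : Type} [Field Ω] [Algebra ℂ Ω] {v : Ω → ℝ} (hv : RV ℂ v) {u : Ω} {c : ℂ}
    (h : Rsd v u c) (hc : c ≠ 0) : Rsd v u⁻¹ c⁻¹ := by
  obtain ⟨hu, hvu⟩ := rsd_unit hv h hc
  have hc0 : algebraMap ℂ Ω c ≠ 0 := alg_ne hc
  have h1 : (u * algebraMap ℂ Ω c)⁻¹ = 0 ∨ 0 ≤ v (u * algebraMap ℂ Ω c)⁻¹ := by
    right
    rw [rv_inv hv (mul_ne_zero hu hc0), hv.mul _ _ hu hc0, hvu, hv.triv c hc]
    simp
  rw [rsd_iff] at h ⊢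
  have e : u⁻¹ - algebraMap ℂ Ω c⁻¹ =
      -((u - algebraMap ℂ Ω c) * (u * algebraMap ℂ Ω c)⁻¹) := by
    rw [map_inv₀]
    field_simp
    ring
  rw [e]
  exact sm_neg hv (sm_mul hv h h1)

/-- **The residue relation.** The set of the `c` in `closure A` which are residues of elements of `E'` is a subfield
(`rsd_add`, ..), it contains `A`. -/
theorem dm_resd {E Ω : Type} [Field E] [Field Ω] [Algebra ℂ Ω] {v : Ω → ℝ} (hv : RV ℂ v)
    (φ : E →+* Ω) (E' : Subfield E) (A : Set ℂ) (hA : ∀ c ∈ A, ∃ e ∈ E', Rsd v (φ e) c) :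
    Resd (fun e : E' => v (φ e)) (fun (e : E') (c : Subfield.closure A) => Rsd v (φ e) (c : ℂ)) := by
  have hφ : ∀ x : E', x ≠ 0 → φ (x : E) ≠ 0 := fun x hx =>
    (map_ne_zero φ).2 fun h => hx (Subtype.ext h)
  have h1 : Rsd v (φ 1) 1 := Or.inl (by rw [map_one, map_one])
  have h0 : Rsd v (φ 0) 0 := Or.inl (by rw [map_zero, map_zero])
  let S : Subfield ℂ :=
    { carrier := {c | ∃ e ∈ E', Rsd v (φ e) c}
      mul_mem' := by
        rintro a b ⟨e, he, h⟩ ⟨e', he', h'⟩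
        exact ⟨e * e', E'.mul_mem he he', by rw [map_mul]; exact rsd_mul hv h h'⟩
      one_mem' := ⟨1, E'.one_mem, h1⟩
      add_mem' := by
        rintro a b ⟨e, he, h⟩ ⟨e', he', h'⟩
        exact ⟨e + e', E'.add_mem he he', by rw [map_add]; exact rsd_add hv h h'⟩
      zero_mem' := ⟨0, E'.zero_mem, h0⟩
      neg_mem' := by
        rintro a ⟨e, he, h⟩
        exact ⟨-e, E'.neg_mem he, by rw [map_neg]; exact rsd_neg hv h⟩
      inv_mem' := by
        rintro a ⟨e, he, h⟩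
        rcases eq_or_ne a 0 with ha | ha
        · rw [ha, inv_zero]
          exact ⟨0, E'.zero_mem, h0⟩
        · exact ⟨e⁻¹, E'.inv_mem he, by rw [map_inv₀]; exact rsd_inv hv h ha⟩ }
  have hS : Subfield.closure A ≤ S := Subfield.closure_le.2 hA
  refine ⟨?_, ?_, h1, ?_, ?_, ?_, ?_, ?_, ?_⟩
  · intro x y hx hy
    show v (φ ((x * y : E') : E)) = _
    rw [Subfield.coe_mul, map_mul]
    exact hv.mul _ _ (hφ x hx) (hφ y hy)
  · intro x y hx hy hxy
    show _ ≤ v (φ ((x + y : E') : E))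
    have h2 := hφ _ hxy
    rw [Subfield.coe_add, map_add] at h2 ⊢
    exact hv.add _ _ (hφ x hx) (hφ y hy) h2
  · intro e e' c c' h h'
    show Rsd v (φ ((e + e' : E') : E)) ((c + c' : Subfield.closure A) : ℂ)
    rw [Subfield.coe_add, map_add]
    exact rsd_add hv h h'
  · intro e e' c c' h h'
    show Rsd v (φ ((e * e' : E') : E)) ((c * c' : Subfield.closure A) : ℂ)
    rw [Subfield.coe_mul, map_mul]
    exact rsd_mul hv h h'
  · intro e c h
    show Rsd v (φ ((-e : E') : E)) ((-c : Subfield.closure A) : ℂ)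
    rw [Subfield.coe_neg, map_neg]
    exact rsd_neg hv h
  · intro e
    show Rsd v (φ (e : E)) ((0 : Subfield.closure A) : ℂ) ↔ e = 0 ∨ 0 < v (φ (e : E))
    unfold Rsd
    rw [Subfield.coe_zero, map_zero, sub_zero, map_eq_zero φ]
    constructor
    · rintro (h | h)
      · exact Or.inl (Subtype.ext h)
      · exact Or.inr h
    · rintro (h | h)
      · exact Or.inl (by rw [h]; rfl)
      · exact Or.inr h
  · intro e c h hc
    obtain ⟨h2, h3⟩ := rsd_unit hv h fun h4 => hc (Subtype.ext h4)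
    refine ⟨fun h4 => h2 ?_, h3⟩
    rw [h4]
    exact map_zero φ
  · intro c
    obtain ⟨e, he, h⟩ := hS c.2
    exact ⟨⟨e, he⟩, h⟩

end Pool.Agent.Zilber
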