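import Pool.Agent.Zilber.DLinS
import Pool.Agent.Zilber.DGam
import Pool.Agent.Zilber.DEnd

set_option autoImplicit false

/-! Core D: assembly. -/

namespace Pool.Agent.Zilber

open Filter NumberField Module Pool.Agent.LAll Pool.Agent.LSharp Pool.Agent.CITLines

variable {J : Type} {𝒰 : Ultrafilter J} {K : J → Type} [∀ j, Field (K j)] [∀ j, NumberField (K j)]
  {k : ℕ} {s : Fin (k + 1) → J → ℝ} {ι β : Type} [Fintype ι]
  [Fintype β] [DecidableEq β] {cl : ι → Fin (k + 1)} {x : ι → Ult 𝒰 K} {bs : β → ι}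
  {X : ι → Ult 𝒰 (PS β K)}

/-- **Core of case D.** -/
theorem coreD' (hc : Conf 𝒰 K s (FD 𝒰 K s) cl x bs) (hX : Br 𝒰 K (FD 𝒰 K s) cl x bs X)
    (σ : ∀ j, K j →+* ℂ)
    (hnc : ∀ a : ι → ℤ, a ≠ 0 → (∀ i, a i ≠ 0 → cl i = 0) → Transcendental ℚ (mon x a))
    (V : Submodule ℝ (ι → ℝ)) (hV : V ≤ Ker 𝒰 K s cl x) (hr : rkO σ X V = Fintype.card β)
    (h1 : finrank ℝ (V ⊓ pos cl : Submodule ℝ (ι → ℝ)) + Fintype.card β + 1 ≤
      finrank ℝ V + rkO σ X (V ⊓ pos cl)) : False := by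
  obtain ⟨g, q, R, hD⟩ := d_lin hc hX σ hnc V hV hr h1
  exact d_end hc hX σ hD (d_gamma hc hX σ hnc hD)

end Pool.Agent.Zilber
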