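import Mathlib

set_option autoImplicit false

/-! Core D, G2: many points with large first coordinate. -/

namespace Pool.Agent.Zilber

/-- **Many points.** -/
theorem pos_pts {ι β : Type} [Fintype ι] [Fintype β] [DecidableEq β] (r : ℝ) (hr : 0 < r)
    (h : ι → (β → ℂ) → ℂ) (hd : ∀ i, DifferentiableOn ℂ (h i) (Metric.ball 0 r))
    (hne : ∀ i, ∀ y ∈ Metric.ball (0 : β → ℂ) r, h i y ≠ 0) (R : Option β → ι → ℝ)
    (hR : LinearIndependent ℝ R)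
    (hli : ∀ γ : ι → ℝ, (∀ y ∈ Metric.ball (0 : β → ℂ) r, ∀ b,
      ∑ i, (γ i : ℂ) * fderiv ℂ (h i) y (Pi.single b 1) / h i y = 0) → γ = 0)
    (hdet : ∃ y ∈ Metric.ball (0 : β → ℂ) r, (Matrix.of fun b b' : β =>
      ∑ i, (R (some b) i : ℂ) * fderiv ℂ (h i) y (Pi.single b' 1) / h i y).det ≠ 0) (C : ℝ) :
    ∃ (κ : ℝ) (N0 : ℕ), 0 < κ ∧ ∀ N : ℕ, N0 ≤ N → ∀ a : Option β → ι → ℤ,
      (∀ o i, |(a o i : ℝ) - N * R o i| ≤ C) → ∀ ρ : Option β → ℂ, (∀ o, ρ o ≠ 0) →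
      (∀ o, |Real.log ‖ρ o‖| ≤ C * N) →
      ∃ A : Matrix (Option β) (Option β) ℤ, IsUnit A.det ∧ ∀ ζ : β → ℂ, (∀ b, ‖ζ b‖ = 1) →
        ∃ T : Finset (β → ℂ), κ * (N : ℝ) ^ Fintype.card β ≤ T.card ∧ ∀ y ∈ T,
          y ∈ Metric.ball (0 : β → ℂ) r ∧
          (∀ b, ∏ o, (ρ o * ∏ i, h i y ^ a o i) ^ A (some b) o = ζ b) ∧
          Real.exp (κ * N) ≤ ‖∏ o, (ρ o * ∏ i, h i y ^ a o i) ^ A none o‖ := by
  sorry

end Pool.Agent.Zilber
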