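import Pool.Agent.LSharp.BRDefs
import Pool.Agent.LSharp.TSDefs
import Pool.Agent.CITLines.Rel

set_option autoImplicit false

/-!
# The Zilber conjecture for tori (`S18257`): definitions

Points of tori over number fields `K j`, `j : J`, with an ultrafilter `𝒰` on `J`; elements of the
ultraproduct `Ult 𝒰 K`; blocks `l : Fin (k + 1)` with scales `s l : J → ℝ` (the size of the heights of the
coordinates of the block), `s 0 = 1`.
-/

namespace Pool.Agent.Zilber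

open Filter Topology NumberField Module Pool.Agent.LAll Pool.Agent.LSharp Pool.Agent.CITLines

section Fields

variable {J : Type} (𝒰 : Ultrafilter J)

/-- `σ = o(s)` along `𝒰`. -/
def Oo (σ s : J → ℝ) : Prop := ∀ ε : ℝ, 0 < ε → ∀ᶠ j in (𝒰 : Filter J), σ j ≤ ε * |s j|

theorem Oo.max {σ σ' s : J → ℝ} (h : Oo 𝒰 σ s) (h' : Oo 𝒰 σ' s) :
    Oo 𝒰 (fun j => max (σ j) (σ' j)) s := by
  intro ε hε
  filter_upwards [h ε hε, h' ε hε] with j h1 h2
  exact max_le h1 h2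

theorem Oo.zero (s : J → ℝ) : Oo 𝒰 (fun _ => 0) s := fun _ hε =>
  Filter.Eventually.of_forall fun _ => mul_nonneg hε.le (abs_nonneg _)

variable (K : J → Type) [∀ j, Field (K j)] [∀ j, NumberField (K j)]

theorem Lf_mono {σ σ' : J → ℝ} (h : ∀ j, σ j ≤ σ' j) : Lf 𝒰 K σ ≤ Lf 𝒰 K σ' := by
  rintro _ ⟨z, rfl, hz⟩
  refine ⟨z, rfl, hz.mono ⟨1, Filter.Eventually.of_forall fun j => ?_⟩⟩
  rw [one_mul]
  exact (h j).trans (le_max_right _ _)

theorem kf_mono {σ σ' : J → ℝ} (h : ∀ j, σ j ≤ σ' j) : kf 𝒰 K σ ≤ kf 𝒰 K σ' := by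
  rintro _ ⟨z, rfl, hz⟩
  refine ⟨z, rfl, hz.mono ⟨1, Filter.Eventually.of_forall fun j => ?_⟩⟩
  rw [one_mul]
  exact (h j).trans (le_max_right _ _)

/-- The union of the fields `G σ`, `σ = o(s)`. -/
def unionF (G : (J → ℝ) → Subfield (Ult 𝒰 K))
    (hG : ∀ σ σ' : J → ℝ, (∀ j, σ j ≤ σ' j) → G σ ≤ G σ') (s : J → ℝ) :
    Subfield (Ult 𝒰 K) where
  carrier := {x | ∃ σ : J → ℝ, Oo 𝒰 σ s ∧ x ∈ G σ}
  zero_mem' := ⟨_, Oo.zero 𝒰 s, zero_mem _⟩
  one_mem' := ⟨_, Oo.zero 𝒰 s, one_mem _⟩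
  add_mem' := by
    rintro a b ⟨σ, hσ, ha⟩ ⟨σ', hσ', hb⟩
    exact ⟨fun j => max (σ j) (σ' j), hσ.max 𝒰 hσ',
      add_mem (hG _ _ (fun j => le_max_left _ _) ha) (hG _ _ (fun j => le_max_right _ _) hb)⟩
  mul_mem' := by
    rintro a b ⟨σ, hσ, ha⟩ ⟨σ', hσ', hb⟩
    exact ⟨fun j => max (σ j) (σ' j), hσ.max 𝒰 hσ',
      mul_mem (hG _ _ (fun j => le_max_left _ _) ha) (hG _ _ (fun j => le_max_right _ _) hb)⟩
  neg_mem' := by
    rintro a ⟨σ, hσ, ha⟩
    exact ⟨σ, hσ, neg_mem ha⟩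
  inv_mem' := by
    rintro a ⟨σ, hσ, ha⟩
    exact ⟨σ, hσ, inv_mem ha⟩

/-- The subfield of the elements of the ultraproduct of height `O(1) + o(s)`. -/
noncomputable def Lo (s : J → ℝ) : Subfield (Ult 𝒰 K) :=
  unionF 𝒰 K (Lf 𝒰 K) (fun _ _ h => Lf_mono 𝒰 K h) s

/-- The subfield of the (classes of families of) rational numbers of height `O(1) + o(s)`. -/
noncomputable def ko (s : J → ℝ) : Subfield (Ult 𝒰 K) :=
  unionF 𝒰 K (kf 𝒰 K) (fun _ _ h => kf_mono 𝒰 K h) s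

theorem mem_Lo {s : J → ℝ} {x : Ult 𝒰 K} : x ∈ Lo 𝒰 K s ↔ ∃ σ : J → ℝ, Oo 𝒰 σ s ∧ x ∈ Lf 𝒰 K σ :=
  Iff.rfl

theorem mem_ko {s : J → ℝ} {x : Ult 𝒰 K} : x ∈ ko 𝒰 K s ↔ ∃ σ : J → ℝ, Oo 𝒰 σ s ∧ x ∈ kf 𝒰 K σ :=
  Iff.rfl

variable {k : ℕ}

/-- The base fields of Theorem M: rational numbers in block `0`, height `o(s l)` in block `l ≥ 1`. -/
noncomputable def kk (s : Fin (k + 1) → J → ℝ) (l : Fin (k + 1)) : Subfield (Ult 𝒰 K) :=
  if l = 0 then kf 𝒰 K (s 0) else Lo 𝒰 K (s l)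

/-- The base fields of case A: rational numbers of height `o(s l)`. -/
noncomputable def FA (s : Fin (k + 1) → J → ℝ) (l : Fin (k + 1)) : Subfield (Ult 𝒰 K) :=
  ko 𝒰 K (s l)

/-- The base fields of case D: rational numbers of height `O(s l)`. -/
noncomputable def FD (s : Fin (k + 1) → J → ℝ) (l : Fin (k + 1)) : Subfield (Ult 𝒰 K) :=
  kf 𝒰 K (s l)

/-- The scales: `s 0 = 1`, `1 ≤ s l`, and `s l / s l' → 0` for `l < l'`. -/
structure Scl (s : Fin (k + 1) → J → ℝ) : Prop where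
  zero : ∀ j, s 0 j = 1
  one : ∀ l j, 1 ≤ s l j
  sep : ∀ l l', l < l' → Tendsto (fun j => s l j / s l' j) (𝒰 : Filter J) (𝓝 0)

variable {ι : Type} [Fintype ι]

/-- The kernel: the real vectors `α` with `∑_v |∑_i α_i λ_v(x_i) / s_i| → 0` along `𝒰` (for every finite set
of places, uniformly). -/
noncomputable def Ker (s : Fin (k + 1) → J → ℝ) (cl : ι → Fin (k + 1)) (x : ι → Ult 𝒰 K) :
    Submodule ℝ (ι → ℝ) where
  carrier := {α | ∀ ε : ℝ, 0 < ε → ∀ᶠ j in (𝒰 : Filter J), ∀ S : Finset (FinitePlace (K j)),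
    ∑ v : Plc (K j) S, |∑ i, α i * lam v ((x i).rep j) / s (cl i) j| ≤ ε}
  zero_mem' := fun ε hε => Filter.Eventually.of_forall fun j S => by simpa using hε.le
  add_mem' := by
    intro α α' h h' ε hε
    filter_upwards [h (ε / 2) (by linarith), h' (ε / 2) (by linarith)] with j h1 h2 S
    have h3 : ∀ v : Plc (K j) S, |∑ i, (α + α') i * lam v ((x i).rep j) / s (cl i) j| ≤
        |∑ i, α i * lam v ((x i).rep j) / s (cl i) j| +
          |∑ i, α' i * lam v ((x i).rep j) / s (cl i) j| := by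
      intro v
      refine le_trans (le_of_eq ?_) (abs_add_le _ _)
      rw [← Finset.sum_add_distrib]
      congr 1
      refine Finset.sum_congr rfl fun i _ => ?_
      rw [Pi.add_apply]
      ring
    calc _ ≤ ∑ v : Plc (K j) S, (|∑ i, α i * lam v ((x i).rep j) / s (cl i) j| +
          |∑ i, α' i * lam v ((x i).rep j) / s (cl i) j|) := Finset.sum_le_sum fun v _ => h3 v
      _ ≤ ε := by
        rw [Finset.sum_add_distrib]
        linarith [h1 S, h2 S]
  smul_mem' := by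
    intro c α h ε hε
    filter_upwards [h (ε / (|c| + 1)) (by positivity)] with j h1 S
    have h3 : ∀ v : Plc (K j) S, |∑ i, (c • α) i * lam v ((x i).rep j) / s (cl i) j| =
        |c| * |∑ i, α i * lam v ((x i).rep j) / s (cl i) j| := by
      intro v
      rw [← abs_mul, Finset.mul_sum]
      congr 1
      refine Finset.sum_congr rfl fun i _ => ?_
      rw [Pi.smul_apply, smul_eq_mul]
      ring
    rw [Finset.sum_congr rfl fun v _ => h3 v, ← Finset.mul_sum]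
    have h4 := h1 S
    have h5 : (0 : ℝ) < |c| + 1 := by positivity
    have h6 : (0 : ℝ) ≤ ∑ v : Plc (K j) S, |∑ i, α i * lam v ((x i).rep j) / s (cl i) j| :=
      Finset.sum_nonneg fun _ _ => abs_nonneg _
    rw [le_div_iff₀ h5] at h4
    nlinarith [abs_nonneg c]

/-- **The hypotheses of Theorem M.** -/
structure BD (s : Fin (k + 1) → J → ℝ) (cl : ι → Fin (k + 1)) (x : ι → Ult 𝒰 K) : Prop where
  scl : Scl 𝒰 s
  ne : ∀ i, x i ≠ 0
  hgt : ∀ i, x i ∈ Lf 𝒰 K (s (cl i))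
  low : ∀ (l : Fin (k + 1)) (a : ι → ℤ), l ≠ 0 → a ≠ 0 → (∀ i, a i ≠ 0 → cl i = l) →
    ∃ c : ℝ, 0 < c ∧ ∀ᶠ j in (𝒰 : Filter J), c * s l j ≤ ht ((mon x a).rep j)
  nc : ∀ a : ι → ℤ, a ≠ 0 → (∀ i, a i ≠ 0 → cl i = 0) → Transcendental ℚ (mon x a)

/-- The transcendence degree of the blocks over the base fields `G`. -/
noncomputable def tr (G : Fin (k + 1) → Subfield (Ult 𝒰 K)) (cl : ι → Fin (k + 1))
    (x : ι → Ult 𝒰 K) : ℕ∞ :=
  ∑ l, rk (G l) {y | ∃ i, cl i = l ∧ y = x i}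

variable {β : Type} [Fintype β]

/-- **Configuration**: coordinates `x i` of height `O(s (cl i))`, base fields `F l`, transcendence bases
`x (bs b)`. -/
structure Conf (s : Fin (k + 1) → J → ℝ) (F : Fin (k + 1) → Subfield (Ult 𝒰 K))
    (cl : ι → Fin (k + 1)) (x : ι → Ult 𝒰 K) (bs : β → ι) : Prop where
  scl : Scl 𝒰 s
  ne : ∀ i, x i ≠ 0
  hgt : ∀ i, x i ∈ Lf 𝒰 K (s (cl i))
  ind : ∀ l, AlgebraicIndependent (F l) (fun b : {b // cl (bs b) = l} => x (bs b))
  alg : ∀ i, IsAlgebraic (Algebra.adjoin (F (cl i)) {y | ∃ b, cl (bs b) = cl i ∧ y = x (bs b)}) (x i)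

/-- **The branch** of a configuration: the Taylor expansions of the coordinates. -/
structure Br (F : Fin (k + 1) → Subfield (Ult 𝒰 K))
    (cl : ι → Fin (k + 1)) (x : ι → Ult 𝒰 K) (bs : β → ι) (X : ι → Ult 𝒰 (PS β K)) : Prop where
  ex : ∀ l, ∃ (L : Subfield (Ult 𝒰 K)) (τ : L →+* Ult 𝒰 (PS β K)), F l ≤ L ∧
    (∀ i, cl i = l → x i ∈ L) ∧
    (∀ y : L, IsAlgebraic (Algebra.adjoin (F l) {y | ∃ b, cl (bs b) = l ∧ y = x (bs b)})
      (y : Ult 𝒰 K)) ∧
    (∀ y, eps0 β K (τ y) = y) ∧ (∀ y : L, (y : Ult 𝒰 K) ∈ F l → τ y = cst β K y) ∧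
    (∀ b, cl (bs b) = l → ∀ y : L, (y : Ult 𝒰 K) = x (bs b) →
      τ y = cst β K (x (bs b)) + XU K b) ∧
    (∀ y, ∀ᶠ j in (𝒰 : Filter J), (τ y).rep j ∈ onlyB {b | cl (bs b) = l}) ∧
    ∀ i, cl i = l → ∀ y : L, (y : Ult 𝒰 K) = x i → X i = τ y

end Fields

section Wedge

variable {ι β : Type} [Fintype ι] [Fintype β] [DecidableEq β]

/-- The logarithmic derivative of a power series. -/
noncomputable def ld {F : Type} [Field F] (b : β) (f : MvPowerSeries β F) : MvPowerSeries β F :=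
  MvPowerSeries.pderiv F b f * f⁻¹

/-- The form `∑ i, R i * dlog f_i` of a real vector `R`, over the complex numbers. -/
noncomputable def om {F : Type} [Field F] (σ : F →+* ℂ) (f : ι → MvPowerSeries β F) (R : ι → ℝ)
    (b : β) : MvPowerSeries β ℂ :=
  ∑ i, MvPowerSeries.C (R i : ℂ) * ld b (MvPowerSeries.map σ (f i))

/-- The wedge product of the forms of `R` is not zero (partial: the columns `e`). -/
def Wdg {F : Type} [Field F] (σ : F →+* ℂ) (f : ι → MvPowerSeries β F) {γ : Type} [Fintype γ]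
    [DecidableEq γ] (R : γ → ι → ℝ) (e : γ → β) : Prop :=
  (Matrix.of fun r c => om σ f (R r) (e c)).det ≠ 0

variable {J : Type} {𝒰 : Ultrafilter J} {K : J → Type} [∀ j, Field (K j)]

/-- The ultraproduct of the rings of complex power series. -/
abbrev UC (𝒰 : Ultrafilter J) (β : Type) : Type := Ult 𝒰 fun _ : J => MvPowerSeries β ℂ

/-- The form of a real vector, in the fraction field of the ultraproduct of the power series rings. -/
noncomputable def omU (σ : ∀ j, K j →+* ℂ) (X : ι → Ult 𝒰 (PS β K)) (R : ι → ℝ) :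
    β → FractionRing (UC 𝒰 β) :=
  fun b => algebraMap (UC 𝒰 β) (FractionRing (UC 𝒰 β))
    (Ult.mk 𝒰 (fun _ : J => MvPowerSeries β ℂ) fun j => om (σ j) (fun i => (X i).rep j) R b)

/-- The rank of a real subspace on the branch. -/
noncomputable def rkO (σ : ∀ j, K j →+* ℂ) (X : ι → Ult 𝒰 (PS β K))
    (V : Submodule ℝ (ι → ℝ)) : ℕ :=
  finrank (FractionRing (UC 𝒰 β))
    (Submodule.span (FractionRing (UC 𝒰 β)) (omU σ X '' (V : Set (ι → ℝ))))

/-- The real span of integer vectors. -/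
noncomputable def spR {γ : Type} (e : γ → ι → ℤ) : Submodule ℝ (ι → ℝ) :=
  Submodule.span ℝ (Set.range fun p i => (e p i : ℝ))

/-- The field generated by power series. -/
abbrev GF {F : Type} [Field F] (f : ι → MvPowerSeries β F) : Type :=
  ↥(IntermediateField.adjoin F (Set.range fun i => algebraMap (MvPowerSeries β F)
    (FractionRing (MvPowerSeries β F)) (f i)))

/-- The power series as elements of the field which they generate. -/
noncomputable def gen {F : Type} [Field F] (f : ι → MvPowerSeries β F) (i : ι) : GF f :=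
  ⟨algebraMap _ _ (f i), IntermediateField.subset_adjoin _ _ ⟨i, rfl⟩⟩

end Wedge

end Pool.Agent.Zilber
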