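import Pool.Agent.CITLines.Rel

set_option autoImplicit false

/-! EXT: constants as variables (pure field theory). -/

namespace Pool.Agent.Zilber

open Pool.Agent.CITLines

/-- Algebraic over `(F ⊔ G)[t]` implies algebraic over `F[G ∪ t]`. -/
private theorem ext_alg {E : Type} [Field E] (F G : Subfield E) (t : Set E) (a : E)
    (h : IsAlgebraic (Algebra.adjoin ↥(F ⊔ G) t) a) :
    IsAlgebraic (Algebra.adjoin F ((G : Set E) ∪ t)) a := by
  rw [← IntermediateField.isAlgebraic_adjoin_iff]
  obtain ⟨L, hL⟩ : ∃ L : IntermediateField F E,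
    L = IntermediateField.adjoin F ((G : Set E) ∪ t) := ⟨_, rfl⟩
  rw [← hL]
  have hsub : (G : Set E) ∪ t ⊆ (L : Set E) := by
    rw [hL]
    exact IntermediateField.subset_adjoin _ _
  have hB : F ⊔ G ≤ L.toSubfield :=
    sup_le (fun x hx => L.algebraMap_mem ⟨x, hx⟩) (fun x hx => hsub (Or.inl hx))
  have hle : ∀ x ∈ Algebra.adjoin ↥(F ⊔ G) t, x ∈ L := by
    intro x hx
    induction hx using Algebra.adjoin_induction with
    | mem x hx => exact hsub (Or.inr hx)
    | algebraMap r => exact hB r.2
    | add x y _ _ hx hy => exact add_mem hx hy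
    | mul x y _ _ hx hy => exact mul_mem hx hy
  let f : Algebra.adjoin ↥(F ⊔ G) t →+* L :=
    { toFun := fun x => ⟨x, hle x x.2⟩
      map_one' := rfl
      map_mul' := fun _ _ => rfl
      map_zero' := rfl
      map_add' := fun _ _ => rfl }
  let _ : Algebra (Algebra.adjoin ↥(F ⊔ G) t) L := f.toAlgebra
  have : IsScalarTower (Algebra.adjoin ↥(F ⊔ G) t) L E := .of_algebraMap_eq fun x => rfl
  refine h.extendScalars (S := L) fun x y hxy => ?_
  exact Subtype.ext (congrArg (fun z : L => (z : E)) hxy)

/-- Independence of the union: `c` independent over `F` with values in `G`, `z` independent over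
`F ⊔ G`. -/
private theorem ext_indep {E : Type} [Field E] (F G : Subfield E) {α β : Type} (c : α → E)
    (z : β → E) (hc : ∀ a, c a ∈ G) (h1 : AlgebraicIndependent F c)
    (h2 : AlgebraicIndependent ↥(F ⊔ G) z) : AlgebraicIndependent F (Sum.elim c z) := by
  let _ : Algebra F ↥(F ⊔ G) := (Subfield.inclusion le_sup_left).toAlgebra
  have : IsScalarTower F ↥(F ⊔ G) E := .of_algebraMap_eq fun x => rfl
  have h3 : AlgebraicIndependent F (Sum.elim z c) := by
    refine h1.sumElim_of_tower (S := ↥(F ⊔ G)) ?_ h2
    rintro _ ⟨a, rfl⟩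
    exact ⟨⟨c a, (le_sup_right : G ≤ F ⊔ G) (hc a)⟩, rfl⟩
  have h4 := (algebraicIndependent_equiv (R := F) (Equiv.sumComm α β) (f := Sum.elim z c)).2 h3
  have h5 : Sum.elim z c ∘ (Equiv.sumComm α β) = Sum.elim c z := by
    funext s
    rcases s with s | s <;> rfl
  rwa [h5] at h4

/-- A finite set enumerated. -/
private theorem ext_enum {E : Type} (t : Set E) (ht : t.Finite) :
    ∃ (m : ℕ) (_e : Fin m ≃ t), (m : ℕ∞) = t.encard := by
  have : Fintype t := ht.fintype
  refine ⟨Fintype.card t, (Fintype.equivFin t).symm, ?_⟩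
  rw [Set.encard_eq_coe_toFinset_card, Set.toFinset_card]

/-- **Constants as variables.** `F`, `G` subfields of `E`, `x` a finite family. There are finitely many
elements `c` of `G`, and a subfamily `x ∘ y`, such that `x ∘ y` is algebraically independent over
`F ⊔ G` (so its length is the transcendence degree), `(c, x ∘ y)` is algebraically independent over `F`,
and the `x i` are algebraic over `F(c, x ∘ y)`.

Proof. Let `B = F ⊔ G` (a subfield; `B = Subfield.closure (F ∪ G)`). Choose `I ⊆ ι` maximal with
`fun i : I => x i` algebraically independent over `B` (a basis of `range x` in the matroid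
`AlgebraicIndependent.matroid B E`, as in the proof of `dm_kr` in CITLines/Basic; or a maximal finset), `y`
an enumeration of `I`; `m = card I = rk B (range x)`, and every `x i` is algebraic over `B[x_I]`
(maximality). Every equation of `x i` over `B(x_I)` has finitely many coefficients, which are quotients of
polynomials in `x_I` with finitely many coefficients in `B`, and every element of `B` is in `F(S)` for a
finite `S ⊆ G` (the union of the subfields `Subfield.closure (F ∪ S)`, `S ⊆ G` finite, is directed and contains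
`F` and `G`, so it is `B`). So there is one finite set `S ⊆ G` such that all `x i` are algebraic over
`F(S, x_I)` (`IsAlgebraic` over `Algebra.adjoin F (S ∪ x '' I)`). Choose `c` = a maximal subset of `S`
algebraically independent over `F`; `S` is algebraic over `F(c)`, so the `x i` are algebraic over `F(c, x_I)`
(`rk`-style: `AlgebraicIndependent.matroid_closure_eq`, closure operators: `S ⊆ closure (c)`, so
`closure (S ∪ x_I) = closure (c ∪ x_I)`; this transitivity is contained in the matroid structure).
Independence of `(c, x_I)` over `F`: `x_I` is independent over `B`, so over the subfield `F(c) ≤ B`, and `c` is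
independent over `F`: `AlgebraicIndependent.sumElim` / `sumElim_iff` (Mathlib,
`Mathlib/RingTheory/AlgebraicIndependent/...`), or: a polynomial relation `P(c, x_I) = 0` read as a
polynomial in `x_I` over `F[c] ⊆ B` has all coefficients `P_e(c) = 0`, so `P_e = 0`. -/
theorem ext {E : Type} [Field E] (F G : Subfield E) {ι : Type} [Fintype ι] (x : ι → E) :
    ∃ (g m : ℕ) (c : Fin g → E) (y : Fin m → ι), (∀ a, c a ∈ G) ∧
      (m : ℕ∞) = rk (↥(F ⊔ G)) (Set.range x) ∧
      AlgebraicIndependent F (Sum.elim c (x ∘ y)) ∧
      ∀ i, IsAlgebraic (Algebra.adjoin F (Set.range (Sum.elim c (x ∘ y)))) (x i) := by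
  classical
  -- a transcendence basis of the family over `F ⊔ G`
  obtain ⟨t, ht⟩ := (AlgebraicIndependent.matroid ↥(F ⊔ G) E).exists_isBasis (Set.range x)
    (Set.subset_univ _)
  obtain ⟨ht1, ht2, ht3⟩ := AlgebraicIndependent.matroid_isBasis_iff.1 ht
  have htf : t.Finite := (Set.finite_range x).subset ht2
  obtain ⟨m, e, hm⟩ := ext_enum t htf
  have hy : ∀ j : Fin m, ∃ i, x i = (e j : E) := fun j => ht2 (e j).2
  choose y hy using hy
  -- finitely many constants are enough
  have hcl : ∀ i, ∃ S ⊆ (G : Set E) ∪ t, S.Finite ∧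
      x i ∈ (AlgebraicIndependent.matroid F E).closure S := by
    intro i
    have h1 : x i ∈ (AlgebraicIndependent.matroid F E).closure ((G : Set E) ∪ t) := by
      rw [AlgebraicIndependent.matroid_closure_eq]
      exact ext_alg F G t (x i) (ht3 _ ⟨i, rfl⟩)
    obtain ⟨S, h2, h3, -, h4⟩ := Matroid.exists_mem_finite_closure_of_mem_closure h1
    exact ⟨S, h2, h3, h4⟩
  choose S hS1 hS2 hS3 using hcl
  obtain ⟨S0, hS0⟩ : ∃ S0 : Set E, S0 = (⋃ i, S i) ∩ G := ⟨_, rfl⟩
  have hS0f : S0.Finite := by
    rw [hS0]
    exact (Set.finite_iUnion hS2).inter_of_left _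
  obtain ⟨J, hJ⟩ := (AlgebraicIndependent.matroid F E).exists_isBasis S0 (Set.subset_univ _)
  obtain ⟨hJ1, hJ2, -⟩ := AlgebraicIndependent.matroid_isBasis_iff.1 hJ
  have hJf : J.Finite := hS0f.subset hJ2
  obtain ⟨g, d, -⟩ := ext_enum J hJf
  have hcG : ∀ a : Fin g, (d a : E) ∈ G := by
    intro a
    have h1 := hJ2 (d a).2
    rw [hS0] at h1
    exact h1.2
  have hxy : x ∘ y = fun j => (e j : E) := funext hy
  have hrange : Set.range (Sum.elim (fun a => (d a : E)) (x ∘ y)) = J ∪ t := by
    rw [Set.Sum.elim_range, hxy]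
    congr 1
    · ext a
      constructor
      · rintro ⟨j, rfl⟩
        exact (d j).2
      · intro ha
        exact ⟨d.symm ⟨a, ha⟩, by simp⟩
    · ext a
      constructor
      · rintro ⟨j, rfl⟩
        exact (e j).2
      · intro ha
        exact ⟨e.symm ⟨a, ha⟩, by simp⟩
  refine ⟨g, m, fun a => (d a : E), y, hcG, ?_, ?_, fun i => ?_⟩
  · rw [hm]
    exact ht.encard_eq_eRk
  · refine ext_indep F G _ _ hcG ?_ ?_
    · have h1 : AlgebraicIndependent F ((↑) : J → E) := hJ1
      exact h1.comp d d.injective
    · rw [hxy]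
      have h1 : AlgebraicIndependent ↥(F ⊔ G) ((↑) : t → E) := ht1
      exact h1.comp e e.injective
  · rw [hrange]
    have h1 : x i ∈ (AlgebraicIndependent.matroid F E).closure (S0 ∪ t) := by
      refine (AlgebraicIndependent.matroid F E).closure_subset_closure ?_ (hS3 i)
      intro a ha
      rcases hS1 i ha with h | h
      · left
        rw [hS0]
        exact ⟨Set.mem_iUnion.2 ⟨i, ha⟩, h⟩
      · exact Or.inr h
    rw [← Matroid.closure_union_closure_left_eq, ← hJ.closure_eq_closure,
      Matroid.closure_union_closure_left_eq, AlgebraicIndependent.matroid_closure_eq] at h1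
    exact h1

end Pool.Agent.Zilber
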