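import Pool.Agent.Zilber.FCDefs

set_option autoImplicit false

/-! FC1. Logarithms of the coordinates on a small ball. -/

namespace Pool.Agent.Zilber

variable {ι β : Type} [Fintype ι] [Fintype β] [DecidableEq β] {r : ℝ} {h : ι → (β → ℂ) → ℂ}
  {c : β → ℂ} {R : Option β → ι → ℝ}

/-- **Logarithms.** `y₀` from `wd`; by continuity (`hP.cd`) there is a ball around `y₀` on which
`‖h i y / h i y₀ - 1‖ < 1` for all `i` (finitely many), so `h i y / h i y₀` is in the slit plane;
`ℓ i y = log (h i y / h i y₀) + log (h i y₀)`. (`Complex.contDiffAt_log`, `Complex.exp_log`, chain rule for the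
derivative: `HasFDerivAt.clog` or `Complex.hasDerivAt_log` composed.) -/
theorem pch_log (hP : Pch r h c R) : ∃ (y₀ : β → ℂ) (r₀ : ℝ), 0 < r₀ ∧
    Metric.ball y₀ r₀ ⊆ Metric.ball 0 r ∧
    (Matrix.of fun b b' : β =>
      ∑ i, (R (some b) i : ℂ) * fderiv ℂ (h i) y₀ (Pi.single b' 1) / h i y₀).det ≠ 0 ∧
    ∃ ℓ : ι → (β → ℂ) → ℂ, (∀ i, ContDiffOn ℂ 2 (ℓ i) (Metric.ball y₀ r₀)) ∧
      (∀ i, ∀ y ∈ Metric.ball y₀ r₀, Complex.exp (ℓ i y) = h i y) ∧
      ∀ i, ∀ y ∈ Metric.ball y₀ r₀, ∀ b, fderiv ℂ (ℓ i) y (Pi.single b 1) =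
        fderiv ℂ (h i) y (Pi.single b 1) / h i y := by
  obtain ⟨y₀, hy₀, hdet⟩ := hP.wd
  have hdf : ∀ i, ∀ y ∈ Metric.ball (0 : β → ℂ) r, DifferentiableAt ℂ (h i) y := fun i y hy =>
    ((hP.cd i).contDiffAt (Metric.isOpen_ball.mem_nhds hy)).differentiableAt (by norm_num)
  have hev : ∀ᶠ y in nhds y₀, (∀ i, ‖h i y / h i y₀ - 1‖ < 1) ∧ y ∈ Metric.ball (0 : β → ℂ) r := by
    refine Filter.Eventually.and ?_ (Metric.isOpen_ball.mem_nhds hy₀)
    rw [Filter.eventually_all]
    intro i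
    have h1 : ContinuousAt (fun y => ‖h i y / h i y₀ - 1‖) y₀ :=
      (((hdf i y₀ hy₀).continuousAt.div_const _).sub_const _).norm
    have h2 : ‖h i y₀ / h i y₀ - 1‖ < 1 := by
      rw [div_self (hP.ne i y₀ hy₀), sub_self, norm_zero]
      exact one_pos
    exact h1.eventually_lt_const h2
  obtain ⟨r₀, hr₀, hball⟩ := Metric.mem_nhds_iff.1 hev
  have hsl : ∀ i, ∀ y ∈ Metric.ball y₀ r₀, h i y / h i y₀ ∈ Complex.slitPlane := by
    intro i y hy
    have h1 := (hball hy).1 i
    have h2 := Complex.mem_slitPlane_of_norm_lt_one h1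
    rwa [add_sub_cancel] at h2
  refine ⟨y₀, r₀, hr₀, fun y hy => (hball hy).2, hdet,
    fun i y => Complex.log (h i y / h i y₀) + Complex.log (h i y₀), ?_, ?_, ?_⟩
  · intro i
    refine ContDiffOn.add ?_ contDiffOn_const
    intro y hy
    have h1 : ContDiffWithinAt ℂ 2 (fun y => h i y / h i y₀) (Metric.ball y₀ r₀) y :=
      (((hP.cd i).mono fun y hy => (hball hy).2).div_const _) y hy
    exact (Complex.contDiffAt_log (hsl i y hy)).comp_contDiffWithinAt y h1
  · intro i y hy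
    have h0 := hP.ne i y₀ hy₀
    have h1 := hP.ne i y (hball hy).2
    rw [Complex.exp_add, Complex.exp_log (div_ne_zero h1 h0), Complex.exp_log h0,
      div_mul_cancel₀ _ h0]
  · intro i y hy b
    have h0 := hP.ne i y₀ hy₀
    have h1 := hP.ne i y (hball hy).2
    have h2 : HasFDerivAt (fun y => h i y / h i y₀) ((h i y₀)⁻¹ • fderiv ℂ (h i) y) y := by
      have h3 := (hdf i y (hball hy).2).hasFDerivAt.mul_const (h i y₀)⁻¹
      simpa only [div_eq_mul_inv] using h3
    have h4 := (h2.clog (hsl i y hy)).add_const (Complex.log (h i y₀))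
    rw [h4.fderiv]
    simp only [smul_apply, smul_eq_mul]
    field_simp

/-- **No real combination of the logarithms is constant on an open set.** Let `∑ γ_i ℓ_i = b` on the open set
`U' ∋ y₁`. Then `∑ γ_i ∂_b h_i / h_i = 0` on `U'`. Let `y` be in the ball of radius `r` and `w ∈ U'`. The function
`t ↦ h_i(w + t (y - w))` is complex differentiable on the convex open set `{t : w + t (y - w) ∈ ball 0 r} ∋ 0, 1`, so
analytic there (`DifferentiableOn.analyticOnNhd` for one variable), and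
`F(t) = ∑ γ_i (d/dt h_i(w + t (y - w))) / h_i(w + t (y - w))` is analytic and vanishes for small `t`; by the identity
theorem (`AnalyticOnNhd.eqOn_zero_of_preconnected_of_eventuallyEq_zero`) `F(1) = 0`:
`∑ γ_i (fderiv h_i y) (y - w) / h_i y = 0` for all `w ∈ U'`. This is linear in `y - w`, and the `y - w` form an open set, so
it vanishes on all vectors. So `γ = 0` by `hP.li`. -/
theorem pch_noConst (hP : Pch r h c R) {y₀ : β → ℂ} {r₀ : ℝ}
    (hsub : Metric.ball y₀ r₀ ⊆ Metric.ball 0 r) {ℓ : ι → (β → ℂ) → ℂ}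
    (hcd : ∀ i, ContDiffOn ℂ 2 (ℓ i) (Metric.ball y₀ r₀))
    (hfd : ∀ i, ∀ y ∈ Metric.ball y₀ r₀, ∀ b, fderiv ℂ (ℓ i) y (Pi.single b 1) =
        fderiv ℂ (h i) y (Pi.single b 1) / h i y)
    (γ : ι → ℝ) (hγ : γ ≠ 0) (U' : Set (β → ℂ)) (hU' : U' ⊆ Metric.ball y₀ r₀) (ho : IsOpen U')
    (hne : U'.Nonempty) (b : ℂ) : ∃ y ∈ U', ∑ i, (γ i : ℂ) * ℓ i y ≠ b := by
  classical
  by_contra hcon
  push Not at hcon
  apply hγ
  apply hP.li
  have hdf : ∀ i, ∀ y ∈ Metric.ball (0 : β → ℂ) r, DifferentiableAt ℂ (h i) y := fun i y hy =>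
    ((hP.cd i).contDiffAt (Metric.isOpen_ball.mem_nhds hy)).differentiableAt (by norm_num)
  have hdl : ∀ i, ∀ y ∈ Metric.ball y₀ r₀, DifferentiableAt ℂ (ℓ i) y := fun i y hy =>
    ((hcd i).contDiffAt (Metric.isOpen_ball.mem_nhds hy)).differentiableAt (by norm_num)
  -- the derivative of the logarithm
  have hL : ∀ i, ∀ y ∈ Metric.ball y₀ r₀, fderiv ℂ (ℓ i) y = (h i y)⁻¹ • fderiv ℂ (h i) y := by
    intro i y hy
    apply ContinuousLinearMap.coe_injective
    refine LinearMap.pi_ext' fun b' => LinearMap.ext_ring ?_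
    change fderiv ℂ (ℓ i) y (Pi.single b' 1) = ((h i y)⁻¹ • fderiv ℂ (h i) y) (Pi.single b' 1)
    rw [hfd i y hy b', smul_apply, smul_eq_mul, div_eq_inv_mul]
  -- step 1
  have step1 : ∀ w ∈ U', ∀ v, ∑ i, (γ i : ℂ) * fderiv ℂ (h i) w v / h i w = 0 := by
    intro w hw v
    have hs : HasFDerivAt (fun y => ∑ i, (γ i : ℂ) * ℓ i y)
        (∑ i, (γ i : ℂ) • fderiv ℂ (ℓ i) w) w :=
      HasFDerivAt.fun_sum fun i _ => (hdl i w (hU' hw)).hasFDerivAt.const_mul _
    have hc : HasFDerivAt (fun y => ∑ i, (γ i : ℂ) * ℓ i y) (0 : (β → ℂ) →L[ℂ] ℂ) w := by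
      refine (hasFDerivAt_const b w).congr_of_eventuallyEq ?_
      filter_upwards [ho.mem_nhds hw] with y hy using hcon y hy
    have h1 := congrArg (fun L : (β → ℂ) →L[ℂ] ℂ => L v) (hs.unique hc)
    simp only [sum_apply, smul_apply, smul_eq_mul,
      zero_apply] at h1
    rw [← h1]
    refine Finset.sum_congr rfl fun i _ => ?_
    rw [hL i w (hU' hw), smul_apply, smul_eq_mul]
    ring
  -- step 2: the identity theorem on a line
  have step2 : ∀ y ∈ Metric.ball (0 : β → ℂ) r, ∀ w ∈ U',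
      ∑ i, (γ i : ℂ) * fderiv ℂ (h i) y (y - w) / h i y = 0 := by
    intro y hy w hw
    set v := y - w with hv
    set Ω : Set ℂ := {t : ℂ | w + t • v ∈ Metric.ball (0 : β → ℂ) r} with hΩ
    have hcont : Continuous fun t : ℂ => w + t • v := by fun_prop
    have hΩo : IsOpen Ω := Metric.isOpen_ball.preimage hcont
    have hΩc : Convex ℝ Ω := by
      intro t ht s hs a c ha hc hac
      have h1 := convex_ball (0 : β → ℂ) r ht hs ha hc hac
      change w + (a • t + c • s) • v ∈ Metric.ball (0 : β → ℂ) r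
      have h2 : w + (a • t + c • s) • v = a • (w + t • v) + c • (w + s • v) := by
        have h3 : w = a • w + c • w := by rw [← add_smul, hac, one_smul]
        conv_lhs => rw [h3]
        rw [add_smul, smul_add, smul_add, smul_assoc, smul_assoc]
        abel
      rw [h2]
      exact h1
    have h0 : (0 : ℂ) ∈ Ω := by
      change w + (0 : ℂ) • v ∈ Metric.ball (0 : β → ℂ) r
      rw [zero_smul, add_zero]
      exact hsub (hU' hw)
    have h1 : (1 : ℂ) ∈ Ω := by
      change w + (1 : ℂ) • v ∈ Metric.ball (0 : β → ℂ) r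
      rw [one_smul, hv, add_sub_cancel]
      exact hy
    have hder : ∀ i, ∀ t ∈ Ω, HasDerivAt (fun t : ℂ => h i (w + t • v))
        (fderiv ℂ (h i) (w + t • v) v) t := by
      intro i t ht
      have h2 : HasDerivAt (fun t : ℂ => w + t • v) v t := by
        have h3 := ((hasDerivAt_id t).smul_const v).const_add w
        rwa [one_smul] at h3
      exact (hdf i _ ht).hasFDerivAt.comp_hasDerivAt t h2
    have han : ∀ i, AnalyticOnNhd ℂ (fun t : ℂ => h i (w + t • v)) Ω := fun i =>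
      DifferentiableOn.analyticOnNhd
        (fun t ht => (hder i t ht).differentiableAt.differentiableWithinAt) hΩo
    have hF : AnalyticOnNhd ℂ (fun t : ℂ => ∑ i, (γ i : ℂ) *
        deriv (fun t : ℂ => h i (w + t • v)) t / h i (w + t • v)) Ω := by
      refine DifferentiableOn.analyticOnNhd (fun t ht => ?_) hΩo
      refine DifferentiableWithinAt.fun_sum fun i _ => ?_
      refine DifferentiableWithinAt.div ?_ (hder i t ht).differentiableAt.differentiableWithinAt
        (hP.ne i _ ht)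
      exact ((han i).deriv t ht).differentiableAt.differentiableWithinAt.const_mul _
    have hev : (fun t : ℂ => ∑ i, (γ i : ℂ) *
        deriv (fun t : ℂ => h i (w + t • v)) t / h i (w + t • v)) =ᶠ[nhds 0] 0 := by
      have h2 : ∀ᶠ t : ℂ in nhds 0, w + t • v ∈ U' := by
        refine hcont.continuousAt.eventually_mem (ho.mem_nhds ?_)
        rw [zero_smul, add_zero]
        exact hw
      filter_upwards [h2] with t ht
      have h3 := step1 _ ht v
      rw [Pi.zero_apply, ← h3]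
      refine Finset.sum_congr rfl fun i _ => ?_
      rw [(hder i t (hsub (hU' ht))).deriv]
    have h2 := hF.eqOn_zero_of_preconnected_of_eventuallyEq_zero hΩc.isPreconnected h0 hev h1
    simp only [Pi.zero_apply] at h2
    rw [← h2]
    refine Finset.sum_congr rfl fun i _ => ?_
    rw [(hder i 1 h1).deriv, one_smul, hv, add_sub_cancel]
  -- step 3
  intro y hy b'
  obtain ⟨w, hw⟩ := hne
  have hcont : Continuous fun t : ℂ => w + t • (Pi.single b' 1 : β → ℂ) := by fun_prop
  have h2 : ∀ᶠ t : ℂ in nhds 0, w + t • (Pi.single b' 1 : β → ℂ) ∈ U' := by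
    refine hcont.continuousAt.eventually_mem (ho.mem_nhds ?_)
    rw [zero_smul, add_zero]
    exact hw
  obtain ⟨ε, hε, hball⟩ := Metric.mem_nhds_iff.1 h2
  have h3 : ((ε / 2 : ℝ) : ℂ) ∈ Metric.ball (0 : ℂ) ε := by
    rw [Metric.mem_ball, dist_zero_right, Complex.norm_real, Real.norm_eq_abs,
      abs_of_pos (half_pos hε)]
    exact half_lt_self hε
  have h4 := step2 y hy _ (hball h3)
  have h5 := step2 y hy w hw
  have h6 : ∀ i, fderiv ℂ (h i) y (y - (w + ((ε / 2 : ℝ) : ℂ) • (Pi.single b' 1 : β → ℂ))) =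
      fderiv ℂ (h i) y (y - w) - ((ε / 2 : ℝ) : ℂ) * fderiv ℂ (h i) y (Pi.single b' 1) := by
    intro i
    rw [← sub_sub, map_sub, map_smul, smul_eq_mul]
  have h7 : ((ε / 2 : ℝ) : ℂ) * ∑ i, (γ i : ℂ) * fderiv ℂ (h i) y (Pi.single b' 1) / h i y = 0 := by
    rw [Finset.mul_sum]
    have h8 : ∑ i, (γ i : ℂ) * fderiv ℂ (h i) y (y - w) / h i y -
        ∑ i, (γ i : ℂ) * fderiv ℂ (h i) y
          (y - (w + ((ε / 2 : ℝ) : ℂ) • (Pi.single b' 1 : β → ℂ))) / h i y = 0 := by
      rw [h4, h5, sub_zero]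
    rw [← Finset.sum_sub_distrib] at h8
    rw [← h8]
    refine Finset.sum_congr rfl fun i _ => ?_
    rw [h6 i]
    ring
  refine (mul_eq_zero.1 h7).resolve_left ?_
  exact Complex.ofReal_ne_zero.2 (half_pos hε).ne'

end Pool.Agent.Zilber
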