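import Pool.Agent.Zilber.FCDefs
import Pool.Agent.Zilber.DMb

set_option autoImplicit false

/-! FC2. Relations at a generic point hold on the whole chart. -/

namespace Pool.Agent.Zilber

open MvPolynomial Pool.Agent.Zil.Gam

variable {ι β : Type} [Fintype ι] [Fintype β] [DecidableEq β] {r : ℝ} {h : ι → (β → ℂ) → ℂ}
  {c : β → ℂ} {R : Option β → ι → ℝ}

/-- The coefficients after the substitution of algebraic numbers are algebraic. -/
private theorem pch_coeff {ι O : Type} (ρ : O → ℂ) (hρ : ∀ o, IsAlgebraic ℚ (ρ o))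
    (P : MvPolynomial (ι ⊕ O) ℤ) : ∀ e, IsAlgebraic ℚ
      ((aeval (Sum.elim X (fun o => C (ρ o)) : ι ⊕ O → MvPolynomial ι ℂ) P).coeff e) := by
  classical
  induction P using MvPolynomial.induction_on with
  | C a =>
    intro e
    rw [aeval_C, eq_intCast]
    have h1 : ((a : ℤ) : MvPolynomial ι ℂ) = C ((a : ℤ) : ℂ) := by rw [map_intCast]
    rw [h1, coeff_C]
    split_ifs
    · exact isAlgebraic_intCast a
    · exact isAlgebraic_zero
  | add p q hp hq =>
    intro e
    rw [map_add, coeff_add]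
    exact (hp e).add (hq e)
  | mul_X p i hp =>
    intro e
    rw [map_mul, aeval_X]
    rcases i with i | o
    · rw [Sum.elim_inl, coeff_mul_X']
      split_ifs
      · exact hp _
      · exact isAlgebraic_zero
    · rw [Sum.elim_inr, mul_comm, coeff_C_mul]
      exact (hρ o).mul (hp e)

private theorem pch_eval {ι O : Type} (ρ : O → ℂ) (x : ι → ℂ) (P : MvPolynomial (ι ⊕ O) ℤ) :
    MvPolynomial.eval x (aeval (Sum.elim X (fun o => C (ρ o)) : ι ⊕ O → MvPolynomial ι ℂ) P) =
      aeval (Sum.elim x ρ) P := by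
  induction P using MvPolynomial.induction_on with
  | C a => simp
  | add p q hp hq => rw [map_add, map_add, hp, hq, map_add]
  | mul_X p i hp =>
    rw [map_mul, map_mul, hp, map_mul, aeval_X, aeval_X]
    rcases i with i | o <;> simp

/-- **Relations of the point and of algebraic numbers `ρ`.** The polynomial
`P' = aeval (Sum.elim X (C ∘ ρ)) P` over `ℂ` in the variables `ι` has algebraic coefficients (the coefficients lie in
the ring generated by the `ρ o`; the set of the polynomials with algebraic coefficients is a subring: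
`MvPolynomial.coeffs` or lifting to `MvPolynomial ι (algebraicClosure ℚ ℂ)`), and
`eval (h · y) P' = aeval (Sum.elim (h · y) ρ) P`. `hP.rel`. -/
theorem pch_rel (hP : Pch r h c R) {O : Type} (ρ : O → ℂ) (hρ : ∀ o, IsAlgebraic ℚ (ρ o))
    (y₁ : β → ℂ) (hy₁ : y₁ ∈ Metric.ball (0 : β → ℂ) r)
    (hgen : AlgebraicIndependent ℚ (fun b => c b + y₁ b)) (P : MvPolynomial (ι ⊕ O) ℤ)
    (h0 : aeval (Sum.elim (fun i => h i y₁) ρ) P = 0) (y : β → ℂ)
    (hy : y ∈ Metric.ball (0 : β → ℂ) r) : aeval (Sum.elim (fun i => h i y) ρ) P = 0 := by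
  rw [← pch_eval] at h0 ⊢
  exact hP.rel y₁ hy₁ hgen _ (pch_coeff ρ hρ P) h0 y hy

/-- The exponents of the monomials in the point and in the numbers `ρ`. -/
private def pex {ι O : Type} [DecidableEq O] (a : O → ι → ℤ) (o : O) : ι ⊕ O → ℤ :=
  Sum.elim (a o) (Pi.single o 1)

private theorem pex_prod {K ι O : Type} [Field K] [Fintype ι] [Fintype O] [DecidableEq O]
    (a : O → ι → ℤ) (x : ι → K) (ρ : O → K) (o : O) :
    ∏ i, (Sum.elim x ρ : ι ⊕ O → K) i ^ pex a o i = ρ o * ∏ i, x i ^ a o i := by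
  rw [Fintype.prod_sum_type]
  simp only [Sum.elim_inl, Sum.elim_inr, pex]
  rw [mul_comm]
  congr 1
  rw [Finset.prod_eq_single o]
  · rw [Pi.single_eq_same, zpow_one]
  · intro o' _ h
    rw [Pi.single_eq_of_ne h, zpow_zero]
  · intro h
    exact absurd (Finset.mem_univ o) h

/-- **Relations of the monomials `zbf`.** `spec_mm` (Zil/GAFD) for `v = Sum.elim (h · y₁) ρ`,
`w = Sum.elim (h · y) ρ`, `A o = Sum.elim (a o) (Pi.single o 1)` (index type `O` instead of `Fin m`: rename by
`Fintype.equivFin O`). -/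
theorem pch_zrel (hP : Pch r h c R) {O : Type} [Fintype O] (a : O → ι → ℤ) (ρ : O → ℂ)
    (hρ0 : ∀ o, ρ o ≠ 0) (hρ : ∀ o, IsAlgebraic ℚ (ρ o))
    (y₁ : β → ℂ) (hy₁ : y₁ ∈ Metric.ball (0 : β → ℂ) r)
    (hgen : AlgebraicIndependent ℚ (fun b => c b + y₁ b)) (P : MvPolynomial O ℤ)
    (h0 : aeval (zbf h a ρ y₁) P = 0) (y : β → ℂ)
    (hy : y ∈ Metric.ball (0 : β → ℂ) r) : aeval (zbf h a ρ y) P = 0 := by
  classical
  obtain ⟨m, e⟩ : ∃ m, Nonempty (O ≃ Fin m) := ⟨_, ⟨Fintype.equivFin O⟩⟩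
  obtain ⟨e⟩ := e
  have key : ∀ y', mm (fun k => pex a (e.symm k))
      (Sum.elim (fun i => h i y') ρ : ι ⊕ O → ℂ) = zbf h a ρ y' ∘ e.symm := by
    intro y'
    funext k
    exact pex_prod a (fun i => h i y') ρ (e.symm k)
  have hne : ∀ y' ∈ Metric.ball (0 : β → ℂ) r, ∀ i,
      (Sum.elim (fun i => h i y') ρ : ι ⊕ O → ℂ) i ≠ 0 := by
    intro y' hy' i
    rcases i with i | o
    · exact hP.ne i y' hy'
    · exact hρ0 o
  have h1 := spec_mm (fun k => pex a (e.symm k)) (Sum.elim (fun i => h i y₁) ρ)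
    (hne y₁ hy₁) (Sum.elim (fun i => h i y) ρ) (hne y hy)
    (fun p hp => pch_rel hP ρ hρ y₁ hy₁ hgen p hp y hy) (rename e P) (by
      rw [key, aeval_rename]
      have h2 : (zbf h a ρ y₁ ∘ e.symm) ∘ e = zbf h a ρ y₁ := by
        funext o
        simp
      rw [h2]
      exact h0)
  rw [key, aeval_rename] at h1
  have h2 : (zbf h a ρ y ∘ e.symm) ∘ e = zbf h a ρ y := by
    funext o
    simp
  rwa [h2] at h1

/-- **The number of the points in a fibre.** `D` from `exists_fibre_data` (Zil/GAFD) for the field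
`Ω' = Subfield.closure (range (zbf ..) ∪ range (h · y₁))` (it contains the `ρ o = zbf .. o / ∏ h_i(y₁) ^ a o i` and is generated by
the `h i y₁` and the `ρ o`; finite over `ℚ(zbf)` by `hfin`), `v = Sum.elim (h · y₁) ρ` in `Ω'`, exponents as in `pch_zrel` (index types
`Fin m`: rename). A point `y ∈ Y'` gives `u = Sum.elim (h · y) ρ`; different `y` give different `u` (`hP.coord`); the
relations hold by `pch_rel`. The degree is `relfinrank` (`hdeg` may be proved with `Subfield.relfinrank_comap`; compare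
`dm_finrank` in DMb.lean). -/
theorem pch_fibre (hP : Pch r h c R) {O : Type} [Fintype O] (a : O → ι → ℤ) (ρ : O → ℂ)
    (hρ0 : ∀ o, ρ o ≠ 0) (hρ : ∀ o, IsAlgebraic ℚ (ρ o))
    (y₁ : β → ℂ) (hy₁ : y₁ ∈ Metric.ball (0 : β → ℂ) r)
    (hgen : AlgebraicIndependent ℚ (fun b => c b + y₁ b))
    (hfin : ∀ i, IsAlgebraic (Subfield.closure (Set.range (zbf h a ρ y₁))) (h i y₁)) :
    ∃ D : MvPolynomial O ℤ, aeval (zbf h a ρ y₁) D ≠ 0 ∧
      ∀ z₀ : O → ℂ, aeval z₀ D ≠ 0 → ∀ Y' : Finset (β → ℂ),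
        (∀ y ∈ Y', y ∈ Metric.ball (0 : β → ℂ) r ∧ zbf h a ρ y = z₀) →
        Y'.card ≤ (Subfield.closure (Set.range (zbf h a ρ y₁))).relfinrank
          (Subfield.closure (Set.range (zbf h a ρ y₁) ∪ Set.range fun i => h i y₁)) := by
  classical
  obtain ⟨m, e⟩ : ∃ m, Nonempty (O ≃ Fin m) := ⟨_, ⟨Fintype.equivFin O⟩⟩
  obtain ⟨e⟩ := e
  obtain ⟨z, hz⟩ : ∃ z : O → ℂ, z = zbf h a ρ y₁ := ⟨_, rfl⟩
  obtain ⟨x, hx⟩ : ∃ x : O ⊕ ι → ℂ, x = Sum.elim z (fun i => h i y₁) := ⟨_, rfl⟩
  have hrange : Set.range z ∪ Set.range (fun i => h i y₁) = Set.range x := by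
    rw [hx, Set.Sum.elim_range]
  rw [← hz, hrange]
  rw [← hz] at hfin
  have hxl : ∀ o, x (Sum.inl o) = z o := fun o => by rw [hx]; rfl
  have hxr : ∀ i, x (Sum.inr i) = h i y₁ := fun i => by rw [hx]; rfl
  have hzL : ∀ o, z o ∈ Subfield.closure (Set.range x) := fun o =>
    Subfield.subset_closure ⟨Sum.inl o, by rw [hx]; rfl⟩
  have hhL : ∀ i, h i y₁ ∈ Subfield.closure (Set.range x) := fun i =>
    Subfield.subset_closure ⟨Sum.inr i, by rw [hx]; rfl⟩
  have hzo : ∀ o, z o = ρ o * ∏ i, h i y₁ ^ a o i := fun o => by rw [hz]; rfl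
  have hprod : ∀ o, ∏ i, h i y₁ ^ a o i ≠ 0 := fun o =>
    Finset.prod_ne_zero_iff.2 fun i _ => zpow_ne_zero _ (hP.ne i y₁ hy₁)
  have hρL : ∀ o, ρ o ∈ Subfield.closure (Set.range x) := by
    intro o
    have h1 : ρ o = z o * (∏ i, h i y₁ ^ a o i)⁻¹ := by
      rw [hzo, mul_assoc, mul_inv_cancel₀ (hprod o), mul_one]
    rw [h1]
    exact mul_mem (hzL o) (inv_mem (prod_mem fun i _ => zpow_mem (hhL i) _))
  -- the elements of the field
  let v : ι ⊕ O → Subfield.closure (Set.range x) :=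
    Sum.elim (fun i => ⟨h i y₁, hhL i⟩) (fun o => ⟨ρ o, hρL o⟩)
  have hv : ∀ s, ((v s : Subfield.closure (Set.range x)) : ℂ) =
      (Sum.elim (fun i => h i y₁) ρ : ι ⊕ O → ℂ) s := by
    intro s
    rcases s with s | s <;> rfl
  have hmm : mm (fun k => pex a (e.symm k)) v =
      (fun o => (⟨z o, hzL o⟩ : Subfield.closure (Set.range x))) ∘ e.symm := by
    funext k
    refine (pex_prod a (fun i => (⟨h i y₁, hhL i⟩ : Subfield.closure (Set.range x)))
      (fun o => ⟨ρ o, hρL o⟩) (e.symm k)).trans (Subtype.ext ?_)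
    change ((Subfield.closure (Set.range x)).subtype (_ * _) : ℂ) = z (e.symm k)
    rw [map_mul, map_prod, hzo]
    simp only [map_zpow₀]
    rfl
  have hrm : Set.range (mm (fun k => pex a (e.symm k)) v) =
      Set.range fun o => (⟨z o, hzL o⟩ : Subfield.closure (Set.range x)) := by
    rw [hmm]
    exact e.symm.surjective.range_comp _
  have hne : ∀ s, v s ≠ 0 := by
    intro s h1
    have h2 := congrArg (fun w : Subfield.closure (Set.range x) => (w : ℂ)) h1
    simp only [hv] at h2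
    rcases s with s | s
    · exact hP.ne s y₁ hy₁ h2
    · exact hρ0 s h2
  have hgenv : IntermediateField.adjoin ℚ (Set.range v) = ⊤ := by
    rw [eq_top_iff]
    intro w _
    obtain ⟨M, hM⟩ : ∃ M, M = IntermediateField.adjoin ℚ (Set.range v) := ⟨_, rfl⟩
    have hvM : ∀ s, v s ∈ M := fun s => by
      rw [hM]
      exact IntermediateField.subset_adjoin ℚ _ ⟨s, rfl⟩
    have h1 : Subfield.closure (Set.range x) ≤
        M.toSubfield.map (Subfield.closure (Set.range x)).subtype := by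
      rw [Subfield.closure_le]
      rintro _ ⟨s, rfl⟩
      rcases s with o | i
      · refine ⟨v (Sum.inr o) * ∏ i, v (Sum.inl i) ^ a o i, ?_, ?_⟩
        · exact mul_mem (hvM _) (prod_mem fun i _ => zpow_mem (hvM _) _)
        · rw [map_mul, map_prod, hxl, hzo]
          simp only [map_zpow₀]
          rfl
      · refine ⟨v (Sum.inl i), hvM _, ?_⟩
        rw [hxr]
        rfl
    obtain ⟨w', hw', h2⟩ := h1 w.2
    have h3 : w' = w := Subtype.ext h2
    rw [← hM, ← h3]
    exact hw'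
  have hfd : FiniteDimensional (IntermediateField.adjoin ℚ
      (Set.range (mm (fun k => pex a (e.symm k)) v))) (Subfield.closure (Set.range x)) := by
    rw [hrm]
    refine dm_fin z x hzL fun s => ?_
    rcases s with o | i
    · rw [hxl]
      exact isAlgebraic_algebraMap (⟨z o, Subfield.subset_closure ⟨o, rfl⟩⟩ :
        Subfield.closure (Set.range z))
    · rw [hxr]
      exact hfin i
  obtain ⟨D, hD, hbound⟩ := exists_fibre_data (fun k => pex a (e.symm k)) v hne hgenv hfd
  have hcoe : ∀ (κ : Type) (u : κ → Subfield.closure (Set.range x)) (p : MvPolynomial κ ℤ),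
      ((aeval u p : Subfield.closure (Set.range x)) : ℂ) = aeval (fun k => (u k : ℂ)) p := by
    intro κ u p
    induction p using MvPolynomial.induction_on with
    | C a => simp
    | add p q hp hq => rw [map_add, map_add, ← hp, ← hq]; rfl
    | mul_X p i hp => rw [map_mul, map_mul, ← hp, aeval_X, aeval_X]; rfl
  have hren : ∀ u : O → ℂ, aeval u (rename e.symm D) = aeval (u ∘ e.symm) D := fun u =>
    aeval_rename _ _ _
  refine ⟨rename e.symm D, fun h0 => hD (Subtype.ext ?_), fun z₀ hz₀ Y' hY' => ?_⟩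
  · rw [hren] at h0
    rw [hcoe, hmm]
    exact h0
  · rw [hren] at hz₀
    have hinj : Set.InjOn (fun y : β → ℂ => (Sum.elim (fun i => h i y) ρ : ι ⊕ O → ℂ)) Y' := by
      intro y _ y' _ hyy
      funext b
      obtain ⟨i, hi⟩ := hP.coord b
      have h1 := congrFun hyy (Sum.inl i)
      simp only [Sum.elim_inl, hi] at h1
      exact add_left_cancel h1
    have h1 := hbound (z₀ ∘ e.symm) hz₀
      (Y'.image fun y => (Sum.elim (fun i => h i y) ρ : ι ⊕ O → ℂ)) (fun u hu => by
        obtain ⟨y, hy, rfl⟩ := Finset.mem_image.1 hu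
        obtain ⟨hy1, hy2⟩ := hY' y hy
        refine ⟨fun s => ?_, fun p hp => ?_, ?_⟩
        · rcases s with i | o
          · exact hP.ne i y hy1
          · exact hρ0 o
        · refine pch_rel hP ρ hρ y₁ hy₁ hgen p ?_ y hy1
          have h2 := congrArg (fun w : Subfield.closure (Set.range x) => (w : ℂ)) hp
          simp only [hcoe, hv] at h2
          exact h2
        · funext k
          refine (pex_prod a (fun i => h i y) ρ (e.symm k)).trans ?_
          exact congrFun hy2 (e.symm k))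
    rw [Finset.card_image_of_injOn hinj, hrm, dm_finrank _ z hzL] at h1
    exact h1

end Pool.Agent.Zilber
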