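import Mathlib

set_option autoImplicit false

/-!
# Definitions for the listed forms of the Zilber conjecture for tori

Zariski closed and irreducible subsets of the torus, algebraic subgroups, special varieties,
irreducible components, atypical subvarieties.
-/

namespace Pool.Agent.Zilber.Forms

/-- The torus `(ℂ^×)^n`. -/
def torus (n : ℕ) : Set (Fin n → ℂ) := {y | ∀ i, y i ≠ 0}

/-- `Z` is a Zariski closed subset of the torus `(ℂ^×)^n`. -/
def IsZariskiClosed {n : ℕ} (Z : Set (Fin n → ℂ)) : Prop :=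
  ∃ S : Set (MvPolynomial (Fin n) ℂ), Z = {x | x ∈ torus n ∧ ∀ p ∈ S, MvPolynomial.eval x p = 0}

/-- `Z` is irreducible: it is nonempty, and whenever it is covered by two Zariski closed subsets
of the torus, one of them contains it. -/
def IsIrred {n : ℕ} (Z : Set (Fin n → ℂ)) : Prop :=
  Z.Nonempty ∧ ∀ A B : Set (Fin n → ℂ), IsZariskiClosed A → IsZariskiClosed B →
    Z ⊆ A ∪ B → Z ⊆ A ∨ Z ⊆ B

/-- The dimension of `Z`: the Krull dimension of the ring of polynomial functions on `Z`. -/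
noncomputable def dimension {n : ℕ} (Z : Set (Fin n → ℂ)) : WithBot ℕ∞ :=
  ringKrullDim (MvPolynomial (Fin n) ℂ ⧸
    (⨅ x ∈ Z, RingHom.ker (MvPolynomial.eval x : MvPolynomial (Fin n) ℂ →+* ℂ)))

/-- `H` is an algebraic subgroup of the torus: the common zero set of finitely many equations
`y_1 ^ m_1 ⋯ y_n ^ m_n = 1`. -/
def IsAlgebraicSubgroup {n : ℕ} (H : Set (Fin n → ℂ)) : Prop :=
  ∃ A : Finset (Fin n → ℤ), H = {y | y ∈ torus n ∧ ∀ m ∈ A, ∏ i, y i ^ m i = 1}

/-- `T` is a special variety: a coset `ζ H` of an irreducible algebraic subgroup `H` by a torsion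
point `ζ`. -/
def IsSpecial {n : ℕ} (T : Set (Fin n → ℂ)) : Prop :=
  ∃ (H : Set (Fin n → ℂ)) (ζ : Fin n → ℂ), IsAlgebraicSubgroup H ∧ IsIrred H ∧
    (∃ m : ℕ, 0 < m ∧ ζ ^ m = 1) ∧ T = {y | ∃ h ∈ H, y = ζ * h}

/-- `X` is an irreducible component of `Z`: a maximal irreducible subset. -/
def IsIrredComponent {n : ℕ} (Z X : Set (Fin n → ℂ)) : Prop :=
  X ⊆ Z ∧ IsIrred X ∧ ∀ Y : Set (Fin n → ℂ), X ⊆ Y → Y ⊆ Z → IsIrred Y → Y = X

/-- `X` is an atypical subvariety of `V`: an irreducible component of the intersection of `V` with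
a special variety `T` such that `dim X > dim V + dim T - n`. -/
def IsAtypicalSub {n : ℕ} (V X : Set (Fin n → ℂ)) : Prop :=
  ∃ T : Set (Fin n → ℂ), IsSpecial T ∧ IsIrredComponent (V ∩ T) X ∧
    dimension V + dimension T < dimension X + (n : WithBot ℕ∞)

/-- `X` is a maximal atypical subvariety of `V`. -/
def IsMaxAtypicalSub {n : ℕ} (V X : Set (Fin n → ℂ)) : Prop :=
  IsAtypicalSub V X ∧ ∀ Y, IsAtypicalSub V Y → X ⊆ Y → Y = X

/-- The union of all atypical subvarieties of `V`. -/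
def Atyp {n : ℕ} (V : Set (Fin n → ℂ)) : Set (Fin n → ℂ) :=
  {x | ∃ X, IsAtypicalSub V X ∧ x ∈ X}

end Pool.Agent.Zilber.Forms
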