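import Pool.Agent.Zilber.Final
import Pool.Agent.CITLines.Final
import Pool.Agent.Zilber.FormsDefs

set_option autoImplicit false

/-!
# The listed forms of the Zilber conjecture for tori

Literal definitions (closed subsets of the torus, irreducible sets, algebraic subgroups, special
varieties, components, atypical subvarieties) and all the listed forms of the conjecture.
-/

namespace Pool.Agent.Zilber.Forms

open MvPolynomial Pool.Agent.CITTrans Pool.Agent.CITLines

/-! ### Irreducible sets -/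

section Irred

variable {n : ℕ}

theorem irred_iff {Z : Set (Fin n → ℂ)} (h0 : ∀ x ∈ Z, ∀ i, x i ≠ 0) :
    IsIrred Z ↔ (vanI Z).IsPrime := by
  constructor
  · rintro ⟨⟨z, hz⟩, hZ⟩
    refine ⟨?_, ?_⟩
    · intro htop
      have h1 : (1 : MvPolynomial (Fin n) ℂ) ∈ vanI Z := by
        rw [htop]
        exact Submodule.mem_top
      rw [mem_vanI] at h1
      have := h1 z hz
      rw [map_one] at this
      exact one_ne_zero this
    · intro f g hfg
      have hcov : Z ⊆ {x | x ∈ torus n ∧ ∀ p ∈ ({f} : Set (MvPolynomial (Fin n) ℂ)),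
          MvPolynomial.eval x p = 0} ∪ {x | x ∈ torus n ∧
            ∀ p ∈ ({g} : Set (MvPolynomial (Fin n) ℂ)), MvPolynomial.eval x p = 0} := by
        intro x hx
        have h1 := mem_vanI.mp hfg x hx
        rw [map_mul] at h1
        rcases mul_eq_zero.mp h1 with h2 | h2
        · exact Or.inl ⟨h0 x hx, fun p hp => by rw [Set.mem_singleton_iff.mp hp]; exact h2⟩
        · exact Or.inr ⟨h0 x hx, fun p hp => by rw [Set.mem_singleton_iff.mp hp]; exact h2⟩
      rcases hZ _ _ ⟨_, rfl⟩ ⟨_, rfl⟩ hcov with h1 | h1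
      · left
        rw [mem_vanI]
        exact fun x hx => (h1 hx).2 f rfl
      · right
        rw [mem_vanI]
        exact fun x hx => (h1 hx).2 g rfl
  · intro hp
    refine ⟨?_, ?_⟩
    · rw [Set.nonempty_iff_ne_empty]
      rintro rfl
      apply hp.ne_top
      rw [Ideal.eq_top_iff_one, mem_vanI]
      intro x hx
      exact absurd hx (Set.notMem_empty x)
    · rintro A B ⟨S, rfl⟩ ⟨S', rfl⟩ hcov
      by_contra hcon
      rw [not_or] at hcon
      obtain ⟨hA, hB⟩ := hcon
      obtain ⟨x, hx, hxA⟩ := Set.not_subset.mp hA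
      obtain ⟨y, hy, hyB⟩ := Set.not_subset.mp hB
      have h1 : ∃ p ∈ S, MvPolynomial.eval x p ≠ 0 := by
        by_contra hc
        push Not at hc
        exact hxA ⟨h0 x hx, hc⟩
      have h2 : ∃ p ∈ S', MvPolynomial.eval y p ≠ 0 := by
        by_contra hc
        push Not at hc
        exact hyB ⟨h0 y hy, hc⟩
      obtain ⟨p, hpS, hpx⟩ := h1
      obtain ⟨q, hqS, hqy⟩ := h2
      have h3 : p * q ∈ vanI Z := by
        rw [mem_vanI]
        intro z hz
        rw [map_mul]
        rcases hcov hz with h | h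
        · rw [h.2 p hpS, zero_mul]
        · rw [h.2 q hqS, mul_zero]
      rcases hp.mem_or_mem h3 with h4 | h4
      · exact hpx (mem_vanI.mp h4 x hx)
      · exact hqy (mem_vanI.mp h4 y hy)

theorem component_iff {Z X : Set (Fin n → ℂ)} (h0 : ∀ x ∈ Z, ∀ i, x i ≠ 0) :
    IsIrredComponent Z X ↔ IsComponent Z X := by
  constructor
  · rintro ⟨h1, h2, h3⟩
    refine ⟨h1, (irred_iff fun x hx => h0 x (h1 hx)).mp h2, ?_⟩
    intro Y hXY hYZ hY
    exact h3 Y hXY hYZ ((irred_iff fun x hx => h0 x (hYZ hx)).mpr hY)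
  · rintro ⟨h1, h2, h3⟩
    refine ⟨h1, (irred_iff fun x hx => h0 x (h1 hx)).mpr h2, ?_⟩
    intro Y hXY hYZ hY
    exact h3 Y hXY hYZ ((irred_iff fun x hx => h0 x (hYZ hx)).mp hY)

end Irred

/-! ### Special varieties -/

section Special

variable {n : ℕ}

/-- Subtori given by saturated groups of exponents are irreducible. -/
theorem prime_cos_one (M : Submodule ℤ (Fin n → ℤ))
    (hM : ∀ a : Fin n → ℤ, ∀ m : ℤ, m ≠ 0 → m • a ∈ M → a ∈ M) :
    (vanI (cos M (1 : Fin n → ℂ))).IsPrime := by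
  obtain ⟨π, hπM, hπ⟩ := exists_retraction M hM
  -- every point has a logarithm in the Lie algebra
  have hlog : ∀ y ∈ cos M (1 : Fin n → ℂ), ∃ z : Fin n → ℂ, (∀ i, Complex.exp (z i) = y i) ∧
      ∀ a ∈ M, ∑ i, (a i : ℂ) * z i = 0 := by
    rintro y ⟨hy0, hy⟩
    let z0 : Fin n → ℂ := fun i => Complex.log (y i)
    have hz0 : ∀ i, Complex.exp (z0 i) = y i := fun i => Complex.exp_log (hy0 i)
    have hexp : ∀ a : Fin n → ℤ, Complex.exp (∑ i, (a i : ℂ) * z0 i) = ∏ i, y i ^ a i := by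
      intro a
      rw [Complex.exp_sum]
      refine Finset.prod_congr rfl fun i _ => ?_
      rw [Complex.exp_int_mul, hz0]
    let φ : (Fin n → ℤ) → ℂ := fun a => ∑ i, (a i : ℂ) * z0 i
    have hφadd : ∀ a b, φ (a + b) = φ a + φ b := by
      intro a b
      simp only [φ, Pi.add_apply, Int.cast_add, add_mul, Finset.sum_add_distrib]
    have hφsm : ∀ (k : ℤ) a, φ (k • a) = k * φ a := by
      intro k a
      simp only [φ, Pi.smul_apply, smul_eq_mul, Int.cast_mul, Finset.mul_sum, mul_assoc]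
    have hφlin : ∀ a : Fin n → ℤ, ∑ i, (a i : ℂ) * φ (π (Pi.single i 1)) = φ (π a) := by
      intro a
      have h1 : a = ∑ i, a i • (Pi.single i 1 : Fin n → ℤ) := by
        funext j
        rw [Finset.sum_apply]
        simp [Pi.single_apply]
      let Φ : (Fin n → ℤ) →ₗ[ℤ] ℂ :=
        { toFun := φ
          map_add' := hφadd
          map_smul' := fun k a => by rw [hφsm]; simp }
      have h2 : φ (π a) = (Φ ∘ₗ π) a := rfl
      rw [h2]
      conv_rhs => rw [h1]
      rw [map_sum]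
      refine Finset.sum_congr rfl fun i _ => ?_
      rw [map_smul]
      change _ = a i • φ (π (Pi.single i 1))
      simp
    refine ⟨fun i => z0 i - φ (π (Pi.single i 1)), fun i => ?_, fun a ha => ?_⟩
    · have h1 := hexp (π (Pi.single i 1))
      have h2 := hy _ (hπM (Pi.single i 1))
      rw [h2] at h1
      simp only [Pi.one_apply, one_zpow, Finset.prod_const_one] at h1
      rw [Complex.exp_sub, hz0]
      change _ / Complex.exp (∑ j, _) = _
      rw [h1, div_one]
    · have h1 := hφlin a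
      rw [hπ a ha] at h1
      simp only [mul_sub, Finset.sum_sub_distrib]
      rw [h1]
      exact sub_self _
  have hexpM : ∀ z : Fin n → ℂ, (∀ a ∈ M, ∑ i, (a i : ℂ) * z i = 0) →
      (fun i => Complex.exp (z i)) ∈ cos M (1 : Fin n → ℂ) := by
    intro z hz
    refine ⟨fun i => Complex.exp_ne_zero _, fun a ha => ?_⟩
    simp only [Pi.one_apply, one_zpow, Finset.prod_const_one]
    rw [← Complex.exp_zero, ← hz a ha, Complex.exp_sum]
    refine Finset.prod_congr rfl fun i _ => ?_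
    rw [Complex.exp_int_mul]
  refine ⟨?_, ?_⟩
  · intro htop
    have h1 : (1 : MvPolynomial (Fin n) ℂ) ∈ vanI (cos M (1 : Fin n → ℂ)) := by
      rw [htop]
      exact Submodule.mem_top
    rw [mem_vanI] at h1
    have := h1 1 ⟨fun i => one_ne_zero, fun a _ => rfl⟩
    rw [map_one] at this
    exact one_ne_zero this
  · intro f g hfg
    by_contra hcon
    rw [not_or, mem_vanI, mem_vanI] at hcon
    obtain ⟨hf, hg⟩ := hcon
    push Not at hf hg
    obtain ⟨y1, hy1, hf1⟩ := hf
    obtain ⟨y2, hy2, hg2⟩ := hg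
    obtain ⟨z1, hz1, hz1M⟩ := hlog y1 hy1
    obtain ⟨z2, hz2, hz2M⟩ := hlog y2 hy2
    let c : ℂ → Fin n → ℂ := fun s i => Complex.exp (z1 i + s * (z2 i - z1 i))
    have hc : ∀ s, c s ∈ cos M (1 : Fin n → ℂ) := by
      intro s
      apply hexpM
      intro a ha
      have h1 : ∑ i, (a i : ℂ) * (z1 i + s * (z2 i - z1 i)) =
          (∑ i, (a i : ℂ) * z1 i) + s * ((∑ i, (a i : ℂ) * z2 i) - ∑ i, (a i : ℂ) * z1 i) := by
        rw [← Finset.sum_sub_distrib, Finset.mul_sum, ← Finset.sum_add_distrib]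
        exact Finset.sum_congr rfl fun i _ => by ring
      rw [h1, hz1M a ha, hz2M a ha]
      ring
    have hc0 : c 0 = y1 := by
      funext i
      simp only [c]
      rw [zero_mul, add_zero, hz1]
    have hc1 : c 1 = y2 := by
      funext i
      simp only [c]
      rw [one_mul, add_sub_cancel, hz2]
    have hdiff : ∀ p : MvPolynomial (Fin n) ℂ,
        Differentiable ℂ (fun s => MvPolynomial.eval (c s) p) := by
      intro p
      induction p using MvPolynomial.induction_on with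
      | C a => simp only [MvPolynomial.eval_C]; exact differentiable_const a
      | add p q hp hq => simp only [map_add]; exact hp.add hq
      | mul_X p i hp =>
        simp only [map_mul, MvPolynomial.eval_X]
        refine hp.mul ?_
        simp only [c]
        fun_prop
    have hmul : ∀ s, MvPolynomial.eval (c s) f * MvPolynomial.eval (c s) g = 0 := by
      intro s
      rw [← map_mul]
      exact mem_vanI.mp hfg _ (hc s)
    have hF : AnalyticOnNhd ℂ (fun s => MvPolynomial.eval (c s) f) Set.univ :=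
      fun s _ => (hdiff f).analyticAt s
    have hG : AnalyticOnNhd ℂ (fun s => MvPolynomial.eval (c s) g) Set.univ :=
      fun s _ => (hdiff g).analyticAt s
    -- one of the two entire functions is zero
    have hor : (∀ s, MvPolynomial.eval (c s) f = 0) ∨ (∀ s, MvPolynomial.eval (c s) g = 0) := by
      by_cases hz : ∀ s, MvPolynomial.eval (c s) f = 0
      · exact Or.inl hz
      · right
        push Not at hz
        obtain ⟨s0, hs0⟩ := hz
        have hev : ∀ᶠ s in nhds s0, MvPolynomial.eval (c s) f ≠ 0 :=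
          ((hdiff f).continuous.continuousAt).eventually_ne hs0
        have hev2 : (fun s => MvPolynomial.eval (c s) g) =ᶠ[nhds s0] fun _ => 0 := by
          filter_upwards [hev] with s hs
          exact (mul_eq_zero.mp (hmul s)).resolve_left hs
        intro s
        exact hG.eqOn_zero_of_preconnected_of_eventuallyEq_zero isPreconnected_univ
          (Set.mem_univ s0) hev2 (Set.mem_univ s)
    rcases hor with h | h
    · exact hf1 (by rw [← hc0]; exact h 0)
    · exact hg2 (by rw [← hc1]; exact h 1)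

theorem mon_mul (x y : Fin n → ℂ) (a : Fin n → ℤ) :
    ∏ i, (x * y) i ^ a i = (∏ i, x i ^ a i) * ∏ i, y i ^ a i := by
  rw [← Finset.prod_mul_distrib]
  exact Finset.prod_congr rfl fun i _ => mul_zpow _ _ _

theorem special_of_torsion {T : Set (Fin n → ℂ)} (h : IsTorsionCoset T) : IsSpecial T := by
  classical
  obtain ⟨M, η, hM, ⟨m, hm, hη⟩, rfl⟩ := h
  have hη0 : ∀ i, η i ≠ 0 := tors_ne_zero ⟨m, hm, hη⟩
  obtain ⟨A, hA⟩ := (IsNoetherian.noetherian M : M.FG)
  refine ⟨cos M 1, η, ⟨A, ?_⟩, (irred_iff fun x hx => hx.1).mpr (prime_cos_one M hM),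
    ⟨m, hm, funext fun i => hη i⟩, ?_⟩
  · ext y
    constructor
    · rintro ⟨h1, h2⟩
      refine ⟨h1, fun a ha => ?_⟩
      have h3 : a ∈ M := by
        rw [← hA]
        exact Submodule.subset_span ha
      rw [h2 a h3]
      simp
    · rintro ⟨h1, h2⟩
      refine ⟨h1, fun a ha => ?_⟩
      simp only [Pi.one_apply, one_zpow, Finset.prod_const_one]
      rw [← hA] at ha
      induction ha using Submodule.span_induction with
      | mem x hx => exact h2 x hx
      | zero => simp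
      | add x z _ _ hx hz =>
        have : ∏ i, y i ^ (x + z) i = (∏ i, y i ^ x i) * ∏ i, y i ^ z i := by
          rw [← Finset.prod_mul_distrib]
          exact Finset.prod_congr rfl fun i _ => zpow_add₀ (h1 i) _ _
        rw [this, hx, hz, one_mul]
      | smul k x _ hx =>
        have : ∏ i, y i ^ (k • x) i = (∏ i, y i ^ x i) ^ k := by
          rw [← Finset.prod_zpow]
          refine Finset.prod_congr rfl fun i _ => ?_
          rw [Pi.smul_apply, smul_eq_mul, mul_comm, zpow_mul]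
        rw [this, hx, one_zpow]
  · ext y
    constructor
    · rintro ⟨h1, h2⟩
      refine ⟨η⁻¹ * y, ⟨fun i => mul_ne_zero (inv_ne_zero (hη0 i)) (h1 i), fun a ha => ?_⟩, ?_⟩
      · rw [mon_mul, h2 a ha, ← mon_mul]
        refine Finset.prod_congr rfl fun i _ => ?_
        simp [inv_mul_cancel₀ (hη0 i)]
      · funext i
        simp [mul_inv_cancel_left₀ (hη0 i)]
    · rintro ⟨h, ⟨h1, h2⟩, rfl⟩
      refine ⟨fun i => mul_ne_zero (hη0 i) (h1 i), fun a ha => ?_⟩
      rw [mon_mul, h2 a ha]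
      simp

theorem torsion_of_special {T : Set (Fin n → ℂ)} (h : IsSpecial T) : IsTorsionCoset T := by
  classical
  obtain ⟨H, ζ, ⟨A, hH⟩, hirr, ⟨m, hm, hζ⟩, rfl⟩ := h
  have hζ' : ∃ m : ℕ, 0 < m ∧ ∀ i, ζ i ^ m = 1 := ⟨m, hm, fun i => by
    have := congrFun hζ i
    simpa using this⟩
  have hζ0 : ∀ i, ζ i ≠ 0 := tors_ne_zero hζ'
  have hH0 : ∀ x ∈ H, ∀ i, x i ≠ 0 := by
    intro x hx
    rw [hH] at hx
    exact hx.1
  have h1H : (1 : Fin n → ℂ) ∈ H := by
    rw [hH]
    exact ⟨fun i => one_ne_zero, fun a _ => by simp⟩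
  have hp : (vanI H).IsPrime := (irred_iff hH0).mp hirr
  have hTP : TP (vanI H) := TP_vanI hH0 hp
  let M : Submodule ℤ (Fin n → ℤ) :=
    { carrier := {a | ∀ y ∈ H, ∏ i, y i ^ a i = 1}
      add_mem' := by
        intro a b ha hb y hy
        have : ∏ i, y i ^ (a + b) i = (∏ i, y i ^ a i) * ∏ i, y i ^ b i := by
          rw [← Finset.prod_mul_distrib]
          exact Finset.prod_congr rfl fun i _ => zpow_add₀ (hH0 y hy i) _ _
        rw [this, ha y hy, hb y hy, one_mul]
      zero_mem' := by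
        intro y _
        simp
      smul_mem' := by
        intro k a ha y hy
        have : ∏ i, y i ^ (k • a) i = (∏ i, y i ^ a i) ^ k := by
          rw [← Finset.prod_zpow]
          refine Finset.prod_congr rfl fun i _ => ?_
          rw [Pi.smul_apply, smul_eq_mul, mul_comm, zpow_mul]
        rw [this, ha y hy, one_zpow] }
  have hMmem : ∀ a, a ∈ M ↔ ∀ y ∈ H, ∏ i, y i ^ a i = 1 := fun a => Iff.rfl
  have hMbin : ∀ a, a ∈ M ↔ binom ℂ a (1 : ℂ) ∈ vanI H := by
    intro a
    rw [hMmem, binom_mem_vanI hH0]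
    exact Iff.rfl
  have hHM : H = {y : Fin n → ℂ | (∀ i, y i ≠ 0) ∧ ∀ a ∈ M, ∏ i, y i ^ a i = 1} := by
    refine Set.Subset.antisymm ?_ ?_
    · intro y hy
      exact ⟨hH0 y hy, fun a ha => ha y hy⟩
    · rintro y ⟨h1, h2⟩
      rw [hH]
      refine ⟨h1, fun a ha => h2 a ?_⟩
      rw [hMmem]
      intro z hz
      rw [hH] at hz
      exact hz.2 a ha
  refine ⟨M, ζ, ?_, hζ', ?_⟩
  · intro a k hk ha
    rw [hMbin]
    have h1 : cst (k • a) ∈ QP (vanI H) :=
      (hTP.cst_mem_QP _).mpr ⟨1, RU.one, (hMbin _).mp ha⟩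
    have h2 : cst a = (k : ℚ)⁻¹ • cst (k • a) := by
      funext i
      simp only [cst_apply, Pi.smul_apply, smul_eq_mul, Int.cast_mul]
      rw [inv_mul_cancel_left₀]
      exact_mod_cast hk
    have h3 : cst a ∈ QP (vanI H) := by
      rw [h2]
      exact Submodule.smul_mem _ _ h1
    obtain ⟨c, _, hc⟩ := (hTP.cst_mem_QP _).mp h3
    have h4 := (binom_mem_vanI hH0 a c).mp hc 1 h1H
    have h5 : mon (1 : Fin n → ℂ) a = 1 := by simp [mon]
    rw [← h4, h5] at hc
    exact hc
  · ext y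
    constructor
    · rintro ⟨h, hh, rfl⟩
      rw [hHM] at hh
      refine ⟨fun i => mul_ne_zero (hζ0 i) (hh.1 i), fun a ha => ?_⟩
      rw [mon_mul, hh.2 a ha, mul_one]
    · rintro ⟨h1, h2⟩
      refine ⟨ζ⁻¹ * y, ?_, ?_⟩
      · rw [hHM]
        refine ⟨fun i => mul_ne_zero (inv_ne_zero (hζ0 i)) (h1 i), fun a ha => ?_⟩
        rw [mon_mul, h2 a ha, ← mon_mul]
        refine Finset.prod_eq_one fun i _ => ?_
        simp [inv_mul_cancel₀ (hζ0 i)]
      · funext i
        simp [mul_inv_cancel_left₀ (hζ0 i)]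

theorem special_iff {T : Set (Fin n → ℂ)} : IsSpecial T ↔ IsTorsionCoset T :=
  ⟨torsion_of_special, special_of_torsion⟩

theorem atypical_iff {V X : Set (Fin n → ℂ)} (h0 : ∀ x ∈ V, ∀ i, x i ≠ 0) :
    IsAtypicalSub V X ↔ IsAtypical V X := by
  constructor
  · rintro ⟨T, hT, hX, hd⟩
    exact ⟨T, special_iff.mp hT, (component_iff fun x hx => h0 x hx.1).mp hX, hd⟩
  · rintro ⟨T, hT, hX, hd⟩
    exact ⟨T, special_iff.mpr hT, (component_iff fun x hx => h0 x hx.1).mpr hX, hd⟩

theorem maxAtypical_iff {V X : Set (Fin n → ℂ)} (h0 : ∀ x ∈ V, ∀ i, x i ≠ 0) :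
    IsMaxAtypicalSub V X ↔ IsMaxAtypical V X := by
  unfold IsMaxAtypicalSub IsMaxAtypical
  simp only [atypical_iff h0]

/-- Cosets with a nontrivial relation are proper. -/
theorem cos_ne_torus {M : Submodule ℤ (Fin n → ℤ)} {η : Fin n → ℂ}
    (hη0 : ∀ i, η i ≠ 0) (hM : M ≠ ⊥) : cos M η ≠ torus n := by
  classical
  intro heq
  apply hM
  rw [Submodule.eq_bot_iff]
  intro a ha
  funext i
  by_contra hai
  have h1 : (Function.update η i (2 * η i)) ∈ cos M η := by
    rw [heq]
    intro j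
    by_cases hj : j = i
    · subst hj
      simpa using hη0 j
    · rw [Function.update_of_ne hj]
      exact hη0 j
  have h2 := h1.2 a ha
  have h3 : ∏ j, (Function.update η i (2 * η i)) j ^ a j = (2 : ℂ) ^ a i * ∏ j, η j ^ a j := by
    rw [← Finset.mul_prod_erase _ _ (Finset.mem_univ i),
      ← Finset.mul_prod_erase (a := i) _ (fun j => η j ^ a j) (Finset.mem_univ i),
      Function.update_self, mul_zpow, mul_assoc]
    congr 2
    refine Finset.prod_congr rfl fun j hj => ?_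
    rw [Function.update_of_ne (Finset.ne_of_mem_erase hj)]
  rw [h3] at h2
  have h4 : ∏ j, η j ^ a j ≠ 0 := Finset.prod_ne_zero_iff.mpr fun j _ => zpow_ne_zero _ (hη0 j)
  have h5 : (2 : ℂ) ^ a i = 1 := by
    have := mul_right_cancel₀ h4 (h2.trans (one_mul _).symm)
    exact this
  have h6 : (2 : ℝ) ^ a i = 1 := by
    have := congrArg (fun z : ℂ => ‖z‖) h5
    simpa using this
  have h7 := (zpow_eq_one_iff_right₀ (by norm_num : (0 : ℝ) ≤ 2) (by norm_num)).mp h6
  exact hai h7

end Special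

/-! ### Closedness of a finite union -/

section Closed

variable {n : ℕ}

theorem closed_of_Cl {Z : Set (Fin n → ℂ)} (h : Cl Z) : IsZariskiClosed Z := by
  refine ⟨(vanI Z : Set (MvPolynomial (Fin n) ℂ)), ?_⟩
  refine Set.Subset.antisymm ?_ ?_
  · intro x hx
    exact ⟨h.1 x hx, fun p hp => mem_vanI.mp hp x hx⟩
  · rintro x ⟨h1, h2⟩
    exact h.2 ⟨h1, h2⟩

theorem Cl_of_closed {Z : Set (Fin n → ℂ)} (h : IsZariskiClosed Z) : Cl Z := by
  obtain ⟨S, rfl⟩ := h
  refine ⟨fun x hx => hx.1, ?_⟩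
  rintro x hx
  refine ⟨hx.1, fun p hp => hx.2 p ?_⟩
  rw [mem_vanI]
  exact fun y hy => hy.2 p hp

theorem Cl_union {Z W : Set (Fin n → ℂ)} (hZ : Cl Z) (hW : Cl W) : Cl (Z ∪ W) := by
  refine ⟨?_, ?_⟩
  · rintro x (hx | hx)
    · exact hZ.1 x hx
    · exact hW.1 x hx
  · intro x hx
    by_contra hcon
    rw [Set.mem_union, not_or] at hcon
    have h1 : ∃ p ∈ vanI Z, MvPolynomial.eval x p ≠ 0 := by
      by_contra hc
      push Not at hc
      exact hcon.1 (hZ.2 ⟨hx.1, hc⟩)
    have h2 : ∃ p ∈ vanI W, MvPolynomial.eval x p ≠ 0 := by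
      by_contra hc
      push Not at hc
      exact hcon.2 (hW.2 ⟨hx.1, hc⟩)
    obtain ⟨p, hp, hpx⟩ := h1
    obtain ⟨q, hq, hqx⟩ := h2
    have h3 : p * q ∈ vanI (Z ∪ W) := by
      rw [mem_vanI]
      rintro y (hy | hy)
      · rw [map_mul, mem_vanI.mp hp y hy, zero_mul]
      · rw [map_mul, mem_vanI.mp hq y hy, mul_zero]
    have h4 := hx.2 _ h3
    rw [map_mul] at h4
    exact mul_ne_zero hpx hqx h4

theorem Cl_empty : Cl (∅ : Set (Fin n → ℂ)) := by
  refine ⟨fun x hx => absurd hx (Set.notMem_empty x), ?_⟩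
  intro x hx
  have h1 : (1 : MvPolynomial (Fin n) ℂ) ∈ vanI (∅ : Set (Fin n → ℂ)) := by
    rw [mem_vanI]
    intro y hy
    exact absurd hy (Set.notMem_empty y)
  have := hx.2 _ h1
  rw [map_one] at this
  exact absurd this one_ne_zero

theorem Cl_sUnion {F : Set (Set (Fin n → ℂ))} (hF : F.Finite) (h : ∀ Z ∈ F, Cl Z) :
    Cl (⋃₀ F) := by
  induction F, hF using Set.Finite.induction_on with
  | empty =>
    rw [Set.sUnion_empty]
    exact Cl_empty
  | insert _ _ ih =>
    rw [Set.sUnion_insert]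
    exact Cl_union (h _ (Set.mem_insert _ _)) (ih fun Z hZ => h Z (Set.mem_insert_of_mem _ hZ))

end Closed

/-- All the listed forms of the Zilber conjecture for tori. -/
theorem all_forms (n : ℕ) (V : Set (Fin n → ℂ)) (hV : IsZariskiClosed V) (hirr : IsIrred V) :
    (∃ F : Set (Set (Fin n → ℂ)), F.Finite ∧ (∀ T ∈ F, IsSpecial T ∧ T ≠ torus n) ∧
      ∀ X, IsAtypicalSub V X → ∃ T ∈ F, X ⊆ T) ∧
    {X | IsMaxAtypicalSub V X}.Finite ∧
    (∃ F : Set (Set (Fin n → ℂ)), F.Finite ∧ (∀ T ∈ F, IsSpecial T ∧ T ≠ torus n) ∧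
      Atyp V ⊆ ⋃₀ F) ∧
    IsZariskiClosed (Atyp V) := by
  have hCl : Cl V := Cl_of_closed hV
  have h0 : ∀ x ∈ V, ∀ i, x i ≠ 0 := hCl.1
  have hp : (vanI V).IsPrime := (irred_iff h0).mp hirr
  have hvar : IsVariety V := ⟨hV, hp⟩
  have hcover : ∃ F : Set (Set (Fin n → ℂ)), F.Finite ∧ (∀ T ∈ F, IsSpecial T ∧ T ≠ torus n) ∧
      ∀ X, IsAtypicalSub V X → ∃ T ∈ F, X ⊆ T := by
    obtain ⟨S, hS⟩ := hV
    obtain ⟨k, L, ζ, h1, h2⟩ := zilber n S V hS hp
    refine ⟨Set.range fun j : Fin k => cos (L j) (ζ j), Set.finite_range _, ?_, ?_⟩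
    · rintro _ ⟨j, rfl⟩
      obtain ⟨hL, hsat, htor⟩ := h1 j
      exact ⟨special_iff.mpr ⟨L j, ζ j, hsat, htor, rfl⟩, cos_ne_torus (tors_ne_zero htor) hL⟩
    · intro X hX
      obtain ⟨T, ⟨M, η, hM, hη, hT⟩, hXc, hdim⟩ := (atypical_iff h0).mp hX
      obtain ⟨j, hj⟩ := h2 M η T hM hη hT X (hXc.1.trans Set.inter_subset_left)
        (hXc.1.trans Set.inter_subset_right) hXc.2.1 hdim
      exact ⟨_, ⟨j, rfl⟩, hj⟩
  have hall : ZilberCIT ↔
      ∀ (n : ℕ) (V : Set (Fin n → ℂ)), IsVariety V → {X | IsMaxAtypical V X}.Finite :=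
    main.out 0 1
  have hmax : {X | IsMaxAtypical V X}.Finite := hall.mp zilber n V hvar
  have hmax' : {X | IsMaxAtypicalSub V X}.Finite := by
    simp only [maxAtypical_iff h0]
    exact hmax
  refine ⟨hcover, hmax', ?_, ?_⟩
  · obtain ⟨F, hF, hF1, hF2⟩ := hcover
    refine ⟨F, hF, hF1, ?_⟩
    rintro x ⟨X, hX, hx⟩
    obtain ⟨T, hT, hXT⟩ := hF2 X hX
    exact ⟨T, hT, hXT hx⟩
  · have hU : Atyp V = ⋃₀ {X | IsMaxAtypical V X} := by
      refine Set.Subset.antisymm ?_ ?_
      · rintro x ⟨X, hX, hx⟩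
        obtain ⟨Y, hY, hXY⟩ := exists_max hCl hp ((atypical_iff h0).mp hX)
        exact ⟨Y, hY, hXY hx⟩
      · rintro x ⟨X, hX, hx⟩
        exact ⟨X, (atypical_iff h0).mpr hX.1, hx⟩
    rw [hU]
    refine closed_of_Cl (Cl_sUnion hmax ?_)
    intro X hX
    obtain ⟨h1, _, _, _⟩ := atypical_props hCl hp hX.1
    rw [← h1]
    exact Cl_Zt _

end Pool.Agent.Zilber.Forms
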