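import Mathlib

set_option autoImplicit false

/-! Core D, GAMMA: generic points. -/

namespace Pool.Agent.Zilber

private theorem gg_open {β : Type} [Fintype β] (c : β → ℂ) (P : MvPolynomial β ℚ) :
    IsOpen {y : β → ℂ | MvPolynomial.aeval (fun b => c b + y b) P ≠ 0} := by
  have h1 : Continuous fun y : β → ℂ => MvPolynomial.aeval (fun b => c b + y b) P := by
    have h2 : (fun y : β → ℂ => MvPolynomial.aeval (fun b => c b + y b) P) =
        fun y => MvPolynomial.eval (c + y) (MvPolynomial.map (algebraMap ℚ ℂ) P) := by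
      funext y
      rw [MvPolynomial.aeval_def, MvPolynomial.eval₂_eq_eval_map]
      rfl
    rw [h2]
    exact (MvPolynomial.continuous_eval _).comp (continuous_const.add continuous_id)
  exact isOpen_ne.preimage h1

private theorem gg_dense {β : Type} [Fintype β] (c : β → ℂ) (P : MvPolynomial β ℚ) (hP : P ≠ 0) :
    Dense {y : β → ℂ | MvPolynomial.aeval (fun b => c b + y b) P ≠ 0} := by
  rw [Metric.dense_iff]
  intro x r hr
  by_contra hne
  rw [Set.not_nonempty_iff_eq_empty] at hne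
  apply hP
  have hinf : ∀ b : β, (Metric.ball (c b + x b) r : Set ℂ).Infinite := by
    intro b
    exact infinite_of_mem_nhds _ (Metric.ball_mem_nhds _ hr)
  have h1 : MvPolynomial.map (algebraMap ℚ ℂ) P = 0 := by
    refine MvPolynomial.funext_set (fun b => Metric.ball (c b + x b) r) hinf fun z hz => ?_
    rw [map_zero]
    by_contra hz0
    have h2 : z - c ∈ Metric.ball x r ∩
        {y : β → ℂ | MvPolynomial.aeval (fun b => c b + y b) P ≠ 0} := by
      refine ⟨?_, ?_⟩
      · rw [Metric.mem_ball, dist_pi_lt_iff hr]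
        intro b
        have h3 := hz b (Set.mem_univ b)
        rw [Metric.mem_ball, dist_eq_norm] at h3
        rw [dist_eq_norm, Pi.sub_apply]
        have h4 : z b - c b - x b = z b - (c b + x b) := by ring
        rwa [h4]
      · have h3 : (fun b => c b + (z - c) b) = z := by
          funext b
          simp
        change MvPolynomial.aeval (fun b => c b + (z - c) b) P ≠ 0
        rw [h3, MvPolynomial.aeval_def, MvPolynomial.eval₂_eq_eval_map]
        exact hz0
    rw [hne] at h2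
    exact h2
  exact (MvPolynomial.map_injective (algebraMap ℚ ℂ) (algebraMap ℚ ℂ).injective)
    (by rw [h1, map_zero])

/-- **Generic points are dense.** Induction on a finite set of indices (`Finset` or `Fin n`): choose the coordinates one
after the other; the elements of `ℂ` which are algebraic over the countable ring `ℚ[chosen]` form a countable set
(`Algebraic.countable`-type lemma), and a ball of `ℂ` is uncountable; independence of the enlarged family:
`AlgebraicIndependent` for `Option` (`algebraicIndependent_option`-type lemma, or `AlgebraicIndepOn.insert`). -/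
theorem exists_generic {β : Type} [Fintype β] (c : β → ℂ) {r : ℝ} (hr : 0 < r) :
    ∃ y ∈ Metric.ball (0 : β → ℂ) r, AlgebraicIndependent ℚ (fun b => c b + y b) := by
  classical
  have hcount0 : Countable (MvPolynomial β ℚ) := by
    rw [← Cardinal.mk_le_aleph0_iff]
    refine MvPolynomial.cardinalMk_le_max.trans ?_
    simp
  have hcount : Countable {P : MvPolynomial β ℚ // P ≠ 0} := inferInstance
  have hd := dense_iInter_of_isOpen
    (f := fun P : {P : MvPolynomial β ℚ // P ≠ 0} =>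
      {y : β → ℂ | MvPolynomial.aeval (fun b => c b + y b) P.1 ≠ 0})
    (fun P => gg_open c P.1) (fun P => gg_dense c P.1 P.2)
  obtain ⟨y, hy1, hy2⟩ := Metric.dense_iff.1 hd 0 r hr
  refine ⟨y, hy1, algebraicIndependent_iff.2 fun P hP => ?_⟩
  by_contra hP0
  exact (Set.mem_iInter.1 hy2 ⟨P, hP0⟩) hP

/-- **The numbers.** `deg` the degree, `Λ = log L1 f`, `e₀, ez > 0` degrees of fields, `N = n 0`, `T = N ^ t`,
`Wp = ∏ W`, `Q = ∏ n_b` over `B`. `κ = κF ^ 2 / (C' * (2 / c0) ^ card B)`.

Proof. `ez * deg ≤ C' T Q ≤ C' (2/c0)^card T Wp` (`hW`). Multiply by `e₀` and use `Wp e₀ ≤ ez m`: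
`ez e₀ deg ≤ C'' T ez m`, so `e₀ deg ≤ C'' T m`, and `e₀ deg κF^2 N ≤ C'' m (κF T) (κF N) ≤ C'' e₀ Λ`. -/
theorem gam_num {B : Type} [Fintype B] (c0 κF C' T N Λ : ℝ) (hc0 : 0 < c0) (hκF : 0 < κF)
    (hC' : 0 < C') (hT : 0 < T) (hN : 0 < N) (n : B → ℝ) (hn : ∀ b, 0 < n b) (W : B → ℕ)
    (hW : ∀ b, c0 / 2 * n b ≤ W b) (e₀ ez m deg : ℕ) (he₀ : 0 < e₀) (hez : 0 < ez)
    (h1 : (∏ b, W b) * e₀ ≤ ez * m) (h2 : (m : ℝ) * (κF * T) * (κF * N) ≤ e₀ * Λ)
    (h3 : (ez : ℝ) * deg ≤ C' * (T * ∏ b, n b)) :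
    κF ^ 2 / (C' * (2 / c0) ^ Fintype.card B) * N * deg ≤ Λ := by
  have h2c : 0 < 2 / c0 := by positivity
  set K : ℝ := C' * (2 / c0) ^ Fintype.card B with hK
  have hK0 : 0 < K := by positivity
  have he₀' : (0 : ℝ) < e₀ := by exact_mod_cast he₀
  have hez' : (0 : ℝ) < ez := by exact_mod_cast hez
  have hQ : ∏ b, n b ≤ (2 / c0) ^ Fintype.card B * (∏ b, (W b : ℝ)) := by
    have e1 : (2 / c0) ^ Fintype.card B * (∏ b, (W b : ℝ)) = ∏ b, (2 / c0 * (W b : ℝ)) := by
      rw [Finset.prod_mul_distrib, Finset.prod_const, Finset.card_univ]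
    rw [e1]
    refine Finset.prod_le_prod (fun b _ => (hn b).le) fun b _ => ?_
    have e2 := hW b
    rw [div_mul_eq_mul_div, le_div_iff₀ hc0]
    linarith
  have h1' : (∏ b, (W b : ℝ)) * e₀ ≤ ez * m := by exact_mod_cast h1
  have h4 : (ez : ℝ) * (deg * e₀) ≤ ez * (K * T * m) := by
    have e1 : C' * (T * ∏ b, n b) ≤ K * T * (∏ b, (W b : ℝ)) := by
      have e2 := mul_le_mul_of_nonneg_left hQ (mul_pos hC' hT).le
      calc C' * (T * ∏ b, n b) = C' * T * ∏ b, n b := by ring
        _ ≤ C' * T * ((2 / c0) ^ Fintype.card B * (∏ b, (W b : ℝ))) := e2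
        _ = K * T * (∏ b, (W b : ℝ)) := by rw [hK]; ring
    calc (ez : ℝ) * (deg * e₀) = (ez * deg) * e₀ := by ring
      _ ≤ (K * T * (∏ b, (W b : ℝ))) * e₀ :=
        mul_le_mul_of_nonneg_right (h3.trans e1) he₀'.le
      _ = K * T * ((∏ b, (W b : ℝ)) * e₀) := by ring
      _ ≤ K * T * (ez * m) := mul_le_mul_of_nonneg_left h1' (by positivity)
      _ = ez * (K * T * m) := by ring
  have h5 : (deg : ℝ) * e₀ ≤ K * T * m := le_of_mul_le_mul_left h4 hez'
  have h6 : (κF ^ 2 / K * N * deg) * e₀ ≤ Λ * e₀ := by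
    calc (κF ^ 2 / K * N * deg) * e₀ = κF ^ 2 / K * N * (deg * e₀) := by ring
      _ ≤ κF ^ 2 / K * N * (K * T * m) := mul_le_mul_of_nonneg_left h5 (by positivity)
      _ = (m : ℝ) * (κF * T) * (κF * N) := by field_simp
      _ ≤ e₀ * Λ := h2
      _ = Λ * e₀ := by ring
  exact le_of_mul_le_mul_right h6 he₀'

end Pool.Agent.Zilber
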