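import Pool.Agent.CITLines.Basic
import Pool.Agent.CITLines.Rel

set_option autoImplicit false

/-! IND: full subcollections (field theory). -/

namespace Pool.Agent.Zilber

open Pool.Agent.CITLines

private theorem i_mon_sum {E ι P : Type} [Field E] [Fintype ι] (x : ι → E) (hx : ∀ i, x i ≠ 0)
    (e : P → ι → ℤ) (n : P → ℤ) (s : Finset P) :
    mon x (∑ p ∈ s, n p • e p) = ∏ p ∈ s, mon x (e p) ^ n p := by
  classical
  induction s using Finset.induction_on with
  | empty => rw [Finset.sum_empty, Finset.prod_empty, mon_zero]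
  | insert p s hp ih =>
    rw [Finset.sum_insert hp, Finset.prod_insert hp, mon_add' hx, mon_smul, ih]

private theorem i_alg_zpow {R E : Type} [CommRing R] [IsDomain R] [Field E] [Algebra R E]
    {a : E} (h : IsAlgebraic R a) (n : ℤ) : IsAlgebraic R (a ^ n) := by
  obtain ⟨k, rfl | rfl⟩ := n.eq_nat_or_neg
  · rw [zpow_natCast]
    exact h.pow k
  · rw [zpow_neg, zpow_natCast]
    exact (h.pow k).inv

private theorem i_alg_of_zpow {R E : Type} [CommRing R] [IsDomain R] [Field E] [Algebra R E]
    {a : E} {n : ℤ} (hn : n ≠ 0) (h : IsAlgebraic R (a ^ n)) : IsAlgebraic R a := by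
  obtain ⟨k, rfl | rfl⟩ := n.eq_nat_or_neg
  · rw [zpow_natCast] at h
    have hk : 0 < k := by
      rcases Nat.eq_zero_or_pos k with h0 | h0
      · exact absurd (by rw [h0]; rfl) hn
      · exact h0
    exact h.of_pow hk
  · rw [zpow_neg, zpow_natCast] at h
    have h' := h.inv
    rw [inv_inv] at h'
    have hk : 0 < k := by
      rcases Nat.eq_zero_or_pos k with h0 | h0
      · exact absurd (by rw [h0]; rfl) hn
      · exact h0
    exact h'.of_pow hk

private theorem i_alg_prod {R E P : Type} [CommRing R] [IsDomain R] [Field E] [Algebra R E]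
    (s : Finset P) (f : P → E) (h : ∀ p ∈ s, IsAlgebraic R (f p)) :
    IsAlgebraic R (∏ p ∈ s, f p) := by
  refine Finset.prod_induction f (fun a => IsAlgebraic R a) (fun a b ha hb => ha.mul hb) ?_ h
  exact isAlgebraic_one

/-- **Full subcollections.** `card ι` independent exponent vectors, each in one block, have the same
transcendence degrees as the coordinates.

Proof. The `e p` form a basis of `ι → ℚ`. Let `cl i = l`. The unit vector at `i` is a rational
combination of the `e p`; taking the part in block `l`, only the `e p` with `ce p = l` are needed: so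
`N • single i = ∑ p, n p • e p` (sum over the `p` with `ce p = l`) with `N ≠ 0`, and `x i ^ N` is a
product of powers of the `mon x (e p)`, `ce p = l`. So `x i` is algebraic over them;
`rk_le_of_algebraic`. -/
theorem i_full {E : Type} [Field E] {k : ℕ} (G : Fin (k + 1) → Subfield E) {ι : Type} [Fintype ι]
    (cl : ι → Fin (k + 1)) (x : ι → E) (hx : ∀ i, x i ≠ 0) {m : ℕ} (e : Fin m → ι → ℤ)
    (ce : Fin m → Fin (k + 1)) (hi : LinearIndependent ℤ e)
    (he : ∀ p i, e p i ≠ 0 → cl i = ce p) (hm : m = Fintype.card ι) (l : Fin (k + 1)) :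
    rk (G l) {y | ∃ i, cl i = l ∧ y = x i} ≤
      rk (G l) {y | ∃ p, ce p = l ∧ y = mon x (e p)} := by
  classical
  refine rk_le_of_algebraic ?_
  rintro _ ⟨i, hil, rfl⟩
  let f : Option (Fin m) → ι → ℤ := fun o => o.elim (Pi.single i 1) e
  have hf : ¬ LinearIndependent ℤ f := by
    intro h
    have h1 := h.fintype_card_le_finrank
    rw [Module.finrank_fintype_fun_eq_card, Fintype.card_option, Fintype.card_fin, ← hm] at h1
    omega
  rw [Fintype.not_linearIndependent_iff] at hf
  obtain ⟨g, hg, o, ho⟩ := hf
  rw [Fintype.sum_option] at hg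
  have hN : g none ≠ 0 := by
    intro h0
    rw [h0, zero_smul, zero_add] at hg
    have h2 := Fintype.linearIndependent_iff.1 hi (fun p => g (some p)) hg
    cases o with
    | none => exact ho h0
    | some p => exact ho (h2 p)
  have hv : ∑ p ∈ Finset.univ.filter (fun p => ce p = l), (-g (some p)) • e p =
      g none • (Pi.single i 1 : ι → ℤ) := by
    funext j
    have hj : g none * (Pi.single i 1 : ι → ℤ) j + ∑ p, g (some p) * e p j = 0 := by
      have := congrFun hg j
      simpa [f, Finset.sum_apply] using this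
    have h3 : (∑ p ∈ Finset.univ.filter (fun p => ce p = l), (-g (some p)) • e p) j =
        -∑ p ∈ Finset.univ.filter (fun p => ce p = l), g (some p) * e p j := by
      rw [Finset.sum_apply, ← Finset.sum_neg_distrib]
      refine Finset.sum_congr rfl fun p _ => ?_
      simp
    rw [h3]
    by_cases hcj : cl j = l
    · have h4 : ∑ p ∈ Finset.univ.filter (fun p => ce p = l), g (some p) * e p j =
          ∑ p, g (some p) * e p j := by
        refine Finset.sum_subset (Finset.subset_univ _) fun p _ hp => ?_
        have : e p j = 0 := by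
          by_contra h5
          exact hp (Finset.mem_filter.2 ⟨Finset.mem_univ _, (he p j h5).symm.trans hcj⟩)
        rw [this, mul_zero]
      rw [h4, Pi.smul_apply, smul_eq_mul]
      linarith
    · have h4 : ∑ p ∈ Finset.univ.filter (fun p => ce p = l), g (some p) * e p j = 0 := by
        refine Finset.sum_eq_zero fun p hp => ?_
        have : e p j = 0 := by
          by_contra h5
          exact hcj ((he p j h5).trans (Finset.mem_filter.1 hp).2)
        rw [this, mul_zero]
      have h5 : j ≠ i := by
        rintro rfl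
        exact hcj hil
      rw [h4, Pi.smul_apply, Pi.single_eq_of_ne h5, smul_zero, neg_zero]
  have hmon : x i ^ g none =
      ∏ p ∈ Finset.univ.filter (fun p => ce p = l), mon x (e p) ^ (-g (some p)) := by
    rw [← i_mon_sum x hx, hv, mon_smul]
    congr 1
    unfold mon
    rw [Finset.prod_eq_single i]
    · rw [Pi.single_eq_same, zpow_one]
    · intro j _ hji
      rw [Pi.single_eq_of_ne hji, zpow_zero]
    · intro h
      exact absurd (Finset.mem_univ i) h
  refine i_alg_of_zpow hN ?_
  rw [hmon]
  refine i_alg_prod _ _ fun p hp => i_alg_zpow ?_ _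
  exact isAlgebraic_algebraMap (⟨mon x (e p), Algebra.subset_adjoin
    ⟨p, (Finset.mem_filter.1 hp).2, rfl⟩⟩ :
      Algebra.adjoin (G l) {y | ∃ p, ce p = l ∧ y = mon x (e p)})

/-- Proof. `mon x (e p)` with `ce p = l` is a product of powers of the `x i` with `cl i = l` and their
inverses, so it is algebraic over `Algebra.adjoin` of these `x i`. -/
theorem i_mon_alg {E : Type} [Field E] {k : ℕ} (G : Subfield E) {ι : Type} [Fintype ι]
    (cl : ι → Fin (k + 1)) (x : ι → E) {m : ℕ} (e : Fin m → ι → ℤ)
    (ce : Fin m → Fin (k + 1)) (he : ∀ p i, e p i ≠ 0 → cl i = ce p) (l : Fin (k + 1)) :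
    ∀ z ∈ {y | ∃ p, ce p = l ∧ y = mon x (e p)},
      IsAlgebraic (Algebra.adjoin G {y | ∃ i, cl i = l ∧ y = x i}) z := by
  rintro _ ⟨p, hp, rfl⟩
  refine i_alg_prod _ _ fun i _ => ?_
  by_cases h : e p i = 0
  · rw [h, zpow_zero]
    exact isAlgebraic_one
  · refine i_alg_zpow ?_ _
    exact isAlgebraic_algebraMap (⟨x i, Algebra.subset_adjoin ⟨i, (he p i h).trans hp, rfl⟩⟩ :
      Algebra.adjoin G {y | ∃ i, cl i = l ∧ y = x i})

end Pool.Agent.Zilber
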