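import Pool.Agent.Zilber.ND
import Pool.Agent.LSharp.TYSum

set_option autoImplicit false

/-! IND: kernels of extended configurations. -/

namespace Pool.Agent.Zilber

open Filter NumberField Module Pool.Agent.LAll Pool.Agent.LSharp Pool.Agent.CITLines

/-- The vectors whose part in `ι` is in `W`, and arbitrary in `γ`. -/
def extV {ι : Type} (γ : Type) (W : Submodule ℝ (ι → ℝ)) : Submodule ℝ (ι ⊕ γ → ℝ) :=
  W.comap (LinearMap.funLeft ℝ ℝ (Sum.inl : ι → ι ⊕ γ))

theorem mem_extV {ι γ : Type} {W : Submodule ℝ (ι → ℝ)} {R : ι ⊕ γ → ℝ} :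
    R ∈ extV γ W ↔ (fun i => R (Sum.inl i)) ∈ W := Iff.rfl

/-- Proof. `extV γ W` is isomorphic to `W × (γ → ℝ)`. -/
theorem finrank_extV {ι γ : Type} [Fintype ι] [Fintype γ] (W : Submodule ℝ (ι → ℝ)) :
    finrank ℝ (extV γ W) = finrank ℝ W + Fintype.card γ := by
  let e : (W × (γ → ℝ)) ≃ₗ[ℝ] extV γ W :=
    { toFun := fun p => ⟨Sum.elim (p.1 : ι → ℝ) p.2, p.1.2⟩
      map_add' := fun p p' => by
        apply Subtype.ext
        funext i
        rcases i with i | i <;> rfl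
      map_smul' := fun r p => by
        apply Subtype.ext
        funext i
        rcases i with i | i <;> rfl
      invFun := fun R => (⟨fun i => (R : ι ⊕ γ → ℝ) (Sum.inl i), R.2⟩,
        fun a => (R : ι ⊕ γ → ℝ) (Sum.inr a))
      left_inv := fun p => rfl
      right_inv := fun R => by
        apply Subtype.ext
        funext i
        rcases i with i | i <;> rfl }
  rw [← e.finrank_eq, Module.finrank_prod, Module.finrank_fintype_fun_eq_card]

variable {J : Type} {𝒰 : Ultrafilter J} {K : J → Type} [∀ j, Field (K j)] [∀ j, NumberField (K j)]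
  {k : ℕ} {s : Fin (k + 1) → J → ℝ} {ι γ : Type} [Fintype ι] [Fintype γ]
  {cl : ι → Fin (k + 1)} {x : ι → Ult 𝒰 K} {cc : γ → Fin (k + 1)} {c : γ → Ult 𝒰 K}

private theorem iker_small (hs : Scl 𝒰 s) {l : Fin (k + 1)} (hl : l ≠ 0) {z : Ult 𝒰 K}
    (hz : z ∈ Lo 𝒰 K (s l)) (ε : ℝ) (hε : 0 < ε) :
    ∀ᶠ j in (𝒰 : Filter J), ht (z.rep j) ≤ ε * s l j := by
  obtain ⟨σ, hσ, w, hw, C, hC⟩ := hz
  have hC1 : (0 : ℝ) < |C| + 1 := by positivity
  have h1 := hσ (ε / (|C| + 1)) (by positivity)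
  have h2 := hs.sep 0 l (Fin.pos_iff_ne_zero.2 hl)
  have h3 : ∀ᶠ j in (𝒰 : Filter J), s 0 j / s l j < ε / (|C| + 1) :=
    h2.eventually (gt_mem_nhds (by positivity))
  have h4 : ∀ᶠ j in (𝒰 : Filter J), z.rep j = w j := by
    rw [← hw]
    exact Ult.rep_mk w
  filter_upwards [hC, h1, h3, h4] with j e1 e2 e3 e4
  have h5 : 1 ≤ s l j := hs.one l j
  have h8 : 0 < s l j := by linarith
  rw [abs_of_pos h8] at e2
  rw [hs.zero j, div_lt_iff₀ h8] at e3
  have h6 : max 1 (σ j) ≤ ε / (|C| + 1) * s l j := max_le e3.le e2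
  have h7 : (0 : ℝ) ≤ max 1 (σ j) := zero_le_one.trans (le_max_left _ _)
  rw [e4]
  calc ht (w j) ≤ C * max 1 (σ j) := e1
    _ ≤ (|C| + 1) * max 1 (σ j) :=
      mul_le_mul_of_nonneg_right (by linarith [le_abs_self C]) h7
    _ ≤ (|C| + 1) * (ε / (|C| + 1) * s l j) := mul_le_mul_of_nonneg_left h6 hC1.le
    _ = ε * s l j := by field_simp

/-- **New coordinates of small height are free in the kernel.**

Proof. For `R` with `R ∘ inl ∈ Ker 𝒰 K s cl x`: the sum over `ι ⊕ γ` splits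
(`Fintype.sum_sum_type`), the part of `ι` is small by assumption, and the part of `γ` is at most
`∑ a, |R a| * ∑ v, |lam v ((c a).rep j)| / s (cc a) j`. Here `∑ v, |lam v z| ≤ 2 ht z` for every
finite set of places (`z ≠ 0`; `sum_abs_lam_le` in LSharp or LAll), and
`ht ((c a).rep j) ≤ C max 1 (σ j)` with `σ = o(s (cc a))`; the quotient by `s (cc a) j` tends to
`0` along the ultrafilter because `s (cc a) → ∞`
(`h0 : cc a ≠ 0` and `hs.sep 0 (cc a)`, `hs.zero`). -/
theorem ker_ext (hs : Scl 𝒰 s) (hne : ∀ a, c a ≠ 0) (h0 : ∀ a, cc a ≠ 0)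
    (hc : ∀ a, c a ∈ Lo 𝒰 K (s (cc a))) (W : Submodule ℝ (ι → ℝ)) (hW : W ≤ Ker 𝒰 K s cl x) :
    extV γ W ≤ Ker 𝒰 K s (Sum.elim cl cc) (Sum.elim x c) := by
  intro R hR ε hε
  have h1 : (fun i => R (Sum.inl i)) ∈ Ker 𝒰 K s cl x := hW hR
  have h2 : ∀ᶠ j in (𝒰 : Filter J), ∀ S : Finset (FinitePlace (K j)),
      ∑ v : Plc (K j) S, |∑ i, R (Sum.inl i) * lam v ((x i).rep j) / s (cl i) j| ≤ ε / 2 :=
    h1 (ε / 2) (by positivity)
  set D : ℝ := ∑ a : γ, 2 * |R (Sum.inr a)| with hD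
  have hD0 : 0 ≤ D := Finset.sum_nonneg fun a _ => by positivity
  have h3 : ∀ᶠ j in (𝒰 : Filter J), ∀ a : γ,
      ht ((c a).rep j) ≤ ε / (2 * (D + 1)) * s (cc a) j := by
    rw [Filter.eventually_all]
    exact fun a => iker_small hs (h0 a) (hc a) _ (by positivity)
  filter_upwards [h2, h3] with j e1 e2 S
  have h4 : ∀ v : Plc (K j) S,
      |∑ i, R i * lam v ((Sum.elim x c i).rep j) / s (Sum.elim cl cc i) j| ≤
      |∑ i, R (Sum.inl i) * lam v ((x i).rep j) / s (cl i) j| +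
        ∑ a, |R (Sum.inr a)| / s (cc a) j * |lam v ((c a).rep j)| := by
    intro v
    rw [Fintype.sum_sum_type]
    refine (abs_add_le _ _).trans (add_le_add le_rfl ?_)
    refine (Finset.abs_sum_le_sum_abs _ _).trans (Finset.sum_le_sum fun a _ => ?_)
    have h5 : (0 : ℝ) < s (cc a) j := lt_of_lt_of_le one_pos (hs.one _ j)
    simp only [Sum.elim_inr]
    rw [abs_div, abs_mul, abs_of_pos h5]
    exact le_of_eq (by ring)
  calc ∑ v : Plc (K j) S,
        |∑ i, R i * lam v ((Sum.elim x c i).rep j) / s (Sum.elim cl cc i) j|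
      ≤ ∑ v : Plc (K j) S, (|∑ i, R (Sum.inl i) * lam v ((x i).rep j) / s (cl i) j| +
        ∑ a, |R (Sum.inr a)| / s (cc a) j * |lam v ((c a).rep j)|) :=
        Finset.sum_le_sum fun v _ => h4 v
    _ = ∑ v : Plc (K j) S, |∑ i, R (Sum.inl i) * lam v ((x i).rep j) / s (cl i) j| +
        ∑ a, |R (Sum.inr a)| / s (cc a) j * ∑ v : Plc (K j) S, |lam v ((c a).rep j)| := by
        rw [Finset.sum_add_distrib, Finset.sum_comm]
        congr 1
        exact Finset.sum_congr rfl fun a _ => (Finset.mul_sum _ _ _).symm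
    _ ≤ ε / 2 + ∑ a, 2 * |R (Sum.inr a)| * (ε / (2 * (D + 1))) := by
        refine add_le_add (e1 S) (Finset.sum_le_sum fun a _ => ?_)
        have h5 : (0 : ℝ) < s (cc a) j := lt_of_lt_of_le one_pos (hs.one _ j)
        have h6 := ty_sum_abs_lam' S ((c a).rep j)
        have h7 := e2 a
        calc |R (Sum.inr a)| / s (cc a) j * ∑ v : Plc (K j) S, |lam v ((c a).rep j)|
            ≤ |R (Sum.inr a)| / s (cc a) j * (2 * (ε / (2 * (D + 1)) * s (cc a) j)) :=
              mul_le_mul_of_nonneg_left (by linarith) (by positivity)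
          _ = 2 * |R (Sum.inr a)| * (ε / (2 * (D + 1))) := by
              field_simp
    _ = ε / 2 + D * (ε / (2 * (D + 1))) := by rw [← Finset.sum_mul, ← hD]
    _ ≤ ε := by
        have h8 : D * (ε / (2 * (D + 1))) ≤ ε / 2 := by
          rw [mul_div_assoc', div_le_div_iff₀ (by positivity) (by norm_num)]
          nlinarith
        linarith

end Pool.Agent.Zilber
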