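import Pool.Agent.CITLines.Basic
import Pool.Agent.CITLines.Rel

set_option autoImplicit false

/-! IND: monomials with independent exponents in algebraically independent elements. -/

namespace Pool.Agent.Zilber

open Pool.Agent.CITLines

/-- The exponent of the monomial. -/
private def imEx {γ A : Type} [Fintype A] (u : A → γ → ℤ) (n : A →₀ ℕ) (a : γ) : ℤ :=
  ∑ q, (n q : ℤ) * u q a

private theorem im_prod {E γ A : Type} [Field E] [Fintype γ] [Fintype A] (c : γ → E)
    (hc0 : ∀ a, c a ≠ 0) (u : A → γ → ℤ) (n : A →₀ ℕ) :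
    ∏ q, mon c (u q) ^ n q = ∏ a, c a ^ imEx u n a := by
  have h1 : ∀ a, c a ^ imEx u n a = ∏ q, c a ^ ((n q : ℤ) * u q a) := by
    intro a
    unfold imEx
    induction (Finset.univ : Finset A) using Finset.cons_induction with
    | empty => simp
    | cons q s hq ih => rw [Finset.sum_cons, Finset.prod_cons, zpow_add₀ (hc0 a), ih]
  rw [Finset.prod_congr rfl fun a _ => h1 a, Finset.prod_comm]
  refine Finset.prod_congr rfl fun q _ => ?_
  unfold mon
  rw [← Finset.prod_pow]
  refine Finset.prod_congr rfl fun a _ => ?_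
  rw [mul_comm, zpow_mul, zpow_natCast]

private theorem im_prod_sub {E γ : Type} [Field E] [Fintype γ] (c : γ → E) (Γ : Set γ)
    [Fintype Γ] (v : γ → ℤ) (hv : ∀ a, a ∉ Γ → v a = 0) :
    ∏ a, c a ^ v a = ∏ a : Γ, c a ^ v a := by
  classical
  have h1 : ∏ a ∈ Γ.toFinset, c a ^ v a = ∏ a : Γ, c a ^ v a :=
    Finset.prod_subtype Γ.toFinset (fun a => Set.mem_toFinset) fun a => c a ^ v a
  rw [← h1]
  symm
  refine Finset.prod_subset (Finset.subset_univ _) fun a _ ha => ?_
  rw [Set.mem_toFinset] at ha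
  rw [hv a ha, zpow_zero]

private theorem im_inj {γ A : Type} [Fintype A] (u : A → γ → ℤ) (hu : LinearIndependent ℤ u)
    {m n : A →₀ ℕ} (h : ∀ a, imEx u m a = imEx u n a) : m = n := by
  have h1 : ∑ q, ((m q : ℤ) - n q) • u q = 0 := by
    funext a
    rw [Finset.sum_apply, Pi.zero_apply]
    have h2 := h a
    unfold imEx at h2
    rw [← sub_eq_zero, ← Finset.sum_sub_distrib] at h2
    rw [← h2]
    refine Finset.sum_congr rfl fun q _ => ?_
    rw [Pi.smul_apply, smul_eq_mul, sub_mul]
  ext q
  have h3 := Fintype.linearIndependent_iff.1 hu _ h1 q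
  omega

/-- **Monomials with independent exponents.**

Proof. Laurent monomials: a polynomial `∑ f_n Y^n` with
`∑ f_n c^(∑ q, n q • u q) = 0`; the exponents `∑ q, n q • u q` are different for
different `n`; multiply by a monomial to make all exponents nonnegative, and the `f_n` vanish by
`hci`. -/
theorem mon_indep {E γ A : Type} [Field E] [Fintype γ] [Fintype A] (F : Subfield E) (c : γ → E)
    (hc0 : ∀ a, c a ≠ 0) (Γ : Set γ) (hci : AlgebraicIndependent F (fun a : Γ => c a))
    (u : A → γ → ℤ) (hu : LinearIndependent ℤ u) (huΓ : ∀ q a, u q a ≠ 0 → a ∈ Γ) :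
    AlgebraicIndependent F (fun q => mon c (u q)) := by
  classical
  have hv : ∀ (n : A →₀ ℕ) (a : γ), a ∉ Γ → imEx u n a = 0 := by
    intro n a ha
    unfold imEx
    refine Finset.sum_eq_zero fun q _ => ?_
    by_cases h : u q a = 0
    · rw [h, mul_zero]
    · exact absurd (huΓ q a h) ha
  rw [algebraicIndependent_iff]
  intro f hf
  set N : ℕ := ∑ n ∈ f.support, ∑ a, (imEx u n a).natAbs with hN
  have hN' : ∀ n ∈ f.support, ∀ a, 0 ≤ (N : ℤ) + imEx u n a := by
    intro n hn a
    have h1 : (imEx u n a).natAbs ≤ N := by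
      refine le_trans ?_ (Finset.single_le_sum (f := fun n => ∑ a, (imEx u n a).natAbs)
        (fun _ _ => Nat.zero_le _) hn)
      exact Finset.single_le_sum (f := fun a => (imEx u n a).natAbs)
        (fun _ _ => Nat.zero_le _) (Finset.mem_univ a)
    omega
  let e : (A →₀ ℕ) → (Γ →₀ ℕ) := fun n =>
    Finsupp.equivFunOnFinite.symm fun a : Γ => ((N : ℤ) + imEx u n a).toNat
  have he : ∀ n (a : Γ), e n a = ((N : ℤ) + imEx u n a).toNat := fun n a => rfl
  let g : MvPolynomial Γ F := ∑ n ∈ f.support, MvPolynomial.monomial (e n) (f.coeff n)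
  have hmon : ∀ n ∈ f.support, ∏ a : Γ, c a ^ e n a =
      (∏ a : Γ, c a ^ N) * ∏ q, mon c (u q) ^ n q := by
    intro n hn
    rw [im_prod c hc0, im_prod_sub c Γ _ (hv n), ← Finset.prod_mul_distrib]
    refine Finset.prod_congr rfl fun a _ => ?_
    rw [← zpow_natCast (c a) N, ← zpow_add₀ (hc0 a), ← zpow_natCast (c a) (e n a), he,
      Int.toNat_of_nonneg (hN' n hn a)]
  have hg : MvPolynomial.aeval (fun a : Γ => c a) g = 0 := by
    have h1 : MvPolynomial.aeval (fun a : Γ => c a) g =
        (∏ a : Γ, c a ^ N) * MvPolynomial.aeval (fun q => mon c (u q)) f := by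
      rw [map_sum]
      conv_rhs => rw [f.as_sum, map_sum, Finset.mul_sum]
      refine Finset.sum_congr rfl fun n hn => ?_
      rw [MvPolynomial.aeval_monomial, MvPolynomial.aeval_monomial,
        Finsupp.prod_fintype _ _ (fun i => pow_zero _),
        Finsupp.prod_fintype _ _ (fun i => pow_zero _), hmon n hn]
      ring
    rw [h1, hf, mul_zero]
  have hg0 : g = 0 := algebraicIndependent_iff.1 hci g hg
  refine MvPolynomial.ext _ _ fun n => ?_
  rw [MvPolynomial.coeff_zero]
  by_contra hne
  have hn : n ∈ f.support := MvPolynomial.mem_support_iff.2 hne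
  have h1 := congrArg (MvPolynomial.coeff (e n)) hg0
  rw [MvPolynomial.coeff_sum, MvPolynomial.coeff_zero,
    Finset.sum_eq_single_of_mem n hn, MvPolynomial.coeff_monomial, if_pos rfl] at h1
  · exact hne h1
  · intro m hm hmn
    rw [MvPolynomial.coeff_monomial, if_neg]
    intro hemn
    refine hmn (im_inj u hu fun a => ?_)
    by_cases ha : a ∈ Γ
    · have h2 := congrArg (fun z => z (⟨a, ha⟩ : Γ)) hemn
      have h3 : ((N : ℤ) + imEx u m a).toNat = ((N : ℤ) + imEx u n a).toNat := h2
      have h4 := hN' m hm a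
      have h5 := hN' n hn a
      omega
    · rw [hv m a ha, hv n a ha]

end Pool.Agent.Zilber
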