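import Pool.Agent.Zilber.ND

set_option autoImplicit false

/-! IND: an empty top block can be removed. -/

namespace Pool.Agent.Zilber

open Filter NumberField Module Pool.Agent.LAll Pool.Agent.LSharp Pool.Agent.CITLines

variable {J : Type} {𝒰 : Ultrafilter J} {K : J → Type} [∀ j, Field (K j)] [∀ j, NumberField (K j)]

/-- **Removal of an empty top block.**

Proof. `s' l = s l.castSucc`, `cl' i = (cl i).castPred (htop i)` (so `(cl' i).castSucc = cl i` and
`s' (cl' i) = s (cl i)`). The fields of `BD` and the definition of `Ker` transfer directly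
(`Fin.castSucc_lt_castSucc_iff`, `Fin.castSucc_zero`, `Fin.castSucc_inj`). `tr`:
`Fin.sum_univ_castSucc`; the set of the last block is empty (its rank is `0`: `rk_le_encard`),
`kk 𝒰 K s' l = kk 𝒰 K s l.castSucc` (`l = 0 ↔ l.castSucc = 0`). -/
theorem i_top {k : ℕ} {s : Fin (k + 2) → J → ℝ} {ι : Type} [Fintype ι] {cl : ι → Fin (k + 2)}
    {x : ι → Ult 𝒰 K} (h : BD 𝒰 K s cl x) (htop : ∀ i, cl i ≠ Fin.last (k + 1)) :
    ∃ (s' : Fin (k + 1) → J → ℝ) (cl' : ι → Fin (k + 1)), BD 𝒰 K s' cl' x ∧
      (∀ i, cl' i = 0 ↔ cl i = 0) ∧ Ker 𝒰 K s' cl' x = Ker 𝒰 K s cl x ∧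
      tr 𝒰 K (kk 𝒰 K s') cl' x = tr 𝒰 K (kk 𝒰 K s) cl x := by
  have hz : (0 : Fin (k + 1)).castSucc = (0 : Fin (k + 2)) := rfl
  have hcs : ∀ i, ((cl i).castPred (htop i)).castSucc = cl i := fun i =>
    Fin.castSucc_castPred _ _
  have hiff : ∀ i (l : Fin (k + 1)), (cl i).castPred (htop i) = l ↔ cl i = l.castSucc := by
    intro i l
    rw [← Fin.castSucc_inj, hcs]
  have hs : ∀ i, s ((cl i).castPred (htop i)).castSucc = s (cl i) := fun i => by rw [hcs]
  refine ⟨fun l => s l.castSucc, fun i => (cl i).castPred (htop i), ⟨⟨?_, ?_, ?_⟩, h.ne, ?_, ?_,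
    ?_⟩, ?_, ?_, ?_⟩
  · intro j
    exact h.scl.zero j
  · intro l j
    exact h.scl.one _ j
  · intro l l' hl
    exact h.scl.sep _ _ (Fin.castSucc_lt_castSucc_iff.2 hl)
  · intro i
    have h1 := h.hgt i
    rw [← hs i] at h1
    exact h1
  · intro l a hl ha hal
    refine h.low l.castSucc a ?_ ha ?_
    · intro h0
      apply hl
      rw [← hz, Fin.castSucc_inj] at h0
      exact h0
    · intro i hi
      exact (hiff i l).1 (hal i hi)
  · intro a ha hal
    exact h.nc a ha fun i hi => (hiff i 0).1 (hal i hi)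
  · intro i
    exact hiff i 0
  · ext α
    constructor
    · intro hα ε hε
      filter_upwards [hα ε hε] with j hj S
      have h1 := hj S
      simp only [hs] at h1
      exact h1
    · intro hα ε hε
      filter_upwards [hα ε hε] with j hj S
      have h1 := hj S
      simp only [hs]
      exact h1
  · unfold tr
    rw [Fin.sum_univ_castSucc (fun l : Fin (k + 2) =>
      rk (kk 𝒰 K s l) {y | ∃ i, cl i = l ∧ y = x i})]
    have h1 : {y | ∃ i, cl i = Fin.last (k + 1) ∧ y = x i} = (∅ : Set (Ult 𝒰 K)) := by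
      ext y
      constructor
      · rintro ⟨i, hi, -⟩
        exact htop i hi
      · intro hy
        exact hy.elim
    have h2 : rk (kk 𝒰 K s (Fin.last (k + 1)))
        {y | ∃ i, cl i = Fin.last (k + 1) ∧ y = x i} = 0 := by
      rw [h1]
      have h3 := rk_le_encard (k := kk 𝒰 K s (Fin.last (k + 1))) (∅ : Set (Ult 𝒰 K))
      rw [Set.encard_empty] at h3
      exact nonpos_iff_eq_zero.1 h3
    rw [h2, add_zero]
    refine Finset.sum_congr rfl fun l _ => ?_
    have h3 : kk 𝒰 K (fun l : Fin (k + 1) => s l.castSucc) l = kk 𝒰 K s l.castSucc := by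
      unfold kk
      by_cases hl : l = 0
      · rw [if_pos hl, if_pos (by rw [hl]; rfl)]
        rfl
      · rw [if_neg hl, if_neg]
        intro h0
        apply hl
        rw [← hz, Fin.castSucc_inj] at h0
        exact h0
    have h4 : {y | ∃ i, (cl i).castPred (htop i) = l ∧ y = x i} =
        {y | ∃ i, cl i = l.castSucc ∧ y = x i} := by
      ext y
      exact exists_congr fun i => and_congr_left fun _ => hiff i l
    rw [h3, h4]

end Pool.Agent.Zilber
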