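import Mathlib

set_option autoImplicit false

/-! JEN 1, 2: roots of one polynomial; products over roots of unity. -/

namespace Pool.Agent.Zilber

open Polynomial

/-- **Products over the primitive `N`-th roots of unity**, `N` prime: a nonzero integral polynomial of degree
`< N - 1` does not vanish at them, and the product of its values is a nonzero integer.

Proof. The cyclotomic polynomial `cyclotomic N ℤ` (degree `N - 1`, irreducible over `ℚ`, monic) is the minimal
polynomial of every primitive root `ξ`, so `a(ξ) ≠ 0` by the degree. The product of `a(ξ)` over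
`primitiveRoots N ℂ` is the norm of `a(ξ₀)` from `ℚ(ξ₀)` to `ℚ` (`Algebra.norm_eq_prod_embeddings`, cyclotomic
extension; the embeddings correspond to the primitive roots), or the resultant of `cyclotomic N` and `a`
(`Polynomial.resultant`), or: the product over the roots of a monic integral polynomial of the values of an integral
polynomial is an integer (symmetric functions; the determinant of `aeval (companion matrix) a`). It is not zero,
so its absolute value is `≥ 1`. -/
theorem jen_cyc (a : ℤ[X]) (ha : a ≠ 0) (N : ℕ) (hN : N.Prime) (hd : a.natDegree + 1 < N) :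
    (∀ ξ ∈ primitiveRoots N ℂ, aeval ξ a ≠ 0) ∧
      1 ≤ ∏ ξ ∈ primitiveRoots N ℂ, ‖aeval ξ a‖ := by
  have hN0 : NeZero N := ⟨hN.ne_zero⟩
  have hNC : NeZero (N : ℂ) := ⟨Nat.cast_ne_zero.2 hN.ne_zero⟩
  have h1 : ∀ ξ ∈ primitiveRoots N ℂ, aeval ξ a ≠ 0 := by
    intro ξ hξ h0
    have hp : IsPrimitiveRoot ξ N := (mem_primitiveRoots hN.pos).1 hξ
    have hint : IsIntegral ℤ ξ := hp.isIntegral hN.pos
    have hdvd : minpoly ℤ ξ ∣ a := minpoly.isIntegrallyClosed_dvd hint h0
    rw [← cyclotomic_eq_minpoly hp hN.pos] at hdvd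
    have h2 := natDegree_le_of_dvd hdvd ha
    rw [natDegree_cyclotomic, Nat.totient_prime hN] at h2
    omega
  refine ⟨h1, ?_⟩
  have hg : (a.map (Int.castRingHom ℂ)).natDegree ≤ a.natDegree := natDegree_map_le
  have hres := resultant_eq_prod_eval (cyclotomic N ℂ) (a.map (Int.castRingHom ℂ)) a.natDegree hg
    (IsAlgClosed.splits _)
  rw [cyclotomic.roots_eq_primitiveRoots_val, (cyclotomic.monic N ℂ).leadingCoeff, one_pow, one_mul,
    ← map_cyclotomic_int N ℂ, resultant_map_map] at hres
  have hev : ((primitiveRoots N ℂ).val.map (a.map (Int.castRingHom ℂ)).eval).prod =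
      ∏ ξ ∈ primitiveRoots N ℂ, aeval ξ a := by
    change ∏ ξ ∈ primitiveRoots N ℂ, (a.map (Int.castRingHom ℂ)).eval ξ = _
    refine Finset.prod_congr rfl fun ξ _ => ?_
    rw [eval_map, aeval_def]
    rfl
  rw [hev] at hres
  rw [← norm_prod, ← hres, eq_intCast, Complex.norm_intCast]
  have hne : resultant (cyclotomic N ℤ) a
      ((cyclotomic N ℤ).map (Int.castRingHom ℂ)).natDegree a.natDegree ≠ 0 := by
    intro h0
    rw [h0, map_zero] at hres
    exact (Finset.prod_ne_zero_iff.2 h1) hres.symm
  rw [← Int.cast_abs]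
  exact_mod_cast Int.one_le_abs hne

end Pool.Agent.Zilber
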