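import Pool.Agent.Zilber.JMon
import Pool.Agent.CITLines.Rel

set_option autoImplicit false

/-! JEN 6: elimination; independence from many points. -/

namespace Pool.Agent.Zilber

open MvPolynomial Pool.Agent.CITLines

/-- **Elimination.** The `mco A zb (some b)` are algebraically independent over `ℚ` and `zb` is algebraic over them
(`hrk`); `a(zb) ≠ 0`. There is `B ≠ 0` such that every specialisation `z` of `zb` with nonzero coordinates and
`B (mco A z on β) ≠ 0` has `a(z) ≠ 0`.

Proof. `t = (mco A zb (some b))_b`. `α = a(zb) ≠ 0` is algebraic over `ℚ(t)` (the transcendence degree of `zb` is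
`card β`, and `t` are `card β` independent elements of the field `ℚ(zb)`), so `∑_{i ≤ n} c_i(t) α^i = 0` with
`c_i ∈ ℚ[β]`, `c_0 ≠ 0` (divide by a power of `α`), not all zero. This is a relation for `zb` after multiplication by a
monomial of `zb` (the `t_b` are Laurent monomials; use the polynomial relation of `(zb)` obtained by clearing the
negative exponents), so it holds for `z`: `∑ c_i(t(z)) a(z)^i = 0` (divide by the monomial, `z` has nonzero
coordinates). If `a(z) = 0` then `c_0(t(z)) = 0`. Take `B` = an integral multiple of `c_0`. -/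
theorem jen_elim {β : Type} [Fintype β] [DecidableEq β] (zb : Option β → ℂ)
    (hzb : ∀ o, zb o ≠ 0) (hrk : rk ℚ (Set.range zb) = Fintype.card β)
    (A : Matrix (Option β) (Option β) ℤ)
    (hind : AlgebraicIndependent ℚ fun b : β => mco A zb (some b))
    (a : MvPolynomial (Option β) ℚ) (ha : aeval zb a ≠ 0) :
    ∃ B : MvPolynomial β ℤ, B ≠ 0 ∧ ∀ z : Option β → ℂ, (∀ o, z o ≠ 0) →
      (∀ P : MvPolynomial (Option β) ℚ, aeval zb P = 0 → aeval z P = 0) →
      aeval (fun b => mco A z (some b)) B ≠ 0 → aeval z a ≠ 0 := by
  sorry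

/-- **Independence from many points.** If for all unimodular `ζ` there is a specialisation `z` of `zb` with
`mco A z = ζ` on `β`, then the `mco A zb (some b)` are algebraically independent.

Proof. Let `P (mco A zb on β) = 0`, `P ∈ ℚ[β]`. After multiplication with a monomial this is a relation of `zb`, so
`P(ζ) = 0` for all unimodular `ζ`; the unit circle is infinite, so `P = 0` (`MvPolynomial.funext_set` or induction; map to
`ℂ`). -/
theorem jen_ind {β : Type} [Fintype β] [DecidableEq β] (zb : Option β → ℂ)
    (hzb : ∀ o, zb o ≠ 0) (A : Matrix (Option β) (Option β) ℤ)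
    (h : ∀ ζ : β → ℂ, (∀ b, ‖ζ b‖ = 1) → ∃ z : Option β → ℂ, (∀ o, z o ≠ 0) ∧
      (∀ P : MvPolynomial (Option β) ℚ, aeval zb P = 0 → aeval z P = 0) ∧
      ∀ b, mco A z (some b) = ζ b) :
    AlgebraicIndependent ℚ fun b : β => mco A zb (some b) := by
  sorry

end Pool.Agent.Zilber
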