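import Pool.Agent.Zilber.JMon
import Pool.Agent.CITLines.Rel

set_option autoImplicit false

/-! JEN 5: fibres over a generic torsion point. -/

namespace Pool.Agent.Zilber

open MvPolynomial Pool.Agent.CITLines

/-- `(u, z)` satisfies all the relations over `ℚ` of `(p, zb)`. -/
def Spz {ι β : Type} (p : ι → ℂ) (zb : Option β → ℂ) (u : ι → ℂ) (z : Option β → ℂ) : Prop :=
  ∀ P : MvPolynomial (ι ⊕ Option β) ℚ, aeval (Sum.elim p zb) P = 0 → aeval (Sum.elim u z) P = 0

/-- The monomials. -/
private noncomputable def wv {ι : Type} (u : ι → ℂ) (m : ι →₀ ℕ) : ℂ := aeval u (monomial m (1 : ℚ))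

private theorem mem_mono {ι : Type} (p : ι → ℂ) {w : ℂ}
    (hw : w ∈ Submonoid.closure (Set.range p)) : ∃ m : ι →₀ ℕ, w = wv p m := by
  induction hw using Submonoid.closure_induction with
  | mem x hx =>
    obtain ⟨i, rfl⟩ := hx
    refine ⟨Finsupp.single i 1, ?_⟩
    unfold wv
    rw [aeval_monomial]
    simp
  | one => exact ⟨0, by unfold wv; rw [aeval_monomial]; simp⟩
  | mul x y _ _ hx hy =>
    obtain ⟨m, rfl⟩ := hx
    obtain ⟨n, rfl⟩ := hy
    refine ⟨m + n, ?_⟩
    unfold wv
    rw [← map_mul, monomial_mul, one_mul]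

/-- Elements of the field generated by `zb` as fractions. -/
private theorem frac {β : Type} (zb : β → ℂ) {x : ℂ} (hx : x ∈ Subfield.closure (Set.range zb)) :
    ∃ P Q : MvPolynomial β ℚ, aeval zb Q ≠ 0 ∧ x * aeval zb Q = aeval zb P := by
  induction hx using Subfield.closure_induction with
  | mem x hx =>
    obtain ⟨i, rfl⟩ := hx
    exact ⟨X i, 1, by rw [map_one]; exact one_ne_zero, by rw [map_one, mul_one, aeval_X]⟩
  | one => exact ⟨1, 1, by rw [map_one]; exact one_ne_zero, by rw [map_one, mul_one]⟩
  | add x y _ _ hx hy =>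
    obtain ⟨P, Q, hQ, h⟩ := hx
    obtain ⟨P', Q', hQ', h'⟩ := hy
    refine ⟨P * Q' + P' * Q, Q * Q', by rw [map_mul]; exact mul_ne_zero hQ hQ', ?_⟩
    rw [map_mul, map_add, map_mul, map_mul, ← h, ← h']
    ring
  | neg x _ hx =>
    obtain ⟨P, Q, hQ, h⟩ := hx
    exact ⟨-P, Q, hQ, by rw [map_neg, ← h, neg_mul]⟩
  | inv x _ hx =>
    obtain ⟨P, Q, hQ, h⟩ := hx
    by_cases hx0 : x = 0
    · exact ⟨0, 1, by rw [map_one]; exact one_ne_zero, by rw [hx0, inv_zero, zero_mul, map_zero]⟩
    · refine ⟨Q, P, ?_, ?_⟩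
      · rw [← h]
        exact mul_ne_zero hx0 hQ
      · rw [← h, inv_mul_cancel_left₀ hx0]
  | mul x y _ _ hx hy =>
    obtain ⟨P, Q, hQ, h⟩ := hx
    obtain ⟨P', Q', hQ', h'⟩ := hy
    refine ⟨P * P', Q * Q', by rw [map_mul]; exact mul_ne_zero hQ hQ', ?_⟩
    rw [map_mul, map_mul, ← h, ← h']
    ring

/-- A common denominator. -/
private theorem common {β κ : Type} [Fintype κ] (zb : β → ℂ) (x : κ → ℂ)
    (hx : ∀ k, x k ∈ Subfield.closure (Set.range zb)) :
    ∃ (a : MvPolynomial β ℚ) (r : κ → MvPolynomial β ℚ), aeval zb a ≠ 0 ∧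
      ∀ k, x k * aeval zb a = aeval zb (r k) := by
  classical
  choose P Q hQ h using fun k => frac zb (hx k)
  refine ⟨∏ k, Q k, fun k => P k * ∏ l ∈ Finset.univ.erase k, Q l, ?_, fun k => ?_⟩
  · rw [map_prod]
    exact Finset.prod_ne_zero_iff.2 fun k _ => hQ k
  · rw [← Finset.mul_prod_erase Finset.univ Q (Finset.mem_univ k), map_mul, map_mul, ← mul_assoc,
      h k]

/-- A basis which consists of monomials. -/
private theorem exists_basis {ι β : Type} [Fintype ι] (p : ι → ℂ) (zb : β → ℂ)
    (hp : ∀ i, IsAlgebraic (Subfield.closure (Set.range zb)) (p i)) :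
    ∃ (κ : Type) (_ : Fintype κ) (m : κ → ι →₀ ℕ),
      Fintype.card κ = (Subfield.closure (Set.range zb)).relfinrank
          (Subfield.closure (Set.range zb ∪ Set.range p)) ∧
      ∀ w ∈ Submonoid.closure (Set.range p), ∃ c : κ → Subfield.closure (Set.range zb),
        w = ∑ k, (c k : ℂ) * wv p (m k) := by
  classical
  set L₀ := Subfield.closure (Set.range zb) with hL₀
  have hle : L₀ ≤ Subfield.closure (Set.range zb ∪ Set.range p) :=
    Subfield.closure_mono Set.subset_union_left
  have hE : Subfield.extendScalars hle = IntermediateField.adjoin L₀ (Set.range p) := by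
    refine le_antisymm ?_ ?_
    · intro x hx
      have hx' : x ∈ Subfield.closure (Set.range zb ∪ Set.range p) := hx
      have h1 : Subfield.closure (Set.range zb ∪ Set.range p) ≤
          (IntermediateField.adjoin L₀ (Set.range p)).toSubfield := by
        rw [Subfield.closure_le]
        rintro y (hy | hy)
        · exact (IntermediateField.adjoin L₀ (Set.range p)).algebraMap_mem
            (⟨y, Subfield.subset_closure hy⟩ : L₀)
        · exact IntermediateField.subset_adjoin _ _ hy
      exact h1 hx'
    · rw [IntermediateField.adjoin_le_iff]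
      intro y hy
      exact Subfield.subset_closure (Set.mem_union_right _ hy)
  have halg : ∀ x ∈ Set.range p, IsAlgebraic L₀ x := by
    rintro _ ⟨i, rfl⟩
    exact hp i
  have hfd : FiniteDimensional L₀ (IntermediateField.adjoin L₀ (Set.range p)) :=
    IntermediateField.finiteDimensional_adjoin fun x hx => (halg x hx).isIntegral
  have hsub := IntermediateField.adjoin_toSubalgebra_of_isAlgebraic halg
  have hspan : Subalgebra.toSubmodule (IntermediateField.adjoin L₀ (Set.range p)).toSubalgebra =
      Submodule.span L₀ (Submonoid.closure (Set.range p) : Set ℂ) := by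
    rw [hsub, Algebra.adjoin_eq_span]
  obtain ⟨b, hb1, hb2, hb3⟩ := exists_linearIndependent L₀
    ((Submonoid.closure (Set.range p) : Submonoid ℂ) : Set ℂ)
  have hfd2 : FiniteDimensional L₀ (Submodule.span L₀ b) := by
    rw [hb2, ← hspan]
    exact hfd
  have hfd3 : FiniteDimensional L₀ (Submodule.span L₀ (Set.range ((↑) : b → ℂ))) := by
    rw [Subtype.range_coe]
    exact hfd2
  have hbfin : Finite b := Module.Finite.finite_basis (Module.Basis.span hb3)
  have hbft : Fintype b := Fintype.ofFinite b
  choose m hm using fun w : b => mem_mono p (hb1 w.2)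
  refine ⟨b, hbft, m, ?_, ?_⟩
  · rw [Subfield.relfinrank_eq_finrank_of_le hle, hE]
    have h1 := finrank_span_eq_card hb3
    rw [Subtype.range_coe, hb2, ← hspan] at h1
    exact h1.symm
  · intro w hw
    have h1 : w ∈ Submodule.span L₀ (Set.range ((↑) : b → ℂ)) := by
      rw [Subtype.range_coe, hb2]
      exact Submodule.subset_span hw
    obtain ⟨c, hc⟩ := (Submodule.mem_span_range_iff_exists_fun L₀).1 h1
    refine ⟨c, hc.symm.trans (Finset.sum_congr rfl fun k _ => ?_)⟩
    rw [← hm k]
    rfl

/-- **Fibres.** `p` algebraic over `ℚ(zb)`. There is a polynomial `a` with `a(zb) ≠ 0` such that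
for every `z` with `a(z) ≠ 0` there are at most `[ℚ(zb, p) : ℚ(zb)]` points `u` for which `(u, z)`
is a specialisation of `(p, zb)`.

Proof. Let `L₀ = ℚ(zb)`, `L₁ = ℚ(zb, p)` (subfields of `ℂ`), `L₁ / L₀` finite of degree `e`,
primitive element `θ = ∑ c_i p_i`, `c_i ∈ ℤ` or any `θ = Q(p, zb)/…`; take `θ ∈ L₁` a polynomial
in `p` with coefficients in `ℚ[zb]` (multiply a primitive element, which is a polynomial in the
`p_i` over `L₀`, by a denominator). The minimal polynomial: `∑_{n ≤ e} h_n(zb) θ^n = 0` with `h_n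
∈ ℚ[Option β]`, `h_e(zb) ≠ 0`; and `d(zb) p_i = ∑_{n < e} r_(i,n)(zb) θ^n` with `d(zb) ≠ 0`. Let
`a = h_e * d`. These are relations of `(p, zb)` (substitute `θ = Q(p, zb)`), so they hold at `(u,
z)` with `θ_u = Q(u, z)`: `θ_u` is a root of a polynomial of degree `e` (leading coefficient
`h_e(z) ≠ 0`) which depends only on `z`: at most `e` values; and `u_i = ∑ r_(i,n)(z) θ_u^n / d(z)`
is determined by `θ_u`. So `U` injects into the roots. -/
theorem jen_fib {ι β : Type} [Fintype ι] [Fintype β] (p : ι → ℂ) (zb : Option β → ℂ)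
    (hp : ∀ i, IsAlgebraic (Subfield.closure (Set.range zb)) (p i)) :
    ∃ a : MvPolynomial (Option β) ℚ, aeval zb a ≠ 0 ∧ ∀ z : Option β → ℂ, aeval z a ≠ 0 →
      ∀ U : Finset (ι → ℂ), (∀ u ∈ U, Spz p zb u z) →
        U.card ≤ (Subfield.closure (Set.range zb)).relfinrank
          (Subfield.closure (Set.range zb ∪ Set.range p)) := by
  classical
  obtain ⟨κ, hκ, m, hcard, hspan⟩ := exists_basis p zb hp
  -- the coefficients
  have hmono : ∀ i k, p i * wv p (m k) ∈ Submonoid.closure (Set.range p) := by
    intro i k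
    refine mul_mem (Submonoid.subset_closure ⟨i, rfl⟩) ?_
    unfold wv
    rw [aeval_monomial, map_one, one_mul]
    exact Submonoid.prod_mem _ fun j _ =>
      pow_mem (Submonoid.subset_closure (Set.mem_range_self j)) _
  choose c hc using fun i k => hspan _ (hmono i k)
  obtain ⟨c0, hc0⟩ := hspan 1 (one_mem _)
  obtain ⟨a, r, ha, hr⟩ := common (κ := (ι × κ × κ) ⊕ κ) zb
    (Sum.elim (fun q => (c q.1 q.2.1 q.2.2 : ℂ)) fun k => (c0 k : ℂ)) (by
      rintro (q | k)
      · exact (c q.1 q.2.1 q.2.2).2
      · exact (c0 k).2)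
  refine ⟨a, ha, fun z hz U hU => ?_⟩
  rw [← hcard]
  -- the relations
  have hrel1 : ∀ u ∈ U, ∀ i k, aeval z a * (u i * wv u (m k)) =
      ∑ l, aeval z (r (Sum.inl (i, k, l))) * wv u (m l) := by
    intro u hu i k
    have h1 := hU u hu (rename Sum.inr a * (X (Sum.inl i) * rename Sum.inl (monomial (m k) 1)) -
      ∑ l, rename Sum.inr (r (Sum.inl (i, k, l))) * rename Sum.inl (monomial (m l) 1)) (by
        simp only [map_sub, map_mul, map_sum, aeval_rename, aeval_X, Sum.elim_comp_inl,
          Sum.elim_comp_inr, Sum.elim_inl]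
        rw [sub_eq_zero]
        change _ * (p i * wv p (m k)) = _
        rw [hc i k, Finset.mul_sum]
        refine Finset.sum_congr rfl fun l _ => ?_
        have h2 := hr (Sum.inl (i, k, l))
        rw [← h2]
        change _ = (c i k l : ℂ) * aeval zb a * wv p (m l)
        ring)
    simp only [map_sub, map_mul, map_sum, aeval_rename, aeval_X, Sum.elim_comp_inl,
      Sum.elim_comp_inr, Sum.elim_inl] at h1
    exact sub_eq_zero.1 h1
  have hrel2 : ∀ u ∈ U, aeval z a = ∑ l, aeval z (r (Sum.inr l)) * wv u (m l) := by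
    intro u hu
    have h1 := hU u hu (rename Sum.inr a -
      ∑ l, rename Sum.inr (r (Sum.inr l)) * rename Sum.inl (monomial (m l) 1)) (by
        simp only [map_sub, map_mul, map_sum, aeval_rename, Sum.elim_comp_inl,
          Sum.elim_comp_inr]
        rw [sub_eq_zero]
        have h3 : aeval zb a = 1 * aeval zb a := (one_mul _).symm
        rw [h3, hc0, Finset.sum_mul]
        refine Finset.sum_congr rfl fun l _ => ?_
        have h2 := hr (Sum.inr l)
        rw [← h2]
        change _ = (c0 l : ℂ) * aeval zb a * wv p (m l)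
        ring)
    simp only [map_sub, map_mul, map_sum, aeval_rename, Sum.elim_comp_inl,
      Sum.elim_comp_inr] at h1
    exact sub_eq_zero.1 h1
  -- the vectors are linearly independent
  have hli : LinearIndependent ℂ (fun (u : U) (k : κ) => wv (u : ι → ℂ) (m k)) := by
    rw [Fintype.linearIndependent_iff]
    intro g hg
    have hg' : ∀ k, ∑ u : U, g u * wv (u : ι → ℂ) (m k) = 0 := by
      intro k
      have h1 := congrFun hg k
      rw [Finset.sum_apply] at h1
      exact h1
    have hP : ∀ (P : MvPolynomial ι ℂ) (k : κ),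
        ∑ u : U, g u * eval (u : ι → ℂ) P * wv (u : ι → ℂ) (m k) = 0 := by
      intro P
      induction P using MvPolynomial.induction_on with
      | C x =>
        intro k
        have h1 : ∑ u : U, g u * eval (u : ι → ℂ) (C x) * wv (u : ι → ℂ) (m k) =
            x * ∑ u : U, g u * wv (u : ι → ℂ) (m k) := by
          rw [Finset.mul_sum]
          refine Finset.sum_congr rfl fun u _ => ?_
          rw [eval_C]
          ring
        rw [h1, hg' k, mul_zero]
      | add P Q hP hQ =>
        intro k
        have h1 : ∑ u : U, g u * eval (u : ι → ℂ) (P + Q) * wv (u : ι → ℂ) (m k) =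
            ∑ u : U, g u * eval (u : ι → ℂ) P * wv (u : ι → ℂ) (m k) +
              ∑ u : U, g u * eval (u : ι → ℂ) Q * wv (u : ι → ℂ) (m k) := by
          rw [← Finset.sum_add_distrib]
          refine Finset.sum_congr rfl fun u _ => ?_
          rw [map_add]
          ring
        rw [h1, hP k, hQ k, add_zero]
      | mul_X P i hP =>
        intro k
        have h1 : aeval z a *
            ∑ u : U, g u * eval (u : ι → ℂ) (P * X i) * wv (u : ι → ℂ) (m k) =
            ∑ l, aeval z (r (Sum.inl (i, k, l))) *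
              ∑ u : U, g u * eval (u : ι → ℂ) P * wv (u : ι → ℂ) (m l) := by
          rw [Finset.mul_sum]
          simp_rw [Finset.mul_sum]
          rw [Finset.sum_comm]
          refine Finset.sum_congr rfl fun u _ => ?_
          have h2 := hrel1 u u.2 i k
          rw [map_mul, eval_X]
          calc aeval z a * (g u * (eval (u : ι → ℂ) P * (u : ι → ℂ) i) *
              wv (u : ι → ℂ) (m k)) = g u * eval (u : ι → ℂ) P *
                (aeval z a * ((u : ι → ℂ) i * wv (u : ι → ℂ) (m k))) := by ring
            _ = _ := by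
              rw [h2, Finset.mul_sum]
              refine Finset.sum_congr rfl fun l _ => ?_
              ring
        have h3 : ∑ l, aeval z (r (Sum.inl (i, k, l))) *
            ∑ u : U, g u * eval (u : ι → ℂ) P * wv (u : ι → ℂ) (m l) = 0 :=
          Finset.sum_eq_zero fun l _ => by rw [hP l, mul_zero]
        rw [h3] at h1
        exact (mul_eq_zero.1 h1).resolve_left hz
    have hQ : ∀ P : MvPolynomial ι ℂ, ∑ u : U, g u * eval (u : ι → ℂ) P = 0 := by
      intro P
      have h1 : aeval z a * ∑ u : U, g u * eval (u : ι → ℂ) P =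
          ∑ l, aeval z (r (Sum.inr l)) *
            ∑ u : U, g u * eval (u : ι → ℂ) P * wv (u : ι → ℂ) (m l) := by
        rw [Finset.mul_sum]
        simp_rw [Finset.mul_sum]
        rw [Finset.sum_comm]
        refine Finset.sum_congr rfl fun u _ => ?_
        rw [hrel2 u u.2, Finset.sum_mul]
        refine Finset.sum_congr rfl fun l _ => ?_
        ring
      have h3 : ∑ l, aeval z (r (Sum.inr l)) *
          ∑ u : U, g u * eval (u : ι → ℂ) P * wv (u : ι → ℂ) (m l) = 0 :=
        Finset.sum_eq_zero fun l _ => by rw [hP P l, mul_zero]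
      rw [h3] at h1
      exact (mul_eq_zero.1 h1).resolve_left hz
    have hded := (linearIndependent_monoidHom (MvPolynomial ι ℂ) ℂ).comp
      (fun u : U => (eval (u : ι → ℂ) : MvPolynomial ι ℂ →+* ℂ).toMonoidHom) (by
        intro u v huv
        apply Subtype.ext
        funext i
        have h1 := DFunLike.congr_fun huv (X i)
        change eval (u : ι → ℂ) (X i) = eval (v : ι → ℂ) (X i) at h1
        rw [eval_X, eval_X] at h1
        exact h1)
    rw [Fintype.linearIndependent_iff] at hded
    refine hded g ?_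
    funext P
    rw [Finset.sum_apply]
    exact hQ P
  have h1 := hli.fintype_card_le_finrank
  rw [Fintype.card_coe, Module.finrank_fintype_fun_eq_card] at h1
  exact h1
end Pool.Agent.Zilber
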