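import Pool.Agent.Zilber.JCyc

set_option autoImplicit false

/-! JEN 3: a grid of torsion points in several variables. -/

namespace Pool.Agent.Zilber

open MvPolynomial

section

variable {β : Type} [Fintype β]

/-- The exponent of the Kronecker substitution. -/
private noncomputable def kph (L : ℕ) (e : β ≃ Fin (Fintype.card β)) (m : β →₀ ℕ) : ℕ :=
  ∑ b, m b * L ^ (e b : ℕ)

private theorem kph_eq {L : ℕ} (e : β ≃ Fin (Fintype.card β)) (m : β →₀ ℕ) (h : ∀ b, m b < L) :
    kph L e m = (finFunctionFinEquiv (fun i => (⟨m (e.symm i), h _⟩ : Fin L)) :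
      Fin (L ^ Fintype.card β)) := by
  rw [finFunctionFinEquiv_apply]
  unfold kph
  exact Fintype.sum_equiv e _ _ fun b => by simp

private theorem kph_inj {L : ℕ} (e : β ≃ Fin (Fintype.card β)) {m m' : β →₀ ℕ}
    (h : ∀ b, m b < L) (h' : ∀ b, m' b < L) (hk : kph L e m = kph L e m') : m = m' := by
  rw [kph_eq e m h, kph_eq e m' h'] at hk
  have h1 := finFunctionFinEquiv.injective (Fin.ext hk)
  ext b
  have h2 := congrArg Fin.val (congrFun h1 (e b))
  simpa using h2

private theorem kph_lt {L : ℕ} (e : β ≃ Fin (Fintype.card β)) (m : β →₀ ℕ) (h : ∀ b, m b < L) :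
    kph L e m < L ^ Fintype.card β := by
  rw [kph_eq e m h]
  exact Fin.is_lt _

/-- The Kronecker substitution. -/
private noncomputable def ksub (L : ℕ) (e : β ≃ Fin (Fintype.card β)) (a : MvPolynomial β ℤ) :
    Polynomial ℤ :=
  aeval (fun b => (Polynomial.X : Polynomial ℤ) ^ (L ^ (e b : ℕ))) a

private theorem ksub_eq (L : ℕ) (e : β ≃ Fin (Fintype.card β)) (a : MvPolynomial β ℤ) :
    ksub L e a = ∑ d ∈ a.support, Polynomial.C (a.coeff d) * Polynomial.X ^ kph L e d := by
  unfold ksub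
  rw [aeval_def, eval₂_eq']
  refine Finset.sum_congr rfl fun d _ => ?_
  have h1 : ∏ b, ((Polynomial.X : Polynomial ℤ) ^ (L ^ (e b : ℕ))) ^ d b =
      Polynomial.X ^ kph L e d := by
    unfold kph
    rw [← Finset.prod_pow_eq_pow_sum]
    refine Finset.prod_congr rfl fun b _ => ?_
    rw [← pow_mul, mul_comm]
  rw [h1]
  rfl

private theorem ksub_ne {L : ℕ} (e : β ≃ Fin (Fintype.card β)) {a : MvPolynomial β ℤ}
    (ha : a ≠ 0) (h : ∀ m ∈ a.support, ∀ b, m b < L) : ksub L e a ≠ 0 := by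
  obtain ⟨m₀, hm₀⟩ := support_nonempty.2 ha
  intro h0
  have h1 := congrArg (fun p => Polynomial.coeff p (kph L e m₀)) h0
  simp only [Polynomial.coeff_zero] at h1
  rw [ksub_eq, Polynomial.finsetSum_coeff, Finset.sum_eq_single m₀] at h1
  · rw [Polynomial.coeff_C_mul, Polynomial.coeff_X_pow, if_pos rfl, mul_one] at h1
    exact mem_support_iff.1 hm₀ h1
  · intro d hd hne
    rw [Polynomial.coeff_C_mul, Polynomial.coeff_X_pow, if_neg, mul_zero]
    intro hk
    exact hne (kph_inj e (h d hd) (h m₀ hm₀) hk.symm)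
  · intro hn
    exact absurd hm₀ hn

private theorem ksub_deg {L : ℕ} (e : β ≃ Fin (Fintype.card β)) {a : MvPolynomial β ℤ}
    (h : ∀ m ∈ a.support, ∀ b, m b < L) : (ksub L e a).natDegree ≤ L ^ Fintype.card β := by
  rw [ksub_eq]
  refine Polynomial.natDegree_sum_le_of_forall_le _ _ fun d hd => ?_
  exact (Polynomial.natDegree_C_mul_X_pow_le _ _).trans (kph_lt e d (h d hd)).le

private theorem ksub_aeval (L : ℕ) (e : β ≃ Fin (Fintype.card β)) (a : MvPolynomial β ℤ)
    (ξ : ℂ) : Polynomial.aeval ξ (ksub L e a) = aeval (fun b => ξ ^ (L ^ (e b : ℕ))) a := by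
  unfold ksub
  have h1 : ((Polynomial.aeval ξ : Polynomial ℤ →ₐ[ℤ] ℂ).comp
      (aeval (fun b => (Polynomial.X : Polynomial ℤ) ^ (L ^ (e b : ℕ))))) =
      aeval (fun b => ξ ^ (L ^ (e b : ℕ))) := by
    ext b
    simp
  exact DFunLike.congr_fun h1 a

end

/-- **Grid of torsion points.** `a`, `B` nonzero integral polynomials in the variables `β`. There is a nonempty
finite set `𝒢` of points with unimodular coordinates, `B ≠ 0` on `𝒢`, and the product of `‖a‖` over `𝒢` is `≥ 1`.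

Proof. Kronecker substitution: let `L` be larger than all the degrees of `a` and `B` in all the variables, and
`e : β ≃ Fin d`; the substitution `X_b ↦ T ^ (L ^ e b)` sends different monomials of `a` (exponents `< L`) to
different powers of `T`, so `a' (T)`, `B' (T) ∈ ℤ[T]` are not zero, of degree `≤ d L ^ d`. Let `N` be a prime
`> d L ^ d + 2` (`Nat.exists_infinite_primes`), and `𝒢` = the points `(ξ ^ (L ^ e b))_b`, `ξ` a primitive `N`-th root
of unity. `jen_cyc` for `a'` and `B'`. To avoid the injectivity of `ξ ↦ point` (true if `β` is nonempty: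
`e b = 0`) treat `β` empty separately (`𝒢` = the point, `a` is a nonzero integer); for nonempty `β` the coordinate
with `e b = 0` is `ξ` itself. -/
theorem jen_grid {β : Type} [Fintype β] (a B : MvPolynomial β ℤ) (ha : a ≠ 0) (hB : B ≠ 0) :
    ∃ 𝒢 : Finset (β → ℂ), 𝒢.Nonempty ∧ (∀ ζ ∈ 𝒢, ∀ b, ‖ζ b‖ = 1) ∧
      (∀ ζ ∈ 𝒢, aeval ζ B ≠ 0) ∧ 1 ≤ ∏ ζ ∈ 𝒢, ‖aeval ζ a‖ := by
  classical
  rcases isEmpty_or_nonempty β with hβ | ⟨⟨b₁⟩⟩
  · have hc : ∀ p : MvPolynomial β ℤ, p ≠ 0 → ∃ c : ℤ, c ≠ 0 ∧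
        ∀ ζ : β → ℂ, aeval ζ p = (c : ℂ) := by
      intro p hp
      refine ⟨p.coeff 0, ?_, fun ζ => ?_⟩
      · intro h
        apply hp
        rw [eq_C_of_isEmpty p, h, C_0]
      · conv_lhs => rw [eq_C_of_isEmpty p]
        simp
    obtain ⟨ca, hca, hca'⟩ := hc a ha
    obtain ⟨cB, hcB, hcB'⟩ := hc B hB
    refine ⟨{fun _ => 1}, Finset.singleton_nonempty _, ?_, ?_, ?_⟩
    · intro ζ _ b
      exact (hβ.false b).elim
    · intro ζ _
      rw [hcB']
      exact_mod_cast hcB
    · rw [Finset.prod_singleton, hca', Complex.norm_intCast]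
      exact_mod_cast Int.one_le_abs hca
  · obtain ⟨L, hL⟩ : ∃ L, L = a.totalDegree + B.totalDegree + 1 := ⟨_, rfl⟩
    have hLa : ∀ m ∈ a.support, ∀ b, m b < L := by
      intro m hm b
      have h1 := (monomial_le_degreeOf b hm).trans (degreeOf_le_totalDegree a b)
      omega
    have hLB : ∀ m ∈ B.support, ∀ b, m b < L := by
      intro m hm b
      have h1 := (monomial_le_degreeOf b hm).trans (degreeOf_le_totalDegree B b)
      omega
    have hcard : 0 < Fintype.card β := Fintype.card_pos_iff.2 ⟨b₁⟩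
    let e : β ≃ Fin (Fintype.card β) := Fintype.equivFin β
    obtain ⟨N, hN1, hN⟩ := Nat.exists_infinite_primes (L ^ Fintype.card β + 2)
    obtain ⟨-, h2⟩ := jen_cyc (ksub L e a) (ksub_ne e ha hLa) N hN (by
      have := ksub_deg e hLa
      omega)
    obtain ⟨h3, -⟩ := jen_cyc (ksub L e B) (ksub_ne e hB hLB) N hN (by
      have := ksub_deg e hLB
      omega)
    have hinj : Function.Injective fun (ξ : ℂ) (b : β) => ξ ^ (L ^ (e b : ℕ)) := by
      intro ξ ξ' h
      have h4 := congrFun h (e.symm ⟨0, hcard⟩)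
      simpa using h4
    refine ⟨(primitiveRoots N ℂ).image fun (ξ : ℂ) (b : β) => ξ ^ (L ^ (e b : ℕ)), ?_, ?_, ?_, ?_⟩
    · exact Finset.Nonempty.image ⟨_, (mem_primitiveRoots hN.pos).2
        (Complex.isPrimitiveRoot_exp N hN.ne_zero)⟩ _
    · intro ζ hζ b
      obtain ⟨ξ, hξ, rfl⟩ := Finset.mem_image.1 hζ
      have h4 := (mem_primitiveRoots hN.pos).1 hξ
      rw [norm_pow, h4.norm'_eq_one hN.ne_zero, one_pow]
    · intro ζ hζ
      obtain ⟨ξ, hξ, rfl⟩ := Finset.mem_image.1 hζ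
      rw [← ksub_aeval]
      exact h3 ξ hξ
    · rw [Finset.prod_image fun x _ y _ h => hinj h]
      simp only [← ksub_aeval]
      exact h2

end Pool.Agent.Zilber
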