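import Pool.Agent.LSharp.L1

set_option autoImplicit false

/-! JEN 4: integral polynomials in new monomial coordinates. -/

namespace Pool.Agent.Zilber

open Pool.Agent.LSharp

/-- The monomial coordinates `u o = ∏ o', z o' ^ A o o'`. -/
noncomputable def mco {β : Type} [Fintype β] (A : Matrix (Option β) (Option β) ℤ)
    (z : Option β → ℂ) (o : Option β) : ℂ := ∏ o', z o' ^ A o o'

section Aux

variable {σ : Type} [Fintype σ]

private noncomputable def jmNu (B : Matrix σ σ ℤ) (c : σ → ℤ) (e : σ →₀ ℕ) : σ →₀ ℕ :=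
  Finsupp.equivFunOnFinite.symm (fun o' => (c o' + ∑ o, (e o : ℤ) * B o o').toNat)

private def jmAdm (B : Matrix σ σ ℤ) (c : σ → ℤ) (f : MvPolynomial σ ℤ) : Prop :=
  ∀ e ∈ f.support, ∀ o', 0 ≤ c o' + ∑ o, (e o : ℤ) * B o o'

private noncomputable def jmT (B : Matrix σ σ ℤ) (c : σ → ℤ) :
    MvPolynomial σ ℤ →ₗ[ℤ] MvPolynomial σ ℤ :=
  (MvPolynomial.basisMonomials σ ℤ).constr ℤ (fun e => MvPolynomial.monomial (jmNu B c e) 1)

private theorem jmT_monomial (B : Matrix σ σ ℤ) (c : σ → ℤ) (e : σ →₀ ℕ) (a : ℤ) :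
    jmT B c (MvPolynomial.monomial e a) = MvPolynomial.monomial (jmNu B c e) a := by
  have h1 : (MvPolynomial.monomial e a : MvPolynomial σ ℤ) =
      a • MvPolynomial.basisMonomials σ ℤ e := by
    rw [MvPolynomial.coe_basisMonomials, MvPolynomial.smul_monomial, smul_eq_mul, mul_one]
  rw [h1, map_smul, jmT, Module.Basis.constr_basis, MvPolynomial.smul_monomial, smul_eq_mul,
    mul_one]

private theorem jmT_eq (B : Matrix σ σ ℤ) (c : σ → ℤ) (f : MvPolynomial σ ℤ) :
    jmT B c f = ∑ e ∈ f.support, MvPolynomial.monomial (jmNu B c e) (f.coeff e) := by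
  conv_lhs => rw [← MvPolynomial.support_sum_monomial_coeff f, map_sum]
  exact Finset.sum_congr rfl fun e _ => jmT_monomial B c e _

private theorem jm_exists (B : Matrix σ σ ℤ) (f : MvPolynomial σ ℤ) : ∃ c, jmAdm B c f := by
  refine ⟨fun o' => ∑ e ∈ f.support, |∑ o, (e o : ℤ) * B o o'|, fun e he o' => ?_⟩
  have h1 := Finset.single_le_sum (f := fun e : σ →₀ ℕ => |∑ o, (e o : ℤ) * B o o'|)
    (fun _ _ => abs_nonneg _) he
  have h2 := neg_abs_le (∑ o, (e o : ℤ) * B o o')
  linarith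

private theorem jmNu_add {B : Matrix σ σ ℤ} {c c' : σ → ℤ} {e e' : σ →₀ ℕ}
    (h : ∀ o', 0 ≤ c o' + ∑ o, (e o : ℤ) * B o o')
    (h' : ∀ o', 0 ≤ c' o' + ∑ o, (e' o : ℤ) * B o o') :
    jmNu B (c + c') (e + e') = jmNu B c e + jmNu B c' e' := by
  ext o'
  rw [Finsupp.add_apply]
  change ((c + c') o' + ∑ o, (((e + e') o : ℕ) : ℤ) * B o o').toNat =
    (c o' + ∑ o, (e o : ℤ) * B o o').toNat + (c' o' + ∑ o, (e' o : ℤ) * B o o').toNat
  rw [← Int.toNat_add (h o') (h' o')]
  congr 1
  have h1 : ∑ o, (((e + e') o : ℕ) : ℤ) * B o o' =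
      ∑ o, (e o : ℤ) * B o o' + ∑ o, (e' o : ℤ) * B o o' := by
    rw [← Finset.sum_add_distrib]
    refine Finset.sum_congr rfl fun o _ => ?_
    rw [Finsupp.add_apply]
    push_cast
    ring
  rw [h1, Pi.add_apply]
  ring

private theorem jmAdm_mul {B : Matrix σ σ ℤ} {c c' : σ → ℤ} {f g : MvPolynomial σ ℤ}
    (h : jmAdm B c f) (h' : jmAdm B c' g) : jmAdm B (c + c') (f * g) := by
  classical
  intro e he o'
  obtain ⟨a, ha, b, hb, rfl⟩ := Finset.mem_add.1 (MvPolynomial.support_mul f g he)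
  have h1 := h a ha o'
  have h2 := h' b hb o'
  have h3 : ∑ o, (((a + b) o : ℕ) : ℤ) * B o o' =
      ∑ o, (a o : ℤ) * B o o' + ∑ o, (b o : ℤ) * B o o' := by
    rw [← Finset.sum_add_distrib]
    refine Finset.sum_congr rfl fun o _ => ?_
    rw [Finsupp.add_apply]
    push_cast
    ring
  rw [h3, Pi.add_apply]
  linarith

private theorem jmT_mul {B : Matrix σ σ ℤ} {c c' : σ → ℤ} {f g : MvPolynomial σ ℤ}
    (h : jmAdm B c f) (h' : jmAdm B c' g) :
    jmT B (c + c') (f * g) = jmT B c f * jmT B c' g := by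
  rw [jmT_eq B c f, jmT_eq B c' g, Finset.sum_mul_sum]
  conv_lhs => rw [← MvPolynomial.support_sum_monomial_coeff f,
    ← MvPolynomial.support_sum_monomial_coeff g, Finset.sum_mul_sum, map_sum]
  refine Finset.sum_congr rfl fun a ha => ?_
  rw [map_sum]
  refine Finset.sum_congr rfl fun b hb => ?_
  rw [MvPolynomial.monomial_mul, jmT_monomial, MvPolynomial.monomial_mul,
    jmNu_add (h a ha) (h' b hb)]

private theorem jmT_pow {B : Matrix σ σ ℤ} {c : σ → ℤ} {f : MvPolynomial σ ℤ}
    (h : jmAdm B c f) (m : ℕ) :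
    jmAdm B (m • c) (f ^ m) ∧ jmT B (m • c) (f ^ m) = jmT B c f ^ m := by
  induction m with
  | zero =>
    rw [pow_zero, pow_zero, zero_smul]
    constructor
    · intro e he o'
      have h1 : e = 0 := by
        by_contra hne
        refine MvPolynomial.mem_support_iff.1 he ?_
        classical
        rw [MvPolynomial.coeff_one, if_neg (fun h2 => hne h2.symm)]
      rw [h1]
      simp
    · have h1 : (1 : MvPolynomial σ ℤ) = MvPolynomial.monomial 0 1 := rfl
      rw [h1, jmT_monomial]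
      have h2 : jmNu B 0 0 = 0 := by
        ext o'
        change ((0 : σ → ℤ) o' + ∑ o, (((0 : σ →₀ ℕ) o : ℕ) : ℤ) * B o o').toNat = 0
        simp
      rw [h2]
  | succ m ih =>
    rw [pow_succ, pow_succ, succ_nsmul]
    exact ⟨jmAdm_mul ih.1 h, by rw [jmT_mul ih.1 h, ih.2]⟩

end Aux

section Ev

private theorem jm_zpow_sum {ι : Type} {x : ℂ} (hx : x ≠ 0) (s : Finset ι) (f : ι → ℤ) :
    ∏ i ∈ s, x ^ f i = x ^ ∑ i ∈ s, f i := by
  classical
  induction s using Finset.induction_on with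
  | empty => simp
  | insert a s ha ih => rw [Finset.prod_insert ha, Finset.sum_insert ha, ih, zpow_add₀ hx]

variable {β : Type} [Fintype β] [DecidableEq β] {A B : Matrix (Option β) (Option β) ℤ}

private theorem jm_mco_ne {z : Option β → ℂ} (hz : ∀ o, z o ≠ 0) (o : Option β) :
    mco A z o ≠ 0 := Finset.prod_ne_zero_iff.2 fun o' _ => zpow_ne_zero _ (hz o')

private theorem jm_prod {z : Option β → ℂ} (hz : ∀ o, z o ≠ 0) (d : Option β → ℤ) :
    ∏ o', mco A z o' ^ d o' = ∏ p, z p ^ ∑ o', d o' * A o' p := by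
  have h1 : ∀ o', mco A z o' ^ d o' = ∏ p, z p ^ (d o' * A o' p) := by
    intro o'
    rw [mco, ← Finset.prod_zpow]
    refine Finset.prod_congr rfl fun p _ => ?_
    rw [← zpow_mul, mul_comm]
  rw [Finset.prod_congr rfl fun o' _ => h1 o', Finset.prod_comm]
  exact Finset.prod_congr rfl fun p _ => jm_zpow_sum (hz p) _ _

private theorem jm_inv (hBA : B * A = 1) {z : Option β → ℂ} (hz : ∀ o, z o ≠ 0) (o : Option β) :
    ∏ o', mco A z o' ^ B o o' = z o := by
  rw [jm_prod hz (B o)]
  have h2 : ∀ p, ∑ o', B o o' * A o' p = (1 : Matrix (Option β) (Option β) ℤ) o p := by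
    intro p
    rw [← hBA, Matrix.mul_apply]
  rw [Finset.prod_congr rfl fun p _ => by rw [h2 p], Finset.prod_eq_single o]
  · rw [Matrix.one_apply_eq, zpow_one]
  · intro p _ hp
    rw [Matrix.one_apply_ne hp.symm, zpow_zero]
  · intro h
    exact absurd (Finset.mem_univ o) h

private theorem jm_ev (hBA : B * A = 1) {c : Option β → ℤ} {f : MvPolynomial (Option β) ℤ}
    (hc : jmAdm B c f) {z : Option β → ℂ} (hz : ∀ o, z o ≠ 0) :
    MvPolynomial.aeval (mco A z) (jmT B c f) =
      MvPolynomial.aeval z f * ∏ p, z p ^ ∑ o', c o' * A o' p := by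
  have hm : ∀ (x : Option β → ℂ) (e : Option β →₀ ℕ) (a : ℤ),
      MvPolynomial.aeval x (MvPolynomial.monomial e a) = (a : ℂ) * ∏ o, x o ^ e o := by
    intro x e a
    rw [MvPolynomial.aeval_monomial, Finsupp.prod_fintype _ _ fun i => pow_zero _]
    rfl
  rw [jmT_eq, map_sum]
  conv_rhs => rw [← MvPolynomial.support_sum_monomial_coeff f, map_sum, Finset.sum_mul]
  refine Finset.sum_congr rfl fun e he => ?_
  rw [hm, hm, mul_assoc]
  congr 1
  have h1 : ∀ o', mco A z o' ^ jmNu B c e o' =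
      mco A z o' ^ c o' * ∏ o, mco A z o' ^ ((e o : ℤ) * B o o') := by
    intro o'
    rw [jm_zpow_sum (jm_mco_ne hz o'), ← zpow_add₀ (jm_mco_ne hz o'), ← zpow_natCast]
    congr 1
    exact Int.toNat_of_nonneg (hc e he o')
  rw [Finset.prod_congr rfl fun o' _ => h1 o', Finset.prod_mul_distrib, jm_prod hz c, mul_comm,
    Finset.prod_comm]
  congr 1
  refine Finset.prod_congr rfl fun o _ => ?_
  calc ∏ o', mco A z o' ^ ((e o : ℤ) * B o o')
      = ∏ o', (mco A z o' ^ B o o') ^ (e o : ℤ) := by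
        refine Finset.prod_congr rfl fun o' _ => ?_
        rw [← zpow_mul, mul_comm]
    _ = (∏ o', mco A z o' ^ B o o') ^ (e o : ℤ) := Finset.prod_zpow _ _ _
    _ = z o ^ e o := by rw [jm_inv hBA hz, zpow_natCast]

private theorem jm_opt (u : Option β → ℂ) (f : MvPolynomial (Option β) ℤ) :
    ((MvPolynomial.optionEquivLeft ℤ β f).map (MvPolynomial.aeval (fun b => u (some b)) :
      MvPolynomial β ℤ →ₐ[ℤ] ℂ).toRingHom).eval (u none) = MvPolynomial.aeval u f := by
  have h : ((Polynomial.evalRingHom (u none)).comp (Polynomial.mapRingHom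
      (MvPolynomial.aeval (fun b => u (some b)) : MvPolynomial β ℤ →ₐ[ℤ] ℂ).toRingHom)).comp
      (MvPolynomial.optionEquivLeft ℤ β).toRingEquiv.toRingHom =
      (MvPolynomial.aeval u : MvPolynomial (Option β) ℤ →ₐ[ℤ] ℂ).toRingHom := by
    refine MvPolynomial.ringHom_ext (fun r => ?_) (fun o => ?_)
    · simp
    · rcases o with _ | b
      · simp
      · simp
  exact congrArg (fun g : MvPolynomial (Option β) ℤ →+* ℂ => g f) h

private theorem jm_L1_monomial {τ : Type} (i : τ →₀ ℕ) (a : ℤ) :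
    L1 (MvPolynomial.monomial i a) ≤ |(a : ℝ)| := by
  classical
  rw [L1_eq_sum (MvPolynomial.monomial i a) {i} MvPolynomial.support_monomial_subset,
    Finset.sum_singleton, MvPolynomial.coeff_monomial, if_pos rfl]

private theorem jm_SS (c : Option β → ℤ) (f : MvPolynomial (Option β) ℤ) :
    (∑ i ∈ (MvPolynomial.optionEquivLeft ℤ β (jmT B c f)).support,
      L1 ((MvPolynomial.optionEquivLeft ℤ β (jmT B c f)).coeff i)) ≤ L1 f := by
  classical
  set F := MvPolynomial.optionEquivLeft ℤ β (jmT B c f) with hF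
  have h1 : F = ∑ e ∈ f.support, Polynomial.monomial (jmNu B c e none)
      (MvPolynomial.monomial (jmNu B c e).some (f.coeff e)) := by
    rw [hF, jmT_eq, map_sum]
    exact Finset.sum_congr rfl fun e _ => MvPolynomial.optionEquivLeft_monomial _ _ _ _
  have h2 : ∀ i, L1 (F.coeff i) ≤ ∑ e ∈ f.support, if jmNu B c e none = i then
      |((f.coeff e : ℤ) : ℝ)| else 0 := by
    intro i
    rw [h1, Polynomial.finsetSum_coeff]
    refine (L1_sum _ _).trans (Finset.sum_le_sum fun e _ => ?_)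
    rw [Polynomial.coeff_monomial]
    split_ifs
    · exact jm_L1_monomial _ _
    · exact L1_zero.le
  refine (Finset.sum_le_sum fun i _ => h2 i).trans ?_
  rw [Finset.sum_comm, L1]
  refine Finset.sum_le_sum fun e _ => ?_
  rw [Finset.sum_ite_eq]
  split_ifs
  · exact le_rfl
  · exact abs_nonneg _

private theorem jm_ne {f : MvPolynomial (Option β) ℤ} (hf : f ≠ 0) :
    ∃ z : Option β → ℂ, (∀ o, z o ≠ 0) ∧ MvPolynomial.aeval z f ≠ 0 := by
  by_contra hcon
  push Not at hcon
  have h1 : MvPolynomial.map (Int.castRingHom ℂ) f * ∏ o, MvPolynomial.X o = 0 := by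
    refine MvPolynomial.funext fun z => ?_
    rw [map_mul, map_prod, map_zero]
    by_cases hz : ∀ o, z o ≠ 0
    · have h2 := hcon z hz
      rw [MvPolynomial.eval_map, ← h2]
      have h3 : MvPolynomial.eval₂ (Int.castRingHom ℂ) z f = MvPolynomial.aeval z f := rfl
      rw [h3, h2, zero_mul]
    · push Not at hz
      obtain ⟨o, ho⟩ := hz
      rw [Finset.prod_eq_zero (Finset.mem_univ o), mul_zero]
      rw [MvPolynomial.eval_X, ho]
  rcases mul_eq_zero.1 h1 with h2 | h2
  · refine hf (MvPolynomial.map_injective (Int.castRingHom ℂ) Int.cast_injective ?_)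
    rw [h2, map_zero]
  · exact Finset.prod_ne_zero_iff.2 (fun o _ => MvPolynomial.X_ne_zero o) h2

end Ev

/-- **Transform.** `A ∈ GL (Option β, ℤ)`, `f ≠ 0` an integral polynomial. There is an integral polynomial `F` in one
variable over `ℤ[β]` with `F (u none, u_β) = f (z) * (monomial in z)` for `u = mco A z`, `z` with nonzero
coordinates; the sum of the `ℓ¹`-norms of the coefficients of `F` is `L1 f`. And for a product
`f = G ^ m * H` the polynomial is `F_G ^ m * F_H` (the same statement for `m` and all three at once).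

Proof. Let `B = A⁻¹` (integral, `IsUnit A.det`), so `z o = ∏ o', u o' ^ B o o'` (`z = mco B (mco A z)`, as
`mco (B) (mco A z) = mco (B * A) z`). For `e` in the support of `f`: `z ^ e = ∏ o', u o' ^ ((∑ o, e o * B o o'))`.
Choose `c : Option β → ℕ` with `c o' + ∑ o, e o * B o o' ≥ 0` for all `e ∈ f.support` and `o'`, and let
`F = ∑_{e ∈ f.support} monomial ((c + e B) none) (monomial ((c + e B) on β) (f.coeff e))`; different `e` give different
exponents (`B` invertible). So `F (u) = u ^ c * f (z)` and `u ^ c` is a monomial in `z`. Call `c` admissible for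
`f`. If `c_G, c_H` are admissible for `G`, `H` then `m c_G + c_H` is admissible for `G ^ m * H` and the polynomial of
`G ^ m * H` for it is `F_G ^ m * F_H`: both sides have the same values at all `u` with nonzero coordinates (`z = mco B u`
is arbitrary), so they are equal (`MvPolynomial.funext_set`/ infinite sets; or directly: `f ↦ u^c f` is a
homomorphism to the Laurent polynomials, `AddMonoidAlgebra.mapDomain`). Note that the `ℓ¹`-norm statement is
only needed for `f = G ^ m * H`. -/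
theorem jen_mon {β : Type} [Fintype β] [DecidableEq β] (A : Matrix (Option β) (Option β) ℤ)
    (hA : IsUnit A.det) (G H : MvPolynomial (Option β) ℤ) (m : ℕ) (hG : G ≠ 0) (hH : H ≠ 0) :
    ∃ (F FG FH : Polynomial (MvPolynomial β ℤ)), F = FG ^ m * FH ∧ F ≠ 0 ∧
      (∑ i ∈ F.support, L1 (F.coeff i)) ≤ L1 (G ^ m * H) ∧
      ∃ cG : Option β → ℤ, ∀ z : Option β → ℂ, (∀ o, z o ≠ 0) →
        (FG.map (MvPolynomial.aeval (fun b => mco A z (some b)) :
          MvPolynomial β ℤ →ₐ[ℤ] ℂ).toRingHom).eval (mco A z none) =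
          MvPolynomial.aeval z G * ∏ o, z o ^ cG o := by
  have hAB := Matrix.nonsing_inv_mul A hA
  set B := A⁻¹ with hB
  obtain ⟨cG, hcG⟩ := jm_exists B G
  obtain ⟨cH, hcH⟩ := jm_exists B H
  have key : ∀ {f : MvPolynomial (Option β) ℤ} {c : Option β → ℤ}, jmAdm B c f → ∀ z :
      Option β → ℂ, (∀ o, z o ≠ 0) →
      ((MvPolynomial.optionEquivLeft ℤ β (jmT B c f)).map (MvPolynomial.aeval
        (fun b => mco A z (some b)) : MvPolynomial β ℤ →ₐ[ℤ] ℂ).toRingHom).eval (mco A z none) =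
      MvPolynomial.aeval z f * ∏ p, z p ^ ∑ o', c o' * A o' p := by
    intro f c hc z hz
    rw [jm_opt (mco A z), jm_ev hAB hc hz]
  have hne : ∀ {f : MvPolynomial (Option β) ℤ} {c : Option β → ℤ}, jmAdm B c f → f ≠ 0 →
      MvPolynomial.optionEquivLeft ℤ β (jmT B c f) ≠ 0 := by
    intro f c hc hf h
    obtain ⟨z, hz, hz1⟩ := jm_ne hf
    have h1 := key hc z hz
    rw [h, Polynomial.map_zero, Polynomial.eval_zero] at h1
    refine mul_ne_zero hz1 ?_ h1.symm
    exact Finset.prod_ne_zero_iff.2 fun p _ => zpow_ne_zero _ (hz p)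
  obtain ⟨hp1, hp2⟩ := jmT_pow hcG m
  refine ⟨MvPolynomial.optionEquivLeft ℤ β (jmT B (m • cG + cH) (G ^ m * H)),
    MvPolynomial.optionEquivLeft ℤ β (jmT B cG G), MvPolynomial.optionEquivLeft ℤ β (jmT B cH H),
    ?_, ?_, ?_, ?_⟩
  · rw [jmT_mul hp1 hcH, hp2, map_mul, map_pow]
  · rw [jmT_mul hp1 hcH, hp2, map_mul, map_pow]
    exact mul_ne_zero (pow_ne_zero _ (hne hcG hG)) (hne hcH hH)
  · exact jm_SS _ _
  · exact ⟨fun p => ∑ o', cG o' * A o' p, fun z hz => key hcG z hz⟩

end Pool.Agent.Zilber
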