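import Mathlib

set_option autoImplicit false

/-! JEN 1, 2: roots of one polynomial; products over roots of unity. -/

namespace Pool.Agent.Zilber

open Polynomial

/-- **Roots of large absolute value.** If `P ≠ 0` has the roots `z ∈ S`, each of multiplicity at least `m` and of
absolute value at least `exp Λ`, `Λ ≥ 0`, then `‖leading coefficient‖ exp (Λ m |S|) ≤ ℓ¹`-norm.

Proof. `Polynomial.mahlerMeasure_eq_leadingCoeff_mul_prod_roots`, `mahlerMeasure_le_sum_norm_coeff`: the product of
`max 1 ‖a‖` over the multiset `P.roots` is at least the product over the submultiset `∑_{z ∈ S} m • {z}`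
(`Multiset.le_iff_count`, `count_roots`, `le_rootMultiplicity_iff`; the other factors are `≥ 1`). -/
theorem jen_root (P : ℂ[X]) (hP : P ≠ 0) (S : Finset ℂ) (m : ℕ) (Λ : ℝ) (hΛ : 0 ≤ Λ)
    (hS : ∀ z ∈ S, (X - C z) ^ m ∣ P ∧ Real.exp Λ ≤ ‖z‖) :
    ‖P.leadingCoeff‖ * Real.exp (Λ * (m * S.card)) ≤ P.sum fun _ a => ‖a‖ := by
  sorry

end Pool.Agent.Zilber
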