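import Pool.Agent.Zilber.NBr

set_option autoImplicit false
set_option linter.unusedSectionVars false

/-! N2C: the data of a branch. -/

namespace Pool.Agent.Zilber

open Filter NumberField Module Pool.Agent.LAll Pool.Agent.LSharp Pool.Agent.CITLines

variable {J : Type} {𝒰 : Ultrafilter J} {K : J → Type} [∀ j, Field (K j)] [∀ j, NumberField (K j)]
  {k : ℕ} {F : Fin (k + 1) → Subfield (Ult 𝒰 K)} {ι β : Type}
  [Fintype β] [DecidableEq β] {cl : ι → Fin (k + 1)} {x : ι → Ult 𝒰 K} {bs : β → ι}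
  {X : ι → Ult 𝒰 (PS β K)}

private theorem cst_mk (z : Ult 𝒰 K) :
    cst β K z = Ult.mk 𝒰 (PS β K) (fun j => MvPowerSeries.C (z.rep j)) := by
  unfold LSharp.cst
  conv_lhs => rw [← Ult.mk_rep z]
  rfl

/-- Proof. `hX.ex (cl i)` gives `τ` with `X i = τ ⟨x i, _⟩` and `eps0 (τ y) = y`. -/
theorem n_eps (hX : Br 𝒰 K F cl x bs X) (i : ι) : eps0 β K (X i) = x i := by
  obtain ⟨L, τ, hFL, hxL, halg, heps, hF, hb, honly, hXi⟩ := hX.ex (cl i)
  rw [hXi i rfl ⟨x i, hxL i rfl⟩ rfl]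
  exact heps _

/-- Proof. Let `l = cl (bs b')` and `τ` from `hX.ex l`: `X (bs b') = τ (x (bs b')) = cst (x (bs
b')) + XU b'`. So `xE σ X (bs b')` is represented by `C (σ j (x (bs b')).rep j) + X b'` (`Ult.map`
of `cst` and `XU`), with partial derivative `1` or `0` (`MvPowerSeries.pderiv_X` or similar);
`dE_mk`. -/
theorem n_dual (hX : Br 𝒰 K F cl x bs X) (σ : ∀ j, K j →+* ℂ) (b b' : β) :
    dE 𝒰 b (xE σ X (bs b')) = if b = b' then 1 else 0 := by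
  obtain ⟨L, τ, hFL, hxL, halg, heps, hF, hb, honly, hXi⟩ := hX.ex (cl (bs b'))
  have h1 : X (bs b') = cst β K (x (bs b')) + XU K b' := by
    rw [hXi (bs b') rfl ⟨x (bs b'), hxL _ rfl⟩ rfl]
    exact hb b' rfl _ rfl
  have h2 : X (bs b') = Ult.mk 𝒰 (PS β K)
      (fun j => MvPowerSeries.C ((x (bs b')).rep j) + MvPowerSeries.X b') := by
    rw [h1, cst_mk]
    unfold XU
    rw [← map_add]
    rfl
  have h3 : xE σ X (bs b') = mkE 𝒰 β (fun j => MvPowerSeries.map (σ j)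
      (MvPowerSeries.C ((x (bs b')).rep j) + MvPowerSeries.X b')) := by
    unfold xE mkE
    rw [h2, Ult.map_mk]
  rw [h3, dE_mk]
  have h4 : ∀ j, MvPowerSeries.pderiv ℂ b (MvPowerSeries.map (σ j)
      (MvPowerSeries.C ((x (bs b')).rep j) + MvPowerSeries.X b')) = if b = b' then 1 else 0 := by
    intro j
    rw [map_add, map_add, MvPowerSeries.map_C, MvPowerSeries.map_X, MvPowerSeries.pderiv_C,
      zero_add]
    by_cases hbb : b = b'
    · rw [if_pos hbb, hbb, MvPowerSeries.pderiv_X_self]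
    · rw [if_neg hbb, MvPowerSeries.pderiv_X_of_ne (Ne.symm hbb)]
  simp only [h4]
  by_cases hbb : b = b'
  · simp only [if_pos hbb]
    exact map_one (mkR 𝒰 β)
  · simp only [if_neg hbb]
    exact map_zero (mkR 𝒰 β)

/-- Proof. Let `l = cl i`, `τ` from `hX.ex l`: for almost all `j` the series `(X i).rep j` is in
`onlyB {b | cl (bs b) = l}`, so the coefficient of `n + single b 1` is `0` for all `n` when `cl (bs
b) ≠ l`: the partial derivative of `map (σ j) ((X i).rep j)` by `b` is `0`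
(`MvPowerSeries.coeff_pderiv`). `xE_eq`, `dE_mk`. -/
theorem n_zero (hX : Br 𝒰 K F cl x bs X) (σ : ∀ j, K j →+* ℂ) (b : β) (i : ι)
    (h : cl (bs b) ≠ cl i) : dE 𝒰 b (xE σ X i) = 0 := by
  obtain ⟨L, τ, hFL, hxL, halg, heps, hF, hb, honly, hXi⟩ := hX.ex (cl i)
  have h1 := hXi i rfl ⟨x i, hxL i rfl⟩ rfl
  rw [xE_eq, dE_mk, mkE_eq_zero]
  filter_upwards [honly ⟨x i, hxL i rfl⟩] with j hj
  rw [← h1] at hj
  ext n
  rw [MvPowerSeries.coeff_pderiv, map_zero, MvPowerSeries.coeff_map]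
  have h2 : MvPowerSeries.coeff (n + Finsupp.single b 1) ((X i).rep j) = 0 := by
    by_contra h3
    exact h (hj _ h3 b (by simp))
  rw [h2, map_zero, zero_mul]

/-- **The embeddings of the blocks.**

Proof. `L, τ` from `hX.ex l`, `θ = algebraMap (UC 𝒰 β) (EU 𝒰 β) ∘ Ult.map (fun j =>
MvPowerSeries.map (σ j)) ∘ τ`. For `y ∈ F l` `τ y = cst y`, so `θ y` is `cE` of the family `σ j
(y.rep j)`. For `cl i = l` `X i = τ ⟨x i, _⟩`, so `θ ⟨x i, _⟩ = xE σ X i`. -/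
theorem n_theta (hX : Br 𝒰 K F cl x bs X) (σ : ∀ j, K j →+* ℂ) (l : Fin (k + 1)) :
    ∃ (L : Subfield (Ult 𝒰 K)) (θ : L →+* EU 𝒰 β), F l ≤ L ∧
      (∀ y : L, IsAlgebraic (Algebra.adjoin (F l) {y | ∃ b, cl (bs b) = l ∧ y = x (bs b)})
        (y : Ult 𝒰 K)) ∧ (∀ y : L, (y : Ult 𝒰 K) ∈ F l → θ y ∈ (cE 𝒰 β).fieldRange) ∧
      ∀ i, cl i = l → ∃ h : x i ∈ L, θ ⟨x i, h⟩ = xE σ X i := by
  obtain ⟨L, τ, hFL, hxL, halg, heps, hF, hb, honly, hXi⟩ := hX.ex l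
  refine ⟨L, ((algebraMap (UC 𝒰 β) (EU 𝒰 β)).comp (Ult.map (𝒰 := 𝒰) (R := PS β K)
    (S := fun _ : J => MvPowerSeries β ℂ) (fun j => MvPowerSeries.map (σ j)))).comp τ, hFL,
    halg, ?_, ?_⟩
  · intro y hy
    refine ⟨Ult.mk 𝒰 (fun _ : J => ℂ) (fun j => σ j ((y : Ult 𝒰 K).rep j)), ?_⟩
    rw [cE_mk]
    change _ = algebraMap (UC 𝒰 β) (EU 𝒰 β) (Ult.map (𝒰 := 𝒰) (R := PS β K)
      (S := fun _ : J => MvPowerSeries β ℂ) (fun j => MvPowerSeries.map (σ j)) (τ y))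
    rw [hF y hy, cst_mk, Ult.map_mk]
    unfold mkE
    congr 2
    funext j
    rw [MvPowerSeries.map_C]
  · intro i hi
    refine ⟨hxL i hi, ?_⟩
    unfold xE
    rw [hXi i hi ⟨x i, hxL i hi⟩ rfl]
    rfl

end Pool.Agent.Zilber
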