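import Pool.Agent.Zilber.NAsm
import Pool.Agent.Zilber.NDat

set_option autoImplicit false

/-! N2C: the Ax type lemma for configurations (owner helper45). -/

namespace Pool.Agent.Zilber

open Filter NumberField Module Pool.Agent.LAll Pool.Agent.LSharp Pool.Agent.CITLines

variable {J : Type} {𝒰 : Ultrafilter J} {K : J → Type} [∀ j, Field (K j)] [∀ j, NumberField (K j)]
  {k : ℕ} {s : Fin (k + 1) → J → ℝ} {F : Fin (k + 1) → Subfield (Ult 𝒰 K)} {ι β : Type} [Fintype ι]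
  [Fintype β] [DecidableEq β] {cl : ι → Fin (k + 1)} {x : ι → Ult 𝒰 K} {bs : β → ι}
  {X : ι → Ult 𝒰 (PS β K)}

/-- **N2 for configurations.** For every real subspace `V` there are linearly independent integer vectors
`e p`, each supported in one block, with `dim V + ∑ l, rk (F l) {x^(e p) : p in block l} ≤ rkO V + dim (V ⊓ span e)`. -/
theorem n2c (hc : Conf 𝒰 K s F cl x bs) (hX : Br 𝒰 K F cl x bs X) (σ : ∀ j, K j →+* ℂ)
    (V : Submodule ℝ (ι → ℝ)) :
    ∃ (m : ℕ) (e : Fin m → ι → ℤ) (ce : Fin m → Fin (k + 1)), LinearIndependent ℤ e ∧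
      (∀ p i, e p i ≠ 0 → cl i = ce p) ∧
      (finrank ℝ V : ℕ∞) + tr 𝒰 K F ce (fun p => mon x (e p)) ≤
        rkO σ X V + finrank ℝ (V ⊓ spR e : Submodule ℝ (ι → ℝ)) := by
  letI : Algebra ℝ (EU 𝒰 β) := algR 𝒰 β
  haveI : CharZero (EU 𝒰 β) := n_char 𝒰
  have h0 : ∀ i, eps0 β K (X i) ≠ 0 := fun i => by
    rw [n_eps hX i]
    exact hc.ne i
  obtain ⟨m, e, ce, h1, h2, h3⟩ := n_asm F cl x hc.ne bs (cE 𝒰 β).fieldRange (xE σ X) (dE 𝒰)
    (fun c => rE_mem c) (fun b => dE_const b) (fun b b' => n_dual hX σ b b')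
    (fun b i => n_zero hX σ b i) (fun l => n_theta hX σ l) V
  refine ⟨m, e, ce, h1, h2, ?_⟩
  have h4 : (fun (R : ι → ℝ) (b : β) => mkE 𝒰 β fun j => om (σ j) (fun i => (X i).rep j) R b) =
      fun (R : ι → ℝ) (b : β) =>
        ∑ i, algebraMap ℝ (EU 𝒰 β) (R i) * (dE 𝒰 b (xE σ X i) / xE σ X i) := by
    funext R b
    exact om_eq σ X h0 R b
  rw [rkO_eq, h4]
  exact h3

end Pool.Agent.Zilber
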