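import Pool.Agent.Zilber.Ax.BC
import Pool.Agent.Zilber.Ax.Gr

set_option autoImplicit false

/-! N2C: integer bases of homogeneous rational subspaces; the rank on a spanned space (linear
algebra). -/

namespace Pool.Agent.Zilber

open Module Pool.Agent.Zilber.Ax

private theorem NBas_blk_apply {ι : Type} (cls : ι → ℕ) (l : ℕ) (v : ι → ℚ) (s : ι)
    (h : blk cls l v s ≠ 0) : cls s = l := by
  by_contra hs
  exact h (by simp [blk, hs])

/-- A rational vector is a rational multiple of an integer vector with the same support. -/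
private theorem NBas_den {ι : Type} [Fintype ι] (v : ι → ℚ) :
    ∃ (d : ℕ) (z : ι → ℤ), d ≠ 0 ∧ ∀ i, (z i : ℚ) = d * v i := by
  classical
  refine ⟨∏ i, (v i).den, fun i => (∏ j ∈ Finset.univ.erase i, ((v j).den : ℤ)) * (v i).num,
    Finset.prod_ne_zero_iff.2 fun i _ => (v i).den_nz, fun i => ?_⟩
  rw [← Finset.mul_prod_erase Finset.univ (fun j => (v j).den) (Finset.mem_univ i)]
  push_cast
  have h1 : ((v i).den : ℚ) * v i = (v i).num := by
    rw [mul_comm]
    exact Rat.mul_den_eq_num (v i)
  rw [← h1]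
  ring

/-- **Integer basis of a homogeneous subspace.**

Proof. Let `U l` be the space of the `v ∈ U` which are supported in the block `l` (`v i ≠ 0 → cl i
= l`). By `hU` and `sum_blk`
`U` is the sum of the `U l` (`blk _ l v ∈ U l`), and the sum is direct (disjoint supports). Choose
a basis of each `U l`,
multiply its vectors by common denominators, and number the disjoint union of these bases by `Fin m`
(`Fintype.equivFin` of the sigma type). The vectors are linearly independent over `ℚ`, so over `ℤ`
(`LinearIndependent.restrict_scalars` or directly). -/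
theorem n_basis {ι : Type} [Fintype ι] {k : ℕ} (cl : ι → Fin (k + 1))
    (U : Submodule ℚ (ι → ℚ)) (hU : Hom (fun i => (cl i : ℕ)) U) :
    ∃ (m : ℕ) (e : Fin m → ι → ℤ) (ce : Fin m → Fin (k + 1)), LinearIndependent ℤ e ∧
      (∀ p i, e p i ≠ 0 → cl i = ce p) ∧
      U = Submodule.span ℚ (Set.range fun p i => (e p i : ℚ)) := by
  classical
  let T : Set (ι → ℚ) := {w | w ∈ U ∧ (∃ c : Fin (k + 1), ∀ i, w i ≠ 0 → cl i = c) ∧
    ∃ z : ι → ℤ, w = fun i => (z i : ℚ)}
  have hT : Submodule.span ℚ T = U := by
    refine le_antisymm (Submodule.span_le.2 fun w hw => hw.1) fun v hv => ?_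
    rw [sum_blk (fun i => (cl i : ℕ)) v]
    refine Submodule.sum_mem _ fun l hl => ?_
    obtain ⟨j, -, hj⟩ := Finset.mem_image.1 hl
    obtain ⟨d, z, hd, hz⟩ := NBas_den (blk (fun i => (cl i : ℕ)) l v)
    have hd' : (d : ℚ) ≠ 0 := Nat.cast_ne_zero.2 hd
    have h1 : (fun i => (z i : ℚ)) = (d : ℚ) • blk (fun i => (cl i : ℕ)) l v := by
      funext i
      rw [hz i, Pi.smul_apply, smul_eq_mul]
    have h2 : blk (fun i => (cl i : ℕ)) l v = (d : ℚ)⁻¹ • fun i => (z i : ℚ) := by
      rw [h1, smul_smul, inv_mul_cancel₀ hd', one_smul]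
    rw [h2]
    refine Submodule.smul_mem _ _ (Submodule.subset_span ⟨?_, ⟨cl j, fun i hi => ?_⟩, z, rfl⟩)
    · rw [h1]
      exact U.smul_mem _ (hU v hv l)
    · have h3 : blk (fun i => (cl i : ℕ)) l v i ≠ 0 := by
        intro h4
        have h5 := hz i
        rw [h4, mul_zero] at h5
        exact hi h5
      have h5 : (cl i : ℕ) = l := NBas_blk_apply (fun i => (cl i : ℕ)) l v i h3
      exact Fin.ext (h5.trans hj.symm)
  obtain ⟨b, hbT, hbs, hbi⟩ := exists_linearIndependent ℚ T
  have hfin : b.Finite := hbi.setFinite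
  have : Fintype b := hfin.fintype
  let f := Fintype.equivFin b
  have hp : ∀ p : Fin (Fintype.card b), ((f.symm p : b) : ι → ℚ) ∈ T := fun p => hbT (f.symm p).2
  choose c hc using fun p => (hp p).2.1
  choose z hz using fun p => (hp p).2.2
  refine ⟨Fintype.card b, z, c, ?_, ?_, ?_⟩
  · have h1 : LinearIndependent ℚ fun p i => ((z p i : ℤ) : ℚ) := by
      have h2 : LinearIndependent ℚ (Subtype.val ∘ f.symm : Fin (Fintype.card b) → ι → ℚ) :=
        hbi.comp f.symm f.symm.injective
      have h4 : (Subtype.val ∘ f.symm : Fin (Fintype.card b) → ι → ℚ) =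
          fun p i => ((z p i : ℤ) : ℚ) := funext fun p => hz p
      rw [← h4]
      exact h2
    have h3 : LinearIndependent ℤ fun p i => ((z p i : ℤ) : ℚ) :=
      h1.restrict_scalars (fun a a' h => by simpa using h)
    let φ : (ι → ℤ) →ₗ[ℤ] (ι → ℚ) := (Int.castAddHom ℚ).toIntLinearMap.compLeft ι
    exact LinearIndependent.of_comp φ h3
  · intro p i hi
    refine hc p i ?_
    rw [hz p]
    exact Int.cast_ne_zero.2 hi
  · rw [← hT, ← hbs]
    congr 1
    ext w
    constructor
    · intro hw
      refine ⟨f ⟨w, hw⟩, ?_⟩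
      have h1 := hz (f ⟨w, hw⟩)
      rw [Equiv.symm_apply_apply] at h1
      exact h1.symm
    · rintro ⟨p, rfl⟩
      change (fun i => ((z p i : ℤ) : ℚ)) ∈ b
      rw [← hz p]
      exact (f.symm p).2

/-- **The rank on a spanned space.**

Proof. Let `Φ : (ι → E) → (β → E)`, `Φ a b = a ⬝ᵥ w b`. Its kernel is `pp (span (range w))`
(`pp_span`), and `Φ` maps `bc E V` onto the
space of the statement (`Φ (em E R)` is the vector of the statement; `Submodule.map_span`). So the
dimension is
`dim (bc E V) - dim (bc E V ⊓ ker Φ)` (rank-nullity for `Φ` restricted to `bc E V`), which is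
`rkS` by definition. -/
theorem n_span {F E ι β : Type} [Field F] [Field E] [Algebra F E] [Fintype ι] [Fintype β]
    (w : β → ι → E) (V : Submodule F (ι → F)) :
    finrank E (Submodule.span E
      ((fun (R : ι → F) (b : β) => ∑ i, algebraMap F E (R i) * w b i) '' (V : Set (ι → F)))) =
        rkS (Submodule.span E (Set.range w)) (bc E V) := by
  let Φ : (ι → E) →ₗ[E] (β → E) := Matrix.mulVecLin (Matrix.of w)
  have hΦ : ∀ a b, Φ a b = a ⬝ᵥ w b := fun a b => dotProduct_comm _ _
  have h1 : (fun (R : ι → F) (b : β) => ∑ i, algebraMap F E (R i) * w b i) '' (V : Set (ι → F)) =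
      Φ '' (em E '' (V : Set (ι → F))) := by
    rw [← Set.image_comp]
    refine Set.image_congr' fun R => ?_
    funext b
    exact (hΦ (em E R) b).symm
  have h2 : LinearMap.ker Φ = pp (Submodule.span E (Set.range w)) := by
    ext a
    rw [LinearMap.mem_ker, pp_span, funext_iff, Set.forall_mem_range]
    exact forall_congr' fun b => by rw [hΦ a b]; rfl
  rw [h1, ← Submodule.map_span]
  change finrank E ((bc E V).map Φ) = _
  unfold rkS
  rw [← h2]
  have h := LinearMap.finrank_range_add_finrank_ker (Φ.domRestrict (bc E V))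
  rw [LinearMap.range_domRestrict, LinearMap.ker_domRestrict] at h
  have h3 : finrank E (bc E V ⊓ LinearMap.ker Φ : Submodule E (ι → E)) =
      finrank E (Submodule.comap (bc E V).subtype (LinearMap.ker Φ)) := by
    rw [← Submodule.map_comap_subtype, Submodule.finrank_map_subtype_eq]
  omega

end Pool.Agent.Zilber
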