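import Pool.Agent.Zilber.NRank
import Pool.Agent.Zilber.NBas
import Pool.Agent.Zilber.Ax.Prod
import Pool.Agent.Zilber.Ax.AlgA

set_option autoImplicit false

/-! N2C: the abstract assembly. -/

namespace Pool.Agent.Zilber

open Module Pool.Agent.Zilber.Ax Pool.Agent.CITLines

private theorem alg_mono {E : Type} [Field E] {L L' : Subfield E} (h : L ≤ L') {z : E}
    (hz : IsAlgebraic L z) : IsAlgebraic L' z := by
  obtain ⟨p, hp0, hpz⟩ := hz
  refine ⟨p.map (Subfield.inclusion h), ?_, ?_⟩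
  · exact (Polynomial.map_ne_zero_iff (Subfield.inclusion h).injective).2 hp0
  · rw [Polynomial.aeval_def, Polynomial.eval₂_map]
    exact hpz

private theorem alg_tr {A E R : Type} [Field A] [Field E] [CommRing R] (L : Subfield A)
    (θ : L →+* E) (f : R →+* L) (hf : Function.Injective f) (M : Subfield E)
    (hM : ∀ r, θ (f r) ∈ M) (z : L) (p : Polynomial R) (hp : p ≠ 0)
    (h : p.eval₂ (L.subtype.comp f) (z : A) = 0) : IsAlgebraic M (θ z) := by
  let φ : R →+* M := (θ.comp f).codRestrict M hM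
  have hφ : Function.Injective φ := by
    intro a b hab
    apply hf
    apply θ.injective
    exact congrArg Subtype.val hab
  refine ⟨p.map φ, (Polynomial.map_ne_zero_iff hφ).2 hp, ?_⟩
  rw [Polynomial.aeval_def, Polynomial.eval₂_map]
  have h1 : (algebraMap M E).comp φ = θ.comp f := RingHom.ext fun _ => rfl
  have h2 : p.eval₂ f z = 0 := by
    apply L.subtype_injective
    rw [Polynomial.hom_eval₂, map_zero]
    exact h
  rw [h1, ← Polynomial.hom_eval₂, h2, map_zero]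

private theorem adj_mem {A E ι β : Type} [Field A] [Field E] (F : Subfield A) (bs : β → ι)
    (q : β → Prop) (x : ι → A) (ξ : ι → E) (kE : Subfield E) (L : Subfield A) (θ : L →+* E)
    (hFL : F ≤ L) (hF : ∀ y : L, (y : A) ∈ F → θ y ∈ kE)
    (hx : ∀ b, q b → ∃ h : x (bs b) ∈ L, θ ⟨x (bs b), h⟩ = ξ (bs b)) (r : A)
    (hr : r ∈ Algebra.adjoin F {y | ∃ b, q b ∧ y = x (bs b)}) :
    ∃ h : r ∈ L, θ ⟨r, h⟩ ∈ Subfield.closure ((kE : Set E) ∪ (ξ ∘ bs) '' {b | q b}) := by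
  induction hr using Algebra.adjoin_induction with
  | mem y hy =>
    obtain ⟨b, hb, rfl⟩ := hy
    obtain ⟨h, h1⟩ := hx b hb
    refine ⟨h, ?_⟩
    rw [h1]
    exact Subfield.subset_closure (Or.inr ⟨b, hb, rfl⟩)
  | algebraMap y =>
    exact ⟨hFL y.2, Subfield.subset_closure (Or.inl (hF ⟨y, hFL y.2⟩ y.2))⟩
  | add a b _ _ ha hb =>
    obtain ⟨h1, h2⟩ := ha
    obtain ⟨h3, h4⟩ := hb
    refine ⟨add_mem h1 h3, ?_⟩
    have h5 : θ ⟨a + b, add_mem h1 h3⟩ = θ ⟨a, h1⟩ + θ ⟨b, h3⟩ := by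
      rw [← map_add]
      rfl
    rw [h5]
    exact add_mem h2 h4
  | mul a b _ _ ha hb =>
    obtain ⟨h1, h2⟩ := ha
    obtain ⟨h3, h4⟩ := hb
    refine ⟨mul_mem h1 h3, ?_⟩
    have h5 : θ ⟨a * b, mul_mem h1 h3⟩ = θ ⟨a, h1⟩ * θ ⟨b, h3⟩ := by
      rw [← map_mul]
      rfl
    rw [h5]
    exact mul_mem h2 h4

private theorem alg_blk {A E ι β : Type} [Field A] [Field E] (F : Subfield A) (bs : β → ι)
    (q : β → Prop) (x : ι → A) (ξ : ι → E) (kE : Subfield E) (L : Subfield A) (θ : L →+* E)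
    (hFL : F ≤ L) (hF : ∀ y : L, (y : A) ∈ F → θ y ∈ kE)
    (hx : ∀ b, q b → ∃ h : x (bs b) ∈ L, θ ⟨x (bs b), h⟩ = ξ (bs b)) (z : L)
    (hz : IsAlgebraic (Algebra.adjoin F {y | ∃ b, q b ∧ y = x (bs b)}) (z : A)) :
    IsAlgebraic (Subfield.closure ((kE : Set E) ∪ (ξ ∘ bs) '' {b | q b})) (θ z) := by
  have h0 := adj_mem F bs q x ξ kE L θ hFL hF hx
  obtain ⟨p, hp, hpz⟩ := hz
  let f : Algebra.adjoin F {y | ∃ b, q b ∧ y = x (bs b)} →+* L :=
    { toFun := fun r => ⟨r.1, (h0 r.1 r.2).1⟩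
      map_one' := rfl
      map_mul' := fun _ _ => rfl
      map_zero' := rfl
      map_add' := fun _ _ => rfl }
  refine alg_tr L θ f (fun a b hab => ?_) _ (fun r => (h0 r.1 r.2).2) z p hp ?_
  · exact Subtype.ext (congrArg (fun y : L => (y : A)) hab)
  · rw [Polynomial.aeval_def] at hpz
    exact hpz

private theorem bc_int {E ι : Type} [Field E] [CharZero E] {m : ℕ} (e : Fin m → ι → ℤ) :
    bc E (Submodule.span ℚ (Set.range fun p i => (e p i : ℚ))) =
      Submodule.span E (Set.range fun p i => (e p i : E)) := by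
  rw [bc_span, ← Set.range_comp]
  congr 2
  funext p i
  change algebraMap ℚ E ((e p i : ℤ) : ℚ) = _
  rw [map_intCast]

private theorem n_asm_aux {R A E ι β : Type} [Field R] [CharZero R] [Uncountable R] [Field A]
    [CharZero A] [Field E] [CharZero E] [Algebra R E]
    [Fintype ι] [Fintype β] [DecidableEq β] {k : ℕ} (F : Fin (k + 1) → Subfield A)
    (cl : ι → Fin (k + 1)) (x : ι → A) (hx : ∀ i, x i ≠ 0) (bs : β → ι) (kE : Subfield E)
    (ξ : ι → E) (d : β → Derivation ℤ E E) (hR : ∀ c : R, algebraMap R E c ∈ kE)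
    (hd : ∀ b, d b ∈ Dk kE) (hdb : ∀ b b', d b (ξ (bs b')) = if b = b' then 1 else 0)
    (hd0 : ∀ b i, cl (bs b) ≠ cl i → d b (ξ i) = 0)
    (hθ : ∀ l, ∃ (L : Subfield A) (θ : L →+* E), F l ≤ L ∧
      (∀ y : L, IsAlgebraic (Algebra.adjoin (F l) {y | ∃ b, cl (bs b) = l ∧ y = x (bs b)})
        (y : A)) ∧ (∀ y : L, (y : A) ∈ F l → θ y ∈ kE) ∧
      ∀ i, cl i = l → ∃ h : x i ∈ L, θ ⟨x i, h⟩ = ξ i)
    (V : Submodule R (ι → R)) :
    ∃ (m : ℕ) (e : Fin m → ι → ℤ) (ce : Fin m → Fin (k + 1)), LinearIndependent ℤ e ∧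
      (∀ p i, e p i ≠ 0 → cl i = ce p) ∧
      (finrank R V : ℕ∞) + ∑ l, rk (F l) {y | ∃ p, ce p = l ∧ y = mon x (e p)} ≤
        finrank E (Submodule.span E ((fun (u : ι → R) (b : β) =>
          ∑ i, algebraMap R E (u i) * (d b (ξ i) / ξ i)) '' (V : Set (ι → R)))) +
        finrank R (V ⊓ Submodule.span R (Set.range fun p i => (e p i : R)) :
          Submodule R (ι → R)) := by
  classical
  have hξ : ∀ i, ξ i ≠ 0 := by
    intro i
    obtain ⟨L, θ, _, _, _, h4⟩ := hθ (cl i)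
    obtain ⟨h, h5⟩ := h4 i rfl
    rw [← h5]
    intro h6
    exact hx i (congrArg Subtype.val ((map_eq_zero θ).1 h6))
  have halg : ∀ i, IsAlgebraic (Subfield.closure ((kE : Set E) ∪
      (ξ ∘ bs) '' {b | cl (bs b) = cl i})) (ξ i) := by
    intro i
    obtain ⟨L, θ, h1, h2, h3, h4⟩ := hθ (cl i)
    obtain ⟨h, h5⟩ := h4 i rfl
    rw [← h5]
    exact alg_blk (F (cl i)) bs (fun b => cl (bs b) = cl i) x ξ kE L θ h1 h3
      (fun b hb => h4 (bs b) hb) ⟨x i, h⟩ (h2 ⟨x i, h⟩)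
  have halg1 : ∀ i, IsAlgebraic (Subfield.closure ((kE : Set E) ∪
      (ξ ∘ bs) '' {b | (fun b => (cl (bs b) : ℕ)) b = (fun i => (cl i : ℕ)) i})) (ξ i) := by
    intro i
    have h1 : {b | (fun b => (cl (bs b) : ℕ)) b = (fun i => (cl i : ℕ)) i} =
        {b | cl (bs b) = cl i} := by
      ext b
      exact Fin.val_inj
    rw [h1]
    exact halg i
  have halg2 : ∀ i, IsAlgebraic (Subfield.closure ((kE : Set E) ∪ Set.range (ξ ∘ bs)))
      (ξ i) := by
    intro i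
    exact alg_mono (Subfield.closure_mono
      (Set.union_subset_union_right _ (Set.image_subset_range _ _))) (halg i)
  have hIv : Iv kE ξ = Submodule.span E (Set.range fun b => lv ξ (d b)) :=
    Iv_eq_span kE ξ (ξ ∘ bs) d hd hdb halg2
  have hHom : Hom (fun i => (cl i : ℕ)) (Iv kE ξ) :=
    hom_Iv kE ξ (ξ ∘ bs) d hd hdb (fun i => (cl i : ℕ)) (fun b => (cl (bs b) : ℕ)) halg1
  obtain ⟨U, hU1, hU2⟩ := n2prod kE hR ξ hξ (fun i => (cl i : ℕ)) hHom V
  obtain ⟨m, e, ce, he1, he2, he3⟩ := n_basis cl U hU1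
  refine ⟨m, e, ce, he1, he2, ?_⟩
  have hr := n_rank F cl x hx bs ξ d hdb hd0 (fun l => by
    obtain ⟨L, θ, h1, h2, h3, h4⟩ := hθ l
    exact ⟨L, θ, h1, h2, fun y b hy => hd b _ (h3 y hy), h4⟩) e ce he2
  have hs := n_span (fun b => lv ξ (d b)) V
  rw [← hIv] at hr hs
  rw [he3, bc_int, bc_int] at hU2
  have hs2 : finrank E (Submodule.span E ((fun (u : ι → R) (b : β) =>
      ∑ i, algebraMap R E (u i) * (d b (ξ i) / ξ i)) '' (V : Set (ι → R)))) =
        rkS (Iv kE ξ) (bc E V) := hs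
  rw [hs2]
  refine (add_le_add_right hr _).trans ?_
  rw [add_comm (rkS (Iv kE ξ) (bc E V) : ℕ∞)]
  exact_mod_cast hU2

/-- **N2C, abstract form.**

Proof. `ξ i ≠ 0` (`θ` injective, `x i ≠ 0`). Every `ξ i` is algebraic over the subfield generated
by `kE` and the `ξ (bs b)`: for `l = cl i` apply `θ` to an algebraic equation of `x i` over
`Algebra.adjoin (F l) {x (bs b) | cl (bs b) = l}` (`hθ`; the image of this ring under `θ` is
contained in the subfield generated by `kE` and the `ξ (bs b)`). `Iv_eq_span` (with `y = ξ ∘ bs`):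
`I := Iv kE ξ = span (range (lv ξ ∘ d))`. `I` is homogeneous for `cls i = (cl i : ℕ)`: `lv ξ (d
b)` is supported in the block of `bs b` (`hd0`), so `blk cls l (lv ξ (d b))` is `lv ξ (d b)` or
`0`, and `hom_span`. `n2prod` (`F = ℝ`) for `V` gives a homogeneous `U`; by `n_basis` `U` is the
span of the integer vectors `e p`. `bc ℝ U = span ℝ (range e)` and `bc E U = span E (range e)`
(`bc_span`). `n_rank`: `∑ l, rk .. ≤ rkS I (bc E U)`, and `n_span` (`w b = lv ξ (d b)`): `rkS I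
(bc E V)` is the rank of the statement. -/
theorem n_asm {A E ι β : Type} [Field A] [CharZero A] [Field E] [CharZero E] [Algebra ℝ E]
    [Fintype ι] [Fintype β] [DecidableEq β] {k : ℕ} (F : Fin (k + 1) → Subfield A)
    (cl : ι → Fin (k + 1)) (x : ι → A) (hx : ∀ i, x i ≠ 0) (bs : β → ι) (kE : Subfield E)
    (ξ : ι → E) (d : β → Derivation ℤ E E) (hR : ∀ c : ℝ, algebraMap ℝ E c ∈ kE)
    (hd : ∀ b, d b ∈ Dk kE) (hdb : ∀ b b', d b (ξ (bs b')) = if b = b' then 1 else 0)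
    (hd0 : ∀ b i, cl (bs b) ≠ cl i → d b (ξ i) = 0)
    (hθ : ∀ l, ∃ (L : Subfield A) (θ : L →+* E), F l ≤ L ∧
      (∀ y : L, IsAlgebraic (Algebra.adjoin (F l) {y | ∃ b, cl (bs b) = l ∧ y = x (bs b)})
        (y : A)) ∧ (∀ y : L, (y : A) ∈ F l → θ y ∈ kE) ∧
      ∀ i, cl i = l → ∃ h : x i ∈ L, θ ⟨x i, h⟩ = ξ i)
    (V : Submodule ℝ (ι → ℝ)) :
    ∃ (m : ℕ) (e : Fin m → ι → ℤ) (ce : Fin m → Fin (k + 1)), LinearIndependent ℤ e ∧
      (∀ p i, e p i ≠ 0 → cl i = ce p) ∧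
      (finrank ℝ V : ℕ∞) + ∑ l, rk (F l) {y | ∃ p, ce p = l ∧ y = mon x (e p)} ≤
        finrank E (Submodule.span E ((fun (R : ι → ℝ) (b : β) =>
          ∑ i, algebraMap ℝ E (R i) * (d b (ξ i) / ξ i)) '' (V : Set (ι → ℝ)))) +
        finrank ℝ (V ⊓ Submodule.span ℝ (Set.range fun p i => (e p i : ℝ)) :
          Submodule ℝ (ι → ℝ)) :=
  n_asm_aux F cl x hx bs kE ξ d hR hd hdb hd0 hθ V

end Pool.Agent.Zilber
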