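import Pool.Agent.Zilber.NFrac
import Pool.Agent.Zilber.Ax.Defs

set_option autoImplicit false

/-! N2C: the coordinates of the branch as elements of the field, and their derivatives. -/

namespace Pool.Agent.Zilber

open Filter NumberField Module Pool.Agent.LAll Pool.Agent.LSharp Pool.Agent.CITLines

variable {J : Type} {𝒰 : Ultrafilter J} {K : J → Type} [∀ j, Field (K j)]
  {ι β : Type}

/-- The coordinates of the branch as elements of the field. -/
noncomputable def xE (σ : ∀ j, K j →+* ℂ) (X : ι → Ult 𝒰 (PS β K)) (i : ι) : EU 𝒰 β :=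
  algebraMap (UC 𝒰 β) (EU 𝒰 β)
    (Ult.map (𝒰 := 𝒰) (R := PS β K) (S := fun _ : J => MvPowerSeries β ℂ)
      (fun j => MvPowerSeries.map (σ j)) (X i))

/-- The derivations of `n_pder`. -/
noncomputable def dE (𝒰 : Ultrafilter J) (b : β) : Derivation ℤ (EU 𝒰 β) (EU 𝒰 β) :=
  (n_pder 𝒰 b).choose

theorem dE_mk (b : β) (f : J → MvPowerSeries β ℂ) :
    dE 𝒰 b (mkE 𝒰 β f) = mkE 𝒰 β (fun j => MvPowerSeries.pderiv ℂ b (f j)) :=
  (n_pder 𝒰 b).choose_spec f

/-- Proof. Elements of the range of `cE` are `mkE (fun j => C (z j))` (`Ult.mk_surj`, `cE_mk`); the derivatives of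
constants are `0` (`Derivation.map_algebraMap` or a lemma on `C`). -/
theorem dE_const (b : β) : dE 𝒰 b ∈ Ax.Dk (cE 𝒰 β).fieldRange := by
  rw [Ax.mem_Dk]
  rintro c ⟨z, rfl⟩
  obtain ⟨w, rfl⟩ := Ult.mk_surj z
  rw [cE_mk, dE_mk, mkE_eq_zero]
  refine Filter.Eventually.of_forall fun j => ?_
  have h : (MvPowerSeries.C (w j) : MvPowerSeries β ℂ) =
      algebraMap ℂ (MvPowerSeries β ℂ) (w j) := rfl
  rw [h, Derivation.map_algebraMap]

theorem rE_mem (c : ℝ) : rE 𝒰 β c ∈ (cE 𝒰 β).fieldRange := ⟨_, rfl⟩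

/-- The coordinates of the branch are represented by the complex power series `map (σ j) ((X i).rep j)`.

Proof. `X i = mk (X i).rep`, `Ult.map_mk`. -/
theorem xE_eq (σ : ∀ j, K j →+* ℂ) (X : ι → Ult 𝒰 (PS β K)) (i : ι) :
    xE σ X i = mkE 𝒰 β (fun j => MvPowerSeries.map (σ j) ((X i).rep j)) := by
  rw [xE]
  conv_lhs => rw [← Ult.mk_rep (X i)]
  rw [Ult.map_mk]
  rfl

/-- **The forms of the definition `omU`.** The constant coefficients of the branch are not zero.

Proof. Let `f i j = map (σ j) ((X i).rep j)`. For almost all `j` its constant coefficient is not zero (`h0`: `eps0 (X i)` is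
represented by the constant coefficients of `(X i).rep j`, and `σ j` is injective), so `mkE_inv` applies. The
left side is the image under the ring homomorphism `mkR` of `∑ i, C (R i) * (pderiv b (f i j) * (f i j)⁻¹)`: use
`map_sum`, `map_mul` for `mkR`, `rE_eq`, `dE_mk`, `xE_eq`. -/
theorem om_eq [Fintype ι] (σ : ∀ j, K j →+* ℂ) (X : ι → Ult 𝒰 (PS β K))
    (h0 : ∀ i, eps0 β K (X i) ≠ 0) (R : ι → ℝ) (b : β) :
    mkE 𝒰 β (fun j => om (σ j) (fun i => (X i).rep j) R b) =
      ∑ i, rE 𝒰 β (R i) * (dE 𝒰 b (xE σ X i) / xE σ X i) := by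
  have hinv : ∀ i, mkE 𝒰 β (fun j => (MvPowerSeries.map (σ j) ((X i).rep j))⁻¹) =
      (mkE 𝒰 β (fun j => MvPowerSeries.map (σ j) ((X i).rep j)))⁻¹ := by
    intro i
    apply mkE_inv
    have h1 := Ult.rep_ne_zero (h0 i)
    have h2 := Ult.map_rep (𝒰 := 𝒰) (R := PS β K) (S := K)
      (fun _ => MvPowerSeries.constantCoeff) (X i)
    filter_upwards [h1, h2] with j h3 h4
    rw [MvPowerSeries.constantCoeff_map]
    intro h5
    apply h3
    have h6 : (eps0 β K (X i)).rep j = MvPowerSeries.constantCoeff ((X i).rep j) := h4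
    rw [h6]
    exact (map_eq_zero (σ j)).mp h5
  have hfun : (fun j => om (σ j) (fun i => (X i).rep j) R b) =
      ∑ i, (fun j => MvPowerSeries.C (R i : ℂ) : J → MvPowerSeries β ℂ) *
        ((fun j => MvPowerSeries.pderiv ℂ b (MvPowerSeries.map (σ j) ((X i).rep j))) *
          (fun j => (MvPowerSeries.map (σ j) ((X i).rep j))⁻¹)) := by
    funext j
    rw [Finset.sum_apply]
    rfl
  rw [← mkR_apply, hfun, map_sum]
  refine Finset.sum_congr rfl fun i _ => ?_
  rw [map_mul, map_mul, mkR_apply, mkR_apply, mkR_apply, hinv, ← rE_eq, ← dE_mk, ← xE_eq,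
    div_eq_mul_inv]

end Pool.Agent.Zilber
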