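import Pool.Agent.Zilber.Defs

set_option autoImplicit false

/-! N2C: the fraction field `EU` of the ultraproduct of the complex power series rings,
derivations, constants.

`EU 𝒰 β` is a copy of `FractionRing (UC 𝒰 β)` with only one instance `Field` (no competing instances). -/

namespace Pool.Agent.Zilber

open Filter Pool.Agent.LSharp Module

instance instDomPS {β F : Type} [Field F] : IsDomain (MvPowerSeries β F) :=
  NoZeroDivisors.to_isDomain _

open TensorProduct in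
/-- **Extension of a derivation to the fraction field.**

Proof. `R → E` is formally etale (`Algebra.FormallyEtale.of_isLocalization` for `nonZeroDivisors R`), so
`E ⊗ Ω[R/ℤ] ≃ Ω[E/ℤ]` (`KaehlerDifferential.tensorKaehlerEquivOfFormallyEtale ℤ R E`,
`..._symm_D_algebraMap`); `D` corresponds to an `R`-linear map `Ω[R/ℤ] → R`
(`Derivation.liftKaehlerDifferential`), compose with `R → E`, extend scalars (`LinearMap.liftBaseChange`), compose with the inverse of the isomorphism and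
with the universal derivation (`LinearMap.compDer`). See `Pool.Agent.Srf5.exists_der` (Srf5/Ders.lean) for this
pattern. (Or directly: `D' (a / b) = (b * D a - a * D b) / b ^ 2`.) -/
theorem n_frac {R E : Type} [CommRing R] [IsDomain R] [Field E] [Algebra R E]
    [IsFractionRing R E] (D : Derivation ℤ R R) :
    ∃ D' : Derivation ℤ E E, ∀ r : R, D' (algebraMap R E r) = algebraMap R E (D r) := by
  have h : Algebra.FormallyEtale R E :=
    Algebra.FormallyEtale.of_isLocalization (M := nonZeroDivisors R)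
  let φ : KaehlerDifferential ℤ R →ₗ[R] E :=
    (Algebra.linearMap R E).comp D.liftKaehlerDifferential
  let ψ : KaehlerDifferential ℤ E →ₗ[E] E :=
    (LinearMap.liftBaseChange E φ).comp
      (KaehlerDifferential.tensorKaehlerEquivOfFormallyEtale ℤ R E).symm.toLinearMap
  refine ⟨ψ.compDer (KaehlerDifferential.D ℤ E), fun r => ?_⟩
  have h1 : ψ (KaehlerDifferential.D ℤ E (algebraMap R E r)) = algebraMap R E (D r) := by
    simp only [ψ, LinearMap.comp_apply, LinearEquiv.coe_coe]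
    rw [KaehlerDifferential.tensorKaehlerEquivOfFormallyEtale_symm_D_algebraMap,
      LinearMap.liftBaseChange_tmul, one_smul]
    simp only [φ, LinearMap.comp_apply, Derivation.liftKaehlerDifferential_comp_D,
      Algebra.linearMap_apply]
  exact h1

variable {J : Type} (𝒰 : Ultrafilter J) (β : Type)

/-- The fraction field of the ultraproduct of the complex power series rings. -/
def EU : Type := FractionRing (UC 𝒰 β)

noncomputable instance : Field (EU 𝒰 β) := inferInstanceAs (Field (FractionRing (UC 𝒰 β)))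

noncomputable instance : Algebra (UC 𝒰 β) (EU 𝒰 β) :=
  inferInstanceAs (Algebra (UC 𝒰 β) (FractionRing (UC 𝒰 β)))

instance : IsFractionRing (UC 𝒰 β) (EU 𝒰 β) :=
  inferInstanceAs (IsFractionRing (UC 𝒰 β) (FractionRing (UC 𝒰 β)))

/-- The class of a family of power series. -/
noncomputable def mkE (f : J → MvPowerSeries β ℂ) : EU 𝒰 β :=
  algebraMap (UC 𝒰 β) (EU 𝒰 β) (Ult.mk 𝒰 (fun _ : J => MvPowerSeries β ℂ) f)

/-- `mkE` as a ring homomorphism. -/
noncomputable def mkR : (J → MvPowerSeries β ℂ) →+* EU 𝒰 β :=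
  (algebraMap (UC 𝒰 β) (EU 𝒰 β)).comp (Ult.mk 𝒰 (fun _ : J => MvPowerSeries β ℂ))

theorem mkR_apply (f : J → MvPowerSeries β ℂ) : mkR 𝒰 β f = mkE 𝒰 β f := rfl

variable {β}

theorem mkE_eq {f g : J → MvPowerSeries β ℂ} :
    mkE 𝒰 β f = mkE 𝒰 β g ↔ ∀ᶠ j in (𝒰 : Filter J), f j = g j := by
  unfold mkE
  rw [(IsFractionRing.injective (UC 𝒰 β) (EU 𝒰 β)).eq_iff]
  exact Ult.mk_eq_mk

theorem mkE_eq_zero {f : J → MvPowerSeries β ℂ} :
    mkE 𝒰 β f = 0 ↔ ∀ᶠ j in (𝒰 : Filter J), f j = 0 := by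
  have h : mkE 𝒰 β (0 : J → MvPowerSeries β ℂ) = 0 := by
    rw [← mkR_apply, map_zero]
  rw [← h, mkE_eq]
  rfl

/-- Proof. `f j * (f j)⁻¹ = 1` if the constant coefficient is not `0` (`MvPowerSeries.mul_inv_cancel`). -/
theorem mkE_inv {f : J → MvPowerSeries β ℂ}
    (h : ∀ᶠ j in (𝒰 : Filter J), MvPowerSeries.constantCoeff (f j) ≠ 0) :
    mkE 𝒰 β (fun j => (f j)⁻¹) = (mkE 𝒰 β f)⁻¹ := by
  refine eq_inv_of_mul_eq_one_left ?_
  rw [← mkR_apply, ← mkR_apply, ← map_mul, ← map_one (mkR 𝒰 β), mkR_apply, mkR_apply, mkE_eq]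
  filter_upwards [h] with j hj
  rw [Pi.mul_apply, Pi.one_apply]
  exact MvPowerSeries.inv_mul_cancel _ hj

/-- Proof. Put `D z = mk (fun j => d j (z.rep j))` (`Ult.rep`, `Ult.rep_mk`, `Ult.mk_rep`);
additivity and the Leibniz rule hold for almost all `j` (`Ult.mk_eq_mk`); `Derivation.mk'` with `AddMonoidHom.toIntLinearMap`. -/
theorem n_uder {R : J → Type} [∀ j, CommRing (R j)] (d : ∀ j, Derivation ℤ (R j) (R j)) :
    ∃ D : Derivation ℤ (Ult 𝒰 R) (Ult 𝒰 R), ∀ f : ∀ j, R j,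
      D (Ult.mk 𝒰 R f) = Ult.mk 𝒰 R (fun j => d j (f j)) := by
  have hmk : ∀ f : ∀ j, R j, Ult.mk 𝒰 R (fun j => d j ((Ult.mk 𝒰 R f).rep j)) =
      Ult.mk 𝒰 R (fun j => d j (f j)) := by
    intro f
    rw [Ult.mk_eq_mk]
    filter_upwards [Ult.rep_mk (𝒰 := 𝒰) f] with j hj
    rw [hj]
  let D0 : Ult 𝒰 R →+ Ult 𝒰 R :=
    { toFun := fun z => Ult.mk 𝒰 R (fun j => d j (z.rep j))
      map_zero' := by
        have h1 := hmk 0
        rw [map_zero] at h1
        rw [h1, Ult.mk_eq_zero]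
        exact Filter.Eventually.of_forall fun j => map_zero (d j)
      map_add' := fun x y => by
        obtain ⟨f, rfl⟩ := Ult.mk_surj x
        obtain ⟨g, rfl⟩ := Ult.mk_surj y
        rw [← map_add, hmk, hmk, hmk, ← map_add, Ult.mk_eq_mk]
        exact Filter.Eventually.of_forall fun j => map_add (d j) (f j) (g j) }
  refine ⟨Derivation.mk' D0.toIntLinearMap fun x y => ?_, fun f => hmk f⟩
  obtain ⟨f, rfl⟩ := Ult.mk_surj x
  obtain ⟨g, rfl⟩ := Ult.mk_surj y
  change Ult.mk 𝒰 R (fun j => d j ((Ult.mk 𝒰 R f * Ult.mk 𝒰 R g).rep j)) =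
    Ult.mk 𝒰 R f • Ult.mk 𝒰 R (fun j => d j ((Ult.mk 𝒰 R g).rep j)) +
    Ult.mk 𝒰 R g • Ult.mk 𝒰 R (fun j => d j ((Ult.mk 𝒰 R f).rep j))
  rw [← map_mul, hmk, hmk, hmk, smul_eq_mul, smul_eq_mul, ← map_mul, ← map_mul, ← map_add,
    Ult.mk_eq_mk]
  exact Filter.Eventually.of_forall fun j => (d j).leibniz (f j) (g j)

private theorem n_dint {A : Type} [CommRing A] (f : A →+ A)
    (h : ∀ x y : A, f (x * y) = x * f y + y * f x) :
    ∃ p : Derivation ℤ A A, ∀ x, p x = f x :=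
  ⟨Derivation.mk' f.toIntLinearMap h, fun _ => rfl⟩

/-- Proof. `n_uder` for the partial derivatives (restricted to `ℤ`), `n_frac`. -/
theorem n_pder (b : β) :
    ∃ d : Derivation ℤ (EU 𝒰 β) (EU 𝒰 β), ∀ f : J → MvPowerSeries β ℂ,
      d (mkE 𝒰 β f) = mkE 𝒰 β (fun j => MvPowerSeries.pderiv ℂ b (f j)) := by
  obtain ⟨p, hp⟩ := n_dint (A := MvPowerSeries β ℂ)
    (MvPowerSeries.pderiv ℂ b).toLinearMap.toAddMonoidHom
    fun x y => (MvPowerSeries.pderiv ℂ b).leibniz x y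
  obtain ⟨D, hD⟩ := n_uder 𝒰 (R := fun _ : J => MvPowerSeries β ℂ) (fun _ => p)
  obtain ⟨d, hd⟩ := n_frac (R := UC 𝒰 β) (E := EU 𝒰 β) D
  refine ⟨d, fun f => ?_⟩
  unfold mkE
  rw [hd, hD]
  congr 2
  funext j
  exact hp (f j)

/-- Proof. `(n : EU) = mkE (fun _ => n)` is not `0` for `n ≠ 0`. -/
theorem n_char : CharZero (EU 𝒰 β) := by
  refine charZero_of_inj_zero fun n hn => ?_
  rw [← map_natCast (mkR 𝒰 β) n, mkR_apply, mkE_eq_zero] at hn
  obtain ⟨j, hj⟩ := hn.exists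
  have h1 := congrArg (MvPowerSeries.constantCoeff (σ := β) (R := ℂ)) hj
  rw [Pi.natCast_apply, map_natCast, map_zero] at h1
  exact_mod_cast h1

/-- Families of complex numbers as elements of the field. -/
noncomputable def cE (β : Type) : Ult 𝒰 (fun _ : J => ℂ) →+* EU 𝒰 β :=
  (algebraMap (UC 𝒰 β) (EU 𝒰 β)).comp
    (Ult.map (R := fun _ : J => ℂ) (S := fun _ : J => MvPowerSeries β ℂ)
      fun _ => MvPowerSeries.C)

theorem cE_mk (z : J → ℂ) :
    cE 𝒰 β (Ult.mk 𝒰 (fun _ : J => ℂ) z) = mkE 𝒰 β (fun j => MvPowerSeries.C (z j)) := rfl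

/-- The real numbers as elements of the field. -/
noncomputable def rE (β : Type) : ℝ →+* EU 𝒰 β :=
  (cE 𝒰 β).comp ((Ult.mk 𝒰 (fun _ : J => ℂ)).comp (Pi.ringHom fun _ => Complex.ofRealHom))

theorem rE_eq (c : ℝ) : rE 𝒰 β c = mkE 𝒰 β (fun _ => MvPowerSeries.C (c : ℂ)) := rfl

/-- The field as an algebra over the real numbers. -/
@[reducible] noncomputable def algR (β : Type) : Algebra ℝ (EU 𝒰 β) := (rE 𝒰 β).toAlgebra

section

variable {K : J → Type} [∀ j, Field (K j)] {ι : Type} [Fintype ι] [Fintype β] [DecidableEq β]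

/-- The rank of the definition `rkO`, over the field `EU`. -/
theorem rkO_eq (σ : ∀ j, K j →+* ℂ) (X : ι → Ult 𝒰 (PS β K)) (V : Submodule ℝ (ι → ℝ)) :
    rkO σ X V = finrank (EU 𝒰 β) (Submodule.span (EU 𝒰 β)
      ((fun (R : ι → ℝ) (b : β) => mkE 𝒰 β fun j => om (σ j) (fun i => (X i).rep j) R b) ''
        (V : Set (ι → ℝ)))) := rfl

end

end Pool.Agent.Zilber
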