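import Pool.Agent.Zilber.NTr
import Pool.Agent.Zilber.Ax.LinB
import Pool.Agent.Zilber.Ax.RL
import Pool.Agent.CITLines.Basic

set_option autoImplicit false

/-! N2C: the rank is at least the sum of the transcendence degrees of the blocks. -/

namespace Pool.Agent.Zilber

open Module Pool.Agent.Zilber.Ax Pool.Agent.CITLines

/-- Algebraicity in a subfield. -/
private theorem alg_sub {A : Type} [Field A] (L F : Subfield A) (hFL : F ≤ L) {κ : Type}
    (y : κ → L) (z : L)
    (h : IsAlgebraic (Algebra.adjoin F (Set.range fun b => (y b : A))) (z : A)) :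
    IsAlgebraic (Algebra.adjoin (F.comap L.subtype) (Set.range y)) z := by
  have h1 : ∀ a : L, a ∈ Algebra.adjoin (F.comap L.subtype) (Set.range y) →
      (a : A) ∈ Algebra.adjoin F (Set.range fun b => (y b : A)) := by
    intro a ha
    induction ha using Algebra.adjoin_induction with
    | mem x hx =>
      obtain ⟨b, rfl⟩ := hx
      exact Algebra.subset_adjoin ⟨b, rfl⟩
    | algebraMap r =>
      exact Subalgebra.algebraMap_mem (Algebra.adjoin F (Set.range fun b => (y b : A)))
        (⟨((r : L) : A), r.2⟩ : F)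
    | add a b _ _ ha hb =>
      rw [Subfield.coe_add]
      exact add_mem ha hb
    | mul a b _ _ ha hb =>
      rw [Subfield.coe_mul]
      exact mul_mem ha hb
  have h2 : ∀ a : A, a ∈ Algebra.adjoin F (Set.range fun b => (y b : A)) →
      ∃ a' : L, a' ∈ Algebra.adjoin (F.comap L.subtype) (Set.range y) ∧ (a' : A) = a := by
    intro a ha
    induction ha using Algebra.adjoin_induction with
    | mem x hx =>
      obtain ⟨b, rfl⟩ := hx
      exact ⟨y b, Algebra.subset_adjoin ⟨b, rfl⟩, rfl⟩
    | algebraMap r =>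
      exact ⟨⟨r, hFL r.2⟩, Subalgebra.algebraMap_mem
        (Algebra.adjoin (F.comap L.subtype) (Set.range y))
        (⟨⟨r, hFL r.2⟩, r.2⟩ : (F.comap L.subtype : Subfield L)), rfl⟩
    | add a b _ _ ha hb =>
      obtain ⟨a', ha1, rfl⟩ := ha
      obtain ⟨b', hb1, rfl⟩ := hb
      exact ⟨a' + b', add_mem ha1 hb1, rfl⟩
    | mul a b _ _ ha hb =>
      obtain ⟨a', ha1, rfl⟩ := ha
      obtain ⟨b', hb1, rfl⟩ := hb
      exact ⟨a' * b', mul_mem ha1 hb1, rfl⟩
  let f : Algebra.adjoin (F.comap L.subtype) (Set.range y) →+*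
      Algebra.adjoin F (Set.range fun b => (y b : A)) :=
    { toFun := fun a => ⟨((a : L) : A), h1 a a.2⟩
      map_one' := rfl
      map_mul' := fun _ _ => rfl
      map_zero' := rfl
      map_add' := fun _ _ => rfl }
  refine IsAlgebraic.of_ringHom_of_comp_eq f L.subtype h ?_ Subtype.val_injective ?_
  · rintro ⟨a, ha⟩
    obtain ⟨a', ha1, ha2⟩ := h2 a ha
    exact ⟨⟨a', ha1⟩, Subtype.ext ha2⟩
  · rfl

/-- A finite set of indices of an algebraically independent family of maximal size. -/
private theorem exists_T {A κ : Type} [Field A] [Fintype κ] [DecidableEq κ] (F : Subfield A)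
    (P : κ → Prop) (f : κ → A) :
    ∃ T : Finset κ, (∀ p ∈ T, P p) ∧ (T.card : ℕ∞) = rk F {y | ∃ p, P p ∧ y = f p} ∧
      AlgebraicIndependent F (fun p : T => f p) := by
  obtain ⟨B, hB⟩ := (AlgebraicIndependent.matroid F A).exists_isBasis {y | ∃ p, P p ∧ y = f p}
  have hfin : {y | ∃ p, P p ∧ y = f p}.Finite := by
    refine (Set.finite_range f).subset ?_
    rintro y ⟨p, _, rfl⟩
    exact ⟨p, rfl⟩
  have hBfin : B.Finite := hfin.subset hB.subset
  have hft : Fintype B := hBfin.fintype
  have hind : AlgebraicIndependent F ((↑) : B → A) := hB.indep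
  have hsec : ∀ b : B, ∃ p, P p ∧ (b : A) = f p := fun b => hB.subset b.2
  choose g hg1 hg2 using hsec
  have hginj : Function.Injective g := by
    intro a b hab
    apply Subtype.ext
    rw [hg2 a, hg2 b, hab]
  refine ⟨Finset.univ.image g, ?_, ?_, ?_⟩
  · intro p hp
    obtain ⟨b, _, rfl⟩ := Finset.mem_image.1 hp
    exact hg1 b
  · unfold rk
    rw [← hB.encard_eq_eRk, Finset.card_image_of_injective _ hginj, Finset.card_univ,
      Set.encard_eq_coe_toFinset_card, Set.toFinset_card]
  · let φ : B ≃ (Finset.univ.image g : Finset κ) :=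
      Equiv.ofBijective (fun a => ⟨g a, Finset.mem_image_of_mem _ (Finset.mem_univ a)⟩) (by
        constructor
        · intro a b hab
          exact hginj (congrArg Subtype.val hab)
        · rintro ⟨i, hi⟩
          obtain ⟨a, _, ha⟩ := Finset.mem_image.mp hi
          exact ⟨a, Subtype.ext ha⟩)
    rw [← algebraicIndependent_equiv φ]
    have h1 : (fun p : (Finset.univ.image g : Finset κ) => f p) ∘ φ = ((↑) : B → A) := by
      funext a
      exact (hg2 a).symm
    rw [h1]
    exact hind

/-- **The rank of a product is at least the sum of the transcendence degrees.**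

Proof. For every `l` there is a finite set `T l` of indices `p` with `ce p = l` such that the `mon
x (e p)`, `p ∈ T l`, are algebraically independent over `F l` (and different for different `p`)
and `(T l).card` is the rank `rk (F l) {y | ∃ p, ce p = l ∧ y = mon x (e p)}` (a basis of the set
in the matroid: `Matroid.exists_isBasis`, `Matroid.IsBasis.encard_eq_eRk`, choose an index for
every element of the basis; see the proof of `dm_kr` in CITLines/Basic.lean). Let `L, θ` be as in
`hθ l`. For `p ∈ T l` `u p = mon x (e p)` is in `L` (only the `x i` with `cl i = l` occur) and `θ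
(u p) = mon ξ (e p)`; by `lv_mon` `d b (mon ξ (e p)) / mon ξ (e p) = (e p) ⬝ᵥ lv ξ (d b)`. `n_tr`
for `L`, the subfield `F l` of `L` (`Subfield.comap` or as a subfield of `L`; algebraic
independence over `F l` in `A` and in `L` are the same) and the `b` with `cl (bs b) = l`: the
vectors `((e p) ⬝ᵥ lv ξ (d b))_b` (`b` in the block `l`), `p ∈ T l`, are linearly independent. For
`b` in another block `(e p) ⬝ᵥ lv ξ (d b) = 0` (`hd0`). So the vectors `((e p) ⬝ᵥ lv ξ (d b))_(b :
β)` for all `p` in the disjoint union `T` of the `T l` are linearly independent: this matrix has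
rank `T.card`, so it has a minor of this size which is not zero, and `le_rkS_iff` (or directly:
`span (e p, p ∈ T) ⊓ pp (span (lv ξ (d b))) = ⊥`, so the rank of this span is `T.card`, and
`rkS_mono`) gives the claim. -/
theorem n_rank {A E ι β : Type} [Field A] [CharZero A] [Field E] [CharZero E] [Fintype ι]
    [Fintype β] [DecidableEq β] {k : ℕ} (F : Fin (k + 1) → Subfield A) (cl : ι → Fin (k + 1))
    (x : ι → A) (hx : ∀ i, x i ≠ 0) (bs : β → ι) (ξ : ι → E) (d : β → Derivation ℤ E E)
    (hdb : ∀ b b', d b (ξ (bs b')) = if b = b' then 1 else 0)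
    (hd0 : ∀ b i, cl (bs b) ≠ cl i → d b (ξ i) = 0)
    (hθ : ∀ l, ∃ (L : Subfield A) (θ : L →+* E), F l ≤ L ∧
      (∀ y : L, IsAlgebraic (Algebra.adjoin (F l) {y | ∃ b, cl (bs b) = l ∧ y = x (bs b)})
        (y : A)) ∧ (∀ (y : L) (b : β), (y : A) ∈ F l → d b (θ y) = 0) ∧
      ∀ i, cl i = l → ∃ h : x i ∈ L, θ ⟨x i, h⟩ = ξ i)
    {m : ℕ} (e : Fin m → ι → ℤ) (ce : Fin m → Fin (k + 1)) (he : ∀ p i, e p i ≠ 0 → cl i = ce p) :
    ∑ l, rk (F l) {y | ∃ p, ce p = l ∧ y = mon x (e p)} ≤
      (rkS (Submodule.span E (Set.range fun b => lv ξ (d b)))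
        (Submodule.span E (Set.range fun p i => (e p i : E))) : ℕ∞) := by
  classical
  have hT := fun l => exists_T (F l) (fun p => ce p = l) (fun p => mon x (e p))
  choose T hT1 hT2 hT3 using hT
  have hξ : ∀ i, ξ i ≠ 0 := by
    intro i
    obtain ⟨L, θ, _, _, _, h4⟩ := hθ (cl i)
    obtain ⟨h5, h6⟩ := h4 i rfl
    rw [← h6, Ne, map_eq_zero]
    intro h7
    exact hx i (congrArg Subtype.val h7)
  -- the matrix
  let M : Fin m → β → E := fun p b => (fun i => (e p i : E)) ⬝ᵥ lv ξ (d b)
  have hM0 : ∀ p b, cl (bs b) ≠ ce p → M p b = 0 := by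
    intro p b hb
    change ∑ i, (e p i : E) * (d b (ξ i) / ξ i) = 0
    refine Finset.sum_eq_zero fun i _ => ?_
    by_cases h1 : e p i = 0
    · rw [h1, Int.cast_zero, zero_mul]
    · rw [hd0 b i (by rw [he p i h1]; exact hb), zero_div, mul_zero]
  have hblk : ∀ l, LinearIndependent E
      (fun (p : T l) (b : {b // cl (bs b) = l}) => M p b) := by
    intro l
    obtain ⟨L, θ, hFL, halg, hF0, hLx⟩ := hθ l
    have hLx' : ∀ i, cl i = l → x i ∈ L := fun i hi => (hLx i hi).1
    let w : ι → L := fun i => if h : cl i = l then ⟨x i, hLx' i h⟩ else 1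
    have hw1 : ∀ i, cl i = l → (w i : A) = x i := by
      intro i hi
      change ((if h : cl i = l then (⟨x i, hLx' i h⟩ : L) else 1 : L) : A) = x i
      rw [dif_pos hi]
    have hw2 : ∀ i, cl i = l → θ (w i) = ξ i := by
      intro i hi
      change θ (if h : cl i = l then (⟨x i, hLx' i h⟩ : L) else 1 : L) = ξ i
      rw [dif_pos hi]
      obtain ⟨h1, h2⟩ := hLx i hi
      exact h2
    have hu1 : ∀ p : T l, ((mon w (e p) : L) : A) = mon x (e p) := by
      intro p
      unfold mon
      rw [← L.subtype_apply, map_prod]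
      refine Finset.prod_congr rfl fun i _ => ?_
      rw [map_zpow₀, L.subtype_apply]
      by_cases h1 : e p i = 0
      · rw [h1, zpow_zero, zpow_zero]
      · rw [hw1 i ((he p i h1).trans (hT1 l p p.2))]
    have hu2 : ∀ p : T l, θ (mon w (e p)) = mon ξ (e p) := by
      intro p
      unfold mon
      rw [map_prod]
      refine Finset.prod_congr rfl fun i _ => ?_
      rw [map_zpow₀]
      by_cases h1 : e p i = 0
      · rw [h1, zpow_zero, zpow_zero]
      · rw [hw2 i ((he p i h1).trans (hT1 l p p.2))]
    have hmain := n_tr (β := {b // cl (bs b) = l}) (T := T l) ((F l).comap L.subtype)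
      (fun b => w (bs b)) ?_ θ (fun b => d b) ?_ ?_ (fun p => mon w (e p)) ?_
    · have h1 : (fun (p : T l) (b : {b // cl (bs b) = l}) => M p b) =
          fun (p : T l) (b : {b // cl (bs b) = l}) =>
            d b (θ (mon w (e p))) / θ (mon w (e p)) := by
        funext p b
        rw [hu2 p, lv_mon ξ hξ (e p) (d b)]
      rw [h1]
      exact hmain
    · intro z
      refine alg_sub L (F l) hFL _ z ?_
      have h1 : (Set.range fun b : {b // cl (bs b) = l} => ((w (bs b) : L) : A)) =
          {y | ∃ b, cl (bs b) = l ∧ y = x (bs b)} := by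
        ext y
        constructor
        · rintro ⟨b, rfl⟩
          exact ⟨b, b.2, hw1 _ b.2⟩
        · rintro ⟨b, hb, rfl⟩
          exact ⟨⟨b, hb⟩, hw1 _ hb⟩
      rw [h1]
      exact halg z
    · intro b c hc
      exact hF0 c b hc
    · intro b b'
      rw [hw2 _ b'.2, hdb]
      refine if_congr ?_ rfl rfl
      exact Subtype.ext_iff.symm
    · let g : ((F l).comap L.subtype : Subfield L) →+* F l :=
        { toFun := fun a => ⟨((a : L) : A), a.2⟩
          map_one' := rfl
          map_mul' := fun _ _ => rfl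
          map_zero' := rfl
          map_add' := fun _ _ => rfl }
      refine AlgebraicIndependent.of_ringHom_of_comp_eq g L.subtype ?_ g.injective rfl
      have h1 : (L.subtype ∘ fun p : T l => mon w (e p)) = fun p : T l => mon x (e p) :=
        funext hu1
      rw [h1]
      exact hT3 l
  -- the union
  let T' : Finset (Fin m) := Finset.univ.filter fun p => p ∈ T (ce p)
  have hT' : ∀ l, T'.filter (fun p => ce p = l) = T l := by
    intro l
    ext p
    simp only [T', Finset.mem_filter, Finset.mem_univ, true_and]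
    constructor
    · rintro ⟨h1, h2⟩
      rw [h2] at h1
      exact h1
    · intro h1
      have h2 := hT1 l p h1
      rw [h2]
      exact ⟨h1, rfl⟩
  have hcard : (T'.card : ℕ∞) = ∑ l, rk (F l) {y | ∃ p, ce p = l ∧ y = mon x (e p)} := by
    rw [Finset.card_eq_sum_card_fiberwise (f := ce) (t := Finset.univ)
      (fun _ _ => Finset.mem_coe.2 (Finset.mem_univ _)), Nat.cast_sum]
    refine Finset.sum_congr rfl fun l _ => ?_
    rw [hT', hT2]
  have hind : ∀ c : Fin m → E, (∀ b, ∑ p ∈ T', c p * M p b = 0) → ∀ p ∈ T', c p = 0 := by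
    intro c hc p0 hp0
    have h1 : p0 ∈ T (ce p0) := (Finset.mem_filter.1 hp0).2
    refine (Fintype.linearIndependent_iff.1 (hblk (ce p0))) (fun p => c p) ?_ ⟨p0, h1⟩
    funext b
    rw [Finset.sum_apply]
    change ∑ p : T (ce p0), c p * M p b = 0
    rw [Finset.sum_coe_sort (T (ce p0)) (fun p => c p * M p b), ← hT' (ce p0),
      Finset.sum_filter]
    refine (Finset.sum_congr rfl fun p _ => ?_).trans (hc b)
    by_cases h2 : ce p = ce p0
    · rw [if_pos h2]
    · rw [if_neg h2, hM0 p b (by rw [b.2]; exact fun h3 => h2 h3.symm), mul_zero]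
  -- the span of the chosen vectors
  let v : T' → ι → E := fun p i => (e p i : E)
  have hv : ∀ c : T' → E, (∀ b, (∑ p, c p • v p) ⬝ᵥ lv ξ (d b) = 0) → c = 0 := by
    intro c hc
    have h1 := hind (fun p => if h : p ∈ T' then c ⟨p, h⟩ else 0) (fun b => by
      rw [← hc b, sum_dotProduct, ← Finset.sum_coe_sort]
      refine Finset.sum_congr rfl fun p _ => ?_
      rw [dif_pos p.2, smul_dotProduct, smul_eq_mul])
    funext p
    have h2 := h1 p p.2
    rw [dif_pos p.2] at h2
    exact h2
  have hli : LinearIndependent E v := by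
    rw [Fintype.linearIndependent_iff]
    intro c hc p
    have h1 := hv c (fun b => by rw [hc, zero_dotProduct])
    exact congrFun h1 p
  have hbot : Submodule.span E (Set.range v) ⊓
      pp (Submodule.span E (Set.range fun b => lv ξ (d b))) = ⊥ := by
    rw [Submodule.eq_bot_iff]
    intro a ha
    obtain ⟨h1, h2⟩ := Submodule.mem_inf.1 ha
    obtain ⟨c, hc⟩ := (Submodule.mem_span_range_iff_exists_fun E).1 h1
    have h3 := hv c (fun b => by
      rw [hc]
      exact pp_span.1 h2 _ ⟨b, rfl⟩)
    rw [← hc, h3]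
    simp
  have hrk := rkS_add (Submodule.span E (Set.range fun b => lv ξ (d b)))
    (Submodule.span E (Set.range v))
  rw [hbot, finrank_bot, add_zero, finrank_span_eq_card hli, Fintype.card_coe] at hrk
  rw [← hcard, ← hrk]
  refine Nat.cast_le.2 (rkS_mono le_rfl (Submodule.span_mono ?_))
  rintro _ ⟨p, rfl⟩
  exact ⟨p, rfl⟩

end Pool.Agent.Zilber
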