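import Pool.Agent.Zilber.Ax.Der

set_option autoImplicit false

/-! N2C: transfer of algebraic independence to the rank of logarithmic derivatives. -/

namespace Pool.Agent.Zilber

open Pool.Agent.Zilber.Ax

/-- The kernel of a derivation of a field `L` with values in an extension. -/
private def nker {L E : Type} [Field L] [Field E] [Algebra L E] (δ : Derivation ℤ L E) :
    Subfield L where
  carrier := {z | δ z = 0}
  zero_mem' := map_zero δ
  one_mem' := δ.map_one_eq_zero
  add_mem' := fun {a b} ha hb => by
    have ha' : δ a = 0 := ha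
    have hb' : δ b = 0 := hb
    change δ (a + b) = 0
    rw [map_add, ha', hb', add_zero]
  mul_mem' := fun {a b} ha hb => by
    have ha' : δ a = 0 := ha
    have hb' : δ b = 0 := hb
    change δ (a * b) = 0
    rw [δ.leibniz, ha', hb', smul_zero, smul_zero, add_zero]
  neg_mem' := fun {a} ha => by
    have ha' : δ a = 0 := ha
    change δ (-a) = 0
    rw [map_neg, ha', neg_zero]
  inv_mem' := fun a ha => by
    have ha' : δ a = 0 := ha
    change δ a⁻¹ = 0
    rw [δ.leibniz_inv, ha', smul_zero]

private theorem nker_alg {L E : Type} [Field L] [CharZero L] [Field E] [Algebra L E]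
    (δ : Derivation ℤ L E) (z : L) (hz : IsAlgebraic (nker δ) z) : δ z = 0 := by
  let l : L →ₗ[nker δ] E :=
    { toFun := δ
      map_add' := map_add δ
      map_smul' := by
        intro c f
        have h1 : c • f = (c : L) * f := rfl
        have h2 : δ (c : L) = 0 := c.2
        rw [h1, δ.leibniz, h2, smul_zero, add_zero]
        rfl }
  let D' : Derivation (nker δ) L E := Derivation.mk' l fun a b => δ.leibniz a b
  have hint : IsIntegral (nker δ) z := hz.isIntegral
  have h1 := D'.map_aeval (minpoly (nker δ) z) z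
  rw [minpoly.aeval, map_zero] at h1
  have h2 : Polynomial.aeval z (Polynomial.derivative (minpoly (nker δ) z)) ≠ 0 :=
    (minpoly.irreducible hint).separable.aeval_derivative_ne_zero (minpoly.aeval (nker δ) z)
  rcases smul_eq_zero.1 h1.symm with h3 | h3
  · exact absurd h3 h2
  · exact h3

private theorem nker_all {L E β : Type} [Field L] [CharZero L] [Field E] [Algebra L E]
    (F : Subfield L) (y : β → L)
    (halg : ∀ z : L, IsAlgebraic (Algebra.adjoin F (Set.range y)) z)
    (δ : Derivation ℤ L E) (h1 : ∀ c ∈ F, δ c = 0) (h2 : ∀ b, δ (y b) = 0) (z : L) :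
    δ z = 0 := by
  have h3 : ∀ a ∈ Algebra.adjoin F (Set.range y), a ∈ nker δ := by
    intro a ha
    induction ha using Algebra.adjoin_induction with
    | mem x hx =>
      obtain ⟨b, rfl⟩ := hx
      exact h2 b
    | algebraMap r => exact h1 _ r.2
    | add x y _ _ hx hy => exact (nker δ).add_mem hx hy
    | mul x y _ _ hx hy => exact (nker δ).mul_mem hx hy
  refine nker_alg δ z ?_
  obtain ⟨p, hp0, hpz⟩ := halg z
  let i : Algebra.adjoin F (Set.range y) →+* nker δ :=
    (algebraMap (Algebra.adjoin F (Set.range y)) L).codRestrict (nker δ) fun a => h3 a a.2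
  have hi : Function.Injective i := by
    intro a b hab
    exact Subtype.ext (congrArg (fun c : nker δ => (c : L)) hab)
  refine ⟨p.map i, (Polynomial.map_ne_zero_iff hi).2 hp0, ?_⟩
  rw [Polynomial.aeval_def, Polynomial.eval₂_map]
  exact hpz

/-- The chain rule: a derivation of `L` which vanishes on `F` is determined by its values at the
`y b`. -/
private theorem n_chain {L E β : Type} [Field L] [CharZero L] [Field E] [Fintype β]
    [DecidableEq β] (F : Subfield L) (y : β → L)
    (halg : ∀ z : L, IsAlgebraic (Algebra.adjoin F (Set.range y)) z) (θ : L →+* E)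
    (d : β → Derivation ℤ E E) (hF : ∀ b, ∀ c ∈ F, d b (θ c) = 0)
    (hy : ∀ b b', d b (θ (y b')) = if b = b' then 1 else 0)
    (D : Derivation ℤ L L) (hD : D ∈ Dk F) (z : L) :
    θ (D z) = ∑ b, θ (D (y b)) * d b (θ z) := by
  let _ : Algebra L E := θ.toAlgebra
  have hsm : ∀ (a : L) (e : E), a • e = θ a * e := fun a e => rfl
  let l : L →+ E :=
    { toFun := fun z => θ (D z) - ∑ b, θ (D (y b)) * d b (θ z)
      map_zero' := by
        simp only [map_zero, mul_zero, Finset.sum_const_zero, sub_zero]
      map_add' := by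
        intro a b
        simp only [map_add, mul_add, Finset.sum_add_distrib]
        ring }
  let δ : Derivation ℤ L E := Derivation.mk' l.toIntLinearMap (by
    intro a b
    change θ (D (a * b)) - ∑ c, θ (D (y c)) * d c (θ (a * b)) =
      θ a * (θ (D b) - ∑ c, θ (D (y c)) * d c (θ b)) +
        θ b * (θ (D a) - ∑ c, θ (D (y c)) * d c (θ a))
    have e1 : ∀ c, θ (D (y c)) * d c (θ (a * b)) =
        θ a * (θ (D (y c)) * d c (θ b)) + θ b * (θ (D (y c)) * d c (θ a)) := by
      intro c
      rw [map_mul, (d c).leibniz, smul_eq_mul, smul_eq_mul]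
      ring
    rw [D.leibniz, smul_eq_mul, smul_eq_mul, map_add, map_mul, map_mul,
      Finset.sum_congr rfl fun c _ => e1 c, Finset.sum_add_distrib, ← Finset.mul_sum,
      ← Finset.mul_sum]
    ring)
  have h0 : δ z = 0 := by
    refine nker_all F y halg δ (fun c hc => ?_) (fun b => ?_) z
    · change θ (D c) - ∑ b, θ (D (y b)) * d b (θ c) = 0
      rw [hD c hc, map_zero, Finset.sum_congr rfl fun b _ => by rw [hF b c hc, mul_zero],
        Finset.sum_const_zero, sub_zero]
    · change θ (D (y b)) - ∑ c, θ (D (y c)) * d c (θ (y b)) = 0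
      rw [Finset.sum_congr rfl fun c _ => by rw [hy c b, mul_ite, mul_one, mul_zero],
        Finset.sum_ite_eq' Finset.univ b, if_pos (Finset.mem_univ b), sub_self]
  exact sub_eq_zero.1 h0

/-- **Transfer.** `L` is algebraic over `F (y)`; `θ` is an embedding of `L` into a field `E` with
derivations `d b` which vanish on `θ F` and are dual to the `θ (y b)`. If the `u p` are algebraically
independent over `F` then the vectors of their logarithmic derivatives are linearly independent.

Proof. `exists_der_indep` gives derivations `D p` of `L`, trivial on `F`, with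
`D p (u p') = u p'` if `p' = p` and `0` otherwise. For all `z ∈ L`:
`θ (D p z) = ∑ b, θ (D p (y b)) * d b (θ z)` (`n_chain`). Now let
`∑ p, c p * (d b (θ (u p)) / θ (u p)) = 0` for all `b`. Multiply by `θ (D p0 (y b))` and sum over
`b`: `0 = ∑ p, c p * θ (D p0 (u p)) / θ (u p) = c p0`. (`u p ≠ 0`.) -/
theorem n_tr {L E β T : Type} [Field L] [CharZero L] [Field E] [Fintype β] [DecidableEq β]
    [Fintype T] (F : Subfield L) (y : β → L)
    (halg : ∀ z : L, IsAlgebraic (Algebra.adjoin F (Set.range y)) z) (θ : L →+* E)
    (d : β → Derivation ℤ E E) (hF : ∀ b, ∀ c ∈ F, d b (θ c) = 0)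
    (hy : ∀ b b', d b (θ (y b')) = if b = b' then 1 else 0) (u : T → L)
    (hu : AlgebraicIndependent F u) :
    LinearIndependent E (fun p b => d b (θ (u p)) / θ (u p)) := by
  classical
  rw [Fintype.linearIndependent_iff]
  intro g hg p0
  obtain ⟨D, hD, hDu⟩ := exists_der_indep F u hu fun p => if p = p0 then u p else 0
  have hch := fun z => n_chain F y halg θ d hF hy D hD z
  have hu0 : θ (u p0) ≠ 0 := (map_ne_zero θ).2 (hu.ne_zero p0)
  have e1 : ∀ b, ∑ p, g p * (d b (θ (u p)) / θ (u p)) = 0 := by
    intro b
    have h1 := congrFun hg b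
    rw [Finset.sum_apply] at h1
    exact h1
  have e2 : ∑ b, θ (D (y b)) * ∑ p, g p * (d b (θ (u p)) / θ (u p)) =
      ∑ p, g p / θ (u p) * θ (D (u p)) := by
    rw [Finset.sum_congr rfl fun b _ => Finset.mul_sum _ _ _, Finset.sum_comm]
    refine Finset.sum_congr rfl fun p _ => ?_
    rw [hch (u p), Finset.mul_sum]
    refine Finset.sum_congr rfl fun b _ => ?_
    ring
  rw [Finset.sum_congr rfl fun b _ => by rw [e1 b, mul_zero], Finset.sum_const_zero] at e2
  have e3 : ∀ p, g p / θ (u p) * θ (D (u p)) = if p = p0 then g p0 else 0 := by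
    intro p
    rw [hDu p]
    by_cases hp : p = p0
    · rw [if_pos hp, if_pos hp, hp, div_mul_cancel₀ _ hu0]
    · rw [if_neg hp, if_neg hp, map_zero, mul_zero]
  rw [Finset.sum_congr rfl fun p _ => e3 p, Finset.sum_ite_eq' Finset.univ p0,
    if_pos (Finset.mem_univ p0)] at e2
  exact e2.symm

end Pool.Agent.Zilber
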