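import Pool.Agent.LSharp.TSDefs

set_option autoImplicit false

/-! RHO 1: small and integral elements for a real valuation which is trivial on `ℂ`. -/

namespace Pool.Agent.Zilber

open Pool.Agent.LSharp

/-- `w` is zero or has positive value. -/
def Sml {Ω : Type} [Field Ω] (v : Ω → ℝ) (w : Ω) : Prop := w = 0 ∨ 0 < v w

/-- `w` is zero or has value `≥ 0`. -/
def Igl {Ω : Type} [Field Ω] (v : Ω → ℝ) (w : Ω) : Prop := w = 0 ∨ 0 ≤ v w

/-- `c` is the residue of `u` (the same as `Rsd`). -/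
def Rs {Ω : Type} [Field Ω] [Algebra ℂ Ω] (v : Ω → ℝ) (u : Ω) (c : ℂ) : Prop :=
  Sml v (u - algebraMap ℂ Ω c)

section

variable {Ω : Type} [Field Ω] {v : Ω → ℝ}

theorem Sml.igl {w : Ω} (h : Sml v w) : Igl v w := h.imp id le_of_lt

theorem sml_zero : Sml v (0 : Ω) := Or.inl rfl

variable [Algebra ℂ Ω]

theorem sml_add (h : RV ℂ v) {x y : Ω} (hx : Sml v x) (hy : Sml v y) : Sml v (x + y) := by
  by_cases h1 : x + y = 0
  · exact Or.inl h1
  rcases hx with rfl | hx'
  · rwa [zero_add]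
  rcases hy with rfl | hy'
  · rw [add_zero]; exact Or.inr hx'
  by_cases hx0 : x = 0
  · rw [hx0, zero_add]; exact Or.inr hy'
  by_cases hy0 : y = 0
  · rw [hy0, add_zero]; exact Or.inr hx'
  exact Or.inr (lt_of_lt_of_le (lt_min hx' hy') (h.add x y hx0 hy0 h1))

theorem igl_add (h : RV ℂ v) {x y : Ω} (hx : Igl v x) (hy : Igl v y) : Igl v (x + y) := by
  by_cases h1 : x + y = 0
  · exact Or.inl h1
  rcases hx with rfl | hx'
  · rwa [zero_add]
  rcases hy with rfl | hy'
  · rw [add_zero]; exact Or.inr hx'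
  by_cases hx0 : x = 0
  · rw [hx0, zero_add]; exact Or.inr hy'
  by_cases hy0 : y = 0
  · rw [hy0, add_zero]; exact Or.inr hx'
  exact Or.inr ((le_min hx' hy').trans (h.add x y hx0 hy0 h1))

theorem sml_mul (h : RV ℂ v) {x y : Ω} (hx : Sml v x) (hy : Igl v y) : Sml v (x * y) := by
  by_cases hx0 : x = 0
  · rw [hx0, zero_mul]; exact Or.inl rfl
  by_cases hy0 : y = 0
  · rw [hy0, mul_zero]; exact Or.inl rfl
  refine Or.inr ?_
  rw [h.mul x y hx0 hy0]
  have h1 := hx.resolve_left hx0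
  have h2 := hy.resolve_left hy0
  linarith

theorem igl_mul (h : RV ℂ v) {x y : Ω} (hx : Igl v x) (hy : Igl v y) : Igl v (x * y) := by
  by_cases hx0 : x = 0
  · rw [hx0, zero_mul]; exact Or.inl rfl
  by_cases hy0 : y = 0
  · rw [hy0, mul_zero]; exact Or.inl rfl
  refine Or.inr ?_
  rw [h.mul x y hx0 hy0]
  have h1 := hx.resolve_left hx0
  have h2 := hy.resolve_left hy0
  linarith

theorem igl_const (h : RV ℂ v) (c : ℂ) : Igl v (algebraMap ℂ Ω c) := by
  by_cases hc : c = 0
  · rw [hc, map_zero]; exact Or.inl rfl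
  · exact Or.inr (h.triv c hc).ge

theorem not_sml_const (h : RV ℂ v) {c : ℂ} (hc : c ≠ 0) : ¬ Sml v (algebraMap ℂ Ω c) := by
  rintro (h1 | h1)
  · exact hc ((map_eq_zero _).1 h1)
  · rw [h.triv c hc] at h1
    exact lt_irrefl _ h1

theorem sml_neg (h : RV ℂ v) {x : Ω} (hx : Sml v x) : Sml v (-x) := by
  have e : -x = x * algebraMap ℂ Ω (-1) := by rw [map_neg, map_one]; ring
  rw [e]
  exact sml_mul h hx (igl_const h _)

theorem sml_or_of_mul (h : RV ℂ v) {x y : Ω} (hx : Igl v x) (hy : Igl v y)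
    (hxy : Sml v (x * y)) : Sml v x ∨ Sml v y := by
  by_cases hx0 : x = 0
  · exact Or.inl (Or.inl hx0)
  by_cases hy0 : y = 0
  · exact Or.inr (Or.inl hy0)
  have h1 := hx.resolve_left hx0
  have h2 := hy.resolve_left hy0
  have h3 := hxy.resolve_left (mul_ne_zero hx0 hy0)
  rw [h.mul x y hx0 hy0] at h3
  by_cases h4 : 0 < v x
  · exact Or.inl (Or.inr h4)
  · exact Or.inr (Or.inr (by linarith))

theorem igl_pow (h : RV ℂ v) {x : Ω} (hx : Igl v x) (n : ℕ) : Igl v (x ^ n) := by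
  induction n with
  | zero => rw [pow_zero, ← map_one (algebraMap ℂ Ω)]; exact igl_const h 1
  | succ n ih => rw [pow_succ]; exact igl_mul h ih hx

theorem sml_sum (h : RV ℂ v) {κ : Type} (s : Finset κ) (f : κ → Ω)
    (hf : ∀ i ∈ s, Sml v (f i)) : Sml v (∑ i ∈ s, f i) := by
  classical
  induction s using Finset.induction_on with
  | empty => simpa using sml_zero
  | insert a s ha ih =>
    rw [Finset.sum_insert ha]
    exact sml_add h (hf a (Finset.mem_insert_self a s))
      (ih fun i hi => hf i (Finset.mem_insert_of_mem hi))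

end

end Pool.Agent.Zilber
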