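import Pool.Agent.LSharp.TSBas
import Pool.Agent.Zilber.TDefs

set_option autoImplicit false

/-! T: choice of a level `N` of the approximation where the adapted basis is good. -/

namespace Pool.Agent.Zilber

open Filter Topology Pool.Agent.LSharp

/-- Pigeonhole principle for sequences in a finite set. -/
private theorem tc_pigeon {α : Type} {s : Set α} (hs : s.Finite) (f : ℕ → α) (hf : ∀ n, f n ∈ s) :
    ∃ v ∈ s, ∃ φ : ℕ → ℕ, StrictMono φ ∧ ∀ n, f (φ n) = v := by
  have : Finite s := hs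
  obtain ⟨v, hv⟩ := Finite.exists_infinite_fiber (fun n => (⟨f n, hf n⟩ : s))
  have h1 : Set.Infinite {n | f n = v.1} := by
    have h2 : (fun n => (⟨f n, hf n⟩ : s)) ⁻¹' {v} = {n | f n = v.1} := by
      ext n
      simp only [Set.mem_preimage, Set.mem_singleton_iff]
      exact ⟨fun h => congrArg Subtype.val h, fun h => Subtype.ext h⟩
    rw [← h2]
    exact Set.infinite_coe_iff.1 hv
  obtain ⟨φ, h3, h4⟩ := Filter.extraction_of_frequently_atTop
    (Nat.frequently_atTop_iff_infinite.2 h1)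
  exact ⟨v.1, v.2, φ, h3, h4⟩

/-- The limit of `⌊N r⌋ / N`. -/
private theorem tc_floor (r : ℝ) {N : ℕ → ℕ} (hN : Tendsto N atTop atTop) (hpos : ∀ n, 0 < N n) :
    Tendsto (fun n => (⌊(N n : ℝ) * r⌋ : ℝ) / (N n : ℝ)) atTop (𝓝 r) := by
  have hNt : Tendsto (fun n => (N n : ℝ)) atTop atTop := tendsto_natCast_atTop_atTop.comp hN
  have h2 : Tendsto (fun n => r - 1 / (N n : ℝ)) atTop (𝓝 r) := by
    have h3 : Tendsto (fun n => 1 / (N n : ℝ)) atTop (𝓝 0) := by
      have := tendsto_inv_atTop_zero.comp hNt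
      refine this.congr fun n => ?_
      simp only [Function.comp_apply, one_div]
    simpa using tendsto_const_nhds.sub h3
  refine tendsto_of_tendsto_of_tendsto_of_le_of_le h2 tendsto_const_nhds
    (fun n => ?_) (fun n => ?_)
  · have hp : (0 : ℝ) < (N n : ℝ) := by exact_mod_cast hpos n
    change r - 1 / (N n : ℝ) ≤ _
    rw [le_div_iff₀ hp, sub_mul, one_div, inv_mul_cancel₀ hp.ne']
    have := (Int.lt_floor_add_one ((N n : ℝ) * r)).le
    linarith
  · have hp : (0 : ℝ) < (N n : ℝ) := by exact_mod_cast hpos n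
    change _ ≤ r
    rw [div_le_iff₀ hp]
    have := Int.floor_le ((N n : ℝ) * r)
    linarith

/-- The algebraic part: a limit point contradicts the independence of `θ`. -/
private theorem tc_alg {β ι : Type} [Fintype β] [DecidableEq β] [Fintype ι] (S : Set ℝ)
    (rr : β → ι → ℝ) (hrr : ∀ i l, rr i l ∈ S) (θ : β → ℝ)
    (hθ : LinearIndependent (IntermediateField.adjoin ℚ S) θ) (t' : ι → ℝ) (g0 : β → ι)
    (q0 : ι → β → ℚ) (h1 : ∀ i, ∑ l, rr i l * t' l = θ i)
    (h2 : ∀ l, t' l = ∑ b, (q0 l b : ℝ) * t' (g0 b)) :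
    (Matrix.of fun i b => ∑ l, rr i l * (q0 l b : ℝ)).det ≠ 0 := by
  intro hdet
  set F := IntermediateField.adjoin ℚ S with hF
  have hmem : ∀ i b, ∑ l, rr i l * (q0 l b : ℝ) ∈ F := by
    intro i b
    refine sum_mem fun l _ => mul_mem (IntermediateField.subset_adjoin ℚ S (hrr i l)) ?_
    exact F.algebraMap_mem (q0 l b)
  let A : Matrix β β F := Matrix.of fun i b => ⟨∑ l, rr i l * (q0 l b : ℝ), hmem i b⟩
  have hA : A.det = 0 := by
    apply (algebraMap F ℝ).injective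
    rw [map_zero, RingHom.map_det, ← hdet]
    rfl
  obtain ⟨c, hc0, hc⟩ := Matrix.exists_vecMul_eq_zero_iff.2 hA
  apply hc0
  have h3 : ∀ b, ∑ i, (c i : ℝ) * ∑ l, rr i l * (q0 l b : ℝ) = 0 := by
    intro b
    have h4 := congrFun hc b
    have h5 := congrArg (algebraMap F ℝ) h4
    rw [Matrix.vecMul, dotProduct, map_sum] at h5
    simp only [map_mul, Pi.zero_apply, map_zero] at h5
    exact h5
  have h6 : ∑ i, c i • θ i = 0 := by
    have h7 : ∀ i, θ i = ∑ b, (∑ l, rr i l * (q0 l b : ℝ)) * t' (g0 b) := by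
      intro i
      rw [← h1 i]
      calc ∑ l, rr i l * t' l = ∑ l, ∑ b, rr i l * (q0 l b : ℝ) * t' (g0 b) := by
            refine Finset.sum_congr rfl fun l _ => ?_
            conv_lhs => rw [h2 l]
            rw [Finset.mul_sum]
            exact Finset.sum_congr rfl fun b _ => (mul_assoc _ _ _).symm
        _ = ∑ b, (∑ l, rr i l * (q0 l b : ℝ)) * t' (g0 b) := by
            rw [Finset.sum_comm]
            exact Finset.sum_congr rfl fun b _ => (Finset.sum_mul _ _ _).symm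
    calc ∑ i, c i • θ i = ∑ i, ∑ b, (c i : ℝ) * ((∑ l, rr i l * (q0 l b : ℝ)) * t' (g0 b)) := by
          refine Finset.sum_congr rfl fun i _ => ?_
          rw [← Finset.mul_sum, ← h7 i]
          rfl
      _ = ∑ b, (∑ i, (c i : ℝ) * ∑ l, rr i l * (q0 l b : ℝ)) * t' (g0 b) := by
          rw [Finset.sum_comm]
          refine Finset.sum_congr rfl fun b _ => ?_
          rw [Finset.sum_mul]
          exact Finset.sum_congr rfl fun i _ => (mul_assoc _ _ _).symm
      _ = 0 := Finset.sum_eq_zero fun b _ => by rw [h3 b, zero_mul]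
  funext i
  exact Fintype.linearIndependent_iff.1 hθ c h6 i

/-- **Choice of `N`.**

Proof. Suppose not: `det = 0` for all `N ≥ N1`. There are finitely many pairs `(g N, q N)` with the bounds `hq` (`finite_q`,
and finitely many `g`), so one pair `(g0, q0)` occurs for infinitely many `N ≥ N1`
(`Set.Infinite`/`Filter.Frequently`, a strictly increasing sequence `φ`, `Nat.exists_strictMono_subsequence` or
`Filter.extraction_of_frequently_atTop`). The `t (φ n)` are in the compact set `[-ω0, ω0]^ι`, pass to a convergent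
subsequence, limit `t'` (see `tstar` in `LSharp/TSLim.lean` for the same argument and for the limit of the equations,
`⌊N r⌋ / N → r`): `∑ l, rr i l * t' l = θ i` and `t' l = ∑ b, q0 l b * t' (g0 b)`. So
`∑ b, A i b * t' (g0 b) = θ i`, `A i b = ∑ l, rr i l * q0 l b` in the field `F = adjoin ℚ S`. `det A = 0`; the determinant of
`A` as a matrix over `F` is `0` too, so there is a vector `c ≠ 0` over `F` with `∑ i, c i * A i b = 0` for all `b`
(`Matrix.exists_vecMul_eq_zero_iff`), and `∑ i, c i * θ i = 0`, against `hθ`. -/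
theorem choose_N {β ι : Type} [Fintype β] [DecidableEq β] [Fintype ι] (S : Set ℝ)
    (rr : β → ι → ℝ) (hrr : ∀ i l, rr i l ∈ S) (θ : β → ℝ)
    (hθ : LinearIndependent (IntermediateField.adjoin ℚ S) θ) (ω0 : ℝ) (N1 : ℕ)
    (t : ℕ → ι → ℝ) (ht1 : ∀ N, N1 ≤ N → ∀ l, |t N l| ≤ ω0)
    (ht2 : ∀ N, N1 ≤ N → ∀ i, ∑ l, (⌊(N : ℝ) * rr i l⌋ : ℝ) * t N l = N * θ i)
    (g : ℕ → β → ι) (q : ℕ → ι → β → ℚ) (D' : ℕ)
    (hq : ∀ N, N1 ≤ N → ∀ l b, |(q N l b).num| ≤ D' ∧ (q N l b).den ≤ D')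
    (hl : ∀ N, N1 ≤ N → ∀ l, t N l = ∑ b, (q N l b : ℝ) * t N (g N b)) :
    ∃ N, N1 ≤ N ∧ (Matrix.of fun i b => ∑ l, rr i l * (q N l b : ℝ)).det ≠ 0 := by
  obtain ⟨⟨g0, q0⟩, -, ψ, hψ, hψ'⟩ := tc_pigeon
    (s := (Set.univ : Set (β → ι)) ×ˢ {q : ι → β → ℚ | ∀ l b, |(q l b).num| ≤ D' ∧
      (q l b).den ≤ D'}) (Set.Finite.prod (Set.toFinite _) (finite_q D'))
    (fun n => (g (n + N1 + 1), q (n + N1 + 1)))
    (fun n => ⟨Set.mem_univ _, hq (n + N1 + 1) (by omega)⟩)
  have hcpt : IsCompact (Set.Icc (fun _ : ι => -ω0) (fun _ : ι => ω0)) := isCompact_Icc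
  obtain ⟨t', -, χ, hχ, hlim⟩ := hcpt.tendsto_subseq (x := fun n => t (ψ n + N1 + 1)) (fun n =>
    ⟨fun l => (abs_le.1 (ht1 (ψ n + N1 + 1) (by omega) l)).1,
      fun l => (abs_le.1 (ht1 (ψ n + N1 + 1) (by omega) l)).2⟩)
  set N : ℕ → ℕ := fun n => ψ (χ n) + N1 + 1 with hN
  have hNpos : ∀ n, 0 < N n := fun n => Nat.succ_pos _
  have hN1 : ∀ n, N1 ≤ N n := fun n => by simp only [hN]; omega
  have hNt : Tendsto N atTop atTop :=
    tendsto_atTop_mono (fun n => by simp only [hN, id_eq]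
                                    have := (hψ.comp hχ).id_le n
                                    simp only [id_eq, Function.comp_apply] at this
                                    omega) tendsto_id
  have hlim' : ∀ l, Tendsto (fun n => t (N n) l) atTop (𝓝 (t' l)) := fun l =>
    (tendsto_pi_nhds.1 hlim) l
  have hg0 : ∀ n, g (N n) = g0 := fun n => (Prod.mk.inj (hψ' (χ n))).1
  have hq0 : ∀ n, q (N n) = q0 := fun n => (Prod.mk.inj (hψ' (χ n))).2
  have h1 : ∀ i, ∑ l, rr i l * t' l = θ i := by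
    intro i
    have h4 : Tendsto (fun n : ℕ => ∑ l, (⌊(N n : ℝ) * rr i l⌋ : ℝ) / (N n : ℝ) * t (N n) l)
        atTop (𝓝 (∑ l, rr i l * t' l)) :=
      tendsto_finsetSum _ fun l _ => (tc_floor (rr i l) hNt hNpos).mul (hlim' l)
    have h5 : (fun n : ℕ => ∑ l, (⌊(N n : ℝ) * rr i l⌋ : ℝ) / (N n : ℝ) * t (N n) l) =
        fun _ => θ i := by
      funext n
      have hpos : (0 : ℝ) < (N n : ℝ) := by exact_mod_cast hNpos n
      have h6 := ht2 (N n) (hN1 n) i
      have h7 : ∑ l, (⌊(N n : ℝ) * rr i l⌋ : ℝ) / (N n : ℝ) * t (N n) l =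
          (∑ l, (⌊(N n : ℝ) * rr i l⌋ : ℝ) * t (N n) l) / (N n : ℝ) := by
        rw [Finset.sum_div]
        exact Finset.sum_congr rfl fun l _ => div_mul_eq_mul_div _ _ _
      rw [h7, h6, mul_div_cancel_left₀ _ hpos.ne']
    rw [h5] at h4
    exact tendsto_nhds_unique h4 tendsto_const_nhds
  have h2 : ∀ l, t' l = ∑ b, (q0 l b : ℝ) * t' (g0 b) := by
    intro l
    have h4 : Tendsto (fun n : ℕ => ∑ b, (q0 l b : ℝ) * t (N n) (g0 b)) atTop
        (𝓝 (∑ b, (q0 l b : ℝ) * t' (g0 b))) :=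
      tendsto_finsetSum _ fun b _ => tendsto_const_nhds.mul (hlim' (g0 b))
    refine tendsto_nhds_unique (hlim' l) (h4.congr fun n => ?_)
    rw [hl (N n) (hN1 n) l, hg0 n, hq0 n]
  refine ⟨N 0, hN1 0, ?_⟩
  rw [hq0 0]
  exact tc_alg S rr hrr θ hθ t' g0 q0 h1 h2

end Pool.Agent.Zilber
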