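import Pool.Agent.LSharp.TSConv
import Pool.Agent.Zilber.TDefs

set_option autoImplicit false

/-! T: a nonzero convergent power series does not vanish at some small point. -/

namespace Pool.Agent.Zilber

open MvPolynomial Pool.Agent.LSharp

section

variable {K β : Type} [Field K] [Fintype β]

/-- Proof. By definition (`coeff_map`). -/
theorem cv_map (s : K →+* ℂ) (ρ : ℝ) (f : MvPowerSeries β K) :
    Cv (RingHom.id ℂ) ρ (MvPowerSeries.map s f) ↔ Cv s ρ f := by
  unfold Cv
  simp only [MvPowerSeries.coeff_map, RingHom.id_apply]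

/-- Proof. By definition (`coeff_map`). -/
theorem evf_map (s : K →+* ℂ) (z : β → ℂ) (f : MvPowerSeries β K) :
    evf (RingHom.id ℂ) z (MvPowerSeries.map s f) = evf s z f := by
  unfold evf
  simp only [MvPowerSeries.coeff_map, RingHom.id_apply]

/-- Proof. Compare coefficients (`coeff_pderiv`). -/
theorem pderiv_map (s : K →+* ℂ) (b : β) (f : MvPowerSeries β K) :
    MvPowerSeries.pderiv ℂ b (MvPowerSeries.map s f) =
      MvPowerSeries.map s (MvPowerSeries.pderiv K b f) := by
  ext n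
  rw [MvPowerSeries.coeff_pderiv, MvPowerSeries.coeff_map, MvPowerSeries.coeff_map,
    MvPowerSeries.coeff_pderiv, map_mul, map_add, map_natCast, map_one]

private theorem tn_prod (t : ℂ) (u : β → ℂ) (i : β →₀ ℕ) :
    ∏ b, (t * u b) ^ i b = t ^ i.degree * ∏ b, u b ^ i b := by
  rw [Finsupp.degree_eq_sum, ← Finset.prod_pow_eq_pow_sum, ← Finset.prod_mul_distrib]
  exact Finset.prod_congr rfl fun b _ => mul_pow _ _ _

private theorem tn_bound {U : ℝ} {u : β → ℂ} (hu : ‖u‖ ≤ U) (i : β →₀ ℕ) :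
    ‖∏ b, u b ^ i b‖ ≤ U ^ i.degree := by
  rw [Finsupp.degree_eq_sum, ← Finset.prod_pow_eq_pow_sum, norm_prod]
  refine Finset.prod_le_prod (fun _ _ => norm_nonneg _) fun b _ => ?_
  rw [norm_pow]
  exact pow_le_pow_left₀ (norm_nonneg _) ((norm_le_pi_norm u b).trans hu) _

private theorem tn_poly {f : MvPowerSeries β ℂ} (h0 : f ≠ 0) :
    ∃ (n : ℕ) (S : Finset (β →₀ ℕ)) (u : β → ℂ), (∀ i, i ∈ S ↔ i.degree = n) ∧
      (∀ i : β →₀ ℕ, i.degree < n → MvPowerSeries.coeff i f = 0) ∧
      ∑ i ∈ S, MvPowerSeries.coeff i f * ∏ b, u b ^ i b ≠ 0 := by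
  classical
  obtain ⟨i1, hi1⟩ : ∃ i, MvPowerSeries.coeff i f ≠ 0 := by
    by_contra hcon
    push Not at hcon
    exact h0 (MvPowerSeries.ext fun i => by rw [hcon i, map_zero])
  have hex : ∃ n : ℕ, ∃ i : β →₀ ℕ, i.degree = n ∧ MvPowerSeries.coeff i f ≠ 0 :=
    ⟨_, i1, rfl, hi1⟩
  obtain ⟨i0, hi0, hc0⟩ := Nat.find_spec hex
  set n := Nat.find hex with hn
  have hlt : ∀ i : β →₀ ℕ, i.degree < n → MvPowerSeries.coeff i f = 0 := by
    intro i hi
    by_contra hcon
    exact Nat.find_min hex hi ⟨i, rfl, hcon⟩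
  set S : Finset (β →₀ ℕ) := Finset.univ.finsuppAntidiag n with hS
  have hmem : ∀ i : β →₀ ℕ, i ∈ S ↔ i.degree = n := by
    intro i
    rw [hS, Finset.mem_finsuppAntidiag, Finsupp.degree_eq_sum]
    exact ⟨fun h => h.1, fun h => ⟨h, Finset.subset_univ _⟩⟩
  set P : MvPolynomial β ℂ := ∑ i ∈ S, monomial i (MvPowerSeries.coeff i f) with hP
  have hP0 : P ≠ 0 := by
    intro h
    have h1 := congrArg (MvPolynomial.coeff i0) h
    rw [hP, coeff_sum, Finset.sum_eq_single i0, coeff_monomial, if_pos rfl,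
      MvPolynomial.coeff_zero] at h1
    · exact hc0 h1
    · intro j _ hj
      rw [coeff_monomial, if_neg hj]
    · intro h2
      exact absurd ((hmem i0).2 hi0) h2
  obtain ⟨u, hu⟩ : ∃ u : β → ℂ, eval u P ≠ 0 := by
    by_contra hcon
    push Not at hcon
    exact hP0 (MvPolynomial.funext fun u => by rw [hcon u, map_zero])
  refine ⟨n, S, u, hmem, hlt, ?_⟩
  rw [hP, map_sum] at hu
  refine fun h => hu (Eq.trans (Finset.sum_congr rfl fun i _ => ?_) h)
  rw [eval_monomial, Finsupp.prod_fintype]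
  intro b
  exact pow_zero _

/-- **A nonzero convergent power series does not vanish at some small point.**

Proof. Let `n` be the smallest degree `|i|` with `coeff i f ≠ 0` and
`P = ∑_(|i| = n) coeff i f X^i` (a finite sum: a
homogeneous polynomial, not zero), `u : β → ℂ` with `P(u) ≠ 0` (`MvPolynomial.funext`: `ℂ` is
infinite), WLOG
`‖u‖ ≤ 1` (divide by a positive number, homogeneous). For `0 < t ≤ ρ / 2`:
`evf (t u) f = t^n P(u) + ∑'_(|i| > n) ..`, and the last sum is at most `t^(n + 1) * C` with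
`C = ∑' i, ‖coeff i f‖ ρ^|i| / ρ^(n + 1)` (as `t^|i| ≤ (t / ρ)^(n + 1) ρ^|i|`). So it is not zero
for small `t > 0`. -/
theorem evf_ne_zero {ρ : ℝ} (hρ : 0 < ρ) {f : MvPowerSeries β ℂ} (hf : Cv (RingHom.id ℂ) ρ f)
    (h0 : f ≠ 0) (ε : ℝ) (hε : 0 < ε) : ∃ z : β → ℂ, ‖z‖ < ε ∧ evf (RingHom.id ℂ) z f ≠ 0 := by
  classical
  obtain ⟨n, S, u, hS, hlt, hu⟩ := tn_poly h0
  set p : ℂ := ∑ i ∈ S, MvPowerSeries.coeff i f * ∏ b, u b ^ i b with hp
  set U : ℝ := max 1 ‖u‖ with hU
  have hU1 : 1 ≤ U := le_max_left _ _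
  have hU0 : 0 < U := lt_of_lt_of_le one_pos hU1
  set M : ℝ := ∑' i : β →₀ ℕ, ‖MvPowerSeries.coeff i f‖ * ρ ^ i.degree with hM
  have hsum : Summable fun i : β →₀ ℕ => ‖MvPowerSeries.coeff i f‖ * ρ ^ i.degree := hf
  have hM0 : 0 ≤ M := tsum_nonneg fun i => by positivity
  have hp0 : 0 < ‖p‖ := norm_pos_iff.2 hu
  set C : ℝ := (U / ρ) ^ (n + 1) * M with hC
  have hC0 : 0 ≤ C := by positivity
  -- the parameter
  obtain ⟨t, ht0, ht1, ht2, ht3⟩ : ∃ t : ℝ, 0 < t ∧ t * U < ε ∧ t * U ≤ ρ ∧ t * C < ‖p‖ := by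
    refine ⟨min (min (ε / (2 * U)) (ρ / U)) (‖p‖ / (2 * (C + 1))), by positivity, ?_, ?_, ?_⟩
    · have h1 : min (min (ε / (2 * U)) (ρ / U)) (‖p‖ / (2 * (C + 1))) ≤ ε / (2 * U) :=
        (min_le_left _ _).trans (min_le_left _ _)
      calc _ ≤ ε / (2 * U) * U := mul_le_mul_of_nonneg_right h1 hU0.le
        _ = ε / 2 := by field_simp
        _ < ε := by linarith
    · have h1 : min (min (ε / (2 * U)) (ρ / U)) (‖p‖ / (2 * (C + 1))) ≤ ρ / U :=
        (min_le_left _ _).trans (min_le_right _ _)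
      calc _ ≤ ρ / U * U := mul_le_mul_of_nonneg_right h1 hU0.le
        _ = ρ := by field_simp
    · have h1 : min (min (ε / (2 * U)) (ρ / U)) (‖p‖ / (2 * (C + 1))) ≤ ‖p‖ / (2 * (C + 1)) :=
        min_le_right _ _
      calc _ ≤ ‖p‖ / (2 * (C + 1)) * C := mul_le_mul_of_nonneg_right h1 hC0
        _ = ‖p‖ * (C / (2 * (C + 1))) := by ring
        _ < ‖p‖ * 1 := by
          refine mul_lt_mul_of_pos_left ?_ hp0
          rw [div_lt_one (by positivity)]
          linarith
        _ = ‖p‖ := mul_one _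
  refine ⟨fun b => (t : ℂ) * u b, ?_, ?_⟩
  · rw [pi_norm_lt_iff hε]
    intro b
    rw [norm_mul, Complex.norm_real, Real.norm_of_nonneg ht0.le]
    refine lt_of_le_of_lt (mul_le_mul_of_nonneg_left ?_ ht0.le) ht1
    exact (norm_le_pi_norm u b).trans (le_max_right _ _)
  · -- the estimate
    set c : (β →₀ ℕ) → ℂ := fun i => MvPowerSeries.coeff i f * ∏ b, ((t : ℂ) * u b) ^ i b with hc
    set d : (β →₀ ℕ) → ℂ := fun i => if i ∈ S then c i else 0 with hd
    have hcn : ∀ i, ‖c i‖ ≤ ‖MvPowerSeries.coeff i f‖ * (t * U) ^ i.degree := by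
      intro i
      rw [hc]
      simp only
      rw [norm_mul]
      refine mul_le_mul_of_nonneg_left ?_ (norm_nonneg _)
      refine tn_bound ?_ i
      rw [pi_norm_le_iff_of_nonneg (by positivity)]
      intro b
      rw [norm_mul, Complex.norm_real, Real.norm_of_nonneg ht0.le]
      exact mul_le_mul_of_nonneg_left ((norm_le_pi_norm u b).trans (le_max_right _ _)) ht0.le
    have hcs : Summable c := by
      refine Summable.of_norm_bounded hsum fun i => (hcn i).trans ?_
      exact mul_le_mul_of_nonneg_left (pow_le_pow_left₀ (by positivity) ht2 _) (norm_nonneg _)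
    have hdH : HasSum d (∑ i ∈ S, d i) :=
      hasSum_sum_of_ne_finset_zero fun i hi => if_neg hi
    have hdt : ∑' i, d i = (t : ℂ) ^ n * p := by
      rw [hdH.tsum_eq, hp, Finset.mul_sum]
      refine Finset.sum_congr rfl fun i hi => ?_
      rw [hd]
      simp only
      rw [if_pos hi, hc]
      simp only
      rw [tn_prod, (hS i).1 hi]
      ring
    have hq : t * U / ρ ≤ 1 := (div_le_one hρ).2 ht2
    have hrest : ‖∑' i, (c i - d i)‖ ≤ (t * U / ρ) ^ (n + 1) * M := by
      refine tsum_of_norm_bounded (hsum.hasSum.mul_left _) fun i => ?_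
      by_cases hi : i ∈ S
      · have : c i - d i = 0 := by
          rw [hd]
          simp only
          rw [if_pos hi, sub_self]
        rw [this, norm_zero]
        positivity
      · have h1 : c i - d i = c i := by
          rw [hd]
          simp only
          rw [if_neg hi, sub_zero]
        rw [h1]
        rcases lt_trichotomy i.degree n with h2 | h2 | h2
        · have : c i = 0 := by
            rw [hc]
            simp only
            rw [hlt i h2, zero_mul]
          rw [this, norm_zero]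
          positivity
        · exact absurd ((hS i).2 h2) hi
        · refine (hcn i).trans ?_
          have h3 : (t * U) ^ i.degree = (t * U / ρ) ^ i.degree * ρ ^ i.degree := by
            rw [← mul_pow, div_mul_cancel₀ _ hρ.ne']
          rw [h3]
          have h4 : (t * U / ρ) ^ i.degree ≤ (t * U / ρ) ^ (n + 1) :=
            pow_le_pow_of_le_one (by positivity) hq h2
          calc ‖MvPowerSeries.coeff i f‖ * ((t * U / ρ) ^ i.degree * ρ ^ i.degree)
              = (t * U / ρ) ^ i.degree * (‖MvPowerSeries.coeff i f‖ * ρ ^ i.degree) := by ring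
            _ ≤ (t * U / ρ) ^ (n + 1) * (‖MvPowerSeries.coeff i f‖ * ρ ^ i.degree) :=
              mul_le_mul_of_nonneg_right h4 (by positivity)
    have hev : evf (RingHom.id ℂ) (fun b => (t : ℂ) * u b) f =
        (t : ℂ) ^ n * p + ∑' i, (c i - d i) := by
      rw [← hdt, ← Summable.tsum_add hdH.summable (hcs.sub hdH.summable)]
      unfold evf
      refine tsum_congr fun i => ?_
      rw [hc]
      simp only [RingHom.id_apply]
      ring
    intro hzero
    rw [hev] at hzero
    have h1 : (t : ℂ) ^ n * p = -∑' i, (c i - d i) := eq_neg_of_add_eq_zero_left hzero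
    have h2 := congrArg norm h1
    rw [norm_neg, norm_mul, norm_pow, Complex.norm_real, Real.norm_of_nonneg ht0.le] at h2
    have h3 : (t * U / ρ) ^ (n + 1) * M = t ^ n * (t * C) := by
      rw [hC, mul_div_assoc, mul_pow]
      ring
    rw [h3] at hrest
    rw [← h2] at hrest
    have h4 := le_of_mul_le_mul_left hrest (pow_pos ht0 n)
    linarith

end

end Pool.Agent.Zilber
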