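import Pool.Agent.LSharp.TSConv
import Pool.Agent.Zilber.TDefs

set_option autoImplicit false

/-! T: the branch at small points. ADAPTATION of the finished file `LSharp/TSSpec.lean`: there the units are
`un t (k, i)`, `i < 3`, here the coordinates are arbitrary power series `x l` (so everything is shorter: no cases
`i = 0, 1, 2`; `g0, g1, g2` become the field `g` of `LX`). -/

namespace Pool.Agent.Zilber

open MvPolynomial Pool.Agent.CITLines Pool.Agent.Srf5 Pool.Agent.LSharp

/-- The values of the coordinates at `z`. -/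
noncomputable def xz {K β ι : Type} [Field K] [Algebra K ℂ] [Fintype β]
    (x : ι → MvPowerSeries β K) (z : β → ℂ) (l : ι) : ℂ :=
  evf (algebraMap K ℂ) z (x l)

section

variable {K ι β M : Type} [Field K] [Fintype ι] [Fintype β] {x : ι → MvPowerSeries β K}
  {bs : β → ι} {cl : ι → M} {D : ℕ}

private theorem tx_const_ne (h : LX K x bs cl D) (l : ι) :
    MvPowerSeries.constantCoeff (x l) ≠ 0 := h.g l

private theorem tx_shift {A : Type} [CommRing A] [Algebra K A] {z : β → A} (c : β → K)
    (hz : AlgebraicIndependent K z) :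
    AlgebraicIndependent K (fun b => algebraMap K A (c b) + z b) := by
  rw [algebraicIndependent_iff]
  intro p hp
  have h1 : aeval z (aeval (fun b => (C (c b) + X b : MvPolynomial β K)) p) = 0 := by
    rw [comp_aeval_apply, ← hp]
    congr 2
    funext b
    rw [map_add, aeval_C, aeval_X]
  have h2 : aeval (fun b => (C (c b) + X b : MvPolynomial β K)) p = 0 :=
    (algebraicIndependent_iff.1 hz) _ h1
  have h3 : aeval (fun b => (X b - C (c b) : MvPolynomial β K))
      (aeval (fun b => (C (c b) + X b : MvPolynomial β K)) p) = p := by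
    rw [comp_aeval_apply]
    have h4 : (fun b => (aeval fun b => (X b - C (c b) : MvPolynomial β K))
        (C (c b) + X b : MvPolynomial β K)) = X := by
      funext b
      rw [map_add, aeval_X, aeval_C]
      exact add_sub_cancel _ _
    rw [h4, aeval_X_left_apply]
  rw [← h3, h2, map_zero]

/-- `TSSpec.wu_ne`. -/
theorem wx_ne (h : LX K x bs cl D) (l : ι) : wx x l ≠ 0 := by
  intro h0
  have h1 : x l = 0 := by
    refine IsFractionRing.injective (MvPowerSeries β K) (FractionRing (MvPowerSeries β K)) ?_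
    rw [map_zero]
    exact h0
  exact tx_const_ne h l (by rw [h1, map_zero])

theorem gen_ne (h : LX K x bs cl D) (l : ι) : gen x l ≠ 0 := fun h0 =>
  wx_ne h l (congrArg Subtype.val h0)

/-- `TSSpec.wF_top`. -/
theorem gen_top : IntermediateField.adjoin K (Set.range (gen x)) = ⊤ := by
  rw [eq_top_iff]
  intro y _
  have h1 : (IntermediateField.adjoin K (Set.range (gen x))).map
      (IntermediateField.val (IntermediateField.adjoin K (Set.range fun i =>
        algebraMap (MvPowerSeries β K) (FractionRing (MvPowerSeries β K)) (x i)))) =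
      IntermediateField.adjoin K (Set.range fun i =>
        algebraMap (MvPowerSeries β K) (FractionRing (MvPowerSeries β K)) (x i)) := by
    rw [IntermediateField.adjoin_map, ← Set.range_comp]
    rfl
  have h2 : (y : FractionRing (MvPowerSeries β K)) ∈
      (IntermediateField.adjoin K (Set.range (gen x))).map
      (IntermediateField.val (IntermediateField.adjoin K (Set.range fun i =>
        algebraMap (MvPowerSeries β K) (FractionRing (MvPowerSeries β K)) (x i)))) := by
    rw [h1]
    exact y.2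
  obtain ⟨z, hz, hzy⟩ := h2
  have h3 : z = y := Subtype.ext hzy
  rw [← h3]
  exact hz

/-- `TSSpec.kr_wF`. -/
theorem kr_gen : kr K (gen x) = kr K (wx x) := by
  ext p
  rw [mem_kr, mem_kr]
  have h1 : aeval (wx x) p =
      IntermediateField.val (IntermediateField.adjoin K (Set.range fun i =>
        algebraMap (MvPowerSeries β K) (FractionRing (MvPowerSeries β K)) (x i)))
        (aeval (gen x) p) := by
    rw [comp_aeval_apply]
    rfl
  rw [h1]
  constructor
  · intro h2
    rw [h2, map_zero]
  · intro h2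
    exact Subtype.ext h2

/-- The variables are algebraically independent (`TSSpec.ts_indep`, private there). -/
theorem bs_indep (h : LX K x bs cl D) : AlgebraicIndependent K (fun b => wx x (bs b)) := by
  have hX : AlgebraicIndependent K (fun b : β =>
      algebraMap (MvPowerSeries β K) (FractionRing (MvPowerSeries β K))
        (MvPowerSeries.X b)) := by
    have h1 := MvPolynomial.algebraicIndependent_X β K
    have hinj : Function.Injective
        (MvPolynomial.coeToMvPowerSeries.algHom (R := K) (σ := β) K) := by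
      intro p q hpq
      rw [MvPolynomial.coeToMvPowerSeries.algHom_apply,
        MvPolynomial.coeToMvPowerSeries.algHom_apply, Algebra.algebraMap_self,
        MvPowerSeries.map_id] at hpq
      exact MvPolynomial.coe_injective β K hpq
    have h2 := h1.map' hinj
    have hinj2 : Function.Injective
        (IsScalarTower.toAlgHom K (MvPowerSeries β K) (FractionRing (MvPowerSeries β K))) :=
      IsFractionRing.injective (MvPowerSeries β K) (FractionRing (MvPowerSeries β K))
    have h3 := h2.map' hinj2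
    have h4 : (fun b : β => algebraMap (MvPowerSeries β K)
        (FractionRing (MvPowerSeries β K)) (MvPowerSeries.X b)) =
        (IsScalarTower.toAlgHom K (MvPowerSeries β K) (FractionRing (MvPowerSeries β K))) ∘
          ((MvPolynomial.coeToMvPowerSeries.algHom (R := K) (σ := β) K) ∘ X) := by
      funext b
      rw [Function.comp_apply, Function.comp_apply,
        MvPolynomial.coeToMvPowerSeries.algHom_apply, Algebra.algebraMap_self,
        MvPowerSeries.map_id, MvPolynomial.coe_X]
      rfl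
    rw [h4]
    exact h3
  have h5 := tx_shift (fun b => MvPowerSeries.constantCoeff (x (bs b))) hX
  have h6 : (fun b => wx x (bs b)) = fun b =>
      algebraMap K (FractionRing (MvPowerSeries β K))
        (MvPowerSeries.constantCoeff (x (bs b))) +
      algebraMap (MvPowerSeries β K) (FractionRing (MvPowerSeries β K))
        (MvPowerSeries.X b) := by
    funext b
    have h7 : wx x (bs b) = algebraMap (MvPowerSeries β K)
        (FractionRing (MvPowerSeries β K)) (x (bs b)) := rfl
    rw [h7]
    refine (congrArg (algebraMap (MvPowerSeries β K)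
      (FractionRing (MvPowerSeries β K))) (h.h1 b)).trans ?_
    rw [map_add, MvPowerSeries.c_eq_algebraMap, ← IsScalarTower.algebraMap_apply]
  rw [h6]
  exact h5

/-- `TSSpec.dm_wu`. -/
theorem dm_wx (h : LX K x bs cl D) : dm (kr K (wx x)) = Fintype.card β := by
  have hind := bs_indep h
  have h1 : rk K (Set.range (wx x)) = (Fintype.card β : ℕ∞) := by
    rw [← rk_range_of_indep _ hind]
    refine le_antisymm ?_ ?_
    · refine rk_le_of_algebraic ?_
      rintro _ ⟨k, rfl⟩
      by_contra hcon
      have h2 := (hind.option_iff_transcendental (wx x k)).2 hcon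
      obtain ⟨p, hp0, -, -, hp⟩ := h.h2 k
      refine hp0 ((algebraicIndependent_iff.1 h2) p ?_)
      have h3 : aeval (fun o : Option β => o.elim (wx x k) (fun b => wx x (bs b))) p =
          (IsScalarTower.toAlgHom K (MvPowerSeries β K) (FractionRing (MvPowerSeries β K)))
            (aeval (fun o : Option β => o.elim (x k) (fun b => x (bs b))) p) := by
        rw [comp_aeval_apply]
        congr 2
        funext o
        cases o with
        | none => rfl
        | some b => rfl
      rw [h3, hp, map_zero]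
    · refine rk_mono ?_
      rintro _ ⟨b, rfl⟩
      exact ⟨bs b, rfl⟩
  have h2 := dm_kr (k := K) (wx x)
  rw [h1] at h2
  exact_mod_cast h2

variable [Algebra K ℂ]

/-- `TSSpec.spec_small`. -/
theorem spec_smallx (h : LX K x bs cl D) : ∃ ρ : ℝ, 0 < ρ ∧
    (∀ l, Cv (algebraMap K ℂ) ρ (x l)) ∧ ∀ z : β → ℂ, (∀ b, ‖z b‖ ≤ ρ) →
      (∀ l, xz x z l ≠ 0) ∧ kr K (wx x) ≤ kr K (xz x z) := by
  classical
  obtain ⟨C0, hC0⟩ := h.h3 (algebraMap K ℂ)
  obtain ⟨ρ0, hρ0, hcv⟩ := cv_of_growth (β := β) (algebraMap K ℂ) C0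
  have hct : ∀ k, Cv (algebraMap K ℂ) ρ0 (x k) := fun k => hcv _ (hC0 k)
  have hcu : ∀ l, Cv (algebraMap K ℂ) ρ0 (x l) := hct
  -- the values near the origin
  have hval : ∀ (f : MvPowerSeries β K), Cv (algebraMap K ℂ) ρ0 f → ∀ ε : ℝ, 0 ≤ ε → ε ≤ 1 →
      ∀ z : β → ℂ, (∀ b, ‖z b‖ ≤ ε * ρ0) →
      ‖evf (algebraMap K ℂ) z f - algebraMap K ℂ (MvPowerSeries.constantCoeff f)‖ ≤
        ε * ∑' i : β →₀ ℕ, ‖algebraMap K ℂ (MvPowerSeries.coeff i f)‖ * ρ0 ^ i.degree := by
    intro f hf ε hε0 hε1 z hz
    have hz0 : ∀ b, ‖z b‖ ≤ ρ0 := fun b => (hz b).trans (by nlinarith)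
    have hs1 := evf_summable (algebraMap K ℂ) hf hz0
    have hs2 : Summable fun i : β →₀ ℕ =>
        algebraMap K ℂ (MvPowerSeries.coeff i f) * ∏ b, z b ^ i b := hs1.of_norm
    have hbd : ∀ i : β →₀ ℕ,
        ‖(if i = 0 then 0 else algebraMap K ℂ (MvPowerSeries.coeff i f) * ∏ b, z b ^ i b)‖ ≤
        ε * (‖algebraMap K ℂ (MvPowerSeries.coeff i f)‖ * ρ0 ^ i.degree) := by
      intro i
      by_cases hi : i = 0
      · rw [if_pos hi, norm_zero]
        positivity
      · rw [if_neg hi, norm_mul]
        have h1 : ‖∏ b, z b ^ i b‖ ≤ (ε * ρ0) ^ i.degree := by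
          rw [norm_prod, Finsupp.degree_eq_sum, ← Finset.prod_pow_eq_pow_sum]
          refine Finset.prod_le_prod (fun b _ => norm_nonneg _) (fun b _ => ?_)
          rw [norm_pow]
          exact pow_le_pow_left₀ (norm_nonneg _) (hz b) _
        have h2 : (ε * ρ0) ^ i.degree ≤ ε * ρ0 ^ i.degree := by
          rw [mul_pow]
          refine mul_le_mul_of_nonneg_right ?_ (by positivity)
          have h3 : i.degree ≠ 0 := by
            rw [Ne, Finsupp.degree_eq_zero_iff]
            exact hi
          exact pow_le_of_le_one hε0 hε1 h3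
        calc ‖algebraMap K ℂ (MvPowerSeries.coeff i f)‖ * ‖∏ b, z b ^ i b‖
            ≤ ‖algebraMap K ℂ (MvPowerSeries.coeff i f)‖ * (ε * ρ0 ^ i.degree) :=
              mul_le_mul_of_nonneg_left (h1.trans h2) (norm_nonneg _)
          _ = ε * (‖algebraMap K ℂ (MvPowerSeries.coeff i f)‖ * ρ0 ^ i.degree) := by ring
    have hsum : Summable fun i : β →₀ ℕ =>
        ε * (‖algebraMap K ℂ (MvPowerSeries.coeff i f)‖ * ρ0 ^ i.degree) :=
      Summable.mul_left ε hf
    have h4 : evf (algebraMap K ℂ) z f - algebraMap K ℂ (MvPowerSeries.constantCoeff f) =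
        ∑' i : β →₀ ℕ, (if i = 0 then 0 else
          algebraMap K ℂ (MvPowerSeries.coeff i f) * ∏ b, z b ^ i b) := by
      unfold evf
      rw [hs2.tsum_eq_add_tsum_ite 0]
      have h5 : algebraMap K ℂ (MvPowerSeries.coeff (0 : β →₀ ℕ) f) *
          ∏ b, z b ^ (0 : β →₀ ℕ) b =
          algebraMap K ℂ (MvPowerSeries.constantCoeff f) := by
        rw [MvPowerSeries.coeff_zero_eq_constantCoeff_apply]
        simp
      rw [h5, add_sub_cancel_left]
    rw [h4, ← tsum_mul_left]
    exact tsum_of_norm_bounded hsum.hasSum hbd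
  obtain ⟨ε, hε1, hε2⟩ : ∃ ε : ℝ, (0 < ε ∧ ε < 1) ∧ ∀ l : ι,
      ε * ∑' i : β →₀ ℕ, ‖algebraMap K ℂ (MvPowerSeries.coeff i (x l))‖ * ρ0 ^ i.degree <
        ‖algebraMap K ℂ (MvPowerSeries.constantCoeff (x l))‖ := by
    have h1 : ∀ᶠ ε in nhdsWithin (0 : ℝ) (Set.Ioi 0), 0 < ε ∧ ε < 1 := by
      filter_upwards [Ioo_mem_nhdsGT (zero_lt_one' ℝ)] with ε hε
      exact ⟨hε.1, hε.2⟩
    have h2 : ∀ᶠ ε in nhdsWithin (0 : ℝ) (Set.Ioi 0), ∀ l : ι,
        ε * ∑' i : β →₀ ℕ, ‖algebraMap K ℂ (MvPowerSeries.coeff i (x l))‖ * ρ0 ^ i.degree <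
          ‖algebraMap K ℂ (MvPowerSeries.constantCoeff (x l))‖ := by
      rw [Filter.eventually_all]
      intro l
      have h3 : 0 < ‖algebraMap K ℂ (MvPowerSeries.constantCoeff (x l))‖ := by
        rw [norm_pos_iff]
        intro h0
        exact tx_const_ne h l ((map_eq_zero (algebraMap K ℂ)).1 h0)
      have h4 : Filter.Tendsto (fun ε : ℝ => ε *
          ∑' i : β →₀ ℕ, ‖algebraMap K ℂ (MvPowerSeries.coeff i (x l))‖ * ρ0 ^ i.degree)
          (nhdsWithin (0 : ℝ) (Set.Ioi 0)) (nhds 0) := by
        have h5 : Filter.Tendsto (fun ε : ℝ => ε *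
            ∑' i : β →₀ ℕ, ‖algebraMap K ℂ (MvPowerSeries.coeff i (x l))‖ *
              ρ0 ^ i.degree) (nhds 0) (nhds (0 *
            ∑' i : β →₀ ℕ, ‖algebraMap K ℂ (MvPowerSeries.coeff i (x l))‖ *
              ρ0 ^ i.degree)) := Filter.tendsto_id.mul_const _
        rw [zero_mul] at h5
        exact h5.mono_left nhdsWithin_le_nhds
      exact h4.eventually_lt_const h3
    exact (h1.and h2).exists
  have hερ : ε * ρ0 ≤ ρ0 := by nlinarith [hε1.1, hε1.2]
  refine ⟨ε * ρ0, mul_pos hε1.1 hρ0, fun l => cv_mono _ (mul_pos hε1.1 hρ0).le hερ (hcu l),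
    fun z hz => ⟨fun l h0 => ?_, fun P hP => ?_⟩⟩
  · have h1 := hval (x l) (hcu l) ε hε1.1.le hε1.2.le z hz
    have h2 := hε2 l
    have h3 : evf (algebraMap K ℂ) z (x l) = 0 := h0
    rw [h3, zero_sub, norm_neg] at h1
    linarith
  · rw [mem_kr] at hP ⊢
    have h1 : aeval x P = 0 := by
      refine IsFractionRing.injective (MvPowerSeries β K)
        (FractionRing (MvPowerSeries β K)) ?_
      rw [map_zero, ← hP]
      have h2 := comp_aeval_apply (IsScalarTower.toAlgHom K (MvPowerSeries β K)
        (FractionRing (MvPowerSeries β K))) P (f := x)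
      exact h2
    have h2 := (evf_aeval (algebraMap K ℂ) hρ0.le x hcu P).2 z
      (fun b => (hz b).trans hερ)
    have h3 : evf (algebraMap K ℂ) z (0 : MvPowerSeries β K) = 0 := by
      have h4 := evf_C (algebraMap K ℂ) z (0 : K)
      rw [map_zero, map_zero] at h4
      exact h4
    rw [h1, h3] at h2
    rw [aeval_def]
    exact h2.symm

/-- `TSSpec.uz_bs`. -/
theorem xz_bs (h : LX K x bs cl D) (z : β → ℂ) (b : β) :
    xz x z (bs b) = algebraMap K ℂ (MvPowerSeries.constantCoeff (x (bs b))) + z b := by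
  have h1 : xz x z (bs b) = evf (algebraMap K ℂ) z (x (bs b)) := rfl
  have h2 : evf (algebraMap K ℂ) z (x (bs b)) = evf (algebraMap K ℂ) z
      (MvPowerSeries.C (MvPowerSeries.constantCoeff (x (bs b))) + MvPowerSeries.X b) :=
    congrArg _ (h.h1 b)
  have hz : ∀ b, ‖z b‖ ≤ ∑ b', ‖z b'‖ := fun b =>
    Finset.single_le_sum (f := fun b' => ‖z b'‖) (fun _ _ => norm_nonneg _)
      (Finset.mem_univ b)
  rw [h1, h2, evf_add (algebraMap K ℂ) (cv_C _ _ _) (cv_X _ _ _) hz, evf_C, evf_X]

/-- `TSSpec.kr_generic`. -/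
theorem kr_genericx (h : LX K x bs cl D) (z : β → ℂ) (hz : AlgebraicIndependent K z)
    (hle : kr K (wx x) ≤ kr K (xz x z)) : kr K (wx x) = kr K (xz x z) := by
  by_contra hne
  have h1 := dm_strictAnti (lt_of_le_of_ne hle hne)
  rw [dm_wx h] at h1
  have h2 := tx_shift (fun b => MvPowerSeries.constantCoeff (x (bs b))) hz
  have h3 : (Fintype.card β : ℕ∞) ≤ (dm (kr K (xz x z)) : ℕ∞) := by
    rw [dm_kr, ← rk_range_of_indep _ h2]
    refine rk_mono ?_
    rintro _ ⟨b, rfl⟩
    exact ⟨bs b, xz_bs h z b⟩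
  have h4 : Fintype.card β ≤ dm (kr K (xz x z)) := by exact_mod_cast h3
  omega

end

end Pool.Agent.Zilber
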