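import Pool.Agent.Zilber.TStrict
import Pool.Agent.Zilber.TNon
import Pool.Agent.Zilber.TSpec

set_option autoImplicit false

/-! T: the formal wedge does not vanish at some small point. -/

namespace Pool.Agent.Zilber

open MvPolynomial Pool.Agent.LSharp

/-- The convergent power series. -/
private def cvS (β : Type) [Fintype β] (ρ : ℝ) (hρ : 0 ≤ ρ) : Subring (MvPowerSeries β ℂ) where
  carrier := {f | Cv (RingHom.id ℂ) ρ f}
  zero_mem' := by
    have h := cv_C (β := β) (RingHom.id ℂ) ρ (0 : ℂ)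
    rw [map_zero] at h
    exact h
  one_mem' := by
    have h := cv_C (β := β) (RingHom.id ℂ) ρ (1 : ℂ)
    rw [map_one] at h
    exact h
  add_mem' := fun hf hg => cv_add _ hρ hf hg
  mul_mem' := fun hf hg => cv_mul _ hρ hf hg
  neg_mem' := by
    intro f hf
    have h := cv_mul (RingHom.id ℂ) hρ (cv_C (β := β) (RingHom.id ℂ) ρ (-1 : ℂ)) hf
    rw [map_neg, map_one, neg_one_mul] at h
    exact h

/-- Evaluation of convergent power series. -/
private noncomputable def cvE {β : Type} [Fintype β] (ρ : ℝ) (hρ : 0 ≤ ρ) (z : β → ℂ)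
    (hz : ∀ b, ‖z b‖ ≤ ρ) : cvS β ρ hρ →+* ℂ where
  toFun f := evf (RingHom.id ℂ) z f.1
  map_zero' := by
    have h := evf_C (RingHom.id ℂ) z (0 : ℂ)
    rw [map_zero] at h
    exact h
  map_one' := by
    have h := evf_C (RingHom.id ℂ) z (1 : ℂ)
    rw [map_one] at h
    exact h
  map_add' := fun f g => evf_add _ f.2 g.2 hz
  map_mul' := fun f g => evf_mul _ f.2 g.2 hz

/-- **The wedge at a small point.**

Proof. Let `X l = MvPowerSeries.map s (x l)`, `P = ∏ l, X l`, `G l = ∏ l' ≠ l, X l'` and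
`M i b = ∑ l, C (R i l) * pderiv b (X l) * G l`, power series over `ℂ`. As `X l * (X l)⁻¹ = 1` (constant coefficient not
zero, `h.g`), `P * om s x (R i) b = M i b`, so `det M = P^(card β) * det (om ..)` (`Matrix.det_smul`) is not zero
(`MvPowerSeries β ℂ` is a domain). By `h.h3` (`cv_of_growth`), `cv_map`, `cv_pderiv`,
`pderiv_map`, `cv_mul`, `cv_add`, `cv_C` all these power series converge on a polydisc, and `evf` is multiplicative and additive
there (`evf_mul`, `evf_add`, `evf_C`; for `det` use `Matrix.det_apply` or `evf_aeval` applied to the polynomial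
`det (X_ib)`, `Matrix.det_mvPolynomialX`...). `evf_ne_zero` for `det M` (choose `ε` also smaller than the radius of
`spec_smallx` if this is convenient, so that the values `evf s z (x l)` are not zero) gives `z` with `det (M i b (z)) ≠ 0`. Then
`P(z) ≠ 0` and the matrix of the statement is `M i b (z) / P(z)`. -/
theorem det_point {K ι β M : Type} [Field K] [Fintype ι] [DecidableEq ι] [Fintype β]
    [DecidableEq β] {x : ι → MvPowerSeries β K} {bs : β → ι} {cl : ι → M} {D : ℕ}
    (h : LX K x bs cl D) (s : K →+* ℂ) (R : β → ι → ℝ)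
    (hdet : Wdg s x R id) (ε : ℝ) (hε : 0 < ε) :
    ∃ z : β → ℂ, ‖z‖ < ε ∧ (∀ l, evf s z (x l) ≠ 0) ∧
      (Matrix.of fun i b => ∑ l, (R i l : ℂ) *
        (evf s z (MvPowerSeries.pderiv K b (x l)) / evf s z (x l))).det ≠ 0 := by
  obtain ⟨C, hC⟩ := h.h3 s
  obtain ⟨ρ₀, hρ₀, hcv⟩ := cv_of_growth (β := β) s C
  have hx0 : ∀ l, Cv s ρ₀ (x l) := fun l => hcv (x l) (hC l)
  obtain ⟨ρ, hρdef⟩ : ∃ ρ, ρ = ρ₀ / 2 := ⟨_, rfl⟩
  have hρ : 0 < ρ := by
    rw [hρdef]
    positivity
  have hρ' : ρ < ρ₀ := by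
    rw [hρdef]
    linarith
  have hX : ∀ l, Cv (RingHom.id ℂ) ρ (MvPowerSeries.map s (x l)) := fun l =>
    (cv_map s ρ _).2 (cv_mono s hρ.le hρ'.le (hx0 l))
  have hdX : ∀ l b, Cv (RingHom.id ℂ) ρ (MvPowerSeries.pderiv ℂ b (MvPowerSeries.map s (x l))) := by
    intro l b
    rw [pderiv_map, cv_map]
    exact cv_pderiv s hρ.le hρ' (hx0 l) b
  let X : ι → cvS β ρ hρ.le := fun l => ⟨_, hX l⟩
  let dX : ι → β → cvS β ρ hρ.le := fun l b => ⟨_, hdX l b⟩
  let Cc : ℂ → cvS β ρ hρ.le := fun a => ⟨MvPowerSeries.C a, cv_C _ ρ a⟩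
  let P : cvS β ρ hρ.le := ∏ l, X l
  let MM : Matrix β β (cvS β ρ hρ.le) := Matrix.of fun i b =>
    ∑ l, Cc (R i l) * dX l b * ∏ l' ∈ Finset.univ.erase l, X l'
  let ι₀ : cvS β ρ hρ.le →+* MvPowerSeries β ℂ := (cvS β ρ hρ.le).subtype
  have hPe : ι₀ P = ∏ l, MvPowerSeries.map s (x l) := map_prod ι₀ _ _
  have hXne : ∀ l, MvPowerSeries.constantCoeff (MvPowerSeries.map s (x l)) ≠ 0 := by
    intro l
    rw [MvPowerSeries.constantCoeff_map]
    exact (map_ne_zero s).2 (h.g l)
  have hX0 : ∀ l, MvPowerSeries.map s (x l) ≠ 0 := by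
    intro l h0
    apply hXne l
    rw [h0, map_zero]
  have hP0 : ι₀ P ≠ 0 := by
    rw [hPe]
    exact Finset.prod_ne_zero_iff.2 fun l _ => hX0 l
  have hM : MM.map ι₀ = ι₀ P • Matrix.of fun r c => om s x (R r) (id c) := by
    refine Matrix.ext fun i b => ?_
    rw [Matrix.map_apply, Matrix.smul_apply, smul_eq_mul, Matrix.of_apply]
    change ι₀ (∑ l, Cc (R i l) * dX l b * ∏ l' ∈ Finset.univ.erase l, X l') = _
    rw [map_sum, om, Finset.mul_sum]
    refine Finset.sum_congr rfl fun l _ => ?_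
    rw [map_mul, map_mul, map_prod, hPe, ← Finset.mul_prod_erase _ _ (Finset.mem_univ l), ld]
    change MvPowerSeries.C ((R i l : ℝ) : ℂ) *
      MvPowerSeries.pderiv ℂ b (MvPowerSeries.map s (x l)) *
      ∏ l' ∈ Finset.univ.erase l, MvPowerSeries.map s (x l') = _
    have h1 := MvPowerSeries.mul_inv_cancel (MvPowerSeries.map s (x l)) (hXne l)
    calc MvPowerSeries.C ((R i l : ℝ) : ℂ) *
          MvPowerSeries.pderiv ℂ b (MvPowerSeries.map s (x l)) *
          ∏ l' ∈ Finset.univ.erase l, MvPowerSeries.map s (x l')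
        = (MvPowerSeries.map s (x l) * (MvPowerSeries.map s (x l))⁻¹) *
            (MvPowerSeries.C ((R i l : ℝ) : ℂ) *
              MvPowerSeries.pderiv ℂ b (MvPowerSeries.map s (x l)) *
              ∏ l' ∈ Finset.univ.erase l, MvPowerSeries.map s (x l')) := by
          rw [h1, one_mul]
      _ = _ := by
          rw [id_eq]
          ring
  have hdetM : ι₀ (MM.det * P) ≠ 0 := by
    rw [map_mul, RingHom.map_det, RingHom.mapMatrix_apply, hM, Matrix.det_smul]
    exact mul_ne_zero (mul_ne_zero (pow_ne_zero _ hP0) hdet) hP0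
  obtain ⟨z, hz, hne⟩ := evf_ne_zero hρ (MM.det * P).2 hdetM (min ε ρ) (lt_min hε hρ)
  have hzb : ∀ b, ‖z b‖ ≤ ρ := fun b =>
    (norm_le_pi_norm z b).trans (hz.le.trans (min_le_right _ _))
  let E : cvS β ρ hρ.le →+* ℂ := cvE ρ hρ.le z hzb
  have hE : E (MM.det * P) ≠ 0 := hne
  rw [map_mul] at hE
  have hEX : ∀ l, E (X l) = evf s z (x l) := fun l => evf_map s z (x l)
  have hEdX : ∀ l b, E (dX l b) = evf s z (MvPowerSeries.pderiv K b (x l)) := by
    intro l b
    change evf (RingHom.id ℂ) z (MvPowerSeries.pderiv ℂ b (MvPowerSeries.map s (x l))) = _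
    rw [pderiv_map, evf_map]
  have hEC : ∀ a, E (Cc a) = a := fun a => evf_C (RingHom.id ℂ) z a
  have hEP : E P = ∏ l, evf s z (x l) := by
    change E (∏ l, X l) = _
    rw [map_prod]
    exact Finset.prod_congr rfl fun l _ => hEX l
  have hxz : ∀ l, evf s z (x l) ≠ 0 := by
    have h1 := right_ne_zero_of_mul hE
    rw [hEP, Finset.prod_ne_zero_iff] at h1
    exact fun l => h1 l (Finset.mem_univ l)
  refine ⟨z, hz.trans_le (min_le_left _ _), hxz, fun h0 => ?_⟩
  apply left_ne_zero_of_mul hE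
  have hN : MM.map E = E P • Matrix.of fun i b => ∑ l, (R i l : ℂ) *
      (evf s z (MvPowerSeries.pderiv K b (x l)) / evf s z (x l)) := by
    refine Matrix.ext fun i b => ?_
    rw [Matrix.map_apply, Matrix.smul_apply, smul_eq_mul, Matrix.of_apply]
    change E (∑ l, Cc (R i l) * dX l b * ∏ l' ∈ Finset.univ.erase l, X l') = _
    rw [map_sum, Finset.mul_sum]
    refine Finset.sum_congr rfl fun l _ => ?_
    rw [map_mul, map_mul, map_prod, hEC, hEdX, hEP, ← Finset.mul_prod_erase _ _ (Finset.mem_univ l),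
      Finset.prod_congr rfl fun l' _ => hEX l']
    have h1 := hxz l
    field_simp
  rw [RingHom.map_det, RingHom.mapMatrix_apply, hN, Matrix.det_smul, h0, mul_zero]

end Pool.Agent.Zilber
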