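import Pool.Agent.LSharp.TSGen

set_option autoImplicit false

/-! T: generic points in open sets. -/

namespace Pool.Agent.Zilber

open MvPolynomial

/-- **Generic points near any point.** ADAPTATION of `exists_generic` in `LSharp/TSGen.lean`
(intersect the dense set with
the ball around `z0`). -/
theorem exists_generic_near {K β : Type} [Field K] [NumberField K] [Algebra K ℂ] [Fintype β]
    (z0 : β → ℂ) (δ : ℝ) (hδ : 0 < δ) :
    ∃ p : β → ℂ, ‖p‖ < δ ∧ AlgebraicIndependent K (z0 + p) := by
  have hK : Countable K :=
    (Module.finBasis ℚ K).equivFun.injective.countable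
  have hC : Countable (MvPolynomial β K) :=
    (basisMonomials β K).repr.toEquiv.injective.countable
  have ho : ∀ P : {P : MvPolynomial β K // P ≠ 0}, IsOpen {x : β → ℂ | aeval x P.1 ≠ 0} := by
    intro P
    have h1 : Continuous fun x : β → ℂ => aeval x P.1 := by
      have h2 : (fun x : β → ℂ => aeval x P.1) =
          fun x => eval x (MvPolynomial.map (algebraMap K ℂ) P.1) :=
        funext fun x => by rw [eval_map, aeval_def]
      rw [h2]
      exact MvPolynomial.continuous_eval _
    exact isOpen_ne_fun h1 continuous_const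
  have hd : ∀ P : {P : MvPolynomial β K // P ≠ 0}, Dense {x : β → ℂ | aeval x P.1 ≠ 0} := by
    intro P
    rw [dense_iff_inter_open]
    intro U hU hne
    by_contra hcon
    refine P.2 (LSharp.eq_zero_of_open P.1 U hU hne fun x hx => ?_)
    by_contra h
    exact hcon ⟨x, hx, h⟩
  have h := dense_iInter_of_isOpen ho hd
  obtain ⟨q, hq, hq'⟩ := dense_iff_inter_open.1 h (Metric.ball z0 δ) Metric.isOpen_ball
    ⟨z0, Metric.mem_ball_self hδ⟩
  refine ⟨q - z0, by simpa [dist_eq_norm] using hq, ?_⟩
  rw [add_sub_cancel]
  refine algebraicIndependent_iff.2 fun P hP => ?_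
  by_contra hne
  exact Set.mem_iInter.1 hq' ⟨P, hne⟩ hP

end Pool.Agent.Zilber
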