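import Pool.Agent.LSharp.TSPts
import Pool.Agent.LSharp.TSHom
import Pool.Agent.Zilber.TDet
import Pool.Agent.Zilber.TGen

set_option autoImplicit false

/-! T: many embeddings at one level. ADAPTATION of the finished file `LSharp/TSMany.lean` (`un t`, `W × Fin 3` become
`x`, `ι`; `uz` becomes `xz`; `wF` becomes `gen`; `(bs b, 0)` becomes `bs b`), with the new point `z0`. -/

namespace Pool.Agent.Zilber

open MvPolynomial Pool.Agent.CITLines Pool.Agent.Srf5 Pool.Agent.LSharp

/-- `Srf5.spec` for polynomials in any finite set of variables. -/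
private theorem tm_spec {K β ι F F' : Type} [Field K] [Fintype β] [Fintype ι] [Field F]
    [Algebra K F] [Field F'] [Algebra K F'] {w : ι → F} {P : ι → F'} (hw : ∀ i, w i ≠ 0)
    (hP : ∀ i, P i ≠ 0) (h : kr K w ≤ kr K P) (a : β → ι → ℤ) (f : MvPolynomial β K)
    (hf : aeval (fun j => mon w (a j)) f = 0) : aeval (fun j => mon P (a j)) f = 0 := by
  have e := Fintype.equivFin β
  have e1 : ((fun j => mon w (a (e.symm j))) ∘ e) = fun j => mon w (a j) := by
    funext j
    simp
  have e2 : ((fun j => mon P (a (e.symm j))) ∘ e) = fun j => mon P (a j) := by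
    funext j
    simp
  have h1 := Srf5.spec hw hP h (fun j => a (e.symm j)) (rename e f)
    (by rw [aeval_rename, e1]; exact hf)
  rw [aeval_rename, e2] at h1
  exact h1

/-- **Many embeddings.**

Proof. As `TSMany.many_level`, but the wedge is used at a small point `z0`. Make `ℂ` a `K`-algebra by `s`, `ρ` from
`spec_smallx`. `det_point` with `ε = ρ / 2` gives `z0`, `‖z0‖ < ρ / 2`. Apply `lattice_points` to
`g l z = xz x (z0 + z) l`: by `evf_strict_at` (and composition with the translation, `HasStrictFDerivAt.comp`) `g l` has the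
strict derivative `D l = ∑ b, evf s z0 (pderiv b (x l)) • proj b` at `0`, `D l (Pi.single b 1) = evf s z0 (pderiv b (x l))`,
`g l 0 = evf s z0 (x l)`; the matrix is the one of `det_point`; radius `ρ / 2` (so all points `z0 + z` have norm `< ρ`).
`exists_generic_near z0 δ` gives `p` with `z0 + p` algebraically independent, so `kr K (wx x) = kr K (xz x (z0 + p))`
(`kr_genericx`). The rest is as in `TSMany` with `z0 + z` instead of `z`: (1) the values `c1 i` are algebraically
independent by `eq_zero_of_open`; (2) for `z ∈ T` the ideals agree (`card_le_dm_mon`, `dm_wx`, `kr_eq`) and `exists_hom`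
gives the embeddings; they are different by `xz_bs`. -/
theorem many_levelx (K : Type) [Field K] [NumberField K] {ι β M : Type} [Fintype ι]
    [DecidableEq ι] [Fintype β] [DecidableEq β] {x : ι → MvPowerSeries β K} {bs : β → ι}
    {cl : ι → M} {D : ℕ} (h : LX K x bs cl D) (s : K →+* ℂ) (r : β → ι → ℝ)
    (hdet : Wdg s x r id) :
    ∃ (m : ℝ) (N0 : ℕ), 0 < m ∧ ∀ N : ℕ, N0 ≤ N → ∀ y : β → ι → ℤ,
      (∀ i l, |(y i l : ℝ) - N * r i l| ≤ 1) →
      Many K (gen x) y (m * N ^ Fintype.card β) := by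
  let _ : Algebra K ℂ := s.toAlgebra
  obtain ⟨ρ, hρ, hcv, hsp⟩ := spec_smallx h
  have hsp' : ∀ z : β → ℂ, ‖z‖ ≤ ρ → (∀ l, xz x z l ≠ 0) ∧ kr K (wx x) ≤ kr K (xz x z) :=
    fun z hz => hsp z fun b => (norm_le_pi_norm z b).trans hz
  have hρ2 : 0 < ρ / 2 := by positivity
  obtain ⟨z0, hz0, hne0, hdet0⟩ := det_point h s r hdet (ρ / 2) hρ2
  have hadd : ∀ z : β → ℂ, ‖z‖ < ρ / 2 → ‖z0 + z‖ ≤ ρ := fun z hz =>
    (norm_add_le z0 z).trans (by linarith)
  -- the derivatives
  have hg : ∀ l, HasStrictFDerivAt (fun z : β → ℂ => xz x (z0 + z) l)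
      (∑ b, evf s z0 (MvPowerSeries.pderiv K b (x l)) •
        (ContinuousLinearMap.proj b : (β → ℂ) →L[ℂ] ℂ)) 0 := by
    intro l
    have e1 := evf_strict_at s (hcv l) z0 (by linarith)
    have e2 : HasStrictFDerivAt (fun z : β → ℂ => z0 + z)
        (ContinuousLinearMap.id ℂ (β → ℂ)) 0 := (hasStrictFDerivAt_id (0 : β → ℂ)).const_add z0
    have e3 : HasStrictFDerivAt (fun z : β → ℂ => evf s z (x l))
      (∑ b, evf s z0 (MvPowerSeries.pderiv K b (x l)) •
        (ContinuousLinearMap.proj b : (β → ℂ) →L[ℂ] ℂ)) (z0 + (0 : β → ℂ)) := by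
      rw [add_zero]
      exact e1
    have e4 := e3.comp (0 : β → ℂ) e2
    rw [ContinuousLinearMap.comp_id] at e4
    exact e4
  have h0 : ∀ l, xz x (z0 + (0 : β → ℂ)) l ≠ 0 := by
    intro l
    rw [add_zero]
    exact hne0 l
  have hdet' : (Matrix.of fun (i : β) (b : β) => ∑ l, (r i l : ℂ) *
      (∑ b', evf s z0 (MvPowerSeries.pderiv K b' (x l)) •
        (ContinuousLinearMap.proj b' : (β → ℂ) →L[ℂ] ℂ)) (Pi.single b 1) /
      xz x (z0 + (0 : β → ℂ)) l).det ≠ 0 := by
    have e : (Matrix.of fun (i : β) (b : β) => ∑ l, (r i l : ℂ) *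
      (∑ b', evf s z0 (MvPowerSeries.pderiv K b' (x l)) •
        (ContinuousLinearMap.proj b' : (β → ℂ) →L[ℂ] ℂ)) (Pi.single b 1) /
      xz x (z0 + (0 : β → ℂ)) l) = Matrix.of fun i b => ∑ l, (r i l : ℂ) *
        (evf s z0 (MvPowerSeries.pderiv K b (x l)) / evf s z0 (x l)) := by
      ext i b
      rw [Matrix.of_apply, Matrix.of_apply]
      refine Finset.sum_congr rfl fun l _ => ?_
      have e1 : (∑ b', evf s z0 (MvPowerSeries.pderiv K b' (x l)) •
          (ContinuousLinearMap.proj b' : (β → ℂ) →L[ℂ] ℂ)) (Pi.single b 1) =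
          evf s z0 (MvPowerSeries.pderiv K b (x l)) := by
        rw [sum_apply]
        rw [Finset.sum_eq_single b]
        · simp
        · intro b' _ hb'
          simp [hb']
        · intro hb
          exact absurd (Finset.mem_univ b) hb
      rw [e1, add_zero, mul_div_assoc]
      rfl
    rw [e]
    exact hdet0
  obtain ⟨δ, m, N0, hδ, hδρ, hm, -, H⟩ :=
    lattice_points (fun l z => xz x (z0 + z) l) _ hg h0 r hdet' (ρ / 2) hρ2
  obtain ⟨p, hp, hpi⟩ := exists_generic_near (K := K) z0 δ hδ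
  obtain ⟨hpne, hple⟩ := hsp' (z0 + p) (hadd p (lt_of_lt_of_le hp hδρ))
  have hkr : kr K (wx x) = kr K (xz x (z0 + p)) := kr_genericx h (z0 + p) hpi hple
  refine ⟨m, N0, hm, fun N hN y hy => ?_⟩
  obtain ⟨H1, V, hV, hVne, hVz⟩ := H N hN y hy
  obtain ⟨T, hTc, hT⟩ := H1 p hp
  -- the values are algebraically independent
  have hc1 : AlgebraicIndependent K fun i => mon (xz x (z0 + p)) (y i) := by
    rw [algebraicIndependent_iff]
    intro P hP
    refine eq_zero_of_open P V hV hVne fun w hw => ?_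
    obtain ⟨z, hz, hzne, hzx⟩ := hVz w hw
    have h1 : kr K (xz x (z0 + p)) ≤ kr K (xz x (z0 + z)) :=
      hkr ▸ (hsp' (z0 + z) (hadd z hz)).2
    have h2 := tm_spec hpne hzne h1 y P hP
    have h3 : (fun i => mon (xz x (z0 + z)) (y i)) = w := funext hzx
    rwa [h3] at h2
  -- the embeddings
  have hσ : ∀ z : T, ∃ σ : GF x →ₐ[K] ℂ, ∀ l, σ (gen x l) = xz x (z0 + (z : β → ℂ)) l := by
    rintro ⟨z, hz⟩
    obtain ⟨hz1, hz2, hz3⟩ := hT z hz
    have h3 : (fun i => mon (xz x (z0 + z)) (y i)) = fun i => mon (xz x (z0 + p)) (y i) :=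
      funext hz3
    have h4 : Fintype.card β ≤ dm (kr K (xz x (z0 + z))) :=
      card_le_dm_mon (xz x (z0 + z)) y (h3 ▸ hc1)
    have h5 : kr K (wx x) = kr K (xz x (z0 + z)) :=
      kr_eq (wx x) (xz x (z0 + z)) (hsp' (z0 + z) (hadd z hz1)).2 (by rw [dm_wx h]; exact h4)
    exact exists_hom (gen x) gen_top (xz x (z0 + z)) (kr_gen.trans h5)
  choose σ hσl using hσ
  refine ⟨T, ℂ, inferInstance, inferInstance, inferInstance, σ,
    fun i => mon (xz x (z0 + p)) (y i), ?_, ?_, hc1, ?_⟩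
  · intro z z' hzz
    refine Subtype.ext (funext fun b => ?_)
    have h1 := hσl z (bs b)
    have h2 := hσl z' (bs b)
    rw [hzz, h2, xz_bs h, xz_bs h] at h1
    exact (add_left_cancel (add_left_cancel h1)).symm
  · rintro ⟨z, hz⟩ i
    obtain ⟨-, -, hz3⟩ := hT z hz
    have h1 : σ ⟨z, hz⟩ (mon (gen x) (y i)) = mon (xz x (z0 + z)) (y i) := by
      unfold mon
      rw [map_prod]
      refine Finset.prod_congr rfl fun l _ => ?_
      rw [map_zpow₀, hσl]
    rw [h1]
    exact hz3 i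
  · rw [Fintype.card_coe]
    exact hTc

end Pool.Agent.Zilber
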