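import Pool.Agent.LSharp.TSVal
import Pool.Agent.LSharp.TSGerm

set_option autoImplicit false

/-! T: a real valuation which is trivial on `ℂ`. Adaptation of the file `LSharp/TSVex.lean`: the
number field `K` is replaced by a field with an embedding `s : K →+* ℂ`. -/

namespace Pool.Agent.Zilber

open Pool.Agent.LSharp
open MvPolynomial Filter Topology

/-- the hyperfilter -/
private noncomputable abbrev tsH : Filter ℕ := (hyperfilter ℕ : Filter ℕ)

/-- the germ of a sequence -/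
private noncomputable def tsG (f : ℕ → ℂ) : UC := Germ.coeRingHom (hyperfilter ℕ : Filter ℕ) f

private lemma tsG_eq_iff {f g : ℕ → ℂ} : tsG f = tsG g ↔ f =ᶠ[tsH] g := Germ.coe_eq

private lemma tsG_surj (x : UC) : ∃ f, tsG f = x := by
  obtain ⟨b, hb⟩ := Quotient.exists_rep x
  exact ⟨b, hb⟩

private lemma tsH_le : tsH ≤ atTop := by
  rw [← Nat.cofinite_eq_atTop]
  exact hyperfilter_le_cofinite

private instance : NeBot tsH := by
  unfold tsH
  infer_instance

private lemma ts_evt : Tendsto (fun T : ℕ => (T : ℝ)) tsH atTop :=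
  tendsto_natCast_atTop_atTop.mono_left tsH_le

/-- the germ `x` has the value `l` -/
private def HV (x : UC) (l : ℝ) : Prop :=
  ∃ f : ℕ → ℂ, tsG f = x ∧ (∀ᶠ T in tsH, f T ≠ 0) ∧
    Tendsto (fun T : ℕ => Real.log ‖f T‖ / T) tsH (𝓝 (-l))

private lemma HV.of_rep {f : ℕ → ℂ} {l : ℝ} (h : HV (tsG f) l) : (∀ᶠ T in tsH, f T ≠ 0) ∧
    Tendsto (fun T : ℕ => Real.log ‖f T‖ / T) tsH (𝓝 (-l)) := by
  obtain ⟨g, hg, h1, h2⟩ := h
  rw [tsG_eq_iff] at hg
  refine ⟨?_, ?_⟩
  · filter_upwards [hg, h1] with T h3 h4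
    rwa [← h3]
  · refine h2.congr' ?_
    filter_upwards [hg] with T h3
    rw [h3]

private lemma HV.unique {x : UC} {a b : ℝ} (h : HV x a) (h' : HV x b) : a = b := by
  obtain ⟨f, rfl, h1, h2⟩ := h
  have h3 := tendsto_nhds_unique h2 h'.of_rep.2
  linarith

private lemma HV.ne {x : UC} {a : ℝ} (h : HV x a) : x ≠ 0 := by
  obtain ⟨f, rfl, h1, h2⟩ := h
  intro h0
  have h3 : tsG f = tsG 0 := by
    rw [h0]
    exact (map_zero _).symm
  rw [tsG_eq_iff] at h3
  obtain ⟨T, h4, h5⟩ := (h1.and h3).exists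
  exact h4 h5

private lemma HV.mul {x y : UC} {a b : ℝ} (h : HV x a) (h' : HV y b) : HV (x * y) (a + b) := by
  obtain ⟨f, rfl, h1, h2⟩ := h
  obtain ⟨g, rfl, h3, h4⟩ := h'
  refine ⟨f * g, map_mul _ _ _, ?_, ?_⟩
  · filter_upwards [h1, h3] with T h5 h6
    exact mul_ne_zero h5 h6
  · have h5 := h2.add h4
    have e : -(a + b) = -a + -b := by ring
    rw [e]
    refine h5.congr' ?_
    filter_upwards [h1, h3] with T h6 h7
    rw [Pi.mul_apply, norm_mul, Real.log_mul (norm_ne_zero_iff.2 h6) (norm_ne_zero_iff.2 h7)]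
    ring

private lemma HV.inv {x : UC} {a : ℝ} (h : HV x a) : HV x⁻¹ (-a) := by
  have hx := h.ne
  obtain ⟨f, rfl, h1, h2⟩ := h
  refine ⟨f⁻¹, ?_, ?_, ?_⟩
  · have h3 : tsG f * tsG f⁻¹ = 1 := by
      have h4 : tsG f * tsG f⁻¹ = tsG (f * f⁻¹) := (map_mul _ _ _).symm
      have h5 : (1 : UC) = tsG 1 := (map_one _).symm
      rw [h4, h5, tsG_eq_iff]
      filter_upwards [h1] with T h6
      rw [Pi.mul_apply, Pi.inv_apply, mul_inv_cancel₀ h6]
      rfl
    exact eq_inv_of_mul_eq_one_right h3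
  · filter_upwards [h1] with T h5
    exact inv_ne_zero h5
  · have h5 := h2.neg
    refine h5.congr fun T => ?_
    rw [Pi.inv_apply, norm_inv, Real.log_inv]
    ring

private lemma HV.pow {x : UC} {a : ℝ} (h : HV x a) (n : ℕ) : HV (x ^ n) (n * a) := by
  induction n with
  | zero =>
    refine ⟨1, ?_, Filter.Eventually.of_forall fun T => one_ne_zero, ?_⟩
    · rw [pow_zero]
      exact map_one _
    · have e : (fun T : ℕ => Real.log ‖(1 : ℕ → ℂ) T‖ / (T : ℝ)) = fun _ => 0 := by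
        funext T
        simp
      rw [e]
      simp
  | succ n ih =>
    have h1 := ih.mul h
    rw [← pow_succ] at h1
    have e : ((n + 1 : ℕ) : ℝ) * a = n * a + a := by
      push_cast
      ring
    rwa [e]

/-- comparable sequences have the same value -/
private lemma HV.comp {f g : ℕ → ℂ} {a : ℝ} (h : HV (tsG f) a)
    (h' : ∀ᶠ T in tsH, ‖f T‖ / 2 ≤ ‖g T‖ ∧ ‖g T‖ ≤ 2 * ‖f T‖) : HV (tsG g) a := by
  obtain ⟨h1, h2⟩ := h.of_rep
  have hg : ∀ᶠ T in tsH, g T ≠ 0 := by
    filter_upwards [h1, h'] with T h3 h4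
    intro h5
    rw [h5, norm_zero] at h4
    have := norm_pos_iff.2 h3
    linarith [h4.1]
  refine ⟨g, rfl, hg, ?_⟩
  -- the difference of the logarithms is bounded
  have h3 : Tendsto (fun T : ℕ => Real.log 2 / T) tsH (𝓝 0) :=
    tendsto_const_nhds.div_atTop ts_evt
  have h4 : Tendsto (fun T : ℕ => Real.log ‖f T‖ / T - Real.log 2 / T) tsH (𝓝 (-a)) := by
    have := h2.sub h3
    rwa [sub_zero] at this
  have h5 : Tendsto (fun T : ℕ => Real.log ‖f T‖ / T + Real.log 2 / T) tsH (𝓝 (-a)) := by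
    have := h2.add h3
    rwa [add_zero] at this
  refine tendsto_of_tendsto_of_tendsto_of_le_of_le' h4 h5 ?_ ?_
  · filter_upwards [h1, h', hg] with T h6 h7 h8
    have h9 : 0 < ‖f T‖ := norm_pos_iff.2 h6
    rw [← sub_div]
    refine div_le_div_of_nonneg_right ?_ (Nat.cast_nonneg _)
    rw [← Real.log_div h9.ne' two_ne_zero]
    exact Real.log_le_log (by positivity) h7.1
  · filter_upwards [h1, h', hg] with T h6 h7 h8
    have h9 : 0 < ‖f T‖ := norm_pos_iff.2 h6
    rw [← add_div]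
    refine div_le_div_of_nonneg_right ?_ (Nat.cast_nonneg _)
    rw [← Real.log_mul h9.ne' two_ne_zero, mul_comm]
    exact Real.log_le_log (norm_pos_iff.2 h8) h7.2

private lemma HV.dom {x y : UC} {a b : ℝ} (h : HV x a) (h' : HV y b) (hab : a < b) :
    HV (x + y) a := by
  obtain ⟨f, hf, h1, h2⟩ := id h
  obtain ⟨g, rfl, h3, h4⟩ := id h'
  subst hf
  have e : tsG f + tsG g = tsG (f + g) := (map_add _ _ _).symm
  rw [e]
  refine HV.comp h ?_
  -- `‖g‖ ≤ ‖f‖ / 2`
  have h5 : Tendsto (fun T : ℕ => Real.log ‖g T‖ / T - Real.log ‖f T‖ / T) tsH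
      (𝓝 (-b - -a)) := h4.sub h2
  have h6 : ∀ᶠ T : ℕ in tsH, Real.log ‖g T‖ / T - Real.log ‖f T‖ / T < (a - b) / 2 :=
    h5.eventually (gt_mem_nhds (by linarith))
  have h7 : ∀ᶠ T : ℕ in tsH, Real.log 2 / ((b - a) / 2) < T :=
    ts_evt.eventually_gt_atTop _
  have h8 : ∀ᶠ T : ℕ in tsH, (0 : ℝ) < T := ts_evt.eventually_gt_atTop _
  filter_upwards [h1, h3, h6, h7, h8] with T k1 k3 k6 k7 k8
  have hf : 0 < ‖f T‖ := norm_pos_iff.2 k1
  have hg : 0 < ‖g T‖ := norm_pos_iff.2 k3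
  have k9 : ‖g T‖ ≤ ‖f T‖ / 2 := by
    rw [← Real.log_le_log_iff hg (by positivity), Real.log_div hf.ne' two_ne_zero]
    rw [← sub_div, div_lt_iff₀ k8] at k6
    rw [div_lt_iff₀ (by linarith)] at k7
    nlinarith
  rw [Pi.add_apply]
  have k10 := norm_add_le (f T) (g T)
  have k11 := norm_sub_le (f T + g T) (g T)
  rw [add_sub_cancel_right] at k11
  constructor <;> linarith

private lemma HV.add {x y : UC} {a b c : ℝ} (h : HV x a) (h' : HV y b) (h'' : HV (x + y) c) :
    min a b ≤ c := by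
  by_contra hc
  push Not at hc
  rw [lt_min_iff] at hc
  -- `x = (x + y) - y`
  have hn : HV (-y) b := by
    obtain ⟨g, rfl, h3, h4⟩ := id h'
    refine ⟨-g, map_neg _ _, ?_, ?_⟩
    · filter_upwards [h3] with T h5
      simpa using h5
    · simpa using h4
  have h1 := h''.dom hn hc.2
  rw [add_neg_cancel_right] at h1
  exact hc.1.ne (h1.unique h)

private lemma HV.sum {ι : Type} (S : Finset ι) (x : ι → UC) (l : ι → ℝ)
    (h : ∀ i ∈ S, HV (x i) (l i)) (hS : S.Nonempty) (hl : Set.InjOn l S) :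
    ∃ i ∈ S, HV (∑ j ∈ S, x j) (l i) ∧ ∀ j ∈ S, l i ≤ l j := by
  classical
  induction S using Finset.induction_on with
  | empty => exact absurd hS (by simp)
  | insert i S hi ih =>
    rw [Finset.sum_insert hi]
    rcases S.eq_empty_or_nonempty with rfl | hS'
    · refine ⟨i, by simp, ?_, ?_⟩
      · simpa using h i (by simp)
      · simp
    · obtain ⟨j, hj, h1, h2⟩ := ih (fun j hj => h j (Finset.mem_insert_of_mem hj)) hS'
        (hl.mono (by simp))
      have h3 : HV (x i) (l i) := h i (Finset.mem_insert_self _ _)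
      have hij : l i ≠ l j := by
        intro h4
        have h5 := hl (Finset.mem_coe.2 (Finset.mem_insert_self i S))
          (Finset.mem_coe.2 (Finset.mem_insert_of_mem hj)) h4
        rw [h5] at hi
        exact hi hj
      rcases lt_or_gt_of_ne hij with h4 | h4
      · refine ⟨i, Finset.mem_insert_self _ _, h3.dom h1 h4, ?_⟩
        intro m hm
        rcases Finset.mem_insert.1 hm with rfl | hm
        · exact le_rfl
        · exact h4.le.trans (h2 m hm)
      · refine ⟨j, Finset.mem_insert_of_mem hj, ?_, ?_⟩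
        · rw [add_comm]
          exact h1.dom h3 h4
        · intro m hm
          rcases Finset.mem_insert.1 hm with rfl | hm
          · exact h4.le
          · exact h2 m hm

/-- bounded germs have a value -/
private lemma ts_exists {f : ℕ → ℂ} (hf : ∀ᶠ T in tsH, f T ≠ 0) {A : ℝ}
    (h1 : ∀ᶠ T : ℕ in tsH, Real.log ‖f T‖ ≤ A * T)
    (h2 : ∀ᶠ T : ℕ in tsH, -(A * T) ≤ Real.log ‖f T‖) : ∃ l, HV (tsG f) l := by
  have h3 : ∀ᶠ T : ℕ in tsH, Real.log ‖f T‖ / T ∈ Set.Icc (-A) A := by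
    filter_upwards [h1, h2, ts_evt.eventually_gt_atTop 0] with T k1 k2 k3
    constructor
    · rw [le_div_iff₀ k3]
      linarith
    · rw [div_le_iff₀ k3]
      exact k1
  have h4 : (((hyperfilter ℕ).map fun T : ℕ => Real.log ‖f T‖ / (T : ℝ) : Ultrafilter ℝ) :
      Filter ℝ) ≤ 𝓟 (Set.Icc (-A) A) := by
    rw [Filter.le_principal_iff]
    exact h3
  obtain ⟨l, -, hl⟩ := isCompact_Icc.ultrafilter_le_nhds _ h4
  refine ⟨-l, f, rfl, hf, ?_⟩
  rw [neg_neg]
  exact hl

/-- bounded by an exponential function -/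
private def UB (g : ℕ → ℝ) : Prop := ∃ A : ℝ, ∀ᶠ T : ℕ in tsH, g T ≤ Real.exp (A * T)

private lemma UB.add {g h : ℕ → ℝ} (hg : UB g) (hh : UB h) : UB fun T => g T + h T := by
  obtain ⟨A, hA⟩ := hg
  obtain ⟨B, hB⟩ := hh
  refine ⟨max A B + 1, ?_⟩
  filter_upwards [hA, hB, ts_evt.eventually_ge_atTop 1] with T h1 h2 h3
  have h4 : Real.exp (A * T) ≤ Real.exp (max A B * T) :=
    Real.exp_le_exp.2 (mul_le_mul_of_nonneg_right (le_max_left _ _) (by linarith))
  have h5 : Real.exp (B * T) ≤ Real.exp (max A B * T) :=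
    Real.exp_le_exp.2 (mul_le_mul_of_nonneg_right (le_max_right _ _) (by linarith))
  have h6 : (2 : ℝ) ≤ Real.exp T := by
    have := Real.add_one_le_exp (T : ℝ)
    linarith
  have h7 : Real.exp ((max A B + 1) * T) = Real.exp (max A B * T) * Real.exp T := by
    rw [← Real.exp_add]
    congr 1
    ring
  rw [h7]
  nlinarith [Real.exp_pos (max A B * T)]

private lemma UB.one : UB fun _ => 1 := ⟨0, Filter.Eventually.of_forall fun T => by simp⟩

private lemma UB.sum {g : ℕ → ℕ → ℝ} (n : ℕ) (h : ∀ i < n, UB (g i)) :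
    UB fun T => ∑ i ∈ Finset.range n, g i T := by
  induction n with
  | zero =>
    exact ⟨0, Filter.Eventually.of_forall fun T => by simp⟩
  | succ n ih =>
    have h1 := (ih fun i hi => h i (by omega)).add (h n (by omega))
    simpa only [Finset.sum_range_succ] using h1

private lemma UB.of_HV {f : ℕ → ℂ} {a : ℝ} (h : HV (tsG f) a) : UB fun T => ‖f T‖ := by
  obtain ⟨h1, h2⟩ := h.of_rep
  refine ⟨-a + 1, ?_⟩
  have h3 : ∀ᶠ T : ℕ in tsH, Real.log ‖f T‖ / T < -a + 1 :=
    h2.eventually (gt_mem_nhds (by linarith))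
  filter_upwards [h1, h3, ts_evt.eventually_gt_atTop 0] with T k1 k2 k3
  rw [div_lt_iff₀ k3] at k2
  rw [← Real.log_le_iff_le_exp (norm_pos_iff.2 k1)]
  exact k2.le

private lemma UB.of_zero {f : ℕ → ℂ} (h : tsG f = 0) : UB fun T => ‖f T‖ := by
  have h3 : tsG f = tsG 0 := by
    rw [h]
    exact (map_zero _).symm
  rw [tsG_eq_iff] at h3
  refine ⟨0, ?_⟩
  filter_upwards [h3] with T h4
  rw [h4]
  simp

private lemma ts_cauchy {x : ℂ} {n : ℕ} {a : ℕ → ℂ} (hn : 0 < n)
    (h : x ^ n + ∑ i ∈ Finset.range n, a i * x ^ i = 0) :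
    ‖x‖ ≤ 1 + ∑ i ∈ Finset.range n, ‖a i‖ := by
  have h0 : 0 ≤ ∑ i ∈ Finset.range n, ‖a i‖ := Finset.sum_nonneg fun _ _ => norm_nonneg _
  rcases le_or_gt ‖x‖ 1 with h1 | h1
  · linarith
  · have h2 : ‖x‖ ^ n ≤ (∑ i ∈ Finset.range n, ‖a i‖) * ‖x‖ ^ (n - 1) := by
      have h3 : x ^ n = -∑ i ∈ Finset.range n, a i * x ^ i := by linear_combination h
      rw [← norm_pow, h3, norm_neg, Finset.sum_mul]
      refine (norm_sum_le _ _).trans (Finset.sum_le_sum fun i hi => ?_)
      rw [norm_mul, norm_pow]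
      refine mul_le_mul_of_nonneg_left (pow_le_pow_right₀ h1.le ?_) (norm_nonneg _)
      have := Finset.mem_range.1 hi
      omega
    have h3 : 0 < ‖x‖ ^ (n - 1) := by positivity
    have h4 : ‖x‖ ^ n = ‖x‖ * ‖x‖ ^ (n - 1) := by
      rw [← pow_succ', Nat.sub_add_cancel hn]
    rw [h4] at h2
    have := le_of_mul_le_mul_right h2 h3
    linarith

/-- algebraic germs are bounded -/
private lemma ts_alg {f : ℕ → ℂ} {n : ℕ} (hn : 0 < n) (a : ℕ → UC)
    (ha : ∀ i < n, a i = 0 ∨ ∃ l, HV (a i) l)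
    (h : (tsG f) ^ n + ∑ i ∈ Finset.range n, a i * (tsG f) ^ i = 0) : UB fun T => ‖f T‖ := by
  choose g hg using fun i => tsG_surj (a i)
  have h1 : UB fun T => ∑ i ∈ Finset.range n, ‖g i T‖ := by
    refine UB.sum n fun i hi => ?_
    rcases ha i hi with h2 | ⟨l, h2⟩
    · refine UB.of_zero ?_
      rw [hg, h2]
    · refine UB.of_HV (a := l) ?_
      rwa [hg]
  have h2 := UB.one.add h1
  have h3 : tsG (f ^ n + ∑ i ∈ Finset.range n, g i * f ^ i) = tsG 0 := by
    have e : tsG (f ^ n + ∑ i ∈ Finset.range n, g i * f ^ i) =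
        (tsG f) ^ n + ∑ i ∈ Finset.range n, tsG (g i) * (tsG f) ^ i := by
      unfold tsG
      rw [map_add, map_pow, map_sum]
      congr 1
    rw [e]
    simp only [hg]
    rw [h]
    exact (map_zero _).symm
  rw [tsG_eq_iff] at h3
  obtain ⟨A, hA⟩ := h2
  refine ⟨A, ?_⟩
  filter_upwards [hA, h3] with T k1 k2
  refine le_trans (ts_cauchy (a := fun i => g i T) hn ?_) k1
  have k3 : (f ^ n + ∑ i ∈ Finset.range n, g i * f ^ i) T = 0 := k2
  rw [Pi.add_apply, Finset.sum_apply] at k3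
  exact k3

/-- Existence of the valuation, for a field `K` with an embedding `s` in `ℂ` (see `TSVex.lean`). -/
private theorem exists_rvK (K : Type) [Field K] (s : K →+* ℂ) {β : Type} [Fintype β] (θ : β → ℝ)
    (hθ : LinearIndependent ℚ θ) :
    ∃ (Ω : Type) (_ : Field Ω) (_ : IsAlgClosed Ω) (_ : Algebra K Ω) (v : Ω → ℝ) (c : β → Ω),
      RV K v ∧ (∀ i, c i ≠ 0) ∧ ∀ i, v (c i) = θ i := by
  classical
  let _ : Algebra K UC :=
    RingHom.toAlgebra ((Germ.coeRingHom (hyperfilter ℕ : Filter ℕ)).comp (RingHom.pi fun _ => s))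
  have hc0 : ∀ k : K, k ≠ 0 → HV (algebraMap K UC k) 0 := by
    intro k hk
    refine ⟨fun _ => s k, rfl, Filter.Eventually.of_forall fun T => ?_, ?_⟩
    · exact (map_ne_zero s).2 hk
    · rw [neg_zero]
      exact tendsto_const_nhds.div_atTop ts_evt
  let c : β → UC := fun i => tsG fun T => ((Real.exp (-((T : ℝ) * θ i)) : ℝ) : ℂ)
  have hc : ∀ i, HV (c i) (θ i) := by
    intro i
    refine ⟨_, rfl, Filter.Eventually.of_forall fun T => ?_, ?_⟩
    · exact_mod_cast (Real.exp_pos _).ne'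
    · refine tendsto_const_nhds.congr' ?_
      filter_upwards [ts_evt.eventually_gt_atTop 0] with T hT
      rw [Complex.norm_real, Real.norm_of_nonneg (Real.exp_pos _).le, Real.log_exp]
      field_simp
  -- products of powers
  have hprod : ∀ (S : Finset β) (e : β →₀ ℕ), HV (∏ i ∈ S, c i ^ e i) (∑ i ∈ S, (e i : ℝ) * θ i) := by
    intro S e
    induction S using Finset.induction_on with
    | empty =>
      rw [Finset.prod_empty, Finset.sum_empty]
      have := hc0 1 one_ne_zero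
      rwa [map_one] at this
    | insert i S hi ih =>
      rw [Finset.prod_insert hi, Finset.sum_insert hi]
      exact ((hc i).pow (e i)).mul ih
  have hpoly : ∀ P : MvPolynomial β K, P ≠ 0 → ∃ l, HV (aeval c P) l := by
    intro P hP
    have h1 : aeval c P = ∑ e ∈ P.support, algebraMap K UC (P.coeff e) * ∏ i, c i ^ e i := by
      rw [MvPolynomial.aeval_def, MvPolynomial.eval₂_eq']
    obtain ⟨e, he, h2, -⟩ := HV.sum P.support
      (fun e => algebraMap K UC (P.coeff e) * ∏ i, c i ^ e i) (fun e => 0 + ∑ i, (e i : ℝ) * θ i)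
      (fun e he => (hc0 _ (MvPolynomial.mem_support_iff.1 he)).mul (hprod Finset.univ e))
      (MvPolynomial.support_nonempty.2 hP) (by
        intro e _ e' _ h3
        have h4 : ∑ i, ((e i : ℚ) - (e' i : ℚ)) • θ i = 0 := by
          have h5 : ∀ i, ((e i : ℚ) - (e' i : ℚ)) • θ i = (e i : ℝ) * θ i - (e' i : ℝ) * θ i := by
            intro i
            rw [Rat.smul_def]
            push_cast
            ring
          simp only [h5]
          rw [Finset.sum_sub_distrib]
          have h6 : (0 : ℝ) + ∑ i, (e i : ℝ) * θ i = 0 + ∑ i, (e' i : ℝ) * θ i := h3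
          linarith
        have h5 := Fintype.linearIndependent_iff.1 hθ _ h4
        ext i
        have h6 := h5 i
        exact_mod_cast sub_eq_zero.1 h6)
    exact ⟨_, h1 ▸ h2⟩
  let F0 := IntermediateField.adjoin K (Set.range c)
  have hF0 : ∀ y : UC, y ∈ F0 → y = 0 ∨ ∃ l, HV y l := by
    intro y hy
    rw [IntermediateField.mem_adjoin_range_iff] at hy
    obtain ⟨P, Q, rfl⟩ := hy
    by_cases hP : P = 0
    · left
      rw [hP, map_zero, zero_div]
    by_cases hQ : Q = 0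
    · left
      rw [hQ, map_zero, div_zero]
    right
    obtain ⟨a, ha⟩ := hpoly P hP
    obtain ⟨b, hb⟩ := hpoly Q hQ
    rw [div_eq_mul_inv]
    exact ⟨_, ha.mul hb.inv⟩
  have hub : ∀ (x : UC) (f : ℕ → ℂ), tsG f = x → IsAlgebraic F0 x → UB fun T => ‖f T‖ := by
    intro x f hf hx
    have hi := hx.isIntegral
    refine ts_alg (minpoly.natDegree_pos hi) (fun i => (((minpoly F0 x).coeff i : F0) : UC))
      (fun i _ => hF0 _ ((minpoly F0 x).coeff i).2) ?_
    rw [hf]
    have h1 := minpoly.aeval F0 x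
    rw [Polynomial.aeval_eq_sum_range, Finset.sum_range_succ,
      (minpoly.monic hi).coeff_natDegree, one_smul] at h1
    rw [← h1, add_comm]
    rfl
  have hval : ∀ x : UC, x ≠ 0 → IsAlgebraic F0 x → ∃ l, HV x l := by
    intro x hx hx'
    obtain ⟨f, hf⟩ := tsG_surj x
    obtain ⟨g, hg⟩ := tsG_surj x⁻¹
    obtain ⟨A, hA⟩ := hub x f hf hx'
    obtain ⟨B, hB⟩ := hub x⁻¹ g hg hx'.inv
    have h1 : tsG (f * g) = tsG 1 := by
      have e1 : tsG (f * g) = tsG f * tsG g := map_mul _ _ _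
      have e2 : tsG 1 = 1 := map_one _
      rw [e1, e2, hf, hg, mul_inv_cancel₀ hx]
    rw [tsG_eq_iff] at h1
    rw [← hf]
    have hne : ∀ᶠ T in tsH, f T ≠ 0 ∧ g T ≠ 0 ∧ ‖f T‖ * ‖g T‖ = 1 := by
      filter_upwards [h1] with T h2
      have h3 : f T * g T = 1 := h2
      refine ⟨left_ne_zero_of_mul_eq_one h3, right_ne_zero_of_mul_eq_one h3, ?_⟩
      rw [← norm_mul, h3, norm_one]
    refine ts_exists (A := max A B) (hne.mono fun T h => h.1) ?_ ?_
    · filter_upwards [hA, hne, ts_evt.eventually_gt_atTop 0] with T k1 k2 k3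
      rw [Real.log_le_iff_le_exp (norm_pos_iff.2 k2.1)]
      exact k1.trans (Real.exp_le_exp.2 (mul_le_mul_of_nonneg_right (le_max_left _ _) k3.le))
    · filter_upwards [hB, hne, ts_evt.eventually_gt_atTop 0] with T k1 k2 k3
      have k4 : Real.log ‖f T‖ = -Real.log ‖g T‖ := by
        have k5 := congrArg Real.log k2.2.2
        rw [Real.log_mul (norm_ne_zero_iff.2 k2.1) (norm_ne_zero_iff.2 k2.2.1), Real.log_one] at k5
        linarith
      rw [k4, neg_le_neg_iff, Real.log_le_iff_le_exp (norm_pos_iff.2 k2.2.1)]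
      exact k1.trans (Real.exp_le_exp.2 (mul_le_mul_of_nonneg_right (le_max_right _ _) k3.le))
  let v : algebraicClosure F0 UC → ℝ := fun x =>
    if h : ∃ l, HV (x : UC) l then h.choose else 0
  have hv : ∀ (x : algebraicClosure F0 UC) (l : ℝ), HV (x : UC) l → v x = l := by
    intro x l h
    have h' : ∃ l, HV (x : UC) l := ⟨l, h⟩
    have e : v x = h'.choose := dif_pos h'
    rw [e]
    exact h'.choose_spec.unique h
  have hv' : ∀ x : algebraicClosure F0 UC, x ≠ 0 → HV (x : UC) (v x) := by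
    intro x hx
    have hx1 : (x : UC) ≠ 0 := fun h => hx (Subtype.ext h)
    obtain ⟨l, hl⟩ := hval x hx1 (mem_algebraicClosure_iff.1 x.2)
    rwa [hv x l hl]
  have hmem : ∀ i, c i ∈ algebraicClosure F0 UC := by
    intro i
    rw [mem_algebraicClosure_iff]
    exact isAlgebraic_algebraMap (⟨c i, IntermediateField.subset_adjoin _ _ ⟨i, rfl⟩⟩ : F0)
  refine ⟨algebraicClosure F0 UC, inferInstance, ?_, inferInstance, v, fun i => ⟨c i, hmem i⟩,
    ⟨?_, ?_, ?_⟩, ?_, ?_⟩
  · exact (algebraicClosure.isAlgClosure (F := F0) (E := UC)).isAlgClosed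
  · intro x y hx hy
    exact hv _ _ ((hv' x hx).mul (hv' y hy))
  · intro x y hx hy hxy
    exact (hv' x hx).add (hv' y hy) (hv' (x + y) hxy)
  · intro k hk
    exact hv _ _ (hc0 k hk)
  · intro i h
    exact (hc i).ne (congrArg Subtype.val h)
  · intro i
    exact hv _ _ (hc i)

/-- `TSVex.exists_rv` for the field of constants `ℂ`. -/
theorem exists_rvC {β : Type} [Fintype β] (θ : β → ℝ) (hθ : LinearIndependent ℚ θ) :
    ∃ (Ω : Type) (_ : Field Ω) (_ : IsAlgClosed Ω) (_ : Algebra ℂ Ω) (v : Ω → ℝ) (c : β → Ω),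
      RV ℂ v ∧ (∀ i, c i ≠ 0) ∧ ∀ i, v (c i) = θ i :=
  exists_rvK ℂ (RingHom.id ℂ) θ hθ

end Pool.Agent.Zilber
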