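import Pool.Agent.LSharp.TSCount
import Pool.Agent.LSharp.TSEmb
import Pool.Agent.Zilber.TVex

set_option autoImplicit false

/-! T: theorem T* with an honest valuation. ADAPTATION of `ts_step` in the finished file
`LSharp/TSLim.lean`. -/

namespace Pool.Agent.Zilber

open MvPolynomial Module Filter Topology Pool.Agent.CITLines Pool.Agent.Srf5 Pool.Agent.LSharp

private theorem zt_map_mon {K F Ω ι : Type} [Field K] [Field F] [Algebra K F] [Field Ω]
    [Algebra K Ω] [Fintype ι] (τ : F →ₐ[K] Ω) (w : ι → F) (y : ι → ℤ) :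
    τ (mon w y) = mon (fun l => τ (w l)) y := by
  simp only [mon, map_prod, map_zpow₀]

/-- A valuation which is trivial on `ℂ` is trivial on `K`. -/
private theorem zt_rv_K {K Ω : Type} [Field K] [Field Ω] [Algebra K Ω] [Algebra ℂ Ω]
    (s : K →+* ℂ) (hs : ∀ k : K, algebraMap K Ω k = algebraMap ℂ Ω (s k)) {v : Ω → ℝ}
    (h : RV ℂ v) : RV K v where
  mul := h.mul
  add := h.add
  triv := fun k hk => by
    rw [hs k]
    exact h.triv _ ((map_ne_zero s).2 hk)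

/-- **Step.**

Proof. As `ts_step` in `LSharp/TSLim.lean`, but with `exists_rvC` instead of `exists_rv`: for `N`
let `Ω, v, c` be given by `exists_rvC` for `N θ`; make `Ω` a `K`-algebra by
`((algebraMap ℂ Ω).comp s).toAlgebra` (a local `letI`), then `RV K v` follows from `RV ℂ v`
(`s k ≠ 0` for `k ≠ 0`). `emb_transfer` and `ts_claim` give `τ x : F →ₐ[K] Ω`; the required ring
homomorphism is `(τ x).toRingHom`. -/
theorem tstep (K : Type) [Field K] [CharZero K] (s : K →+* ℂ) {F β ι : Type} [Field F]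
    [Algebra K F] [Fintype ι] [Fintype β] (w : ι → F) (hw : ∀ l, w l ≠ 0)
    (htop : IntermediateField.adjoin K (Set.range w) = ⊤)
    (hdim : dm (kr K w) = Fintype.card β) (r : β → ι → ℝ) (m : ℝ) (hm : 0 < m) (N0 : ℕ)
    (hmany : ∀ N : ℕ, N0 ≤ N → ∀ y : β → ι → ℤ, (∀ i l, |(y i l : ℝ) - N * r i l| ≤ 1) →
      Many K w y (m * N ^ Fintype.card β)) (θ : β → ℝ) (hθ : LinearIndependent ℚ θ) :
    ∃ ω0 : ℝ, ∀ N : ℕ, N0 ≤ N → 1 ≤ N → ∃ (Ω : Type) (_ : Field Ω) (_ : IsAlgClosed Ω)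
      (_ : Algebra ℂ Ω) (v : Ω → ℝ) (τ : F →+* Ω), RV ℂ v ∧
      (∀ k : K, τ (algebraMap K F k) = algebraMap ℂ Ω (s k)) ∧ (∀ l, |v (τ (w l))| ≤ ω0) ∧
      ∀ i, ∑ l, (⌊(N : ℝ) * r i l⌋ : ℝ) * v (τ (w l)) = N * θ i := by
  obtain ⟨ω0, -, hω⟩ := ts_claim w hw htop hdim m (1 + ∑ i, ∑ l, |r i l|) hm θ hθ
  refine ⟨ω0, fun N hN0 hN1 => ?_⟩
  have hNR : (1 : ℝ) ≤ N := by exact_mod_cast hN1
  have hy : ∀ i l, |((⌊(N : ℝ) * r i l⌋ : ℤ) : ℝ) - N * r i l| ≤ 1 := by
    intro i l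
    have h1 := Int.floor_le ((N : ℝ) * r i l)
    have h2 := (Int.lt_floor_add_one ((N : ℝ) * r i l)).le
    rw [abs_le]
    constructor <;> linarith
  have hyb : ∀ i l, |((⌊(N : ℝ) * r i l⌋ : ℤ) : ℝ)| ≤ (1 + ∑ i, ∑ l, |r i l|) * N := by
    intro i l
    have h1 : |r i l| ≤ ∑ i, ∑ l, |r i l| :=
      (Finset.single_le_sum (f := fun l => |r i l|) (fun l _ => abs_nonneg _)
        (Finset.mem_univ l)).trans
        (Finset.single_le_sum (f := fun i => ∑ l, |r i l|)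
          (fun i _ => Finset.sum_nonneg fun l _ => abs_nonneg _) (Finset.mem_univ i))
    have h2 := hy i l
    have h3 : |(N : ℝ) * r i l| = N * |r i l| := by
      rw [abs_mul, abs_of_nonneg (by linarith)]
    have h4 : |((⌊(N : ℝ) * r i l⌋ : ℤ) : ℝ)| ≤
        |((⌊(N : ℝ) * r i l⌋ : ℤ) : ℝ) - N * r i l| + |(N : ℝ) * r i l| := by
      have := abs_add_le (((⌊(N : ℝ) * r i l⌋ : ℤ) : ℝ) - N * r i l) ((N : ℝ) * r i l)
      rwa [sub_add_cancel] at this
    have h5 : (N : ℝ) * |r i l| ≤ N * ∑ i, ∑ l, |r i l| :=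
      mul_le_mul_of_nonneg_left h1 (by linarith)
    rw [h3] at h4
    nlinarith
  obtain ⟨T, C1, _, _, _, σ, c1, hσ, h1, hc1, hcard⟩ := hmany N hN0 _ hy
  have hθN : LinearIndependent ℚ (fun i => (N : ℝ) * θ i) := by
    have hN' : (N : ℚ) ≠ 0 := by
      have : N ≠ 0 := by omega
      exact_mod_cast this
    have h2 := hθ.units_smul (fun _ => Units.mk0 (N : ℚ) hN')
    have h3 : ((fun _ : β => Units.mk0 (N : ℚ) hN') • θ) = fun i => (N : ℝ) * θ i := by
      ext i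
      change (N : ℚ) • θ i = _
      rw [Rat.smul_def]
      norm_num
    rwa [h3] at h2
  obtain ⟨Ω, iF, iA, iC, v, c, hvC, hc0, hvc⟩ := exists_rvC (fun i => (N : ℝ) * θ i) hθN
  let iK : Algebra K Ω := ((algebraMap ℂ Ω).comp s).toAlgebra
  have hs : ∀ k : K, algebraMap K Ω k = algebraMap ℂ Ω (s k) := fun _ => rfl
  have hv : RV K v := zt_rv_K s hs hvC
  have hcI := rv_indep hv c hc0 _ hθN hvc
  obtain ⟨τ, hτ, hτc⟩ := emb_transfer w htop hdim _ σ hσ c1 h1 hc1 c hcI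
  obtain ⟨x, hx⟩ := hω N hN1 _ hyb Ω v c hv hc0 hvc T τ hτ hτc hcard
  have hw' : ∀ l, τ x (w l) ≠ 0 := fun l h => hw l ((τ x).toRingHom.injective (by
    rw [map_zero]; exact h))
  refine ⟨Ω, iF, iA, iC, v, (τ x).toRingHom, hvC, fun k => ?_, hx, fun i => ?_⟩
  · rw [← hs k]
    exact (τ x).commutes k
  · have h2 := hτc x i
    rw [zt_map_mon] at h2
    have h3 := rv_mon hv (fun l => τ x (w l)) hw' (fun l => ⌊(N : ℝ) * r i l⌋)
    rw [h2, hvc] at h3
    rw [h3]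
    rfl

/-- Distinct values give linear independence: an honest valuation satisfies `Sep`.

Proof. As the last part of `ts_step` in `LSharp/TSLim.lean` (`rv_linind`, `rv_mon`), applied to `v`
itself. -/
theorem sep_of_rv {K F ι : Type} [Field K] [Field F] [Algebra K F] [Fintype ι] (w : ι → F)
    (hw : ∀ l, w l ≠ 0) {v : F → ℝ} (h : RV K v) : Sep K w (fun l => v (w l)) := by
  intro S hS
  refine rv_linind h _ (fun y => ?_) fun y y' hyy => ?_
  · exact Finset.prod_ne_zero_iff.2 fun l _ => zpow_ne_zero _ (hw l)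
  · change v (mon w (y : ι → ℤ)) = v (mon w (y' : ι → ℤ)) at hyy
    rw [rv_mon h _ hw, rv_mon h _ hw] at hyy
    exact Subtype.ext (hS y.2 y'.2 hyy)

/-- Proof. Immediate (`τ` is injective). -/
theorem rv_comap {K F Ω : Type} [Field K] [Field F] [Field Ω] [Algebra K F] [Algebra ℂ Ω]
    {v : Ω → ℝ} (h : RV ℂ v) (s : K →+* ℂ) (τ : F →+* Ω)
    (hτ : ∀ k : K, τ (algebraMap K F k) = algebraMap ℂ Ω (s k)) : RV K (fun y => v (τ y)) where
  mul := fun x y hx hy => by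
    rw [map_mul]
    exact h.mul _ _ ((map_ne_zero τ).2 hx) ((map_ne_zero τ).2 hy)
  add := fun x y hx hy hxy => by
    rw [map_add]
    refine h.add _ _ ((map_ne_zero τ).2 hx) ((map_ne_zero τ).2 hy) ?_
    rw [← map_add]
    exact (map_ne_zero τ).2 hxy
  triv := fun k hk => by
    rw [hτ k]
    exact h.triv _ ((map_ne_zero s).2 hk)

end Pool.Agent.Zilber
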