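import Pool.Agent.LSharp.TSDep
import Pool.Agent.LSharp.TSTheta
import Pool.Agent.Zilber.TMany
import Pool.Agent.Zilber.TStep
import Pool.Agent.Zilber.TChoose
import Pool.Agent.Zilber.TRelU

set_option autoImplicit false

/-! T: theorem T* with valuations at one level. -/

namespace Pool.Agent.Zilber

open MvPolynomial Pool.Agent.CITLines Pool.Agent.Srf5 Pool.Agent.LSharp

private theorem tl_aeval_gen {K ι β : Type} [Field K] (x : ι → MvPowerSeries β K)
    (P : MvPolynomial ι K) (h : aeval x P = 0) : aeval (gen x) P = 0 := by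
  have h1 : aeval (wx x) P = 0 := by
    have h2 := MvPolynomial.aeval_algebraMap_apply
      (B := FractionRing (MvPowerSeries β K)) x P
    rw [h, map_zero] at h2
    exact h2
  have h3 : (IntermediateField.adjoin K (Set.range (wx x))).val (aeval (gen x) P) =
      aeval (wx x) P :=
    MvPolynomial.comp_aeval_apply (φ := (IntermediateField.adjoin K (Set.range (wx x))).val)
      (gen x) P
  rw [h1] at h3
  exact Subtype.ext h3

/-- A nonzero multiple of an independent family of real numbers. -/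
private theorem tl_mul_indep {β : Type} [Fintype β] (S : Set ℝ) (θ : β → ℝ)
    (hθ : LinearIndependent (IntermediateField.adjoin ℚ S) θ) (c : ℝ) (hc : c ≠ 0) :
    LinearIndependent (IntermediateField.adjoin ℚ S) (fun i => c * θ i) := by
  rw [Fintype.linearIndependent_iff] at hθ ⊢
  intro a ha
  apply hθ a
  have h1 : ∑ i, a i • (c * θ i) = c * ∑ i, a i • θ i := by
    rw [Finset.mul_sum]
    refine Finset.sum_congr rfl fun i _ => ?_
    rw [mul_smul_comm]
  rw [h1] at ha
  exact (mul_eq_zero.1 ha).resolve_left hc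

/-- The coordinates of the basis vectors. -/
private theorem tl_hb {β ι : Type} [Fintype β] [DecidableEq β] (t : ι → ℝ) (g : β → ι)
    (q : ι → β → ℚ) (hl : ∀ l, t l = ∑ b, (q l b : ℝ) * t (g b))
    (hi : LinearIndependent ℚ (fun b => t (g b))) (b b' : β) :
    q (g b) b' = if b = b' then 1 else 0 := by
  have h1 := Fintype.linearIndependent_iff.1 hi
    (fun b' => q (g b) b' - if b = b' then 1 else 0) (by
      have h2 := hl (g b)
      have h3 : ∑ i, (q (g b) i - if b = i then (1 : ℚ) else 0) • t (g i) =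
          (∑ i, (q (g b) i : ℝ) * t (g i)) - t (g b) := by
        have h4 : ∀ i, (q (g b) i - if b = i then (1 : ℚ) else 0) • t (g i) =
            (q (g b) i : ℝ) * t (g i) - if b = i then t (g i) else 0 := by
          intro i
          rw [Rat.smul_def]
          split_ifs
          · push_cast
            ring
          · push_cast
            ring
        rw [Finset.sum_congr rfl fun i _ => h4 i, Finset.sum_sub_distrib, Finset.sum_ite_eq,
          if_pos (Finset.mem_univ b)]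
      rw [h3, ← h2, sub_self]) b'
  exact sub_eq_zero.1 h1

/-- **Theorem T* at one level.** `S` contains the entries of `rr` and all integers, `θ` is linearly independent over
the field generated by `S`; `D'` is given by `rel_unifx`.

Proof. `many_levelx`, `tstep` (with `gen_ne`, `gen_top`, `kr_gen`, `dm_wx`, `theta_rat`) give `ω0` and for all
`N ≥ N1 = max N0 1` data `Ω_N, v_N, φ_N`; let `t N l = v_N (φ_N (gen x l))`. By `rv_comap` `u_N y = v_N (φ_N y)` is `RV K`, and
`sep_of_rv` gives `Sep K (gen x) (t N)`. `dep_int` with `hD'` (`aeval x P = 0` implies `aeval (gen x) P = 0`, see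
`ts_aeval_wF` in `LSharp/TSFinal.lean`) gives the hypothesis `hdep` of `exists_q` for `t N`. Apply `exists_q` to the set
`S`, the vectors `⌊N * rr i l⌋` (integers, in `S`), `θ` replaced by `N * θ` (also linearly independent over the field) and
`t N`: it gives `g N, q N`. `choose_N` gives `N` with `det (∑ l, rr i l * q N l b) ≠ 0`. For this `N` let `g = g N`,
`q = q N`. `AD`: `hb` holds because the `t (g b)` are linearly independent over `ℚ` and
`t (g b) = ∑ b', q (g b) b' * t (g b')`. (To define the sequences use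
`choose` on the statement: for all `N ≥ N1` there are `t, g, q` with all properties AND there are `Ω, v, φ` with
`TW s x g q v φ` and `t l = v (φ (gen x l))`; so the fields `Ω_N` need not be chosen simultaneously.) -/
theorem levelx (K : Type) [Field K] [NumberField K] {ι β M : Type} [Fintype ι] [DecidableEq ι]
    [Fintype β] [DecidableEq β] [DecidableEq M] {x : ι → MvPowerSeries β K} {bs : β → ι}
    {cl : ι → M} {D : ℕ} (h : LX K x bs cl D) (D' : ℕ) (hD1 : 1 ≤ D')
    (hD' : ∀ (m : M) (A : Finset ι), (∀ l ∈ A, cl l = m) →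
      A.card = (Finset.univ.filter fun b => cl (bs b) = m).card + 1 →
      ∃ P : MvPolynomial ι K, P ≠ 0 ∧ P.vars ⊆ A ∧ (∀ l, P.degreeOf l ≤ D') ∧ aeval x P = 0)
    (s : K →+* ℂ) (rr : β → ι → ℝ)
    (hdet : Wdg s x rr id) (S : Set ℝ)
    (hS : ∀ i l, rr i l ∈ S) (hZ : ∀ n : ℤ, (n : ℝ) ∈ S) (θ : β → ℝ)
    (hθ : LinearIndependent (IntermediateField.adjoin ℚ S) θ) :
    ∃ (g : β → ι) (q : ι → β → ℚ), (∀ l b, |(q l b).num| ≤ D' ∧ (q l b).den ≤ D') ∧
      AD bs cl rr g q ∧ ∃ (Ω : Type) (_ : Field Ω) (_ : IsAlgClosed Ω) (_ : Algebra ℂ Ω)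
        (v : Ω → ℝ) (φ : GF x →+* Ω), TW s x g q v φ := by
  classical
  have hne : Nonempty (β → ι) := ⟨bs⟩
  obtain ⟨m, N0, hm, hmany⟩ := many_levelx K h s rr hdet
  have hdim : dm (kr K (gen x)) = Fintype.card β := by rw [kr_gen]; exact dm_wx h
  obtain ⟨ω0, hω⟩ := tstep K s (gen x) (gen_ne h) gen_top hdim rr m hm N0 hmany θ
    (theta_rat S θ hθ)
  have hex : ∀ N : ℕ, max N0 1 ≤ N → ∃ (t : ι → ℝ) (g : β → ι) (q : ι → β → ℚ),
      (∀ l, |t l| ≤ ω0) ∧ (∀ i, ∑ l, (⌊(N : ℝ) * rr i l⌋ : ℝ) * t l = N * θ i) ∧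
      (∀ l b, |(q l b).num| ≤ D' ∧ (q l b).den ≤ D') ∧
      (∀ l, t l = ∑ b, (q l b : ℝ) * t (g b)) ∧ LinearIndependent ℚ (fun b => t (g b)) ∧
      (∀ b, cl (g b) = cl (bs b)) ∧ (∀ l b, q l b ≠ 0 → cl l = cl (bs b)) ∧
      ∃ (Ω : Type) (_ : Field Ω) (_ : IsAlgClosed Ω) (_ : Algebra ℂ Ω) (v : Ω → ℝ)
        (φ : GF x →+* Ω), RV ℂ v ∧
        (∀ k : K, φ (algebraMap K (GF x) k) = algebraMap ℂ Ω (s k)) ∧
        ∀ l, t l = v (φ (gen x l)) := by
    intro N hN
    have hN0 : N0 ≤ N := (le_max_left _ _).trans hN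
    have hN1 : 1 ≤ N := (le_max_right _ _).trans hN
    obtain ⟨Ω, iF, iC, iA, v, φ, hv, hφ, ht1, ht2⟩ := hω N hN0 hN1
    have hsep : Sep K (gen x) (fun l => v (φ (gen x l))) :=
      sep_of_rv (v := fun y => v (φ y)) (gen x) (gen_ne h) (rv_comap hv s φ hφ)
    have hNr : (N : ℝ) ≠ 0 := by exact_mod_cast (by omega : N ≠ 0)
    obtain ⟨g, q, c1, c2, c3, c4, c5, -⟩ := exists_q S (fun i l => ((⌊(N : ℝ) * rr i l⌋ : ℤ) : ℝ))
      (fun i l => hZ _) (fun i => N * θ i) (tl_mul_indep S θ hθ N hNr)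
      (fun l => v (φ (gen x l))) ht2 cl (fun b => cl (bs b)) D' hD1 (by
        intro m A hA hcard
        obtain ⟨P, d1, d2, d3, d4⟩ := hD' m A hA hcard
        exact dep_int (gen x) _ hsep A P d1 d2 D' d3 (tl_aeval_gen x P d4))
    exact ⟨fun l => v (φ (gen x l)), g, q, ht1, ht2, c3, c4, c5, c1, c2, Ω, iF, iC, iA, v, φ, hv,
      hφ, fun l => rfl⟩
  choose! t g q h1 h2 h3 h4 h5 h6 h7 h8 using hex
  obtain ⟨N, hN, hd⟩ := choose_N S rr hS θ hθ ω0 (max N0 1) t h1 h2 g q D' h3 h4
  obtain ⟨Ω, iF, iC, iA, v, φ, hv, hφ, ht⟩ := h8 N hN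
  refine ⟨g N, q N, h3 N hN, ⟨h6 N hN, h7 N hN, tl_hb (t N) (g N) (q N) (h4 N hN) (h5 N hN), hd⟩,
    Ω, iF, iC, iA, v, φ, hv, hφ, ?_, ?_⟩
  · intro l
    have h9 := h4 N hN l
    simpa only [ht] using h9
  · have h9 := h5 N hN
    simpa only [ht] using h9

end Pool.Agent.Zilber
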