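import Pool.Agent.LSharp.TSPts
import Pool.Agent.Zilber.TLog

set_option autoImplicit false

/-! T: many points with prescribed values of the monomials. -/

namespace Pool.Agent.Zilber

open Pool.Agent.LSharp

/-- half of the inverse of the norm of the inverse -/
private noncomputable def tsC {β : Type} [Fintype β] (A : (β → ℂ) ≃L[ℂ] (β → ℂ)) : ℝ :=
  1 / (2 * (‖(A.symm : (β → ℂ) →L[ℂ] (β → ℂ))‖ + 1))

private lemma tsC_pos {β : Type} [Fintype β] (A : (β → ℂ) ≃L[ℂ] (β → ℂ)) : 0 < tsC A := by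
  unfold tsC
  positivity

private lemma ts_surj {β : Type} [Fintype β] (A : (β → ℂ) ≃L[ℂ] (β → ℂ))
    (F : (β → ℂ) → (β → ℂ)) (s : Set (β → ℂ))
    (hF : ∀ z ∈ s, ∀ z' ∈ s, ‖F z - F z' - A (z - z')‖ ≤ tsC A * ‖z - z'‖)
    (p : β → ℂ) (ε : ℝ) (hε : 0 ≤ ε) (hs : Metric.closedBall p ε ⊆ s) :
    Set.SurjOn F (Metric.closedBall p ε) (Metric.closedBall (F p) (tsC A * ε)) := by
  let A' : (β → ℂ) →L[ℂ] (β → ℂ) := A
  let B : (β → ℂ) →L[ℂ] (β → ℂ) := A.symm
  let c : NNReal := ⟨tsC A, (tsC_pos A).le⟩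
  have h1 : ApproximatesLinearOn F A' s c := fun z hz z' hz' => hF z hz z' hz'
  let R : A'.NonlinearRightInverse :=
    { toFun := A.symm
      nnnorm := ⟨‖B‖ + 1, by positivity⟩
      bound' := fun y => by
        refine (B.le_opNorm y).trans ?_
        have h0 : ‖B‖ ≤ ‖B‖ + 1 := by linarith
        exact mul_le_mul_of_nonneg_right h0 (norm_nonneg _)
      right_inv' := fun y => A.apply_symm_apply y }
  have h2 := h1.surjOn_closedBall_of_nonlinearRightInverse R hε hs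
  have h3 : (((R.nnnorm : NNReal) : ℝ)⁻¹ - (c : ℝ)) * ε = tsC A * ε := by
    have e1 : ((R.nnnorm : NNReal) : ℝ) = ‖B‖ + 1 := rfl
    have e2 : (c : ℝ) = 1 / (2 * (‖B‖ + 1)) := rfl
    have e3 : tsC A = 1 / (2 * (‖B‖ + 1)) := rfl
    rw [e1, e2, e3]
    have : (0 : ℝ) < ‖B‖ + 1 := by positivity
    field_simp
    ring
  rw [h3] at h2
  exact h2

private lemma ts_prod {β ι : Type} [Fintype ι] (g Lg : ι → (β → ℂ) → ℂ) (z : β → ℂ)
    (h : ∀ l, Complex.exp (Lg l z) = g l z) (y : ι → ℤ) (N : ℕ) (hN : (N : ℂ) ≠ 0) :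
    ∏ l, g l z ^ y l = Complex.exp (N * ((1 / (N : ℂ)) * ∑ l, (y l : ℂ) * Lg l z)) := by
  rw [← mul_assoc, mul_one_div_cancel hN, one_mul, Complex.exp_sum]
  refine Finset.prod_congr rfl fun l _ => ?_
  rw [Complex.exp_int_mul, h l]

/-- **Many points with prescribed values of the monomials.** The targets `T i` are arbitrary nonzero complex
numbers whose absolute values are close to the ones at `0`.

Proof. ADAPTATION of the first half of the proof of `lattice_points` (`LSharp/TSPts.lean`). `log_approxC` gives `A, Lg`,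
and for `c = tsC A = 1 / (2 (‖A⁻¹‖ + 1))` numbers `δ, N0`; let `F z i = (1 / N) ∑ l, y i l * Lg l z`. As there, the image of
the closed ball of radius `δ / 2` around `0` under `F` contains the closed ball of radius `c2 = tsC A * δ / 2` around
`F 0` (`ts_surj`, private in `TSPts`: copy it). The numbers `w_k i = (Complex.log (T i) + 2 π I k_i) / N`, `k_i : ℤ`, satisfy
`exp (N w_k i) = T i`. Real part: `Re (w_k i) = log ‖T i‖ / N`, and
`Re (F 0 i) = (1 / N) ∑ l, y i l * log ‖g l 0‖` (as `exp (Lg l 0) = g l 0`), which differs from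
`∑ l, r i l * log ‖g l 0‖` by at most `(C / N) ∑ l, |log ‖g l 0‖|`; so for `c1 = c2 / 4` and `N` large
`|Re (w_k i) - Re (F 0 i)| ≤ c2 / 2`. Imaginary part: `Im (w_k i) = (arg (T i) + 2 π k_i) / N`; the integers `k_i` with
`|Im (w_k i) - Im (F 0 i)| ≤ c2 / 2` are those in an interval of length `c2 N / (2 π)`: at least `c2 N / (2 π) - 1 ≥ c2 N / (4 π)`
of them for `N` large. For these `‖w_k i - F 0 i‖ ≤ c2` for all `i`, so `w_k = F z_k` with `‖z_k‖ ≤ δ / 2 < ρ`; different `k` give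
different `w_k`, so different `z_k`. `m = (c2 / (4 π))^(card β)`. -/
theorem lattice_target {β ι : Type} [Fintype β] [DecidableEq β] [Fintype ι]
    (g : ι → (β → ℂ) → ℂ) (D : ι → (β → ℂ) →L[ℂ] ℂ) (hg : ∀ l, HasStrictFDerivAt (g l) (D l) 0)
    (h0 : ∀ l, g l 0 ≠ 0) (r : β → ι → ℝ)
    (hdet : (Matrix.of fun i b => ∑ l, (r i l : ℂ) * D l (Pi.single b 1) / g l 0).det ≠ 0)
    (ρ : ℝ) (hρ : 0 < ρ) (C : ℝ) : ∃ (c1 m : ℝ) (N0 : ℕ), 0 < c1 ∧ 0 < m ∧ 1 ≤ N0 ∧
      ∀ N : ℕ, N0 ≤ N → ∀ y : β → ι → ℤ, (∀ i l, |(y i l : ℝ) - N * r i l| ≤ C) →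
        ∀ T : β → ℂ, (∀ i, T i ≠ 0) →
          (∀ i, |Real.log ‖T i‖ / N - ∑ l, r i l * Real.log ‖g l 0‖| ≤ c1) →
          ∃ S : Finset (β → ℂ), m * N ^ Fintype.card β ≤ S.card ∧
            ∀ z ∈ S, ‖z‖ < ρ ∧ (∀ l, g l z ≠ 0) ∧ ∀ i, ∏ l, g l z ^ y i l = T i := by
  classical
  obtain ⟨A, Lg, hA⟩ := log_approxC g D hg h0 r hdet ρ hρ C
  obtain ⟨δ, N1, hδ, hδρ, hN1, hgL, hap⟩ := hA (tsC A) (tsC_pos A)
  set c2 : ℝ := tsC A * (δ / 2) with hc2
  have hc2pos : 0 < c2 := mul_pos (tsC_pos A) (by positivity)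
  set K : ℝ := ∑ l, |Real.log ‖g l 0‖| with hK
  have hK0 : 0 ≤ K := Finset.sum_nonneg fun l _ => abs_nonneg _
  refine ⟨c2 / 4, (c2 / (4 * Real.pi)) ^ Fintype.card β,
    N1 + ⌈4 * (|C| * K) / c2⌉₊ + ⌈4 * Real.pi / c2⌉₊, by positivity, by positivity, by omega,
    fun N hN y hy T hT hlog => ?_⟩
  have hNN1 : N1 ≤ N := by omega
  have hN1' : (1 : ℝ) ≤ N := by exact_mod_cast hN1.trans hNN1
  have hNpos : (0 : ℝ) < N := by linarith
  have hNc : (N : ℂ) ≠ 0 := by exact_mod_cast hNpos.ne'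
  have hN2 : 4 * (|C| * K) / c2 ≤ N := by
    have h1 : ⌈4 * (|C| * K) / c2⌉₊ ≤ N := by omega
    exact (Nat.le_ceil _).trans (Nat.cast_le.2 h1)
  have hN3 : 4 * Real.pi / c2 ≤ N := by
    have h1 : ⌈4 * Real.pi / c2⌉₊ ≤ N := by omega
    exact (Nat.le_ceil _).trans (Nat.cast_le.2 h1)
  set F : (β → ℂ) → (β → ℂ) := fun z i => (1 / (N : ℂ)) * ∑ l, (y i l : ℂ) * Lg l z with hFd
  have hF : ∀ z ∈ Metric.ball (0 : β → ℂ) δ, ∀ z' ∈ Metric.ball (0 : β → ℂ) δ,
      ‖F z - F z' - A (z - z')‖ ≤ tsC A * ‖z - z'‖ := hap N hNN1 y hy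
  have hprod : ∀ z ∈ Metric.ball (0 : β → ℂ) δ, ∀ i,
      ∏ l, g l z ^ y i l = Complex.exp (N * F z i) := fun z hz i =>
    ts_prod g Lg z (fun l => (hgL z hz l).2) (y i) N hNc
  have h0b : (0 : β → ℂ) ∈ Metric.ball (0 : β → ℂ) δ := Metric.mem_ball_self hδ
  have hsub : Metric.closedBall (0 : β → ℂ) (δ / 2) ⊆ Metric.ball (0 : β → ℂ) δ :=
    Metric.closedBall_subset_ball (by linarith)
  have hsurj := ts_surj A F _ hF 0 (δ / 2) (by positivity) hsub
  rw [← hc2] at hsurj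
  -- the real part
  have hre0 : ∀ i, (F 0 i).re = ∑ l, (y i l : ℝ) / N * Real.log ‖g l 0‖ := by
    intro i
    have h1 : ∀ l, (Lg l 0).re = Real.log ‖g l 0‖ := by
      intro l
      rw [← (hgL 0 h0b l).2, Complex.norm_exp, Real.log_exp]
    have h2 : F 0 i = ∑ l, (((y i l : ℝ) / N : ℝ) : ℂ) * Lg l 0 := by
      simp only [hFd]
      rw [Finset.mul_sum]
      refine Finset.sum_congr rfl fun l _ => ?_
      push_cast
      ring
    rw [h2, Complex.re_sum]
    refine Finset.sum_congr rfl fun l _ => ?_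
    rw [Complex.re_ofReal_mul, h1]
  have hre : ∀ i, |Real.log ‖T i‖ / N - (F 0 i).re| ≤ c2 / 2 := by
    intro i
    have h1 := hlog i
    have h2 : |∑ l, r i l * Real.log ‖g l 0‖ - (F 0 i).re| ≤ c2 / 4 := by
      rw [hre0, ← Finset.sum_sub_distrib]
      refine (Finset.abs_sum_le_sum_abs _ _).trans ?_
      have h3 : ∀ l ∈ (Finset.univ : Finset ι), |r i l * Real.log ‖g l 0‖ -
          (y i l : ℝ) / N * Real.log ‖g l 0‖| ≤ |C| / N * |Real.log ‖g l 0‖| := by
        intro l _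
        rw [← sub_mul, abs_mul]
        refine mul_le_mul_of_nonneg_right ?_ (abs_nonneg _)
        have h4 : r i l - (y i l : ℝ) / N = -(((y i l : ℝ) - N * r i l) / N) := by
          field_simp
          ring
        rw [h4, abs_neg, abs_div, abs_of_pos hNpos]
        exact div_le_div_of_nonneg_right ((hy i l).trans (le_abs_self C)) hNpos.le
      refine (Finset.sum_le_sum h3).trans ?_
      rw [← Finset.mul_sum, ← hK]
      rw [div_mul_eq_mul_div, div_le_iff₀ hNpos]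
      rw [div_le_iff₀ hc2pos] at hN2
      linarith
    calc |Real.log ‖T i‖ / N - (F 0 i).re|
        = |(Real.log ‖T i‖ / N - ∑ l, r i l * Real.log ‖g l 0‖) +
          (∑ l, r i l * Real.log ‖g l 0‖ - (F 0 i).re)| := by ring_nf
      _ ≤ c2 / 4 + c2 / 4 := (abs_add_le _ _).trans (add_le_add h1 h2)
      _ = c2 / 2 := by ring
  -- the integers
  set L : ℝ := c2 * N / (4 * Real.pi) with hL
  have hπ := Real.pi_pos
  have hL1 : 1 ≤ L := by
    rw [hL, le_div_iff₀ (by positivity), one_mul]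
    rw [div_le_iff₀ hc2pos] at hN3
    linarith
  set a : β → ℝ := fun i => (N * (F 0 i).im - (T i).arg) / (2 * Real.pi) with ha
  set S : Finset (β → ℤ) := Fintype.piFinset (fun i => Finset.Icc ⌈a i - L⌉ ⌊a i + L⌋) with hS
  let q : (β → ℤ) → (β → ℂ) := fun k i =>
    (Complex.log (T i) + (k i : ℂ) * (2 * Real.pi * Complex.I)) / N
  have hq : ∀ k ∈ S, q k ∈ Metric.closedBall (F 0) c2 := by
    intro k hk
    rw [Metric.mem_closedBall, dist_eq_norm, pi_norm_le_iff_of_nonneg hc2pos.le]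
    intro i
    have hki := Finset.mem_Icc.1 (Fintype.mem_piFinset.1 hk i)
    have h1 : a i - L ≤ k i := Int.ceil_le.1 hki.1
    have h2 : (k i : ℝ) ≤ a i + L := Int.le_floor.1 hki.2
    have e0 : q k i = (((Real.log ‖T i‖ / N : ℝ) : ℂ)) +
        ((((T i).arg + 2 * Real.pi * k i) / N : ℝ) : ℂ) * Complex.I := by
      have e1 : Complex.log (T i) = (Real.log ‖T i‖ : ℂ) + ((T i).arg : ℂ) * Complex.I := rfl
      simp only [q]
      rw [e1]
      push_cast
      field_simp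
      ring
    have ere : (q k i).re = Real.log ‖T i‖ / N := by
      rw [e0, Complex.add_re, Complex.ofReal_re, Complex.re_ofReal_mul, Complex.I_re, mul_zero,
        add_zero]
    have eim : (q k i).im = ((T i).arg + 2 * Real.pi * k i) / N := by
      rw [e0, Complex.add_im, Complex.ofReal_im, Complex.im_ofReal_mul, Complex.I_im, mul_one,
        zero_add]
    have him : |(q k i).im - (F 0 i).im| ≤ c2 / 2 := by
      have e2 : (q k i).im - (F 0 i).im = 2 * Real.pi * (k i - a i) / N := by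
        rw [eim, ha]
        field_simp
        ring
      rw [e2, abs_div, abs_mul, abs_of_pos hNpos, abs_of_pos (by positivity : 0 < 2 * Real.pi),
        div_le_iff₀ hNpos]
      have h3 : |(k i : ℝ) - a i| ≤ L := by
        rw [abs_le]
        constructor <;> linarith
      calc 2 * Real.pi * |(k i : ℝ) - a i| ≤ 2 * Real.pi * L := by gcongr
        _ = c2 / 2 * N := by
          rw [hL]
          field_simp
          ring
    rw [Pi.sub_apply]
    refine (Complex.norm_le_abs_re_add_abs_im _).trans ?_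
    rw [Complex.sub_re, Complex.sub_im, ere]
    have h4 := hre i
    linarith
  have hex : ∀ k, ∃ z, k ∈ S → z ∈ Metric.closedBall (0 : β → ℂ) (δ / 2) ∧ F z = q k := by
    intro k
    by_cases hk : k ∈ S
    · obtain ⟨z, hz, hz'⟩ := hsurj (hq k hk)
      exact ⟨z, fun _ => ⟨hz, hz'⟩⟩
    · exact ⟨0, fun h => absurd h hk⟩
  choose zz hzz using hex
  have hinj : Set.InjOn zz (S : Set (β → ℤ)) := by
    intro k hk k' hk' h
    have h4 : q k = q k' := by
      rw [← (hzz k hk).2, ← (hzz k' hk').2, h]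
    funext i
    have h5 := congrFun h4 i
    simp only [q] at h5
    have h6 := (div_left_inj' hNc).1 h5
    have h7 := add_left_cancel h6
    have h8 : (2 * Real.pi * Complex.I : ℂ) ≠ 0 := Complex.two_pi_I_ne_zero
    have h9 := mul_right_cancel₀ h8 h7
    exact_mod_cast h9
  refine ⟨S.image zz, ?_, ?_⟩
  · rw [Finset.card_image_of_injOn hinj, hS, Fintype.card_piFinset, ← mul_pow, Nat.cast_prod]
    have h1 : ∀ i ∈ (Finset.univ : Finset β), c2 / (4 * Real.pi) * N ≤
        ((Finset.Icc ⌈a i - L⌉ ⌊a i + L⌋).card : ℝ) := by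
      intro i _
      rw [Int.card_Icc]
      have h2 := Int.lt_floor_add_one (a i + L)
      have h3 := Int.ceil_lt_add_one (a i - L)
      have h4 : ((⌊a i + L⌋ + 1 - ⌈a i - L⌉ : ℤ) : ℝ) ≤
          (((⌊a i + L⌋ + 1 - ⌈a i - L⌉).toNat : ℕ) : ℝ) := by
        exact_mod_cast Int.self_le_toNat _
      push_cast at h4
      calc c2 / (4 * Real.pi) * N = L := by rw [hL]; ring
        _ ≤ _ := by linarith
    calc (c2 / (4 * Real.pi) * N) ^ Fintype.card β
        = ∏ _i : β, (c2 / (4 * Real.pi) * N) := by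
          rw [Finset.prod_const, Finset.card_univ]
      _ ≤ _ := Finset.prod_le_prod (fun _ _ => by positivity) h1
  · intro z hz
    obtain ⟨k, hk, rfl⟩ := Finset.mem_image.1 hz
    obtain ⟨hz1, hz2⟩ := hzz k hk
    have hz3 := hsub hz1
    refine ⟨lt_of_lt_of_le (mem_ball_zero_iff.1 hz3) hδρ, fun l => (hgL _ hz3 l).1,
      fun i => ?_⟩
    rw [hprod _ hz3 i, hz2]
    simp only [q]
    rw [mul_div_cancel₀ _ hNc, Complex.exp_add, Complex.exp_log (hT i),
      Complex.exp_int_mul_two_pi_mul_I, mul_one]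

end Pool.Agent.Zilber
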