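import Pool.Agent.Zil.RFin
import Pool.Agent.Zil.RCut
import Pool.Agent.Zil.KND
import Pool.Agent.Zilber.ND

set_option autoImplicit false

/-! TOP: the statement NDc implies the Zilber conjecture (owner helper95). -/

namespace Pool.Agent.Zilber

open Filter NumberField Pool.Agent.LSharp Pool.Agent.CITLines

private theorem mk_zpow {J : Type} (𝒰 : Ultrafilter J) (K : J → Type) [∀ j, Field (K j)]
    (z : ∀ j, K j) (n : ℤ) : Ult.mk 𝒰 K z ^ n = Ult.mk 𝒰 K (fun j => z j ^ n) := by
  obtain ⟨m, rfl | rfl⟩ := n.eq_nat_or_neg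
  · rw [zpow_natCast, ← map_pow]
    congr 1
    funext j
    rw [Pi.pow_apply, zpow_natCast]
  · rw [zpow_neg, zpow_natCast, ← map_pow, ← Ult.mk_inv]
    congr 1
    funext j
    rw [Pi.pow_apply, zpow_neg, zpow_natCast]

private theorem mon_mk {J : Type} (𝒰 : Ultrafilter J) (K : J → Type) [∀ j, Field (K j)] {ι : Type}
    [Fintype ι] (x : ∀ j, ι → K j) (a : ι → ℤ) :
    mon (fun i => Ult.mk 𝒰 K (fun j => x j i)) a = Ult.mk 𝒰 K (fun j => mon (x j) a) := by
  unfold mon
  rw [Finset.prod_congr rfl fun i _ => mk_zpow 𝒰 K (fun j => x j i) (a i), ← map_prod]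
  congr 1
  funext j
  rw [Finset.prod_apply]

theorem ndc_bridge (h : NDc) : Zil.NDc := by
  intro J 𝒰 K _ _ ι _ x hx ht r hr
  classical
  let e : Fin (Fintype.card ι) ≃ ι := (Fintype.equivFin ι).symm
  have hmon : ∀ {L : Type} [Field L] (w : ι → L) (a : Fin (Fintype.card ι) → ℤ),
      mon (fun i => w (e i)) a = mon w (a ∘ e.symm) := by
    intro L _ w a
    unfold mon
    rw [← Equiv.prod_comp e]
    refine Finset.prod_congr rfl fun i _ => ?_
    rw [Function.comp_apply, Equiv.symm_apply_apply]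
  have h1 := h J 𝒰 K (Fintype.card ι) r (fun i => Ult.mk 𝒰 K (fun j => x j (e i))) ?_ ?_ ?_
  · refine h1.trans (rk_mono ?_)
    rintro _ ⟨i, rfl⟩
    exact ⟨e i, rfl⟩
  · intro i h0
    rw [Ult.mk_eq_zero] at h0
    obtain ⟨j, h2, h3⟩ := (h0.and hx).exists
    exact h3 _ h2
  · intro a ha
    rw [hmon (fun i => Ult.mk 𝒰 K (fun j => x j i)) a, mon_mk]
    refine ht _ fun h0 => ha ?_
    funext i
    have := congrFun h0 (e i)
    rwa [Function.comp_apply, Equiv.symm_apply_apply] at this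
  · have h2 : ∀ᶠ j in (𝒰 : Filter J), ∀ i, (Ult.mk 𝒰 K (fun j => x j (e i))).rep j = x j (e i) :=
      Filter.eventually_all.2 fun i => Ult.rep_mk _
    filter_upwards [hr, h2] with j hj h3
    obtain ⟨b, hb, hb1⟩ := hj
    refine ⟨fun p i => b p (e i), ?_, fun p => ?_⟩
    · have h4 := hb.map' (LinearEquiv.funCongrLeft ℤ ℤ e).toLinearMap (LinearEquiv.ker _)
      exact h4
    · have h5 : (fun i => (Ult.mk 𝒰 K (fun j => x j (e i))).rep j) = fun i => x j (e i) := by
        funext i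
        exact h3 i
      rw [h5, hmon (x j), ← hb1 p]
      congr 1
      funext i
      change b p (e (e.symm i)) = b p i
      rw [Equiv.apply_symm_apply]

theorem zilber_of_ndc (h : NDc) : ZilberCIT :=
  Zil.zilber_of_cut (Zil.cut_of_ND (Zil.nd_of_ndc (ndc_bridge h)))

end Pool.Agent.Zilber
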